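import Pool.Agent.Lib.MP_021f05_al.Core

/-!
# MP_021f05_al: the algebras `𝔸(J⁺, J⁻)`

`Q.T Jp Jm` is the algebra with generators `E_j (j ∈ Jp)`, `F_j (j ∈ Jm)`, `K_i^{±1}` (all `i`)
and the relations of the quantized enveloping algebra among them.
-/

noncomputable section

namespace Pool.Agent.Lib.QG

/-- Combinatorial data of finite type: Cartan matrix, symmetrizer, positive roots. -/
structure CDatum (I : Type) [Fintype I] [DecidableEq I] where
  /-- `a i j = ⟨α_j, α_i^∨⟩` -/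
  a : I → I → ℤ
  d : I → ℕ
  d_pos : ∀ i, 0 < d i
  diag : ∀ i, a i i = 2
  nonpos : ∀ i j, i ≠ j → a i j ≤ 0
  ge : ∀ i j, -3 ≤ a i j
  symm : ∀ i j, (d i : ℤ) * a i j = d j * a j i
  pos : ∀ μ : I → ℤ, μ ≠ 0 → 0 < ∑ i, ∑ j, μ i * (d i * a i j) * μ j
  /-- positive roots -/
  Φ : Finset (I → ℤ)
  Φ_ne : ∀ β ∈ Φ, β ≠ 0
  Φ_nonneg : ∀ β ∈ Φ, ∀ j, 0 ≤ β j
  Φ_simple : ∀ i, (Pi.single i 1 : I → ℤ) ∈ Φ
  Φ_refl : ∀ i, ∀ β ∈ Φ, β ≠ Pi.single i 1 → β - (∑ j, a i j * β j) • (Pi.single i 1 : I → ℤ) ∈ Φ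
  Φ_prim : ∀ β ∈ Φ, ∀ γ ∈ Φ, ∀ m n : ℤ, m ≠ 0 → m • β = n • γ → β = γ

/-- Data for a quantized enveloping algebra: finite type and a non-root of unity. -/
structure QD (k : Type) [Field k] (I : Type) [Fintype I] [DecidableEq I] extends CDatum I where
  q : k
  q_ne : q ≠ 0
  q_root : ∀ n : ℕ, 0 < n → q ^ n ≠ 1

/-! ### q-numbers -/

section qnum
variable {k : Type} [Field k]

/-- `[n]_p = (p^n - p^{-n})/(p - p^{-1})` -/
def qn (p : k) (n : ℤ) : k := (p ^ n - p ^ (-n)) / (p - p⁻¹)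

/-- `[n]_p!` -/
def qf (p : k) (n : ℕ) : k := ∏ s ∈ Finset.range n, qn p (s + 1)

/-- Gaussian binomial -/
def qb (p : k) (n s : ℕ) : k := qf p n / (qf p s * qf p (n - s))

/-- the quantum Serre polynomial `∑ (-1)^s [n, s] x^{n-s} y x^s` -/
def serre {A : Type} [Ring A] [Algebra k A] (p : k) (n : ℕ) (x y : A) : A :=
  ∑ s ∈ Finset.range (n + 1), ((-1) ^ s * qb p n s) • (x ^ (n - s) * y * x ^ s)

end qnum

variable {k : Type} [Field k] {I : Type} [Fintype I] [DecidableEq I]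

namespace CDatum
variable (C : CDatum I)

/-- `⟨μ, α_i^∨⟩` -/
def ct (i : I) (μ : I → ℤ) : ℤ := ∑ j, C.a i j * μ j

/-- the simple root `α_i` -/
def al (_C : CDatum I) (i : I) : I → ℤ := Pi.single i 1

/-- the simple reflection on the root lattice -/
def refl (i : I) (μ : I → ℤ) : I → ℤ := μ - C.ct i μ • C.al i

/-- the dot action `s_i · μ = s_i μ - α_i` -/
def dot (i : I) (μ : I → ℤ) : I → ℤ := C.refl i μ - C.al i

end CDatum

namespace QD
variable (Q : QD k I)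

/-- `q_i = q^{d_i}` -/
def qi (i : I) : k := Q.q ^ Q.d i

/-- the character `χ_μ(K_i) = q^{(α_i, μ)}` of the torus -/
def χ (μ : I → ℤ) (i : I) : k := Q.q ^ ((Q.d i : ℤ) * Q.ct i μ)

end QD

/-- generators -/
inductive Gen (I : Type) : Type
  | E (i : I) : Gen I
  | F (i : I) : Gen I
  | K (i : I) : Gen I
  | L (i : I) : Gen I

/-- elements of an algebra which satisfy the relations -/
structure QElts (Q : QD k I) (Jp Jm : Set I) (B : Type) [Ring B] [Algebra k B] where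
  E : I → B
  F : I → B
  K : I → B
  L : I → B
  KL : ∀ i, K i * L i = 1
  LK : ∀ i, L i * K i = 1
  KK : ∀ i j, K i * K j = K j * K i
  KE : ∀ i j, K i * E j = Q.q ^ ((Q.d i : ℤ) * Q.a i j) • (E j * K i)
  KF : ∀ i j, K i * F j = Q.q ^ (-((Q.d i : ℤ) * Q.a i j)) • (F j * K i)
  EF : ∀ i j, i ∈ Jp → j ∈ Jm →
    E i * F j = F j * E i + if i = j then (Q.qi i - (Q.qi i)⁻¹)⁻¹ • (K i - L i) else 0
  E0 : ∀ i, i ∉ Jp → E i = 0
  F0 : ∀ i, i ∉ Jm → F i = 0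
  SE : ∀ i j, i ∈ Jp → j ∈ Jp → i ≠ j → serre (Q.qi i) (1 - Q.a i j).toNat (E i) (E j) = 0
  SF : ∀ i j, i ∈ Jm → j ∈ Jm → i ≠ j → serre (Q.qi i) (1 - Q.a i j).toNat (F i) (F j) = 0

open FreeAlgebra in
/-- the relations -/
inductive Rel (Q : QD k I) (Jp Jm : Set I) : FreeAlgebra k (Gen I) → FreeAlgebra k (Gen I) → Prop
  | KL i : Rel Q Jp Jm (ι k (.K i) * ι k (.L i)) 1
  | LK i : Rel Q Jp Jm (ι k (.L i) * ι k (.K i)) 1
  | KK i j : Rel Q Jp Jm (ι k (.K i) * ι k (.K j)) (ι k (.K j) * ι k (.K i))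
  | KE i j : Rel Q Jp Jm (ι k (.K i) * ι k (.E j))
      (Q.q ^ ((Q.d i : ℤ) * Q.a i j) • (ι k (.E j) * ι k (.K i)))
  | KF i j : Rel Q Jp Jm (ι k (.K i) * ι k (.F j))
      (Q.q ^ (-((Q.d i : ℤ) * Q.a i j)) • (ι k (.F j) * ι k (.K i)))
  | EF i j (hi : i ∈ Jp) (hj : j ∈ Jm) : Rel Q Jp Jm (ι k (.E i) * ι k (.F j))
      (ι k (.F j) * ι k (.E i)
        + if i = j then (Q.qi i - (Q.qi i)⁻¹)⁻¹ • (ι k (.K i) - ι k (.L i)) else 0)
  | E0 i (hi : i ∉ Jp) : Rel Q Jp Jm (ι k (.E i)) 0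
  | F0 i (hi : i ∉ Jm) : Rel Q Jp Jm (ι k (.F i)) 0
  | SE i j (hi : i ∈ Jp) (hj : j ∈ Jp) (hij : i ≠ j) :
      Rel Q Jp Jm (serre (Q.qi i) (1 - Q.a i j).toNat (ι k (.E i)) (ι k (.E j))) 0
  | SF i j (hi : i ∈ Jm) (hj : j ∈ Jm) (hij : i ≠ j) :
      Rel Q Jp Jm (serre (Q.qi i) (1 - Q.a i j).toNat (ι k (.F i)) (ι k (.F j))) 0

/-- the algebra `𝔸(J⁺, J⁻)` -/
def QA (Q : QD k I) (Jp Jm : Set I) : Type := RingQuot (Rel Q Jp Jm)

instance (Q : QD k I) (Jp Jm : Set I) : Ring (QA Q Jp Jm) :=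
  inferInstanceAs (Ring (RingQuot (Rel Q Jp Jm)))
instance (Q : QD k I) (Jp Jm : Set I) : Algebra k (QA Q Jp Jm) :=
  inferInstanceAs (Algebra k (RingQuot (Rel Q Jp Jm)))

/-- the quotient map -/
def QA.mk (Q : QD k I) (Jp Jm : Set I) : FreeAlgebra k (Gen I) →ₐ[k] QA Q Jp Jm :=
  RingQuot.mkAlgHom k (Rel Q Jp Jm)

lemma serre_map {A B : Type} [Ring A] [Algebra k A] [Ring B] [Algebra k B] (f : A →ₐ[k] B)
    (p : k) (n : ℕ) (x y : A) : f (serre p n x y) = serre p n (f x) (f y) := by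
  simp [serre, map_sum, map_smul]

lemma QA.rel {Q : QD k I} {Jp Jm : Set I} {x y : FreeAlgebra k (Gen I)} (h : Rel Q Jp Jm x y) :
    QA.mk Q Jp Jm x = QA.mk Q Jp Jm y := RingQuot.mkAlgHom_rel k h

/-- the generators of `𝔸(J⁺, J⁻)` -/
def QA.elts (Q : QD k I) (Jp Jm : Set I) : QElts Q Jp Jm (QA Q Jp Jm) where
  E i := QA.mk Q Jp Jm (FreeAlgebra.ι k (.E i))
  F i := QA.mk Q Jp Jm (FreeAlgebra.ι k (.F i))
  K i := QA.mk Q Jp Jm (FreeAlgebra.ι k (.K i))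
  L i := QA.mk Q Jp Jm (FreeAlgebra.ι k (.L i))
  KL i := by rw [← map_mul, QA.rel (Rel.KL i), map_one]
  LK i := by rw [← map_mul, QA.rel (Rel.LK i), map_one]
  KK i j := by rw [← map_mul, QA.rel (Rel.KK i j), map_mul]
  KE i j := by rw [← map_mul, QA.rel (Rel.KE i j), map_smul, map_mul]
  KF i j := by rw [← map_mul, QA.rel (Rel.KF i j), map_smul, map_mul]
  EF i j hi hj := by
    rw [← map_mul, QA.rel (Rel.EF i j hi hj), map_add, map_mul]
    split_ifs <;> simp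
  E0 i hi := by rw [QA.rel (Rel.E0 i hi), map_zero]
  F0 i hi := by rw [QA.rel (Rel.F0 i hi), map_zero]
  SE i j hi hj hij := by rw [← serre_map, QA.rel (Rel.SE i j hi hj hij), map_zero]
  SF i j hi hj hij := by rw [← serre_map, QA.rel (Rel.SF i j hi hj hij), map_zero]

section lift
variable {Q : QD k I} {Jp Jm : Set I} {B : Type} [Ring B] [Algebra k B]

/-- the universal property -/
def QElts.lift (e : QElts Q Jp Jm B) : QA Q Jp Jm →ₐ[k] B :=
  RingQuot.liftAlgHom k ⟨FreeAlgebra.lift k (fun g => match g with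
    | .E i => e.E i
    | .F i => e.F i
    | .K i => e.K i
    | .L i => e.L i), by
    intro x y h
    induction h with
    | KL i => simp [e.KL]
    | LK i => simp [e.LK]
    | KK i j => simp [e.KK i j]
    | KE i j => simp [e.KE i j]
    | KF i j => simp [e.KF i j]
    | EF i j hi hj => 
      have := e.EF i j hi hj
      split_ifs at this ⊢ with h <;> simp_all
    | E0 i hi => simp [e.E0 i hi]
    | F0 i hi => simp [e.F0 i hi]
    | SE i j hi hj hij => rw [serre_map]; simp [e.SE i j hi hj hij]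
    | SF i j hi hj hij => rw [serre_map]; simp [e.SF i j hi hj hij]⟩

lemma QElts.lift_mk (e : QElts Q Jp Jm B) (g : Gen I) :
    e.lift (QA.mk Q Jp Jm (FreeAlgebra.ι k g)) = (match g with
    | .E i => e.E i
    | .F i => e.F i
    | .K i => e.K i
    | .L i => e.L i) := by
  exact (RingQuot.liftAlgHom_mkAlgHom_apply _ _ _ _).trans (FreeAlgebra.lift_ι_apply _ _)

@[simp] lemma QElts.lift_E (e : QElts Q Jp Jm B) (i : I) :
    e.lift ((QA.elts Q Jp Jm).E i) = e.E i := e.lift_mk (.E i)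
@[simp] lemma QElts.lift_F (e : QElts Q Jp Jm B) (i : I) :
    e.lift ((QA.elts Q Jp Jm).F i) = e.F i := e.lift_mk (.F i)
@[simp] lemma QElts.lift_K (e : QElts Q Jp Jm B) (i : I) :
    e.lift ((QA.elts Q Jp Jm).K i) = e.K i := e.lift_mk (.K i)
@[simp] lemma QElts.lift_L (e : QElts Q Jp Jm B) (i : I) :
    e.lift ((QA.elts Q Jp Jm).L i) = e.L i := e.lift_mk (.L i)

/-- algebra maps out of `𝔸(J⁺, J⁻)` are determined on generators -/
lemma QA.hom_ext {f g : QA Q Jp Jm →ₐ[k] B}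
    (hE : ∀ i, f ((QA.elts Q Jp Jm).E i) = g ((QA.elts Q Jp Jm).E i))
    (hF : ∀ i, f ((QA.elts Q Jp Jm).F i) = g ((QA.elts Q Jp Jm).F i))
    (hK : ∀ i, f ((QA.elts Q Jp Jm).K i) = g ((QA.elts Q Jp Jm).K i)) : f = g := by
  apply RingQuot.ringQuot_ext'
  apply FreeAlgebra.hom_ext
  funext x
  cases x with
  | E i => exact hE i
  | F i => exact hF i
  | K i => exact hK i
  | L i =>
    show f ((QA.elts Q Jp Jm).L i) = g ((QA.elts Q Jp Jm).L i)
    have h1 : f ((QA.elts Q Jp Jm).L i) * f ((QA.elts Q Jp Jm).K i) = 1 := by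
      rw [← map_mul, (QA.elts Q Jp Jm).LK, map_one]
    have h2 : g ((QA.elts Q Jp Jm).K i) * g ((QA.elts Q Jp Jm).L i) = 1 := by
      rw [← map_mul, (QA.elts Q Jp Jm).KL, map_one]
    calc f ((QA.elts Q Jp Jm).L i) = f ((QA.elts Q Jp Jm).L i) * (g ((QA.elts Q Jp Jm).K i) * g ((QA.elts Q Jp Jm).L i)) := by rw [h2, mul_one]
      _ = g ((QA.elts Q Jp Jm).L i) := by rw [← hK, ← mul_assoc, h1, one_mul]

/-- induction principle: a subalgebra containing the generators is everything -/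
lemma QA.induction {p : QA Q Jp Jm → Prop}
    (hs : ∀ t : k, p (algebraMap k _ t)) (hE : ∀ i, p ((QA.elts Q Jp Jm).E i))
    (hF : ∀ i, p ((QA.elts Q Jp Jm).F i)) (hK : ∀ i, p ((QA.elts Q Jp Jm).K i))
    (hL : ∀ i, p ((QA.elts Q Jp Jm).L i)) (hadd : ∀ x y, p x → p y → p (x + y))
    (hmul : ∀ x y, p x → p y → p (x * y)) (x : QA Q Jp Jm) : p x := by
  obtain ⟨y, rfl⟩ := RingQuot.mkAlgHom_surjective k (Rel Q Jp Jm) x
  induction y using FreeAlgebra.induction with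
  | grade0 r => rw [AlgHom.commutes]; exact hs r
  | grade1 x =>
    cases x with
    | E i => exact hE i
    | F i => exact hF i
    | K i => exact hK i
    | L i => exact hL i
  | mul a b ha hb => rw [map_mul]; exact hmul _ _ ha hb
  | add a b ha hb => rw [map_add]; exact hadd _ _ ha hb

end lift

/-- the augmentation -/
def QElts.eps (Q : QD k I) (Jp Jm : Set I) : QElts Q Jp Jm k where
  E _ := 0
  F _ := 0
  K _ := 1
  L _ := 1
  KL _ := by simp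
  LK _ := by simp
  KK _ _ := by simp
  KE _ _ := by simp
  KF _ _ := by simp
  EF i j _ _ := by split_ifs <;> simp
  E0 _ _ := rfl
  F0 _ _ := rfl
  SE _ _ _ _ _ := by simp [serre]
  SF _ _ _ _ _ := by simp [serre]

/-- the torus algebra `𝔸(J⁺, J⁻)` -/
def QD.T (Q : QD k I) (Jp Jm : Set I) : TAlg k I where
  A := QA Q Jp Jm
  ε := (QElts.eps Q Jp Jm).lift
  K i := ⟨(QA.elts Q Jp Jm).K i, (QA.elts Q Jp Jm).L i, (QA.elts Q Jp Jm).KL i,
    (QA.elts Q Jp Jm).LK i⟩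
  K_comm i j := Units.ext ((QA.elts Q Jp Jm).KK i j)
  ε_K i := (QElts.eps Q Jp Jm).lift_K i

end Pool.Agent.Lib.QG
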