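import Pool.Agent.Lib.MP_021f05_al.Alg

/-!
# MP_021f05_al (H): reflections and Demazure operators on polynomials (definitions, first lemmas)
-/

noncomputable section

namespace Pool.Agent.Lib.QG

open MvPolynomial

variable {k : Type} [Field k] [CharZero k] {I : Type} [Fintype I] [DecidableEq I] (C : CDatum I)

/-- `θ_i = ∑_l a_{il} x_l` -/
def CDatum.th (k : Type) [Field k] (i : I) : MvPolynomial I k := ∑ l, (C.a i l : k) • X l

/-- the reflection `s_i` on polynomials: `x_i ↦ x_i - θ_i`, `x_j ↦ x_j` for `j ≠ i` -/
def CDatum.rs (k : Type) [Field k] (i : I) : MvPolynomial I k →ₐ[k] MvPolynomial I k :=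
  aeval fun j => if j = i then X i - C.th k i else X j

/-- invariant polynomials -/
def CDatum.IsInv (p : MvPolynomial I k) : Prop := ∀ i, C.rs k i p = p

omit [CharZero k] in
private theorem Chev_rs_X (i j : I) :
    C.rs k i (X j) = if j = i then X i - C.th k i else X j := by
  rw [CDatum.rs, aeval_X]

omit [CharZero k] in
private theorem Chev_X_sub (i j : I) :
    (X j : MvPolynomial I k) - C.rs k i (X j) = if j = i then C.th k i else 0 := by
  rw [Chev_rs_X]
  split_ifs with h
  · rw [h]; ring
  · ring

omit [CharZero k] in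
/-- `θ_i` divides `p - s_i p` -/
theorem CDatum.dem_exists (i : I) (p : MvPolynomial I k) : ∃ p', C.th k i * p' = p - C.rs k i p := by
  induction p using MvPolynomial.induction_on with
  | C a => exact ⟨0, by rw [← MvPolynomial.algebraMap_eq, AlgHom.commutes]; ring⟩
  | add p p' hp hp' =>
    obtain ⟨u, hu⟩ := hp
    obtain ⟨v, hv⟩ := hp'
    exact ⟨u + v, by rw [mul_add, hu, hv, map_add]; ring⟩
  | mul_X p j hp =>
    obtain ⟨u, hu⟩ := hp
    refine ⟨u * X j + C.rs k i p * (if j = i then 1 else 0), ?_⟩
    have h1 : C.th k i * (if j = i then 1 else 0) = (X j : MvPolynomial I k) - C.rs k i (X j) := by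
      rw [Chev_X_sub]
      split_ifs
      · rw [mul_one]
      · rw [mul_zero]
    rw [map_mul]
    linear_combination (X j) * hu + C.rs k i p * h1

/-- the Demazure operator `∂_i p = (p - s_i p)/θ_i` -/
def CDatum.dem (i : I) (p : MvPolynomial I k) : MvPolynomial I k := (C.dem_exists i p).choose

omit [CharZero k] in
theorem CDatum.dem_spec (i : I) (p : MvPolynomial I k) :
    C.th k i * C.dem i p = p - C.rs k i p := (C.dem_exists i p).choose_spec

theorem CDatum.th_ne_zero (i : I) : C.th k i ≠ 0 := by
  intro h
  have h1 : MvPolynomial.eval (Pi.single i (1 : k)) (C.th k i) = 2 := by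
    rw [CDatum.th, map_sum, Finset.sum_eq_single i]
    · rw [MvPolynomial.smul_eval, eval_X, Pi.single_eq_same, C.diag]
      push_cast
      ring
    · intro j _ hj
      rw [MvPolynomial.smul_eval, eval_X, Pi.single_eq_of_ne hj, mul_zero]
    · intro h'
      exact absurd (Finset.mem_univ i) h'
  rw [h, map_zero] at h1
  exact two_ne_zero h1.symm

omit [CharZero k] in
private theorem Chev_rs_th (i : I) : C.rs k i (C.th k i) = - C.th k i := by
  have h1 : C.th k i - C.rs k i (C.th k i) = 2 * C.th k i := by
    conv_lhs => rw [CDatum.th, map_sum, ← Finset.sum_sub_distrib]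
    rw [Finset.sum_eq_single i]
    · rw [map_smul, ← smul_sub, Chev_X_sub, if_pos rfl, C.diag]
      push_cast
      rw [two_mul, show (2 : k) = 1 + 1 by norm_num, add_smul, one_smul]
    · intro j _ hj
      rw [map_smul, ← smul_sub, Chev_X_sub, if_neg hj, smul_zero]
    · intro h'
      exact absurd (Finset.mem_univ i) h'
  linear_combination - h1

omit [CharZero k] in
private theorem Chev_th_homog (i : I) : (C.th k i).IsHomogeneous 1 := by
  rw [CDatum.th]
  refine IsHomogeneous.sum _ _ _ (fun j _ => ?_)
  rw [MvPolynomial.smul_eq_C_mul]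
  exact (isHomogeneous_X k j).C_mul _

private theorem Chev_cancel (i : I) {a b : MvPolynomial I k} (h : C.th k i * a = C.th k i * b) :
    a = b := mul_left_cancel₀ (C.th_ne_zero i) h

theorem CDatum.rs_rs (i : I) (p : MvPolynomial I k) : C.rs k i (C.rs k i p) = p := by
  have h : (C.rs k i).comp (C.rs k i) = AlgHom.id k _ := by
    refine MvPolynomial.algHom_ext (fun j => ?_)
    rw [AlgHom.comp_apply, AlgHom.id_apply, Chev_rs_X]
    split_ifs with hj
    · rw [map_sub, Chev_rs_th, Chev_rs_X, if_pos rfl, hj]
      ring
    · rw [Chev_rs_X, if_neg hj]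
  exact DFunLike.congr_fun h p

omit [CharZero k] in
theorem CDatum.rs_homog (i : I) {p : MvPolynomial I k} {n : ℕ} (h : p.IsHomogeneous n) :
    (C.rs k i p).IsHomogeneous n := by
  have h1 := h.aeval (fun j => if j = i then (X i : MvPolynomial I k) - C.th k i else X j)
    (n := 1) (fun j => by
      split_ifs
      · exact (isHomogeneous_X k i).sub (Chev_th_homog C i)
      · exact isHomogeneous_X k j)
  rw [one_mul] at h1
  exact h1

theorem CDatum.dem_add (i : I) (p p' : MvPolynomial I k) :
    C.dem i (p + p') = C.dem i p + C.dem i p' := by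
  apply Chev_cancel C i
  rw [mul_add, C.dem_spec, C.dem_spec, C.dem_spec, map_add]
  ring

theorem CDatum.dem_smul (i : I) (t : k) (p : MvPolynomial I k) :
    C.dem i (t • p) = t • C.dem i p := by
  apply Chev_cancel C i
  rw [mul_smul_comm, C.dem_spec, C.dem_spec, map_smul, smul_sub]

theorem CDatum.dem_mul (i : I) (p p' : MvPolynomial I k) :
    C.dem i (p * p') = C.dem i p * p' + C.rs k i p * C.dem i p' := by
  apply Chev_cancel C i
  have h1 := C.dem_spec i p
  have h2 := C.dem_spec i p'
  rw [C.dem_spec, map_mul]
  linear_combination - p' * h1 - C.rs k i p * h2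

theorem CDatum.dem_X (i j : I) : C.dem i (X j : MvPolynomial I k) = if i = j then 1 else 0 := by
  apply Chev_cancel C i
  rw [C.dem_spec, Chev_X_sub]
  by_cases h : i = j
  · rw [if_pos h, if_pos h.symm, mul_one]
  · rw [if_neg h, if_neg (Ne.symm h), mul_zero]

theorem CDatum.dem_homog (i : I) {p : MvPolynomial I k} {n : ℕ} (h : p.IsHomogeneous (n + 1)) :
    (C.dem i p).IsHomogeneous n := by
  set q := C.dem i p with hq
  have hr : (C.th k i * q).IsHomogeneous (n + 1) := by
    rw [hq, C.dem_spec]
    exact h.sub (C.rs_homog i h)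
  have hcomp : ∀ m : ℕ, homogeneousComponent (m + 1) (C.th k i * q) =
      C.th k i * homogeneousComponent m q := by
    intro m
    conv_lhs => rw [← MvPolynomial.sum_homogeneousComponent q, Finset.mul_sum, map_sum]
    have h1 : ∀ j ∈ Finset.range (q.totalDegree + 1),
        homogeneousComponent (m + 1) (C.th k i * homogeneousComponent j q) =
        if j = m then C.th k i * homogeneousComponent j q else 0 := by
      intro j _
      have h2 : (C.th k i * homogeneousComponent j q) ∈ homogeneousSubmodule I k (1 + j) := by
        rw [mem_homogeneousSubmodule]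
        exact (Chev_th_homog C i).mul (homogeneousComponent_isHomogeneous j q)
      rw [homogeneousComponent_of_mem h2]
      by_cases hj : j = m
      · rw [if_pos (by omega), if_pos hj]
      · rw [if_neg (by omega), if_neg hj]
    rw [Finset.sum_congr rfl h1, Finset.sum_ite_eq']
    split_ifs with hm
    · rfl
    · rw [homogeneousComponent_eq_zero m q (by
        rw [Finset.mem_range] at hm
        omega), mul_zero]
  have hzero : ∀ m : ℕ, m ≠ n → homogeneousComponent m q = 0 := by
    intro m hm
    have h1 := hcomp m
    rw [homogeneousComponent_of_mem ((mem_homogeneousSubmodule _ _).2 hr), if_neg (by omega)] at h1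
    rcases mul_eq_zero.1 h1.symm with h2 | h2
    · exact absurd h2 (C.th_ne_zero i)
    · exact h2
  have hqn : q = homogeneousComponent n q := by
    ext d
    rw [coeff_homogeneousComponent]
    split_ifs with hd
    · rfl
    · have h1 := hzero d.degree hd
      have h2 := congrArg (coeff d) h1
      rw [coeff_homogeneousComponent, if_pos rfl, coeff_zero] at h2
      exact h2
  rw [hqn]
  exact homogeneousComponent_isHomogeneous n q

theorem CDatum.dem_C (i : I) (t : k) : C.dem i (MvPolynomial.C t : MvPolynomial I k) = 0 := by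
  apply Chev_cancel C i
  rw [C.dem_spec, ← MvPolynomial.algebraMap_eq, AlgHom.commutes]
  ring

theorem CDatum.dem_inv (i : I) {p : MvPolynomial I k} (h : C.IsInv p) (p' : MvPolynomial I k) :
    C.dem i (p * p') = p * C.dem i p' := by
  have h0 : C.dem i p = 0 := by
    apply Chev_cancel C i
    rw [C.dem_spec, h i]
    ring
  rw [C.dem_mul, h0, h i, zero_mul, zero_add]

/-- the operator of a word: `demw [i₁, …, i_n] = ∂_{i_n} ⋯ ∂_{i_1}` -/
def CDatum.demw : List I → MvPolynomial I k → MvPolynomial I k
  | [], p => p
  | i :: w, p => CDatum.demw w (C.dem i p)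

/-- the ideal generated by the homogeneous invariants of positive degree -/
def CDatum.invIdeal (k : Type) [Field k] : Ideal (MvPolynomial I k) :=
  Ideal.span {p | C.IsInv p ∧ ∃ d, 0 < d ∧ p.IsHomogeneous d}

end Pool.Agent.Lib.QG
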