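import Pool.Agent.Lib.MP_021f05_al.ChevThm

/-!
# MP_021f05_al (H3): basic invariants form a regular sequence
-/

noncomputable section

namespace Pool.Agent.Lib.QG

open MvPolynomial

section general

variable {k : Type} [Field k] {I : Type}

/-- homogeneous components of a product with a homogeneous factor -/
theorem comp_mul_right {b : MvPolynomial I k} {i : ℕ} (hb : b.IsHomogeneous i) (n : ℕ)
    (a : MvPolynomial I k) :
    homogeneousComponent n (a * b) =
      if i ≤ n then homogeneousComponent (n - i) a * b else 0 := by
  classical
  have h1 : ∀ j, homogeneousComponent n (homogeneousComponent j a * b) =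
      if n = j + i then homogeneousComponent j a * b else 0 := by
    intro j
    exact homogeneousComponent_of_mem
      ((homogeneousComponent_isHomogeneous j a).mul hb)
  conv_lhs => rw [← sum_homogeneousComponent a, Finset.sum_mul, map_sum]
  simp only [h1]
  by_cases hi : i ≤ n
  · rw [if_pos hi]
    by_cases hr : n - i ∈ Finset.range (a.totalDegree + 1)
    · rw [Finset.sum_eq_single_of_mem (n - i) hr]
      · rw [if_pos (by omega)]
      · intro j _ hj
        rw [if_neg (by omega)]
    · rw [homogeneousComponent_eq_zero (n - i) a (by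
        rw [Finset.mem_range] at hr; omega), zero_mul]
      refine Finset.sum_eq_zero fun j hj => ?_
      rw [if_neg]
      rintro rfl
      apply hr
      rw [Nat.add_sub_cancel]
      exact hj
  · rw [if_neg hi]
    refine Finset.sum_eq_zero fun j _ => ?_
    rw [if_neg (by omega)]

/-- all components vanish -/
theorem eq_zero_of_comp {a : MvPolynomial I k} (h : ∀ n, homogeneousComponent n a = 0) :
    a = 0 := by
  rw [← sum_homogeneousComponent a]
  exact Finset.sum_eq_zero fun j _ => h j

/-- the variables form a weakly regular sequence -/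
theorem X_regular (n : ℕ) : RingTheory.Sequence.IsWeaklyRegular (MvPolynomial (Fin n) k)
    (List.ofFn fun j : Fin n => (X j : MvPolynomial (Fin n) k)) := by
  classical
  constructor
  intro i hi
  rw [List.length_ofFn] at hi
  set J : Ideal (MvPolynomial (Fin n) k) := Ideal.span (X '' {j : Fin n | (j : ℕ) < i}) with hJ
  have hJe : (Ideal.ofList ((List.ofFn fun j : Fin n => (X j : MvPolynomial (Fin n) k)).take i) •
      ⊤ : Submodule (MvPolynomial (Fin n) k) (MvPolynomial (Fin n) k)) = J := by
    rw [smul_eq_mul, Ideal.mul_top, Ideal.ofList, hJ]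
    congr 1
    ext p
    simp only [Set.mem_setOf_eq, Set.mem_image]
    rw [List.mem_take_iff_getElem]
    constructor
    · rintro ⟨j, hj, rfl⟩
      rw [List.length_ofFn] at hj
      refine ⟨⟨j, by omega⟩, by simp; omega, by simp⟩
    · rintro ⟨j, hj, rfl⟩
      refine ⟨j, by rw [List.length_ofFn]; omega, by simp⟩
  rw [List.getElem_ofFn]
  rw [isSMulRegular_quotient_iff_mem_of_smul_mem]
  intro p hp
  rw [hJe, hJ, smul_eq_mul] at hp
  rw [hJe, hJ]
  rw [mem_ideal_span_X_image] at hp ⊢
  intro m hm
  have h1 : m + Finsupp.single (⟨i, hi⟩ : Fin n) 1 ∈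
      ((X (⟨i, hi⟩ : Fin n) : MvPolynomial (Fin n) k) * p).support := by
    rw [mem_support_iff, mul_comm, coeff_mul_X]
    exact mem_support_iff.1 hm
  obtain ⟨j, hj, hj2⟩ := hp _ h1
  refine ⟨j, hj, ?_⟩
  have hne : (⟨i, hi⟩ : Fin n) ≠ j := by
    rintro rfl
    simp at hj
  rwa [Finsupp.add_apply, Finsupp.single_eq_of_ne hne.symm, add_zero] at hj2

end general

variable {k : Type} [Field k] [CharZero k] {I : Type} [Fintype I] [DecidableEq I] {C : CDatum I}

omit [CharZero k] in
/-- components of the reflected polynomial -/
theorem comp_rs (i : I) (n : ℕ) (p : MvPolynomial I k) :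
    homogeneousComponent n (C.rs k i p) = C.rs k i (homogeneousComponent n p) := by
  classical
  have h1 : ∀ j, homogeneousComponent n (C.rs k i (homogeneousComponent j p)) =
      if n = j then C.rs k i (homogeneousComponent j p) else 0 := by
    intro j
    exact homogeneousComponent_of_mem (C.rs_homog i (homogeneousComponent_isHomogeneous j p))
  conv_lhs => rw [← sum_homogeneousComponent p, map_sum, map_sum]
  simp only [h1]
  by_cases hr : n ∈ Finset.range (p.totalDegree + 1)
  · rw [Finset.sum_ite_eq, if_pos hr]
  · rw [Finset.sum_ite_eq, if_neg hr, homogeneousComponent_eq_zero n p (by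
      rw [Finset.mem_range] at hr; omega), map_zero]

omit [CharZero k] in
theorem isInv_comp {p : MvPolynomial I k} (h : C.IsInv p) (n : ℕ) :
    C.IsInv (homogeneousComponent n p) := by
  intro i
  rw [← comp_rs, h i]

omit [CharZero k] in
theorem isInv_aeval {n : ℕ} {f : Fin n → MvPolynomial I k} (h : ∀ j, C.IsInv (f j))
    (c : MvPolynomial (Fin n) k) : C.IsInv (aeval f c) := by
  intro i
  have h1 : (C.rs k i).comp (aeval f) = aeval f := by
    apply MvPolynomial.algHom_ext
    intro j
    simp [h j i]
  exact DFunLike.congr_fun h1 c

/-- an invariant homogeneous polynomial is a constant modulo the ideal of invariants -/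
theorem mk_inv {w : MvPolynomial I k} (hw : C.IsInv w) {e : ℕ} (he : w.IsHomogeneous e) :
    ∃ c : k, Ideal.Quotient.mk (C.invIdeal k) w = algebraMap k _ c := by
  rcases Nat.eq_zero_or_pos e with h0 | h0
  · subst h0
    have h1 : w = MvPolynomial.C (coeff 0 w) := by
      rw [← homogeneousComponent_zero]
      exact (homogeneousComponent_eq_self he).symm
    refine ⟨coeff 0 w, ?_⟩
    rw [h1]
    simp only [coeff_C, if_true]
    rfl
  · refine ⟨0, ?_⟩
    rw [map_zero, Ideal.Quotient.eq_zero_iff_mem]
    exact Ideal.subset_span ⟨hw, e, h0, he⟩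

omit [CharZero k] [Fintype I] [DecidableEq I] in
theorem quot_smul (J : Ideal (MvPolynomial I k)) (c : k) (x : MvPolynomial I k ⧸ J) :
    c • x = algebraMap k (MvPolynomial I k ⧸ J) c * x := by
  obtain ⟨y, rfl⟩ := Ideal.Quotient.mk_surjective x
  have h1 : c • Ideal.Quotient.mk J y = Ideal.Quotient.mk J (c • y) := rfl
  rw [h1, MvPolynomial.smul_eq_C_mul, map_mul]
  rfl

omit [CharZero k] in
theorem linInd_shift {V : Type} [AddCommGroup V] [Module k V] {r : ℕ} {u : Fin (r + 1) → V}
    (hu : LinearIndependent k u) (c : Fin r → k) :
    LinearIndependent k (fun j : Fin r => u j.succ + c j • u 0) := by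
  rw [Fintype.linearIndependent_iff] at hu ⊢
  intro g hg j
  have h1 := hu (Fin.cons (∑ i, g i * c i) g) (by
    rw [Fin.sum_univ_succ]
    simp only [Fin.cons_zero, Fin.cons_succ]
    rw [← hg, Finset.sum_smul, ← Finset.sum_add_distrib]
    refine Finset.sum_congr rfl fun i _ => ?_
    rw [smul_add, smul_smul, add_comm])
  have h2 := h1 j.succ
  rwa [Fin.cons_succ] at h2

/-- Independence over the invariants: the homogeneous case. -/
theorem indep_aux (r : ℕ) : ∀ (y v : Fin r → MvPolynomial I k) (m : Fin r → ℕ) (d : ℕ),
    (∀ j, 0 < m j) → (∀ j, (v j).IsHomogeneous (m j)) → (∀ j, C.IsInv (v j)) →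
    (∀ j, ∃ e, (y j).IsHomogeneous e ∧ (v j = 0 ∨ e + m j = d)) →
    LinearIndependent k (fun j => Ideal.Quotient.mk (C.invIdeal k) (y j)) →
    ∑ j, v j * y j = 0 → ∀ j, v j = 0 := by
  classical
  induction r with
  | zero => intro y v m d _ _ _ _ _ _ j; exact j.elim0
  | succ r ih =>
    intro y v m d hm hv hinv hy hli hsum
    by_cases hv0 : v 0 = 0
    · have h1 := ih (fun j => y j.succ) (fun j => v j.succ) (fun j => m j.succ) d
        (fun j => hm _) (fun j => hv _) (fun j => hinv _) (fun j => hy _)
        (hli.comp _ (Fin.succ_injective r)) (by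
          rw [Fin.sum_univ_succ, hv0, zero_mul, zero_add] at hsum
          exact hsum)
      intro j
      refine Fin.cases hv0 h1 j
    by_cases hmem : v 0 ∈ Ideal.span (Set.range fun j : Fin r => v j.succ)
    · exfalso
      obtain ⟨a, ha⟩ := Ideal.mem_span_range_iff_exists_fun.1 hmem
      obtain ⟨R, hR1, hR2, hR3, hR4, _⟩ := C.exists_reynolds (k := k)
      obtain ⟨e0, he0, he0'⟩ := hy 0
      have hd0 : e0 + m 0 = d := he0'.resolve_left hv0
      -- homogeneous invariant coefficients
      set w : Fin r → MvPolynomial I k := fun j =>
        if v j.succ = 0 then 0 else if m j.succ ≤ m 0 then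
          R (homogeneousComponent (m 0 - m j.succ) (a j)) else 0 with hw
      have hwsum : v 0 = ∑ j, v j.succ * w j := by
        have h1 : v 0 = ∑ j, (if m j.succ ≤ m 0 then
            homogeneousComponent (m 0 - m j.succ) (a j) * v j.succ else 0) := by
          have h2 := congrArg (homogeneousComponent (m 0)) ha
          rw [map_sum, homogeneousComponent_eq_self (hv 0)] at h2
          rw [← h2]
          exact Finset.sum_congr rfl fun j _ => comp_mul_right (hv j.succ) (m 0) (a j)
        have h3 := congrArg R h1
        rw [hR2 _ (hinv 0), map_sum] at h3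
        rw [h3]
        refine Finset.sum_congr rfl fun j _ => ?_
        rw [hw]
        by_cases hz : v j.succ = 0
        · simp [hz]
        · by_cases hle : m j.succ ≤ m 0
          · simp only [if_neg hz, if_pos hle]
            rw [mul_comm, hR4 _ _ (hinv _)]
          · simp only [if_neg hz, if_neg hle, map_zero, mul_zero]
      have hwinv : ∀ j, C.IsInv (w j) := by
        intro j
        simp only [hw]
        split_ifs
        · intro i; simp
        · exact hR1 _
        · intro i; simp
      have hwhom : ∀ j, ∃ e, (w j).IsHomogeneous e := by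
        intro j
        simp only [hw]
        split_ifs
        · exact ⟨0, isHomogeneous_zero _ _ _⟩
        · exact ⟨_, hR3 _ _ (homogeneousComponent_isHomogeneous _ _)⟩
        · exact ⟨0, isHomogeneous_zero _ _ _⟩
      have hyhom : ∀ j : Fin r, ∃ e, (y j.succ + w j * y 0).IsHomogeneous e ∧
          (v j.succ = 0 ∨ e + m j.succ = d) := by
        intro j
        obtain ⟨e1, he1, he1'⟩ := hy j.succ
        refine ⟨e1, ?_, he1'⟩
        refine he1.add ?_
        by_cases hz : v j.succ = 0
        · simp only [hw, if_pos hz, zero_mul]
          exact isHomogeneous_zero _ _ _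
        · by_cases hle : m j.succ ≤ m 0
          · have h5 : e1 + m j.succ = d := he1'.resolve_left hz
            have h6 : e1 = (m 0 - m j.succ) + e0 := by omega
            simp only [hw, if_neg hz, if_pos hle]
            rw [h6]
            exact (hR3 _ _ (homogeneousComponent_isHomogeneous _ _)).mul he0
          · simp only [hw, if_neg hz, if_neg hle, zero_mul]
            exact isHomogeneous_zero _ _ _
      choose ew hew using hwhom
      choose c hc using fun j => mk_inv (hwinv j) (hew j)
      have hli' : LinearIndependent k
          (fun j : Fin r => Ideal.Quotient.mk (C.invIdeal k) (y j.succ + w j * y 0)) := by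
        have h1 := linInd_shift hli c
        have hfun : (fun j : Fin r => Ideal.Quotient.mk (C.invIdeal k) (y j.succ + w j * y 0)) =
            fun j : Fin r => Ideal.Quotient.mk (C.invIdeal k) (y j.succ) +
              c j • Ideal.Quotient.mk (C.invIdeal k) (y 0) := by
          funext j
          rw [map_add, map_mul, hc, quot_smul]
        rw [hfun]
        exact h1
      have hsum' : ∑ j : Fin r, v j.succ * (y j.succ + w j * y 0) = 0 := by
        rw [← hsum, Fin.sum_univ_succ, hwsum, Finset.sum_mul, ← Finset.sum_add_distrib]
        refine Finset.sum_congr rfl fun j _ => ?_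
        ring
      have h7 := ih _ (fun j => v j.succ) (fun j => m j.succ) d (fun j => hm _) (fun j => hv _)
        (fun j => hinv _) hyhom hli' hsum'
      apply hv0
      rw [hwsum]
      exact Finset.sum_eq_zero fun j _ => by rw [h7 j, zero_mul]
    · exfalso
      have h1 := C.chev_key v m hm hv hinv hmem (fun j => if v j = 0 then 0 else y j) d (by
        intro j
        by_cases hz : v j = 0
        · exact Or.inl (if_pos hz)
        · right
          obtain ⟨e, he, he'⟩ := hy j
          refine ⟨e, ?_, he'.resolve_left hz⟩
          rw [if_neg hz]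
          exact he) (by
        refine Eq.trans ?_ hsum
        refine Finset.sum_congr rfl fun j _ => ?_
        by_cases hz : v j = 0
        · simp [hz]
        · rw [if_neg hz]
          ring)
      rw [if_neg hv0] at h1
      exact hli.ne_zero 0 (Ideal.Quotient.eq_zero_iff_mem.2 h1)

/-- Independence over the invariants. -/
theorem indep_inv {κ : Type} (e : κ → MvPolynomial I k) (ε : κ → ℕ)
    (he : ∀ β, (e β).IsHomogeneous (ε β))
    (hli : LinearIndependent k (fun β => Ideal.Quotient.mk (C.invIdeal k) (e β)))
    (s : Finset κ) (v : κ → MvPolynomial I k) (hinv : ∀ β, C.IsInv (v β))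
    (hsum : ∑ β ∈ s, v β * e β = 0) : ∀ β ∈ s, v β = 0 := by
  classical
  -- homogeneous components
  set u : ℕ → κ → MvPolynomial I k := fun D β =>
    if ε β ≤ D then homogeneousComponent (D - ε β) (v β) else 0 with hu
  have huinv : ∀ D β, C.IsInv (u D β) := by
    intro D β
    simp only [hu]
    split_ifs
    · exact isInv_comp (hinv β) _
    · intro i; simp
  have husum : ∀ D, ∑ β ∈ s, u D β * e β = 0 := by
    intro D
    have h1 := congrArg (homogeneousComponent D) hsum
    rw [map_sum, map_zero] at h1
    rw [← h1]
    refine Finset.sum_congr rfl fun β _ => ?_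
    rw [comp_mul_right (he β)]
    simp only [hu]
    split_ifs
    · rfl
    · rw [zero_mul]
  -- the constants vanish
  have hconst : ∀ D, ∀ β ∈ s, ε β = D → u D β = 0 := by
    intro D β hβ hD
    have h1 : ∀ β, ∃ c : k, Ideal.Quotient.mk (C.invIdeal k) (u D β) = algebraMap k _ c ∧
        (ε β = D → u D β = MvPolynomial.C c) := by
      intro β
      by_cases hD : ε β = D
      · refine ⟨coeff 0 (v β), ?_, fun _ => ?_⟩
        · simp only [hu, hD, le_refl, if_true, Nat.sub_self, homogeneousComponent_zero]
          rfl
        · simp only [hu, hD, le_refl, if_true, Nat.sub_self, homogeneousComponent_zero]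
      · refine ⟨0, ?_, fun h => absurd h hD⟩
        rw [map_zero, Ideal.Quotient.eq_zero_iff_mem]
        by_cases hle : ε β ≤ D
        · refine Ideal.subset_span ⟨huinv D β, D - ε β, by omega, ?_⟩
          simp only [hu, if_pos hle]
          exact homogeneousComponent_isHomogeneous _ _
        · simp only [hu, if_neg hle]
          exact Ideal.zero_mem _
    choose c hc hc' using h1
    have h2 := congrArg (Ideal.Quotient.mk (C.invIdeal k)) (husum D)
    rw [map_sum, map_zero] at h2
    have h3 : ∑ β ∈ s, c β • Ideal.Quotient.mk (C.invIdeal k) (e β) = 0 := by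
      rw [← h2]
      refine Finset.sum_congr rfl fun β _ => ?_
      rw [map_mul, hc, quot_smul]
    have h4 := (linearIndependent_iff'.1 hli) s c h3 β hβ
    rw [hc' β hD, h4, map_zero]
  -- positive degrees
  have hall : ∀ D, ∀ β ∈ s, u D β = 0 := by
    intro D
    set s' := s.filter (fun β => ε β < D) with hs'
    have hs'sum : ∑ β ∈ s', u D β * e β = 0 := by
      rw [← husum D]
      refine Finset.sum_subset (Finset.filter_subset _ _) ?_
      intro β hβ hβ'
      have h1 : ¬ ε β < D := fun h => hβ' (Finset.mem_filter.2 ⟨hβ, h⟩)
      rcases Nat.lt_or_ge D (ε β) with h2 | h2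
      · simp only [hu]
        rw [if_neg (by omega), zero_mul]
      · rw [hconst D β hβ (by omega), zero_mul]
    set φ := s'.equivFin.symm with hφ
    have h1 := indep_aux (C := C) s'.card (fun j => e (φ j)) (fun j => u D (φ j))
      (fun j => D - ε (φ j)) D (by
        intro j
        have := (Finset.mem_filter.1 (φ j).2).2
        omega) (by
        intro j
        have := (Finset.mem_filter.1 (φ j).2).2
        simp only [hu]
        rw [if_pos this.le]
        exact homogeneousComponent_isHomogeneous _ _) (fun j => huinv D _) (by
        intro j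
        have := (Finset.mem_filter.1 (φ j).2).2
        exact ⟨ε (φ j), he _, Or.inr (by omega)⟩)
      (hli.comp (fun j => ((φ j : s') : κ))
        (Subtype.val_injective.comp φ.injective)) (by
        rw [← hs'sum, ← Finset.sum_coe_sort s' (fun β => u D β * e β)]
        exact Equiv.sum_comp φ (fun β : s' => u D β * e β))
    intro β hβ
    rcases Nat.lt_or_ge (ε β) D with h2 | h2
    · have h3 : β ∈ s' := Finset.mem_filter.2 ⟨hβ, h2⟩
      have h4 := h1 (φ.symm ⟨β, h3⟩)
      rwa [Equiv.apply_symm_apply] at h4
    · rcases Nat.lt_or_ge D (ε β) with h3 | h3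
      · simp only [hu]
        rw [if_neg (by omega)]
      · exact hconst D β hβ (by omega)
  intro β hβ
  refine eq_zero_of_comp fun n => ?_
  have h1 := hall (n + ε β) β hβ
  simp only [hu] at h1
  rwa [if_pos (by omega), Nat.add_sub_cancel] at h1

/-- basic invariants form a regular sequence -/
theorem IsBasic.regular' {n : ℕ} {f : Fin n → MvPolynomial I k} {m : Fin n → ℕ}
    (h : IsBasic C f m) :
    RingTheory.Sequence.IsWeaklyRegular (MvPolynomial I k) (List.ofFn f) := by
  classical
  let alg : Algebra (MvPolynomial (Fin n) k) (MvPolynomial I k) :=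
    (aeval f : MvPolynomial (Fin n) k →ₐ[k] MvPolynomial I k).toRingHom.toAlgebra
  have hsm : ∀ (c : MvPolynomial (Fin n) k) (p : MvPolynomial I k), c • p = aeval f c * p :=
    fun c p => Algebra.smul_def c p
  have hinj : Function.Injective (aeval f : MvPolynomial (Fin n) k →ₐ[k] MvPolynomial I k) :=
    h.indep
  -- homogeneous representatives of a basis
  set v : {p : MvPolynomial I k // ∃ d, p.IsHomogeneous d} → MvPolynomial I k ⧸ C.invIdeal k :=
    fun p => Ideal.Quotient.mk (C.invIdeal k) p.1 with hv
  obtain ⟨κ, a, ha, hspan, hli⟩ := exists_linearIndependent' k v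
  set e : κ → MvPolynomial I k := fun β => (a β).1 with he
  choose ε hε using fun β => (a β).2
  have hli2 : LinearIndependent k (fun β => Ideal.Quotient.mk (C.invIdeal k) (e β)) := hli
  -- independence
  have hLI : LinearIndependent (MvPolynomial (Fin n) k) e := by
    rw [linearIndependent_iff']
    intro s c hc β hβ
    have h1 := indep_inv e ε hε hli2 s (fun β => aeval f (c β))
      (fun β => isInv_aeval h.inv (c β)) (by
        rw [← hc]
        exact Finset.sum_congr rfl fun β _ => (hsm _ _).symm) β hβ
    exact hinj (by rw [h1, map_zero])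
  -- generation
  have hgen : ∀ d, ∀ p : MvPolynomial I k, p.IsHomogeneous d →
      p ∈ Submodule.span (MvPolynomial (Fin n) k) (Set.range e) := by
    intro d
    induction d using Nat.strong_induction_on with
    | _ d ih =>
      intro p hp
      have h1 : Ideal.Quotient.mk (C.invIdeal k) p ∈ Submodule.span k (Set.range (v ∘ a)) := by
        rw [hspan]
        exact Submodule.subset_span ⟨⟨p, d, hp⟩, rfl⟩
      obtain ⟨c, hc⟩ := (Finsupp.mem_span_range_iff_exists_finsupp).1 h1
      have h2 : p - c.sum (fun β t => t • e β) ∈ C.invIdeal k := by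
        rw [← Ideal.Quotient.eq_zero_iff_mem, map_sub, sub_eq_zero, ← hc]
        rw [Finsupp.sum, Finsupp.sum, map_sum]
        refine Finset.sum_congr rfl fun β _ => ?_
        rfl
      rw [h.invIdeal_eq] at h2
      obtain ⟨g, hg⟩ := Ideal.mem_span_range_iff_exists_fun.1 h2
      have h3 : p = homogeneousComponent d (c.sum (fun β t => t • e β)) +
          ∑ j, (if m j ≤ d then homogeneousComponent (d - m j) (g j) * f j else 0) := by
        have h4 : p = c.sum (fun β t => t • e β) + ∑ j, g j * f j := by rw [hg]; ring
        have h5 := congrArg (homogeneousComponent d) h4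
        rw [map_add, map_sum (homogeneousComponent d) _ Finset.univ,
          homogeneousComponent_eq_self hp] at h5
        rw [h5]
        congr 1
        exact Finset.sum_congr rfl fun j _ => comp_mul_right (h.homog j) d (g j)
      rw [h3]
      refine Submodule.add_mem _ ?_ (Submodule.sum_mem _ fun j _ => ?_)
      · rw [Finsupp.sum, map_sum]
        refine Submodule.sum_mem _ fun β _ => ?_
        rw [map_smul, homogeneousComponent_of_mem (hε β)]
        split_ifs
        · have h6 : c β • e β = (MvPolynomial.C (c β) : MvPolynomial (Fin n) k) • e β := by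
            rw [hsm, ← MvPolynomial.algebraMap_eq, AlgHom.commutes, Algebra.smul_def]
          rw [h6]
          exact Submodule.smul_mem _ _ (Submodule.subset_span ⟨β, rfl⟩)
        · rw [smul_zero]; exact Submodule.zero_mem _
      · split_ifs with hj
        · have h6 : homogeneousComponent (d - m j) (g j) * f j =
              (X j : MvPolynomial (Fin n) k) • homogeneousComponent (d - m j) (g j) := by
            rw [hsm, aeval_X, mul_comm]
          rw [h6]
          refine Submodule.smul_mem _ _ (ih (d - m j) (by have := h.pos j; omega) _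
            (homogeneousComponent_isHomogeneous _ _))
        · exact Submodule.zero_mem _
  have hsp : ⊤ ≤ Submodule.span (MvPolynomial (Fin n) k) (Set.range e) := by
    intro p _
    rw [← sum_homogeneousComponent p]
    exact Submodule.sum_mem _ fun j _ => hgen j _ (homogeneousComponent_isHomogeneous _ _)
  have : Module.Free (MvPolynomial (Fin n) k) (MvPolynomial I k) :=
    Module.Free.of_basis (Module.Basis.mk hLI hsp)
  have hreg := (X_regular (k := k) n).of_flat (S := MvPolynomial I k)
  rw [List.map_ofFn] at hreg
  have hf : f = (⇑(algebraMap (MvPolynomial (Fin n) k) (MvPolynomial I k)) ∘ fun j => X j) := by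
    funext j
    show f j = aeval f (X j)
    rw [aeval_X]
  rw [← hf] at hreg
  exact hreg

variable (C) in
/-- basic invariants form a regular sequence -/
theorem IsBasic.regular {n : ℕ} {f : Fin n → MvPolynomial I k} {m : Fin n → ℕ}
    (h : IsBasic C f m) :
    RingTheory.Sequence.IsWeaklyRegular (MvPolynomial I k) (List.ofFn f) := by
  exact IsBasic.regular' h

end Pool.Agent.Lib.QG
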