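import Pool.Agent.Lib.MP_021f05_al.ChevTop

/-!
# MP_021f05_al (H2): Chevalley's theorem (`IsBasic.regular` is in ChevReg.lean)
-/

noncomputable section

namespace Pool.Agent.Lib.QG

open MvPolynomial

variable {k : Type} [Field k] [CharZero k] {I : Type} [Fintype I] [DecidableEq I] (C : CDatum I)

/-- basic invariants of degrees `m j` -/
structure IsBasic {n : ℕ} (f : Fin n → MvPolynomial I k) (m : Fin n → ℕ) : Prop where
  homog : ∀ j, (f j).IsHomogeneous (m j)
  pos : ∀ j, 0 < m j
  inv : ∀ j, C.IsInv (f j)
  indep : AlgebraicIndependent k f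
  gen : ∀ p : MvPolynomial I k, C.IsInv p → p ∈ Algebra.adjoin k (Set.range f)

namespace ChevThm

omit [CharZero k] [Fintype I] [DecidableEq I] in
lemma hc_mul (d : ℕ) {f : MvPolynomial I k} {m : ℕ} (hf : f.IsHomogeneous m)
    (c : MvPolynomial I k) :
    homogeneousComponent d (c * f) = if m ≤ d then homogeneousComponent (d - m) c * f else 0 := by
  refine MvPolynomial.induction_on' c ?_ ?_
  · intro u a
    have h1 : (monomial u a : MvPolynomial I k) ∈ homogeneousSubmodule I k u.degree :=
      isHomogeneous_monomial a rfl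
    have h2 : (monomial u a * f : MvPolynomial I k) ∈ homogeneousSubmodule I k (u.degree + m) :=
      IsHomogeneous.mul h1 hf
    rw [homogeneousComponent_of_mem h1, homogeneousComponent_of_mem h2]
    split_ifs with h3 h4 h5 h6 h7 <;> first | rfl | (exfalso; omega) | rw [zero_mul]
  · intro p q hp hq
    rw [add_mul, map_add, hp, hq, map_add]
    split_ifs
    · rw [add_mul]
    · rw [add_zero]

omit [CharZero k] [Fintype I] [DecidableEq I] in
lemma hrep {ι : Type} [Fintype ι] (f : ι → MvPolynomial I k) (m : ι → ℕ)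
    (hf : ∀ j, (f j).IsHomogeneous (m j)) {p : MvPolynomial I k} {d : ℕ} (hp : p.IsHomogeneous d)
    (hmem : p ∈ Ideal.span (Set.range f)) :
    ∃ a : ι → MvPolynomial I k, (∀ j, a j = 0 ∨ ∃ e, (a j).IsHomogeneous e ∧ e + m j = d) ∧
      p = ∑ j, a j * f j := by
  rw [Ideal.mem_span_range_iff_exists_fun] at hmem
  obtain ⟨c, hc⟩ := hmem
  refine ⟨fun j => if m j ≤ d then homogeneousComponent (d - m j) (c j) else 0, ?_, ?_⟩
  · intro j
    by_cases h : m j ≤ d
    · right
      refine ⟨d - m j, ?_, Nat.sub_add_cancel h⟩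
      simp only [if_pos h]
      exact homogeneousComponent_isHomogeneous _ _
    · left
      simp only [if_neg h]
  · rw [← homogeneousComponent_eq_self hp, ← hc, map_sum]
    refine Finset.sum_congr rfl fun j _ => ?_
    rw [hc_mul d (hf j)]
    by_cases h : m j ≤ d
    · simp [h]
    · simp [h]

omit [CharZero k] [Fintype I] [DecidableEq I] in
/-- substituting homogeneous polynomials into a weighted homogeneous one -/
lemma wh_aeval {ι : Type} [Fintype ι] (f : ι → MvPolynomial I k) (m : ι → ℕ)
    (hf : ∀ j, (f j).IsHomogeneous (m j)) {Q : MvPolynomial ι k} {d : ℕ}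
    (hQ : Q.IsWeightedHomogeneous m d) : (aeval f Q).IsHomogeneous d := by
  refine IsWeightedHomogeneous.induction_on (motive := fun p _ => (aeval f p).IsHomogeneous d)
    ?_ ?_ ?_ hQ
  · rw [map_zero]
    exact isHomogeneous_zero _ _ _
  · intro p q _ _ hp hq
    rw [map_add]
    exact hp.add hq
  · intro u r hu
    rw [aeval_monomial, algebraMap_eq]
    have h1 : (u.prod fun i e => f i ^ e).IsHomogeneous d := by
      rw [← hu, Finsupp.weight_apply]
      refine IsHomogeneous.prod u.support (fun i => f i ^ u i) (fun i => u i • m i) fun i _ => ?_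
      have := (hf i).pow (u i)
      rwa [mul_comm] at this
    have := (isHomogeneous_C I r).mul h1
    rwa [zero_add] at this

omit [CharZero k] [Fintype I] [DecidableEq I] in
lemma hc_aeval {ι : Type} [Fintype ι] (f : ι → MvPolynomial I k) (m : ι → ℕ)
    (hf : ∀ j, (f j).IsHomogeneous (m j)) (Q : MvPolynomial ι k) (d : ℕ) :
    homogeneousComponent d (aeval f Q) = aeval f (weightedHomogeneousComponent m d Q) := by
  refine MvPolynomial.induction_on' Q ?_ ?_
  · intro u a
    have h1 : (monomial u a : MvPolynomial ι k) ∈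
        weightedHomogeneousSubmodule k m (Finsupp.weight m u) :=
      isWeightedHomogeneous_monomial m u a rfl
    have h2 : aeval f (monomial u a : MvPolynomial ι k) ∈
        homogeneousSubmodule I k (Finsupp.weight m u) := wh_aeval f m hf h1
    rw [weightedHomogeneousComponent_of_mem h1, homogeneousComponent_of_mem h2]
    split_ifs
    · rfl
    · rw [map_zero]
  · intro p q hp hq
    rw [map_add, map_add, hp, hq, map_add, map_add]

omit [CharZero k] [Fintype I] [DecidableEq I] in
/-- chain rule -/
lemma chain {ι : Type} [Fintype ι] [DecidableEq ι] (f : ι → MvPolynomial I k) (l : I)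
    (Q : MvPolynomial ι k) :
    pderiv l (aeval f Q) = ∑ i, aeval f (pderiv i Q) * pderiv l (f i) := by
  induction Q using MvPolynomial.induction_on with
  | C a =>
    simp [algHom_C, algebraMap_eq]
  | add p q hp hq =>
    simp only [map_add, hp, hq, add_mul, Finset.sum_add_distrib]
  | mul_X p n hp =>
    rw [map_mul, aeval_X, Derivation.leibniz, smul_eq_mul, smul_eq_mul, hp]
    simp only [Derivation.leibniz, smul_eq_mul, map_add, map_mul, aeval_X, add_mul,
      Finset.sum_add_distrib, pderiv_X]
    have h1 : ∑ x, aeval f p * aeval f (Pi.single (M := fun _ => MvPolynomial ι k) x 1 n) *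
        pderiv l (f x) = aeval f p * pderiv l (f n) := by
      rw [Finset.sum_eq_single n]
      · rw [Pi.single_eq_same, map_one, mul_one]
      · intro b _ hb
        rw [Pi.single_eq_of_ne (Ne.symm hb)]
        simp
      · intro h
        exact absurd (Finset.mem_univ _) h
    rw [h1, Finset.mul_sum]
    simp only [mul_assoc]

omit [CharZero k] in
lemma pderiv_eq_zero {ι : Type} [Fintype ι] [DecidableEq ι] (m : ι → ℕ) {Q : MvPolynomial ι k}
    {d : ℕ} (hQ : Q.IsWeightedHomogeneous m d) {i : ι} (hi : d < m i) : pderiv i Q = 0 := by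
  refine IsWeightedHomogeneous.induction_on (motive := fun p _ => pderiv i p = 0)
    ?_ ?_ ?_ hQ
  · rw [map_zero]
  · intro p q _ _ hp hq
    rw [map_add, hp, hq, add_zero]
  · intro u r hu
    have h0 : u i = 0 := by
      by_contra h
      have : m i ≤ Finsupp.weight m u := by
        exact Finsupp.le_weight_of_ne_zero' m h
      omega
    rw [pderiv_monomial, h0]
    simp

/-! ### invariants -/

lemma dem_zero (i : I) : C.dem i (0 : MvPolynomial I k) = 0 := by
  have := C.dem_smul i (0 : k) (0 : MvPolynomial I k)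
  rwa [zero_smul, zero_smul] at this

lemma dem_sum {ι : Type} (s : Finset ι) (i : I) (g : ι → MvPolynomial I k) :
    C.dem i (∑ j ∈ s, g j) = ∑ j ∈ s, C.dem i (g j) := by
  classical
  induction s using Finset.induction_on with
  | empty => simp [dem_zero]
  | insert a s ha ih => rw [Finset.sum_insert ha, Finset.sum_insert ha, C.dem_add, ih]

/-- the key lemma, general index types -/
lemma key {ι : Type} [Fintype ι] [DecidableEq ι] (f : ι → MvPolynomial I k) (m : ι → ℕ)
    (hinv : ∀ j, C.IsInv (f j)) (j0 : ι)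
    (h0 : f j0 ∉ Ideal.span (f '' {j | j ≠ j0})) (d : ℕ) :
    ∀ g : ι → MvPolynomial I k, (∀ j, g j = 0 ∨ ∃ e, (g j).IsHomogeneous e ∧ e + m j = d) →
    ∑ j, g j * f j = 0 → g j0 ∈ C.invIdeal k := by
  have hconst : ∀ g : ι → MvPolynomial I k, ∑ j, g j * f j = 0 → (g j0).IsHomogeneous 0 →
      g j0 ∈ C.invIdeal k := by
    intro g hsum hg
    obtain ⟨c, hc⟩ : ∃ c, g j0 = MvPolynomial.C c :=
      ⟨_, (totalDegree_eq_zero_iff_eq_C).1 ((totalDegree_zero_iff_isHomogeneous I).2 hg)⟩
    by_cases hc0 : c = 0
    · rw [hc, hc0, map_zero]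
      exact zero_mem _
    · exfalso
      apply h0
      rw [← Finset.add_sum_erase _ _ (Finset.mem_univ j0), hc] at hsum
      have h1 : f j0 = - MvPolynomial.C c⁻¹ * ∑ x ∈ Finset.univ.erase j0, g x * f x := by
        have h2 : MvPolynomial.C c * f j0 = - ∑ x ∈ Finset.univ.erase j0, g x * f x :=
          eq_neg_of_add_eq_zero_left hsum
        rw [neg_mul, ← mul_neg, ← h2, ← mul_assoc, ← map_mul, inv_mul_cancel₀ hc0, map_one, one_mul]
      rw [h1]
      refine Ideal.mul_mem_left _ _ (Ideal.sum_mem _ fun x hx => ?_)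
      refine Ideal.mul_mem_left _ _ (Ideal.subset_span ⟨x, ?_, rfl⟩)
      exact (Finset.mem_erase.1 hx).1
  induction d with
  | zero =>
    intro g hg hsum
    rcases hg j0 with h | ⟨e, he, hed⟩
    · rw [h]
      exact zero_mem _
    · have : e = 0 := by omega
      subst this
      exact hconst g hsum he
  | succ d ih =>
    intro g hg hsum
    rcases hg j0 with h | ⟨e, he, hed⟩
    · rw [h]
      exact zero_mem _
    · rcases Nat.eq_zero_or_pos e with rfl | hepos
      · exact hconst g hsum he
      · have hd : ∀ i, C.dem i (g j0) ∈ C.invIdeal k := by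
          intro i
          refine ih (fun j => C.dem i (g j)) ?_ ?_
          · intro j
            rcases hg j with h | ⟨e', he', hed'⟩
            · left
              rw [h, dem_zero]
            · rcases Nat.eq_zero_or_pos e' with rfl | hpos'
              · left
                rw [(totalDegree_eq_zero_iff_eq_C).1 ((totalDegree_zero_iff_isHomogeneous I).2 he'),
                  C.dem_C]
              · right
                obtain ⟨n, rfl⟩ : ∃ n, e' = n + 1 := ⟨e' - 1, by omega⟩
                exact ⟨n, C.dem_homog i he', by omega⟩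
          · have h1 := congrArg (C.dem i) hsum
            rw [dem_zero, dem_sum] at h1
            rw [← h1]
            refine Finset.sum_congr rfl fun j _ => ?_
            rw [mul_comm (g j), C.dem_inv i (hinv j), mul_comm]
        obtain ⟨R, hR1, hR2, hR3, hR4, hR5⟩ := C.exists_reynolds (k := k)
        have h1 := hR5 (C.invIdeal k) (g j0) (fun i x hx => ChevTop.invIdeal_rs C i x hx)
          (fun i => by
            rw [← C.dem_spec i (g j0)]
            exact Ideal.mul_mem_left _ _ (hd i))
        have h2 : R (g j0) ∈ C.invIdeal k := Ideal.subset_span ⟨hR1 _, e, hepos, hR3 _ _ he⟩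
        have := add_mem h1 h2
        rwa [sub_add_cancel] at this


/-- a generating family of the ideal of invariants -/
structure GenFam {n : ℕ} (f : Fin n → MvPolynomial I k) (m : Fin n → ℕ) : Prop where
  homog : ∀ j, (f j).IsHomogeneous (m j)
  pos : ∀ j, 0 < m j
  inv : ∀ j, C.IsInv (f j)
  span : Ideal.span (Set.range f) = C.invIdeal k

omit [CharZero k] in
lemma exists_genFam : ∃ (n : ℕ) (f : Fin n → MvPolynomial I k) (m : Fin n → ℕ), GenFam C f m := by
  have h1 : (C.invIdeal k).FG := (isNoetherianRing_iff_ideal_fg _).1 inferInstance _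
  rw [CDatum.invIdeal, Ideal.span] at h1
  obtain ⟨s, hs, hs'⟩ := (Submodule.fg_span_iff_fg_span_finset_subset _).1 h1
  let f : Fin s.card → MvPolynomial I k := fun j => (s.equivFin.symm j).1
  have hf : ∀ j, f j ∈ {p : MvPolynomial I k | C.IsInv p ∧ ∃ d, 0 < d ∧ p.IsHomogeneous d} :=
    fun j => hs (s.equivFin.symm j).2
  have hf' : ∀ j, ∃ d, 0 < d ∧ (f j).IsHomogeneous d := fun j => (hf j).2
  choose m hm using hf'
  refine ⟨s.card, f, m, fun j => (hm j).2, fun j => (hm j).1, fun j => (hf j).1, ?_⟩
  have hr : Set.range f = s := by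
    ext x
    constructor
    · rintro ⟨j, rfl⟩
      exact (s.equivFin.symm j).2
    · intro hx
      exact ⟨s.equivFin ⟨x, hx⟩, by simp [f]⟩
  rw [hr]
  exact hs'.symm

omit [CharZero k] in
lemma rs_hc (i : I) (d : ℕ) (p : MvPolynomial I k) :
    C.rs k i (homogeneousComponent d p) = homogeneousComponent d (C.rs k i p) := by
  have := hc_aeval (fun j => if j = i then X i - C.th k i else (X j : MvPolynomial I k))
    (fun _ => 1) ?_ p d
  · exact this.symm
  · intro j
    split_ifs with h
    · refine (isHomogeneous_X _ _).sub ?_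
      refine IsHomogeneous.sum _ _ _ fun j _ => ?_
      rw [MvPolynomial.smul_eq_C_mul]
      exact isHomogeneous_C_mul_X _ _
    · exact isHomogeneous_X _ _

lemma GenFam.gen {n : ℕ} {f : Fin n → MvPolynomial I k} {m : Fin n → ℕ} (h : GenFam C f m) :
    ∀ p : MvPolynomial I k, C.IsInv p → p ∈ Algebra.adjoin k (Set.range f) := by
  obtain ⟨R, hR1, hR2, hR3, hR4, hR5⟩ := C.exists_reynolds (k := k)
  have key : ∀ d : ℕ, ∀ p : MvPolynomial I k, C.IsInv p → p.IsHomogeneous d →
      p ∈ Algebra.adjoin k (Set.range f) := by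
    intro d
    induction d using Nat.strong_induction_on with
    | _ d ih =>
      intro p hp hpd
      rcases Nat.eq_zero_or_pos d with rfl | hd
      · rw [(totalDegree_eq_zero_iff_eq_C).1 ((totalDegree_zero_iff_isHomogeneous I).2 hpd)]
        exact Subalgebra.algebraMap_mem _ _
      · have hmem : p ∈ Ideal.span (Set.range f) := by
          rw [h.span]
          exact Ideal.subset_span ⟨hp, d, hd, hpd⟩
        obtain ⟨a, ha, hpa⟩ := hrep f m h.homog hpd hmem
        rw [← hR2 p hp, hpa, map_sum]
        refine Subalgebra.sum_mem _ fun j _ => ?_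
        rw [mul_comm, hR4 _ _ (h.inv j)]
        refine Subalgebra.mul_mem _ (Algebra.subset_adjoin ⟨j, rfl⟩) ?_
        rcases ha j with h0 | ⟨e, he, hed⟩
        · rw [h0, map_zero]
          exact Subalgebra.zero_mem _
        · have := h.pos j
          exact ih e (by omega) _ (hR1 _) (hR3 _ _ he)
  intro p hp
  rw [← sum_homogeneousComponent p]
  refine Subalgebra.sum_mem _ fun i _ => key i _ ?_ (homogeneousComponent_isHomogeneous _ _)
  intro l
  rw [rs_hc, hp l]

lemma GenFam.indep {n : ℕ} {f : Fin n → MvPolynomial I k} {m : Fin n → ℕ} (h : GenFam C f m)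
    (hmin : ∀ j, f j ∉ Ideal.span (f '' {i | i ≠ j})) : AlgebraicIndependent k f := by
  classical
  rw [algebraicIndependent_iff_injective_aeval, injective_iff_map_eq_zero]
  intro P hP
  by_contra hP0
  have hex : ∃ d, ∃ Q : MvPolynomial (Fin n) k, Q ≠ 0 ∧ Q.IsWeightedHomogeneous m d ∧
      aeval f Q = 0 := by
    obtain ⟨u, hu⟩ : ∃ u, coeff u P ≠ 0 := by
      by_contra hcon
      push Not at hcon
      exact hP0 (by ext u; rw [hcon, coeff_zero])
    refine ⟨Finsupp.weight m u, weightedHomogeneousComponent m (Finsupp.weight m u) P, ?_,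
      weightedHomogeneousComponent_isWeightedHomogeneous _ _, ?_⟩
    · intro h0
      have := congrArg (coeff u) h0
      rw [coeff_weightedHomogeneousComponent, if_pos rfl, coeff_zero] at this
      exact hu this
    · rw [← hc_aeval f m h.homog, hP, map_zero]
  obtain ⟨Q, hQ0, hQ, hQf⟩ := Nat.find_spec hex
  have hmind : ∀ d' < Nat.find hex, ∀ Q' : MvPolynomial (Fin n) k,
      Q'.IsWeightedHomogeneous m d' → aeval f Q' = 0 → Q' = 0 := by
    intro d' hd' Q' hQ' hQ'f
    by_contra h0
    exact Nat.find_min hex hd' ⟨Q', h0, hQ', hQ'f⟩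
  set d := Nat.find hex with hd
  set p : Fin n → MvPolynomial I k := fun i => aeval f (pderiv i Q) with hp
  have hpd : ∀ i, m i ≤ d → (p i).IsHomogeneous (d - m i) := fun i hi =>
    wh_aeval f m h.homog (hQ.pderiv (by omega))
  have hp0 : ∀ i, p i ≠ 0 → m i ≤ d := by
    intro i hi
    by_contra hcon
    apply hi
    rw [hp]
    dsimp only
    rw [pderiv_eq_zero m hQ (by omega), map_zero]
  have hpinv : ∀ i, C.IsInv (p i) := by
    intro i l
    have : (C.rs k l).comp (aeval f) = aeval f := by
      refine MvPolynomial.algHom_ext fun j => ?_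
      rw [AlgHom.comp_apply, aeval_X, h.inv j l]
    exact AlgHom.congr_fun this _
  have hexi : ∃ i, p i ≠ 0 := by
    by_contra hcon
    push Not at hcon
    have h1 : ∀ i, pderiv i Q = 0 := by
      intro i
      by_cases hi : m i ≤ d
      · have := h.pos i
        exact hmind (d - m i) (by omega) _ (hQ.pderiv (by omega)) (hcon i)
      · exact pderiv_eq_zero m hQ (by omega)
    have h2 := hQ.sum_weight_X_mul_pderiv
    simp only [h1, mul_zero, smul_zero, Finset.sum_const_zero] at h2
    have h3 : d = 0 := by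
      by_contra h3
      apply hQ0
      have : (d : k) • Q = 0 := by
        rw [Nat.cast_smul_eq_nsmul]
        exact h2.symm
      exact (smul_eq_zero.1 this).resolve_left (by exact_mod_cast h3)
    have h4 : Q = MvPolynomial.C (coeff 0 Q) := by
      ext u
      rw [coeff_C]
      split_ifs with hu
      · rw [← hu]
      · by_contra hc
        apply hu
        have h5 := hQ hc
        rw [h3] at h5
        ext s
        have := Finsupp.le_weight m (h.pos s).ne' u
        simp only [Finsupp.coe_zero, Pi.zero_apply]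
        omega
    rw [h4, aeval_C, algebraMap_eq] at hQf
    apply hQ0
    rw [h4, (C_eq_zero).1 hQf, map_zero]
  obtain ⟨J, hJ⟩ := exists_minimal_of_wellFoundedLT
    (fun J : Finset (Fin n) => ∀ i, p i ∈ Ideal.span (p '' (J : Set (Fin n))))
    ⟨Finset.univ, fun i => Ideal.subset_span ⟨i, by simp, rfl⟩⟩
  have hJmin : ∀ j ∈ J, p j ∉ Ideal.span (p '' ((J.erase j : Finset (Fin n)) : Set (Fin n))) := by
    intro j hj hmem
    have h1 : J ≤ J.erase j := by
      apply hJ.2 _ (Finset.erase_subset _ _)
      intro i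
      have h2 : Ideal.span (p '' (J : Set (Fin n))) ≤
          Ideal.span (p '' ((J.erase j : Finset (Fin n)) : Set (Fin n))) := by
        rw [Ideal.span_le]
        rintro _ ⟨x, hx, rfl⟩
        by_cases hxj : x = j
        · rw [hxj]
          exact hmem
        · exact Ideal.subset_span ⟨x, by simpa [hxj] using hx, rfl⟩
      exact h2 (hJ.1 i)
    exact Finset.notMem_erase j J (h1 hj)
  have hJne : ∀ j ∈ J, p j ≠ 0 := by
    intro j hj h0
    apply hJmin j hj
    rw [h0]
    exact zero_mem _
  obtain ⟨j0, hj0⟩ : ∃ j, j ∈ J := by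
    by_contra hcon
    push Not at hcon
    have : J = ∅ := Finset.eq_empty_of_forall_notMem hcon
    obtain ⟨i, hi⟩ := hexi
    have h1 := hJ.1 i
    rw [this] at h1
    simp at h1
    exact hi h1
  have hcoef : ∀ i, ∃ c : Fin n → MvPolynomial I k, (∀ j, j ∉ J → c j = 0) ∧
      (i ∈ J → c = Pi.single i 1) ∧
      (∀ j, c j = 0 ∨ (m i ≤ d ∧ ∃ e, (c j).IsHomogeneous e ∧ e + (d - m j) = d - m i)) ∧
      p i = ∑ j, c j * p j := by
    intro i
    by_cases hi : i ∈ J
    · refine ⟨Pi.single i 1, ?_, fun _ => rfl, ?_, ?_⟩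
      · intro j hj
        rw [Pi.single_eq_of_ne]
        rintro rfl
        exact hj hi
      · intro j
        by_cases hij : j = i
        · subst hij
          right
          refine ⟨hp0 _ (hJne _ hi), 0, ?_, zero_add _⟩
          rw [Pi.single_eq_same]
          exact isHomogeneous_one _ _
        · left
          rw [Pi.single_eq_of_ne hij]
      · rw [Finset.sum_eq_single i]
        · rw [Pi.single_eq_same, one_mul]
        · intro j _ hj
          rw [Pi.single_eq_of_ne hj, zero_mul]
        · intro h
          exact absurd (Finset.mem_univ _) h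
    · by_cases hpi : p i = 0
      · refine ⟨0, fun _ _ => rfl, fun h => absurd h hi, fun j => Or.inl rfl, ?_⟩
        simp [hpi]
      · have hmi := hp0 i hpi
        have hmem : p i ∈ Ideal.span (Set.range fun j : J => p j) := by
          have h1 := hJ.1 i
          have h2 : (Set.range fun j : J => p j) = p '' (J : Set (Fin n)) := by
            ext x
            simp
          rw [h2]
          exact h1
        obtain ⟨a, ha, hpa⟩ := hrep (fun j : J => p j) (fun j => d - m j)
          (fun j => hpd j (hp0 _ (hJne _ j.2))) (hpd i hmi) hmem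
        refine ⟨fun j => if h : j ∈ J then a ⟨j, h⟩ else 0, ?_, fun h => absurd h hi, ?_, ?_⟩
        · intro j hj
          simp [hj]
        · intro j
          by_cases hj : j ∈ J
          · rcases ha ⟨j, hj⟩ with h1 | h1
            · left
              simp [hj, h1]
            · right
              refine ⟨hmi, ?_⟩
              simpa [hj] using h1
          · left
            simp [hj]
        · rw [hpa]
          rw [← Finset.sum_subset (Finset.subset_univ J)]
          · rw [← Finset.sum_coe_sort J]
            refine Finset.sum_congr rfl fun j _ => ?_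
            simp
          · intro j _ hj
            simp [hj]
  choose c hc1 hc2 hc3 hc4 using hcoef
  have hmj0 : m j0 ≤ d := hp0 _ (hJne _ hj0)
  -- the coefficients
  have hu : ∀ l : I, ∀ j ∈ J, (∑ i, c i j * pderiv l (f i)).IsHomogeneous (m j - 1) := by
    intro l j hj
    refine IsHomogeneous.sum _ _ _ fun i _ => ?_
    rcases hc3 i j with h1 | ⟨hmi, e, he, hed⟩
    · rw [h1, zero_mul]
      exact isHomogeneous_zero _ _ _
    · have h1 := he.mul ((h.homog i).pderiv (i := l))
      have h2 := hp0 _ (hJne _ hj)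
      have h3 := h.pos i
      have h4 : e + (m i - 1) = m j - 1 := by omega
      rwa [h4] at h1
  have hu' : ∀ l : I, (∑ i, c i j0 * pderiv l (f i)) ∈ C.invIdeal k := by
    intro l
    refine key C (fun j : J => p j) (fun j => d - m j) (fun j => hpinv j) ⟨j0, hj0⟩ ?_ (d - 1)
      (fun j => ∑ i, c i j * pderiv l (f i)) ?_ ?_
    · have h1 := hJmin j0 hj0
      have h2 : (fun j : J => p j) '' {j | j ≠ ⟨j0, hj0⟩} =
          p '' ((J.erase j0 : Finset (Fin n)) : Set (Fin n)) := by
        ext x
        constructor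
        · rintro ⟨j, hj, rfl⟩
          refine ⟨j, ?_, rfl⟩
          simp only [Finset.coe_erase, Set.mem_sdiff, Finset.mem_coe, Set.mem_singleton_iff]
          exact ⟨j.2, fun h => hj (Subtype.ext h)⟩
        · rintro ⟨j, hj, rfl⟩
          simp only [Finset.coe_erase, Set.mem_sdiff, Finset.mem_coe, Set.mem_singleton_iff] at hj
          exact ⟨⟨j, hj.1⟩, fun h => hj.2 (congrArg Subtype.val h), rfl⟩
      rw [h2]
      exact h1
    · intro j
      right
      have h2 := hp0 _ (hJne _ j.2)
      have h3 := h.pos j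
      exact ⟨m j - 1, hu l j j.2, by omega⟩
    · have h1 := chain f l Q
      rw [hQf, map_zero] at h1
      have h2 : ∑ i, p i * pderiv l (f i) = ∑ j : J, (∑ i, c i j * pderiv l (f i)) * p j := by
        rw [Finset.sum_coe_sort J (fun j => (∑ i, c i j * pderiv l (f i)) * p j),
          Finset.sum_subset (Finset.subset_univ J)]
        · simp only [Finset.sum_mul]
          rw [Finset.sum_comm]
          refine Finset.sum_congr rfl fun i _ => ?_
          conv_lhs => rw [hc4 i]
          rw [Finset.sum_mul]
          exact Finset.sum_congr rfl fun j _ => by ring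
        · intro j _ hj
          simp [hc1 _ j hj]
      rw [← h2]
      exact h1.symm
  -- contradiction
  apply hmin j0
  have hu2 : ∀ l : I, (∑ i, c i j0 * pderiv l (f i)) ∈ Ideal.span (f '' {i | i ≠ j0}) := by
    intro l
    have h1 := hu' l
    rw [← h.span] at h1
    obtain ⟨a, ha, hpa⟩ := hrep f m h.homog (hu l j0 hj0) h1
    rw [hpa]
    refine Ideal.sum_mem _ fun j _ => ?_
    by_cases hj : j = j0
    · subst hj
      rcases ha j with h2 | ⟨e, _, he⟩
      · rw [h2, zero_mul]
        exact zero_mem _
      · exfalso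
        have := h.pos j
        omega
    · exact Ideal.mul_mem_left _ _ (Ideal.subset_span ⟨j, hj, rfl⟩)
  have hE : ∑ l, X l * (∑ i, c i j0 * pderiv l (f i)) = ∑ i, c i j0 * (m i • f i) := by
    simp only [Finset.mul_sum]
    rw [Finset.sum_comm]
    refine Finset.sum_congr rfl fun i _ => ?_
    rw [← (h.homog i).sum_X_mul_pderiv, Finset.mul_sum]
    exact Finset.sum_congr rfl fun l _ => by ring
  rw [← Finset.add_sum_erase _ _ (Finset.mem_univ j0), hc2 j0 hj0, Pi.single_eq_same, one_mul] at hE
  have h1 : m j0 • f j0 ∈ Ideal.span (f '' {i | i ≠ j0}) := by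
    have h2 : m j0 • f j0 = ∑ l, X l * (∑ i, c i j0 * pderiv l (f i)) -
        ∑ x ∈ Finset.univ.erase j0, c x j0 * (m x • f x) := by
      rw [hE]
      ring
    rw [h2]
    refine Ideal.sub_mem _ (Ideal.sum_mem _ fun l _ => Ideal.mul_mem_left _ _ (hu2 l))
      (Ideal.sum_mem _ fun x hx => Ideal.mul_mem_left _ _ ?_)
    rw [nsmul_eq_mul]
    exact Ideal.mul_mem_left _ _ (Ideal.subset_span ⟨x, (Finset.mem_erase.1 hx).1, rfl⟩)
  have h2 : f j0 = MvPolynomial.C ((m j0 : k)⁻¹) * (m j0 • f j0) := by
    have h3 : ((m j0 : ℕ) : k) ≠ 0 := by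
      have := h.pos j0
      exact_mod_cast this.ne'
    rw [← Nat.cast_smul_eq_nsmul k, MvPolynomial.smul_eq_C_mul, ← mul_assoc, ← map_mul,
      inv_mul_cancel₀ h3, map_one, one_mul]
  rw [h2]
  exact Ideal.mul_mem_left _ _ h1

lemma GenFam.minimal {n : ℕ} {f : Fin n → MvPolynomial I k} {m : Fin n → ℕ} (h : GenFam C f m)
    (hn : ∀ n' < n, ¬ ∃ (f : Fin n' → MvPolynomial I k) (m : Fin n' → ℕ), GenFam C f m) :
    ∀ j, f j ∉ Ideal.span (f '' {i | i ≠ j}) := by
  cases n with
  | zero =>
    intro j
    exact j.elim0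
  | succ n =>
    intro j hmem
    apply hn n (Nat.lt_succ_self n)
    refine ⟨fun i => f (j.succAbove i), fun i => m (j.succAbove i), fun i => h.homog _,
      fun i => h.pos _, fun i => h.inv _, ?_⟩
    have hr : Set.range (fun i => f (j.succAbove i)) = f '' {i | i ≠ j} := by
      ext x
      constructor
      · rintro ⟨i, rfl⟩
        exact ⟨j.succAbove i, Fin.succAbove_ne j i, rfl⟩
      · rintro ⟨i, hi, rfl⟩
        obtain ⟨i', rfl⟩ := Fin.exists_succAbove_eq hi
        exact ⟨i', rfl⟩
    rw [← h.span, hr]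
    apply le_antisymm
    · refine Ideal.span_mono ?_
      rintro _ ⟨i, _, rfl⟩
      exact ⟨i, rfl⟩
    · rw [Ideal.span_le]
      rintro _ ⟨i, rfl⟩
      by_cases hi : i = j
      · rw [hi]
        exact hmem
      · exact Ideal.subset_span ⟨i, hi, rfl⟩

lemma count {n : ℕ} {f : Fin n → MvPolynomial I k} (hind : AlgebraicIndependent k f)
    (hgen : ∀ p : MvPolynomial I k, C.IsInv p → p ∈ Algebra.adjoin k (Set.range f)) :
    n = Fintype.card I := by
  haveI : Algebra.IsInvariant (Algebra.adjoin k (Set.range f)) (MvPolynomial I k)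
      (ChevTop.W C k) := ⟨fun b hb => ⟨⟨b, hgen b ((ChevTop.inv_iff C b).2
        (fun w hw => hb ⟨w, hw⟩))⟩, rfl⟩⟩
  haveI : Algebra.IsIntegral (Algebra.adjoin k (Set.range f)) (MvPolynomial I k) :=
    Algebra.IsInvariant.isIntegral _ _ (ChevTop.W C k)
  haveI : Algebra.IsAlgebraic (Algebra.adjoin k (Set.range f)) (MvPolynomial I k) :=
    Algebra.IsIntegral.isAlgebraic
  have hb : IsTranscendenceBasis k f := hind.isTranscendenceBasis_iff_isAlgebraic.2 inferInstance
  have h1 := hb.cardinalMk_eq_trdeg
  have h2 := MvPolynomial.trdeg_of_isDomain (ι := I) (S := k)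
  rw [h2] at h1
  simpa using h1

end ChevThm

/-- Chevalley's key lemma: `f₁, …, f_n` homogeneous invariants, `f₁` not in the ideal generated by
the others; if `∑ g_j f_j = 0` with `g_j` homogeneous then `g₁` lies in the ideal of invariants. -/
theorem CDatum.chev_key {n : ℕ} (f : Fin (n + 1) → MvPolynomial I k) (m : Fin (n + 1) → ℕ)
    (hm : ∀ j, 0 < m j) (hf : ∀ j, (f j).IsHomogeneous (m j)) (hinv : ∀ j, C.IsInv (f j))
    (h0 : f 0 ∉ Ideal.span (Set.range fun j : Fin n => f j.succ))
    (g : Fin (n + 1) → MvPolynomial I k) (d : ℕ)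
    (hg : ∀ j, g j = 0 ∨ ∃ e, (g j).IsHomogeneous e ∧ e + m j = d)
    (hsum : ∑ j, g j * f j = 0) : g 0 ∈ C.invIdeal k := by
  refine ChevThm.key C f m hinv 0 ?_ d g hg hsum
  have : f '' {j | j ≠ 0} = Set.range fun j : Fin n => f j.succ := by
    ext x
    constructor
    · rintro ⟨i, hi, rfl⟩
      obtain ⟨i', rfl⟩ := Fin.exists_succ_eq.2 hi
      exact ⟨i', rfl⟩
    · rintro ⟨i, rfl⟩
      exact ⟨i.succ, Fin.succ_ne_zero i, rfl⟩
  rw [this]
  exact h0

/-- Chevalley's theorem: existence of basic invariants, as many as variables. -/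
theorem CDatum.exists_basic : ∃ (f : Fin (Fintype.card I) → MvPolynomial I k)
    (m : Fin (Fintype.card I) → ℕ), IsBasic C f m := by
  classical
  have hex := ChevThm.exists_genFam (k := k) C
  obtain ⟨n, f, m, h, hn⟩ : ∃ (n : ℕ) (f : Fin n → MvPolynomial I k) (m : Fin n → ℕ),
      ChevThm.GenFam C f m ∧
      ∀ n' < n, ¬ ∃ (f : Fin n' → MvPolynomial I k) (m : Fin n' → ℕ), ChevThm.GenFam C f m := by
    obtain ⟨f, m, h⟩ := Nat.find_spec hex
    exact ⟨_, f, m, h, fun n' hn' => Nat.find_min hex hn'⟩
  have hind := h.indep C (h.minimal C hn)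
  have hgen := h.gen C
  have hc := ChevThm.count C hind hgen
  subst hc
  exact ⟨f, m, h.homog, h.pos, h.inv, hind, hgen⟩

theorem IsBasic.invIdeal_eq {n : ℕ} {f : Fin n → MvPolynomial I k} {m : Fin n → ℕ}
    (h : IsBasic C f m) : C.invIdeal k = Ideal.span (Set.range f) := by
  have h0 : ∀ j, constantCoeff (f j) = 0 := by
    intro j
    rw [constantCoeff_eq]
    exact (h.homog j).coeff_eq_zero (by simpa using (h.pos j).ne)
  have key : ∀ p ∈ Algebra.adjoin k (Set.range f),
      p - MvPolynomial.C (constantCoeff p) ∈ Ideal.span (Set.range f) := by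
    intro p hp
    refine Algebra.adjoin_induction (p := fun p _ =>
      p - MvPolynomial.C (constantCoeff p) ∈ Ideal.span (Set.range f)) ?_ ?_ ?_ ?_ hp
    · rintro _ ⟨j, rfl⟩
      rw [h0, map_zero, sub_zero]
      exact Ideal.subset_span ⟨j, rfl⟩
    · intro r
      rw [algebraMap_eq, constantCoeff_C, sub_self]
      exact zero_mem _
    · intro x y _ _ hx hy
      have := add_mem hx hy
      rw [map_add, map_add]
      convert this using 1
      ring
    · intro x y _ _ hx hy
      rw [map_mul, map_mul]
      have : x * y - MvPolynomial.C (constantCoeff x) * MvPolynomial.C (constantCoeff y) =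
          y * (x - MvPolynomial.C (constantCoeff x)) + MvPolynomial.C (constantCoeff x) *
            (y - MvPolynomial.C (constantCoeff y)) := by ring
      rw [this]
      exact add_mem (Ideal.mul_mem_left _ _ hx) (Ideal.mul_mem_left _ _ hy)
  apply le_antisymm
  · rw [CDatum.invIdeal, Ideal.span_le]
    rintro p ⟨hp, d, hd, hpd⟩
    have h1 := key p (h.gen p hp)
    have h2 : constantCoeff p = 0 := by
      rw [constantCoeff_eq]
      exact hpd.coeff_eq_zero (by simpa using hd.ne)
    rwa [h2, map_zero, sub_zero] at h1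
  · rw [Ideal.span_le]
    rintro _ ⟨j, rfl⟩
    exact Ideal.subset_span ⟨h.inv j, m j, h.pos j, h.homog j⟩

/-- the degrees are at least two -/
theorem IsBasic.two_le {n : ℕ} {f : Fin n → MvPolynomial I k} {m : Fin n → ℕ}
    (h : IsBasic C f m) (j : Fin n) : 2 ≤ m j := by
  by_contra hlt
  have h1 : m j = 1 := by
    have := h.pos j
    omega
  have h2 := h.homog j
  rw [h1] at h2
  have h3 : f j ∈ homogeneousSubmodule I k 1 := h2
  rw [homogeneousSubmodule_one_eq_span_X, Submodule.mem_span_range_iff_exists_fun] at h3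
  obtain ⟨c, hc⟩ := h3
  have h4 : ∀ i, C.dem i (f j) = 0 := by
    intro i
    have h5 := C.dem_spec i (f j)
    rw [h.inv j i, sub_self] at h5
    exact (mul_eq_zero.1 h5).resolve_left (C.th_ne_zero i)
  have h6 : ∀ i, c i = 0 := by
    intro i
    have h7 := h4 i
    rw [← hc, ChevThm.dem_sum] at h7
    simp only [C.dem_smul, C.dem_X] at h7
    simpa using h7
  apply h.indep.ne_zero j
  rw [← hc]
  simp [h6]

end Pool.Agent.Lib.QG
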