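import Pool.Agent.Lib.MP_021f05_al.Sl2

/-!
# MP_021f05_al (R): combinatorics of the dot action
-/

namespace Pool.Agent.Lib.QG

variable {I : Type} [Fintype I] [DecidableEq I] (C : CDatum I)

/-- height -/
def ht (μ : I → ℤ) : ℤ := ∑ j, μ j

/-- `(μ + ρ, β)` -/
def CDatum.rp (μ β : I → ℤ) : ℤ := ∑ j, β j * (C.d j * (C.ct j μ + 1))

/-- the number of positive roots `β` with `(μ + ρ, β) < 0` -/
def CDatum.nu (μ : I → ℤ) : ℕ := (C.Φ.filter fun β => C.rp μ β < 0).card

private theorem Roots_ct_sub (i : I) (x y : I → ℤ) : C.ct i (x - y) = C.ct i x - C.ct i y := by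
  simp only [CDatum.ct, Pi.sub_apply, mul_sub, Finset.sum_sub_distrib]

private theorem Roots_ct_smul (i : I) (c : ℤ) (x : I → ℤ) : C.ct i (c • x) = c * C.ct i x := by
  simp only [CDatum.ct, Pi.smul_apply, smul_eq_mul, Finset.mul_sum]
  exact Finset.sum_congr rfl (fun j _ => by ring)

private theorem Roots_ct_al (j i : I) : C.ct j (C.al i) = C.a j i := by
  simp [CDatum.ct, CDatum.al, Pi.single_apply]

private theorem Roots_sum_al (i : I) (f : I → ℤ) : ∑ j, C.al i j * f j = f i := by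
  simp [CDatum.al, Pi.single_apply]

theorem CDatum.dot_eq (i : I) (μ : I → ℤ) : C.dot i μ = μ - (C.ct i μ + 1) • C.al i := by
  rw [CDatum.dot, CDatum.refl, add_smul, one_smul, sub_sub]

theorem CDatum.ct_dot (i : I) (μ : I → ℤ) : C.ct i (C.dot i μ) = - C.ct i μ - 2 := by
  rw [CDatum.dot_eq, Roots_ct_sub, Roots_ct_smul, Roots_ct_al, C.diag]
  ring

theorem CDatum.dot_dot (i : I) (μ : I → ℤ) : C.dot i (C.dot i μ) = μ := by
  rw [C.dot_eq i (C.dot i μ), C.ct_dot, C.dot_eq i μ, sub_sub, ← add_smul]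
  have : C.ct i μ + 1 + (-C.ct i μ - 2 + 1) = 0 := by ring
  rw [this, zero_smul, sub_zero]

private theorem Roots_refl_refl (i : I) (μ : I → ℤ) : C.refl i (C.refl i μ) = μ := by
  have h : C.ct i (C.refl i μ) = - C.ct i μ := by
    rw [CDatum.refl, Roots_ct_sub, Roots_ct_smul, Roots_ct_al, C.diag]
    ring
  rw [CDatum.refl, h, CDatum.refl, sub_sub, ← add_smul]
  have : C.ct i μ + -C.ct i μ = 0 := by ring
  rw [this, zero_smul, sub_zero]

private theorem Roots_rp_refl (i : I) (μ β : I → ℤ) :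
    C.rp μ (C.refl i β) = C.rp μ β - C.ct i β * (C.d i * (C.ct i μ + 1)) := by
  unfold CDatum.rp
  have h : ∀ j, C.refl i β j * ((C.d j : ℤ) * (C.ct j μ + 1)) =
      β j * (C.d j * (C.ct j μ + 1)) - C.ct i β * (C.al i j * (C.d j * (C.ct j μ + 1))) := by
    intro j
    simp only [CDatum.refl, Pi.sub_apply, Pi.smul_apply, smul_eq_mul]
    ring
  rw [Finset.sum_congr rfl (fun j _ => h j), Finset.sum_sub_distrib, ← Finset.mul_sum,
    Roots_sum_al C i (fun j => (C.d j : ℤ) * (C.ct j μ + 1))]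

theorem CDatum.rp_dot (i : I) (μ β : I → ℤ) : C.rp (C.dot i μ) β = C.rp μ (C.refl i β) := by
  rw [Roots_rp_refl, CDatum.dot_eq]
  unfold CDatum.rp
  have h : ∀ j, β j * ((C.d j : ℤ) * (C.ct j (μ - (C.ct i μ + 1) • C.al i) + 1)) =
      β j * (C.d j * (C.ct j μ + 1)) - (C.d i * (C.ct i μ + 1)) * (C.a i j * β j) := by
    intro j
    rw [Roots_ct_sub, Roots_ct_smul, Roots_ct_al]
    have hs := C.symm j i
    calc β j * ((C.d j : ℤ) * (C.ct j μ - (C.ct i μ + 1) * C.a j i + 1))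
        = β j * (C.d j * (C.ct j μ + 1)) - β j * (C.ct i μ + 1) * ((C.d j : ℤ) * C.a j i) := by ring
      _ = β j * (C.d j * (C.ct j μ + 1)) - β j * (C.ct i μ + 1) * ((C.d i : ℤ) * C.a i j) := by rw [hs]
      _ = _ := by ring
  rw [Finset.sum_congr rfl (fun j _ => h j), Finset.sum_sub_distrib, ← Finset.mul_sum]
  have : ∑ j, C.a i j * β j = C.ct i β := rfl
  rw [this]
  ring

theorem CDatum.nu_zero : C.nu 0 = 0 := by
  unfold CDatum.nu
  rw [Finset.card_eq_zero, Finset.filter_eq_empty_iff]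
  intro β hβ
  rw [not_lt]
  unfold CDatum.rp
  refine Finset.sum_nonneg (fun j _ => ?_)
  have h0 : C.ct j 0 = 0 := by simp [CDatum.ct]
  rw [h0]
  exact mul_nonneg (C.Φ_nonneg β hβ j) (by positivity)

theorem CDatum.nu_le (μ : I → ℤ) : C.nu μ ≤ C.Φ.card := Finset.card_filter_le _ _

private theorem Roots_refl_mem (i : I) {β : I → ℤ} (hβ : β ∈ C.Φ) (hne : β ≠ C.al i) :
    C.refl i β ∈ C.Φ ∧ C.refl i β ≠ C.al i := by
  refine ⟨C.Φ_refl i β hβ hne, fun h => ?_⟩
  have h1 : β = C.refl i (C.al i) := by rw [← h, Roots_refl_refl]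
  have h2 : C.refl i (C.al i) i = -1 := by
    rw [CDatum.refl, Roots_ct_al, C.diag]
    simp [CDatum.al]
  have h3 := C.Φ_nonneg β hβ i
  rw [h1, h2] at h3
  omega

theorem CDatum.nu_dot (i : I) (μ : I → ℤ) (h : 0 ≤ C.ct i μ) : C.nu (C.dot i μ) = C.nu μ + 1 := by
  classical
  have hd : (0 : ℤ) < C.d i := by exact_mod_cast C.d_pos i
  have hal : C.al i ∈ C.Φ := C.Φ_simple i
  have hrp : C.rp μ (C.al i) = C.d i * (C.ct i μ + 1) := by
    unfold CDatum.rp
    rw [Roots_sum_al C i (fun j => (C.d j : ℤ) * (C.ct j μ + 1))]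
  have hpos : 0 < (C.d i : ℤ) * (C.ct i μ + 1) := by positivity
  have hmem : C.al i ∈ C.Φ.filter (fun β => C.rp (C.dot i μ) β < 0) := by
    rw [Finset.mem_filter]
    refine ⟨hal, ?_⟩
    rw [C.rp_dot, Roots_rp_refl, hrp, Roots_ct_al, C.diag]
    linarith
  unfold CDatum.nu
  rw [← Finset.card_erase_add_one hmem]
  congr 1
  refine Finset.card_nbij' (C.refl i) (C.refl i) ?_ ?_ ?_ ?_
  · intro β hβ
    simp only [Finset.coe_erase, Finset.coe_filter, Set.mem_sdiff, Set.mem_ofPred_eq,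
      Set.mem_singleton_iff] at hβ ⊢
    obtain ⟨⟨hβ1, hβ2⟩, hβ3⟩ := hβ
    rw [C.rp_dot] at hβ2
    exact ⟨(Roots_refl_mem C i hβ1 hβ3).1, hβ2⟩
  · intro β hβ
    simp only [Finset.coe_erase, Finset.coe_filter, Set.mem_sdiff, Set.mem_ofPred_eq,
      Set.mem_singleton_iff] at hβ ⊢
    obtain ⟨hβ1, hβ2⟩ := hβ
    have hne : β ≠ C.al i := by
      intro h3
      rw [h3, hrp] at hβ2
      linarith
    have h4 := Roots_refl_mem C i hβ1 hne
    refine ⟨⟨h4.1, ?_⟩, h4.2⟩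
    rw [C.rp_dot, Roots_refl_refl]
    exact hβ2
  · intro β _
    exact Roots_refl_refl C i β
  · intro β _
    exact Roots_refl_refl C i β

private theorem Roots_form (μ : I → ℤ) :
    ∑ i, ∑ j, μ i * (C.d i * C.a i j) * μ j = ∑ i, μ i * (C.d i * C.ct i μ) := by
  refine Finset.sum_congr rfl (fun i _ => ?_)
  rw [CDatum.ct, Finset.mul_sum, Finset.mul_sum]
  exact Finset.sum_congr rfl (fun j _ => by ring)

/-- a nonzero element of `-Q⁺` pairs negatively with some simple coroot -/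
theorem CDatum.exists_neg {μ : I → ℤ} (h : ∀ j, μ j ≤ 0) (hne : μ ≠ 0) : ∃ i, C.ct i μ < 0 := by
  by_contra hno
  push Not at hno
  have h1 := C.pos μ hne
  rw [Roots_form] at h1
  have h2 : ∑ i, μ i * ((C.d i : ℤ) * C.ct i μ) ≤ 0 := by
    refine Finset.sum_nonpos (fun i _ => ?_)
    exact mul_nonpos_of_nonpos_of_nonneg (h i) (mul_nonneg (by positivity) (hno i))
  linarith

theorem CDatum.ht_dot (i : I) (μ : I → ℤ) : ht (C.dot i μ) = ht μ - (C.ct i μ + 1) := by
  rw [CDatum.dot_eq]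
  unfold ht
  simp only [Pi.sub_apply, Pi.smul_apply, smul_eq_mul, Finset.sum_sub_distrib, ← Finset.mul_sum]
  have : ∑ j, C.al i j = 1 := by simp [CDatum.al, Pi.single_apply]
  rw [this, mul_one]

/-- no simple root is orthogonal to everything: the form is nondegenerate -/
theorem CDatum.ct_inj {μ : I → ℤ} (h : ∀ i, C.ct i μ = 0) : μ = 0 := by
  by_contra hne
  have h1 := C.pos μ hne
  rw [Roots_form] at h1
  simp [h] at h1

end Pool.Agent.Lib.QG
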