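import Pool.Agent.Lib.MP_021f05_al.Chev
import Pool.Agent.Lib.MP_021f05_al.Roots

/-!
# MP_021f05_al (H1): words of Demazure operators
-/

noncomputable section

namespace Pool.Agent.Lib.QG

open MvPolynomial

variable {k : Type} [Field k] [CharZero k] {I : Type} [Fintype I] [DecidableEq I] (C : CDatum I)

namespace ChevTop

omit [CharZero k] in
lemma ct_sub_smul (j : I) (β γ : I → ℤ) (n : ℤ) :
    C.ct j (β - n • γ) = C.ct j β - n * C.ct j γ := by
  simp only [CDatum.ct, Pi.sub_apply, Pi.smul_apply, smul_eq_mul, mul_sub, Finset.sum_sub_distrib,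
    Finset.mul_sum]
  congr 1
  exact Finset.sum_congr rfl fun l _ => by ring

lemma ct_al (i j : I) : C.ct j (C.al i) = C.a j i := by
  simp [CDatum.ct, CDatum.al, Pi.single_apply]

lemma ct_neg (j : I) (β : I → ℤ) : C.ct j (-β) = - C.ct j β := by
  simp [CDatum.ct]

lemma ct_inj {μ : I → ℤ} (h : ∀ i, C.ct i μ = 0) : μ = 0 := by
  by_contra hne
  have := C.pos μ hne
  have h0 : ∑ i, ∑ j, μ i * (C.d i * C.a i j) * μ j = 0 := by
    refine Finset.sum_eq_zero fun i _ => ?_
    have : ∑ j, μ i * (C.d i * C.a i j) * μ j = μ i * C.d i * C.ct i μ := by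
      simp only [CDatum.ct, Finset.mul_sum]
      exact Finset.sum_congr rfl fun l _ => by ring
    rw [this, h i, mul_zero]
  omega

/-- the linear form attached to `β` -/
def lf (k : Type) [Field k] (β : I → ℤ) : MvPolynomial I k :=
  ∑ j, (((C.d j : ℤ) * C.ct j β : ℤ) : k) • X j

omit [CharZero k] in
lemma lf_sub_smul (β γ : I → ℤ) (n : ℤ) :
    lf C k (β - n • γ) = lf C k β - (n : k) • lf C k γ := by
  simp only [lf, Finset.smul_sum, ← Finset.sum_sub_distrib]
  refine Finset.sum_congr rfl fun j _ => ?_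
  rw [ct_sub_smul, smul_smul, ← sub_smul]
  congr 1
  push_cast
  ring

omit [CharZero k] in
lemma lf_neg (β : I → ℤ) : lf C k (-β) = - lf C k β := by
  simp only [lf, ct_neg, ← Finset.sum_neg_distrib]
  refine Finset.sum_congr rfl fun j _ => ?_
  rw [← neg_smul]
  congr 1
  push_cast
  ring

omit [CharZero k] in
lemma lf_al (i : I) : lf C k (C.al i) = (C.d i : k) • C.th k i := by
  simp only [lf, CDatum.th, Finset.smul_sum, ct_al, smul_smul]
  refine Finset.sum_congr rfl fun j _ => ?_
  congr 1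
  have := C.symm j i
  rw [this]
  push_cast
  ring

omit [CharZero k] in
lemma rs_lf (i : I) (β : I → ℤ) : C.rs k i (lf C k β) = lf C k (C.refl i β) := by
  rw [CDatum.refl, lf_sub_smul, lf_al]
  simp only [lf, map_sum, map_smul]
  have h1 : ∀ j, C.rs k i (X j : MvPolynomial I k)
      = X j - (if j = i then C.th k i else 0) := by
    intro j
    simp only [CDatum.rs, aeval_X]
    split_ifs with h
    · rw [h]
    · simp
  simp only [h1, smul_sub, Finset.sum_sub_distrib]
  congr 1
  simp only [smul_ite, smul_zero, Finset.sum_ite_eq', Finset.mem_univ, if_true, smul_smul]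
  congr 1
  push_cast
  ring

/-! ### the group -/

/-- the simple reflection as an automorphism -/
def rsE (k : Type) [Field k] [CharZero k] (i : I) : MvPolynomial I k ≃ₐ[k] MvPolynomial I k :=
  AlgEquiv.ofAlgHom (C.rs k i) (C.rs k i)
    (AlgHom.ext fun p => C.rs_rs i p) (AlgHom.ext fun p => C.rs_rs i p)

lemma rsE_apply (i : I) (p : MvPolynomial I k) : rsE C k i p = C.rs k i p := rfl

lemma rsE_mul_self (i : I) : rsE C k i * rsE C k i = 1 := by
  ext1 p
  exact C.rs_rs i p

lemma rsE_inv (i : I) : (rsE C k i)⁻¹ = rsE C k i :=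
  inv_eq_of_mul_eq_one_left (rsE_mul_self C i)

/-- the Weyl group acting on polynomials -/
def W (k : Type) [Field k] [CharZero k] : Subgroup (MvPolynomial I k ≃ₐ[k] MvPolynomial I k) :=
  Subgroup.closure (Set.range (rsE C k))

lemma rsE_mem (i : I) : rsE C k i ∈ W C k := Subgroup.subset_closure ⟨i, rfl⟩

/-- symmetric induction principle -/
lemma W_ind {P : (MvPolynomial I k ≃ₐ[k] MvPolynomial I k) → Prop}
    (h1 : P 1) (hm : ∀ v w, P v → P w → P (v * w)) (hs : ∀ i, P (rsE C k i)) :
    ∀ w ∈ W C k, P w := by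
  intro w hw
  have : P w ∧ P w⁻¹ := by
    refine Subgroup.closure_induction (p := fun w _ => P w ∧ P w⁻¹) ?_ ?_ ?_ ?_ hw
    · rintro x ⟨i, rfl⟩
      rw [rsE_inv]
      exact ⟨hs i, hs i⟩
    · simpa using h1
    · intro x y _ _ hx hy
      refine ⟨hm _ _ hx.1 hy.1, ?_⟩
      rw [mul_inv_rev]
      exact hm _ _ hy.2 hx.2
    · intro x _ hx
      rw [inv_inv]
      exact ⟨hx.2, hx.1⟩
  exact this.1

lemma inv_iff (p : MvPolynomial I k) : C.IsInv p ↔ ∀ w ∈ W C k, w p = p := by
  constructor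
  · intro h
    refine W_ind C rfl ?_ ?_
    · intro v w hv hw
      rw [AlgEquiv.mul_apply, hw, hv]
    · intro i
      exact h i
  · intro h i
    exact h _ (rsE_mem C i)

/-- the roots and their negatives -/
def Ψ : Finset (I → ℤ) := C.Φ ∪ C.Φ.image fun β => -β

lemma refl_mem {i : I} {β : I → ℤ} (h : β ∈ Ψ C) : C.refl i β ∈ Ψ C := by
  have key : ∀ β ∈ C.Φ, C.refl i β ∈ Ψ C := by
    intro β hβ
    by_cases hi : β = C.al i
    · rw [Ψ, Finset.mem_union]
      right
      rw [Finset.mem_image]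
      refine ⟨β, hβ, ?_⟩
      rw [CDatum.refl, hi, ct_al, C.diag]
      rw [two_smul]
      abel
    · rw [Ψ, Finset.mem_union]
      left
      exact C.Φ_refl i β hβ hi
  have hneg : ∀ β ∈ Ψ C, -β ∈ Ψ C := by
    intro β hβ
    rw [Ψ, Finset.mem_union, Finset.mem_image] at hβ ⊢
    rcases hβ with hβ | ⟨γ, hγ, rfl⟩
    · right
      exact ⟨β, hβ, rfl⟩
    · left
      simpa using hγ
  rw [Ψ, Finset.mem_union, Finset.mem_image] at h
  rcases h with h | ⟨γ, hγ, rfl⟩
  · exact key β h
  · have : C.refl i (-γ) = - C.refl i γ := by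
      simp only [CDatum.refl, ct_neg, neg_smul]
      abel
    rw [this]
    exact hneg _ (key γ hγ)

/-- the finite set of linear forms permuted by the group -/
def SS (k : Type) [Field k] : Set (MvPolynomial I k) := (lf C k) '' (Ψ C : Set (I → ℤ))

omit [CharZero k] in
lemma SS_finite : (SS C k).Finite := (Finset.finite_toSet _).image _

lemma W_SS : ∀ w ∈ W C k, ∀ x ∈ SS C k, w x ∈ SS C k := by
  refine W_ind C ?_ ?_ ?_
  · intro x hx
    exact hx
  · intro v w hv hw x hx
    rw [AlgEquiv.mul_apply]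
    exact hv _ (hw _ hx)
  · rintro i _ ⟨β, hβ, rfl⟩
    rw [rsE_apply, rs_lf]
    exact ⟨_, refl_mem C hβ, rfl⟩

/-- the variables are combinations of the simple forms -/
lemma X_mem_span (j : I) :
    (X j : MvPolynomial I k) ∈ Submodule.span k (Set.range fun i => lf C k (C.al i)) := by
  classical
  -- the matrix of coefficients
  let M : Matrix I I ℤ := fun i l => C.d l * C.a l i
  have hdet : M.det ≠ 0 := by
    intro h0
    rw [← Matrix.det_transpose, ← Matrix.exists_mulVec_eq_zero_iff] at h0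
    obtain ⟨v, hv, hv0⟩ := h0
    apply hv
    apply ct_inj C
    intro l
    have h1 := congrFun hv0 l
    simp only [Matrix.mulVec, dotProduct, Matrix.transpose_apply, Pi.zero_apply, M] at h1
    have h2 : (C.d l : ℤ) * C.ct l v = 0 := by
      rw [← h1, CDatum.ct, Finset.mul_sum]
      exact Finset.sum_congr rfl fun i _ => by ring
    have h3 : (C.d l : ℤ) ≠ 0 := by
      have := C.d_pos l
      omega
    exact (mul_eq_zero.mp h2).resolve_left h3
  let A : Matrix I I k := M.map (Int.castRingHom k)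
  have hA : A.det ≠ 0 := by
    have : A.det = ((M.det : ℤ) : k) := by
      have := RingHom.map_det (Int.castRingHom k) M
      simpa [A] using this.symm
    rw [this]
    exact_mod_cast hdet
  have hunit : IsUnit A.det := isUnit_iff_ne_zero.mpr hA
  have hlf : ∀ i, lf C k (C.al i) = ∑ l, A i l • X l := by
    intro i
    simp only [lf, ct_al, A, Matrix.map_apply, M]
    rfl
  have : (X j : MvPolynomial I k) = ∑ i, A⁻¹ j i • lf C k (C.al i) := by
    simp only [hlf, Finset.smul_sum, smul_smul]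
    rw [Finset.sum_comm]
    simp only [← Finset.sum_smul]
    have h2 : ∀ l, ∑ i, A⁻¹ j i * A i l = if j = l then 1 else 0 := by
      intro l
      have := congrFun (congrFun (Matrix.nonsing_inv_mul A hunit) j) l
      rw [Matrix.mul_apply, Matrix.one_apply] at this
      exact this
    simp [h2]
  rw [this]
  exact Submodule.sum_mem _ fun i _ => Submodule.smul_mem _ _ (Submodule.subset_span ⟨i, rfl⟩)

lemma al_mem (i : I) : C.al i ∈ Ψ C := Finset.mem_union_left _ (C.Φ_simple i)

instance W_finite : Finite (W C k) := by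
  haveI : Finite (SS C k) := (SS_finite C).to_subtype
  let f : W C k → (SS C k → SS C k) := fun w x => ⟨w.1 x.1, W_SS C w.1 w.2 x.1 x.2⟩
  refine Finite.of_injective f ?_
  intro v w h
  apply Subtype.ext
  have h1 : ∀ i, v.1 (lf C k (C.al i)) = w.1 (lf C k (C.al i)) := by
    intro i
    have := congrFun h ⟨lf C k (C.al i), ⟨_, al_mem C i, rfl⟩⟩
    exact congrArg Subtype.val this
  have h2 : ∀ j, v.1 (X j) = w.1 (X j) := by
    intro j
    have hX := X_mem_span (k := k) C j
    refine Submodule.span_induction (p := fun x _ => v.1 x = w.1 x) ?_ ?_ ?_ ?_ hX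
    · rintro _ ⟨i, rfl⟩
      exact h1 i
    · simp
    · intro x y _ _ hx hy
      rw [map_add, map_add, hx, hy]
    · intro a x _ hx
      rw [map_smul, map_smul, hx]
  have h3 : (v.1 : MvPolynomial I k →ₐ[k] MvPolynomial I k) = w.1 :=
    MvPolynomial.algHom_ext fun j => h2 j
  ext p
  exact congrArg (coeff _) (DFunLike.congr_fun h3 p)

noncomputable instance W_fintype : Fintype (W C k) := Fintype.ofFinite _

lemma W_homog : ∀ w ∈ W C k, ∀ (n : ℕ) (p : MvPolynomial I k), p.IsHomogeneous n →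
    (w p).IsHomogeneous n := by
  refine W_ind C ?_ ?_ ?_
  · intro n p h
    exact h
  · intro v w hv hw n p h
    exact hv _ _ (hw _ _ h)
  · intro i n p h
    exact C.rs_homog i h

/-- the Reynolds operator -/
def Rey (k : Type) [Field k] [CharZero k] : MvPolynomial I k →ₗ[k] MvPolynomial I k :=
  (Fintype.card (W C k) : k)⁻¹ • ∑ w : W C k, (w.1 : MvPolynomial I k →ₐ[k] MvPolynomial I k).toLinearMap

lemma Rey_apply (p : MvPolynomial I k) :
    Rey C k p = (Fintype.card (W C k) : k)⁻¹ • ∑ w : W C k, w.1 p := by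
  simp [Rey, LinearMap.sum_apply]

lemma card_ne : (Fintype.card (W C k) : k) ≠ 0 := by
  have : 0 < Fintype.card (W C k) := Fintype.card_pos
  exact_mod_cast this.ne'

end ChevTop

open ChevTop in
/-- Reynolds operator: the reflections generate a finite group of algebra automorphisms of the
polynomial ring; averaging over it. -/
theorem CDatum.exists_reynolds : ∃ (R : MvPolynomial I k →ₗ[k] MvPolynomial I k),
    (∀ p, C.IsInv (R p)) ∧ (∀ p, C.IsInv p → R p = p) ∧
    (∀ n p, p.IsHomogeneous n → (R p).IsHomogeneous n) ∧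
    (∀ p p', C.IsInv p → R (p * p') = p * R p') ∧
    (∀ (J : Ideal (MvPolynomial I k)) p, (∀ i, ∀ x ∈ J, C.rs k i x ∈ J) →
      (∀ i, p - C.rs k i p ∈ J) → p - R p ∈ J) := by
  refine ⟨Rey C k, ?_, ?_, ?_, ?_, ?_⟩
  · intro p i
    rw [Rey_apply, map_smul, map_sum]
    congr 1
    refine Fintype.sum_equiv (Equiv.mulLeft (⟨rsE C k i, rsE_mem C i⟩ : W C k)) _ _ ?_
    intro w
    rfl
  · intro p hp
    rw [Rey_apply]
    have : ∀ w : W C k, w.1 p = p := fun w => (inv_iff C p).1 hp w.1 w.2
    simp only [this, Finset.sum_const, Finset.card_univ]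
    rw [← Nat.cast_smul_eq_nsmul k, smul_smul, inv_mul_cancel₀ (card_ne C), one_smul]
  · intro n p hp
    rw [Rey_apply, MvPolynomial.smul_eq_C_mul]
    have := (isHomogeneous_C I ((Fintype.card (W C k) : k)⁻¹)).mul
      (IsHomogeneous.sum Finset.univ (fun w : W C k => w.1 p) n
        (fun w _ => W_homog C w.1 w.2 n p hp))
    rwa [zero_add] at this
  · intro p p' hp
    rw [Rey_apply, Rey_apply, mul_smul_comm, Finset.mul_sum]
    congr 1
    refine Finset.sum_congr rfl fun w _ => ?_
    rw [map_mul, (inv_iff C p).1 hp w.1 w.2]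
  · intro J p hJ hp
    have key : ∀ w ∈ W C k, (∀ x ∈ J, w x ∈ J) ∧ p - w p ∈ J := by
      refine W_ind C ?_ ?_ ?_
      · refine ⟨fun x hx => hx, ?_⟩
        simp
      · intro v w hv hw
        refine ⟨fun x hx => hv.1 _ (hw.1 _ hx), ?_⟩
        have : p - (v * w) p = (p - v p) + v (p - w p) := by
          rw [AlgEquiv.mul_apply, map_sub]
          ring
        rw [this]
        exact J.add_mem hv.2 (hv.1 _ hw.2)
      · intro i
        exact ⟨hJ i, hp i⟩
    have : p - Rey C k p = (Fintype.card (W C k) : k)⁻¹ • ∑ w : W C k, (p - w.1 p) := by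
      rw [Finset.sum_sub_distrib, smul_sub, Rey_apply]
      congr 1
      rw [Finset.sum_const, Finset.card_univ, ← Nat.cast_smul_eq_nsmul k, smul_smul,
        inv_mul_cancel₀ (card_ne C), one_smul]
    rw [this, MvPolynomial.smul_eq_C_mul]
    exact J.mul_mem_left _ (J.sum_mem fun w _ => (key w.1 w.2).2)

namespace ChevTop

lemma invIdeal_rs (i : I) : ∀ x ∈ C.invIdeal k, C.rs k i x ∈ C.invIdeal k := by
  intro x hx
  refine Submodule.span_induction (p := fun x _ => C.rs k i x ∈ C.invIdeal k) ?_ ?_ ?_ ?_ hx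
  · intro x hx
    rw [hx.1 i]
    exact Ideal.subset_span hx
  · rw [map_zero]
    exact zero_mem _
  · intro x y _ _ hx hy
    rw [map_add]
    exact add_mem hx hy
  · intro a x _ hx
    rw [smul_eq_mul, map_mul]
    exact Ideal.mul_mem_left _ _ hx

lemma invIdeal_coeff {p : MvPolynomial I k} (hp : p ∈ C.invIdeal k) : constantCoeff p = 0 := by
  have : C.invIdeal k ≤ RingHom.ker (constantCoeff (R := k) (σ := I)) := by
    rw [CDatum.invIdeal, Ideal.span_le]
    rintro x ⟨_, d, hd, hx⟩
    rw [SetLike.mem_coe, RingHom.mem_ker, constantCoeff_eq]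
    exact hx.coeff_eq_zero (by simpa using hd.ne)
  exact this hp

/-! ### the product of the positive roots -/

omit [CharZero k] in
lemma lf_homog (β : I → ℤ) : (lf C k β).IsHomogeneous 1 := by
  refine IsHomogeneous.sum _ _ _ fun j _ => ?_
  rw [MvPolynomial.smul_eq_C_mul]
  exact isHomogeneous_C_mul_X _ _

omit [CharZero k] in
lemma lf_coeff (β : I → ℤ) (j : I) :
    coeff (Finsupp.single j 1) (lf C k β) = (((C.d j : ℤ) * C.ct j β : ℤ) : k) := by
  classical
  rw [lf, coeff_sum, Finset.sum_eq_single j]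
  · rw [coeff_smul, coeff_X, if_pos rfl, smul_eq_mul, mul_one]
  · intro l _ hl
    rw [coeff_smul, coeff_X, if_neg, smul_zero]
    rwa [Finsupp.single_left_inj one_ne_zero]
  · intro h
    exact absurd (Finset.mem_univ _) h

lemma lf_ne {β : I → ℤ} (h : β ≠ 0) : lf C k β ≠ 0 := by
  intro h0
  apply h
  apply ct_inj C
  intro j
  have h1 := lf_coeff (k := k) C β j
  rw [h0, coeff_zero] at h1
  have h2 : (C.d j : ℤ) * C.ct j β = 0 := by exact_mod_cast h1.symm
  have h3 : (C.d j : ℤ) ≠ 0 := by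
    have := C.d_pos j
    omega
  exact (mul_eq_zero.mp h2).resolve_left h3

lemma lf_irred {β : I → ℤ} (h : β ≠ 0) : Irreducible (lf C k β) := by
  have hne := lf_ne (k := k) C h
  refine irreducible_of_totalDegree_eq_one ((lf_homog C β).totalDegree hne) ?_
  intro x hx
  rw [isUnit_iff_ne_zero]
  rintro rfl
  apply hne
  ext m
  have := hx m
  rw [zero_dvd_iff] at this
  rw [this, coeff_zero]

lemma lf_not_dvd {β γ : I → ℤ} (hβ : β ∈ C.Φ) (hγ : γ ∈ C.Φ) (hne : β ≠ γ) :
    ¬ lf C k β ∣ lf C k γ := by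
  rintro ⟨u, hu⟩
  have hb := lf_ne (k := k) C (C.Φ_ne β hβ)
  have hg := lf_ne (k := k) C (C.Φ_ne γ hγ)
  have hu0 : u ≠ 0 := by
    rintro rfl
    rw [mul_zero] at hu
    exact hg hu
  have hdeg : (lf C k γ).totalDegree = (lf C k β).totalDegree + u.totalDegree := by
    rw [hu, totalDegree_mul_of_isDomain hb hu0]
  rw [(lf_homog C β).totalDegree hb, (lf_homog C γ).totalDegree hg] at hdeg
  obtain ⟨c, rfl⟩ : ∃ r, u = MvPolynomial.C r :=
    ⟨_, (totalDegree_eq_zero_iff_eq_C (p := u)).mp (by omega)⟩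
  have hc : ∀ j, ((C.ct j γ : ℤ) : k) = c * ((C.ct j β : ℤ) : k) := by
    intro j
    have h1 := congrArg (coeff (Finsupp.single j 1)) hu
    rw [mul_comm, coeff_C_mul, lf_coeff, lf_coeff] at h1
    have h3 : ((C.d j : ℕ) : k) ≠ 0 := by
      have := C.d_pos j
      exact_mod_cast this.ne'
    push_cast at h1
    apply mul_left_cancel₀ h3
    rw [h1]
    ring
  -- some coordinate of β is nonzero
  obtain ⟨j, hj⟩ : ∃ j, C.ct j β ≠ 0 := by
    by_contra hcon
    push Not at hcon
    exact C.Φ_ne β hβ (ct_inj C hcon)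
  have hcj := hc j
  have key : C.ct j β • γ = C.ct j γ • β := by
    rw [← sub_eq_zero]
    apply ct_inj C
    intro l
    rw [ct_sub_smul]
    have : C.ct l (C.ct j β • γ) = C.ct j β * C.ct l γ := by
      simp only [CDatum.ct, Pi.smul_apply, smul_eq_mul, Finset.mul_sum]
      exact Finset.sum_congr rfl fun m _ => by ring
    rw [this]
    have h4 : (((C.ct j β * C.ct l γ - C.ct j γ * C.ct l β : ℤ)) : k) = 0 := by
      push_cast
      rw [hc l, hcj]
      ring
    exact_mod_cast h4
  exact hne (C.Φ_prim γ hγ β hβ _ _ hj key).symm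

/-- the product of the positive roots -/
def Dl (k : Type) [Field k] : MvPolynomial I k := ∏ β ∈ C.Φ, lf C k β

lemma Dl_ne : Dl C k ≠ 0 := Finset.prod_ne_zero_iff.2 fun β hβ => lf_ne C (C.Φ_ne β hβ)

omit [CharZero k] in
lemma Dl_homog : (Dl C k).IsHomogeneous C.Φ.card := by
  have := IsHomogeneous.prod C.Φ (fun β => lf C k β) (fun _ => 1) (fun β _ => lf_homog C β)
  simpa [Dl] using this

lemma refl_refl (i : I) (β : I → ℤ) : C.refl i (C.refl i β) = β := by
  simp only [CDatum.refl]
  rw [ct_sub_smul, ct_al, C.diag]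
  module

lemma Φ_nonneg' {β : I → ℤ} (hβ : β ∈ C.Φ) : ¬ (-β ∈ C.Φ) := by
  intro h
  apply C.Φ_ne β hβ
  funext j
  have h1 := C.Φ_nonneg β hβ j
  have h2 := C.Φ_nonneg _ h j
  simp only [Pi.neg_apply, Pi.zero_apply] at h2 ⊢
  omega

lemma refl_al (i : I) : C.refl i (C.al i) = - C.al i := by
  rw [CDatum.refl, ct_al, C.diag]
  module

lemma rs_Dl (i : I) : C.rs k i (Dl C k) = - Dl C k := by
  classical
  have hi : C.al i ∈ C.Φ := C.Φ_simple i
  rw [Dl, ← Finset.mul_prod_erase _ _ hi, map_mul, map_prod, rs_lf, refl_al, lf_neg, neg_mul]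
  congr 2
  have hmem : ∀ β ∈ C.Φ.erase (C.al i), C.refl i β ∈ C.Φ.erase (C.al i) := by
    intro β hβ
    rw [Finset.mem_erase] at hβ ⊢
    refine ⟨?_, C.Φ_refl i β hβ.2 hβ.1⟩
    intro h
    have : β = - C.al i := by
      rw [← refl_refl C i β, h, refl_al]
    apply Φ_nonneg' C hi
    rw [← this]
    exact hβ.2
  refine Finset.prod_nbij' (fun β => C.refl i β) (fun β => C.refl i β) hmem hmem ?_ ?_ ?_
  · intro β _
    exact refl_refl C i β
  · intro β _
    exact refl_refl C i β
  · intro β _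
    exact rs_lf C i β

lemma W_Dl : ∀ w ∈ W C k, w (Dl C k) = Dl C k ∨ w (Dl C k) = - Dl C k := by
  refine W_ind C (Or.inl rfl) ?_ ?_
  · intro v w hv hw
    rw [AlgEquiv.mul_apply]
    rcases hw with hw | hw <;> rcases hv with hv | hv <;> simp [hw, hv]
  · intro i
    right
    exact rs_Dl C i

/-- an antisymmetric polynomial is divisible by the linear form of every positive root -/
lemma lf_dvd {q : MvPolynomial I k} (hq : ∀ i, C.rs k i q = -q) :
    ∀ n : ℕ, ∀ β ∈ C.Φ, ∑ j, β j = n → lf C k β ∣ q := by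
  intro n
  induction n using Nat.strong_induction_on with
  | _ n ih =>
    intro β hβ hn
    by_cases hs : ∃ i, β = C.al i
    · obtain ⟨i, rfl⟩ := hs
      rw [lf_al]
      have h1 := C.dem_spec i q
      rw [hq] at h1
      have h2 : q = C.th k i * ((2 : k)⁻¹ • C.dem i q) := by
        rw [mul_smul_comm, h1, sub_neg_eq_add, ← two_smul k q, smul_smul, inv_mul_cancel₀ two_ne_zero,
          one_smul]
      rw [h2]
      refine Dvd.dvd.mul_right ?_ _
      have hd : ((C.d i : ℕ) : k) ≠ 0 := by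
        have := C.d_pos i
        exact_mod_cast this.ne'
      refine ⟨MvPolynomial.C ((C.d i : k)⁻¹), ?_⟩
      rw [MvPolynomial.smul_eq_C_mul, mul_comm, ← mul_assoc, ← map_mul, inv_mul_cancel₀ hd, map_one,
        one_mul]
    · push Not at hs
      obtain ⟨i, hi⟩ : ∃ i, 0 < C.ct i β := by
        by_contra hcon
        push Not at hcon
        have h1 := C.pos β (C.Φ_ne β hβ)
        have h2 : ∑ i, ∑ j, β i * (C.d i * C.a i j) * β j ≤ 0 := by
          refine Finset.sum_nonpos fun i _ => ?_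
          have : ∑ j, β i * (C.d i * C.a i j) * β j = β i * C.d i * C.ct i β := by
            simp only [CDatum.ct, Finset.mul_sum]
            exact Finset.sum_congr rfl fun l _ => by ring
          rw [this]
          have h3 : 0 ≤ β i * C.d i := mul_nonneg (C.Φ_nonneg β hβ i) (by positivity)
          exact mul_nonpos_of_nonneg_of_nonpos h3 (hcon i)
        omega
      have hmem := C.Φ_refl i β hβ (hs i)
      change C.refl i β ∈ C.Φ at hmem
      have hsum : ∑ j, (C.refl i β) j = n - C.ct i β := by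
        rw [← hn]
        simp only [CDatum.refl, Pi.sub_apply, Pi.smul_apply, smul_eq_mul, Finset.sum_sub_distrib,
          ← Finset.mul_sum]
        simp [CDatum.al]
      have hnn : 0 ≤ ∑ j, (C.refl i β) j := Finset.sum_nonneg fun j _ => C.Φ_nonneg _ hmem j
      obtain ⟨m, hm⟩ := Int.eq_ofNat_of_zero_le hnn
      have h1 := ih m (by omega) _ hmem hm
      obtain ⟨u, hu⟩ := h1
      refine ⟨- C.rs k i u, ?_⟩
      have := congrArg (C.rs k i) hu
      rw [map_mul, rs_lf, refl_refl, hq] at this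
      rw [mul_neg, ← this, neg_neg]

lemma Dl_dvd {q : MvPolynomial I k} (hq : ∀ i, C.rs k i q = -q) : Dl C k ∣ q := by
  refine Finset.prod_dvd_of_isRelPrime ?_ ?_
  · intro β hβ γ hγ hne
    exact (lf_irred C (C.Φ_ne β hβ)).isRelPrime_iff_not_dvd.2 (lf_not_dvd C hβ hγ hne)
  · intro β hβ
    obtain ⟨n, hn⟩ := Int.eq_ofNat_of_zero_le
      (Finset.sum_nonneg fun j _ => C.Φ_nonneg _ hβ j : 0 ≤ ∑ j, β j)
    exact lf_dvd C hq n β hβ hn

lemma Dl_sq_dvd (p : MvPolynomial I k) : ∃ h, Rey C k (p * Dl C k) = Dl C k * Dl C k * h := by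
  have h1 : Dl C k ∣ Rey C k (p * Dl C k) := by
    rw [Rey_apply, MvPolynomial.smul_eq_C_mul]
    refine Dvd.dvd.mul_left (Finset.dvd_sum fun w _ => ?_) _
    rw [map_mul]
    refine Dvd.dvd.mul_left ?_ _
    rcases W_Dl C w.1 w.2 with h | h
    · rw [h]
    · rw [h]
      exact (dvd_neg).2 dvd_rfl
  obtain ⟨q, hq⟩ := h1
  have h2 : ∀ i, C.rs k i q = -q := by
    intro i
    have h3 : C.rs k i (Rey C k (p * Dl C k)) = Rey C k (p * Dl C k) := by
      rw [Rey_apply, map_smul, map_sum]
      congr 1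
      refine Fintype.sum_equiv (Equiv.mulLeft (⟨rsE C k i, rsE_mem C i⟩ : W C k)) _ _ ?_
      intro w
      rfl
    rw [hq, map_mul, rs_Dl, neg_mul, ← mul_neg] at h3
    have := mul_left_cancel₀ (Dl_ne C) h3
    rw [← neg_eq_iff_eq_neg]
    exact this
  obtain ⟨h, hh⟩ := Dl_dvd C h2
  exact ⟨h, by rw [hq, hh, mul_assoc]⟩

end ChevTop

open ChevTop in
/-- A homogeneous polynomial outside the ideal of invariants is detected by a word. -/
theorem CDatum.exists_word {p : MvPolynomial I k} {d : ℕ} (hp : p.IsHomogeneous d)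
    (h : p ∉ C.invIdeal k) :
    ∃ w : List I, w.length = d ∧ ∃ t : k, t ≠ 0 ∧ C.demw w p = MvPolynomial.C t := by
  induction d generalizing p with
  | zero =>
    refine ⟨[], rfl, coeff 0 p, ?_, ?_⟩
    · intro h0
      apply h
      have : p = MvPolynomial.C (coeff 0 p) :=
        (totalDegree_eq_zero_iff_eq_C).1 ((totalDegree_zero_iff_isHomogeneous I).2 hp)
      rw [this, h0, map_zero]
      exact zero_mem _
    · exact (totalDegree_eq_zero_iff_eq_C).1 ((totalDegree_zero_iff_isHomogeneous I).2 hp)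
  | succ d ih =>
    have : ∃ i, C.dem i p ∉ C.invIdeal k := by
      by_contra hcon
      push Not at hcon
      obtain ⟨R, hR1, hR2, hR3, hR4, hR5⟩ := C.exists_reynolds (k := k)
      have h1 := hR5 (C.invIdeal k) p (fun i x hx => invIdeal_rs C i x hx) (fun i => by
        rw [← C.dem_spec i p]
        exact Ideal.mul_mem_left _ _ (hcon i))
      have h2 : R p ∈ C.invIdeal k := Ideal.subset_span ⟨hR1 p, d + 1, Nat.succ_pos d, hR3 _ _ hp⟩
      apply h
      have := add_mem h1 h2
      rwa [sub_add_cancel] at this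
    obtain ⟨i, hi⟩ := this
    obtain ⟨w, hw, t, ht, hwt⟩ := ih (C.dem_homog i hp) hi
    exact ⟨i :: w, by rw [List.length_cons, hw], t, ht, hwt⟩

open ChevTop in
/-- The product of the positive roots is not in the ideal of invariants. -/
theorem CDatum.exists_top : ∃ p : MvPolynomial I k, p.IsHomogeneous C.Φ.card ∧
    p ∉ C.invIdeal k := by
  refine ⟨Dl C k, Dl_homog C, ?_⟩
  intro hmem
  have key : ∀ p ∈ C.invIdeal k, ∀ a, ∃ h ∈ C.invIdeal k,
      Rey C k (a * p * Dl C k) = Dl C k * Dl C k * h := by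
    intro p hp
    refine Submodule.span_induction (p := fun p _ => ∀ a, ∃ h ∈ C.invIdeal k,
      Rey C k (a * p * Dl C k) = Dl C k * Dl C k * h) ?_ ?_ ?_ ?_ hp
    · intro x hx a
      obtain ⟨h, hh⟩ := Dl_sq_dvd C a
      refine ⟨h * x, Ideal.mul_mem_left _ _ (Ideal.subset_span hx), ?_⟩
      have h1 : Rey C k (a * x * Dl C k) = x * Rey C k (a * Dl C k) := by
        rw [Rey_apply, Rey_apply, mul_smul_comm, Finset.mul_sum]
        congr 1
        refine Finset.sum_congr rfl fun w _ => ?_
        rw [map_mul, map_mul, map_mul, (inv_iff C x).1 hx.1 w.1 w.2]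
        ring
      rw [h1, hh]
      ring
    · intro a
      exact ⟨0, zero_mem _, by simp⟩
    · intro x y _ _ hx hy a
      obtain ⟨h, hh, he⟩ := hx a
      obtain ⟨h', hh', he'⟩ := hy a
      refine ⟨h + h', add_mem hh hh', ?_⟩
      rw [mul_add, add_mul, map_add, he, he', mul_add]
    · intro b x _ hx a
      obtain ⟨h, hh, he⟩ := hx (a * b)
      exact ⟨h, hh, by rw [smul_eq_mul, ← mul_assoc, he]⟩
  obtain ⟨h, hh, he⟩ := key _ hmem 1
  have h1 : Rey C k (1 * Dl C k * Dl C k) = Dl C k * Dl C k := by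
    rw [Rey_apply, one_mul]
    have : ∀ w : W C k, w.1 (Dl C k * Dl C k) = Dl C k * Dl C k := by
      intro w
      rw [map_mul]
      rcases W_Dl C w.1 w.2 with h | h <;> rw [h]
      ring
    simp only [this, Finset.sum_const, Finset.card_univ]
    rw [← Nat.cast_smul_eq_nsmul k, smul_smul, inv_mul_cancel₀ (card_ne C), one_smul]
  rw [h1] at he
  have h2 : h = 1 := by
    have hne : Dl C k * Dl C k ≠ 0 := mul_ne_zero (Dl_ne C) (Dl_ne C)
    have : Dl C k * Dl C k * 1 = Dl C k * Dl C k * h := by rw [mul_one]; exact he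
    exact (mul_left_cancel₀ hne this).symm
  have h3 := invIdeal_coeff C hh
  rw [h2, map_one] at h3
  exact one_ne_zero h3

end Pool.Agent.Lib.QG
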