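import Pool.Agent.Lib.MP_021f05_al.Ident

/-!
# MP_021f05_al: cohomology of the Cartan model
-/

noncomputable section

namespace Pool.Agent.Lib.QG

open MvPolynomial

variable {k : Type} [Field k] {I : Type} {T : TAlg k I}

namespace Coef

open TAlg

variable (V : Coef T)

/-! ### multilinearity -/

lemma isML_tl {f : List T.A → V.V} (hf : V.IsML f) (a : T.A) : V.IsML (V.tl f a) :=
  ⟨fun l₁ l₂ x y => hf.1 (a :: l₁) l₂ x y, fun l₁ l₂ t x => hf.2 (a :: l₁) l₂ t x⟩

lemma isML_act {f : List T.A → V.V} (hf : V.IsML f) (a : T.A) : V.IsML (V.act f a) := by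
  refine ⟨fun l₁ l₂ x y => ?_, fun l₁ l₂ t x => ?_⟩
  · cases l₁ with
    | nil => simpa [act, mul_add] using hf.1 [] l₂ (a * x) (a * y)
    | cons z l₁ => simpa [act] using hf.1 (a * z :: l₁) l₂ x y
  · cases l₁ with
    | nil => simpa [act] using hf.2 [] l₂ t (a * x)
    | cons z l₁ => simpa [act] using hf.2 (a * z :: l₁) l₂ t x

lemma tl_add' {f : List T.A → V.V} (hf : V.IsML f) (a b : T.A) :
    V.tl f (a + b) = V.tl f a + V.tl f b := by
  funext l; exact hf.1 [] l a b

lemma tl_smul' {f : List T.A → V.V} (hf : V.IsML f) (t : k) (a : T.A) :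
    V.tl f (t • a) = t • V.tl f a := by
  funext l; exact hf.2 [] l t a

lemma act_add' {f : List T.A → V.V} (hf : V.IsML f) (a b : T.A) :
    V.act f (a + b) = V.act f a + V.act f b := by
  funext l
  cases l with
  | nil => simp [act, V.r_add]
  | cons x l => simpa [act, add_mul] using hf.1 [] l (a * x) (b * x)

lemma act_smul' {f : List T.A → V.V} (hf : V.IsML f) (t : k) (a : T.A) :
    V.act f (t • a) = t • V.act f a := by
  funext l
  cases l with
  | nil => simp [act, V.r_smul]
  | cons x l => simpa [act] using hf.2 [] l t (a * x)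

lemma C_smul (t : k) (v : V.V) : (C t : MvPolynomial I k) • v = t • v := by
  rw [← algebraMap_eq, algebraMap_smul]

lemma κ_smul (i : I) (t : k) (v : V.V) : V.κ i (t • v) = t • V.κ i v := by
  rw [← C_smul, map_smul, C_smul]

lemma r_smulk (a : T.A) (t : k) (v : V.V) : V.r a (t • v) = t • V.r a v := by
  rw [← C_smul, map_smul, C_smul]

lemma hh_smulk (i : I) (t : k) (l : List T.A) (f : List T.A → V.V) :
    V.hh i l (t • f) = t • V.hh i l f := by
  have e' : (C t : MvPolynomial I k) • f = t • f := by funext x; exact V.C_smul t _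
  rw [← e', hh_smul, C_smul]

lemma isML_ddf {f : List T.A → V.V} (hf : V.IsML f) : V.IsML (V.ddf f) := by
  refine ⟨fun l₁ => ?_, fun l₁ => ?_⟩
  · induction l₁ generalizing f with
    | nil =>
      intro l₂ a b
      simp only [List.nil_append, ddf, dd, V.tl_add' hf, V.act_add' hf, dd_add, Pi.add_apply]
      abel
    | cons c l₁ ih =>
      intro l₂ a b
      have h1 := (V.isML_act hf c).1 l₁ l₂ a b
      have h2 := ih (V.isML_tl hf c) l₂ a b
      simp only [ddf] at h2
      simp only [List.cons_append, ddf, dd, h1, h2]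
      abel
  · induction l₁ generalizing f with
    | nil =>
      intro l₂ t a
      simp only [List.nil_append, ddf, dd, V.tl_smul' hf, V.act_smul' hf, smul_dd, Pi.smul_apply,
        smul_sub, smul_neg]
    | cons c l₁ ih =>
      intro l₂ t a
      have h1 := (V.isML_act hf c).2 l₁ l₂ t a
      have h2 := ih (V.isML_tl hf c) l₂ t a
      simp only [ddf] at h2
      simp only [List.cons_append, ddf, dd, h1, h2, smul_sub, smul_neg]

lemma isML_ef {f : List T.A → V.V} (hf : V.IsML f) : V.IsML (V.ef f) := by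
  refine ⟨fun l₁ => ?_, fun l₁ => ?_⟩
  · cases l₁ with
    | nil => intro l₂ a b; simp [ef, add_smul]
    | cons c l₁ => intro l₂ a b; simp [ef, hf.1, smul_add]
  · cases l₁ with
    | nil => intro l₂ t a; simp [ef, mul_smul]
    | cons c l₁ =>
      intro l₂ t a
      simp only [List.cons_append, ef, hf.2]
      rw [smul_comm]

lemma isML_add {f g : List T.A → V.V} (hf : V.IsML f) (hg : V.IsML g) : V.IsML (f + g) :=
  ⟨fun l₁ l₂ a b => by simp only [Pi.add_apply, hf.1, hg.1]; abel,
    fun l₁ l₂ t a => by simp only [Pi.add_apply, hf.2, hg.2, smul_add]⟩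

lemma isML_smul (p : MvPolynomial I k) {f : List T.A → V.V} (hf : V.IsML f) : V.IsML (p • f) :=
  ⟨fun l₁ l₂ a b => by simp only [Pi.smul_apply, hf.1, smul_add],
    fun l₁ l₂ t a => by simp only [Pi.smul_apply, hf.2]; rw [smul_algebra_smul_comm]⟩

lemma isML_zero : V.IsML (0 : List T.A → V.V) := ⟨fun _ _ _ _ => by simp, fun _ _ _ _ => by simp⟩

lemma isML_b {f : List T.A → V.V} (hf : V.IsML f) : V.IsML (V.b f) := by
  rw [b_eq]; exact V.isML_add (V.isML_ef hf) (V.isML_ddf hf)

lemma isML_c (i : I) {f : List T.A → V.V} (hf : V.IsML f) : V.IsML (V.c i f) :=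
  ⟨fun l₁ l₂ a b => by simp [c, hf.1], fun l₁ l₂ t a => by simp [c, hf.2]⟩

lemma isML_h (i : I) {f : List T.A → V.V} (hf : V.IsML f) : V.IsML (V.h i f) := by
  have key : ∀ {f : List T.A → V.V}, V.IsML f → ∀ l₁ : List T.A, ∀ l₂ : List T.A,
      (∀ a b, V.hh i (l₁ ++ (a + b) :: l₂) f = V.hh i (l₁ ++ a :: l₂) f
        + V.hh i (l₁ ++ b :: l₂) f) ∧
      (∀ (t : k) a, V.hh i (l₁ ++ (t • a) :: l₂) f = t • V.hh i (l₁ ++ a :: l₂) f) := by
    intro f hf l₁
    induction l₁ generalizing f with
    | nil =>
      intro l₂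
      have h1 := V.isML_c i (V.isML_tl hf (T.K i : T.A))
      refine ⟨fun a b => ?_, fun t a => ?_⟩
      · have := h1.1 [] l₂ a b
        simp only [c, tl, List.nil_append] at this
        simp only [List.nil_append, hh, V.tl_add' hf, hh_add, this]
        abel
      · have := h1.2 [] l₂ t a
        simp only [c, tl, List.nil_append] at this
        simp only [List.nil_append, hh, V.tl_smul' hf, hh_smulk, this, smul_sub]
    | cons x l₁ ih =>
      intro l₂
      have h1 := V.isML_c i (V.isML_tl hf (T.K i : T.A))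
      obtain ⟨ih1, ih2⟩ := ih (V.isML_tl hf x) l₂
      refine ⟨fun a b => ?_, fun t a => ?_⟩
      · have := h1.1 (x :: l₁) l₂ a b
        simp only [c, tl, List.cons_append] at this
        simp only [List.cons_append, hh, ih1, this]
        abel
      · have := h1.2 (x :: l₁) l₂ t a
        simp only [c, tl, List.cons_append] at this
        simp only [List.cons_append, hh, ih2, this, smul_sub]
  exact ⟨fun l₁ l₂ a b => (key hf l₁ l₂).1 a b, fun l₁ l₂ t a => (key hf l₁ l₂).2 t a⟩

variable [Fintype I]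

/-- the differential as a linear map -/
def Dl : (List T.A → V.V) →ₗ[MvPolynomial I k] (List T.A → V.V) :=
  V.bl + ∑ i, (X i : MvPolynomial I k) • V.hl i

lemma Dl_apply (f : List T.A → V.V) : V.Dl f = V.D f := by
  funext l
  simp [Dl, D, bl, hl]

lemma isML_D {f : List T.A → V.V} (hf : V.IsML f) : V.IsML (V.D f) := by
  have h1 : V.D f = V.b f + ∑ i, (X i : MvPolynomial I k) • V.h i f := by
    funext l; simp [D]
  rw [h1]
  refine V.isML_add (V.isML_b hf) ?_
  have : ∀ s : Finset I, V.IsML (∑ i ∈ s, (X i : MvPolynomial I k) • V.h i f) := by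
    classical
    intro s
    induction s using Finset.induction_on with
    | empty => simpa using V.isML_zero
    | insert a s ha ih =>
      rw [Finset.sum_insert ha]
      exact V.isML_add (V.isML_smul _ (V.isML_h _ hf)) ih
  exact this _

lemma c_D (j : I) (f : List T.A → V.V) : V.c j (V.D f) = V.D (V.c j f) := by
  funext l
  have h1 : V.c j (V.D f) l = V.c j (V.b f) l
      + ∑ i, (X i : MvPolynomial I k) • V.c j (V.h i f) l := by
    simp [c, D, map_add, map_sum]
  rw [h1, c_b]
  simp only [D, c_h]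

lemma D_mem {f : List T.A → V.V} (hf : f ∈ V.Coc) : V.D f ∈ V.Coc :=
  ⟨V.isML_D hf.1, fun i => by rw [c_D, hf.2 i]⟩

/-- the square of the differential -/
lemma D_D' [CharZero k] {f : List T.A → V.V} (hf : f ∈ V.Coc) (l : List T.A) :
    V.D (V.D f) l = ∑ i, ((X i : MvPolynomial I k) • f l
      - (X i : MvPolynomial I k) • V.r (T.K i : T.A) (V.κ i (f l))) := by
  have e1 : V.Dl (V.Dl f) = V.bl (V.bl f)
      + ∑ i, (X i : MvPolynomial I k) • (V.bl (V.hl i f) + V.hl i (V.bl f))
      + ∑ i, ∑ j, (X i * X j : MvPolynomial I k) • V.hl i (V.hl j f) := by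
    simp only [Dl, LinearMap.add_apply, LinearMap.coe_sum, Finset.sum_apply, LinearMap.smul_apply,
      map_add, map_sum, map_smul, smul_add, Finset.sum_add_distrib, Finset.smul_sum, mul_smul]
    rw [Finset.sum_comm (f := fun i j => (X i : MvPolynomial I k) • (X j : MvPolynomial I k)
      • V.hl j (V.hl i f))]
    have : ∀ i j, (X j : MvPolynomial I k) • (X i : MvPolynomial I k) • V.hl i (V.hl j f)
        = (X i : MvPolynomial I k) • (X j : MvPolynomial I k) • V.hl i (V.hl j f) := by
      intro i j; rw [smul_smul, smul_smul, mul_comm]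
    simp only [this]
    abel
  have e2 : ∀ i, ((X i : MvPolynomial I k) • (V.bl (V.hl i f) + V.hl i (V.bl f))) l
      = (X i : MvPolynomial I k) • f l
      - (X i : MvPolynomial I k) • V.r (T.K i : T.A) (V.κ i (f l)) := by
    intro i
    have := V.b_h i f l
    have h2 : (V.bl (V.hl i f) + V.hl i (V.bl f)) l
      = V.c i f l - V.r (T.K i : T.A) (V.κ i (f l)) := this
    rw [Pi.smul_apply, h2, hf.2 i, smul_sub]
  have e3 : ∑ i, ∑ j, (X i * X j : MvPolynomial I k) • V.hl i (V.hl j f) = 0 := by
    set Y := ∑ i, ∑ j, (X i * X j : MvPolynomial I k) • V.hl i (V.hl j f) with hY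
    have h1 : Y = ∑ i, ∑ j, (X i * X j : MvPolynomial I k) • V.hl j (V.hl i f) := by
      rw [hY, Finset.sum_comm]
      refine Finset.sum_congr rfl fun i _ => Finset.sum_congr rfl fun j _ => ?_
      rw [mul_comm]
    have h2 : Y + Y = 0 := by
      nth_rewrite 2 [h1]
      rw [hY, ← Finset.sum_add_distrib]
      refine Finset.sum_eq_zero fun i _ => ?_
      rw [← Finset.sum_add_distrib]
      refine Finset.sum_eq_zero fun j _ => ?_
      rw [← smul_add]
      have : V.hl i (V.hl j f) + V.hl j (V.hl i f) = 0 := by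
        funext l; exact V.h_h i j f l
      rw [this, smul_zero]
    have h3 : (2 : k) • Y = 0 := by rw [two_smul]; exact h2
    rcases smul_eq_zero.mp h3 with h | h
    · exact absurd h two_ne_zero
    · exact h
  rw [← Dl_apply, ← Dl_apply, e1, e3]
  have : V.bl (V.bl f) = 0 := V.b_b f
  rw [this, zero_add, add_zero, Finset.sum_apply]
  exact Finset.sum_congr rfl fun i _ => e2 i

lemma D_D [CharZero k] [V.IsFlat] {f : List T.A → V.V} (hf : f ∈ V.Coc) :
    V.D (V.D f) = 0 := by
  funext l
  rw [D_D' V hf, Finset.sum_sub_distrib, IsFlat.flat (f l), sub_self]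
  rfl

/-! ### homogeneous components -/

/-- the component of total degree `n` -/
def Pr (n : ℤ) (f : List T.A → V.V) : List T.A → V.V := fun l => V.π (n - l.length) (f l)

omit [Fintype I] in
lemma Pr_tl (n : ℤ) (f : List T.A → V.V) (a : T.A) :
    V.tl (V.Pr n f) a = V.Pr (n - 1) (V.tl f a) := by
  funext l; simp only [tl, Pr, List.length_cons]; push_cast; rw [sub_sub, add_comm 1]

omit [Fintype I] in
lemma π_smul' (m : ℤ) (t : k) (v : V.V) : V.π m (t • v) = t • V.π m v := map_smul _ _ _

omit [Fintype I] in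
lemma Pr_act (n : ℤ) (f : List T.A → V.V) (a : T.A) :
    V.act (V.Pr n f) a = V.Pr n (V.act f a) := by
  funext l; cases l with
  | nil => simp [act, Pr, V.π_r]
  | cons x l => simp [act, Pr]

omit [Fintype I] in
lemma Pr_ddf (n : ℤ) (l : List T.A) (f : List T.A → V.V) :
    V.dd l (V.Pr n f) = V.π (n + 1 - l.length) (V.dd l f) := by
  induction l generalizing n f with
  | nil => simp [dd]
  | cons a l ih =>
    simp only [dd, Pr_tl, ih, Pr_act, map_sub, map_neg, List.length_cons]
    simp only [Pr]
    push_cast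
    congr 3
    · ring_nf
    · ring_nf

omit [Fintype I] in
lemma Pr_b (n : ℤ) (f : List T.A → V.V) : V.b (V.Pr n f) = V.Pr (n + 1) (V.b f) := by
  funext l; cases l with
  | nil => simp [b, Pr]
  | cons a l =>
    simp only [b, Pr_ddf, Pr, map_add, map_smul, List.length_cons]
    push_cast
    congr 4
    ring

omit [Fintype I] in
lemma Pr_h (n : ℤ) (i : I) (l : List T.A) (f : List T.A → V.V) :
    V.hh i l (V.Pr n f) = V.π (n - 1 - l.length) (V.hh i l f) := by
  induction l generalizing n f with
  | nil => simp [hh, Pr, V.π_κ]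
  | cons a l ih =>
    have e1 : n - ((((T.K i : T.A) :: (a :: l).map (T.adi i)).length : ℕ) : ℤ)
        = n - 1 - ((a :: l).length : ℤ) := by
      simp only [List.length_cons, List.length_map]; push_cast; ring
    have e2 : n - 1 - 1 - (l.length : ℤ) = n - 1 - ((a :: l).length : ℤ) := by
      simp only [List.length_cons]; push_cast; ring
    simp only [hh, Pr_tl, ih, map_sub, V.π_κ]
    rw [e2]
    simp only [Pr]
    rw [e1]

lemma Pr_D (n : ℤ) (f : List T.A → V.V) : V.D (V.Pr n f) = V.Pr (n + 1) (V.D f) := by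
  funext l
  have h1 := congrFun (V.Pr_b n f) l
  simp only [D, h1, Pr, map_add, map_sum]
  congr 1
  refine Finset.sum_congr rfl fun i _ => ?_
  simp only [h, Pr_h]
  rw [← V.π_X]
  congr 2
  ring

end Coef

end Pool.Agent.Lib.QG
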