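import Mathlib

/-!
# MP_021f05_al: the Cartan model, core definitions

For an augmented algebra `A` with commuting units `K i` (augmentation one) and a coefficient
object `V` (an `S`-module, `S = k[x_i]`, with a right action of `A`, an action of the torus and
homogeneous components), cochains are functions `List A → V`; the length of the list is the bar
degree.  The differential is `D = b + ∑ x_i h_i`, where `b` is the bar differential and
`h_i` inserts `K_i`.
-/

noncomputable section

namespace Pool.Agent.Lib.QG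

open MvPolynomial

/-- An augmented algebra with commuting units of augmentation one. -/
structure TAlg (k : Type) [Field k] (I : Type) where
  A : Type
  [ring : Ring A]
  [alg : Algebra k A]
  ε : A →ₐ[k] k
  K : I → Aˣ
  K_comm : ∀ i j, K i * K j = K j * K i
  ε_K : ∀ i, ε (K i : A) = 1

attribute [instance] TAlg.ring TAlg.alg

/-- `Ad K_i`. -/
def TAlg.ad {k : Type} [Field k] {I : Type} (T : TAlg k I) (i : I) : T.A →ₐ[k] T.A where
  toFun a := (T.K i : T.A) * a * ((T.K i)⁻¹ : T.Aˣ)
  map_one' := by simp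
  map_mul' a b := by simp [mul_assoc]
  map_zero' := by simp
  map_add' a b := by simp [mul_add, add_mul]
  commutes' t := by
    rw [← Algebra.commutes, mul_assoc, Units.mul_inv, mul_one]

/-- `Ad K_i⁻¹`. -/
def TAlg.adi {k : Type} [Field k] {I : Type} (T : TAlg k I) (i : I) : T.A →ₐ[k] T.A where
  toFun a := ((T.K i)⁻¹ : T.Aˣ) * a * (T.K i : T.A)
  map_one' := by simp
  map_mul' a b := by simp [mul_assoc]
  map_zero' := by simp
  map_add' a b := by simp [mul_add, add_mul]
  commutes' t := by
    rw [← Algebra.commutes, mul_assoc, Units.inv_mul, mul_one]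

/-- Coefficient objects of the Cartan model. -/
structure Coef {k : Type} [Field k] {I : Type} (T : TAlg k I) where
  V : Type
  [acg : AddCommGroup V]
  [modk : Module k V]
  [modS : Module (MvPolynomial I k) V]
  [tower : IsScalarTower k (MvPolynomial I k) V]
  /-- right action of `A` -/
  r : T.A → V →ₗ[MvPolynomial I k] V
  r_add : ∀ a b v, r (a + b) v = r a v + r b v
  r_smul : ∀ (c : k) a v, r (c • a) v = c • r a v
  r_one : ∀ v, r 1 v = v
  r_mul : ∀ a b v, r (a * b) v = r b (r a v)
  /-- torus action, `(κ i v)(x) = v (ω_i⁻¹ x)` -/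
  κ : I → V →ₗ[MvPolynomial I k] V
  κ_comm : ∀ i j v, κ i (κ j v) = κ j (κ i v)
  κ_r : ∀ i a v, κ i (r a v) = r (T.ad i a) (κ i v)
  /-- homogeneous components (the variable `x_i` has degree `2`) -/
  π : ℤ → V →ₗ[k] V
  π_π : ∀ m v, π m (π m v) = π m v
  π_ne : ∀ m n v, m ≠ n → π m (π n v) = 0
  π_X : ∀ m i v, π (m + 2) ((X i : MvPolynomial I k) • v) = (X i : MvPolynomial I k) • π m v
  π_r : ∀ m a v, π m (r a v) = r a (π m v)
  π_κ : ∀ m i v, π m (κ i v) = κ i (π m v)

attribute [instance] Coef.acg Coef.modk Coef.modS Coef.tower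

variable {k : Type} [Field k] {I : Type} {T : TAlg k I}

namespace Coef

variable (V : Coef T)

/-- `(tl f a)(l) = f(a :: l)` -/
def tl (f : List T.A → V.V) (a : T.A) : List T.A → V.V := fun l => f (a :: l)

/-- `(f ⊲ a)(l) = f(a · l)` -/
def act (f : List T.A → V.V) (a : T.A) : List T.A → V.V
  | [] => V.r a (f [])
  | a' :: l => f ((a * a') :: l)

/-- the bar differential without its first face -/
def dd : List T.A → (List T.A → V.V) → V.V
  | [], _ => 0
  | a :: l, f => - V.act f a l - dd l (V.tl f a)

/-- the bar differential -/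
def b (f : List T.A → V.V) : List T.A → V.V
  | [] => 0
  | a :: l => (T.ε a) • f l + V.dd (a :: l) f

/-- insertion of `K_i` -/
def hh (i : I) : List T.A → (List T.A → V.V) → V.V
  | [], f => V.κ i (f [(T.K i : T.A)])
  | a :: l, f => V.κ i (f ((T.K i : T.A) :: (a :: l).map (T.adi i)))
      - hh i l (V.tl f a)

/-- insertion of `K_i` -/
def h (i : I) (f : List T.A → V.V) : List T.A → V.V := fun l => V.hh i l f

/-- the torus action on cochains -/
def c (i : I) (f : List T.A → V.V) : List T.A → V.V := fun l => V.κ i (f (l.map (T.adi i)))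

/-- multilinear functions on lists -/
def IsML (f : List T.A → V.V) : Prop :=
  (∀ l₁ l₂ a b, f (l₁ ++ (a + b) :: l₂) = f (l₁ ++ a :: l₂) + f (l₁ ++ b :: l₂)) ∧
  (∀ l₁ l₂ (t : k) a, f (l₁ ++ (t • a) :: l₂) = t • f (l₁ ++ a :: l₂))

/-- the cochains: multilinear and invariant under the torus -/
def Coc : Submodule (MvPolynomial I k) (List T.A → V.V) where
  carrier := {f | V.IsML f ∧ ∀ i, V.c i f = f}
  add_mem' := by
    rintro f g ⟨⟨hf1, hf2⟩, hf⟩ ⟨⟨hg1, hg2⟩, hg⟩
    refine ⟨⟨fun l₁ l₂ a b => ?_, fun l₁ l₂ t a => ?_⟩, fun i => ?_⟩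
    · simp only [Pi.add_apply, hf1, hg1]; abel
    · simp only [Pi.add_apply, hf2, hg2, smul_add]
    · funext l
      have h1 := congrFun (hf i) l
      have h2 := congrFun (hg i) l
      simp only [c] at h1 h2
      simp only [c, Pi.add_apply, map_add, h1, h2]
  zero_mem' := ⟨⟨fun _ _ _ _ => by simp, fun _ _ _ _ => by simp⟩, fun i => by
    funext l; simp [c]⟩
  smul_mem' := by
    rintro p f ⟨⟨hf1, hf2⟩, hf⟩
    refine ⟨⟨fun l₁ l₂ a b => ?_, fun l₁ l₂ t a => ?_⟩, fun i => ?_⟩
    · simp only [Pi.smul_apply, hf1, smul_add]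
    · simp only [Pi.smul_apply, hf2]
      rw [smul_algebra_smul_comm]
    · funext l
      have h1 := congrFun (hf i) l
      simp only [c] at h1
      simp only [c, Pi.smul_apply, map_smul, h1]

variable [Fintype I]

/-- the condition which makes `D² = 0` -/
class IsFlat : Prop where
  flat : ∀ v : V.V, ∑ i, (X i : MvPolynomial I k) • V.r (T.K i : T.A) (V.κ i v)
    = ∑ i, (X i : MvPolynomial I k) • v

/-- the differential of the Cartan model -/
def D (f : List T.A → V.V) : List T.A → V.V :=
  fun l => V.b f l + ∑ i, (X i : MvPolynomial I k) • V.h i f l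

end Coef

end Pool.Agent.Lib.QG
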