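import Pool.Agent.Lib.MP_021f05_al.XKill

/-!
# MP_021f05_al (E12): extensions kill linear forms
-/

noncomputable section

namespace Pool.Agent.Lib.QG

open MvPolynomial

variable {k : Type} [Field k] {I : Type} [Fintype I] [DecidableEq I]

/-- A self-extension in which the torus acts through `1 + c_j z`, in the form of a module `W`
with maps `P : W → M` (linear over the algebra) and `ρ : W → M` (linear over the field). -/
theorem lin_kill_ext [CharZero k] {T : TAlg k I} (M W : Mod T) (P : W.X →ₗ[T.A] M.X)
    (ρ : W.X →ₗ[k] M.X) (H1 : ∀ x y, ∃ w, P w = x ∧ ρ w = y)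
    (H3 : ∀ (a : T.A) w, P w = 0 → ρ (a • w) = a • ρ w) (c : I → k)
    (hK : ∀ j w, ρ ((T.K j : T.A) • w) = (T.K j : T.A) • (ρ w + c j • P w)) (e : E M) :
    lin c • e = 0 := by
  let PR : W.X →ₗ[k] M.X × M.X := (toK P).prod ρ
  have hsurj : Function.Surjective PR := by
    rintro ⟨x, y⟩
    obtain ⟨w, h1, h2⟩ := H1 x y
    exact ⟨w, Prod.ext h1 h2⟩
  obtain ⟨g, hg⟩ := PR.exists_rightInverse_of_surjective (LinearMap.range_eq_top.2 hsurj)
  let s : M.X →ₗ[k] W.X := g ∘ₗ LinearMap.inl k M.X M.X
  have hPs : ∀ x, P (s x) = x := fun x => congrArg Prod.fst (LinearMap.congr_fun hg (x, 0))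
  have hρs : ∀ x, ρ (s x) = 0 := fun x => congrArg Prod.snd (LinearMap.congr_fun hg (x, 0))
  have hk : ∀ (a : T.A) (t : k) (w : W.X), a • t • w = t • a • w := by
    intro a t w
    rw [← algebraMap_smul T.A t w, smul_smul, ← Algebra.commutes, mul_smul, algebraMap_smul]
  let θ : T.A →ₗ[k] Module.End k M.X :=
    { toFun := fun a =>
        { toFun := fun x => ρ (a • s x)
          map_add' := fun x y => by rw [map_add, smul_add, map_add]
          map_smul' := fun t x => by
            rw [s.map_smul t x, hk a t (s x), ρ.map_smul t, RingHom.id_apply] }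
      map_add' := fun a b => LinearMap.ext fun x => by
        show ρ ((a + b) • s x) = ρ (a • s x) + ρ (b • s x)
        rw [add_smul, map_add]
      map_smul' := fun t a => LinearMap.ext fun x => by
        show ρ ((t • a) • s x) = t • ρ (a • s x)
        rw [smul_assoc, ρ.map_smul] }
  refine lin_kill M θ ?_ c ?_ e
  · intro a b x
    show ρ ((a * b) • s x) = a • ρ (b • s x) + ρ (a • s (b • x))
    have h1 : P (b • s x - s (b • x)) = 0 := by
      rw [map_sub, P.map_smul, hPs, hPs, sub_self]
    have h2 := H3 a _ h1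
    rw [smul_sub, map_sub, map_sub, hρs, sub_zero] at h2
    rw [mul_smul, ← h2, sub_add_cancel]
  · intro j x
    show ρ ((T.K j : T.A) • s x) = c j • (T.K j : T.A) • x
    rw [hK, hρs, zero_add, hPs]
    rw [← algebraMap_smul T.A (c j) x, smul_smul, ← Algebra.commutes, mul_smul, algebraMap_smul]

end Pool.Agent.Lib.QG
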