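import Pool.Agent.Lib.MP_021f05_al.Sl2

/-!
# MP_021f05_al (E12): vectors on which the torus acts by a first order deformation of a character
-/

noncomputable section

namespace Pool.Agent.Lib.QG

variable {k : Type} [Field k] {I : Type} [Fintype I] [DecidableEq I] {Q : QD k I}
  {Jp Jm : Set I} {i : I} {M : Mod (Q.T Jp Jm)}

/-- `(p^n + p^{-n})/(p - p^{-1})` -/
def qs (p : k) (n : ℤ) : k := (p ^ n + p ^ (-n)) / (p - p⁻¹)

lemma qs_neg (p : k) (n : ℤ) : qs p (-n) = qs p n := by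
  unfold qs
  rw [neg_neg, add_comm]

lemma qs_rec (n : ℕ) (c : ℤ) :
    qn (Q.qi i) (n + 1) * qs (Q.qi i) (c - n) + qs (Q.qi i) (c - 2 * (n + 1))
      = qn (Q.qi i) ((n + 1 : ℕ) + 1) * qs (Q.qi i) (c - (n + 1 : ℕ)) := by
  have hs := sub_inv_ne (Q.qi i) (qi_ne i) (qi_root i)
  have hp := qi_ne (Q := Q) i
  set p := Q.qi i with hpdef
  unfold qn qs
  have e : ∀ a b : ℤ, p ^ (a + b) = p ^ a * p ^ b := fun a b => zpow_add₀ hp a b
  have hneg : ∀ a : ℤ, p ^ (-a) = (p ^ a)⁻¹ := fun a => zpow_neg p a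
  have e1 : (p ^ ((n : ℤ) + 1)) = p ^ (n : ℤ) * p := by rw [e, zpow_one]
  have e2 : (p ^ (c - (n : ℤ))) = p ^ c * (p ^ (n : ℤ))⁻¹ := by rw [sub_eq_add_neg, e, hneg]
  have e3 : (p ^ (c - 2 * ((n : ℤ) + 1))) =
      p ^ c * ((p ^ (n : ℤ))⁻¹ * (p ^ (n : ℤ))⁻¹ * (p⁻¹ * p⁻¹)) := by
    rw [show c - 2 * ((n : ℤ) + 1) = c + (-(n : ℤ) + -(n : ℤ) + (-1 + -1)) by ring, e, e, e, e,
      hneg, hneg, zpow_one]
  have e4 : (p ^ (((n + 1 : ℕ) : ℤ) + 1)) = p ^ (n : ℤ) * p * p := by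
    rw [show (((n + 1 : ℕ) : ℤ) + 1) = (n : ℤ) + 1 + 1 by push_cast; ring, e, e, zpow_one]
  have e5 : (p ^ (c - ((n + 1 : ℕ) : ℤ))) = p ^ c * (p ^ (n : ℤ))⁻¹ * p⁻¹ := by
    rw [show c - ((n + 1 : ℕ) : ℤ) = c + -(n : ℤ) + -1 by push_cast; ring, e, e, hneg, hneg,
      zpow_one]
  rw [hneg, hneg, hneg, hneg, hneg, e1, e2, e3, e4, e5]
  have hn0 : p ^ (n : ℤ) ≠ 0 := zpow_ne_zero _ hp
  have hc0 : p ^ c ≠ 0 := zpow_ne_zero _ hp
  generalize p ^ (n : ℤ) = u at *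
  generalize p ^ c = v at *
  have h2 : p * p - 1 ≠ 0 := by
    intro h
    apply hs
    field_simp
    linear_combination h
  field_simp
  ring

/-- vectors on which `K_i` acts through `χ_μ(K_i)(1 + c_i Z)` -/
def gwt (M : Mod (Q.T Jp Jm)) (Z : M.X →ₗ[(Q.T Jp Jm).A] M.X) (c : I → k) (μ : I → ℤ) :
    Submodule k M.X where
  carrier := {x | ∀ i, ((Q.T Jp Jm).K i : (Q.T Jp Jm).A) • x = Q.χ μ i • (x + c i • Z x)}
  add_mem' := by
    intro a b ha hb i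
    rw [smul_add, ha i, hb i, map_add, ← smul_add, smul_add (c i)]
    congr 1
    abel
  zero_mem' := by intro i; simp
  smul_mem' := by
    intro t a ha i
    have h1 : Z (t • a) = t • Z a := (toK Z).map_smul t a
    rw [smul_comm_k, ha i, h1, smul_comm t (Q.χ μ i), smul_add t, smul_comm t (c i)]

variable {Z : M.X →ₗ[(Q.T Jp Jm).A] M.X} {c : I → k}

lemma gwt_Zk (t : k) (x : M.X) : Z (t • x) = t • Z x := (toK Z).map_smul t x

lemma Z_gwt (hZ : ∀ x, Z (Z x) = 0) {μ : I → ℤ} {x : M.X} (hx : x ∈ gwt M Z c μ) :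
    Z x ∈ gwt M Z c μ := by
  intro i
  have h := congrArg Z (hx i)
  rw [map_smul, gwt_Zk, map_add, gwt_Zk, hZ] at h
  rw [h, hZ]

/-- `F_j` lowers weights -/
theorem gF_gwt {μ : I → ℤ} {x : M.X} (hx : x ∈ gwt M Z c μ) (j : I) :
    Q.gF Jp Jm j • x ∈ gwt M Z c (μ - Q.al j) := by
  intro l
  rw [smul_smul, gK_gF, smul_assoc_k, mul_smul, hx l, smul_comm_k, smul_smul, smul_add,
    smul_comm_k, map_smul]
  congr 1
  unfold QD.χ
  rw [← zpow_add₀ Q.q_ne, ct_sub', ct_al']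
  congr 1
  ring

lemma gF_pow_gwt {μ : I → ℤ} {x : M.X} (hx : x ∈ gwt M Z c μ) (j : I) (n : ℕ) :
    Q.gF Jp Jm j ^ n • x ∈ gwt M Z c (μ - (n : ℤ) • Q.al j) := by
  induction n with
  | zero => simpa using hx
  | succ n ih =>
    rw [pow_succ', mul_smul]
    have h := gF_gwt ih j
    have e : μ - (n : ℤ) • Q.al j - Q.al j = μ - ((n + 1 : ℕ) : ℤ) • Q.al j := by
      rw [Nat.cast_succ, add_smul, one_smul, sub_sub]
    rwa [e] at h

lemma gwt_L (hZ : ∀ x, Z (Z x) = 0) {μ : I → ℤ} {x : M.X} (hx : x ∈ gwt M Z c μ) (i : I) :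
    ((((Q.T Jp Jm).K i)⁻¹ : (Q.T Jp Jm).Aˣ) : (Q.T Jp Jm).A) • x
      = (Q.χ μ i)⁻¹ • (x - c i • Z x) := by
  have hne : Q.χ μ i ≠ 0 := QD.χ_ne μ i
  have h1 : ((Q.T Jp Jm).K i : (Q.T Jp Jm).A) • ((Q.χ μ i)⁻¹ • (x - c i • Z x)) = x := by
    rw [smul_comm_k, smul_sub, hx i, smul_comm_k, Z_gwt hZ hx i, hZ, smul_zero, add_zero,
      smul_comm (c i) (Q.χ μ i), ← smul_sub, smul_smul, inv_mul_cancel₀ hne, one_smul,
      add_sub_cancel_right]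
  conv_lhs => rw [← h1]
  rw [smul_smul, Units.inv_mul, one_smul]

section rel
variable (hp : i ∈ Jp) (hm : i ∈ Jm) (hZ : ∀ x, Z (Z x) = 0)
include hp hm hZ

lemma E_F_one_g {μ : I → ℤ} {x : M.X} (hx : x ∈ gwt M Z c μ) :
    Q.gE Jp Jm i • Q.gF Jp Jm i • x
      = Q.gF Jp Jm i • Q.gE Jp Jm i • x + (qn (Q.qi i) (Q.ct i μ) • x
        + (c i * qs (Q.qi i) (Q.ct i μ)) • Z x) := by
  have hχ : Q.χ μ i = Q.qi i ^ (Q.ct i μ) := by
    unfold QD.χ QD.qi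
    rw [zpow_mul, zpow_natCast]
  rw [smul_smul, gE_gF hp hm, add_smul, mul_smul, smul_assoc_k, sub_smul, hx i, gwt_L hZ hx i]
  congr 1
  unfold qn qs
  rw [hχ, zpow_neg]
  module

/-- `E F^{n+1} = F^{n+1} E + [n+1] F^n [⟨μ⟩ - n]`, deformed -/
theorem E_F_pow_g {μ : I → ℤ} {x : M.X} (hx : x ∈ gwt M Z c μ) (n : ℕ) :
    Q.gE Jp Jm i • Q.gF Jp Jm i ^ (n + 1) • x
      = Q.gF Jp Jm i ^ (n + 1) • Q.gE Jp Jm i • x
        + qn (Q.qi i) (n + 1) • (qn (Q.qi i) (Q.ct i μ - n) • Q.gF Jp Jm i ^ n • x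
          + (c i * qs (Q.qi i) (Q.ct i μ - n)) • Q.gF Jp Jm i ^ n • Z x) := by
  induction n with
  | zero =>
    have h1 : qn (Q.qi i) (1 : ℤ) = 1 := qn_one (Q.qi i) (qi_ne i) (qi_root i)
    simp only [zero_add, pow_one, pow_zero, one_smul, Nat.cast_zero, sub_zero, h1]
    exact E_F_one_g hp hm hZ hx
  | succ n ih =>
    have h2 := gF_pow_gwt hx i (n + 1)
    have h1 : Q.ct i (μ - ((n + 1 : ℕ) : ℤ) • Q.al i) = Q.ct i μ - 2 * (n + 1) := by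
      rw [ct_sub']
      congr 1
      have h3 : Q.ct i (((n + 1 : ℕ) : ℤ) • Q.al i) = ((n + 1 : ℕ) : ℤ) * Q.ct i (Q.al i) := by
        unfold CDatum.ct
        rw [Finset.mul_sum]
        refine Finset.sum_congr rfl fun j _ => ?_
        rw [Pi.smul_apply, smul_eq_mul]
        ring
      rw [h3, ct_al', Q.diag]
      push_cast
      ring
    rw [pow_succ' _ (n + 1), mul_smul, E_F_one_g hp hm hZ h2, ih, h1, map_smul]
    simp only [smul_add, smul_comm_k]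
    rw [smul_smul (Q.gF Jp Jm i) (Q.gF Jp Jm i ^ n), ← pow_succ',
      smul_smul (Q.gF Jp Jm i) (Q.gF Jp Jm i ^ n), ← pow_succ',
      smul_smul (Q.gF Jp Jm i) (Q.gF Jp Jm i ^ (n + 1)), ← pow_succ']
    have r1 := qnum_rec (Q := Q) (i := i) n (Q.ct i μ)
    have r2 := qs_rec (Q := Q) (i := i) n (Q.ct i μ)
    push_cast at r1 r2 ⊢
    have e1 : (qn (Q.qi i) ((n : ℤ) + 1 + 1)) • (qn (Q.qi i) (Q.ct i μ - ((n : ℤ) + 1)) •
        Q.gF Jp Jm i ^ (n + 1) • x) = (qn (Q.qi i) ((n : ℤ) + 1) * qn (Q.qi i) (Q.ct i μ - n)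
          + qn (Q.qi i) (Q.ct i μ - 2 * (n + 1))) • Q.gF Jp Jm i ^ (n + 1) • x := by
      rw [smul_smul, r1]
    have e2 : (qn (Q.qi i) ((n : ℤ) + 1 + 1)) • ((c i * qs (Q.qi i) (Q.ct i μ - ((n : ℤ) + 1))) •
        Q.gF Jp Jm i ^ (n + 1) • Z x) = (c i * (qn (Q.qi i) ((n : ℤ) + 1)
          * qs (Q.qi i) (Q.ct i μ - n) + qs (Q.qi i) (Q.ct i μ - 2 * (n + 1)))) •
            Q.gF Jp Jm i ^ (n + 1) • Z x := by
      rw [smul_smul, r2]
      congr 1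
      ring
    rw [e1, e2]
    generalize Q.gF Jp Jm i ^ (n + 1 + 1) • Q.gE Jp Jm i • x = u1
    generalize Q.gF Jp Jm i ^ (n + 1) • x = u2
    generalize Q.gF Jp Jm i ^ (n + 1) • Z x = u3
    module

end rel

end Pool.Agent.Lib.QG
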