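import Pool.Agent.Lib.MP_021f05_al.QNum

/-!
# MP_021f05_al (E12): sums of q-numbers
-/

noncomputable section

namespace Pool.Agent.Lib.QG

variable {k : Type} [Field k]

lemma defS_R {w : k} (hw : w ≠ 0) (m : ℕ) :
    (w - w⁻¹) * ∑ t ∈ Finset.range m, w ^ ((m : ℤ) - 1 - 2 * t) = w ^ (m : ℤ) - w ^ (-(m : ℤ)) := by
  induction m with
  | zero => simp
  | succ m ih =>
    have h1 : ∑ t ∈ Finset.range (m + 1), w ^ (((m + 1 : ℕ) : ℤ) - 1 - 2 * t)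
        = w * ∑ t ∈ Finset.range m, w ^ ((m : ℤ) - 1 - 2 * t) + w ^ (-(m : ℤ)) := by
      rw [Finset.sum_range_succ, Finset.mul_sum]
      congr 1
      · refine Finset.sum_congr rfl fun t _ => ?_
        rw [show ((m + 1 : ℕ) : ℤ) - 1 - 2 * t = 1 + ((m : ℤ) - 1 - 2 * t) by push_cast; ring,
          zpow_add₀ hw, zpow_one]
      · congr 1
        push_cast
        ring
    have h2 : w ^ (((m + 1 : ℕ)) : ℤ) = w * w ^ (m : ℤ) := by
      rw [Nat.cast_succ, add_comm, zpow_add₀ hw, zpow_one]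
    have h3 : w ^ (-(((m + 1 : ℕ)) : ℤ)) = w⁻¹ * w ^ (-(m : ℤ)) := by
      rw [Nat.cast_succ, neg_add, add_comm, zpow_add₀ hw, zpow_neg_one]
    rw [h1, h2, h3]
    have h4 : w * w⁻¹ = 1 := mul_inv_cancel₀ hw
    linear_combination w * ih

lemma defS_S {w : k} (hw : w ≠ 0) (m : ℕ) :
    (w - w⁻¹) * ∑ t ∈ Finset.range m, ((m : k) - 1 - 2 * t) * w ^ ((m : ℤ) - 1 - 2 * t)
      = m * (w ^ (m : ℤ) + w ^ (-(m : ℤ)))
        - (w + w⁻¹) * ∑ t ∈ Finset.range m, w ^ ((m : ℤ) - 1 - 2 * t) := by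
  induction m with
  | zero => simp
  | succ m ih =>
    have h1 : ∑ t ∈ Finset.range (m + 1), w ^ (((m + 1 : ℕ) : ℤ) - 1 - 2 * t)
        = w * ∑ t ∈ Finset.range m, w ^ ((m : ℤ) - 1 - 2 * t) + w ^ (-(m : ℤ)) := by
      rw [Finset.sum_range_succ, Finset.mul_sum]
      congr 1
      · refine Finset.sum_congr rfl fun t _ => ?_
        rw [show ((m + 1 : ℕ) : ℤ) - 1 - 2 * t = 1 + ((m : ℤ) - 1 - 2 * t) by push_cast; ring,
          zpow_add₀ hw, zpow_one]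
      · congr 1
        push_cast
        ring
    have h0 : ∑ t ∈ Finset.range (m + 1), (((m + 1 : ℕ) : k) - 1 - 2 * t) *
        w ^ (((m + 1 : ℕ) : ℤ) - 1 - 2 * t)
        = w * (∑ t ∈ Finset.range m, ((m : k) - 1 - 2 * t) * w ^ ((m : ℤ) - 1 - 2 * t)
          + ∑ t ∈ Finset.range m, w ^ ((m : ℤ) - 1 - 2 * t)) - m * w ^ (-(m : ℤ)) := by
      have h6 : ∀ t ∈ Finset.range m, (((m + 1 : ℕ) : k) - 1 - 2 * t) *
          w ^ (((m + 1 : ℕ) : ℤ) - 1 - 2 * t)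
          = w * (((m : k) - 1 - 2 * t) * w ^ ((m : ℤ) - 1 - 2 * t) + w ^ ((m : ℤ) - 1 - 2 * t)) := by
        intro t _
        rw [show ((m + 1 : ℕ) : ℤ) - 1 - 2 * t = 1 + ((m : ℤ) - 1 - 2 * t) by push_cast; ring,
          zpow_add₀ hw, zpow_one]
        push_cast
        ring
      rw [Finset.sum_range_succ, ← Finset.sum_add_distrib, Finset.mul_sum,
        Finset.sum_congr rfl h6,
        show ((m + 1 : ℕ) : ℤ) - 1 - 2 * m = -(m : ℤ) by push_cast; ring]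
      push_cast
      ring
    have h2 : w ^ (((m + 1 : ℕ)) : ℤ) = w * w ^ (m : ℤ) := by
      rw [Nat.cast_succ, add_comm, zpow_add₀ hw, zpow_one]
    have h3 : w ^ (-(((m + 1 : ℕ)) : ℤ)) = w⁻¹ * w ^ (-(m : ℤ)) := by
      rw [Nat.cast_succ, neg_add, add_comm, zpow_add₀ hw, zpow_neg_one]
    have h4 : w * w⁻¹ = 1 := mul_inv_cancel₀ hw
    have h5 := defS_R hw m
    rw [h0, h1, h2, h3]
    push_cast
    linear_combination w * ih + w * h5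

variable {p : k} (hp : p ≠ 0) (hr : ∀ n : ℕ, 0 < n → p ^ n ≠ 1)
include hp hr

lemma defS_qn (l : ℕ) : qn p (l + 1) * (p - p⁻¹) = p ^ (l + 1) - (p ^ (l + 1))⁻¹ := by
  unfold qn
  rw [div_mul_cancel₀ _ (sub_inv_ne p hp hr), zpow_neg]
  norm_cast

/-- weighted alternating sums vanish -/
lemma defS_sum (m : ℕ) (f : ℕ → k) :
    ∑ l ∈ Finset.range (m + 1), (-1) ^ l * (qb p (m + 1) (l + 1) * ((p ^ (l + 1) - (p ^ (l + 1))⁻¹)
      * ∑ t ∈ Finset.range m, f t * (p ^ (l + 1)) ^ ((m : ℤ) - 1 - 2 * t))) = 0 := by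
  have h1 : ∀ l ∈ Finset.range (m + 1), (-1) ^ l * (qb p (m + 1) (l + 1) *
      ((p ^ (l + 1) - (p ^ (l + 1))⁻¹)
      * ∑ t ∈ Finset.range m, f t * (p ^ (l + 1)) ^ ((m : ℤ) - 1 - 2 * t)))
      = ∑ t ∈ Finset.range m, (qn p (m + 1) * (p - p⁻¹) * f t * p ^ ((m : ℤ) - 1 - 2 * t)) *
        ((-1) ^ l * qb p m l * (p ^ ((m : ℤ) - 1 - 2 * t)) ^ l) := by
    intro l hl
    have hl' : l ≤ m := Nat.lt_succ_iff.1 (Finset.mem_range.1 hl)
    have h2 := qb_succ_mul p hp hr hl'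
    rw [← defS_qn hp hr l, Finset.mul_sum, Finset.mul_sum, Finset.mul_sum]
    refine Finset.sum_congr rfl fun t _ => ?_
    have h3 : (p ^ (l + 1)) ^ ((m : ℤ) - 1 - 2 * t)
        = p ^ ((m : ℤ) - 1 - 2 * t) * (p ^ ((m : ℤ) - 1 - 2 * t)) ^ l := by
      rw [← pow_succ', ← zpow_natCast, ← zpow_natCast, ← zpow_mul, ← zpow_mul, mul_comm]
    rw [h3]
    linear_combination ((-1) ^ l * (p - p⁻¹) * f t * (p ^ ((m : ℤ) - 1 - 2 * t) *
      (p ^ ((m : ℤ) - 1 - 2 * t)) ^ l)) * h2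
  rw [Finset.sum_congr rfl h1, Finset.sum_comm]
  refine Finset.sum_eq_zero fun t ht => ?_
  rw [← Finset.mul_sum, qb_sum_eq_zero p hp hr t (Finset.mem_range.1 ht), mul_zero]

lemma defS_sum0 (m : ℕ) :
    ∑ l ∈ Finset.range (m + 1), ((-1) ^ l * qb p (m + 1) (l + 1)) *
      ((p ^ (l + 1)) ^ (m : ℤ) - (p ^ (l + 1)) ^ (-(m : ℤ))) = 0 := by
  have h := defS_sum hp hr m (fun _ => 1)
  rw [← h]
  refine Finset.sum_congr rfl fun l _ => ?_
  simp only [one_mul]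
  rw [defS_R (pow_ne_zero _ hp), mul_assoc]

lemma defS_sum1 (m : ℕ) :
    ∑ l ∈ Finset.range (m + 1), ((-1) ^ l * qb p (m + 1) (l + 1)) *
      ((p ^ (l + 1) + (p ^ (l + 1))⁻¹) / (p ^ (l + 1) - (p ^ (l + 1))⁻¹)
        * ((p ^ (l + 1)) ^ (m : ℤ) - (p ^ (l + 1)) ^ (-(m : ℤ)))
        - m * ((p ^ (l + 1)) ^ (m : ℤ) + (p ^ (l + 1)) ^ (-(m : ℤ)))) = 0 := by
  have h := defS_sum hp hr m (fun t => -((m : k) - 1 - 2 * t))
  rw [← h]
  refine Finset.sum_congr rfl fun l _ => ?_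
  have hw : p ^ (l + 1) ≠ 0 := pow_ne_zero _ hp
  have hne : p ^ (l + 1) - (p ^ (l + 1))⁻¹ ≠ 0 := by
    rw [← defS_qn hp hr l]
    exact mul_ne_zero (qn_ne_zero p hp hr (by omega)) (sub_inv_ne p hp hr)
  rw [← defS_R hw m]
  simp only [neg_mul]
  rw [Finset.sum_neg_distrib, mul_neg, defS_S hw m, ← mul_assoc (_ / _), div_mul_cancel₀ _ hne]
  ring

end Pool.Agent.Lib.QG
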