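import Pool.Agent.Lib.MP_021f05_al.DefG
import Pool.Agent.Lib.MP_021f05_al.DefS

/-!
# MP_021f05_al (E12): the deformed singular vector
-/

noncomputable section

namespace Pool.Agent.Lib.QG

variable {k : Type} [Field k] {I : Type} [Fintype I] [DecidableEq I] {Q : QD k I}

lemma ct_smul' (j : I) (n : ℤ) (μ : I → ℤ) : Q.ct j (n • μ) = n * Q.ct j μ := by
  unfold CDatum.ct
  rw [Finset.mul_sum]
  refine Finset.sum_congr rfl fun l _ => ?_
  rw [Pi.smul_apply, smul_eq_mul]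
  ring

lemma ct_neg' (j : I) (μ : I → ℤ) : Q.ct j (-μ) = -Q.ct j μ := by
  rw [← neg_one_zsmul, ct_smul', neg_one_mul]

/-- `τ_l = (q_i^{l+1} + q_i^{-l-1})/(q_i^{l+1} - q_i^{-l-1})` -/
def defτ (Q : QD k I) (i : I) (l : ℕ) : k :=
  (Q.qi i ^ (l + 1) + (Q.qi i ^ (l + 1))⁻¹) / (Q.qi i ^ (l + 1) - (Q.qi i ^ (l + 1))⁻¹)

lemma defτ_mul (i : I) (l : ℕ) :
    qn (Q.qi i) (l + 1) * defτ Q i l = qs (Q.qi i) (l + 1) := by
  have hp := qi_ne (Q := Q) i
  have hr := qi_root (Q := Q) i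
  have h1 := defS_qn hp hr l
  have hne : Q.qi i ^ (l + 1) - (Q.qi i ^ (l + 1))⁻¹ ≠ 0 := by
    rw [← h1]
    exact mul_ne_zero (qn_ne_zero _ hp hr (by omega)) (sub_inv_ne _ hp hr)
  have h2 : qn (Q.qi i) (l + 1) = (Q.qi i ^ (l + 1) - (Q.qi i ^ (l + 1))⁻¹)
      / (Q.qi i - (Q.qi i)⁻¹) := by
    rw [← h1, mul_div_cancel_right₀ _ (sub_inv_ne _ hp hr)]
  have h3 : qs (Q.qi i) (l + 1) = (Q.qi i ^ (l + 1) + (Q.qi i ^ (l + 1))⁻¹)
      / (Q.qi i - (Q.qi i)⁻¹) := by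
    unfold qs
    rw [zpow_neg]
    norm_cast
  have h4 : ∀ a b d : k, a ≠ 0 → a / d * (b / a) = b / d := by
    intro a b d ha
    field_simp
  rw [h2, h3]
  exact h4 _ _ _ hne

variable {M : Mod (Q.T Set.univ Set.univ)} (Z : M.X →ₗ[(Q.T Set.univ Set.univ).A] M.X)

/-- `(1 + τ_l Z) v` -/
def defu (i : I) (v : M.X) (l : ℕ) : M.X := v + defτ Q i l • Z v

/-- the deformed singular vector -/
def defsv (i j : I) (v : M.X) : M.X :=
  ∑ l ∈ Finset.range ((-(Q.a i j)).toNat + 1),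
    ((-1) ^ l * qb (Q.qi i) ((-(Q.a i j)).toNat + 1) (l + 1)) •
      (Q.gF Set.univ Set.univ i ^ ((-(Q.a i j)).toNat - l) • Q.gF Set.univ Set.univ j •
        Q.gF Set.univ Set.univ i ^ l • defu Z i v l)

variable {Z} {c : I → k} {i j : I} {v : M.X}

lemma defu_gwt {μ : I → ℤ} (hZ : ∀ x, Z (Z x) = 0) (hv : v ∈ gwt M Z c μ) (l : ℕ) :
    defu Z i v l ∈ gwt M Z c μ :=
  add_mem hv (Submodule.smul_mem _ _ (Z_gwt hZ hv))

lemma defu_Z (hZ : ∀ x, Z (Z x) = 0) (l : ℕ) : Z (defu Z i v l) = Z v := by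
  unfold defu
  rw [map_add, gwt_Zk, hZ, smul_zero, add_zero]

lemma defu_E (r : I) (hE : Q.gE Set.univ Set.univ r • v = 0) (l : ℕ) :
    Q.gE Set.univ Set.univ r • defu Z i v l = 0 := by
  unfold defu
  rw [smul_add, hE, smul_comm_k, ← map_smul, hE, map_zero, smul_zero, add_zero]

lemma defsv_term_gwt (hZ : ∀ x, Z (Z x) = 0) {μ : I → ℤ} (hv : v ∈ gwt M Z c μ) {m l : ℕ}
    (hl : l ≤ m) :
    Q.gF Set.univ Set.univ i ^ (m - l) • Q.gF Set.univ Set.univ j •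
        Q.gF Set.univ Set.univ i ^ l • defu Z i v l
      ∈ gwt M Z c (μ - (m : ℤ) • Q.al i - Q.al j) := by
  have h := gF_pow_gwt (gF_gwt (gF_pow_gwt (defu_gwt (i := i) hZ hv l) i l) j) i (m - l)
  have e : μ - (l : ℤ) • Q.al i - Q.al j - ((m - l : ℕ) : ℤ) • Q.al i
      = μ - (m : ℤ) • Q.al i - Q.al j := by
    have e1 : (m : ℤ) = l + ((m - l : ℕ) : ℤ) := by omega
    conv_rhs => rw [e1, add_smul]
    abel
  rwa [e] at h

theorem defsv_gwt (hZ : ∀ x, Z (Z x) = 0) {μ : I → ℤ} (hv : v ∈ gwt M Z c μ) :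
    defsv Z i j v ∈ gwt M Z c (μ - ((-(Q.a i j)).toNat : ℤ) • Q.al i - Q.al j) := by
  unfold defsv
  refine Submodule.sum_mem _ fun l hl => Submodule.smul_mem _ _ ?_
  exact defsv_term_gwt hZ hv (Nat.lt_succ_iff.1 (Finset.mem_range.1 hl))

lemma gE_gF_ne {r s : I} (hrs : r ≠ s) (x : M.X) :
    Q.gE Set.univ Set.univ r • Q.gF Set.univ Set.univ s • x
      = Q.gF Set.univ Set.univ s • Q.gE Set.univ Set.univ r • x := by
  have h := (QA.elts Q Set.univ Set.univ).EF r s (Set.mem_univ r) (Set.mem_univ s)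
  rw [if_neg hrs, add_zero] at h
  have h' : Q.gE Set.univ Set.univ r * Q.gF Set.univ Set.univ s
      = Q.gF Set.univ Set.univ s * Q.gE Set.univ Set.univ r := h
  rw [smul_smul, h', mul_smul]

lemma gE_gF_pow_ne {r s : I} (hrs : r ≠ s) (n : ℕ) (x : M.X) :
    Q.gE Set.univ Set.univ r • Q.gF Set.univ Set.univ s ^ n • x
      = Q.gF Set.univ Set.univ s ^ n • Q.gE Set.univ Set.univ r • x := by
  induction n with
  | zero => rw [pow_zero, one_smul, one_smul]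
  | succ n ih => rw [pow_succ', mul_smul, gE_gF_ne hrs, ih, mul_smul]

section Ei
variable (hij : i ≠ j) (hZ : ∀ x, Z (Z x) = 0) (hv : v ∈ gwt M Z c (-(Q.al i)))
  (hE : ∀ r, Q.gE Set.univ Set.univ r • v = 0) (hci : c i = 1)
include hij hZ hv hE hci

omit hij in
lemma defsv_Ei_one (l : ℕ) :
    Q.gE Set.univ Set.univ i • Q.gF Set.univ Set.univ i ^ l • defu Z i v l
      = -((qn (Q.qi i) l * qn (Q.qi i) (l + 1)) • Q.gF Set.univ Set.univ i ^ (l - 1) • v) := by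
  cases l with
  | zero =>
    have h0 : qn (Q.qi i) ((0 : ℕ) : ℤ) = 0 := qn_zero _
    rw [h0, zero_mul, zero_smul, neg_zero, pow_zero, one_smul, defu_E i (hE i)]
  | succ n =>
    rw [E_F_pow_g (Set.mem_univ i) (Set.mem_univ i) hZ (defu_gwt hZ hv (n + 1)) n,
      defu_E i (hE i), smul_zero, zero_add, defu_Z hZ, hci, one_mul]
    have h1 : Q.ct i (-(Q.al i)) - n = -(((n + 1 : ℕ) : ℤ) + 1) := by
      rw [ct_neg', ct_al', Q.diag]
      push_cast
      ring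
    have h2 : Q.gF Set.univ Set.univ i ^ n • defu Z i v (n + 1)
        = Q.gF Set.univ Set.univ i ^ n • v
          + defτ Q i (n + 1) • Q.gF Set.univ Set.univ i ^ n • Z v := by
      unfold defu
      rw [smul_add, smul_comm_k]
    rw [h1, qn_neg, qs_neg, ← defτ_mul, Nat.add_sub_cancel, h2]
    push_cast
    generalize Q.gF Set.univ Set.univ i ^ n • v = u1
    generalize Q.gF Set.univ Set.univ i ^ n • Z v = u2
    module

lemma defsv_Ei_term {m l : ℕ} (hm : Q.a i j = -(m : ℤ)) (hl : l ≤ m) :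
    Q.gE Set.univ Set.univ i • Q.gF Set.univ Set.univ i ^ (m - l) • Q.gF Set.univ Set.univ j •
        Q.gF Set.univ Set.univ i ^ l • defu Z i v l
      = -(qn (Q.qi i) (l + 1) • (qn (Q.qi i) l • Q.gF Set.univ Set.univ i ^ (m - l) •
          Q.gF Set.univ Set.univ j • Q.gF Set.univ Set.univ i ^ (l - 1) • v
          + qn (Q.qi i) ((m : ℤ) - l) • Q.gF Set.univ Set.univ i ^ (m - 1 - l) •
          Q.gF Set.univ Set.univ j • Q.gF Set.univ Set.univ i ^ l • v)) := by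
  have hx := gF_gwt (gF_pow_gwt (defu_gwt (i := i) hZ hv l) i l) j
  have hEx : Q.gE Set.univ Set.univ i • Q.gF Set.univ Set.univ j •
        Q.gF Set.univ Set.univ i ^ l • defu Z i v l
      = -((qn (Q.qi i) l * qn (Q.qi i) (l + 1)) • Q.gF Set.univ Set.univ j •
        Q.gF Set.univ Set.univ i ^ (l - 1) • v) := by
    rw [gE_gF_ne hij, defsv_Ei_one hZ hv hE hci, smul_neg, smul_comm_k]
  rcases Nat.eq_or_lt_of_le hl with h | h
  · subst h
    have h0 : qn (Q.qi i) ((l : ℤ) - l) = 0 := by rw [sub_self]; exact qn_zero _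
    rw [h0, zero_smul, add_zero, Nat.sub_self, pow_zero, one_smul, one_smul, hEx, mul_comm,
      mul_smul]
  · obtain ⟨n, rfl⟩ := Nat.exists_eq_add_of_lt h
    have e1 : l + n + 1 - l = n + 1 := by omega
    have e2 : l + n + 1 - 1 - l = n := by omega
    rw [e1, e2, E_F_pow_g (Set.mem_univ i) (Set.mem_univ i) hZ hx n, hEx, hci, one_mul]
    have h1 : Q.ct i (-(Q.al i) - (l : ℤ) • Q.al i - Q.al j) - n = -((l : ℤ) + 1) := by
      rw [ct_sub', ct_sub', ct_neg', ct_smul', ct_al', ct_al', Q.diag, hm]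
      push_cast
      ring
    have h2 : (((l + n + 1 : ℕ) : ℤ) - l) = (n : ℤ) + 1 := by push_cast; ring
    rw [h1, h2, qn_neg, qs_neg, ← defτ_mul]
    have h3 : Z (Q.gF Set.univ Set.univ j • Q.gF Set.univ Set.univ i ^ l • defu Z i v l)
        = Q.gF Set.univ Set.univ j • Q.gF Set.univ Set.univ i ^ l • Z v := by
      rw [map_smul, map_smul, defu_Z hZ]
    have h4 : Q.gF Set.univ Set.univ j • Q.gF Set.univ Set.univ i ^ l • defu Z i v l
        = Q.gF Set.univ Set.univ j • Q.gF Set.univ Set.univ i ^ l • v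
          + defτ Q i l • Q.gF Set.univ Set.univ j • Q.gF Set.univ Set.univ i ^ l • Z v := by
      unfold defu
      rw [smul_add, smul_add, smul_comm_k, smul_comm_k]
    rw [h3, h4, smul_neg, smul_comm_k, smul_add (Q.gF Set.univ Set.univ i ^ n),
      smul_comm_k (Q.gF Set.univ Set.univ i ^ n)]
    generalize Q.gF Set.univ Set.univ i ^ n • Q.gF Set.univ Set.univ j •
      Q.gF Set.univ Set.univ i ^ l • v = u1
    generalize Q.gF Set.univ Set.univ i ^ n • Q.gF Set.univ Set.univ j •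
      Q.gF Set.univ Set.univ i ^ l • Z v = u2
    generalize Q.gF Set.univ Set.univ i ^ (n + 1) • Q.gF Set.univ Set.univ j •
      Q.gF Set.univ Set.univ i ^ (l - 1) • v = u3
    module

theorem defsv_Ei : Q.gE Set.univ Set.univ i • defsv Z i j v = 0 := by
  have hp := qi_ne (Q := Q) i
  have hr := qi_root (Q := Q) i
  obtain ⟨m, hm⟩ : ∃ m : ℕ, Q.a i j = -(m : ℤ) := ⟨(-(Q.a i j)).toNat, by
    have := Q.nonpos i j hij
    omega⟩
  have hm' : (-(Q.a i j)).toNat = m := by omega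
  unfold defsv
  rw [hm', Finset.smul_sum]
  let A : ℕ → k := fun l => (-1) ^ l * (qb (Q.qi i) m l * qn (Q.qi i) l)
  let B : ℕ → k := fun l => (-1) ^ l * (qb (Q.qi i) m l * qn (Q.qi i) ((m : ℤ) - l))
  let Tt : ℕ → M.X := fun l => Q.gF Set.univ Set.univ i ^ (m - 1 - l) •
    Q.gF Set.univ Set.univ j • Q.gF Set.univ Set.univ i ^ l • v
  have h1 : ∀ l ∈ Finset.range (m + 1), Q.gE Set.univ Set.univ i •
      (((-1) ^ l * qb (Q.qi i) (m + 1) (l + 1)) • (Q.gF Set.univ Set.univ i ^ (m - l) •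
      Q.gF Set.univ Set.univ j • Q.gF Set.univ Set.univ i ^ l • defu Z i v l))
      = -(qn (Q.qi i) (m + 1)) • (A l • Tt (l - 1) + B l • Tt l) := by
    intro l hl
    have hl' : l ≤ m := Nat.lt_succ_iff.1 (Finset.mem_range.1 hl)
    have h2 := qb_succ_mul (Q.qi i) hp hr hl'
    rw [smul_comm_k, defsv_Ei_term hij hZ hv hE hci hm hl']
    have h3 : qn (Q.qi i) l • Q.gF Set.univ Set.univ i ^ (m - l) •
          Q.gF Set.univ Set.univ j • Q.gF Set.univ Set.univ i ^ (l - 1) • v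
        = qn (Q.qi i) l • Tt (l - 1) := by
      cases l with
      | zero =>
        have h0 : qn (Q.qi i) ((0 : ℕ) : ℤ) = 0 := qn_zero _
        rw [h0, zero_smul, zero_smul]
      | succ n =>
        have e : m - (n + 1) = m - 1 - (n + 1 - 1) := by omega
        show _ = qn (Q.qi i) ((n + 1 : ℕ) : ℤ) • Q.gF Set.univ Set.univ i ^ (m - 1 - (n + 1 - 1)) •
          Q.gF Set.univ Set.univ j • Q.gF Set.univ Set.univ i ^ (n + 1 - 1) • v
        rw [e]
    rw [h3]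
    show _ = -(qn (Q.qi i) (m + 1)) • (((-1) ^ l * (qb (Q.qi i) m l * qn (Q.qi i) l)) • Tt (l - 1)
      + ((-1) ^ l * (qb (Q.qi i) m l * qn (Q.qi i) ((m : ℤ) - l))) • Tt l)
    have h4 : ∀ (s b x y z : k) (y1 y2 : M.X), (s * b) • -(x • (y • y1 + z • y2))
        = -((s * (b * x)) • (y • y1 + z • y2)) := by intros; module
    have h5 : ∀ (s b x y z : k) (y1 y2 : M.X), -((s * (x * b)) • (y • y1 + z • y2))
        = -x • ((s * (b * y)) • y1 + (s * (b * z)) • y2) := by intros; module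
    show ((-1) ^ l * qb (Q.qi i) (m + 1) (l + 1)) • -(qn (Q.qi i) (l + 1) •
        (qn (Q.qi i) l • Tt (l - 1) + qn (Q.qi i) ((m : ℤ) - l) • Tt l)) = _
    rw [h4, h2, h5]
  rw [Finset.sum_congr rfl h1, ← Finset.smul_sum]
  have h5 : ∑ l ∈ Finset.range (m + 1), (A l • Tt (l - 1) + B l • Tt l) = 0 := by
    rw [Finset.sum_add_distrib, Finset.sum_range_succ', Finset.sum_range_succ]
    have hA0 : A 0 = 0 := by
      show (-1) ^ 0 * (qb (Q.qi i) m 0 * qn (Q.qi i) ((0 : ℕ) : ℤ)) = 0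
      have h0 : qn (Q.qi i) ((0 : ℕ) : ℤ) = 0 := qn_zero _
      rw [h0, mul_zero, mul_zero]
    have hBm : B m = 0 := by
      show (-1) ^ m * (qb (Q.qi i) m m * qn (Q.qi i) ((m : ℤ) - m)) = 0
      rw [sub_self]
      have h0 : qn (Q.qi i) (0 : ℤ) = 0 := qn_zero _
      rw [h0, mul_zero, mul_zero]
    rw [hA0, hBm, zero_smul, zero_smul, add_zero, add_zero, ← Finset.sum_add_distrib]
    refine Finset.sum_eq_zero fun l hl => ?_
    have h6 := qb_mul (Q.qi i) hp hr (Finset.mem_range.1 hl)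
    have h7 : A (l + 1) = -B l := by
      show (-1) ^ (l + 1) * (qb (Q.qi i) m (l + 1) * qn (Q.qi i) ((l + 1 : ℕ) : ℤ))
        = -((-1) ^ l * (qb (Q.qi i) m l * qn (Q.qi i) ((m : ℤ) - l)))
      push_cast
      rw [h6]
      ring
    rw [Nat.add_sub_cancel, h7, ← add_smul, neg_add_cancel, zero_smul]
  rw [h5, smul_zero]

end Ei

lemma defsv_qj {m : ℕ} (hm : Q.a i j = -(m : ℤ)) (l : ℕ) :
    Q.qi j ^ (-(((l : ℤ) + 1) * Q.a j i)) = (Q.qi i ^ (l + 1)) ^ (m : ℤ) := by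
  have h := Q.symm i j
  unfold QD.qi
  rw [← zpow_natCast, ← zpow_mul, ← zpow_natCast, ← zpow_natCast, ← zpow_mul, ← zpow_mul]
  congr 1
  rw [hm] at h
  push_cast
  linear_combination ((l : ℤ) + 1) * h

lemma defsv_Ej_term (hij : i ≠ j) (hZ : ∀ x, Z (Z x) = 0) (hv : v ∈ gwt M Z c (-(Q.al i)))
    (hE : ∀ r, Q.gE Set.univ Set.univ r • v = 0) (hcj : c j = (Q.a i j : k))
    {m l : ℕ} (hm : Q.a i j = -(m : ℤ)) (hl : l ≤ m) :
    Q.gE Set.univ Set.univ j • Q.gF Set.univ Set.univ i ^ (m - l) • Q.gF Set.univ Set.univ j •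
        Q.gF Set.univ Set.univ i ^ l • defu Z i v l
      = (Q.qi j - (Q.qi j)⁻¹)⁻¹ • (((Q.qi i ^ (l + 1)) ^ (m : ℤ) - (Q.qi i ^ (l + 1)) ^ (-(m : ℤ)))
          • Q.gF Set.univ Set.univ i ^ m • v
        + ((Q.qi i ^ (l + 1) + (Q.qi i ^ (l + 1))⁻¹) / (Q.qi i ^ (l + 1) - (Q.qi i ^ (l + 1))⁻¹)
            * ((Q.qi i ^ (l + 1)) ^ (m : ℤ) - (Q.qi i ^ (l + 1)) ^ (-(m : ℤ)))
            - m * ((Q.qi i ^ (l + 1)) ^ (m : ℤ) + (Q.qi i ^ (l + 1)) ^ (-(m : ℤ))))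
          • Q.gF Set.univ Set.univ i ^ m • Z v) := by
  have hy := gF_pow_gwt (defu_gwt (i := i) hZ hv l) i l
  have hEy : Q.gE Set.univ Set.univ j • Q.gF Set.univ Set.univ i ^ l • defu Z i v l = 0 := by
    rw [gE_gF_pow_ne hij.symm, defu_E j (hE j), smul_zero]
  have hct : Q.ct j (-(Q.al i) - (l : ℤ) • Q.al i) = -(((l : ℤ) + 1) * Q.a j i) := by
    rw [ct_sub', ct_neg', ct_smul', ct_al']
    ring
  have hF : ∀ x : M.X, Q.gF Set.univ Set.univ i ^ (m - l) • Q.gF Set.univ Set.univ i ^ l • x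
      = Q.gF Set.univ Set.univ i ^ m • x := by
    intro x
    rw [smul_smul, ← pow_add, Nat.sub_add_cancel hl]
  have hq1 := defsv_qj (Q := Q) hm l
  have hq2 : Q.qi j ^ (-(-(((l : ℤ) + 1) * Q.a j i))) = (Q.qi i ^ (l + 1)) ^ (-(m : ℤ)) := by
    rw [zpow_neg, hq1, ← zpow_neg]
  rw [gE_gF_pow_ne hij.symm, E_F_one_g (Set.mem_univ j) (Set.mem_univ j) hZ hy, hEy, smul_zero,
    zero_add, hct, map_smul, defu_Z hZ, hcj, hm]
  unfold qn qs
  rw [hq1, hq2, smul_add, smul_comm_k, smul_comm_k, hF, hF]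
  have hu : Q.gF Set.univ Set.univ i ^ m • defu Z i v l
        = Q.gF Set.univ Set.univ i ^ m • v
          + defτ Q i l • Q.gF Set.univ Set.univ i ^ m • Z v := by
      unfold defu
      rw [smul_add, smul_comm_k]
  rw [hu]
  unfold defτ
  generalize Q.gF Set.univ Set.univ i ^ m • v = u1
  generalize Q.gF Set.univ Set.univ i ^ m • Z v = u2
  push_cast
  generalize (Q.qi i ^ (l + 1)) ^ (m : ℤ) = a1
  generalize (Q.qi i ^ (l + 1)) ^ (-(m : ℤ)) = a2
  generalize (Q.qi i ^ (l + 1) + (Q.qi i ^ (l + 1))⁻¹) / (Q.qi i ^ (l + 1) - (Q.qi i ^ (l + 1))⁻¹)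
    = a3
  module

theorem defsv_Ej (hij : i ≠ j) (hZ : ∀ x, Z (Z x) = 0) (hv : v ∈ gwt M Z c (-(Q.al i)))
    (hE : ∀ r, Q.gE Set.univ Set.univ r • v = 0) (hcj : c j = (Q.a i j : k)) :
    Q.gE Set.univ Set.univ j • defsv Z i j v = 0 := by
  have hp := qi_ne (Q := Q) i
  have hr := qi_root (Q := Q) i
  obtain ⟨m, hm⟩ : ∃ m : ℕ, Q.a i j = -(m : ℤ) := ⟨(-(Q.a i j)).toNat, by
    have := Q.nonpos i j hij
    omega⟩
  have hm' : (-(Q.a i j)).toNat = m := by omega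
  unfold defsv
  rw [hm', Finset.smul_sum]
  have h1 : ∀ l ∈ Finset.range (m + 1), Q.gE Set.univ Set.univ j •
      (((-1) ^ l * qb (Q.qi i) (m + 1) (l + 1)) • (Q.gF Set.univ Set.univ i ^ (m - l) •
      Q.gF Set.univ Set.univ j • Q.gF Set.univ Set.univ i ^ l • defu Z i v l))
      = (Q.qi j - (Q.qi j)⁻¹)⁻¹ • ((((-1) ^ l * qb (Q.qi i) (m + 1) (l + 1)) *
          ((Q.qi i ^ (l + 1)) ^ (m : ℤ) - (Q.qi i ^ (l + 1)) ^ (-(m : ℤ))))
          • Q.gF Set.univ Set.univ i ^ m • v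
        + (((-1) ^ l * qb (Q.qi i) (m + 1) (l + 1)) *
          ((Q.qi i ^ (l + 1) + (Q.qi i ^ (l + 1))⁻¹) / (Q.qi i ^ (l + 1) - (Q.qi i ^ (l + 1))⁻¹)
            * ((Q.qi i ^ (l + 1)) ^ (m : ℤ) - (Q.qi i ^ (l + 1)) ^ (-(m : ℤ)))
            - m * ((Q.qi i ^ (l + 1)) ^ (m : ℤ) + (Q.qi i ^ (l + 1)) ^ (-(m : ℤ)))))
          • Q.gF Set.univ Set.univ i ^ m • Z v) := by
    intro l hl
    have hl' : l ≤ m := Nat.lt_succ_iff.1 (Finset.mem_range.1 hl)
    have h4 : ∀ (s b x y : k) (y1 y2 : M.X), s • b • (x • y1 + y • y2)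
        = b • ((s * x) • y1 + (s * y) • y2) := by intros; module
    rw [smul_comm_k, defsv_Ej_term hij hZ hv hE hcj hm hl', h4]
  rw [Finset.sum_congr rfl h1, ← Finset.smul_sum, Finset.sum_add_distrib, ← Finset.sum_smul,
    ← Finset.sum_smul, defS_sum0 hp hr, defS_sum1 hp hr, zero_smul, zero_smul, add_zero, smul_zero]

/-- the deformed singular vector is singular -/
theorem defsv_E (hij : i ≠ j) (hZ : ∀ x, Z (Z x) = 0) (hv : v ∈ gwt M Z c (-(Q.al i)))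
    (hE : ∀ r, Q.gE Set.univ Set.univ r • v = 0) (hci : c i = 1) (hcj : c j = (Q.a i j : k))
    (r : I) : Q.gE Set.univ Set.univ r • defsv Z i j v = 0 := by
  by_cases hri : r = i
  · subst hri
    exact defsv_Ei hij hZ hv hE hci
  by_cases hrj : r = j
  · subst hrj
    exact defsv_Ej hij hZ hv hE hcj
  unfold defsv
  rw [Finset.smul_sum]
  refine Finset.sum_eq_zero fun l _ => ?_
  rw [smul_comm_k, gE_gF_pow_ne hri, gE_gF_ne hrj, gE_gF_pow_ne hri, defu_E r (hE r), smul_zero,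
    smul_zero, smul_zero, smul_zero]

end Pool.Agent.Lib.QG
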