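import Pool.Agent.Lib.MP_021f05_al.Alg

/-!
# MP_021f05_al (A1): q-numbers and Gaussian binomials
-/

noncomputable section

namespace Pool.Agent.Lib.QG

variable {k : Type} [Field k] (p : k)

lemma qn_zero : qn p 0 = 0 := by
  simp [qn]

lemma qn_neg (n : ℤ) : qn p (-n) = - qn p n := by
  unfold qn
  rw [neg_neg]
  ring

variable (hp : p ≠ 0) (hr : ∀ n : ℕ, 0 < n → p ^ n ≠ 1)
include hp hr

lemma sub_inv_ne : p - p⁻¹ ≠ 0 := by
  intro h
  apply hr 2 (by norm_num)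
  have h1 : p = p⁻¹ := sub_eq_zero.1 h
  rw [pow_two]
  nth_rewrite 2 [h1]
  exact mul_inv_cancel₀ hp

lemma qn_one : qn p 1 = 1 := by
  unfold qn
  rw [zpow_one, zpow_neg_one]
  exact div_self (sub_inv_ne p hp hr)

lemma qn_ne_zero {n : ℤ} (hn : n ≠ 0) : qn p n ≠ 0 := by
  unfold qn
  refine div_ne_zero ?_ (sub_inv_ne p hp hr)
  intro h
  have h1 : p ^ n = p ^ (-n) := sub_eq_zero.1 h
  have h2 : p ^ (2 * n) = 1 := by
    rw [two_mul, zpow_add₀ hp]
    nth_rewrite 2 [h1]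
    rw [← zpow_add₀ hp, add_neg_cancel, zpow_zero]
  have h3 : p ^ (2 * n).natAbs = 1 := by
    rcases Int.natAbs_eq (2 * n) with h | h
    · rw [h, zpow_natCast] at h2
      exact h2
    · rw [h, zpow_neg, zpow_natCast, inv_eq_one] at h2
      exact h2
  exact hr _ (by omega) h3

lemma qn_add (a b : ℤ) : qn p (a + b) = p ^ b * qn p a + p ^ (-a) * qn p b := by
  have h := sub_inv_ne p hp hr
  unfold qn
  rw [← mul_div_assoc, ← mul_div_assoc, ← add_div]
  congr 1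
  rw [neg_add, zpow_add₀ hp, zpow_add₀ hp]
  ring

lemma qf_ne_zero (n : ℕ) : qf p n ≠ 0 := by
  unfold qf
  rw [Finset.prod_ne_zero_iff]
  intro s _
  exact qn_ne_zero p hp hr (by omega)

omit hp hr in
lemma qf_succ (n : ℕ) : qf p (n + 1) = qf p n * qn p (n + 1) := by
  unfold qf
  rw [Finset.prod_range_succ]

omit hp hr in
private lemma qf_zero_A1 : qf p 0 = 1 := by
  unfold qf
  rw [Finset.prod_range_zero]

lemma qb_zero (n : ℕ) : qb p n 0 = 1 := by
  unfold qb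
  rw [qf_zero_A1, one_mul, Nat.sub_zero]
  exact div_self (qf_ne_zero p hp hr n)

lemma qb_self (n : ℕ) : qb p n n = 1 := by
  unfold qb
  rw [Nat.sub_self, qf_zero_A1, mul_one]
  exact div_self (qf_ne_zero p hp hr n)

lemma qb_ne_zero {n s : ℕ} (hs : s ≤ n) : qb p n s ≠ 0 := by
  unfold qb
  exact div_ne_zero (qf_ne_zero p hp hr n)
    (mul_ne_zero (qf_ne_zero p hp hr s) (qf_ne_zero p hp hr (n - s)))

/-- both Pascal rules -/
private lemma qb_pascal_A1 {n s : ℕ} (hs : s < n) (x y : k)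
    (h : qn p ((n : ℤ) + 1) = x * qn p ((n : ℤ) - s) + y * qn p ((s : ℤ) + 1)) :
    qb p (n + 1) (s + 1) = x * qb p n (s + 1) + y * qb p n s := by
  obtain ⟨m, rfl⟩ := Nat.exists_eq_add_of_lt hs
  have e1 : s + m + 1 + 1 - (s + 1) = m + 1 := by omega
  have e2 : s + m + 1 - (s + 1) = m := by omega
  have e3 : s + m + 1 - s = m + 1 := by omega
  have e4 : ((s + m + 1 : ℕ) : ℤ) - s = (m : ℤ) + 1 := by push_cast; ring
  rw [e4] at h
  unfold qb
  rw [e1, e2, e3, qf_succ p (s + m + 1), qf_succ p s, qf_succ p m, h]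
  have n1 := qf_ne_zero p hp hr s
  have n2 := qf_ne_zero p hp hr m
  have n3 : qn p ((s : ℤ) + 1) ≠ 0 := qn_ne_zero p hp hr (by omega)
  have n4 : qn p ((m : ℤ) + 1) ≠ 0 := qn_ne_zero p hp hr (by omega)
  field_simp

/-- Pascal -/
lemma qb_pascal {n s : ℕ} (hs : s < n) :
    qb p (n + 1) (s + 1) = p ^ (s + 1) * qb p n (s + 1) + p ^ (-((n : ℤ) - s)) * qb p n s := by
  apply qb_pascal_A1 p hp hr hs
  have h := qn_add p hp hr ((n : ℤ) - s) ((s : ℤ) + 1)
  have e : (n : ℤ) - s + (s + 1) = (n : ℤ) + 1 := by ring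
  rw [e] at h
  rw [h]
  congr 2
  rw [← zpow_natCast]
  push_cast
  rfl

/-- Pascal, other form -/
lemma qb_pascal' {n s : ℕ} (hs : s < n) :
    qb p (n + 1) (s + 1) = p ^ (-((s : ℤ) + 1)) * qb p n (s + 1) + p ^ (n - s) * qb p n s := by
  apply qb_pascal_A1 p hp hr hs
  have h := qn_add p hp hr ((s : ℤ) + 1) ((n : ℤ) - s)
  have e : (s : ℤ) + 1 + ((n : ℤ) - s) = (n : ℤ) + 1 := by ring
  rw [e] at h
  rw [h, add_comm]
  congr 2
  rw [← zpow_natCast, Nat.cast_sub hs.le]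

/-- `[n, s+1] [s+1] = [n, s] [n-s]` -/
lemma qb_mul {n s : ℕ} (hs : s < n) :
    qb p n (s + 1) * qn p (s + 1) = qb p n s * qn p ((n : ℤ) - s) := by
  obtain ⟨m, rfl⟩ := Nat.exists_eq_add_of_lt hs
  have e2 : s + m + 1 - (s + 1) = m := by omega
  have e3 : s + m + 1 - s = m + 1 := by omega
  have e4 : ((s + m + 1 : ℕ) : ℤ) - s = (m : ℤ) + 1 := by push_cast; ring
  rw [e4]
  unfold qb
  rw [e2, e3, qf_succ p s, qf_succ p m]
  have n1 := qf_ne_zero p hp hr s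
  have n2 := qf_ne_zero p hp hr m
  have n3 : qn p ((s : ℤ) + 1) ≠ 0 := qn_ne_zero p hp hr (by omega)
  have n4 : qn p ((m : ℤ) + 1) ≠ 0 := qn_ne_zero p hp hr (by omega)
  field_simp

/-- `[n+1, s+1] [s+1] = [n+1] [n, s]` -/
lemma qb_succ_mul {n s : ℕ} (hs : s ≤ n) :
    qb p (n + 1) (s + 1) * qn p (s + 1) = qn p (n + 1) * qb p n s := by
  obtain ⟨m, rfl⟩ := Nat.exists_eq_add_of_le hs
  have e1 : s + m + 1 - (s + 1) = m := by omega
  have e3 : s + m - s = m := by omega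
  unfold qb
  rw [e1, e3, qf_succ p s, qf_succ p (s + m)]
  have n1 := qf_ne_zero p hp hr s
  have n2 := qf_ne_zero p hp hr m
  have n3 : qn p ((s : ℤ) + 1) ≠ 0 := qn_ne_zero p hp hr (by omega)
  field_simp

/-- the q-binomial theorem -/
theorem qbinom (n : ℕ) (z : k) :
    ∑ s ∈ Finset.range (n + 1), (-1) ^ s * qb p n s * z ^ s
      = ∏ t ∈ Finset.range n, (1 - p ^ (2 * (t : ℤ) - (n - 1)) * z) := by
  induction n generalizing z with
  | zero => simp [qb_zero p hp hr]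
  | succ n ih =>
    have h1 : ∏ t ∈ Finset.range n, (1 - p ^ (2 * (t : ℤ) - ((n + 1 : ℕ) - 1)) * z) =
        ∏ t ∈ Finset.range n, (1 - p ^ (2 * (t : ℤ) - (n - 1)) * (p⁻¹ * z)) := by
      refine Finset.prod_congr rfl fun t _ => ?_
      have e : (2 * (t : ℤ) - ((n + 1 : ℕ) - 1)) = (2 * (t : ℤ) - (n - 1)) + (-1) := by
        push_cast; ring
      rw [e, zpow_add₀ hp, zpow_neg_one, mul_assoc]
    have h2 : (2 * (n : ℤ) - ((n + 1 : ℕ) - 1)) = (n : ℤ) := by push_cast; ring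
    rw [Finset.prod_range_succ, h1, ← ih, h2, zpow_natCast]
    rw [Finset.sum_range_succ', Finset.sum_range_succ]
    have h3 : ∑ s ∈ Finset.range (n + 1), (-1) ^ s * qb p n s * (p⁻¹ * z) ^ s *
          (1 - p ^ n * z) =
        (∑ s ∈ Finset.range (n + 1), (-1) ^ s * qb p n s * (p⁻¹ * z) ^ s) -
        ∑ s ∈ Finset.range (n + 1), (-1) ^ s * qb p n s * (p⁻¹ * z) ^ s * (p ^ n * z) := by
      rw [← Finset.sum_sub_distrib]
      refine Finset.sum_congr rfl fun s _ => ?_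
      ring
    rw [Finset.sum_mul, h3, Finset.sum_range_succ', Finset.sum_range_succ (fun s =>
      (-1) ^ s * qb p n s * (p⁻¹ * z) ^ s * (p ^ n * z))]
    have h4 : ∀ s ∈ Finset.range n, (-1) ^ (s + 1) * qb p (n + 1) (s + 1) * z ^ (s + 1) =
        (-1) ^ (s + 1) * qb p n (s + 1) * (p⁻¹ * z) ^ (s + 1) -
          (-1) ^ s * qb p n s * (p⁻¹ * z) ^ s * (p ^ n * z) := by
      intro s hs
      rw [Finset.mem_range] at hs
      rw [qb_pascal' p hp hr hs]
      have e1 : p ^ (-((s : ℤ) + 1)) = (p⁻¹) ^ (s + 1) := by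
        rw [zpow_neg, inv_pow, ← zpow_natCast]
        push_cast
        rfl
      have e2 : p ^ (n - s) = p ^ n * (p⁻¹) ^ s := by
        rw [inv_pow, pow_sub₀ p hp hs.le]
      rw [e1, e2]
      ring
    rw [Finset.sum_congr rfl h4, Finset.sum_sub_distrib, qb_self p hp hr (n + 1),
      qb_self p hp hr n, qb_zero p hp hr, qb_zero p hp hr]
    have h5 : (p⁻¹ * z) ^ n * (p ^ n * z) = z ^ (n + 1) := by
      rw [mul_pow, inv_pow, pow_succ]
      field_simp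
    have h6 : (-1 : k) ^ n * 1 * (p⁻¹ * z) ^ n * (p ^ n * z) = (-1) ^ n * z ^ (n + 1) := by
      rw [mul_one, mul_assoc, h5]
    rw [h6]
    ring

/-- vanishing of alternating sums: `j ≡ n - 1 mod 2`, `|j| ≤ n - 1` -/
theorem qb_sum_eq_zero {n : ℕ} (t : ℕ) (ht : t < n) :
    ∑ s ∈ Finset.range (n + 1), (-1) ^ s * qb p n s * (p ^ ((n : ℤ) - 1 - 2 * t)) ^ s = 0 := by
  rw [qbinom p hp hr]
  refine Finset.prod_eq_zero (Finset.mem_range.2 ht) ?_
  rw [← zpow_add₀ hp]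
  have e : 2 * (t : ℤ) - (n - 1) + (n - 1 - 2 * t) = 0 := by ring
  rw [e, zpow_zero, sub_self]

end Pool.Agent.Lib.QG
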