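import Pool.Agent.Lib.MP_021f05_al.Half
import Pool.Agent.Lib.MP_021f05_al.QNum

/-!
# MP_021f05_al (A5): the grading of the half algebra; right multiplication by a generator
-/

noncomputable section

namespace Pool.Agent.Lib.QG

open scoped TensorProduct

variable {k : Type} [Field k] {I : Type} [Fintype I] [DecidableEq I] (Q : QD k I) (J : Set I)

/-- the product of generators along a word -/
def HA.word (w : List I) : HA Q J := (w.map (HA.x Q J)).prod

/-- the weight of a word -/
def wtw (w : List I) : I → ℕ := fun i => w.count i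

/-- the weight space of weight `ν` (in `ℕ^I`): the span of the words of weight `ν` -/
def HA.gr (ν : I → ℕ) : Submodule k (HA Q J) :=
  Submodule.span k {y | ∃ w : List I, wtw w = ν ∧ y = HA.word Q J w}

/-! ### words -/

lemma halfGr_word_nil : HA.word Q J [] = 1 := rfl

lemma halfGr_word_append (w w' : List I) :
    HA.word Q J (w ++ w') = HA.word Q J w * HA.word Q J w' := by
  unfold HA.word
  rw [List.map_append, List.prod_append]

lemma halfGr_word_single (i : I) : HA.word Q J [i] = HA.x Q J i := by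
  unfold HA.word
  simp

omit [Fintype I] in
lemma halfGr_wtw_append (w w' : List I) : wtw (w ++ w') = wtw w + wtw w' := by
  ext i; simp [wtw]

omit [Fintype I] in
lemma halfGr_wtw_nil : wtw ([] : List I) = 0 := by
  ext i; simp [wtw]

omit [Fintype I] in
lemma halfGr_wtw_single (i : I) : wtw [i] = Pi.single i 1 := by
  ext j
  by_cases h : j = i
  · subst h; simp [wtw]
  · rw [Pi.single_eq_of_ne h]
    simp [wtw, Ne.symm h]

omit [Fintype I] in
lemma halfGr_wtw_eq_zero {w : List I} (h : wtw w = 0) : w = [] := by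
  cases w with
  | nil => rfl
  | cons i w =>
    exfalso
    have := congrFun h i
    simp [wtw] at this

lemma halfGr_word_mem (w : List I) : HA.word Q J w ∈ HA.gr Q J (wtw w) :=
  Submodule.subset_span ⟨w, rfl, rfl⟩

theorem HA.gr_mul {ν ν' : I → ℕ} {x y : HA Q J} (hx : x ∈ HA.gr Q J ν) (hy : y ∈ HA.gr Q J ν') :
    x * y ∈ HA.gr Q J (ν + ν') := by
  have h : HA.gr Q J ν * HA.gr Q J ν' ≤ HA.gr Q J (ν + ν') := by
    unfold HA.gr
    rw [Submodule.span_mul_span, Submodule.span_le]
    rintro _ ⟨_, ⟨w, rfl, rfl⟩, _, ⟨w', rfl, rfl⟩, rfl⟩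
    refine Submodule.subset_span ⟨w ++ w', halfGr_wtw_append w w', ?_⟩
    rw [halfGr_word_append]
  exact h (Submodule.mul_mem_mul hx hy)

lemma halfGr_mul_mem {x y : HA Q J} (hx : x ∈ ⨆ ν, HA.gr Q J ν) (hy : y ∈ ⨆ ν, HA.gr Q J ν) :
    x * y ∈ ⨆ ν, HA.gr Q J ν := by
  induction hx using Submodule.iSup_induction' with
  | mem ν x hx =>
    induction hy using Submodule.iSup_induction' with
    | mem ν' y hy => exact Submodule.mem_iSup_of_mem _ (HA.gr_mul Q J hx hy)
    | zero => rw [mul_zero]; exact zero_mem _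
    | add y z _ _ h1 h2 => rw [mul_add]; exact add_mem h1 h2
  | zero => rw [zero_mul]; exact zero_mem _
  | add x z _ _ h1 h2 => rw [add_mul]; exact add_mem h1 h2

theorem HA.gr_iSup : ⨆ ν, HA.gr Q J ν = ⊤ := by
  rw [eq_top_iff]
  intro y _
  induction y using HA.induction with
  | hs t =>
    rw [Algebra.algebraMap_eq_smul_one]
    refine Submodule.mem_iSup_of_mem 0 (Submodule.smul_mem _ _ ?_)
    have := halfGr_word_mem Q J []
    rwa [halfGr_wtw_nil, halfGr_word_nil] at this
  | hx i =>
    refine Submodule.mem_iSup_of_mem (Pi.single i 1) ?_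
    have := halfGr_word_mem Q J [i]
    rwa [halfGr_wtw_single, halfGr_word_single] at this
  | hadd x y hx hy => exact add_mem (hx trivial) (hy trivial)
  | hmul x y hx hy => exact halfGr_mul_mem Q J (hx trivial) (hy trivial)

theorem HA.gr_zero : HA.gr Q J 0 = Submodule.span k {1} := by
  unfold HA.gr
  congr 1
  ext y
  constructor
  · rintro ⟨w, hw, rfl⟩
    rw [halfGr_wtw_eq_zero hw]
    rfl
  · rintro rfl
    exact ⟨[], halfGr_wtw_nil, rfl⟩

lemma halfGr_serre_zero {A : Type} [Ring A] [Algebra k A] (p : k) (n : ℕ) (x : A) :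
    serre p n x 0 = 0 := by
  unfold serre
  refine Finset.sum_eq_zero fun s _ => ?_
  rw [mul_zero, zero_mul, smul_zero]

lemma halfGr_serre_zero' {A : Type} [Ring A] [Algebra k A] (p : k) {n : ℕ} (hn : 1 ≤ n) (y : A) :
    serre p n 0 y = 0 := by
  unfold serre
  refine Finset.sum_eq_zero fun s _ => ?_
  rcases Nat.eq_zero_or_pos s with h | h
  · subst h
    rw [Nat.sub_zero, zero_pow (by omega), zero_mul, zero_mul, smul_zero]
  · rw [zero_pow (by omega : s ≠ 0), mul_zero, smul_zero]

theorem HA.one_ne_zero : (1 : HA Q J) ≠ 0 := by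
  intro h
  have h1 := congrArg (HA.lift (Q := Q) (J := J) (fun _ : I => (0 : k)) (fun _ _ => rfl)
    (fun _ _ _ _ _ => halfGr_serre_zero _ _ _)) h
  rw [map_one, map_zero] at h1
  exact _root_.one_ne_zero h1

/-- a nonzero weight space of nonzero weight is spanned by multiples of generators -/
theorem HA.gr_pos {ν : I → ℕ} (hν : ν ≠ 0) {y : HA Q J} (hy : y ∈ HA.gr Q J ν) :
    ∃ z : I → HA Q J, (∀ i, z i ∈ ⨆ μ ∈ {μ | μ + Pi.single i 1 = ν}, HA.gr Q J μ) ∧
      y = ∑ i, z i * HA.x Q J i := by
  unfold HA.gr at hy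
  induction hy using Submodule.span_induction with
  | mem y hy =>
    obtain ⟨w, hw, rfl⟩ := hy
    have hne : w ≠ [] := by
      rintro rfl
      exact hν (hw.symm.trans halfGr_wtw_nil)
    obtain ⟨w', i, rfl⟩ : ∃ w' i, w = w' ++ [i] :=
      ⟨w.dropLast, w.getLast hne, (List.dropLast_append_getLast hne).symm⟩
    refine ⟨Pi.single i (HA.word Q J w'), fun j => ?_, ?_⟩
    · by_cases h : j = i
      · subst h
        rw [Pi.single_eq_same]
        refine Submodule.mem_iSup_of_mem (wtw w') (Submodule.mem_iSup_of_mem ?_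
          (halfGr_word_mem Q J w'))
        rw [Set.mem_ofPred_eq, ← hw, halfGr_wtw_append, halfGr_wtw_single]
      · rw [Pi.single_eq_of_ne h]; exact zero_mem _
    · rw [Finset.sum_eq_single i]
      · rw [Pi.single_eq_same, halfGr_word_append, halfGr_word_single]
      · intro j _ hj
        rw [Pi.single_eq_of_ne hj, zero_mul]
      · intro h; exact absurd (Finset.mem_univ i) h
  | zero => exact ⟨0, fun i => zero_mem _, by simp⟩
  | add y y' _ _ h1 h2 =>
    obtain ⟨z, hz, e⟩ := h1
    obtain ⟨z', hz', e'⟩ := h2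
    refine ⟨z + z', fun i => add_mem (hz i) (hz' i), ?_⟩
    rw [e, e', ← Finset.sum_add_distrib]
    refine Finset.sum_congr rfl fun i _ => ?_
    rw [Pi.add_apply, add_mul]
  | smul c y _ h1 =>
    obtain ⟨z, hz, e⟩ := h1
    refine ⟨c • z, fun i => Submodule.smul_mem _ _ (hz i), ?_⟩
    rw [e, Finset.smul_sum]
    refine Finset.sum_congr rfl fun i _ => ?_
    rw [Pi.smul_apply, smul_mul_assoc]

/-- `HA {i}` has basis the powers of `x_i` -/
theorem HA.single_basis (i : I) :
    ∃ b : Module.Basis ℕ k (HA Q {i}), ∀ n, b n = HA.x Q {i} i ^ n := by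
  classical
  let f : HA Q {i} →ₐ[k] Polynomial k := HA.lift (fun j => if j = i then Polynomial.X else 0)
    (fun j hj => if_neg hj)
    (fun a b ha hb hab => absurd (ha.trans hb.symm) hab)
  have hf : f (HA.x Q {i} i) = Polynomial.X := by
    rw [HA.lift_x, if_pos rfl]
  have h1 : LinearIndependent k (fun n : ℕ => HA.x Q {i} i ^ n) := by
    apply LinearIndependent.of_comp f.toLinearMap
    have e : (f.toLinearMap ∘ fun n : ℕ => HA.x Q {i} i ^ n) =
        fun n : ℕ => (Polynomial.X : Polynomial k) ^ n := by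
      funext n
      show f (HA.x Q {i} i ^ n) = _
      rw [map_pow, hf]
    have e2 : (fun n : ℕ => (Polynomial.X : Polynomial k) ^ n) =
        ⇑(Polynomial.basisMonomials k) := by
      funext n
      rw [Polynomial.coe_basisMonomials]
      exact (Polynomial.monomial_one_right_eq_X_pow n).symm
    rw [e, e2]
    exact (Polynomial.basisMonomials k).linearIndependent
  have h2 : ⊤ ≤ Submodule.span k (Set.range fun n : ℕ => HA.x Q {i} i ^ n) := by
    intro y _
    have hone : (1 : HA Q {i}) ∈ Submodule.span k (Set.range fun n : ℕ => HA.x Q {i} i ^ n) :=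
      Submodule.subset_span ⟨0, pow_zero _⟩
    induction y using HA.induction with
    | hs t =>
      rw [Algebra.algebraMap_eq_smul_one]
      exact Submodule.smul_mem _ _ hone
    | hx j =>
      by_cases h : j = i
      · subst h
        exact Submodule.subset_span ⟨1, pow_one _⟩
      · rw [HA.x_zero (J := {i}) h]; exact zero_mem _
    | hadd x y hx hy => exact add_mem (hx trivial) (hy trivial)
    | hmul x y hx hy =>
      have hle : Submodule.span k (Set.range fun n : ℕ => HA.x Q {i} i ^ n) *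
          Submodule.span k (Set.range fun n : ℕ => HA.x Q {i} i ^ n) ≤
          Submodule.span k (Set.range fun n : ℕ => HA.x Q {i} i ^ n) := by
        rw [Submodule.span_mul_span, Submodule.span_le]
        rintro _ ⟨_, ⟨a, rfl⟩, _, ⟨b, rfl⟩, rfl⟩
        exact Submodule.subset_span ⟨a + b, pow_add _ _ _⟩
      exact hle (Submodule.mul_mem_mul (hx trivial) (hy trivial))
  refine ⟨Module.Basis.mk h1 h2, fun n => ?_⟩
  rw [Module.Basis.mk_apply]

lemma halfGr_n_pos {i j : I} (hij : i ≠ j) : 1 ≤ (1 - Q.a i j).toNat := by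
  have := Q.nonpos i j hij
  omega

/-- weight `ν ≠ n α_i` vanish in `HA {i}` -/
theorem HA.incl_injective {J J' : Set I} (h : J ⊆ J') : Function.Injective (HA.incl Q h) := by
  classical
  let r : HA Q J' →ₐ[k] HA Q J := HA.lift (fun i => HA.x Q J i)
    (fun i hi => HA.x_zero fun hi' => hi (h hi'))
    (fun i j hi hj hij => by
      by_cases h1 : i ∈ J
      · by_cases h2 : j ∈ J
        · exact HA.x_serre h1 h2 hij
        · rw [HA.x_zero h2]; exact halfGr_serre_zero _ _ _
      · rw [HA.x_zero h1]; exact halfGr_serre_zero' _ (halfGr_n_pos Q hij) _)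
  have hr : r.comp (HA.incl Q h) = AlgHom.id k (HA Q J) := by
    apply HA.hom_ext
    intro i
    rw [AlgHom.comp_apply, AlgHom.id_apply]
    unfold HA.incl
    rw [HA.lift_x]
    by_cases h1 : i ∈ J
    · rw [if_pos h1, HA.lift_x]
    · rw [if_neg h1, map_zero, HA.x_zero h1]
  intro x y hxy
  have e : ∀ z, r (HA.incl Q h z) = z := fun z => by
    rw [← AlgHom.comp_apply, hr, AlgHom.id_apply]
  rw [← e x, ← e y, hxy]

/-! ### the coaction -/

/-- the grading as an algebra map to the monoid algebra of `ℕ^I` -/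
def halfGr_co : HA Q J →ₐ[k] AddMonoidAlgebra (HA Q J) (I → ℕ) :=
  HA.lift (fun i => AddMonoidAlgebra.single (Pi.single i 1) (HA.x Q J i))
    (fun i hi => by rw [HA.x_zero hi, AddMonoidAlgebra.single_zero])
    (fun i j hi hj hij => by
      have h0 := HA.x_serre (Q := Q) (J := J) hi hj hij
      set n := (1 - Q.a i j).toNat with hn
      set α : I → ℕ := Pi.single i 1 with hα
      set β : I → ℕ := Pi.single j 1 with hβ
      have h1 : ∀ s ∈ Finset.range (n + 1), ((-1) ^ s * qb (Q.qi i) n s) •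
          (AddMonoidAlgebra.single α (HA.x Q J i) ^ (n - s) *
            AddMonoidAlgebra.single β (HA.x Q J j) *
              AddMonoidAlgebra.single α (HA.x Q J i) ^ s) =
          AddMonoidAlgebra.single (n • α + β) (((-1) ^ s * qb (Q.qi i) n s) •
            (HA.x Q J i ^ (n - s) * HA.x Q J j * HA.x Q J i ^ s)) := by
        intro s hs
        rw [Finset.mem_range] at hs
        rw [AddMonoidAlgebra.single_pow, AddMonoidAlgebra.single_pow,
          AddMonoidAlgebra.single_mul_single, AddMonoidAlgebra.single_mul_single,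
          AddMonoidAlgebra.smul_single]
        congr 1
        have e : n • α = (n - s) • α + s • α := by
          rw [← add_smul]; congr 1; omega
        rw [e]; abel
      unfold serre at h0 ⊢
      rw [Finset.sum_congr rfl h1]
      have h2 : ∀ (t : Finset ℕ) (g : ℕ → HA Q J), ∑ s ∈ t, AddMonoidAlgebra.single (n • α + β) (g s) =
          AddMonoidAlgebra.single (n • α + β) (∑ s ∈ t, g s) := fun t g =>
        (map_sum (AddMonoidAlgebra.singleAddHom (n • α + β)) g t).symm
      rw [h2, h0, AddMonoidAlgebra.single_zero])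

lemma halfGr_co_x (i : I) : halfGr_co Q J (HA.x Q J i) =
    AddMonoidAlgebra.single (Pi.single i 1) (HA.x Q J i) := HA.lift_x _ _ _ i

lemma halfGr_co_word (w : List I) : halfGr_co Q J (HA.word Q J w) =
    AddMonoidAlgebra.single (wtw w) (HA.word Q J w) := by
  induction w with
  | nil =>
    rw [halfGr_wtw_nil, halfGr_word_nil, map_one]
    rfl
  | cons i w ih =>
    have e : i :: w = [i] ++ w := rfl
    rw [e, halfGr_word_append, map_mul, ih, halfGr_word_single, halfGr_co_x,
      AddMonoidAlgebra.single_mul_single, halfGr_wtw_append, halfGr_wtw_single]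

lemma halfGr_co_gr {ν : I → ℕ} {y : HA Q J} (hy : y ∈ HA.gr Q J ν) :
    halfGr_co Q J y = AddMonoidAlgebra.single ν y := by
  unfold HA.gr at hy
  induction hy using Submodule.span_induction with
  | mem y hy =>
    obtain ⟨w, rfl, rfl⟩ := hy
    exact halfGr_co_word Q J w
  | zero => rw [map_zero, AddMonoidAlgebra.single_zero]
  | add y z _ _ h1 h2 => rw [map_add, h1, h2, AddMonoidAlgebra.single_add]
  | smul c y _ h1 => rw [map_smul, h1, AddMonoidAlgebra.smul_single]

/-- the projection to the weight space -/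
def halfGr_pi (ν : I → ℕ) : HA Q J →ₗ[k] HA Q J where
  toFun y := (halfGr_co Q J y).coeff ν
  map_add' x y := by rw [map_add, AddMonoidAlgebra.coeff_add, Finsupp.add_apply]
  map_smul' c x := by
    rw [map_smul, AddMonoidAlgebra.coeff_smul, Finsupp.smul_apply, RingHom.id_apply]

lemma halfGr_pi_gr (ν : I → ℕ) {μ : I → ℕ} {y : HA Q J} (hy : y ∈ HA.gr Q J μ) :
    halfGr_pi Q J ν y = if μ = ν then y else 0 := by
  show (halfGr_co Q J y).coeff ν = _
  rw [halfGr_co_gr Q J hy, AddMonoidAlgebra.coeff_single, Finsupp.single_apply]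

lemma halfGr_pi_mem (ν : I → ℕ) (y : HA Q J) : halfGr_pi Q J ν y ∈ HA.gr Q J ν := by
  have hy : y ∈ ⨆ ν, HA.gr Q J ν := by rw [HA.gr_iSup]; trivial
  induction hy using Submodule.iSup_induction' with
  | mem μ y hy =>
    rw [halfGr_pi_gr Q J ν hy]
    split_ifs with h
    · rwa [← h]
    · exact zero_mem _
  | zero => rw [map_zero]; exact zero_mem _
  | add y z _ _ h1 h2 => rw [map_add]; exact add_mem h1 h2

/-- the weight spaces are independent -/
theorem HA.gr_indep : iSupIndep (HA.gr Q J) := by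
  intro ν
  rw [Submodule.disjoint_def]
  intro y hy hy'
  have h1 : (⨆ μ, ⨆ (_ : μ ≠ ν), HA.gr Q J μ) ≤ LinearMap.ker (halfGr_pi Q J ν) := by
    refine iSup_le fun μ => iSup_le fun hμ => ?_
    intro z hz
    rw [LinearMap.mem_ker, halfGr_pi_gr Q J ν hz, if_neg hμ]
  have h2 := h1 hy'
  rw [LinearMap.mem_ker, halfGr_pi_gr Q J ν hy, if_pos rfl] at h2
  exact h2

lemma halfGr_sum_pi (y : HA Q J) :
    (halfGr_co Q J y).coeff.sum (fun _ a => a) = y := by
  have hy : y ∈ ⨆ ν, HA.gr Q J ν := by rw [HA.gr_iSup]; trivial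
  induction hy using Submodule.iSup_induction' with
  | mem μ y hy =>
    rw [halfGr_co_gr Q J hy, AddMonoidAlgebra.coeff_single, Finsupp.sum_single_index rfl]
  | zero => rw [map_zero]; rfl
  | add y z _ _ h1 h2 =>
    rw [map_add, AddMonoidAlgebra.coeff_add, Finsupp.sum_add_index' (fun _ => rfl)
      (fun _ _ _ => rfl), h1, h2]

lemma halfGr_eq_zero {y : HA Q J} (h : ∀ ν, halfGr_pi Q J ν y = 0) : y = 0 := by
  have h1 : (halfGr_co Q J y).coeff = 0 := Finsupp.ext fun ν => h ν
  rw [← halfGr_sum_pi Q J y, h1]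
  rfl

lemma halfGr_pi_mul_x (i : I) (ν : I → ℕ) (y : HA Q J) :
    halfGr_pi Q J (ν + Pi.single i 1) (y * HA.x Q J i) = halfGr_pi Q J ν y * HA.x Q J i := by
  show (halfGr_co Q J (y * HA.x Q J i)).coeff _ = _
  rw [map_mul, halfGr_co_x]
  exact AddMonoidAlgebra.coeff_mul_single_eq_coeff_mul ν fun m' _ => add_left_inj _

lemma halfGr_pi_mul_x' (i : I) {ν : I → ℕ} (hν : ν i = 0) (y : HA Q J) :
    halfGr_pi Q J ν (y * HA.x Q J i) = 0 := by
  show (halfGr_co Q J (y * HA.x Q J i)).coeff _ = _
  rw [map_mul, halfGr_co_x]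
  refine AddMonoidAlgebra.coeff_mul_single_of_forall_add_ne _ _ fun d hd => ?_
  have := congrFun hd i
  rw [Pi.add_apply, Pi.single_eq_same, hν] at this
  omega

/-! ### the skew derivation -/

section mat
variable {A : Type} [Ring A] [Algebra k A]

/-- upper triangular matrices -/
def halfGr_m (a b c : A) : Matrix (Fin 2) (Fin 2) A := !![a, b; 0, c]

lemma halfGr_m_mul (a b c a' b' c' : A) : halfGr_m a b c * halfGr_m a' b' c' =
    halfGr_m (a * a') (a * b' + b * c') (c * c') := by
  unfold halfGr_m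
  rw [Matrix.mul_fin_two]
  simp

lemma halfGr_m_smul (t : k) (a b c : A) : t • halfGr_m a b c = halfGr_m (t • a) (t • b) (t • c) := by
  unfold halfGr_m
  ext i j
  fin_cases i <;> fin_cases j <;> simp

lemma halfGr_m_sum {ι : Type} (s : Finset ι) (a b c : ι → A) :
    ∑ i ∈ s, halfGr_m (a i) (b i) (c i) =
      halfGr_m (∑ i ∈ s, a i) (∑ i ∈ s, b i) (∑ i ∈ s, c i) := by
  unfold halfGr_m
  ext i j
  rw [Matrix.sum_apply]
  fin_cases i <;> fin_cases j <;> simp

lemma halfGr_m_zero : halfGr_m (0 : A) 0 0 = 0 := by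
  unfold halfGr_m
  ext i j
  fin_cases i <;> fin_cases j <;> simp

lemma halfGr_m_pow0 (x : A) (c : k) (m : ℕ) :
    halfGr_m x 0 (c • x) ^ m = halfGr_m (x ^ m) 0 (c ^ m • x ^ m) := by
  induction m with
  | zero =>
    unfold halfGr_m
    ext i j
    fin_cases i <;> fin_cases j <;> simp
  | succ m ih =>
    rw [pow_succ, ih, halfGr_m_mul]
    simp only [mul_zero, zero_mul, add_zero]
    rw [smul_mul_smul_comm, ← pow_succ, ← pow_succ]

lemma halfGr_m_pow1 (x : A) (c : k) (m : ℕ) :
    halfGr_m x 1 (c • x) ^ m =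
      halfGr_m (x ^ m) ((∑ t ∈ Finset.range m, c ^ t) • x ^ (m - 1)) (c ^ m • x ^ m) := by
  induction m with
  | zero =>
    unfold halfGr_m
    ext i j
    fin_cases i <;> fin_cases j <;> simp
  | succ m ih =>
    rw [pow_succ', ih, halfGr_m_mul]
    have e1 : x * ((∑ t ∈ Finset.range m, c ^ t) • x ^ (m - 1)) =
        (∑ t ∈ Finset.range m, c ^ t) • x ^ m := by
      rcases Nat.eq_zero_or_pos m with h | h
      · subst h; simp
      · rw [mul_smul_comm, ← pow_succ', Nat.sub_add_cancel h]
    rw [e1, one_mul, ← pow_succ', smul_mul_smul_comm, ← pow_succ', ← pow_succ',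
      Nat.add_sub_cancel, ← add_smul, Finset.sum_range_succ]

end mat

lemma halfGr_geom (p : k) (hp : p ≠ 0) (hr : ∀ n : ℕ, 0 < n → p ^ n ≠ 1) (m : ℕ) :
    ∑ t ∈ Finset.range m, (p ^ 2) ^ t = p ^ ((m : ℤ) - 1) * qn p m := by
  have h1 := sub_inv_ne p hp hr
  have h2 : p ^ 2 - 1 ≠ 0 := sub_ne_zero.2 (hr 2 (by norm_num))
  have h3 := geom_sum_mul (p ^ 2) m
  have h4 : (p ^ ((m : ℤ) - 1) * qn p m) * (p ^ 2 - 1) = (p ^ 2) ^ m - 1 := by
    unfold qn
    have e1 : p ^ 2 - 1 = p * (p - p⁻¹) := by
      rw [mul_sub, mul_inv_cancel₀ hp]; ring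
    rw [e1]
    have e2 : p ^ ((m : ℤ) - 1) * ((p ^ (m : ℤ) - p ^ (-(m : ℤ))) / (p - p⁻¹)) *
        (p * (p - p⁻¹)) = (p ^ ((m : ℤ) - 1) * p) * (p ^ (m : ℤ) - p ^ (-(m : ℤ))) := by
      field_simp
    have e3 : p ^ ((m : ℤ) - 1) * p = p ^ (m : ℤ) := by
      rw [← zpow_add_one₀ hp, sub_add_cancel]
    rw [e2, e3, mul_sub, ← zpow_add₀ hp, ← zpow_add₀ hp, add_neg_cancel, zpow_zero]
    congr 1
    rw [← pow_mul, ← zpow_natCast]
    congr 1
    push_cast
    ring
  exact mul_right_cancel₀ h2 (h3.trans h4.symm)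

lemma halfGr_qi_ne (i : I) : Q.qi i ≠ 0 := pow_ne_zero _ Q.q_ne

lemma halfGr_qi_root (i : I) (n : ℕ) (hn : 0 < n) : Q.qi i ^ n ≠ 1 := by
  unfold QD.qi
  rw [← pow_mul]
  exact Q.q_root _ (Nat.mul_pos (Q.d_pos i) hn)

/-- the scalar `q^{(α_i, α_j)}` -/
def halfGr_c (i j : I) : k := Q.q ^ ((Q.d i : ℤ) * Q.a i j)

lemma halfGr_c_self (i : I) : halfGr_c Q i i = Q.qi i ^ 2 := by
  unfold halfGr_c QD.qi
  rw [Q.diag, ← pow_mul, ← zpow_natCast]
  congr 1

lemma halfGr_c_symm (i j : I) : halfGr_c Q i j = halfGr_c Q j i := by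
  unfold halfGr_c
  rw [Q.symm]

lemma halfGr_c_qi (i j : I) : halfGr_c Q i j = Q.qi i ^ Q.a i j := by
  unfold halfGr_c QD.qi
  rw [← zpow_natCast, ← zpow_mul]

/-- the images of the generators -/
def halfGr_psi0 (i j : I) : Matrix (Fin 2) (Fin 2) (HA Q J) :=
  halfGr_m (HA.x Q J j) (if j = i then 1 else 0) (halfGr_c Q i j • HA.x Q J j)

lemma halfGr_psi0_serre {i : I} (a b : I) (ha : a ∈ J) (hb : b ∈ J) (hab : a ≠ b) :
    serre (Q.qi a) (1 - Q.a a b).toNat (halfGr_psi0 Q J i a) (halfGr_psi0 Q J i b) = 0 := by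
  have h0 := HA.x_serre (Q := Q) (J := J) ha hb hab
  have hn1 := halfGr_n_pos Q hab
  have hnn : (((1 - Q.a a b).toNat : ℕ) : ℤ) = 1 - Q.a a b := by
    have := Q.nonpos a b hab
    omega
  set n := (1 - Q.a a b).toNat with hn
  set p := Q.qi a with hp
  set X := HA.x Q J a with hX
  set Y := HA.x Q J b with hY
  have hp0 : p ≠ 0 := halfGr_qi_ne Q a
  have hpr := halfGr_qi_root Q a
  have hdiag : ∀ (c d : k), ∑ s ∈ Finset.range (n + 1), ((-1) ^ s * qb p n s) •
      ((c ^ (n - s) • X ^ (n - s)) * (d • Y) * (c ^ s • X ^ s)) = 0 := by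
    intro c d
    have e : ∀ s ∈ Finset.range (n + 1), ((-1) ^ s * qb p n s) •
      ((c ^ (n - s) • X ^ (n - s)) * (d • Y) * (c ^ s • X ^ s)) =
        (c ^ n * d) • (((-1) ^ s * qb p n s) • (X ^ (n - s) * Y * X ^ s)) := by
      intro s hs
      rw [Finset.mem_range] at hs
      have e1 : c ^ n = c ^ (n - s) * c ^ s := by rw [← pow_add]; congr 1; omega
      rw [smul_mul_smul_comm, smul_mul_smul_comm, smul_smul, smul_smul, e1]
      congr 1
      ring
    rw [Finset.sum_congr rfl e, ← Finset.smul_sum]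
    unfold serre at h0
    rw [h0, smul_zero]
  unfold serre
  by_cases hia : a = i
  · -- `i = a`
    have hib : ¬ b = i := fun h => hab (hia.trans h.symm)
    have hA : halfGr_psi0 Q J i a = halfGr_m X 1 (p ^ 2 • X) := by
      unfold halfGr_psi0
      rw [if_pos hia, ← hia, halfGr_c_self]
    have hB : halfGr_psi0 Q J i b = halfGr_m Y 0 (p ^ (1 - (n : ℤ)) • Y) := by
      unfold halfGr_psi0
      rw [if_neg hib, ← hia, halfGr_c_qi, hnn]
      congr 3
      ring
    rw [hA, hB]
    simp only [halfGr_m_pow1, halfGr_m_mul, halfGr_m_smul, halfGr_m_sum]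
    have z1 : ∑ s ∈ Finset.range (n + 1), ((-1) ^ s * qb p n s) • (X ^ (n - s) * Y * X ^ s) = 0 :=
      h0
    rw [z1, hdiag]
    have z2 : ∑ s ∈ Finset.range (n + 1), ((-1) ^ s * qb p n s) •
        (X ^ (n - s) * Y * ((∑ t ∈ Finset.range s, (p ^ 2) ^ t) • X ^ (s - 1)) +
          (X ^ (n - s) * 0 + (∑ t ∈ Finset.range (n - s), (p ^ 2) ^ t) • X ^ (n - s - 1) *
            p ^ (1 - (n : ℤ)) • Y) * (p ^ 2) ^ s • X ^ s) = 0 := by
      set F : ℕ → HA Q J := fun s => ((-1) ^ s * qb p n s) •
        (X ^ (n - s) * Y * ((∑ t ∈ Finset.range s, (p ^ 2) ^ t) • X ^ (s - 1))) with hF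
      set G : ℕ → HA Q J := fun s => ((-1) ^ s * qb p n s) •
        ((X ^ (n - s) * 0 + (∑ t ∈ Finset.range (n - s), (p ^ 2) ^ t) • X ^ (n - s - 1) *
            p ^ (1 - (n : ℤ)) • Y) * (p ^ 2) ^ s • X ^ s) with hG
      have e0 : ∀ s ∈ Finset.range (n + 1), ((-1) ^ s * qb p n s) •
        (X ^ (n - s) * Y * ((∑ t ∈ Finset.range s, (p ^ 2) ^ t) • X ^ (s - 1)) +
          (X ^ (n - s) * 0 + (∑ t ∈ Finset.range (n - s), (p ^ 2) ^ t) • X ^ (n - s - 1) *
            p ^ (1 - (n : ℤ)) • Y) * (p ^ 2) ^ s • X ^ s) = F s + G s := fun s _ =>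
        smul_add _ _ _
      have hF0 : F 0 = 0 := by simp [hF]
      have hGn : G n = 0 := by simp [hG]
      have hFG : ∀ s ∈ Finset.range n, F (s + 1) + G s = 0 := by
        intro s hs
        rw [Finset.mem_range] at hs
        have f1 : F (s + 1) = ((-1) ^ (s + 1) * qb p n (s + 1) * (p ^ s * qn p (s + 1))) •
            (X ^ (n - (s + 1)) * Y * X ^ s) := by
          simp only [hF]
          rw [halfGr_geom p hp0 hpr, Nat.add_sub_cancel, mul_smul_comm, smul_smul]
          congr 2
          congr 1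
          · rw [← zpow_natCast]
            congr 1
            push_cast
            ring
        have f2 : G s = ((-1) ^ s * qb p n s * (p ^ s * qn p ((n : ℤ) - s))) •
            (X ^ (n - (s + 1)) * Y * X ^ s) := by
          simp only [hG]
          rw [halfGr_geom p hp0 hpr, mul_zero, zero_add, smul_mul_smul_comm, smul_mul_smul_comm,
            smul_smul, Nat.sub_sub]
          congr 1
          have g1 : ((n - s : ℕ) : ℤ) = (n : ℤ) - s := by omega
          rw [g1]
          have g2 : p ^ ((n : ℤ) - s - 1) * p ^ (1 - (n : ℤ)) * (p ^ 2) ^ s = p ^ s := by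
            rw [← pow_mul, ← zpow_natCast, ← zpow_add₀ hp0, ← zpow_add₀ hp0, ← zpow_natCast]
            congr 1
            push_cast
            ring
          rw [← g2]
          ring
        rw [f1, f2, ← add_smul]
        have f3 := qb_mul p hp0 hpr hs
        have f4 : (-1) ^ (s + 1) * qb p n (s + 1) * (p ^ s * qn p (s + 1)) +
            (-1) ^ s * qb p n s * (p ^ s * qn p ((n : ℤ) - s)) = 0 := by
          linear_combination (-(-1) ^ s * p ^ s : k) * f3
        rw [f4, zero_smul]
      rw [Finset.sum_congr rfl e0, Finset.sum_add_distrib, Finset.sum_range_succ' F,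
        Finset.sum_range_succ G, hF0, hGn, add_zero, add_zero, ← Finset.sum_add_distrib]
      exact Finset.sum_eq_zero hFG
    rw [z2, halfGr_m_zero]
  · have hA : halfGr_psi0 Q J i a = halfGr_m X 0 (halfGr_c Q i a • X) := by
      unfold halfGr_psi0
      rw [if_neg hia]
    by_cases hib : b = i
    · -- `i = b`
      have hB : halfGr_psi0 Q J i b = halfGr_m Y 1 (halfGr_c Q i b • Y) := by
        unfold halfGr_psi0
        rw [if_pos hib]
      rw [hA, hB]
      simp only [halfGr_m_pow0, halfGr_m_mul, halfGr_m_smul, halfGr_m_sum]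
      have z1 : ∑ s ∈ Finset.range (n + 1), ((-1) ^ s * qb p n s) • (X ^ (n - s) * Y * X ^ s) = 0 :=
        h0
      rw [z1, hdiag]
      have hc : halfGr_c Q i a = p ^ ((n : ℤ) - 1 - 2 * ((n - 1 : ℕ) : ℤ)) := by
        rw [← hib, halfGr_c_symm, halfGr_c_qi]
        congr 1
        omega
      have z2 : ∑ s ∈ Finset.range (n + 1), ((-1) ^ s * qb p n s) •
          (X ^ (n - s) * Y * 0 + (X ^ (n - s) * 1 + 0 * halfGr_c Q i b • Y) *
            halfGr_c Q i a ^ s • X ^ s) = 0 := by
        have e : ∀ s ∈ Finset.range (n + 1), ((-1) ^ s * qb p n s) •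
          (X ^ (n - s) * Y * 0 + (X ^ (n - s) * 1 + 0 * halfGr_c Q i b • Y) *
            halfGr_c Q i a ^ s • X ^ s) =
            ((-1) ^ s * qb p n s * (p ^ ((n : ℤ) - 1 - 2 * ((n - 1 : ℕ) : ℤ))) ^ s) • X ^ n := by
          intro s hs
          rw [Finset.mem_range] at hs
          have e1 : X ^ n = X ^ (n - s) * X ^ s := by rw [← pow_add]; congr 1; omega
          rw [mul_zero, zero_add, mul_one, zero_mul, add_zero, mul_smul_comm, smul_smul, hc, e1]
        rw [Finset.sum_congr rfl e, ← Finset.sum_smul,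
          qb_sum_eq_zero p hp0 hpr (n - 1) (by omega), zero_smul]
      rw [z2, halfGr_m_zero]
    · have hB : halfGr_psi0 Q J i b = halfGr_m Y 0 (halfGr_c Q i b • Y) := by
        unfold halfGr_psi0
        rw [if_neg hib]
      rw [hA, hB]
      simp only [halfGr_m_pow0, halfGr_m_mul, halfGr_m_smul, halfGr_m_sum]
      have z1 : ∑ s ∈ Finset.range (n + 1), ((-1) ^ s * qb p n s) • (X ^ (n - s) * Y * X ^ s) = 0 :=
        h0
      rw [z1, hdiag]
      simp only [mul_zero, zero_mul, add_zero, smul_zero, Finset.sum_const_zero]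
      exact halfGr_m_zero

open Classical in
/-- the algebra map `y ↦ [[y, r(y)], [0, σ(y)]]` -/
def halfGr_psi (i : I) : HA Q J →ₐ[k] Matrix (Fin 2) (Fin 2) (HA Q J) :=
  HA.lift (fun j => if j ∈ J then halfGr_psi0 Q J i j else 0)
    (fun j hj => if_neg hj)
    (fun a b ha hb hab => by
      rw [if_pos ha, if_pos hb]
      exact halfGr_psi0_serre Q J a b ha hb hab)

lemma halfGr_psi_x (i : I) {j : I} (hj : j ∈ J) :
    halfGr_psi Q J i (HA.x Q J j) = halfGr_psi0 Q J i j := by
  unfold halfGr_psi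
  rw [HA.lift_x, if_pos hj]

/-- every element is mapped to an upper triangular matrix with upper left entry the element -/
lemma halfGr_psi_tri (i : I) (y : HA Q J) :
    halfGr_psi Q J i y 0 0 = y ∧ halfGr_psi Q J i y 1 0 = 0 := by
  induction y using HA.induction with
  | hs t =>
    rw [AlgHom.commutes]
    simp [Matrix.algebraMap_matrix_apply]
  | hx j =>
    by_cases hj : j ∈ J
    · rw [halfGr_psi_x Q J i hj]
      simp [halfGr_psi0, halfGr_m]
    · rw [HA.x_zero hj, map_zero]
      simp
  | hadd x y hx hy =>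
    rw [map_add, Matrix.add_apply, Matrix.add_apply, hx.1, hx.2, hy.1, hy.2]
    simp
  | hmul x y hx hy =>
    rw [map_mul, Matrix.mul_apply, Matrix.mul_apply, Fin.sum_univ_two, Fin.sum_univ_two, hx.1,
      hx.2, hy.1, hy.2]
    simp

/-- the skew derivation -/
def halfGr_r (i : I) : HA Q J →ₗ[k] HA Q J where
  toFun y := halfGr_psi Q J i y 0 1
  map_add' x y := by rw [map_add, Matrix.add_apply]
  map_smul' c x := by rw [map_smul, Matrix.smul_apply, RingHom.id_apply]

lemma halfGr_r_one (i : I) : halfGr_r Q J i 1 = 0 := by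
  show halfGr_psi Q J i 1 0 1 = 0
  rw [map_one]
  simp

lemma halfGr_r_mul_x (i : I) {j : I} (hj : j ∈ J) (y : HA Q J) :
    halfGr_r Q J i (y * HA.x Q J j) =
      (if j = i then y else 0) + halfGr_c Q i j • (halfGr_r Q J i y * HA.x Q J j) := by
  show halfGr_psi Q J i (y * HA.x Q J j) 0 1 = _ + _ • (halfGr_psi Q J i y 0 1 * _)
  rw [map_mul, Matrix.mul_apply, Fin.sum_univ_two, halfGr_psi_x Q J i hj,
    (halfGr_psi_tri Q J i y).1]
  unfold halfGr_psi0 halfGr_m
  split_ifs <;> simp

/-- the span of the words of length at most `n` -/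
def halfGr_F (n : ℕ) : Submodule k (HA Q J) :=
  Submodule.span k {y | ∃ w : List I, w.length ≤ n ∧ y = HA.word Q J w}

lemma halfGr_r_F (i : I) (w : List I) :
    halfGr_r Q J i (HA.word Q J w) ∈ halfGr_F Q J (w.length - 1) := by
  induction w using List.reverseRecOn with
  | nil => rw [halfGr_word_nil, halfGr_r_one]; exact zero_mem _
  | append_singleton w j ih =>
    rw [List.length_append, List.length_singleton, Nat.add_sub_cancel]
    by_cases hj : j ∈ J
    · rw [halfGr_word_append, halfGr_word_single, halfGr_r_mul_x Q J i hj]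
      refine add_mem ?_ (Submodule.smul_mem _ _ ?_)
      · split_ifs
        · exact Submodule.subset_span ⟨w, le_rfl, rfl⟩
        · exact zero_mem _
      · rcases Nat.eq_zero_or_pos w.length with h | h
        · rw [List.length_eq_zero_iff] at h
          subst h
          rw [halfGr_word_nil, halfGr_r_one, zero_mul]
          exact zero_mem _
        · have h2 : ∀ z ∈ halfGr_F Q J (w.length - 1), z * HA.x Q J j ∈ halfGr_F Q J w.length := by
            intro z hz
            unfold halfGr_F at hz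
            induction hz using Submodule.span_induction with
            | mem z hz =>
              obtain ⟨v, hv, rfl⟩ := hz
              refine Submodule.subset_span ⟨v ++ [j], ?_, ?_⟩
              · rw [List.length_append, List.length_singleton]; omega
              · rw [halfGr_word_append, halfGr_word_single]
            | zero => rw [zero_mul]; exact zero_mem _
            | add a b _ _ h1 h2 => rw [add_mul]; exact add_mem h1 h2
            | smul c a _ h1 => rw [smul_mul_assoc]; exact Submodule.smul_mem _ _ h1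
          exact h2 _ ih
    · rw [halfGr_word_append, halfGr_word_single, HA.x_zero hj, mul_zero, map_zero]
      exact zero_mem _

lemma halfGr_r_F' (i : I) (n : ℕ) {y : HA Q J} (hy : y ∈ halfGr_F Q J (n + 1)) :
    halfGr_r Q J i y ∈ halfGr_F Q J n := by
  have hmono : ∀ a b : ℕ, a ≤ b → halfGr_F Q J a ≤ halfGr_F Q J b := by
    intro a b hab
    refine Submodule.span_mono ?_
    rintro _ ⟨w, hw, rfl⟩
    exact ⟨w, hw.trans hab, rfl⟩
  unfold halfGr_F at hy
  induction hy using Submodule.span_induction with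
  | mem y hy =>
    obtain ⟨w, hw, rfl⟩ := hy
    exact hmono _ _ (by omega) (halfGr_r_F Q J i w)
  | zero => rw [map_zero]; exact zero_mem _
  | add y z _ _ h1 h2 => rw [map_add]; exact add_mem h1 h2
  | smul c y _ h1 => rw [map_smul]; exact Submodule.smul_mem _ _ h1

lemma halfGr_r_F0 (i : I) {y : HA Q J} (hy : y ∈ halfGr_F Q J 0) : halfGr_r Q J i y = 0 := by
  unfold halfGr_F at hy
  induction hy using Submodule.span_induction with
  | mem y hy =>
    obtain ⟨w, hw, rfl⟩ := hy
    have : w = [] := List.length_eq_zero_iff.1 (by omega)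
    rw [this, halfGr_word_nil, halfGr_r_one]
  | zero => rw [map_zero]
  | add y z _ _ h1 h2 => rw [map_add, h1, h2, add_zero]
  | smul c y _ h1 => rw [map_smul, h1, smul_zero]

lemma halfGr_exists_F (y : HA Q J) : ∃ n, y ∈ halfGr_F Q J n := by
  have hmono : ∀ a b : ℕ, a ≤ b → halfGr_F Q J a ≤ halfGr_F Q J b := by
    intro a b hab
    refine Submodule.span_mono ?_
    rintro _ ⟨w, hw, rfl⟩
    exact ⟨w, hw.trans hab, rfl⟩
  have hy : y ∈ ⨆ ν, HA.gr Q J ν := by rw [HA.gr_iSup]; trivial
  induction hy using Submodule.iSup_induction' with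
  | mem μ y hy =>
    unfold HA.gr at hy
    induction hy using Submodule.span_induction with
    | mem y hy =>
      obtain ⟨w, hw, rfl⟩ := hy
      exact ⟨w.length, Submodule.subset_span ⟨w, le_rfl, rfl⟩⟩
    | zero => exact ⟨0, zero_mem _⟩
    | add y z _ _ h1 h2 =>
      obtain ⟨a, ha⟩ := h1
      obtain ⟨b, hb⟩ := h2
      exact ⟨max a b, add_mem (hmono _ _ (le_max_left _ _) ha) (hmono _ _ (le_max_right _ _) hb)⟩
    | smul c y _ h1 =>
      obtain ⟨a, ha⟩ := h1
      exact ⟨a, Submodule.smul_mem _ _ ha⟩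
  | zero => exact ⟨0, zero_mem _⟩
  | add y z _ _ h1 h2 =>
    obtain ⟨a, ha⟩ := h1
    obtain ⟨b, hb⟩ := h2
    exact ⟨max a b, add_mem (hmono _ _ (le_max_left _ _) ha) (hmono _ _ (le_max_right _ _) hb)⟩

lemma halfGr_r_nil (i : I) (y : HA Q J) : ∃ n, (halfGr_r Q J i)^[n] y = 0 := by
  obtain ⟨n, hn⟩ := halfGr_exists_F Q J y
  refine ⟨n + 1, ?_⟩
  induction n generalizing y with
  | zero =>
    rw [zero_add, Function.iterate_one]
    exact halfGr_r_F0 Q J i hn
  | succ n ih =>
    rw [Function.iterate_succ_apply]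
    exact ih _ (halfGr_r_F' Q J i n hn)

lemma halfGr_r_iter {i : I} (hi : i ∈ J) (y : HA Q J) (m : ℕ) :
    (halfGr_r Q J i)^[m] (y * HA.x Q J i) =
      (Q.qi i ^ 2) ^ m • ((halfGr_r Q J i)^[m] y * HA.x Q J i) +
        (∑ t ∈ Finset.range m, (Q.qi i ^ 2) ^ t) • (halfGr_r Q J i)^[m - 1] y := by
  induction m with
  | zero => simp
  | succ m ih =>
    rw [Function.iterate_succ_apply', ih, map_add, map_smul, map_smul, halfGr_r_mul_x Q J i hi,
      if_pos rfl, halfGr_c_self, Nat.add_sub_cancel, ← Function.iterate_succ_apply'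
        (f := (halfGr_r Q J i)), smul_add, smul_smul, ← pow_succ]
    have e : (∑ t ∈ Finset.range m, (Q.qi i ^ 2) ^ t) •
        halfGr_r Q J i ((halfGr_r Q J i)^[m - 1] y) =
        (∑ t ∈ Finset.range m, (Q.qi i ^ 2) ^ t) • (halfGr_r Q J i)^[m] y := by
      rcases Nat.eq_zero_or_pos m with h | h
      · subst h; simp
      · congr 1
        rw [← Function.iterate_succ_apply' (f := (halfGr_r Q J i)), Nat.succ_eq_add_one,
          Nat.sub_one_add_one h.ne']
    rw [e, Finset.sum_range_succ, add_smul]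
    abel

/-- right multiplication by a generator is injective -/
theorem HA.mul_x_injective {i : I} (hi : i ∈ J) {y : HA Q J} (h : y * HA.x Q J i = 0) : y = 0 := by
  classical
  by_contra hne
  have hex := halfGr_r_nil Q J i y
  set m := Nat.find hex with hm
  have hm0 : (halfGr_r Q J i)^[m] y = 0 := Nat.find_spec hex
  have hmpos : 0 < m := by
    rcases Nat.eq_zero_or_pos m with h0 | h0
    · rw [h0] at hm0
      exact absurd hm0 hne
    · exact h0
  have h1 := halfGr_r_iter Q J hi y m
  rw [h, hm0, zero_mul, smul_zero, zero_add] at h1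
  have h2 : (halfGr_r Q J i)^[m] (0 : HA Q J) = 0 := by
    have : ∀ n : ℕ, (halfGr_r Q J i)^[n] (0 : HA Q J) = 0 := by
      intro n
      induction n with
      | zero => rfl
      | succ n ih => rw [Function.iterate_succ_apply', ih, map_zero]
    exact this m
  rw [h2] at h1
  have h3 : (∑ t ∈ Finset.range m, (Q.qi i ^ 2) ^ t) ≠ 0 := by
    rw [halfGr_geom _ (halfGr_qi_ne Q i) (halfGr_qi_root Q i)]
    exact mul_ne_zero (zpow_ne_zero _ (halfGr_qi_ne Q i))
      (qn_ne_zero _ (halfGr_qi_ne Q i) (halfGr_qi_root Q i) (by exact_mod_cast hmpos.ne'))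
  have h4 : (halfGr_r Q J i)^[m - 1] y = 0 := by
    rcases smul_eq_zero.1 h1.symm with h5 | h5
    · exact absurd h5 h3
    · exact h5
  exact Nat.find_min hex (m := m - 1) (by omega) h4

/-! ### the complement -/

/-- right multiplication by `x_i` -/
def halfGr_R (i : I) : HA Q J →ₗ[k] HA Q J := LinearMap.mulRight k (HA.x Q J i)

lemma halfGr_R_apply (i : I) (y : HA Q J) : halfGr_R Q J i y = y * HA.x Q J i := rfl

lemma halfGr_exists_C (i : I) (ν : I → ℕ) : ∃ C : Submodule k (HA Q J), C ≤ HA.gr Q J ν ∧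
    C ⊔ (LinearMap.range (halfGr_R Q J i) ⊓ HA.gr Q J ν) = HA.gr Q J ν ∧
    Disjoint C (LinearMap.range (halfGr_R Q J i)) := by
  obtain ⟨D, hD⟩ := Submodule.exists_isCompl (LinearMap.range (halfGr_R Q J i) ⊓ HA.gr Q J ν)
  refine ⟨D ⊓ HA.gr Q J ν, inf_le_right, ?_, ?_⟩
  · rw [sup_comm, ← sup_inf_assoc_of_le D inf_le_right, hD.sup_eq_top, top_inf_eq]
  · rw [Submodule.disjoint_def]
    intro y hy hy'
    have h1 := Submodule.disjoint_def.1 hD.disjoint y ⟨hy', hy.2⟩ hy.1
    exact h1

lemma halfGr_pi_range (i : I) (ν : I → ℕ) {y : HA Q J}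
    (hy : y ∈ LinearMap.range (halfGr_R Q J i)) :
    halfGr_pi Q J ν y ∈ LinearMap.range (halfGr_R Q J i) := by
  obtain ⟨z, rfl⟩ := hy
  rw [halfGr_R_apply]
  rcases Nat.eq_zero_or_pos (ν i) with h | h
  · rw [halfGr_pi_mul_x' Q J i h]; exact zero_mem _
  · obtain ⟨μ, hμ⟩ : ∃ μ : I → ℕ, ν = μ + Pi.single i 1 := by
      refine ⟨ν - Pi.single i 1, ?_⟩
      ext l
      by_cases hl : l = i
      · subst hl
        simp
        omega
      · simp [hl]
    rw [hμ, halfGr_pi_mul_x]
    exact ⟨_, rfl⟩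

/-- The half algebra is free as a right module over `HA {i}`, with a graded complement. -/
theorem HA.exists_compl {i : I} (hi : i ∈ J) :
    ∃ N : Submodule k (HA Q J), N = ⨆ ν, N ⊓ HA.gr Q J ν ∧
      Function.Bijective (TensorProduct.lift
        ((LinearMap.mul k (HA Q J)).compl₁₂ N.subtype
          (HA.incl Q (Set.singleton_subset_iff.2 hi)).toLinearMap)) := by
  choose C hC1 hC2 hC3 using halfGr_exists_C Q J i
  set N : Submodule k (HA Q J) := ⨆ ν, C ν with hN
  have hCN : ∀ ν, C ν ≤ N := fun ν => le_iSup C ν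
  have hpiN : ∀ (ν : I → ℕ) (y : HA Q J), y ∈ N → halfGr_pi Q J ν y ∈ C ν := by
    intro ν y hy
    rw [hN] at hy
    induction hy using Submodule.iSup_induction' with
    | mem μ y hy =>
      rw [halfGr_pi_gr Q J ν (hC1 μ hy)]
      split_ifs with h
      · rwa [← h]
      · exact zero_mem _
    | zero => rw [map_zero]; exact zero_mem _
    | add y z _ _ h1 h2 => rw [map_add]; exact add_mem h1 h2
  have hdisj : ∀ y ∈ N, y ∈ LinearMap.range (halfGr_R Q J i) → y = 0 := by
    intro y hy hy'
    apply halfGr_eq_zero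
    intro ν
    exact Submodule.disjoint_def.1 (hC3 ν) _ (hpiN ν y hy) (halfGr_pi_range Q J i ν hy')
  refine ⟨N, ?_, ?_⟩
  · apply le_antisymm
    · rw [hN]
      refine iSup_le fun ν => ?_
      exact le_iSup_of_le ν (le_inf (hCN ν) (hC1 ν))
    · exact iSup_le fun ν => inf_le_left
  set ι := HA.incl Q (Set.singleton_subset_iff.2 hi) with hι
  have hιx : ι (HA.x Q {i} i) = HA.x Q J i := by
    rw [hι]
    unfold HA.incl
    rw [HA.lift_x, if_pos (Set.mem_singleton i)]
  set L := TensorProduct.lift ((LinearMap.mul k (HA Q J)).compl₁₂ N.subtype ι.toLinearMap) with hL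
  have hLt : ∀ (n : N) (h : HA Q {i}), L (n ⊗ₜ[k] h) = (n : HA Q J) * ι h := fun n h => rfl
  constructor
  · -- injective
    obtain ⟨b, hb⟩ := HA.single_basis Q i
    have hpeel : ∀ (M : ℕ) (f : ℕ → N), ∑ n ∈ Finset.range M, (f n : HA Q J) * HA.x Q J i ^ n = 0 →
        ∀ n < M, f n = 0 := by
      intro M
      induction M with
      | zero => intro f _ n hn; omega
      | succ M ih =>
        intro f hf n hn
        rw [Finset.sum_range_succ', pow_zero, mul_one] at hf
        have h1 : ∑ n ∈ Finset.range M, (f (n + 1) : HA Q J) * HA.x Q J i ^ (n + 1) =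
            (∑ n ∈ Finset.range M, (f (n + 1) : HA Q J) * HA.x Q J i ^ n) * HA.x Q J i := by
          rw [Finset.sum_mul]
          exact Finset.sum_congr rfl fun n _ => by rw [pow_succ, mul_assoc]
        rw [h1] at hf
        have h2 : (f 0 : HA Q J) = 0 := by
          refine hdisj _ (f 0).2 ⟨-(∑ n ∈ Finset.range M, (f (n + 1) : HA Q J) * HA.x Q J i ^ n), ?_⟩
          rw [halfGr_R_apply, neg_mul]
          exact (eq_neg_of_add_eq_zero_right hf).symm
        rw [h2, add_zero] at hf
        have h3 := ih (fun n => f (n + 1)) (HA.mul_x_injective Q J hi hf)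
        rcases Nat.eq_zero_or_pos n with h0 | h0
        · subst h0
          exact Subtype.ext h2
        · have := h3 (n - 1) (by omega)
          rwa [Nat.sub_one_add_one h0.ne'] at this
    rw [injective_iff_map_eq_zero]
    intro t ht
    set e := TensorProduct.equivFinsuppOfBasisRight (M := N) b with he
    obtain ⟨f, rfl⟩ : ∃ f : ℕ →₀ N, t = e.symm f := ⟨e t, (e.symm_apply_apply t).symm⟩
    have h1 : ∀ f : ℕ →₀ N, L (e.symm f) = f.sum fun n m => (m : HA Q J) * HA.x Q J i ^ n := by
      intro f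
      induction f using Finsupp.induction_linear with
      | zero => simp
      | add f g hf hg =>
        rw [map_add, map_add, hf, hg, Finsupp.sum_add_index' (by simp) (by simp [add_mul])]
      | single n m =>
        have h2 : e.symm (Finsupp.single n m) = m ⊗ₜ[k] b n := by
          rw [he, TensorProduct.equivFinsuppOfBasisRight_symm_apply, Finsupp.sum_single_index]
          exact TensorProduct.zero_tmul _ _
        rw [h2, hLt, hb, map_pow, hιx, Finsupp.sum_single_index]
        simp
    rw [h1] at ht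
    obtain ⟨M, hM⟩ : ∃ M : ℕ, f.support ⊆ Finset.range M := by
      obtain ⟨M, hM⟩ := f.support.exists_nat_subset_range
      exact ⟨M, hM⟩
    rw [Finsupp.sum_of_support_subset f hM _ (by simp)] at ht
    have h3 := hpeel M f ht
    have h4 : f = 0 := by
      ext n
      by_cases hn : n < M
      · rw [h3 n hn]; rfl
      · have : n ∉ f.support := fun h => hn (Finset.mem_range.1 (hM h))
        rw [Finsupp.notMem_support_iff.1 this]; rfl
    rw [h4, map_zero]
  · -- surjective
    have hmul : ∀ y ∈ LinearMap.range L, y * HA.x Q J i ∈ LinearMap.range L := by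
      rintro _ ⟨t, rfl⟩
      induction t using TensorProduct.induction_on with
      | zero => rw [map_zero, zero_mul]; exact zero_mem _
      | tmul n h =>
        refine ⟨n ⊗ₜ[k] (h * HA.x Q {i} i), ?_⟩
        rw [hLt, hLt, map_mul, hιx, mul_assoc]
      | add a b ha hb => rw [map_add, add_mul]; exact add_mem ha hb
    have hNL : ∀ y ∈ N, y ∈ LinearMap.range L := by
      intro y hy
      refine ⟨(⟨y, hy⟩ : N) ⊗ₜ[k] 1, ?_⟩
      rw [hLt, map_one, mul_one]
    have hdeg : ∀ (d : ℕ) (ν : I → ℕ), ∑ l, ν l = d → HA.gr Q J ν ≤ LinearMap.range L := by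
      intro d
      induction d with
      | zero =>
        intro ν hν y hy
        have hν0 : ν = 0 := by
          ext l
          exact Finset.sum_eq_zero_iff.1 hν l (Finset.mem_univ l)
        rw [← hC2 ν] at hy
        obtain ⟨c, hc, z, ⟨hz1, hz2⟩, rfl⟩ := Submodule.mem_sup.1 hy
        refine add_mem (hNL _ (hCN ν hc)) ?_
        obtain ⟨u, hu⟩ := hz1
        rw [halfGr_R_apply] at hu
        have h1 := halfGr_pi_gr Q J ν hz2
        rw [if_pos rfl, ← hu, halfGr_pi_mul_x' Q J i (by rw [hν0]; rfl)] at h1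
        rw [← hu, ← h1]
        exact zero_mem _
      | succ d ih =>
        intro ν hν y hy
        rw [← hC2 ν] at hy
        obtain ⟨c, hc, z, ⟨hz1, hz2⟩, rfl⟩ := Submodule.mem_sup.1 hy
        refine add_mem (hNL _ (hCN ν hc)) ?_
        obtain ⟨u, hu⟩ := hz1
        rw [halfGr_R_apply] at hu
        have h1 := halfGr_pi_gr Q J ν hz2
        rw [if_pos rfl, ← hu] at h1
        rcases Nat.eq_zero_or_pos (ν i) with h | h
        · rw [halfGr_pi_mul_x' Q J i h] at h1
          rw [← hu, ← h1]
          exact zero_mem _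
        · obtain ⟨μ, hμ⟩ : ∃ μ : I → ℕ, ν = μ + Pi.single i 1 := by
            refine ⟨ν - Pi.single i 1, ?_⟩
            ext l
            by_cases hl : l = i
            · subst hl
              simp
              omega
            · simp [hl]
          rw [hμ, halfGr_pi_mul_x] at h1
          rw [← hu, ← h1]
          apply hmul
          refine ih μ ?_ (halfGr_pi_mem Q J μ u)
          rw [hμ] at hν
          simp only [Pi.add_apply, Finset.sum_add_distrib] at hν
          have h2 : ∑ l, (Pi.single i 1 : I → ℕ) l = 1 := by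
            rw [Finset.sum_eq_single i]
            · simp
            · intro l _ hl; simp [hl]
            · intro h; exact absurd (Finset.mem_univ i) h
          omega
    intro y
    have hy : y ∈ ⨆ ν, HA.gr Q J ν := by rw [HA.gr_iSup]; trivial
    exact (iSup_le fun ν => hdeg _ ν rfl : (⨆ ν, HA.gr Q J ν) ≤ LinearMap.range L) hy

end Pool.Agent.Lib.QG
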