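import Pool.Agent.Lib.MP_021f05_al.IndDef

/-!
# MP_021f05_al: the subalgebras, characters, twists (definitions)
-/

noncomputable section

namespace Pool.Agent.Lib.QG

open MvPolynomial

variable {k : Type} [Field k] {I : Type}

/-- restriction of modules along an algebra map which need not respect the torus data -/
def Mod.resA {T' T : TAlg k I} (f : T'.A →ₐ[k] T.A) (M : Mod T) : Mod T' :=
  letI : Module T'.A M.X := Module.compHom M.X f.toRingHom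
  { X := M.X
    tower := ⟨fun t a x => by
      show f (t • a) • (show M.X from x) = t • f a • (show M.X from x)
      rw [map_smul, smul_assoc]⟩ }

lemma Mod.resA_smul {T' T : TAlg k I} (f : T'.A →ₐ[k] T.A) (M : Mod T) (a : T'.A)
    (x : (M.resA f).X) :
    a • x = (show (M.resA f).X from (f a • (show M.X from x) : M.X)) := rfl

/-- restriction of linear maps -/
def resAMap {T' T : TAlg k I} (f : T'.A →ₐ[k] T.A) {M N : Mod T} (g : M.X →ₗ[T.A] N.X) :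
    (M.resA f).X →ₗ[T'.A] (N.resA f).X where
  toFun := g
  map_add' := map_add g
  map_smul' a x := map_smul g (f a) _

variable [Fintype I] [DecidableEq I] (Q : QD k I)

/-- `U = 𝔸(I, I)` -/
abbrev QD.U : TAlg k I := Q.T Set.univ Set.univ
/-- `B = 𝔸(I, ∅)` -/
abbrev QD.B : TAlg k I := Q.T Set.univ ∅
/-- `P_i = 𝔸(I, i)` -/
abbrev QD.P (i : I) : TAlg k I := Q.T Set.univ {i}
/-- `A_i = 𝔸(i, i)` -/
abbrev QD.Ai (i : I) : TAlg k I := Q.T {i} {i}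
/-- `B_i = 𝔸(i, ∅)` -/
abbrev QD.Bi (i : I) : TAlg k I := Q.T {i} ∅
/-- `U⁰ = 𝔸(∅, ∅)` -/
abbrev QD.U0 : TAlg k I := Q.T ∅ ∅
/-- `B⁻ = 𝔸(∅, I)` -/
abbrev QD.Bm : TAlg k I := Q.T ∅ Set.univ

/-- the twist of `𝔸(Jp, ∅)` by the character `χ_μ`: `K_i ↦ χ_μ(i) K_i`, `E_i ↦ E_i` -/
def QD.twE (Jp : Set I) (μ : I → ℤ) : QElts Q Jp ∅ (QA Q Jp ∅) where
  E := (QA.elts Q Jp ∅).E
  F := (QA.elts Q Jp ∅).F
  K i := Q.χ μ i • (QA.elts Q Jp ∅).K i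
  L i := (Q.χ μ i)⁻¹ • (QA.elts Q Jp ∅).L i
  KL i := by
    rw [smul_mul_smul_comm, (QA.elts Q Jp ∅).KL, mul_inv_cancel₀ (QD.χ_ne μ i), one_smul]
  LK i := by
    rw [smul_mul_smul_comm, (QA.elts Q Jp ∅).LK, inv_mul_cancel₀ (QD.χ_ne μ i), one_smul]
  KK i j := by
    rw [smul_mul_smul_comm, smul_mul_smul_comm, (QA.elts Q Jp ∅).KK, mul_comm (Q.χ μ i)]
  KE i j := by
    rw [smul_mul_assoc, (QA.elts Q Jp ∅).KE, mul_smul_comm, smul_comm]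
  KF i j := by
    rw [smul_mul_assoc, (QA.elts Q Jp ∅).KF, mul_smul_comm, smul_comm]
  EF i j _ hj := absurd hj (Set.notMem_empty j)
  E0 := (QA.elts Q Jp ∅).E0
  F0 := (QA.elts Q Jp ∅).F0
  SE := (QA.elts Q Jp ∅).SE
  SF := (QA.elts Q Jp ∅).SF

/-- the twist as an algebra map -/
def QD.twA (Jp : Set I) (μ : I → ℤ) : (Q.T Jp ∅).A →ₐ[k] (Q.T Jp ∅).A := (Q.twE Jp μ).lift

variable {Q}

/-- the twist `M⟨μ⟩ = M ⊗ k_μ` of a module over `𝔸(Jp, ∅)` -/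
def Mod.tw {Jp : Set I} (M : Mod (Q.T Jp ∅)) (μ : I → ℤ) : Mod (Q.T Jp ∅) :=
  M.resA (Q.twA Jp μ)

/-- twist of linear maps -/
def twMap {Jp : Set I} {M N : Mod (Q.T Jp ∅)} (μ : I → ℤ) (f : M.X →ₗ[(Q.T Jp ∅).A] N.X) :
    (M.tw μ).X →ₗ[(Q.T Jp ∅).A] (N.tw μ).X := resAMap (Q.twA Jp μ) f

/-- elements of `M` as elements of `M⟨μ⟩` -/
def twx {Jp : Set I} {M : Mod (Q.T Jp ∅)} (μ : I → ℤ) (x : M.X) : (M.tw μ).X := x

lemma twx_add {Jp : Set I} {M : Mod (Q.T Jp ∅)} (μ : I → ℤ) (x y : M.X) :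
    twx μ (x + y) = twx μ x + twx μ y := rfl

lemma twx_smulk {Jp : Set I} {M : Mod (Q.T Jp ∅)} (μ : I → ℤ) (t : k) (x : M.X) :
    twx μ (t • x) = t • twx μ x := rfl

lemma twx_bijective {Jp : Set I} {M : Mod (Q.T Jp ∅)} (μ : I → ℤ) :
    Function.Bijective (twx μ : M.X → (M.tw μ).X) := Function.bijective_id

lemma twMap_twx {Jp : Set I} {M N : Mod (Q.T Jp ∅)} (μ : I → ℤ)
    (f : M.X →ₗ[(Q.T Jp ∅).A] N.X) (x : M.X) : twMap μ f (twx μ x) = twx μ (f x) := rfl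

lemma tw_K {Jp : Set I} (M : Mod (Q.T Jp ∅)) (μ : I → ℤ) (i : I) (x : M.X) :
    ((Q.T Jp ∅).K i : (Q.T Jp ∅).A) • twx μ x
      = twx μ (Q.χ μ i • (((Q.T Jp ∅).K i : (Q.T Jp ∅).A) • x)) := by
  have h : Q.twA Jp μ ((Q.T Jp ∅).K i : (Q.T Jp ∅).A)
      = Q.χ μ i • ((Q.T Jp ∅).K i : (Q.T Jp ∅).A) := (Q.twE Jp μ).lift_K i
  refine (Mod.resA_smul (Q.twA Jp μ) M _ _).trans ?_
  rw [h]
  exact smul_assoc (Q.χ μ i) ((Q.T Jp ∅).K i : (Q.T Jp ∅).A) x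

lemma tw_E {Jp : Set I} (M : Mod (Q.T Jp ∅)) (μ : I → ℤ) (i : I) (x : M.X) :
    Q.gE Jp ∅ i • twx μ x = twx μ (Q.gE Jp ∅ i • x) := by
  have h : Q.twA Jp μ (Q.gE Jp ∅ i) = Q.gE Jp ∅ i := (Q.twE Jp μ).lift_E i
  refine (Mod.resA_smul (Q.twA Jp μ) M _ _).trans ?_
  rw [h]
  rfl

variable (Q)

/-- the one-dimensional module `k_μ` over `𝔸(Jp, ∅)` -/
def QD.km (Jp : Set I) (μ : I → ℤ) : Mod (Q.T Jp ∅) := (triv (Q.T Jp ∅)).tw μ

/-- the generator of `k_μ` -/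
def QD.kv (Jp : Set I) (μ : I → ℤ) : (Q.km Jp μ).X := vt (Q.T Jp ∅) 1

/-- the Verma module `𝔸(I, Jm) ⊗_B k_μ` -/
def QD.V (Jm : Set I) (μ : I → ℤ) : Mod (Q.T Set.univ Jm) :=
  (Q.km Set.univ μ).ind (Q.inc (Set.Subset.refl _) (Set.empty_subset Jm))

/-- the generator of the Verma module -/
def QD.vv (Jm : Set I) (μ : I → ℤ) : (Q.V Jm μ).X :=
  indT (Q.inc (Set.Subset.refl _) (Set.empty_subset Jm)) (Q.km Set.univ μ) 1 (Q.kv Set.univ μ)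

/-- the data with `q` replaced by `q⁻¹` -/
def QD.bar : QD k I where
  toCDatum := Q.toCDatum
  q := Q.q⁻¹
  q_ne := inv_ne_zero Q.q_ne
  q_root n hn := by rw [inv_pow]; exact fun h => Q.q_root n hn (inv_eq_one.1 h)

end Pool.Agent.Lib.QG
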