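import Pool.Agent.Lib.MP_021f05_al.HalfInd

/-!
# MP_021f05_al (A4): triangular decomposition
-/

noncomputable section

namespace Pool.Agent.Lib.QG

open scoped TensorProduct

variable {k : Type} [Field k] {I : Type} [Fintype I] [DecidableEq I]

section aux
variable (Q : QD k I) (Jp Jm : Set I)

private lemma td_om_E (i : I) :
    QA.om Q Jp Jm ((QA.elts Q Jp Jm).E i) = (QA.elts Q Jm Jp).F i :=
  (QA.elts Q Jm Jp).flip.lift_E i

private lemma td_om_F (i : I) :
    QA.om Q Jp Jm ((QA.elts Q Jp Jm).F i) = (QA.elts Q Jm Jp).E i :=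
  (QA.elts Q Jm Jp).flip.lift_F i

private lemma td_om_K (i : I) :
    QA.om Q Jp Jm ((QA.elts Q Jp Jm).K i) = (QA.elts Q Jm Jp).L i :=
  (QA.elts Q Jm Jp).flip.lift_K i

private lemma td_om_L (i : I) :
    QA.om Q Jp Jm ((QA.elts Q Jp Jm).L i) = (QA.elts Q Jm Jp).K i :=
  (QA.elts Q Jm Jp).flip.lift_L i

/-- inclusions on the generators -/
private lemma td_incl_E {Jp' Jm' : Set I} (hp : Jp ⊆ Jp') (hm : Jm ⊆ Jm') {i : I} (hi : i ∈ Jp) :
    QA.incl Q hp hm ((QA.elts Q Jp Jm).E i) = (QA.elts Q Jp' Jm').E i := by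
  classical
  refine ((QElts.restrict Q hp hm).lift_E i).trans ?_
  exact if_pos hi

private lemma td_incl_F {Jp' Jm' : Set I} (hp : Jp ⊆ Jp') (hm : Jm ⊆ Jm') {i : I} (hi : i ∈ Jm) :
    QA.incl Q hp hm ((QA.elts Q Jp Jm).F i) = (QA.elts Q Jp' Jm').F i := by
  classical
  refine ((QElts.restrict Q hp hm).lift_F i).trans ?_
  exact if_pos hi

private lemma td_incl_K {Jp' Jm' : Set I} (hp : Jp ⊆ Jp') (hm : Jm ⊆ Jm') (i : I) :
    QA.incl Q hp hm ((QA.elts Q Jp Jm).K i) = (QA.elts Q Jp' Jm').K i :=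
  (QElts.restrict Q hp hm).lift_K i

private lemma td_incl_L {Jp' Jm' : Set I} (hp : Jp ⊆ Jp') (hm : Jm ⊆ Jm') (i : I) :
    QA.incl Q hp hm ((QA.elts Q Jp Jm).L i) = (QA.elts Q Jp' Jm').L i :=
  (QElts.restrict Q hp hm).lift_L i

end aux

/-- the involution is an involution -/
theorem QA.om_om (Q : QD k I) (Jp Jm : Set I) (x : QA Q Jp Jm) :
    QA.om Q Jm Jp (QA.om Q Jp Jm x) = x := by
  have h : (QA.om Q Jm Jp).comp (QA.om Q Jp Jm) = AlgHom.id k (QA Q Jp Jm) := by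
    refine QA.hom_ext (fun i => ?_) (fun i => ?_) (fun i => ?_)
    · rw [AlgHom.comp_apply, td_om_E, td_om_F, AlgHom.id_apply]
    · rw [AlgHom.comp_apply, td_om_F, td_om_E, AlgHom.id_apply]
    · rw [AlgHom.comp_apply, td_om_K, td_om_L, AlgHom.id_apply]
  exact congrArg (fun f : QA Q Jp Jm →ₐ[k] QA Q Jp Jm => f x) h

/-- `HA(Jm) ⊗ 𝔸(Jp, ∅) → 𝔸(Jp, Jm)`, `y ⊗ b ↦ y b` -/
def tdm (Q : QD k I) (Jp Jm : Set I) : HA Q Jm ⊗[k] QA Q Jp ∅ →ₗ[k] QA Q Jp Jm :=
  TensorProduct.lift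
    ((LinearMap.mul k (QA Q Jp Jm)).compl₁₂ (HA.um Q Jp Jm).toLinearMap
      (QA.incl Q (le_refl Jp) (Set.empty_subset Jm)).toLinearMap)

lemma tdm_tmul (Q : QD k I) (Jp Jm : Set I) (y : HA Q Jm) (b : QA Q Jp ∅) :
    tdm Q Jp Jm (y ⊗ₜ b)
      = HA.um Q Jp Jm y * QA.incl Q (le_refl Jp) (Set.empty_subset Jm) b := rfl

/-- `HA(Jp) ⊗ 𝔸(∅, Jm) → 𝔸(Jp, Jm)`, `x ⊗ b ↦ x b` -/
def tdp (Q : QD k I) (Jp Jm : Set I) : HA Q Jp ⊗[k] QA Q ∅ Jm →ₗ[k] QA Q Jp Jm :=
  TensorProduct.lift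
    ((LinearMap.mul k (QA Q Jp Jm)).compl₁₂ (HA.up Q Jp Jm).toLinearMap
      (QA.incl Q (Set.empty_subset Jp) (le_refl Jm)).toLinearMap)

lemma tdp_tmul (Q : QD k I) (Jp Jm : Set I) (x : HA Q Jp) (b : QA Q ∅ Jm) :
    tdp Q Jp Jm (x ⊗ₜ b)
      = HA.up Q Jp Jm x * QA.incl Q (Set.empty_subset Jp) (le_refl Jm) b := rfl

/-- the action of the `E` part on `1 ⊗ w` -/
private lemma td_act_incl (Q : QD k I) (Jp Jm : Set I)
    (ρ : QA Q Jp Jm →ₐ[k] Module.End k (HA Q Jm ⊗[k] QA Q Jp ∅))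
    (hE : ∀ j w, ρ ((QA.elts Q Jp Jm).E j) (1 ⊗ₜ w) = 1 ⊗ₜ ((QA.elts Q Jp ∅).E j * w))
    (hK : ∀ j w, ρ ((QA.elts Q Jp Jm).K j) (1 ⊗ₜ w) = 1 ⊗ₜ ((QA.elts Q Jp ∅).K j * w))
    (hL : ∀ j w, ρ ((QA.elts Q Jp Jm).L j) (1 ⊗ₜ w) = 1 ⊗ₜ ((QA.elts Q Jp ∅).L j * w))
    (b : QA Q Jp ∅) : ∀ w : QA Q Jp ∅,
    ρ (QA.incl Q (le_refl Jp) (Set.empty_subset Jm) b) (1 ⊗ₜ w) = 1 ⊗ₜ (b * w) := by
  induction b using QA.induction with
  | hs t =>
    intro w
    rw [AlgHom.commutes, AlgHom.commutes, Module.algebraMap_end_apply, ← TensorProduct.tmul_smul,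
      Algebra.smul_def]
  | hE i =>
    intro w
    by_cases hi : i ∈ Jp
    · rw [td_incl_E Q Jp ∅ (le_refl Jp) (Set.empty_subset Jm) hi, hE]
    · rw [(QA.elts Q Jp ∅).E0 i hi, map_zero, map_zero, LinearMap.zero_apply, zero_mul,
        TensorProduct.tmul_zero]
  | hF i =>
    intro w
    rw [(QA.elts Q Jp ∅).F0 i (fun h => h), map_zero, map_zero, LinearMap.zero_apply, zero_mul,
      TensorProduct.tmul_zero]
  | hK i =>
    intro w
    rw [td_incl_K, hK]
  | hL i =>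
    intro w
    rw [td_incl_L, hL]
  | hadd x y hx hy =>
    intro w
    rw [map_add, map_add, LinearMap.add_apply, hx, hy, add_mul, TensorProduct.tmul_add]
  | hmul x y hx hy =>
    intro w
    rw [map_mul, map_mul, Module.End.mul_apply, hy, hx, mul_assoc]

/-- the action of the `F` part -/
private lemma td_act_um (Q : QD k I) (Jp Jm : Set I) (W : Type) [AddCommGroup W] [Module k W]
    (ρ : QA Q Jp Jm →ₐ[k] Module.End k (HA Q Jm ⊗[k] W))
    (hF : ∀ j y w, ρ ((QA.elts Q Jp Jm).F j) (y ⊗ₜ w) = (HA.x Q Jm j * y) ⊗ₜ w)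
    (y : HA Q Jm) : ∀ (z : HA Q Jm) (w : W),
    ρ (HA.um Q Jp Jm y) (z ⊗ₜ w) = (y * z) ⊗ₜ w := by
  induction y using HA.induction with
  | hs t =>
    intro z w
    rw [AlgHom.commutes, AlgHom.commutes, Module.algebraMap_end_apply, ← Algebra.smul_def,
      TensorProduct.smul_tmul']
  | hx i =>
    intro z w
    rw [HA.um_x, hF]
  | hadd x y hx hy =>
    intro z w
    rw [map_add, map_add, LinearMap.add_apply, hx, hy, add_mul, TensorProduct.add_tmul]
  | hmul x y hx hy =>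
    intro z w
    rw [map_mul, map_mul, Module.End.mul_apply, hy, hx, mul_assoc]

private lemma td_K_um (Q : QD k I) (Jp Jm : Set I) (j : I) (y : HA Q Jm) :
    ∃ y', (QA.elts Q Jp Jm).K j * HA.um Q Jp Jm y = HA.um Q Jp Jm y' * (QA.elts Q Jp Jm).K j := by
  induction y using HA.induction with
  | hs t => exact ⟨algebraMap k _ t, by rw [AlgHom.commutes, Algebra.commutes]⟩
  | hx i =>
    refine ⟨Q.q ^ (-((Q.d j : ℤ) * Q.a j i)) • HA.x Q Jm i, ?_⟩
    rw [map_smul, HA.um_x, (QA.elts Q Jp Jm).KF, smul_mul_assoc]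
  | hadd x y hx hy =>
    obtain ⟨x', hx'⟩ := hx
    obtain ⟨y', hy'⟩ := hy
    exact ⟨x' + y', by rw [map_add, map_add, mul_add, add_mul, hx', hy']⟩
  | hmul x y hx hy =>
    obtain ⟨x', hx'⟩ := hx
    obtain ⟨y', hy'⟩ := hy
    exact ⟨x' * y', by rw [map_mul, map_mul, ← mul_assoc, hx', mul_assoc, hy', mul_assoc]⟩

private lemma td_L_um (Q : QD k I) (Jp Jm : Set I) (j : I) (y : HA Q Jm) :
    ∃ y', (QA.elts Q Jp Jm).L j * HA.um Q Jp Jm y = HA.um Q Jp Jm y' * (QA.elts Q Jp Jm).L j := by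
  induction y using HA.induction with
  | hs t => exact ⟨algebraMap k _ t, by rw [AlgHom.commutes, Algebra.commutes]⟩
  | hx i =>
    refine ⟨Q.q ^ ((Q.d j : ℤ) * Q.a j i) • HA.x Q Jm i, ?_⟩
    rw [map_smul, HA.um_x, smul_mul_assoc]
    exact (QA.elts Q Jp Jm).pre.LF j i
  | hadd x y hx hy =>
    obtain ⟨x', hx'⟩ := hx
    obtain ⟨y', hy'⟩ := hy
    exact ⟨x' + y', by rw [map_add, map_add, mul_add, add_mul, hx', hy']⟩
  | hmul x y hx hy =>
    obtain ⟨x', hx'⟩ := hx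
    obtain ⟨y', hy'⟩ := hy
    exact ⟨x' * y', by rw [map_mul, map_mul, ← mul_assoc, hx', mul_assoc, hy', mul_assoc]⟩

private lemma td_E_um (Q : QD k I) (Jp Jm : Set I) {j : I} (hj : j ∈ Jp) (y : HA Q Jm) :
    ∃ y1 y2, (QA.elts Q Jp Jm).E j * HA.um Q Jp Jm y =
      HA.um Q Jp Jm y * (QA.elts Q Jp Jm).E j + HA.um Q Jp Jm y1 * (QA.elts Q Jp Jm).K j +
        HA.um Q Jp Jm y2 * (QA.elts Q Jp Jm).L j := by
  induction y using HA.induction with
  | hs t =>
    refine ⟨0, 0, ?_⟩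
    rw [AlgHom.commutes, map_zero, zero_mul, zero_mul, add_zero, add_zero, Algebra.commutes]
  | hx i =>
    by_cases hi : i ∈ Jm
    · by_cases hji : j = i
      · refine ⟨algebraMap k _ (Q.qi j - (Q.qi j)⁻¹)⁻¹, algebraMap k _ (-(Q.qi j - (Q.qi j)⁻¹)⁻¹), ?_⟩
        rw [HA.um_x, (QA.elts Q Jp Jm).EF j i hj hi, if_pos hji, AlgHom.commutes, AlgHom.commutes,
          ← Algebra.smul_def, ← Algebra.smul_def, smul_sub, neg_smul, add_assoc, sub_eq_add_neg]
      · refine ⟨0, 0, ?_⟩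
        rw [HA.um_x, (QA.elts Q Jp Jm).EF j i hj hi, if_neg hji, map_zero, zero_mul, zero_mul,
          add_zero, add_zero]
    · refine ⟨0, 0, ?_⟩
      rw [HA.um_x, (QA.elts Q Jp Jm).F0 i hi, map_zero, zero_mul, zero_mul, zero_mul, mul_zero,
        add_zero, add_zero]
  | hadd x y hx hy =>
    obtain ⟨x1, x2, hx'⟩ := hx
    obtain ⟨y1, y2, hy'⟩ := hy
    refine ⟨x1 + y1, x2 + y2, ?_⟩
    rw [map_add, map_add, map_add, mul_add, hx', hy', add_mul, add_mul, add_mul]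
    abel
  | hmul x y hx hy =>
    obtain ⟨x1, x2, hx'⟩ := hx
    obtain ⟨y1, y2, hy'⟩ := hy
    obtain ⟨z1, hz1⟩ := td_K_um Q Jp Jm j y
    obtain ⟨z2, hz2⟩ := td_L_um Q Jp Jm j y
    refine ⟨x * y1 + x1 * z1, x * y2 + x2 * z2, ?_⟩
    calc (QA.elts Q Jp Jm).E j * HA.um Q Jp Jm (x * y)
        = ((QA.elts Q Jp Jm).E j * HA.um Q Jp Jm x) * HA.um Q Jp Jm y := by
          rw [map_mul, mul_assoc]
      _ = HA.um Q Jp Jm x * ((QA.elts Q Jp Jm).E j * HA.um Q Jp Jm y) +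
          HA.um Q Jp Jm x1 * ((QA.elts Q Jp Jm).K j * HA.um Q Jp Jm y) +
          HA.um Q Jp Jm x2 * ((QA.elts Q Jp Jm).L j * HA.um Q Jp Jm y) := by
          rw [hx', add_mul, add_mul, mul_assoc, mul_assoc, mul_assoc]
      _ = _ := by
          rw [hy', hz1, hz2, map_add, map_add, map_mul, map_mul, map_mul, map_mul, map_mul,
            mul_add, mul_add, add_mul, add_mul]
          simp only [mul_assoc]
          abel

/-- triangular decomposition, `F` first -/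
theorem tdm_bijective (Q : QD k I) (Jp Jm : Set I) : Function.Bijective (tdm Q Jp Jm) := by
  constructor
  · obtain ⟨ρ, hF, hE, hK, hL⟩ := exists_ind Q Jp Jm (QA Q Jp ∅)
    have key : ∀ t, ρ (tdm Q Jp Jm t) (1 ⊗ₜ 1) = t := by
      intro t
      induction t using TensorProduct.induction_on with
      | zero => rw [map_zero, map_zero, LinearMap.zero_apply]
      | tmul y b =>
        rw [tdm_tmul, map_mul, Module.End.mul_apply, td_act_incl Q Jp Jm ρ hE hK hL, mul_one,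
          td_act_um Q Jp Jm (QA Q Jp ∅) ρ hF, mul_one]
      | add x y hx hy => rw [map_add, map_add, LinearMap.add_apply, hx, hy]
    intro s t hst
    rw [← key s, ← key t, hst]
  · -- the range is a left ideal containing one
    have hmem : ∀ y b, HA.um Q Jp Jm y * QA.incl Q (le_refl Jp) (Set.empty_subset Jm) b ∈
        LinearMap.range (tdm Q Jp Jm) := fun y b => ⟨y ⊗ₜ b, tdm_tmul Q Jp Jm y b⟩
    -- stability under left multiplication follows from pure tensors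
    have hst : ∀ u : QA Q Jp Jm, (∀ y b, u * (HA.um Q Jp Jm y *
        QA.incl Q (le_refl Jp) (Set.empty_subset Jm) b) ∈ LinearMap.range (tdm Q Jp Jm)) →
        ∀ v ∈ LinearMap.range (tdm Q Jp Jm), u * v ∈ LinearMap.range (tdm Q Jp Jm) := by
      rintro u hu _ ⟨t, rfl⟩
      induction t using TensorProduct.induction_on with
      | zero => rw [map_zero, mul_zero]; exact Submodule.zero_mem _
      | tmul y b => rw [tdm_tmul]; exact hu y b
      | add x y hx hy => rw [map_add, mul_add]; exact Submodule.add_mem _ hx hy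
    have hKr : ∀ (j : I), ∀ v ∈ LinearMap.range (tdm Q Jp Jm),
        (QA.elts Q Jp Jm).K j * v ∈ LinearMap.range (tdm Q Jp Jm) := by
      intro j
      refine hst _ fun y b => ?_
      obtain ⟨y', hy'⟩ := td_K_um Q Jp Jm j y
      rw [← mul_assoc, hy', mul_assoc, ← td_incl_K Q Jp ∅ (le_refl Jp) (Set.empty_subset Jm) j,
        ← map_mul]
      exact hmem _ _
    have hLr : ∀ (j : I), ∀ v ∈ LinearMap.range (tdm Q Jp Jm),
        (QA.elts Q Jp Jm).L j * v ∈ LinearMap.range (tdm Q Jp Jm) := by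
      intro j
      refine hst _ fun y b => ?_
      obtain ⟨y', hy'⟩ := td_L_um Q Jp Jm j y
      rw [← mul_assoc, hy', mul_assoc, ← td_incl_L Q Jp ∅ (le_refl Jp) (Set.empty_subset Jm) j,
        ← map_mul]
      exact hmem _ _
    have hall : ∀ x : QA Q Jp Jm, ∀ v ∈ LinearMap.range (tdm Q Jp Jm),
        x * v ∈ LinearMap.range (tdm Q Jp Jm) := by
      intro x
      induction x using QA.induction with
      | hs t =>
        intro v hv
        rw [← Algebra.smul_def]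
        exact Submodule.smul_mem _ _ hv
      | hE i =>
        by_cases hi : i ∈ Jp
        · refine hst _ fun y b => ?_
          obtain ⟨y1, y2, h⟩ := td_E_um Q Jp Jm hi y
          rw [← mul_assoc, h, add_mul, add_mul, mul_assoc, mul_assoc, mul_assoc,
            ← td_incl_E Q Jp ∅ (le_refl Jp) (Set.empty_subset Jm) hi,
            ← td_incl_K Q Jp ∅ (le_refl Jp) (Set.empty_subset Jm) i,
            ← td_incl_L Q Jp ∅ (le_refl Jp) (Set.empty_subset Jm) i,
            ← map_mul, ← map_mul, ← map_mul]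
          exact Submodule.add_mem _ (Submodule.add_mem _ (hmem _ _) (hmem _ _)) (hmem _ _)
        · intro v _
          rw [(QA.elts Q Jp Jm).E0 i hi, zero_mul]
          exact Submodule.zero_mem _
      | hF i =>
        refine hst _ fun y b => ?_
        rw [← mul_assoc, ← HA.um_x, ← map_mul]
        exact hmem _ _
      | hK i => exact hKr i
      | hL i => exact hLr i
      | hadd x y hx hy =>
        intro v hv
        rw [add_mul]
        exact Submodule.add_mem _ (hx v hv) (hy v hv)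
      | hmul x y hx hy =>
        intro v hv
        rw [mul_assoc]
        exact hx _ (hy v hv)
    intro x
    have h1 := hmem 1 1
    rw [map_one, map_one, one_mul] at h1
    have h2 := hall x 1 h1
    rw [mul_one] at h2
    exact h2

/-- the involution as a linear equivalence -/
private def td_omE (Q : QD k I) (Jp Jm : Set I) : QA Q Jp Jm ≃ₗ[k] QA Q Jm Jp where
  __ := (QA.om Q Jp Jm).toLinearMap
  invFun := QA.om Q Jm Jp
  left_inv := QA.om_om Q Jp Jm
  right_inv := QA.om_om Q Jm Jp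

private lemma td_omE_apply (Q : QD k I) (Jp Jm : Set I) (x : QA Q Jp Jm) :
    td_omE Q Jp Jm x = QA.om Q Jp Jm x := rfl

private lemma td_om_up (Q : QD k I) (Jp Jm : Set I) (x : HA Q Jp) :
    QA.om Q Jp Jm (HA.up Q Jp Jm x) = HA.um Q Jm Jp x := by
  have h : (QA.om Q Jp Jm).comp (HA.up Q Jp Jm) = HA.um Q Jm Jp := by
    refine HA.hom_ext fun i => ?_
    rw [AlgHom.comp_apply, HA.up_x, HA.um_x, td_om_E]
  exact congrArg (fun f : HA Q Jp →ₐ[k] QA Q Jm Jp => f x) h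

private lemma td_om_incl (Q : QD k I) (Jp Jm : Set I) (b : QA Q ∅ Jm) :
    QA.om Q Jp Jm (QA.incl Q (Set.empty_subset Jp) (le_refl Jm) b) =
      QA.incl Q (le_refl Jm) (Set.empty_subset Jp) (QA.om Q ∅ Jm b) := by
  have h : (QA.om Q Jp Jm).comp (QA.incl Q (Set.empty_subset Jp) (le_refl Jm)) =
      (QA.incl Q (le_refl Jm) (Set.empty_subset Jp)).comp (QA.om Q ∅ Jm) := by
    refine QA.hom_ext (fun i => ?_) (fun i => ?_) (fun i => ?_)
    · rw [(QA.elts Q ∅ Jm).E0 i (fun h => h), map_zero, map_zero]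
    · by_cases hi : i ∈ Jm
      · rw [AlgHom.comp_apply, AlgHom.comp_apply,
          td_incl_F Q ∅ Jm (Set.empty_subset Jp) (le_refl Jm) hi, td_om_F, td_om_F,
          td_incl_E Q Jm ∅ (le_refl Jm) (Set.empty_subset Jp) hi]
      · rw [(QA.elts Q ∅ Jm).F0 i hi, map_zero, map_zero]
    · rw [AlgHom.comp_apply, AlgHom.comp_apply, td_incl_K, td_om_K, td_om_K, td_incl_L]
  exact congrArg (fun f : QA Q ∅ Jm →ₐ[k] QA Q Jm Jp => f b) h

/-- triangular decomposition, `E` first -/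
theorem tdp_bijective (Q : QD k I) (Jp Jm : Set I) : Function.Bijective (tdp Q Jp Jm) := by
  let e : HA Q Jp ⊗[k] QA Q ∅ Jm ≃ₗ[k] HA Q Jp ⊗[k] QA Q Jm ∅ :=
    TensorProduct.congr (LinearEquiv.refl k (HA Q Jp)) (td_omE Q ∅ Jm)
  have h : ∀ t, td_omE Q Jp Jm (tdp Q Jp Jm t) = tdm Q Jm Jp (e t) := by
    intro t
    induction t using TensorProduct.induction_on with
    | zero => rw [map_zero, map_zero, map_zero, map_zero]
    | tmul x b =>
      rw [tdp_tmul, TensorProduct.congr_tmul, tdm_tmul, td_omE_apply, map_mul, td_om_up,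
        td_om_incl, LinearEquiv.refl_apply, td_omE_apply]
    | add x y hx hy => rw [map_add, map_add, map_add, map_add, hx, hy]
  have h2 : Function.Bijective ((td_omE Q Jp Jm) ∘ (tdp Q Jp Jm)) := by
    have h3 : (td_omE Q Jp Jm) ∘ (tdp Q Jp Jm) = (tdm Q Jm Jp) ∘ e := funext h
    rw [h3]
    exact (tdm_bijective Q Jm Jp).comp e.bijective
  exact (Function.Bijective.of_comp_iff' (td_omE Q Jp Jm).bijective _).1 h2

/-- `∏ K_i^{μ_i}` -/
def QA.Kμ (Q : QD k I) (Jp Jm : Set I) (μ : I → ℤ) : (QA Q Jp Jm)ˣ :=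
  ((Finset.univ : Finset I).toList.map fun i => ((Q.T Jp Jm).K i) ^ (μ i)).prod

/-- `k[ℤ^I] → 𝔸(∅, ∅)` -/
def kz (Q : QD k I) : ((I → ℤ) →₀ k) →ₗ[k] QA Q ∅ ∅ :=
  Finsupp.linearCombination k (fun μ => ((QA.Kμ Q ∅ ∅ μ : (QA Q ∅ ∅)ˣ) : QA Q ∅ ∅))

omit [Fintype I] [DecidableEq I] in
private lemma td_list_add {G : Type} [Group G] (g : I → G) (hg : ∀ i j, g i * g j = g j * g i)
    (μ ν : I → ℤ) (l : List I) :
    (l.map fun i => g i ^ ((μ + ν) i)).prod =
      (l.map fun i => g i ^ (μ i)).prod * (l.map fun i => g i ^ (ν i)).prod := by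
  induction l with
  | nil => simp
  | cons a l ih =>
    rw [List.map_cons, List.map_cons, List.map_cons, List.prod_cons, List.prod_cons,
      List.prod_cons, ih, Pi.add_apply, zpow_add]
    have hc : Commute (g a ^ (ν a)) (l.map fun i => g i ^ (μ i)).prod := by
      refine Commute.list_prod_right _ _ fun y hy => ?_
      obtain ⟨i, _, rfl⟩ := List.mem_map.1 hy
      exact (Commute.zpow_zpow (hg a i : Commute (g a) (g i)) (ν a) (μ i))
    rw [mul_assoc, mul_assoc]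
    congr 1
    rw [← mul_assoc, hc.eq, mul_assoc]

omit [Fintype I] in
private lemma td_list_single {G : Type} [Group G] (g : I → G) (i : I) (l : List I)
    (hl : l.Nodup) :
    (l.map fun j => g j ^ ((Pi.single i 1 : I → ℤ) j)).prod = if i ∈ l then g i else 1 := by
  induction l with
  | nil => simp
  | cons a l ih =>
    rw [List.nodup_cons] at hl
    rw [List.map_cons, List.prod_cons, ih hl.2]
    by_cases h : i = a
    · subst h
      rw [Pi.single_eq_same, zpow_one, if_neg hl.1, mul_one, if_pos (List.mem_cons_self)]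
    · rw [Pi.single_eq_of_ne (Ne.symm h), zpow_zero, one_mul]
      by_cases h2 : i ∈ l
      · rw [if_pos h2, if_pos (List.mem_cons_of_mem _ h2)]
      · rw [if_neg h2, if_neg]
        rw [List.mem_cons]
        rintro (h3 | h3)
        · exact h h3
        · exact h2 h3

private lemma td_Kadd (Q : QD k I) (Jp Jm : Set I) (μ ν : I → ℤ) :
    QA.Kμ Q Jp Jm (μ + ν) = QA.Kμ Q Jp Jm μ * QA.Kμ Q Jp Jm ν :=
  td_list_add (G := (QA Q Jp Jm)ˣ) (fun i => (Q.T Jp Jm).K i) (Q.T Jp Jm).K_comm μ ν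
    (Finset.univ : Finset I).toList

private lemma td_Ksingle (Q : QD k I) (Jp Jm : Set I) (i : I) :
    QA.Kμ Q Jp Jm (Pi.single i 1) = (Q.T Jp Jm).K i := by
  refine (td_list_single (G := (QA Q Jp Jm)ˣ) (fun i => (Q.T Jp Jm).K i) i
    (Finset.univ : Finset I).toList (Finset.nodup_toList _)).trans ?_
  exact if_pos (Finset.mem_toList.2 (Finset.mem_univ i))

private lemma td_Kzero (Q : QD k I) (Jp Jm : Set I) : QA.Kμ Q Jp Jm 0 = 1 := by
  have h := td_Kadd Q Jp Jm 0 0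
  rw [add_zero] at h
  exact (left_eq_mul.1 h)

/-- the monoid map `μ ↦ K_μ` -/
private def td_Khom (Q : QD k I) : Multiplicative (I → ℤ) →* QA Q ∅ ∅ where
  toFun μ := ((QA.Kμ Q ∅ ∅ μ.toAdd : (QA Q ∅ ∅)ˣ) : QA Q ∅ ∅)
  map_one' := by
    rw [toAdd_one, td_Kzero, Units.val_one]
  map_mul' μ ν := by
    rw [toAdd_mul, td_Kadd, Units.val_mul]

/-- the torus elements in the group algebra -/
private def td_elts (Q : QD k I) : QElts Q ∅ ∅ (AddMonoidAlgebra k (I → ℤ)) where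
  E _ := 0
  F _ := 0
  K i := AddMonoidAlgebra.single (Pi.single i 1) 1
  L i := AddMonoidAlgebra.single (-Pi.single i 1) 1
  KL i := by
    rw [AddMonoidAlgebra.single_mul_single, add_neg_cancel, mul_one]
    rfl
  LK i := by
    rw [AddMonoidAlgebra.single_mul_single, neg_add_cancel, mul_one]
    rfl
  KK i j := mul_comm _ _
  KE i j := by rw [mul_zero, zero_mul, smul_zero]
  KF i j := by rw [mul_zero, zero_mul, smul_zero]
  EF i j hi _ := absurd hi (Set.notMem_empty i)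
  E0 _ _ := rfl
  F0 _ _ := rfl
  SE i _ hi _ _ := absurd hi (Set.notMem_empty i)
  SF i _ hi _ _ := absurd hi (Set.notMem_empty i)

private lemma td_lift_K (Q : QD k I) (μ : I → ℤ) :
    (td_elts Q).lift ((QA.Kμ Q ∅ ∅ μ : (QA Q ∅ ∅)ˣ) : QA Q ∅ ∅) =
      AddMonoidAlgebra.single μ 1 := by
  let u : Multiplicative (I → ℤ) →* (AddMonoidAlgebra k (I → ℤ))ˣ :=
    (Units.map (AddMonoidAlgebra.of k (I → ℤ))).comp
      (toUnits (G := Multiplicative (I → ℤ))).toMonoidHom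
  have hu : ∀ ν : I → ℤ, ((u (Multiplicative.ofAdd ν) : (AddMonoidAlgebra k (I → ℤ))ˣ) :
      AddMonoidAlgebra k (I → ℤ)) = AddMonoidAlgebra.single ν 1 := fun ν => rfl
  let J : (QA Q ∅ ∅)ˣ →* (AddMonoidAlgebra k (I → ℤ))ˣ := Units.map ((td_elts Q).lift : _ →* _)
  have hJK : ∀ i, J ((Q.T ∅ ∅).K i) = u (Multiplicative.ofAdd (Pi.single i 1)) := by
    intro i
    apply Units.ext
    exact (td_elts Q).lift_K i
  have h1 : J (QA.Kμ Q ∅ ∅ μ) = u (Multiplicative.ofAdd μ) := by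
    let Kq : I → (QA Q ∅ ∅)ˣ := fun i => (Q.T ∅ ∅).K i
    have hJq : ∀ i, J (Kq i) = u (Multiplicative.ofAdd (Pi.single i 1)) := hJK
    have h2 : J (QA.Kμ Q ∅ ∅ μ) =
        (((Finset.univ : Finset I).toList.map fun i => Kq i ^ (μ i)).map J).prod :=
      map_list_prod J _
    rw [h2, List.map_map]
    have h3 : (J ∘ fun i => Kq i ^ (μ i)) =
        u ∘ fun i => (Multiplicative.ofAdd (Pi.single i 1 : I → ℤ)) ^ (μ i) := by
      funext i
      rw [Function.comp_apply, Function.comp_apply, map_zpow, map_zpow, hJq]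
    rw [h3, ← List.map_map, ← map_list_prod, Finset.prod_map_toList]
    congr 1
    apply Multiplicative.toAdd.injective
    rw [toAdd_prod, toAdd_ofAdd]
    have h4 : ∀ i, ((Multiplicative.ofAdd (Pi.single i 1 : I → ℤ)) ^ (μ i)).toAdd =
        Pi.single i (μ i) := by
      intro i
      rw [toAdd_zpow, toAdd_ofAdd, ← Pi.single_smul, smul_eq_mul, mul_one]
    rw [Finset.sum_congr rfl fun i _ => h4 i]
    exact Finset.univ_sum_single μ
  have h5 := congrArg (Units.val) h1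
  rw [hu] at h5
  exact h5

/-- the torus part is the group algebra of `ℤ^I` -/
theorem kz_bijective (Q : QD k I) : Function.Bijective (kz Q) := by
  let KZ : AddMonoidAlgebra k (I → ℤ) →ₐ[k] QA Q ∅ ∅ :=
    AddMonoidAlgebra.lift k (QA Q ∅ ∅) (I → ℤ) (td_Khom Q)
  have hKZ : ∀ μ : I → ℤ, KZ (AddMonoidAlgebra.single μ 1) =
      ((QA.Kμ Q ∅ ∅ μ : (QA Q ∅ ∅)ˣ) : QA Q ∅ ∅) := by
    intro μ
    rw [AddMonoidAlgebra.lift_single, one_smul]
    rfl
  have h1 : ∀ f, (td_elts Q).lift (KZ f) = f := by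
    have h : ((td_elts Q).lift.comp KZ) = AlgHom.id k _ := by
      refine AddMonoidAlgebra.algHom_ext (fun μ => ?_) ?_
      · rw [AlgHom.comp_apply, hKZ, td_lift_K, AlgHom.id_apply]
      · ext
    intro f
    exact congrArg (fun g : AddMonoidAlgebra k (I → ℤ) →ₐ[k] AddMonoidAlgebra k (I → ℤ) => g f) h
  have h2 : ∀ x, KZ ((td_elts Q).lift x) = x := by
    have h : (KZ.comp (td_elts Q).lift) = AlgHom.id k _ := by
      refine QA.hom_ext (fun i => ?_) (fun i => ?_) (fun i => ?_)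
      · rw [(QA.elts Q ∅ ∅).E0 i (Set.notMem_empty i), map_zero, map_zero]
      · rw [(QA.elts Q ∅ ∅).F0 i (Set.notMem_empty i), map_zero, map_zero]
      · rw [AlgHom.comp_apply, QElts.lift_K, AlgHom.id_apply]
        change KZ (AddMonoidAlgebra.single (Pi.single i 1) 1) = _
        rw [hKZ, td_Ksingle]
        rfl
    intro x
    exact congrArg (fun g : QA Q ∅ ∅ →ₐ[k] QA Q ∅ ∅ => g x) h
  have h3 : ∀ f : AddMonoidAlgebra k (I → ℤ), kz Q f.coeff = KZ f := by
    intro f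
    rw [AddMonoidAlgebra.lift_apply]
    rfl
  constructor
  · intro f g hfg
    have e1 := h3 (AddMonoidAlgebra.ofCoeff f)
    have e2 := h3 (AddMonoidAlgebra.ofCoeff g)
    have e3 : KZ (AddMonoidAlgebra.ofCoeff f) = KZ (AddMonoidAlgebra.ofCoeff g) :=
      e1.symm.trans (hfg.trans e2)
    have e4 : AddMonoidAlgebra.ofCoeff f = AddMonoidAlgebra.ofCoeff g := by
      rw [← h1 (AddMonoidAlgebra.ofCoeff f), e3, h1]
    exact congrArg AddMonoidAlgebra.coeff e4
  · intro x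
    exact ⟨((td_elts Q).lift x).coeff, (h3 _).trans (h2 x)⟩

theorem QA.Kμ_add (Q : QD k I) (Jp Jm : Set I) (μ ν : I → ℤ) :
    QA.Kμ Q Jp Jm (μ + ν) = QA.Kμ Q Jp Jm μ * QA.Kμ Q Jp Jm ν :=
  td_Kadd Q Jp Jm μ ν

theorem QA.Kμ_single (Q : QD k I) (Jp Jm : Set I) (i : I) :
    QA.Kμ Q Jp Jm (Pi.single i 1) = (Q.T Jp Jm).K i :=
  td_Ksingle Q Jp Jm i

end Pool.Agent.Lib.QG
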