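import Pool.Agent.Lib.MP_021f05_al.Ind1
import Pool.Agent.Lib.MP_021f05_al.Names
import Pool.Agent.Lib.MP_021f05_al.TD
import Pool.Agent.Lib.MP_021f05_al.HalfGr

/-!
# MP_021f05_al (B2): inclusions between the algebras `𝔸(Jp, Jm)`
-/

noncomputable section

namespace Pool.Agent.Lib.QG

open MvPolynomial
open scoped TensorProduct

variable {k : Type} [Field k] {I : Type} [Fintype I] [DecidableEq I] {Q : QD k I}
  {Jp Jm Jp' Jm' Jp'' Jm'' : Set I}

/-! ### weights of the algebra -/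

lemma ind2_mem_wtA {T : TAlg k I} {μ : I → ℤ} {a : T.A}
    (h : ∀ i, (T.K i : T.A) * a = Q.χ μ i • (a * (T.K i : T.A))) : a ∈ wtA Q T μ := by
  intro i
  show (T.K i : T.A) * a * ((T.K i)⁻¹ : T.Aˣ) = _
  rw [h i, smul_mul_assoc, mul_assoc, Units.mul_inv, mul_one]

lemma ind2_ct_al (Q : QD k I) (i j : I) : Q.ct i (Q.al j) = Q.a i j := by
  unfold CDatum.ct CDatum.al
  rw [Finset.sum_eq_single j]
  · rw [Pi.single_eq_same, mul_one]
  · intro l _ hl
    rw [Pi.single_eq_of_ne hl, mul_zero]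
  · intro h
    exact absurd (Finset.mem_univ j) h

lemma ind2_χ_al (Q : QD k I) (i j : I) :
    Q.χ (Q.al j) i = Q.q ^ ((Q.d i : ℤ) * Q.a i j) := by
  unfold QD.χ
  rw [ind2_ct_al]

lemma ind2_χ_neg_al (Q : QD k I) (i j : I) :
    Q.χ (-Q.al j) i = Q.q ^ (-((Q.d i : ℤ) * Q.a i j)) := by
  have h : Q.ct i (-Q.al j) = - Q.a i j := by
    rw [← ind2_ct_al Q i j]
    unfold CDatum.ct
    rw [← Finset.sum_neg_distrib]
    refine Finset.sum_congr rfl fun l _ => ?_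
    rw [Pi.neg_apply, mul_neg]
  unfold QD.χ
  rw [h, mul_neg]

theorem QD.wtAlg (Q : QD k I) (Jp Jm : Set I) : WtAlg Q (Q.T Jp Jm) := by
  unfold WtAlg
  rw [eq_top_iff]
  rintro x -
  have hmul0 : ∀ (μ ν : I → ℤ) (a b : (Q.T Jp Jm).A), a ∈ wtA Q (Q.T Jp Jm) μ →
      b ∈ wtA Q (Q.T Jp Jm) ν → a * b ∈ wtA Q (Q.T Jp Jm) (μ + ν) := by
    intro μ ν a b ha hb i
    rw [map_mul, ha i, hb i, smul_mul_smul_comm, QD.χ_add]
  refine QA.induction (p := fun x : QA Q Jp Jm => (show (Q.T Jp Jm).A from x) ∈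
    ⨆ μ, wtA Q (Q.T Jp Jm) μ) ?_ ?_ ?_ ?_ ?_ ?_ ?_ x
  · intro t
    refine Submodule.mem_iSup_of_mem 0 ?_
    intro i
    rw [QD.χ_zero, one_smul]
    exact ((Q.T Jp Jm).ad i).commutes t
  · intro j
    refine Submodule.mem_iSup_of_mem (Q.al j) (ind2_mem_wtA fun i => ?_)
    rw [ind2_χ_al]
    exact (QA.elts Q Jp Jm).KE i j
  · intro j
    refine Submodule.mem_iSup_of_mem (-Q.al j) (ind2_mem_wtA fun i => ?_)
    rw [ind2_χ_neg_al]
    exact (QA.elts Q Jp Jm).KF i j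
  · intro j
    refine Submodule.mem_iSup_of_mem 0 (ind2_mem_wtA fun i => ?_)
    rw [QD.χ_zero, one_smul]
    exact (QA.elts Q Jp Jm).KK i j
  · intro j
    refine Submodule.mem_iSup_of_mem 0 (ind2_mem_wtA fun i => ?_)
    rw [QD.χ_zero, one_smul]
    exact ((QA.elts Q Jp Jm).pre.L_K j i).symm
  · intro a b ha hb
    exact add_mem ha hb
  · intro a b ha hb
    refine Submodule.iSup_induction _ (motive := fun a : (Q.T Jp Jm).A =>
      a * (show (Q.T Jp Jm).A from b) ∈ ⨆ μ, wtA Q (Q.T Jp Jm) μ) ha ?_ ?_ ?_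
    · intro μ a ha
      refine Submodule.iSup_induction _ (motive := fun b : (Q.T Jp Jm).A =>
        a * b ∈ ⨆ μ, wtA Q (Q.T Jp Jm) μ) hb ?_ ?_ ?_
      · intro ν b hb
        exact Submodule.mem_iSup_of_mem (μ + ν) (hmul0 μ ν a b ha hb)
      · rw [mul_zero]; exact zero_mem _
      · intro b b' hb hb'
        rw [mul_add]; exact add_mem hb hb'
    · rw [zero_mul]; exact zero_mem _
    · intro a a' ha ha'
      rw [add_mul]; exact add_mem ha ha'

/-! ### the inclusions -/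

lemma ind2_incl_E (Q : QD k I) (hp : Jp ⊆ Jp') (hm : Jm ⊆ Jm') {i : I} (hi : i ∈ Jp) :
    QA.incl Q hp hm ((QA.elts Q Jp Jm).E i) = (QA.elts Q Jp' Jm').E i := by
  refine (QElts.lift_E _ i).trans ?_
  show (open Classical in if i ∈ Jp then (QA.elts Q Jp' Jm').E i else 0) = _
  rw [if_pos hi]

lemma ind2_incl_F (Q : QD k I) (hp : Jp ⊆ Jp') (hm : Jm ⊆ Jm') {i : I} (hi : i ∈ Jm) :
    QA.incl Q hp hm ((QA.elts Q Jp Jm).F i) = (QA.elts Q Jp' Jm').F i := by
  refine (QElts.lift_F _ i).trans ?_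
  show (open Classical in if i ∈ Jm then (QA.elts Q Jp' Jm').F i else 0) = _
  rw [if_pos hi]

lemma ind2_incl_K (Q : QD k I) (hp : Jp ⊆ Jp') (hm : Jm ⊆ Jm') (i : I) :
    QA.incl Q hp hm ((QA.elts Q Jp Jm).K i) = (QA.elts Q Jp' Jm').K i := QElts.lift_K _ i

lemma ind2_incl_comp (Q : QD k I) (hp : Jp ⊆ Jp') (hm : Jm ⊆ Jm') (hp' : Jp' ⊆ Jp'')
    (hm' : Jm' ⊆ Jm'') :
    (QA.incl Q hp' hm').comp (QA.incl Q hp hm) = QA.incl Q (hp.trans hp') (hm.trans hm') := by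
  refine QA.hom_ext (fun i => ?_) (fun i => ?_) (fun i => ?_)
  · by_cases hi : i ∈ Jp
    · rw [AlgHom.comp_apply, ind2_incl_E Q hp hm hi, ind2_incl_E Q hp' hm' (hp hi),
        ind2_incl_E Q _ _ hi]
    · rw [(QA.elts Q Jp Jm).E0 i hi, map_zero, map_zero]
  · by_cases hi : i ∈ Jm
    · rw [AlgHom.comp_apply, ind2_incl_F Q hp hm hi, ind2_incl_F Q hp' hm' (hm hi),
        ind2_incl_F Q _ _ hi]
    · rw [(QA.elts Q Jp Jm).F0 i hi, map_zero, map_zero]
  · rw [AlgHom.comp_apply, ind2_incl_K, ind2_incl_K, ind2_incl_K]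

lemma ind2_incl_comp_apply (Q : QD k I) (hp : Jp ⊆ Jp') (hm : Jm ⊆ Jm') (hp' : Jp' ⊆ Jp'')
    (hm' : Jm' ⊆ Jm'') (x : QA Q Jp Jm) :
    QA.incl Q hp' hm' (QA.incl Q hp hm x) = QA.incl Q (hp.trans hp') (hm.trans hm') x :=
  congrArg (fun f : QA Q Jp Jm →ₐ[k] QA Q Jp'' Jm'' => f x) (ind2_incl_comp Q hp hm hp' hm')

omit [Fintype I] [DecidableEq I] in
lemma ind2_thom_ext {T' T : TAlg k I} {φ ψ : THom T' T} (h : φ.f = ψ.f) : φ = ψ := by
  cases φ
  cases ψ
  cases h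
  rfl

theorem QD.inc_comp (hp : Jp ⊆ Jp') (hm : Jm ⊆ Jm') (hp' : Jp' ⊆ Jp'') (hm' : Jm' ⊆ Jm'') :
    (Q.inc hp' hm').comp (Q.inc hp hm) = Q.inc (hp.trans hp') (hm.trans hm') :=
  ind2_thom_ext (ind2_incl_comp Q hp hm hp' hm')

lemma ind2_HA_incl_x (Q : QD k I) {J J' : Set I} (h : J ⊆ J') {i : I} (hi : i ∈ J) :
    HA.incl Q h (HA.x Q J i) = HA.x Q J' i := by
  refine (HA.lift_x _ _ _ i).trans ?_
  show (open Classical in if i ∈ J then HA.x Q J' i else 0) = _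
  rw [if_pos hi]

lemma ind2_HA_incl_refl (Q : QD k I) (J : Set I) (x : HA Q J) :
    HA.incl Q (Set.Subset.refl J) x = x := by
  have h : HA.incl Q (Set.Subset.refl J) = AlgHom.id k (HA Q J) := by
    refine HA.hom_ext fun i => ?_
    by_cases hi : i ∈ J
    · rw [ind2_HA_incl_x Q _ hi, AlgHom.id_apply]
    · rw [HA.x_zero hi, map_zero, map_zero]
  exact congrArg (fun f : HA Q J →ₐ[k] HA Q J => f x) h

lemma ind2_incl_up (Q : QD k I) (hp : Jp ⊆ Jp') (hm : Jm ⊆ Jm') (x : HA Q Jp) :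
    QA.incl Q hp hm (HA.up Q Jp Jm x) = HA.up Q Jp' Jm' (HA.incl Q hp x) := by
  have h : (QA.incl Q hp hm).comp (HA.up Q Jp Jm) = (HA.up Q Jp' Jm').comp (HA.incl Q hp) := by
    refine HA.hom_ext fun i => ?_
    by_cases hi : i ∈ Jp
    · rw [AlgHom.comp_apply, AlgHom.comp_apply, HA.up_x, ind2_incl_E Q hp hm hi,
        ind2_HA_incl_x Q hp hi, HA.up_x]
    · rw [HA.x_zero hi, map_zero, map_zero]
  exact congrArg (fun f : HA Q Jp →ₐ[k] QA Q Jp' Jm' => f x) h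

lemma ind2_incl_um (Q : QD k I) (hp : Jp ⊆ Jp') (hm : Jm ⊆ Jm') (x : HA Q Jm) :
    QA.incl Q hp hm (HA.um Q Jp Jm x) = HA.um Q Jp' Jm' (HA.incl Q hm x) := by
  have h : (QA.incl Q hp hm).comp (HA.um Q Jp Jm) = (HA.um Q Jp' Jm').comp (HA.incl Q hm) := by
    refine HA.hom_ext fun i => ?_
    by_cases hi : i ∈ Jm
    · rw [AlgHom.comp_apply, AlgHom.comp_apply, HA.um_x, ind2_incl_F Q hp hm hi,
        ind2_HA_incl_x Q hm hi, HA.um_x]
    · rw [HA.x_zero hi, map_zero, map_zero]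
  exact congrArg (fun f : HA Q Jm →ₐ[k] QA Q Jp' Jm' => f x) h

lemma ind2_inj_of_bij {A B C D : Type} {f : A → B} {t : C → A} {t' : D → B} {g : C → D}
    (ht : Function.Bijective t) (ht' : Function.Injective t') (hg : Function.Injective g)
    (h : ∀ c, f (t c) = t' (g c)) : Function.Injective f := by
  intro x y hxy
  obtain ⟨a, rfl⟩ := ht.2 x
  obtain ⟨b, rfl⟩ := ht.2 y
  rw [h, h] at hxy
  rw [hg (ht' hxy)]

lemma ind2_map_injective {A B C D : Type} [AddCommGroup A] [AddCommGroup B] [AddCommGroup C]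
    [AddCommGroup D] [Module k A] [Module k B] [Module k C] [Module k D] (f : A →ₗ[k] B)
    (g : C →ₗ[k] D) (hf : Function.Injective f) (hg : Function.Injective g) :
    Function.Injective (TensorProduct.map f g) := by
  rw [← LinearMap.rTensor_comp_lTensor, LinearMap.coe_comp]
  exact (Module.Flat.rTensor_preserves_injective_linearMap f hf).comp
    (Module.Flat.lTensor_preserves_injective_linearMap g hg)

lemma ind2_incl_inj0 (Q : QD k I) (hp : Jp ⊆ Jp') :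
    Function.Injective (QA.incl Q hp (Set.Subset.refl ∅)) := by
  refine ind2_inj_of_bij (tdp_bijective Q Jp ∅) (tdp_bijective Q Jp' ∅).1
    (g := TensorProduct.map (HA.incl Q hp).toLinearMap (LinearMap.id : QA Q ∅ ∅ →ₗ[k] QA Q ∅ ∅))
    (ind2_map_injective _ _ (HA.incl_injective Q hp) Function.injective_id) ?_
  intro t
  induction t using TensorProduct.induction_on with
  | zero => rw [map_zero, map_zero, map_zero, map_zero]
  | tmul x b =>
    rw [tdp_tmul, map_mul, ind2_incl_up, TensorProduct.map_tmul]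
    refine (congrArg _ (ind2_incl_comp_apply Q _ _ _ _ b)).trans ?_
    rfl
  | add x y hx hy => rw [map_add, map_add, map_add, map_add, hx, hy]

theorem QD.inc_injective (hp : Jp ⊆ Jp') (hm : Jm ⊆ Jm') :
    Function.Injective (Q.inc hp hm).f := by
  show Function.Injective (QA.incl Q hp hm)
  refine ind2_inj_of_bij (tdm_bijective Q Jp Jm) (tdm_bijective Q Jp' Jm').1
    (g := TensorProduct.map (HA.incl Q hm).toLinearMap
      (QA.incl Q hp (Set.Subset.refl ∅)).toLinearMap)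
    (ind2_map_injective _ _ (HA.incl_injective Q hm) (ind2_incl_inj0 Q hp)) ?_
  intro t
  induction t using TensorProduct.induction_on with
  | zero => rw [map_zero, map_zero, map_zero, map_zero]
  | tmul x b =>
    rw [tdm_tmul, map_mul, ind2_incl_um, TensorProduct.map_tmul]
    refine (congrArg _ (ind2_incl_comp_apply Q _ _ _ _ b)).trans ?_
    refine Eq.trans ?_ (congrArg (fun z => HA.um Q Jp' Jm' (HA.incl Q hm x) * z)
      (ind2_incl_comp_apply Q hp (Set.Subset.refl ∅) (le_refl Jp') (Set.empty_subset Jm') b)).symm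
    rfl
  | add x y hx hy => rw [map_add, map_add, map_add, map_add, hx, hy]

/-! ### right freeness -/

omit [Fintype I] [DecidableEq I] in
lemma ind2_bij_range {T' T : TAlg k I} (φ : THom T' T) {H : Type} [AddCommGroup H] [Module k H]
    (g : H →ₗ[k] T.A) (M : H ⊗[k] T'.A →ₗ[k] T.A) (hM : ∀ h a, M (h ⊗ₜ a) = g h * φ.f a)
    (hb : Function.Bijective M) : Function.Bijective (mulN φ (LinearMap.range g)) := by
  have hg : Function.Injective g := by
    rw [injective_iff_map_eq_zero]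
    intro h hh
    have h1 : M (h ⊗ₜ 1) = 0 := by rw [hM, hh, zero_mul]
    have h2 : h ⊗ₜ[k] (1 : T'.A) = 0 := hb.1 (h1.trans (map_zero M).symm)
    have h3 := congrArg (TensorProduct.rid k H)
      (congrArg (TensorProduct.map LinearMap.id T'.ε.toLinearMap) h2)
    rw [TensorProduct.map_tmul, map_zero, map_zero, TensorProduct.rid_tmul,
      AlgHom.toLinearMap_apply, map_one, one_smul, LinearMap.id_apply] at h3
    exact h3
  let e := LinearEquiv.ofInjective g hg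
  have h4 : ∀ t, mulN φ (LinearMap.range g)
      (TensorProduct.congr e (LinearEquiv.refl k T'.A) t) = M t := by
    intro t
    induction t using TensorProduct.induction_on with
    | zero => rw [map_zero, map_zero, map_zero]
    | tmul h a =>
      rw [TensorProduct.congr_tmul, mulN_tmul, hM]
      rfl
    | add x y hx hy => rw [map_add, map_add, map_add, hx, hy]
  have h5 : Function.Bijective ((mulN φ (LinearMap.range g)) ∘
      (TensorProduct.congr e (LinearEquiv.refl k T'.A))) := by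
    have h6 : (mulN φ (LinearMap.range g)) ∘ (TensorProduct.congr e (LinearEquiv.refl k T'.A))
        = M := funext h4
    rw [h6]
    exact hb
  exact (Function.Bijective.of_comp_iff _
    (TensorProduct.congr e (LinearEquiv.refl k T'.A)).bijective).1 h5

omit [Fintype I] [DecidableEq I] in
lemma ind2_bij_step {T' T : TAlg k I} (φ : THom T' T) {H H' : Type} [Ring H] [Algebra k H]
    [Ring H'] [Algebra k H'] {B : Type} [AddCommGroup B] [Module k B]
    (c : H' →ₐ[k] H) (u : H →ₐ[k] T.A) (u' : H' →ₐ[k] T'.A) (hu : ∀ x, φ.f (u' x) = u (c x))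
    (ι' : B → T'.A) (ι : B → T.A) (hι : ∀ b, φ.f (ι' b) = ι b)
    (F' : H' ⊗[k] B →ₗ[k] T'.A) (hF' : ∀ x b, F' (x ⊗ₜ b) = u' x * ι' b)
    (hb' : Function.Bijective F')
    (F : H ⊗[k] B →ₗ[k] T.A) (hF : ∀ x b, F (x ⊗ₜ b) = u x * ι b) (hb : Function.Bijective F)
    (N0 : Submodule k H) (hN : Function.Bijective
      (TensorProduct.lift ((LinearMap.mul k H).compl₁₂ N0.subtype c.toLinearMap))) :
    Function.Bijective (mulN φ (N0.map u.toLinearMap)) := by
  have hr : N0.map u.toLinearMap = LinearMap.range (u.toLinearMap ∘ₗ N0.subtype) := by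
    rw [LinearMap.range_comp, Submodule.range_subtype]
  rw [hr]
  let M : N0 ⊗[k] T'.A →ₗ[k] T.A := TensorProduct.lift ((LinearMap.mul k T.A).compl₁₂
    (u.toLinearMap ∘ₗ N0.subtype) φ.f.toLinearMap)
  have hM : ∀ (h : N0) (a : T'.A), M (h ⊗ₜ a) = (u.toLinearMap ∘ₗ N0.subtype) h * φ.f a :=
    fun h a => rfl
  refine ind2_bij_range φ _ M hM ?_
  let e1 : N0 ⊗[k] (H' ⊗[k] B) ≃ₗ[k] N0 ⊗[k] T'.A :=
    TensorProduct.congr (LinearEquiv.refl k N0) (LinearEquiv.ofBijective F' hb')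
  let L := (TensorProduct.lift ((LinearMap.mul k H).compl₁₂ N0.subtype c.toLinearMap))
  let e2 : (N0 ⊗[k] H') ⊗[k] B ≃ₗ[k] H ⊗[k] B :=
    TensorProduct.congr (LinearEquiv.ofBijective L hN) (LinearEquiv.refl k B)
  let e3 : N0 ⊗[k] (H' ⊗[k] B) ≃ₗ[k] (N0 ⊗[k] H') ⊗[k] B := (TensorProduct.assoc k N0 H' B).symm
  have h1 : M.comp e1.toLinearMap = F.comp (e2.toLinearMap.comp e3.toLinearMap) := by
    refine TensorProduct.ext' fun n t => ?_
    induction t using TensorProduct.induction_on with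
    | zero => rw [TensorProduct.tmul_zero, map_zero, map_zero]
    | tmul x b =>
      have g1 : e1 (n ⊗ₜ (x ⊗ₜ b)) = n ⊗ₜ (F' (x ⊗ₜ b)) := rfl
      have g2 : e2 (e3 (n ⊗ₜ (x ⊗ₜ b))) = (n.1 * c x) ⊗ₜ b := rfl
      show M (e1 (n ⊗ₜ (x ⊗ₜ b))) = F (e2 (e3 (n ⊗ₜ (x ⊗ₜ b))))
      rw [g1, g2, hM, hF', hF, map_mul, map_mul, hu, hι, mul_assoc]
      rfl
    | add x y hx hy => rw [TensorProduct.tmul_add, map_add, map_add, hx, hy]
  have h2 : Function.Bijective (M ∘ e1) := by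
    have h3 : (M ∘ e1) = F ∘ (e2 ∘ e3) := by
      funext t
      exact congrArg (fun f : N0 ⊗[k] (H' ⊗[k] B) →ₗ[k] T.A => f t) h1
    rw [h3]
    exact hb.comp (e2.bijective.comp e3.bijective)
  exact (Function.Bijective.of_comp_iff _ e1.bijective).1 h2

omit [Fintype I] [DecidableEq I] in
lemma ind2_bij_congr {T' T : TAlg k I} {φ : THom T' T} {N N' : Submodule k T.A} (h : N = N')
    (hb : Function.Bijective (mulN φ N)) : Function.Bijective (mulN φ N') := h ▸ hb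

lemma ind2_minus (Q : QD k I) (Jp Jm : Set I) :
    Function.Bijective (mulN (Q.inc (Set.Subset.refl Jp) (Set.empty_subset Jm))
      (LinearMap.range (HA.um Q Jp Jm).toLinearMap)) :=
  ind2_bij_range (Q.inc (Set.Subset.refl Jp) (Set.empty_subset Jm)) (HA.um Q Jp Jm).toLinearMap
    (tdm Q Jp Jm) (tdm_tmul Q Jp Jm) (tdm_bijective Q Jp Jm)

lemma ind2_p (Q : QD k I) {Jp : Set I} (Jm : Set I) {i : I} (hi : i ∈ Jp)
    (N0 : Submodule k (HA Q Jp))
    (hN : Function.Bijective (TensorProduct.lift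
        ((LinearMap.mul k (HA Q Jp)).compl₁₂ N0.subtype
          (HA.incl Q (Set.singleton_subset_iff.2 hi)).toLinearMap))) :
    Function.Bijective (mulN (Q.inc (Set.singleton_subset_iff.2 hi) (Set.Subset.refl Jm))
      (N0.map (HA.up Q Jp Jm).toLinearMap)) :=
  ind2_bij_step (Q.inc (Set.singleton_subset_iff.2 hi) (Set.Subset.refl Jm))
    (HA.incl Q (Set.singleton_subset_iff.2 hi)) (HA.up Q Jp Jm) (HA.up Q {i} Jm)
    (fun x => ind2_incl_up Q _ _ x)
    (QA.incl Q (Set.empty_subset {i}) (le_refl Jm)) (QA.incl Q (Set.empty_subset Jp) (le_refl Jm))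
    (fun b => ind2_incl_comp_apply Q _ _ _ _ b)
    (tdp Q {i} Jm) (tdp_tmul Q {i} Jm) (tdp_bijective Q {i} Jm)
    (tdp Q Jp Jm) (tdp_tmul Q Jp Jm) (tdp_bijective Q Jp Jm) N0 hN

lemma ind2_m (Q : QD k I) (Jp : Set I) {Jm : Set I} {i : I} (hi : i ∈ Jm)
    (N0 : Submodule k (HA Q Jm))
    (hN : Function.Bijective (TensorProduct.lift
        ((LinearMap.mul k (HA Q Jm)).compl₁₂ N0.subtype
          (HA.incl Q (Set.singleton_subset_iff.2 hi)).toLinearMap))) :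
    Function.Bijective (mulN (Q.inc (Set.Subset.refl Jp) (Set.singleton_subset_iff.2 hi))
      (N0.map (HA.um Q Jp Jm).toLinearMap)) :=
  ind2_bij_step (Q.inc (Set.Subset.refl Jp) (Set.singleton_subset_iff.2 hi))
    (HA.incl Q (Set.singleton_subset_iff.2 hi)) (HA.um Q Jp Jm) (HA.um Q Jp {i})
    (fun x => ind2_incl_um Q _ _ x)
    (QA.incl Q (le_refl Jp) (Set.empty_subset {i})) (QA.incl Q (le_refl Jp) (Set.empty_subset Jm))
    (fun b => ind2_incl_comp_apply Q _ _ _ _ b)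
    (tdm Q Jp {i}) (tdm_tmul Q Jp {i}) (tdm_bijective Q Jp {i})
    (tdm Q Jp Jm) (tdm_tmul Q Jp Jm) (tdm_bijective Q Jp Jm) N0 hN

/-- `𝔸(Jp, Jm)` is right free over `𝔸(Jp, ∅)` (`tdm_bijective`) -/
theorem QD.rfree_minus : RFree (Q.inc (Set.Subset.refl Jp) (Set.empty_subset Jm)) :=
  ⟨_, ind2_minus Q Jp Jm⟩

/-- `𝔸(Jp, Jm)` is right free over `𝔸(∅, Jm)` (`tdp_bijective`) -/
theorem QD.rfree_plus : RFree (Q.inc (Set.empty_subset Jp) (Set.Subset.refl Jm)) :=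
  ⟨_, ind2_bij_range (Q.inc (Set.empty_subset Jp) (Set.Subset.refl Jm))
    (HA.up Q Jp Jm).toLinearMap (tdp Q Jp Jm) (tdp_tmul Q Jp Jm) (tdp_bijective Q Jp Jm)⟩

theorem QD.rfree_zero : RFree (Q.inc (Set.empty_subset Jp) (Set.empty_subset Jm)) := by
  have h := RFree.comp (QD.rfree_minus (Q := Q) (Jp := Jp) (Jm := Jm))
    (QD.rfree_plus (Q := Q) (Jp := Jp) (Jm := ∅))
  rw [QD.inc_comp] at h
  exact h

/-- `𝔸(Jp, Jm)` is right free over `𝔸({i}, Jm)` -/
theorem QD.rfree_p {i : I} (hi : i ∈ Jp) :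
    RFree (Q.inc (Set.singleton_subset_iff.2 hi) (Set.Subset.refl Jm)) := by
  obtain ⟨N, -, hN⟩ := HA.exists_compl Q Jp hi
  exact ⟨_, ind2_p Q Jm hi N hN⟩

/-- `𝔸(Jp, Jm)` is right free over `𝔸(Jp, {i})` -/
theorem QD.rfree_m {i : I} (hi : i ∈ Jm) :
    RFree (Q.inc (Set.Subset.refl Jp) (Set.singleton_subset_iff.2 hi)) := by
  obtain ⟨N, -, hN⟩ := HA.exists_compl Q Jm hi
  exact ⟨_, ind2_m Q Jp hi N hN⟩

theorem QD.rfree_Ai {i : I} (hp : i ∈ Jp) (hm : i ∈ Jm) :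
    RFree (Q.inc (Set.singleton_subset_iff.2 hp) (Set.singleton_subset_iff.2 hm)) := by
  have h := RFree.comp (QD.rfree_m (Q := Q) (Jp := Jp) hm)
    (QD.rfree_p (Q := Q) (Jm := {i}) hp)
  rw [QD.inc_comp] at h
  exact h

/-- base change for `𝔸(Jp, {i}) ⊇ A_i, 𝔸(Jp, ∅)` -/
theorem QD.exists_bc_i {i : I} (hi : i ∈ Jp) (Y : Mod (Q.Ai i)) :
    ∃ e : ((Y.res (Q.inc (Set.Subset.refl {i}) (Set.empty_subset {i}))).ind
        (Q.inc (Set.singleton_subset_iff.2 hi) (Set.Subset.refl ∅))).X ≃ₗ[(Q.T Jp ∅).A]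
      ((Y.ind (Q.inc (Set.singleton_subset_iff.2 hi) (Set.Subset.refl {i}))).res
        (Q.inc (Set.Subset.refl Jp) (Set.empty_subset {i}))).X,
      ∀ b (y : Y.X), e (indT (Q.inc (Set.singleton_subset_iff.2 hi) (Set.Subset.refl ∅))
          (Y.res (Q.inc (Set.Subset.refl {i}) (Set.empty_subset {i}))) b y)
        = (indT (Q.inc (Set.singleton_subset_iff.2 hi) (Set.Subset.refl {i})) Y
          ((Q.inc (Set.Subset.refl Jp) (Set.empty_subset {i})).f b) y :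
          (Y.ind (Q.inc (Set.singleton_subset_iff.2 hi) (Set.Subset.refl {i}))).X) := by
  obtain ⟨N, -, hN⟩ := HA.exists_compl Q Jp hi
  have hx : ∀ x : HA Q Jp, QA.incl Q (Set.Subset.refl Jp) (Set.empty_subset {i})
      (HA.up Q Jp ∅ x) = HA.up Q Jp {i} x := by
    intro x
    rw [ind2_incl_up, ind2_HA_incl_refl]
  have hmap : (N.map (HA.up Q Jp {i}).toLinearMap : Submodule k (Q.T Jp {i}).A)
      = (N.map (HA.up Q Jp ∅).toLinearMap : Submodule k (Q.T Jp ∅).A).map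
      (Q.inc (Set.Subset.refl Jp) (Set.empty_subset {i})).f.toLinearMap := by
    refine Submodule.ext fun x => ⟨?_, ?_⟩
    · rintro ⟨n, hn, rfl⟩
      exact ⟨HA.up Q Jp ∅ n, ⟨n, hn, rfl⟩, hx n⟩
    · rintro ⟨_, ⟨n, hn, rfl⟩, rfl⟩
      exact ⟨n, hn, (hx n).symm⟩
  refine exists_baseChange (Q.inc (Set.singleton_subset_iff.2 hi) (Set.Subset.refl {i}))
    (Q.inc (Set.Subset.refl Jp) (Set.empty_subset {i}))
    (Q.inc (Set.Subset.refl {i}) (Set.empty_subset {i}))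
    (Q.inc (Set.singleton_subset_iff.2 hi) (Set.Subset.refl ∅)) ?_
    (N.map (HA.up Q Jp ∅).toLinearMap) (ind2_p Q ∅ hi N hN) (QD.inc_injective _ _) ?_ Y
  · intro x
    exact (ind2_incl_comp_apply Q _ _ _ _ x).trans (ind2_incl_comp_apply Q _ _ _ _ x).symm
  · exact ind2_bij_congr hmap (ind2_p Q {i} hi N hN)

/-- base change for `𝔸(Jp, Jm) ⊇ 𝔸(Jp, ∅), 𝔸(∅, Jm)` -/
theorem QD.exists_bc_minus (Y : Mod (Q.T Jp ∅)) :
    ∃ e : ((Y.res (Q.inc (Set.empty_subset Jp) (Set.Subset.refl ∅))).ind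
        (Q.inc (Set.Subset.refl ∅) (Set.empty_subset Jm))).X ≃ₗ[(Q.T ∅ Jm).A]
      ((Y.ind (Q.inc (Set.Subset.refl Jp) (Set.empty_subset Jm))).res
        (Q.inc (Set.empty_subset Jp) (Set.Subset.refl Jm))).X,
      ∀ b (y : Y.X), e (indT (Q.inc (Set.Subset.refl ∅) (Set.empty_subset Jm))
          (Y.res (Q.inc (Set.empty_subset Jp) (Set.Subset.refl ∅))) b y)
        = (indT (Q.inc (Set.Subset.refl Jp) (Set.empty_subset Jm)) Y
          ((Q.inc (Set.empty_subset Jp) (Set.Subset.refl Jm)).f b) y :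
          (Y.ind (Q.inc (Set.Subset.refl Jp) (Set.empty_subset Jm))).X) := by
  have hx : ∀ x : HA Q Jm, QA.incl Q (Set.empty_subset Jp) (Set.Subset.refl Jm)
      (HA.um Q ∅ Jm x) = HA.um Q Jp Jm x := by
    intro x
    rw [ind2_incl_um, ind2_HA_incl_refl]
  have hmap : (LinearMap.range (HA.um Q Jp Jm).toLinearMap : Submodule k (Q.T Jp Jm).A)
      = (LinearMap.range (HA.um Q ∅ Jm).toLinearMap : Submodule k (Q.T ∅ Jm).A).map
      (Q.inc (Set.empty_subset Jp) (Set.Subset.refl Jm)).f.toLinearMap := by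
    refine Submodule.ext fun x => ⟨?_, ?_⟩
    · rintro ⟨n, rfl⟩
      exact ⟨HA.um Q ∅ Jm n, ⟨n, rfl⟩, hx n⟩
    · rintro ⟨_, ⟨n, rfl⟩, rfl⟩
      exact ⟨n, (hx n).symm⟩
  refine exists_baseChange (Q.inc (Set.Subset.refl Jp) (Set.empty_subset Jm))
    (Q.inc (Set.empty_subset Jp) (Set.Subset.refl Jm))
    (Q.inc (Set.empty_subset Jp) (Set.Subset.refl ∅))
    (Q.inc (Set.Subset.refl ∅) (Set.empty_subset Jm)) ?_
    (LinearMap.range (HA.um Q ∅ Jm).toLinearMap) (ind2_minus Q ∅ Jm) (QD.inc_injective _ _) ?_ Y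
  · intro x
    exact (ind2_incl_comp_apply Q _ _ _ _ x).trans (ind2_incl_comp_apply Q _ _ _ _ x).symm
  · exact ind2_bij_congr hmap (ind2_minus Q Jp Jm)

theorem IsInt.res {i : I} (hi : i ∈ Jp) (hi' : i ∈ Jm) (hp : Jp ⊆ Jp') (hm : Jm ⊆ Jm')
    {M : Mod (Q.T Jp' Jm')} (h : IsInt i M) : IsInt i (M.res (Q.inc hp hm)) := by
  intro x
  obtain ⟨n, h1, h2⟩ := h (show M.X from x)
  refine ⟨n, ?_, ?_⟩
  · rw [Mod.res_smul, map_pow, QD.inc_E Q hp hm hi]
    exact h1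
  · rw [Mod.res_smul, map_pow, QD.inc_F Q hp hm hi']
    exact h2

/-- modules induced from integrable modules are integrable -/
theorem IsInt.ind {i : I} (hi : i ∈ Jp) (hi' : i ∈ Jm) (hp : Jp ⊆ Jp') (hm : Jm ⊆ Jm')
    {Y : Mod (Q.T Jp Jm)} (h : IsInt i Y) : IsInt i (Y.ind (Q.inc hp hm)) := by
  refine IsInt.of_span (hp hi) (hm hi') (Set.range fun y => indT (Q.inc hp hm) Y 1 y) ?_ ?_
  · rintro _ ⟨y, rfl⟩
    obtain ⟨n, h1, h2⟩ := h y
    refine ⟨n, ?_, ?_⟩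
    · show Q.gE Jp' Jm' i ^ n • indT (Q.inc hp hm) Y 1 y = 0
      rw [smul_indT, mul_one, ← QD.inc_E Q hp hm hi, ← map_pow,
        ← one_mul ((Q.inc hp hm).f _), indT_mul, h1, indT_zero_right]
    · show Q.gF Jp' Jm' i ^ n • indT (Q.inc hp hm) Y 1 y = 0
      rw [smul_indT, mul_one, ← QD.inc_F Q hp hm hi', ← map_pow,
        ← one_mul ((Q.inc hp hm).f _), indT_mul, h2, indT_zero_right]
  · rw [eq_top_iff]
    rintro x -
    refine ind_induction (Q.inc hp hm) Y (p := fun x => x ∈ Submodule.span (Q.T Jp' Jm').A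
      (Set.range fun y => indT (Q.inc hp hm) Y 1 y)) x (zero_mem _) (fun a y => ?_)
      (fun x y hx hy => add_mem hx hy)
    have e : indT (Q.inc hp hm) Y a y = a • indT (Q.inc hp hm) Y 1 y := by
      rw [smul_indT, mul_one]
    show indT (Q.inc hp hm) Y a y ∈ _
    rw [e]
    exact Submodule.smul_mem _ _ (Submodule.subset_span ⟨y, rfl⟩)

end Pool.Agent.Lib.QG
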