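import Pool.Agent.Lib.MP_021f05_al.Names

/-!
# MP_021f05_al (B3): twists and `q ↦ q⁻¹`
-/

noncomputable section

namespace Pool.Agent.Lib.QG

open MvPolynomial

variable {k : Type} [Field k] {I : Type} [Fintype I] [DecidableEq I] {Q : QD k I}
  {Jp Jp' : Set I}

/-! ### auxiliary facts -/

/-- the twist as an algebra map of `QA` -/
def Tw_t (Q : QD k I) (Jp : Set I) (μ : I → ℤ) : QA Q Jp ∅ →ₐ[k] QA Q Jp ∅ := (Q.twE Jp μ).lift

lemma Tw_t_E (μ : I → ℤ) (i : I) :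
    Tw_t Q Jp μ ((QA.elts Q Jp ∅).E i) = (QA.elts Q Jp ∅).E i := (Q.twE Jp μ).lift_E i

lemma Tw_t_F (μ : I → ℤ) (i : I) :
    Tw_t Q Jp μ ((QA.elts Q Jp ∅).F i) = (QA.elts Q Jp ∅).F i := (Q.twE Jp μ).lift_F i

lemma Tw_t_K (μ : I → ℤ) (i : I) :
    Tw_t Q Jp μ ((QA.elts Q Jp ∅).K i) = Q.χ μ i • (QA.elts Q Jp ∅).K i :=
  (Q.twE Jp μ).lift_K i

lemma Tw_t_L (μ : I → ℤ) (i : I) :
    Tw_t Q Jp μ ((QA.elts Q Jp ∅).L i) = (Q.χ μ i)⁻¹ • (QA.elts Q Jp ∅).L i :=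
  (Q.twE Jp μ).lift_L i

lemma Tw_t_zero : Tw_t Q Jp 0 = AlgHom.id k _ := by
  refine QA.hom_ext (fun i => ?_) (fun i => ?_) (fun i => ?_)
  · exact Tw_t_E 0 i
  · exact Tw_t_F 0 i
  · rw [Tw_t_K, QD.χ_zero, one_smul, AlgHom.id_apply]

lemma Tw_t_add (μ ν : I → ℤ) : (Tw_t Q Jp μ).comp (Tw_t Q Jp ν) = Tw_t Q Jp (μ + ν) := by
  refine QA.hom_ext (fun i => ?_) (fun i => ?_) (fun i => ?_)
  · rw [AlgHom.comp_apply, Tw_t_E, Tw_t_E, Tw_t_E]
  · rw [AlgHom.comp_apply, Tw_t_F, Tw_t_F, Tw_t_F]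
  · rw [AlgHom.comp_apply, Tw_t_K, map_smul, Tw_t_K, Tw_t_K, QD.χ_add, mul_comm, mul_smul]

lemma Tw_t_inc (h : Jp ⊆ Jp') (μ : I → ℤ) :
    (Tw_t Q Jp' μ).comp (QA.incl Q h (Set.Subset.refl ∅))
      = (QA.incl Q h (Set.Subset.refl ∅)).comp (Tw_t Q Jp μ) := by
  have hE : ∀ i, QA.incl Q h (Set.Subset.refl ∅) ((QA.elts Q Jp ∅).E i)
      = (QElts.restrict Q h (Set.Subset.refl ∅)).E i := fun i => QElts.lift_E _ i
  have hK : ∀ i, QA.incl Q h (Set.Subset.refl ∅) ((QA.elts Q Jp ∅).K i)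
      = (QA.elts Q Jp' ∅).K i := fun i => QElts.lift_K _ i
  refine QA.hom_ext (fun i => ?_) (fun i => ?_) (fun i => ?_)
  · rw [AlgHom.comp_apply, AlgHom.comp_apply, Tw_t_E, hE i]
    show Tw_t Q Jp' μ (open Classical in if i ∈ Jp then (QA.elts Q Jp' ∅).E i else 0)
      = (open Classical in if i ∈ Jp then (QA.elts Q Jp' ∅).E i else 0)
    split_ifs
    · exact Tw_t_E μ i
    · exact map_zero _
  · have e2 : (QA.elts Q Jp ∅).F i = 0 := (QA.elts Q Jp ∅).F0 i (Set.notMem_empty i)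
    rw [e2, map_zero, map_zero]
  · rw [AlgHom.comp_apply, AlgHom.comp_apply, Tw_t_K, hK i, map_smul, hK i, Tw_t_K]

lemma Tw_twA_E (μ : I → ℤ) (i : I) :
    Q.twA Jp μ (Q.gE Jp ∅ i) = Q.gE Jp ∅ i := (Q.twE Jp μ).lift_E i

lemma Tw_twA_K (μ : I → ℤ) (i : I) :
    Q.twA Jp μ ((Q.T Jp ∅).K i : (Q.T Jp ∅).A) = Q.χ μ i • ((Q.T Jp ∅).K i : (Q.T Jp ∅).A) :=
  (Q.twE Jp μ).lift_K i

lemma Tw_twA_L (μ : I → ℤ) (i : I) :
    Q.twA Jp μ ((((Q.T Jp ∅).K i)⁻¹ : (Q.T Jp ∅).Aˣ) : (Q.T Jp ∅).A)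
      = (Q.χ μ i)⁻¹ • ((((Q.T Jp ∅).K i)⁻¹ : (Q.T Jp ∅).Aˣ) : (Q.T Jp ∅).A) :=
  (Q.twE Jp μ).lift_L i

lemma Tw_twA_zero (a : (Q.T Jp ∅).A) : Q.twA Jp 0 a = a :=
  AlgHom.congr_fun (Tw_t_zero (Q := Q) (Jp := Jp)) a

lemma Tw_twA_add (μ ν : I → ℤ) (a : (Q.T Jp ∅).A) :
    Q.twA Jp μ (Q.twA Jp ν a) = Q.twA Jp (μ + ν) a := AlgHom.congr_fun (Tw_t_add μ ν) a

lemma Tw_twA_inc (h : Jp ⊆ Jp') (μ : I → ℤ) (a : (Q.T Jp ∅).A) :
    Q.twA Jp' μ ((Q.inc h (Set.Subset.refl ∅)).f a)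
      = (Q.inc h (Set.Subset.refl ∅)).f (Q.twA Jp μ a) := AlgHom.congr_fun (Tw_t_inc h μ) a

/-- the action on a twist -/
lemma Tw_smul {M : Mod (Q.T Jp ∅)} (μ : I → ℤ) (a : (Q.T Jp ∅).A) (x : M.X) :
    a • twx μ x = twx μ (Q.twA Jp μ a • x) := rfl

/-- weight vectors of a twist -/
theorem twx_mem_wts {M : Mod (Q.T Jp ∅)} (μ ν : I → ℤ) (x : M.X) :
    twx μ x ∈ wts Q (M.tw μ) (μ + ν) ↔ x ∈ wts Q M ν := by
  have key : ∀ i, (((Q.T Jp ∅).K i : (Q.T Jp ∅).A) • twx μ x = Q.χ (μ + ν) i • twx μ x)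
      ↔ (((Q.T Jp ∅).K i : (Q.T Jp ∅).A) • x = Q.χ ν i • x) := by
    intro i
    rw [tw_K, QD.χ_add, mul_smul, ← twx_smulk, ← twx_smulk]
    constructor
    · intro h
      have h' : Q.χ μ i • (((Q.T Jp ∅).K i : (Q.T Jp ∅).A) • x) = Q.χ μ i • Q.χ ν i • x := h
      exact smul_right_injective M.X (QD.χ_ne (Q := Q) μ i) h'
    · intro h
      rw [h]
  exact forall_congr' key

theorem IsWt.tw {M : Mod (Q.T Jp ∅)} (h : IsWt Q M) (μ : I → ℤ) : IsWt Q (M.tw μ) := by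
  unfold IsWt
  rw [eq_top_iff]
  intro x _
  obtain ⟨f, hf, hx⟩ := h.exists_sum (show M.X from x)
  have hx' : x = ∑ ν ∈ f.support, twx μ (f ν) := hx
  rw [hx']
  exact Submodule.sum_mem _ fun ν _ =>
    Submodule.mem_iSup_of_mem (μ + ν) ((twx_mem_wts μ ν (f ν)).2 (hf ν))

/-- twist of short exact sequences -/
theorem exists_tw_ses {M' M M'' : Mod (Q.T Jp ∅)} (S : ModSES M' M M'') (μ : I → ℤ) :
    ∃ S' : ModSES (M'.tw μ) (M.tw μ) (M''.tw μ), S'.i = twMap μ S.i ∧ S'.p = twMap μ S.p := by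
  refine ⟨{ i := twMap μ S.i
            p := twMap μ S.p
            inj := S.inj
            surj := S.surj
            exact := S.exact
            split := ?_ }, rfl, rfl⟩
  obtain ⟨ρ, h1, h2⟩ := S.split
  refine ⟨ρ, h1, fun j x => ?_⟩
  have e1 : (((Q.T Jp ∅).K j : (Q.T Jp ∅).A) • x : (M.tw μ).X)
      = twx μ (Q.χ μ j • (((Q.T Jp ∅).K j : (Q.T Jp ∅).A) • (show M.X from x))) :=
    tw_K M μ j x
  have e2 : ∀ y : M'.X, (((Q.T Jp ∅).K j : (Q.T Jp ∅).A) • twx μ y : (M'.tw μ).X)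
      = twx μ (Q.χ μ j • (((Q.T Jp ∅).K j : (Q.T Jp ∅).A) • y)) := fun y => tw_K M' μ j y
  rw [e1]
  refine Eq.trans ?_ (e2 (ρ x)).symm
  refine (map_smul ρ (Q.χ μ j) (((Q.T Jp ∅).K j : (Q.T Jp ∅).A) • (show M.X from x))).trans ?_
  exact congrArg (fun y => Q.χ μ j • y) (h2 j x)

/-- the twist by zero -/
theorem exists_tw_zero (M : Mod (Q.T Jp ∅)) :
    ∃ e : (M.tw 0).X ≃ₗ[(Q.T Jp ∅).A] M.X, ∀ x, e (twx 0 x) = x := by
  refine ⟨{ toFun := fun x => (show M.X from x)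
            invFun := fun x => twx 0 x
            map_add' := fun x y => rfl
            map_smul' := fun a x => ?_
            left_inv := fun x => rfl
            right_inv := fun x => rfl }, fun x => rfl⟩
  show Q.twA Jp 0 a • (show M.X from x) = a • (show M.X from x)
  rw [Tw_twA_zero]

theorem exists_tw_tw (M : Mod (Q.T Jp ∅)) (μ ν : I → ℤ) :
    ∃ e : ((M.tw μ).tw ν).X ≃ₗ[(Q.T Jp ∅).A] (M.tw (μ + ν)).X,
      ∀ x : M.X, e (twx ν (twx μ x)) = twx (μ + ν) x := by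
  refine ⟨{ toFun := fun x => (show M.X from x)
            invFun := fun x => (show M.X from x)
            map_add' := fun x y => rfl
            map_smul' := fun a x => ?_
            left_inv := fun x => rfl
            right_inv := fun x => rfl }, fun x => rfl⟩
  show Q.twA Jp μ (Q.twA Jp ν a) • (show M.X from x) = Q.twA Jp (μ + ν) a • (show M.X from x)
  rw [Tw_twA_add]

/-- twist and restriction -/
theorem exists_tw_res (h : Jp ⊆ Jp') (M : Mod (Q.T Jp' ∅)) (μ : I → ℤ) :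
    ∃ e : ((M.tw μ).res (Q.inc h (Set.Subset.refl ∅))).X ≃ₗ[(Q.T Jp ∅).A]
      ((M.res (Q.inc h (Set.Subset.refl ∅))).tw μ).X,
      ∀ x : M.X, e (twx μ x : (M.tw μ).X)
        = twx μ (x : (M.res (Q.inc h (Set.Subset.refl ∅))).X) := by
  refine ⟨{ toFun := fun x => (show M.X from x)
            invFun := fun x => (show M.X from x)
            map_add' := fun x y => rfl
            map_smul' := fun a x => ?_
            left_inv := fun x => rfl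
            right_inv := fun x => rfl }, fun x => rfl⟩
  show Q.twA Jp' μ ((Q.inc h (Set.Subset.refl ∅)).f a) • (show M.X from x)
    = (Q.inc h (Set.Subset.refl ∅)).f (Q.twA Jp μ a) • (show M.X from x)
  rw [Tw_twA_inc]

omit [Fintype I] [DecidableEq I] in
/-- the universal property of the induced module, for functions -/
def Tw_lift {T' T : TAlg k I} (φ : THom T' T) (Y : Mod T') (M : Mod T) (f : Y.X → M.X)
    (h1 : ∀ x y, f (x + y) = f x + f y) (h2 : ∀ a y, f (a • y) = φ.f a • f y) :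
    (Y.ind φ).X →ₗ[T.A] M.X :=
  indLift φ Y (M := M) { toFun := f, map_add' := h1, map_smul' := h2 }

omit [Fintype I] [DecidableEq I] in
lemma Tw_lift_T {T' T : TAlg k I} (φ : THom T' T) (Y : Mod T') (M : Mod T) (f : Y.X → M.X)
    (h1 : ∀ x y, f (x + y) = f x + f y) (h2 : ∀ a y, f (a • y) = φ.f a • f y) (y : Y.X) :
    Tw_lift φ Y M f h1 h2 (indT φ Y 1 y) = f y :=
  (indLift_T φ Y (M := M) { toFun := f, map_add' := h1, map_smul' := h2 } 1 y).trans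
    (one_smul T.A (f y))

/-- the underlying element of an element of a twist -/
def Tw_u {M : Mod (Q.T Jp ∅)} (μ : I → ℤ) (x : (M.tw μ).X) : M.X := x

lemma Tw_u_smul {M : Mod (Q.T Jp ∅)} (μ : I → ℤ) (a : (Q.T Jp ∅).A) (x : (M.tw μ).X) :
    Tw_u μ (a • x) = Q.twA Jp μ a • Tw_u μ x := rfl

lemma Tw_u_add {M : Mod (Q.T Jp ∅)} (μ : I → ℤ) (x y : (M.tw μ).X) :
    Tw_u μ (x + y) = Tw_u μ x + Tw_u μ y := rfl

section twind
variable (h : Jp ⊆ Jp') (Y : Mod (Q.T Jp ∅)) (μ : I → ℤ)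

lemma Tw_F_smul (a : (Q.T Jp ∅).A) (y : (Y.tw μ).X) :
    twx μ (indT (Q.inc h (Set.Subset.refl ∅)) Y 1 (Tw_u μ (a • y)))
      = (Q.inc h (Set.Subset.refl ∅)).f a •
        twx μ (indT (Q.inc h (Set.Subset.refl ∅)) Y 1 (Tw_u μ y)) := by
  rw [Tw_u_smul, Tw_smul, smul_indT, mul_one, Tw_twA_inc, ← indT_mul, one_mul]

/-- the forward map -/
def Tw_F : ((Y.tw μ).ind (Q.inc h (Set.Subset.refl ∅))).X →ₗ[(Q.T Jp' ∅).A]
    ((Y.ind (Q.inc h (Set.Subset.refl ∅))).tw μ).X :=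
  Tw_lift (Q.inc h (Set.Subset.refl ∅)) (Y.tw μ) ((Y.ind (Q.inc h (Set.Subset.refl ∅))).tw μ)
    (fun y => twx μ (indT (Q.inc h (Set.Subset.refl ∅)) Y 1 (Tw_u μ y)))
    (fun x y => by rw [Tw_u_add, indT_add_right, twx_add]) (Tw_F_smul h Y μ)

lemma Tw_F_T (y : Y.X) : Tw_F h Y μ (indT (Q.inc h (Set.Subset.refl ∅)) (Y.tw μ) 1 (twx μ y))
    = twx μ (indT (Q.inc h (Set.Subset.refl ∅)) Y 1 y) :=
  Tw_lift_T (Q.inc h (Set.Subset.refl ∅)) (Y.tw μ) _ _ _ _ _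

lemma Tw_G_smul (a : (Q.T Jp ∅).A) (y : Y.X) :
    twx (-μ) (indT (Q.inc h (Set.Subset.refl ∅)) (Y.tw μ) 1 (twx μ (a • y)))
      = (Q.inc h (Set.Subset.refl ∅)).f a •
        twx (-μ) (indT (Q.inc h (Set.Subset.refl ∅)) (Y.tw μ) 1 (twx μ y)) := by
  rw [Tw_smul, smul_indT, mul_one, Tw_twA_inc, ← one_mul ((Q.inc h (Set.Subset.refl ∅)).f _),
    indT_mul, Tw_smul, Tw_twA_add, add_neg_cancel, Tw_twA_zero]

/-- the backward map, untwisted -/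
def Tw_G : (Y.ind (Q.inc h (Set.Subset.refl ∅))).X →ₗ[(Q.T Jp' ∅).A]
    (((Y.tw μ).ind (Q.inc h (Set.Subset.refl ∅))).tw (-μ)).X :=
  Tw_lift (Q.inc h (Set.Subset.refl ∅)) Y (((Y.tw μ).ind (Q.inc h (Set.Subset.refl ∅))).tw (-μ))
    (fun y => twx (-μ) (indT (Q.inc h (Set.Subset.refl ∅)) (Y.tw μ) 1 (twx μ y)))
    (fun x y => by rw [twx_add, indT_add_right, twx_add]) (Tw_G_smul h Y μ)

lemma Tw_G_T (y : Y.X) : Tw_G h Y μ (indT (Q.inc h (Set.Subset.refl ∅)) Y 1 y)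
    = twx (-μ) (indT (Q.inc h (Set.Subset.refl ∅)) (Y.tw μ) 1 (twx μ y)) :=
  Tw_lift_T (Q.inc h (Set.Subset.refl ∅)) Y _ _ _ _ _

/-- a map into a twist gives a map from a twist -/
def Tw_adj {M N : Mod (Q.T Jp' ∅)} (g : M.X →ₗ[(Q.T Jp' ∅).A] (N.tw (-μ)).X) :
    (M.tw μ).X →ₗ[(Q.T Jp' ∅).A] N.X where
  toFun x := Tw_u (-μ) (g (Tw_u μ x))
  map_add' x y := by rw [Tw_u_add, map_add, Tw_u_add]
  map_smul' a x := by
    rw [Tw_u_smul, map_smul, Tw_u_smul, Tw_twA_add, neg_add_cancel, Tw_twA_zero]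
    rfl

lemma Tw_adj_apply {M N : Mod (Q.T Jp' ∅)} (g : M.X →ₗ[(Q.T Jp' ∅).A] (N.tw (-μ)).X) (x : M.X) :
    Tw_adj μ g (twx μ x) = Tw_u (-μ) (g x) := rfl

lemma Tw_G'_T (y : Y.X) :
    Tw_adj μ (Tw_G h Y μ) (twx μ (indT (Q.inc h (Set.Subset.refl ∅)) Y 1 y))
    = indT (Q.inc h (Set.Subset.refl ∅)) (Y.tw μ) 1 (twx μ y) := by
  rw [Tw_adj_apply, Tw_G_T]
  rfl

end twind

/-- twist and induction -/
theorem exists_tw_ind (h : Jp ⊆ Jp') (Y : Mod (Q.T Jp ∅)) (μ : I → ℤ) :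
    ∃ e : ((Y.tw μ).ind (Q.inc h (Set.Subset.refl ∅))).X ≃ₗ[(Q.T Jp' ∅).A]
      ((Y.ind (Q.inc h (Set.Subset.refl ∅))).tw μ).X,
      ∀ y, e (indT (Q.inc h (Set.Subset.refl ∅)) (Y.tw μ) 1 (twx μ y))
        = twx μ (indT (Q.inc h (Set.Subset.refl ∅)) Y 1 y) := by
  refine ⟨LinearEquiv.ofLinearMap (Tw_F h Y μ) (Tw_adj μ (Tw_G h Y μ)) ?_ ?_,
    fun y => Tw_F_T h Y μ y⟩
  · refine LinearMap.ext fun x => ?_
    have key : ∀ x : (Y.ind (Q.inc h (Set.Subset.refl ∅))).X,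
        Tw_F h Y μ (Tw_adj μ (Tw_G h Y μ) (twx μ x)) = twx μ x := by
      intro x
      refine ind_induction (Q.inc h (Set.Subset.refl ∅)) Y
        (p := fun x => Tw_F h Y μ (Tw_adj μ (Tw_G h Y μ) (twx μ x)) = twx μ x) x ?_
        (fun a y => ?_) (fun x y hx hy => ?_)
      · have : twx μ (0 : (Y.ind (Q.inc h (Set.Subset.refl ∅))).X) = 0 := rfl
        rw [this, map_zero, map_zero]
      · have e1 : twx μ (indT (Q.inc h (Set.Subset.refl ∅)) Y a y)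
            = Q.twA Jp' (-μ) a • twx μ (indT (Q.inc h (Set.Subset.refl ∅)) Y 1 y) := by
          rw [Tw_smul, Tw_twA_add, add_neg_cancel, Tw_twA_zero, smul_indT, mul_one]
        rw [e1, map_smul, map_smul, Tw_G'_T, Tw_F_T]
      · rw [twx_add, map_add, map_add, hx, hy]
    exact key x
  · refine ind_hom_ext (Q.inc h (Set.Subset.refl ∅)) (Y.tw μ) fun y => ?_
    have e1 := Tw_F_T h Y μ (Tw_u μ y)
    have e2 := Tw_G'_T h Y μ (Tw_u μ y)
    rw [LinearMap.comp_apply]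
    exact (congrArg (Tw_adj μ (Tw_G h Y μ)) e1).trans e2

/-- the generator of `k_μ` has weight `μ` and spans -/
theorem kv_mem (Jp : Set I) (μ : I → ℤ) : Q.kv Jp μ ∈ wts Q (Q.km Jp μ) μ := by
  intro i
  refine (tw_K (triv (Q.T Jp ∅)) μ i (vt (Q.T Jp ∅) 1)).trans ?_
  rw [triv_smul, (Q.T Jp ∅).ε_K, one_mul]
  rfl

theorem km_span (Jp : Set I) (μ : I → ℤ) (x : (Q.km Jp μ).X) : ∃ t : k, x = t • Q.kv Jp μ := by
  refine ⟨tv (T := Q.T Jp ∅) x, ?_⟩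
  show (show k from x) = (show k from x) • (1 : k)
  rw [smul_eq_mul, mul_one]

theorem km_isWt (Jp : Set I) (μ : I → ℤ) : IsWt Q (Q.km Jp μ) := by
  unfold IsWt
  rw [eq_top_iff]
  intro x _
  obtain ⟨t, rfl⟩ := km_span (Q := Q) Jp μ x
  exact Submodule.mem_iSup_of_mem μ (Submodule.smul_mem _ t (kv_mem Jp μ))

theorem km_E (Jp : Set I) (μ : I → ℤ) (i : I) (x : (Q.km Jp μ).X) : Q.gE Jp ∅ i • x = 0 := by
  refine (tw_E (triv (Q.T Jp ∅)) μ i (show (triv (Q.T Jp ∅)).X from x)).trans ?_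
  rw [triv_smul]
  have h : (Q.T Jp ∅).ε (Q.gE Jp ∅ i) = 0 := (QElts.eps Q Jp ∅).lift_E i
  rw [h, zero_mul]
  rfl

theorem kv_ne (Jp : Set I) (μ : I → ℤ) : Q.kv Jp μ ≠ 0 := by
  intro h
  have h' : (1 : k) = 0 := h
  exact one_ne_zero h'

/-- induction for the elements of `𝔸(Jp, Jm)` -/
lemma Tw_induction {Jm : Set I} {p : (Q.T Jp Jm).A → Prop}
    (hs : ∀ t : k, p (algebraMap k _ t)) (hE : ∀ i, p (Q.gE Jp Jm i))
    (hF : ∀ i, p (Q.gF Jp Jm i)) (hK : ∀ i, p ((Q.T Jp Jm).K i : (Q.T Jp Jm).A))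
    (hL : ∀ i, p ((((Q.T Jp Jm).K i)⁻¹ : (Q.T Jp Jm).Aˣ) : (Q.T Jp Jm).A))
    (hadd : ∀ x y, p x → p y → p (x + y))
    (hmul : ∀ x y, p x → p y → p (x * y)) (x : (Q.T Jp Jm).A) : p x :=
  QA.induction hs hE hF hK hL hadd hmul x

omit [Fintype I] [DecidableEq I] in
lemma Tw_smulk {T : TAlg k I} {M : Mod T} (a : T.A) (t : k) (x : M.X) :
    a • (t • x) = t • (a • x) := by
  rw [← algebraMap_smul T.A t x, smul_smul, ← Algebra.commutes, mul_smul, algebraMap_smul]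

/-- the character by which the algebra acts -/
lemma Tw_char {M : Mod (Q.T Jp ∅)} {μ : I → ℤ} {v : M.X} (hv : v ∈ wts Q M μ)
    (hE : ∀ i ∈ Jp, Q.gE Jp ∅ i • v = 0) (a : (Q.T Jp ∅).A) :
    a • v = (Q.T Jp ∅).ε (Q.twA Jp μ a) • v := by
  refine Tw_induction (p := fun a => a • v = (Q.T Jp ∅).ε (Q.twA Jp μ a) • v)
    ?_ ?_ ?_ ?_ ?_ ?_ ?_ a
  · intro t
    rw [AlgHom.commutes, AlgHom.commutes, algebraMap_smul]
    rfl
  · intro i
    have e1 : (Q.T Jp ∅).ε (Q.gE Jp ∅ i) = 0 := (QElts.eps Q Jp ∅).lift_E i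
    rw [Tw_twA_E, e1, zero_smul]
    by_cases hi : i ∈ Jp
    · exact hE i hi
    · have : Q.gE Jp ∅ i = 0 := (QA.elts Q Jp ∅).E0 i hi
      rw [this, zero_smul]
  · intro i
    have e1 : Q.gF Jp ∅ i = 0 := (QA.elts Q Jp ∅).F0 i (Set.notMem_empty i)
    rw [e1, map_zero, map_zero, zero_smul, zero_smul]
  · intro i
    rw [Tw_twA_K, map_smul, (Q.T Jp ∅).ε_K, hv i, smul_eq_mul, mul_one]
  · intro i
    rw [Tw_twA_L, map_smul, ε_Kinv, smul_eq_mul, mul_one]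
    have h1 : v = (Q.χ μ i) • ((((Q.T Jp ∅).K i)⁻¹ : (Q.T Jp ∅).Aˣ) : (Q.T Jp ∅).A) • v := by
      have h2 := hv i
      have h3 := congrArg (fun y => ((((Q.T Jp ∅).K i)⁻¹ : (Q.T Jp ∅).Aˣ) : (Q.T Jp ∅).A) • y) h2
      simp only [smul_smul, Units.inv_mul, one_smul] at h3
      rw [← Tw_smulk]
      exact h3
    conv_rhs => rw [h1]
    rw [smul_smul, inv_mul_cancel₀ (QD.χ_ne μ i), one_smul]
  · intro x y hx hy
    rw [map_add, map_add, add_smul, add_smul, hx, hy]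
  · intro x y hx hy
    rw [map_mul, map_mul, mul_smul, hy, mul_smul, Tw_smulk, hx, smul_comm]

/-- a vector of weight `μ` killed by all `E_i` receives a map from `k_μ` -/
theorem exists_km_hom {M : Mod (Q.T Jp ∅)} {μ : I → ℤ} {v : M.X} (hv : v ∈ wts Q M μ)
    (hE : ∀ i ∈ Jp, Q.gE Jp ∅ i • v = 0) :
    ∃ f : (Q.km Jp μ).X →ₗ[(Q.T Jp ∅).A] M.X, f (Q.kv Jp μ) = v := by
  refine ⟨{ toFun := fun x => (show k from x) • v
            map_add' := fun x y => add_smul (show k from x) (show k from y) v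
            map_smul' := fun a x => ?_ }, ?_⟩
  · have h1 : ∀ t : k, ((Q.T Jp ∅).ε (Q.twA Jp μ a) * t) • v = a • (t • v) := by
      intro t
      rw [Tw_smulk, Tw_char hv hE a, smul_smul, mul_comm]
    exact h1 x
  · show (1 : k) • v = v
    rw [one_smul]

/-- a module with a one dimensional underlying space of weight `μ` killed by the `E_i` -/
theorem exists_km_equiv {M : Mod (Q.T Jp ∅)} {μ : I → ℤ} {v : M.X} (hv : v ∈ wts Q M μ)
    (hE : ∀ i ∈ Jp, Q.gE Jp ∅ i • v = 0) (h0 : v ≠ 0) (hs : ∀ x, ∃ t : k, x = t • v) :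
    ∃ e : (Q.km Jp μ).X ≃ₗ[(Q.T Jp ∅).A] M.X, e (Q.kv Jp μ) = v := by
  obtain ⟨f, hf⟩ := exists_km_hom hv hE
  have hft : ∀ t : k, f (t • Q.kv Jp μ) = t • v := by
    intro t
    rw [map_smulk, hf]
  refine ⟨LinearEquiv.ofBijective f ⟨?_, ?_⟩, hf⟩
  · rw [injective_iff_map_eq_zero]
    intro x hx
    obtain ⟨t, rfl⟩ := km_span (Q := Q) Jp μ x
    rw [hft] at hx
    rcases smul_eq_zero.1 hx with h | h
    · rw [h, zero_smul]
    · exact absurd h h0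
  · intro x
    obtain ⟨t, rfl⟩ := hs x
    exact ⟨t • Q.kv Jp μ, hft t⟩

lemma Tw_chi_bar (μ : I → ℤ) (i : I) : Q.bar.χ μ i = Q.χ (-μ) i := by
  show (Q.q⁻¹) ^ ((Q.d i : ℤ) * Q.ct i μ) = Q.q ^ ((Q.d i : ℤ) * Q.ct i (-μ))
  have h : Q.ct i (-μ) = - Q.ct i μ := by
    unfold CDatum.ct
    rw [← Finset.sum_neg_distrib]
    refine Finset.sum_congr rfl fun j _ => ?_
    rw [Pi.neg_apply, mul_neg]
  rw [h, mul_neg, zpow_neg, inv_zpow]

/-- weights for `q⁻¹` -/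
theorem wts_bar {T : TAlg k I} (M : Mod T) (μ : I → ℤ) : wts Q.bar M μ = wts Q M (-μ) := by
  ext x
  refine forall_congr' fun i => ?_
  rw [Tw_chi_bar]

theorem isWt_bar {T : TAlg k I} (M : Mod T) : IsWt Q.bar M ↔ IsWt Q M := by
  unfold IsWt
  have h : (⨆ μ, wts Q.bar M μ) = ⨆ μ, wts Q M μ := by
    have h1 : (fun μ => wts Q.bar M μ) = fun μ => wts Q M ((Equiv.neg (I → ℤ)) μ) := by
      funext μ; exact wts_bar M μ
    rw [show (⨆ μ, wts Q.bar M μ) = ⨆ μ, wts Q M ((Equiv.neg (I → ℤ)) μ) from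
      congrArg iSup h1]
    exact Equiv.iSup_comp (g := fun μ => wts Q M μ) (Equiv.neg (I → ℤ))
  rw [h]

lemma Tw_qn (p : k) (n : ℤ) : qn p⁻¹ n = qn p n := by
  unfold qn
  rw [inv_inv, inv_zpow, inv_zpow, ← zpow_neg, ← zpow_neg, neg_neg,
    ← neg_sub (p ^ n) (p ^ (-n)), ← neg_sub p p⁻¹, neg_div_neg_eq]

lemma Tw_qf (p : k) (n : ℕ) : qf p⁻¹ n = qf p n := by
  unfold qf
  exact Finset.prod_congr rfl fun s _ => Tw_qn p _

lemma Tw_qb (p : k) (n s : ℕ) : qb p⁻¹ n s = qb p n s := by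
  unfold qb
  rw [Tw_qf, Tw_qf, Tw_qf]

lemma Tw_serre {A : Type} [Ring A] [Algebra k A] (p : k) (n : ℕ) (x y : A) :
    serre p⁻¹ n x y = serre p n x y := by
  unfold serre
  refine Finset.sum_congr rfl fun s _ => ?_
  rw [Tw_qb]

/-- exchanging `E` and `F` -/
def Tw_swap {Q Q' : QD k I} (hc : Q'.toCDatum = Q.toCDatum) (hq : Q'.q = Q.q⁻¹) {Jp Jm : Set I}
    {B : Type} [Ring B] [Algebra k B] (e : QElts Q Jp Jm B) : QElts Q' Jm Jp B :=
  have hd : Q'.d = Q.d := congrArg CDatum.d hc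
  have ha : Q'.a = Q.a := congrArg CDatum.a hc
  have hqi : ∀ i, Q'.qi i = (Q.qi i)⁻¹ := fun i => by
    unfold QD.qi
    rw [hq, hd, inv_pow]
  { E := e.F
    F := e.E
    K := e.K
    L := e.L
    KL := e.KL
    LK := e.LK
    KK := e.KK
    KE := fun i j => by
      rw [e.KF, hq, hd, ha, inv_zpow, ← zpow_neg]
    KF := fun i j => by
      rw [e.KE, hq, hd, ha, inv_zpow, ← zpow_neg, neg_neg]
    EF := fun i j hi hj => by
      have h := e.EF j i hj hi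
      rw [h, hqi]
      by_cases hij : i = j
      · subst hij
        rw [if_pos rfl, if_pos rfl, add_assoc, ← add_smul, inv_inv]
        have : (Q.qi i - (Q.qi i)⁻¹)⁻¹ + ((Q.qi i)⁻¹ - Q.qi i)⁻¹ = 0 := by
          rw [← neg_sub (Q.qi i) (Q.qi i)⁻¹, inv_neg, add_neg_cancel]
        rw [this, zero_smul, add_zero]
      · rw [if_neg hij, if_neg (fun h => hij h.symm), add_zero, add_zero]
    E0 := e.F0
    F0 := e.E0
    SE := fun i j hi hj hij => by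
      rw [hqi, ha, Tw_serre]
      exact e.SF i j hi hj hij
    SF := fun i j hi hj hij => by
      rw [hqi, ha, Tw_serre]
      exact e.SE i j hi hj hij }

/-- the isomorphism `𝔸_q(Jp, Jm) ≅ 𝔸_{q⁻¹}(Jm, Jp)` exchanging `E` and `F` and fixing the `K` -/
theorem exists_bar (Q : QD k I) (Jp Jm : Set I) :
    ∃ φ : THom (Q.T Jp Jm) (Q.bar.T Jm Jp), Function.Bijective φ.f ∧
      (∀ i, φ.f (Q.gE Jp Jm i) = Q.bar.gF Jm Jp i) ∧
      (∀ i, φ.f (Q.gF Jp Jm i) = Q.bar.gE Jm Jp i) := by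
  let e1 : QElts Q Jp Jm (QA Q.bar Jm Jp) :=
    Tw_swap (Q := Q.bar) (Q' := Q) rfl (inv_inv Q.q).symm (QA.elts Q.bar Jm Jp)
  let e2 : QElts Q.bar Jm Jp (QA Q Jp Jm) :=
    Tw_swap (Q := Q) (Q' := Q.bar) rfl rfl (QA.elts Q Jp Jm)
  have h12 : e1.lift.comp e2.lift = AlgHom.id k _ := by
    refine QA.hom_ext (fun i => ?_) (fun i => ?_) (fun i => ?_)
    · rw [AlgHom.comp_apply, QElts.lift_E]
      exact QElts.lift_F e1 i
    · rw [AlgHom.comp_apply, QElts.lift_F]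
      exact QElts.lift_E e1 i
    · rw [AlgHom.comp_apply, QElts.lift_K]
      exact QElts.lift_K e1 i
  have h21 : e2.lift.comp e1.lift = AlgHom.id k _ := by
    refine QA.hom_ext (fun i => ?_) (fun i => ?_) (fun i => ?_)
    · rw [AlgHom.comp_apply, QElts.lift_E]
      exact QElts.lift_F e2 i
    · rw [AlgHom.comp_apply, QElts.lift_F]
      exact QElts.lift_E e2 i
    · rw [AlgHom.comp_apply, QElts.lift_K]
      exact QElts.lift_K e2 i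
  have hε : ((QElts.eps Q.bar Jm Jp).lift).comp e1.lift = (QElts.eps Q Jp Jm).lift := by
    refine QA.hom_ext (fun i => ?_) (fun i => ?_) (fun i => ?_)
    · rw [AlgHom.comp_apply, QElts.lift_E, QElts.lift_E]
      exact QElts.lift_F (QElts.eps Q.bar Jm Jp) i
    · rw [AlgHom.comp_apply, QElts.lift_F, QElts.lift_F]
      exact QElts.lift_E (QElts.eps Q.bar Jm Jp) i
    · rw [AlgHom.comp_apply, QElts.lift_K, QElts.lift_K]
      exact QElts.lift_K (QElts.eps Q.bar Jm Jp) i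
  refine ⟨⟨e1.lift, fun i => QElts.lift_K e1 i, fun a => AlgHom.congr_fun hε a⟩, ?_, ?_, ?_⟩
  · refine ⟨Function.LeftInverse.injective (g := e2.lift) fun a => AlgHom.congr_fun h21 a,
      Function.RightInverse.surjective (g := e2.lift) fun a => AlgHom.congr_fun h12 a⟩
  · intro i
    exact QElts.lift_E e1 i
  · intro i
    exact QElts.lift_F e1 i

end Pool.Agent.Lib.QG
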