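import Pool.Agent.Lib.MP_021f05_al.DerivQ

/-!
# MP_021f05_al (C4): deformations kill linear forms
-/

noncomputable section

namespace Pool.Agent.Lib.QG

open MvPolynomial

variable {k : Type} [Field k] {I : Type} [Fintype I] {T : TAlg k I}

omit [Fintype I] in
theorem XKill_θ_one (M : Mod T) (θ : T.A →ₗ[k] Module.End k M.X)
    (hθ : ∀ a b x, θ (a * b) x = a • θ b x + θ a (b • x)) (x : M.X) : θ 1 x = 0 := by
  have h := hθ 1 1 x
  rw [mul_one, one_smul, one_smul] at h
  exact left_eq_add.1 h

/-- the module structure of the first order deformation -/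
@[reducible] def XKill_module (M : Mod T) (θ : T.A →ₗ[k] Module.End k M.X)
    (hθ : ∀ a b x, θ (a * b) x = a • θ b x + θ a (b • x)) : Module T.A (M.X × M.X) where
  smul := fun a m => (a • m.1, a • m.2 + θ a m.1)
  one_smul := fun m => by
    show ((1 : T.A) • m.1, (1 : T.A) • m.2 + θ 1 m.1) = m
    rw [XKill_θ_one M θ hθ, one_smul, one_smul, add_zero]
  mul_smul := fun a b m => by
    show ((a * b) • m.1, (a * b) • m.2 + θ (a * b) m.1)
      = (a • b • m.1, a • (b • m.2 + θ b m.1) + θ a (b • m.1))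
    rw [hθ, mul_smul, mul_smul, smul_add, add_assoc]
  smul_zero := fun a => by
    show (a • (0 : M.X), a • (0 : M.X) + θ a 0) = (0, 0)
    rw [smul_zero, map_zero, add_zero]
  smul_add := fun a m n => by
    show (a • (m.1 + n.1), a • (m.2 + n.2) + θ a (m.1 + n.1))
      = (a • m.1 + a • n.1, (a • m.2 + θ a m.1) + (a • n.2 + θ a n.1))
    rw [smul_add, smul_add, map_add]
    congr 1; abel
  add_smul := fun a b m => by
    show ((a + b) • m.1, (a + b) • m.2 + θ (a + b) m.1)
      = (a • m.1 + b • m.1, (a • m.2 + θ a m.1) + (b • m.2 + θ b m.1))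
    rw [add_smul, add_smul, map_add, LinearMap.add_apply]
    congr 1; abel
  zero_smul := fun m => by
    show ((0 : T.A) • m.1, (0 : T.A) • m.2 + θ 0 m.1) = (0, 0)
    rw [zero_smul, zero_smul, map_zero, LinearMap.zero_apply, add_zero]

omit [Fintype I] in
theorem XKill_tower (M : Mod T) (θ : T.A →ₗ[k] Module.End k M.X)
    (hθ : ∀ a b x, θ (a * b) x = a • θ b x + θ a (b • x)) :
    @IsScalarTower k T.A (M.X × M.X) _ (XKill_module M θ hθ).toSMul _ :=
  @IsScalarTower.mk k T.A (M.X × M.X) _ (XKill_module M θ hθ).toSMul _ fun t a m => by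
    show ((t • a) • m.1, (t • a) • m.2 + θ (t • a) m.1)
      = (t • a • m.1, t • (a • m.2 + θ a m.1))
    rw [smul_assoc, smul_assoc, map_smul, LinearMap.smul_apply, smul_add]

/-- the first order deformation -/
def XKill_W (M : Mod T) (θ : T.A →ₗ[k] Module.End k M.X)
    (hθ : ∀ a b x, θ (a * b) x = a • θ b x + θ a (b • x)) : Mod T :=
  { X := M.X × M.X
    modA := XKill_module M θ hθ
    tower := XKill_tower M θ hθ }

section W

variable {M : Mod T} {θ : T.A →ₗ[k] Module.End k M.X}
    {hθ : ∀ a b x, θ (a * b) x = a • θ b x + θ a (b • x)}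

/-- elements of the deformation -/
def XKill_mk (x y : M.X) : (XKill_W M θ hθ).X := (x, y)

/-- first component -/
def XKill_fst (w : (XKill_W M θ hθ).X) : M.X := w.1

/-- second component -/
def XKill_snd (w : (XKill_W M θ hθ).X) : M.X := w.2

omit [Fintype I] in
theorem XKill_ext {w w' : (XKill_W M θ hθ).X} (h1 : XKill_fst w = XKill_fst w')
    (h2 : XKill_snd w = XKill_snd w') : w = w' := Prod.ext h1 h2

omit [Fintype I] in
@[simp] theorem XKill_fst_mk (x y : M.X) :
    XKill_fst (XKill_mk (θ := θ) (hθ := hθ) x y) = x := rfl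
omit [Fintype I] in
@[simp] theorem XKill_snd_mk (x y : M.X) :
    XKill_snd (XKill_mk (θ := θ) (hθ := hθ) x y) = y := rfl
omit [Fintype I] in
@[simp] theorem XKill_fst_add (w w' : (XKill_W M θ hθ).X) :
    XKill_fst (w + w') = XKill_fst w + XKill_fst w' := rfl
omit [Fintype I] in
@[simp] theorem XKill_snd_add (w w' : (XKill_W M θ hθ).X) :
    XKill_snd (w + w') = XKill_snd w + XKill_snd w' := rfl
omit [Fintype I] in
@[simp] theorem XKill_fst_smulk (t : k) (w : (XKill_W M θ hθ).X) :
    XKill_fst (t • w) = t • XKill_fst w := rfl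
omit [Fintype I] in
@[simp] theorem XKill_snd_smulk (t : k) (w : (XKill_W M θ hθ).X) :
    XKill_snd (t • w) = t • XKill_snd w := rfl
omit [Fintype I] in
@[simp] theorem XKill_fst_smul (a : T.A) (w : (XKill_W M θ hθ).X) :
    XKill_fst (a • w) = a • XKill_fst w := rfl
omit [Fintype I] in
@[simp] theorem XKill_snd_smul (a : T.A) (w : (XKill_W M θ hθ).X) :
    XKill_snd (a • w) = a • XKill_snd w + θ a (XKill_fst w) := rfl

end W

omit [Fintype I] in
theorem XKill_θ_ad (M : Mod T) (θ : T.A →ₗ[k] Module.End k M.X)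
    (hθ : ∀ a b x, θ (a * b) x = a • θ b x + θ a (b • x)) (c : I → k)
    (hK : ∀ j x, θ (T.K j : T.A) x = c j • ((T.K j : T.A) • x)) (i : I) (a : T.A) (x : M.X) :
    θ (T.ad i a) ((T.K i : T.A) • x) = (T.K i : T.A) • θ a x := by
  have h1 : T.ad i a * (T.K i : T.A) = (T.K i : T.A) * a := by
    show (T.K i : T.A) * a * ((T.K i)⁻¹ : T.Aˣ) * (T.K i : T.A) = _
    rw [mul_assoc, Units.inv_mul, mul_one]
  have h2 : θ (T.ad i a * (T.K i : T.A)) x
      = T.ad i a • θ (T.K i : T.A) x + θ (T.ad i a) ((T.K i : T.A) • x) := hθ _ _ _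
  have h3 : θ ((T.K i : T.A) * a) x
      = (T.K i : T.A) • θ a x + θ (T.K i : T.A) (a • x) := hθ _ _ _
  rw [h1, h3, hK, hK] at h2
  have h4 : T.ad i a • (c i • (T.K i : T.A) • x) = c i • (T.K i : T.A) • a • x := by
    rw [← algebraMap_smul T.A (c i) ((T.K i : T.A) • x), smul_smul, ← Algebra.commutes,
      mul_smul, algebraMap_smul, smul_smul, h1, mul_smul]
  rw [h4, add_comm] at h2
  exact (add_left_cancel h2).symm

/-- the first order deformation with its torus action -/
def XKill_R (M : Mod T) (θ : T.A →ₗ[k] Module.End k M.X)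
    (hθ : ∀ a b x, θ (a * b) x = a • θ b x + θ a (b • x)) (c : I → k)
    (hK : ∀ j x, θ (T.K j : T.A) x = c j • ((T.K j : T.A) • x)) : Rep T where
  toMod := XKill_W M θ hθ
  ω i :=
    { toFun := fun w => XKill_mk ((T.K i : T.A) • XKill_fst w) ((T.K i : T.A) • XKill_snd w)
      invFun := fun w => XKill_mk ((((T.K i)⁻¹ : T.Aˣ) : T.A) • XKill_fst w)
        ((((T.K i)⁻¹ : T.Aˣ) : T.A) • XKill_snd w)
      map_add' := fun w w' => by
        apply XKill_ext (hθ := hθ) <;> simp
      map_smul' := fun t w => by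
        apply XKill_ext (hθ := hθ)
        · exact (M.Kact i).map_smul t _
        · exact (M.Kact i).map_smul t _
      left_inv := fun w => by
        apply XKill_ext (hθ := hθ) <;> simp [smul_smul]
      right_inv := fun w => by
        apply XKill_ext (hθ := hθ) <;> simp [smul_smul] }
  ω_comm i j w := by
    apply XKill_ext (hθ := hθ)
    · exact M.rep.ω_comm i j _
    · exact M.rep.ω_comm i j _
  ω_smul i a w := by
    apply XKill_ext (hθ := hθ)
    · exact M.rep.ω_smul i a _
    · show (T.K i : T.A) • (a • XKill_snd w + θ a (XKill_fst w))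
        = T.ad i a • ((T.K i : T.A) • XKill_snd w) + θ (T.ad i a) ((T.K i : T.A) • XKill_fst w)
      rw [XKill_θ_ad M θ hθ c hK, smul_add]
      congr 1
      exact M.rep.ω_smul i a _

/-- the short exact sequence of the deformation -/
def XKill_S (M : Mod T) (θ : T.A →ₗ[k] Module.End k M.X)
    (hθ : ∀ a b x, θ (a * b) x = a • θ b x + θ a (b • x)) (c : I → k)
    (hK : ∀ j x, θ (T.K j : T.A) x = c j • ((T.K j : T.A) • x)) :
    RepSES M.rep (XKill_R M θ hθ c hK) M.rep where
  i :=
    { f :=
        { toFun := fun x => XKill_mk (θ := θ) (hθ := hθ) 0 x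
          map_add' := fun x y => by
            apply XKill_ext (hθ := hθ)
            · exact (add_zero (0 : M.X)).symm
            · rfl
          map_smul' := fun a x => by
            apply XKill_ext (hθ := hθ)
            · exact (smul_zero a).symm
            · show a • (show M.X from x) = a • (show M.X from x) + θ a 0
              rw [map_zero, add_zero] }
      f_ω := fun i x => by
        apply XKill_ext (hθ := hθ)
        · exact (smul_zero _).symm
        · rfl }
  p :=
    { f :=
        { toFun := fun w => XKill_fst (θ := θ) (hθ := hθ) w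
          map_add' := fun x y => rfl
          map_smul' := fun a x => rfl }
      f_ω := fun i x => rfl }
  inj := fun x y h => congrArg (XKill_snd (θ := θ) (hθ := hθ)) h
  surj := fun x => ⟨XKill_mk (θ := θ) (hθ := hθ) x 0, rfl⟩
  exact := fun w => by
    constructor
    · intro h
      refine ⟨XKill_snd (θ := θ) (hθ := hθ) w, ?_⟩
      apply XKill_ext (hθ := hθ)
      · exact h.symm
      · rfl
    · rintro ⟨y, rfl⟩; rfl
  split := ⟨
    { toFun := fun w => XKill_snd (θ := θ) (hθ := hθ) w
      map_add' := fun x y => rfl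
      map_smul' := fun a x => rfl }, fun y => rfl, fun j x => rfl⟩

/-- the computation behind `lin_kill` -/
theorem XKill_main [CharZero k] (M : Mod T) (θ : T.A →ₗ[k] Module.End k M.X)
    (hθ : ∀ a b x, θ (a * b) x = a • θ b x + θ a (b • x)) (c : I → k)
    (hK : ∀ j x, θ (T.K j : T.A) x = c j • ((T.K j : T.A) • x))
    (f : List T.A → (homCoef M.rep (SS k I)).V) (hf : f ∈ (homCoef M.rep (SS k I)).Coc)
    (hDf : (homCoef M.rep (SS k I)).D f = 0) :
    ∃ g ∈ (homCoef M.rep (SS k I)).Coc, (homCoef M.rep (SS k I)).D g = lin c • f := by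
  set S := XKill_S M θ hθ c hK with hS
  set EE := S.coef (SS k I) with hEE
  have hF := EE.lift_mem hf
  set F : List T.A → (homCoef (XKill_R M θ hθ c hK) (SS k I)).V := fun l => EE.s (f l) with hFdef
  have hDF := (homCoef (XKill_R M θ hθ c hK) (SS k I)).D_mem hF
  have h3 : EE.p.F ((homCoef (XKill_R M θ hθ c hK) (SS k I)).D F) = 0 := by
    rw [← CoefHom.F_D, EE.p_lift]; exact hDf
  have hg := EE.ret_mem hDF
  have hjg := EE.j_ret h3
  set g : List T.A → (homCoef M.rep (SS k I)).V :=
    fun l => EE.ρ ((homCoef (XKill_R M θ hθ c hK) (SS k I)).D F l) with hgdef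
  have key : EE.j.F ((homCoef M.rep (SS k I)).D g) = EE.j.F (-(lin c • f)) := by
    have h4 : EE.j.F ((homCoef M.rep (SS k I)).D g)
        = (homCoef (XKill_R M θ hθ c hK) (SS k I)).D
          ((homCoef (XKill_R M θ hθ c hK) (SS k I)).D F) := by
      rw [← hjg]
      exact (CoefHom.F_D EE.j g).symm
    rw [h4]
    funext l
    rw [Coef.D_D' _ hF l]
    have h5 : ∀ i : I, (X i : MvPolynomial I k) • F l - (X i : MvPolynomial I k) •
        (homCoef (XKill_R M θ hθ c hK) (SS k I)).r (T.K i : T.A)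
          ((homCoef (XKill_R M θ hθ c hK) (SS k I)).κ i (F l))
        = -((C (c i) * X i : MvPolynomial I k) • EE.j.f (f l)) := by
      intro i
      have h6 : (homCoef (XKill_R M θ hθ c hK) (SS k I)).r (T.K i : T.A)
          ((homCoef (XKill_R M θ hθ c hK) (SS k I)).κ i (F l))
          = F l + c i • EE.j.f (f l) := by
        refine ev_ext fun w => ?_
        rw [ev_r, ev_κ, ev_add, ev_smulk]
        have h7 : ((XKill_R M θ hθ c hK).ω i).symm ((T.K i : T.A) • w)
            = w + c i • S.i.f (S.p.f w) := by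
          rw [LinearEquiv.symm_apply_eq]
          apply XKill_ext (hθ := hθ)
          · show (T.K i : T.A) • XKill_fst (θ := θ) (hθ := hθ) w
              = (T.K i : T.A) • (XKill_fst (θ := θ) (hθ := hθ) w + c i • (0 : M.X))
            rw [smul_zero, add_zero]
          · show (T.K i : T.A) • XKill_snd (θ := θ) (hθ := hθ) w
              + θ (T.K i : T.A) (XKill_fst (θ := θ) (hθ := hθ) w)
              = (T.K i : T.A) • (XKill_snd (θ := θ) (hθ := hθ) w
                + c i • XKill_fst (θ := θ) (hθ := hθ) w)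
            rw [hK, smul_add]
            congr 1
            exact ((M.Kact i).map_smul (c i) _).symm
        rw [h7, map_add, map_smul]
        congr 2
        have h8 : EE.p.f (F l) = f l := EE.ps _
        show ev (EE.p.f (F l)) (S.p.f w) = ev (EE.j.f (f l)) w
        rw [h8]
        rfl
      rw [h6, smul_add, sub_add_eq_sub_sub, sub_self, zero_sub, mul_smul, Coef.C_smul,
        Coef.smul_smul_comm']
    rw [Finset.sum_congr rfl fun i _ => h5 i, Finset.sum_neg_distrib, ← Finset.sum_smul]
    show -(lin c • EE.j.f (f l)) = EE.j.f (-(lin c • f l))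
    rw [map_neg, map_smul]
  have h8 := EE.j_inj key
  refine ⟨-g, Submodule.neg_mem _ hg, ?_⟩
  have h9 : (homCoef M.rep (SS k I)).D (-g) = - (homCoef M.rep (SS k I)).D g := by
    simp only [← Coef.Dl_apply, map_neg]
  rw [h9, h8, neg_neg]

/-- If the module `M` has a first order deformation with `K_j` deformed by the factor
`1 + c_j z`, then `x_c` kills `E(M)`. -/
theorem lin_kill [CharZero k] [DecidableEq I] (M : Mod T) (θ : T.A →ₗ[k] Module.End k M.X)
    (hθ : ∀ a b x, θ (a * b) x = a • θ b x + θ a (b • x)) (c : I → k)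
    (hK : ∀ j x, θ (T.K j : T.A) x = c j • ((T.K j : T.A) • x)) (e : E M) : lin c • e = 0 := by
  obtain ⟨z, rfl⟩ := M.coef.cls_surj e
  have hz := M.coef.mem_Z.1 z.2
  rw [← map_smul]
  refine M.coef.cls_eq_zero.2 ?_
  exact XKill_main M θ hθ c hK z.1 hz.1 hz.2

omit [Fintype I] in
theorem XKill_smulk (M : Mod T) (t : k) (a : T.A) (x : M.X) :
    a • t • x = t • a • x := by
  rw [← algebraMap_smul T.A t x, smul_smul, ← Algebra.commutes, mul_smul, algebraMap_smul]

/-- diagonal operators plus a multiple of the nilpotent one: `(x, y) ↦ (a x, a y + t a x)` -/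
def XKill_op (M : Mod T) (t : k) (a : T.A) : Module.End k (M.X × M.X) where
  toFun m := (a • m.1, a • m.2 + t • a • m.1)
  map_add' m n := by
    simp only [Prod.fst_add, Prod.snd_add, smul_add, Prod.mk_add_mk]
    congr 1; abel
  map_smul' s m := by
    simp only [Prod.smul_fst, Prod.smul_snd, RingHom.id_apply, Prod.smul_mk, smul_add,
      XKill_smulk]
    rw [smul_comm t s]

omit [Fintype I] in
theorem XKill_op_mul (M : Mod T) (s t : k) (a b : T.A) :
    XKill_op M s a * XKill_op M t b = XKill_op M (s + t) (a * b) := by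
  refine LinearMap.ext fun m => ?_
  show (a • b • m.1, a • (b • m.2 + t • b • m.1) + s • a • b • m.1)
    = ((a * b) • m.1, (a * b) • m.2 + (s + t) • (a * b) • m.1)
  rw [smul_add, XKill_smulk, mul_smul, mul_smul, add_smul]
  congr 1; abel

omit [Fintype I] in
theorem XKill_op_smul (M : Mod T) (s t : k) (a : T.A) :
    XKill_op M t (s • a) = s • XKill_op M t a := by
  refine LinearMap.ext fun m => ?_
  show ((s • a) • m.1, (s • a) • m.2 + t • (s • a) • m.1)
    = (s • a • m.1, s • (a • m.2 + t • a • m.1))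
  rw [smul_assoc, smul_assoc, smul_add, smul_comm t s]

omit [Fintype I] in
theorem XKill_op_add (M : Mod T) (t : k) (a b : T.A) :
    XKill_op M t (a + b) = XKill_op M t a + XKill_op M t b := by
  refine LinearMap.ext fun m => ?_
  show ((a + b) • m.1, (a + b) • m.2 + t • (a + b) • m.1)
    = (a • m.1 + b • m.1, (a • m.2 + t • a • m.1) + (b • m.2 + t • b • m.1))
  rw [add_smul, add_smul, smul_add]
  congr 1; abel

omit [Fintype I] in
theorem XKill_op_one (M : Mod T) : XKill_op M 0 (1 : T.A) = 1 := by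
  refine LinearMap.ext fun m => ?_
  show ((1 : T.A) • m.1, (1 : T.A) • m.2 + (0 : k) • (1 : T.A) • m.1) = m
  rw [one_smul, one_smul, zero_smul, add_zero]

/-- the diagonal action as an algebra map -/
def XKill_diag (M : Mod T) : T.A →ₐ[k] Module.End k (M.X × M.X) :=
  AlgHom.ofLinearMap
    { toFun := XKill_op M 0
      map_add' := XKill_op_add M 0
      map_smul' := fun s a => XKill_op_smul M s 0 a }
    (XKill_op_one M) (fun a b => by
      show XKill_op M 0 (a * b) = XKill_op M 0 a * XKill_op M 0 b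
      rw [XKill_op_mul, add_zero])

variable [DecidableEq I] {Q : QD k I} {Jp Jm : Set I}

/-- the generators as elements of `(Q.T Jp Jm).A` -/
def XKill_e (Q : QD k I) (Jp Jm : Set I) : QElts Q Jp Jm (Q.T Jp Jm).A := QA.elts Q Jp Jm

/-- the deformed generators -/
def XKill_elts (M : Mod (Q.T Jp Jm)) (c : I → k) (hc : ∀ i, i ∈ Jp → i ∈ Jm → c i = 0) :
    QElts Q Jp Jm (Module.End k (M.X × M.X)) where
  E i := XKill_op M 0 ((XKill_e Q Jp Jm).E i)
  F i := XKill_op M 0 ((XKill_e Q Jp Jm).F i)
  K i := XKill_op M (c i) ((XKill_e Q Jp Jm).K i)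
  L i := XKill_op M (-c i) ((XKill_e Q Jp Jm).L i)
  KL i := by
    rw [XKill_op_mul, add_neg_cancel, (XKill_e Q Jp Jm).KL i, XKill_op_one]
  LK i := by
    rw [XKill_op_mul, neg_add_cancel, (XKill_e Q Jp Jm).LK i, XKill_op_one]
  KK i j := by
    rw [XKill_op_mul, XKill_op_mul, (XKill_e Q Jp Jm).KK i j, add_comm]
  KE i j := by
    rw [XKill_op_mul, XKill_op_mul, (XKill_e Q Jp Jm).KE i j, XKill_op_smul, add_comm]
  KF i j := by
    rw [XKill_op_mul, XKill_op_mul, (XKill_e Q Jp Jm).KF i j, XKill_op_smul, add_comm]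
  EF i j hi hj := by
    rw [XKill_op_mul, XKill_op_mul, (XKill_e Q Jp Jm).EF i j hi hj, XKill_op_add]
    congr 1
    split_ifs with h
    · subst h
      have hsub : ∀ a b : (Q.T Jp Jm).A, XKill_op M 0 (a - b) = XKill_op M 0 a - XKill_op M 0 b :=
        fun a b => map_sub (XKill_diag M) a b
      rw [hc i hi hj, neg_zero, add_zero, XKill_op_smul, hsub]
    · have := XKill_op_smul M 0 (0 + 0) (0 : (Q.T Jp Jm).A)
      rwa [zero_smul, zero_smul] at this
  E0 i hi := by
    rw [(XKill_e Q Jp Jm).E0 i hi]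
    exact map_zero (XKill_diag M)
  F0 i hi := by
    rw [(XKill_e Q Jp Jm).F0 i hi]
    exact map_zero (XKill_diag M)
  SE i j hi hj hij := by
    have h := serre_map (XKill_diag M) (Q.qi i) (1 - Q.a i j).toNat ((XKill_e Q Jp Jm).E i)
      ((XKill_e Q Jp Jm).E j)
    rw [(XKill_e Q Jp Jm).SE i j hi hj hij, map_zero] at h
    exact h.symm
  SF i j hi hj hij := by
    have h := serre_map (XKill_diag M) (Q.qi i) (1 - Q.a i j).toNat ((XKill_e Q Jp Jm).F i)
      ((XKill_e Q Jp Jm).F j)
    rw [(XKill_e Q Jp Jm).SF i j hi hj hij, map_zero] at h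
    exact h.symm

/-- the deformed action -/
def XKill_Θ (M : Mod (Q.T Jp Jm)) (c : I → k) (hc : ∀ i, i ∈ Jp → i ∈ Jm → c i = 0) :
    (Q.T Jp Jm).A →ₐ[k] Module.End k (M.X × M.X) := (XKill_elts M c hc).lift

theorem XKill_ind {p : (Q.T Jp Jm).A → Prop}
    (hs : ∀ t : k, p (algebraMap k _ t)) (hE : ∀ i, p ((XKill_e Q Jp Jm).E i))
    (hF : ∀ i, p ((XKill_e Q Jp Jm).F i)) (hK : ∀ i, p ((XKill_e Q Jp Jm).K i))
    (hL : ∀ i, p ((XKill_e Q Jp Jm).L i)) (hadd : ∀ x y, p x → p y → p (x + y))
    (hmul : ∀ x y, p x → p y → p (x * y)) (x : (Q.T Jp Jm).A) : p x :=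
  QA.induction (Q := Q) (Jp := Jp) (Jm := Jm) hs hE hF hK hL hadd hmul x

theorem XKill_Θ_apply (M : Mod (Q.T Jp Jm)) (c : I → k)
    (hc : ∀ i, i ∈ Jp → i ∈ Jm → c i = 0) (a : (Q.T Jp Jm).A) :
    ∀ x y : M.X, XKill_Θ M c hc a (x, y) = (a • x, a • y + (XKill_Θ M c hc a (x, 0)).2) := by
  have hop : ∀ (t : k) (b : (Q.T Jp Jm).A) (x y : M.X),
      XKill_op M t b (x, y) = (b • x, b • y + (XKill_op M t b (x, 0)).2) := by
    intro t b x y
    show (b • x, b • y + t • b • x) = (b • x, b • y + (b • (0 : M.X) + t • b • x))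
    rw [smul_zero, zero_add]
  induction a using XKill_ind with
  | hs t =>
    intro x y
    have h1 : XKill_Θ M c hc (algebraMap k (Q.T Jp Jm).A t)
        = algebraMap k (Module.End k (M.X × M.X)) t := (XKill_Θ M c hc).commutes t
    have h2 : ∀ x : M.X, (algebraMap k (Q.T Jp Jm).A t) • x = t • x := fun x =>
      algebraMap_smul _ _ _
    rw [h1, h2, h2]
    show (t • x, t • y) = (t • x, t • y + t • (0 : M.X))
    rw [smul_zero, add_zero]
  | hE i =>
    intro x y
    have h1 : XKill_Θ M c hc ((XKill_e Q Jp Jm).E i) = XKill_op M 0 ((XKill_e Q Jp Jm).E i) :=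
      (XKill_elts M c hc).lift_E i
    rw [h1]; exact hop _ _ _ _
  | hF i =>
    intro x y
    have h1 : XKill_Θ M c hc ((XKill_e Q Jp Jm).F i) = XKill_op M 0 ((XKill_e Q Jp Jm).F i) :=
      (XKill_elts M c hc).lift_F i
    rw [h1]; exact hop _ _ _ _
  | hK i =>
    intro x y
    have h1 : XKill_Θ M c hc ((XKill_e Q Jp Jm).K i)
        = XKill_op M (c i) ((XKill_e Q Jp Jm).K i) := (XKill_elts M c hc).lift_K i
    rw [h1]; exact hop _ _ _ _
  | hL i =>
    intro x y
    have h1 : XKill_Θ M c hc ((XKill_e Q Jp Jm).L i)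
        = XKill_op M (-c i) ((XKill_e Q Jp Jm).L i) := (XKill_elts M c hc).lift_L i
    rw [h1]; exact hop _ _ _ _
  | hadd a b ha hb =>
    intro x y
    rw [map_add, LinearMap.add_apply, ha, hb, LinearMap.add_apply, Prod.mk_add_mk, add_smul,
      add_smul, Prod.snd_add]
    congr 1; abel
  | hmul a b ha hb =>
    intro x y
    rw [map_mul, Module.End.mul_apply, Module.End.mul_apply, hb x y, ha (b • x), hb x 0,
      ha (b • x) (b • (0 : M.X) + _), smul_zero, zero_add, mul_smul, mul_smul, smul_add, add_assoc]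

theorem lin_kill_Q [CharZero k] (M : Mod (Q.T Jp Jm)) (c : I → k)
    (hc : ∀ i, i ∈ Jp → i ∈ Jm → c i = 0) (e : E M) : lin c • e = 0 := by
  refine lin_kill M
    { toFun := fun a =>
        { toFun := fun x => (XKill_Θ M c hc a (x, 0)).2
          map_add' := fun x y => by
            have h : ((x + y, 0) : M.X × M.X) = (x, 0) + (y, 0) := by
              rw [Prod.mk_add_mk, add_zero]
            rw [h, map_add, Prod.snd_add]
          map_smul' := fun t x => by
            have h : ((t • x, 0) : M.X × M.X) = t • (x, 0) := by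
              rw [Prod.smul_mk, smul_zero]
            rw [h, map_smul, Prod.smul_snd, RingHom.id_apply] }
      map_add' := fun a b => by
        refine LinearMap.ext fun x => ?_
        show (XKill_Θ M c hc (a + b) (x, 0)).2
          = (XKill_Θ M c hc a (x, 0)).2 + (XKill_Θ M c hc b (x, 0)).2
        rw [map_add, LinearMap.add_apply, Prod.snd_add]
      map_smul' := fun t a => by
        refine LinearMap.ext fun x => ?_
        show (XKill_Θ M c hc (t • a) (x, 0)).2 = t • (XKill_Θ M c hc a (x, 0)).2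
        rw [map_smul, LinearMap.smul_apply, Prod.smul_snd] } ?_ c ?_ e
  · intro a b x
    show (XKill_Θ M c hc (a * b) (x, 0)).2
      = a • (XKill_Θ M c hc b (x, 0)).2 + (XKill_Θ M c hc a (b • x, 0)).2
    rw [map_mul, Module.End.mul_apply, XKill_Θ_apply M c hc b x 0, XKill_Θ_apply M c hc a (b • x),
      smul_zero, zero_add]
  · intro j x
    have h1 : XKill_Θ M c hc ((XKill_e Q Jp Jm).K j)
        = XKill_op M (c j) ((XKill_e Q Jp Jm).K j) := (XKill_elts M c hc).lift_K j
    show (XKill_Θ M c hc ((XKill_e Q Jp Jm).K j) (x, 0)).2 = c j • ((XKill_e Q Jp Jm).K j) • x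
    rw [h1]
    show ((XKill_e Q Jp Jm).K j) • (0 : M.X) + c j • ((XKill_e Q Jp Jm).K j) • x = _
    rw [smul_zero, zero_add]

end Pool.Agent.Lib.QG
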