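import Pool.Agent.Lib.MP_021f05_al.DefG
import Pool.Agent.Lib.MP_021f05_al.Ind2
import Pool.Agent.Lib.MP_021f05_al.Tw
import Pool.Agent.Lib.MP_021f05_al.XKill

/-!
# MP_021f05_al (E12): the deformed Verma module
-/

noncomputable section

namespace Pool.Agent.Lib.QG

open MvPolynomial
open scoped TensorProduct

section gen

variable {k : Type} [Field k] {I : Type} {T' T : TAlg k I}

/-- induction along right free extensions is exact -/
theorem ind_exact {φ : THom T' T} (hφ : RFree φ) {Y' Y Y'' : Mod T'}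
    (f : Y'.X →ₗ[T'.A] Y.X) (g : Y.X →ₗ[T'.A] Y''.X) (hf : Function.Injective f)
    (hg : Function.Surjective g) (hfg : ∀ x, g x = 0 ↔ ∃ y, f y = x) :
    Function.Injective (indMap φ f) ∧ Function.Surjective (indMap φ g) ∧
      ∀ x, indMap φ g x = 0 ↔ ∃ y, indMap φ f y = x := by
  obtain ⟨N, hN⟩ := hφ
  refine ⟨?_, indMap_surjective φ g hg, ?_⟩
  · rw [injective_iff_map_eq_zero]
    intro x hx
    obtain ⟨t, rfl⟩ := (indN_bijective hN Y').2 x
    rw [ind1_indN_nat] at hx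
    have h1 : (toK f).lTensor N t = 0 := (indN_bijective hN Y).1 (by rw [hx, map_zero])
    have h2 : Function.Injective ((toK f).lTensor N) :=
      Module.Flat.lTensor_preserves_injective_linearMap _ hf
    have h3 : t = 0 := h2 (by rw [h1, map_zero])
    rw [h3, map_zero]
  · intro x
    constructor
    · intro hx
      obtain ⟨t, rfl⟩ := (indN_bijective hN Y).2 x
      rw [ind1_indN_nat] at hx
      have h1 : (toK g).lTensor N t = 0 := (indN_bijective hN Y'').1 (by rw [hx, map_zero])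
      have h2 : Function.Exact (toK f) (toK g) := fun y => (hfg y)
      have h3 : Function.Exact ((toK f).lTensor N) ((toK g).lTensor N) :=
        lTensor_exact N h2 hg
      obtain ⟨s, hs⟩ := (h3 t).1 h1
      exact ⟨indN φ Y' N s, by rw [ind1_indN_nat, hs]⟩
    · rintro ⟨y, rfl⟩
      rw [ind1_map_comp]
      refine ind_induction φ Y' (p := fun y => indMap φ (g ∘ₗ f) y = 0) y (map_zero _) ?_ ?_
      · intro a z
        show indMap φ (g ∘ₗ f) (indT φ Y' a z) = 0
        rw [indMap_T]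
        have : (g ∘ₗ f) z = 0 := (hfg _).2 ⟨z, rfl⟩
        rw [this, indT_zero_right]
      · intro u v hu hv
        show indMap φ (g ∘ₗ f) (u + v) = 0
        rw [map_add, hu, hv, add_zero]

/-- the underlying space of a first order deformation -/
def XDX (M : Mod T) : Type := M.X × M.X

instance (M : Mod T) : AddCommGroup (XDX M) := inferInstanceAs (AddCommGroup (M.X × M.X))
instance (M : Mod T) : Module k (XDX M) := inferInstanceAs (Module k (M.X × M.X))

end gen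

variable {k : Type} [Field k] {I : Type} [Fintype I] [DecidableEq I] {Q : QD k I}
  {Jp Jm : Set I}

/-- the deformation of a module by `K_i ↦ K_i (1 + c_i z)` -/
def XD (M : Mod (Q.T Jp Jm)) (c : I → k) (hc : ∀ i, i ∈ Jp → i ∈ Jm → c i = 0) :
    Mod (Q.T Jp Jm) :=
  letI : Module (Q.T Jp Jm).A (XDX M) := Module.compHom (M.X × M.X) (XKill_Θ M c hc).toRingHom
  { X := XDX M
    tower := ⟨fun t a x => by
      show XKill_Θ M c hc (t • a) x = t • XKill_Θ M c hc a x
      rw [map_smul, LinearMap.smul_apply]⟩ }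

variable {M : Mod (Q.T Jp Jm)} {c : I → k} {hc : ∀ i, i ∈ Jp → i ∈ Jm → c i = 0}

/-- elements of the deformation -/
def XDmk (x y : M.X) : (XD M c hc).X := ((x, y) : M.X × M.X)

lemma XD_smul (a : (Q.T Jp Jm).A) (x y : M.X) :
    a • (XDmk x y : (XD M c hc).X)
      = (XDmk (a • x) (a • y + (XKill_Θ M c hc a (x, 0)).2) : (XD M c hc).X) :=
  XKill_Θ_apply M c hc a x y

lemma XD_exists (w : (XD M c hc).X) : ∃ x y : M.X, w = XDmk x y :=
  ⟨(show M.X × M.X from w).1, (show M.X × M.X from w).2, rfl⟩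

lemma XD_add (x y x' y' : M.X) :
    (XDmk x y : (XD M c hc).X) + XDmk x' y' = XDmk (x + x') (y + y') := rfl

lemma XD_smulk (t : k) (x y : M.X) :
    t • (XDmk x y : (XD M c hc).X) = XDmk (t • x) (t • y) := rfl

lemma XD_K (j : I) (x y : M.X) :
    ((Q.T Jp Jm).K j : (Q.T Jp Jm).A) • (XDmk x y : (XD M c hc).X)
      = XDmk (((Q.T Jp Jm).K j : (Q.T Jp Jm).A) • x)
        (((Q.T Jp Jm).K j : (Q.T Jp Jm).A) • y + c j • ((Q.T Jp Jm).K j : (Q.T Jp Jm).A) • x) := by
  have h1 : XKill_Θ M c hc ((XKill_e Q Jp Jm).K j)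
      = XKill_op M (c j) ((XKill_e Q Jp Jm).K j) := (XKill_elts M c hc).lift_K j
  show XKill_Θ M c hc ((XKill_e Q Jp Jm).K j) (x, y) = _
  rw [h1]
  rfl

lemma XD_E (j : I) (x y : M.X) :
    Q.gE Jp Jm j • (XDmk x y : (XD M c hc).X)
      = XDmk (Q.gE Jp Jm j • x) (Q.gE Jp Jm j • y + (0 : k) • Q.gE Jp Jm j • x) := by
  have h1 : XKill_Θ M c hc ((XKill_e Q Jp Jm).E j)
      = XKill_op M 0 ((XKill_e Q Jp Jm).E j) := (XKill_elts M c hc).lift_E j
  show XKill_Θ M c hc ((XKill_e Q Jp Jm).E j) (x, y) = _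
  rw [h1]
  rfl

variable (M c hc)

/-- `y ↦ z y` -/
def XDi : M.X →ₗ[(Q.T Jp Jm).A] (XD M c hc).X where
  toFun y := XDmk 0 y
  map_add' x y := by rw [XD_add, add_zero]
  map_smul' a y := by
    rw [RingHom.id_apply, XD_smul, smul_zero]
    have h : ((0 : M.X), (0 : M.X)) = 0 := rfl
    rw [h, map_zero]
    show _ = XDmk 0 (a • y + 0)
    rw [add_zero]

/-- reduction modulo `z` -/
def XDp : (XD M c hc).X →ₗ[(Q.T Jp Jm).A] M.X where
  toFun w := (show M.X × M.X from w).1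
  map_add' x y := rfl
  map_smul' a w := by
    obtain ⟨x, y, rfl⟩ := XD_exists w
    rw [XD_smul]
    rfl

lemma XDp_mk (x y : M.X) : XDp M c hc (XDmk x y) = x := rfl

lemma XDi_inj : Function.Injective (XDi M c hc) := fun _ _ h =>
  congrArg (fun w : M.X × M.X => w.2) h

lemma XDp_surj : Function.Surjective (XDp M c hc) := fun x => ⟨XDmk x 0, rfl⟩

lemma XD_exact (w : (XD M c hc).X) : XDp M c hc w = 0 ↔ ∃ y, XDi M c hc y = w := by
  constructor
  · intro h
    obtain ⟨x, y, rfl⟩ := XD_exists w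
    rw [XDp_mk] at h
    exact ⟨y, by rw [h]; rfl⟩
  · rintro ⟨y, rfl⟩; rfl

/-! ### the deformed Verma module -/

variable (Q) (μ : I → ℤ) (c : I → k)

omit [Fintype I] [DecidableEq I] in
lemma defW_hc : ∀ i, i ∈ (Set.univ : Set I) → i ∈ (∅ : Set I) → c i = 0 :=
  fun _ _ h => absurd h (Set.notMem_empty _)

/-- the deformed one-dimensional module -/
abbrev defD : Mod Q.B := XD (Q.km Set.univ μ) c (defW_hc c)

/-- the deformed Verma module -/
def defW : Mod Q.U :=
  (defD Q μ c).ind (Q.inc (Set.Subset.refl Set.univ) (Set.empty_subset Set.univ))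

/-- `x ↦ z x` -/
def defi : (Q.V Set.univ μ).X →ₗ[Q.U.A] (defW Q μ c).X :=
  indMap (Q.inc (Set.Subset.refl Set.univ) (Set.empty_subset Set.univ))
    (Y := Q.km Set.univ μ) (Y' := defD Q μ c) (XDi (Q.km Set.univ μ) c (defW_hc c))

/-- reduction modulo `z` -/
def defp : (defW Q μ c).X →ₗ[Q.U.A] (Q.V Set.univ μ).X :=
  indMap (Q.inc (Set.Subset.refl Set.univ) (Set.empty_subset Set.univ))
    (Y := defD Q μ c) (Y' := Q.km Set.univ μ) (XDp (Q.km Set.univ μ) c (defW_hc c))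

/-- multiplication by `z` -/
def defZ : (defW Q μ c).X →ₗ[Q.U.A] (defW Q μ c).X := defi Q μ c ∘ₗ defp Q μ c

lemma def_ses : Function.Injective (defi Q μ c) ∧ Function.Surjective (defp Q μ c) ∧
    ∀ x, defp Q μ c x = 0 ↔ ∃ y, defi Q μ c y = x :=
  ind_exact (QD.rfree_minus (Q := Q)) _ _ (XDi_inj _ _ _) (XDp_surj _ _ _) (XD_exact _ _ _)

lemma defp_defi (x : (Q.V Set.univ μ).X) : defp Q μ c (defi Q μ c x) = 0 :=
  ((def_ses Q μ c).2.2 _).2 ⟨x, rfl⟩

lemma defZ_defZ (x : (defW Q μ c).X) : defZ Q μ c (defZ Q μ c x) = 0 := by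
  show defi Q μ c (defp Q μ c (defi Q μ c (defp Q μ c x))) = 0
  rw [defp_defi, map_zero]

/-- the generator -/
def defv : (defW Q μ c).X :=
  indT (Q.inc (Set.Subset.refl Set.univ) (Set.empty_subset Set.univ)) (defD Q μ c) 1
    (XDmk (Q.kv Set.univ μ) 0)

lemma defp_v : defp Q μ c (defv Q μ c) = Q.vv Set.univ μ :=
  indMap_T (Q.inc (Set.Subset.refl Set.univ) (Set.empty_subset Set.univ))
    (Y := defD Q μ c) (Y' := Q.km Set.univ μ) (XDp (Q.km Set.univ μ) c (defW_hc c)) 1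
    (XDmk (Q.kv Set.univ μ) 0)

lemma defi_vv : defi Q μ c (Q.vv Set.univ μ)
    = indT (Q.inc (Set.Subset.refl Set.univ) (Set.empty_subset Set.univ)) (defD Q μ c) 1
      (XDmk 0 (Q.kv Set.univ μ)) :=
  indMap_T (Q.inc (Set.Subset.refl Set.univ) (Set.empty_subset Set.univ))
    (Y := Q.km Set.univ μ) (Y' := defD Q μ c) (XDi (Q.km Set.univ μ) c (defW_hc c)) 1
    (Q.kv Set.univ μ)

lemma defZ_v : defZ Q μ c (defv Q μ c)
    = indT (Q.inc (Set.Subset.refl Set.univ) (Set.empty_subset Set.univ)) (defD Q μ c) 1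
      (XDmk 0 (Q.kv Set.univ μ)) := by
  show defi Q μ c (defp Q μ c (defv Q μ c)) = _
  rw [defp_v, defi_vv]

omit [Fintype I] [DecidableEq I] in
lemma ind_act {T' T : TAlg k I} (φ : THom T' T) (Y : Mod T') (a : T'.A) (y : Y.X) :
    φ.f a • indT φ Y 1 y = indT φ Y 1 (a • y) := by
  rw [smul_indT, mul_one, ← indT_mul, one_mul]

lemma defv_gwt : defv Q μ c ∈ gwt (defW Q μ c) (defZ Q μ c) c μ := by
  intro j
  rw [defZ_v]
  have h0 := (Q.inc (Set.Subset.refl (Set.univ : Set I)) (Set.empty_subset Set.univ)).f_K j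
  have h1 := XD_K (M := Q.km Set.univ μ) (c := c) (hc := defW_hc c) j (Q.kv Set.univ μ) 0
  have h2 : (Q.B.K j : Q.B.A) • Q.kv Set.univ μ = Q.χ μ j • Q.kv Set.univ μ :=
    kv_mem (Q := Q) Set.univ μ j
  have h3 : (Q.B.K j : Q.B.A) • (XDmk (Q.kv Set.univ μ) 0 : (defD Q μ c).X)
      = Q.χ μ j • ((XDmk (Q.kv Set.univ μ) 0 : (defD Q μ c).X)
        + c j • (XDmk 0 (Q.kv Set.univ μ) : (defD Q μ c).X)) := by
    refine h1.trans ?_
    rw [h2]
    show _ = (XDmk (Q.χ μ j • (Q.kv Set.univ μ + c j • (0 : (Q.km Set.univ μ).X)))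
      (Q.χ μ j • ((0 : (Q.km Set.univ μ).X) + c j • Q.kv Set.univ μ)) : (defD Q μ c).X)
    rw [smul_zero, smul_zero, add_zero, zero_add, zero_add, smul_comm (c j)]
  have h4 := ind_act (Q.inc (Set.Subset.refl (Set.univ : Set I)) (Set.empty_subset Set.univ))
    (defD Q μ c) (Q.B.K j : Q.B.A) (XDmk (Q.kv Set.univ μ) 0)
  rw [h0, h3, indT_smulk, indT_add_right, indT_smulk] at h4
  exact h4

lemma defv_E (j : I) : Q.gE Set.univ Set.univ j • defv Q μ c = 0 := by
  have h1 := XD_E (M := Q.km Set.univ μ) (c := c) (hc := defW_hc c) j (Q.kv Set.univ μ) 0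
  have h2 : Q.gE Set.univ ∅ j • Q.kv Set.univ μ = 0 := km_E Set.univ μ j _
  have h3 : Q.gE Set.univ ∅ j • (XDmk (Q.kv Set.univ μ) 0 : (defD Q μ c).X) = 0 := by
    refine h1.trans ?_
    rw [h2, smul_zero, smul_zero, add_zero]
    rfl
  have h4 := ind_act (Q.inc (Set.Subset.refl (Set.univ : Set I)) (Set.empty_subset Set.univ))
    (defD Q μ c) (Q.gE Set.univ ∅ j) (XDmk (Q.kv Set.univ μ) 0)
  rw [QD.inc_E Q (Set.Subset.refl Set.univ) (Set.empty_subset Set.univ) (Set.mem_univ j), h3,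
    indT_zero_right] at h4
  exact h4

end Pool.Agent.Lib.QG
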