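import Pool.Agent.Lib.MP_021f05_al.HalfGr

/-!
# MP_021f05_al: the element `A` with `A x_i = x_i^{m+1} x_j`
-/

noncomputable section

namespace Pool.Agent.Lib.QG

variable {k : Type} [Field k] {I : Type} [Fintype I] [DecidableEq I] (Q : QD k I)

/-- `A = ∑_l (-1)^l [m+1, l+1] x_i^{m-l} x_j x_i^l`, `m = -a_{ij}` -/
def QD.serA (i j : I) : HA Q Set.univ :=
  ∑ l ∈ Finset.range ((-(Q.a i j)).toNat + 1),
    ((-1) ^ l * qb (Q.qi i) ((-(Q.a i j)).toNat + 1) (l + 1)) •
      (HA.x Q Set.univ i ^ ((-(Q.a i j)).toNat - l) * HA.x Q Set.univ j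
        * HA.x Q Set.univ i ^ l)

theorem QD.serA_mul (i j : I) (hij : i ≠ j) : Q.serA i j * HA.x Q Set.univ i
    = HA.x Q Set.univ i ^ ((-(Q.a i j)).toNat + 1) * HA.x Q Set.univ j := by
  have h := HA.x_serre (Q := Q) (J := Set.univ) (Set.mem_univ i) (Set.mem_univ j) hij
  have h1 : (1 - Q.a i j).toNat = (-(Q.a i j)).toNat + 1 := by
    have := Q.nonpos i j hij
    omega
  have hz : qb (Q.qi i) ((-(Q.a i j)).toNat + 1) 0 = 1 :=
    qb_zero (Q.qi i) (halfGr_qi_ne Q i) (halfGr_qi_root Q i) _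
  rw [h1] at h
  unfold serre at h
  rw [Finset.sum_range_succ'] at h
  simp only [pow_zero, hz, one_smul, Nat.sub_zero, mul_one] at h
  rw [add_comm] at h
  rw [eq_neg_of_add_eq_zero_left h]
  unfold QD.serA
  rw [Finset.sum_mul, ← Finset.sum_neg_distrib]
  refine Finset.sum_congr rfl fun l _ => ?_
  rw [Nat.add_sub_add_right, pow_succ (-1 : k) l, mul_neg_one, neg_mul, neg_smul, neg_neg,
    smul_mul_assoc, mul_assoc _ (HA.x Q Set.univ i ^ l), ← pow_succ]

/-- right multiplication by `A` is injective -/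
theorem QD.mul_serA_injective (i j : I) (hij : i ≠ j) {y : HA Q Set.univ}
    (h : y * Q.serA i j = 0) : y = 0 := by
  have h1 : ∀ n : ℕ, ∀ y : HA Q Set.univ, y * HA.x Q Set.univ i ^ n = 0 → y = 0 := by
    intro n
    induction n with
    | zero => intro y hy; rwa [pow_zero, mul_one] at hy
    | succ n ih =>
      intro y hy
      rw [pow_succ, ← mul_assoc] at hy
      exact ih y (HA.mul_x_injective Q Set.univ (Set.mem_univ i) hy)
  have h2 : y * Q.serA i j * HA.x Q Set.univ i = 0 := by rw [h, zero_mul]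
  rw [mul_assoc, Q.serA_mul i j hij, ← mul_assoc] at h2
  exact h1 _ y (HA.mul_x_injective Q Set.univ (Set.mem_univ j) h2)

lemma QD.x_gr (i : I) : HA.x Q Set.univ i ∈ HA.gr Q Set.univ (Pi.single i 1) := by
  have h := halfGr_word_mem Q Set.univ [i]
  rwa [halfGr_word_single, halfGr_wtw_single] at h

lemma QD.x_pow_gr (i : I) (n : ℕ) :
    HA.x Q Set.univ i ^ n ∈ HA.gr Q Set.univ (n • Pi.single i 1) := by
  induction n with
  | zero =>
    rw [pow_zero, zero_smul, HA.gr_zero]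
    exact Submodule.subset_span rfl
  | succ n ih =>
    rw [pow_succ, succ_nsmul]
    exact HA.gr_mul Q Set.univ ih (Q.x_gr i)

theorem QD.serA_wt (i j : I) : Q.serA i j
    ∈ HA.gr Q Set.univ ((-(Q.a i j)).toNat • Pi.single i 1 + Pi.single j 1) := by
  unfold QD.serA
  refine Submodule.sum_mem _ fun l hl => Submodule.smul_mem _ _ ?_
  have hl' := Finset.mem_range.1 hl
  have h := HA.gr_mul Q Set.univ (HA.gr_mul Q Set.univ
    (Q.x_pow_gr i ((-(Q.a i j)).toNat - l)) (Q.x_gr j)) (Q.x_pow_gr i l)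
  have e : ((-(Q.a i j)).toNat - l) • (Pi.single i 1 : I → ℕ) + Pi.single j 1
      + l • (Pi.single i 1 : I → ℕ)
      = (-(Q.a i j)).toNat • (Pi.single i 1 : I → ℕ) + Pi.single j 1 := by
    rw [add_right_comm, ← add_smul, Nat.sub_add_cancel (by omega)]
  rwa [e] at h

end Pool.Agent.Lib.QG
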