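import Pool.Agent.Lib.MP_021f05_al.FreeDef

/-!
# MP_021f05_al (D1): the graded module `T.A ⊗_k Z` is acyclic
-/

noncomputable section

namespace Pool.Agent.Lib.QG

open MvPolynomial
open scoped TensorProduct

variable {k : Type} [Field k] {I : Type} [Fintype I] {T' T : TAlg k I}

namespace Free0

variable (Z : Mod T') (N : GrMod k I)

/-- the coefficient object `Hom_k(T.A ⊗ Z, N)` -/
abbrev W (T : TAlg k I) (Z : Mod T') (N : GrMod k I) : Coef T := homCoef (freeRep T Z) N

/-- evaluation at `1 ⊗ z` -/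
def ev (v : (W T Z N).V) (z : Z.X) : N.N :=
  (show T.A ⊗[k] Z.X →ₗ[k] N.N from v) (1 ⊗ₜ[k] z)

/-- evaluation at `a ⊗ z` -/
def eva (v : (W T Z N).V) (a : T.A) (z : Z.X) : N.N :=
  (show T.A ⊗[k] Z.X →ₗ[k] N.N from v) (a ⊗ₜ[k] z)

omit [Fintype I] in
lemma eva_ext {v w : (W T Z N).V} (h : ∀ a z, eva Z N v a z = eva Z N w a z) : v = w := by
  apply TensorProduct.ext'
  exact h

omit [Fintype I] in
lemma eva_add (v w : (W T Z N).V) (a : T.A) (z : Z.X) :
    eva Z N (v + w) a z = eva Z N v a z + eva Z N w a z := rfl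

omit [Fintype I] in
lemma eva_neg (v : (W T Z N).V) (a : T.A) (z : Z.X) :
    eva Z N (-v) a z = - eva Z N v a z := rfl

omit [Fintype I] in
lemma eva_sub (v w : (W T Z N).V) (a : T.A) (z : Z.X) :
    eva Z N (v - w) a z = eva Z N v a z - eva Z N w a z := rfl

omit [Fintype I] in
lemma eva_smul (t : k) (v : (W T Z N).V) (a : T.A) (z : Z.X) :
    eva Z N (t • v) a z = t • eva Z N v a z := rfl

omit [Fintype I] in
lemma eva_zero (a : T.A) (z : Z.X) : eva Z N (0 : (W T Z N).V) a z = 0 := rfl

omit [Fintype I] in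
lemma eva_r (x : T.A) (v : (W T Z N).V) (a : T.A) (z : Z.X) :
    eva Z N ((W T Z N).r x v) a z = eva Z N v (x * a) z := by
  show (show T.A ⊗[k] Z.X →ₗ[k] N.N from v) ((1 : k) • (x • (a ⊗ₜ[k] z : T.A ⊗[k] Z.X))) = _
  rw [one_smul, TensorProduct.smul_tmul', smul_eq_mul]
  rfl

omit [Fintype I] in
lemma eva_κ (i : I) (v : (W T Z N).V) (a : T.A) (z : Z.X) :
    eva Z N ((W T Z N).κ i v) a z
      = eva Z N v (T.adi i a) ((((T'.K i)⁻¹ : T'.Aˣ) : T'.A) • z) := by
  show (show T.A ⊗[k] Z.X →ₗ[k] N.N from v)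
      (((freeRep T Z).ω i).symm (a ⊗ₜ[k] z : T.A ⊗[k] Z.X)) = _
  have h : ((freeRep T Z).ω i).symm (a ⊗ₜ[k] z : T.A ⊗[k] Z.X)
      = ((T.adi i a) ⊗ₜ[k] ((((T'.K i)⁻¹ : T'.Aˣ) : T'.A) • z) : T.A ⊗[k] Z.X) := by
    refine (LinearEquiv.symm_apply_eq _).2 ?_
    refine Eq.trans ?_ (freeRep_ω Z i _ _).symm
    rw [TAlg.ad_adi, smul_smul, Units.mul_inv, one_smul]
  rw [h]
  rfl

/-- the contraction of the bar complex -/
def S (f : List T.A → (W T Z N).V) (hf : (W T Z N).IsML f) (l : List T.A) : (W T Z N).V :=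
  show T.A ⊗[k] Z.X →ₗ[k] N.N from
  TensorProduct.lift
    { toFun := fun a =>
        { toFun := fun z => ((-1 : k) ^ (l.length + 1)) • eva Z N (f (l ++ [a])) 1 z
          map_add' := fun z w => by
            unfold eva; rw [TensorProduct.tmul_add, map_add, smul_add]
          map_smul' := fun t z => by
            unfold eva
            rw [TensorProduct.tmul_smul, map_smul, smul_comm, RingHom.id_apply] }
      map_add' := fun a b => LinearMap.ext fun z => by
        show ((-1 : k) ^ (l.length + 1)) • eva Z N (f (l ++ [a + b])) 1 z = _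
        rw [hf.1 l [] a b, eva_add, smul_add]
        rfl
      map_smul' := fun t a => LinearMap.ext fun z => by
        show ((-1 : k) ^ (l.length + 1)) • eva Z N (f (l ++ [t • a])) 1 z = _
        rw [hf.2 l [] t a, eva_smul, smul_comm]
        rfl }

omit [Fintype I] in
lemma eva_S (f : List T.A → (W T Z N).V) (hf : (W T Z N).IsML f) (l : List T.A) (a : T.A)
    (z : Z.X) : eva Z N (S Z N f hf l) a z
      = ((-1 : k) ^ (l.length + 1)) • eva Z N (f (l ++ [a])) 1 z := rfl

omit [Fintype I] in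
lemma act_rel (f g : List T.A → (W T Z N).V) (c : k)
    (h : ∀ l a z, eva Z N (g l) a z = (c * (-1) ^ l.length) • eva Z N (f (l ++ [a])) 1 z)
    (x : T.A) (l : List T.A) (a : T.A) (z : Z.X) :
    eva Z N ((W T Z N).act g x l) a z
      = (c * (-1) ^ l.length) • eva Z N ((W T Z N).act f x (l ++ [a])) 1 z := by
  cases l with
  | nil =>
    show eva Z N ((W T Z N).r x (g [])) a z = _
    rw [eva_r, h]
    rfl
  | cons y l =>
    show eva Z N (g ((x * y) :: l)) a z = _
    rw [h]
    rfl

omit [Fintype I] in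
lemma dd_rel (l : List T.A) (f g : List T.A → (W T Z N).V) (c : k)
    (h : ∀ l a z, eva Z N (g l) a z = (c * (-1) ^ l.length) • eva Z N (f (l ++ [a])) 1 z)
    (a : T.A) (z : Z.X) :
    eva Z N ((W T Z N).dd l g) a z
      = (-(c * (-1) ^ l.length)) • eva Z N ((W T Z N).dd (l ++ [a]) f) 1 z
        - c • eva Z N (f l) a z := by
  induction l generalizing f g c with
  | nil =>
    show (0 : N.N) = (-(c * (-1) ^ 0)) • eva Z N (- ((W T Z N).r a (f [])) - 0) 1 z - _
    rw [eva_sub, eva_neg, eva_r, mul_one, eva_zero, sub_zero, pow_zero, mul_one, neg_smul,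
      smul_neg, neg_neg, sub_self]
  | cons x l ih =>
    have h' : ∀ l a z, eva Z N ((W T Z N).tl g x l) a z
        = ((-c) * (-1) ^ l.length) • eva Z N ((W T Z N).tl f x (l ++ [a])) 1 z := by
      intro l a z
      show eva Z N (g (x :: l)) a z = _
      rw [h, List.length_cons, pow_succ]
      show _ = _ • eva Z N (f (x :: l ++ [a])) 1 z
      congr 1
      ring
    have h1 := ih ((W T Z N).tl f x) ((W T Z N).tl g x) (-c) h'
    show eva Z N (- (W T Z N).act g x l - (W T Z N).dd l ((W T Z N).tl g x)) a z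
      = (-(c * (-1) ^ (x :: l).length)) •
        eva Z N (- (W T Z N).act f x (l ++ [a]) - (W T Z N).dd (l ++ [a]) ((W T Z N).tl f x)) 1 z
        - c • eva Z N (f (x :: l)) a z
    rw [eva_sub, eva_neg, h1, act_rel Z N f g c h, eva_sub, eva_neg, List.length_cons, pow_succ]
    show _ - (_ - (-c) • eva Z N (f (x :: l)) a z) = _
    simp only [neg_smul, smul_sub, smul_neg, mul_neg, mul_one, neg_neg, neg_mul]
    abel

omit [Fintype I] in
lemma b_S (f : List T.A → (W T Z N).V) (hf : (W T Z N).IsML f) (x : T.A) (l : List T.A)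
    (a : T.A) (z : Z.X) :
    eva Z N ((W T Z N).b (S Z N f hf) (x :: l)) a z
      = ((-1 : k) ^ (l.length + 1)) • eva Z N ((W T Z N).b f (x :: l ++ [a])) 1 z
        + eva Z N (f (x :: l)) a z := by
  have h := dd_rel Z N (x :: l) f (S Z N f hf) (-1)
    (fun l a z => by rw [eva_S, pow_succ]; congr 1; ring) a z
  show eva Z N ((T.ε x) • S Z N f hf l + (W T Z N).dd (x :: l) (S Z N f hf)) a z
    = ((-1 : k) ^ (l.length + 1)) •
      eva Z N ((T.ε x) • f (l ++ [a]) + (W T Z N).dd (x :: l ++ [a]) f) 1 z + _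
  rw [eva_add, h, eva_smul, eva_S, eva_add, eva_smul, smul_add, List.length_cons, pow_succ]
  rw [smul_comm (T.ε x)]
  simp only [neg_smul, mul_neg, mul_one, neg_neg, neg_mul, one_smul, one_mul, sub_neg_eq_add]
  abel

omit [Fintype I] in
lemma S_mem {f : List T.A → (W T Z N).V} (hf : f ∈ (W T Z N).Coc) :
    S Z N f hf.1 ∈ (W T Z N).Coc := by
  refine ⟨⟨fun l₁ l₂ a b => ?_, fun l₁ l₂ t a => ?_⟩, fun i => ?_⟩
  · apply eva_ext
    intro x z
    rw [eva_add, eva_S, eva_S, eva_S, List.append_assoc, List.append_assoc, List.append_assoc,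
      List.cons_append, List.cons_append, List.cons_append, hf.1.1, eva_add, smul_add]
    simp only [List.length_append, List.length_cons]
  · apply eva_ext
    intro x z
    rw [eva_smul, eva_S, eva_S, List.append_assoc, List.append_assoc,
      List.cons_append, List.cons_append, hf.1.2, eva_smul, smul_comm]
    simp only [List.length_append, List.length_cons]
  · funext l
    apply eva_ext
    intro a z
    have h := congrFun (hf.2 i) (l ++ [a])
    show eva Z N ((W T Z N).κ i (S Z N f hf.1 (l.map (T.adi i)))) a z = _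
    rw [eva_κ, eva_S, eva_S, List.length_map]
    have h2 : eva Z N (f (l ++ [a])) 1 z
        = eva Z N ((W T Z N).κ i (f ((l ++ [a]).map (T.adi i)))) 1 z := by
      rw [← h]; rfl
    rw [h2, eva_κ, map_one, List.map_append]
    rfl

end Free0

omit [Fintype I] in
lemma Free0.NJ_empty_X (i : I) (v : (NJ k (∅ : Set I)).N) :
    (X i : MvPolynomial I k) • v = 0 := by
  show resJ k (∅ : Set I) (X i) * (show MvPolynomial (∅ : Set I) k from v) = 0
  have : resJ k (∅ : Set I) (X i : MvPolynomial I k) = 0 := by simp [resJ]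
  rw [this, zero_mul]

omit [Fintype I] in
lemma Free0.NJ_empty_π (m : ℤ) (hm : m ≠ 0) (v : (NJ k (∅ : Set I)).N) :
    (NJ k (∅ : Set I)).π m v = 0 := by
  show gc m (show MvPolynomial (∅ : Set I) k from v) = 0
  rcases gc_cases m with ⟨d, rfl⟩ | h
  · rw [gc_even]
    have hd : d ≠ 0 := by rintro rfl; exact hm rfl
    ext s
    rw [coeff_homogeneousComponent, if_neg]
    · simp
    · intro h
      have hs : s = 0 := by
        ext x; exact (Set.notMem_empty _ x.2).elim
      rw [hs] at h
      simp at h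
      exact hd h.symm
  · exact gc_of_not h _

/-- the bar resolution contracts on free modules -/
theorem free0_acyclic (Z : Mod T') {n : ℤ} (hn : 0 < n) :
    CVan (homCoef (freeRep T Z) (NJ k (∅ : Set I))) n := by
  intro e he
  let V := homCoef (freeRep T Z) (NJ k (∅ : Set I))
  obtain ⟨z, hze⟩ := V.cls_surj e
  have he' : V.pr n e = e := he
  rw [← hze, Coef.pr_cls] at he'
  rw [← hze, ← he']
  have hz := V.mem_Z.1 (V.prZ n z).2
  set f : List T.A → V.V := (V.prZ n z).1 with hf
  have hX : ∀ (i : I) (v : V.V), (X i : MvPolynomial I k) • v = 0 := by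
    intro i v
    apply LinearMap.ext
    intro x
    exact Free0.NJ_empty_X i _
  have hD : ∀ g : List T.A → V.V, V.D g = V.b g := by
    intro g
    funext l
    show V.b g l + ∑ i, (X i : MvPolynomial I k) • V.h i g l = V.b g l
    rw [Finset.sum_eq_zero (fun i _ => hX i _), add_zero]
  have hf0 : f [] = 0 := by
    apply LinearMap.ext
    intro x
    exact Free0.NJ_empty_π _ (by simpa using hn.ne') _
  rw [hD] at hz
  refine V.cls_eq_zero.2 ⟨Free0.S Z _ f hz.1.1, Free0.S_mem Z _ hz.1, ?_⟩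
  rw [hD]
  funext l
  cases l with
  | nil => exact hf0.symm
  | cons x l =>
    apply Free0.eva_ext
    intro a w
    rw [Free0.b_S]
    have h0 : (Free0.W T Z (NJ k (∅ : Set I))).b f (x :: l ++ [a]) = 0 := congrFun hz.2 _
    rw [h0, Free0.eva_zero, smul_zero, zero_add]

end Pool.Agent.Lib.QG
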