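import Mathlib

/-!
# MP_021f05_al (D3): regularity of the shifts on finitely supported functions on `ℤ^I`
-/

noncomputable section

namespace Pool.Agent.Lib.QG

variable {k : Type} [Field k] {I : Type} [Fintype I] [DecidableEq I] {W : Type}
  [AddCommGroup W] [Module k W]

/-- the shift by `e_i` on finitely supported functions -/
def shft (k : Type) [Field k] {I : Type} [DecidableEq I] (W : Type) [AddCommGroup W] [Module k W]
    (i : I) : ((I → ℤ) →₀ W) →ₗ[k] ((I → ℤ) →₀ W) :=
  Finsupp.lmapDomain W k (fun ν => ν + Pi.single i 1)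

omit [Fintype I] in
theorem ShiftReg_single (i : I) (ν : I → ℤ) (w : W) :
    shft k W i (Finsupp.single ν w) = Finsupp.single (ν + Pi.single i 1) w := by
  unfold shft
  rw [Finsupp.lmapDomain_apply, Finsupp.mapDomain_single]

omit [Fintype I] in
theorem ShiftReg_step (J : Set I) {i : I} (hi : i ∈ J) (ν : I → ℤ) (w : W) :
    Finsupp.single (ν + Pi.single i 1) w - Finsupp.single ν w ∈
      ⨆ i ∈ J, LinearMap.range (shft k W i - 1) := by
  refine Submodule.mem_iSup_of_mem i (Submodule.mem_iSup_of_mem hi ⟨Finsupp.single ν w, ?_⟩)
  rw [LinearMap.sub_apply, ShiftReg_single]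
  rfl

omit [Fintype I] in
theorem ShiftReg_steps (J : Set I) {i : I} (hi : i ∈ J) (w : W) (n : ℤ) :
    ∀ ν : I → ℤ, Finsupp.single (ν + Pi.single i n) w - Finsupp.single ν w ∈
      ⨆ i ∈ J, LinearMap.range (shft k W i - 1) := by
  induction n using Int.induction_on with
  | zero =>
    intro ν
    rw [Pi.single_zero, add_zero, sub_self]
    exact Submodule.zero_mem _
  | succ n ih =>
    intro ν
    have h1 := ShiftReg_step (k := k) J hi (ν + Pi.single i (n : ℤ)) w
    have h2 := Submodule.add_mem _ h1 (ih ν)
    rw [sub_add_sub_cancel, add_assoc, ← Pi.single_add] at h2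
    exact h2
  | pred n ih =>
    intro ν
    have h1 := ShiftReg_step (k := k) J hi (ν + Pi.single i (-(n : ℤ) - 1)) w
    have h2 := Submodule.sub_mem _ (ih ν) h1
    rw [add_assoc, ← Pi.single_add, sub_add_cancel, sub_sub_sub_cancel_left] at h2
    exact h2

omit [Fintype I] in
theorem ShiftReg_fin (J : Set I) (w : W) (s : Finset I) : (∀ i ∈ s, i ∈ J) →
    ∀ ν : I → ℤ, Finsupp.single ν w - Finsupp.single (fun i => if i ∈ s then 0 else ν i) w ∈
      ⨆ i ∈ J, LinearMap.range (shft k W i - 1) := by
  induction s using Finset.induction_on with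
  | empty =>
    intro _ ν
    have : (fun i => if i ∈ (∅ : Finset I) then 0 else ν i) = ν := by
      funext i
      simp
    rw [this, sub_self]
    exact Submodule.zero_mem _
  | insert a s ha ih =>
    intro hs ν
    have h1 := ih (fun i hi => hs i (Finset.mem_insert_of_mem hi)) ν
    have h2 := ShiftReg_steps (k := k) J (hs a (Finset.mem_insert_self _ _)) w (ν a)
      (fun i => if i ∈ insert a s then 0 else ν i)
    have h3 : (fun i => if i ∈ insert a s then 0 else ν i) + Pi.single a (ν a) =
        (fun i => if i ∈ s then 0 else ν i) := by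
      funext i
      by_cases hia : i = a
      · subst hia
        simp [ha]
      · simp [hia]
    rw [h3] at h2
    have h4 := Submodule.add_mem _ h1 h2
    rw [sub_add_sub_cancel] at h4
    exact h4

/-- `u_j - 1` is injective modulo the ranges of `u_i - 1`, `i ∈ J`, `j ∉ J` -/
theorem shft_regular (J : Set I) (j : I) (hj : j ∉ J) (f : (I → ℤ) →₀ W)
    (h : shft k W j f - f ∈ ⨆ i ∈ J, LinearMap.range (shft k W i - 1)) :
    f ∈ ⨆ i ∈ J, LinearMap.range (shft k W i - 1) := by
  classical
  set s : Finset I := Finset.univ.filter (fun i => i ∈ J) with hs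
  have hsJ : ∀ i, i ∈ s ↔ i ∈ J := by
    intro i
    simp [hs]
  set p : (I → ℤ) → (I → ℤ) := fun ν i => if i ∈ s then 0 else ν i with hp
  set r : ((I → ℤ) →₀ W) →ₗ[k] ((I → ℤ) →₀ W) := Finsupp.lmapDomain W k p with hr
  have hr1 : ∀ ν (w : W), r (Finsupp.single ν w) = Finsupp.single (p ν) w := by
    intro ν w
    rw [hr, Finsupp.lmapDomain_apply, Finsupp.mapDomain_single]
  -- R_J is in the kernel of r
  have hker : (⨆ i ∈ J, LinearMap.range (shft k W i - 1)) ≤ LinearMap.ker r := by
    refine iSup₂_le fun i hi => ?_
    rintro _ ⟨g, rfl⟩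
    rw [LinearMap.mem_ker, LinearMap.sub_apply, map_sub]
    have : r.comp (shft k W i) = r := by
      apply Finsupp.lhom_ext
      intro ν w
      rw [LinearMap.comp_apply, ShiftReg_single, hr1, hr1]
      congr 1
      funext l
      by_cases hl : l ∈ s
      · simp [hp, hl]
      · have hli : l ≠ i := by
          rintro rfl
          exact hl ((hsJ l).2 hi)
        simp [hp, hl, hli]
    have h2 := LinearMap.congr_fun this g
    rw [LinearMap.comp_apply] at h2
    rw [h2]
    exact sub_self _
  -- g - r g is in R_J
  have hdiff : ∀ g : (I → ℤ) →₀ W, g - r g ∈ ⨆ i ∈ J, LinearMap.range (shft k W i - 1) := by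
    intro g
    induction g using Finsupp.induction_linear with
    | zero =>
      rw [map_zero, sub_zero]
      exact Submodule.zero_mem _
    | add g g' h1 h2 =>
      have := Submodule.add_mem _ h1 h2
      rw [map_add, add_sub_add_comm]
      exact this
    | single ν w =>
      rw [hr1]
      exact ShiftReg_fin J w s (fun i hi => (hsJ i).1 hi) ν
  -- r f is invariant
  have hinv : shft k W j (r f) = r f := by
    have h1 : r (shft k W j f - f) = 0 := hker h
    rw [map_sub, sub_eq_zero] at h1
    have : (shft k W j).comp r = r.comp (shft k W j) := by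
      apply Finsupp.lhom_ext
      intro ν w
      rw [LinearMap.comp_apply, LinearMap.comp_apply, ShiftReg_single, hr1, hr1, ShiftReg_single]
      congr 1
      funext l
      by_cases hl : l ∈ s
      · have hlj : l ≠ j := by
          rintro rfl
          exact hj ((hsJ l).1 hl)
        simp [hp, hl, hlj]
      · simp [hp, hl]
    have h2 := LinearMap.congr_fun this f
    rw [LinearMap.comp_apply, LinearMap.comp_apply] at h2
    exact h2.trans h1
  have hval : ∀ ν, r f (ν + Pi.single j 1) = r f ν := by
    intro ν
    have h1 : (shft k W j (r f)) (ν + Pi.single j 1) = r f ν := by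
      unfold shft
      rw [Finsupp.lmapDomain_apply]
      exact Finsupp.mapDomain_apply (add_left_injective _) (r f) ν
    rw [hinv] at h1
    exact h1
  have hzero : r f = 0 := by
    by_contra hne
    obtain ⟨ν, hν⟩ := Finsupp.ne_iff.1 hne
    have h1 : ∀ n : ℕ, r f (ν + Pi.single j (n : ℤ)) = r f ν := by
      intro n
      induction n with
      | zero => simp
      | succ n ih =>
        have h3 := hval (ν + Pi.single j (n : ℤ))
        rw [add_assoc, ← Pi.single_add, ih] at h3
        push_cast
        exact h3
    have h2 : Set.Infinite {ν | r f ν ≠ 0} := by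
      refine Set.infinite_of_injective_forall_mem (f := fun n : ℕ => ν + Pi.single j (n : ℤ)) ?_ ?_
      · intro a b hab
        have := congrFun hab j
        simp at this
        exact this
      · intro n
        show r f (ν + Pi.single j (n : ℤ)) ≠ 0
        rw [h1 n]
        exact hν
    apply h2
    have := (r f).hasFiniteSupport
    exact this
  have := hdiff f
  rw [hzero, sub_zero] at this
  exact this

end Pool.Agent.Lib.QG
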