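import Pool.Agent.Lib.MP_021f05_al.Core

/-!
# MP_021f05_al: modules, graded coefficient modules, and the functor `E`
-/

noncomputable section

namespace Pool.Agent.Lib.QG

open MvPolynomial

variable {k : Type} [Field k] {I : Type}

/-! ### graded coefficient modules -/

/-- graded `S`-modules (coefficients) -/
structure GrMod (k : Type) [Field k] (I : Type) where
  N : Type
  [acg : AddCommGroup N]
  [modk : Module k N]
  [modS : Module (MvPolynomial I k) N]
  [tower : IsScalarTower k (MvPolynomial I k) N]
  π : ℤ → N →ₗ[k] N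
  π_π : ∀ m v, π m (π m v) = π m v
  π_ne : ∀ m n v, m ≠ n → π m (π n v) = 0
  π_X : ∀ m i v, π (m + 2) ((X i : MvPolynomial I k) • v) = (X i : MvPolynomial I k) • π m v

attribute [instance] GrMod.acg GrMod.modk GrMod.modS GrMod.tower

/-- homogeneous component with doubled degrees -/
def gc {σ : Type} (m : ℤ) : MvPolynomial σ k →ₗ[k] MvPolynomial σ k :=
  if 0 ≤ m ∧ m % 2 = 0 then homogeneousComponent (m / 2).toNat else 0

lemma gc_even {σ : Type} (d : ℕ) (p : MvPolynomial σ k) :
    gc (2 * d : ℤ) p = homogeneousComponent d p := by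
  unfold gc
  rw [if_pos ⟨by positivity, by omega⟩]
  congr 2
  omega

lemma gc_of_not {σ : Type} {m : ℤ} (hm : ¬ (0 ≤ m ∧ m % 2 = 0)) (p : MvPolynomial σ k) :
    gc m p = 0 := by
  unfold gc; rw [if_neg hm]; rfl

lemma gc_cases (m : ℤ) : (∃ d : ℕ, m = 2 * d) ∨ ¬ (0 ≤ m ∧ m % 2 = 0) := by
  by_cases h : 0 ≤ m ∧ m % 2 = 0
  · left; exact ⟨(m / 2).toNat, by omega⟩
  · right; exact h

lemma hc_hc {σ : Type} (m n : ℕ) (p : MvPolynomial σ k) :
    homogeneousComponent m (homogeneousComponent n p)
      = if m = n then homogeneousComponent n p else 0 := by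
  classical
  ext s
  rw [coeff_homogeneousComponent, coeff_homogeneousComponent]
  split_ifs with h1 h2 h3 h3
  · rw [coeff_homogeneousComponent, if_pos h2]
  · omega
  · omega
  · rfl
  · rw [coeff_homogeneousComponent]
    rw [if_neg]; omega
  · rfl

lemma gc_gc {σ : Type} (m n : ℤ) (p : MvPolynomial σ k) :
    gc m (gc n p) = if m = n then gc n p else 0 := by
  rcases gc_cases m with ⟨d, rfl⟩ | hm
  · rcases gc_cases n with ⟨e, rfl⟩ | hn
    · rw [gc_even, gc_even, hc_hc]
      by_cases h : d = e
      · rw [if_pos h, if_pos (by rw [h])]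
      · rw [if_neg h, if_neg (by omega)]
    · rw [gc_of_not hn, map_zero]; split_ifs <;> rfl
  · rw [gc_of_not hm]
    split_ifs with h
    · rw [gc_of_not (h ▸ hm)]
    · rfl

lemma hc_X_mul {σ : Type} (d : ℕ) (i : σ) (p : MvPolynomial σ k) :
    homogeneousComponent (d + 1) (X i * p) = X i * homogeneousComponent d p := by
  classical
  ext s
  rw [coeff_homogeneousComponent, coeff_X_mul', coeff_X_mul', coeff_homogeneousComponent]
  by_cases hi : i ∈ s.support
  · rw [if_pos hi, if_pos hi]
    have : s.degree = (s - Finsupp.single i 1).degree + 1 := by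
      have h1 : s = (s - Finsupp.single i 1) + Finsupp.single i 1 := by
        rw [tsub_add_cancel_of_le]
        rw [Finsupp.single_le_iff]
        exact Nat.one_le_iff_ne_zero.2 (Finsupp.mem_support_iff.1 hi)
      conv_lhs => rw [h1]
      simp
    by_cases hd : (s - Finsupp.single i 1).degree = d
    · rw [if_pos hd, if_pos (by omega)]
    · rw [if_neg hd, if_neg (by omega)]
  · rw [if_neg hi, if_neg hi]; split_ifs <;> rfl

lemma hc_zero_X_mul {σ : Type} (i : σ) (p : MvPolynomial σ k) :
    homogeneousComponent 0 (X i * p) = 0 := by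
  classical
  rw [homogeneousComponent_zero, coeff_X_mul', if_neg (by simp), map_zero]

lemma gc_X_mul {σ : Type} (m : ℤ) (i : σ) (p : MvPolynomial σ k) :
    gc (m + 2) (X i * p) = X i * gc m p := by
  rcases gc_cases m with ⟨d, rfl⟩ | hm
  · rw [gc_even]
    have : (2 * d + 2 : ℤ) = 2 * ((d + 1 : ℕ) : ℤ) := by push_cast; ring
    rw [this, gc_even, hc_X_mul]
  · rw [gc_of_not hm, mul_zero]
    by_cases h2 : m = -2
    · subst h2
      have : (-2 + 2 : ℤ) = 2 * ((0 : ℕ) : ℤ) := by norm_num
      rw [this, gc_even, hc_zero_X_mul]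
    · rw [gc_of_not]; omega

/-- `S` as a graded module -/
def SS (k : Type) [Field k] (I : Type) : GrMod k I where
  N := MvPolynomial I k
  π m := gc m
  π_π m v := by rw [gc_gc, if_pos rfl]
  π_ne m n v h := by rw [gc_gc, if_neg h]
  π_X m i v := gc_X_mul m i v

/-- the map `S → k[x_j : j ∈ J]` -/
def resJ (k : Type) [Field k] {I : Type} (J : Set I) : MvPolynomial I k →ₐ[k] MvPolynomial J k :=
  open Classical in
  aeval fun i => if h : i ∈ J then X ⟨i, h⟩ else 0

/-- type synonym for `k[x_j : j ∈ J]` with its `S`-module structure -/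
def NJt (k : Type) [Field k] {I : Type} (J : Set I) : Type := MvPolynomial J k

instance (J : Set I) : AddCommGroup (NJt k J) := inferInstanceAs (AddCommGroup (MvPolynomial J k))
instance (J : Set I) : Module k (NJt k J) := inferInstanceAs (Module k (MvPolynomial J k))
instance (J : Set I) : Module (MvPolynomial I k) (NJt k J) :=
  Module.compHom (MvPolynomial J k) (resJ k J).toRingHom
instance NJt.tower (J : Set I) : IsScalarTower k (MvPolynomial I k) (NJt k J) :=
  ⟨fun a b x => by
    show (resJ k J (a • b)) * (show MvPolynomial J k from x)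
      = a • ((resJ k J b) * (show MvPolynomial J k from x))
    rw [map_smul, smul_mul_assoc]⟩

lemma NJt_smul (J : Set I) (p : MvPolynomial I k) (x : NJt k J) :
    p • x = ((resJ k J p) * (show MvPolynomial J k from x) : MvPolynomial J k) := rfl

/-- `k[x_j : j ∈ J]` as a graded `S`-module; `x_i`, `i ∉ J`, acts by zero -/
def NJ (k : Type) [Field k] {I : Type} (J : Set I) : GrMod k I where
  N := NJt k J
  tower := NJt.tower J
  π m := (gc m : MvPolynomial J k →ₗ[k] MvPolynomial J k)
  π_π m v := by
    show gc m (gc m (show MvPolynomial J k from v)) = gc m (show MvPolynomial J k from v)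
    rw [gc_gc, if_pos rfl]
  π_ne m n v h := by
    show gc m (gc n (show MvPolynomial J k from v)) = 0
    rw [gc_gc, if_neg h]
  π_X m i v := by
    classical
    show gc (m + 2) (resJ k J (X i) * (show MvPolynomial J k from v))
      = resJ k J (X i) * gc m (show MvPolynomial J k from v)
    by_cases h : i ∈ J
    · have : resJ k J (X i : MvPolynomial I k) = X ⟨i, h⟩ := by simp [resJ, h]
      rw [this, gc_X_mul]
    · have : resJ k J (X i : MvPolynomial I k) = 0 := by simp [resJ, h]
      rw [this, zero_mul, zero_mul, map_zero]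

/-! ### modules -/

/-- modules over a torus algebra -/
structure Mod (T : TAlg k I) where
  X : Type
  [acg : AddCommGroup X]
  [modk : Module k X]
  [modA : Module T.A X]
  [tower : IsScalarTower k T.A X]

attribute [instance] Mod.acg Mod.modk Mod.modA Mod.tower

/-- modules with a compatible torus action `ω` (graded modules) -/
structure Rep (T : TAlg k I) extends Mod T where
  ω : I → X ≃ₗ[k] X
  ω_comm : ∀ i j x, ω i (ω j x) = ω j (ω i x)
  ω_smul : ∀ i (a : T.A) x, ω i (a • x) = T.ad i a • ω i x

variable {T : TAlg k I}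

/-- the action of `K_i` as a linear equivalence -/
def Mod.Kact (M : Mod T) (i : I) : M.X ≃ₗ[k] M.X where
  toFun x := (T.K i : T.A) • x
  invFun x := (((T.K i)⁻¹ : T.Aˣ) : T.A) • x
  map_add' x y := smul_add _ _ _
  map_smul' t x := by
    simp only [RingHom.id_apply]
    rw [← algebraMap_smul T.A t x, smul_smul, ← Algebra.commutes, mul_smul, algebraMap_smul]
  left_inv x := by simp [smul_smul]
  right_inv x := by simp [smul_smul]

/-- the standard torus action `ω_i = K_i` -/
def Mod.rep (M : Mod T) : Rep T where
  toMod := M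
  ω := M.Kact
  ω_comm i j x := by
    show (T.K i : T.A) • (T.K j : T.A) • x = (T.K j : T.A) • (T.K i : T.A) • x
    rw [smul_smul, smul_smul, ← Units.val_mul, T.K_comm, Units.val_mul]
  ω_smul i a x := by
    show (T.K i : T.A) • a • x = T.ad i a • (T.K i : T.A) • x
    have : T.ad i a = (T.K i : T.A) * a * ((T.K i)⁻¹ : T.Aˣ) := rfl
    rw [this, smul_smul, smul_smul]
    simp [mul_assoc]

/-- the coefficient object `Hom_k(M, N)` -/
def homCoef (M : Rep T) (N : GrMod k I) : Coef T where
  V := M.X →ₗ[k] N.N
  r a :=
    { toFun := fun v => v ∘ₗ (LinearMap.lsmul k M.X : k →ₗ[k] M.X →ₗ[k] M.X) 1 ∘ₗ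
        { toFun := fun x => a • x
          map_add' := fun x y => smul_add _ _ _
          map_smul' := fun t x => by
            simp only [RingHom.id_apply]
            rw [← algebraMap_smul T.A t x, smul_smul, ← Algebra.commutes, mul_smul,
              algebraMap_smul] }
      map_add' := fun v w => by ext x; simp
      map_smul' := fun p v => by ext x; simp }
  r_add a b v := by ext x; simp [add_smul]
  r_smul t a v := by ext x; simp
  r_one v := by ext x; simp
  r_mul a b v := by ext x; simp [mul_smul]
  κ i :=
    { toFun := fun v => v ∘ₗ (M.ω i).symm.toLinearMap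
      map_add' := fun v w => by ext x; simp
      map_smul' := fun p v => by ext x; simp }
  κ_comm i j v := by
    ext x
    have h : (M.ω j).symm ((M.ω i).symm x) = (M.ω i).symm ((M.ω j).symm x) := by
      apply (M.ω i).injective; apply (M.ω j).injective
      rw [M.ω_comm j i]; simp
    simp [h]
  κ_r i a v := by
    ext x
    have h : (M.ω i).symm (T.ad i a • x) = a • (M.ω i).symm x := by
      apply (M.ω i).injective
      rw [M.ω_smul]; simp
    simp [h]
  π m :=
    { toFun := fun v => N.π m ∘ₗ v
      map_add' := fun v w => by ext x; simp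
      map_smul' := fun p v => by ext x; simp }
  π_π m v := by ext x; exact N.π_π _ _
  π_ne m n v h := by ext x; exact N.π_ne _ _ _ h
  π_X m i v := by ext x; exact N.π_X _ _ _
  π_r m a v := by ext x; simp
  π_κ m i v := by ext x; simp

end Pool.Agent.Lib.QG
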