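import Pool.Agent.Lib.MP_021f05_al.HDef
import Pool.Agent.Lib.MP_021f05_al.Rep

/-!
# MP_021f05_al: graded modules `T.A ⊗_k Z` (definitions)
-/

noncomputable section

namespace Pool.Agent.Lib.QG

open MvPolynomial
open scoped TensorProduct

variable {k : Type} [Field k] {I : Type} {T' T : TAlg k I}

/-- vanishing of the cohomology of a coefficient object in degree `n` -/
def CVan [Fintype I] (V : Coef T) (n : ℤ) : Prop := ∀ e ∈ V.Deg n, e = 0

/-- the automorphism `u_i = ω_i⁻¹ K_i` of a graded module -/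
def Rep.u (P : Rep T) (i : I) : P.X →ₗ[T.A] P.X where
  toFun x := (P.ω i).symm ((T.K i : T.A) • x)
  map_add' x y := by rw [smul_add, map_add]
  map_smul' a x := by
    apply (P.ω i).injective
    rw [RingHom.id_apply, P.ω_smul, LinearEquiv.apply_symm_apply, LinearEquiv.apply_symm_apply]
    show (T.K i : T.A) • a • x = ((T.K i : T.A) * a * ((T.K i)⁻¹ : T.Aˣ)) • (T.K i : T.A) • x
    rw [smul_smul, smul_smul, mul_assoc, Units.inv_mul, mul_one]

lemma Rep.ω_u (P : Rep T) (i : I) (x : P.X) : P.ω i (P.u i x) = (T.K i : T.A) • x :=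
  LinearEquiv.apply_symm_apply _ _

/-- the graded module `T.A ⊗_k Z`, with `ω_i = Ad K_i ⊗ K_i` -/
def freeRep (T : TAlg k I) (Z : Mod T') : Rep T where
  X := T.A ⊗[k] Z.X
  ω i := TensorProduct.congr
    { toFun := T.ad i
      invFun := T.adi i
      map_add' := map_add _
      map_smul' := fun t a => map_smul (T.ad i) t a
      left_inv := fun a => by simp [TAlg.ad, TAlg.adi, mul_assoc]
      right_inv := fun a => by simp [TAlg.ad, TAlg.adi, mul_assoc] }
    (Z.Kact i)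
  ω_comm i j x := by
    induction x using TensorProduct.induction_on with
    | zero => simp
    | tmul a z =>
      show T.ad i (T.ad j a) ⊗ₜ[k] (Z.Kact i (Z.Kact j z))
        = T.ad j (T.ad i a) ⊗ₜ[k] (Z.Kact j (Z.Kact i z))
      have h1 : Z.Kact i (Z.Kact j z) = Z.Kact j (Z.Kact i z) := Z.rep.ω_comm i j z
      have h2 : T.ad i (T.ad j a) = T.ad j (T.ad i a) := by
        have e1 : (T.K i : T.A) * (T.K j : T.A) = (T.K j : T.A) * (T.K i : T.A) := by
          rw [← Units.val_mul, T.K_comm, Units.val_mul]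
        have e2 : (((T.K j)⁻¹ : T.Aˣ) : T.A) * ((T.K i)⁻¹ : T.Aˣ)
            = ((T.K i)⁻¹ : T.Aˣ) * ((T.K j)⁻¹ : T.Aˣ) := by
          rw [← Units.val_mul, ← Units.val_mul, ← mul_inv_rev, ← mul_inv_rev, T.K_comm]
        show (T.K i : T.A) * ((T.K j : T.A) * a * ((T.K j)⁻¹ : T.Aˣ)) * ((T.K i)⁻¹ : T.Aˣ)
          = (T.K j : T.A) * ((T.K i : T.A) * a * ((T.K i)⁻¹ : T.Aˣ)) * ((T.K j)⁻¹ : T.Aˣ)
        calc (T.K i : T.A) * ((T.K j : T.A) * a * ((T.K j)⁻¹ : T.Aˣ)) * ((T.K i)⁻¹ : T.Aˣ)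
            = ((T.K i : T.A) * (T.K j : T.A)) * a
              * ((((T.K j)⁻¹ : T.Aˣ) : T.A) * ((T.K i)⁻¹ : T.Aˣ)) := by
              simp only [mul_assoc]
          _ = _ := by rw [e1, e2]; simp only [mul_assoc]
      rw [h1, h2]
    | add x y hx hy => simp only [map_add, hx, hy]
  ω_smul i a x := by
    induction x using TensorProduct.induction_on with
    | zero => simp
    | tmul b z =>
      show T.ad i (a * b) ⊗ₜ[k] (Z.Kact i z) = T.ad i a • (T.ad i b ⊗ₜ[k] (Z.Kact i z))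
      rw [map_mul, TensorProduct.smul_tmul', smul_eq_mul]
    | add x y hx hy => simp only [smul_add, map_add, hx, hy]

lemma freeRep_ω (Z : Mod T') (i : I) (a : T.A) (z : Z.X) :
    (freeRep T Z).ω i (a ⊗ₜ[k] z : T.A ⊗[k] Z.X)
      = (T.ad i a ⊗ₜ[k] ((T'.K i : T'.A) • z) : T.A ⊗[k] Z.X) := rfl

end Pool.Agent.Lib.QG
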