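import Pool.Agent.Lib.MP_021f05_al.EDef
import Pool.Agent.Lib.MP_021f05_al.FreeDef

/-!
# MP_021f05_al (D2): adding one polynomial variable
-/

noncomputable section

namespace Pool.Agent.Lib.QG

open MvPolynomial

section aux

variable {k : Type} [Field k] {I : Type} {T : TAlg k I}

/-! ### one more variable -/

/-- set the variable `x_j` to zero -/
def Step_pi (k : Type) [Field k] {I : Type} (J : Set I) (j : I) :
    MvPolynomial ↑(insert j J) k →ₐ[k] MvPolynomial J k :=
  open Classical in
  aeval fun i => if h : i.1 ∈ J then X ⟨i.1, h⟩ else 0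

/-- the inclusion -/
def Step_in (k : Type) [Field k] {I : Type} (J : Set I) (j : I) :
    MvPolynomial J k →ₐ[k] MvPolynomial ↑(insert j J) k :=
  rename fun i => ⟨i.1, Set.mem_insert_of_mem _ i.2⟩

/-- the new variable -/
def Step_x (k : Type) [Field k] {I : Type} (J : Set I) (j : I) :
    MvPolynomial ↑(insert j J) k := X ⟨j, Set.mem_insert _ _⟩

/-- divide by the new variable -/
def Step_dv (k : Type) [Field k] {I : Type} (J : Set I) (j : I) :
    MvPolynomial ↑(insert j J) k →ₗ[k] MvPolynomial ↑(insert j J) k where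
  toFun q := q.divMonomial (Finsupp.single ⟨j, Set.mem_insert _ _⟩ 1)
  map_add' p q := add_divMonomial _ _ _
  map_smul' t q := by
    ext s
    simp [coeff_divMonomial]

lemma Step_pi_X_mem (J : Set I) (j : I) (i : ↑(insert j J)) (h : i.1 ∈ J) :
    Step_pi k J j (X i) = X ⟨i.1, h⟩ := by
  unfold Step_pi; rw [aeval_X, dif_pos h]

lemma Step_pi_x {J : Set I} {j : I} (hj : j ∉ J) : Step_pi k J j (Step_x k J j) = 0 := by
  unfold Step_pi Step_x; rw [aeval_X, dif_neg hj]

lemma Step_C {σ τ : Type} (f : MvPolynomial σ k →ₐ[k] MvPolynomial τ k) (a : k) :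
    f (C a) = C a := f.commutes a

lemma Step_in_X (J : Set I) (j : I) (i : J) :
    Step_in k J j (X i) = X ⟨i.1, Set.mem_insert_of_mem _ i.2⟩ := by
  unfold Step_in; rw [rename_X]

lemma Step_pi_in (J : Set I) (j : I) (q : MvPolynomial J k) :
    Step_pi k J j (Step_in k J j q) = q := by
  induction q using MvPolynomial.induction_on with
  | C a => rw [Step_C, Step_C]
  | add p q hp hq => rw [map_add, map_add, hp, hq]
  | mul_X p i hp =>
    rw [map_mul, map_mul, hp, Step_in_X, Step_pi_X_mem J j _ i.2]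

lemma Step_ex {J : Set I} {j : I} (hj : j ∉ J) (q : MvPolynomial ↑(insert j J) k) :
    ∃ r, q = Step_x k J j * r + Step_in k J j (Step_pi k J j q) := by
  induction q using MvPolynomial.induction_on with
  | C a =>
    refine ⟨0, ?_⟩
    rw [mul_zero, zero_add, Step_C, Step_C]
  | add p q hp hq =>
    obtain ⟨r, hr⟩ := hp
    obtain ⟨s, hs⟩ := hq
    refine ⟨r + s, ?_⟩
    rw [map_add, map_add, mul_add]
    nth_rewrite 1 [hr]
    nth_rewrite 1 [hs]
    ring
  | mul_X p i hp =>
    obtain ⟨r, hr⟩ := hp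
    by_cases hi : i.1 ∈ J
    · refine ⟨r * X i, ?_⟩
      rw [map_mul, map_mul, Step_pi_X_mem J j i hi, Step_in_X]
      nth_rewrite 1 [hr]
      ring
    · have h1 : i = ⟨j, Set.mem_insert _ _⟩ := by
        apply Subtype.ext
        rcases i.2 with h | h
        · exact h
        · exact absurd h hi
      refine ⟨p, ?_⟩
      have h2 : (X i : MvPolynomial ↑(insert j J) k) = Step_x k J j := by rw [h1]; rfl
      rw [map_mul, h2, Step_pi_x hj, mul_zero, map_zero, add_zero, mul_comm]

lemma Step_in_support {J : Set I} {j : I} (hj : j ∉ J) (q : MvPolynomial J k) :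
    ∀ n ∈ (Step_in k J j q).support, n ⟨j, Set.mem_insert _ _⟩ = 0 := by
  intro n hn
  unfold Step_in at hn
  rw [mem_support_iff] at hn
  obtain ⟨u, hu, -⟩ := coeff_rename_ne_zero _ _ _ hn
  rw [← hu]
  apply Finsupp.mapDomain_of_notMem_range
  rintro ⟨i, hi⟩
  apply hj
  have := congrArg Subtype.val hi
  simp only at this
  rw [← this]; exact i.2

lemma Step_dec {J : Set I} {j : I} (hj : j ∉ J) (q : MvPolynomial ↑(insert j J) k) :
    Step_x k J j * Step_dv k J j q + Step_in k J j (Step_pi k J j q) = q := by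
  obtain ⟨r, hr⟩ := Step_ex hj q
  unfold Step_x at hr
  have h1 := eq_divMonomial_single hr (Step_in_support hj _)
  have h2 : Step_dv k J j q = r := h1.symm
  rw [h2]; exact hr.symm

lemma Step_dv_x (J : Set I) (j : I) (q : MvPolynomial ↑(insert j J) k) :
    Step_dv k J j (Step_x k J j * q) = q :=
  X_mul_divMonomial _ _

lemma Step_res (J : Set I) (j : I) (q : MvPolynomial I k) :
    Step_pi k J j (resJ k (insert j J) q) = resJ k J q := by
  classical
  induction q using MvPolynomial.induction_on with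
  | C a => rw [Step_C, Step_C, Step_C]
  | add p q hp hq => rw [map_add, map_add, map_add, hp, hq]
  | mul_X p i hp =>
    rw [map_mul, map_mul, map_mul, hp]
    congr 1
    unfold resJ
    rw [aeval_X, aeval_X]
    by_cases hi : i ∈ J
    · rw [dif_pos hi, dif_pos (Set.mem_insert_of_mem _ hi), Step_pi_X_mem J j _ hi]
    · rw [dif_neg hi]
      by_cases hi2 : i ∈ insert j J
      · rw [dif_pos hi2]
        unfold Step_pi
        rw [aeval_X, dif_neg hi]
      · rw [dif_neg hi2, map_zero]

lemma Step_res_x (J : Set I) (j : I) :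
    resJ k (insert j J) (X j) = Step_x k J j := by
  classical
  unfold resJ Step_x
  rw [aeval_X, dif_pos (Set.mem_insert _ _)]

lemma Step_res_notMem {J : Set I} {i : I} (hi : i ∉ J) :
    resJ k J (X i) = 0 := by
  classical
  unfold resJ
  rw [aeval_X, dif_neg hi]

lemma Step_hom {J : Set I} {j : I} {q : MvPolynomial ↑(insert j J) k} {d : ℕ}
    (hq : q.IsHomogeneous d) : (Step_pi k J j q).IsHomogeneous d := by
  classical
  have := hq.aeval (fun i : ↑(insert j J) => if h : i.1 ∈ J then (X ⟨i.1, h⟩ : MvPolynomial J k)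
    else 0) (n := 1) (by
      intro i
      by_cases h : i.1 ∈ J
      · simp only [dif_pos h]; exact isHomogeneous_X _ _
      · simp only [dif_neg h]; exact isHomogeneous_zero _ _ _)
  rw [one_mul] at this
  unfold Step_pi
  convert this

lemma Step_hc (J : Set I) (j : I) (q : MvPolynomial ↑(insert j J) k) (d : ℕ) :
    Step_pi k J j (homogeneousComponent d q) = homogeneousComponent d (Step_pi k J j q) := by
  have h1 : ∀ e (p : MvPolynomial ↑(insert j J) k), p.IsHomogeneous e →
      Step_pi k J j (homogeneousComponent d p) = homogeneousComponent d (Step_pi k J j p) := by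
    intro e p hp
    rw [homogeneousComponent_of_mem ((mem_homogeneousSubmodule _ _).2 hp),
      homogeneousComponent_of_mem ((mem_homogeneousSubmodule _ _).2 (Step_hom hp))]
    split_ifs
    · rfl
    · exact map_zero _
  have h2 := sum_homogeneousComponent q
  rw [← h2]
  simp only [map_sum]
  refine Finset.sum_congr rfl fun e _ => ?_
  exact h1 e _ (homogeneousComponent_isHomogeneous e q)

lemma Step_gc (J : Set I) (j : I) (q : MvPolynomial ↑(insert j J) k) (m : ℤ) :
    Step_pi k J j (gc m q) = gc m (Step_pi k J j q) := by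
  rcases gc_cases m with ⟨d, rfl⟩ | hm
  · rw [gc_even, gc_even, Step_hc]
  · rw [gc_of_not hm, gc_of_not hm, map_zero]


/-! ### the exact sequence of one more variable -/

section ses

variable (P : Rep T) (J : Set I) (j : I)

/-- setting `x_j = 0`, on the graded modules -/
def Step_piN (k : Type) [Field k] {I : Type} (J : Set I) (j : I) :
    (NJ k (insert j J)).N →ₗ[k] (NJ k J).N :=
  ((Step_pi k J j).toLinearMap : MvPolynomial ↑(insert j J) k →ₗ[k] MvPolynomial J k)

/-- inclusion, on the graded modules -/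
def Step_inN (k : Type) [Field k] {I : Type} (J : Set I) (j : I) :
    (NJ k J).N →ₗ[k] (NJ k (insert j J)).N :=
  ((Step_in k J j).toLinearMap : MvPolynomial J k →ₗ[k] MvPolynomial ↑(insert j J) k)

/-- division by `x_j`, on the graded modules -/
def Step_dvN (k : Type) [Field k] {I : Type} (J : Set I) (j : I) :
    (NJ k (insert j J)).N →ₗ[k] (NJ k (insert j J)).N :=
  (Step_dv k J j : MvPolynomial ↑(insert j J) k →ₗ[k] MvPolynomial ↑(insert j J) k)

lemma Step_piN_smul (p : MvPolynomial I k) (v : (NJ k (insert j J)).N) :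
    Step_piN k J j (p • v) = p • Step_piN k J j v := by
  show Step_pi k J j (resJ k (insert j J) p * (show MvPolynomial ↑(insert j J) k from v))
    = resJ k J p * Step_pi k J j (show MvPolynomial ↑(insert j J) k from v)
  rw [map_mul, Step_res]

lemma Step_piN_π (m : ℤ) (v : (NJ k (insert j J)).N) :
    Step_piN k J j ((NJ k (insert j J)).π m v) = (NJ k J).π m (Step_piN k J j v) :=
  Step_gc J j v m

lemma Step_piN_inN (v : (NJ k J).N) : Step_piN k J j (Step_inN k J j v) = v :=
  Step_pi_in J j v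

lemma Step_dvN_X (v : (NJ k (insert j J)).N) :
    Step_dvN k J j ((X j : MvPolynomial I k) • v) = v := by
  show Step_dv k J j (resJ k (insert j J) (X j)
    * (show MvPolynomial ↑(insert j J) k from v)) = v
  rw [Step_res_x]
  exact Step_dv_x J j _

lemma Step_piN_X {J : Set I} {j : I} (hj : j ∉ J) (v : (NJ k (insert j J)).N) :
    Step_piN k J j ((X j : MvPolynomial I k) • v) = 0 := by
  show Step_pi k J j (resJ k (insert j J) (X j)
    * (show MvPolynomial ↑(insert j J) k from v)) = 0
  rw [Step_res_x, map_mul, Step_pi_x hj, zero_mul]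

lemma Step_decN {J : Set I} {j : I} (hj : j ∉ J) (v : (NJ k (insert j J)).N) :
    (X j : MvPolynomial I k) • Step_dvN k J j v + Step_inN k J j (Step_piN k J j v) = v := by
  show resJ k (insert j J) (X j) * Step_dv k J j (show MvPolynomial ↑(insert j J) k from v)
    + Step_in k J j (Step_pi k J j (show MvPolynomial ↑(insert j J) k from v)) = v
  rw [Step_res_x]
  exact Step_dec hj _

lemma Step_X_notMem {J : Set I} {i : I} (hi : i ∉ J) (v : (NJ k J).N) :
    (X i : MvPolynomial I k) • v = 0 := by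
  show resJ k J (X i) * (show MvPolynomial J k from v) = (0 : MvPolynomial J k)
  rw [Step_res_notMem hi, zero_mul]

/-- multiplication by `x_j` -/
def Step_mul : CoefHom (homCoef P (NJ k (insert j J))) (homCoef P (NJ k (insert j J))) 2 where
  f := LinearMap.lsmul (MvPolynomial I k) _ (X j)
  f_r a v := by
    rw [LinearMap.lsmul_apply, LinearMap.lsmul_apply, map_smul]
  f_κ i v := by
    rw [LinearMap.lsmul_apply, LinearMap.lsmul_apply, map_smul]
  f_π m v := by
    rw [LinearMap.lsmul_apply, LinearMap.lsmul_apply, Coef.π_X]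

lemma Step_mul_f (v : (homCoef P (NJ k (insert j J))).V) :
    (Step_mul P J j).f v = (X j : MvPolynomial I k) • v := rfl

/-- `x_j = 0` on the coefficient objects -/
def Step_p : CoefHom (homCoef P (NJ k (insert j J))) (homCoef P (NJ k J)) 0 where
  f :=
    { toFun := fun v => mkV (Step_piN k J j ∘ₗ ev v)
      map_add' := fun v w => by
        refine ev_ext fun x => ?_
        rw [ev_add]
        exact map_add (Step_piN k J j) _ _
      map_smul' := fun p v => by
        refine ev_ext fun x => ?_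
        rw [RingHom.id_apply, ev_smul]
        exact Step_piN_smul J j p _ }
  f_r a v := by
    refine ev_ext fun x => ?_
    rw [ev_r]
    show Step_piN k J j (ev ((homCoef P (NJ k (insert j J))).r a v) x) = _
    rw [ev_r]; rfl
  f_κ i v := by
    refine ev_ext fun x => ?_
    rw [ev_κ]; rfl
  f_π m v := by
    refine ev_ext fun x => ?_
    rw [add_zero, ev_π]
    exact Step_piN_π J j m _

lemma Step_ev_p (v : (homCoef P (NJ k (insert j J))).V) (x : P.X) :
    ev ((Step_p P J j).f v) x = Step_piN k J j (ev v x) := rfl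

/-- the inclusion on the coefficient objects -/
def Step_s : (homCoef P (NJ k J)).V →ₗ[k] (homCoef P (NJ k (insert j J))).V where
  toFun := fun v => mkV (Step_inN k J j ∘ₗ ev v)
  map_add' := fun v w => by
    refine ev_ext fun x => ?_
    rw [ev_add]
    exact map_add (Step_inN k J j) _ _
  map_smul' := fun p v => by
    refine ev_ext fun x => ?_
    rw [RingHom.id_apply, ev_smulk]
    exact map_smul (Step_inN k J j) p _

lemma Step_ev_s (v : (homCoef P (NJ k J)).V) (x : P.X) :
    ev (Step_s P J j v) x = Step_inN k J j (ev v x) := rfl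

/-- division by `x_j` on the coefficient objects -/
def Step_ρ : (homCoef P (NJ k (insert j J))).V →ₗ[k] (homCoef P (NJ k (insert j J))).V where
  toFun := fun v => mkV (Step_dvN k J j ∘ₗ ev v)
  map_add' := fun v w => by
    refine ev_ext fun x => ?_
    rw [ev_add]
    exact map_add (Step_dvN k J j) _ _
  map_smul' := fun p v => by
    refine ev_ext fun x => ?_
    rw [RingHom.id_apply, ev_smulk]
    exact map_smul (Step_dvN k J j) p _

lemma Step_ev_ρ (v : (homCoef P (NJ k (insert j J))).V) (x : P.X) :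
    ev (Step_ρ P J j v) x = Step_dvN k J j (ev v x) := rfl

/-- the short exact sequence `0 → N → N → N' → 0` on the coefficient objects -/
def Step_ses {J : Set I} {j : I} (hj : j ∉ J) :
    CoefSES (homCoef P (NJ k (insert j J))) (homCoef P (NJ k (insert j J)))
      (homCoef P (NJ k J)) 2 0 where
  j := Step_mul P J j
  p := Step_p P J j
  s := Step_s P J j
  ρ := Step_ρ P J j
  s_κ i v := by
    refine ev_ext fun x => ?_
    rw [ev_κ, Step_ev_s, Step_ev_s, ev_κ]
  ρ_κ i v := by
    refine ev_ext fun x => ?_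
    rw [ev_κ, Step_ev_ρ, Step_ev_ρ, ev_κ]
  ps v := by
    refine ev_ext fun x => ?_
    rw [Step_ev_p, Step_ev_s, Step_piN_inN]
  ρj v := by
    refine ev_ext fun x => ?_
    rw [Step_ev_ρ, Step_mul_f, ev_smul, Step_dvN_X]
  pj v := by
    refine ev_ext fun x => ?_
    rw [Step_ev_p, Step_mul_f, ev_smul, Step_piN_X hj, ev_zero]
  js v := by
    refine ev_ext fun x => ?_
    rw [ev_add, Step_mul_f, ev_smul, Step_ev_ρ, Step_ev_s, Step_ev_p, Step_decN hj]

end ses

/-! ### flatness -/

section flat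

variable [Fintype I]

lemma Step_flat (P : Rep T) (J : Set I) (h : ∀ i ∈ J, ∀ x, P.ω i x = (T.K i : T.A) • x) :
    (homCoef P (NJ k J)).IsFlat := by
  refine ⟨fun v => Finset.sum_congr rfl fun i _ => ?_⟩
  refine ev_ext fun x => ?_
  rw [ev_smul, ev_smul]
  by_cases hi : i ∈ J
  · rw [ev_r, ev_κ]
    have : (P.ω i).symm ((T.K i : T.A) • x) = x := by
      rw [← h i hi x]; exact (P.ω i).symm_apply_apply x
    rw [this]
  · rw [Step_X_notMem hi, Step_X_notMem hi]

/-- the square of the differential, when all but one torus actions are flat -/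
lemma Step_DD [CharZero k] (P : Rep T) (J : Set I) {j : I}
    (h : ∀ i ∈ J, ∀ x, P.ω i x = (T.K i : T.A) • x)
    {f : List T.A → (homCoef P (NJ k (insert j J))).V}
    (hf : f ∈ (homCoef P (NJ k (insert j J))).Coc) (l : List T.A) (x : P.X) :
    ev ((homCoef P (NJ k (insert j J))).D ((homCoef P (NJ k (insert j J))).D f) l) x
      = - ((X j : MvPolynomial I k) • ev (f l) (P.u j x - x)) := by
  classical
  rw [Coef.D_D' _ hf l, Finset.sum_eq_single j]
  · rw [ev_sub, ev_smul, ev_smul, ev_r, ev_κ]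
    have : (P.ω j).symm ((T.K j : T.A) • x) = P.u j x := rfl
    rw [this, map_sub, smul_sub]
    abel
  · intro i _ hij
    refine ev_ext fun x => ?_
    rw [ev_sub, ev_smul, ev_smul, ev_r, ev_κ, ev_zero]
    by_cases hi : i ∈ J
    · have : (P.ω i).symm ((T.K i : T.A) • x) = x := by
        rw [← h i hi x]; exact (P.ω i).symm_apply_apply x
      rw [this, sub_self]
    · have hi2 : i ∉ insert j J := by
        rintro (h | h)
        · exact hij h
        · exact hi h
      rw [Step_X_notMem hi2, Step_X_notMem hi2, sub_self]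
  · intro h; exact absurd (Finset.mem_univ j) h

end flat

/-! ### cochains supported on the empty list -/

section supp

variable {V W : Coef T}

lemma Step_dd (σ : V.V →ₗ[k] W.V) (hσ : ∀ a v, σ (V.r a v) = W.r a (σ v))
    (l : List T.A) (f : List T.A → V.V) :
    W.dd l (fun l => σ (f l)) = σ (V.dd l f) := by
  induction l generalizing f with
  | nil => simp [Coef.dd]
  | cons a l ih =>
    have h1 : W.tl (fun l => σ (f l)) a = fun l => σ (V.tl f a l) := rfl
    have h2 : W.act (fun l => σ (f l)) a l = σ (V.act f a l) := by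
      cases l with
      | nil => simp only [Coef.act, hσ]
      | cons b l => rfl
    simp only [Coef.dd, h1, ih, h2, map_sub, map_neg]

lemma Step_b (σ : V.V →ₗ[k] W.V) (hσ : ∀ a v, σ (V.r a v) = W.r a (σ v))
    (l : List T.A) (f : List T.A → V.V) :
    W.b (fun l => σ (f l)) l = σ (V.b f l) := by
  cases l with
  | nil => simp [Coef.b]
  | cons a l => simp only [Coef.b, Step_dd σ hσ, map_add, map_smul]

lemma Step_hh (i : I) (l : List T.A) (f : List T.A → V.V)
    (hf : ∀ a l, f (a :: l) = 0) : V.hh i l f = 0 := by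
  cases l with
  | nil => simp only [Coef.hh, hf, map_zero]
  | cons a l =>
    simp only [Coef.hh, hf, map_zero]
    have h1 : V.tl f a = (0 : k) • V.tl f a := by
      funext m
      rw [zero_smul]
      exact hf a m
    rw [h1, Coef.hh_smulk, zero_smul, sub_zero]

lemma Step_Db [Fintype I] (f : List T.A → V.V) (hf : ∀ a l, f (a :: l) = 0) (l : List T.A) :
    V.D f l = V.b f l := by
  simp only [Coef.D, Coef.h, Step_hh _ l f hf, smul_zero, Finset.sum_const_zero, add_zero]

lemma Step_D [Fintype I] (σ : V.V →ₗ[k] W.V) (hσ : ∀ a v, σ (V.r a v) = W.r a (σ v))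
    (f : List T.A → V.V) (hf : ∀ a l, f (a :: l) = 0) :
    W.D (fun l => σ (f l)) = fun l => σ (V.D f l) := by
  funext l
  rw [Step_Db f hf, Step_Db (fun l => σ (f l)) (by intro a l; simp only [hf, map_zero]),
    Step_b σ hσ]

end supp

/-! ### graded exactness -/

section graded

variable [Fintype I] {V' V V'' : Coef T} {e' e'' : ℤ}

lemma Step_map_Deg {V W : Coef T} {e : ℤ} (φ : CoefHom V W e) {n : ℤ} {x : V.H}
    (hx : x ∈ V.Deg n) : φ.mapH x ∈ W.Deg (n + e) := by
  rw [Coef.mem_Deg, ← φ.mapH_pr, V.mem_Deg.1 hx]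

variable [CharZero k] (E : CoefSES V' V V'' e' e'') [V.IsFlat]

lemma Step_δ_Deg {n m : ℤ} (hm : m = n + 1 - e' - e'') {x : V''.H} (hx : x ∈ V''.Deg n) :
    E.δ x ∈ V'.Deg m := by
  rw [Coef.mem_Deg, hm, ← E.δ_pr, V''.mem_Deg.1 hx]

lemma Step_mid {n m : ℤ} (hm : n = m + e') {x : V.H} (hx : x ∈ V.Deg n)
    (h : E.p.mapH x = 0) : ∃ y ∈ V'.Deg m, E.j.mapH y = x := by
  obtain ⟨y, hy⟩ := (E.exact_mid x).1 h
  refine ⟨V'.pr m y, V'.pr_mem_Deg _ _, ?_⟩
  rw [E.j.mapH_pr, hy, ← hm]
  exact hx

lemma Step_left {n m : ℤ} (hm : n = m + 1 - e' - e'') {x : V'.H} (hx : x ∈ V'.Deg n)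
    (h : E.j.mapH x = 0) : ∃ y ∈ V''.Deg m, E.δ y = x := by
  obtain ⟨y, hy⟩ := (E.exact_left x).1 h
  refine ⟨V''.pr m y, V''.pr_mem_Deg _ _, ?_⟩
  rw [E.δ_pr, hy, ← hm]
  exact hx

end graded

lemma Step_neg [Fintype I] (P : Rep T) (J : Set I) {n : ℤ} (hn : n < 0) :
    CVan (homCoef P (NJ k J)) n := by
  intro e he
  obtain ⟨z, rfl⟩ := Coef.cls_surj _ e
  rw [Coef.mem_Deg, Coef.pr_cls] at he
  rw [← he]
  have : (homCoef P (NJ k J)).prZ n z = 0 := by
    apply Subtype.ext; funext l
    show (homCoef P (NJ k J)).π (n - l.length) (z.1 l) = 0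
    refine ev_ext fun x => ?_
    rw [ev_π]
    exact gc_of_not (by omega) _
  rw [this, map_zero]

/-! ### the connecting maps -/

section key

variable [CharZero k] [Fintype I] {P P'' : Rep T} {j : I} {J : Set I}

omit [CharZero k] in
/-- a degree zero class is represented by a cocycle supported on the empty list -/
lemma Step_rep (P : Rep T) (J : Set I) {e : (homCoef P (NJ k J)).H}
    (he : e ∈ (homCoef P (NJ k J)).Deg 0) :
    ∃ z : (homCoef P (NJ k J)).Z, (homCoef P (NJ k J)).cls z = e ∧
      ∀ a l, z.1 (a :: l) = 0 := by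
  obtain ⟨z, rfl⟩ := Coef.cls_surj _ e
  refine ⟨(homCoef P (NJ k J)).prZ 0 z, ?_, ?_⟩
  · rw [← Coef.pr_cls]; exact he
  · intro a l
    show (homCoef P (NJ k J)).π (0 - (a :: l).length) (z.1 (a :: l)) = 0
    refine ev_ext fun x => ?_
    rw [ev_π]
    refine gc_of_not ?_ _
    rw [List.length_cons]; push_cast; omega

omit [CharZero k] [Fintype I] in
lemma Step_s_r (P : Rep T) (J : Set I) (j : I) (a : T.A) (v : (homCoef P (NJ k J)).V) :
    Step_s P J j ((homCoef P (NJ k J)).r a v)
      = (homCoef P (NJ k (insert j J))).r a (Step_s P J j v) := by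
  refine ev_ext fun x => ?_
  rw [ev_r, Step_ev_s, Step_ev_s, ev_r]

lemma Step_key (hj : j ∉ J) (S : RepSES P P P'')
    (hi : ∀ x, S.i.f x = P.u j x - x)
    (hflat : ∀ i ∈ J, ∀ x, P.ω i x = (T.K i : T.A) • x)
    [(homCoef P (NJ k J)).IsFlat] [(homCoef P'' (NJ k (insert j J))).IsFlat]
    (e : (homCoef P (NJ k J)).H) (he : e ∈ (homCoef P (NJ k J)).Deg 0) :
    (S.p.coef (NJ k J)).mapH ((Step_ses P'' hj).p.mapH
      ((Step_ses P'' hj).δ ((S.coef (NJ k J)).δ e))) = - e := by
  obtain ⟨z, rfl, hz⟩ := Step_rep P J he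
  rw [CoefSES.δ_cls, CoefSES.δ_cls, CoefHom.mapH_cls, CoefHom.mapH_cls, ← map_neg]
  congr 1
  apply Subtype.ext
  funext l
  refine ev_ext fun x => ?_
  -- the lifts
  set h := (S.coef (NJ k J)).δZ z with hh
  set w := (Step_ses P'' hj).δZ h with hw
  have e1 : (S.coef (NJ k J)).j.F h.1
      = (homCoef P (NJ k J)).D (fun l => (S.coef (NJ k J)).s (z.1 l)) := CoefSES.j_δZ _ z
  have e2 : (Step_ses P'' hj).j.F w.1
      = (homCoef P'' (NJ k (insert j J))).D (fun l => (Step_ses P'' hj).s (h.1 l)) :=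
    CoefSES.j_δZ _ h
  set g : List T.A → (homCoef P (NJ k J)).V := fun l => (S.coef (NJ k J)).s (z.1 l) with hg
  have hg0 : ∀ a l, g (a :: l) = 0 := by
    intro a l
    simp only [hg, hz, map_zero]
  have hgm : g ∈ (homCoef P (NJ k J)).Coc :=
    (S.coef (NJ k J)).lift_mem (Coef.mem_Z _ |>.1 z.2).1
  have hGm : (fun l => Step_s P J j (g l)) ∈ (homCoef P (NJ k (insert j J))).Coc :=
    (Step_ses P hj).lift_mem hgm
  have e3 : (S.p.coef (NJ k (insert j J))).F ((Step_ses P'' hj).j.F w.1)
      = (homCoef P (NJ k (insert j J))).D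
        ((homCoef P (NJ k (insert j J))).D (fun l => Step_s P J j (g l))) := by
    rw [e2, ← CoefHom.F_D]
    congr 1
    rw [Step_D (Step_s P J j) (Step_s_r P J j) g hg0, ← e1]
    rfl
  have e4 := congrArg (fun v => ev v x) (congrFun e3 l)
  rw [Step_DD P J hflat hGm l x, ← hi] at e4
  have e5 : ev ((fun l => Step_s P J j (g l)) l) (S.i.f x)
      = Step_inN k J j (ev (z.1 l) x) := by
    show Step_inN k J j (ev (z.1 l) (S.ρ (S.i.f x))) = _
    rw [S.ρ_i]
  rw [e5] at e4
  have e6 : ev ((S.p.coef (NJ k (insert j J))).F ((Step_ses P'' hj).j.F w.1) l) x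
      = (X j : MvPolynomial I k) • ev (w.1 l) (S.p.f x) := rfl
  rw [e6, ← smul_neg] at e4
  have e7 := congrArg (Step_dvN k J j) e4
  rw [Step_dvN_X, Step_dvN_X] at e7
  show Step_piN k J j (ev (w.1 l) (S.p.f x)) = - ev (z.1 l) x
  rw [e7, map_neg, Step_piN_inN]

end key

end aux

variable {k : Type} [Field k] [CharZero k] {I : Type} [Fintype I] {T : TAlg k I}

theorem step_acyclic (P P'' : Rep T) (j : I) (J : Set I) (hj : j ∉ J) (S : RepSES P P P'')
    (hi : ∀ x, S.i.f x = P.u j x - x)
    (hflat : ∀ i ∈ J, ∀ x, P.ω i x = (T.K i : T.A) • x)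
    (h : ∀ n : ℤ, 0 < n → CVan (homCoef P (NJ k J)) n) :
    ∀ n : ℤ, 0 < n → CVan (homCoef P'' (NJ k (insert j J))) n := by
  -- flatness
  have hP'' : ∀ i ∈ insert j J, ∀ y, P''.ω i y = (T.K i : T.A) • y := by
    intro i hij y
    obtain ⟨x, rfl⟩ := S.surj y
    rcases hij with rfl | hiJ
    · have h1 : S.p.f (P.u i x) = S.p.f x := by
        rw [← sub_eq_zero, ← map_sub, ← hi, S.p_i]
      rw [← h1, ← S.p.f_ω, P.ω_u, map_smul, h1]
    · rw [← S.p.f_ω, hflat i hiJ, map_smul]
  have f1 : (homCoef P (NJ k J)).IsFlat := Step_flat P J hflat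
  have f2 : (homCoef P'' (NJ k J)).IsFlat :=
    Step_flat P'' J fun i hi => hP'' i (Set.mem_insert_of_mem _ hi)
  have f3 : (homCoef P'' (NJ k (insert j J))).IsFlat := Step_flat P'' _ hP''
  have key := Step_key hj S hi hflat
  set E1 := S.coef (NJ k J) with hE1
  set E2 := Step_ses P'' hj with hE2
  -- injectivity of `τ` on degree zero
  have inj : ∀ y ∈ (homCoef P'' (NJ k (insert j J))).Deg 0,
      (S.p.coef (NJ k J)).mapH (E2.p.mapH y) = 0 → y = 0 := by
    intro y hy h0
    have hy' : E2.p.mapH y ∈ (homCoef P'' (NJ k J)).Deg 0 := by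
      have := Step_map_Deg E2.p hy
      rwa [add_zero] at this
    obtain ⟨e, he, he2⟩ := Step_left E1 (n := 0) (m := -1) (by norm_num) hy' h0
    have h1 : e = 0 := Step_neg P J (by norm_num) e he
    rw [h1, map_zero] at he2
    obtain ⟨y2, hy2, hy3⟩ := Step_mid E2 (n := 0) (m := -2) (by norm_num) hy he2.symm
    rw [← hy3, Step_neg P'' _ (by norm_num) y2 hy2, map_zero]
  -- `δ₂ δ₁` is onto degree zero
  have surj : ∀ y ∈ (homCoef P'' (NJ k (insert j J))).Deg 0, ∃ x, E2.δ x = y := by
    intro y hy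
    have h1 : (S.p.coef (NJ k J)).mapH (E2.p.mapH y) ∈ (homCoef P (NJ k J)).Deg 0 := by
      have := Step_map_Deg (S.p.coef (NJ k J)) (Step_map_Deg E2.p hy)
      rwa [add_zero, add_zero] at this
    have h2 := key _ h1
    have h3 : E2.δ (E1.δ ((S.p.coef (NJ k J)).mapH (E2.p.mapH y)))
        ∈ (homCoef P'' (NJ k (insert j J))).Deg 0 :=
      Step_δ_Deg E2 (n := 1) (by norm_num) (Step_δ_Deg E1 (n := 0) (by norm_num) h1)
    have h4 := inj _ (Submodule.add_mem _ h3 hy) (by
      rw [map_add, map_add, h2, neg_add_cancel])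
    refine ⟨- (E1.δ ((S.p.coef (NJ k J)).mapH (E2.p.mapH y))), ?_⟩
    rw [map_neg]
    exact (eq_neg_of_add_eq_zero_right h4).symm
  -- the cohomology of `P''` with coefficients in `N'`
  have a1 : ∀ n : ℤ, 2 ≤ n → CVan (homCoef P'' (NJ k J)) n := by
    intro n hn e he
    have h1 : E1.j.mapH e ∈ (homCoef P (NJ k J)).Deg n := by
      have := Step_map_Deg E1.j he
      rwa [add_zero] at this
    obtain ⟨e1, he1, he2⟩ := Step_left E1 (n := n) (m := n - 1) (by ring) he
      (h n (by omega) _ h1)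
    rw [← he2, h (n - 1) (by omega) _ he1, map_zero]
  have a3 : ∀ e ∈ (homCoef P'' (NJ k J)).Deg 1, E2.δ e = 0 → e = 0 := by
    intro e he h0
    have h1 : E1.j.mapH e ∈ (homCoef P (NJ k J)).Deg 1 := by
      have := Step_map_Deg E1.j he
      rwa [add_zero] at this
    obtain ⟨e1, he1, he2⟩ := Step_left E1 (n := 1) (m := 0) (by norm_num) he
      (h 1 (by norm_num) _ h1)
    have h2 := key _ he1
    rw [he2, h0, map_zero, map_zero] at h2
    have h3 : e1 = 0 := by rw [← neg_eq_zero]; exact h2.symm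
    rw [← he2, h3, map_zero]
  -- induction
  intro n hn
  obtain ⟨m, rfl⟩ : ∃ m : ℕ, n = m := ⟨n.toNat, by omega⟩
  induction m using Nat.strong_induction_on with
  | _ m ih =>
    intro e he
    have he' : E2.p.mapH e ∈ (homCoef P'' (NJ k J)).Deg m := by
      have := Step_map_Deg E2.p he
      rwa [add_zero] at this
    rcases Nat.lt_or_ge m 2 with hm | hm
    · have hm1 : m = 1 := by omega
      subst hm1
      have h1 : E2.δ (E2.p.mapH e) = 0 := (E2.exact_right _).2 ⟨e, rfl⟩
      have h2 := a3 _ he' h1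
      obtain ⟨y, hy, hy2⟩ := Step_mid E2 (m := -1) (by norm_num) he h2
      rw [← hy2, Step_neg P'' _ (by norm_num) y hy, map_zero]
    · have h2 := a1 m (by exact_mod_cast hm) _ he'
      obtain ⟨y, hy, hy2⟩ := Step_mid E2 (m := ((m - 2 : ℕ) : ℤ)) (by omega) he h2
      rcases Nat.lt_or_ge m 3 with hm3 | hm3
      · have hm1 : m = 2 := by omega
        subst hm1
        obtain ⟨x, hx⟩ := surj y (by simpa using hy)
        rw [← hy2]
        exact (E2.exact_left _).2 ⟨x, hx⟩
      · rw [← hy2, ih (m - 2) (by omega) (by omega) y hy, map_zero]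

end Pool.Agent.Lib.QG
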