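import Pool.Agent.Lib.MP_021f05_al.EVan
import Pool.Agent.Lib.MP_021f05_al.Free0
import Pool.Agent.Lib.MP_021f05_al.Names
import Pool.Agent.Lib.MP_021f05_al.ShiftReg
import Pool.Agent.Lib.MP_021f05_al.Step
import Pool.Agent.Lib.MP_021f05_al.TD

/-!
# MP_021f05_al (D4): modules induced from the torus part are acyclic
-/

noncomputable section

namespace Pool.Agent.Lib.QG

open MvPolynomial
open scoped TensorProduct

/-! ### transport of vanishing -/

section transport

variable {k : Type} [Field k] {I : Type} [Fintype I] {T : TAlg k I}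

/-- vanishing passes to retracts -/
theorem freeAc_retract {V W : Coef T} (f : CoefHom V W 0) (g : CoefHom W V 0)
    (h : ∀ v, g.f (f.f v) = v) {n : ℤ} (hW : CVan W n) : CVan V n := by
  intro e he
  have h1 : f.mapH e ∈ W.Deg n := by
    have h2 := f.mapH_pr n e
    rw [add_zero, V.mem_Deg.1 he] at h2
    exact W.mem_Deg.2 h2.symm
  have h3 : g.mapH (f.mapH e) = e := by
    obtain ⟨z, rfl⟩ := V.cls_surj e
    rw [CoefHom.mapH_cls, CoefHom.mapH_cls]
    congr 1
    apply Subtype.ext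
    funext l
    exact h _
  rw [← h3, hW _ h1, map_zero]

/-- inverse of a bijective morphism of graded modules -/
def freeAc_inv {P P' : Rep T} (p : RepHom P P') (hp : Function.Bijective p.f) : RepHom P' P where
  f := (LinearEquiv.ofBijective p.f hp).symm.toLinearMap
  f_ω i x := by
    apply hp.1
    have h1 : ∀ y, p.f ((LinearEquiv.ofBijective p.f hp).symm y) = y := fun y =>
      (LinearEquiv.ofBijective p.f hp).apply_symm_apply y
    show p.f ((LinearEquiv.ofBijective p.f hp).symm (P'.ω i x)) =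
      p.f (P.ω i ((LinearEquiv.ofBijective p.f hp).symm x))
    rw [h1, p.f_ω, h1]

theorem freeAc_of_bij {P P' : Rep T} (p : RepHom P P') (hp : Function.Bijective p.f)
    (N : GrMod k I) {n : ℤ} (h : CVan (homCoef P N) n) : CVan (homCoef P' N) n := by
  refine freeAc_retract (p.coef N) ((freeAc_inv p hp).coef N) (fun v => ?_) h
  refine ev_ext fun x => ?_
  rw [RepHom.ev_coef, RepHom.ev_coef]
  congr 1
  exact (LinearEquiv.ofBijective p.f hp).apply_symm_apply x

/-- change of the graded coefficient module -/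
def freeAc_chg (P : Rep T) {N N' : GrMod k I} (g : N.N →ₗ[MvPolynomial I k] N'.N)
    (hg : ∀ m v, g (N.π m v) = N'.π m (g v)) : CoefHom (homCoef P N) (homCoef P N') 0 where
  f :=
    { toFun := fun v => mkV ((g.restrictScalars k) ∘ₗ ev v)
      map_add' := fun v w => by
        refine ev_ext fun x => ?_
        exact map_add g _ _
      map_smul' := fun p v => by
        refine ev_ext fun x => ?_
        exact map_smul g p _ }
  f_r a v := by
    refine ev_ext fun x => ?_
    rw [ev_r]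
    show g (ev ((homCoef P N).r a v) x) = g (ev v (a • x))
    rw [ev_r]
  f_κ i v := by
    refine ev_ext fun x => ?_
    rw [ev_κ]
    rfl
  f_π m v := by
    refine ev_ext fun x => ?_
    rw [add_zero]
    exact hg m _

omit [Fintype I] in
lemma freeAc_resJ_univ (p : MvPolynomial I k) :
    resJ k (Set.univ : Set I) p = rename (fun i => (⟨i, Set.mem_univ i⟩ : (Set.univ : Set I))) p := by
  classical
  have h : resJ k (Set.univ : Set I)
      = rename (fun i => (⟨i, Set.mem_univ i⟩ : (Set.univ : Set I))) := by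
    refine MvPolynomial.algHom_ext fun i => ?_
    rw [rename_X]
    simp [resJ]
  rw [h]

omit [Fintype I] in
lemma freeAc_gc_rename {σ τ : Type} (φ : σ → τ) (m : ℤ) (p : MvPolynomial σ k) :
    gc m (rename φ p) = rename φ (gc m p) := by
  rcases gc_cases m with ⟨d, rfl⟩ | hm
  · rw [gc_even, gc_even, rename_homogeneousComponent]
  · rw [gc_of_not hm, gc_of_not hm, map_zero]

/-- `S → k[x_i : i ∈ univ]` -/
def freeAc_g (k : Type) [Field k] (I : Type) :
    (SS k I).N →ₗ[MvPolynomial I k] (NJ k (Set.univ : Set I)).N where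
  toFun p := (resJ k (Set.univ : Set I) (show MvPolynomial I k from p) :
    MvPolynomial (Set.univ : Set I) k)
  map_add' _ _ := map_add (resJ k (Set.univ : Set I)) _ _
  map_smul' _ _ := map_mul (resJ k (Set.univ : Set I)) _ _

/-- `k[x_i : i ∈ univ] → S` -/
def freeAc_g' (k : Type) [Field k] (I : Type) :
    (NJ k (Set.univ : Set I)).N →ₗ[MvPolynomial I k] (SS k I).N where
  toFun q := (rename (fun i : (Set.univ : Set I) => i.1)
    (show MvPolynomial (Set.univ : Set I) k from q) : MvPolynomial I k)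
  map_add' _ _ := map_add (rename _) _ _
  map_smul' p q := by
    show rename (fun i : (Set.univ : Set I) => i.1) (resJ k (Set.univ : Set I) p *
      (show MvPolynomial (Set.univ : Set I) k from q)) = p * rename _ _
    rw [map_mul, freeAc_resJ_univ, rename_rename]
    congr 1
    exact rename_id_apply p

theorem freeAc_univ (P : Rep T) {n : ℤ}
    (h : CVan (homCoef P (NJ k (Set.univ : Set I))) n) : CVan (homCoef P (SS k I)) n := by
  refine freeAc_retract (freeAc_chg P (freeAc_g k I) ?_) (freeAc_chg P (freeAc_g' k I) ?_)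
    (fun v => ?_) h
  · intro m v
    show resJ k (Set.univ : Set I) (gc m (show MvPolynomial I k from v)) =
      gc m (resJ k (Set.univ : Set I) (show MvPolynomial I k from v))
    rw [freeAc_resJ_univ, freeAc_resJ_univ, freeAc_gc_rename]
  · intro m v
    show rename (fun i : (Set.univ : Set I) => i.1)
        (gc m (show MvPolynomial (Set.univ : Set I) k from v)) =
      gc m (rename _ (show MvPolynomial (Set.univ : Set I) k from v))
    rw [freeAc_gc_rename]
  · refine ev_ext fun x => ?_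
    show rename (fun i : (Set.univ : Set I) => i.1)
      (resJ k (Set.univ : Set I) (show MvPolynomial I k from ev v x)) = ev v x
    rw [freeAc_resJ_univ, rename_rename]
    exact rename_id_apply _

end transport

/-! ### commutation of the automorphisms `u_i` -/

section comm

variable {k : Type} [Field k] {I : Type} {T : TAlg k I}

lemma freeAc_ad_K (i j : I) : T.ad j (T.K i : T.A) = T.K i := by
  show (T.K j : T.A) * (T.K i : T.A) * ((T.K j)⁻¹ : T.Aˣ) = T.K i
  have e1 : (T.K j : T.A) * (T.K i : T.A) = (T.K i : T.A) * (T.K j : T.A) := by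
    rw [← Units.val_mul, T.K_comm, Units.val_mul]
  rw [e1, mul_assoc, Units.mul_inv, mul_one]

lemma freeAc_ωs_comm (P : Rep T) (i j : I) (x : P.X) :
    P.ω j ((P.ω i).symm x) = (P.ω i).symm (P.ω j x) := by
  apply (P.ω i).injective
  rw [← P.ω_comm, LinearEquiv.apply_symm_apply, LinearEquiv.apply_symm_apply]

lemma freeAc_ω_u (P : Rep T) (i j : I) (x : P.X) : P.ω j (P.u i x) = P.u i (P.ω j x) := by
  show P.ω j ((P.ω i).symm ((T.K i : T.A) • x)) = (P.ω i).symm ((T.K i : T.A) • P.ω j x)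
  rw [freeAc_ωs_comm, P.ω_smul, freeAc_ad_K]

lemma freeAc_ωs_u (P : Rep T) (i j : I) (x : P.X) :
    (P.ω j).symm (P.u i x) = P.u i ((P.ω j).symm x) := by
  apply (P.ω j).injective
  rw [freeAc_ω_u, LinearEquiv.apply_symm_apply, LinearEquiv.apply_symm_apply]

lemma freeAc_u_comm (P : Rep T) (i j : I) (x : P.X) : P.u j (P.u i x) = P.u i (P.u j x) := by
  show (P.ω j).symm ((T.K j : T.A) • P.u i x) = P.u i ((P.ω j).symm ((T.K j : T.A) • x))
  rw [← (P.u i).map_smul, freeAc_ωs_u]

/-- the submodule generated by the ranges of `u_i - 1`, `i ∈ J` -/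
def freeAc_R (P : Rep T) (J : Set I) : Submodule T.A P.X :=
  ⨆ i ∈ J, LinearMap.range (P.u i - LinearMap.id)

lemma freeAc_R_empty (P : Rep T) : freeAc_R P (∅ : Set I) = ⊥ := by
  unfold freeAc_R
  simp

lemma freeAc_R_insert (P : Rep T) (j : I) (J : Set I) :
    freeAc_R P (insert j J) = LinearMap.range (P.u j - LinearMap.id) ⊔ freeAc_R P J := by
  unfold freeAc_R
  exact iSup_insert

lemma freeAc_mem_R (P : Rep T) {J : Set I} {i : I} (hi : i ∈ J) (x : P.X) :
    P.u i x - x ∈ freeAc_R P J :=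
  Submodule.mem_iSup_of_mem i (Submodule.mem_iSup_of_mem hi ⟨x, rfl⟩)

/-- induction on the elements of `freeAc_R` -/
lemma freeAc_R_ind (P : Rep T) (J : Set I) {q : P.X → Prop} {x : P.X} (hx : x ∈ freeAc_R P J)
    (hu : ∀ i ∈ J, ∀ y, q (P.u i y - y)) (h0 : q 0) (ha : ∀ x y, q x → q y → q (x + y)) :
    q x := by
  refine Submodule.iSup_induction (fun i => ⨆ (_ : i ∈ J), LinearMap.range (P.u i - LinearMap.id))
    (motive := q) hx (fun i x hx => ?_) h0 ha
  by_cases hi : i ∈ J
  · rw [iSup_pos hi] at hx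
    obtain ⟨y, rfl⟩ := hx
    exact hu i hi y
  · rw [iSup_neg hi, Submodule.mem_bot] at hx
    rw [hx]
    exact h0

lemma freeAc_ω_R (P : Rep T) (J : Set I) (j : I) {x : P.X} (hx : x ∈ freeAc_R P J) :
    P.ω j x ∈ freeAc_R P J := by
  refine freeAc_R_ind P J (q := fun x => P.ω j x ∈ freeAc_R P J) hx (fun i hi y => ?_) ?_ ?_
  · rw [map_sub, freeAc_ω_u]
    exact freeAc_mem_R P hi _
  · rw [map_zero]; exact Submodule.zero_mem _
  · intro x y hx hy
    rw [map_add]; exact Submodule.add_mem _ hx hy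

lemma freeAc_ωs_R (P : Rep T) (J : Set I) (j : I) {x : P.X} (hx : x ∈ freeAc_R P J) :
    (P.ω j).symm x ∈ freeAc_R P J := by
  refine freeAc_R_ind P J (q := fun x => (P.ω j).symm x ∈ freeAc_R P J) hx (fun i hi y => ?_) ?_ ?_
  · rw [map_sub, freeAc_ωs_u]
    exact freeAc_mem_R P hi _
  · rw [map_zero]; exact Submodule.zero_mem _
  · intro x y hx hy
    rw [map_add]; exact Submodule.add_mem _ hx hy

/-- quotients of graded modules -/
def freeAc_quo (P : Rep T) (R : Submodule T.A P.X) (h1 : ∀ i x, x ∈ R → P.ω i x ∈ R)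
    (h2 : ∀ i x, x ∈ R → (P.ω i).symm x ∈ R) : Rep T where
  X := P.X ⧸ R
  ω i := (Submodule.Quotient.restrictScalarsEquiv k R).symm ≪≫ₗ
    (Submodule.Quotient.equiv (R.restrictScalars k) (R.restrictScalars k) (P.ω i) (by
      ext x
      constructor
      · rintro ⟨y, hy, rfl⟩
        exact h1 i y hy
      · intro hx
        exact ⟨(P.ω i).symm x, h2 i x hx, (P.ω i).apply_symm_apply x⟩)) ≪≫ₗ
    (Submodule.Quotient.restrictScalarsEquiv k R)
  ω_comm i j x := by
    obtain ⟨y, rfl⟩ := Submodule.Quotient.mk_surjective _ x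
    show (Submodule.Quotient.mk (P.ω i (P.ω j y)) : P.X ⧸ R)
      = (Submodule.Quotient.mk (P.ω j (P.ω i y)) : P.X ⧸ R)
    rw [P.ω_comm]
  ω_smul i a x := by
    obtain ⟨y, rfl⟩ := Submodule.Quotient.mk_surjective _ x
    show (Submodule.Quotient.mk (P.ω i (a • y)) : P.X ⧸ R)
      = T.ad i a • (Submodule.Quotient.mk (P.ω i y) : P.X ⧸ R)
    rw [P.ω_smul, Submodule.Quotient.mk_smul]

section quo

variable (P : Rep T) (R : Submodule T.A P.X) (h1 : ∀ i x, x ∈ R → P.ω i x ∈ R)
  (h2 : ∀ i x, x ∈ R → (P.ω i).symm x ∈ R)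

/-- the projection to a quotient -/
def freeAc_pr : RepHom P (freeAc_quo P R h1 h2) where
  f := R.mkQ
  f_ω _ _ := rfl

lemma freeAc_pr_surj : Function.Surjective (freeAc_pr P R h1 h2).f :=
  Submodule.mkQ_surjective R

lemma freeAc_pr_zero (x : P.X) : (freeAc_pr P R h1 h2).f x = 0 ↔ x ∈ R :=
  Submodule.Quotient.mk_eq_zero R

/-- morphisms out of a quotient -/
def freeAc_lift {P' : Rep T} (g : RepHom P P') (hg : ∀ x ∈ R, g.f x = 0) :
    RepHom (freeAc_quo P R h1 h2) P' where
  f := R.liftQ g.f (fun x hx => LinearMap.mem_ker.2 (hg x hx))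
  f_ω i x := by
    obtain ⟨y, rfl⟩ := freeAc_pr_surj P R h1 h2 x
    rw [← (freeAc_pr P R h1 h2).f_ω]
    exact g.f_ω i y

lemma freeAc_lift_pr {P' : Rep T} (g : RepHom P P') (hg : ∀ x ∈ R, g.f x = 0) (x : P.X) :
    (freeAc_lift P R h1 h2 g hg).f ((freeAc_pr P R h1 h2).f x) = g.f x := rfl

end quo

/-- morphisms commute with `u_i` -/
lemma freeAc_map_u {P P' : Rep T} (p : RepHom P P') (i : I) (x : P.X) :
    p.f (P.u i x) = P'.u i (p.f x) := by
  show p.f ((P.ω i).symm ((T.K i : T.A) • x)) = (P'.ω i).symm ((T.K i : T.A) • p.f x)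
  rw [p.f_ωs, map_smul]

/-- `u_i - 1` as a morphism -/
def freeAc_um (P : Rep T) (i : I) : RepHom P P where
  f := P.u i - LinearMap.id
  f_ω j x := by
    show P.u i (P.ω j x) - P.ω j x = P.ω j (P.u i x - x)
    rw [map_sub, freeAc_ω_u]

end comm

/-! ### weights for the torus action `ω` -/

section weights

variable {k : Type} [Field k] {I : Type} [Fintype I] [DecidableEq I] (Q : QD k I)
  {T T' : TAlg k I}

/-- weight spaces for `ω` -/
def freeAc_wt (P : Rep T) (μ : I → ℤ) : Submodule k P.X where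
  carrier := {x | ∀ i, P.ω i x = Q.χ μ i • x}
  add_mem' := by intro a b ha hb i; rw [map_add, smul_add, ha i, hb i]
  zero_mem' := by intro i; simp
  smul_mem' := by intro t a ha i; rw [map_smul, ha i, smul_comm]

/-- the torus algebra acting by `ω` -/
def freeAc_elts (P : Rep T) : QElts Q ∅ ∅ (Module.End k P.X) where
  E _ := 0
  F _ := 0
  K i := (P.ω i).toLinearMap
  L i := (P.ω i).symm.toLinearMap
  KL i := LinearMap.ext fun x => (P.ω i).apply_symm_apply x
  LK i := LinearMap.ext fun x => (P.ω i).symm_apply_apply x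
  KK i j := LinearMap.ext fun x => P.ω_comm i j x
  KE i j := by simp
  KF i j := by simp
  EF i j hi _ := absurd hi (Set.notMem_empty i)
  E0 _ _ := rfl
  F0 _ _ := rfl
  SE i j hi _ _ := absurd hi (Set.notMem_empty i)
  SF i j hi _ _ := absurd hi (Set.notMem_empty i)

/-- a graded module as a module over the torus algebra -/
def freeAc_mod (P : Rep T) : Mod Q.U0 :=
  letI : Module Q.U0.A P.X := Module.compHom P.X (freeAc_elts Q P).lift.toRingHom
  { X := P.X
    tower := ⟨fun t a x => by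
      have h := map_smul (freeAc_elts Q P).lift t (show QA Q ∅ ∅ from a)
      exact congrArg (fun g : Module.End k P.X => g x) h⟩ }

lemma freeAc_mod_K (P : Rep T) (i : I) (x : (freeAc_mod Q P).X) :
    (Q.U0.K i : Q.U0.A) • x = (P.ω i (show P.X from x) : P.X) := by
  have h : (freeAc_elts Q P).lift (Q.U0.K i : Q.U0.A) = (P.ω i).toLinearMap :=
    (freeAc_elts Q P).lift_K i
  show (freeAc_elts Q P).lift (Q.U0.K i : Q.U0.A) x = _
  rw [h]
  rfl

variable {Q}

theorem freeAc_retraction {P : Rep T} (hP : ⨆ μ, freeAc_wt Q P μ = ⊤) (N : Submodule k P.X)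
    (hN : ∀ i, ∀ x ∈ N, P.ω i x ∈ N) :
    ∃ ρ : P.X →ₗ[k] P.X, (∀ x, ρ x ∈ N) ∧ (∀ x ∈ N, ρ x = x) ∧
      ∀ i x, ρ (P.ω i x) = P.ω i (ρ x) := by
  have hwt : IsWt Q (freeAc_mod Q P) := by
    have h1 : ∀ μ, wts Q (freeAc_mod Q P) μ = freeAc_wt Q P μ := by
      intro μ
      ext x
      constructor
      · intro hx i
        rw [← freeAc_mod_K Q P i x]
        exact hx i
      · intro hx i
        rw [freeAc_mod_K Q P i x]
        exact hx i
    unfold IsWt
    rw [iSup_congr h1]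
    exact hP
  obtain ⟨ρ, a, b, c⟩ := hwt.exists_retraction N (fun i x hx => by
    rw [freeAc_mod_K Q P i x]
    exact hN i x hx)
  refine ⟨ρ, a, b, fun i x => ?_⟩
  have h := c i x
  rw [freeAc_mod_K, freeAc_mod_K] at h
  exact h

/-- weight vectors generate quotients -/
theorem freeAc_wt_surj {P P' : Rep T} (p : RepHom P P') (hp : Function.Surjective p.f)
    (h : ⨆ μ, freeAc_wt Q P μ = ⊤) : ⨆ μ, freeAc_wt Q P' μ = ⊤ := by
  rw [eq_top_iff]
  intro y _
  obtain ⟨x, rfl⟩ := hp y
  have hx : x ∈ ⨆ μ, freeAc_wt Q P μ := by rw [h]; trivial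
  refine Submodule.iSup_induction (fun μ => freeAc_wt Q P μ)
    (motive := fun x => p.f x ∈ ⨆ μ, freeAc_wt Q P' μ) hx (fun μ x hx => ?_) ?_ ?_
  · refine Submodule.mem_iSup_of_mem μ fun i => ?_
    rw [← p.f_ω, hx i, map_smulk]
  · rw [map_zero]; exact Submodule.zero_mem _
  · intro x y hx hy
    rw [map_add]; exact Submodule.add_mem _ hx hy

/-- pure tensors as elements of the graded module -/
def freeAc_t (T : TAlg k I) {T' : TAlg k I} (Z : Mod T') (a : T.A) (z : Z.X) : (freeRep T Z).X :=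
  (a ⊗ₜ[k] z : T.A ⊗[k] Z.X)

omit [Fintype I] [DecidableEq I] in
lemma freeAc_t_add (Z : Mod T') (a b : T.A) (z : Z.X) :
    freeAc_t T Z (a + b) z = freeAc_t T Z a z + freeAc_t T Z b z :=
  TensorProduct.add_tmul a b z

omit [Fintype I] [DecidableEq I] in
lemma freeAc_t_add' (Z : Mod T') (a : T.A) (x y : Z.X) :
    freeAc_t T Z a (x + y) = freeAc_t T Z a x + freeAc_t T Z a y :=
  TensorProduct.tmul_add a x y

omit [Fintype I] [DecidableEq I] in
lemma freeAc_t_zero (Z : Mod T') (z : Z.X) : freeAc_t T Z 0 z = 0 := TensorProduct.zero_tmul _ z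

omit [Fintype I] [DecidableEq I] in
lemma freeAc_t_zero' (Z : Mod T') (a : T.A) : freeAc_t T Z a (0 : Z.X) = 0 :=
  TensorProduct.tmul_zero _ a

omit [Fintype I] [DecidableEq I] in
lemma freeAc_t_ω (Z : Mod T') (i : I) (a : T.A) (z : Z.X) :
    (freeRep T Z).ω i (freeAc_t T Z a z)
      = freeAc_t T Z (T.ad i a) ((T'.K i : T'.A) • z) := rfl

omit [Fintype I] [DecidableEq I] in
lemma freeAc_t_smul (Z : Mod T') (t : k) (a : T.A) (z : Z.X) :
    freeAc_t T Z (t • a) z = t • freeAc_t T Z a z := rfl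

omit [Fintype I] [DecidableEq I] in
lemma freeAc_t_smul' (Z : Mod T') (t : k) (a : T.A) (z : Z.X) :
    freeAc_t T Z a (t • z) = t • freeAc_t T Z a z := TensorProduct.tmul_smul t a z

omit [Fintype I] [DecidableEq I] in
lemma freeAc_t_ind (Z : Mod T') {p : (freeRep T Z).X → Prop} (x : (freeRep T Z).X) (h0 : p 0)
    (ht : ∀ a z, p (freeAc_t T Z a z)) (ha : ∀ x y, p x → p y → p (x + y)) : p x :=
  TensorProduct.induction_on (motive := p) x h0 ht ha

/-- the graded module `T.A ⊗ Z` is generated by weight vectors -/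
theorem freeAc_free_wt {T' : TAlg k I} (hT : WtAlg Q T) {Z : Mod T'} (hZ : IsWt Q Z) :
    ⨆ μ, freeAc_wt Q (freeRep T Z) μ = ⊤ := by
  rw [eq_top_iff]
  intro x _
  refine freeAc_t_ind Z (p := fun x => x ∈ ⨆ μ, freeAc_wt Q (freeRep T Z) μ) x
    (Submodule.zero_mem _) (fun a z => ?_) (fun x y hx hy => Submodule.add_mem _ hx hy)
  have ha : a ∈ ⨆ μ, wtA Q T μ := by rw [show (⨆ μ, wtA Q T μ) = ⊤ from hT]; trivial
  have hz : z ∈ ⨆ μ, wts Q Z μ := by rw [show (⨆ μ, wts Q Z μ) = ⊤ from hZ]; trivial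
  refine Submodule.iSup_induction (fun μ => wtA Q T μ)
    (motive := fun a => freeAc_t T Z a z ∈ ⨆ μ, freeAc_wt Q (freeRep T Z) μ)
    ha (fun μ a ha => ?_) ?_ ?_
  · refine Submodule.iSup_induction (fun ν => wts Q Z ν)
      (motive := fun z => freeAc_t T Z a z ∈ ⨆ μ, freeAc_wt Q (freeRep T Z) μ)
      hz (fun ν z hz => ?_) ?_ ?_
    · refine Submodule.mem_iSup_of_mem (μ + ν) fun i => ?_
      rw [freeAc_t_ω, ha i, hz i, freeAc_t_smul, freeAc_t_smul', smul_smul, QD.χ_add]
    · rw [freeAc_t_zero']; exact Submodule.zero_mem _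
    · intro x y hx hy
      rw [freeAc_t_add']; exact Submodule.add_mem _ hx hy
  · rw [freeAc_t_zero]; exact Submodule.zero_mem _
  · intro x y hx hy
    rw [freeAc_t_add]; exact Submodule.add_mem _ hx hy

end weights

/-! ### regularity -/

section reg

variable {k : Type} [Field k] {I : Type}

/-- componentwise automorphisms of finitely supported functions -/
def freeAc_tw {ι W : Type} [AddCommGroup W] [Module k W] (τ : ι → W ≃ₗ[k] W) :
    (ι →₀ W) ≃ₗ[k] (ι →₀ W) :=
  LinearEquiv.ofLinearMap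
    (Finsupp.lsum k fun ν => (Finsupp.lsingle ν : W →ₗ[k] ι →₀ W) ∘ₗ (τ ν).toLinearMap)
    (Finsupp.lsum k fun ν => (Finsupp.lsingle ν : W →ₗ[k] ι →₀ W) ∘ₗ (τ ν).symm.toLinearMap)
    (by ext ν w : 2; simp)
    (by ext ν w : 2; simp)

lemma freeAc_tw_single {ι W : Type} [AddCommGroup W] [Module k W] (τ : ι → W ≃ₗ[k] W) (ν : ι)
    (w : W) : freeAc_tw τ (Finsupp.single ν w) = Finsupp.single ν (τ ν w) := by
  simp [freeAc_tw]

/-- the action of a unit -/
def freeAc_act {T' : TAlg k I} (Z : Mod T') (g : T'.Aˣ) : Z.X ≃ₗ[k] Z.X where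
  toFun x := (g : T'.A) • x
  invFun x := ((g⁻¹ : T'.Aˣ) : T'.A) • x
  map_add' x y := smul_add _ _ _
  map_smul' t x := by
    simp only [RingHom.id_apply]
    rw [← algebraMap_smul T'.A t x, smul_smul, ← Algebra.commutes, mul_smul, algebraMap_smul]
  left_inv x := by simp [smul_smul]
  right_inv x := by simp [smul_smul]

variable {T' T : TAlg k I}

lemma freeAc_u_t (Z : Mod T') (i : I) (a : T.A) (z : Z.X) :
    (freeRep T Z).u i (freeAc_t T Z a z)
      = freeAc_t T Z (a * (T.K i : T.A)) ((((T'.K i)⁻¹ : T'.Aˣ) : T'.A) • z) := by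
  apply ((freeRep T Z).ω i).injective
  rw [Rep.ω_u, freeAc_t_ω, smul_smul, Units.mul_inv, one_smul]
  have h : T.ad i (a * (T.K i : T.A)) = (T.K i : T.A) * a := by
    show (T.K i : T.A) * (a * (T.K i : T.A)) * ((T.K i)⁻¹ : T.Aˣ) = _
    rw [mul_assoc, mul_assoc, Units.mul_inv, mul_one]
  rw [h]
  rfl

/-- the space `N ⊗ Z` -/
def freeAc_W (k : Type) [Field k] (N Z : Type) [AddCommGroup N] [Module k N] [AddCommGroup Z]
    [Module k Z] : Type := N ⊗[k] Z

section W

variable {N Z U A ι : Type} [AddCommGroup N] [Module k N] [AddCommGroup Z] [Module k Z]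
  [AddCommGroup U] [Module k U] [AddCommGroup A] [Module k A] [DecidableEq ι]

instance : AddCommGroup (freeAc_W k N Z) := inferInstanceAs (AddCommGroup (N ⊗[k] Z))
instance : Module k (freeAc_W k N Z) := inferInstanceAs (Module k (N ⊗[k] Z))

/-- pure tensors -/
def freeAc_w (k : Type) [Field k] {N Z : Type} [AddCommGroup N] [Module k N] [AddCommGroup Z]
    [Module k Z] (n : N) (z : Z) : freeAc_W k N Z := n ⊗ₜ[k] z

lemma freeAc_W_ind {p : freeAc_W k N Z → Prop} (w : freeAc_W k N Z) (h0 : p 0)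
    (ht : ∀ n z, p (freeAc_w k n z)) (ha : ∀ x y, p x → p y → p (x + y)) : p w :=
  TensorProduct.induction_on (motive := p) w h0 ht ha

/-- automorphisms of the second factor -/
def freeAc_W2 (g : Z ≃ₗ[k] Z) : freeAc_W k N Z ≃ₗ[k] freeAc_W k N Z :=
  TensorProduct.congr (LinearEquiv.refl k N) g

lemma freeAc_W2_w (g : Z ≃ₗ[k] Z) (n : N) (z : Z) :
    freeAc_W2 g (freeAc_w k n z) = freeAc_w k n (g z) := rfl

/-- the untwisted isomorphism -/
def freeAc_e0 (e1 : (ι →₀ k) ≃ₗ[k] U) (e2 : (N ⊗[k] U) ≃ₗ[k] A) :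
    (ι →₀ freeAc_W k N Z) ≃ₗ[k] (A ⊗[k] Z) :=
  (TensorProduct.finsuppScalarLeft k (freeAc_W k N Z) ι).symm ≪≫ₗ
    (TensorProduct.congr e1 (LinearEquiv.refl k (N ⊗[k] Z)) ≪≫ₗ
    TensorProduct.leftComm k U N Z ≪≫ₗ
    (TensorProduct.assoc k N U Z).symm ≪≫ₗ
    TensorProduct.congr e2 (LinearEquiv.refl k Z) :
      ((ι →₀ k) ⊗[k] (N ⊗[k] Z)) ≃ₗ[k] (A ⊗[k] Z))

lemma freeAc_e0_single (e1 : (ι →₀ k) ≃ₗ[k] U) (e2 : (N ⊗[k] U) ≃ₗ[k] A) (ν : ι) (n : N) (z : Z) :
    freeAc_e0 e1 e2 (Finsupp.single ν (freeAc_w k n z))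
      = (e2 (n ⊗ₜ[k] e1 (Finsupp.single ν 1))) ⊗ₜ[k] z := by
  unfold freeAc_e0
  rw [LinearEquiv.trans_apply, TensorProduct.finsuppScalarLeft_symm_apply_single]
  rfl

end W

variable [Fintype I] [DecidableEq I] (Q : QD k I)

/-- `K_ν` -/
def freeAc_K (ν : I → ℤ) : Q.U0.Aˣ := QA.Kμ Q ∅ ∅ ν

lemma freeAc_K_add (ν : I → ℤ) (i : I) :
    freeAc_K Q (ν + Pi.single i 1) = freeAc_K Q ν * Q.U0.K i := by
  exact (QA.Kμ_add Q ∅ ∅ ν _).trans (congrArg (fun x => QA.Kμ Q ∅ ∅ ν * x)
    (QA.Kμ_single Q ∅ ∅ i))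

/-- the torus algebra as a group algebra -/
def freeAc_kz : ((I → ℤ) →₀ k) ≃ₗ[k] Q.U0.A := LinearEquiv.ofBijective (kz Q) (kz_bijective Q)

lemma freeAc_kz_single (ν : I → ℤ) :
    freeAc_kz Q (Finsupp.single ν 1) = (freeAc_K Q ν : Q.U0.A) := by
  show kz Q (Finsupp.single ν 1) = ((QA.Kμ Q ∅ ∅ ν : (QA Q ∅ ∅)ˣ) : QA Q ∅ ∅)
  unfold kz
  rw [Finsupp.linearCombination_single, one_smul]

variable {Q}

/-- the isomorphism with finitely supported functions which turns `u_i` into the shifts -/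
def freeAc_Θ (φ : THom Q.U0 T) (N : Submodule k T.A) (hN : Function.Bijective (mulN φ N))
    (Z : Mod Q.U0) : ((I → ℤ) →₀ freeAc_W k N Z.X) ≃ₗ[k] (freeRep T Z).X :=
  freeAc_tw (fun ν => freeAc_W2 (freeAc_act Z (freeAc_K Q ν)⁻¹)) ≪≫ₗ
    freeAc_e0 (freeAc_kz Q) (LinearEquiv.ofBijective (mulN φ N) hN)

lemma freeAc_Θ_single (φ : THom Q.U0 T) (N : Submodule k T.A)
    (hN : Function.Bijective (mulN φ N)) (Z : Mod Q.U0) (ν : I → ℤ) (n : N) (z : Z.X) :
    freeAc_Θ φ N hN Z (Finsupp.single ν (freeAc_w k n z))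
      = freeAc_t T Z (n.1 * φ.f (freeAc_K Q ν : Q.U0.A))
        ((((freeAc_K Q ν)⁻¹ : Q.U0.Aˣ) : Q.U0.A) • z) := by
  have h := freeAc_e0_single (freeAc_kz Q) (LinearEquiv.ofBijective (mulN φ N) hN) ν n
    (freeAc_act Z (freeAc_K Q ν)⁻¹ z)
  rw [freeAc_kz_single] at h
  refine Eq.trans ?_ h
  show freeAc_e0 (freeAc_kz Q) (LinearEquiv.ofBijective (mulN φ N) hN)
    (freeAc_tw (fun ν => freeAc_W2 (freeAc_act Z (freeAc_K Q ν)⁻¹))
      (Finsupp.single ν (freeAc_w k n z))) = _
  rw [freeAc_tw_single, freeAc_W2_w]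

lemma freeAc_Θ_shft (φ : THom Q.U0 T) (N : Submodule k T.A)
    (hN : Function.Bijective (mulN φ N)) (Z : Mod Q.U0) (i : I)
    (f : (I → ℤ) →₀ freeAc_W k N Z.X) :
    freeAc_Θ φ N hN Z (shft k (freeAc_W k N Z.X) i f)
      = (freeRep T Z).u i (freeAc_Θ φ N hN Z f) := by
  induction f using Finsupp.induction_linear with
  | zero => simp only [map_zero]
  | add f g hf hg => simp only [map_add, hf, hg]
  | single ν w =>
    refine freeAc_W_ind (p := fun w => freeAc_Θ φ N hN Z (shft k (freeAc_W k N Z.X) i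
      (Finsupp.single ν w)) = (freeRep T Z).u i (freeAc_Θ φ N hN Z (Finsupp.single ν w))) w ?_ ?_ ?_
    · simp only [Finsupp.single_zero, map_zero]
    · intro n z
      have h1 : shft k (freeAc_W k N Z.X) i (Finsupp.single ν (freeAc_w k n z))
          = Finsupp.single (ν + Pi.single i 1) (freeAc_w k n z) := by
        unfold shft
        rw [Finsupp.lmapDomain_apply, Finsupp.mapDomain_single]
      rw [h1, freeAc_Θ_single, freeAc_Θ_single, freeAc_u_t, freeAc_K_add, mul_inv_rev,
        Units.val_mul, Units.val_mul, mul_smul, map_mul, φ.f_K, mul_assoc]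
    · intro x y hx hy
      simp only [Finsupp.single_add, map_add, hx, hy]

/-- regularity of the sequence `u_i - 1` on `T.A ⊗ Z` -/
theorem freeAc_regular (φ : THom Q.U0 T) (hφ : RFree φ) (Z : Mod Q.U0) (J : Set I) (j : I)
    (hj : j ∉ J) (x : (freeRep T Z).X)
    (h : (freeRep T Z).u j x - x ∈ freeAc_R (freeRep T Z) J) :
    x ∈ freeAc_R (freeRep T Z) J := by
  obtain ⟨N, hN⟩ := hφ
  have hs : ∀ i y, shft k (freeAc_W k N Z.X) i ((freeAc_Θ φ N hN Z).symm y)
      = (freeAc_Θ φ N hN Z).symm ((freeRep T Z).u i y) := by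
    intro i y
    apply (freeAc_Θ φ N hN Z).injective
    rw [LinearEquiv.apply_symm_apply, freeAc_Θ_shft, LinearEquiv.apply_symm_apply]
  have h1 : (freeAc_Θ φ N hN Z).symm ((freeRep T Z).u j x - x) ∈
      ⨆ i ∈ J, LinearMap.range (shft k (freeAc_W k N Z.X) i - 1) := by
    refine freeAc_R_ind (freeRep T Z) J (q := fun y => (freeAc_Θ φ N hN Z).symm y ∈
      ⨆ i ∈ J, LinearMap.range (shft k (freeAc_W k N Z.X) i - 1)) h (fun i hi y => ?_) ?_ ?_
    · refine Submodule.mem_iSup_of_mem i (Submodule.mem_iSup_of_mem hi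
        ⟨(freeAc_Θ φ N hN Z).symm y, ?_⟩)
      rw [map_sub, ← hs]
      rfl
    · rw [map_zero]; exact Submodule.zero_mem _
    · intro x y hx hy
      rw [map_add]; exact Submodule.add_mem _ hx hy
  have h2 : shft k (freeAc_W k N Z.X) j ((freeAc_Θ φ N hN Z).symm x)
      - (freeAc_Θ φ N hN Z).symm x ∈
      ⨆ i ∈ J, LinearMap.range (shft k (freeAc_W k N Z.X) i - 1) := by
    rw [hs, ← map_sub]
    exact h1
  have h3 := shft_regular J j hj ((freeAc_Θ φ N hN Z).symm x) h2
  have h4 : (⨆ i ∈ J, LinearMap.range (shft k (freeAc_W k N Z.X) i - 1)) ≤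
      ((freeAc_R (freeRep T Z) J).restrictScalars k).comap (freeAc_Θ φ N hN Z).toLinearMap := by
    refine iSup₂_le fun i hi => ?_
    rintro _ ⟨g, rfl⟩
    show freeAc_Θ φ N hN Z (shft k (freeAc_W k N Z.X) i g - g) ∈ freeAc_R (freeRep T Z) J
    rw [map_sub, freeAc_Θ_shft]
    exact freeAc_mem_R _ hi _
  have h5 := h4 h3
  have h6 : freeAc_Θ φ N hN Z ((freeAc_Θ φ N hN Z).symm x) ∈ freeAc_R (freeRep T Z) J := h5
  rwa [LinearEquiv.apply_symm_apply] at h6

end reg

/-! ### the induction -/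

section main

variable {k : Type} [Field k] {I : Type} {T : TAlg k I}

/-- the quotient by `freeAc_R P J` -/
abbrev freeAc_P (P : Rep T) (J : Set I) : Rep T :=
  freeAc_quo P (freeAc_R P J) (fun i _ hx => freeAc_ω_R P J i hx)
    (fun i _ hx => freeAc_ωs_R P J i hx)

/-- the projection -/
abbrev freeAc_π (P : Rep T) (J : Set I) : RepHom P (freeAc_P P J) :=
  freeAc_pr P (freeAc_R P J) (fun i _ hx => freeAc_ω_R P J i hx)
    (fun i _ hx => freeAc_ωs_R P J i hx)

lemma freeAc_π_um (P : Rep T) (J : Set I) (j : I) (x : P.X) :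
    (freeAc_um (freeAc_P P J) j).f ((freeAc_π P J).f x) = (freeAc_π P J).f (P.u j x - x) := by
  show (freeAc_P P J).u j ((freeAc_π P J).f x) - (freeAc_π P J).f x = _
  rw [← freeAc_map_u, map_sub]

/-- the short exact sequence -/
theorem freeAc_exists_ses [Fintype I] [DecidableEq I] {Q : QD k I} (P : Rep T)
    (hwt : ⨆ μ, freeAc_wt Q P μ = ⊤) (J : Set I) (j : I)
    (hreg : ∀ x, P.u j x - x ∈ freeAc_R P J → x ∈ freeAc_R P J)
    (P'' : Rep T) (p : RepHom P P'') (hp : Function.Surjective p.f)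
    (hk : ∀ x, p.f x = 0 ↔ x ∈ freeAc_R P (insert j J)) :
    ∃ S : RepSES (freeAc_P P J) (freeAc_P P J) P'', ∀ x, S.i.f x = (freeAc_P P J).u j x - x := by
  have hle : ∀ x ∈ freeAc_R P J, p.f x = 0 := by
    intro x hx
    rw [hk, freeAc_R_insert]
    exact Submodule.mem_sup_right hx
  have hsurj := freeAc_pr_surj P (freeAc_R P J) (fun i _ hx => freeAc_ω_R P J i hx)
    (fun i _ hx => freeAc_ωs_R P J i hx)
  have hzero := freeAc_pr_zero P (freeAc_R P J) (fun i _ hx => freeAc_ω_R P J i hx)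
    (fun i _ hx => freeAc_ωs_R P J i hx)
  have hinj : Function.Injective (freeAc_um (freeAc_P P J) j).f := by
    rw [injective_iff_map_eq_zero]
    intro y hy
    obtain ⟨x, rfl⟩ := hsurj y
    rw [freeAc_π_um, hzero] at hy
    rw [hzero]
    exact hreg x hy
  refine ⟨{ i := freeAc_um (freeAc_P P J) j
            p := freeAc_lift P (freeAc_R P J) (fun i _ hx => freeAc_ω_R P J i hx)
              (fun i _ hx => freeAc_ωs_R P J i hx) p hle
            inj := hinj
            surj := ?_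
            exact := ?_
            split := ?_ }, fun x => rfl⟩
  · intro y
    obtain ⟨x, rfl⟩ := hp y
    exact ⟨(freeAc_π P J).f x, rfl⟩
  · intro y
    obtain ⟨x, rfl⟩ := hsurj y
    rw [freeAc_lift_pr, hk, freeAc_R_insert]
    constructor
    · intro hx
      obtain ⟨a, ⟨w, rfl⟩, b, hb, rfl⟩ := Submodule.mem_sup.1 hx
      refine ⟨(freeAc_π P J).f w, ?_⟩
      rw [freeAc_π_um, map_add, (hzero b).2 hb, add_zero]
      rfl
    · rintro ⟨z, hz⟩
      obtain ⟨w, rfl⟩ := hsurj z
      rw [freeAc_π_um] at hz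
      have h1 : x - (P.u j w - w) ∈ freeAc_R P J := by
        rw [← hzero, map_sub]
        exact sub_eq_zero.2 hz.symm
      have h2 : x = (P.u j w - w) + (x - (P.u j w - w)) := by abel
      rw [h2]
      exact Submodule.add_mem_sup ⟨w, rfl⟩ h1
  · -- the splitting
    have hwt' : ⨆ μ, freeAc_wt Q (freeAc_P P J) μ = ⊤ := freeAc_wt_surj (freeAc_π P J) hsurj hwt
    obtain ⟨r, h1, h2, h3⟩ := freeAc_retraction hwt'
      (LinearMap.range (toK (freeAc_um (freeAc_P P J) j).f)) (by
        rintro i _ ⟨z, rfl⟩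
        refine ⟨(freeAc_P P J).ω i z, ?_⟩
        rw [toK_apply, toK_apply]
        exact (freeAc_um (freeAc_P P J) j).f_ω i z)
    have hinj' : Function.Injective (toK (freeAc_um (freeAc_P P J) j).f) := hinj
    let e := LinearEquiv.ofInjective (toK (freeAc_um (freeAc_P P J) j).f) hinj'
    have he : ∀ y : LinearMap.range (toK (freeAc_um (freeAc_P P J) j).f),
        (freeAc_um (freeAc_P P J) j).f (e.symm y) = y := by
      intro y
      have := congrArg Subtype.val (e.apply_symm_apply y)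
      exact this
    refine ⟨e.symm.toLinearMap ∘ₗ r.codRestrict _ h1, ?_, ?_⟩
    · intro y
      apply hinj
      show (freeAc_um (freeAc_P P J) j).f
        (e.symm (r.codRestrict _ h1 ((freeAc_um (freeAc_P P J) j).f y))) = _
      rw [he]
      exact h2 _ ⟨y, rfl⟩
    · intro i x
      apply hinj
      show (freeAc_um (freeAc_P P J) j).f
          (e.symm (r.codRestrict _ h1 ((freeAc_P P J).ω i x))) =
        (freeAc_um (freeAc_P P J) j).f ((freeAc_P P J).ω i (e.symm (r.codRestrict _ h1 x)))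
      rw [he, (freeAc_um (freeAc_P P J) j).f_ω, he]
      exact h3 i x

lemma freeAc_flat (P : Rep T) (J : Set I) {i : I} (hi : i ∈ J) (x : (freeAc_P P J).X) :
    (freeAc_P P J).ω i x = (T.K i : T.A) • x := by
  have hsurj := freeAc_pr_surj P (freeAc_R P J) (fun i _ hx => freeAc_ω_R P J i hx)
    (fun i _ hx => freeAc_ωs_R P J i hx)
  have hzero := freeAc_pr_zero P (freeAc_R P J) (fun i _ hx => freeAc_ω_R P J i hx)
    (fun i _ hx => freeAc_ωs_R P J i hx)
  obtain ⟨y, rfl⟩ := hsurj x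
  rw [← Rep.ω_u, ← freeAc_map_u]
  congr 1
  rw [← sub_eq_zero, ← map_sub, hzero, ← Submodule.neg_mem_iff, neg_sub]
  exact freeAc_mem_R P hi y

variable [CharZero k] [Fintype I] [DecidableEq I] {Q : QD k I}

/-- all the quotients are acyclic -/
theorem freeAc_all (φ : THom Q.U0 T) (hφ : RFree φ) (hT : WtAlg Q T) {Z : Mod Q.U0}
    (hZ : IsWt Q Z) (s : Finset I) : ∀ (P' : Rep T) (p : RepHom (freeRep T Z) P'),
      Function.Surjective p.f → (∀ x, p.f x = 0 ↔ x ∈ freeAc_R (freeRep T Z) (s : Set I)) →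
      ∀ n : ℤ, 0 < n → CVan (homCoef P' (NJ k (s : Set I))) n := by
  induction s using Finset.induction_on with
  | empty =>
    intro P' p hp hk n hn
    rw [Finset.coe_empty] at hk ⊢
    refine freeAc_of_bij p ⟨?_, hp⟩ _ (free0_acyclic Z hn)
    rw [injective_iff_map_eq_zero]
    intro x hx
    rwa [hk, freeAc_R_empty, Submodule.mem_bot] at hx
  | insert j s hj ih =>
    intro P' p hp hk
    rw [Finset.coe_insert] at hk ⊢
    have hj' : j ∉ (s : Set I) := by simpa using hj
    obtain ⟨S, hS⟩ := freeAc_exists_ses (Q := Q) (freeRep T Z) (freeAc_free_wt hT hZ) (s : Set I) j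
      (fun x hx => freeAc_regular φ hφ Z (s : Set I) j hj' x hx) P' p hp hk
    refine step_acyclic (freeAc_P (freeRep T Z) (s : Set I)) P' j (s : Set I) hj' S hS
      (fun i hi x => freeAc_flat _ _ hi x) ?_
    exact ih _ (freeAc_π (freeRep T Z) (s : Set I))
      (freeAc_pr_surj _ _ _ _) (freeAc_pr_zero _ _ _ _)

end main

/-! ### the induced module as a quotient -/

section final

variable {k : Type} [Field k] {I : Type} {T' T : TAlg k I}

/-- `T.A ⊗ Z → Ind Z` as a linear map -/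
def freeAc_qf (φ : THom T' T) (Z : Mod T') : (freeRep T Z).X →ₗ[T.A] (Z.ind φ).X :=
  (indK φ Z).mkQ

lemma freeAc_qf_t (φ : THom T' T) (Z : Mod T') (a : T.A) (z : Z.X) :
    freeAc_qf φ Z (freeAc_t T Z a z) = indT φ Z a z := rfl

/-- `T.A ⊗ Z → Ind Z` -/
def freeAc_q (φ : THom T' T) (Z : Mod T') : RepHom (freeRep T Z) (Z.ind φ).rep where
  f := freeAc_qf φ Z
  f_ω i x := by
    show freeAc_qf φ Z ((freeRep T Z).ω i x) = (T.K i : T.A) • freeAc_qf φ Z x
    refine freeAc_t_ind Z (p := fun x => freeAc_qf φ Z ((freeRep T Z).ω i x)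
      = (T.K i : T.A) • freeAc_qf φ Z x) x ?_ (fun a z => ?_) (fun x y hx hy => ?_)
    · rw [map_zero, map_zero, smul_zero]
    · rw [freeAc_t_ω, freeAc_qf_t, freeAc_qf_t, smul_indT, ← indT_mul, φ.f_K]
      congr 1
      show (T.K i : T.A) * a * ((T.K i)⁻¹ : T.Aˣ) * (T.K i : T.A) = _
      rw [mul_assoc, Units.inv_mul, mul_one]
    · rw [map_add, map_add, map_add, smul_add, hx, hy]

variable [Fintype I] [DecidableEq I] {Q : QD k I}

theorem freeAc_q_zero (φ : THom Q.U0 T) (Z : Mod Q.U0) (x : (freeRep T Z).X) :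
    (freeAc_q φ Z).f x = 0 ↔ x ∈ freeAc_R (freeRep T Z) (Set.univ : Set I) := by
  have h0 : (freeAc_q φ Z).f x = 0 ↔ x ∈ indK φ Z := Submodule.Quotient.mk_eq_zero (indK φ Z)
  rw [h0]
  constructor
  · intro hx
    -- relations
    have key : ∀ (b : QA Q ∅ ∅) (a : T.A) (z : Z.X),
        freeAc_t T Z (a * φ.f (show Q.U0.A from b)) z
          - freeAc_t T Z a ((show Q.U0.A from b) • z)
          ∈ freeAc_R (freeRep T Z) (Set.univ : Set I) := by
      intro b
      refine QA.induction (p := fun b : QA Q ∅ ∅ => ∀ (a : T.A) (z : Z.X),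
        freeAc_t T Z (a * φ.f (show Q.U0.A from b)) z
          - freeAc_t T Z a ((show Q.U0.A from b) • z)
          ∈ freeAc_R (freeRep T Z) (Set.univ : Set I)) ?_ ?_ ?_ ?_ ?_ ?_ ?_ b
      · intro t a z
        have e1 : a * φ.f (algebraMap k Q.U0.A t) = t • a := by
          rw [AlgHom.commutes, ← Algebra.commutes, ← Algebra.smul_def]
        have e2 : (algebraMap k Q.U0.A t) • z = t • z := algebraMap_smul _ _ _
        have e3 : freeAc_t T Z (a * φ.f (algebraMap k Q.U0.A t)) z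
            - freeAc_t T Z a ((algebraMap k Q.U0.A t) • z) = 0 := by
          rw [e1, e2, freeAc_t_smul, freeAc_t_smul', sub_self]
        have e4 : freeAc_t T Z (a * φ.f (algebraMap k Q.U0.A t)) z
            - freeAc_t T Z a ((algebraMap k Q.U0.A t) • z)
            ∈ freeAc_R (freeRep T Z) (Set.univ : Set I) := by
          rw [e3]; exact Submodule.zero_mem _
        exact e4
      · intro i a z
        have e0 : (QA.elts Q ∅ ∅).E i = 0 := (QA.elts Q ∅ ∅).E0 i (Set.notMem_empty i)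
        rw [e0]
        have e3 : freeAc_t T Z (a * φ.f (0 : Q.U0.A)) z
            - freeAc_t T Z a ((0 : Q.U0.A) • z) = 0 := by
          rw [map_zero, mul_zero, zero_smul, freeAc_t_zero, freeAc_t_zero', sub_self]
        have e4 : freeAc_t T Z (a * φ.f (0 : Q.U0.A)) z
            - freeAc_t T Z a ((0 : Q.U0.A) • z)
            ∈ freeAc_R (freeRep T Z) (Set.univ : Set I) := by
          rw [e3]; exact Submodule.zero_mem _
        exact e4
      · intro i a z
        have e0 : (QA.elts Q ∅ ∅).F i = 0 := (QA.elts Q ∅ ∅).F0 i (Set.notMem_empty i)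
        rw [e0]
        have e3 : freeAc_t T Z (a * φ.f (0 : Q.U0.A)) z
            - freeAc_t T Z a ((0 : Q.U0.A) • z) = 0 := by
          rw [map_zero, mul_zero, zero_smul, freeAc_t_zero, freeAc_t_zero', sub_self]
        have e4 : freeAc_t T Z (a * φ.f (0 : Q.U0.A)) z
            - freeAc_t T Z a ((0 : Q.U0.A) • z)
            ∈ freeAc_R (freeRep T Z) (Set.univ : Set I) := by
          rw [e3]; exact Submodule.zero_mem _
        exact e4
      · intro i a z
        have e4 : freeAc_t T Z (a * φ.f (Q.U0.K i : Q.U0.A)) z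
            - freeAc_t T Z a ((Q.U0.K i : Q.U0.A) • z)
            ∈ freeAc_R (freeRep T Z) (Set.univ : Set I) := by
          have h := freeAc_mem_R (freeRep T Z) (Set.mem_univ i)
            (freeAc_t T Z a ((Q.U0.K i : Q.U0.A) • z))
          rw [freeAc_u_t, smul_smul, Units.inv_mul, one_smul, ← φ.f_K] at h
          exact h
        exact e4
      · intro i a z
        have e4 : freeAc_t T Z (a * φ.f (((Q.U0.K i)⁻¹ : Q.U0.Aˣ) : Q.U0.A)) z
            - freeAc_t T Z a ((((Q.U0.K i)⁻¹ : Q.U0.Aˣ) : Q.U0.A) • z)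
            ∈ freeAc_R (freeRep T Z) (Set.univ : Set I) := by
          have h := freeAc_mem_R (freeRep T Z) (Set.mem_univ i)
            (freeAc_t T Z (a * φ.f (((Q.U0.K i)⁻¹ : Q.U0.Aˣ) : Q.U0.A)) z)
          rw [freeAc_u_t, φ.f_Kinv, mul_assoc, Units.inv_mul, mul_one] at h
          rw [φ.f_Kinv, ← Submodule.neg_mem_iff, neg_sub]
          exact h
        exact e4
      · intro x y hx hy a z
        have e4 : freeAc_t T Z (a * φ.f ((show Q.U0.A from x) + (show Q.U0.A from y))) z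
            - freeAc_t T Z a (((show Q.U0.A from x) + (show Q.U0.A from y)) • z)
            ∈ freeAc_R (freeRep T Z) (Set.univ : Set I) := by
          rw [map_add, mul_add, add_smul, freeAc_t_add, freeAc_t_add', add_sub_add_comm]
          exact Submodule.add_mem _ (hx a z) (hy a z)
        exact e4
      · intro x y hx hy a z
        have e4 : freeAc_t T Z (a * φ.f ((show Q.U0.A from x) * (show Q.U0.A from y))) z
            - freeAc_t T Z a (((show Q.U0.A from x) * (show Q.U0.A from y)) • z)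
            ∈ freeAc_R (freeRep T Z) (Set.univ : Set I) := by
          have h1 := hy (a * φ.f (show Q.U0.A from x)) z
          have h2 := hx a ((show Q.U0.A from y) • z)
          have h3 := Submodule.add_mem _ h1 h2
          rw [sub_add_sub_cancel, smul_smul, mul_assoc, ← map_mul] at h3
          exact h3
        exact e4
    have hle : indK φ Z ≤ freeAc_R (freeRep T Z) (Set.univ : Set I) := by
      unfold indK
      rw [Submodule.span_le]
      rintro _ ⟨b, z, rfl⟩
      have h := key b 1 z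
      rw [one_mul] at h
      exact h
    exact hle hx
  · intro hx
    refine freeAc_R_ind (freeRep T Z) Set.univ (q := fun x => x ∈ indK φ Z) hx
      (fun i _ y => ?_) (Submodule.zero_mem _) (fun x y hx hy => Submodule.add_mem _ hx hy)
    refine freeAc_t_ind Z (p := fun y => (freeRep T Z).u i y - y ∈ indK φ Z) y ?_
      (fun a z => ?_) (fun x y hx hy => ?_)
    · rw [map_zero, sub_zero]; exact Submodule.zero_mem _
    · rw [freeAc_u_t]
      have h1 : (φ.f (Q.U0.K i : Q.U0.A) ⊗ₜ[k] ((((Q.U0.K i)⁻¹ : Q.U0.Aˣ) : Q.U0.A) • z) -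
          1 ⊗ₜ[k] ((Q.U0.K i : Q.U0.A) • (((Q.U0.K i)⁻¹ : Q.U0.Aˣ) : Q.U0.A) • z) :
          T.A ⊗[k] Z.X) ∈ indK φ Z := Submodule.subset_span ⟨_, _, rfl⟩
      have h2 := (indK φ Z).smul_mem a h1
      rw [smul_smul, Units.mul_inv, one_smul, smul_sub, TensorProduct.smul_tmul',
        TensorProduct.smul_tmul', smul_eq_mul, smul_eq_mul, mul_one, φ.f_K] at h2
      exact h2
    · rw [map_add, add_sub_add_comm]
      exact Submodule.add_mem _ hx hy

end final

variable {k : Type} [Field k] [CharZero k] {I : Type} [Fintype I] [DecidableEq I] {Q : QD k I}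
  {T : TAlg k I}

/-- modules induced from weight modules over the torus part are acyclic -/
theorem free_acyclic (φ : THom Q.U0 T) (hφ : RFree φ) (hT : WtAlg Q T) {Z : Mod Q.U0}
    (hZ : IsWt Q Z) {n : ℤ} (hn : 0 < n) : EVan (Z.ind φ) n := by
  have h1 := freeAc_all φ hφ hT hZ Finset.univ (Z.ind φ).rep (freeAc_q φ Z)
    (Submodule.mkQ_surjective (indK φ Z)) (fun x => by
      rw [Finset.coe_univ]
      exact freeAc_q_zero φ Z x) n hn
  rw [Finset.coe_univ] at h1
  exact freeAc_univ _ h1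

end Pool.Agent.Lib.QG
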