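import Pool.Agent.Lib.MP_021f05_al.E0
import Pool.Agent.Lib.MP_021f05_al.FreeAc
import Pool.Agent.Lib.MP_021f05_al.Ind2

/-!
# MP_021f05_al (D5): Shapiro's lemma and syzygies
-/

noncomputable section

namespace Pool.Agent.Lib.QG

open MvPolynomial
open scoped TensorProduct

variable {k : Type} [Field k] [CharZero k] {I : Type} [Fintype I] [DecidableEq I] {Q : QD k I}

/-- every weight module is the quotient of an acyclic module -/
theorem exists_syzygy {T : TAlg k I} (ι : THom Q.U0 T) (hι : RFree ι) (hT : WtAlg Q T)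
    {M : Mod T} (hM : IsWt Q M) :
    ∃ M₁ : Mod T, IsWt Q M₁ ∧ ∃ S : ModSES M₁ ((M.res ι).ind ι) M, S.p = indC ι M := by
  have hP : IsWt Q ((M.res ι).ind ι) := IsWt.ind ι hT (hM.res ι)
  refine ⟨((M.res ι).ind ι).sub (LinearMap.ker (indC ι M)), hP.sub _,
    mkSES hP (((M.res ι).ind ι).subι (LinearMap.ker (indC ι M))) (indC ι M) Subtype.val_injective
      (indC_surjective ι M) ?_, rfl⟩
  intro x
  constructor
  · intro hx
    exact ⟨⟨x, hx⟩, rfl⟩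
  · rintro ⟨y, rfl⟩
    exact y.2

theorem Shap_map {T' T : TAlg k I} (φ : THom T' T) {Y₁ Y₂ : Mod T'} (f : Y₁.X →ₗ[T'.A] Y₂.X)
    (x : E (Y₂.ind φ)) :
    Emap (indU φ Y₁) (Eres φ (Y₁.ind φ) (Emap (indMap φ f) x)) =
      Emap f (Emap (indU φ Y₂) (Eres φ (Y₂.ind φ) x)) := by
  rw [Eres_map, Emap_comp, Emap_comp]
  have h : resMap φ (indMap φ f) ∘ₗ indU φ Y₁ = indU φ Y₂ ∘ₗ f := by
    refine LinearMap.ext fun y => ?_
    exact indMap_T φ f 1 y
  rw [h]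

theorem Shap_delta {T' T : TAlg k I} (φ : THom T' T) {Y' Y Y'' : Mod T'} (S : ModSES Y' Y Y'')
    (S' : ModSES (Y'.ind φ) (Y.ind φ) (Y''.ind φ)) (hi : S'.i = indMap φ S.i)
    (hp : S'.p = indMap φ S.p) (x : E (Y'.ind φ)) :
    Emap (indU φ Y'') (Eres φ (Y''.ind φ) (Eδ S' x)) =
      Eδ S (Emap (indU φ Y') (Eres φ (Y'.ind φ) x)) := by
  rw [Eres_δ]
  refine Eδ_natural (S'.res φ) S (indU φ Y') (indU φ Y) (indU φ Y'') ?_ ?_ _
  · intro y
    show resMap φ S'.i (indU φ Y' y) = indU φ Y (S.i y)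
    rw [hi]
    exact indMap_T φ S.i 1 y
  · intro y
    show resMap φ S'.p (indU φ Y y) = indU φ Y'' (S.p y)
    rw [hp]
    exact indMap_T φ S.p 1 y

/-- the inverse of the identification of the restriction of the trivial module -/
def Shap_u {T' T : TAlg k I} (φ : THom T' T) : ((triv T).res φ).X →ₗ[T'.A] (triv T').X :=
  ((LinearEquiv.ofBijective (trivRes φ) (trivRes_bijective φ)).symm :
    ((triv T).res φ).X →ₗ[T'.A] (triv T').X)

theorem Shap_u_left {T' T : TAlg k I} (φ : THom T' T) (x : ((triv T).res φ).X) :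
    trivRes φ (Shap_u φ x) = x :=
  (LinearEquiv.ofBijective (trivRes φ) (trivRes_bijective φ)).apply_symm_apply x

theorem Shap_res_one {T' T : TAlg k I} (φ : THom T' T) :
    Eres φ (triv T) (one T) = Emap (Shap_u φ) (one T') := by
  rw [← Eres_one φ, Emap_comp]
  have h : trivRes φ ∘ₗ Shap_u φ = LinearMap.id := by
    refine LinearMap.ext fun y => ?_
    exact Shap_u_left φ y
  rw [h, Emap_id]

theorem Shap_zero {T' T : TAlg k I} (φ : THom T' T) (Y : Mod T') :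
    (∀ x ∈ EDeg (Y.ind φ) 0, Emap (indU φ Y) (Eres φ (Y.ind φ) x) = 0 → x = 0) ∧
    (∀ e ∈ EDeg Y 0, ∃ x ∈ EDeg (Y.ind φ) 0, Emap (indU φ Y) (Eres φ (Y.ind φ) x) = e) := by
  constructor
  · intro x hx h
    obtain ⟨f, rfl⟩ := E0_exists (Y.ind φ) hx
    rw [Eres_map, Shap_res_one, Emap_comp, Emap_comp] at h
    have h1 := E0_inj _ h
    have h2 : f = 0 := by
      refine ind_hom_ext φ Y fun y => ?_
      have h3 : Shap_u φ (resMap φ f (indU φ Y y)) = 0 := LinearMap.congr_fun h1 y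
      have h4 := Shap_u_left φ (resMap φ f (indU φ Y y))
      rw [h3, map_zero] at h4
      exact h4.symm
    rw [h2, Emap_zero]
  · intro e he
    obtain ⟨g, rfl⟩ := E0_exists Y he
    refine ⟨Emap (indLift φ Y (M := triv T) (trivRes φ ∘ₗ g)) (one T),
      Emap_mem _ one_mem_Deg, ?_⟩
    rw [Eres_map, Emap_comp]
    have h : resMap φ (indLift φ Y (M := triv T) (trivRes φ ∘ₗ g)) ∘ₗ indU φ Y =
        trivRes φ ∘ₗ g := by
      refine LinearMap.ext fun y => ?_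
      exact indLift_U φ Y (M := triv T) (trivRes φ ∘ₗ g) y
    rw [h, ← Emap_comp, Eres_one]

theorem Shap_nat {T' T : TAlg k I} (φ : THom T' T) (hφ : RFree φ) (hT : WtAlg Q T)
    (hT' : WtAlg Q T') (ι : THom Q.U0 T') (hι : RFree ι) (n : ℕ) :
    ∀ {Y : Mod T'}, IsWt Q Y →
    (∀ x ∈ EDeg (Y.ind φ) (n : ℤ), Emap (indU φ Y) (Eres φ (Y.ind φ) x) = 0 → x = 0) ∧
    (∀ e ∈ EDeg Y (n : ℤ), ∃ x ∈ EDeg (Y.ind φ) (n : ℤ),
      Emap (indU φ Y) (Eres φ (Y.ind φ) x) = e) := by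
  induction n with
  | zero =>
    intro Y _
    exact_mod_cast Shap_zero φ Y
  | succ m ih =>
    intro Y hY
    obtain ⟨Y₁, hY₁, S, -⟩ := exists_syzygy ι hι hT' hY
    have hP : IsWt Q ((Y.res ι).ind ι) := IsWt.ind ι hT' (hY.res ι)
    obtain ⟨S', hi, hp⟩ := exists_ind_ses hφ hT hP S
    have hpos : (0 : ℤ) < (m : ℤ) + 1 := by positivity
    have hv : EVan ((Y.res ι).ind ι) ((m : ℤ) + 1) := free_acyclic ι hι hT' (hY.res ι) hpos
    have hv' : EVan (((Y.res ι).ind ι).ind φ) ((m : ℤ) + 1) := by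
      obtain ⟨e, -⟩ := exists_indInd φ ι (Y.res ι)
      exact (EVan.of_iso e.toLinearMap e.bijective).2
        (free_acyclic (φ.comp ι) (hφ.comp hι) hT (hY.res ι) hpos)
    have i1 := (ih hY₁).1
    have s1 := (ih hY₁).2
    have s2 := (ih hP).2
    have hc : ((m + 1 : ℕ) : ℤ) = (m : ℤ) + 1 := by push_cast; ring
    rw [hc]
    constructor
    · intro x hx h
      obtain ⟨y, hy, rfl⟩ := E_ex_quot S' hx (hv' _ (Emap_mem S'.p hx))
      rw [Shap_delta φ S S' hi hp] at h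
      obtain ⟨z, hz, hz2⟩ := E_ex_sub S (Emap_mem _ (Eres_mem φ hy)) h
      obtain ⟨w, hw, rfl⟩ := s2 z hz
      rw [← Shap_map] at hz2
      have h3 : Emap (indMap φ S.i) w - y = 0 := by
        refine i1 _ (Submodule.sub_mem _ (Emap_mem _ hw) hy) ?_
        rw [map_sub, map_sub, hz2, sub_self]
      rw [← hi] at h3
      rw [← sub_eq_zero.1 h3, Eδ_Emap_i]
    · intro e he
      obtain ⟨y', hy', rfl⟩ := E_ex_quot S he (hv _ (Emap_mem S.p he))
      obtain ⟨y, hy, rfl⟩ := s1 y' hy'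
      exact ⟨Eδ S' y, Eδ_mem S' hy, Shap_delta φ S S' hi hp y⟩

/-- Shapiro's lemma -/
theorem shapiro {T' T : TAlg k I} (φ : THom T' T) (hφ : RFree φ) (hT : WtAlg Q T)
    (hT' : WtAlg Q T') (ι : THom Q.U0 T') (hι : RFree ι) {Y : Mod T'} (hY : IsWt Q Y) (n : ℤ) :
    (∀ x ∈ EDeg (Y.ind φ) n, Emap (indU φ Y) (Eres φ (Y.ind φ) x) = 0 → x = 0) ∧
    (∀ e ∈ EDeg Y n, ∃ x ∈ EDeg (Y.ind φ) n, Emap (indU φ Y) (Eres φ (Y.ind φ) x) = e) := by
  rcases lt_or_ge n 0 with hn | hn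
  · refine ⟨fun x hx _ => EVan_neg _ hn x hx, fun e he => ⟨0, Submodule.zero_mem _, ?_⟩⟩
    rw [map_zero, map_zero, EVan_neg _ hn e he]
  · obtain ⟨m, rfl⟩ := Int.eq_ofNat_of_zero_le hn
    exact Shap_nat φ hφ hT hT' ι hι m hY

theorem EVan.shapiro {T' T : TAlg k I} (φ : THom T' T) (hφ : RFree φ) (hT : WtAlg Q T)
    (hT' : WtAlg Q T') (ι : THom Q.U0 T') (hι : RFree ι) {Y : Mod T'} (hY : IsWt Q Y) {n : ℤ} :
    EVan (Y.ind φ) n ↔ EVan Y n := by
  obtain ⟨h1, h2⟩ := QG.shapiro φ hφ hT hT' ι hι hY n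
  constructor
  · intro h e he
    obtain ⟨x, hx, rfl⟩ := h2 e he
    rw [h x hx, map_zero, map_zero]
  · intro h x hx
    exact h1 x hx (h _ (Emap_mem _ (Eres_mem φ hx)))

variable {Jp Jm Jp' Jm' : Set I}

/-- Shapiro's lemma for the algebras `𝔸(Jp, Jm)` -/
theorem EVan.shapiroQ (hp : Jp ⊆ Jp') (hm : Jm ⊆ Jm') (hφ : RFree (Q.inc hp hm))
    {Y : Mod (Q.T Jp Jm)} (hY : IsWt Q Y) {n : ℤ} :
    EVan (Y.ind (Q.inc hp hm)) n ↔ EVan Y n :=
  EVan.shapiro (Q.inc hp hm) hφ (QD.wtAlg Q _ _) (QD.wtAlg Q _ _)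
    (Q.inc (Set.empty_subset Jp) (Set.empty_subset Jm)) QD.rfree_zero hY

/-- the identity -/
def Shap_id (T : TAlg k I) : THom T T where
  f := AlgHom.id k T.A
  f_K _ := rfl
  f_ε _ := rfl

/-- over the torus part, `E` is concentrated in degree zero -/
theorem EVan_U0 {Z : Mod Q.U0} (hZ : IsWt Q Z) {n : ℤ} (hn : 0 < n) : EVan Z n := by
  have hφ : RFree (Shap_id Q.U0) := RFree.of_bijective Function.bijective_id
  have hT : WtAlg Q Q.U0 := QD.wtAlg Q _ _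
  exact (EVan.shapiro (Shap_id Q.U0) hφ hT hT (Shap_id Q.U0) hφ hZ).1
    (free_acyclic (Shap_id Q.U0) hφ hT hZ hn)

end Pool.Agent.Lib.QG
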