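import Pool.Agent.Lib.MP_021f05_al.Roots
import Pool.Agent.Lib.MP_021f05_al.Shapiro
import Pool.Agent.Lib.MP_021f05_al.Tw
import Pool.Agent.Lib.MP_021f05_al.XKill

/-!
# MP_021f05_al (E1): Verma modules `V Jm μ` over `𝔸(I, Jm)`
-/

noncomputable section

namespace Pool.Agent.Lib.QG

open MvPolynomial
open scoped TensorProduct

variable {k : Type} [Field k] {I : Type} [Fintype I] [DecidableEq I] (Q : QD k I) (Jm : Set I)

theorem QD.V_isWt (μ : I → ℤ) : IsWt Q (Q.V Jm μ) :=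
  IsWt.ind _ (QD.wtAlg Q Set.univ Jm) (km_isWt Set.univ μ)

theorem QD.vv_wt (μ : I → ℤ) : Q.vv Jm μ ∈ wts Q (Q.V Jm μ) μ := by
  have h1 : (1 : (Q.T Set.univ Jm).A) ∈ wtA Q (Q.T Set.univ Jm) 0 := by
    intro i
    rw [map_one, QD.χ_zero, one_smul]
  have h := indT_wt (Q.inc (Set.Subset.refl Set.univ) (Set.empty_subset Jm)) h1
    (kv_mem (Q := Q) Set.univ μ)
  rw [zero_add] at h
  exact h

theorem QD.vv_E (μ : I → ℤ) (i : I) : Q.gE Set.univ Jm i • Q.vv Jm μ = 0 := by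
  show Q.gE Set.univ Jm i • indT (Q.inc (Set.Subset.refl Set.univ) (Set.empty_subset Jm))
    (Q.km Set.univ μ) 1 (Q.kv Set.univ μ) = 0
  rw [smul_indT, mul_one, ← QD.inc_E Q (Set.Subset.refl Set.univ) (Set.empty_subset Jm)
    (Set.mem_univ i), ← one_mul ((Q.inc (Set.Subset.refl Set.univ) (Set.empty_subset Jm)).f _),
    indT_mul, km_E, indT_zero_right]

theorem QD.vv_span (μ : I → ℤ) :
    Submodule.span (Q.T Set.univ Jm).A {Q.vv Jm μ} = ⊤ := by
  rw [eq_top_iff]
  rintro x -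
  refine ind_induction (Q.inc (Set.Subset.refl Set.univ) (Set.empty_subset Jm)) (Q.km Set.univ μ)
    (p := fun x => x ∈ Submodule.span (Q.T Set.univ Jm).A {Q.vv Jm μ}) x (zero_mem _)
    (fun a y => ?_) (fun x y hx hy => add_mem hx hy)
  obtain ⟨t, rfl⟩ := km_span (Q := Q) Set.univ μ y
  have e : (t • a) • Q.vv Jm μ = indT (Q.inc (Set.Subset.refl Set.univ) (Set.empty_subset Jm))
      (Q.km Set.univ μ) a (t • Q.kv Set.univ μ) := by
    have h1 := indT_smulk (Q.inc (Set.Subset.refl Set.univ) (Set.empty_subset Jm))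
      (Q.km Set.univ μ) t a (Q.kv Set.univ μ)
    have h2 := smul_indT (Q.inc (Set.Subset.refl Set.univ) (Set.empty_subset Jm))
      (Q.km Set.univ μ) a 1 (Q.kv Set.univ μ)
    rw [mul_one] at h2
    rw [h1, ← h2]
    exact smul_assoc t a (Q.vv Jm μ)
  have h4 : (t • a) • Q.vv Jm μ ∈ Submodule.span (Q.T Set.univ Jm).A {Q.vv Jm μ} :=
    Submodule.smul_mem _ _ (Submodule.mem_span_singleton_self _)
  rw [e] at h4
  exact h4

/-- the universal property -/
theorem QD.exists_V_hom {M : Mod (Q.T Set.univ Jm)} {μ : I → ℤ} {v : M.X}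
    (hv : v ∈ wts Q M μ) (hE : ∀ i, Q.gE Set.univ Jm i • v = 0) :
    ∃ f : (Q.V Jm μ).X →ₗ[(Q.T Set.univ Jm).A] M.X, f (Q.vv Jm μ) = v := by
  have hv' : (show (M.res (Q.inc (Set.Subset.refl Set.univ) (Set.empty_subset Jm))).X from v)
      ∈ wts Q (M.res (Q.inc (Set.Subset.refl Set.univ) (Set.empty_subset Jm))) μ := by
    intro i
    rw [Mod.res_smul, THom.f_K]
    exact hv i
  have hE' : ∀ i ∈ (Set.univ : Set I), Q.gE Set.univ ∅ i •
      (show (M.res (Q.inc (Set.Subset.refl Set.univ) (Set.empty_subset Jm))).X from v) = 0 := by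
    intro i hi
    rw [Mod.res_smul, QD.inc_E Q _ _ hi]
    exact hE i
  obtain ⟨f, hf⟩ := exists_km_hom hv' hE'
  refine ⟨indLift (Q.inc (Set.Subset.refl Set.univ) (Set.empty_subset Jm)) (Q.km Set.univ μ)
    (M := M) f, ?_⟩
  have h := indLift_T (Q.inc (Set.Subset.refl Set.univ) (Set.empty_subset Jm)) (Q.km Set.univ μ)
    (M := M) f 1 (Q.kv Set.univ μ)
  refine h.trans ?_
  rw [one_smul]
  exact hf

theorem QD.V_hom_ext {M : Mod (Q.T Set.univ Jm)} {μ : I → ℤ}
    {f g : (Q.V Jm μ).X →ₗ[(Q.T Set.univ Jm).A] M.X} (h : f (Q.vv Jm μ) = g (Q.vv Jm μ)) :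
    f = g :=
  LinearMap.ext_on (QD.vv_span Q Jm μ) fun x hx => by
    rw [Set.mem_singleton_iff] at hx
    rw [hx, h]

/-- elements of the half algebra in `𝔸(I, Jm)` -/
def QD.um (y : HA Q Jm) : (Q.T Set.univ Jm).A := HA.um Q Set.univ Jm y

/-- the half algebra acts freely on the generator of a Verma module -/
def QD.vact (μ : I → ℤ) : HA Q Jm →ₗ[k] (Q.V Jm μ).X where
  toFun y := Q.um Jm y • Q.vv Jm μ
  map_add' x y := by
    have h : Q.um Jm (x + y) = Q.um Jm x + Q.um Jm y := map_add (HA.um Q Set.univ Jm) x y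
    rw [h, add_smul]
  map_smul' t y := by
    have h : Q.um Jm (t • y) = t • Q.um Jm y := map_smul (HA.um Q Set.univ Jm) t y
    rw [h, smul_assoc, RingHom.id_apply]

theorem verma_um_injective : Function.Injective (HA.um Q Set.univ Jm) := by
  rw [injective_iff_map_eq_zero]
  intro y hy
  have h1 : tdm Q Set.univ Jm (y ⊗ₜ 1) = 0 := by
    rw [tdm_tmul, hy, zero_mul]
  have h2 : (y ⊗ₜ (1 : QA Q Set.univ ∅) : HA Q Jm ⊗[k] QA Q Set.univ ∅) = 0 :=
    (tdm_bijective Q Set.univ Jm).1 (by rw [h1, map_zero])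
  have h3 := congrArg (TensorProduct.rid k (HA Q Jm))
    (congrArg (((QElts.eps Q Set.univ ∅).lift).toLinearMap.lTensor (HA Q Jm)) h2)
  rw [LinearMap.lTensor_tmul, map_zero, map_zero, TensorProduct.rid_tmul] at h3
  have h4 : ((QElts.eps Q Set.univ ∅).lift).toLinearMap (1 : QA Q Set.univ ∅) = (1 : k) :=
    map_one (QElts.eps Q Set.univ ∅).lift
  rwa [h4, one_smul] at h3

/-- the one-dimensional module as the ground field -/
theorem verma_kv_bijective (μ : I → ℤ) :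
    Function.Bijective (LinearMap.toSpanSingleton k (Q.km Set.univ μ).X (Q.kv Set.univ μ)) := by
  constructor
  · rw [injective_iff_map_eq_zero]
    intro t ht
    rw [LinearMap.toSpanSingleton_apply] at ht
    exact (smul_eq_zero.1 ht).resolve_right (kv_ne Set.univ μ)
  · intro x
    obtain ⟨t, rfl⟩ := km_span (Q := Q) Set.univ μ x
    exact ⟨t, LinearMap.toSpanSingleton_apply _ _ _ _⟩

theorem QD.vact_bijective (μ : I → ℤ) : Function.Bijective (Q.vact Jm μ) := by
  let N := LinearMap.range (HA.um Q Set.univ Jm).toLinearMap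
  let e1 : HA Q Jm ≃ₗ[k] N := LinearEquiv.ofInjective (HA.um Q Set.univ Jm).toLinearMap
    (verma_um_injective Q Jm)
  let e2 : N ≃ₗ[k] N ⊗[k] (Q.km Set.univ μ).X := (TensorProduct.rid k N).symm ≪≫ₗ
    TensorProduct.congr (LinearEquiv.refl k N)
      (LinearEquiv.ofBijective _ (verma_kv_bijective Q μ))
  have hN := indN_bijective (ind2_minus Q Set.univ Jm) (Q.km Set.univ μ)
  have h : ⇑(Q.vact Jm μ) = (indN (Q.inc (Set.Subset.refl Set.univ) (Set.empty_subset Jm))
      (Q.km Set.univ μ) N) ∘ e2 ∘ e1 := by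
    funext y
    have h2 : e2 (e1 y) = e1 y ⊗ₜ Q.kv Set.univ μ := by
      show TensorProduct.congr (LinearEquiv.refl k N)
        (LinearEquiv.ofBijective _ (verma_kv_bijective Q μ))
          ((TensorProduct.rid k N).symm (e1 y)) = _
      rw [TensorProduct.rid_symm_apply, TensorProduct.congr_tmul, LinearEquiv.refl_apply,
        LinearEquiv.ofBijective_apply, LinearMap.toSpanSingleton_apply, one_smul]
    show Q.um Jm y • Q.vv Jm μ = indN _ _ _ (e2 (e1 y))
    rw [h2]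
    have h5 := smul_indT (Q.inc (Set.Subset.refl Set.univ) (Set.empty_subset Jm))
      (Q.km Set.univ μ) (Q.um Jm y) 1 (Q.kv Set.univ μ)
    rw [mul_one] at h5
    exact h5
  rw [h]
  exact hN.comp (e2.bijective.comp e1.bijective)

theorem QD.vact_wt (μ : I → ℤ) {ν : I → ℕ} {y : HA Q Jm} (hy : y ∈ HA.gr Q Jm ν) :
    Q.vact Jm μ y ∈ wts Q (Q.V Jm μ) (μ - fun i => (ν i : ℤ)) := by
  have hw : ∀ w : List I, Q.vact Jm μ (HA.word Q Jm w) ∈
      wts Q (Q.V Jm μ) (μ - fun i => (wtw w i : ℤ)) := by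
    intro w
    induction w with
    | nil =>
      have h1 : Q.vact Jm μ (HA.word Q Jm []) = Q.vv Jm μ := by
        show Q.um Jm (HA.word Q Jm []) • Q.vv Jm μ = _
        have h2 : Q.um Jm (HA.word Q Jm []) = 1 := map_one (HA.um Q Set.univ Jm)
        rw [h2, one_smul]
      have h3 : (μ - fun i => (wtw ([] : List I) i : ℤ)) = μ := by
        rw [halfGr_wtw_nil]
        funext i
        simp
      rw [h1, h3]
      exact QD.vv_wt Q Jm μ
    | cons j w ih =>
      have h1 : Q.vact Jm μ (HA.word Q Jm (j :: w)) =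
          Q.gF Set.univ Jm j • Q.vact Jm μ (HA.word Q Jm w) := by
        show Q.um Jm (HA.word Q Jm (j :: w)) • Q.vv Jm μ =
          Q.gF Set.univ Jm j • Q.um Jm (HA.word Q Jm w) • Q.vv Jm μ
        have h2 : Q.um Jm (HA.word Q Jm (j :: w)) =
            Q.gF Set.univ Jm j * Q.um Jm (HA.word Q Jm w) := by
          have h4 : HA.word Q Jm (j :: w) = HA.x Q Jm j * HA.word Q Jm w := List.prod_cons
          rw [h4]
          refine (map_mul (HA.um Q Set.univ Jm) _ _).trans ?_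
          rw [HA.um_x]
          rfl
        rw [h2, mul_smul]
      have h3 : (μ - fun i => (wtw (j :: w) i : ℤ)) =
          (μ - fun i => (wtw w i : ℤ)) - Q.al j := by
        have h5 : wtw (j :: w) = wtw [j] + wtw w := halfGr_wtw_append [j] w
        rw [h5, halfGr_wtw_single]
        funext i
        simp only [Pi.sub_apply, Pi.add_apply, CDatum.al, Nat.cast_add]
        by_cases hij : i = j
        · subst hij
          simp
          ring
        · rw [Pi.single_eq_of_ne hij, Pi.single_eq_of_ne hij]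
          simp
      rw [h1, h3]
      exact gF_wt ih j
  unfold HA.gr at hy
  induction hy using Submodule.span_induction with
  | mem x hx =>
    obtain ⟨w, rfl, rfl⟩ := hx
    exact hw w
  | zero => rw [map_zero]; exact zero_mem _
  | add x y _ _ hx hy => rw [map_add]; exact add_mem hx hy
  | smul t x _ hx => rw [map_smul]; exact Submodule.smul_mem _ _ hx

/-- a vector of a Verma module as a sum of weight vectors -/
theorem verma_exists_sum {μ ν : I → ℤ} {x : (Q.V Jm μ).X} (hx : x ∈ wts Q (Q.V Jm μ) ν)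
    (h0 : x ≠ 0) : ∃ γ : I → ℕ, (μ - fun i => (γ i : ℤ)) = ν ∧ ∃ y ∈ HA.gr Q Jm γ,
      Q.vact Jm μ y = x := by
  classical
  obtain ⟨y, rfl⟩ := (QD.vact_bijective Q Jm μ).2 x
  have hy : y ∈ ⨆ γ, HA.gr Q Jm γ := by rw [HA.gr_iSup]; trivial
  obtain ⟨f, hf, hfy⟩ := (Submodule.mem_iSup_iff_exists_finsupp _ _).1 hy
  let w : (I → ℕ) → (I → ℤ) := fun γ => μ - fun i => (γ i : ℤ)
  have hw : Function.Injective w := by
    intro a b hab
    funext i
    have h1 : w a i = w b i := congrFun hab i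
    have h2 : μ i - (a i : ℤ) = μ i - (b i : ℤ) := h1
    omega
  have hsum : Q.vact Jm μ y = ∑ γ ∈ f.support, Q.vact Jm μ (f γ) := by
    rw [← hfy, Finsupp.sum, map_sum]
  by_cases hν : ∃ γ ∈ f.support, w γ = ν
  · obtain ⟨γ, hγ, hwγ⟩ := hν
    refine ⟨γ, hwγ, f γ, hf γ, ?_⟩
    -- the remaining components vanish
    have h1 : ∑ δ ∈ f.support, (Q.vact Jm μ (f δ) - if δ = γ then Q.vact Jm μ y else 0) = 0 := by
      rw [Finset.sum_sub_distrib, Finset.sum_ite_eq' f.support γ, if_pos hγ, ← hsum, sub_self]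
    let g : (I → ℤ) → (Q.V Jm μ).X := fun κ =>
      if h : ∃ δ, w δ = κ then
        Q.vact Jm μ (f h.choose) - if h.choose = γ then Q.vact Jm μ y else 0 else 0
    have hg : ∀ δ, g (w δ) = Q.vact Jm μ (f δ) - if δ = γ then Q.vact Jm μ y else 0 := by
      intro δ
      have hex : ∃ δ', w δ' = w δ := ⟨δ, rfl⟩
      have h2 : hex.choose = δ := hw hex.choose_spec
      show (if h : ∃ δ', w δ' = w δ then
        Q.vact Jm μ (f h.choose) - if h.choose = γ then Q.vact Jm μ y else 0 else 0) = _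
      rw [dif_pos hex, h2]
    have hgw : ∀ κ, g κ ∈ wts Q (Q.V Jm μ) κ := by
      intro κ
      by_cases hex : ∃ δ, w δ = κ
      · obtain ⟨δ, rfl⟩ := hex
        rw [hg]
        refine sub_mem (QD.vact_wt Q Jm μ (hf δ)) ?_
        split_ifs with hδ
        · rw [hδ, hwγ]
          exact hx
        · exact zero_mem _
      · show (if h : ∃ δ', w δ' = κ then
          Q.vact Jm μ (f h.choose) - if h.choose = γ then Q.vact Jm μ y else 0 else 0) ∈ _
        rw [dif_neg hex]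
        exact zero_mem _
    have h2 : ∑ κ ∈ f.support.image w, g κ ∈ (⊥ : Submodule k (Q.V Jm μ).X) := by
      rw [Finset.sum_image (fun a _ b _ hab => hw hab), Finset.sum_congr rfl (fun δ _ => hg δ), h1]
      exact zero_mem _
    have h3 := wt_graded (⊥ : Submodule k (Q.V Jm μ).X)
      (fun i x hx => by rw [(Submodule.mem_bot k).1 hx, smul_zero]; exact zero_mem _)
      (f.support.image w) g hgw h2 (w γ) (Finset.mem_image_of_mem _ hγ)
    rw [Submodule.mem_bot, hg, if_pos rfl] at h3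
    exact sub_eq_zero.1 h3
  · exfalso
    push Not at hν
    let g : (I → ℤ) → (Q.V Jm μ).X := fun κ =>
      if h : ∃ δ ∈ f.support, w δ = κ then Q.vact Jm μ (f h.choose) else
        if κ = ν then - Q.vact Jm μ y else 0
    have hg : ∀ δ ∈ f.support, g (w δ) = Q.vact Jm μ (f δ) := by
      intro δ hδ
      have hex : ∃ δ' ∈ f.support, w δ' = w δ := ⟨δ, hδ, rfl⟩
      have h2 : hex.choose = δ := hw hex.choose_spec.2
      show (if h : ∃ δ' ∈ f.support, w δ' = w δ then Q.vact Jm μ (f h.choose) else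
        if w δ = ν then - Q.vact Jm μ y else 0) = _
      rw [dif_pos hex, h2]
    have hν' : ¬ ∃ δ ∈ f.support, w δ = ν := by
      rintro ⟨δ, hδ, h⟩
      exact hν δ hδ h
    have hgν : g ν = - Q.vact Jm μ y := by
      show (if h : ∃ δ' ∈ f.support, w δ' = ν then Q.vact Jm μ (f h.choose) else
        if ν = ν then - Q.vact Jm μ y else 0) = _
      rw [dif_neg hν', if_pos rfl]
    have hgw : ∀ κ, g κ ∈ wts Q (Q.V Jm μ) κ := by
      intro κ
      by_cases hex : ∃ δ ∈ f.support, w δ = κ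
      · obtain ⟨δ, hδ, rfl⟩ := hex
        rw [hg δ hδ]
        exact QD.vact_wt Q Jm μ (hf δ)
      · show (if h : ∃ δ' ∈ f.support, w δ' = κ then Q.vact Jm μ (f h.choose) else
          if κ = ν then - Q.vact Jm μ y else 0) ∈ _
        rw [dif_neg hex]
        split_ifs with hκ
        · rw [hκ]
          exact neg_mem hx
        · exact zero_mem _
    have hnot : ν ∉ f.support.image w := by
      rw [Finset.mem_image]
      exact hν'
    have h2 : ∑ κ ∈ insert ν (f.support.image w), g κ ∈ (⊥ : Submodule k (Q.V Jm μ).X) := by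
      rw [Finset.sum_insert hnot, Finset.sum_image (fun a _ b _ hab => hw hab),
        Finset.sum_congr rfl hg, hgν, ← hsum, neg_add_cancel]
      exact zero_mem _
    have h3 := wt_graded (⊥ : Submodule k (Q.V Jm μ).X)
      (fun i x hx => by rw [(Submodule.mem_bot k).1 hx, smul_zero]; exact zero_mem _)
      (insert ν (f.support.image w)) g hgw h2 ν (Finset.mem_insert_self _ _)
    rw [Submodule.mem_bot, hgν, neg_eq_zero] at h3
    exact h0 h3

/-- the weights of a Verma module -/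
theorem QD.V_wts_le {μ ν : I → ℤ} (h : wts Q (Q.V Jm μ) ν ≠ ⊥) (j : I) : ν j ≤ μ j := by
  obtain ⟨x, hx, h0⟩ := Submodule.exists_mem_ne_zero_of_ne_bot h
  obtain ⟨γ, hγ, -⟩ := verma_exists_sum Q Jm hx h0
  rw [← hγ, Pi.sub_apply]
  have : (0 : ℤ) ≤ γ j := Int.natCast_nonneg _
  linarith

theorem QD.V_top {μ : I → ℤ} {x : (Q.V Jm μ).X} (hx : x ∈ wts Q (Q.V Jm μ) μ) :
    ∃ t : k, x = t • Q.vv Jm μ := by
  by_cases h0 : x = 0
  · exact ⟨0, by rw [h0, zero_smul]⟩
  obtain ⟨γ, hγ, y, hy, rfl⟩ := verma_exists_sum Q Jm hx h0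
  have hγ0 : γ = 0 := by
    funext i
    have h1 := congrFun hγ i
    rw [Pi.sub_apply] at h1
    have h2 : (γ i : ℤ) = 0 := by linarith
    exact_mod_cast h2
  rw [hγ0, HA.gr_zero] at hy
  obtain ⟨t, rfl⟩ := Submodule.mem_span_singleton.1 hy
  refine ⟨t, ?_⟩
  rw [map_smul]
  congr 1
  show Q.um Jm 1 • Q.vv Jm μ = _
  have h2 : Q.um Jm 1 = 1 := map_one (HA.um Q Set.univ Jm)
  rw [h2, one_smul]

theorem QD.vv_ne (μ : I → ℤ) : Q.vv Jm μ ≠ 0 := by
  intro h
  have h1 : Q.vact Jm μ 1 = Q.vact Jm μ 0 := by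
    rw [map_zero]
    show Q.um Jm 1 • Q.vv Jm μ = _
    rw [h, smul_zero]
  exact HA.one_ne_zero Q Jm ((QD.vact_bijective Q Jm μ).1 h1)

/-- a nonzero singular vector generates a copy of a Verma module -/
theorem QD.V_hom_injective {μ ν : I → ℤ}
    (f : (Q.V Jm μ).X →ₗ[(Q.T Set.univ Jm).A] (Q.V Jm ν).X) {z : HA Q Jm}
    (hz : f (Q.vv Jm μ) = Q.vact Jm ν z) (hinj : ∀ y, y * z = 0 → y = 0) :
    Function.Injective f := by
  have key : ∀ y, f (Q.vact Jm μ y) = Q.vact Jm ν (y * z) := by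
    intro y
    show f (Q.um Jm y • Q.vv Jm μ) = Q.um Jm (y * z) • Q.vv Jm ν
    rw [map_smul, hz]
    show Q.um Jm y • Q.um Jm z • Q.vv Jm ν = Q.um Jm (y * z) • Q.vv Jm ν
    have h2 : Q.um Jm (y * z) = Q.um Jm y * Q.um Jm z := map_mul (HA.um Q Set.univ Jm) y z
    rw [h2, mul_smul]
  rw [injective_iff_map_eq_zero]
  intro x hx
  obtain ⟨y, rfl⟩ := (QD.vact_bijective Q Jm μ).2 x
  rw [key] at hx
  have h3 : y * z = 0 := (QD.vact_bijective Q Jm ν).1 (by rw [hx, map_zero])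
  rw [hinj y h3, map_zero]

theorem QD.V_singular {i : I} (hi : i ∈ Jm) {μ : I → ℤ} {m : ℕ} (hm : Q.ct i μ = m) (j : I) :
    Q.gE Set.univ Jm j • Q.gF Set.univ Jm i ^ (m + 1) • Q.vv Jm μ = 0 := by
  by_cases hij : j = i
  · subst hij
    rw [E_F_pow (Set.mem_univ j) hi (QD.vv_wt Q Jm μ) m, QD.vv_E, smul_zero, zero_add, hm, sub_self]
    have h0 : qn (Q.qi j) 0 = 0 := by
      unfold qn
      simp
    rw [h0, mul_zero, zero_smul]
  · have hc : Q.gE Set.univ Jm j * Q.gF Set.univ Jm i = Q.gF Set.univ Jm i * Q.gE Set.univ Jm j := by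
      have h := (QA.elts Q Set.univ Jm).EF j i (Set.mem_univ j) hi
      rw [if_neg hij, add_zero] at h
      exact h
    have hp : Q.gE Set.univ Jm j * Q.gF Set.univ Jm i ^ (m + 1) =
        Q.gF Set.univ Jm i ^ (m + 1) * Q.gE Set.univ Jm j := (Commute.pow_right hc (m + 1))
    rw [smul_smul, hp, mul_smul, QD.vv_E, smul_zero]

/-- the submodule generated by `F_i^{m+1} v`, `m = ⟨μ, α_i^∨⟩` -/
def QD.VN (i : I) (μ : I → ℤ) : Submodule (Q.T Set.univ Jm).A (Q.V Jm μ).X :=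
  Submodule.span (Q.T Set.univ Jm).A
    {Q.gF Set.univ Jm i ^ ((Q.ct i μ).toNat + 1) • Q.vv Jm μ}

/-- the `i`-integrable quotient of a Verma module -/
def QD.VL (i : I) (μ : I → ℤ) : Mod (Q.T Set.univ Jm) := (Q.V Jm μ).quot (Q.VN Jm i μ)

theorem QD.VL_isWt (i : I) (μ : I → ℤ) : IsWt Q (Q.VL Jm i μ) :=
  (QD.V_isWt Q Jm μ).quot _

theorem verma_quot_span (μ : I → ℤ) (N : Submodule (Q.T Set.univ Jm).A (Q.V Jm μ).X) :
    Submodule.span (Q.T Set.univ Jm).A {(Q.V Jm μ).quotπ N (Q.vv Jm μ)} = ⊤ := by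
  have h1 := Submodule.map_span ((Q.V Jm μ).quotπ N) {Q.vv Jm μ}
  rw [QD.vv_span, Set.image_singleton] at h1
  rw [← h1, Submodule.map_top, LinearMap.range_eq_top]
  exact Submodule.mkQ_surjective _

theorem QD.VL_isInt {i : I} (hi : i ∈ Jm) {μ : I → ℤ} (hμ : 0 ≤ Q.ct i μ) :
    IsInt i (Q.VL Jm i μ) := by
  refine IsInt.of_span (Set.mem_univ i) hi {(Q.V Jm μ).quotπ (Q.VN Jm i μ) (Q.vv Jm μ)} ?_ ?_
  · intro x hx
    have hx' : x = (Q.V Jm μ).quotπ (Q.VN Jm i μ) (Q.vv Jm μ) := hx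
    refine ⟨(Q.ct i μ).toNat + 1, ?_, ?_⟩
    · rw [hx']
      refine (map_smul ((Q.V Jm μ).quotπ (Q.VN Jm i μ)) _ _).symm.trans ?_
      rw [pow_succ, mul_smul, QD.vv_E, smul_zero, map_zero]
      rfl
    · rw [hx']
      refine (map_smul ((Q.V Jm μ).quotπ (Q.VN Jm i μ)) _ _).symm.trans ?_
      refine (Submodule.Quotient.mk_eq_zero _).2 ?_
      exact Submodule.mem_span_singleton_self _
  · exact verma_quot_span Q Jm μ (Q.VN Jm i μ)

theorem QD.exists_VL_ses {i : I} (hi : i ∈ Jm) {μ : I → ℤ} (hμ : 0 ≤ Q.ct i μ) :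
    ∃ S : ModSES (Q.V Jm (Q.dot i μ)) (Q.V Jm μ) (Q.VL Jm i μ),
      S.i (Q.vv Jm (Q.dot i μ))
        = Q.gF Set.univ Jm i ^ ((Q.ct i μ).toNat + 1) • Q.vv Jm μ ∧
      S.p = (Q.V Jm μ).quotπ (Q.VN Jm i μ) := by
  have hwt : ∀ n : ℕ, Q.gF Set.univ Jm i ^ n • Q.vv Jm μ ∈
      wts Q (Q.V Jm μ) (μ - (n : ℤ) • Q.al i) := by
    intro n
    induction n with
    | zero =>
      rw [pow_zero, one_smul]
      have h1 : μ - ((0 : ℕ) : ℤ) • Q.al i = μ := by simp
      rw [h1]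
      exact QD.vv_wt Q Jm μ
    | succ n ih =>
      rw [pow_succ', mul_smul]
      have h1 : μ - ((n + 1 : ℕ) : ℤ) • Q.al i = μ - (n : ℤ) • Q.al i - Q.al i := by
        push_cast
        rw [add_smul, one_smul, sub_sub]
      rw [h1]
      exact gF_wt ih i
  have hm : Q.ct i μ = ((Q.ct i μ).toNat : ℤ) := (Int.toNat_of_nonneg hμ).symm
  have hv : Q.gF Set.univ Jm i ^ ((Q.ct i μ).toNat + 1) • Q.vv Jm μ ∈
      wts Q (Q.V Jm μ) (Q.dot i μ) := by
    have h1 := hwt ((Q.ct i μ).toNat + 1)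
    have h2 : μ - (((Q.ct i μ).toNat + 1 : ℕ) : ℤ) • Q.al i = Q.dot i μ := by
      rw [CDatum.dot_eq]
      push_cast
      rw [Int.toNat_of_nonneg hμ]
    rwa [h2] at h1
  obtain ⟨f, hf⟩ := QD.exists_V_hom Q Jm hv (fun j => QD.V_singular Q Jm hi hm j)
  have hpow : ∀ (n : ℕ) (y : HA Q Jm), y * HA.x Q Jm i ^ n = 0 → y = 0 := by
    intro n
    induction n with
    | zero =>
      intro y hy
      rwa [pow_zero, mul_one] at hy
    | succ n ih =>
      intro y hy
      rw [pow_succ, ← mul_assoc] at hy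
      exact ih y (HA.mul_x_injective Q Jm hi hy)
  have hinj : Function.Injective f := by
    refine QD.V_hom_injective Q Jm f (z := HA.x Q Jm i ^ ((Q.ct i μ).toNat + 1)) ?_
      (hpow ((Q.ct i μ).toNat + 1))
    rw [hf]
    show _ = Q.um Jm (HA.x Q Jm i ^ ((Q.ct i μ).toNat + 1)) • Q.vv Jm μ
    have h1 : Q.um Jm (HA.x Q Jm i ^ ((Q.ct i μ).toNat + 1)) =
        Q.gF Set.univ Jm i ^ ((Q.ct i μ).toNat + 1) := by
      refine (map_pow (HA.um Q Set.univ Jm) _ _).trans ?_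
      rw [HA.um_x]
      rfl
    rw [h1]
  have hrange : LinearMap.range f = Q.VN Jm i μ := by
    rw [← Submodule.map_top, ← QD.vv_span Q Jm (Q.dot i μ), Submodule.map_span,
      Set.image_singleton, hf]
    rfl
  refine ⟨mkSES (QD.V_isWt Q Jm μ) f ((Q.V Jm μ).quotπ (Q.VN Jm i μ)) hinj
    (Submodule.mkQ_surjective _) ?_, hf, rfl⟩
  intro x
  have h1 : (Q.V Jm μ).quotπ (Q.VN Jm i μ) x = 0 ↔ x ∈ Q.VN Jm i μ :=
    Submodule.Quotient.mk_eq_zero _
  refine Iff.trans h1 ?_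
  rw [← hrange]
  exact LinearMap.mem_range

/-- the Verma module `M(-α_l) = M(s_l · 0)` -/
abbrev QD.NV (l : I) : Mod Q.U := Q.V Set.univ (Q.dot l 0)

theorem K0_ct_zero (l : I) : Q.ct l 0 = 0 := by
  unfold CDatum.ct
  simp

theorem QD.dot_zero (l : I) : Q.dot l 0 = -(Q.al l) := by
  rw [CDatum.dot_eq, K0_ct_zero, zero_add, one_smul, zero_sub]

variable [CharZero k]

/-- Shapiro's lemma for Verma modules -/
theorem QD.EVan_V {μ : I → ℤ} {n : ℤ} :
    EVan (Q.V Jm μ) n ↔ EVan (Q.km Set.univ μ) n :=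
  EVan.shapiroQ (Set.Subset.refl Set.univ) (Set.empty_subset Jm) QD.rfree_minus
    (km_isWt Set.univ μ)

/-- all linear forms kill the cohomology of modules induced from `B` -/
theorem lin_kill_ind {X : Mod Q.B} (hX : IsWt Q X) (c : I → k) {n : ℤ}
    {e : E (X.ind (Q.inc (Set.Subset.refl Set.univ) (Set.empty_subset Jm)))}
    (he : e ∈ EDeg (X.ind (Q.inc (Set.Subset.refl Set.univ) (Set.empty_subset Jm))) n) :
    lin c • e = 0 := by
  have hsh := (shapiro (Q.inc (Set.Subset.refl Set.univ) (Set.empty_subset Jm)) QD.rfree_minus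
    (QD.wtAlg Q Set.univ Jm) (QD.wtAlg Q Set.univ ∅)
    (Q.inc (Set.empty_subset Set.univ) (Set.empty_subset ∅)) QD.rfree_zero hX (n + 2)).1
  refine hsh _ (lin_mem_Deg c he) ?_
  rw [map_smul, map_smul]
  exact lin_kill_Q X c (fun i _ hi => absurd hi (Set.notMem_empty i)) _

theorem QD.lin_kill_V {μ : I → ℤ} (c : I → k) {n : ℤ} {e : E (Q.V Jm μ)}
    (he : e ∈ EDeg (Q.V Jm μ) n) : lin c • e = 0 :=
  lin_kill_ind Q Jm (km_isWt Set.univ μ) c he

end Pool.Agent.Lib.QG
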