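import Pool.Agent.Lib.MP_021f05_al.DefE
import Pool.Agent.Lib.MP_021f05_al.DefH
import Pool.Agent.Lib.MP_021f05_al.DefW
import Pool.Agent.Lib.MP_021f05_al.SerA
import Pool.Agent.Lib.MP_021f05_al.Verma

/-!
# MP_021f05_al (E12): the module `M(μ)/U A v`, `μ = -α_i`, deforms in the direction
`e_i + a_{ij} e_j`
-/

noncomputable section

namespace Pool.Agent.Lib.QG

open MvPolynomial

variable {k : Type} [Field k] {I : Type} [Fintype I] [DecidableEq I] (Q : QD k I)
  (μ : I → ℤ) (c : I → k)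

/-! ### the splitting of the deformed Verma module -/

/-- the half algebra acting on the generator of the deformed Verma module -/
def wact : HA Q Set.univ →ₗ[k] (defW Q μ c).X where
  toFun y := Q.um Set.univ y • defv Q μ c
  map_add' x y := by
    have h : Q.um Set.univ (x + y) = Q.um Set.univ x + Q.um Set.univ y :=
      map_add (HA.um Q Set.univ Set.univ) x y
    rw [h, add_smul]
  map_smul' t y := by
    have h : Q.um Set.univ (t • y) = t • Q.um Set.univ y :=
      map_smul (HA.um Q Set.univ Set.univ) t y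
    rw [h, smul_assoc, RingHom.id_apply]

lemma defp_wact (y : HA Q Set.univ) : defp Q μ c (wact Q μ c y) = Q.vact Set.univ μ y := by
  show defp Q μ c (Q.um Set.univ y • defv Q μ c) = Q.um Set.univ y • Q.vv Set.univ μ
  rw [map_smul, defp_v]

lemma wact_gwt {ν : I → ℕ} {y : HA Q Set.univ} (hy : y ∈ HA.gr Q Set.univ ν) :
    wact Q μ c y ∈ gwt (defW Q μ c) (defZ Q μ c) c (μ - fun i => (ν i : ℤ)) := by
  have hw : ∀ w : List I, wact Q μ c (HA.word Q Set.univ w) ∈
      gwt (defW Q μ c) (defZ Q μ c) c (μ - fun i => (wtw w i : ℤ)) := by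
    intro w
    induction w with
    | nil =>
      have h1 : wact Q μ c (HA.word Q Set.univ []) = defv Q μ c := by
        show Q.um Set.univ (HA.word Q Set.univ []) • defv Q μ c = _
        have h2 : Q.um Set.univ (HA.word Q Set.univ []) = 1 :=
          map_one (HA.um Q Set.univ Set.univ)
        rw [h2, one_smul]
      have h3 : (μ - fun i => (wtw ([] : List I) i : ℤ)) = μ := by
        rw [halfGr_wtw_nil]
        funext i
        simp
      rw [h1, h3]
      exact defv_gwt Q μ c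
    | cons j w ih =>
      have h1 : wact Q μ c (HA.word Q Set.univ (j :: w)) =
          Q.gF Set.univ Set.univ j • wact Q μ c (HA.word Q Set.univ w) := by
        show Q.um Set.univ (HA.word Q Set.univ (j :: w)) • defv Q μ c =
          Q.gF Set.univ Set.univ j • Q.um Set.univ (HA.word Q Set.univ w) • defv Q μ c
        have h2 : Q.um Set.univ (HA.word Q Set.univ (j :: w)) =
            Q.gF Set.univ Set.univ j * Q.um Set.univ (HA.word Q Set.univ w) := by
          have h4 : HA.word Q Set.univ (j :: w) = HA.x Q Set.univ j * HA.word Q Set.univ w :=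
            List.prod_cons
          rw [h4]
          refine (map_mul (HA.um Q Set.univ Set.univ) _ _).trans ?_
          rw [HA.um_x]
          rfl
        rw [h2, mul_smul]
      have h3 : (μ - fun i => (wtw (j :: w) i : ℤ)) =
          (μ - fun i => (wtw w i : ℤ)) - Q.al j := by
        have h5 : wtw (j :: w) = wtw [j] + wtw w := halfGr_wtw_append [j] w
        rw [h5, halfGr_wtw_single]
        funext i
        simp only [Pi.sub_apply, Pi.add_apply, CDatum.al, Nat.cast_add]
        by_cases hij : i = j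
        · subst hij
          simp
          ring
        · rw [Pi.single_eq_of_ne hij, Pi.single_eq_of_ne hij]
          simp
      rw [h1, h3]
      exact gF_gwt ih j
  unfold HA.gr at hy
  induction hy using Submodule.span_induction with
  | mem x hx =>
    obtain ⟨w, rfl, rfl⟩ := hx
    exact hw w
  | zero => rw [map_zero]; exact zero_mem _
  | add x y _ _ hx hy => rw [map_add]; exact add_mem hx hy
  | smul t x _ hx => rw [map_smul]; exact Submodule.smul_mem _ _ hx

lemma wact_K (j : I) (y : HA Q Set.univ) (y' : HA Q Set.univ)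
    (h : Q.vact Set.univ μ y' = (Q.U.K j : Q.U.A) • Q.vact Set.univ μ y) :
    (Q.U.K j : Q.U.A) • wact Q μ c y
      = wact Q μ c y' + c j • (Q.U.K j : Q.U.A) • defi Q μ c (Q.vact Set.univ μ y) := by
  have hy : y ∈ ⨆ ν, HA.gr Q Set.univ ν := by rw [HA.gr_iSup]; trivial
  induction hy using Submodule.iSup_induction' generalizing y' with
  | mem ν y hy =>
    have h1 := wact_gwt Q μ c hy j
    have h2 := QD.vact_wt Q Set.univ μ hy j
    have h3 : y' = Q.χ (μ - fun i => (ν i : ℤ)) j • y := by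
      apply (QD.vact_bijective Q Set.univ μ).1
      rw [h, map_smul]
      exact h2
    have h4 : defZ Q μ c (wact Q μ c y) = defi Q μ c (Q.vact Set.univ μ y) := by
      show defi Q μ c (defp Q μ c (wact Q μ c y)) = _
      rw [defp_wact]
    have h2' : (Q.U.K j : Q.U.A) • Q.vact Set.univ μ y
      = Q.χ (μ - fun i => (ν i : ℤ)) j • Q.vact Set.univ μ y := h2
    have hik : ∀ (t : k) x, defi Q μ c (t • x) = t • defi Q μ c x := fun t x =>
      (toK (defi Q μ c)).map_smul t x
    refine h1.trans ?_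
    rw [h4, h3, map_smul, ← map_smul (defi Q μ c) (Q.U.K j : Q.U.A), h2', hik, smul_add,
      smul_comm (c j)]
  | zero =>
    have h3 : y' = 0 := by
      apply (QD.vact_bijective Q Set.univ μ).1
      rw [h, map_zero, smul_zero]
    rw [h3, map_zero, map_zero, map_zero, smul_zero, smul_zero, add_zero]
  | add y1 y2 _ _ h1 h2 =>
    obtain ⟨z1, hz1⟩ := (QD.vact_bijective Q Set.univ μ).2
      ((Q.U.K j : Q.U.A) • Q.vact Set.univ μ y1)
    obtain ⟨z2, hz2⟩ := (QD.vact_bijective Q Set.univ μ).2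
      ((Q.U.K j : Q.U.A) • Q.vact Set.univ μ y2)
    have h3 : y' = z1 + z2 := by
      apply (QD.vact_bijective Q Set.univ μ).1
      rw [h, map_add, map_add, hz1, hz2, smul_add]
    rw [h3, map_add, map_add, map_add, map_add, smul_add, smul_add, smul_add, h1 z1 hz1,
      h2 z2 hz2]
    abel

/-- a `k`-linear retraction of the deformed Verma module -/
theorem exists_defρ : ∃ ρ : (defW Q μ c).X →ₗ[k] (Q.V Set.univ μ).X,
    (∀ x, ρ (defi Q μ c x) = x) ∧
    ∀ j w, ρ ((Q.U.K j : Q.U.A) • w) = (Q.U.K j : Q.U.A) • (ρ w + c j • defp Q μ c w) := by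
  let e := LinearEquiv.ofBijective (Q.vact Set.univ μ) (QD.vact_bijective Q Set.univ μ)
  have he : ∀ x, Q.vact Set.univ μ (e.symm x) = x := fun x => e.apply_symm_apply x
  let σ : (Q.V Set.univ μ).X →ₗ[k] (defW Q μ c).X := wact Q μ c ∘ₗ e.symm.toLinearMap
  have hpσ : ∀ x, defp Q μ c (σ x) = x := by
    intro x
    show defp Q μ c (wact Q μ c (e.symm x)) = x
    rw [defp_wact, he]
  have hσK : ∀ j x, (Q.U.K j : Q.U.A) • σ x = σ ((Q.U.K j : Q.U.A) • x)
      + c j • (Q.U.K j : Q.U.A) • defi Q μ c x := by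
    intro j x
    have h := wact_K Q μ c j (e.symm x) (e.symm ((Q.U.K j : Q.U.A) • x)) (by rw [he, he])
    rw [he] at h
    exact h
  have hses := def_ses Q μ c
  have hex : ∀ w, ∃ x, defi Q μ c x = w - σ (defp Q μ c w) := by
    intro w
    refine (hses.2.2 _).1 ?_
    rw [map_sub, hpσ, sub_self]
  choose f hf using hex
  have hik : ∀ (t : k) x, defi Q μ c (t • x) = t • defi Q μ c x := fun t x =>
    (toK (defi Q μ c)).map_smul t x
  have hpk : ∀ (t : k) x, defp Q μ c (t • x) = t • defp Q μ c x := fun t x =>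
    (toK (defp Q μ c)).map_smul t x
  refine ⟨{ toFun := f, map_add' := fun x y => ?_, map_smul' := fun t x => ?_ }, ?_, ?_⟩
  · apply hses.1
    rw [map_add, hf, hf, hf, map_add, map_add]
    abel
  · apply hses.1
    rw [RingHom.id_apply, hik, hf, hf, hpk, σ.map_smul, smul_sub]
  · intro x
    apply hses.1
    show defi Q μ c (f (defi Q μ c x)) = _
    rw [hf, defp_defi, map_zero, sub_zero]
  · intro j w
    apply hses.1
    show defi Q μ c (f ((Q.U.K j : Q.U.A) • w)) = defi Q μ c ((Q.U.K j : Q.U.A) •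
      (f w + c j • defp Q μ c w))
    have h1 := hσK j (defp Q μ c w)
    rw [hf, map_smul (defp Q μ c), map_smul (defi Q μ c), map_add, hik, hf, smul_add, smul_sub, h1,
      smul_comm_k]
    abel

/-! ### the deformed quotient -/

section Y

variable (i j : I)

lemma defsv_p :
    defp Q μ c (defsv (defZ Q μ c) i j (defv Q μ c)) = Q.vact Set.univ μ (Q.serA i j) := by
  have hik : ∀ (t : k) x, defp Q μ c (t • x) = t • defp Q μ c x := fun t x =>
    (toK (defp Q μ c)).map_smul t x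
  have hpZ : ∀ x, defp Q μ c (defZ Q μ c x) = 0 := fun x => defp_defi Q μ c _
  unfold defsv QD.serA
  rw [map_sum, map_sum]
  refine Finset.sum_congr rfl fun l _ => ?_
  rw [hik, map_smul, map_smul, map_smul, map_smul]
  congr 1
  unfold defu
  rw [map_add, hik, hpZ, smul_zero, add_zero, defp_v]
  show _ = Q.um Set.univ (HA.x Q Set.univ i ^ ((-(Q.a i j)).toNat - l) * HA.x Q Set.univ j
        * HA.x Q Set.univ i ^ l) • Q.vv Set.univ μ
  have h : Q.um Set.univ (HA.x Q Set.univ i ^ ((-(Q.a i j)).toNat - l) * HA.x Q Set.univ j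
        * HA.x Q Set.univ i ^ l) = Q.gF Set.univ Set.univ i ^ ((-(Q.a i j)).toNat - l) *
          Q.gF Set.univ Set.univ j * Q.gF Set.univ Set.univ i ^ l := by
    show HA.um Q Set.univ Set.univ _ = _
    rw [map_mul, map_mul, map_pow, map_pow, HA.um_x, HA.um_x]
    rfl
  rw [h, mul_smul, mul_smul]

variable {i j}

/-- the direction of the deformation -/
def defc (i j : I) : I → k := Pi.single i (1 : k) + (Q.a i j : k) • Pi.single j (1 : k)

lemma defc_i (hij : i ≠ j) : defc Q i j i = 1 := by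
  unfold defc
  rw [Pi.add_apply, Pi.single_eq_same, Pi.smul_apply, Pi.single_eq_of_ne hij, smul_zero,
    add_zero]

lemma defc_j (hij : i ≠ j) : defc Q i j j = (Q.a i j : k) := by
  unfold defc
  rw [Pi.add_apply, Pi.single_eq_of_ne hij.symm, Pi.smul_apply, Pi.single_eq_same, smul_eq_mul,
    mul_one, zero_add]

lemma defsv_E' (hij : i ≠ j) (hμ : μ = -(Q.al i)) (r : I) :
    Q.gE Set.univ Set.univ r • defsv (defZ Q μ (defc Q i j)) i j (defv Q μ (defc Q i j)) = 0 := by
  have hv : defv Q μ (defc Q i j) ∈ gwt (defW Q μ (defc Q i j)) (defZ Q μ (defc Q i j))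
      (defc Q i j) (-(Q.al i)) := by
    rw [← hμ]
    exact defv_gwt Q μ _
  exact defsv_E hij (defZ_defZ Q μ _) hv (defv_E Q μ _) (defc_i Q hij) (defc_j Q hij) r

variable {Q μ}

/-- `A v` is singular -/
theorem vact_serA_E (hij : i ≠ j) (hμ : μ = -(Q.al i)) (r : I) :
    Q.gE Set.univ Set.univ r • Q.vact Set.univ μ (Q.serA i j) = 0 := by
  rw [← defsv_p Q μ (defc Q i j) i j, ← map_smul, defsv_E' Q μ hij hμ r, map_zero]

/-- the general argument -/
theorem lin_kill_gen [CharZero k] (hij : i ≠ j) (hμ : μ = -(Q.al i)) {c : I → k} {μ' : I → ℤ}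
    (W : Mod Q.U) (ii : (Q.V Set.univ μ).X →ₗ[Q.U.A] W.X) (pp : W.X →ₗ[Q.U.A] (Q.V Set.univ μ).X)
    (ρ0 : W.X →ₗ[k] (Q.V Set.univ μ).X) (hpi : ∀ x, pp (ii x) = 0)
    (hsurj : Function.Surjective pp) (hex : ∀ x, pp x = 0 → ∃ y, ii y = x)
    (hρi : ∀ x, ρ0 (ii x) = x)
    (hρK : ∀ j w, ρ0 ((Q.U.K j : Q.U.A) • w) = (Q.U.K j : Q.U.A) • (ρ0 w + c j • pp w))
    (a0 : W.X) (hpa : pp a0 = Q.vact Set.univ μ (Q.serA i j))
    (haE : ∀ r, Q.gE Set.univ Set.univ r • a0 = 0) (hag : a0 ∈ gwt W (ii ∘ₗ pp) c μ')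
    (N : Submodule Q.U.A (Q.V Set.univ μ).X)
    (hN : N = Submodule.span Q.U.A {Q.vact Set.univ μ (Q.serA i j)})
    (e : E ((Q.V Set.univ μ).quot N)) : lin c • e = 0 := by
  let π : (Q.V Set.univ μ).X →ₗ[Q.U.A] ((Q.V Set.univ μ).quot N).X := (Q.V Set.univ μ).quotπ N
  have hπs : Function.Surjective π := Submodule.mkQ_surjective _
  have hπ0 : ∀ x, π x = 0 ↔ x ∈ N := fun x => Submodule.Quotient.mk_eq_zero N
  -- the quotient by the image of `N`
  let S' : Submodule Q.U.A W.X := N.map ii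
  let q : W.X →ₗ[Q.U.A] (W.quot S').X := W.quotπ S'
  have hqs : Function.Surjective q := Submodule.mkQ_surjective _
  have hq0 : ∀ x, q x = 0 ↔ x ∈ S' := fun x => Submodule.Quotient.mk_eq_zero S'
  have hqk : ∀ (t : k) x, q (t • x) = t • q x := fun t x => (toK q).map_smul t x
  have hppk : ∀ (t : k) x, pp (t • x) = t • pp x := fun t x => (toK pp).map_smul t x
  have hπk : ∀ (t : k) x, π (t • x) = t • π x := fun t x => (toK π).map_smul t x
  have hpaN : pp a0 ∈ N := by rw [hN, hpa]; exact Submodule.mem_span_singleton_self _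
  have hZa : q ((ii ∘ₗ pp) a0) = 0 := by
    rw [hq0]
    exact ⟨pp a0, hpaN, rfl⟩
  have hqa : q a0 ∈ wts Q (W.quot S') μ' := by
    intro r
    have h1 := congrArg q (hag r)
    rw [map_smul, hqk, map_add, hqk, hZa, smul_zero, add_zero] at h1
    exact h1
  have hqE : ∀ r, Q.gE Set.univ Set.univ r • q a0 = 0 := by
    intro r
    rw [← map_smul, haE, map_zero]
  obtain ⟨f, hf⟩ := QD.exists_V_hom Q Set.univ hqa hqE
  have hga : Q.vact Set.univ μ (Q.serA i j) ∈ wts Q (Q.V Set.univ μ) μ' := by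
    rw [← hpa]
    intro r
    have h1 := congrArg pp (hag r)
    have h2 : pp ((ii ∘ₗ pp) a0) = 0 := hpi _
    rw [map_smul, hppk, map_add, hppk, h2, smul_zero, add_zero] at h1
    exact h1
  obtain ⟨g, hg⟩ := QD.exists_V_hom Q Set.univ hga (vact_serA_E hij hμ)
  have hginj : Function.Injective g :=
    QD.V_hom_injective Q Set.univ g hg fun y hy => Q.mul_serA_injective i j hij hy
  have hgN : ∀ x, g x ∈ N := by
    intro x
    have hx : x ∈ Submodule.span Q.U.A {Q.vv Set.univ μ'} := by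
      rw [QD.vv_span]; trivial
    obtain ⟨a, rfl⟩ := Submodule.mem_span_singleton.1 hx
    rw [map_smul, hg, hN]
    exact Submodule.smul_mem _ _ (Submodule.mem_span_singleton_self _)
  have hNg : ∀ n ∈ N, ∃ x, g x = n := by
    intro n hn
    rw [hN] at hn
    obtain ⟨a, rfl⟩ := Submodule.mem_span_singleton.1 hn
    exact ⟨a • Q.vv Set.univ μ', by rw [map_smul, hg]⟩
  -- reduction modulo `z` on the quotient
  let p1 : (W.quot S').X →ₗ[Q.U.A] (Q.V Set.univ μ).X := S'.liftQ pp (by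
    rintro x ⟨y, -, rfl⟩
    exact hpi y)
  have hp1 : ∀ w, p1 (q w) = pp w := fun w => S'.liftQ_apply pp w
  have hp1f : ∀ x, p1 (f x) = g x := by
    have h1 : p1 ∘ₗ f = g := by
      refine QD.V_hom_ext Q Set.univ ?_
      rw [LinearMap.comp_apply, hf, hp1, hpa, hg]
    intro x
    rw [← h1]
    rfl
  -- the section of the quotient map
  obtain ⟨s, hs⟩ := (toK q).exists_rightInverse_of_surjective (LinearMap.range_eq_top.2 hqs)
  have hqs' : ∀ w, q (s w) = w := fun w => LinearMap.congr_fun hs w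
  let ρ1 : (W.quot S').X →ₗ[k] ((Q.V Set.univ μ).quot N).X := toK π ∘ₗ ρ0 ∘ₗ s
  have hρ1 : ∀ w, ρ1 (q w) = π (ρ0 w) := by
    intro w
    have h1 : s (q w) - w ∈ S' := by
      rw [← hq0, map_sub, hqs', sub_self]
    obtain ⟨y, hy, h2⟩ := h1
    have h3 : s (q w) = ii y + w := by rw [h2, sub_add_cancel]
    show π (ρ0 (s (q w))) = π (ρ0 w)
    rw [h3, map_add, hρi, map_add, (hπ0 y).2 hy, zero_add]
  -- a retraction to `N`
  obtain ⟨r, hrN, hr1, hrK⟩ := (QD.V_isWt Q Set.univ μ).exists_retraction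
    (N.restrictScalars k) (fun j x hx => N.smul_mem _ hx)
  obtain ⟨gl, hgl⟩ := (toK g).exists_leftInverse_of_injective (LinearMap.ker_eq_bot.2 hginj)
  have hgl' : ∀ x, gl (g x) = x := fun x => LinearMap.congr_fun hgl x
  let R : (Q.V Set.univ μ).X →ₗ[k] (Q.V Set.univ μ').X := gl ∘ₗ r
  have hRg : ∀ x, R (g x) = x := by
    intro x
    show gl (r (g x)) = x
    rw [hr1 (g x) (hgN x), hgl']
  have hRK : ∀ j y, R ((Q.U.K j : Q.U.A) • y) = (Q.U.K j : Q.U.A) • R y := by
    intro j y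
    show gl (r ((Q.U.K j : Q.U.A) • y)) = (Q.U.K j : Q.U.A) • gl (r y)
    obtain ⟨x, hx⟩ := hNg (r y) (hrN y)
    rw [hrK, ← hx, ← map_smul, hgl', hgl']
  -- the maps
  let P : W.X →ₗ[Q.U.A] ((Q.V Set.univ μ).quot N).X := π ∘ₗ pp
  let ρ : W.X →ₗ[k] ((Q.V Set.univ μ).quot N).X :=
    toK π ∘ₗ ρ0 - ρ1 ∘ₗ toK f ∘ₗ R ∘ₗ toK pp
  have hρ : ∀ w, ρ w = π (ρ0 w) - ρ1 (f (R (pp w))) := fun w => rfl
  have hstar : ∀ w x y, q w = f x + q (ii y) → ρ w = π y := by
    intro w x y h
    have h1 : pp w = g x := by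
      rw [← hp1, h, map_add, hp1f, hp1, hpi, add_zero]
    rw [hρ, h1, hRg, ← hρ1, h, map_add, hρ1, hρi, add_sub_cancel_left]
  refine lin_kill_ext ((Q.V Set.univ μ).quot N) W P ρ ?_ ?_ c ?_ e
  · intro x y
    obtain ⟨x', rfl⟩ := hπs x
    obtain ⟨w0, rfl⟩ := hsurj x'
    obtain ⟨t, ht⟩ := hπs (y - ρ w0)
    refine ⟨w0 + ii t, ?_, ?_⟩
    · show π (pp (w0 + ii t)) = _
      rw [map_add, hpi, add_zero]
    · have h1 : ρ (ii t) = π t := hstar (ii t) 0 t (by rw [map_zero, zero_add])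
      rw [map_add, h1, ht, add_sub_cancel]
  · intro a w hw
    have h1 : pp w ∈ N := (hπ0 _).1 hw
    obtain ⟨x, hx⟩ := hNg _ h1
    obtain ⟨w', hw'⟩ := hqs (q w - f x)
    have h2 : pp w' = 0 := by
      rw [← hp1, hw', map_sub, hp1, hp1f, hx, sub_self]
    obtain ⟨y, rfl⟩ := hex w' h2
    have h3 : q w = f x + q (ii y) := by rw [hw']; abel
    rw [hstar w x y h3, hstar (a • w) (a • x) (a • y) (by
      rw [map_smul, h3, smul_add, map_smul, map_smul, map_smul]), map_smul]
  · intro l w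
    have h1 : ρ1 ((Q.U.K l : Q.U.A) • f (R (pp w))) = (Q.U.K l : Q.U.A) • ρ1 (f (R (pp w))) := by
      obtain ⟨u, hu⟩ := hqs (f (R (pp w)))
      have h2 : pp u ∈ N := by
        rw [← hp1, hu, hp1f]
        exact hgN _
      rw [← hu, ← map_smul, hρ1, hρ1, hρK, map_smul, map_add, hπk, (hπ0 _).2 h2, smul_zero,
        add_zero]
    show ρ ((Q.U.K l : Q.U.A) • w) = (Q.U.K l : Q.U.A) • (ρ w + c l • π (pp w))
    rw [hρ, hρ, hρK, map_smul π, map_add π, hπk, map_smul pp, hRK, map_smul f, h1]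
    rw [smul_add, smul_add, smul_sub]
    abel

/-- the module `M(μ)/U A v`, `μ = -α_i`, deforms in the direction `e_i + a_{ij} e_j` -/
theorem lin_kill_serA [CharZero k] (hij : i ≠ j) (hμ : μ = -(Q.al i))
    (N : Submodule Q.U.A (Q.V Set.univ μ).X)
    (hN : N = Submodule.span Q.U.A {Q.vact Set.univ μ (Q.serA i j)})
    (e : E ((Q.V Set.univ μ).quot N)) : lin (defc Q i j) • e = 0 := by
  obtain ⟨ρ0, hρi, hρK⟩ := exists_defρ Q μ (defc Q i j)
  have hses := def_ses Q μ (defc Q i j)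
  exact lin_kill_gen hij hμ (defW Q μ (defc Q i j)) (defi Q μ (defc Q i j))
    (defp Q μ (defc Q i j)) ρ0 (defp_defi Q μ _) hses.2.1 (fun x => (hses.2.2 x).1) hρi hρK
    (defsv (defZ Q μ (defc Q i j)) i j (defv Q μ (defc Q i j)))
    (defsv_p Q μ _ i j) (defsv_E' Q μ hij hμ)
    (defsv_gwt (defZ_defZ Q μ _) (defv_gwt Q μ _)) N hN e

end Y

end Pool.Agent.Lib.QG
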