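import Pool.Agent.Lib.MP_021f05_al.DefR

/-!
# MP_021f05_al (E12): the module `Y = M(-α_i)/U A v` deforms in the direction `e_i + a_{ij} e_j`
-/

noncomputable section

namespace Pool.Agent.Lib.QG

open MvPolynomial

variable {k : Type} [Field k] {I : Type} [Fintype I] [DecidableEq I] (Q : QD k I)

/-- the submodule generated by the singular vector `A v` of `M(-α_i)` -/
def QD.YN (i j : I) : Submodule Q.U.A (Q.NV i).X :=
  Submodule.span Q.U.A {Q.vact Set.univ (Q.dot i 0) (Q.serA i j)}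

/-- the module `Y` -/
def QD.Ymod (i j : I) : Mod Q.U := (Q.NV i).quot (Q.YN i j)

theorem QD.Ymod_isWt (i j : I) : IsWt Q (Q.Ymod i j) := (Q.V_isWt Set.univ _).quot _

/-- `A v` is singular -/
theorem QD.serA_singular (i j : I) (hij : i ≠ j) (l : I) :
    Q.gE Set.univ Set.univ l • Q.vact Set.univ (Q.dot i 0) (Q.serA i j) = 0 :=
  vact_serA_E hij (Q.dot_zero i) l

theorem QD.lin_kill_Y [CharZero k] (i j : I) (hij : i ≠ j) (e : E (Q.Ymod i j)) :
    lin (Pi.single i (1 : k) + (Q.a i j : k) • Pi.single j (1 : k)) • e = 0 :=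
  lin_kill_serA hij (Q.dot_zero i) (Q.YN i j) rfl e

end Pool.Agent.Lib.QG
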