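import Pool.Agent.Lib.MP_021f05_al.EVan

/-!
# MP_021f05_al (C2): degree zero, degree one, negative degrees
-/

noncomputable section

namespace Pool.Agent.Lib.QG

open MvPolynomial

variable {k : Type} [Field k] {I : Type} [Fintype I] {T' T : TAlg k I}

omit [Fintype I] in
lemma E0_gc_neg {m : ℤ} (hm : m < 0) (p : MvPolynomial I k) : gc m p = 0 :=
  gc_of_not (by omega) p

omit [Fintype I] in
lemma E0_gc_zero (p : MvPolynomial I k) : gc 0 p = C (constantCoeff p) := by
  have h := gc_even (k := k) (σ := I) 0 p
  simp only [Nat.cast_zero, mul_zero] at h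
  rw [h, homogeneousComponent_zero]
  rfl

omit [Fintype I] in
lemma E0_gc_zero_C (t : k) : gc 0 (C t : MvPolynomial I k) = C t := by
  rw [E0_gc_zero, constantCoeff_C]

omit [Fintype I] in
lemma E0_Pr_cons_neg {M : Mod T} {n : ℤ} (hn : n ≤ 0) (f : List T.A → M.coef.V) (a : T.A)
    (l : List T.A) : M.coef.Pr n f (a :: l) = 0 := by
  refine mev_ext fun x => ?_
  show gc (n - ((a :: l).length : ℕ)) (mev M (f (a :: l)) x) = 0
  refine E0_gc_neg ?_ _
  simp only [List.length_cons]
  push_cast
  have : (0 : ℤ) ≤ (l.length : ℤ) := by positivity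
  linarith

omit [Fintype I] in
lemma E0_Pr_neg {M : Mod T} {n : ℤ} (hn : n < 0) (f : List T.A → M.coef.V) :
    M.coef.Pr n f = 0 := by
  funext l
  refine mev_ext fun x => ?_
  show gc (n - (l.length : ℕ)) (mev M (f l) x) = 0
  refine E0_gc_neg ?_ _
  have : (0 : ℤ) ≤ (l.length : ℤ) := by positivity
  linarith

theorem EVan_neg (M : Mod T) {n : ℤ} (hn : n < 0) : EVan M n := by
  intro e he
  obtain ⟨z, rfl⟩ := M.coef.cls_surj e
  rw [Coef.mem_Deg, Coef.pr_cls] at he
  rw [← he]
  have h : M.coef.prZ n z = 0 := Subtype.ext (E0_Pr_neg hn z.1)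
  rw [h, map_zero]

omit [Fintype I] in
lemma E0_Pr_unit : (triv T).coef.Pr 0 (unitF T) = unitF T := by
  funext l
  cases l with
  | nil =>
    refine mev_ext fun x => ?_
    show gc (0 - (([] : List T.A).length : ℕ)) (mev (triv T) (unitF T []) x) = _
    rw [unitF_nil]
    simpa using E0_gc_zero_C (I := I) (tv x)
  | cons a l =>
    rw [E0_Pr_cons_neg le_rfl]
    rfl

theorem one_mem_Deg : one T ∈ EDeg (triv T) 0 := by
  rw [Coef.mem_Deg]
  show (triv T).coef.pr 0 ((triv T).coef.cls _) = _
  rw [Coef.pr_cls]
  exact congrArg _ (Subtype.ext E0_Pr_unit)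

/-- values of the differential in low degrees -/
lemma E0_D_nil (V : Coef T) (f : List T.A → V.V) :
    V.D f [] = ∑ i, (X i : MvPolynomial I k) • V.κ i (f [(T.K i : T.A)]) := by
  show (0 : V.V) + _ = _
  rw [zero_add]
  rfl

lemma E0_D_one (V : Coef T) (f : List T.A → V.V) (a : T.A)
    (h : ∀ x y : T.A, f [x, y] = 0) :
    V.D f [a] = T.ε a • f [] - V.r a (f []) := by
  have h1 : ∀ i, V.h i f [a] = 0 := by
    intro i
    show V.κ i (f [(T.K i : T.A), T.adi i a]) - V.κ i (f [a, (T.K i : T.A)]) = 0
    rw [h, h, map_zero, sub_zero]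
  show (T.ε a • f [] + (- V.r a (f []) - 0)) + ∑ i, (X i : MvPolynomial I k) • V.h i f [a] = _
  simp only [h1, smul_zero, Finset.sum_const_zero, add_zero, sub_zero]
  rw [← sub_eq_add_neg]

lemma E0_D_two (V : Coef T) (f : List T.A → V.V) (a b : T.A)
    (h : ∀ x y z : T.A, f [x, y, z] = 0) :
    V.D f [a, b] = T.ε a • f [b] - f [a * b] + V.r b (f [a]) := by
  have h1 : ∀ i, V.h i f [a, b] = 0 := by
    intro i
    show V.κ i (f [(T.K i : T.A), T.adi i a, T.adi i b])
      - (V.κ i (f [a, (T.K i : T.A), T.adi i b]) - V.κ i (f [a, b, (T.K i : T.A)])) = 0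
    rw [h, h, h, map_zero, sub_zero, sub_zero]
  show (T.ε a • f [b] + (- f [a * b] - (- V.r b (f [a]) - 0)))
    + ∑ i, (X i : MvPolynomial I k) • V.h i f [a, b] = _
  simp only [h1, smul_zero, Finset.sum_const_zero, add_zero, sub_zero]
  abel

/-- `E⁰(M)` consists of the `A`-linear maps to the trivial module -/
theorem E0_exists (M : Mod T) {e : E M} (he : e ∈ EDeg M 0) :
    ∃ f : M.X →ₗ[T.A] (triv T).X, e = Emap f (one T) := by
  obtain ⟨z', rfl⟩ := M.coef.cls_surj e
  rw [Coef.mem_Deg, Coef.pr_cls] at he
  set z := M.coef.prZ 0 z' with hz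
  have hzc : ∀ a l, z.1 (a :: l) = 0 := fun a l => E0_Pr_cons_neg le_rfl z'.1 a l
  have hz0 : ∀ x, mev M (z.1 []) x = C (constantCoeff (mev M (z'.1 []) x)) := by
    intro x
    show gc (0 - (([] : List T.A).length : ℕ)) (mev M (z'.1 []) x) = _
    simpa using E0_gc_zero (mev M (z'.1 []) x)
  have hD := congrFun (M.coef.mem_Z.1 z.2).2
  have hlin : ∀ (a : T.A) (x : M.X), mev M (z.1 []) (a • x) = T.ε a • mev M (z.1 []) x := by
    intro a x
    have h1 := hD [a]
    rw [E0_D_one _ _ _ (fun x y => hzc x [y])] at h1
    have h2 := congrArg (fun v => mev M v x) h1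
    simp only [mev_sub, mev_smulk, mev_r, Pi.zero_apply, mev_zero] at h2
    exact (sub_eq_zero.1 h2).symm
  have hcc : ∀ x, constantCoeff (mev M (z.1 []) x) = constantCoeff (mev M (z'.1 []) x) := by
    intro x
    rw [hz0, constantCoeff_C]
  refine ⟨{ toFun := fun x => vt T (constantCoeff (mev M (z.1 []) x))
            map_add' := fun x y => by
              rw [map_add, map_add]
              rfl
            map_smul' := fun a x => by
              rw [hlin, triv_smul, tv_vt, constantCoeff_smul]
              rfl }, ?_⟩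
  rw [← he]
  show M.coef.cls z = M.coef.cls _
  refine congrArg _ (Subtype.ext ?_)
  funext l
  cases l with
  | nil =>
    refine mev_ext fun x => ?_
    show mev M (z.1 []) x = mev (triv T) (unitF T []) (vt T (constantCoeff (mev M (z.1 []) x)))
    rw [unitF_nil, tv_vt, hcc, hz0]
  | cons a l =>
    rw [hzc]
    rfl

theorem E0_inj (M : Mod T) {f : M.X →ₗ[T.A] (triv T).X} (h : Emap f (one T) = 0) : f = 0 := by
  obtain ⟨g, hg, hgD⟩ := M.coef.cls_eq_zero.1 h
  have h1 := congrArg (M.coef.Pr 0) hgD
  have h2 : M.coef.Pr 0 (M.coef.D g) = 0 := by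
    have := M.coef.Pr_D (-1) g
    rw [E0_Pr_neg (by norm_num)] at this
    have h3 : (-1 + 1 : ℤ) = 0 := by norm_num
    rw [h3] at this
    rw [← this, ← Coef.Dl_apply, map_zero]
  rw [h2] at h1
  ext x
  have h4 := congrFun h1 []
  have h5 : mev M (0 : M.coef.V) x = gc (0 - (([] : List T.A).length : ℕ))
      (mev (triv T) (unitF T []) (f x)) := congrArg (fun v => mev M v x) h4
  rw [unitF_nil, mev_zero] at h5
  have h6 : (0 : MvPolynomial I k) = C (tv (f x)) := by
    rw [← E0_gc_zero_C (I := I) (tv (f x))]
    simpa using h5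
  have h7 : tv (f x) = 0 := by
    have := congrArg constantCoeff h6
    rw [map_zero, constantCoeff_C] at this
    exact this.symm
  exact h7

theorem one_ne_zero' : one T ≠ 0 := by
  intro h
  have h1 := E0_inj (triv T) (f := LinearMap.id) (by rw [Emap_id, h])
  have h2 := LinearMap.congr_fun h1 (vt T 1)
  have h3 : tv (vt T 1) = tv (T := T) 0 := congrArg tv h2
  exact one_ne_zero (α := k) h3

/-- the identification of the restriction of the trivial module -/
def trivRes (φ : THom T' T) : (triv T').X →ₗ[T'.A] ((triv T).res φ).X where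
  toFun x := vt T (tv x)
  map_add' x y := rfl
  map_smul' a x := by
    show vt T (T'.ε a * tv x) = (φ.f a • (vt T (tv x) : (triv T).X) : (triv T).X)
    rw [triv_smul, φ.f_ε]
    rfl

omit [Fintype I] in
theorem trivRes_bijective (φ : THom T' T) : Function.Bijective (trivRes φ) :=
  ⟨fun _ _ h => h, fun x => ⟨x, rfl⟩⟩

/-- restriction preserves the unit class -/
theorem Eres_one (φ : THom T' T) : Emap (trivRes φ) (Eres φ (triv T) (one T)) = one T' := by
  show (triv T').coef.cls _ = (triv T').coef.cls _
  refine congrArg _ (Subtype.ext ?_)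
  funext l
  cases l with
  | nil => rfl
  | cons a l => rfl

lemma E0_gc_lin (c : I → k) (t : k) :
    gc 2 ((∑ i, C (c i) * X i : MvPolynomial I k) * C t) = (∑ i, C (c i) * X i) * C t := by
  rw [Finset.sum_mul, map_sum]
  refine Finset.sum_congr rfl fun i _ => ?_
  have h1 : (C (c i) * X i * C t : MvPolynomial I k) = X i * C (c i * t) := by
    rw [C_mul]; ring
  rw [h1]
  have h2 := gc_X_mul (k := k) 0 i (C (c i * t))
  rw [zero_add, E0_gc_zero_C] at h2
  exact h2

/-- `x_c · 1 = 0` is detected by derivations -/
theorem lin_one_eq_zero_iff (c : I → k) :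
    (∑ i, C (c i) * X i : MvPolynomial I k) • one T = 0 ↔
      ∃ δ : T.A →ₗ[k] k, (∀ a b, δ (a * b) = T.ε a * δ b + δ a * T.ε b) ∧
        ∀ i, δ (T.K i : T.A) = c i := by
  classical
  set p : MvPolynomial I k := ∑ i, C (c i) * X i with hp
  have hone : p • one T = (triv T).coef.cls (p • ⟨unitF T, (triv T).coef.mem_Z.2
      ⟨unitF_mem, unitF_D⟩⟩) := by
    rw [map_smul]
    rfl
  rw [hone, Coef.cls_eq_zero]
  constructor
  · rintro ⟨g', hg', hgD'⟩
    set g := (triv T).coef.Pr 1 g' with hgdef
    have hg : g ∈ (triv T).coef.Coc := (triv T).coef.Pr_mem hg' 1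
    have hgD : (triv T).coef.D g = p • unitF T := by
      have h1 := (triv T).coef.Pr_D 1 g'
      rw [← hgdef] at h1
      rw [h1, hgD']
      funext l
      cases l with
      | nil =>
        refine mev_ext fun x => ?_
        show gc (1 + 1 - (([] : List T.A).length : ℕ)) (p * mev (triv T) (unitF T []) x)
          = p * mev (triv T) (unitF T []) x
        rw [unitF_nil]
        simpa [hp] using E0_gc_lin c (tv x)
      | cons a l =>
        show (triv T).coef.π _ (p • (0 : (triv T).coef.V)) = p • (0 : (triv T).coef.V)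
        rw [smul_zero, map_zero]
    have hg2 : ∀ a b l, g (a :: b :: l) = 0 := by
      intro a b l
      refine mev_ext fun x => ?_
      show gc (1 - ((a :: b :: l).length : ℕ)) (mev (triv T) (g' (a :: b :: l)) x) = 0
      refine E0_gc_neg ?_ _
      simp only [List.length_cons]
      push_cast
      have : (0 : ℤ) ≤ (l.length : ℤ) := by positivity
      linarith
    have hg1 : ∀ a x, mev (triv T) (g [a]) x
        = C (constantCoeff (mev (triv T) (g [a]) x)) := by
      intro a x
      have h1 : mev (triv T) (g [a]) x = gc 0 (mev (triv T) (g' [a]) x) := by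
        show gc (1 - (([a] : List T.A).length : ℕ)) (mev (triv T) (g' [a]) x) = _
        simp
      rw [h1, E0_gc_zero, constantCoeff_C]
    let δ : T.A →ₗ[k] k :=
      { toFun := fun a => constantCoeff (mev (triv T) (g [a]) (vt T 1))
        map_add' := fun a b => by
          have := hg.1.1 [] [] a b
          simp only [List.nil_append] at this
          rw [this, mev_add, map_add]
        map_smul' := fun t a => by
          have := hg.1.2 [] [] t a
          simp only [List.nil_append] at this
          rw [this, mev_smulk, constantCoeff_smul]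
          rfl }
    refine ⟨δ, ?_, ?_⟩
    · intro a b
      have h1 := congrFun hgD [a, b]
      rw [E0_D_two _ _ _ _ (fun x y z => hg2 x y [z])] at h1
      have h2 := congrArg (fun v => constantCoeff (mev (triv T) v (vt T 1))) h1
      simp only [mev_sub, mev_add, mev_smulk, mev_r] at h2
      have h3 : mev (triv T) (g [a]) (b • vt T 1) = T.ε b • mev (triv T) (g [a]) (vt T 1) := by
        have : (b • vt T 1 : (triv T).X) = T.ε b • vt T 1 := by
          rw [triv_smul]
          rfl
        rw [this]
        exact map_smul (mev (triv T) (g [a])) _ _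
      have h4 : mev (triv T) ((p • unitF T) [a, b]) (vt T 1) = 0 := by
        show p * (0 : MvPolynomial I k) = 0
        rw [mul_zero]
      rw [h3, h4] at h2
      simp only [map_add, map_sub, constantCoeff_smul, smul_eq_mul, map_zero] at h2
      show constantCoeff (mev (triv T) (g [a * b]) (vt T 1))
        = T.ε a * constantCoeff (mev (triv T) (g [b]) (vt T 1))
          + constantCoeff (mev (triv T) (g [a]) (vt T 1)) * T.ε b
      linear_combination -h2
    · intro i
      have h1 := congrFun hgD []
      rw [E0_D_nil] at h1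
      have h2 := congrArg (fun v => mev (triv T) v (vt T 1)) h1
      have h3 : ∀ s : Finset I, mev (triv T) (∑ j ∈ s, (X j : MvPolynomial I k) •
          (triv T).coef.κ j (g [(T.K j : T.A)])) (vt T 1)
          = ∑ j ∈ s, (X j : MvPolynomial I k) * C (δ (T.K j : T.A)) := by
        intro s
        induction s using Finset.induction_on with
        | empty => simp
        | insert j s hj ih =>
          rw [Finset.sum_insert hj, Finset.sum_insert hj, mev_add, ih, mev_smul, mev_κ]
          congr 2
          rw [triv_smul, ε_Kinv, one_mul, tv_vt]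
          exact hg1 _ _
      have h4 : mev (triv T) ((p • unitF T) []) (vt T 1) = p := by
        show p * mev (triv T) (unitF T []) (vt T 1) = p
        rw [unitF_nil, tv_vt, map_one, mul_one]
      have h5 : ∑ j, (X j : MvPolynomial I k) * C (δ (T.K j : T.A)) = p := by
        rw [← h3 Finset.univ, ← h4]
        exact h2
      have h6 := congrArg (coeff (Finsupp.single i 1)) h5
      have h7 : ∀ (f : I → k), coeff (Finsupp.single i 1)
          (∑ j, (X j : MvPolynomial I k) * C (f j)) = f i := by
        intro f
        rw [coeff_sum, Finset.sum_eq_single i]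
        · rw [mul_comm, coeff_C_mul, coeff_X, if_pos rfl, mul_one]
        · intro j _ hj
          rw [mul_comm, coeff_C_mul, coeff_X, if_neg, mul_zero]
          intro hcon
          exact hj (Finsupp.single_left_injective one_ne_zero hcon)
        · intro h
          exact absurd (Finset.mem_univ _) h
      rw [h7, hp] at h6
      have h8 : (∑ j, C (c j) * X j : MvPolynomial I k) = ∑ j, X j * C (c j) :=
        Finset.sum_congr rfl fun j _ => mul_comm _ _
      rw [h8, h7] at h6
      exact h6
  · rintro ⟨δ, hδ, hδK⟩
    have hδ1 : δ 1 = 0 := by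
      have := hδ 1 1
      rw [mul_one, show T.ε 1 = 1 from map_one _, one_mul, mul_one] at this
      linear_combination -this
    have hδinv : ∀ i, δ (T.K i : T.A) + δ (((T.K i)⁻¹ : T.Aˣ) : T.A) = 0 := by
      intro i
      have := hδ (((T.K i)⁻¹ : T.Aˣ) : T.A) (T.K i : T.A)
      rw [Units.inv_mul, hδ1, ε_Kinv, T.ε_K] at this
      linear_combination -this
    have hδadi : ∀ i a, δ (T.adi i a) = δ a := by
      intro i a
      show δ ((((T.K i)⁻¹ : T.Aˣ) : T.A) * a * (T.K i : T.A)) = δ a
      rw [hδ, hδ, T.ε_K, map_mul, ε_Kinv]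
      linear_combination T.ε a * hδinv i
    let gv : T.A → (triv T).coef.V := fun a => mkM (triv T)
      ({ toFun := fun x => C (δ a * tv x)
         map_add' := fun x y => by
           have : tv (x + y) = tv x + tv y := rfl
           rw [this, mul_add, C_add]
         map_smul' := fun t x => by
           have : tv (t • x) = t * tv x := rfl
           rw [this, RingHom.id_apply, smul_eq_C_mul, ← C_mul]
           congr 1
           ring } : (triv T).X →ₗ[k] MvPolynomial I k)
    have hgv : ∀ a x, mev (triv T) (gv a) x = C (δ a * tv x) := fun a x => rfl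
    obtain ⟨g, g0, g1, g2⟩ : ∃ g : List T.A → (triv T).coef.V, g [] = 0 ∧
        (∀ a, g [a] = gv a) ∧ ∀ a b l, g (a :: b :: l) = 0 :=
      ⟨fun l => match l with
        | [] => 0
        | [a] => gv a
        | _ :: _ :: _ => 0, rfl, fun a => rfl, fun a b l => rfl⟩
    have hgmem : g ∈ (triv T).coef.Coc := by
      refine ⟨⟨fun l₁ l₂ a b => ?_, fun l₁ l₂ t a => ?_⟩, fun i => ?_⟩
      · rcases l₁ with _ | ⟨x, l₁⟩
        · rcases l₂ with _ | ⟨y, l₂⟩
          · simp only [List.nil_append, g1]
            refine mev_ext fun x => ?_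
            rw [mev_add, hgv, hgv, hgv, map_add, add_mul, C_add]
          · simp only [List.nil_append, g2, add_zero]
        · rcases l₁ with _ | ⟨y, l₁⟩
          · simp only [List.cons_append, List.nil_append, g2, add_zero]
          · simp only [List.cons_append, g2, add_zero]
      · rcases l₁ with _ | ⟨x, l₁⟩
        · rcases l₂ with _ | ⟨y, l₂⟩
          · simp only [List.nil_append, g1]
            refine mev_ext fun x => ?_
            rw [mev_smulk, hgv, hgv, map_smul, smul_eq_mul, smul_eq_C_mul, ← C_mul, mul_assoc]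
          · simp only [List.nil_append, g2, smul_zero]
        · rcases l₁ with _ | ⟨y, l₁⟩
          · simp only [List.cons_append, List.nil_append, g2, smul_zero]
          · simp only [List.cons_append, g2, smul_zero]
      · funext l
        rcases l with _ | ⟨a, _ | ⟨b, l⟩⟩
        · show (triv T).coef.κ i (g []) = g []
          rw [g0, map_zero]
        · show (triv T).coef.κ i (g [T.adi i a]) = g [a]
          refine mev_ext fun x => ?_
          rw [mev_κ, g1, g1, hgv, hgv, hδadi, triv_smul, ε_Kinv, one_mul, vt_tv]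
        · show (triv T).coef.κ i (g (T.adi i a :: T.adi i b :: l.map (T.adi i))) = g (a :: b :: l)
          rw [g2, g2, map_zero]
    refine ⟨g, hgmem, ?_⟩
    have hdd0 : ∀ l : List T.A, (triv T).coef.dd l (0 : List T.A → (triv T).coef.V) = 0 := by
      intro l
      have := (triv T).coef.dd_smul l 0 0
      simpa using this
    have hhh0 : ∀ i, ∀ l : List T.A, (triv T).coef.hh i l
        (0 : List T.A → (triv T).coef.V) = 0 := by
      intro i l
      have := (triv T).coef.hh_smul i l 0 0
      simpa using this
    have htl0 : ∀ a b : T.A, (triv T).coef.tl ((triv T).coef.tl g a) b = 0 := by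
      intro a b
      funext l
      exact g2 a b l
    have htl1 : ∀ a b l, (triv T).coef.tl g a (b :: l) = 0 := fun a b l => g2 a b l
    funext l
    rcases l with _ | ⟨a, _ | ⟨b, _ | ⟨d, l⟩⟩⟩
    · rw [E0_D_nil]
      refine mev_ext fun x => ?_
      have h3 : ∀ s : Finset I, mev (triv T) (∑ j ∈ s, (X j : MvPolynomial I k) •
          (triv T).coef.κ j (g [(T.K j : T.A)])) x
          = ∑ j ∈ s, C (c j) * X j * C (tv x) := by
        intro s
        induction s using Finset.induction_on with
        | empty => simp
        | insert j s hj ih =>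
          rw [Finset.sum_insert hj, Finset.sum_insert hj, mev_add, ih, mev_smul, mev_κ, g1, hgv,
            triv_smul, ε_Kinv, one_mul, vt_tv, hδK, C_mul]
          congr 1
          ring
      rw [h3]
      show _ = p * mev (triv T) (unitF T []) x
      rw [unitF_nil, hp, Finset.sum_mul]
    · rw [E0_D_one _ _ _ (fun x y => g2 x y []), g0, map_zero, smul_zero, sub_zero]
      show (0 : (triv T).coef.V) = p • (0 : (triv T).coef.V)
      rw [smul_zero]
    · rw [E0_D_two _ _ _ _ (fun x y z => g2 x y [z]), g1, g1, g1]
      show _ = p • (0 : (triv T).coef.V)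
      rw [smul_zero]
      refine mev_ext fun x => ?_
      rw [mev_add, mev_sub, mev_smulk, mev_r, hgv, hgv, hgv, triv_smul, tv_vt, hδ, mev_zero,
        smul_eq_C_mul, ← C_mul, ← C_sub, ← C_add]
      have : T.ε a * (δ b * tv x) - (T.ε a * δ b + δ a * T.ε b) * tv x
          + δ a * (T.ε b * tv x) = 0 := by ring
      rw [this, C_0]
    · have hb : (triv T).coef.b g (a :: b :: d :: l) = 0 := by
        show T.ε a • g (b :: d :: l) + (- g ((a * b) :: d :: l)
          - (- (triv T).coef.tl g a ((b * d) :: l)
            - (triv T).coef.dd (d :: l) ((triv T).coef.tl ((triv T).coef.tl g a) b))) = 0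
        rw [htl0, hdd0, g2, g2, htl1]
        simp
      have hh' : ∀ i, (triv T).coef.h i g (a :: b :: d :: l) = 0 := by
        intro i
        show (triv T).coef.κ i (g ((T.K i : T.A) :: T.adi i a :: (b :: d :: l).map (T.adi i)))
          - ((triv T).coef.κ i ((triv T).coef.tl g a ((T.K i : T.A) :: (b :: d :: l).map
              (T.adi i)))
            - (triv T).coef.hh i (d :: l) ((triv T).coef.tl ((triv T).coef.tl g a) b)) = 0
        rw [htl0, hhh0, g2, htl1]
        simp
      show (triv T).coef.b g (a :: b :: d :: l)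
        + ∑ i, (X i : MvPolynomial I k) • (triv T).coef.h i g (a :: b :: d :: l)
        = p • (0 : (triv T).coef.V)
      simp only [hb, hh', smul_zero, Finset.sum_const_zero, add_zero]

theorem lin_mem_Deg {M : Mod T} (c : I → k) {n : ℤ} {e : E M} (he : e ∈ EDeg M n) :
    (∑ i, C (c i) * X i : MvPolynomial I k) • e ∈ EDeg M (n + 2) := by
  rw [Finset.sum_smul]
  refine Submodule.sum_mem _ fun i _ => ?_
  rw [mul_smul]
  have h1 : (C (c i) : MvPolynomial I k) • ((X i : MvPolynomial I k) • e)
      = c i • ((X i : MvPolynomial I k) • e) := by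
    rw [← algebraMap_eq, algebraMap_smul]
  rw [h1]
  exact Submodule.smul_mem _ _ (M.coef.X_mem_Deg i he)

lemma E0_hc_mem {M : Mod T} (p : MvPolynomial I k) {n : ℤ} {e : E M} (he : e ∈ EDeg M n) :
    ∀ d : ℕ, homogeneousComponent d p • e ∈ EDeg M (n + 2 * d) := by
  induction p using MvPolynomial.induction_on with
  | C a =>
    intro d
    rcases Nat.eq_zero_or_pos d with rfl | hd
    · rw [homogeneousComponent_zero, coeff_zero_C]
      have h1 : (C a : MvPolynomial I k) • e = a • e := by
        rw [← algebraMap_eq, algebraMap_smul]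
      rw [h1, Nat.cast_zero, mul_zero, add_zero]
      exact Submodule.smul_mem _ _ he
    · have : homogeneousComponent d (C a : MvPolynomial I k) = 0 :=
        homogeneousComponent_eq_zero _ _ (by rw [totalDegree_C]; exact hd)
      rw [this, zero_smul]
      exact Submodule.zero_mem _
  | add p q hp hq =>
    intro d
    rw [map_add, add_smul]
    exact Submodule.add_mem _ (hp d) (hq d)
  | mul_X p i hp =>
    intro d
    rw [mul_comm p (X i)]
    rcases d with _ | d
    · rw [hc_zero_X_mul, zero_smul]
      exact Submodule.zero_mem _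
    · rw [hc_X_mul, mul_smul]
      have h1 := M.coef.X_mem_Deg i (hp d)
      have h2 : n + 2 * ((d + 1 : ℕ) : ℤ) = n + 2 * d + 2 := by push_cast; ring
      rw [h2]
      exact h1

theorem homog_mem_Deg {M : Mod T} {p : MvPolynomial I k} {d : ℕ} (hp : p.IsHomogeneous d)
    {n : ℤ} {e : E M} (he : e ∈ EDeg M n) : p • e ∈ EDeg M (n + 2 * d) := by
  have h1 : homogeneousComponent d p = p := by
    rw [homogeneousComponent_of_mem hp, if_pos rfl]
  have h2 := E0_hc_mem p he d
  rwa [h1] at h2

/-- homogeneous components of an annihilator -/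
theorem homog_component_smul_eq_zero {M : Mod T} {p : MvPolynomial I k} {n : ℤ} {e : E M}
    (he : e ∈ EDeg M n) (h : p • e = 0) (d : ℕ) : homogeneousComponent d p • e = 0 := by
  by_cases hd : d ≤ p.totalDegree
  · have h1 : ∑ j ∈ Finset.range (p.totalDegree + 1), homogeneousComponent j p • e = 0 := by
      rw [← Finset.sum_smul, sum_homogeneousComponent, h]
    have h2 := congrArg (M.coef.pr (n + 2 * d)) h1
    rw [map_zero, map_sum, Finset.sum_eq_single d] at h2
    · have h3 := E0_hc_mem p he d
      rw [Coef.mem_Deg] at h3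
      rw [← h3]
      exact h2
    · intro j _ hj
      have h3 := E0_hc_mem p he j
      rw [Coef.mem_Deg] at h3
      rw [← h3]
      refine M.coef.pr_ne ?_ _
      intro hcon
      apply hj
      have : (d : ℤ) = j := by linarith
      exact_mod_cast this.symm
    · intro hcon
      exact absurd (Finset.mem_range.2 (Nat.lt_succ_of_le hd)) hcon
  · rw [homogeneousComponent_eq_zero _ _ (not_le.1 hd), zero_smul]

end Pool.Agent.Lib.QG
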