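import Pool.Agent.Lib.MP_021f05_al.Alg
import Pool.Agent.Lib.MP_021f05_al.E0

/-!
# MP_021f05_al (C3): which linear forms kill the unit class
-/

noncomputable section

namespace Pool.Agent.Lib.QG

open MvPolynomial

variable {k : Type} [Field k] [CharZero k] {I : Type} [Fintype I] [DecidableEq I] {Q : QD k I}
  {Jp Jm : Set I}

/-- the linear form `x_c = ∑ c_i x_i` -/
def lin (c : I → k) : MvPolynomial I k := ∑ i, C (c i) * X i

omit [CharZero k] [Fintype I] [DecidableEq I] in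
theorem DerivQ_dual (a b : k) (h : a + b = 0) :
    ((1 : DualNumber k) + TrivSqZeroExt.inr a) * (1 + TrivSqZeroExt.inr b) = 1 := by
  apply TrivSqZeroExt.ext
  · simp
  · simp [add_comm b a, h]

/-- the generators acting on dual numbers -/
def dualElts (c : I → k) (hc : ∀ i, i ∈ Jp → i ∈ Jm → c i = 0) :
    QElts Q Jp Jm (DualNumber k) where
  E _ := 0
  F _ := 0
  K i := 1 + TrivSqZeroExt.inr (c i)
  L i := 1 + TrivSqZeroExt.inr (- c i)
  KL i := DerivQ_dual _ _ (add_neg_cancel _)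
  LK i := DerivQ_dual _ _ (neg_add_cancel _)
  KK i j := mul_comm _ _
  KE i j := by simp
  KF i j := by simp
  EF i j hi hj := by
    rw [mul_zero, zero_add]
    split_ifs with h
    · subst h
      rw [hc i hi hj, neg_zero, sub_self, smul_zero]
    · rfl
  E0 _ _ := rfl
  F0 _ _ := rfl
  SE _ _ _ _ _ := by simp [serre]
  SF _ _ _ _ _ := by simp [serre]

omit [CharZero k] in
theorem DerivQ_qi (i : I) : Q.qi i - (Q.qi i)⁻¹ ≠ 0 := by
  have hp : Q.qi i ≠ 0 := pow_ne_zero _ Q.q_ne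
  intro h
  have h1 : Q.qi i = (Q.qi i)⁻¹ := sub_eq_zero.1 h
  have h2 : Q.qi i ^ 2 = 1 := by
    rw [pow_two]
    nth_rewrite 2 [h1]
    exact mul_inv_cancel₀ hp
  have h3 : Q.q ^ (Q.d i * 2) = 1 := by
    rw [pow_mul]
    exact h2
  exact Q.q_root _ (Nat.mul_pos (Q.d_pos i) (by norm_num)) h3

theorem lin_smul_one_eq_zero_iff (c : I → k) :
    lin c • one (Q.T Jp Jm) = 0 ↔ ∀ i, i ∈ Jp → i ∈ Jm → c i = 0 := by
  unfold lin
  rw [lin_one_eq_zero_iff]
  constructor
  · rintro ⟨δ, hδ, hK⟩ i hp hm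
    have hE : (Q.T Jp Jm).ε ((QA.elts Q Jp Jm).E i) = 0 := (QElts.eps Q Jp Jm).lift_E i
    have hF : (Q.T Jp Jm).ε ((QA.elts Q Jp Jm).F i) = 0 := (QElts.eps Q Jp Jm).lift_F i
    have hK1 : (Q.T Jp Jm).ε ((QA.elts Q Jp Jm).K i) = 1 := (QElts.eps Q Jp Jm).lift_K i
    have hL1 : (Q.T Jp Jm).ε ((QA.elts Q Jp Jm).L i) = 1 := (QElts.eps Q Jp Jm).lift_L i
    have h1 : δ (1 : (Q.T Jp Jm).A) = 0 := by
      have h := hδ 1 1
      have h' : (Q.T Jp Jm).ε 1 = 1 := map_one _
      rw [mul_one, h', one_mul, mul_one] at h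
      exact left_eq_add.1 h
    have hKi : δ ((QA.elts Q Jp Jm).K i) = c i := hK i
    have h2 : δ ((QA.elts Q Jp Jm).L i) = - c i := by
      have h3 := hδ ((QA.elts Q Jp Jm).K i) ((QA.elts Q Jp Jm).L i)
      rw [hK1, hL1, hKi, one_mul, mul_one] at h3
      have h4 : δ (((QA.elts Q Jp Jm).K i) * ((QA.elts Q Jp Jm).L i)) = 0 := by
        rw [(QA.elts Q Jp Jm).KL i]
        exact h1
      have h5 : δ ((QA.elts Q Jp Jm).L i) + c i = 0 := h3.symm.trans h4
      exact eq_neg_of_add_eq_zero_left h5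
    have h6 : δ (((QA.elts Q Jp Jm).E i) * ((QA.elts Q Jp Jm).F i)) = 0 := by
      have h3 := hδ ((QA.elts Q Jp Jm).E i) ((QA.elts Q Jp Jm).F i)
      rw [hE, hF, zero_mul, mul_zero, add_zero] at h3
      exact h3
    have h7 : δ (((QA.elts Q Jp Jm).F i) * ((QA.elts Q Jp Jm).E i)) = 0 := by
      have h3 := hδ ((QA.elts Q Jp Jm).F i) ((QA.elts Q Jp Jm).E i)
      rw [hE, hF, zero_mul, mul_zero, add_zero] at h3
      exact h3
    have h8 := (QA.elts Q Jp Jm).EF i i hp hm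
    rw [if_pos rfl] at h8
    rw [h8] at h6
    have h9 : δ (((QA.elts Q Jp Jm).F i) * ((QA.elts Q Jp Jm).E i)) +
        (Q.qi i - (Q.qi i)⁻¹)⁻¹ • (δ ((QA.elts Q Jp Jm).K i) - δ ((QA.elts Q Jp Jm).L i)) = 0 := by
      have h10 : δ (((QA.elts Q Jp Jm).F i) * ((QA.elts Q Jp Jm).E i) +
          (Q.qi i - (Q.qi i)⁻¹)⁻¹ • ((QA.elts Q Jp Jm).K i - (QA.elts Q Jp Jm).L i)) =
          δ (((QA.elts Q Jp Jm).F i) * ((QA.elts Q Jp Jm).E i)) +
        (Q.qi i - (Q.qi i)⁻¹)⁻¹ • (δ ((QA.elts Q Jp Jm).K i) - δ ((QA.elts Q Jp Jm).L i)) := by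
        refine (δ.map_add _ _).trans ?_
        congr 1
        refine (δ.map_smul _ _).trans ?_
        congr 1
        exact δ.map_sub _ _
      exact h10.symm.trans h6
    rw [h7, zero_add, hKi, h2, sub_neg_eq_add, smul_eq_mul] at h9
    have h11 : c i + c i = 0 :=
      (mul_eq_zero.1 h9).resolve_left (inv_ne_zero (DerivQ_qi i))
    rw [← two_mul] at h11
    exact (mul_eq_zero.1 h11).resolve_left two_ne_zero
  · intro hc
    have hfst : ∀ a : (Q.T Jp Jm).A,
        TrivSqZeroExt.fst ((dualElts (Q := Q) c hc).lift a) = (Q.T Jp Jm).ε a := by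
      have : (TrivSqZeroExt.fstHom k k k).comp (dualElts (Q := Q) c hc).lift =
          (QElts.eps Q Jp Jm).lift := by
        apply QA.hom_ext
        · intro i
          rw [AlgHom.comp_apply, QElts.lift_E, QElts.lift_E]
          rfl
        · intro i
          rw [AlgHom.comp_apply, QElts.lift_F, QElts.lift_F]
          rfl
        · intro i
          rw [AlgHom.comp_apply, QElts.lift_K, QElts.lift_K]
          show TrivSqZeroExt.fst (1 + TrivSqZeroExt.inr (c i) : DualNumber k) = 1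
          simp
      intro a
      exact congrArg (fun f : QA Q Jp Jm →ₐ[k] k => f a) this
    refine ⟨(TrivSqZeroExt.sndHom k k : DualNumber k →ₗ[k] k) ∘ₗ
      ((dualElts (Q := Q) c hc).lift : QA Q Jp Jm →ₐ[k] DualNumber k).toLinearMap, ?_, ?_⟩
    · intro a b
      show TrivSqZeroExt.snd ((dualElts (Q := Q) c hc).lift (a * b)) =
        (Q.T Jp Jm).ε a * TrivSqZeroExt.snd ((dualElts (Q := Q) c hc).lift b) +
        TrivSqZeroExt.snd ((dualElts (Q := Q) c hc).lift a) * (Q.T Jp Jm).ε b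
      rw [← hfst a, ← hfst b]
      have h := ((dualElts (Q := Q) c hc).lift).map_mul a b
      have h' : TrivSqZeroExt.snd ((dualElts (Q := Q) c hc).lift (a * b)) = _ :=
        congrArg TrivSqZeroExt.snd h
      rw [h', TrivSqZeroExt.snd_mul]
      simp [mul_comm]
    · intro i
      show TrivSqZeroExt.snd ((dualElts (Q := Q) c hc).lift ((QA.elts Q Jp Jm).K i)) = c i
      rw [QElts.lift_K]
      show TrivSqZeroExt.snd (1 + TrivSqZeroExt.inr (c i) : DualNumber k) = c i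
      simp

end Pool.Agent.Lib.QG
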