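import Pool.Agent.Lib.MP_021f05_al.HDef
import Pool.Agent.Lib.MP_021f05_al.Rep

/-!
# MP_021f05_al: the functor `E`
-/

noncomputable section

namespace Pool.Agent.Lib.QG

open MvPolynomial

variable {k : Type} [Field k] {I : Type} {T : TAlg k I}

/-! ### graded modules -/

/-- morphisms of graded modules -/
structure RepHom (M' M : Rep T) where
  f : M'.X →ₗ[T.A] M.X
  f_ω : ∀ i x, f (M'.ω i x) = M.ω i (f x)

lemma map_smulk {M' M : Mod T} (f : M'.X →ₗ[T.A] M.X) (t : k) (x : M'.X) :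
    f (t • x) = t • f x := by
  rw [← algebraMap_smul T.A t x, map_smul, algebraMap_smul]

/-- an `A`-linear map as a `k`-linear map -/
def toK {M' M : Mod T} (f : M'.X →ₗ[T.A] M.X) : M'.X →ₗ[k] M.X where
  toFun := f
  map_add' := map_add f
  map_smul' t x := by simp

@[simp] lemma toK_apply {M' M : Mod T} (f : M'.X →ₗ[T.A] M.X) (x : M'.X) : toK f x = f x := rfl

lemma RepHom.f_ωs {M' M : Rep T} (φ : RepHom M' M) (i : I) (x : M'.X) :
    φ.f ((M'.ω i).symm x) = (M.ω i).symm (φ.f x) := by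
  apply (M.ω i).injective
  rw [← φ.f_ω]; simp

section ev

variable {M : Rep T} {N : GrMod k I}

/-- elements of the coefficient object as linear maps -/
def ev (v : (homCoef M N).V) : M.X →ₗ[k] N.N := v

/-- linear maps as elements of the coefficient object -/
def mkV (v : M.X →ₗ[k] N.N) : (homCoef M N).V := v

@[simp] lemma ev_mkV (v : M.X →ₗ[k] N.N) : ev (mkV v) = v := rfl

lemma ev_ext {v w : (homCoef M N).V} (h : ∀ x, ev v x = ev w x) : v = w :=
  LinearMap.ext h

@[simp] lemma ev_add (v w : (homCoef M N).V) (x : M.X) : ev (v + w) x = ev v x + ev w x := rfl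
@[simp] lemma ev_sub (v w : (homCoef M N).V) (x : M.X) : ev (v - w) x = ev v x - ev w x := rfl
@[simp] lemma ev_neg (v : (homCoef M N).V) (x : M.X) : ev (- v) x = - ev v x := rfl
@[simp] lemma ev_zero (x : M.X) : ev (0 : (homCoef M N).V) x = 0 := rfl
@[simp] lemma ev_smul (p : MvPolynomial I k) (v : (homCoef M N).V) (x : M.X) :
    ev (p • v) x = p • ev v x := rfl
@[simp] lemma ev_smulk (p : k) (v : (homCoef M N).V) (x : M.X) :
    ev (p • v) x = p • ev v x := rfl
@[simp] lemma ev_r (a : T.A) (v : (homCoef M N).V) (x : M.X) :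
    ev ((homCoef M N).r a v) x = ev v (a • x) := by
  show ev v ((1 : k) • (a • x)) = _
  rw [one_smul]
@[simp] lemma ev_κ (i : I) (v : (homCoef M N).V) (x : M.X) :
    ev ((homCoef M N).κ i v) x = ev v ((M.ω i).symm x) := rfl
@[simp] lemma ev_π (m : ℤ) (v : (homCoef M N).V) (x : M.X) :
    ev ((homCoef M N).π m v) x = N.π m (ev v x) := rfl

end ev

/-- pull back -/
def RepHom.coef {M' M : Rep T} (φ : RepHom M' M) (N : GrMod k I) : CoefHom (homCoef M N) (homCoef M' N) 0 where
  f :=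
    { toFun := fun v => mkV (ev v ∘ₗ toK φ.f)
      map_add' := fun v w => rfl
      map_smul' := fun p v => rfl }
  f_r a v := by
    refine ev_ext fun x => ?_
    simp only [ev_r]
    show ev ((homCoef M N).r a v) (φ.f x) = ev v (φ.f (a • x))
    rw [ev_r, φ.f.map_smul]
  f_κ i v := by
    refine ev_ext fun x => ?_
    simp only [ev_κ]
    show ev ((homCoef M N).κ i v) (φ.f x) = ev v (φ.f ((M'.ω i).symm x))
    rw [ev_κ, φ.f_ωs]
  f_π m v := by
    refine ev_ext fun x => ?_
    rw [add_zero]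
    rfl

lemma RepHom.ev_coef {M' M : Rep T} (φ : RepHom M' M) (N : GrMod k I)
    (v : (homCoef M N).V) (x : M'.X) :
    ev ((φ.coef N).f v) x = ev v (φ.f x) := rfl

/-- short exact sequences of graded modules, split over `k` and the torus -/
structure RepSES (M' M M'' : Rep T) where
  i : RepHom M' M
  p : RepHom M M''
  inj : Function.Injective i.f
  surj : Function.Surjective p.f
  exact : ∀ x, p.f x = 0 ↔ ∃ y, i.f y = x
  split : ∃ ρ : M.X →ₗ[k] M'.X, (∀ y, ρ (i.f y) = y) ∧ ∀ j x, ρ (M.ω j x) = M'.ω j (ρ x)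

namespace RepSES

variable {M' M M'' : Rep T} (S : RepSES M' M M'')

/-- the retraction -/
def ρ : M.X →ₗ[k] M'.X := S.split.choose

lemma ρ_i (y : M'.X) : S.ρ (S.i.f y) = y := S.split.choose_spec.1 y
lemma ρ_ω (j : I) (x : M.X) : S.ρ (M.ω j x) = M'.ω j (S.ρ x) := S.split.choose_spec.2 j x

lemma exists_σ : ∃ σ : M''.X →ₗ[k] M.X, ∀ x, σ (S.p.f x) = x - S.i.f (S.ρ x) := by
  have key : ∀ x y : M.X, S.p.f x = S.p.f y → x - S.i.f (S.ρ x) = y - S.i.f (S.ρ y) := by
    intro x y hxy
    have h : S.p.f (x - y) = 0 := by rw [map_sub, hxy, sub_self]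
    obtain ⟨z, hz⟩ := (S.exact _).1 h
    have h2 : S.i.f (S.ρ (x - y)) = x - y := by rw [← hz, S.ρ_i]
    rw [map_sub, map_sub] at h2
    have : x - y = S.i.f (S.ρ x) - S.i.f (S.ρ y) := h2.symm
    rw [sub_eq_sub_iff_add_eq_add] at this ⊢
    rw [this]; abel
  refine ⟨{ toFun := fun z => (S.surj z).choose - S.i.f (S.ρ (S.surj z).choose)
            map_add' := ?_
            map_smul' := ?_ }, ?_⟩
  · intro a b
    have := key (S.surj (a + b)).choose ((S.surj a).choose + (S.surj b).choose) (by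
      rw [(S.surj (a + b)).choose_spec, map_add, (S.surj a).choose_spec, (S.surj b).choose_spec])
    rw [this, map_add, map_add]; abel
  · intro t a
    have := key (S.surj (t • a)).choose (t • (S.surj a).choose) (by
      rw [(S.surj (t • a)).choose_spec, map_smulk, (S.surj a).choose_spec])
    simp only [RingHom.id_apply]
    rw [this, map_smul, map_smulk, smul_sub]
  · intro x
    exact key _ _ (S.surj (S.p.f x)).choose_spec

/-- the section -/
def σ : M''.X →ₗ[k] M.X := S.exists_σ.choose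

lemma σ_p (x : M.X) : S.σ (S.p.f x) = x - S.i.f (S.ρ x) := S.exists_σ.choose_spec x

lemma p_i (y : M'.X) : S.p.f (S.i.f y) = 0 := (S.exact _).2 ⟨y, rfl⟩

lemma p_σ (z : M''.X) : S.p.f (S.σ z) = z := by
  obtain ⟨x, rfl⟩ := S.surj z
  rw [σ_p, map_sub, p_i, sub_zero]

lemma σ_ω (j : I) (z : M''.X) : S.σ (M''.ω j z) = M.ω j (S.σ z) := by
  obtain ⟨x, rfl⟩ := S.surj z
  rw [← S.p.f_ω, σ_p, σ_p, map_sub, S.ρ_ω, S.i.f_ω]

lemma ρ_ωs (j : I) (x : M.X) : S.ρ ((M.ω j).symm x) = (M'.ω j).symm (S.ρ x) := by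
  apply (M'.ω j).injective; rw [← S.ρ_ω]; simp

lemma σ_ωs (j : I) (x : M''.X) : S.σ ((M''.ω j).symm x) = (M.ω j).symm (S.σ x) := by
  apply (M.ω j).injective; rw [← S.σ_ω]; simp

/-- the short exact sequence of coefficient objects -/
def coef (N : GrMod k I) :
    CoefSES (homCoef M'' N) (homCoef M N) (homCoef M' N) 0 0 where
  j := S.p.coef N
  p := S.i.coef N
  s :=
    { toFun := fun v => mkV (ev v ∘ₗ S.ρ)
      map_add' := fun v w => rfl
      map_smul' := fun p v => rfl }
  ρ :=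
    { toFun := fun v => mkV (ev v ∘ₗ S.σ)
      map_add' := fun v w => rfl
      map_smul' := fun p v => rfl }
  s_κ i v := by
    refine ev_ext fun x => ?_
    simp only [ev_κ]
    show ev ((homCoef M' N).κ i v) (S.ρ x) = ev v (S.ρ ((M.ω i).symm x))
    rw [ev_κ, S.ρ_ωs]
  ρ_κ i v := by
    refine ev_ext fun x => ?_
    simp only [ev_κ]
    show ev ((homCoef M N).κ i v) (S.σ x) = ev v (S.σ ((M''.ω i).symm x))
    rw [ev_κ, S.σ_ωs]
  ps v := by
    refine ev_ext fun x => ?_
    show ev v (S.ρ (S.i.f x)) = _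
    rw [S.ρ_i]
  ρj v := by
    refine ev_ext fun x => ?_
    show ev v (S.p.f (S.σ x)) = _
    rw [S.p_σ]
  pj v := by
    refine ev_ext fun x => ?_
    show ev v (S.p.f (S.i.f x)) = 0
    rw [S.p_i, map_zero]
  js v := by
    refine ev_ext fun x => ?_
    show ev v (S.σ (S.p.f x)) + ev v (S.i.f (S.ρ x)) = ev v x
    rw [S.σ_p, map_sub, sub_add_cancel]

end RepSES

/-! ### the functor `E` on modules -/

instance Mod.isFlat [Fintype I] (M : Mod T) (N : GrMod k I) : (homCoef M.rep N).IsFlat where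
  flat v := by
    refine Finset.sum_congr rfl fun i _ => ?_
    congr 1
    refine ev_ext fun x => ?_
    rw [ev_r, ev_κ]
    congr 1
    exact (M.rep.ω i).symm_apply_apply x

/-- the coefficient object of a module -/
def Mod.coef (M : Mod T) : Coef T := homCoef M.rep (SS k I)

instance Mod.coef_isFlat [Fintype I] (M : Mod T) : M.coef.IsFlat := M.isFlat (SS k I)

section mev

variable {M : Mod T}

/-- values of cochains as linear maps -/
def mev (M : Mod T) (v : M.coef.V) : M.X →ₗ[k] MvPolynomial I k := v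

/-- linear maps as values of cochains -/
def mkM (M : Mod T) (v : M.X →ₗ[k] MvPolynomial I k) : M.coef.V := v

@[simp] lemma mev_mkM (v : M.X →ₗ[k] MvPolynomial I k) : mev M (mkM M v) = v := rfl

lemma mev_ext {v w : M.coef.V} (h : ∀ x, mev M v x = mev M w x) : v = w := LinearMap.ext h

@[simp] lemma mev_add (v w : M.coef.V) (x : M.X) : mev M (v + w) x = mev M v x + mev M w x := rfl
@[simp] lemma mev_sub (v w : M.coef.V) (x : M.X) : mev M (v - w) x = mev M v x - mev M w x := rfl
@[simp] lemma mev_neg (v : M.coef.V) (x : M.X) : mev M (- v) x = - mev M v x := rfl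
@[simp] lemma mev_zero (x : M.X) : mev M (0 : M.coef.V) x = 0 := rfl
@[simp] lemma mev_smul (p : MvPolynomial I k) (v : M.coef.V) (x : M.X) :
    mev M (p • v) x = p * mev M v x := rfl
@[simp] lemma mev_smulk (p : k) (v : M.coef.V) (x : M.X) :
    mev M (p • v) x = p • mev M v x := rfl
@[simp] lemma mev_r (a : T.A) (v : M.coef.V) (x : M.X) :
    mev M (M.coef.r a v) x = mev M v (a • x) := by
  show mev M v ((1 : k) • (a • x)) = _
  rw [one_smul]
@[simp] lemma mev_κ (i : I) (v : M.coef.V) (x : M.X) :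
    mev M (M.coef.κ i v) x = mev M v ((((T.K i)⁻¹ : T.Aˣ) : T.A) • x) := rfl
@[simp] lemma mev_π (m : ℤ) (v : M.coef.V) (x : M.X) :
    mev M (M.coef.π m v) x = gc m (mev M v x) := rfl

end mev

/-- an `A`-linear map is a morphism of graded modules -/
def modHom {M' M : Mod T} (f : M'.X →ₗ[T.A] M.X) : RepHom M'.rep M.rep where
  f := f
  f_ω _ _ := map_smul f _ _

/-- short exact sequences of modules, split over `k` and the torus -/
structure ModSES (M' M M'' : Mod T) where
  i : M'.X →ₗ[T.A] M.X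
  p : M.X →ₗ[T.A] M''.X
  inj : Function.Injective i
  surj : Function.Surjective p
  exact : ∀ x, p x = 0 ↔ ∃ y, i y = x
  split : ∃ ρ : M.X →ₗ[k] M'.X, (∀ y, ρ (i y) = y) ∧
    ∀ j x, ρ ((T.K j : T.A) • x) = (T.K j : T.A) • ρ x

/-- as a sequence of graded modules -/
def ModSES.rep {M' M M'' : Mod T} (S : ModSES M' M M'') : RepSES M'.rep M.rep M''.rep where
  i := modHom S.i
  p := modHom S.p
  inj := S.inj
  surj := S.surj
  exact := S.exact
  split := S.split

variable [Fintype I]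

/-- the total cohomology `E_A(M)` -/
abbrev E (M : Mod T) : Type := M.coef.H

/-- degree `n` part -/
abbrev EDeg (M : Mod T) (n : ℤ) : Submodule k (E M) := M.coef.Deg n

/-- functoriality -/
def Emap {M' M : Mod T} (f : M'.X →ₗ[T.A] M.X) : E M →ₗ[MvPolynomial I k] E M' :=
  ((modHom f).coef (SS k I)).mapH

lemma Emap_pr {M' M : Mod T} (f : M'.X →ₗ[T.A] M.X) (n : ℤ) (e : E M) :
    Emap f (M.coef.pr n e) = M'.coef.pr n (Emap f e) := by
  have := ((modHom f).coef (SS k I)).mapH_pr n e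
  rwa [add_zero] at this

lemma Emap_comp {M'' M' M : Mod T} (f : M'.X →ₗ[T.A] M.X) (g : M''.X →ₗ[T.A] M'.X) (e : E M) :
    Emap g (Emap f e) = Emap (f ∘ₗ g) e := by
  obtain ⟨z, rfl⟩ := M.coef.cls_surj e
  rfl

lemma Emap_id {M : Mod T} (e : E M) : Emap (LinearMap.id : M.X →ₗ[T.A] M.X) e = e := by
  obtain ⟨z, rfl⟩ := M.coef.cls_surj e
  rfl

variable [CharZero k]

/-- the connecting homomorphism -/
def Eδ {M' M M'' : Mod T} (S : ModSES M' M M'') : E M' →ₗ[MvPolynomial I k] E M'' :=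
  (S.rep.coef (SS k I)).δ

lemma Eδ_pr {M' M M'' : Mod T} (S : ModSES M' M M'') (n : ℤ) (e : E M') :
    Eδ S (M'.coef.pr n e) = M''.coef.pr (n + 1) (Eδ S e) := by
  have := (S.rep.coef (SS k I)).δ_pr n e
  rwa [sub_zero, sub_zero] at this

/-- exactness at `E M` -/
lemma E_exact_mid {M' M M'' : Mod T} (S : ModSES M' M M'') (e : E M) :
    Emap S.i e = 0 ↔ ∃ x, Emap S.p x = e :=
  (S.rep.coef (SS k I)).exact_mid e

/-- exactness at `E M'` -/
lemma E_exact_sub {M' M M'' : Mod T} (S : ModSES M' M M'') (e : E M') :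
    Eδ S e = 0 ↔ ∃ x, Emap S.i x = e :=
  (S.rep.coef (SS k I)).exact_right e

/-- exactness at `E M''` -/
lemma E_exact_quot {M' M M'' : Mod T} (S : ModSES M' M M'') (e : E M'') :
    Emap S.p e = 0 ↔ ∃ x, Eδ S x = e :=
  (S.rep.coef (SS k I)).exact_left e

/-- naturality of the connecting homomorphism -/
lemma Eδ_natural {M' M M'' L' L L'' : Mod T} (S : ModSES M' M M'') (R : ModSES L' L L'')
    (f' : L'.X →ₗ[T.A] M'.X) (f : L.X →ₗ[T.A] M.X) (f'' : L''.X →ₗ[T.A] M''.X)
    (h1 : ∀ x, S.i (f' x) = f (R.i x)) (h2 : ∀ x, S.p (f x) = f'' (R.p x)) (e : E M') :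
    Emap f'' (Eδ S e) = Eδ R (Emap f' e) := by
  refine CoefSES.δ_natural _ _ ((modHom f'').coef (SS k I))
    ((modHom f).coef (SS k I)) _ ?_ ?_ e
  · intro v
    refine ev_ext fun x => ?_
    exact congrArg (ev v) (h2 x)
  · intro v
    refine ev_ext fun x => ?_
    exact congrArg (ev v) (h1 x)

end Pool.Agent.Lib.QG
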