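import Pool.Agent.Lib.MP_021f05_al.Alg
import Pool.Agent.Lib.MP_021f05_al.EDef

/-!
# MP_021f05_al (A10): weight modules
-/

noncomputable section

namespace Pool.Agent.Lib.QG

open MvPolynomial

variable {k : Type} [Field k] {I : Type} [Fintype I] [DecidableEq I] (Q : QD k I)

/-- `K_i` acts on `x` by `χ_μ(i)` for all `i` -/
def wts {T : TAlg k I} (M : Mod T) (μ : I → ℤ) : Submodule k M.X where
  carrier := {x | ∀ i, (T.K i : T.A) • x = Q.χ μ i • x}
  add_mem' := by intro a b ha hb i; rw [smul_add, smul_add, ha i, hb i]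
  zero_mem' := by intro i; simp
  smul_mem' := by
    intro t a ha i
    rw [smul_comm (Q.χ μ i) t a, ← ha i, ← algebraMap_smul T.A t a, smul_smul,
      ← Algebra.commutes, mul_smul, algebraMap_smul]

/-- weight modules -/
def IsWt {T : TAlg k I} (M : Mod T) : Prop := ⨆ μ, wts Q M μ = ⊤

variable {Q}

lemma wt_zpow_inj {a b : ℤ} (h : Q.q ^ a = Q.q ^ b) : a = b := by
  by_contra hne
  have h2 : Q.q ^ (a - b) = 1 := by
    rw [zpow_sub₀ Q.q_ne, h, div_self (zpow_ne_zero _ Q.q_ne)]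
  have h3 : Q.q ^ (a - b).natAbs = 1 := by
    rcases Int.natAbs_eq (a - b) with h | h
    · rw [h, zpow_natCast] at h2
      exact h2
    · rw [h, zpow_neg, zpow_natCast, inv_eq_one] at h2
      exact h2
  exact Q.q_root _ (by omega) h3

/-- distinct weights have distinct characters -/
theorem QD.χ_inj {μ ν : I → ℤ} (h : ∀ i, Q.χ μ i = Q.χ ν i) : μ = ν := by
  by_contra hne
  have hpos := Q.pos (μ - ν) (sub_ne_zero.2 hne)
  have hz : ∀ i, (Q.d i : ℤ) * ∑ j, Q.a i j * (μ - ν) j = 0 := by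
    intro i
    have h1 := wt_zpow_inj (Q := Q) (h i)
    have h2 : ∑ j, Q.a i j * (μ - ν) j = (∑ j, Q.a i j * μ j) - ∑ j, Q.a i j * ν j := by
      rw [← Finset.sum_sub_distrib]
      refine Finset.sum_congr rfl fun j _ => ?_
      rw [Pi.sub_apply, mul_sub]
    rw [h2, mul_sub]
    exact sub_eq_zero.2 h1
  have h3 : ∑ i, ∑ j, (μ - ν) i * (Q.d i * Q.a i j) * (μ - ν) j = 0 := by
    refine Finset.sum_eq_zero fun i _ => ?_
    have h4 : ∑ j, (μ - ν) i * (Q.d i * Q.a i j) * (μ - ν) j =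
        (μ - ν) i * ((Q.d i : ℤ) * ∑ j, Q.a i j * (μ - ν) j) := by
      rw [Finset.mul_sum, Finset.mul_sum]
      refine Finset.sum_congr rfl fun j _ => ?_
      ring
    rw [h4, hz, mul_zero]
  rw [h3] at hpos
  exact lt_irrefl _ hpos

theorem QD.χ_add (μ ν : I → ℤ) (i : I) : Q.χ (μ + ν) i = Q.χ μ i * Q.χ ν i := by
  unfold QD.χ CDatum.ct
  rw [← zpow_add₀ Q.q_ne, ← mul_add, ← Finset.sum_add_distrib]
  congr 2
  refine Finset.sum_congr rfl fun j _ => ?_
  rw [Pi.add_apply, mul_add]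

theorem QD.χ_zero (i : I) : Q.χ 0 i = 1 := by
  unfold QD.χ CDatum.ct
  simp

theorem QD.χ_ne (μ : I → ℤ) (i : I) : Q.χ μ i ≠ 0 := zpow_ne_zero _ Q.q_ne

variable {T : TAlg k I} {M : Mod T}

theorem wts_indep : iSupIndep (wts Q M) := by
  have hcomm : ∀ i j, Commute ((M.Kact i).toLinearMap : Module.End k M.X)
      (M.Kact j).toLinearMap := by
    intro i j
    refine LinearMap.ext fun x => ?_
    exact M.rep.ω_comm i j x
  have h1 := Module.End.independent_iInf_maxGenEigenspace_of_forall_mapsTo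
    (fun i => ((M.Kact i).toLinearMap : Module.End k M.X))
    (fun i j φ => Module.End.mapsTo_maxGenEigenspace_of_comm (hcomm j i) φ)
  have hinj : Function.Injective (fun μ : I → ℤ => Q.χ μ) := by
    intro μ ν h
    exact QD.χ_inj fun i => congrFun h i
  refine (h1.comp hinj).mono ?_
  intro μ
  refine le_iInf fun i => ?_
  have h2 : wts Q M μ ≤ Module.End.eigenspace ((M.Kact i).toLinearMap : Module.End k M.X)
      (Q.χ μ i) := by
    intro x hx
    rw [Module.End.mem_eigenspace_iff]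
    exact hx i
  refine h2.trans ?_
  exact Module.End.genEigenspace_le_maximal _ _ _

/-- every vector of a weight module is a finite sum of weight vectors -/
theorem IsWt.exists_sum (h : IsWt Q M) (x : M.X) :
    ∃ f : (I → ℤ) →₀ M.X, (∀ μ, f μ ∈ wts Q M μ) ∧ x = f.sum fun _ y => y := by
  have hx : x ∈ ⨆ μ, wts Q M μ := by rw [show (⨆ μ, wts Q M μ) = ⊤ from h]; trivial
  obtain ⟨f, h1, h2⟩ := (Submodule.mem_iSup_iff_exists_finsupp _ _).1 hx
  exact ⟨f, h1, h2.symm⟩

/-- stable subspaces are graded by the weights -/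
lemma wt_graded (N : Submodule k M.X) (hN : ∀ i, ∀ x ∈ N, (T.K i : T.A) • x ∈ N)
    (s : Finset (I → ℤ)) : ∀ f : (I → ℤ) → M.X, (∀ μ, f μ ∈ wts Q M μ) →
      ∑ μ ∈ s, f μ ∈ N → ∀ μ ∈ s, f μ ∈ N := by
  classical
  induction s using Finset.induction_on with
  | empty => intro f _ _ μ hμ; simp at hμ
  | insert ν t hν ih =>
    intro f hf hsum
    have key : ∀ μ ∈ t, f μ ∈ N := by
      intro μ hμ
      have hne : μ ≠ ν := fun h => hν (h ▸ hμ)
      obtain ⟨i, hi⟩ : ∃ i, Q.χ μ i ≠ Q.χ ν i := by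
        by_contra hcon
        push Not at hcon
        exact hne (QD.χ_inj hcon)
      have h1 : ∑ μ ∈ t, (Q.χ μ i - Q.χ ν i) • f μ ∈ N := by
        have h2 : ∑ μ ∈ t, (Q.χ μ i - Q.χ ν i) • f μ =
            (T.K i : T.A) • (∑ μ ∈ insert ν t, f μ) - Q.χ ν i • ∑ μ ∈ insert ν t, f μ := by
          rw [Finset.smul_sum, Finset.smul_sum, ← Finset.sum_sub_distrib, Finset.sum_insert hν,
            hf ν i, sub_self, zero_add]
          refine Finset.sum_congr rfl fun μ _ => ?_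
          rw [hf μ i, sub_smul]
        rw [h2]
        exact N.sub_mem (hN i _ hsum) (N.smul_mem _ hsum)
      have h3 := ih (fun μ => (Q.χ μ i - Q.χ ν i) • f μ)
        (fun μ => Submodule.smul_mem _ _ (hf μ)) h1 μ hμ
      have h4 : Q.χ μ i - Q.χ ν i ≠ 0 := sub_ne_zero.2 hi
      have h5 := N.smul_mem (Q.χ μ i - Q.χ ν i)⁻¹ h3
      rwa [smul_smul, inv_mul_cancel₀ h4, one_smul] at h5
    intro μ hμ
    rcases Finset.mem_insert.1 hμ with rfl | h
    · rw [Finset.sum_insert hν] at hsum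
      have h6 := N.sub_mem hsum (N.sum_mem key)
      rwa [add_sub_cancel_right] at h6
    · exact key μ h

/-- equivariant retractions onto stable subspaces -/
theorem IsWt.exists_retraction (h : IsWt Q M) (N : Submodule k M.X)
    (hN : ∀ i, ∀ x ∈ N, (T.K i : T.A) • x ∈ N) :
    ∃ ρ : M.X →ₗ[k] M.X, (∀ x, ρ x ∈ N) ∧ (∀ x ∈ N, ρ x = x) ∧
      ∀ i x, ρ ((T.K i : T.A) • x) = (T.K i : T.A) • ρ x := by
  classical
  have hint : DirectSum.IsInternal (wts Q M) :=
    DirectSum.isInternal_submodule_of_iSupIndep_of_iSup_eq_top wts_indep h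
  let e : (DirectSum (I → ℤ) fun μ => wts Q M μ) ≃ₗ[k] M.X :=
    LinearEquiv.ofBijective (DirectSum.coeLinearMap (wts Q M)) hint
  let Nμ : ∀ μ, Submodule k (wts Q M μ) := fun μ => N.comap (wts Q M μ).subtype
  choose s hs using fun μ => (Nμ μ).subtype.exists_leftInverse_of_injective
    (Submodule.ker_subtype _)
  let r : M.X →ₗ[k] M.X := (DirectSum.toModule k (I → ℤ) M.X
    (fun μ => (wts Q M μ).subtype ∘ₗ (Nμ μ).subtype ∘ₗ s μ)) ∘ₗ (e.symm : M.X →ₗ[k] _)
  have hr : ∀ μ (n : wts Q M μ), r n = ((s μ n : wts Q M μ) : M.X) := by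
    intro μ n
    have h1 : e.symm (n : M.X) = DirectSum.lof k (I → ℤ) (fun μ => wts Q M μ) μ n := by
      rw [LinearEquiv.symm_apply_eq]
      show (n : M.X) = DirectSum.coeLinearMap (wts Q M)
        (DirectSum.lof k (I → ℤ) (fun μ => wts Q M μ) μ n)
      rw [DirectSum.coeLinearMap_lof]
    show DirectSum.toModule k (I → ℤ) M.X
      (fun μ => (wts Q M μ).subtype ∘ₗ (Nμ μ).subtype ∘ₗ s μ) (e.symm (n : M.X)) = _
    rw [h1, DirectSum.toModule_lof]
    rfl
  have hwt : ∀ μ, ∀ x ∈ wts Q M μ, r x ∈ wts Q M μ := by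
    intro μ x hx
    rw [hr μ ⟨x, hx⟩]
    exact (s μ ⟨x, hx⟩ : wts Q M μ).2
  have hmem : ∀ μ, ∀ x ∈ wts Q M μ, r x ∈ N := by
    intro μ x hx
    rw [hr μ ⟨x, hx⟩]
    exact (s μ ⟨x, hx⟩).2
  have hid : ∀ μ, ∀ x ∈ wts Q M μ, x ∈ N → r x = x := by
    intro μ x hx hxN
    have h1 := LinearMap.congr_fun (hs μ) (⟨⟨x, hx⟩, hxN⟩ : Nμ μ)
    rw [hr μ ⟨x, hx⟩]
    exact congrArg (fun y : Nμ μ => ((y : wts Q M μ) : M.X)) h1
  refine ⟨r, ?_, ?_, ?_⟩
  · intro x
    obtain ⟨f, hf, rfl⟩ := h.exists_sum x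
    rw [Finsupp.sum, map_sum]
    exact N.sum_mem fun μ _ => hmem μ _ (hf μ)
  · intro x hx
    obtain ⟨f, hf, rfl⟩ := h.exists_sum x
    rw [Finsupp.sum] at hx ⊢
    have h2 := wt_graded N hN f.support f hf hx
    rw [map_sum]
    exact Finset.sum_congr rfl fun μ hμ => hid μ _ (hf μ) (h2 μ hμ)
  · intro i x
    obtain ⟨f, hf, rfl⟩ := h.exists_sum x
    rw [Finsupp.sum, Finset.smul_sum, map_sum, map_sum, Finset.smul_sum]
    refine Finset.sum_congr rfl fun μ _ => ?_
    rw [hf μ i, map_smul, hwt μ _ (hf μ) i]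

/-- a submodule as a module -/
def Mod.sub (M : Mod T) (N : Submodule T.A M.X) : Mod T where
  X := N

/-- a quotient as a module -/
def Mod.quot (M : Mod T) (N : Submodule T.A M.X) : Mod T where
  X := M.X ⧸ N

/-- inclusion of a submodule -/
def Mod.subι (M : Mod T) (N : Submodule T.A M.X) : (M.sub N).X →ₗ[T.A] M.X := N.subtype

/-- projection to a quotient -/
def Mod.quotπ (M : Mod T) (N : Submodule T.A M.X) : M.X →ₗ[T.A] (M.quot N).X := N.mkQ

lemma wt_map_mem {M' : Mod T} (f : M'.X →ₗ[T.A] M.X) {μ : I → ℤ} {x : M'.X}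
    (hx : x ∈ wts Q M' μ) : f x ∈ wts Q M μ := by
  intro i
  rw [← map_smul, hx i, map_smulk]

/-- injective images -/
theorem IsWt.of_injective {M' : Mod T} (h : IsWt Q M) (f : M'.X →ₗ[T.A] M.X)
    (hf : Function.Injective f) : IsWt Q M' := by
  unfold IsWt
  rw [eq_top_iff]
  intro x _
  obtain ⟨g, hg, hx⟩ := h.exists_sum (f x)
  have hN : ∀ i, ∀ y ∈ LinearMap.range (toK f), (T.K i : T.A) • y ∈ LinearMap.range (toK f) := by
    rintro i _ ⟨z, rfl⟩
    refine ⟨(T.K i : T.A) • z, ?_⟩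
    rw [toK_apply, map_smul, toK_apply]
  have h1 : ∑ μ ∈ g.support, g μ ∈ LinearMap.range (toK f) := by
    rw [Finsupp.sum] at hx
    rw [← hx]
    exact ⟨x, rfl⟩
  have h2 := wt_graded _ hN g.support g hg h1
  have h3 : ∀ μ : g.support, ∃ y : M'.X, f y = g μ := by
    intro μ
    obtain ⟨y, hy⟩ := h2 μ μ.2
    exact ⟨y, hy⟩
  choose y hy using h3
  have h4 : ∀ μ : g.support, y μ ∈ wts Q M' μ := by
    intro μ i
    apply hf
    rw [map_smul, map_smulk, hy μ]
    exact hg μ i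
  have h5 : x = ∑ μ : g.support, y μ := by
    apply hf
    rw [map_sum, hx, Finsupp.sum, ← Finset.sum_coe_sort]
    exact Finset.sum_congr rfl fun μ _ => (hy μ).symm
  rw [h5]
  exact Submodule.sum_mem _ fun μ _ => Submodule.mem_iSup_of_mem (μ : I → ℤ) (h4 μ)

/-- surjective images -/
theorem IsWt.of_surjective {M' : Mod T} (h : IsWt Q M) (f : M.X →ₗ[T.A] M'.X)
    (hf : Function.Surjective f) : IsWt Q M' := by
  unfold IsWt
  rw [eq_top_iff]
  intro x _
  obtain ⟨y, rfl⟩ := hf x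
  obtain ⟨g, hg, hx⟩ := h.exists_sum y
  rw [hx, Finsupp.sum, map_sum]
  exact Submodule.sum_mem _ fun μ _ => Submodule.mem_iSup_of_mem μ (wt_map_mem f (hg μ))

theorem IsWt.sub (h : IsWt Q M) (N : Submodule T.A M.X) : IsWt Q (M.sub N) :=
  h.of_injective (M.subι N) N.injective_subtype

theorem IsWt.quot (h : IsWt Q M) (N : Submodule T.A M.X) : IsWt Q (M.quot N) :=
  h.of_surjective (M.quotπ N) N.mkQ_surjective

/-- short exact sequences of weight modules -/
def mkSES {M' M M'' : Mod T} (h : IsWt Q M) (i : M'.X →ₗ[T.A] M.X) (p : M.X →ₗ[T.A] M''.X)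
    (inj : Function.Injective i) (surj : Function.Surjective p)
    (exact : ∀ x, p x = 0 ↔ ∃ y, i y = x) : ModSES M' M M'' where
  i := i
  p := p
  inj := inj
  surj := surj
  exact := exact
  split := by
    have hN : ∀ j, ∀ x ∈ LinearMap.range (toK i), (T.K j : T.A) • x ∈ LinearMap.range (toK i) := by
      rintro j _ ⟨z, rfl⟩
      refine ⟨(T.K j : T.A) • z, ?_⟩
      rw [toK_apply, map_smul, toK_apply]
    obtain ⟨r, h1, h2, h3⟩ := h.exists_retraction (LinearMap.range (toK i)) hN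
    have hinj : Function.Injective (toK i) := inj
    let e := LinearEquiv.ofInjective (toK i) hinj
    have he : ∀ y : LinearMap.range (toK i), i (e.symm y) = y := by
      intro y
      have := congrArg Subtype.val (e.apply_symm_apply y)
      exact this
    refine ⟨e.symm.toLinearMap ∘ₗ r.codRestrict _ h1, ?_, ?_⟩
    · intro y
      apply inj
      show i (e.symm (r.codRestrict _ h1 (i y))) = i y
      rw [he]
      exact h2 (i y) ⟨y, rfl⟩
    · intro j x
      apply inj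
      show i (e.symm (r.codRestrict _ h1 ((T.K j : T.A) • x))) =
        i ((T.K j : T.A) • e.symm (r.codRestrict _ h1 x))
      rw [map_smul i, he, he]
      exact h3 j x

end Pool.Agent.Lib.QG
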