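import Pool.Agent.Lib.MP_021f05_al.EVan
import Pool.Agent.Lib.MP_021f05_al.Wt

/-!
# MP_021f05_al (C5): direct sums and unions
-/

noncomputable section

namespace Pool.Agent.Lib.QG

open MvPolynomial

variable {k : Type} [Field k] [CharZero k] {I : Type} [Fintype I] {T : TAlg k I}

/-! ### families of maps which are jointly surjective -/

section EUglue

/-- pull back of values along `f` -/
abbrev EUpb {M' M : Mod T} (f : M'.X →ₗ[T.A] M.X) : CoefHom M.coef M'.coef 0 :=
  (modHom f).coef (SS k I)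

omit [CharZero k] [Fintype I] in
lemma EUpb_f {M' M : Mod T} (f : M'.X →ₗ[T.A] M.X) (v : M.coef.V) (x : M'.X) :
    mev M' ((EUpb f).f v) x = mev M v (f x) := rfl

omit [CharZero k] in
lemma EUmap_cls {M' M : Mod T} (f : M'.X →ₗ[T.A] M.X) (z : M.coef.Z) :
    Emap f (M.coef.cls z) = M'.coef.cls ((EUpb f).mapZ z) := rfl

omit [CharZero k] [Fintype I] in
lemma EUpb_Pr {M' M : Mod T} (f : M'.X →ₗ[T.A] M.X) (n : ℤ) (g : List T.A → M.coef.V) :
    (EUpb f).F (M.coef.Pr n g) = M'.coef.Pr n ((EUpb f).F g) := rfl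

variable {ι : Type} {M : ι → Mod T} {N : Mod T} {j : ∀ s, (M s).X →ₗ[T.A] N.X}

omit [CharZero k] [Fintype I] in
/-- joint injectivity on values -/
lemma EUext (hj : ∀ v w : N.coef.V, (∀ s x, mev N v (j s x) = mev N w (j s x)) → v = w)
    {f g : List T.A → N.coef.V} (h : ∀ s, (EUpb (j s)).F f = (EUpb (j s)).F g) : f = g := by
  funext l
  refine hj _ _ fun s x => ?_
  have := congrFun (h s) l
  exact congrArg (fun v => mev (M s) v x) this

omit [CharZero k] [Fintype I] in
/-- a function on lists which restricts to cochains is a cochain -/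
lemma EUmem (hj : ∀ v w : N.coef.V, (∀ s x, mev N v (j s x) = mev N w (j s x)) → v = w)
    {f : List T.A → N.coef.V} (h : ∀ s, (EUpb (j s)).F f ∈ (M s).coef.Coc) : f ∈ N.coef.Coc := by
  refine ⟨⟨fun l₁ l₂ a b => ?_, fun l₁ l₂ t a => ?_⟩, fun i => ?_⟩
  · refine hj _ _ fun s x => ?_
    have := (h s).1.1 l₁ l₂ a b
    exact congrArg (fun v => mev (M s) v x) this
  · refine hj _ _ fun s x => ?_
    have := (h s).1.2 l₁ l₂ t a
    exact congrArg (fun v => mev (M s) v x) this
  · funext l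
    refine hj _ _ fun s x => ?_
    have := congrFun ((h s).2 i) l
    have h1 := congrArg (fun v => mev (M s) v x) this
    refine Eq.trans ?_ h1
    show mev N (N.coef.κ i (f (l.map (T.adi i)))) (j s x)
      = mev (M s) ((M s).coef.κ i ((EUpb (j s)).F f (l.map (T.adi i)))) x
    rw [mev_κ, mev_κ, ← map_smul]
    rfl

omit [CharZero k] in
lemma EUD (hj : ∀ v w : N.coef.V, (∀ s x, mev N v (j s x) = mev N w (j s x)) → v = w)
    {f g : List T.A → N.coef.V} (h : ∀ s, (M s).coef.D ((EUpb (j s)).F f) = (EUpb (j s)).F g) :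
    N.coef.D f = g := by
  refine EUext hj fun s => ?_
  rw [← CoefHom.F_D, h s]

end EUglue

section EUds

variable {ι : Type} [DecidableEq ι] (M : ι → Mod T) (N : Mod T)
    (j : ∀ s, (M s).X →ₗ[T.A] N.X)
    (hN : Function.Bijective (DirectSum.toModule T.A ι N.X j))

omit [CharZero k] [Fintype I] in
include hN in
lemma EUds_bij : Function.Bijective
    (DirectSum.toModule k ι N.X (fun s => toK (M' := M s) (M := N) (j s))) := by
  have h : ∀ x, DirectSum.toModule k ι N.X (fun s => toK (M' := M s) (M := N) (j s)) x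
      = DirectSum.toModule T.A ι N.X j x := by
    intro x
    induction x using DirectSum.induction_on with
    | zero => simp
    | of i x =>
      have h1 : DirectSum.of (fun s => (M s).X) i x = DirectSum.lof k ι (fun s => (M s).X) i x := rfl
      have h2 : DirectSum.of (fun s => (M s).X) i x
        = DirectSum.lof T.A ι (fun s => (M s).X) i x := rfl
      conv_lhs => rw [h1, DirectSum.toModule_lof]
      conv_rhs => rw [h2, DirectSum.toModule_lof]
      rfl
    | add x y hx hy => rw [map_add, map_add, hx, hy]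
  have h2 : (DirectSum.toModule k ι N.X (fun s => toK (M' := M s) (M := N) (j s)) : _ → N.X)
      = DirectSum.toModule T.A ι N.X j := funext h
  rw [h2]
  exact hN

/-- the underlying equivalence -/
def EUds_e : (DirectSum ι fun s => (M s).X) ≃ₗ[k] N.X :=
  LinearEquiv.ofBijective _ (EUds_bij M N j hN)

omit [CharZero k] [Fintype I] in
lemma EUds_e_lof (s : ι) (x : (M s).X) :
    EUds_e M N j hN (DirectSum.lof k ι (fun s => (M s).X) s x) = j s x := by
  show DirectSum.toModule k ι N.X _ (DirectSum.lof k ι (fun s => (M s).X) s x) = _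
  rw [DirectSum.toModule_lof]
  rfl

omit [CharZero k] [Fintype I] in
include hN in
lemma EUds_ext (v w : N.coef.V) (h : ∀ s x, mev N v (j s x) = mev N w (j s x)) : v = w := by
  refine mev_ext fun y => ?_
  obtain ⟨z, rfl⟩ := (EUds_e M N j hN).surjective y
  induction z using DirectSum.induction_on with
  | zero => rw [map_zero, map_zero, map_zero]
  | of s x =>
    have h1 : EUds_e M N j hN (DirectSum.of (fun s => (M s).X) s x) = j s x :=
      EUds_e_lof M N j hN s x
    rw [h1, h]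
  | add x y hx hy => rw [map_add, map_add, map_add, hx, hy]

/-- gluing -/
def EUds_glue (g : ∀ s, List T.A → (M s).coef.V) : List T.A → N.coef.V := fun l =>
  mkM N ((DirectSum.toModule k ι (MvPolynomial I k) fun s => mev (M s) (g s l)) ∘ₗ
    (EUds_e M N j hN).symm.toLinearMap)

omit [CharZero k] [Fintype I] in
lemma EUds_glue_F (g : ∀ s, List T.A → (M s).coef.V) (s : ι) :
    (EUpb (j s)).F (EUds_glue M N j hN g) = g s := by
  funext l
  refine mev_ext fun x => ?_
  show (DirectSum.toModule k ι (MvPolynomial I k) fun s => mev (M s) (g s l))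
    ((EUds_e M N j hN).symm (j s x)) = _
  rw [← EUds_e_lof M N j hN, LinearEquiv.symm_apply_apply, DirectSum.toModule_lof]

end EUds

theorem E_ds_inj {ι : Type} [DecidableEq ι] (M : ι → Mod T) (N : Mod T)
    (j : ∀ s, (M s).X →ₗ[T.A] N.X)
    (hN : Function.Bijective (DirectSum.toModule T.A ι N.X j)) (e : E N)
    (h : ∀ s, Emap (j s) e = 0) : e = 0 := by
  obtain ⟨z, rfl⟩ := N.coef.cls_surj e
  have h1 : ∀ s, ∃ g ∈ (M s).coef.Coc, (M s).coef.D g = (EUpb (j s)).F z.1 := by
    intro s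
    have := h s
    rw [EUmap_cls] at this
    exact (M s).coef.cls_eq_zero.1 this
  choose g hg hg2 using h1
  refine N.coef.cls_eq_zero.2 ⟨EUds_glue M N j hN g, ?_, ?_⟩
  · refine EUmem (EUds_ext M N j hN) fun s => ?_
    rw [EUds_glue_F]
    exact hg s
  · refine EUD (EUds_ext M N j hN) fun s => ?_
    rw [EUds_glue_F]
    exact hg2 s

theorem E_ds_surj {ι : Type} [DecidableEq ι] (M : ι → Mod T) (N : Mod T)
    (j : ∀ s, (M s).X →ₗ[T.A] N.X)
    (hN : Function.Bijective (DirectSum.toModule T.A ι N.X j)) (e : ∀ s, E (M s)) :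
    ∃ x : E N, ∀ s, Emap (j s) x = e s := by
  choose z hz using fun s => (M s).coef.cls_surj (e s)
  have h1 : EUds_glue M N j hN (fun s => (z s).1) ∈ N.coef.Coc := by
    refine EUmem (EUds_ext M N j hN) fun s => ?_
    rw [EUds_glue_F]
    exact ((M s).coef.mem_Z.1 (z s).2).1
  have h2 : N.coef.D (EUds_glue M N j hN (fun s => (z s).1)) = 0 := by
    refine EUD (EUds_ext M N j hN) fun s => ?_
    rw [EUds_glue_F, ((M s).coef.mem_Z.1 (z s).2).2]
    funext l
    exact (map_zero _).symm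
  refine ⟨N.coef.cls ⟨_, N.coef.mem_Z.2 ⟨h1, h2⟩⟩, fun s => ?_⟩
  rw [EUmap_cls, ← hz s]
  congr 1
  exact Subtype.ext (EUds_glue_F M N j hN (fun s => (z s).1) s)

theorem EVan.ds {ι : Type} [DecidableEq ι] (M : ι → Mod T) (N : Mod T)
    (j : ∀ s, (M s).X →ₗ[T.A] N.X)
    (hN : Function.Bijective (DirectSum.toModule T.A ι N.X j)) {n : ℤ}
    (h : ∀ s, EVan (M s) n) : EVan N n := fun e he =>
  E_ds_inj M N j hN e fun s => h s _ (Emap_mem (j s) he)

variable [DecidableEq I] {Q : QD k I}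

omit [DecidableEq I] in
/-- one extension step -/
lemma EUstep {M' M M'' : Mod T} (S : ModSES M' M M'') {n : ℤ} (hv : EVan M'' n)
    {z : List T.A → M.coef.V} (hz : z ∈ M.coef.Z) (hzn : M.coef.Pr n z = z)
    {g : List T.A → M'.coef.V} (hg : g ∈ M'.coef.Coc) (hgn : M'.coef.Pr (n - 1) g = g)
    (hD : M'.coef.D g = (EUpb S.i).F z) :
    ∃ g' ∈ M.coef.Coc, M.coef.Pr (n - 1) g' = g' ∧ M.coef.D g' = z ∧ (EUpb S.i).F g' = g := by
  have hz' := M.coef.mem_Z.1 hz
  let C : CoefSES M''.coef M.coef M'.coef 0 0 := S.rep.coef (SS k I)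
  have hCp : ∀ f, C.p.F f = (EUpb S.i).F f := fun f => rfl
  have hn1 : n - 1 + 1 = n := by ring
  set G : List T.A → M.coef.V := M.coef.Pr (n - 1) (fun l => C.s (g l)) with hG
  have hG1 : G ∈ M.coef.Coc := M.coef.Pr_mem (C.lift_mem hg) _
  have hG2 : C.p.F G = g := by
    have h1 : C.p.F G = M'.coef.Pr (n - 1) (C.p.F (fun l => C.s (g l))) := rfl
    rw [h1, C.p_lift, hgn]
  have hG3 : M.coef.Pr (n - 1) G = G := by
    funext l; exact M.coef.π_π _ _
  set f : List T.A → M.coef.V := z - M.coef.D G with hf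
  have hf1 : f ∈ M.coef.Coc := M.coef.Coc.sub_mem hz'.1 (M.coef.D_mem hG1)
  have hf2 : C.p.F f = 0 := by
    have h1 : C.p.F f = C.p.F z - C.p.F (M.coef.D G) := by
      funext l; exact map_sub C.p.f _ _
    rw [h1, ← CoefHom.F_D, hG2, hD, hCp, sub_self]
  have hf3 : M.coef.D f = 0 := by
    rw [hf, Coef.D_sub, hz'.2, M.coef.D_D hG1, sub_self]
  have hf4 : M.coef.Pr n f = f := by
    have h1 : M.coef.Pr n f = M.coef.Pr n z - M.coef.Pr n (M.coef.D G) := by
      funext l; exact map_sub (M.coef.π _) _ _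
    have h2 : M.coef.Pr n (M.coef.D G) = M.coef.D G := by
      have h3 := M.coef.Pr_D (n - 1) G
      rw [hG3, hn1] at h3
      exact h3.symm
    rw [h1, hzn, h2]
  set w : List T.A → M''.coef.V := fun l => C.ρ (f l) with hw
  have hw0 : C.j.F w = f := C.j_ret hf2
  have hw1 : w ∈ M''.coef.Coc := C.ret_mem hf1
  have hw2 : M''.coef.D w = 0 := by
    apply C.j_inj
    rw [← CoefHom.F_D, hw0, hf3]
    funext l; exact (map_zero C.j.f).symm
  have hw3 : M''.coef.Pr n w = w := by
    apply C.j_inj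
    have h1 : C.j.F (M''.coef.Pr n w) = M.coef.Pr n (C.j.F w) := rfl
    rw [h1, hw0, hf4]
  have hcl : M''.coef.cls ⟨w, M''.coef.mem_Z.2 ⟨hw1, hw2⟩⟩ = 0 := by
    refine hv _ ?_
    show M''.coef.pr n _ = _
    rw [Coef.pr_cls]
    congr 1
    exact Subtype.ext hw3
  obtain ⟨h, hh1, hh2⟩ := M''.coef.cls_eq_zero.1 hcl
  have hh2' : M''.coef.D h = w := hh2
  have hh3 : M''.coef.D (M''.coef.Pr (n - 1) h) = w := by
    rw [Coef.Pr_D, hn1, hh2', hw3]
  refine ⟨G + C.j.F (M''.coef.Pr (n - 1) h),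
    M.coef.Coc.add_mem hG1 (C.j.F_mem (M''.coef.Pr_mem hh1 _)), ?_, ?_, ?_⟩
  · have h1 : M.coef.Pr (n - 1) (G + C.j.F (M''.coef.Pr (n - 1) h))
        = M.coef.Pr (n - 1) G + C.j.F (M''.coef.Pr (n - 1) (M''.coef.Pr (n - 1) h)) := by
      funext l; exact map_add (M.coef.π _) _ _
    have h2 : M''.coef.Pr (n - 1) (M''.coef.Pr (n - 1) h) = M''.coef.Pr (n - 1) h := by
      funext l; exact M''.coef.π_π _ _
    rw [h1, h2, hG3]
  · rw [Coef.D_add, CoefHom.F_D, hh3, hw0, hf]
    abel
  · rw [← hCp]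
    have h1 : C.p.F (G + C.j.F (M''.coef.Pr (n - 1) h))
        = C.p.F G + C.p.F (C.j.F (M''.coef.Pr (n - 1) h)) := by
      funext l; exact map_add C.p.f _ _
    rw [h1, hG2, C.p_j, add_zero]

/-- exhaustive filtrations -/
theorem EVan.union {N : Mod T} (hX : IsWt Q N) (F : ℕ → Submodule T.A N.X) (hF : Monotone F)
    (h0 : F 0 = ⊥) (hU : ∀ x, ∃ d, x ∈ F d) (G : ℕ → Mod T)
    (p : ∀ d, (N.sub (F (d + 1))).X →ₗ[T.A] (G d).X) (hp : ∀ d, Function.Surjective (p d))
    (hk : ∀ d (x : F (d + 1)), p d x = 0 ↔ (x : N.X) ∈ F d) {n : ℤ}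
    (h : ∀ d, EVan (G d) n) : EVan N n := by
  classical
  intro e he
  obtain ⟨z0, rfl⟩ := N.coef.cls_surj e
  have he' : N.coef.pr n (N.coef.cls z0) = N.coef.cls z0 := he
  rw [Coef.pr_cls] at he'
  rw [← he']
  set z : N.coef.Z := N.coef.prZ n z0 with hz
  have hzn : N.coef.Pr n z.1 = z.1 := by funext l; exact N.coef.π_π _ _
  -- the inclusions
  let J : ∀ d, (N.sub (F d)).X →ₗ[T.A] N.X := fun d => N.subι (F d)
  let i : ∀ d, (N.sub (F d)).X →ₗ[T.A] (N.sub (F (d + 1))).X := fun d =>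
    Submodule.inclusion (hF (Nat.le_succ d))
  have hij : ∀ d x, J (d + 1) (i d x) = J d x := fun d x => rfl
  let S : ∀ d, ModSES (N.sub (F d)) (N.sub (F (d + 1))) (G d) := fun d =>
    mkSES (hX.sub (F (d + 1))) (i d) (p d) (Submodule.inclusion_injective _) (hp d) (by
      intro x
      rw [hk d x]
      constructor
      · intro hx; exact ⟨⟨x.1, hx⟩, rfl⟩
      · rintro ⟨y, rfl⟩; exact y.2)
  have hzmem : ∀ d, (EUpb (J d)).F z.1 ∈ (N.sub (F d)).coef.Z := fun d =>
    ((EUpb (J d)).mapZ z).2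
  have hzPr : ∀ d, (N.sub (F d)).coef.Pr n ((EUpb (J d)).F z.1) = (EUpb (J d)).F z.1 := by
    intro d
    rw [← EUpb_Pr, hzn]
  let St : ℕ → Type := fun d => {g : List T.A → (N.sub (F d)).coef.V //
    g ∈ (N.sub (F d)).coef.Coc ∧ (N.sub (F d)).coef.Pr (n - 1) g = g ∧
      (N.sub (F d)).coef.D g = (EUpb (J d)).F z.1}
  have step : ∀ d (g : St d), ∃ g' : St (d + 1), (EUpb (i d)).F g'.1 = g.1 := by
    intro d g
    obtain ⟨g', h1, h2, h3, h4⟩ := EUstep (S d) (h d) (hzmem (d + 1)) (hzPr (d + 1)) g.2.1 g.2.2.1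
      (by rw [g.2.2.2]; rfl)
    exact ⟨⟨g', h1, h2, h3⟩, h4⟩
  have hbase : (EUpb (J 0)).F z.1 = 0 := by
    funext l
    refine mev_ext fun x => ?_
    have hx : J 0 x = 0 := by
      have h1 : ∀ y ∈ F 0, y = 0 := by
        rw [h0]
        intro y hy
        exact (Submodule.mem_bot _).1 hy
      exact h1 _ (show F 0 from x).2
    show mev N (z.1 l) (J 0 x) = 0
    rw [hx, map_zero]
  let gs : ∀ d, St d := fun d => Nat.rec (motive := St)
    ⟨0, Submodule.zero_mem _, by funext l; exact map_zero _, by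
      rw [hbase, ← Coef.Dl_apply, map_zero]⟩
    (fun d g => (step d g).choose) d
  have hgs : ∀ d, (EUpb (i d)).F (gs (d + 1)).1 = (gs d).1 := fun d =>
    (step d (gs d)).choose_spec
  -- compatibility
  have hcomp : ∀ d m (hdm : d ≤ m) (l : List T.A) (x : N.X) (hx : x ∈ F d),
      mev (N.sub (F m)) ((gs m).1 l) ⟨x, hF hdm hx⟩ = mev (N.sub (F d)) ((gs d).1 l) ⟨x, hx⟩ := by
    intro d m hdm
    induction m, hdm using Nat.le_induction with
    | base => intro l x hx; rfl
    | succ m hdm ih =>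
      intro l x hx
      rw [← ih l x hx]
      have h1 := congrFun (hgs m) l
      have h2 := congrArg (fun v => mev (N.sub (F m)) v ⟨x, hF hdm hx⟩) h1
      exact h2
  let dx : N.X → ℕ := fun x => Nat.find (hU x)
  have hdx : ∀ x, x ∈ F (dx x) := fun x => Nat.find_spec (hU x)
  have hcomp' : ∀ (l : List T.A) (x : N.X) (d m : ℕ) (hd : x ∈ F d) (hm : x ∈ F m),
      mev (N.sub (F m)) ((gs m).1 l) ⟨x, hm⟩ = mev (N.sub (F d)) ((gs d).1 l) ⟨x, hd⟩ := by
    intro l x d m hd hm
    rw [← hcomp m (max d m) (le_max_right _ _) l x hm, ← hcomp d (max d m) (le_max_left _ _) l x hd]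
  let g : List T.A → N.coef.V := fun l => mkM N
    { toFun := fun x => mev (N.sub (F (dx x))) ((gs (dx x)).1 l) ⟨x, hdx x⟩
      map_add' := by
        intro x y
        have hx : x ∈ F (max (dx x) (dx y)) := hF (le_max_left _ _) (hdx x)
        have hy : y ∈ F (max (dx x) (dx y)) := hF (le_max_right _ _) (hdx y)
        have hxy : x + y ∈ F (max (dx x) (dx y)) := (F _).add_mem hx hy
        rw [hcomp' l x _ _ hx (hdx x), hcomp' l y _ _ hy (hdx y),
          hcomp' l (x + y) _ _ hxy (hdx (x + y))]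
        exact map_add (mev (N.sub (F (max (dx x) (dx y)))) ((gs (max (dx x) (dx y))).1 l))
          (show (N.sub (F (max (dx x) (dx y)))).X from ⟨x, hx⟩)
          (show (N.sub (F (max (dx x) (dx y)))).X from ⟨y, hy⟩)
      map_smul' := by
        intro t x
        have hx : t • x ∈ F (dx x) := by
          have := (F (dx x)).smul_mem (algebraMap k T.A t) (hdx x)
          rwa [algebraMap_smul] at this
        rw [hcomp' l (t • x) _ _ hx (hdx (t • x)), RingHom.id_apply]
        have h1 := map_smul (mev (N.sub (F (dx x))) ((gs (dx x)).1 l)) t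
          (show (N.sub (F (dx x))).X from ⟨x, hdx x⟩)
        exact h1 }
  have hgF : ∀ d, (EUpb (J d)).F g = (gs d).1 := by
    intro d
    funext l
    refine mev_ext fun x => ?_
    exact hcomp' l x.1 d (dx x.1) x.2 (hdx x.1)
  have hext : ∀ v w : N.coef.V, (∀ d x, mev N v (J d x) = mev N w (J d x)) → v = w := by
    intro v w hvw
    refine mev_ext fun x => ?_
    exact hvw (dx x) ⟨x, hdx x⟩
  refine N.coef.cls_eq_zero.2 ⟨g, ?_, ?_⟩
  · refine EUmem (M := fun d => N.sub (F d)) (j := J) hext fun d => ?_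
    rw [hgF]
    exact (gs d).2.1
  · refine EUD (M := fun d => N.sub (F d)) (j := J) hext fun d => ?_
    rw [hgF]
    exact (gs d).2.2.2

end Pool.Agent.Lib.QG
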