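import Pool.Agent.Lib.MP_021f05_al.Func

/-!
# MP_021f05_al (C1): formal consequences of the long exact sequences
-/

noncomputable section

namespace Pool.Agent.Lib.QG

open MvPolynomial

variable {k : Type} [Field k] {I : Type} [Fintype I] {T' T : TAlg k I}

/-- `E^n(M) = 0` -/
def EVan (M : Mod T) (n : ℤ) : Prop := ∀ e ∈ EDeg M n, e = 0

theorem Emap_mem {M' M : Mod T} (f : M'.X →ₗ[T.A] M.X) {n : ℤ} {e : E M} (he : e ∈ EDeg M n) :
    Emap f e ∈ EDeg M' n := by
  rw [Coef.mem_Deg] at he ⊢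
  rw [← Emap_pr, he]

theorem Eres_mem (φ : THom T' T) {M : Mod T} {n : ℤ} {e : E M} (he : e ∈ EDeg M n) :
    Eres φ M e ∈ EDeg (M.res φ) n := by
  rw [Coef.mem_Deg] at he ⊢
  rw [← Eres_pr, he]

theorem Emap_zero {M' M : Mod T} (e : E M) : Emap (0 : M'.X →ₗ[T.A] M.X) e = 0 := by
  obtain ⟨z, rfl⟩ := M.coef.cls_surj e
  have h : ((modHom (0 : M'.X →ₗ[T.A] M.X)).coef (SS k I)).mapZ z = 0 := by
    apply Subtype.ext
    funext l
    refine mev_ext fun x => ?_
    exact map_zero (mev M (z.1 l))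
  exact (congrArg M'.coef.cls h).trans (M'.coef.cls.map_zero)

theorem Emap_add {M' M : Mod T} (f g : M'.X →ₗ[T.A] M.X) (e : E M) :
    Emap (f + g) e = Emap f e + Emap g e := by
  obtain ⟨z, rfl⟩ := M.coef.cls_surj e
  have h : ((modHom (f + g)).coef (SS k I)).mapZ z =
      ((modHom f).coef (SS k I)).mapZ z + ((modHom g).coef (SS k I)).mapZ z := by
    apply Subtype.ext
    funext l
    refine mev_ext fun x => ?_
    exact map_add (mev M (z.1 l)) (f x) (g x)
  exact (congrArg M'.coef.cls h).trans (M'.coef.cls.map_add _ _)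

/-- multiplication of a map by a scalar, pointwise form -/
theorem Emap_smul {M' M : Mod T} (f g : M'.X →ₗ[T.A] M.X) (t : k) (h : ∀ x, g x = t • f x)
    (e : E M) : Emap g e = t • Emap f e := by
  obtain ⟨z, rfl⟩ := M.coef.cls_surj e
  have h1 : ((modHom g).coef (SS k I)).mapZ z =
      t • ((modHom f).coef (SS k I)).mapZ z := by
    apply Subtype.ext
    funext l
    refine mev_ext fun x => ?_
    show mev M (z.1 l) (g x) = t • mev M (z.1 l) (f x)
    rw [h, map_smul]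
  exact (congrArg M'.coef.cls h1).trans (M'.coef.clsk_smul _ _)

theorem Emap_sub {M' M : Mod T} (f g : M'.X →ₗ[T.A] M.X) (e : E M) :
    Emap (f - g) e = Emap f e - Emap g e := by
  have h := Emap_add (f - g) g e
  rw [sub_add_cancel] at h
  rw [h, add_sub_cancel_right]

theorem Emap_bijective {M' M : Mod T} (f : M'.X →ₗ[T.A] M.X) (hf : Function.Bijective f) :
    Function.Bijective (Emap f) := by
  set u := LinearEquiv.ofBijective f hf with hu
  refine Function.bijective_iff_has_inverse.2 ⟨Emap (u.symm : M.X →ₗ[T.A] M'.X), ?_, ?_⟩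
  · intro e
    rw [Emap_comp]
    have : f ∘ₗ (u.symm : M.X →ₗ[T.A] M'.X) = LinearMap.id := by
      ext x
      exact u.apply_symm_apply x
    rw [this, Emap_id]
  · intro e
    rw [Emap_comp]
    have : (u.symm : M.X →ₗ[T.A] M'.X) ∘ₗ f = LinearMap.id := by
      ext x
      exact u.symm_apply_apply x
    rw [this, Emap_id]

/-- a class which is in the image of `Emap` and in degree `n` is the image of a class of
degree `n` -/
theorem Emap_lift_deg {M' M : Mod T} (f : M'.X →ₗ[T.A] M.X) {n : ℤ} {e : E M'}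
    (he : e ∈ EDeg M' n) (h : ∃ x, Emap f x = e) : ∃ x ∈ EDeg M n, Emap f x = e := by
  obtain ⟨x, hx⟩ := h
  refine ⟨M.coef.pr n x, M.coef.pr_mem_Deg n x, ?_⟩
  rw [Emap_pr, hx]
  exact (Coef.mem_Deg _).1 he

theorem EVan.of_iso {M' M : Mod T} (f : M'.X →ₗ[T.A] M.X) (hf : Function.Bijective f) {n : ℤ} :
    EVan M' n ↔ EVan M n := by
  have hb := Emap_bijective f hf
  constructor
  · intro h e he
    apply hb.1
    rw [h _ (Emap_mem f he), map_zero]
  · intro h e he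
    obtain ⟨x, hx, rfl⟩ := Emap_lift_deg f he (hb.2 e)
    rw [h x hx, map_zero]

/-- the inverse of an isomorphism of torus algebras -/
def THom.inv (φ : THom T' T) (hφ : Function.Bijective φ.f) : THom T T' where
  f := ((AlgEquiv.ofBijective φ.f hφ).symm : T.A ≃ₐ[k] T'.A)
  f_K i := by
    have h := φ.f_K i
    rw [← h]
    exact (AlgEquiv.ofBijective φ.f hφ).symm_apply_apply _
  f_ε a := by
    obtain ⟨b, rfl⟩ := hφ.2 a
    rw [φ.f_ε]
    congr 1
    exact (AlgEquiv.ofBijective φ.f hφ).symm_apply_apply b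

omit [Fintype I] in
theorem THom.inv_f (φ : THom T' T) (hφ : Function.Bijective φ.f) (a : T'.A) :
    (φ.inv hφ).f (φ.f a) = a :=
  (AlgEquiv.ofBijective φ.f hφ).symm_apply_apply a

omit [Fintype I] in
theorem THom.f_inv (φ : THom T' T) (hφ : Function.Bijective φ.f) (a : T.A) :
    φ.f ((φ.inv hφ).f a) = a :=
  (AlgEquiv.ofBijective φ.f hφ).apply_symm_apply a

/-- the identity map `M → res_ψ res_φ M` -/
def resBack (φ : THom T' T) (hφ : Function.Bijective φ.f) (M : Mod T) :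
    M.X →ₗ[T.A] ((M.res φ).res (φ.inv hφ)).X where
  toFun x := (show ((M.res φ).res (φ.inv hφ)).X from x)
  map_add' _ _ := rfl
  map_smul' a x := by
    show a • x = φ.f ((φ.inv hφ).f a) • x
    rw [φ.f_inv]

/-- restriction along an isomorphism of torus algebras -/
theorem Eres_bijective (φ : THom T' T) (hφ : Function.Bijective φ.f) (M : Mod T) :
    Function.Bijective (Eres φ M) := by
  refine Function.bijective_iff_has_inverse.2
    ⟨fun e => Emap (resBack φ hφ M) (Eres (φ.inv hφ) (M.res φ) e), ?_, ?_⟩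
  · intro e
    obtain ⟨z, rfl⟩ := M.coef.cls_surj e
    show M.coef.cls (((modHom (resBack φ hφ M)).coef (SS k I)).mapZ
      (resZ (φ.inv hφ) (M.res φ) (resZ φ M z))) = M.coef.cls z
    congr 1
    apply Subtype.ext
    funext l
    refine mev_ext fun x => ?_
    show mev M (z.1 ((l.map (φ.inv hφ).f).map φ.f)) x = mev M (z.1 l) x
    have : (l.map (φ.inv hφ).f).map φ.f = l := by
      rw [List.map_map]
      conv_rhs => rw [← List.map_id l]
      exact List.map_congr_left fun a _ => φ.f_inv hφ a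
    rw [this]
  · intro e
    obtain ⟨z, rfl⟩ := (M.res φ).coef.cls_surj e
    show (M.res φ).coef.cls (resZ φ M (((modHom (resBack φ hφ M)).coef (SS k I)).mapZ
      (resZ (φ.inv hφ) (M.res φ) z))) = (M.res φ).coef.cls z
    congr 1
    apply Subtype.ext
    funext l
    refine mev_ext fun x => ?_
    show mev (M.res φ) (z.1 ((l.map φ.f).map (φ.inv hφ).f)) x = mev (M.res φ) (z.1 l) x
    have : (l.map φ.f).map (φ.inv hφ).f = l := by
      rw [List.map_map]
      conv_rhs => rw [← List.map_id l]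
      exact List.map_congr_left fun a _ => φ.inv_f hφ a
    rw [this]

theorem EVan.res_iso (φ : THom T' T) (hφ : Function.Bijective φ.f) (M : Mod T) {n : ℤ} :
    EVan (M.res φ) n ↔ EVan M n := by
  have hb := Eres_bijective φ hφ M
  constructor
  · intro h e he
    apply hb.1
    rw [h _ (Eres_mem φ he), map_zero]
  · intro h e he
    obtain ⟨x, rfl⟩ := hb.2 e
    have h1 : M.coef.pr n x = x := by
      apply hb.1
      rw [Eres_pr]
      exact (Coef.mem_Deg _).1 he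
    rw [h x ((Coef.mem_Deg _).2 h1), map_zero]

/-- every module over an isomorphic algebra is a restriction -/
theorem exists_res_iso (φ : THom T' T) (hφ : Function.Bijective φ.f) (M' : Mod T') :
    ∃ M : Mod T, ∃ e : (M.res φ).X ≃ₗ[T'.A] M'.X, True := by
  refine ⟨M'.res (φ.inv hφ), ?_, trivial⟩
  refine LinearEquiv.symm
    { toFun := fun x => (show ((M'.res (φ.inv hφ)).res φ).X from x)
      invFun := fun x => (show M'.X from x)
      map_add' := fun _ _ => rfl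
      map_smul' := ?_
      left_inv := fun _ => rfl
      right_inv := fun _ => rfl }
  intro a x
  show a • x = (φ.inv hφ).f (φ.f a) • x
  rw [φ.inv_f]

/-- restriction of linear maps is compatible with classes -/
theorem Eres_Emap (φ : THom T' T) {M N : Mod T} (f : M.X →ₗ[T.A] N.X) (e : E N) :
    Eres φ M (Emap f e) = Emap (resMap φ f) (Eres φ N e) := Eres_map φ f e

variable [CharZero k]

theorem Eδ_mem {M' M M'' : Mod T} (S : ModSES M' M M'') {n : ℤ} {e : E M'}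
    (he : e ∈ EDeg M' n) : Eδ S e ∈ EDeg M'' (n + 1) := by
  rw [Coef.mem_Deg] at he ⊢
  rw [← Eδ_pr, he]

theorem Eδ_lift_deg {M' M M'' : Mod T} (S : ModSES M' M M'') {n : ℤ} {e : E M''}
    (he : e ∈ EDeg M'' (n + 1)) (h : ∃ x, Eδ S x = e) : ∃ x ∈ EDeg M' n, Eδ S x = e := by
  obtain ⟨x, hx⟩ := h
  refine ⟨M'.coef.pr n x, M'.coef.pr_mem_Deg n x, ?_⟩
  rw [Eδ_pr, hx]
  exact (Coef.mem_Deg _).1 he

theorem Eδ_Emap_i {M' M M'' : Mod T} (S : ModSES M' M M'') (e : E M) :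
    Eδ S (Emap S.i e) = 0 := (E_exact_sub S _).2 ⟨e, rfl⟩

theorem Emap_p_Eδ {M' M M'' : Mod T} (S : ModSES M' M M'') (e : E M') :
    Emap S.p (Eδ S e) = 0 := (E_exact_quot S _).2 ⟨e, rfl⟩

theorem Emap_i_p {M' M M'' : Mod T} (S : ModSES M' M M'') (e : E M'') :
    Emap S.i (Emap S.p e) = 0 := (E_exact_mid S _).2 ⟨e, rfl⟩

/-- graded exactness -/
theorem E_ex_mid {M' M M'' : Mod T} (S : ModSES M' M M'') {n : ℤ} {e : E M} (he : e ∈ EDeg M n)
    (h : Emap S.i e = 0) : ∃ x ∈ EDeg M'' n, Emap S.p x = e :=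
  Emap_lift_deg S.p he ((E_exact_mid S e).1 h)

theorem E_ex_sub {M' M M'' : Mod T} (S : ModSES M' M M'') {n : ℤ} {e : E M'}
    (he : e ∈ EDeg M' n) (h : Eδ S e = 0) : ∃ x ∈ EDeg M n, Emap S.i x = e :=
  Emap_lift_deg S.i he ((E_exact_sub S e).1 h)

theorem E_ex_quot {M' M M'' : Mod T} (S : ModSES M' M M'') {n : ℤ} {e : E M''}
    (he : e ∈ EDeg M'' (n + 1)) (h : Emap S.p e = 0) : ∃ x ∈ EDeg M' n, Eδ S x = e :=
  Eδ_lift_deg S he ((E_exact_quot S e).1 h)

theorem EVan.mid {M' M M'' : Mod T} (S : ModSES M' M M'') {n : ℤ} (h1 : EVan M' n)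
    (h2 : EVan M'' n) : EVan M n := by
  intro e he
  obtain ⟨x, hx, rfl⟩ := E_ex_mid S he (h1 _ (Emap_mem S.i he))
  rw [h2 x hx, map_zero]

theorem EVan.quot {M' M M'' : Mod T} (S : ModSES M' M M'') {n : ℤ} (h1 : EVan M' n)
    (h2 : EVan M (n + 1)) : EVan M'' (n + 1) := by
  intro e he
  obtain ⟨x, hx, rfl⟩ := E_ex_quot S he (h2 _ (Emap_mem S.p he))
  rw [h1 x hx, map_zero]

theorem EVan.sub {M' M M'' : Mod T} (S : ModSES M' M M'') {n : ℤ} (h1 : EVan M n)
    (h2 : EVan M'' (n + 1)) : EVan M' n := by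
  intro e he
  obtain ⟨x, hx, rfl⟩ := E_ex_sub S he (h2 _ (Eδ_mem S he))
  rw [h1 x hx, map_zero]

/-- five lemma for a map of short exact sequences, epi-mono form -/
theorem E_five {T₁ : TAlg k I} (φ : THom T₁ T) {M' M M'' : Mod T} {L' L L'' : Mod T₁}
    (S : ModSES M' M M'') (R : ModSES L' L L'') (f' : L'.X →ₗ[T₁.A] (M'.res φ).X)
    (f : L.X →ₗ[T₁.A] (M.res φ).X) (f'' : L''.X →ₗ[T₁.A] (M''.res φ).X)
    (h1 : ∀ x, resMap φ S.i (f' x) = f (R.i x)) (h2 : ∀ x, resMap φ S.p (f x) = f'' (R.p x))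
    (n : ℤ)
    (a1 : ∀ e ∈ EDeg L n, ∃ x ∈ EDeg M n, Emap f (Eres φ M x) = e)
    (a2 : ∀ x ∈ EDeg M' n, Emap f' (Eres φ M' x) = 0 → x = 0)
    (a2' : ∀ e ∈ EDeg L' n, ∃ x ∈ EDeg M' n, Emap f' (Eres φ M' x) = e)
    (a3 : ∀ x ∈ EDeg M (n + 1), Emap f (Eres φ M x) = 0 → x = 0)
    (a3' : ∀ e ∈ EDeg L (n + 1), ∃ x ∈ EDeg M (n + 1), Emap f (Eres φ M x) = e)
    (a4 : ∀ x ∈ EDeg M' (n + 1), Emap f' (Eres φ M' x) = 0 → x = 0) :
    (∀ x ∈ EDeg M'' (n + 1), Emap f'' (Eres φ M'' x) = 0 → x = 0) ∧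
    (∀ e ∈ EDeg L'' (n + 1), ∃ x ∈ EDeg M'' (n + 1), Emap f'' (Eres φ M'' x) = e) := by
  have c1 : ∀ x : E M, Emap f' (Eres φ M' (Emap S.i x)) = Emap R.i (Emap f (Eres φ M x)) := by
    intro x
    rw [Eres_map, Emap_comp, Emap_comp]
    have : resMap φ S.i ∘ₗ f' = f ∘ₗ R.i := by
      ext y
      exact h1 y
    rw [this]
  have c2 : ∀ x : E M'', Emap f (Eres φ M (Emap S.p x)) = Emap R.p (Emap f'' (Eres φ M'' x)) := by
    intro x
    rw [Eres_map, Emap_comp, Emap_comp]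
    have : resMap φ S.p ∘ₗ f = f'' ∘ₗ R.p := by
      ext y
      exact h2 y
    rw [this]
  have c3 : ∀ x : E M', Emap f'' (Eres φ M'' (Eδ S x)) = Eδ R (Emap f' (Eres φ M' x)) := by
    intro x
    rw [Eres_δ]
    exact Eδ_natural (S.res φ) R f' f f'' h1 h2 _
  constructor
  · intro x hx hx0
    have h3 : Emap S.p x = 0 := by
      refine a3 _ (Emap_mem S.p hx) ?_
      rw [c2, hx0, map_zero]
    obtain ⟨y, hy, rfl⟩ := E_ex_quot S hx h3
    rw [c3] at hx0
    obtain ⟨u, hu, hu2⟩ := E_ex_sub R (Emap_mem f' (Eres_mem φ hy)) hx0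
    obtain ⟨w, hw, rfl⟩ := a1 u hu
    have h4 : y - Emap S.i w = 0 := by
      refine a2 _ ((EDeg M' n).sub_mem hy (Emap_mem S.i hw)) ?_
      rw [map_sub, map_sub, c1, hu2, sub_self]
    rw [sub_eq_zero] at h4
    rw [h4, Eδ_Emap_i]
  · intro e he
    obtain ⟨x, hx, hx2⟩ := a3' _ (Emap_mem R.p he)
    have h3 : Emap S.i x = 0 := by
      refine a4 _ (Emap_mem S.i hx) ?_
      rw [c1, hx2, Emap_i_p]
    obtain ⟨y, hy, rfl⟩ := E_ex_mid S hx h3
    have h4 : Emap R.p (Emap f'' (Eres φ M'' y) - e) = 0 := by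
      rw [map_sub, ← c2, hx2, sub_self]
    obtain ⟨u, hu, hu2⟩ := E_ex_quot R
      ((EDeg L'' (n + 1)).sub_mem (Emap_mem f'' (Eres_mem φ hy)) he) h4
    obtain ⟨w, hw, rfl⟩ := a2' u hu
    refine ⟨y - Eδ S w, (EDeg M'' (n + 1)).sub_mem hy (Eδ_mem S hw), ?_⟩
    rw [map_sub, map_sub, c3, hu2, sub_sub_cancel]

end Pool.Agent.Lib.QG
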