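import Pool.Agent.Lib.MP_021f05_al.Stmt
import Pool.Agent.Lib.MP_021f05_al.ChevThm

/-!
# MP_021f05_al (K6): exponents
-/

noncomputable section

namespace Pool.Agent.Lib.QG

open MvPolynomial

variable {k : Type} [Field k] [CharZero k] {I : Type} [Fintype I] [DecidableEq I] (C : CDatum I)

namespace Expo

/-- the symmetrized Cartan matrix -/
def A (k : Type) [Field k] : Matrix I I k := fun i l => ((C.d l * C.a l i : ℤ) : k)

lemma A_det : IsUnit (A C k).det := by
  classical
  let M : Matrix I I ℤ := fun i l => C.d l * C.a l i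
  have hdet : M.det ≠ 0 := by
    intro h0
    rw [← Matrix.det_transpose, ← Matrix.exists_mulVec_eq_zero_iff] at h0
    obtain ⟨v, hv, hv0⟩ := h0
    apply hv
    apply ChevTop.ct_inj C
    intro l
    have h1 := congrFun hv0 l
    simp only [Matrix.mulVec, dotProduct, Matrix.transpose_apply, Pi.zero_apply, M] at h1
    have h2 : (C.d l : ℤ) * C.ct l v = 0 := by
      rw [← h1, CDatum.ct, Finset.mul_sum]
      exact Finset.sum_congr rfl fun i _ => by ring
    have h3 : (C.d l : ℤ) ≠ 0 := by
      have := C.d_pos l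
      omega
    exact (mul_eq_zero.mp h2).resolve_left h3
  have hA : (A C k).det ≠ 0 := by
    have hAM : A C k = (Int.castRingHom k).mapMatrix M := by
      ext i l
      simp [A, M]
    have : (A C k).det = ((M.det : ℤ) : k) := by
      rw [hAM, ← RingHom.map_det]
      rfl
    rw [this]
    exact_mod_cast hdet
  exact isUnit_iff_ne_zero.mpr hA

/-- `α_l ↦ d_l θ_l` -/
def Th (k : Type) [Field k] : MvPolynomial I k →ₐ[k] MvPolynomial I k :=
  aeval fun l => ChevTop.lf C k (C.al l)

/-- the inverse of `Th` -/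
def Th' (k : Type) [Field k] : MvPolynomial I k →ₐ[k] MvPolynomial I k :=
  aeval fun j => ∑ i, (A C k)⁻¹ j i • (X i : MvPolynomial I k)

omit [CharZero k] in
lemma lf_al_eq (i : I) : ChevTop.lf C k (C.al i) = ∑ l, A C k i l • X l := by
  simp only [ChevTop.lf, ChevTop.ct_al, A]

lemma Th_Th' (p : MvPolynomial I k) : Th C k (Th' C k p) = p := by
  have : (Th C k).comp (Th' C k) = AlgHom.id k _ := by
    refine MvPolynomial.algHom_ext fun j => ?_
    rw [AlgHom.comp_apply, Th', aeval_X, map_sum]
    simp only [map_smul, Th, aeval_X, lf_al_eq, Finset.smul_sum, smul_smul]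
    rw [Finset.sum_comm]
    simp only [← Finset.sum_smul]
    have h2 : ∀ l, ∑ i, (A C k)⁻¹ j i * A C k i l = if j = l then 1 else 0 := by
      intro l
      have := congrFun (congrFun (Matrix.nonsing_inv_mul (A C k) (A_det C)) j) l
      rw [Matrix.mul_apply, Matrix.one_apply] at this
      exact this
    simp [h2]
  exact AlgHom.congr_fun this p

lemma Th'_Th (p : MvPolynomial I k) : Th' C k (Th C k p) = p := by
  have : (Th' C k).comp (Th C k) = AlgHom.id k _ := by
    refine MvPolynomial.algHom_ext fun j => ?_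
    rw [AlgHom.comp_apply, Th, aeval_X, lf_al_eq, map_sum]
    simp only [map_smul, Th', aeval_X, Finset.smul_sum, smul_smul]
    rw [Finset.sum_comm]
    simp only [← Finset.sum_smul]
    have h2 : ∀ l, ∑ i, A C k j i * (A C k)⁻¹ i l = if j = l then 1 else 0 := by
      intro l
      have := congrFun (congrFun (Matrix.mul_nonsing_inv (A C k) (A_det C)) j) l
      rw [Matrix.mul_apply, Matrix.one_apply] at this
      exact this
    simp [h2]
  exact AlgHom.congr_fun this p

lemma Th_inj : Function.Injective (Th C k) := Function.LeftInverse.injective (Th'_Th C)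

lemma Th'_inj : Function.Injective (Th' C k) := Function.LeftInverse.injective (Th_Th' C)

omit [CharZero k] in
lemma Th_homog {p : MvPolynomial I k} {n : ℕ} (h : p.IsHomogeneous n) :
    (Th C k p).IsHomogeneous n := by
  have := h.aeval (fun l => ChevTop.lf C k (C.al l)) (fun l => ChevTop.lf_homog C _)
  rwa [one_mul] at this

omit [CharZero k] in
lemma Th'_homog {p : MvPolynomial I k} {n : ℕ} (h : p.IsHomogeneous n) :
    (Th' C k p).IsHomogeneous n := by
  have := h.aeval (fun j => ∑ i, (A C k)⁻¹ j i • (X i : MvPolynomial I k)) (n := 1) (fun l => by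
    refine IsHomogeneous.sum _ _ _ fun j _ => ?_
    rw [MvPolynomial.smul_eq_C_mul]
    exact isHomogeneous_C_mul_X _ _)
  rwa [one_mul] at this

omit [CharZero k] in
lemma Th_simpleRefl (i : I) (p : MvPolynomial I k) :
    Th C k (Stmt.simpleRefl k C.a i p) = C.rs k i (Th C k p) := by
  have : (Th C k).comp (Stmt.simpleRefl k C.a i) = (C.rs k i).comp (Th C k) := by
    refine MvPolynomial.algHom_ext fun j => ?_
    rw [AlgHom.comp_apply, AlgHom.comp_apply, Stmt.simpleRefl, aeval_X, map_sub, map_mul]
    rw [Th, aeval_X, aeval_X, ChevTop.rs_lf, CDatum.refl, ChevTop.lf_sub_smul, ChevTop.ct_al]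
    rw [map_intCast]
    congr 1
    rw [MvPolynomial.smul_eq_C_mul, map_intCast]
  exact AlgHom.congr_fun this p

lemma Th'_rs (i : I) (p : MvPolynomial I k) :
    Th' C k (C.rs k i p) = Stmt.simpleRefl k C.a i (Th' C k p) := by
  apply Th_inj C
  rw [Th_Th', Th_simpleRefl, Th_Th']

omit [CharZero k] in
lemma adjoin_map (φ : MvPolynomial I k →ₐ[k] MvPolynomial I k) {r : ℕ}
    (f : Fin r → MvPolynomial I k) {p : MvPolynomial I k}
    (hp : p ∈ Algebra.adjoin k (Set.range f)) :
    φ p ∈ Algebra.adjoin k (Set.range fun j => φ (f j)) := by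
  have h1 : φ p ∈ (Algebra.adjoin k (Set.range f)).map φ := ⟨p, hp, rfl⟩
  rw [AlgHom.map_adjoin, ← Set.range_comp] at h1
  exact h1

end Expo

open Expo in
/-- transport along `α_l ↦ d_l α_l^∨` -/
theorem isBasic_of_exponents {r : ℕ} {m : Fin r → ℕ} (h : Stmt.IsExponents k C.a m) :
    ∃ f : Fin r → MvPolynomial I k, IsBasic C f (fun j => m j + 1) := by
  obtain ⟨f, hf, hinv, hind, hgen⟩ := h
  refine ⟨fun j => Th C k (f j), fun j => Th_homog C (hf j), fun j => Nat.succ_pos _, ?_, ?_, ?_⟩
  · intro j i
    rw [← Th_simpleRefl, hinv]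
  · exact hind.map' (Th_inj C)
  · intro p hp
    have h1 : Th' C k p ∈ Algebra.adjoin k (Set.range f) := by
      apply hgen
      intro i
      rw [← Th'_rs, hp i]
    have h2 := adjoin_map (Th C k) f h1
    rwa [Th_Th'] at h2

open Expo in
theorem exists_exponents :
    ∃ m : Fin (Fintype.card I) → ℕ, Stmt.IsExponents k C.a m := by
  obtain ⟨f, m, hb⟩ := C.exists_basic (k := k)
  refine ⟨fun j => m j - 1, fun j => Th' C k (f j), ?_, ?_, ?_, ?_⟩
  · intro j
    have h1 := hb.two_le C j
    have h2 : m j - 1 + 1 = m j := by omega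
    rw [h2]
    exact Th'_homog C (hb.homog j)
  · intro j i
    rw [← Th'_rs, hb.inv j i]
  · exact hb.indep.map' (Th'_inj C)
  · intro p hp
    have h1 : Th C k p ∈ Algebra.adjoin k (Set.range f) := by
      apply hb.gen
      intro i
      rw [← Th_simpleRefl, hp i]
    have h2 := adjoin_map (Th' C k) f h1
    rwa [Th'_Th] at h2

end Pool.Agent.Lib.QG
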