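import Mathlib

/-!
# MP_021f05_al (K1): recognizing exterior algebras
-/

noncomputable section

namespace Pool.Agent.Lib.QG

/-- the image of the generating space has square zero -/
theorem k1_sum_sq {k : Type} [Field k] {H : Type*} [Semiring H] [Algebra k H]
    {r : ℕ} (y : Fin r → H) (h : ∀ i j, y i * y j + y j * y i = 0) (h2 : ∀ i, y i * y i = 0)
    (v : Fin r → k) (s : Finset (Fin r)) :
    (∑ i ∈ s, v i • y i) * (∑ i ∈ s, v i • y i) = 0 := by
  classical
  induction s using Finset.induction_on with
  | empty => simp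
  | insert a s ha ih =>
    rw [Finset.sum_insert ha]
    have h1 : (v a • y a) * (∑ i ∈ s, v i • y i) + (∑ i ∈ s, v i • y i) * (v a • y a) = 0 := by
      rw [Finset.mul_sum, Finset.sum_mul, ← Finset.sum_add_distrib]
      apply Finset.sum_eq_zero
      intro i _
      rw [smul_mul_smul_comm, smul_mul_smul_comm, mul_comm (v i) (v a), ← smul_add, h, smul_zero]
    have h3 : (v a • y a) * (v a • y a) = 0 := by
      rw [smul_mul_smul_comm, h2, smul_zero]
    calc (v a • y a + ∑ i ∈ s, v i • y i) * (v a • y a + ∑ i ∈ s, v i • y i)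
        = (v a • y a) * (v a • y a) + ((v a • y a) * (∑ i ∈ s, v i • y i) +
          (∑ i ∈ s, v i • y i) * (v a • y a)) +
          (∑ i ∈ s, v i • y i) * (∑ i ∈ s, v i • y i) := by
            rw [add_mul, mul_add, mul_add]
            abel
      _ = 0 := by rw [h1, h3, ih]; simp

/-- a generator times an ordered product -/
theorem k1_mul_prod {k : Type} [Field k] {r : ℕ} {H : Type*} [Ring H] [Algebra k H]
    (x : Fin r → H) (h : ∀ i j, x i * x j + x j * x i = 0) (h2 : ∀ i, x i * x i = 0)
    (i : Fin r) (L : List (Fin r)) (hL : L.Pairwise (· < ·)) :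
    ∃ (c : k) (L' : List (Fin r)), L'.Pairwise (· < ·) ∧ (∀ a ∈ L', a ∈ i :: L) ∧
      x i * (L.map x).prod = c • (L'.map x).prod := by
  induction L with
  | nil =>
    exact ⟨1, [i], List.pairwise_singleton _ _, by simp, by simp⟩
  | cons a T ih =>
    rw [List.pairwise_cons] at hL
    rcases lt_trichotomy i a with hia | hia | hia
    · refine ⟨1, i :: a :: T, ?_, fun b hb => hb, by simp⟩
      rw [List.pairwise_cons, List.pairwise_cons]
      refine ⟨?_, hL⟩
      intro b hb
      rw [List.mem_cons] at hb
      rcases hb with rfl | hb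
      · exact hia
      · exact hia.trans (hL.1 b hb)
    · refine ⟨0, [], List.Pairwise.nil, by simp, ?_⟩
      rw [List.map_cons, List.prod_cons, ← mul_assoc, hia, h2, zero_mul, zero_smul]
    · obtain ⟨c, L', hL', hmem, hprod⟩ := ih hL.2
      refine ⟨-c, a :: L', ?_, ?_, ?_⟩
      · rw [List.pairwise_cons]
        refine ⟨?_, hL'⟩
        intro b hb
        have := hmem b hb
        rw [List.mem_cons] at this
        rcases this with rfl | hb
        · exact hia
        · exact hL.1 b hb
      · intro b hb
        rw [List.mem_cons] at hb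
        rcases hb with rfl | hb
        · simp
        · have := hmem b hb
          rw [List.mem_cons] at this
          rcases this with rfl | hb
          · simp
          · simp [hb]
      · have h3 : x i * x a = - (x a * x i) := eq_neg_of_add_eq_zero_left (h i a)
        rw [List.map_cons, List.prod_cons, ← mul_assoc, h3, neg_mul, mul_assoc, hprod,
          List.map_cons, List.prod_cons, mul_smul_comm, neg_smul]

/-- the ordered monomials span the exterior algebra -/
theorem k1_span {k : Type} [Field k] {r : ℕ} :
    Submodule.span k (Set.range fun S : Finset (Fin r) =>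
      ((S.sort (· ≤ ·)).map (fun j => ExteriorAlgebra.ι k (Pi.single j (1 : k)))).prod) =
      (⊤ : Submodule k (ExteriorAlgebra k (Fin r → k))) := by
  classical
  let x : Fin r → ExteriorAlgebra k (Fin r → k) :=
    fun j => ExteriorAlgebra.ι k (Pi.single j (1 : k))
  set W : Submodule k (ExteriorAlgebra k (Fin r → k)) :=
    Submodule.span k (Set.range fun S : Finset (Fin r) => ((S.sort (· ≤ ·)).map x).prod) with hW
  have hx : ∀ i j, x i * x j + x j * x i = 0 := fun i j => ExteriorAlgebra.ι_add_mul_swap _ _
  have hx2 : ∀ i, x i * x i = 0 := fun i => ExteriorAlgebra.ι_sq_zero _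
  have hlist : ∀ L : List (Fin r), L.Pairwise (· < ·) → (L.map x).prod ∈ W := by
    intro L hL
    apply Submodule.subset_span
    refine ⟨L.toFinset, ?_⟩
    have h1 : L.toFinset.sort (· ≤ ·) = L := by
      rw [List.toFinset_sort (r := (· ≤ ·)) (hL.imp (fun h => ne_of_lt h))]
      exact hL.imp le_of_lt
    simp only [h1]
  have hi : ∀ i, ∀ w ∈ W, x i * w ∈ W := by
    intro i w hw
    induction hw using Submodule.span_induction with
    | mem w hw =>
      obtain ⟨S, rfl⟩ := hw
      have hS : (S.sort (· ≤ ·)).Pairwise (· < ·) := by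
        have h1 := Finset.pairwise_sort S (· ≤ ·)
        have h2 := Finset.sort_nodup S (· ≤ ·)
        exact (h1.and h2).imp (fun h => lt_of_le_of_ne h.1 h.2)
      obtain ⟨c, L', hL', -, hprod⟩ := k1_mul_prod (k := k) x hx hx2 i _ hS
      simp only [hprod]
      exact W.smul_mem c (hlist L' hL')
    | zero => rw [mul_zero]; exact W.zero_mem
    | add a b _ _ ha hb => rw [mul_add]; exact W.add_mem ha hb
    | smul c a _ ha => rw [mul_smul_comm]; exact W.smul_mem c ha
  have hι : ∀ v : Fin r → k, ∀ w ∈ W, ExteriorAlgebra.ι k v * w ∈ W := by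
    intro v w hw
    have hv : ExteriorAlgebra.ι k v = ∑ j, v j • x j := by
      conv_lhs => rw [← Finset.univ_sum_single v]
      rw [map_sum]
      apply Finset.sum_congr rfl
      intro j _
      have h1 : (Pi.single j (v j) : Fin r → k) =
          v j • (Pi.single j (1 : k) : Fin r → k) := by
        rw [← Pi.single_smul, smul_eq_mul, mul_one]
      rw [h1, map_smul]
    rw [hv, Finset.sum_mul]
    apply W.sum_mem
    intro j _
    rw [smul_mul_assoc]
    exact W.smul_mem _ (hi j w hw)
  have hall : ∀ a : ExteriorAlgebra k (Fin r → k), ∀ w ∈ W, a * w ∈ W := by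
    intro a
    induction a using ExteriorAlgebra.induction with
    | algebraMap c =>
      intro w hw
      rw [← Algebra.smul_def]
      exact W.smul_mem c hw
    | ι v => exact hι v
    | mul a b ha hb =>
      intro w hw
      rw [mul_assoc]
      exact ha _ (hb w hw)
    | add a b ha hb =>
      intro w hw
      rw [add_mul]
      exact W.add_mem (ha w hw) (hb w hw)
  have h1 : (1 : ExteriorAlgebra k (Fin r → k)) ∈ W := by
    have := hlist [] List.Pairwise.nil
    simpa using this
  rw [eq_top_iff]
  intro a _
  have := hall a 1 h1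
  rwa [mul_one] at this

theorem exterior_equiv_of_basis {k : Type} [Field k] {H : Type*} [Semiring H] [Algebra k H]
    {r : ℕ} (y : Fin r → H) (h : ∀ i j, y i * y j + y j * y i = 0) (h2 : ∀ i, y i * y i = 0)
    (hb : LinearIndependent k (fun S : Finset (Fin r) => ((S.sort (· ≤ ·)).map y).prod))
    (hs : Submodule.span k (Set.range
      fun S : Finset (Fin r) => ((S.sort (· ≤ ·)).map y).prod) = ⊤) :
    ∃ φ : ExteriorAlgebra k (Fin r → k) ≃ₐ[k] H,
      ∀ j, φ (ExteriorAlgebra.ι k (Pi.single j 1)) = y j := by
  classical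
  let f : (Fin r → k) →ₗ[k] H :=
    { toFun := fun v => ∑ i, v i • y i
      map_add' := fun v w => by
        rw [← Finset.sum_add_distrib]
        exact Finset.sum_congr rfl fun i _ => add_smul _ _ _
      map_smul' := fun c v => by
        rw [RingHom.id_apply, Finset.smul_sum]
        exact Finset.sum_congr rfl fun i _ => mul_smul _ _ _ }
  have hf : ∀ v, f v * f v = 0 := fun v => k1_sum_sq y h h2 v Finset.univ
  let ψ : ExteriorAlgebra k (Fin r → k) →ₐ[k] H := ExteriorAlgebra.lift k ⟨f, hf⟩
  have hψ : ∀ j, ψ (ExteriorAlgebra.ι k (Pi.single j 1)) = y j := by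
    intro j
    rw [show ψ (ExteriorAlgebra.ι k (Pi.single j 1)) = f (Pi.single j 1) from
      ExteriorAlgebra.lift_ι_apply k f hf _]
    change ∑ i, (Pi.single j (1 : k) : Fin r → k) i • y i = y j
    rw [Finset.sum_eq_single j]
    · simp
    · intro i _ hij
      rw [Pi.single_eq_of_ne hij, zero_smul]
    · simp
  have hprod : ∀ S : Finset (Fin r), ψ (((S.sort (· ≤ ·)).map
      (fun j => ExteriorAlgebra.ι k (Pi.single j (1 : k)))).prod) =
      ((S.sort (· ≤ ·)).map y).prod := by
    intro S
    rw [map_list_prod, List.map_map]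
    congr 1
    apply List.map_congr_left
    intro j _
    exact hψ j
  have hinj : Function.Injective ψ := by
    rw [injective_iff_map_eq_zero]
    intro a ha
    have ha' : a ∈ Submodule.span k (Set.range fun S : Finset (Fin r) =>
      ((S.sort (· ≤ ·)).map (fun j => ExteriorAlgebra.ι k (Pi.single j (1 : k)))).prod) := by
      rw [k1_span]
      trivial
    rw [Submodule.mem_span_range_iff_exists_fun] at ha'
    obtain ⟨c, rfl⟩ := ha'
    rw [map_sum] at ha
    have h3 : ∑ S : Finset (Fin r), c S • ((S.sort (· ≤ ·)).map y).prod = 0 := by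
      rw [← ha]
      apply Finset.sum_congr rfl
      intro S _
      rw [map_smul, hprod]
    have h4 : ∀ S, c S = 0 := by
      have h5 := Fintype.linearIndependent_iffₛ.1 hb c 0 (by rw [h3]; simp)
      exact h5
    apply Finset.sum_eq_zero
    intro S _
    rw [h4 S, zero_smul]
  have hsurj : Function.Surjective ψ := by
    have h3 : LinearMap.range ψ.toLinearMap = ⊤ := by
      rw [eq_top_iff, ← hs, Submodule.span_le]
      rintro _ ⟨S, rfl⟩
      exact ⟨_, hprod S⟩
    intro b
    have : b ∈ LinearMap.range ψ.toLinearMap := by rw [h3]; trivial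
    exact this
  exact ⟨AlgEquiv.ofBijective ψ ⟨hinj, hsurj⟩, fun j => hψ j⟩

end Pool.Agent.Lib.QG
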