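import Pool.Agent.Lib.MP_021f05_al.Rep

/-!
# MP_021f05_al: cochains with values in a commutative algebra (definitions)

`R` is a commutative `k`-algebra with elements `ξ i`; cochains are multilinear functions
`List T.A → R`; the differential is `b + ∑ ξ_i h_i`.  For `R = k`, `ξ = 0` this is the bar complex
of the augmented algebra `T.A`.
-/

noncomputable section

namespace Pool.Agent.Lib.QG

open MvPolynomial

namespace PC

variable {k : Type} [Field k] {I : Type} (T : TAlg k I) {R : Type} [CommRing R] [Algebra k R]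

/-- multilinear functions on lists -/
def IsML (f : List T.A → R) : Prop :=
  (∀ l₁ l₂ a b, f (l₁ ++ (a + b) :: l₂) = f (l₁ ++ a :: l₂) + f (l₁ ++ b :: l₂)) ∧
  (∀ l₁ l₂ (t : k) a, f (l₁ ++ (t • a) :: l₂) = t • f (l₁ ++ a :: l₂))

/-- `(tl f a)(l) = f(a :: l)` -/
def tl (f : List T.A → R) (a : T.A) : List T.A → R := fun l => f (a :: l)

/-- `(act f a)(l) = f(a · l)`, and `ε(a) f([])` on the empty list -/
def act (f : List T.A → R) (a : T.A) : List T.A → R
  | [] => T.ε a • f []
  | a' :: l => f ((a * a') :: l)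

/-- the bar differential without its first face -/
def dd : List T.A → (List T.A → R) → R
  | [], _ => 0
  | a :: l, f => - act T f a l - dd l (tl T f a)

/-- the bar differential
`(b f)(a₁,…,a_{n+1}) = ε(a₁) f(a₂,…) - f(a₁a₂,…) + … + (-1)^{n+1} f(a₁,…,a_n) ε(a_{n+1})` -/
def b (f : List T.A → R) : List T.A → R
  | [] => 0
  | a :: l => T.ε a • f l + dd T (a :: l) f

/-- insertion of `K_i` -/
def hh (i : I) : List T.A → (List T.A → R) → R
  | [], f => f [(T.K i : T.A)]
  | a :: l, f => f ((T.K i : T.A) :: (a :: l).map (T.adi i)) - hh i l (tl T f a)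

/-- insertion of `K_i` -/
def h (i : I) (f : List T.A → R) : List T.A → R := fun l => hh T i l f

/-- torus invariant functions -/
def IsInv (f : List T.A → R) : Prop := ∀ i l, f (l.map (T.adi i)) = f l

/-- the invariant cochains -/
def Coc (R : Type) [CommRing R] [Algebra k R] : Submodule R (List T.A → R) where
  carrier := {f | IsML T f ∧ IsInv T f}
  add_mem' := by
    rintro f g ⟨⟨hf1, hf2⟩, hf⟩ ⟨⟨hg1, hg2⟩, hg⟩
    refine ⟨⟨fun l₁ l₂ a b => ?_, fun l₁ l₂ t a => ?_⟩, fun i l => ?_⟩
    · simp only [Pi.add_apply, hf1, hg1]; abel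
    · simp only [Pi.add_apply, hf2, hg2, smul_add]
    · simp only [Pi.add_apply, hf i l, hg i l]
  zero_mem' := ⟨⟨fun _ _ _ _ => by simp, fun _ _ _ _ => by simp⟩, fun _ _ => rfl⟩
  smul_mem' := by
    rintro p f ⟨⟨hf1, hf2⟩, hf⟩
    refine ⟨⟨fun l₁ l₂ a b => ?_, fun l₁ l₂ t a => ?_⟩, fun i l => ?_⟩
    · simp only [Pi.smul_apply, hf1, smul_add]
    · simp only [Pi.smul_apply, hf2, smul_eq_mul, mul_smul_comm]
    · simp only [Pi.smul_apply, hf i l]

/-- the differential of the Cartan model -/
def D [Fintype I] (ξ : I → R) (f : List T.A → R) : List T.A → R :=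
  fun l => b T f l + ∑ i, ξ i * h T i f l

/-- the cup product: `(cup f g)(l) = ∑_{l = l₁ ++ l₂} f(l₁) g(l₂)` -/
def cup (f g : List T.A → R) : List T.A → R
  | [] => f [] * g []
  | a :: l => f [] * g (a :: l) + cup (fun l' => f (a :: l')) g l

/-- the unit -/
def unit (R : Type) [CommRing R] : List T.A → R
  | [] => 1
  | _ :: _ => 0

/-- sign `(-1)^{length}` -/
def sg (f : List T.A → R) : List T.A → R := fun l => (-1) ^ l.length * f l

/-- functions supported on lists of length `n` -/
def Supp (n : ℕ) (f : List T.A → R) : Prop := ∀ l, l.length ≠ n → f l = 0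

/-- change of coefficients -/
def bc {R' : Type} [CommRing R'] [Algebra k R'] (φ : R →ₐ[k] R') (f : List T.A → R) :
    List T.A → R' := fun l => φ (f l)

/-- homogeneous cochains of total degree `n` for a polynomial ring `R` (variables of degree two) -/
def Hom {σ : Type} (n : ℤ) (f : List T.A → MvPolynomial σ k) : Prop :=
  ∀ l, gc (n - l.length) (f l) = f l

/-- the class of variables `x_j`, `j ∈ J`, zero otherwise -/
def xJ (k : Type) [Field k] {I : Type} (J : Set I) (i : I) : MvPolynomial J k :=
  open Classical in if h : i ∈ J then X ⟨i, h⟩ else 0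

end PC

end Pool.Agent.Lib.QG
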