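import Pool.Agent.Lib.MP_021f05_al.Func
import Pool.Agent.Lib.MP_021f05_al.PureDef

/-!
# MP_021f05_al (J2): bar cohomology and Yoneda Ext
-/

noncomputable section

namespace Pool.Agent.Lib.QG

open CategoryTheory

variable {k : Type} [Field k] {I : Type}

/-- the trivial module as an object of the category of modules -/
def kk (T : TAlg k I) : ModuleCat.{0} T.A := ModuleCat.of T.A (triv T).X

/-! ### cochains with values in a module -/

namespace XB

section cochains

variable {T : TAlg k I} {M N : Type} [AddCommGroup M] [Module T.A M] [AddCommGroup N]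
  [Module T.A N]

/-- multilinear functions with values in a module -/
def IsML (f : List T.A → M) : Prop :=
  (∀ l₁ l₂ a b, f (l₁ ++ (a + b) :: l₂) = f (l₁ ++ a :: l₂) + f (l₁ ++ b :: l₂)) ∧
  (∀ l₁ l₂ (t : k) a, f (l₁ ++ (t • a) :: l₂) = algebraMap k T.A t • f (l₁ ++ a :: l₂))

/-- functions supported on lists of length `n` -/
def Supp (n : ℕ) (f : List T.A → M) : Prop := ∀ l, l.length ≠ n → f l = 0

/-- `(act f a)(l) = f(a · l)`, and `ε(a) f([])` on the empty list -/
def act (f : List T.A → M) (a : T.A) : List T.A → M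
  | [] => algebraMap k T.A (T.ε a) • f []
  | a' :: l => f ((a * a') :: l)

/-- the bar differential without its first face -/
def dd : List T.A → (List T.A → M) → M
  | [], _ => 0
  | a :: l, f => - act f a l - dd l (fun l' => f (a :: l'))

/-- the bar differential -/
def b (f : List T.A → M) : List T.A → M
  | [] => 0
  | a :: l => a • f l + dd (a :: l) f

theorem b_nil (f : List T.A → M) : b f [] = 0 := rfl

theorem b_single (f : List T.A → M) (a : T.A) :
    b f [a] = a • f [] - algebraMap k T.A (T.ε a) • f [] := by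
  simp only [b, dd, act, sub_zero]
  abel

theorem dd_map (h : M →ₗ[T.A] N) (l : List T.A) :
    ∀ f : List T.A → M, dd l (fun l' => h (f l')) = h (dd l f) := by
  induction l with
  | nil => intro f; simp [dd]
  | cons a l ih =>
    intro f
    simp only [dd, map_sub, map_neg]
    rw [ih]
    congr 2
    cases l with
    | nil => simp [act]
    | cons a' l => rfl

theorem b_map (h : M →ₗ[T.A] N) (f : List T.A → M) :
    b (fun l => h (f l)) = fun l => h (b f l) := by
  funext l
  cases l with
  | nil => simp [b]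
  | cons a l =>
    simp only [b, map_add, map_smul]
    rw [dd_map]

theorem dd_add (l : List T.A) :
    ∀ f g : List T.A → M, dd l (fun l' => f l' + g l') = dd l f + dd l g := by
  induction l with
  | nil => intro f g; simp [dd]
  | cons a l ih =>
    intro f g
    have h1 : act (fun l' => f l' + g l') a l = act f a l + act g a l := by
      cases l with
      | nil => simp [act, smul_add]
      | cons a' l => rfl
    simp only [dd]
    rw [ih, h1]
    abel

theorem b_add (f g : List T.A → M) : b (fun l => f l + g l) = fun l => b f l + b g l := by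
  funext l
  cases l with
  | nil => simp [b]
  | cons a l =>
    simp only [b, smul_add]
    rw [dd_add]
    abel

theorem b_neg (f : List T.A → M) : b (fun l => - f l) = fun l => - b f l := by
  have := b_map (T := T) (-LinearMap.id : M →ₗ[T.A] M) f
  simpa using this

theorem b_sub (f g : List T.A → M) : b (fun l => f l - g l) = fun l => b f l - b g l := by
  have h1 : (fun l => f l - g l) = fun l => f l + (- g l) := by
    funext l; exact sub_eq_add_neg _ _
  rw [h1, b_add, b_neg]
  funext l
  exact (sub_eq_add_neg _ _).symm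

theorem dd_zero (l : List T.A) : dd l (fun _ => (0 : M)) = 0 := by
  induction l with
  | nil => rfl
  | cons a l ih =>
    have h1 : act (fun _ => (0 : M)) a l = 0 := by
      cases l with
      | nil => simp [act]
      | cons a' l => rfl
    simp only [dd]
    rw [ih, h1]
    simp

theorem dd_supp (l : List T.A) : ∀ (n : ℕ) (f : List T.A → M), Supp n f →
    l.length ≠ n + 1 → dd l f = 0 := by
  induction l with
  | nil => intro n f _ _; rfl
  | cons a l ih =>
    intro n f hf hl
    simp only [dd]
    have h1 : act f a l = 0 := by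
      cases l with
      | nil =>
        have : f [] = 0 := hf [] (by
          intro h
          apply hl
          simp at h ⊢
          omega)
        simp only [act]
        rw [this, smul_zero]
      | cons a' l =>
        exact hf _ (by
          intro h
          apply hl
          simp only [List.length_cons] at h ⊢
          omega)
    have h2 : dd l (fun l' => f (a :: l')) = 0 := by
      rcases n with _ | n
      · have h3 : (fun l' => f (a :: l')) = fun _ => 0 := by
          funext l'
          exact hf _ (by simp)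
        rw [h3, dd_zero]
      · refine ih n _ (fun l' hl' => hf _ (by simpa using hl')) ?_
        intro h
        apply hl
        simp only [List.length_cons]
        omega
    rw [h1, h2, neg_zero, sub_zero]

theorem b_supp {n : ℕ} {f : List T.A → M} (hf : Supp n f) (l : List T.A)
    (hl : l.length ≠ n + 1) : b f l = 0 := by
  cases l with
  | nil => rfl
  | cons a l =>
    simp only [b]
    rw [dd_supp _ n f hf hl, hf l (by
      intro h
      apply hl
      simp only [List.length_cons]
      omega), smul_zero, add_zero]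

theorem b_supp' {n : ℕ} {f : List T.A → M} (hf : ∀ l, l.length + 1 ≠ n → f l = 0) (l : List T.A)
    (hl : l.length ≠ n) : b f l = 0 := by
  rcases n with _ | n
  · have h1 : f = fun _ => 0 := funext fun l => hf l (by omega)
    rw [h1]
    cases l with
    | nil => rfl
    | cons a l => simp only [b]; rw [dd_zero]; simp
  · exact b_supp (fun l hl => hf l (by omega)) l hl

/-- `k`-linear maps from `A` to `M` -/
def CI (T : TAlg k I) (M : Type) [AddCommGroup M] [Module T.A M] : AddSubgroup (T.A →+ M) where
  carrier := {φ | ∀ (t : k) a, φ (t • a) = algebraMap k T.A t • φ a}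
  add_mem' := by
    intro φ ψ h1 h2 t a
    simp only [AddMonoidHom.add_apply, smul_add]
    rw [h1, h2]
  zero_mem' := by
    intro t a
    simp
  neg_mem' := by
    intro φ h1 t a
    simp only [AddMonoidHom.neg_apply, smul_neg]
    rw [h1]

/-- evaluation -/
def ev (φ : CI T M) (x : T.A) : M := φ.1 x

@[ext] theorem CI_ext {φ ψ : CI T M} (h : ∀ x, ev φ x = ev ψ x) : φ = ψ :=
  Subtype.ext (AddMonoidHom.ext h)

theorem ev_add (φ ψ : CI T M) (x : T.A) : ev (φ + ψ) x = ev φ x + ev ψ x := rfl
theorem ev_neg (φ : CI T M) (x : T.A) : ev (-φ) x = - ev φ x := rfl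
theorem ev_sub (φ ψ : CI T M) (x : T.A) : ev (φ - ψ) x = ev φ x - ev ψ x := rfl
theorem ev_zero (x : T.A) : ev (0 : CI T M) x = 0 := rfl
theorem ev_add_right (φ : CI T M) (x y : T.A) : ev φ (x + y) = ev φ x + ev φ y := map_add φ.1 x y
theorem ev_smul_right (φ : CI T M) (t : k) (x : T.A) :
    ev φ (t • x) = algebraMap k T.A t • ev φ x := φ.2 t x

/-- constructor -/
def mkCI (f : T.A → M) (h1 : ∀ a b, f (a + b) = f a + f b)
    (h2 : ∀ (t : k) a, f (t • a) = algebraMap k T.A t • f a) : CI T M :=
  ⟨AddMonoidHom.mk' f h1, h2⟩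

@[simp] theorem ev_mkCI (f : T.A → M) (h1 : ∀ a b, f (a + b) = f a + f b)
    (h2 : ∀ (t : k) a, f (t • a) = algebraMap k T.A t • f a) (x : T.A) :
    ev (mkCI f h1 h2) x = f x := rfl

instance : SMul T.A (CI T M) where
  smul a φ := mkCI (fun x => ev φ (x * a)) (fun x y => by rw [add_mul, ev_add_right])
    (fun t x => by rw [smul_mul_assoc, ev_smul_right])

theorem ev_smul (a : T.A) (φ : CI T M) (x : T.A) : ev (a • φ) x = ev φ (x * a) := rfl

instance : Module T.A (CI T M) where
  one_smul φ := by ext x; rw [ev_smul, mul_one]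
  mul_smul a c φ := by ext x; rw [ev_smul, ev_smul, ev_smul, mul_assoc]
  smul_zero a := by ext x; rw [ev_smul, ev_zero, ev_zero]
  smul_add a φ ψ := by ext x; rw [ev_smul, ev_add, ev_add, ev_smul, ev_smul]
  add_smul a c φ := by ext x; rw [ev_smul, ev_add, mul_add, ev_add_right, ev_smul, ev_smul]
  zero_smul φ := by
    ext x
    rw [ev_smul, mul_zero, ev_zero]
    exact map_zero φ.1

theorem ev_algebraMap_smul (t : k) (φ : CI T M) (x : T.A) :
    ev (algebraMap k T.A t • φ) x = algebraMap k T.A t • ev φ x := by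
  rw [ev_smul, ← ev_smul_right, Algebra.smul_def, Algebra.commutes]

/-- currying -/
def cur (f : List T.A → M) (hf : IsML f) : List T.A → CI T M := fun l =>
  mkCI (fun x => f (x :: l)) (fun a b => hf.1 [] l a b) (fun t a => hf.2 [] l t a)

theorem ev_cur (f : List T.A → M) (hf : IsML f) (l : List T.A) (x : T.A) :
    ev (cur f hf l) x = f (x :: l) := rfl

theorem cur_ml (f : List T.A → M) (hf : IsML f) : IsML (cur f hf) := by
  refine ⟨fun l₁ l₂ a c => ?_, fun l₁ l₂ t a => ?_⟩
  · ext x
    rw [ev_add, ev_cur, ev_cur, ev_cur]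
    exact hf.1 (x :: l₁) l₂ a c
  · ext x
    rw [ev_algebraMap_smul, ev_cur, ev_cur]
    exact hf.2 (x :: l₁) l₂ t a

theorem ev_dd (l : List T.A) (x : T.A) :
    ∀ G : List T.A → CI T M, ev (dd l G) x = dd l (fun l' => ev (G l') x) := by
  induction l with
  | nil => intro G; rfl
  | cons a l ih =>
    intro G
    simp only [dd]
    rw [ev_sub, ev_neg, ih]
    congr 2
    cases l with
    | nil => exact ev_algebraMap_smul _ _ _
    | cons a' l => rfl

theorem b_cur_cons (f : List T.A → M) (hf : IsML f) (a : T.A) (l : List T.A) (x : T.A) :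
    ev (b (cur f hf) (a :: l)) x = x • f (a :: l) - b f (x :: a :: l) := by
  simp only [b]
  rw [ev_add, ev_dd, ev_smul, ev_cur]
  simp only [ev_cur]
  have h1 : dd (x :: a :: l) f = - act f x (a :: l) - dd (a :: l) (fun l' => f (x :: l')) := rfl
  rw [h1]
  simp only [act]
  abel

theorem b_cons_of_ne_nil (f : List T.A → M) (hf : IsML f) (l : List T.A) (hl : l ≠ []) (x : T.A) :
    b f (x :: l) = x • f l - ev (b (cur f hf) l) x := by
  cases l with
  | nil => exact absurd rfl hl
  | cons a l => rw [b_cur_cons]; abel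

theorem b_ml_aux (l₁ : List T.A) : ∀ (M : Type) [AddCommGroup M] [Module T.A M]
    (f : List T.A → M) (_ : IsML f) (l₂ : List T.A),
    (∀ a c, b f (l₁ ++ (a + c) :: l₂) = b f (l₁ ++ a :: l₂) + b f (l₁ ++ c :: l₂)) ∧
    (∀ (t : k) a, b f (l₁ ++ (t • a) :: l₂) = algebraMap k T.A t • b f (l₁ ++ a :: l₂)) := by
  induction l₁ with
  | nil =>
    intro M _ _ f hf l₂
    rcases eq_or_ne l₂ [] with rfl | h2
    · refine ⟨fun a c => ?_, fun t a => ?_⟩
      · simp only [List.nil_append]
        rw [b_single, b_single, b_single]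
        simp only [add_smul, map_add]
        abel
      · simp only [List.nil_append]
        rw [b_single, b_single]
        simp only [smul_sub, map_smul, smul_eq_mul, map_mul, mul_smul]
        rw [Algebra.smul_def, mul_smul]
    · refine ⟨fun a c => ?_, fun t a => ?_⟩
      · simp only [List.nil_append]
        rw [b_cons_of_ne_nil f hf _ h2, b_cons_of_ne_nil f hf _ h2, b_cons_of_ne_nil f hf _ h2,
          ev_add_right, add_smul]
        abel
      · simp only [List.nil_append]
        rw [b_cons_of_ne_nil f hf _ h2, b_cons_of_ne_nil f hf _ h2, ev_smul_right,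
          Algebra.smul_def, mul_smul, smul_sub]
  | cons x l₁ ih =>
    intro M _ _ f hf l₂
    have h3 : ∀ a, l₁ ++ a :: l₂ ≠ [] := fun a => by simp
    obtain ⟨i1, i2⟩ := ih (CI T M) (cur f hf) (cur_ml f hf) l₂
    refine ⟨fun a c => ?_, fun t a => ?_⟩
    · simp only [List.cons_append]
      rw [b_cons_of_ne_nil f hf _ (h3 _), b_cons_of_ne_nil f hf _ (h3 _),
        b_cons_of_ne_nil f hf _ (h3 _), i1, ev_add, hf.1, smul_add]
      abel
    · simp only [List.cons_append]
      rw [b_cons_of_ne_nil f hf _ (h3 _), b_cons_of_ne_nil f hf _ (h3 _), i2, hf.2,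
        ev_algebraMap_smul, smul_sub, ← mul_smul, ← mul_smul, Algebra.commutes]

theorem b_ml {f : List T.A → M} (hf : IsML f) : IsML (b f) :=
  ⟨fun l₁ l₂ a c => (b_ml_aux l₁ M f hf l₂).1 a c, fun l₁ l₂ t a => (b_ml_aux l₁ M f hf l₂).2 t a⟩

/-- the map `m ↦ (x ↦ ε(x) m)` -/
def ee (m : M) : CI T M :=
  mkCI (fun x => algebraMap k T.A (T.ε x) • m) (fun a c => by simp only [map_add, add_smul])
    (fun t a => by simp only [map_smul, smul_eq_mul, map_mul, mul_smul])

/-- the embedding `m ↦ (x ↦ x m)` -/
def eta (T : TAlg k I) (M : Type) [AddCommGroup M] [Module T.A M] : M →ₗ[T.A] CI T M where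
  toFun m := mkCI (fun x => x • m) (fun a c => add_smul a c m)
    (fun t a => by rw [Algebra.smul_def, mul_smul])
  map_add' m n := by ext x; exact smul_add x m n
  map_smul' a m := by
    ext x
    simp only [RingHom.id_apply]
    rw [ev_smul, ev_mkCI, ev_mkCI, mul_smul]

theorem ev_eta (m : M) (x : T.A) : ev (eta T M m) x = x • m := rfl

theorem eta_injective : Function.Injective (eta T M) := by
  intro m n h
  have h1 := congrArg (fun φ => ev φ 1) h
  simp only [ev_eta, one_smul] at h1
  exact h1

theorem b_point (m : M) (hm : ∀ a : T.A, a • m = algebraMap k T.A (T.ε a) • m)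
    (l : List T.A) : b (fun l' : List T.A => if l' = [] then m else 0) l = 0 := by
  rcases l with _ | ⟨a, l⟩
  · rfl
  · rcases l with _ | ⟨a', l⟩
    · rw [b_single, if_pos rfl, hm, sub_self]
    · have h1 : (fun l' : List T.A => if a :: a' :: l' = [] then m else 0)
          = fun _ => 0 := by
        funext l'
        rw [if_neg (by simp)]
      have h2 : act (fun l' : List T.A => if a :: l' = [] then m else 0) a' l
          = 0 := by
        cases l with
        | nil => simp [act]
        | cons a'' l => simp [act]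
      have h3 : act (fun l' : List T.A => if l' = [] then m else 0) a (a' :: l) = 0 := by
        simp [act]
      simp only [b, dd]
      rw [h1, h2, h3, dd_zero, if_neg (by simp)]
      simp

theorem b_ee (m : M) (l : List T.A) :
    b (fun l' : List T.A => if l' = [] then (ee m : CI T M) else 0) l = 0 := by
  refine b_point _ (fun a => ?_) l
  ext x
  rw [ev_smul, ev_algebraMap_smul]
  simp only [ee, ev_mkCI]
  have h1 : T.ε (x * a) = T.ε a * T.ε x := by rw [map_mul, mul_comm]
  rw [h1, map_mul, mul_smul]

theorem b_b_aux (l : List T.A) : ∀ (M : Type) [AddCommGroup M] [Module T.A M]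
    (f : List T.A → M) (_ : IsML f), b (b f) l = 0 := by
  induction l with
  | nil => intro M _ _ f hf; rfl
  | cons x l ih =>
    intro M _ _ f hf
    rcases eq_or_ne l [] with rfl | h2
    · rw [b_single]
      simp [b_nil]
    · rw [b_cons_of_ne_nil (b f) (b_ml hf) _ h2]
      have h3 : cur (b f) (b_ml hf) = fun l' => (eta T M (f l') - b (cur f hf) l')
          - (if l' = [] then ee (f []) else 0) := by
        funext l'
        ext y
        rw [ev_cur, ev_sub, ev_sub, ev_eta]
        rcases l' with _ | ⟨a, l'⟩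
        · rw [b_single, if_pos rfl, b_nil, ev_zero]
          simp [ee]
        · rw [b_cur_cons, if_neg (by simp), ev_zero]
          abel
      rw [h3, b_sub, b_sub, b_map]
      simp only
      rw [b_ee, ih (CI T M) (cur f hf) (cur_ml f hf)]
      rw [sub_zero, sub_zero, ev_eta, sub_self]

theorem b_b {f : List T.A → M} (hf : IsML f) : b (b f) = 0 :=
  funext fun l => b_b_aux l M f hf

theorem IsML.map {f : List T.A → M} (hf : IsML f) (h : M →ₗ[T.A] N) :
    IsML (fun l => h (f l)) :=
  ⟨fun l₁ l₂ a c => by simp only [hf.1, map_add], fun l₁ l₂ t a => by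
    simp only [hf.2, map_smul]⟩

theorem IsML.add {f g : List T.A → M} (hf : IsML f) (hg : IsML g) :
    IsML (fun l => f l + g l) :=
  ⟨fun l₁ l₂ a c => by simp only [hf.1, hg.1]; abel, fun l₁ l₂ t a => by
    simp only [hf.2, hg.2, smul_add]⟩

theorem IsML.sub {f g : List T.A → M} (hf : IsML f) (hg : IsML g) :
    IsML (fun l => f l - g l) :=
  ⟨fun l₁ l₂ a c => by simp only [hf.1, hg.1]; abel, fun l₁ l₂ t a => by
    simp only [hf.2, hg.2, smul_sub]⟩

theorem IsML.zero : IsML (fun _ : List T.A => (0 : M)) :=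
  ⟨fun l₁ l₂ a c => by simp, fun l₁ l₂ t a => by simp⟩

theorem b_zero : b (fun _ : List T.A => (0 : M)) = fun _ => 0 := by
  funext l
  cases l with
  | nil => rfl
  | cons a l => simp only [b]; rw [dd_zero]; simp

/-- cocycles of degree `n` -/
structure IsZ (n : ℕ) (f : List T.A → M) : Prop where
  ml : IsML f
  supp : Supp n f
  b0 : ∀ l, b f l = 0

theorem IsZ.map {n : ℕ} {f : List T.A → M} (hf : IsZ n f) (h : M →ₗ[T.A] N) :
    IsZ n (fun l => h (f l)) :=
  ⟨hf.ml.map h, fun l hl => by simp only [hf.supp l hl, map_zero], fun l => by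
    rw [b_map]; simp only [hf.b0, map_zero]⟩

theorem IsZ.add {n : ℕ} {f g : List T.A → M} (hf : IsZ n f) (hg : IsZ n g) :
    IsZ n (fun l => f l + g l) :=
  ⟨hf.ml.add hg.ml, fun l hl => by simp only [hf.supp l hl, hg.supp l hl, add_zero], fun l => by
    rw [b_add]; simp only [hf.b0, hg.b0, add_zero]⟩

theorem IsZ.sub {n : ℕ} {f g : List T.A → M} (hf : IsZ n f) (hg : IsZ n g) :
    IsZ n (fun l => f l - g l) :=
  ⟨hf.ml.sub hg.ml, fun l hl => by simp only [hf.supp l hl, hg.supp l hl, sub_zero], fun l => by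
    rw [b_sub]; simp only [hf.b0, hg.b0, sub_zero]⟩

theorem IsZ.zero (n : ℕ) : IsZ n (fun _ : List T.A => (0 : M)) :=
  ⟨IsML.zero, fun _ _ => rfl, fun l => by rw [b_zero]⟩

/-- key formula: a cocycle of positive degree is, curried, a cochain with differential in the
image of `eta` -/
theorem b_cur_of_IsZ {n : ℕ} {f : List T.A → M} (hf : IsZ (n + 1) f) (l : List T.A) :
    b (cur f hf.ml) l = eta T M (f l) := by
  rcases l with _ | ⟨a, l⟩
  · rw [b_nil, hf.supp [] (by simp), map_zero]
  · ext x
    rw [b_cur_cons, hf.b0, ev_eta, sub_zero]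

theorem cur_supp {n : ℕ} {f : List T.A → M} (hf : IsZ (n + 1) f) (l : List T.A)
    (hl : l.length ≠ n) : cur f hf.ml l = 0 := by
  ext x
  rw [ev_cur, ev_zero]
  exact hf.supp _ (by simpa using hl)

/-- the quotient `C(M)/M` -/
abbrev QM (T : TAlg k I) (M : Type) [AddCommGroup M] [Module T.A M] : Type :=
  CI T M ⧸ LinearMap.range (eta T M)

/-- the projection -/
def pr (T : TAlg k I) (M : Type) [AddCommGroup M] [Module T.A M] : CI T M →ₗ[T.A] QM T M :=
  Submodule.mkQ _

theorem pr_surjective : Function.Surjective (pr T M) := Submodule.mkQ_surjective _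

theorem pr_eq_zero_iff (φ : CI T M) : pr T M φ = 0 ↔ ∃ m, eta T M m = φ := by
  show Submodule.mkQ _ φ = 0 ↔ _
  rw [Submodule.mkQ_apply, Submodule.Quotient.mk_eq_zero]
  exact Iff.rfl

theorem pr_eta (m : M) : pr T M (eta T M m) = 0 := (pr_eq_zero_iff _).2 ⟨m, rfl⟩

/-- the shifted cocycle -/
def sh {n : ℕ} (f : List T.A → M) (hf : IsZ (n + 1) f) : List T.A → QM T M :=
  fun l => pr T M (cur f hf.ml l)

theorem sh_isZ {n : ℕ} {f : List T.A → M} (hf : IsZ (n + 1) f) : IsZ n (sh f hf) where
  ml := (cur_ml f hf.ml).map _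
  supp l hl := by
    show pr T M (cur f hf.ml l) = 0
    rw [cur_supp hf l hl, map_zero]
  b0 l := by
    show b (fun l => pr T M (cur f hf.ml l)) l = 0
    rw [b_map]
    simp only
    rw [b_cur_of_IsZ hf, pr_eta]

/-- functoriality of `C` -/
def Cmap (h : M →ₗ[T.A] N) : CI T M →ₗ[T.A] CI T N where
  toFun φ := mkCI (fun x => h (ev φ x)) (fun a c => by rw [ev_add_right, map_add])
    (fun t a => by rw [ev_smul_right, map_smul])
  map_add' φ ψ := by
    ext x
    rw [ev_add, ev_mkCI, ev_mkCI, ev_mkCI, ev_add, map_add]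
  map_smul' a φ := by
    ext x
    simp only [RingHom.id_apply]
    rw [ev_smul, ev_mkCI, ev_mkCI, ev_smul]

theorem ev_Cmap (h : M →ₗ[T.A] N) (φ : CI T M) (x : T.A) : ev (Cmap h φ) x = h (ev φ x) := rfl

theorem Cmap_eta (h : M →ₗ[T.A] N) (m : M) : Cmap h (eta T M m) = eta T N (h m) := by
  ext x
  rw [ev_Cmap, ev_eta, ev_eta, map_smul]

/-- functoriality of `Q` -/
def Qmap (h : M →ₗ[T.A] N) : QM T M →ₗ[T.A] QM T N :=
  Submodule.mapQ _ _ (Cmap h) (by
    rintro _ ⟨m, rfl⟩
    exact ⟨h m, (Cmap_eta h m).symm⟩)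

theorem Qmap_pr (h : M →ₗ[T.A] N) (φ : CI T M) : Qmap h (pr T M φ) = pr T N (Cmap h φ) := rfl

/-- a `k`-linear section of a surjective map -/
theorem exists_section (p : M →ₗ[T.A] N) (hp : Function.Surjective p) :
    ∃ ρ : N → M, (∀ x, p (ρ x) = x) ∧ (∀ x y, ρ (x + y) = ρ x + ρ y) ∧
      ∀ (t : k) x, ρ (algebraMap k T.A t • x) = algebraMap k T.A t • ρ x := by
  let _ : Module k M := Module.compHom M (algebraMap k T.A)
  let _ : Module k N := Module.compHom N (algebraMap k T.A)
  let p' : M →ₗ[k] N :=
    { toFun := p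
      map_add' := map_add p
      map_smul' := fun t x => map_smul p (algebraMap k T.A t) x }
  obtain ⟨ρ, hρ⟩ := p'.exists_rightInverse_of_surjective (LinearMap.range_eq_top.2 hp)
  exact ⟨ρ, fun x => LinearMap.congr_fun hρ x, map_add ρ, fun t x => map_smul ρ t x⟩

theorem exists_retraction (i : M →ₗ[T.A] N) (hi : Function.Injective i) :
    ∃ ρ : N → M, (∀ x, ρ (i x) = x) ∧ (∀ x y, ρ (x + y) = ρ x + ρ y) ∧
      ∀ (t : k) x, ρ (algebraMap k T.A t • x) = algebraMap k T.A t • ρ x := by
  let _ : Module k M := Module.compHom M (algebraMap k T.A)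
  let _ : Module k N := Module.compHom N (algebraMap k T.A)
  let i' : M →ₗ[k] N :=
    { toFun := i
      map_add' := map_add i
      map_smul' := fun t x => map_smul i (algebraMap k T.A t) x }
  obtain ⟨ρ, hρ⟩ := i'.exists_leftInverse_of_injective (LinearMap.ker_eq_bot.2 hi)
  exact ⟨ρ, fun x => LinearMap.congr_fun hρ x, map_add ρ, fun t x => map_smul ρ t x⟩

theorem lift_ml {ρ : N → M} (h1 : ∀ x y, ρ (x + y) = ρ x + ρ y)
    (h2 : ∀ (t : k) x, ρ (algebraMap k T.A t • x) = algebraMap k T.A t • ρ x)
    {f : List T.A → N} (hf : IsML f) : IsML (fun l => ρ (f l)) :=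
  ⟨fun l₁ l₂ a c => by simp only [hf.1, h1], fun l₁ l₂ t a => by simp only [hf.2, h2]⟩

/-! ### cup products -/

/-- the cup product -/
def cupM (f : List T.A → M) (g : List T.A → k) : List T.A → M
  | [] => algebraMap k T.A (g []) • f []
  | a :: l => algebraMap k T.A (g (a :: l)) • f [] + cupM (fun l' => f (a :: l')) g l

theorem cupM_hom (g : List T.A → k) (u : M → N) (h1 : ∀ x y, u (x + y) = u x + u y)
    (h2 : ∀ (t : k) x, u (algebraMap k T.A t • x) = algebraMap k T.A t • u x) (l : List T.A) :
    ∀ f : List T.A → M, cupM (fun l' => u (f l')) g l = u (cupM f g l) := by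
  induction l with
  | nil => intro f; simp only [cupM]; rw [h2]
  | cons a l ih => intro f; simp only [cupM]; rw [h1, h2, ih]

theorem cupM_add (g : List T.A → k) (l : List T.A) :
    ∀ f f' : List T.A → M, cupM (fun l' => f l' + f' l') g l = cupM f g l + cupM f' g l := by
  induction l with
  | nil => intro f f'; simp only [cupM]; rw [smul_add]
  | cons a l ih => intro f f'; simp only [cupM]; rw [smul_add, ih]; abel

theorem cupM_zero (g : List T.A → k) (l : List T.A) :
    cupM (fun _ => (0 : M)) g l = 0 := by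
  induction l with
  | nil => simp only [cupM]; rw [smul_zero]
  | cons a l ih => simp only [cupM]; rw [smul_zero, ih, add_zero]

theorem cupM_neg (g : List T.A → k) (l : List T.A) (f : List T.A → M) :
    cupM (fun l' => - f l') g l = - cupM f g l :=
  cupM_hom g (fun x => -x) (fun x y => neg_add x y) (fun _ _ => (smul_neg _ _).symm) l f

theorem cupM_sub (g : List T.A → k) (l : List T.A) (f f' : List T.A → M) :
    cupM (fun l' => f l' - f' l') g l = cupM f g l - cupM f' g l := by
  have h1 : (fun l' => f l' - f' l') = fun l' => f l' + (- f' l') := by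
    funext l'; exact sub_eq_add_neg _ _
  rw [h1, cupM_add, cupM_neg, ← sub_eq_add_neg]

theorem cupM_smul (g : List T.A → k) (a : T.A) (l : List T.A) (f : List T.A → M) :
    cupM (fun l' => a • f l') g l = a • cupM f g l :=
  cupM_hom g (fun x => a • x) (fun x y => smul_add a x y) (fun t x => by
    rw [← mul_smul, ← mul_smul, Algebra.commutes]) l f

theorem ev_cupM (g : List T.A → k) (x : T.A) (l : List T.A) (H : List T.A → CI T M) :
    cupM (fun l' => ev (H l') x) g l = ev (cupM H g l) x :=
  cupM_hom g (fun φ => ev φ x) (fun φ ψ => ev_add φ ψ x) (fun t φ => ev_algebraMap_smul t φ x) l H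

theorem cupM_point (g : List T.A → k) (m : M) (l : List T.A) :
    cupM (fun l' => if l' = [] then m else 0) g l = algebraMap k T.A (g l) • m := by
  cases l with
  | nil => simp [cupM]
  | cons a l =>
    simp only [cupM]
    have h1 : (fun l' : List T.A => if a :: l' = [] then m else 0) = fun _ => 0 := by
      funext l'
      rw [if_neg (by simp)]
    rw [h1, cupM_zero, add_zero]
    simp

theorem cupM_ml_aux {g : List T.A → k} (hg : PC.IsML T g) (l₁ : List T.A) :
    ∀ (f : List T.A → M) (_ : IsML f) (l₂ : List T.A),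
    (∀ a c, cupM f g (l₁ ++ (a + c) :: l₂) = cupM f g (l₁ ++ a :: l₂) + cupM f g (l₁ ++ c :: l₂)) ∧
    (∀ (t : k) a, cupM f g (l₁ ++ (t • a) :: l₂)
      = algebraMap k T.A t • cupM f g (l₁ ++ a :: l₂)) := by
  induction l₁ with
  | nil =>
    intro f hf l₂
    refine ⟨fun a c => ?_, fun t a => ?_⟩
    · simp only [List.nil_append, cupM]
      have h1 : (fun l' => f ((a + c) :: l')) = fun l' => f (a :: l') + f (c :: l') := by
        funext l'; exact hf.1 [] l' a c
      have h2 : g ((a + c) :: l₂) = g (a :: l₂) + g (c :: l₂) := hg.1 [] l₂ a c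
      rw [h1, h2, cupM_add, map_add, add_smul]
      abel
    · simp only [List.nil_append, cupM]
      have h1 : (fun l' => f ((t • a) :: l')) = fun l' => algebraMap k T.A t • f (a :: l') := by
        funext l'; exact hf.2 [] l' t a
      have h2 : g ((t • a) :: l₂) = t • g (a :: l₂) := hg.2 [] l₂ t a
      rw [h1, h2, cupM_smul, smul_eq_mul, map_mul, mul_smul, smul_add]
  | cons x l₁ ih =>
    intro f hf l₂
    have hf' : IsML (fun l' => f (x :: l')) :=
      ⟨fun l₁ l₂ a c => hf.1 (x :: l₁) l₂ a c, fun l₁ l₂ t a => hf.2 (x :: l₁) l₂ t a⟩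
    obtain ⟨i1, i2⟩ := ih _ hf' l₂
    refine ⟨fun a c => ?_, fun t a => ?_⟩
    · simp only [List.cons_append, cupM]
      have h2 : g (x :: (l₁ ++ (a + c) :: l₂))
          = g (x :: (l₁ ++ a :: l₂)) + g (x :: (l₁ ++ c :: l₂)) := hg.1 (x :: l₁) l₂ a c
      rw [i1, h2, map_add, add_smul]
      abel
    · simp only [List.cons_append, cupM]
      have h2 : g (x :: (l₁ ++ (t • a) :: l₂)) = t • g (x :: (l₁ ++ a :: l₂)) :=
        hg.2 (x :: l₁) l₂ t a
      rw [i2, h2, smul_eq_mul, map_mul, mul_smul, smul_add]

theorem cupM_ml {f : List T.A → M} (hf : IsML f) {g : List T.A → k} (hg : PC.IsML T g) :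
    IsML (cupM f g) :=
  ⟨fun l₁ l₂ a c => (cupM_ml_aux hg l₁ f hf l₂).1 a c,
    fun l₁ l₂ t a => (cupM_ml_aux hg l₁ f hf l₂).2 t a⟩

theorem cupM_supp {g : List T.A → k} {q : ℕ} (hg : PC.Supp T q g) (l : List T.A) :
    ∀ (p : ℕ) (f : List T.A → M) (_ : Supp p f), l.length ≠ p + q → cupM f g l = 0 := by
  induction l with
  | nil =>
    intro p f hf hl
    simp only [cupM]
    rcases Nat.eq_zero_or_pos q with hq | hq
    · have : f [] = 0 := hf [] (by simp at hl ⊢; omega)
      rw [this, smul_zero]
    · have : g [] = 0 := hg [] (by simp; omega)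
      rw [this, map_zero, zero_smul]
  | cons a l ih =>
    intro p f hf hl
    simp only [cupM]
    rcases p with _ | p
    · have h1 : g (a :: l) = 0 := hg _ (by simpa using hl)
      have h2 : (fun l' => f (a :: l')) = fun _ => 0 := by
        funext l'; exact hf _ (by simp)
      rw [h1, h2, cupM_zero, map_zero, zero_smul, add_zero]
    · have h1 : f [] = 0 := hf _ (by simp)
      rw [h1, smul_zero, zero_add]
      refine ih p _ (fun l' hl' => hf _ (by simpa using hl')) ?_
      simp only [List.length_cons] at hl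
      omega

end cochains

/-! ### the trivial module -/

section triv

variable {T : TAlg k I} {M : Type} [AddCommGroup M] [Module T.A M]

theorem algebraMap_smul_vt (t y : k) : algebraMap k T.A t • vt T y = vt T (t * y) := by
  rw [triv_smul, tv_vt, AlgHom.commutes]
  rfl

theorem smul_vt (a : T.A) (y : k) : a • vt T y = vt T (T.ε a * y) := rfl

theorem ml_vt {g : List T.A → k} (hg : PC.IsML T g) : IsML (fun l => vt T (g l)) :=
  ⟨fun l₁ l₂ a c => congrArg (vt T) (hg.1 l₁ l₂ a c), fun l₁ l₂ t a => by
    rw [algebraMap_smul_vt]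
    exact congrArg (vt T) (hg.2 l₁ l₂ t a)⟩

theorem ml_tv {g : List T.A → (triv T).X} (hg : IsML g) : PC.IsML T (fun l => tv (g l)) :=
  ⟨fun l₁ l₂ a c => congrArg tv (hg.1 l₁ l₂ a c), fun l₁ l₂ t a => by
    have h := congrArg tv (hg.2 l₁ l₂ t a)
    rw [← vt_tv (g (l₁ ++ a :: l₂)), algebraMap_smul_vt, tv_vt] at h
    exact h⟩

theorem dd_vt (l : List T.A) :
    ∀ g : List T.A → k, dd l (fun l' => vt T (g l')) = vt T (PC.dd T l g) := by
  induction l with
  | nil => intro g; rfl
  | cons a l ih =>
    intro g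
    simp only [dd]
    rw [ih]
    have h1 : act (fun l' => vt T (g l')) a l = vt T (PC.act T g a l) := by
      cases l with
      | nil => exact algebraMap_smul_vt _ _
      | cons a' l => rfl
    rw [h1]
    rfl

theorem b_vt (g : List T.A → k) : b (fun l' => vt T (g l')) = fun l => vt T (PC.b T g l) := by
  funext l
  cases l with
  | nil => rfl
  | cons a l =>
    simp only [b]
    rw [dd_vt]
    rfl

/-- `φ ↦ (x ↦ φ(x) m)` -/
def theta (m : M) : CI T (triv T).X →ₗ[T.A] CI T M where
  toFun φ := mkCI (fun x => algebraMap k T.A (tv (ev φ x)) • m)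
    (fun a c => by
      rw [ev_add_right]
      show algebraMap k T.A (tv (ev φ a) + tv (ev φ c)) • m = _
      rw [map_add, add_smul])
    (fun t a => by
      rw [ev_smul_right, ← vt_tv (ev φ a), algebraMap_smul_vt, tv_vt, tv_vt, map_mul, mul_smul])
  map_add' φ ψ := by
    ext x
    rw [ev_add, ev_mkCI, ev_mkCI, ev_mkCI, ev_add]
    show algebraMap k T.A (tv (ev φ x) + tv (ev ψ x)) • m = _
    rw [map_add, add_smul]
  map_smul' a φ := by
    ext x
    simp only [RingHom.id_apply]
    rw [ev_smul, ev_mkCI, ev_mkCI, ev_smul]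

theorem ev_theta (m : M) (φ : CI T (triv T).X) (x : T.A) :
    ev (theta m φ) x = algebraMap k T.A (tv (ev φ x)) • m := rfl

/-- the Leibniz rule with a cocycle on the right -/
theorem b_cupM {g : List T.A → k} (hg : PC.IsML T g) (hg0 : ∀ l, PC.b T g l = 0)
    (l : List T.A) : ∀ (M : Type) [AddCommGroup M] [Module T.A M] (f : List T.A → M)
    (_ : IsML f), b (cupM f g) l = cupM (b f) g l := by
  induction l with
  | nil => intro M _ _ f hf; simp only [cupM, b_nil, smul_zero]
  | cons x l ih =>
    intro M _ _ f hf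
    rcases eq_or_ne l [] with rfl | hl
    · rw [b_single]
      simp only [cupM, b_nil, b_single, smul_zero, zero_add, smul_sub]
      rw [← mul_smul, ← mul_smul, ← mul_smul, ← mul_smul, Algebra.commutes (g []) x,
        Algebra.commutes (g []) (algebraMap k T.A (T.ε x))]
    · have hF : IsML (cupM f g) := cupM_ml hf hg
      rw [b_cons_of_ne_nil _ hF _ hl]
      have h1 : cur (cupM f g) hF
          = fun l' => theta (f []) (cur (fun l' => vt T (g l')) (ml_vt hg) l')
            + cupM (cur f hf) g l' := by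
        funext l'
        ext y
        rw [ev_cur, ev_add, ev_theta, ev_cur, tv_vt, ← ev_cupM]
        rfl
      have h2 : b (cur (fun l' => vt T (g l')) (ml_vt hg)) l = eta T (triv T).X (vt T (g l)) := by
        cases l with
        | nil => exact absurd rfl hl
        | cons a l =>
          ext y
          rw [b_cur_cons, b_vt]
          simp only
          rw [hg0, ev_eta]
          exact sub_zero _
      rw [h1, b_add, b_map]
      simp only
      rw [h2, ih (CI T M) (cur f hf) (cur_ml f hf), ev_add, ev_theta, ev_eta, smul_vt, tv_vt,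
        ← ev_cupM]
      simp only [cupM, b_nil, smul_zero, zero_add]
      have h3 : (fun l' => b f (x :: l')) = fun l' => (x • f l' - ev (b (cur f hf) l') x)
          - (if l' = [] then algebraMap k T.A (T.ε x) • f [] else 0) := by
        funext l'
        rcases eq_or_ne l' [] with rfl | hl'
        · rw [b_single, if_pos rfl, b_nil, ev_zero, sub_zero]
        · rw [b_cons_of_ne_nil f hf _ hl', if_neg hl', sub_zero]
      rw [h3, cupM_sub, cupM_sub, cupM_point, cupM_smul, ← mul_smul, ← map_mul,
        mul_comm (g l)]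
      abel

theorem cupM_vt (f g : List T.A → k) (l : List T.A) :
    cupM (fun l' => vt T (f l')) g l = vt T (PC.cup T f g l) := by
  induction l generalizing f with
  | nil =>
    simp only [cupM]
    rw [algebraMap_smul_vt, mul_comm]
    rfl
  | cons a l ih =>
    simp only [cupM]
    rw [algebraMap_smul_vt, ih (fun l' => f (a :: l')), mul_comm]
    rfl

end triv

/-! ### the comparison map -/

section cat

variable {T : TAlg k I}

open Abelian

/-- the coinduced module -/
abbrev CO (M : ModuleCat.{0} T.A) : ModuleCat.{0} T.A := ModuleCat.of T.A (CI T M)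

/-- the quotient module -/
abbrev QO (M : ModuleCat.{0} T.A) : ModuleCat.{0} T.A := ModuleCat.of T.A (QM T M)

/-- the short exact sequence `0 → M → C(M) → Q(M) → 0` -/
def SC (M : ModuleCat.{0} T.A) : ShortComplex (ModuleCat.{0} T.A) :=
  ShortComplex.mk (X₁ := M) (X₂ := CO M) (X₃ := QO M) (ModuleCat.ofHom (eta T M))
    (ModuleCat.ofHom (pr T M)) (by
      ext m
      exact pr_eta m)

theorem SC_shortExact (M : ModuleCat.{0} T.A) : (SC M).ShortExact := by
  refine ModuleCat.shortComplex_shortExact (SC M) ?_ ?_ ?_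
  · intro φ
    exact pr_eq_zero_iff φ
  · exact eta_injective
  · exact pr_surjective

instance CO_injective (M : ModuleCat.{0} T.A) : Injective (CO M) where
  factors {X Y} g f hf := by
    obtain ⟨ρ, h1, h2, h3⟩ := exists_retraction f.hom ((ModuleCat.mono_iff_injective f).1 hf)
    let φ : Y →ₗ[T.A] CI T M :=
      { toFun := fun y => mkCI (fun c => ev (g.hom (ρ (c • y))) 1)
          (fun a c => by rw [add_smul, h2, map_add, ev_add])
          (fun t a => by
            rw [Algebra.smul_def, mul_smul, h3, map_smul, ev_algebraMap_smul])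
        map_add' := fun y z => by
          ext c
          rw [ev_add, ev_mkCI, ev_mkCI, ev_mkCI, smul_add, h2, map_add, ev_add]
        map_smul' := fun a y => by
          ext c
          simp only [RingHom.id_apply]
          rw [ev_smul, ev_mkCI, ev_mkCI, mul_smul] }
    refine ⟨ModuleCat.ofHom φ, ?_⟩
    ext x c
    show ev (g.hom (ρ (c • f.hom x))) 1 = ev (g.hom x) c
    rw [← map_smul, h1, map_smul, ev_smul, one_mul]

/-- the morphism from the trivial module given by an invariant element -/
def inv0 (M : ModuleCat.{0} T.A) (m : M)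
    (hm : ∀ a : T.A, a • m = algebraMap k T.A (T.ε a) • m) : kk T ⟶ M :=
  ModuleCat.ofHom (X := (triv T).X)
    { toFun := fun x => algebraMap k T.A (tv x) • m
      map_add' := fun x y => by
        show algebraMap k T.A (tv x + tv y) • m = _
        rw [map_add, add_smul]
      map_smul' := fun a x => by
        simp only [RingHom.id_apply]
        rw [triv_smul, tv_vt, map_mul, ← Algebra.commutes, mul_smul, ← hm, ← mul_smul,
          Algebra.commutes, mul_smul] }

theorem inv0_apply (M : ModuleCat.{0} T.A) (m : M)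
    (hm : ∀ a : T.A, a • m = algebraMap k T.A (T.ε a) • m) (x : k) :
    (inv0 M m hm).hom (vt T x) = algebraMap k T.A x • m := rfl

theorem inv_of_isZ {M : Type} [AddCommGroup M] [Module T.A M] {f : List T.A → M}
    (hf : IsZ 0 f) (a : T.A) : a • f [] = algebraMap k T.A (T.ε a) • f [] := by
  have h := hf.b0 [a]
  rw [b_single] at h
  exact sub_eq_zero.1 h

/-- the comparison map -/
def Phi : (n : ℕ) → (M : ModuleCat.{0} T.A) → (f : List T.A → M) → IsZ n f → Ext (kk T) M n
  | 0, M, f, h => Ext.mk₀ (inv0 M (f []) (inv_of_isZ h))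
  | n + 1, M, f, h => (Phi n (QO M) (sh f h) (sh_isZ h)).comp (SC_shortExact M).extClass rfl

theorem Phi_congr (n : ℕ) (M : ModuleCat.{0} T.A) {f g : List T.A → M} (hf : IsZ n f)
    (hg : IsZ n g) (h : f = g) : Phi n M f hf = Phi n M g hg := by
  subst h
  rfl

/-- functoriality of the short exact sequence -/
def SCmap {M M' : ModuleCat.{0} T.A} (h : M ⟶ M') : SC M ⟶ SC M' where
  τ₁ := h
  τ₂ := ModuleCat.ofHom (Cmap h.hom)
  τ₃ := ModuleCat.ofHom (Qmap h.hom)
  comm₁₂ := by
    ext m
    exact (Cmap_eta h.hom m).symm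
  comm₂₃ := by
    ext φ
    rfl

theorem Phi_map (n : ℕ) : ∀ (M M' : ModuleCat.{0} T.A) (h : M ⟶ M') (f : List T.A → M)
    (hf : IsZ n f), Phi n M' (fun l => h.hom (f l)) (hf.map h.hom)
      = (Phi n M f hf).comp (Ext.mk₀ h) (add_zero n) := by
  induction n with
  | zero =>
    intro M M' h f hf
    simp only [Phi]
    rw [Ext.mk₀_comp_mk₀]
    congr 1
    ext x
    show algebraMap k T.A (tv x) • h.hom (f []) = h.hom (algebraMap k T.A (tv x) • f [])
    rw [map_smul]
  | succ n ih =>
    intro M M' h f hf
    have h1 := ih (QO M) (QO M') (ModuleCat.ofHom (Qmap h.hom)) (sh f hf) (sh_isZ hf)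
    have h2 := ShortComplex.ShortExact.extClass_naturality (SC_shortExact M) (SC_shortExact M')
      (SCmap h)
    have h3 : Phi (n + 1) M' (fun l => h.hom (f l)) (hf.map h.hom)
        = (Phi n (QO M') (fun l => (ModuleCat.ofHom (Qmap h.hom)).hom (sh f hf l))
          ((sh_isZ hf).map (ModuleCat.ofHom (Qmap h.hom)).hom)).comp
            (SC_shortExact M').extClass rfl := rfl
    rw [h3, h1, Ext.comp_assoc_of_second_deg_zero]
    have h4 : (Ext.mk₀ (ModuleCat.ofHom (Qmap h.hom))).comp (SC_shortExact M').extClass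
        (zero_add 1) = (SC_shortExact M).extClass.comp (Ext.mk₀ h) (add_zero 1) := h2.symm
    rw [h4]
    exact (Ext.comp_assoc_of_third_deg_zero _ _ _ _).symm

theorem Phi_add (n : ℕ) : ∀ (M : ModuleCat.{0} T.A) (f g : List T.A → M) (hf : IsZ n f)
    (hg : IsZ n g), Phi n M (fun l => f l + g l) (hf.add hg) = Phi n M f hf + Phi n M g hg := by
  induction n with
  | zero =>
    intro M f g hf hg
    simp only [Phi]
    rw [← Ext.mk₀_add]
    congr 1
    ext x
    show algebraMap k T.A (tv x) • (f [] + g []) = algebraMap k T.A (tv x) • f []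
      + algebraMap k T.A (tv x) • g []
    rw [smul_add]
  | succ n ih =>
    intro M f g hf hg
    have h1 := ih (QO M) (sh f hf) (sh g hg) (sh_isZ hf) (sh_isZ hg)
    have h3 : Phi (n + 1) M (fun l => f l + g l) (hf.add hg)
        = (Phi n (QO M) (fun l => sh f hf l + sh g hg l)
          ((sh_isZ hf).add (sh_isZ hg))).comp (SC_shortExact M).extClass rfl := by
      show (Phi n (QO M) (sh (fun l => f l + g l) (hf.add hg)) (sh_isZ (hf.add hg))).comp
        (SC_shortExact M).extClass rfl = _
      congr 1
    rw [h3, h1, Ext.add_comp]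
    rfl

theorem Phi_sub (n : ℕ) (M : ModuleCat.{0} T.A) (f g : List T.A → M) (hf : IsZ n f)
    (hg : IsZ n g) : Phi n M (fun l => f l - g l) (hf.sub hg) = Phi n M f hf - Phi n M g hg := by
  rw [eq_sub_iff_add_eq, ← Phi_add]
  refine Phi_congr n M _ _ ?_
  funext l
  exact sub_add_cancel _ _

theorem Phi_zero (n : ℕ) (M : ModuleCat.{0} T.A) :
    Phi n M (fun _ => 0) (IsZ.zero n) = 0 := by
  have h := Phi_sub n M (fun _ => 0) (fun _ => 0) (IsZ.zero n) (IsZ.zero n)
  have h2 : Phi n M (fun _ => 0) (IsZ.zero n)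
      = Phi n M (fun _ => (0 : M) - 0) ((IsZ.zero n).sub (IsZ.zero n)) :=
    Phi_congr n M _ _ (by funext l; exact (sub_zero _).symm)
  exact h2.trans (h.trans (sub_self _))

theorem Phi_smul (n : ℕ) (M : ModuleCat.{0} T.A) (t : k) (f : List T.A → M) (hf : IsZ n f)
    (hf' : IsZ n (fun l => algebraMap k T.A t • f l)) :
    Phi n M (fun l => algebraMap k T.A t • f l) hf' = t • Phi n M f hf := by
  rw [Ext.smul_eq_comp_mk₀, ← Phi_map]
  exact Phi_congr n M _ _ rfl

theorem mk0_eq_zero {X Y : ModuleCat.{0} T.A} (f : X ⟶ Y) (h : Ext.mk₀ f = 0) : f = 0 := by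
  have h1 : Ext.mk₀ f = Ext.mk₀ (0 : X ⟶ Y) := by rw [h, Ext.mk₀_zero]
  exact Ext.homEquiv₀.symm.injective h1

/-- the inductive description of the kernel and the image -/
theorem Phi_main (n : ℕ) : ∀ M : ModuleCat.{0} T.A,
    (∀ x : Ext (kk T) M n, ∃ (f : List T.A → M) (hf : IsZ n f), Phi n M f hf = x) ∧
    ∀ (f : List T.A → M) (hf : IsZ n f), Phi n M f hf = 0 ↔
      ∃ w : List T.A → M, IsML w ∧ (∀ l, l.length + 1 ≠ n → w l = 0) ∧ ∀ l, b w l = f l := by
  induction n with
  | zero =>
    intro M
    refine ⟨fun x => ?_, fun f hf => ?_⟩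
    · obtain ⟨g, rfl⟩ := Ext.homEquiv₀.symm.surjective x
      let g' : (triv T).X →ₗ[T.A] M := g.hom
      have hm : ∀ a : T.A, a • g' (vt T 1) = algebraMap k T.A (T.ε a) • g' (vt T 1) := by
        intro a
        rw [← map_smul, ← map_smul, algebraMap_smul_vt, smul_vt]
      have hz : IsZ 0 (fun l : List T.A => if l = [] then g' (vt T 1) else 0) := by
        refine ⟨⟨fun l₁ l₂ a c => ?_, fun l₁ l₂ t a => ?_⟩, fun l hl => ?_, b_point _ hm⟩
        · simp
        · simp
        · rw [if_neg (by
            intro h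
            rw [h] at hl
            exact hl rfl)]
      refine ⟨_, hz, ?_⟩
      simp only [Phi]
      show Ext.mk₀ _ = Ext.mk₀ g
      congr 1
      ext x
      show algebraMap k T.A (tv x) • g' (vt T 1) = g' x
      rw [← map_smul, algebraMap_smul_vt, mul_one, vt_tv]
    · constructor
      · intro h
        simp only [Phi] at h
        have h1 := mk0_eq_zero _ h
        have h2 : f [] = 0 := by
          have h3 := inv0_apply M (f []) (inv_of_isZ hf) 1
          rw [h1, map_one, one_smul] at h3
          rw [← h3]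
          rfl
        refine ⟨fun _ => 0, IsML.zero, fun _ _ => rfl, fun l => ?_⟩
        rw [b_zero]
        rcases eq_or_ne l [] with rfl | hl
        · exact h2.symm
        · exact (hf.supp l (by
            intro h4
            exact hl (List.length_eq_zero_iff.1 h4))).symm
      · rintro ⟨w, -, h1, h2⟩
        have h3 : w = fun _ => 0 := funext fun l => h1 l (by simp)
        have h4 : f = fun _ => 0 := by
          funext l
          rw [← h2 l, h3, b_zero]
        rw [← Phi_zero 0 M]
        exact Phi_congr 0 M _ _ h4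
  | succ n ih =>
    intro M
    have key : ∀ (f : List T.A → CI T M) (hf : IsZ n f),
        (Phi n (QO M) (fun l => pr T M (f l)) (hf.map (pr T M))).comp
          (SC_shortExact M).extClass (rfl : n + 1 = n + 1) = 0 := by
      intro f hf
      have h1 := Phi_map n (CO M) (QO M) (ModuleCat.ofHom (pr T M)) f hf
      have h2 : Phi n (QO M) (fun l => pr T M (f l)) (hf.map (pr T M))
          = (Phi n (CO M) f hf).comp (Ext.mk₀ (ModuleCat.ofHom (pr T M))) (add_zero n) := h1
      rw [h2, Ext.comp_assoc_of_second_deg_zero]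
      have h3 : (Ext.mk₀ (ModuleCat.ofHom (pr T M))).comp (SC_shortExact M).extClass
          (zero_add 1) = 0 := ShortComplex.ShortExact.comp_extClass (SC_shortExact M)
      rw [h3, Ext.comp_zero]
    obtain ⟨ρ, r1, r2, r3⟩ := exists_section (pr T M) pr_surjective
    have einj : Function.Injective (eta T M) := eta_injective
    refine ⟨fun x => ?_, fun f hf => ?_⟩
    · have : Injective (SC M).X₂ := CO_injective M
      obtain ⟨x₃, hx₃⟩ := Ext.covariant_sequence_exact₁ (kk T) (SC_shortExact M) x
        (Ext.eq_zero_of_injective _) rfl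
      obtain ⟨z, hz, rfl⟩ := (ih (QO M)).1 x₃
      have hcml : IsML (fun l => ρ (z l)) := lift_ml r2 r3 hz.ml
      have hcs : ∀ l : List T.A, l.length ≠ n → ρ (z l) = 0 := by
        intro l hl
        have h5 : ρ 0 = 0 := by
          have := r2 0 0
          rw [add_zero] at this
          exact left_eq_add.1 this
        rw [hz.supp l hl, h5]
      have h1 : ∀ l, ∃ m, eta T M m = b (fun l => ρ (z l)) l := by
        intro l
        rw [← pr_eq_zero_iff]
        have h2 := congrFun (b_map (pr T M) (fun l => ρ (z l))) l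
        simp only [r1] at h2
        rw [← h2]
        exact hz.b0 l
      choose w hw using h1
      have hbml : IsML (b (fun l => ρ (z l))) := b_ml hcml
      have hwz : IsZ (n + 1) w := by
        refine ⟨⟨fun l₁ l₂ a c => einj ?_, fun l₁ l₂ t a => einj ?_⟩,
          fun l hl => einj ?_, fun l => einj ?_⟩
        · rw [map_add, hw, hw, hw, hbml.1]
        · rw [map_smul, hw, hw, hbml.2]
        · rw [hw, map_zero]
          exact b_supp hcs l hl
        · have h7 := congrFun (b_map (eta T M) w) l
          simp only [hw] at h7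
          rw [← h7, map_zero]
          exact congrFun (b_b hcml) l
      refine ⟨w, hwz, ?_⟩
      rw [← hx₃]
      have hy : IsZ n (fun l => ρ (z l) - cur w hwz.ml l) := by
        refine ⟨hcml.sub (cur_ml w hwz.ml), fun l hl => ?_, fun l => ?_⟩
        · rw [hcs l hl, cur_supp hwz l hl, sub_zero]
        · rw [b_sub]
          simp only
          rw [b_cur_of_IsZ hwz, hw, sub_self]
      have h8 := key _ hy
      have h9 : Phi n (QO M) z hz
          = Phi n (QO M) (fun l => pr T M (ρ (z l) - cur w hwz.ml l)) (hy.map (pr T M))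
            + Phi n (QO M) (sh w hwz) (sh_isZ hwz) := by
        rw [← Phi_add]
        refine Phi_congr n (QO M) _ _ ?_
        funext l
        rw [map_sub, r1]
        exact (sub_add_cancel _ _).symm
      have h10 : (Phi n (QO M) z hz).comp (SC_shortExact M).extClass (rfl : n + 1 = n + 1)
          = (Phi n (QO M) (fun l => pr T M (ρ (z l) - cur w hwz.ml l)) (hy.map (pr T M))).comp
              (SC_shortExact M).extClass (rfl : n + 1 = n + 1)
            + (Phi n (QO M) (sh w hwz) (sh_isZ hwz)).comp
              (SC_shortExact M).extClass (rfl : n + 1 = n + 1) := by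
        rw [h9]
        exact Ext.add_comp _ _ _ _
      rw [h8, zero_add] at h10
      exact h10.symm
    · constructor
      · intro h
        have h1 : (Phi n (QO M) (sh f hf) (sh_isZ hf)).comp (SC_shortExact M).extClass
          (rfl : n + 1 = n + 1) = 0 := h
        obtain ⟨x₂, hx₂⟩ := Ext.covariant_sequence_exact₃ (kk T) (SC_shortExact M)
          (Phi n (QO M) (sh f hf) (sh_isZ hf)) rfl h1
        obtain ⟨y, hy, rfl⟩ := (ih (CO M)).1 x₂
        have h2 : Phi n (QO M) (fun l => pr T M (y l)) (hy.map (pr T M))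
            = Phi n (QO M) (sh f hf) (sh_isZ hf) := by
          rw [← hx₂]
          exact Phi_map n (CO M) (QO M) (ModuleCat.ofHom (pr T M)) y hy
        have h3 : Phi n (QO M) (fun l => sh f hf l - pr T M (y l))
            ((sh_isZ hf).sub (hy.map (pr T M))) = 0 := by
          rw [Phi_sub n (QO M) _ _ (sh_isZ hf) (hy.map (pr T M)), h2, sub_self]
        obtain ⟨v, hv1, hv2, hv3⟩ := ((ih (QO M)).2 _ _).1 h3
        have hv'ml : IsML (fun l => ρ (v l)) := lift_ml r2 r3 hv1
        have h4 : ∀ l, ∃ m, eta T M m = cur f hf.ml l - y l - b (fun l => ρ (v l)) l := by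
          intro l
          rw [← pr_eq_zero_iff, map_sub, map_sub]
          have h5 := congrFun (b_map (pr T M) (fun l => ρ (v l))) l
          simp only [r1] at h5
          rw [← h5, hv3 l]
          exact sub_self _
        choose w hw using h4
        have hcml : IsML (fun l => cur f hf.ml l - y l - b (fun l => ρ (v l)) l) :=
          ((cur_ml f hf.ml).sub hy.ml).sub (b_ml hv'ml)
        refine ⟨w, ⟨fun l₁ l₂ a c => einj ?_, fun l₁ l₂ t a => einj ?_⟩,
          fun l hl => einj ?_, fun l => einj ?_⟩
        · rw [map_add, hw, hw, hw]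
          exact hcml.1 l₁ l₂ a c
        · rw [map_smul, hw, hw]
          exact hcml.2 l₁ l₂ t a
        · have h5 : ρ 0 = 0 := by
            have := r2 0 0
            rw [add_zero] at this
            exact left_eq_add.1 this
          rw [hw, map_zero, cur_supp hf l (by omega), hy.supp l (by omega),
            b_supp' (fun l hl => by rw [hv2 l hl, h5]) l (by omega)]
          simp
        · have h7 := congrFun (b_map (eta T M) w) l
          simp only [hw] at h7
          rw [← h7, b_sub, b_sub]
          simp only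
          rw [b_cur_of_IsZ hf, hy.b0, b_b hv'ml]
          simp
      · rintro ⟨w, hw1, hw2, hw3⟩
        have hy : IsZ n (fun l => cur f hf.ml l - eta T M (w l)) := by
          refine ⟨(cur_ml f hf.ml).sub (hw1.map _), fun l hl => ?_, fun l => ?_⟩
          · rw [cur_supp hf l hl, hw2 l (by omega), map_zero, sub_zero]
          · rw [b_sub, b_map]
            simp only
            rw [b_cur_of_IsZ hf, hw3, sub_self]
        have h8 := key _ hy
        have h9 : Phi n (QO M) (fun l => pr T M (cur f hf.ml l - eta T M (w l)))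
            (hy.map (pr T M)) = Phi n (QO M) (sh f hf) (sh_isZ hf) := by
          refine Phi_congr n (QO M) _ _ ?_
          funext l
          rw [map_sub, pr_eta, sub_zero]
          rfl
        rw [h9] at h8
        exact h8

/-- the product -/
theorem Phi_comp (p : ℕ) : ∀ (M : ModuleCat.{0} T.A) (f : List T.A → M) (hf : IsZ p f)
    (q : ℕ) (g : List T.A → k) (hgz : IsZ q (fun l => vt T (g l)))
    (n : ℕ) (hn : q + p = n) (hz : IsZ n (cupM f g)),
    (Phi q (kk T) (fun l => vt T (g l)) hgz).comp (Phi p M f hf) hn = Phi n M (cupM f g) hz := by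
  induction p with
  | zero =>
    intro M f hf q g hgz n hn hz
    subst hn
    have h1 := Phi_map q (kk T) M (inv0 M (f []) (inv_of_isZ hf)) (fun l => vt T (g l)) hgz
    have h2 : (Phi q (kk T) (fun l => vt T (g l)) hgz).comp (Phi 0 M f hf) (add_zero q)
        = Phi q M (fun l => (inv0 M (f []) (inv_of_isZ hf)).hom (vt T (g l)))
          (hgz.map (inv0 M (f []) (inv_of_isZ hf)).hom) := h1.symm
    refine h2.trans (Phi_congr q M _ _ ?_)
    funext l
    have h3 : f = fun l' => if l' = [] then f [] else 0 := by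
      funext l'
      rcases eq_or_ne l' [] with rfl | hl
      · rw [if_pos rfl]
      · rw [if_neg hl]
        exact hf.supp l' (by
          intro h4
          exact hl (List.length_eq_zero_iff.1 h4))
    have h4 : cupM f g l = algebraMap k T.A (g l) • f [] := by
      conv_lhs => rw [h3]
      exact cupM_point g (f []) l
    rw [h4]
    rfl
  | succ p ih =>
    intro M f hf q g hgz n hn hz
    subst hn
    have h6 : sh (n := q + p) (cupM f g) hz = cupM (sh f hf) g := by
      funext l
      have h7 : cur (cupM f g) hz.ml l = cupM (cur f hf.ml) g l := by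
        ext x
        rw [ev_cur, ← ev_cupM]
        simp only [cupM]
        rw [hf.supp [] (by simp), smul_zero, zero_add]
        rfl
      show pr T M (cur (cupM f g) hz.ml l) = _
      rw [h7]
      exact (cupM_hom g (pr T M) (map_add _) (fun t x => map_smul _ _ _) l _).symm
    have hz' : IsZ (q + p) (cupM (sh f hf) g) := by
      have h5 := sh_isZ (n := q + p) hz
      rw [h6] at h5
      exact h5
    have h1 := ih (QO M) (sh f hf) (sh_isZ hf) q g hgz (q + p) rfl hz'
    have h8 : Phi (q + (p + 1)) M (cupM f g) hz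
        = (Phi (q + p) (QO M) (cupM (sh f hf) g) hz').comp (SC_shortExact M).extClass rfl := by
      have h9 : Phi (q + p) (QO M) (sh (n := q + p) (cupM f g) hz) (sh_isZ (n := q + p) hz)
          = Phi (q + p) (QO M) (cupM (sh f hf) g) hz' := Phi_congr _ _ _ _ h6
      rw [← h9]
      rfl
    rw [h8, ← h1]
    exact (Ext.comp_assoc _ _ _ rfl rfl rfl).symm

end cat

theorem isZ_vt_iff {T : TAlg k I} {n : ℕ} {f : List T.A → k} :
    IsZ n (fun l => vt T (f l)) ↔ PC.IsML T f ∧ PC.Supp T n f ∧ PC.b T f = 0 := by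
  constructor
  · intro h
    refine ⟨ml_tv h.ml, fun l hl => h.supp l hl, ?_⟩
    funext l
    have h1 := h.b0 l
    rw [b_vt] at h1
    exact h1
  · rintro ⟨h1, h2, h3⟩
    refine ⟨ml_vt h1, fun l hl => ?_, fun l => ?_⟩
    · rw [h2 l hl]
      rfl
    · rw [b_vt, h3]
      rfl

theorem IsZ.smul {T : TAlg k I} {M : Type} [AddCommGroup M] [Module T.A M] {n : ℕ}
    {f : List T.A → M} (hf : IsZ n f) (t : k) : IsZ n (fun l => algebraMap k T.A t • f l) := by
  let h : M →ₗ[T.A] M :=
    { toFun := fun m => algebraMap k T.A t • m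
      map_add' := fun x y => smul_add _ x y
      map_smul' := fun a x => by
        simp only [RingHom.id_apply]
        rw [← mul_smul, ← mul_smul, Algebra.commutes] }
  exact hf.map h

end XB

/-- bar cocycles of degree `n` -/
def BZ (T : TAlg k I) (n : ℕ) : Submodule k (List T.A → k) where
  carrier := {f | PC.IsML T f ∧ PC.Supp T n f ∧ PC.b T f = 0}
  add_mem' := by
    intro f g hf hg
    exact XB.isZ_vt_iff.1 ((XB.isZ_vt_iff.2 hf).add (XB.isZ_vt_iff.2 hg))
  zero_mem' := XB.isZ_vt_iff.1 (XB.IsZ.zero n)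
  smul_mem' := by
    intro t f hf
    have h := (XB.isZ_vt_iff.2 hf).smul t
    refine XB.isZ_vt_iff.1 ?_
    have h1 : (fun l => vt T ((t • f) l)) = fun l => algebraMap k T.A t • vt T (f l) := by
      funext l
      rw [XB.algebraMap_smul_vt]
      rfl
    rw [h1]
    exact h

theorem cup_mem_BZ {T : TAlg k I} {p q : ℕ} {f g : List T.A → k} (hf : f ∈ BZ T p)
    (hg : g ∈ BZ T q) : PC.cup T f g ∈ BZ T (p + q) := by
  refine XB.isZ_vt_iff.1 ?_
  have h1 : (fun l => vt T (PC.cup T f g l)) = XB.cupM (fun l => vt T (f l)) g := by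
    funext l
    rw [XB.cupM_vt]
  rw [h1]
  have hf' := XB.isZ_vt_iff.2 hf
  refine ⟨XB.cupM_ml hf'.ml hg.1, fun l hl => XB.cupM_supp hg.2.1 l p _ hf'.supp hl,
    fun l => ?_⟩
  rw [XB.b_cupM hg.1 (fun l => congrFun hg.2.2 l) l _ _ hf'.ml]
  have h2 : XB.b (fun l => vt T (f l)) = fun _ => 0 := funext hf'.b0
  rw [h2]
  exact XB.cupM_zero _ _

theorem unit_mem_BZ (T : TAlg k I) : PC.unit T k ∈ BZ T 0 := by
  refine XB.isZ_vt_iff.1 ?_
  have h1 : (fun l => vt T (PC.unit T k l)) = fun l => if l = [] then vt T 1 else 0 := by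
    funext l
    cases l with
    | nil => rfl
    | cons a l =>
      rw [if_neg (by simp)]
      rfl
  rw [h1]
  refine ⟨⟨fun l₁ l₂ a c => ?_, fun l₁ l₂ t a => ?_⟩, fun l hl => ?_, XB.b_point _ ?_⟩
  · simp
  · simp
  · rw [if_neg (by
      intro h
      rw [h] at hl
      exact hl rfl)]
  · intro a
    rw [XB.algebraMap_smul_vt, XB.smul_vt]

/-- The bar cohomology of `T.A` with its cup product is the Yoneda algebra of the trivial
module. -/
theorem exists_ext_compare (T : TAlg k I) :
    ∃ Φ : ∀ n : ℕ, BZ T n →ₗ[k] Abelian.Ext (kk T) (kk T) n,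
      (∀ n, Function.Surjective (Φ n)) ∧
      (∀ n (z : BZ T n), Φ n z = 0 ↔ ∃ w : List T.A → k, PC.IsML T w ∧
        (∀ l, l.length + 1 ≠ n → w l = 0) ∧ PC.b T w = z.1) ∧
      Φ 0 ⟨PC.unit T k, unit_mem_BZ T⟩ = Abelian.Ext.mk₀ (𝟙 (kk T)) ∧
      ∀ (p q : ℕ) (f : BZ T p) (g : BZ T q),
        (Φ q g).comp (Φ p f) (add_comm q p)
          = Φ (p + q) ⟨PC.cup T f.1 g.1, cup_mem_BZ f.2 g.2⟩ := by
  refine ⟨fun n =>
    { toFun := fun z => XB.Phi n (kk T) (fun l => vt T (z.1 l)) (XB.isZ_vt_iff.2 z.2)
      map_add' := fun z w => ?_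
      map_smul' := fun t z => ?_ }, fun n x => ?_, fun n z => ?_, ?_, fun p q f g => ?_⟩
  · rw [← XB.Phi_add]
    rfl
  · simp only [RingHom.id_apply]
    rw [← XB.Phi_smul n (kk T) t _ (XB.isZ_vt_iff.2 z.2) ((XB.isZ_vt_iff.2 z.2).smul t)]
    refine XB.Phi_congr n (kk T) _ _ ?_
    funext l
    exact (XB.algebraMap_smul_vt t (z.1 l)).symm
  · obtain ⟨f, hf, hx⟩ := (XB.Phi_main n (kk T)).1 x
    let f' : List T.A → k := fun l => tv (T := T) (f l)
    have hf' : XB.IsZ n (fun l => vt T (f' l)) := hf
    exact ⟨⟨f', XB.isZ_vt_iff.1 hf'⟩, hx⟩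
  · refine ((XB.Phi_main n (kk T)).2 _ (XB.isZ_vt_iff.2 z.2)).trans ?_
    constructor
    · rintro ⟨w, h1, h2, h3⟩
      refine ⟨fun l => tv (T := T) (w l), XB.ml_tv h1, fun l hl => h2 l hl, ?_⟩
      funext l
      have h4 := h3 l
      have h5 := congrFun (XB.b_vt (T := T) (fun l => tv (T := T) (w l))) l
      exact h5.symm.trans h4
    · rintro ⟨w, h1, h2, h3⟩
      refine ⟨fun l => vt T (w l), XB.ml_vt h1, fun l hl => congrArg (vt T) (h2 l hl),
        fun l => ?_⟩
      · have h5 := congrFun (XB.b_vt (T := T) w) l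
        refine h5.trans ?_
        rw [h3]
  · show Abelian.Ext.mk₀ _ = _
    congr 1
    ext x
    show algebraMap k T.A (tv x) • vt T 1 = x
    rw [XB.algebraMap_smul_vt, mul_one, vt_tv]
  · have h1 : XB.cupM (fun l => vt T (f.1 l)) g.1 = fun l => vt T (PC.cup T f.1 g.1 l) := by
      funext l
      rw [XB.cupM_vt]
    have hz0 : XB.IsZ (p + q) (fun l => vt T (PC.cup T f.1 g.1 l)) :=
      XB.isZ_vt_iff.2 (cup_mem_BZ f.2 g.2)
    have hz : XB.IsZ (p + q) (XB.cupM (fun l => vt T (f.1 l)) g.1) := by
      rw [h1]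
      exact hz0
    have h2 := XB.Phi_comp p (kk T) (fun l => vt T (f.1 l)) (XB.isZ_vt_iff.2 f.2) q g.1
      (XB.isZ_vt_iff.2 g.2) (p + q) (add_comm q p) hz
    exact h2.trans (XB.Phi_congr _ _ _ _ h1)

end Pool.Agent.Lib.QG
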