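import Pool.Agent.Lib.MP_021f05_al.Stmt

/-!
# MP_021f05_al (K2): the Yoneda algebra as a graded algebra
-/

noncomputable section

namespace Pool.Agent.Lib.QG.Stmt

open CategoryTheory DirectSum

universe w v u

variable {k : Type} [Field k] {C : Type u} [Category.{v} C] [Abelian C] [Linear k C]
  [HasExt.{w} C] (X : C)

omit [Linear k C] in
/-- two classes of equal degrees with the same image in a common degree are equal -/
theorem mk_comp_eq {a b n : ℕ} (x : Y X a) (y : Y X b) (h : a + b = n) :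
    (GradedMonoid.mk (a + b) (Abelian.Ext.comp x y rfl) : GradedMonoid (Y X))
      = GradedMonoid.mk n (Abelian.Ext.comp x y h) := by
  subst h
  rfl

/-- the Yoneda algebra is a graded semiring with the Yoneda product -/
instance yonedaGSemiring : DirectSum.GSemiring (Y X) where
  mul_zero {i j} a := Abelian.Ext.comp_zero a X j (i + j) rfl
  zero_mul {i j} b := by
    show (0 : Y X i).comp b rfl = 0
    rw [Abelian.Ext.zero_comp]
  mul_add a b c := Abelian.Ext.comp_add a b c rfl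
  add_mul a b c := Abelian.Ext.add_comp a b c rfl
  one_mul := by
    rintro ⟨n, a⟩
    refine (mk_comp_eq X (Abelian.Ext.mk₀ (𝟙 X)) a (zero_add n)).trans ?_
    rw [Abelian.Ext.mk₀_id_comp]
    rfl
  mul_one := by
    rintro ⟨n, a⟩
    refine (mk_comp_eq X a (Abelian.Ext.mk₀ (𝟙 X)) (add_zero n)).trans ?_
    rw [Abelian.Ext.comp_mk₀_id]
    rfl
  mul_assoc := by
    rintro ⟨a, x⟩ ⟨b, y⟩ ⟨c, z⟩
    refine (mk_comp_eq X (Abelian.Ext.comp x y rfl) z (add_assoc a b c)).trans ?_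
    exact congrArg (GradedMonoid.mk (a + (b + c)))
      (Abelian.Ext.comp_assoc x y z rfl rfl (add_assoc a b c))
  natCast n := n • Abelian.Ext.mk₀ (𝟙 X)
  natCast_zero := zero_smul ℕ _
  natCast_succ n := succ_nsmul _ n

/-- the Yoneda algebra is a graded `k`-algebra -/
instance yonedaGAlgebra : DirectSum.GAlgebra k (Y X) where
  toFun :=
    { toFun := fun t => t • Abelian.Ext.mk₀ (𝟙 X)
      map_zero' := zero_smul k _
      map_add' := fun s t => add_smul s t _ }
  map_one := one_smul k _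
  map_mul s t := by
    refine Eq.trans ?_ (mk_comp_eq X (s • Abelian.Ext.mk₀ (𝟙 X) : Y X 0)
      (t • Abelian.Ext.mk₀ (𝟙 X) : Y X 0) (add_zero 0)).symm
    refine congrArg (GradedMonoid.mk 0) ?_
    show (s * t) • Abelian.Ext.mk₀ (𝟙 X) = (s • Abelian.Ext.mk₀ (𝟙 X) : Y X 0).comp
      (t • Abelian.Ext.mk₀ (𝟙 X) : Y X 0) (add_zero 0)
    rw [Abelian.Ext.smul_comp, Abelian.Ext.mk₀_id_comp, smul_smul]
  commutes t := by
    rintro ⟨n, a⟩
    refine (mk_comp_eq X (t • Abelian.Ext.mk₀ (𝟙 X) : Y X 0) a (zero_add n)).trans ?_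
    refine Eq.trans ?_ (mk_comp_eq X a (t • Abelian.Ext.mk₀ (𝟙 X) : Y X 0) (add_zero n)).symm
    rw [Abelian.Ext.smul_comp, Abelian.Ext.mk₀_id_comp, Abelian.Ext.comp_smul,
      Abelian.Ext.comp_mk₀_id]
  smul_def t := by
    rintro ⟨n, a⟩
    refine Eq.symm ((mk_comp_eq X (t • Abelian.Ext.mk₀ (𝟙 X) : Y X 0) a (zero_add n)).trans ?_)
    rw [Abelian.Ext.smul_comp, Abelian.Ext.mk₀_id_comp]
    rfl

theorem of_mul_of' {i j : ℕ} (a : Y X i) (b : Y X j) :
    (DirectSum.of (Y X) i a : ⨁ n, Y X n) * DirectSum.of (Y X) j b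
      = DirectSum.of (Y X) (i + j) (Abelian.Ext.comp a b rfl) := DirectSum.of_mul_of a b

theorem of_one' : (DirectSum.of (Y X) 0 (Abelian.Ext.mk₀ (𝟙 X)) : ⨁ n, Y X n) = 1 := rfl

end Pool.Agent.Lib.QG.Stmt
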