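import Pool.Agent.Lib.MP_021f05_al.E0
import Pool.Agent.Lib.MP_021f05_al.Ind2
import Pool.Agent.Lib.MP_021f05_al.Roots
import Pool.Agent.Lib.MP_021f05_al.Tw

/-!
# MP_021f05_al (E9): graded Nakayama lemma: `Ext¹`-vanishing implies freeness
-/

noncomputable section

namespace Pool.Agent.Lib.QG

open MvPolynomial
open scoped TensorProduct

variable {k : Type} [Field k] {I : Type}

/-- the action map `H ⊗ G → M` for an algebra map `ψ : H → T.A` -/
def actG {T : TAlg k I} {H : Type} [Ring H] [Algebra k H] (ψ : H →ₐ[k] T.A) (M : Mod T)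
    (G : Submodule k M.X) : H ⊗[k] G →ₗ[k] M.X :=
  TensorProduct.lift
    { toFun := fun y =>
        { toFun := fun g => ψ y • g.1
          map_add' := fun g g' => smul_add _ _ _
          map_smul' := fun t g => smul_comm (ψ y) t g.1 }
      map_add' := fun y y' => LinearMap.ext fun g => by
        show ψ (y + y') • g.1 = ψ y • g.1 + ψ y' • g.1
        rw [map_add, add_smul]
      map_smul' := fun t y => LinearMap.ext fun g => by
        show ψ (t • y) • g.1 = t • ψ y • g.1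
        rw [map_smul, smul_assoc] }

theorem actG_tmul {T : TAlg k I} {H : Type} [Ring H] [Algebra k H] (ψ : H →ₐ[k] T.A) (M : Mod T)
    (G : Submodule k M.X) (y : H) (g : G) : actG ψ M G (y ⊗ₜ g) = ψ y • g.1 := rfl

variable [Fintype I] [DecidableEq I] (Q : QD k I)

/-- the positive half in `B` -/
def QD.upB : HA Q Set.univ →ₐ[k] Q.B.A := HA.up Q Set.univ ∅

/-- the negative half in `U` -/
def QD.umU : HA Q Set.univ →ₐ[k] Q.U.A := HA.um Q Set.univ Set.univ

/-- the negative half in `B⁻` -/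
def QD.umB : HA Q Set.univ →ₐ[k] Q.Bm.A := HA.um Q ∅ Set.univ


variable {Q}

/-! ### weight projections and the graded Nakayama lemma -/

/-- the projection to a weight space -/
lemma fb_proj {T : TAlg k I} {M : Mod T} (hM : IsWt Q M) (μ : I → ℤ) :
    ∃ π : M.X →ₗ[k] M.X, (∀ x, π x ∈ wts Q M μ) ∧ (∀ x ∈ wts Q M μ, π x = x) ∧
      (∀ ν, ν ≠ μ → ∀ x ∈ wts Q M ν, π x = 0) ∧
      ∀ i x, π ((T.K i : T.A) • x) = Q.χ μ i • π x := by
  obtain ⟨π, h1, h2, h3⟩ := hM.exists_retraction (wts Q M μ) (fun i x hx => by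
    rw [hx i]; exact Submodule.smul_mem _ _ hx)
  refine ⟨π, h1, h2, fun ν hν x hx => ?_, fun i x => ?_⟩
  · have h4 : π x ∈ wts Q M ν := by
      intro i
      rw [← h3, hx i, map_smul]
    have h5 : Disjoint (wts Q M ν) (wts Q M μ) := wts_indep.pairwiseDisjoint hν
    exact (Submodule.mem_bot k).1 (h5.le_bot ⟨h4, h1 x⟩)
  · rw [h3, h1 x i]

/-- stable subspaces are stable under the projections -/
lemma fb_proj_mem {T : TAlg k I} {M : Mod T} (hM : IsWt Q M) (μ : I → ℤ)
    {π : M.X →ₗ[k] M.X} (h2 : ∀ x ∈ wts Q M μ, π x = x)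
    (h3 : ∀ ν, ν ≠ μ → ∀ x ∈ wts Q M ν, π x = 0) (N : Submodule k M.X)
    (hK : ∀ i, ∀ x ∈ N, (T.K i : T.A) • x ∈ N) {z : M.X} (hz : z ∈ N) : π z ∈ N := by
  obtain ⟨f, hf, hzf⟩ := hM.exists_sum z
  rw [Finsupp.sum] at hzf
  have h5 := wt_graded N hK f.support f hf (hzf ▸ hz)
  rw [hzf, map_sum]
  refine Submodule.sum_mem _ fun ν hν => ?_
  by_cases hne : ν = μ
  · rw [h2 (f ν) (hne ▸ hf ν)]
    exact h5 ν hν
  · rw [h3 ν hne _ (hf ν)]
    exact zero_mem _

/-- `∑ E_i M` -/
def fbN (M : Mod Q.B) : Submodule k M.X :=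
  Submodule.span k {z | ∃ (i : I) (x : M.X), z = Q.gE Set.univ ∅ i • x}

lemma fbN_mem {M : Mod Q.B} (i : I) (x : M.X) : Q.gE Set.univ ∅ i • x ∈ fbN M :=
  Submodule.subset_span ⟨i, x, rfl⟩

lemma fbN_K {M : Mod Q.B} (j : I) {x : M.X} (hx : x ∈ fbN M) :
    (Q.B.K j : Q.B.A) • x ∈ fbN M := by
  unfold fbN at hx
  induction hx using Submodule.span_induction with
  | mem z hz =>
    obtain ⟨i, y, rfl⟩ := hz
    rw [smul_smul, gK_gE, smul_assoc_k, mul_smul]
    exact Submodule.smul_mem _ _ (fbN_mem i _)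
  | zero => rw [smul_zero]; exact zero_mem _
  | add x y _ _ hx hy => rw [smul_add]; exact add_mem hx hy
  | smul t x _ hx => rw [smul_comm_k]; exact Submodule.smul_mem _ _ hx

omit [DecidableEq I] in
lemma fb_ht_add (μ ν : I → ℤ) : ht (μ + ν) = ht μ + ht ν := by
  unfold ht
  rw [← Finset.sum_add_distrib]
  rfl

lemma fb_ht_al (i : I) : ht (Q.al i) = 1 := by
  unfold ht
  simp [CDatum.al, Pi.single_apply]

/-- the graded Nakayama lemma -/
lemma fb_nakayama {M : Mod Q.B} (hM : IsWt Q M) (c : ℤ)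
    (hc : ∀ μ, wts Q M μ ≠ ⊥ → c ≤ ht μ) (N : Submodule k M.X)
    (hK : ∀ j, ∀ x ∈ N, (Q.B.K j : Q.B.A) • x ∈ N)
    (hE : ∀ j, ∀ x ∈ N, Q.gE Set.univ ∅ j • x ∈ N)
    (h : ∀ x, ∃ n ∈ N, ∃ e ∈ fbN M, x = n + e) : N = ⊤ := by
  have key : ∀ n : ℕ, ∀ μ, ht μ < c + n → ∀ x ∈ wts Q M μ, x ∈ N := by
    intro n
    induction n with
    | zero =>
      intro μ hμ x hx
      have h1 : wts Q M μ = ⊥ := by
        by_contra h2
        have := hc μ h2
        rw [Nat.cast_zero] at hμ
        omega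
      rw [h1] at hx
      rw [(Submodule.mem_bot k).1 hx]
      exact zero_mem _
    | succ n ih =>
      intro μ hμ x hx
      obtain ⟨π, h1, h2, h3, -⟩ := fb_proj hM μ
      obtain ⟨y, hy, e, he, hxe⟩ := h x
      have h6 : π e ∈ N := by
        clear hxe
        unfold fbN at he
        induction he using Submodule.span_induction with
        | mem z hz =>
          obtain ⟨i, y, rfl⟩ := hz
          obtain ⟨f, hf, hyf⟩ := hM.exists_sum y
          rw [hyf, Finsupp.sum, Finset.smul_sum, map_sum]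
          refine Submodule.sum_mem _ fun ν hν => ?_
          have h7 := gE_wt (hf ν) i
          by_cases hne : ν + Q.al i = μ
          · rw [h2 _ (hne ▸ h7)]
            refine hE i _ (ih ν ?_ _ (hf ν))
            have h8 := fb_ht_add ν (Q.al i)
            rw [hne, fb_ht_al] at h8
            push_cast at hμ
            omega
          · rw [h3 _ hne _ h7]
            exact zero_mem _
        | zero => rw [map_zero]; exact zero_mem _
        | add x y _ _ hx hy => rw [map_add]; exact add_mem hx hy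
        | smul t x _ hx => rw [map_smul]; exact Submodule.smul_mem _ _ hx
      rw [← h2 x hx, hxe, map_add]
      exact add_mem (fb_proj_mem hM μ h2 h3 N hK hy) h6
  rw [eq_top_iff]
  intro x _
  obtain ⟨f, hf, hxf⟩ := hM.exists_sum x
  rw [hxf]
  refine Submodule.sum_mem _ fun ν _ => key (ht ν - c + 1).toNat ν ?_ _ (hf ν)
  omega

/-! ### maps to the trivial module -/

lemma fb_eps_E (i : I) : Q.B.ε (Q.gE Set.univ ∅ i) = 0 :=
  QElts.lift_E (QElts.eps Q Set.univ ∅) i

lemma fb_gF (i : I) : (QA.elts Q Set.univ ∅).F i = 0 :=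
  (QA.elts Q Set.univ ∅).F0 i (Set.notMem_empty i)

/-- maps to the trivial module kill `∑ E_i M` -/
lemma fb_kill {M : Mod Q.B} (f : M.X →ₗ[Q.B.A] (triv Q.B).X) {x : M.X} (hx : x ∈ fbN M) :
    f x = 0 := by
  unfold fbN at hx
  induction hx using Submodule.span_induction with
  | mem z hz =>
    obtain ⟨i, y, rfl⟩ := hz
    rw [map_smul, triv_smul, fb_eps_E, zero_mul]
    rfl
  | zero => exact map_zero f
  | add x y _ _ hx hy => rw [map_add, hx, hy, add_zero]
  | smul t x _ hx => rw [map_smulk, hx, smul_zero]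

/-- construction of maps to the trivial module -/
lemma fb_toTriv {M : Mod Q.B} (φ : M.X →ₗ[k] k)
    (hE : ∀ i x, φ (Q.gE Set.univ ∅ i • x) = 0)
    (hK : ∀ i x, φ ((Q.B.K i : Q.B.A) • x) = φ x) :
    ∃ f : M.X →ₗ[Q.B.A] (triv Q.B).X, ∀ x, f x = vt Q.B (φ x) := by
  have key : ∀ (a : Q.B.A) (x : M.X), φ (a • x) = Q.B.ε a * φ x := by
    intro a
    refine QA.induction (p := fun a : QA Q Set.univ ∅ => ∀ x : M.X,
      φ ((show Q.B.A from a) • x) = Q.B.ε a * φ x) ?_ ?_ ?_ ?_ ?_ ?_ ?_ a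
    · intro t x
      have h1 : (algebraMap k Q.B.A t) • x = t • x := algebraMap_smul _ _ _
      have h2 : Q.B.ε (algebraMap k Q.B.A t) = t := AlgHom.commutes _ _
      show φ ((algebraMap k Q.B.A t) • x) = Q.B.ε (algebraMap k Q.B.A t) * φ x
      rw [h1, h2, map_smul, smul_eq_mul]
    · intro i x
      have h1 := hE i x
      have h2 : Q.B.ε (Q.gE Set.univ ∅ i) = 0 := fb_eps_E i
      show φ (Q.gE Set.univ ∅ i • x) = Q.B.ε (Q.gE Set.univ ∅ i) * φ x
      rw [h1, h2, zero_mul]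
    · intro i x
      rw [fb_gF i]
      show φ ((0 : Q.B.A) • x) = Q.B.ε (0 : Q.B.A) * φ x
      rw [zero_smul, map_zero, map_zero, zero_mul]
    · intro i x
      have h2 : Q.B.ε (Q.B.K i : Q.B.A) = 1 := Q.B.ε_K i
      show φ ((Q.B.K i : Q.B.A) • x) = Q.B.ε (Q.B.K i : Q.B.A) * φ x
      rw [hK, h2, one_mul]
    · intro i x
      have h2 : Q.B.ε (((Q.B.K i)⁻¹ : Q.B.Aˣ) : Q.B.A) = 1 := ε_Kinv i
      show φ ((((Q.B.K i)⁻¹ : Q.B.Aˣ) : Q.B.A) • x)
        = Q.B.ε (((Q.B.K i)⁻¹ : Q.B.Aˣ) : Q.B.A) * φ x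
      rw [h2, one_mul, ← hK i, smul_smul, Units.mul_inv, one_smul]
    · intro a b ha hb x
      show φ (((show Q.B.A from a) + (show Q.B.A from b)) • x)
        = Q.B.ε ((show Q.B.A from a) + (show Q.B.A from b)) * φ x
      rw [add_smul, map_add, map_add, ha, hb, add_mul]
    · intro a b ha hb x
      show φ (((show Q.B.A from a) * (show Q.B.A from b)) • x)
        = Q.B.ε ((show Q.B.A from a) * (show Q.B.A from b)) * φ x
      rw [mul_smul, ha, hb, map_mul, mul_assoc]
  exact ⟨{ toFun := fun x => vt Q.B (φ x)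
           map_add' := fun x y => by rw [map_add]; rfl
           map_smul' := fun a x => by
             rw [key, RingHom.id_apply, triv_smul, tv_vt] }, fun x => rfl⟩

lemma fb_twN {M : Mod Q.B} (ν : I → ℤ) {x : M.X} (hx : x ∈ fbN M) :
    twx ν x ∈ fbN (M.tw ν) := by
  unfold fbN at hx
  induction hx using Submodule.span_induction with
  | mem z hz =>
    obtain ⟨i, y, rfl⟩ := hz
    rw [← tw_E]
    exact fbN_mem i _
  | zero => exact zero_mem _
  | add x y _ _ hx hy => rw [twx_add]; exact add_mem hx hy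
  | smul t x _ hx => rw [twx_smulk]; exact Submodule.smul_mem _ _ hx

/-- if no twist maps nontrivially to the trivial module then `M = ∑ E_i M` -/
lemma fb_top {M : Mod Q.B} (hM : IsWt Q M)
    (h : ∀ ν, ∀ f : (M.tw ν).X →ₗ[Q.B.A] (triv Q.B).X, f = 0) : fbN M = ⊤ := by
  by_contra hne
  obtain ⟨x, μ, hx, hxN⟩ : ∃ (x : M.X) (μ : I → ℤ), x ∈ wts Q M μ ∧ x ∉ fbN M := by
    by_contra hcon
    push Not at hcon
    apply hne
    rw [eq_top_iff]
    intro x _
    obtain ⟨f, hf, hxf⟩ := hM.exists_sum x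
    rw [hxf]
    exact Submodule.sum_mem _ fun ν _ => hcon _ ν (hf ν)
  obtain ⟨φ0, h0, h0'⟩ := Submodule.exists_le_ker_of_notMem hxN
  obtain ⟨π, h1, h2, h3, h4⟩ := fb_proj hM μ
  have hE : ∀ i y, φ0 (π (Q.gE Set.univ ∅ i • y)) = 0 := by
    intro i y
    exact h0' (fb_proj_mem hM μ h2 h3 (fbN M) (fun i x hx => fbN_K i hx) (fbN_mem i y))
  let φ : (M.tw (-μ)).X →ₗ[k] k :=
    { toFun := fun y => φ0 (π (show M.X from y))
      map_add' := fun y z => by
        show φ0 (π ((show M.X from y) + (show M.X from z))) = _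
        rw [map_add, map_add]
      map_smul' := fun t y => by
        show φ0 (π (t • (show M.X from y))) = _
        rw [map_smul, map_smul]
        rfl }
  have hφ : ∀ y : M.X, φ (twx (-μ) y) = φ0 (π y) := fun y => rfl
  obtain ⟨f, hf⟩ := fb_toTriv φ (fun i y => by
      show φ (Q.gE Set.univ ∅ i • twx (-μ) (show M.X from y)) = 0
      rw [tw_E, hφ]
      exact hE i _) (fun i y => by
      show φ (((Q.T Set.univ ∅).K i : (Q.T Set.univ ∅).A) • twx (-μ) (show M.X from y))
        = φ (twx (-μ) (show M.X from y))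
      rw [tw_K, hφ, hφ, map_smul, h4, smul_smul, ← QD.χ_add, neg_add_cancel, QD.χ_zero,
        one_smul])
  have h5 := h (-μ) f
  have h6 : f (twx (-μ) x) = vt Q.B (φ0 x) := by
    rw [hf, hφ, h2 x hx]
  rw [h5] at h6
  exact h0 h6.symm

/-! ### the torus part -/

/-- the inclusion of the torus part -/
def fbi (Q : QD k I) : THom Q.U0 Q.B :=
  Q.inc (Set.empty_subset Set.univ) (Set.Subset.refl ∅)

lemma fbi_bij (Q : QD k I) :
    Function.Bijective (mulN (fbi Q) (LinearMap.range (QD.upB Q).toLinearMap)) :=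
  ind2_bij_range (Q.inc (Set.empty_subset Set.univ) (Set.Subset.refl ∅))
    (HA.up Q Set.univ ∅).toLinearMap (tdp Q Set.univ ∅) (tdp_tmul Q Set.univ ∅)
    (tdp_bijective Q Set.univ ∅)

lemma fb_up_inj (Q : QD k I) : Function.Injective (QD.upB Q) := by
  rw [injective_iff_map_eq_zero]
  intro y hy
  have h1 : tdp Q Set.univ ∅ (y ⊗ₜ 1) = 0 := by
    rw [tdp_tmul, map_one, mul_one]
    exact hy
  have h2 : y ⊗ₜ[k] (1 : QA Q ∅ ∅) = 0 :=
    (tdp_bijective Q Set.univ ∅).1 (h1.trans (map_zero _).symm)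
  have h3 := congrArg (TensorProduct.rid k (HA Q Set.univ))
    (congrArg (TensorProduct.map LinearMap.id (QElts.eps Q ∅ ∅).lift.toLinearMap) h2)
  rw [TensorProduct.map_tmul, map_zero, map_zero, TensorProduct.rid_tmul,
    AlgHom.toLinearMap_apply, map_one, one_smul, LinearMap.id_apply] at h3
  exact h3

/-- subspaces stable under the torus are stable under the torus part -/
lemma fb_stable {M : Mod Q.U0} (N : Submodule k M.X)
    (hK : ∀ j, ∀ x ∈ N, (Q.U0.K j : Q.U0.A) • x ∈ N)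
    (hL : ∀ j, ∀ x ∈ N, (((Q.U0.K j)⁻¹ : Q.U0.Aˣ) : Q.U0.A) • x ∈ N) (a : Q.U0.A) :
    ∀ x ∈ N, a • x ∈ N := by
  refine QA.induction (p := fun a : QA Q ∅ ∅ => ∀ x ∈ N, (show Q.U0.A from a) • x ∈ N)
    ?_ ?_ ?_ ?_ ?_ ?_ ?_ a
  · intro t x hx
    have h1 : (algebraMap k Q.U0.A t) • x = t • x := algebraMap_smul _ _ _
    show (algebraMap k Q.U0.A t) • x ∈ N
    rw [h1]
    exact N.smul_mem _ hx
  · intro i x _
    rw [(QA.elts Q ∅ ∅).E0 i (Set.notMem_empty i)]
    show (0 : Q.U0.A) • x ∈ N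
    rw [zero_smul]
    exact N.zero_mem
  · intro i x _
    rw [(QA.elts Q ∅ ∅).F0 i (Set.notMem_empty i)]
    show (0 : Q.U0.A) • x ∈ N
    rw [zero_smul]
    exact N.zero_mem
  · intro i x hx
    exact hK i x hx
  · intro i x hx
    exact hL i x hx
  · intro a b ha hb x hx
    show ((show Q.U0.A from a) + (show Q.U0.A from b)) • x ∈ N
    rw [add_smul]
    exact N.add_mem (ha x hx) (hb x hx)
  · intro a b ha hb x hx
    show ((show Q.U0.A from a) * (show Q.U0.A from b)) • x ∈ N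
    rw [mul_smul]
    exact ha _ (hb x hx)

/-- a torus stable subspace as a module over the torus part -/
def fbY (M : Mod Q.B) (G : Submodule k M.X)
    (hG : ∀ (a : Q.U0.A), ∀ x ∈ G, (fbi Q).f a • x ∈ G) : Mod Q.U0 :=
  letI : Module Q.U0.A G :=
    { smul := fun a g => ⟨(fbi Q).f a • g.1, hG a g.1 g.2⟩
      one_smul := fun g => Subtype.ext (by
        show (fbi Q).f 1 • g.1 = g.1
        rw [map_one, one_smul])
      mul_smul := fun a b g => Subtype.ext (by
        show (fbi Q).f (a * b) • g.1 = (fbi Q).f a • (fbi Q).f b • g.1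
        rw [map_mul, mul_smul])
      smul_zero := fun a => Subtype.ext (smul_zero ((fbi Q).f a))
      smul_add := fun a g g' => Subtype.ext (smul_add ((fbi Q).f a) g.1 g'.1)
      add_smul := fun a b g => Subtype.ext (by
        show (fbi Q).f (a + b) • g.1 = (fbi Q).f a • g.1 + (fbi Q).f b • g.1
        rw [map_add, add_smul])
      zero_smul := fun g => Subtype.ext (by
        show (fbi Q).f 0 • g.1 = 0
        rw [map_zero, zero_smul]) }
  { X := G
    tower := ⟨fun t a g => Subtype.ext (by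
      show (fbi Q).f (t • a) • g.1 = t • (fbi Q).f a • g.1
      rw [map_smul, smul_assoc])⟩ }

/-- the inclusion -/
def fbj (M : Mod Q.B) (G : Submodule k M.X)
    (hG : ∀ (a : Q.U0.A), ∀ x ∈ G, (fbi Q).f a • x ∈ G) :
    (fbY M G hG).X →ₗ[Q.U0.A] (M.res (fbi Q)).X where
  toFun g := (show G from g).1
  map_add' _ _ := rfl
  map_smul' _ _ := rfl

/-! ### the induced module -/

lemma fb_wtA_mul {μ ν : I → ℤ} {a b : Q.B.A} (ha : a ∈ wtA Q Q.B μ) (hb : b ∈ wtA Q Q.B ν) :
    a * b ∈ wtA Q Q.B (μ + ν) := by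
  intro i
  rw [map_mul, ha i, hb i, smul_mul_smul_comm, QD.χ_add]

lemma fb_word_cons (i : I) (w : List I) : Q.upB (HA.word Q Set.univ (i :: w))
    = (Q.gE Set.univ ∅ i : Q.B.A) * Q.upB (HA.word Q Set.univ w) := by
  have h : HA.word Q Set.univ (i :: w) = HA.x Q Set.univ i * HA.word Q Set.univ w := by
    unfold HA.word
    rw [List.map_cons, List.prod_cons]
  have h2 : Q.upB (HA.x Q Set.univ i) = (Q.gE Set.univ ∅ i : Q.B.A) :=
    HA.up_x Q Set.univ ∅ i
  rw [h, map_mul, h2]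

lemma fb_word (w : List I) :
    ∃ μ : I → ℤ, 0 ≤ ht μ ∧ Q.upB (HA.word Q Set.univ w) ∈ wtA Q Q.B μ := by
  induction w with
  | nil =>
    refine ⟨0, by simp [ht], ?_⟩
    have h : Q.upB (HA.word Q Set.univ []) = 1 := map_one _
    rw [h]
    intro i
    rw [QD.χ_zero, one_smul, map_one]
  | cons i w ih =>
    obtain ⟨μ, h1, h2⟩ := ih
    refine ⟨Q.al i + μ, ?_, ?_⟩
    · rw [fb_ht_add, fb_ht_al]
      omega
    · rw [fb_word_cons]
      refine fb_wtA_mul (ind2_mem_wtA fun j => ?_) h2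
      rw [ind2_χ_al]
      exact (QA.elts Q Set.univ ∅).KE j i

lemma fb_indT_smul (Y : Mod Q.U0) (t : k) (a : Q.B.A) (y : Y.X) :
    indT (fbi Q) Y (t • a) y = t • indT (fbi Q) Y a y := by
  rw [← indT_smulk]
  unfold indT
  rw [TensorProduct.smul_tmul]

lemma fb_indT_zero (Y : Mod Q.U0) (y : Y.X) : indT (fbi Q) Y 0 y = 0 := by
  have h := fb_indT_smul Y 0 0 y
  rwa [zero_smul, zero_smul] at h

/-- the induced module is spanned by words applied to weight vectors -/
lemma fb_span (Y : Mod Q.U0) (hY : IsWt Q Y) (x : (Y.ind (fbi Q)).X) :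
    x ∈ Submodule.span k {z | ∃ (w : List I) (μ : I → ℤ) (y : Y.X), y ∈ wts Q Y μ ∧
      z = indT (fbi Q) Y (Q.upB (HA.word Q Set.univ w)) y} := by
  obtain ⟨t, rfl⟩ := (indN_bijective (fbi_bij Q) Y).2 x
  induction t using TensorProduct.induction_on with
  | zero => rw [map_zero]; exact zero_mem _
  | add s t hs ht => rw [map_add]; exact add_mem hs ht
  | tmul n y =>
    obtain ⟨_, a, rfl⟩ := n
    rw [indN_tmul]
    have ha : a ∈ ⨆ ν, HA.gr Q Set.univ ν := by rw [HA.gr_iSup]; trivial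
    have hy : y ∈ ⨆ μ, wts Q Y μ := by rw [show (⨆ μ, wts Q Y μ) = ⊤ from hY]; trivial
    show indT (fbi Q) Y (Q.upB a) y ∈ _
    refine Submodule.iSup_induction (HA.gr Q Set.univ)
      (motive := fun a => indT (fbi Q) Y (Q.upB a) y ∈ Submodule.span k
        {z | ∃ (w : List I) (μ : I → ℤ) (y : Y.X), y ∈ wts Q Y μ ∧
          z = indT (fbi Q) Y (Q.upB (HA.word Q Set.univ w)) y}) ha ?_ ?_ ?_
    · intro ν a ha
      unfold HA.gr at ha
      induction ha using Submodule.span_induction with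
      | mem a ha =>
        obtain ⟨w, -, rfl⟩ := ha
        refine Submodule.iSup_induction (wts Q Y)
          (motive := fun y => indT (fbi Q) Y (Q.upB (HA.word Q Set.univ w)) y ∈ Submodule.span k
            {z | ∃ (w : List I) (μ : I → ℤ) (y : Y.X), y ∈ wts Q Y μ ∧
              z = indT (fbi Q) Y (Q.upB (HA.word Q Set.univ w)) y}) hy ?_ ?_ ?_
        · intro μ y hy
          exact Submodule.subset_span ⟨w, μ, y, hy, rfl⟩
        · rw [indT_zero_right]
          exact zero_mem _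
        · intro u v hu hv
          rw [indT_add_right]
          exact add_mem hu hv
      | zero => rw [map_zero, fb_indT_zero]; exact zero_mem _
      | add a b _ _ ha hb => rw [map_add, indT_add_left]; exact add_mem ha hb
      | smul t a _ ha => rw [map_smul, fb_indT_smul]; exact Submodule.smul_mem _ _ ha
    · rw [map_zero, fb_indT_zero]
      exact zero_mem _
    · intro a b ha hb
      rw [map_add, indT_add_left]
      exact add_mem ha hb

/-- the weights of the induced module are bounded below -/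
lemma fb_low (Y : Mod Q.U0) (hY : IsWt Q Y) (c : ℤ) (hc : ∀ μ, wts Q Y μ ≠ ⊥ → c ≤ ht μ)
    (μ : I → ℤ) (hμ : wts Q (Y.ind (fbi Q)) μ ≠ ⊥) : c ≤ ht μ := by
  by_contra hlt
  apply hμ
  rw [eq_bot_iff]
  intro x hx
  obtain ⟨π, h1, h2, h3, -⟩ := fb_proj (hY.ind (fbi Q) (QD.wtAlg Q _ _)) μ
  have h4 : ∀ z, π z = 0 := by
    intro z
    have hz := fb_span Y hY z
    induction hz using Submodule.span_induction with
    | mem z hz =>
      obtain ⟨w, ν, y, hy, rfl⟩ := hz
      obtain ⟨lam, hl, hw⟩ := fb_word (Q := Q) w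
      by_cases hy0 : y = 0
      · rw [hy0, indT_zero_right, map_zero]
      · have h5 : c ≤ ht ν := hc ν (fun hb => hy0 (by
          rw [hb] at hy
          exact (Submodule.mem_bot k).1 hy))
        refine h3 _ ?_ _ (indT_wt (fbi Q) hw hy)
        rintro rfl
        rw [fb_ht_add] at hlt
        omega
    | zero => exact map_zero π
    | add x y _ _ hx hy => rw [map_add, hx, hy, add_zero]
    | smul t x _ hx => rw [map_smul, hx, smul_zero]
  rw [← h2 x hx, h4]
  exact zero_mem _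

lemma fb_decomp (Y : Mod Q.U0) (hY : IsWt Q Y) (x : (Y.ind (fbi Q)).X) :
    ∃ y : Y.X, ∃ e ∈ fbN (Y.ind (fbi Q)), x = indT (fbi Q) Y 1 y + e := by
  have hx := fb_span Y hY x
  induction hx using Submodule.span_induction with
  | mem z hz =>
    obtain ⟨w, ν, y, -, rfl⟩ := hz
    cases w with
    | nil =>
      refine ⟨y, 0, zero_mem _, ?_⟩
      have h : Q.upB (HA.word Q Set.univ []) = 1 := map_one _
      rw [h, add_zero]
    | cons i w =>
      refine ⟨0, _, fbN_mem i (indT (fbi Q) Y (Q.upB (HA.word Q Set.univ w)) y), ?_⟩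
      rw [indT_zero_right, zero_add, smul_indT, fb_word_cons]
  | zero => exact ⟨0, 0, zero_mem _, by rw [indT_zero_right, add_zero]⟩
  | add x y _ _ hx hy =>
    obtain ⟨u, e, he, rfl⟩ := hx
    obtain ⟨v, f, hf, rfl⟩ := hy
    refine ⟨u + v, e + f, add_mem he hf, ?_⟩
    rw [indT_add_right]
    abel
  | smul t x _ hx =>
    obtain ⟨u, e, he, rfl⟩ := hx
    refine ⟨t • u, t • e, Submodule.smul_mem _ _ he, ?_⟩
    rw [indT_smulk, smul_add]

variable [CharZero k]

lemma fb_main {M : Mod Q.B} (hM : IsWt Q M) (c : ℤ)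
    (hc : ∀ μ, wts Q M μ ≠ ⊥ → c ≤ ht μ) (h : ∀ ν, EVan (M.tw ν) 1) (G : Submodule k M.X)
    (hG : ∀ (a : Q.U0.A), ∀ x ∈ G, (fbi Q).f a • x ∈ G)
    (h1 : ∀ x, ∃ g ∈ G, ∃ e ∈ fbN M, x = g + e) (h2 : ∀ x ∈ G, x ∈ fbN M → x = 0) :
    Function.Bijective (actG Q.upB M G) := by
  have hY : IsWt Q (fbY M G hG) :=
    (hM.res (fbi Q)).of_injective (fbj M G hG) Subtype.val_injective
  have hYc : ∀ μ, wts Q (fbY M G hG) μ ≠ ⊥ → c ≤ ht μ := by
    intro μ hμ
    apply hc
    intro hb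
    apply hμ
    rw [eq_bot_iff]
    intro x hx
    have h3 : (show G from x).1 ∈ wts Q M μ := by
      intro i
      have h4 := congrArg (fun z : (fbY M G hG).X => (show G from z).1) (hx i)
      have h5 : (fbi Q).f (Q.U0.K i : Q.U0.A) • (show G from x).1
          = Q.χ μ i • (show G from x).1 := h4
      rwa [(fbi Q).f_K] at h5
    rw [hb] at h3
    have h6 : (show G from x) = 0 := Subtype.ext ((Submodule.mem_bot k).1 h3)
    exact (Submodule.mem_bot k).2 h6
  have hF : IsWt Q ((fbY M G hG).ind (fbi Q)) := hY.ind (fbi Q) (QD.wtAlg Q _ _)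
  have hFc := fb_low (fbY M G hG) hY c hYc
  obtain ⟨p, hp⟩ : ∃ p : ((fbY M G hG).ind (fbi Q)).X →ₗ[Q.B.A] M.X,
      ∀ (a : Q.B.A) (y : G), p (indT (fbi Q) (fbY M G hG) a y) = a • y.1 :=
    ⟨indLift (fbi Q) (fbY M G hG) (M := M) (fbj M G hG), fun a y => rfl⟩
  have hpE : ∀ x ∈ fbN ((fbY M G hG).ind (fbi Q)), p x ∈ fbN M := by
    intro x hx
    unfold fbN at hx
    induction hx using Submodule.span_induction with
    | mem z hz =>
      obtain ⟨i, y, rfl⟩ := hz
      rw [map_smul]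
      exact fbN_mem i _
    | zero => rw [map_zero]; exact zero_mem _
    | add x y _ _ hx hy => rw [map_add]; exact add_mem hx hy
    | smul t x _ hx => rw [map_smulk]; exact Submodule.smul_mem _ _ hx
  have hsurj : Function.Surjective p := by
    have h3 : LinearMap.range (toK p) = ⊤ := by
      refine fb_nakayama hM c hc _ ?_ ?_ ?_
      · rintro j _ ⟨z, rfl⟩
        exact ⟨(Q.B.K j : Q.B.A) • z, by rw [toK_apply, map_smul, toK_apply]⟩
      · rintro j _ ⟨z, rfl⟩
        exact ⟨Q.gE Set.univ ∅ j • z, by rw [toK_apply, map_smul, toK_apply]⟩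
      · intro x
        obtain ⟨g, hg, e, he, hx⟩ := h1 x
        refine ⟨g, ⟨indT (fbi Q) (fbY M G hG) 1 (⟨g, hg⟩ : G), ?_⟩, e, he, hx⟩
        rw [toK_apply, hp, one_smul]
    intro x
    obtain ⟨z, hz⟩ := (show x ∈ LinearMap.range (toK p) by rw [h3]; trivial)
    exact ⟨z, hz⟩
  let S : ModSES (((fbY M G hG).ind (fbi Q)).sub (LinearMap.ker p)) ((fbY M G hG).ind (fbi Q)) M :=
    mkSES hF (((fbY M G hG).ind (fbi Q)).subι (LinearMap.ker p)) p Subtype.val_injective hsurj
      (fun x => ⟨fun hx => ⟨⟨x, hx⟩, rfl⟩, by rintro ⟨y, rfl⟩; exact y.2⟩)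
  have hR : IsWt Q (((fbY M G hG).ind (fbi Q)).sub (LinearMap.ker p)) := hF.sub _
  have hRE : ∀ ν, ∀ f : ((((fbY M G hG).ind (fbi Q)).sub (LinearMap.ker p)).tw ν).X
      →ₗ[Q.B.A] (triv Q.B).X, f = 0 := by
    intro ν f
    obtain ⟨S', hi, -⟩ := exists_tw_ses S ν
    have he : Emap f (one Q.B) ∈ EDeg _ 0 := Emap_mem f one_mem_Deg
    have hδ : Eδ S' (Emap f (one Q.B)) = 0 := by
      have h3 := Eδ_mem S' he
      rw [zero_add] at h3
      exact h ν _ h3
    obtain ⟨x, hx, hx2⟩ := E_ex_sub S' he hδ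
    obtain ⟨g, rfl⟩ := E0_exists _ hx
    have h4 : g ∘ₗ S'.i = 0 := by
      refine LinearMap.ext fun r => ?_
      obtain ⟨r, rfl⟩ := (twx_bijective (Q := Q) ν).2 r
      show g (S'.i (twx ν r)) = 0
      rw [hi, twMap_twx]
      refine fb_kill g (fb_twN ν ?_)
      obtain ⟨y, e, he, hye⟩ := fb_decomp (fbY M G hG) hY (S.i r)
      have h5 : p (S.i r) = 0 := r.2
      have h6 : (show G from y).1 = 0 := by
        refine h2 _ (show G from y).2 ?_
        have h7 : p (S.i r) = (show G from y).1 + p e := by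
          rw [hye, map_add, hp, one_smul]
        rw [h5] at h7
        rw [eq_neg_of_add_eq_zero_left h7.symm]
        exact neg_mem (hpE e he)
      have h8 : (show G from y) = 0 := Subtype.ext h6
      have h9 : y = 0 := h8
      rw [hye, h9, indT_zero_right, zero_add]
      exact he
    rw [Emap_comp, h4, Emap_zero] at hx2
    exact E0_inj _ hx2.symm
  have htop := fb_top hR hRE
  have hinj : Function.Injective p := by
    rw [injective_iff_map_eq_zero]
    intro x hx
    have h3 : (⊥ : Submodule k (((fbY M G hG).ind (fbi Q)).sub (LinearMap.ker p)).X) = ⊤ := by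
      refine fb_nakayama hR c ?_ _ ?_ ?_ ?_
      · intro μ hμ
        refine hFc μ fun hb => hμ ?_
        rw [eq_bot_iff]
        intro z hz
        have h4 := wt_map_mem (((fbY M G hG).ind (fbi Q)).subι (LinearMap.ker p)) hz
        rw [hb] at h4
        exact (Submodule.mem_bot k).2 (Subtype.ext ((Submodule.mem_bot k).1 h4))
      · intro j z hz
        rw [(Submodule.mem_bot k).1 hz, smul_zero]
        exact zero_mem _
      · intro j z hz
        rw [(Submodule.mem_bot k).1 hz, smul_zero]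
        exact zero_mem _
      · intro z
        exact ⟨0, zero_mem _, z, by rw [htop]; trivial, by rw [zero_add]⟩
    have h4 : (⟨x, hx⟩ : LinearMap.ker p) = 0 := by
      have h5 : (⟨x, hx⟩ : LinearMap.ker p) ∈
          (⊥ : Submodule k (((fbY M G hG).ind (fbi Q)).sub (LinearMap.ker p)).X) := by
        rw [h3]; trivial
      exact (Submodule.mem_bot k).1 h5
    exact congrArg Subtype.val h4
  let e : HA Q Set.univ ≃ₗ[k] LinearMap.range Q.upB.toLinearMap :=
    LinearEquiv.ofInjective Q.upB.toLinearMap (fb_up_inj Q)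
  let e2 : HA Q Set.univ ⊗[k] G ≃ₗ[k] (LinearMap.range Q.upB.toLinearMap) ⊗[k] G :=
    TensorProduct.congr e (LinearEquiv.refl k G)
  have h5 : ∀ t, actG Q.upB M G t = p (indN (fbi Q) (fbY M G hG) _ (e2 t)) := by
    intro t
    induction t using TensorProduct.induction_on with
    | zero =>
      rw [map_zero, map_zero]
      refine (map_zero p).symm.trans (congrArg p ?_)
      exact (map_zero (indN (fbi Q) (fbY M G hG) _)).symm
    | tmul y g => exact (hp (Q.upB y) g).symm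
    | add s t hs ht =>
      rw [map_add, map_add, hs, ht, ← map_add]
      congr 1
      exact (map_add (indN (fbi Q) (fbY M G hG) _) _ _).symm
  have h6 : (actG Q.upB M G : HA Q Set.univ ⊗[k] G → M.X)
      = p ∘ (indN (fbi Q) (fbY M G hG) (LinearMap.range Q.upB.toLinearMap)) ∘ e2 := funext h5
  rw [h6]
  exact Function.Bijective.comp ⟨hinj, hsurj⟩
    ((indN_bijective (fbi_bij Q) (fbY M G hG)).comp e2.bijective)

theorem exists_free_basis {M : Mod Q.B} (hM : IsWt Q M) (c : ℤ)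
    (hc : ∀ μ, wts Q M μ ≠ ⊥ → c ≤ ht μ) (h : ∀ ν, EVan (M.tw ν) 1) :
    ∃ G : Submodule k M.X, G = ⨆ μ, G ⊓ wts Q M μ ∧
      Function.Bijective (actG Q.upB M G) := by
  obtain ⟨ρ, r1, r2, r3⟩ := hM.exists_retraction (fbN M) (fun i x hx => fbN_K i hx)
  have hGK : ∀ j, ∀ x ∈ LinearMap.ker ρ, (Q.B.K j : Q.B.A) • x ∈ LinearMap.ker ρ := by
    intro j x hx
    rw [LinearMap.mem_ker] at hx ⊢
    rw [r3, hx, smul_zero]
  have hGL : ∀ j, ∀ x ∈ LinearMap.ker ρ, (((Q.B.K j)⁻¹ : Q.B.Aˣ) : Q.B.A) • x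
      ∈ LinearMap.ker ρ := by
    intro j x hx
    rw [LinearMap.mem_ker] at hx ⊢
    have h1 : (Q.B.K j : Q.B.A) • ρ ((((Q.B.K j)⁻¹ : Q.B.Aˣ) : Q.B.A) • x) = 0 := by
      rw [← r3, smul_smul, Units.mul_inv, one_smul, hx]
    have h2 := congrArg (fun z => (((Q.B.K j)⁻¹ : Q.B.Aˣ) : Q.B.A) • z) h1
    simpa [smul_smul] using h2
  refine ⟨LinearMap.ker ρ, ?_, ?_⟩
  · refine le_antisymm ?_ (iSup_le fun μ => inf_le_left)
    intro x hx
    obtain ⟨f, hf, hxf⟩ := hM.exists_sum x
    rw [Finsupp.sum] at hxf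
    have h5 := wt_graded (LinearMap.ker ρ) hGK f.support f hf (hxf ▸ hx)
    rw [hxf]
    exact Submodule.sum_mem _ fun ν hν => Submodule.mem_iSup_of_mem ν ⟨h5 ν hν, hf ν⟩
  · refine fb_main hM c hc h (LinearMap.ker ρ) ?_ ?_ ?_
    · intro a x hx
      refine fb_stable (M := M.res (fbi Q)) (LinearMap.ker ρ) ?_ ?_ a x hx
      · intro j x hx
        rw [Mod.res_smul, (fbi Q).f_K]
        exact hGK j x hx
      · intro j x hx
        rw [Mod.res_smul, (fbi Q).f_Kinv]
        exact hGL j x hx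
    · intro x
      refine ⟨x - ρ x, ?_, ρ x, r1 x, by rw [sub_add_cancel]⟩
      rw [LinearMap.mem_ker, map_sub, r2 (ρ x) (r1 x), sub_self]
    · intro x hx hxN
      rw [← r2 x hxN]
      exact hx

end Pool.Agent.Lib.QG
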