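import Pool.Agent.Lib.MP_021f05_al.V1
import Pool.Agent.Lib.MP_021f05_al.FreeB

/-!
# MP_021f05_al (E10): vanishing over `U` above twice the number of positive roots
-/

noncomputable section

namespace Pool.Agent.Lib.QG

open MvPolynomial
open scoped TensorProduct

section aux
variable {k : Type} [Field k] {I : Type} [Fintype I] [DecidableEq I] {Q : QD k I}

/-- projections onto weight spaces -/
lemma V2_proj {T : TAlg k I} {M : Mod T} (h : IsWt Q M) (l : I → ℤ) :
    ∃ P : M.X →ₗ[k] M.X, (∀ x ∈ wts Q M l, P x = x) ∧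
      ∀ μ, μ ≠ l → ∀ x ∈ wts Q M μ, P x = 0 := by
  classical
  have hint : DirectSum.IsInternal (wts Q M) :=
    DirectSum.isInternal_submodule_of_iSupIndep_of_iSup_eq_top wts_indep h
  let e : (DirectSum (I → ℤ) fun μ => wts Q M μ) ≃ₗ[k] M.X :=
    LinearEquiv.ofBijective (DirectSum.coeLinearMap (wts Q M)) hint
  have he : ∀ μ (x : wts Q M μ), e.symm (x : M.X)
      = DirectSum.lof k (I → ℤ) (fun μ => wts Q M μ) μ x := by
    intro μ x
    rw [LinearEquiv.symm_apply_eq]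
    show (x : M.X) = DirectSum.coeLinearMap (wts Q M)
      (DirectSum.lof k (I → ℤ) (fun μ => wts Q M μ) μ x)
    rw [DirectSum.coeLinearMap_lof]
  refine ⟨(wts Q M l).subtype ∘ₗ DirectSum.component k (I → ℤ) (fun μ => wts Q M μ) l ∘ₗ
    (e.symm : M.X →ₗ[k] _), ?_, ?_⟩
  · intro x hx
    show ((DirectSum.component k (I → ℤ) (fun μ => wts Q M μ) l (e.symm x) : wts Q M l) : M.X) = x
    rw [he l ⟨x, hx⟩, DirectSum.component.lof_self]
  · intro μ hμ x hx
    show ((DirectSum.component k (I → ℤ) (fun μ => wts Q M μ) l (e.symm x) : wts Q M l) : M.X) = 0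
    rw [he μ ⟨x, hx⟩, DirectSum.component.of, dif_neg hμ]
    rfl

/-- a homogeneous basis of a free module over the negative half -/
lemma V2_basis {M : Mod Q.U} (G : Submodule k M.X) (hG : G = ⨆ μ, G ⊓ wts Q M μ)
    (hfree : Function.Bijective (actG Q.umU M G)) :
    ∃ (ι : Type) (wt : ι → I → ℤ) (g : ι → M.X) (Ψ : (ι →₀ HA Q Set.univ) →ₗ[k] M.X),
      (∀ s, g s ∈ wts Q M (wt s)) ∧ Function.Bijective Ψ ∧
      ∀ s y, Ψ (Finsupp.single s y) = Q.umU y • g s := by
  classical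
  let A : (I → ℤ) → Submodule k G := fun μ => (wts Q M μ).comap G.subtype
  have hind : iSupIndep A := by
    intro μ
    rw [Submodule.disjoint_def]
    intro x hx hx'
    have h2 : (x : M.X) ∈ ⨆ ν, ⨆ (_ : ν ≠ μ), wts Q M ν := by
      have h3 : Submodule.map G.subtype (⨆ ν, ⨆ (_ : ν ≠ μ), A ν)
          ≤ ⨆ ν, ⨆ (_ : ν ≠ μ), wts Q M ν := by
        rw [Submodule.map_iSup]
        refine iSup_mono fun ν => ?_
        rw [Submodule.map_iSup]
        refine iSup_mono fun _ => ?_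
        rintro _ ⟨y, hy, rfl⟩
        exact hy
      exact h3 ⟨x, hx', rfl⟩
    exact Subtype.ext ((Submodule.disjoint_def.1 (wts_indep μ)) _ hx h2)
  have hsup : ⨆ μ, A μ = ⊤ := by
    refine Submodule.map_injective_of_injective (f := G.subtype) G.injective_subtype ?_
    rw [Submodule.map_iSup, Submodule.map_top, Submodule.range_subtype]
    refine Eq.trans ?_ hG.symm
    refine iSup_congr fun μ => ?_
    rw [Submodule.map_comap_subtype]
  have hint : DirectSum.IsInternal A :=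
    DirectSum.isInternal_submodule_of_iSupIndep_of_iSup_eq_top hind hsup
  let b : ∀ μ, Module.Basis (Module.Basis.ofVectorSpaceIndex k (A μ)) k (A μ) :=
    fun μ => Module.Basis.ofVectorSpace k (A μ)
  let B := hint.collectedBasis b
  refine ⟨(μ : I → ℤ) × (Module.Basis.ofVectorSpaceIndex k (A μ)), fun s => s.1,
    fun s => (B s : M.X), actG Q.umU M G ∘ₗ
      (TensorProduct.equivFinsuppOfBasisRight B).symm.toLinearMap, ?_, ?_, ?_⟩
  · intro s
    have h1 : B s ∈ A s.1 := hint.collectedBasis_mem b s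
    exact h1
  · exact hfree.comp (TensorProduct.equivFinsuppOfBasisRight B).symm.bijective
  · intro s y
    show actG Q.umU M G ((TensorProduct.equivFinsuppOfBasisRight B).symm (Finsupp.single s y)) = _
    have h1 : (TensorProduct.equivFinsuppOfBasisRight B).symm (Finsupp.single s y) = y ⊗ₜ B s := by
      rw [LinearEquiv.symm_apply_eq, TensorProduct.equivFinsuppOfBasisRight_apply_tmul,
        B.repr_self, Finsupp.mapRange_single, one_smul]
    rw [h1, actG_tmul]

/-- the negative half lowers weights -/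
lemma V2_um_wt {M : Mod Q.U} {μ : I → ℤ} {x : M.X} (hx : x ∈ wts Q M μ) {ν : I → ℕ}
    {y : HA Q Set.univ} (hy : y ∈ HA.gr Q Set.univ ν) :
    Q.umU y • x ∈ wts Q M (μ - fun i => (ν i : ℤ)) := by
  have hword : ∀ w : List I, Q.umU (HA.word Q Set.univ w) • x
      ∈ wts Q M (μ - fun i => ((wtw w i : ℕ) : ℤ)) := by
    intro w
    induction w with
    | nil =>
      rw [halfGr_word_nil, map_one, one_smul]
      have h : (μ - fun i => ((wtw ([] : List I) i : ℕ) : ℤ)) = μ := by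
        funext i
        rw [halfGr_wtw_nil]
        simp
      rw [h]
      exact hx
    | cons i w ih =>
      have h1 : HA.word Q Set.univ (i :: w) = HA.x Q Set.univ i * HA.word Q Set.univ w := by
        rw [← halfGr_word_single, ← halfGr_word_append]
        rfl
      have h2 : Q.umU (HA.x Q Set.univ i) = Q.gF Set.univ Set.univ i := HA.um_x Q _ _ i
      rw [h1, map_mul, mul_smul, h2]
      have h3 := gF_wt ih i
      have h4 : (μ - fun j => ((wtw (i :: w) j : ℕ) : ℤ))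
          = (μ - fun j => ((wtw w j : ℕ) : ℤ)) - Q.al i := by
        funext j
        have h5 : wtw (i :: w) j = wtw [i] j + wtw w j := by
          have := halfGr_wtw_append [i] w
          exact congrFun this j
        rw [halfGr_wtw_single] at h5
        simp only [Pi.sub_apply, h5, CDatum.al]
        by_cases hj : j = i
        · subst hj; simp; ring
        · rw [Pi.single_eq_of_ne hj, Pi.single_eq_of_ne hj]; simp
      rw [h4]
      exact h3
  unfold HA.gr at hy
  induction hy using Submodule.span_induction with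
  | mem y h =>
    obtain ⟨w, hw, rfl⟩ := h
    rw [← hw]
    exact hword w
  | zero => rw [map_zero, zero_smul]; exact Submodule.zero_mem _
  | add a b _ _ ha hb => rw [map_add, add_smul]; exact Submodule.add_mem _ ha hb
  | smul t a _ ha => rw [map_smul, smul_assoc]; exact Submodule.smul_mem _ _ ha

omit [DecidableEq I] in
lemma V2_ht_sub (μ : I → ℤ) (ν : I → ℕ) : ht (μ - fun i => (ν i : ℤ)) ≤ ht μ := by
  unfold ht
  refine Finset.sum_le_sum fun i _ => ?_
  simp

lemma V2_ht_add_al (μ : I → ℤ) (i : I) : ht (μ + Q.al i) = ht μ + 1 := by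
  unfold ht
  simp only [Pi.add_apply, Finset.sum_add_distrib, CDatum.al]
  congr 1
  simp

section data

variable {M : Mod Q.U} {ι : Type} {wt : ι → I → ℤ} {g : ι → M.X}
  {Ψ : (ι →₀ HA Q Set.univ) →ₗ[k] M.X}

lemma V2_mem (hM : IsWt Q M) (hg : ∀ s, g s ∈ wts Q M (wt s)) (hΨ : Function.Bijective Ψ)
    (hs : ∀ s y, Ψ (Finsupp.single s y) = Q.umU y • g s) {c : ℤ} {l : I → ℤ} (hl : c < ht l)
    {x : M.X} (hx : x ∈ wts Q M l) :
    ∃ f : ι →₀ HA Q Set.univ, (∀ s, f s ≠ 0 → c < ht (wt s)) ∧ Ψ f = x := by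
  classical
  obtain ⟨P, hP1, hP2⟩ := V2_proj hM l
  have key : ∀ s (y : HA Q Set.univ), ∃ y', P (Ψ (Finsupp.single s y)) = Ψ (Finsupp.single s y') ∧
      (ht (wt s) < ht l → y' = 0) := by
    intro s y
    have hy : y ∈ ⨆ ν, HA.gr Q Set.univ ν := by rw [HA.gr_iSup]; trivial
    induction hy using Submodule.iSup_induction' with
    | mem ν y hy =>
      have h1 : Ψ (Finsupp.single s y) ∈ wts Q M (wt s - fun i => (ν i : ℤ)) := by
        rw [hs]
        exact V2_um_wt (hg s) hy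
      by_cases h2 : (wt s - fun i => (ν i : ℤ)) = l
      · refine ⟨y, hP1 _ (h2 ▸ h1), fun h3 => ?_⟩
        have h4 := V2_ht_sub (wt s) ν
        rw [h2] at h4
        omega
      · exact ⟨0, by rw [hP2 _ h2 _ h1, Finsupp.single_zero, map_zero], fun _ => rfl⟩
    | zero => exact ⟨0, by rw [Finsupp.single_zero, map_zero, map_zero], fun _ => rfl⟩
    | add y z _ _ h1 h2 =>
      obtain ⟨y', h3, h4⟩ := h1
      obtain ⟨z', h5, h6⟩ := h2
      refine ⟨y' + z', ?_, fun h => by rw [h4 h, h6 h, add_zero]⟩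
      rw [Finsupp.single_add, map_add, map_add, h3, h5, Finsupp.single_add, map_add]
  choose Y hY1 hY2 using key
  obtain ⟨f, rfl⟩ := hΨ.2 x
  refine ⟨∑ s ∈ f.support, Finsupp.single s (Y s (f s)), ?_, ?_⟩
  · intro s h1
    by_contra h2
    apply h1
    rw [Finsupp.finsetSum_apply]
    refine Finset.sum_eq_zero fun t _ => ?_
    by_cases h3 : t = s
    · subst h3
      rw [hY2 t (f t) (by omega), Finsupp.single_zero, Finsupp.zero_apply]
    · rw [Finsupp.single_eq_of_ne (Ne.symm h3)]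
  · rw [map_sum, ← hP1 _ hx]
    conv_rhs => rw [← Finsupp.sum_single f]
    rw [Finsupp.sum, map_sum, map_sum]
    exact Finset.sum_congr rfl fun s _ => (hY1 s (f s)).symm

/-- `B` raises weights -/
lemma V2_B_wt {c : ℤ} (b : Q.B.A) : ∀ x ∈ (⨆ μ : {μ : I → ℤ // c < ht μ}, wts Q M μ.1),
    (Q.inc (Set.Subset.refl Set.univ) (Set.empty_subset Set.univ)).f b • x
      ∈ (⨆ μ : {μ : I → ℤ // c < ht μ}, wts Q M μ.1) := by
  have gen : ∀ a : Q.U.A, (∀ μ : I → ℤ, ∀ x ∈ wts Q M μ, ∃ ν : I → ℤ, ht μ ≤ ht ν ∧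
      a • x ∈ wts Q M ν) → ∀ x ∈ (⨆ μ : {μ : I → ℤ // c < ht μ}, wts Q M μ.1),
      a • x ∈ (⨆ μ : {μ : I → ℤ // c < ht μ}, wts Q M μ.1) := by
    intro a ha x hx
    induction hx using Submodule.iSup_induction' with
    | mem μ x hx =>
      obtain ⟨ν, h1, h2⟩ := ha μ.1 x hx
      exact Submodule.mem_iSup_of_mem (⟨ν, lt_of_lt_of_le μ.2 h1⟩ : {μ : I → ℤ // c < ht μ}) h2
    | zero => rw [smul_zero]; exact Submodule.zero_mem _
    | add x y _ _ h1 h2 => rw [smul_add]; exact Submodule.add_mem _ h1 h2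
  refine QA.induction (p := fun b : QA Q Set.univ ∅ => ∀ x ∈ (⨆ μ : {μ : I → ℤ // c < ht μ},
    wts Q M μ.1), (Q.inc (Set.Subset.refl Set.univ) (Set.empty_subset Set.univ)).f b • x
      ∈ (⨆ μ : {μ : I → ℤ // c < ht μ}, wts Q M μ.1)) ?_ ?_ ?_ ?_ ?_ ?_ ?_ b
  · intro t x hx
    have h : (Q.inc (Set.Subset.refl Set.univ) (Set.empty_subset Set.univ)).f
        (algebraMap k (QA Q Set.univ ∅) t) = algebraMap k Q.U.A t :=
      AlgHom.commutes _ t
    rw [h, algebraMap_smul]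
    exact Submodule.smul_mem _ _ hx
  · intro i
    refine gen _ fun μ x hx => ⟨μ + Q.al i, by rw [V2_ht_add_al]; omega, ?_⟩
    have h : (Q.inc (Set.Subset.refl Set.univ) (Set.empty_subset Set.univ)).f
        ((QA.elts Q Set.univ ∅).E i) = Q.gE Set.univ Set.univ i := Q.inc_E _ _ (Set.mem_univ i)
    rw [h]
    exact gE_wt hx i
  · intro i x hx
    rw [(QA.elts Q Set.univ ∅).F0 i (Set.notMem_empty i)]
    have h : (Q.inc (Set.Subset.refl Set.univ) (Set.empty_subset Set.univ)).f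
        (0 : QA Q Set.univ ∅) = 0 := map_zero (QA.incl Q _ _)
    rw [h, zero_smul]
    exact Submodule.zero_mem _
  · intro i
    refine gen _ fun μ x hx => ⟨μ, le_refl _, ?_⟩
    have h : (Q.inc (Set.Subset.refl Set.univ) (Set.empty_subset Set.univ)).f
        ((QA.elts Q Set.univ ∅).K i) = (Q.U.K i : Q.U.A) :=
      (Q.inc (Set.Subset.refl Set.univ) (Set.empty_subset Set.univ)).f_K i
    rw [h, hx i]
    exact Submodule.smul_mem _ _ hx
  · intro i
    refine gen _ fun μ x hx => ⟨μ, le_refl _, ?_⟩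
    have h : (Q.inc (Set.Subset.refl Set.univ) (Set.empty_subset Set.univ)).f
        ((QA.elts Q Set.univ ∅).L i) = (((Q.U.K i)⁻¹ : Q.U.Aˣ) : Q.U.A) :=
      (Q.inc (Set.Subset.refl Set.univ) (Set.empty_subset Set.univ)).f_Kinv i
    rw [h]
    have h1 : x = Q.χ μ i • (((Q.U.K i)⁻¹ : Q.U.Aˣ) : Q.U.A) • x := by
      have h2 : (((Q.U.K i)⁻¹ : Q.U.Aˣ) : Q.U.A) • (Q.U.K i : Q.U.A) • x = x := by
        rw [smul_smul, Units.inv_mul, one_smul]
      rw [hx i, smul_comm_k] at h2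
      exact h2.symm
    have h3 : (((Q.U.K i)⁻¹ : Q.U.Aˣ) : Q.U.A) • x = (Q.χ μ i)⁻¹ • x := by
      conv_rhs => rw [h1]
      rw [smul_smul, inv_mul_cancel₀ (QD.χ_ne μ i), one_smul]
    rw [h3]
    exact Submodule.smul_mem _ _ hx
  · intro a b ha hb x hx
    have h : (Q.inc (Set.Subset.refl Set.univ) (Set.empty_subset Set.univ)).f (a + b)
        = (Q.inc (Set.Subset.refl Set.univ) (Set.empty_subset Set.univ)).f a
          + (Q.inc (Set.Subset.refl Set.univ) (Set.empty_subset Set.univ)).f b :=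
      map_add (QA.incl Q _ _) a b
    rw [h, add_smul]
    exact Submodule.add_mem _ (ha x hx) (hb x hx)
  · intro a b ha hb x hx
    have h : (Q.inc (Set.Subset.refl Set.univ) (Set.empty_subset Set.univ)).f (a * b)
        = (Q.inc (Set.Subset.refl Set.univ) (Set.empty_subset Set.univ)).f a
          * (Q.inc (Set.Subset.refl Set.univ) (Set.empty_subset Set.univ)).f b :=
      map_mul (QA.incl Q _ _) a b
    rw [h, mul_smul]
    exact ha _ (hb x hx)

/-- the filtration -/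
lemma V2_exists_F (hM : IsWt Q M) (hg : ∀ s, g s ∈ wts Q M (wt s)) (hΨ : Function.Bijective Ψ)
    (hs : ∀ s y, Ψ (Finsupp.single s y) = Q.umU y • g s) (c : ℤ) :
    ∃ F : Submodule Q.U.A M.X, ∀ x, x ∈ F ↔
      ∃ f : ι →₀ HA Q Set.univ, (∀ s, f s ≠ 0 → c < ht (wt s)) ∧ Ψ f = x := by
  classical
  let F0 : Submodule k M.X :=
    (Finsupp.supported (HA Q Set.univ) k {s | c < ht (wt s)}).map Ψ
  have hF0 : ∀ x, x ∈ F0 ↔
      ∃ f : ι →₀ HA Q Set.univ, (∀ s, f s ≠ 0 → c < ht (wt s)) ∧ Ψ f = x := by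
    intro x
    constructor
    · rintro ⟨f, hf, rfl⟩
      refine ⟨f, fun s h => ?_, rfl⟩
      exact (Finsupp.mem_supported k f).1 hf (Finsupp.mem_support_iff.2 h)
    · rintro ⟨f, hf, rfl⟩
      refine ⟨f, (Finsupp.mem_supported k f).2 fun s h => ?_, rfl⟩
      exact hf s (Finsupp.mem_support_iff.1 h)
  have hW : ∀ x ∈ (⨆ μ : {μ : I → ℤ // c < ht μ}, wts Q M μ.1), x ∈ F0 := by
    intro x hx
    have h1 : (⨆ μ : {μ : I → ℤ // c < ht μ}, wts Q M μ.1) ≤ F0 := by
      refine iSup_le fun μ => ?_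
      intro x hx
      rw [hF0]
      exact V2_mem hM hg hΨ hs μ.2 hx
    exact h1 hx
  have hsingle : ∀ s (y : HA Q Set.univ), c < ht (wt s) → Ψ (Finsupp.single s y) ∈ F0 := by
    intro s y h
    rw [hF0]
    refine ⟨_, fun t ht' => ?_, rfl⟩
    by_cases h1 : t = s
    · rw [h1]; exact h
    · rw [Finsupp.single_eq_of_ne h1] at ht'
      exact absurd rfl ht'
  have hind : ∀ (p : M.X → Prop), p 0 → (∀ x y, p x → p y → p (x + y)) →
      (∀ s (y : HA Q Set.univ), c < ht (wt s) → p (Ψ (Finsupp.single s y))) →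
      ∀ x ∈ F0, p x := by
    intro p h0 ha h1 x hx
    obtain ⟨f, hf, rfl⟩ := (hF0 x).1 hx
    have h2 : ∀ t : Finset ι, t ⊆ f.support → p (∑ s ∈ t, Ψ (Finsupp.single s (f s))) := by
      intro t
      induction t using Finset.induction_on with
      | empty => intro _; rw [Finset.sum_empty]; exact h0
      | insert s t hst ih =>
        intro h3
        rw [Finset.sum_insert hst]
        refine ha _ _ (h1 s (f s) (hf s ?_)) (ih ((Finset.subset_insert s t).trans h3))
        exact Finsupp.mem_support_iff.1 (h3 (Finset.mem_insert_self s t))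
    have h3 := h2 f.support (Finset.Subset.refl _)
    rw [← map_sum] at h3
    have h4 : ∑ s ∈ f.support, Finsupp.single s (f s) = f := Finsupp.sum_single f
    rwa [h4] at h3
  have hum : ∀ (y : HA Q Set.univ), ∀ x ∈ F0, Q.umU y • x ∈ F0 := by
    intro y
    refine hind _ ?_ ?_ ?_
    · rw [smul_zero]; exact F0.zero_mem
    · intro a b ha hb
      rw [smul_add]
      exact F0.add_mem ha hb
    · intro s y' h
      rw [hs, smul_smul, ← map_mul, ← hs]
      exact hsingle s _ h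
  have hgs : ∀ (a : Q.U.A) s, c < ht (wt s) → a • g s ∈ F0 := by
    intro a s h
    let τ : HA Q Set.univ ⊗[k] QA Q Set.univ ∅ →ₗ[k] Q.U.A := tdm Q Set.univ Set.univ
    obtain ⟨t, ht⟩ : ∃ t, τ t = a := (tdm_bijective Q Set.univ Set.univ).2 a
    rw [← ht]
    clear ht
    induction t using TensorProduct.induction_on with
    | zero => rw [map_zero, zero_smul]; exact F0.zero_mem
    | tmul y b =>
      have h1 : τ (y ⊗ₜ b) = Q.umU y *
        (Q.inc (Set.Subset.refl Set.univ) (Set.empty_subset Set.univ)).f b := rfl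
      rw [h1, mul_smul]
      refine hum y _ (hW _ (V2_B_wt b _ ?_))
      exact Submodule.mem_iSup_of_mem (⟨wt s, h⟩ : {μ : I → ℤ // c < ht μ}) (hg s)
    | add t t' h1 h2 => rw [map_add, add_smul]; exact F0.add_mem h1 h2
  refine ⟨{ F0 with smul_mem' := fun a x hx => ?_ }, hF0⟩
  refine hind (fun x => a • x ∈ F0) ?_ ?_ ?_ x hx
  · show a • (0 : M.X) ∈ F0
    rw [smul_zero]; exact F0.zero_mem
  · intro x y hx hy
    show a • (x + y) ∈ F0
    rw [smul_add]
    exact F0.add_mem hx hy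
  · intro s y h
    show a • Ψ (Finsupp.single s y) ∈ F0
    rw [hs, smul_smul]
    exact hgs _ s h

lemma V2_g_ne (hΨ : Function.Bijective Ψ)
    (hs : ∀ s y, Ψ (Finsupp.single s y) = Q.umU y • g s) {f : ι →₀ HA Q Set.univ} {s : ι}
    (h : f s ≠ 0) : g s ≠ 0 := by
  intro h0
  apply h
  have h1 : Ψ (Finsupp.single s (f s)) = 0 := by rw [hs, h0, smul_zero]
  have h2 : Finsupp.single s (f s) = 0 := hΨ.1 (by rw [h1, map_zero])
  exact Finsupp.single_eq_zero.1 h2

/-- the layers of the filtration are direct sums of Verma modules -/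
lemma V2_layer [CharZero k] (hg : ∀ s, g s ∈ wts Q M (wt s))
    (hΨ : Function.Bijective Ψ) (hM : IsWt Q M)
    (hs : ∀ s y, Ψ (Finsupp.single s y) = Q.umU y • g s) (c : ℤ)
    (F F' : Submodule Q.U.A M.X)
    (hF : ∀ x, x ∈ F ↔ ∃ f : ι →₀ HA Q Set.univ, (∀ s, f s ≠ 0 → c < ht (wt s)) ∧ Ψ f = x)
    (hF' : ∀ x, x ∈ F' ↔ ∃ f : ι →₀ HA Q Set.univ, (∀ s, f s ≠ 0 → c - 1 < ht (wt s)) ∧ Ψ f = x)
    {n : ℤ} (hn : (Q.Φ.card : ℤ) < n) :
    EVan ((M.sub F').quot (F.comap (M.subι F'))) n := by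
  classical
  let N := (M.sub F').quot (F.comap (M.subι F'))
  let π : (M.sub F').X →ₗ[Q.U.A] N.X := (M.sub F').quotπ (F.comap (M.subι F'))
  have hπ : ∀ x : F', π x = 0 ↔ (x : M.X) ∈ F := fun x => Submodule.Quotient.mk_eq_zero _
  have hgF' : ∀ s, c - 1 < ht (wt s) → g s ∈ F' := by
    intro s h
    rw [hF']
    refine ⟨Finsupp.single s 1, fun t h1 => ?_, ?_⟩
    · by_cases h2 : t = s
      · rw [h2]; exact h
      · rw [Finsupp.single_eq_of_ne h2] at h1
        exact absurd rfl h1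
    · rw [hs, map_one, one_smul]
  -- the generators
  let ι' := {s : ι // ht (wt s) = c}
  let v : ι' → (M.sub F').X := fun s => ⟨g s.1, hgF' s.1 (by have := s.2; omega)⟩
  have hv1 : ∀ s : ι', π (v s) ∈ wts Q N (wt s.1) := by
    intro s
    refine wt_map_mem π ?_
    intro i
    exact Subtype.ext (hg s.1 i)
  have hv2 : ∀ (s : ι') i, Q.gE Set.univ Set.univ i • π (v s) = 0 := by
    intro s i
    rw [← map_smul, hπ]
    show Q.gE Set.univ Set.univ i • g s.1 ∈ F
    rw [hF]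
    refine V2_mem hM hg hΨ hs (l := wt s.1 + Q.al i) ?_ (gE_wt (hg s.1) i)
    rw [V2_ht_add_al, s.2]
    omega
  choose j hj using fun s : ι' => Q.exists_V_hom Set.univ (hv1 s) (hv2 s)
  have hj' : ∀ (s : ι') (y : HA Q Set.univ), j s (Q.vact Set.univ (wt s.1) y)
      = π (Q.umU y • v s) := by
    intro s y
    rw [map_smul, ← hj s, ← map_smul]
    rfl
  refine EVan.ds (fun s : ι' => Q.V Set.univ (wt s.1)) N j ⟨?_, ?_⟩ ?_
  · rw [injective_iff_map_eq_zero]
    intro z hz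
    choose y hy using fun s : ι' => (Q.vact_bijective Set.univ (wt s.1)).2 (z s)
    let f : ι →₀ HA Q Set.univ := ∑ s ∈ DFinsupp.support z, Finsupp.single s.1 (y s)
    have hfs : ∀ s : ι', s ∈ DFinsupp.support z → f s.1 = y s := by
      intro s hs'
      show (∑ s ∈ DFinsupp.support z, Finsupp.single s.1 (y s)) s.1 = y s
      rw [Finsupp.finsetSum_apply, Finset.sum_eq_single s]
      · exact Finsupp.single_eq_same
      · intro t _ hts
        exact Finsupp.single_eq_of_ne fun h => hts (Subtype.ext h.symm)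
      · intro h; exact absurd hs' h
    have hz' : DirectSum.toModule Q.U.A ι' N.X j z
        = ∑ s ∈ DFinsupp.support z, j s (z s) := by
      conv_lhs => rw [← DirectSum.sum_support_of z]
      rw [map_sum]
      refine Finset.sum_congr rfl fun s _ => ?_
      exact DirectSum.toModule_lof (M := fun s : ι' => (Q.V Set.univ (wt s.1)).X) Q.U.A s (z s)
    have h1 : π (∑ s ∈ DFinsupp.support z, Q.umU (y s) • v s) = 0 := by
      rw [map_sum, ← hz, hz']
      refine Finset.sum_congr rfl fun s _ => ?_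
      rw [← hy s, hj']
    rw [hπ] at h1
    replace h1 : M.subι F' (∑ s ∈ DFinsupp.support z, Q.umU (y s) • v s) ∈ F := h1
    have h2 : M.subι F' (∑ s ∈ DFinsupp.support z, Q.umU (y s) • v s) = Ψ f := by
      rw [map_sum, map_sum]
      refine Finset.sum_congr rfl fun s _ => ?_
      rw [hs, map_smul]
      rfl
    rw [h2, hF] at h1
    obtain ⟨f', hf', h3⟩ := h1
    have h4 : f' = f := hΨ.1 h3
    by_contra hne
    obtain ⟨s, hs'⟩ : ∃ s, s ∈ DFinsupp.support z := by
      by_contra hno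
      push Not at hno
      apply hne
      exact DFinsupp.support_eq_empty.1 (Finset.eq_empty_of_forall_notMem hno)
    have h5 : y s ≠ 0 := by
      intro h0
      have h6 : z s = 0 := by rw [← hy s, h0, map_zero]
      exact (DFinsupp.mem_support_iff.1 hs') h6
    have h7 := hf' s.1 (by rw [h4, hfs s hs']; exact h5)
    rw [s.2] at h7
    omega
  · intro x
    obtain ⟨x, rfl⟩ := Submodule.mkQ_surjective _ x
    obtain ⟨f, hf, hfx⟩ := (hF' _).1 x.2
    have key : ∀ s (h : c - 1 < ht (wt s)) (y : HA Q Set.univ),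
        π (Q.umU y • (⟨g s, hgF' s h⟩ : F')) ∈ LinearMap.range (DirectSum.toModule Q.U.A ι' N.X j) := by
      intro s h y
      by_cases h1 : ht (wt s) = c
      · refine ⟨DirectSum.lof Q.U.A ι' (fun s : ι' => (Q.V Set.univ (wt s.1)).X) ⟨s, h1⟩
          (Q.vact Set.univ (wt s) y), ?_⟩
        rw [DirectSum.toModule_lof]
        exact hj' ⟨s, h1⟩ y
      · have h2 : π (Q.umU y • (⟨g s, hgF' s h⟩ : F')) = 0 := by
          rw [hπ]
          show Q.umU y • g s ∈ F
          rw [hF]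
          refine ⟨Finsupp.single s y, fun t h3 => ?_, hs s y⟩
          by_cases h4 : t = s
          · rw [h4]; omega
          · rw [Finsupp.single_eq_of_ne h4] at h3
            exact absurd rfl h3
        rw [h2]
        exact Submodule.zero_mem _
    have hx : x = ∑ s ∈ f.support.attach, Q.umU (f s.1) •
        (⟨g s.1, hgF' s.1 (hf s.1 (Finsupp.mem_support_iff.1 s.2))⟩ : F') := by
      apply Subtype.ext
      rw [← hfx]
      have h1 : Ψ f = ∑ s ∈ f.support.attach, Ψ (Finsupp.single s.1 (f s.1)) := by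
        rw [← map_sum]
        congr 1
        rw [Finset.sum_attach f.support (fun s => Finsupp.single s (f s))]
        exact (Finsupp.sum_single f).symm
      rw [h1]
      refine Eq.trans ?_ (map_sum (M.subι F') _ _).symm
      refine Finset.sum_congr rfl fun s _ => ?_
      rw [hs]
      rfl
    have h2 : π x ∈ LinearMap.range (DirectSum.toModule Q.U.A ι' N.X j) := by
      rw [hx]
      refine Eq.subst (motive := fun a => a ∈ LinearMap.range (DirectSum.toModule Q.U.A ι' N.X j))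
        (map_sum π _ _).symm ?_
      exact Submodule.sum_mem _ fun s _ => key s.1 (hf s.1 (Finsupp.mem_support_iff.1 s.2)) _
    exact h2
  · intro s
    rw [QD.EVan_V]
    refine EVan_km_nu _ (lt_of_le_of_lt ?_ hn)
    exact_mod_cast Q.nu_le _

end data

end aux

variable {k : Type} [Field k] [CharZero k] {I : Type} [Fintype I] [DecidableEq I] {Q : QD k I}

/-- weight `U`-modules with weights bounded above which are free over the negative half -/
theorem EVan_U_of_free {M : Mod Q.U} (hM : IsWt Q M) (c : ℤ)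
    (hc : ∀ μ, wts Q M μ ≠ ⊥ → ht μ ≤ c) (G : Submodule k M.X) (hG : G = ⨆ μ, G ⊓ wts Q M μ)
    (hfree : Function.Bijective (actG Q.umU M G))
    {n : ℤ} (hn : (Q.Φ.card : ℤ) < n) : EVan M n := by
  classical
  obtain ⟨ι, wt, g, Ψ, hg, hΨ, hs⟩ := V2_basis G hG hfree
  choose F hF using fun c' : ℤ => V2_exists_F hM hg hΨ hs c'
  refine EVan.union hM (fun d : ℕ => F (c - d)) ?_ ?_ ?_
    (fun d : ℕ => (M.sub (F (c - ((d + 1 : ℕ) : ℤ)))).quot
      ((F (c - d)).comap (M.subι (F (c - ((d + 1 : ℕ) : ℤ))))))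
    (fun d : ℕ => (M.sub (F (c - ((d + 1 : ℕ) : ℤ)))).quotπ _) ?_ ?_ ?_
  · intro d d' hd x hx
    obtain ⟨f, h1, h2⟩ := (hF _ x).1 hx
    refine (hF _ x).2 ⟨f, fun s h => ?_, h2⟩
    have h3 := h1 s h
    have h4 : (d : ℤ) ≤ d' := by exact_mod_cast hd
    omega
  · rw [eq_bot_iff]
    intro x hx
    obtain ⟨f, h1, h2⟩ := (hF _ x).1 hx
    have h3 : f = 0 := by
      refine Finsupp.ext fun s => ?_
      by_contra h
      have h4 := V2_g_ne hΨ hs h
      have h5 : wts Q M (wt s) ≠ ⊥ := fun h6 => h4 ((Submodule.mem_bot k).1 (h6 ▸ hg s))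
      have h7 := hc _ h5
      have h8 := h1 s h
      push_cast at h8
      omega
    rw [h3, map_zero] at h2
    rw [← h2]
    exact Submodule.zero_mem _
  · intro x
    obtain ⟨f, rfl⟩ := hΨ.2 x
    refine ⟨(f.support.sup fun s => (c - ht (wt s)).toNat) + 1, ?_⟩
    refine (hF _ _).2 ⟨f, fun s h => ?_, rfl⟩
    have h1 := Finset.le_sup (f := fun s => (c - ht (wt s)).toNat) (Finsupp.mem_support_iff.2 h)
    push_cast
    omega
  · intro d
    exact Submodule.mkQ_surjective _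
  · intro d x
    exact Submodule.Quotient.mk_eq_zero _
  · intro d
    refine V2_layer hg hΨ hM hs (c - d) _ _ (hF _) (fun x => (hF _ x).trans ?_) hn
    constructor
    · rintro ⟨f, h1, h2⟩
      exact ⟨f, fun s h => by have := h1 s h; push_cast at this; omega, h2⟩
    · rintro ⟨f, h1, h2⟩
      exact ⟨f, fun s h => by have := h1 s h; push_cast; omega, h2⟩

section bar

omit [CharZero k]

omit [Fintype I] [DecidableEq I] in
lemma V2_qn_inv (p : k) (n : ℤ) : qn p⁻¹ n = qn p n := by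
  unfold qn
  rw [inv_inv, inv_zpow', inv_zpow', neg_neg, ← neg_sub (p ^ n) (p ^ (-n)), ← neg_sub p p⁻¹,
    neg_div_neg_eq]

lemma V2_serre_bar {A : Type} [Ring A] [Algebra k A] (i : I) (n : ℕ) (x y : A) :
    serre (Q.bar.qi i) n x y = serre (Q.qi i) n x y := by
  have h : Q.bar.qi i = (Q.qi i)⁻¹ := inv_pow _ _
  have hf : ∀ (p : k) (m : ℕ), qf p⁻¹ m = qf p m := by
    intro p m
    unfold qf
    exact Finset.prod_congr rfl fun s _ => V2_qn_inv p _
  rw [h]
  unfold serre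
  refine Finset.sum_congr rfl fun s _ => ?_
  have hb : qb (Q.qi i)⁻¹ n s = qb (Q.qi i) n s := by
    unfold qb
    rw [hf, hf, hf]
  rw [hb]

/-- the half algebras of `q` and `q⁻¹` agree -/
def V2_θ (Q : QD k I) : HA Q Set.univ →ₐ[k] HA Q.bar Set.univ :=
  HA.lift (HA.x Q.bar Set.univ) (fun i hi => absurd (Set.mem_univ i) hi) fun i j hi hj hij => by
    rw [← V2_serre_bar]
    exact HA.x_serre hi hj hij

def V2_θ' (Q : QD k I) : HA Q.bar Set.univ →ₐ[k] HA Q Set.univ :=
  HA.lift (HA.x Q Set.univ) (fun i hi => absurd (Set.mem_univ i) hi) fun i j hi hj hij => by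
    rw [V2_serre_bar]
    exact HA.x_serre hi hj hij

lemma V2_θ_x (i : I) : V2_θ Q (HA.x Q Set.univ i) = HA.x Q.bar Set.univ i := HA.lift_x _ _ _ i
lemma V2_θ'_x (i : I) : V2_θ' Q (HA.x Q.bar Set.univ i) = HA.x Q Set.univ i := HA.lift_x _ _ _ i

lemma V2_θ_bijective : Function.Bijective (V2_θ Q) := by
  refine Function.bijective_iff_has_inverse.2 ⟨V2_θ' Q, fun x => ?_, fun x => ?_⟩
  · have h : (V2_θ' Q).comp (V2_θ Q) = AlgHom.id k _ := by
      refine HA.hom_ext fun i => ?_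
      rw [AlgHom.comp_apply, V2_θ_x, V2_θ'_x, AlgHom.id_apply]
    exact AlgHom.congr_fun h x
  · have h : (V2_θ Q).comp (V2_θ' Q) = AlgHom.id k _ := by
      refine HA.hom_ext fun i => ?_
      rw [AlgHom.comp_apply, V2_θ'_x, V2_θ_x, AlgHom.id_apply]
    exact AlgHom.congr_fun h x

lemma V2_wts_res {T' T : TAlg k I} (φ : THom T' T) (M : Mod T) (μ : I → ℤ) :
    wts Q (M.res φ) μ = wts Q M μ := by
  ext x
  have h2 : ∀ i, ((T'.K i : T'.A) • x : (M.res φ).X) =
      ((T.K i : T.A) • (show M.X from x) : M.X) := by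
    intro i
    rw [Mod.res_smul, φ.f_K]
  constructor
  · intro hx i
    rw [← h2 i]
    exact hx i
  · intro hx i
    rw [h2 i]
    exact hx i

lemma V2_tw_wts {Jp : Set I} {M : Mod (Q.T Jp ∅)} {μ ν : I → ℤ}
    (h : wts Q (M.tw ν) μ ≠ ⊥) : wts Q M (μ - ν) ≠ ⊥ := by
  obtain ⟨x, hx, h0⟩ := (Submodule.ne_bot_iff _).1 h
  obtain ⟨y, rfl⟩ := (twx_bijective (M := M) ν).2 x
  refine (Submodule.ne_bot_iff _).2 ⟨y, ?_, fun h1 => h0 ?_⟩
  · refine (twx_mem_wts ν (μ - ν) y).1 ?_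
    rw [add_sub_cancel]
    exact hx
  · rw [h1]; rfl

omit [DecidableEq I] in
lemma V2_ht_sub' (μ ν : I → ℤ) : ht (μ - ν) = ht μ - ht ν := by
  unfold ht
  simp only [Pi.sub_apply, Finset.sum_sub_distrib]

omit [DecidableEq I] in
lemma V2_ht_neg (μ : I → ℤ) : ht (-μ) = - ht μ := by
  unfold ht
  simp only [Pi.neg_apply, Finset.sum_neg_distrib]

/-- transport along `q ↦ q⁻¹` -/
lemma V2_exists_bar (Q : QD k I) : ∃ ψ : THom Q.bar.B Q.Bm, Function.Bijective ψ.f ∧
    (∀ y : HA Q Set.univ, ψ.f (Q.bar.upB (V2_θ Q y)) = Q.umB y) ∧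
    ∀ Z : Mod Q.U0, IsWt Q Z → ∃ Z' : Mod Q.bar.U0, IsWt Q.bar Z' ∧
      ∃ _ : (Z'.ind (Q.bar.inc (Set.empty_subset Set.univ) (Set.Subset.refl ∅))).X
        ≃ₗ[Q.bar.B.A] ((Z.ind (Q.inc (Set.Subset.refl ∅)
          (Set.empty_subset Set.univ))).res ψ).X, True := by
  obtain ⟨φ, hφ, hE, hF⟩ := exists_bar Q ∅ Set.univ
  obtain ⟨φ0, hφ0, -, -⟩ := exists_bar Q ∅ ∅
  have hup : ∀ y : HA Q Set.univ, Q.bar.upB (V2_θ Q y) = φ.f (Q.umB y) := by
    intro y
    have h : Q.bar.upB.comp (V2_θ Q) = φ.f.comp Q.umB := by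
      refine HA.hom_ext fun i => ?_
      rw [AlgHom.comp_apply, AlgHom.comp_apply, V2_θ_x]
      have h1 : Q.bar.upB (HA.x Q.bar Set.univ i) = Q.bar.gE Set.univ ∅ i := HA.up_x Q.bar _ _ i
      have h2 : Q.umB (HA.x Q Set.univ i) = Q.gF ∅ Set.univ i := HA.um_x Q _ _ i
      rw [h1, h2, hF]
    exact AlgHom.congr_fun h y
  have hθ : ∀ y : HA Q Set.univ, (φ.inv hφ).f (Q.bar.upB (V2_θ Q y)) = Q.umB y := by
    intro y
    rw [hup, φ.inv_f]
  have hψ : Function.Bijective (φ.inv hφ).f := by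
    refine Function.bijective_iff_has_inverse.2 ⟨φ.f, fun x => φ.f_inv hφ x, fun x => φ.inv_f hφ x⟩
  have hc : ∀ y : Q.U0.A, (Q.bar.inc (Set.empty_subset Set.univ) (Set.Subset.refl ∅)).f (φ0.f y)
      = φ.f ((Q.inc (Set.Subset.refl ∅) (Set.empty_subset Set.univ)).f y) := by
    intro y
    have h : (Q.bar.inc (Set.empty_subset Set.univ) (Set.Subset.refl ∅)).f.comp φ0.f
        = φ.f.comp (Q.inc (Set.Subset.refl ∅) (Set.empty_subset Set.univ)).f := by
      refine QA.hom_ext (fun i => ?_) (fun i => ?_) (fun i => ?_)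
      · rw [(QA.elts Q ∅ ∅).E0 i (Set.notMem_empty i)]
        exact (map_zero _).trans (map_zero _).symm
      · rw [(QA.elts Q ∅ ∅).F0 i (Set.notMem_empty i)]
        exact (map_zero _).trans (map_zero _).symm
      · have h1 := ((Q.bar.inc (Set.empty_subset Set.univ) (Set.Subset.refl ∅)).comp φ0).f_K i
        have h2 := (φ.comp (Q.inc (Set.Subset.refl ∅) (Set.empty_subset Set.univ))).f_K i
        exact h1.trans h2.symm
    exact AlgHom.congr_fun h y
  refine ⟨φ.inv hφ, hψ, hθ, fun Z hZ => ⟨Z.res (φ0.inv hφ0), ?_, ?_⟩⟩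
  · rw [isWt_bar]
    exact hZ.res _
  · have hmap : (LinearMap.range (HA.um Q ∅ Set.univ).toLinearMap : Submodule k Q.Bm.A)
        = (LinearMap.range (HA.up Q.bar Set.univ ∅).toLinearMap : Submodule k Q.bar.B.A).map
          (φ.inv hφ).f.toLinearMap := by
      refine Submodule.ext fun x => ⟨?_, ?_⟩
      · rintro ⟨n, rfl⟩
        exact ⟨HA.up Q.bar Set.univ ∅ (V2_θ Q n), ⟨V2_θ Q n, rfl⟩, hθ n⟩
      · rintro ⟨_, ⟨n, rfl⟩, rfl⟩
        obtain ⟨m, rfl⟩ := (V2_θ_bijective (Q := Q)).2 n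
        exact ⟨m, (hθ m).symm⟩
    obtain ⟨e, -⟩ := exists_baseChange (Q.inc (Set.Subset.refl ∅) (Set.empty_subset Set.univ))
      (φ.inv hφ) (φ0.inv hφ0)
      (Q.bar.inc (Set.empty_subset Set.univ) (Set.Subset.refl ∅)) (by
        intro x
        obtain ⟨y, rfl⟩ := hφ0.2 x
        rw [hc, φ.inv_f, φ0.inv_f])
      (LinearMap.range (HA.up Q.bar Set.univ ∅).toLinearMap)
      (ind2_bij_range (Q.bar.inc (Set.empty_subset Set.univ) (Set.Subset.refl ∅))
        (HA.up Q.bar Set.univ ∅).toLinearMap (tdp Q.bar Set.univ ∅) (tdp_tmul Q.bar Set.univ ∅)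
        (tdp_bijective Q.bar Set.univ ∅)) hψ.1
      (ind2_bij_congr hmap (ind2_minus Q ∅ Set.univ)) Z
    exact ⟨e, trivial⟩

omit [Fintype I] [DecidableEq I] in
lemma V2_actG_res {T' T : TAlg k I} (ψ : THom T' T) {H H' : Type} [Ring H] [Algebra k H] [Ring H']
    [Algebra k H'] (a : H →ₐ[k] T.A) (a' : H' →ₐ[k] T'.A) (θ : H →ₐ[k] H')
    (hθ : Function.Bijective θ) (h : ∀ y, ψ.f (a' (θ y)) = a y) (M : Mod T)
    (G : Submodule k M.X) (hfree : Function.Bijective (actG a' (M.res ψ) G)) :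
    Function.Bijective (actG a M G) := by
  let f2 : H' ⊗[k] G →ₗ[k] M.X := actG a' (M.res ψ) G
  let e : H ≃ₗ[k] H' := LinearEquiv.ofBijective θ.toLinearMap hθ
  have h1 : actG a M G = f2 ∘ₗ (e.rTensor G).toLinearMap := by
    refine TensorProduct.ext' fun y g => ?_
    show a y • g.1 = ψ.f (a' (θ y)) • g.1
    rw [h]
  rw [h1]
  exact Function.Bijective.comp (g := f2) hfree (e.rTensor G).bijective

end bar

/-- twists of modules induced from the torus are acyclic -/
lemma V2_tw_ind_van {Z : Mod Q.U0} (hZ : IsWt Q Z) (ν : I → ℤ) {n : ℤ} (hn : 0 < n) :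
    EVan ((Z.ind (Q.inc (Set.empty_subset Set.univ) (Set.Subset.refl ∅))).tw ν) n := by
  obtain ⟨e, -⟩ := exists_tw_ind (Q := Q) (Set.empty_subset Set.univ) Z ν
  rw [← EVan.of_iso e.toLinearMap e.bijective]
  rw [EVan.shapiroQ (Q := Q) (Set.empty_subset Set.univ) (Set.Subset.refl ∅)
    (QD.rfree_plus (Q := Q) (Jp := Set.univ) (Jm := ∅)) (hZ.tw ν)]
  exact EVan_U0 (hZ.tw ν) hn

/-- an iterated syzygy over `B⁻` of a module with weights bounded below is free over the
negative half -/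
theorem exists_free_basis_Bm (L : ℕ → Mod Q.Bm) (hL : ∀ j, IsWt Q (L j)) (N : ℕ)
    (hN : Q.Φ.card ≤ N) (c : ℤ) (hc : ∀ μ, wts Q (L 0) μ ≠ ⊥ → ht μ ≤ c) (b : ℤ)
    (hb : ∀ μ, wts Q (L N) μ ≠ ⊥ → b ≤ ht μ)
    (h : ∀ j < N, ∃ Z : Mod Q.U0, IsWt Q Z ∧ Nonempty (ModSES (L j)
      (Z.ind (Q.inc (Set.Subset.refl ∅) (Set.empty_subset Set.univ))) (L (j + 1)))) :
    ∃ G : Submodule k (L 0).X, G = ⨆ μ, G ⊓ wts Q (L 0) μ ∧
      Function.Bijective (actG Q.umB (L 0) G) := by
  obtain ⟨ψ, hψ, hθ, hind⟩ := V2_exists_bar Q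
  let L' : ℕ → Mod Q.bar.B := fun j => (L j).res ψ
  have hwt : ∀ j μ, wts Q.bar (L' j) μ = (wts Q (L j) (-μ) : Submodule k (L j).X) := by
    intro j μ
    exact (wts_bar ((L j).res ψ) μ).trans (V2_wts_res ψ (L j) (-μ))
  have hL' : ∀ j, IsWt Q.bar (L' j) := fun j => (isWt_bar _).2 ((hL j).res ψ)
  have key : ∀ ν : I → ℤ, ∀ m ≤ N, EVan ((L' (N - m)).tw ν) ((N - m : ℕ) + 1 : ℤ) := by
    intro ν m
    induction m with
    | zero =>
      intro _
      rw [Nat.sub_zero]
      refine EVan_B (Q := Q.bar) ((hL' N).tw ν) (ht ν - b) ?_ ?_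
      · intro μ hμ
        have h1 := V2_tw_wts hμ
        rw [hwt] at h1
        have h2 := hb _ h1
        rw [V2_ht_neg, V2_ht_sub'] at h2
        omega
      · have : Q.bar.Φ.card = Q.Φ.card := rfl
        omega
    | succ m ih =>
      intro hm
      obtain ⟨Z, hZ, ⟨S⟩⟩ := h (N - (m + 1)) (by omega)
      have e1 : N - (m + 1) + 1 = N - m := by omega
      rw [e1] at S
      obtain ⟨Z', hZ', e, -⟩ := hind Z hZ
      obtain ⟨S', -, -⟩ := exists_tw_ses (S.res ψ) ν
      refine EVan.sub S' ?_ ?_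
      · refine (EVan.of_iso (twMap ν e.toLinearMap) ?_).1 (V2_tw_ind_van hZ' ν (by positivity))
        exact e.bijective
      · have h2 := ih (by omega)
        have e2 : (((N - (m + 1) : ℕ) : ℤ) + 1 + 1) = ((N - m : ℕ) : ℤ) + 1 := by
          rw [← e1]; push_cast; ring
        rw [e2]
        exact h2
  have h0 : ∀ ν, EVan ((L' 0).tw ν) 1 := by
    intro ν
    have h1 := key ν N le_rfl
    rw [Nat.sub_self] at h1
    simpa using h1
  obtain ⟨G, hG, hfree⟩ := exists_free_basis (hL' 0) (-c) (fun μ hμ => by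
    rw [hwt] at hμ
    have h1 := hc _ hμ
    rw [V2_ht_neg] at h1
    omega) h0
  refine ⟨G, ?_, ?_⟩
  · refine hG.trans ?_
    refine Eq.trans ?_ ((Equiv.neg (I → ℤ)).iSup_comp (g := fun μ => G ⊓ wts Q (L 0) μ))
    refine iSup_congr fun μ => ?_
    rw [hwt]
    rfl
  · exact V2_actG_res ψ Q.umB Q.bar.upB (V2_θ Q) V2_θ_bijective hθ (L 0) G hfree

omit [CharZero k] in
/-- weights of modules induced from `B` -/
lemma V2_ind_wts {Y : Mod Q.B} (hY : IsWt Q Y) {c : ℤ} (hc : ∀ μ, wts Q Y μ ≠ ⊥ → ht μ ≤ c)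
    {l : I → ℤ} (hl : wts Q (Y.ind (Q.inc (Set.Subset.refl Set.univ)
      (Set.empty_subset Set.univ))) l ≠ ⊥) : ht l ≤ c := by
  let φ : THom Q.B Q.U := Q.inc (Set.Subset.refl Set.univ) (Set.empty_subset Set.univ)
  let M : Mod Q.U := Y.ind φ
  let S : Submodule k M.X := ⨆ μ : {μ : I → ℤ // ht μ ≤ c}, wts Q M μ.1
  have h1 : ∀ μ, ∀ y ∈ wts Q Y μ, indT φ Y 1 y ∈ wts Q M μ := by
    intro μ y hy i
    show (Q.U.K i : Q.U.A) • indT φ Y 1 y = _
    rw [smul_indT, mul_one, ← φ.f_K i, ← one_mul (φ.f _), indT_mul, hy i, indT_smulk]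
  have h2 : ∀ μ : I → ℤ, ht μ ≤ c → ∀ x ∈ wts Q M μ, ∀ y : HA Q Set.univ, Q.umU y • x ∈ S := by
    intro μ hμ x hx y
    have hy : y ∈ ⨆ ν, HA.gr Q Set.univ ν := by rw [HA.gr_iSup]; trivial
    induction hy using Submodule.iSup_induction' with
    | mem ν y hy =>
      exact Submodule.mem_iSup_of_mem (⟨μ - fun i => (ν i : ℤ), (V2_ht_sub μ ν).trans hμ⟩ :
        {μ : I → ℤ // ht μ ≤ c}) (V2_um_wt hx hy)
    | zero => rw [map_zero, zero_smul]; exact S.zero_mem
    | add a b _ _ ha hb => rw [map_add, add_smul]; exact S.add_mem ha hb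
  have h3 : ∀ (y : HA Q Set.univ) (x : Y.X), Q.umU y • indT φ Y 1 x ∈ S := by
    intro y x
    have hx : x ∈ ⨆ μ, wts Q Y μ := by rw [show (⨆ μ, wts Q Y μ) = ⊤ from hY]; trivial
    induction hx using Submodule.iSup_induction' with
    | mem μ x hx =>
      by_cases h : wts Q Y μ = ⊥
      · have h0 : x = 0 := (Submodule.mem_bot k).1 (h ▸ hx)
        rw [h0, indT_zero_right, smul_zero]
        exact S.zero_mem
      · exact h2 μ (hc μ h) _ (h1 μ x hx) y
    | zero => rw [indT_zero_right, smul_zero]; exact S.zero_mem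
    | add a b _ _ ha hb => rw [indT_add_right, smul_add]; exact S.add_mem ha hb
  have h4 : ∀ x : M.X, x ∈ S := by
    intro x
    refine ind_induction φ Y (p := fun x => x ∈ S) x S.zero_mem ?_
      fun x y hx hy => S.add_mem hx hy
    intro a x
    let τ : HA Q Set.univ ⊗[k] Q.B.A →ₗ[k] Q.U.A := tdm Q Set.univ Set.univ
    obtain ⟨t, rfl⟩ : ∃ t, τ t = a := (tdm_bijective Q Set.univ Set.univ).2 a
    induction t using TensorProduct.induction_on with
    | zero =>
      have h : indT φ Y (τ 0) x = 0 := by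
        rw [map_zero, ← zero_mul (1 : Q.U.A), ← smul_indT, zero_smul]
      rw [h]
      exact S.zero_mem
    | tmul y b =>
      have h : indT φ Y (τ (y ⊗ₜ b)) x = Q.umU y • indT φ Y 1 (b • x) := by
        have h5 : τ (y ⊗ₜ b) = Q.umU y * φ.f b := rfl
        rw [h5, indT_mul, smul_indT, mul_one]
      rw [h]
      exact h3 y _
    | add t t' ht ht' => rw [map_add, indT_add_left]; exact S.add_mem ht ht'
  by_contra hcon
  obtain ⟨P, hP1, hP2⟩ := V2_proj (hY.ind φ (Q.wtAlg Set.univ Set.univ)) l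
  apply hl
  rw [eq_bot_iff]
  intro x hx
  have h5 : ∀ x ∈ S, P x = 0 := by
    intro x hx
    induction hx using Submodule.iSup_induction' with
    | mem μ x hx =>
      refine hP2 μ.1 (fun h => hcon ?_) x hx
      rw [← h]
      exact μ.2
    | zero => exact map_zero P
    | add a b _ _ ha hb => rw [map_add, ha, hb, add_zero]
  rw [Submodule.mem_bot, ← hP1 x hx]
  exact h5 x (h4 x)

omit [CharZero k] in
lemma V2_triv_wts {T : TAlg k I} {μ : I → ℤ} (h : wts Q (triv T) μ ≠ ⊥) : μ = 0 := by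
  obtain ⟨x, hx, h0⟩ := (Submodule.ne_bot_iff _).1 h
  refine QD.χ_inj (Q := Q) fun i => ?_
  have h1 := hx i
  rw [triv_smul, T.ε_K, one_mul, vt_tv] at h1
  rw [QD.χ_zero]
  by_contra hne
  have h2 : (Q.χ μ i - 1) • x = 0 := by
    rw [sub_smul, one_smul, ← h1, sub_self]
  rcases smul_eq_zero.1 h2 with h3 | h3
  · exact hne (sub_eq_zero.1 h3)
  · exact h0 h3

/-- replace the middle term of a short exact sequence -/
def V2_ses_congr {T : TAlg k I} {M' M M1 M'' : Mod T} (S : ModSES M' M M'')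
    (e : M1.X ≃ₗ[T.A] M.X) : ModSES M' M1 M'' where
  i := e.symm.toLinearMap ∘ₗ S.i
  p := S.p ∘ₗ e.toLinearMap
  inj := e.symm.injective.comp S.inj
  surj := S.surj.comp e.surjective
  exact x := by
    refine (S.exact (e x)).trans ⟨?_, ?_⟩
    · rintro ⟨y, hy⟩
      refine ⟨y, ?_⟩
      show e.symm (S.i y) = x
      rw [hy, e.symm_apply_apply]
    · rintro ⟨y, hy⟩
      refine ⟨y, ?_⟩
      have hy' : e.symm (S.i y) = x := hy
      rw [← hy', e.apply_symm_apply]
  split := by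
    obtain ⟨ρ, h1, h2⟩ := S.split
    refine ⟨ρ ∘ₗ toK e.toLinearMap, fun y => ?_, fun j x => ?_⟩
    · show ρ (e (e.symm (S.i y))) = y
      rw [e.apply_symm_apply, h1]
    · show ρ (e ((T.K j : T.A) • x)) = (T.K j : T.A) • ρ (e x)
      rw [map_smul, h2]

omit [CharZero k] in
/-- syzygies relative to `B` -/
lemma V2_step (M : Mod Q.U) (hM : IsWt Q M) (hc : ∀ μ, wts Q M μ ≠ ⊥ → ht μ ≤ 0) :
    ∃ M1 : Mod Q.U, (IsWt Q M1 ∧ ∀ μ, wts Q M1 μ ≠ ⊥ → ht μ ≤ 0) ∧
      Nonempty (ModSES M1 ((M.res (Q.inc (Set.Subset.refl Set.univ)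
        (Set.empty_subset Set.univ))).ind (Q.inc (Set.Subset.refl Set.univ)
        (Set.empty_subset Set.univ))) M) := by
  let φ : THom Q.B Q.U := Q.inc (Set.Subset.refl Set.univ) (Set.empty_subset Set.univ)
  let P : Mod Q.U := (M.res φ).ind φ
  have hP : IsWt Q P := (hM.res φ).ind φ (Q.wtAlg Set.univ Set.univ)
  let K := LinearMap.ker (indC φ M)
  refine ⟨P.sub K, ⟨hP.sub K, fun μ hμ => ?_⟩, ⟨mkSES hP (P.subι K) (indC φ M)
    K.injective_subtype (indC_surjective φ M) ?_⟩⟩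
  · refine V2_ind_wts (hM.res φ) (c := 0) (fun ν hν => ?_) (l := μ) ?_
    · rw [V2_wts_res] at hν
      exact hc ν hν
    · obtain ⟨x, hx, h0⟩ := (Submodule.ne_bot_iff _).1 hμ
      exact (Submodule.ne_bot_iff _).2 ⟨P.subι K x, wt_map_mem (P.subι K) hx,
        fun h => h0 (K.injective_subtype (h.trans (map_zero (P.subι K)).symm))⟩
  · intro x
    constructor
    · intro h
      exact ⟨⟨x, h⟩, rfl⟩
    · rintro ⟨y, rfl⟩
      exact y.2

/-- vanishing of the cohomology of the trivial module over `U` -/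
theorem EVan_U_triv {n : ℤ} (hn : 2 * (Q.Φ.card : ℤ) < n) : EVan (triv Q.U) n := by
  let φ : THom Q.B Q.U := Q.inc (Set.Subset.refl Set.univ) (Set.empty_subset Set.univ)
  let β : THom Q.Bm Q.U := Q.inc (Set.empty_subset Set.univ) (Set.Subset.refl Set.univ)
  let Bd := {M : Mod Q.U // IsWt Q M ∧ ∀ μ, wts Q M μ ≠ ⊥ → ht μ ≤ 0}
  have hstep : ∀ M : Bd, ∃ M1 : Bd, Nonempty (ModSES M1.1 ((M.1.res φ).ind φ) M.1) := by
    intro M
    obtain ⟨M1, h1, h2⟩ := V2_step M.1 M.2.1 M.2.2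
    exact ⟨⟨M1, h1⟩, h2⟩
  choose F hF using hstep
  let K0 : Bd := ⟨triv Q.U, triv_isWt, fun μ hμ => by
    rw [V2_triv_wts hμ]
    simp [ht]⟩
  let K : ℕ → Bd := fun n => Nat.rec K0 (fun _ M => F M) n
  have hK : ∀ m, Nonempty (ModSES (K (m + 1)).1 (((K m).1.res φ).ind φ) (K m).1) :=
    fun m => hF (K m)
  -- the last syzygy is free over the negative half
  have hfree : ∃ G : Submodule k (K Q.Φ.card).1.X, G = ⨆ μ, G ⊓ wts Q (K Q.Φ.card).1 μ ∧
      Function.Bijective (actG Q.umU (K Q.Φ.card).1 G) := by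
    obtain ⟨G, hG, hb⟩ := exists_free_basis_Bm (Q := Q)
      (fun j => (K (Q.Φ.card - j)).1.res β) (fun j => (K (Q.Φ.card - j)).2.1.res β)
      Q.Φ.card le_rfl 0 (fun μ hμ => by
        rw [V2_wts_res] at hμ
        exact (K (Q.Φ.card - 0)).2.2 μ hμ) 0 (fun μ hμ => by
        rw [Nat.sub_self, V2_wts_res] at hμ
        rw [V2_triv_wts (μ := μ) hμ]
        simp [ht]) (fun j hj => by
        refine ⟨((K (Q.Φ.card - (j + 1))).1.res φ).res
          (Q.inc (Set.empty_subset Set.univ) (Set.Subset.refl ∅)),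
          ((K (Q.Φ.card - (j + 1))).2.1.res φ).res _, ?_⟩
        obtain ⟨e, -⟩ := QD.exists_bc_minus (Q := Q) (Jp := Set.univ) (Jm := Set.univ)
          ((K (Q.Φ.card - (j + 1))).1.res φ)
        obtain ⟨S⟩ := hK (Q.Φ.card - (j + 1))
        have e1 : Q.Φ.card - (j + 1) + 1 = Q.Φ.card - j := by omega
        rw [e1] at S
        exact ⟨V2_ses_congr (S.res β) e⟩)
    refine ⟨G, hG.trans (iSup_congr fun μ => ?_), ?_⟩
    · rw [V2_wts_res]
      rfl
    · refine V2_actG_res β Q.umU Q.umB (AlgHom.id k _) Function.bijective_id (fun y => ?_)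
        (K Q.Φ.card).1 G hb
      exact (ind2_incl_um Q (Set.empty_subset Set.univ) (Set.Subset.refl Set.univ) y).trans
        (congrArg _ (ind2_HA_incl_refl Q Set.univ y))
  obtain ⟨G, hG, hb⟩ := hfree
  have key : ∀ m ≤ Q.Φ.card, ∀ n : ℤ, (Q.Φ.card : ℤ) + m < n → EVan (K (Q.Φ.card - m)).1 n := by
    intro m
    induction m with
    | zero =>
      intro _ n hn
      exact EVan_U_of_free (K Q.Φ.card).2.1 0 (K Q.Φ.card).2.2 G hG hb (by simpa using hn)
    | succ m ih =>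
      intro hm n hn
      obtain ⟨S⟩ := hK (Q.Φ.card - (m + 1))
      have e1 : Q.Φ.card - (m + 1) + 1 = Q.Φ.card - m := by omega
      rw [e1] at S
      push_cast at hn
      have h1 := ih (by omega) (n - 1) (by omega)
      have h2 : EVan (((K (Q.Φ.card - (m + 1))).1.res φ).ind φ) (n - 1 + 1) := by
        rw [sub_add_cancel]
        rw [EVan.shapiroQ (Q := Q) (Set.Subset.refl Set.univ) (Set.empty_subset Set.univ)
          QD.rfree_minus ((K (Q.Φ.card - (m + 1))).2.1.res φ)]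
        refine EVan_B ((K (Q.Φ.card - (m + 1))).2.1.res φ) 0 (fun μ hμ => ?_) (by omega)
        rw [V2_wts_res] at hμ
        exact (K (Q.Φ.card - (m + 1))).2.2 μ hμ
      have h3 := EVan.quot S h1 h2
      rwa [sub_add_cancel] at h3
  have h := key Q.Φ.card le_rfl n (by omega)
  rw [Nat.sub_self] at h
  exact h

end Pool.Agent.Lib.QG
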