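import Pool.Agent.Lib.MP_021f05_al.L2
import Pool.Agent.Lib.MP_021f05_al.V2
import Pool.Agent.Lib.MP_021f05_al.ChevTop

/-!
# MP_021f05_al (E16): the structure of `E(k)` over `U`: the coinvariant algebra
-/

noncomputable section

namespace Pool.Agent.Lib.QG

open MvPolynomial

variable {k : Type} [Field k] [CharZero k] {I : Type} [Fintype I] [DecidableEq I] (Q : QD k I)

namespace Leib

/-- the filtration part of the trivial module -/
def EI (i : I) (n : ℕ) : Submodule k (E (triv Q.U)) :=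
  IM.Ei (Set.mem_univ i) (Set.mem_univ i) n (trivI Q Set.univ Set.univ i)

lemma EI_le (i : I) {n : ℕ} {e : E (triv Q.U)} (he : e ∈ EI Q i n) : e ∈ EDeg (triv Q.U) n :=
  IM.Ei_le (Set.mem_univ i) (Set.mem_univ i) n (trivI Q Set.univ Set.univ i) he

lemma EI_zero (i : I) {e : E (triv Q.U)} (he : e ∈ EDeg (triv Q.U) 0) : e ∈ EI Q i 0 := he

lemma EI_one (i : I) {e : E (triv Q.U)} (he : e ∈ EDeg (triv Q.U) 1) : e ∈ EI Q i 1 :=
  IM.Ei_one (Set.mem_univ i) (Set.mem_univ i) (Y := trivI Q Set.univ Set.univ i) he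

lemma EI_decomp (i : I) (n : ℕ) {e : E (triv Q.U)} (he : e ∈ EDeg (triv Q.U) (n + 2)) :
    ∃ a ∈ EI Q i (n + 2), ∃ b ∈ EI Q i n, e = a + (X i : MvPolynomial I k) • b :=
  IM.Ei_decomp (Set.mem_univ i) (Set.mem_univ i) n (trivI Q Set.univ Set.univ i) he

lemma EI_direct (i : I) (n : ℕ) {a b : E (triv Q.U)} (ha : a ∈ EI Q i (n + 2))
    (hb : b ∈ EI Q i n) (h : a + (X i : MvPolynomial I k) • b = 0) : a = 0 ∧ b = 0 :=
  IM.Ei_direct (Set.mem_univ i) (Set.mem_univ i) n (trivI Q Set.univ Set.univ i) ha hb h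

lemma EI_poly (i : I) {p : MvPolynomial I k} {d : ℕ} (hd : p.IsHomogeneous d)
    (h : p • one Q.U ∈ EI Q i (2 * d)) (n : ℕ) {e : E (triv Q.U)} (he : e ∈ EI Q i n) :
    p • e ∈ EI Q i (n + 2 * d) :=
  IM.Ei_poly (Set.mem_univ i) (Set.mem_univ i) hd h n (trivI Q Set.univ Set.univ i) he

omit [CharZero k] [DecidableEq I] in
lemma lin_homog (c : I → k) : (lin c).IsHomogeneous 1 := by
  rw [lin]
  exact IsHomogeneous.sum _ _ _ fun j _ => (isHomogeneous_X k j).C_mul _

lemma EI_lin (i : I) (c : I → k) (hc : c i = 0) (n : ℕ) {e : E (triv Q.U)}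
    (he : e ∈ EI Q i n) : lin c • e ∈ EI Q i (n + 2) :=
  EI_poly Q i (lin_homog c) (IM.lin_one_mem (Set.mem_univ i) (Set.mem_univ i) c hc) n he

omit [CharZero k] in
lemma lin_single (j : I) : lin (Pi.single j (1 : k)) = X j := by
  rw [lin, Finset.sum_eq_single j]
  · rw [Pi.single_eq_same, map_one, one_mul]
  · intro l _ hl
    rw [Pi.single_eq_of_ne hl, map_zero, zero_mul]
  · intro h
    exact absurd (Finset.mem_univ j) h

lemma EI_X (i j : I) (h : i ≠ j) (n : ℕ) {e : E (triv Q.U)}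
    (he : e ∈ EI Q i n) : (X j : MvPolynomial I k) • e ∈ EI Q i (n + 2) := by
  have := EI_lin Q i (Pi.single j (1 : k)) (Pi.single_eq_of_ne h 1) n he
  rwa [lin_single] at this

omit [CharZero k] in
lemma two_sub_th (i : I) : (2 * X i - Q.toCDatum.th k i : MvPolynomial I k)
    = lin (fun j => 2 * (Pi.single i (1 : k) : I → k) j - (Q.a i j : k)) := by
  have h1 : (X i : MvPolynomial I k) = ∑ j, C ((Pi.single i (1 : k) : I → k) j) * X j :=
    (lin_single i).symm
  rw [lin, CDatum.th]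
  conv_lhs => rw [h1]
  rw [Finset.mul_sum, ← Finset.sum_sub_distrib]
  refine Finset.sum_congr rfl fun j _ => ?_
  rw [MvPolynomial.smul_eq_C_mul, map_sub, map_mul]
  have : (C (2 : k) : MvPolynomial I k) = 2 := by
    rw [show (2 : k) = ((2 : ℕ) : k) by norm_num, map_natCast]
    norm_num
  rw [this]
  ring

lemma EI_th (i : I) (n : ℕ) {e : E (triv Q.U)} (he : e ∈ EI Q i n) :
    (2 * X i - Q.toCDatum.th k i : MvPolynomial I k) • e ∈ EI Q i (n + 2) := by
  rw [two_sub_th]
  refine EI_lin Q i _ ?_ n he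
  rw [Pi.single_eq_same, Q.toCDatum.diag]
  push_cast
  ring

omit [CharZero k] in
lemma th_homog (i : I) : (Q.toCDatum.th k i).IsHomogeneous 1 := by
  rw [CDatum.th]
  refine IsHomogeneous.sum _ _ _ (fun j _ => ?_)
  rw [MvPolynomial.smul_eq_C_mul]
  exact (isHomogeneous_X k j).C_mul _

lemma EI_sq (i : I) (n : ℕ) {e : E (triv Q.U)} (he : e ∈ EI Q i n) :
    ((X i : MvPolynomial I k) * (Q.toCDatum.th k i - X i)) • e ∈ EI Q i (n + 4) := by
  refine EI_poly Q i (d := 2) ?_ (Q.L2 i) n he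
  exact (isHomogeneous_X k i).mul ((th_homog Q i).sub (isHomogeneous_X k i))

/-- the relation `r' = D_i r` in degree `n` -/
def DR (i : I) (n : ℕ) (r r' : E (triv Q.U)) : Prop :=
  ∃ e ∈ EI Q i n, r = e + (X i : MvPolynomial I k) • r' ∧ (r' = 0 ∨ ∃ m, m + 2 = n ∧ r' ∈ EI Q i m)

variable {Q}

lemma DR.add {i : I} {n : ℕ} {r r' s s' : E (triv Q.U)} (h : DR Q i n r r')
    (h' : DR Q i n s s') : DR Q i n (r + s) (r' + s') := by
  obtain ⟨e, he, h1, h2⟩ := h
  obtain ⟨e', he', h1', h2'⟩ := h'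
  refine ⟨e + e', Submodule.add_mem _ he he', ?_, ?_⟩
  · rw [h1, h1', smul_add]; abel
  · rcases h2 with rfl | ⟨m, hm, h2⟩
    · rw [zero_add]; exact h2'
    · rcases h2' with rfl | ⟨m', hm', h2'⟩
      · rw [add_zero]; exact Or.inr ⟨m, hm, h2⟩
      · have : m' = m := by omega
        subst this
        exact Or.inr ⟨m', hm, Submodule.add_mem _ h2 h2'⟩

lemma DR.zero (i : I) (n : ℕ) : DR Q i n 0 0 :=
  ⟨0, Submodule.zero_mem _, by rw [smul_zero, add_zero], Or.inl rfl⟩

omit [CharZero k] in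
lemma C_smul_E (t : k) (e : E (triv Q.U)) : (C t : MvPolynomial I k) • e = t • e := by
  rw [← algebraMap_eq, algebraMap_smul]

lemma DR.Csmul {i : I} {n : ℕ} {r r' : E (triv Q.U)} (t : k) (h : DR Q i n r r') :
    DR Q i n ((C t : MvPolynomial I k) • r) ((C t : MvPolynomial I k) • r') := by
  obtain ⟨e, he, h1, h2⟩ := h
  refine ⟨(C t : MvPolynomial I k) • e, ?_, ?_, ?_⟩
  · rw [C_smul_E]; exact Submodule.smul_mem _ _ he
  · rw [h1, smul_add, smul_comm]
  · rcases h2 with rfl | ⟨m, hm, h2⟩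
    · left; rw [smul_zero]
    · right
      refine ⟨m, hm, ?_⟩
      rw [C_smul_E]; exact Submodule.smul_mem _ _ h2

lemma DR.neg {i : I} {n : ℕ} {r r' : E (triv Q.U)} (h : DR Q i n r r') :
    DR Q i n (-r) (-r') := by
  have := h.Csmul (-1)
  rwa [map_neg, map_one, neg_smul, one_smul, neg_smul, one_smul] at this

lemma DR.eq_zero {i : I} {n : ℕ} {r' : E (triv Q.U)} (h : DR Q i n 0 r') : r' = 0 := by
  obtain ⟨e, he, h1, h2⟩ := h
  rcases h2 with h2 | ⟨m, hm, h2⟩
  · exact h2
  · subst hm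
    exact (EI_direct Q i m he h2 h1.symm).2

lemma DR.unique {i : I} {n : ℕ} {r r' r'' : E (triv Q.U)} (h : DR Q i n r r')
    (h' : DR Q i n r r'') : r' = r'' := by
  have := h.add h'.neg
  rw [add_neg_cancel] at this
  exact eq_of_sub_eq_zero (by rw [sub_eq_add_neg]; exact this.eq_zero)

lemma DR.exists (i : I) {n : ℕ} {r : E (triv Q.U)} (hr : r ∈ EDeg (triv Q.U) n) :
    ∃ r', DR Q i n r r' := by
  rcases n with _ | _ | n
  · exact ⟨0, r, EI_zero Q i (by simpa using hr), by rw [smul_zero, add_zero], Or.inl rfl⟩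
  · exact ⟨0, r, EI_one Q i (by simpa using hr), by rw [smul_zero, add_zero], Or.inl rfl⟩
  · have hr' : r ∈ EDeg (triv Q.U) ((n : ℤ) + 2) := by
      have : (((n + 1 + 1 : ℕ)) : ℤ) = (n : ℤ) + 2 := by push_cast; ring
      rwa [this] at hr
    obtain ⟨a, ha, b, hb, h⟩ := EI_decomp Q i n hr'
    exact ⟨b, a, ha, h, Or.inr ⟨n, rfl, hb⟩⟩

lemma DR.X_ne {i j : I} (hij : i ≠ j) {n : ℕ} {r r' : E (triv Q.U)} (h : DR Q i n r r') :
    DR Q i (n + 2) ((X j : MvPolynomial I k) • r) ((X j : MvPolynomial I k) • r') := by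
  obtain ⟨e, he, h1, h2⟩ := h
  refine ⟨(X j : MvPolynomial I k) • e, EI_X Q i j hij n he, ?_, ?_⟩
  · rw [h1, smul_add, smul_comm]
  · rcases h2 with rfl | ⟨m, hm, h2⟩
    · left; rw [smul_zero]
    · right
      exact ⟨m + 2, by omega, EI_X Q i j hij m h2⟩

lemma DR.X_eq {i : I} {n : ℕ} {r r' : E (triv Q.U)} (h : DR Q i n r r') :
    DR Q i (n + 2) ((X i : MvPolynomial I k) • r)
      (r + (X i - Q.toCDatum.th k i : MvPolynomial I k) • r') := by
  obtain ⟨e, he, h1, h2⟩ := h
  rcases h2 with rfl | ⟨m, hm, h2⟩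
  · refine ⟨0, Submodule.zero_mem _, ?_, Or.inr ⟨n, rfl, ?_⟩⟩
    · rw [smul_zero, add_zero, zero_add]
    · rw [smul_zero, add_zero, h1, smul_zero, add_zero]
      exact he
  · subst hm
    refine ⟨((X i : MvPolynomial I k) * (Q.toCDatum.th k i - X i)) • r', EI_sq Q i m h2, ?_,
      Or.inr ⟨m + 2, rfl, ?_⟩⟩
    · rw [smul_add, smul_smul, ← add_assoc, add_comm (_ • r'), add_assoc, ← add_smul,
        show ((X i : MvPolynomial I k) * (Q.toCDatum.th k i - X i)
          + X i * (X i - Q.toCDatum.th k i)) = 0 by ring, zero_smul, add_zero]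
    · have : r + (X i - Q.toCDatum.th k i : MvPolynomial I k) • r'
          = e + (2 * X i - Q.toCDatum.th k i : MvPolynomial I k) • r' := by
        rw [h1, add_assoc, ← add_smul]
        congr 2
        ring
      rw [this]
      exact Submodule.add_mem _ he (EI_th Q i m h2)

lemma DR.X {i j : I} {n : ℕ} {r r' : E (triv Q.U)} (h : DR Q i n r r') :
    DR Q i (n + 2) ((X j : MvPolynomial I k) • r)
      (Q.toCDatum.dem i (X j : MvPolynomial I k) • r + Q.toCDatum.rs k i (X j) • r') := by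
  rw [CDatum.dem_X, CDatum.rs, aeval_X]
  by_cases hij : i = j
  · subst hij
    rw [if_pos rfl, if_pos rfl, one_smul]
    exact h.X_eq
  · rw [if_neg hij, if_neg (Ne.symm hij), zero_smul, zero_add]
    exact h.X_ne hij

lemma DR.hc {i : I} {n : ℕ} {r r' : E (triv Q.U)} (h : DR Q i n r r') (p : MvPolynomial I k) :
    ∀ d : ℕ, DR Q i (n + 2 * d) (homogeneousComponent d p • r)
      (Q.toCDatum.dem i (homogeneousComponent d p) • r
        + Q.toCDatum.rs k i (homogeneousComponent d p) • r') := by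
  have dem0 : Q.toCDatum.dem i (0 : MvPolynomial I k) = 0 := by
    have := Q.toCDatum.dem_C i (0 : k)
    rwa [map_zero] at this
  induction p using MvPolynomial.induction_on with
  | C a =>
    intro d
    rcases Nat.eq_zero_or_pos d with rfl | hd
    · rw [homogeneousComponent_zero, coeff_zero_C, CDatum.dem_C, zero_smul, zero_add]
      have : Q.toCDatum.rs k i (C a) = C a := by
        rw [← MvPolynomial.algebraMap_eq, AlgHom.commutes]
      rw [this, mul_zero, add_zero]
      exact h.Csmul a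
    · have : homogeneousComponent d (C a : MvPolynomial I k) = 0 :=
        homogeneousComponent_eq_zero _ _ (by rw [totalDegree_C]; exact hd)
      rw [this, dem0, map_zero, zero_smul, zero_smul, add_zero]
      exact DR.zero _ _
  | add p q hp hq =>
    intro d
    rw [map_add, CDatum.dem_add, map_add, add_smul, add_smul, add_smul]
    have := (hp d).add (hq d)
    rw [add_add_add_comm]
    exact this
  | mul_X p j hp =>
    intro d
    rw [mul_comm p (MvPolynomial.X j)]
    rcases d with _ | d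
    · rw [hc_zero_X_mul, dem0, map_zero, zero_smul, zero_smul, add_zero]
      exact DR.zero _ _
    · rw [hc_X_mul, CDatum.dem_mul, map_mul]
      have h1 := (hp d).X (j := j)
      have h2 : n + 2 * (d + 1) = n + 2 * d + 2 := by ring
      rw [h2, mul_smul]
      have h3 : (Q.toCDatum.dem i (MvPolynomial.X j : MvPolynomial I k) * homogeneousComponent d p
          + Q.toCDatum.rs k i (MvPolynomial.X j) * Q.toCDatum.dem i (homogeneousComponent d p)) • r
          + (Q.toCDatum.rs k i (MvPolynomial.X j)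
            * Q.toCDatum.rs k i (homogeneousComponent d p)) • r'
          = Q.toCDatum.dem i (MvPolynomial.X j : MvPolynomial I k) • homogeneousComponent d p • r
          + Q.toCDatum.rs k i (MvPolynomial.X j) •
            (Q.toCDatum.dem i (homogeneousComponent d p) • r
            + Q.toCDatum.rs k i (homogeneousComponent d p) • r') := by
        rw [add_smul, mul_smul, mul_smul, mul_smul, smul_add]
        abel
      rw [h3]
      exact h1

/-- the Leibniz rule -/
lemma DR.poly {i : I} {n : ℕ} {r r' : E (triv Q.U)} (h : DR Q i n r r') {p : MvPolynomial I k}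
    {d : ℕ} (hp : p.IsHomogeneous d) : DR Q i (n + 2 * d) (p • r)
      (Q.toCDatum.dem i p • r + Q.toCDatum.rs k i p • r') := by
  have h1 : homogeneousComponent d p = p := by
    rw [homogeneousComponent_of_mem hp, if_pos rfl]
  have h2 := h.hc p d
  rwa [h1] at h2

lemma DR_one (i : I) : DR Q i 0 (one Q.U) 0 :=
  ⟨one Q.U, EI_zero Q i one_mem_Deg, by rw [smul_zero, add_zero], Or.inl rfl⟩

lemma DR_poly_one (i : I) {p : MvPolynomial I k} {d : ℕ} (hp : p.IsHomogeneous d) :
    DR Q i (2 * d) (p • one Q.U) (Q.toCDatum.dem i p • one Q.U) := by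
  have := (DR_one (Q := Q) i).poly hp
  rwa [smul_zero, add_zero, zero_add] at this

/-- words kill what is zero -/
lemma demw_zero (w : List I) : ∀ {p : MvPolynomial I k} {d : ℕ}, p.IsHomogeneous d →
    p • one Q.U = 0 → Q.toCDatum.demw w p • one Q.U = 0 := by
  induction w with
  | nil => intro p d _ h; exact h
  | cons i w ih =>
    intro p d hp h
    have h1 := DR_poly_one (Q := Q) i hp
    rw [h] at h1
    have h2 := h1.eq_zero
    rcases d with _ | d
    · have h3 : p = C (coeff 0 p) :=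
        (totalDegree_eq_zero_iff_eq_C).1 ((totalDegree_zero_iff_isHomogeneous I).2 hp)
      have h4 : Q.toCDatum.dem i p = 0 := by rw [h3, CDatum.dem_C]
      exact ih (d := 0) (by rw [h4]; exact isHomogeneous_zero _ _ _) h2
    · exact ih (Q.toCDatum.dem_homog i hp) h2

/-- classes which come from polynomials -/
def Vp (Q : QD k I) (m : ℕ) (v : E (triv Q.U)) : Prop :=
  (∃ (d : ℕ) (q : MvPolynomial I k), m = 2 * d ∧ q.IsHomogeneous d ∧ v = q • one Q.U) ∨ v = 0

omit [CharZero k] in
lemma Vp.add {m : ℕ} {v v' : E (triv Q.U)} (h : Vp Q m v) (h' : Vp Q m v') :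
    Vp Q m (v + v') := by
  rcases h with ⟨d, q, hm, hq, rfl⟩ | rfl
  · rcases h' with ⟨d', q', hm', hq', rfl⟩ | rfl
    · have : d' = d := by omega
      subst this
      exact Or.inl ⟨d', q + q', hm, hq.add hq', by rw [add_smul]⟩
    · rw [add_zero]; exact Or.inl ⟨d, q, hm, hq, rfl⟩
  · rw [zero_add]; exact h'

omit [CharZero k] in
lemma Vp.poly {m : ℕ} {v : E (triv Q.U)} (h : Vp Q m v) {p : MvPolynomial I k} {e : ℕ}
    (hp : p.IsHomogeneous e) : Vp Q (m + 2 * e) (p • v) := by
  rcases h with ⟨d, q, hm, hq, rfl⟩ | rfl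
  · exact Or.inl ⟨e + d, p * q, by omega, hp.mul hq, by rw [mul_smul]⟩
  · exact Or.inr (by rw [smul_zero])

lemma Vp.D {m : ℕ} {v : E (triv Q.U)} (h : Vp Q (m + 2) v) (i : I) :
    ∃ v', DR Q i (m + 2) v v' ∧ Vp Q m v' := by
  rcases h with ⟨d, q, hm, hq, rfl⟩ | rfl
  · obtain ⟨d, rfl⟩ : ∃ d', d = d' + 1 := ⟨d - 1, by omega⟩
    refine ⟨Q.toCDatum.dem i q • one Q.U, ?_, Or.inl ⟨d, Q.toCDatum.dem i q, by omega,
      Q.toCDatum.dem_homog i hq, rfl⟩⟩
    rw [hm]
    exact DR_poly_one i hq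
  · exact ⟨0, DR.zero _ _, Or.inr rfl⟩

/-- the main computation -/
lemma word (n : ℕ) {r : E (triv Q.U)} (hr : r ∈ EDeg (triv Q.U) n)
    (ih : ∀ m, m + 2 ≤ n → ∀ s ∈ EDeg (triv Q.U) (m : ℤ), Vp Q m s) (w : List I) :
    ∀ {p : MvPolynomial I k} {v : E (triv Q.U)}, p.IsHomogeneous w.length →
      Vp Q (n + 2 * w.length) v → p • r + v = 0 →
      ∃ v', Vp Q n v' ∧ Q.toCDatum.demw w p • r + v' = 0 := by
  induction w with
  | nil => intro p v _ hv h; exact ⟨v, hv, h⟩
  | cons i w ihw =>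
    intro p v hp hv h
    rw [List.length_cons] at hp hv
    obtain ⟨r', hr'⟩ := DR.exists i hr
    have h1 := hr'.poly hp
    have hn : n + 2 * (w.length + 1) = n + 2 * w.length + 2 := by ring
    rw [hn] at h1 hv
    obtain ⟨v', hv', hvV⟩ := hv.D i
    have h2 := h1.add hv'
    rw [h] at h2
    have h3 := h2.eq_zero
    rw [add_assoc] at h3
    refine ihw (Q.toCDatum.dem_homog i hp) (Vp.add ?_ hvV) h3
    obtain ⟨e, he, h4, h5⟩ := hr'
    rcases h5 with rfl | ⟨m, hm, h5⟩
    · rw [smul_zero]; exact Or.inr rfl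
    · have h6 := (ih m (by omega) r' (EI_le Q i h5)).poly (Q.toCDatum.rs_homog i hp)
      have : m + 2 * (w.length + 1) = n + 2 * w.length := by omega
      rwa [this] at h6

/-- all classes come from polynomials -/
theorem gen (n : ℕ) : ∀ r ∈ EDeg (triv Q.U) (n : ℤ), Vp Q n r := by
  induction n using Nat.strong_induction_on with
  | _ n ih =>
    intro r hr
    rcases Nat.eq_zero_or_pos n with rfl | hn
    · obtain ⟨f, hf⟩ := E0_exists (triv Q.U) (by simpa using hr)
      refine Or.inl ⟨0, C (tv (f (vt Q.U 1))), rfl, isHomogeneous_C _ _, ?_⟩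
      rw [hf, C_smul_E]
      have h1 : ∀ x : (triv Q.U).X, f x = tv (f (vt Q.U 1)) • x := by
        intro x
        have h2 : x = tv x • vt Q.U 1 := by
          show (show k from x) = (show k from x) • (1 : k)
          rw [smul_eq_mul, mul_one]
        have h3 : f x = tv x • f (vt Q.U 1) := by
          conv_lhs => rw [h2]
          rw [map_smulk]
        rw [h3]
        show (show k from x) • (show k from f (vt Q.U 1)) = (show k from f (vt Q.U 1)) • (show k from x)
        rw [smul_eq_mul, smul_eq_mul, mul_comm]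
      have h4 := Emap_smul (LinearMap.id : (triv Q.U).X →ₗ[Q.U.A] (triv Q.U).X) f
        (tv (f (vt Q.U 1))) h1 (one Q.U)
      rw [h4, Emap_id]
    · obtain ⟨Δ, hΔ, hΔI⟩ := Q.toCDatum.exists_top (k := k)
      obtain ⟨w, hw, t, ht, hwt⟩ := Q.toCDatum.exists_word hΔ hΔI
      have h0 : Δ • r = 0 := by
        have h1 := homog_mem_Deg hΔ hr
        exact EVan_U_triv (Q := Q) (n := (n : ℤ) + 2 * (Q.Φ.card : ℕ)) (by omega) _ h1
      obtain ⟨v', hv', h2⟩ := word (Q := Q) n hr (fun m hm s hs => ih m (by omega) s hs) w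
        (p := Δ) (v := 0) (by rw [hw]; exact hΔ) (Or.inr rfl) (by rw [h0, add_zero])
      rw [hwt] at h2
      have h3 : r = (C (-t⁻¹) : MvPolynomial I k) • v' := by
        have h4 : v' = -((C t : MvPolynomial I k) • r) := (neg_eq_of_add_eq_zero_right h2).symm
        rw [h4, smul_neg, smul_smul, ← C_mul, neg_mul, inv_mul_cancel₀ ht, map_neg, map_one,
          neg_smul, one_smul, neg_neg]
      rw [h3]
      have := hv'.poly (isHomogeneous_C I (-t⁻¹))
      simpa using this

end Leib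

open Leib in
theorem QD.E_triv_odd {n : ℤ} (hn : n % 2 = 1) : EVan (triv Q.U) n := by
  rcases lt_or_ge n 0 with h | h
  · exact EVan_neg _ h
  · intro e he
    obtain ⟨m, rfl⟩ := Int.eq_ofNat_of_zero_le h
    rcases gen (Q := Q) m e he with ⟨d, q, hm, _, _⟩ | h0
    · omega
    · exact h0

open Leib in
theorem QD.E_triv_gen {d : ℕ} {r : E (triv Q.U)} (hr : r ∈ EDeg (triv Q.U) (2 * d)) :
    ∃ p : MvPolynomial I k, p.IsHomogeneous d ∧ r = p • one Q.U := by
  have hr' : r ∈ EDeg (triv Q.U) ((2 * d : ℕ) : ℤ) := by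
    have : (((2 * d : ℕ)) : ℤ) = 2 * (d : ℤ) := by push_cast; ring
    rwa [this]
  rcases gen (Q := Q) (2 * d) r hr' with ⟨d', q, hm, hq, h⟩ | h0
  · have : d' = d := by omega
    subst this
    exact ⟨q, hq, h⟩
  · exact ⟨0, isHomogeneous_zero _ _ _, by rw [h0, zero_smul]⟩

open Leib in
theorem QD.E_triv_ker (p : MvPolynomial I k) :
    p • one Q.U = 0 ↔ p ∈ Q.toCDatum.invIdeal k := by
  constructor
  · intro h
    have h1 : ∀ d, homogeneousComponent d p ∈ Q.toCDatum.invIdeal k := by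
      intro d
      by_contra hcon
      have h2 := homog_component_smul_eq_zero (M := triv Q.U) (one_mem_Deg (T := Q.U)) h d
      obtain ⟨w, _, t, ht, hwt⟩ := Q.toCDatum.exists_word
        (homogeneousComponent_isHomogeneous d p) hcon
      have h3 := demw_zero (Q := Q) w (homogeneousComponent_isHomogeneous d p) h2
      rw [hwt, C_smul_E] at h3
      rcases smul_eq_zero.1 h3 with h4 | h4
      · exact ht h4
      · exact one_ne_zero' h4
    rw [← sum_homogeneousComponent p]
    exact Ideal.sum_mem _ fun d _ => h1 d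
  · intro h
    refine Submodule.span_induction (p := fun x _ => x • one Q.U = 0) ?_ ?_ ?_ ?_ h
    · rintro f ⟨hinv, d, hd, hf⟩
      obtain ⟨Δ, hΔ, hΔI⟩ := Q.toCDatum.exists_top (k := k)
      obtain ⟨w, hw, t, ht, hwt⟩ := Q.toCDatum.exists_word hΔ hΔI
      have h0 : (f * Δ) • one Q.U = 0 := by
        have h1 := homog_mem_Deg (hf.mul hΔ) (one_mem_Deg (T := Q.U))
        exact EVan_U_triv (Q := Q) (n := (0 : ℤ) + 2 * ((d + Q.Φ.card : ℕ) : ℤ))
          (by push_cast; omega) _ h1
      have h1 := demw_zero (Q := Q) w (hf.mul hΔ) h0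
      have h2 : ∀ (w : List I) (q : MvPolynomial I k),
          Q.toCDatum.demw w (f * q) = f * Q.toCDatum.demw w q := by
        intro w
        induction w with
        | nil => intro q; rfl
        | cons i w ih =>
          intro q
          show Q.toCDatum.demw w (Q.toCDatum.dem i (f * q)) = _
          rw [Q.toCDatum.dem_inv i hinv, ih]
          rfl
      rw [h2, hwt, mul_comm, mul_smul, C_smul_E] at h1
      rcases smul_eq_zero.1 h1 with h4 | h4
      · exact absurd h4 ht
      · exact h4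
    · exact zero_smul _ _
    · intro x y _ _ hx hy
      rw [add_smul, hx, hy, add_zero]
    · intro a x _ hx
      rw [smul_eq_mul, mul_smul, hx, smul_zero]

end Pool.Agent.Lib.QG
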