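import Pool.Agent.Lib.MP_021f05_al.PureDef
import Pool.Agent.Lib.MP_021f05_al.Chev
import Pool.Agent.Lib.MP_021f05_al.Names

/-!
# MP_021f05_al: `E(k)` over `U` in terms of cochains with values in `S` (statement)
-/

noncomputable section

namespace Pool.Agent.Lib.QG

open MvPolynomial

variable {k : Type} [Field k] {I : Type} [Fintype I] [DecidableEq I]

/-- the facts about the equivariant cohomology of `U` used in the Koszul argument -/
structure PureH (Q : QD k I) : Prop where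
  gen : ∀ {d : ℕ} {f : List Q.U.A → MvPolynomial I k},
    f ∈ PC.Coc Q.U (MvPolynomial I k) → PC.Hom Q.U (2 * d) f → PC.D Q.U X f = 0 →
    ∃ (p : MvPolynomial I k) (g : List Q.U.A → MvPolynomial I k), p.IsHomogeneous d ∧
      g ∈ PC.Coc Q.U (MvPolynomial I k) ∧ PC.Hom Q.U (2 * d - 1) g ∧
      f = p • PC.unit Q.U (MvPolynomial I k) + PC.D Q.U X g
  odd : ∀ {n : ℤ}, n % 2 = 1 → ∀ {f : List Q.U.A → MvPolynomial I k},
    f ∈ PC.Coc Q.U (MvPolynomial I k) → PC.Hom Q.U n f → PC.D Q.U X f = 0 →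
    ∃ g : List Q.U.A → MvPolynomial I k, g ∈ PC.Coc Q.U (MvPolynomial I k) ∧
      PC.Hom Q.U (n - 1) g ∧ f = PC.D Q.U X g
  ker : ∀ {p : MvPolynomial I k} {g : List Q.U.A → MvPolynomial I k},
    g ∈ PC.Coc Q.U (MvPolynomial I k) → PC.D Q.U X g = p • PC.unit Q.U (MvPolynomial I k) →
    p ∈ Q.toCDatum.invIdeal k
  inv : ∀ {p : MvPolynomial I k} {d : ℕ}, p.IsHomogeneous d → p ∈ Q.toCDatum.invIdeal k →
    ∃ g : List Q.U.A → MvPolynomial I k, g ∈ PC.Coc Q.U (MvPolynomial I k) ∧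
      PC.Hom Q.U (2 * d - 1) g ∧ PC.D Q.U X g = p • PC.unit Q.U (MvPolynomial I k)

end Pool.Agent.Lib.QG
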