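import Pool.Agent.Lib.MP_021f05_al.PureD
import Pool.Agent.Lib.MP_021f05_al.PureH
import Pool.Agent.Lib.MP_021f05_al.Leib

/-!
# MP_021f05_al (G3): `E(k)` in terms of cochains with values in `S`
-/

noncomputable section

namespace Pool.Agent.Lib.QG

open MvPolynomial

section translation

variable {k : Type} [Field k] {I : Type} {T : TAlg k I}

/-- the value at one -/
def pe_θ (T : TAlg k I) : (triv T).coef.V → MvPolynomial I k := fun v => mev (triv T) v (vt T 1)

lemma pe_θ_add (v w : (triv T).coef.V) : pe_θ T (v + w) = pe_θ T v + pe_θ T w := rfl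
lemma pe_θ_sub (v w : (triv T).coef.V) : pe_θ T (v - w) = pe_θ T v - pe_θ T w := rfl
lemma pe_θ_neg (v : (triv T).coef.V) : pe_θ T (-v) = - pe_θ T v := rfl
lemma pe_θ_zero : pe_θ T (0 : (triv T).coef.V) = 0 := rfl
lemma pe_θ_smul (p : MvPolynomial I k) (v : (triv T).coef.V) :
    pe_θ T (p • v) = p * pe_θ T v := rfl
lemma pe_θ_smulk (t : k) (v : (triv T).coef.V) : pe_θ T (t • v) = t • pe_θ T v := rfl

lemma pe_mev (v : (triv T).coef.V) (x : (triv T).X) :
    mev (triv T) v x = tv x • pe_θ T v := by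
  have h : x = tv x • vt T 1 := by
    show tv x = tv x • (1 : k)
    rw [smul_eq_mul, mul_one]
  show mev (triv T) v x = tv x • mev (triv T) v (vt T 1)
  rw [← map_smul, ← h]

lemma pe_θ_inj {v w : (triv T).coef.V} (h : pe_θ T v = pe_θ T w) : v = w :=
  mev_ext fun x => by rw [pe_mev, pe_mev, h]

lemma pe_θ_r (a : T.A) (v : (triv T).coef.V) :
    pe_θ T ((triv T).coef.r a v) = T.ε a • pe_θ T v := by
  show mev (triv T) ((triv T).coef.r a v) (vt T 1) = _
  rw [mev_r, pe_mev, triv_smul, tv_vt, tv_vt, mul_one]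

lemma pe_θ_κ (i : I) (v : (triv T).coef.V) :
    pe_θ T ((triv T).coef.κ i v) = pe_θ T v := by
  show mev (triv T) ((triv T).coef.κ i v) (vt T 1) = _
  rw [mev_κ, pe_mev, triv_smul, tv_vt, tv_vt, ε_Kinv, mul_one, one_smul]

lemma pe_θ_π (m : ℤ) (v : (triv T).coef.V) :
    pe_θ T ((triv T).coef.π m v) = gc m (pe_θ T v) := rfl

/-- translation of cochains -/
def pe_P (F : List T.A → (triv T).coef.V) : List T.A → MvPolynomial I k := fun l => pe_θ T (F l)

/-- translation of cochains -/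
def pe_E (f : List T.A → MvPolynomial I k) : List T.A → (triv T).coef.V := fun l =>
  mkM (triv T) (LinearMap.toSpanSingleton k (MvPolynomial I k) (f l))

lemma pe_PE (f : List T.A → MvPolynomial I k) : pe_P (pe_E (T := T) f) = f := by
  funext l
  show (1 : k) • f l = f l
  rw [one_smul]

lemma pe_P_inj {F G : List T.A → (triv T).coef.V} (h : pe_P F = pe_P G) : F = G :=
  funext fun l => pe_θ_inj (congrFun h l)

lemma pe_tl (F : List T.A → (triv T).coef.V) (a : T.A) :
    PC.tl T (pe_P F) a = pe_P ((triv T).coef.tl F a) := rfl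

lemma pe_act (F : List T.A → (triv T).coef.V) (a : T.A) :
    PC.act T (pe_P F) a = pe_P ((triv T).coef.act F a) := by
  funext l
  cases l with
  | nil => exact (pe_θ_r a (F [])).symm
  | cons x l => rfl

lemma pe_dd (l : List T.A) (F : List T.A → (triv T).coef.V) :
    PC.dd T l (pe_P F) = pe_θ T ((triv T).coef.dd l F) := by
  induction l generalizing F with
  | nil => rfl
  | cons a l ih =>
    show - PC.act T (pe_P F) a l - PC.dd T l (PC.tl T (pe_P F) a)
      = pe_θ T (- (triv T).coef.act F a l - (triv T).coef.dd l ((triv T).coef.tl F a))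
    rw [pe_θ_sub, pe_θ_neg, pe_act, pe_tl, ih]
    rfl

lemma pe_hh (i : I) (l : List T.A) (F : List T.A → (triv T).coef.V) :
    PC.hh T i l (pe_P F) = pe_θ T ((triv T).coef.hh i l F) := by
  induction l generalizing F with
  | nil => exact (pe_θ_κ i _).symm
  | cons a l ih =>
    show (pe_P F) ((T.K i : T.A) :: (a :: l).map (T.adi i)) - PC.hh T i l (PC.tl T (pe_P F) a)
      = pe_θ T ((triv T).coef.κ i (F ((T.K i : T.A) :: (a :: l).map (T.adi i)))
        - (triv T).coef.hh i l ((triv T).coef.tl F a))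
    rw [pe_θ_sub, pe_θ_κ, pe_tl, ih]
    rfl

lemma pe_b (F : List T.A → (triv T).coef.V) (l : List T.A) :
    PC.b T (pe_P F) l = pe_θ T ((triv T).coef.b F l) := by
  cases l with
  | nil => rfl
  | cons a l =>
    show T.ε a • (pe_P F) l + PC.dd T (a :: l) (pe_P F)
      = pe_θ T (T.ε a • F l + (triv T).coef.dd (a :: l) F)
    rw [pe_θ_add, pe_θ_smulk, pe_dd]
    rfl

lemma pe_isML {F : List T.A → (triv T).coef.V} :
    (triv T).coef.IsML F ↔ PC.IsML T (pe_P F) := by
  constructor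
  · rintro ⟨h1, h2⟩
    refine ⟨fun l₁ l₂ a b => ?_, fun l₁ l₂ t a => ?_⟩
    · show pe_θ T (F _) = pe_θ T (F _) + pe_θ T (F _)
      rw [h1, pe_θ_add]
    · show pe_θ T (F _) = t • pe_θ T (F _)
      rw [h2, pe_θ_smulk]
  · rintro ⟨h1, h2⟩
    refine ⟨fun l₁ l₂ a b => ?_, fun l₁ l₂ t a => ?_⟩
    · apply pe_θ_inj
      rw [pe_θ_add]
      exact h1 l₁ l₂ a b
    · apply pe_θ_inj
      rw [pe_θ_smulk]
      exact h2 l₁ l₂ t a

lemma pe_mem {F : List T.A → (triv T).coef.V} :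
    F ∈ (triv T).coef.Coc ↔ pe_P F ∈ PC.Coc T (MvPolynomial I k) := by
  have h : (∀ i, (triv T).coef.c i F = F) ↔ PC.IsInv T (pe_P F) := by
    constructor
    · intro h i l
      have h1 := congrArg (pe_θ T) (congrFun (h i) l)
      have h2 : pe_θ T ((triv T).coef.c i F l) = pe_θ T (F (l.map (T.adi i))) := pe_θ_κ i _
      rw [h2] at h1
      exact h1
    · intro h i
      funext l
      apply pe_θ_inj
      have h2 : pe_θ T ((triv T).coef.c i F l) = pe_θ T (F (l.map (T.adi i))) := pe_θ_κ i _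
      rw [h2]
      exact h i l
  exact and_congr pe_isML h

variable [Fintype I]

lemma pe_D (F : List T.A → (triv T).coef.V) :
    PC.D T X (pe_P F) = pe_P ((triv T).coef.D F) := by
  funext l
  have hs : pe_θ T (∑ i, (X i : MvPolynomial I k) • (triv T).coef.h i F l)
      = ∑ i, (X i : MvPolynomial I k) * pe_θ T ((triv T).coef.h i F l) := by
    have hg : ∀ s : Finset I, pe_θ T (∑ i ∈ s, (X i : MvPolynomial I k) • (triv T).coef.h i F l)
        = ∑ i ∈ s, (X i : MvPolynomial I k) * pe_θ T ((triv T).coef.h i F l) := by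
      classical
      intro s
      induction s using Finset.induction_on with
      | empty => rw [Finset.sum_empty, Finset.sum_empty]; exact pe_θ_zero
      | insert a s ha ih => rw [Finset.sum_insert ha, Finset.sum_insert ha, pe_θ_add, ih, pe_θ_smul]
    exact hg Finset.univ
  show PC.b T (pe_P F) l + ∑ i, X i * PC.h T i (pe_P F) l
    = pe_θ T ((triv T).coef.b F l + ∑ i, (X i : MvPolynomial I k) • (triv T).coef.h i F l)
  rw [pe_θ_add, pe_b, hs]
  congr 1
  refine Finset.sum_congr rfl fun i _ => ?_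
  congr 1
  exact pe_hh i l F

omit [Fintype I] in
lemma pe_unit : pe_P (unitF T) = PC.unit T (MvPolynomial I k) := by
  funext l
  cases l with
  | nil =>
    show mev (triv T) (unitF T []) (vt T 1) = 1
    rw [unitF_nil, tv_vt, C_1]
  | cons a l => rfl

omit [Fintype I] in
lemma pe_smul (p : MvPolynomial I k) (F : List T.A → (triv T).coef.V) :
    pe_P (p • F) = p • pe_P F := rfl

omit [Fintype I] in
lemma pe_pr (n : ℤ) (F : List T.A → (triv T).coef.V) :
    pe_P ((triv T).coef.Pr n F) = PC.pr n (pe_P F) := rfl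

/-- the class of `p • 1` vanishes iff `p • unit` is a coboundary -/
lemma pe_one_iff (p : MvPolynomial I k) : p • one T = 0 ↔
    ∃ g ∈ PC.Coc T (MvPolynomial I k), PC.D T X g = p • PC.unit T (MvPolynomial I k) := by
  have hone : p • one T = (triv T).coef.cls (p • ⟨unitF T, (triv T).coef.mem_Z.2
      ⟨unitF_mem, unitF_D⟩⟩) := by
    rw [map_smul]
    rfl
  rw [hone, Coef.cls_eq_zero]
  constructor
  · rintro ⟨G, hG, h⟩
    refine ⟨pe_P G, pe_mem.1 hG, ?_⟩
    rw [pe_D, h, ← pe_unit]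
    rfl
  · rintro ⟨g, hg, h⟩
    refine ⟨pe_E g, pe_mem.2 (by rw [pe_PE]; exact hg), ?_⟩
    apply pe_P_inj
    rw [← pe_D, pe_PE, h, ← pe_unit]
    rfl

/-- the class of a homogeneous cocycle -/
lemma pe_cls {n : ℤ} {f : List T.A → MvPolynomial I k} (hf : f ∈ PC.Coc T (MvPolynomial I k))
    (hh : PC.Hom T n f) (hD : PC.D T X f = 0) :
    ∃ e ∈ EDeg (triv T) n, ∀ p : MvPolynomial I k, e = p • one T →
      ∃ g ∈ PC.Coc T (MvPolynomial I k),
        f = p • PC.unit T (MvPolynomial I k) + PC.D T X g := by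
  have hF : pe_E (T := T) f ∈ (triv T).coef.Coc := pe_mem.2 (by rw [pe_PE]; exact hf)
  have hDF : (triv T).coef.D (pe_E (T := T) f) = 0 := by
    apply pe_P_inj
    rw [← pe_D, pe_PE, hD]
    rfl
  set z : (triv T).coef.Z := ⟨pe_E (T := T) f, (triv T).coef.mem_Z.2 ⟨hF, hDF⟩⟩ with hz
  refine ⟨(triv T).coef.cls z, ?_, fun p hp => ?_⟩
  · rw [Coef.mem_Deg, Coef.pr_cls]
    congr 1
    apply Subtype.ext
    show (triv T).coef.Pr n (pe_E (T := T) f) = pe_E (T := T) f
    apply pe_P_inj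
    rw [pe_pr, pe_PE]
    exact funext hh
  · have hone : p • one T = (triv T).coef.cls (p • ⟨unitF T, (triv T).coef.mem_Z.2
        ⟨unitF_mem, unitF_D⟩⟩) := by
      rw [map_smul]
      rfl
    rw [hone, ← sub_eq_zero, ← map_sub, Coef.cls_eq_zero] at hp
    obtain ⟨G, hG, h⟩ := hp
    refine ⟨pe_P G, pe_mem.1 hG, ?_⟩
    have h1 : PC.D T X (pe_P G) = f - p • PC.unit T (MvPolynomial I k) := by
      rw [pe_D, h, ← pe_unit]
      have h2 : pe_P (pe_E (T := T) f - p • unitF T) = f - p • pe_P (unitF T) := by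
        funext l
        show pe_θ T (pe_E (T := T) f l) - p * pe_θ T (unitF T l) = _
        have h3 : pe_θ T (pe_E (T := T) f l) = f l := congrFun (pe_PE (T := T) f) l
        rw [h3]
        rfl
      exact h2
    rw [h1]
    abel

/-- homogeneous primitives -/
lemma pe_homog {n : ℤ} {f g : List T.A → MvPolynomial I k} (hf : PC.Hom T n f)
    (hg : g ∈ PC.Coc T (MvPolynomial I k)) (h : PC.D T X g = f) :
    PC.pr (n - 1) g ∈ PC.Coc T (MvPolynomial I k) ∧ PC.Hom T (n - 1) (PC.pr (n - 1) g) ∧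
      PC.D T X (PC.pr (n - 1) g) = f := by
  refine ⟨PC.pr_mem _ hg, PC.pr_hom _ _, ?_⟩
  rw [← PC.pr_D _ _ (fun i => isHomogeneous_X k i), h, sub_add_cancel]
  exact funext hf

end translation

variable {k : Type} [Field k] [CharZero k] {I : Type} [Fintype I] [DecidableEq I] (Q : QD k I)

theorem QD.pure_gen {d : ℕ} {f : List Q.U.A → MvPolynomial I k}
    (hf : f ∈ PC.Coc Q.U (MvPolynomial I k)) (hh : PC.Hom Q.U (2 * d) f)
    (hD : PC.D Q.U X f = 0) :
    ∃ (p : MvPolynomial I k) (g : List Q.U.A → MvPolynomial I k), p.IsHomogeneous d ∧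
      g ∈ PC.Coc Q.U (MvPolynomial I k) ∧ PC.Hom Q.U (2 * d - 1) g ∧
      f = p • PC.unit Q.U (MvPolynomial I k) + PC.D Q.U X g := by
  obtain ⟨e, he, h⟩ := pe_cls hf hh hD
  obtain ⟨p, hp, hep⟩ := Q.E_triv_gen he
  obtain ⟨g, hg, hfg⟩ := h p hep
  have h1 : PC.Hom Q.U (2 * d) (f + (-p) • PC.unit Q.U (MvPolynomial I k)) := by
    refine hh.add ?_
    have h2 := (PC.Hom.unit (T := Q.U) (σ := I)).smul hp.neg
    rw [zero_add] at h2
    exact h2
  have h3 : PC.D Q.U X g = f + (-p) • PC.unit Q.U (MvPolynomial I k) := by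
    rw [hfg, neg_smul]
    abel
  obtain ⟨h4, h5, h6⟩ := pe_homog h1 hg h3
  refine ⟨p, _, hp, h4, h5, ?_⟩
  rw [h6, neg_smul]
  abel

theorem QD.pure_odd {n : ℤ} (hn : n % 2 = 1) {f : List Q.U.A → MvPolynomial I k}
    (hf : f ∈ PC.Coc Q.U (MvPolynomial I k)) (hh : PC.Hom Q.U n f) (hD : PC.D Q.U X f = 0) :
    ∃ g : List Q.U.A → MvPolynomial I k, g ∈ PC.Coc Q.U (MvPolynomial I k) ∧
      PC.Hom Q.U (n - 1) g ∧ f = PC.D Q.U X g := by
  obtain ⟨e, he, h⟩ := pe_cls hf hh hD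
  have h0 : e = (0 : MvPolynomial I k) • one Q.U := by
    rw [zero_smul]
    exact Q.E_triv_odd hn e he
  obtain ⟨g, hg, hfg⟩ := h 0 h0
  rw [zero_smul, zero_add] at hfg
  obtain ⟨h4, h5, h6⟩ := pe_homog hh hg hfg.symm
  exact ⟨_, h4, h5, h6.symm⟩

theorem QD.pure_ker {p : MvPolynomial I k} {g : List Q.U.A → MvPolynomial I k}
    (hg : g ∈ PC.Coc Q.U (MvPolynomial I k))
    (h : PC.D Q.U X g = p • PC.unit Q.U (MvPolynomial I k)) : p ∈ Q.toCDatum.invIdeal k :=
  (Q.E_triv_ker p).1 ((pe_one_iff p).2 ⟨g, hg, h⟩)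

theorem QD.pure_inv {p : MvPolynomial I k} {d : ℕ} (hd : p.IsHomogeneous d)
    (hp : p ∈ Q.toCDatum.invIdeal k) :
    ∃ g : List Q.U.A → MvPolynomial I k, g ∈ PC.Coc Q.U (MvPolynomial I k) ∧
      PC.Hom Q.U (2 * d - 1) g ∧ PC.D Q.U X g = p • PC.unit Q.U (MvPolynomial I k) := by
  obtain ⟨g, hg, h⟩ := (pe_one_iff p).1 ((Q.E_triv_ker p).2 hp)
  have h2 := (PC.Hom.unit (T := Q.U) (σ := I)).smul hd
  rw [zero_add] at h2
  exact ⟨_, pe_homog h2 hg h⟩

theorem QD.pureH : PureH Q := ⟨Q.pure_gen, Q.pure_odd, Q.pure_ker, Q.pure_inv⟩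

end Pool.Agent.Lib.QG
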