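import Pool.Agent.Lib.MP_021f05_al.Stmt
import Pool.Agent.Lib.MP_021f05_al.ExtBar
import Pool.Agent.Lib.MP_021f05_al.Names

/-!
# MP_021f05_al (K4): the algebra of the statement and the algebra `Q.U`
-/

noncomputable section

namespace Pool.Agent.Lib.QG

open CategoryTheory

variable {k : Type} [Field k] {I : Type} [Fintype I] [DecidableEq I] (Q : QD k I)

/-- the generators of `U_ε` -/
def ueGen (g : Stmt.Gens I) : Stmt.Ue Q.a Q.d Q.q :=
  RingQuot.mkAlgHom k (Stmt.URel Q.a Q.d Q.q) (FreeAlgebra.ι k g)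

private theorem UIso_KL (i : I) : ueGen Q (.K i) * ueGen Q (.L i) = 1 := by
  unfold ueGen
  rw [← map_mul, RingQuot.mkAlgHom_rel k (Stmt.URel.KL i), map_one]

private theorem UIso_LK (i : I) : ueGen Q (.L i) * ueGen Q (.K i) = 1 := by
  unfold ueGen
  rw [← map_mul, RingQuot.mkAlgHom_rel k (Stmt.URel.LK i), map_one]

private theorem UIso_KK (i j : I) :
    ueGen Q (.K i) * ueGen Q (.K j) = ueGen Q (.K j) * ueGen Q (.K i) := by
  unfold ueGen
  rw [← map_mul, RingQuot.mkAlgHom_rel k (Stmt.URel.KK i j), map_mul]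

private theorem UIso_ε (i : I) : Stmt.counit Q.a Q.d Q.q (ueGen Q (.K i)) = 1 := by
  unfold ueGen Stmt.counit
  rw [RingQuot.liftAlgHom_mkAlgHom_apply]
  exact FreeAlgebra.lift_ι_apply _ _

/-- `U_ε` as an algebra with torus elements -/
def TU : TAlg k I where
  A := Stmt.Ue Q.a Q.d Q.q
  ε := Stmt.counit Q.a Q.d Q.q
  K i := ⟨ueGen Q (.K i), ueGen Q (.L i), UIso_KL Q i, UIso_LK Q i⟩
  K_comm i j := Units.ext (UIso_KK Q i j)
  ε_K i := UIso_ε Q i

private theorem UIso_serre {A : Type} [Ring A] [Algebra k A] (p : k) (n : ℕ) (x y : A) :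
    Stmt.gserre p n x y = serre p n x y := rfl

/-- the relations of `U_ε` hold in `Q.U` -/
private theorem UIso_rel ⦃x y : FreeAlgebra k (Stmt.Gens I)⦄ (h : Stmt.URel Q.a Q.d Q.q x y) :
    FreeAlgebra.lift k (fun g : Stmt.Gens I => match g with
      | .E i => (QA.elts Q Set.univ Set.univ).E i
      | .F i => (QA.elts Q Set.univ Set.univ).F i
      | .K i => (QA.elts Q Set.univ Set.univ).K i
      | .L i => (QA.elts Q Set.univ Set.univ).L i) x
    = FreeAlgebra.lift k (fun g : Stmt.Gens I => match g with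
      | .E i => (QA.elts Q Set.univ Set.univ).E i
      | .F i => (QA.elts Q Set.univ Set.univ).F i
      | .K i => (QA.elts Q Set.univ Set.univ).K i
      | .L i => (QA.elts Q Set.univ Set.univ).L i) y := by
  set e := QA.elts Q Set.univ Set.univ with he
  induction h with
  | KL i => simp [e.KL]
  | LK i => simp [e.LK]
  | KK i j => simp [e.KK i j]
  | KE i j =>
    simp only [map_mul, map_smul, FreeAlgebra.lift_ι_apply]
    rw [e.KE i j, smul_mul_assoc, mul_assoc, e.KL, mul_one]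
  | KF i j =>
    simp only [map_mul, map_smul, FreeAlgebra.lift_ι_apply]
    rw [e.KF i j, smul_mul_assoc, mul_assoc, e.KL, mul_one]
  | EF i =>
    simp only [map_mul, map_smul, map_sub, FreeAlgebra.lift_ι_apply]
    have h1 := e.EF i i (Set.mem_univ i) (Set.mem_univ i)
    rw [if_pos rfl] at h1
    rw [h1, add_sub_cancel_left]
    rfl
  | EFn i j hij =>
    simp only [map_mul, map_zero, map_sub, FreeAlgebra.lift_ι_apply]
    have h1 := e.EF i j (Set.mem_univ i) (Set.mem_univ j)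
    rw [if_neg hij, add_zero] at h1
    rw [h1, sub_self]
  | SE i j hij =>
    rw [UIso_serre, serre_map, map_zero]
    simp only [FreeAlgebra.lift_ι_apply]
    exact e.SE i j (Set.mem_univ i) (Set.mem_univ j) hij
  | SF i j hij =>
    rw [UIso_serre, serre_map, map_zero]
    simp only [FreeAlgebra.lift_ι_apply]
    exact e.SF i j (Set.mem_univ i) (Set.mem_univ j) hij

/-- the map `U_ε → Q.U` -/
private def UIso_f : Stmt.Ue Q.a Q.d Q.q →ₐ[k] QA Q Set.univ Set.univ :=
  RingQuot.liftAlgHom k ⟨_, UIso_rel Q⟩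

private theorem UIso_f_E (i : I) :
    UIso_f Q (ueGen Q (.E i)) = (QA.elts Q Set.univ Set.univ).E i :=
  (RingQuot.liftAlgHom_mkAlgHom_apply _ _ _ _).trans (FreeAlgebra.lift_ι_apply _ _)
private theorem UIso_f_F (i : I) :
    UIso_f Q (ueGen Q (.F i)) = (QA.elts Q Set.univ Set.univ).F i :=
  (RingQuot.liftAlgHom_mkAlgHom_apply _ _ _ _).trans (FreeAlgebra.lift_ι_apply _ _)
private theorem UIso_f_K (i : I) :
    UIso_f Q (ueGen Q (.K i)) = (QA.elts Q Set.univ Set.univ).K i :=
  (RingQuot.liftAlgHom_mkAlgHom_apply _ _ _ _).trans (FreeAlgebra.lift_ι_apply _ _)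
private theorem UIso_f_L (i : I) :
    UIso_f Q (ueGen Q (.L i)) = (QA.elts Q Set.univ Set.univ).L i :=
  (RingQuot.liftAlgHom_mkAlgHom_apply _ _ _ _).trans (FreeAlgebra.lift_ι_apply _ _)

/-- the relations of `Q.U` hold in `U_ε` -/
private def UIso_elts : QElts Q Set.univ Set.univ (Stmt.Ue Q.a Q.d Q.q) where
  E i := ueGen Q (.E i)
  F i := ueGen Q (.F i)
  K i := ueGen Q (.K i)
  L i := ueGen Q (.L i)
  KL i := UIso_KL Q i
  LK i := UIso_LK Q i
  KK i j := UIso_KK Q i j
  KE i j := by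
    have h1 : ueGen Q (.K i) * ueGen Q (.E j) * ueGen Q (.L i)
        = Q.q ^ ((Q.d i : ℤ) * Q.a i j) • ueGen Q (.E j) := by
      unfold ueGen
      rw [← map_mul, ← map_mul, RingQuot.mkAlgHom_rel k (Stmt.URel.KE i j), map_smul]
    calc ueGen Q (.K i) * ueGen Q (.E j)
        = ueGen Q (.K i) * ueGen Q (.E j) * ueGen Q (.L i) * ueGen Q (.K i) := by
          rw [mul_assoc (ueGen Q (.K i) * ueGen Q (.E j)), UIso_LK, mul_one]
      _ = _ := by rw [h1, smul_mul_assoc]
  KF i j := by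
    have h1 : ueGen Q (.K i) * ueGen Q (.F j) * ueGen Q (.L i)
        = Q.q ^ (-((Q.d i : ℤ) * Q.a i j)) • ueGen Q (.F j) := by
      unfold ueGen
      rw [← map_mul, ← map_mul, RingQuot.mkAlgHom_rel k (Stmt.URel.KF i j), map_smul]
    calc ueGen Q (.K i) * ueGen Q (.F j)
        = ueGen Q (.K i) * ueGen Q (.F j) * ueGen Q (.L i) * ueGen Q (.K i) := by
          rw [mul_assoc (ueGen Q (.K i) * ueGen Q (.F j)), UIso_LK, mul_one]
      _ = _ := by rw [h1, smul_mul_assoc]
  EF i j _ _ := by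
    by_cases hij : i = j
    · subst hij
      rw [if_pos rfl]
      have h1 : ueGen Q (.E i) * ueGen Q (.F i) - ueGen Q (.F i) * ueGen Q (.E i)
          = (Q.q ^ Q.d i - (Q.q ^ Q.d i)⁻¹)⁻¹ • (ueGen Q (.K i) - ueGen Q (.L i)) := by
        unfold ueGen
        rw [← map_mul, ← map_mul, ← map_sub, RingQuot.mkAlgHom_rel k (Stmt.URel.EF i), map_smul,
          map_sub]
      exact sub_eq_iff_eq_add'.1 h1
    · rw [if_neg hij, add_zero]
      have h1 : ueGen Q (.E i) * ueGen Q (.F j) - ueGen Q (.F j) * ueGen Q (.E i) = 0 := by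
        unfold ueGen
        rw [← map_mul, ← map_mul, ← map_sub, RingQuot.mkAlgHom_rel k (Stmt.URel.EFn i j hij),
          map_zero]
      exact sub_eq_zero.1 h1
  E0 i hi := absurd (Set.mem_univ i) hi
  F0 i hi := absurd (Set.mem_univ i) hi
  SE i j _ _ hij := by
    unfold ueGen
    rw [← serre_map]
    have h1 := RingQuot.mkAlgHom_rel k (Stmt.URel.SE (a := Q.a) (d := Q.d) (ε := Q.q) i j hij)
    rw [map_zero] at h1
    exact h1
  SF i j _ _ hij := by
    unfold ueGen
    rw [← serre_map]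
    have h1 := RingQuot.mkAlgHom_rel k (Stmt.URel.SF (a := Q.a) (d := Q.d) (ε := Q.q) i j hij)
    rw [map_zero] at h1
    exact h1

private theorem UIso_left : (UIso_elts Q).lift.comp (UIso_f Q) = AlgHom.id k _ := by
  apply RingQuot.ringQuot_ext'
  apply FreeAlgebra.hom_ext
  funext x
  show (UIso_elts Q).lift (UIso_f Q (ueGen Q x)) = ueGen Q x
  cases x with
  | E i => rw [UIso_f_E, QElts.lift_E]; rfl
  | F i => rw [UIso_f_F, QElts.lift_F]; rfl
  | K i => rw [UIso_f_K, QElts.lift_K]; rfl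
  | L i => rw [UIso_f_L, QElts.lift_L]; rfl

private theorem UIso_right : (UIso_f Q).comp (UIso_elts Q).lift = AlgHom.id k _ := by
  refine QA.hom_ext (fun i => ?_) (fun i => ?_) (fun i => ?_)
  · rw [AlgHom.comp_apply, QElts.lift_E]
    exact UIso_f_E Q i
  · rw [AlgHom.comp_apply, QElts.lift_F]
    exact UIso_f_F Q i
  · rw [AlgHom.comp_apply, QElts.lift_K]
    exact UIso_f_K Q i

private theorem UIso_f_ε (a : Stmt.Ue Q.a Q.d Q.q) :
    Q.U.ε (UIso_f Q a) = Stmt.counit Q.a Q.d Q.q a := by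
  have h : (QElts.eps Q Set.univ Set.univ).lift.comp (UIso_f Q)
      = Stmt.counit Q.a Q.d Q.q := by
    apply RingQuot.ringQuot_ext'
    apply FreeAlgebra.hom_ext
    funext x
    have h0 : Stmt.counit Q.a Q.d Q.q (ueGen Q x) = Stmt.counitF k I (FreeAlgebra.ι k x) :=
      RingQuot.liftAlgHom_mkAlgHom_apply _ _ _ _
    show (QElts.eps Q Set.univ Set.univ).lift (UIso_f Q (ueGen Q x))
      = Stmt.counit Q.a Q.d Q.q (ueGen Q x)
    rw [h0]
    unfold Stmt.counitF
    rw [FreeAlgebra.lift_ι_apply]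
    cases x with
    | E i => rw [UIso_f_E, QElts.lift_E]; rfl
    | F i => rw [UIso_f_F, QElts.lift_F]; rfl
    | K i => rw [UIso_f_K, QElts.lift_K]; rfl
    | L i => rw [UIso_f_L, QElts.lift_L]; rfl
  exact DFunLike.congr_fun h a

theorem exists_TU_iso : ∃ φ : THom (TU Q) Q.U, Function.Bijective φ.f := by
  refine ⟨{ f := UIso_f Q, f_K := fun i => UIso_f_K Q i, f_ε := UIso_f_ε Q }, ?_⟩
  refine Function.bijective_iff_has_inverse.2 ⟨(UIso_elts Q).lift, fun a => ?_, fun a => ?_⟩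
  · exact DFunLike.congr_fun (UIso_left Q) a
  · exact DFunLike.congr_fun (UIso_right Q) a

theorem kk_TU : kk (TU Q) = Stmt.trivMod Q.a Q.d Q.q := rfl

end Pool.Agent.Lib.QG
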