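import Pool.Agent.Lib.MP_021f05_al.IndDef
import Pool.Agent.Lib.MP_021f05_al.PureDef

/-!
# MP_021f05_al (J1): invariant cochains compute the bar cohomology
-/

noncomputable section

namespace Pool.Agent.Lib.QG

open MvPolynomial

variable {k : Type} [Field k] {I : Type}

/-! ### the trivial coefficient object -/

/-- the trivial coefficients -/
def IA_k (k : Type) [Field k] (_ : Type) : Type := k

instance : AddCommGroup (IA_k k I) := inferInstanceAs (AddCommGroup k)
instance : Module k (IA_k k I) := inferInstanceAs (Module k k)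
instance IA_modS : Module (MvPolynomial I k) (IA_k k I) :=
  Module.compHom k (aeval (0 : I → k) : MvPolynomial I k →ₐ[k] k).toRingHom

lemma IA_smulS (p : MvPolynomial I k) (v : IA_k k I) :
    p • v = ((aeval (0 : I → k) p) * (show k from v) : k) := rfl

instance IA_tower : IsScalarTower k (MvPolynomial I k) (IA_k k I) :=
  ⟨fun a b x => by
    rw [IA_smulS, IA_smulS, map_smul]
    show (a * _) * (show k from x) = a * (_ * (show k from x))
    rw [mul_assoc]⟩

/-- the trivial coefficient object -/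
def IA_Cf (T : TAlg k I) : Coef T where
  V := IA_k k I
  r a :=
    { toFun := fun v => T.ε a • v
      map_add' := fun v w => smul_add _ _ _
      map_smul' := fun p v => by
        rw [RingHom.id_apply, IA_smulS, IA_smulS]
        show T.ε a * (_ * (show k from v)) = _ * (T.ε a * (show k from v))
        ring }
  r_add a b v := by
    show T.ε (a + b) • v = T.ε a • v + T.ε b • v
    rw [map_add, add_smul]
  r_smul t a v := by
    show T.ε (t • a) • v = t • (T.ε a • v)
    rw [map_smul, smul_smul]; rfl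
  r_one v := by
    show T.ε 1 • v = v
    rw [map_one, one_smul]
  r_mul a b v := by
    show T.ε (a * b) • v = T.ε b • (T.ε a • v)
    rw [map_mul, smul_smul, mul_comm]
  κ _ := LinearMap.id
  κ_comm _ _ _ := rfl
  κ_r i a v := by
    show T.ε a • v = T.ε (T.ad i a) • v
    congr 1
    show T.ε a = T.ε ((T.K i : T.A) * a * ((T.K i)⁻¹ : T.Aˣ))
    have h1 : T.ε ((T.K i : T.A) * ((T.K i)⁻¹ : T.Aˣ)) = 1 := by
      rw [Units.mul_inv, map_one]
    rw [map_mul, T.ε_K, one_mul] at h1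
    rw [map_mul, map_mul, T.ε_K, h1, one_mul, mul_one]
  π m := if m = 0 then LinearMap.id else 0
  π_π m v := by split_ifs <;> rfl
  π_ne m n v h := by
    by_cases hm : m = 0
    · have hn : n ≠ 0 := fun h2 => h (hm.trans h2.symm)
      rw [if_neg hn, LinearMap.zero_apply, map_zero]
    · rw [if_neg hm, LinearMap.zero_apply]
  π_X m i v := by
    have h1 : ∀ w : IA_k k I, (X i : MvPolynomial I k) • w = 0 := by
      intro w
      rw [IA_smulS, aeval_X]
      show (0 : k) * (show k from w) = 0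
      exact zero_mul _
    rw [h1, h1, map_zero]
  π_r m a v := by
    split_ifs
    · rfl
    · rw [LinearMap.zero_apply, LinearMap.zero_apply, map_zero]
  π_κ m i v := rfl

section transfer

variable {T : TAlg k I}

lemma IA_act (f : List T.A → k) (a : T.A) (l : List T.A) :
    (IA_Cf T).act f a l = PC.act T f a l := by
  cases l <;> rfl

lemma IA_dd (l : List T.A) (f : List T.A → k) : (IA_Cf T).dd l f = PC.dd T l f := by
  induction l generalizing f with
  | nil => rfl
  | cons a l ih =>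
    have h2 : PC.dd T (a :: l) f = - PC.act T f a l - PC.dd T l (PC.tl T f a) := rfl
    rw [h2, ← ih, ← IA_act]
    rfl

lemma IA_b (f : List T.A → k) : (IA_Cf T).b f = PC.b T f := by
  funext l
  cases l with
  | nil => rfl
  | cons a l =>
    have h2 : PC.b T f (a :: l) = T.ε a • f l + PC.dd T (a :: l) f := rfl
    rw [h2, ← IA_dd]
    rfl

lemma IA_hh (i : I) (l : List T.A) (f : List T.A → k) :
    (IA_Cf T).hh i l f = PC.hh T i l f := by
  induction l generalizing f with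
  | nil => rfl
  | cons a l ih =>
    have h2 : PC.hh T i (a :: l) f
        = f ((T.K i : T.A) :: (a :: l).map (T.adi i)) - PC.hh T i l (PC.tl T f a) := rfl
    rw [h2, ← ih]
    rfl

lemma IA_h (i : I) (f : List T.A → k) : (IA_Cf T).h i f = PC.h T i f := by
  funext l; exact IA_hh i l f

/-- the homotopy formula -/
lemma IA_bh (i : I) (f : List T.A → k) (l : List T.A) :
    PC.b T (PC.h T i f) l + PC.h T i (PC.b T f) l = f (l.map (T.adi i)) - f l := by
  have h := (IA_Cf T).b_h i f l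
  rw [IA_b, IA_h, IA_h, IA_b] at h
  have h2 : (IA_Cf T).r (T.K i : T.A) ((IA_Cf T).κ i (f l)) = f l := by
    show T.ε (T.K i : T.A) • f l = f l
    rw [T.ε_K, one_smul]
  rw [h2] at h
  exact h

lemma IA_ml_h (i : I) {f : List T.A → k} (hf : PC.IsML T f) : PC.IsML T (PC.h T i f) := by
  have h := (IA_Cf T).isML_h (f := f) i hf
  rw [IA_h] at h
  exact h

lemma IA_ml_b {f : List T.A → k} (hf : PC.IsML T f) : PC.IsML T (PC.b T f) := by
  have h := (IA_Cf T).isML_b (f := f) hf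
  rw [IA_b] at h
  exact h

lemma IA_ml_tl {f : List T.A → k} (hf : PC.IsML T f) (a : T.A) : PC.IsML T (PC.tl T f a) :=
  ⟨fun l₁ l₂ x y => hf.1 (a :: l₁) l₂ x y, fun l₁ l₂ t x => hf.2 (a :: l₁) l₂ t x⟩

lemma IA_ml_zero {f : List T.A → k} (hf : PC.IsML T f) (l₁ l₂ : List T.A) :
    f (l₁ ++ 0 :: l₂) = 0 := by
  have := hf.2 l₁ l₂ 0 0
  rwa [zero_smul, zero_smul] at this

lemma IA_hh_len (i : I) (l : List T.A) (f : List T.A → k)
    (hf : ∀ l', l'.length = l.length + 1 → f l' = 0) : PC.hh T i l f = 0 := by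
  induction l generalizing f with
  | nil => exact hf _ rfl
  | cons a l ih =>
    have h2 : PC.hh T i (a :: l) f
        = f ((T.K i : T.A) :: (a :: l).map (T.adi i)) - PC.hh T i l (PC.tl T f a) := rfl
    have h3 : PC.hh T i l (PC.tl T f a) = 0 := by
      refine ih _ fun l' hl' => ?_
      exact hf (a :: l') (by rw [List.length_cons, List.length_cons, hl'])
    rw [h2, hf _ (by simp), h3, sub_zero]

end transfer


/-! ### weights -/

section weights

variable [Fintype I] [DecidableEq I] {Q : QD k I} {T : TAlg k I}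

omit [Fintype I] [DecidableEq I] in
lemma IA_ad_comm (i j : I) (a : T.A) : T.ad i (T.ad j a) = T.ad j (T.ad i a) := by
  have e1 : (T.K i : T.A) * (T.K j : T.A) = (T.K j : T.A) * (T.K i : T.A) := by
    rw [← Units.val_mul, T.K_comm, Units.val_mul]
  have e2 : (((T.K j)⁻¹ : T.Aˣ) : T.A) * ((T.K i)⁻¹ : T.Aˣ)
      = ((T.K i)⁻¹ : T.Aˣ) * ((T.K j)⁻¹ : T.Aˣ) := by
    rw [← Units.val_mul, ← Units.val_mul, ← mul_inv_rev, ← mul_inv_rev, T.K_comm]
  show (T.K i : T.A) * ((T.K j : T.A) * a * ((T.K j)⁻¹ : T.Aˣ)) * ((T.K i)⁻¹ : T.Aˣ)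
    = (T.K j : T.A) * ((T.K i : T.A) * a * ((T.K i)⁻¹ : T.Aˣ)) * ((T.K j)⁻¹ : T.Aˣ)
  calc (T.K i : T.A) * ((T.K j : T.A) * a * ((T.K j)⁻¹ : T.Aˣ)) * ((T.K i)⁻¹ : T.Aˣ)
      = ((T.K i : T.A) * (T.K j : T.A)) * a
        * ((((T.K j)⁻¹ : T.Aˣ) : T.A) * ((T.K i)⁻¹ : T.Aˣ)) := by
        simp only [mul_assoc]
    _ = _ := by rw [e1, e2]; simp only [mul_assoc]

lemma IA_indep : iSupIndep (wtA Q T) := by
  have hcomm : ∀ i j, Commute ((T.ad i).toLinearMap : Module.End k T.A)
      (T.ad j).toLinearMap := by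
    intro i j
    refine LinearMap.ext fun x => ?_
    exact IA_ad_comm i j x
  have h1 := Module.End.independent_iInf_maxGenEigenspace_of_forall_mapsTo
    (fun i => ((T.ad i).toLinearMap : Module.End k T.A))
    (fun i j φ => Module.End.mapsTo_maxGenEigenspace_of_comm (hcomm j i) φ)
  have hinj : Function.Injective (fun μ : I → ℤ => Q.χ μ) := by
    intro μ ν h
    exact QD.χ_inj fun i => congrFun h i
  refine (h1.comp hinj).mono ?_
  intro μ
  refine le_iInf fun i => ?_
  have h2 : wtA Q T μ ≤ Module.End.eigenspace ((T.ad i).toLinearMap : Module.End k T.A)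
      (Q.χ μ i) := by
    intro x hx
    rw [Module.End.mem_eigenspace_iff]
    exact hx i
  refine h2.trans ?_
  exact Module.End.genEigenspace_le_maximal _ _ _

lemma IA_mul {μ ν : I → ℤ} {a b : T.A} (ha : a ∈ wtA Q T μ) (hb : b ∈ wtA Q T ν) :
    a * b ∈ wtA Q T (μ + ν) := by
  intro i
  rw [map_mul, ha i, hb i, QD.χ_add, smul_mul_smul_comm]

lemma IA_eps {ν : I → ℤ} {a : T.A} (ha : a ∈ wtA Q T ν) (h : T.ε a ≠ 0) : ν = 0 := by
  refine QD.χ_inj (Q := Q) fun i => ?_
  have h1 : T.ε (T.ad i a) = T.ε a := by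
    have := T.ε_adi i (T.ad i a)
    rw [T.adi_ad] at this
    exact this.symm
  rw [ha i, map_smul, smul_eq_mul] at h1
  rw [QD.χ_zero]
  exact mul_right_cancel₀ h (by rw [h1, one_mul])

lemma IA_adi {ν : I → ℤ} {a : T.A} (ha : a ∈ wtA Q T ν) (i : I) :
    T.adi i a = (Q.χ ν i)⁻¹ • a := by
  have h1 : a = (Q.χ ν i)⁻¹ • T.ad i a := by
    rw [ha i, smul_smul, inv_mul_cancel₀ (QD.χ_ne ν i), one_smul]
  nth_rewrite 1 [h1]
  rw [map_smul, T.adi_ad]

/-- the weight components -/
lemma IA_exists_cmp (hT : WtAlg Q T) : ∃ c : T.A →ₗ[k] ((I → ℤ) →₀ T.A),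
    (∀ a, (c a).sum (fun _ x => x) = a) ∧ (∀ a ν, c a ν ∈ wtA Q T ν) ∧
      ∀ ν, ∀ a ∈ wtA Q T ν, c a = Finsupp.single ν a := by
  classical
  let S : Submodule k ((I → ℤ) →₀ T.A) :=
    { carrier := {f | ∀ ν, f ν ∈ wtA Q T ν}
      add_mem' := fun {f g} hf hg ν => by
        rw [Finsupp.add_apply]; exact Submodule.add_mem _ (hf ν) (hg ν)
      zero_mem' := fun ν => by rw [Finsupp.zero_apply]; exact Submodule.zero_mem _
      smul_mem' := fun t f hf ν => by
        rw [Finsupp.smul_apply]; exact Submodule.smul_mem _ _ (hf ν) }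
  let s : S →ₗ[k] T.A := (Finsupp.lsum k fun _ => LinearMap.id).comp S.subtype
  have hs : ∀ f : S, s f = f.1.sum (fun _ x => x) := fun f => rfl
  have hinj : Function.Injective s := by
    intro f g hfg
    rw [hs, hs, Finsupp.sum_of_support_subset f.1
      (Finset.subset_union_left (s₂ := g.1.support)) (fun _ x => x) (fun _ _ => rfl),
      Finsupp.sum_of_support_subset g.1
      (Finset.subset_union_right (s₁ := f.1.support)) (fun _ x => x) (fun _ _ => rfl)] at hfg
    have h1 := (iSupIndep_iff_finsetSum_eq_imp_eq _).1 (IA_indep (Q := Q) (T := T))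
      (f.1.support ∪ g.1.support) (fun ν => f.1 ν) (fun ν => g.1 ν)
      (fun ν _ => ⟨f.2 ν, g.2 ν⟩) hfg
    apply Subtype.ext
    refine Finsupp.ext fun ν => ?_
    by_cases hν : ν ∈ f.1.support ∪ g.1.support
    · exact h1 ν hν
    · rw [Finset.mem_union, not_or] at hν
      rw [Finsupp.notMem_support_iff.1 hν.1, Finsupp.notMem_support_iff.1 hν.2]
  have hsurj : Function.Surjective s := by
    intro a
    have ha : a ∈ ⨆ μ, wtA Q T μ := by rw [show (⨆ μ, wtA Q T μ) = ⊤ from hT]; trivial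
    obtain ⟨f, h1, h2⟩ := (Submodule.mem_iSup_iff_exists_finsupp _ _).1 ha
    exact ⟨⟨f, h1⟩, h2⟩
  let e := LinearEquiv.ofBijective s ⟨hinj, hsurj⟩
  have he : ∀ a, s (e.symm a) = a := fun a => e.apply_symm_apply a
  refine ⟨S.subtype.comp e.symm.toLinearMap, fun a => ?_, fun a ν => ?_, fun ν a ha => ?_⟩
  · exact he a
  · exact (e.symm a).2 ν
  · have hm : Finsupp.single ν a ∈ S := by
      intro μ
      rw [Finsupp.single_apply]
      split_ifs with h
      · rw [← h]; exact ha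
      · exact Submodule.zero_mem _
    have h1 : e.symm a = ⟨Finsupp.single ν a, hm⟩ := by
      apply hinj
      rw [he, hs]
      exact (Finsupp.sum_single_index (h := fun _ x => x) rfl).symm
    show (e.symm a).1 = _
    rw [h1]

/-- homogeneous lists of total weight `μ` -/
inductive IA_HL (Q : QD k I) (T : TAlg k I) : (I → ℤ) → List T.A → Prop
  | nil : IA_HL Q T 0 []
  | cons {ν μ : I → ℤ} {a : T.A} {l : List T.A} (ha : a ∈ wtA Q T ν) (hl : IA_HL Q T μ l) :
      IA_HL Q T (ν + μ) (a :: l)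

lemma IA_HL.nil_eq {μ : I → ℤ} (h : IA_HL Q T μ []) : μ = 0 := by
  cases h; rfl

lemma IA_HL.cons_ex {μ : I → ℤ} {a : T.A} {l : List T.A} (h : IA_HL Q T μ (a :: l)) :
    ∃ ν μ', μ = ν + μ' ∧ a ∈ wtA Q T ν ∧ IA_HL Q T μ' l := by
  cases h with
  | cons ha hl => exact ⟨_, _, rfl, ha, hl⟩

/-- multilinear functions are determined by homogeneous lists -/
lemma IA_ext (hT : WtAlg Q T) {F G : List T.A → k} (hF : PC.IsML T F) (hG : PC.IsML T G)
    (h : ∀ μ l, IA_HL Q T μ l → F l = G l) : F = G := by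
  funext l
  induction l generalizing F G with
  | nil => exact h 0 [] IA_HL.nil
  | cons a l ih =>
    have ha : a ∈ ⨆ μ, wtA Q T μ := by rw [show (⨆ μ, wtA Q T μ) = ⊤ from hT]; trivial
    refine Submodule.iSup_induction (wtA Q T) (motive := fun a => F (a :: l) = G (a :: l)) ha
      ?_ ?_ ?_
    · intro ν x hx
      have := ih (F := PC.tl T F x) (G := PC.tl T G x) (IA_ml_tl hF x) (IA_ml_tl hG x)
        (fun μ l' hl' => h _ _ (IA_HL.cons hx hl'))
      exact this
    · have h1 := IA_ml_zero hF [] l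
      have h2 := IA_ml_zero hG [] l
      exact h1.trans h2.symm
    · intro x y hx hy
      have h1 := hF.1 [] l x y
      have h2 := hG.1 [] l x y
      simp only [List.nil_append] at h1 h2
      rw [h1, h2, hx, hy]

/-- extension of a family of multilinear functions -/
def IA_Th (c : T.A →ₗ[k] ((I → ℤ) →₀ T.A)) :
    List T.A → ((I → ℤ) → List T.A → k) → k
  | [], Φ => Φ 0 []
  | a :: l, Φ => (c a).sum fun ν x => IA_Th c l fun μ => PC.tl T (Φ (ν + μ)) x

omit [Fintype I] [DecidableEq I] in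
lemma IA_Th_cons (c : T.A →ₗ[k] ((I → ℤ) →₀ T.A)) (a : T.A) (l : List T.A)
    (Φ : (I → ℤ) → List T.A → k) : IA_Th c (a :: l) Φ
      = (c a).sum fun ν x => IA_Th c l fun μ => PC.tl T (Φ (ν + μ)) x := rfl

omit [Fintype I] [DecidableEq I] in
lemma IA_Th_add (c : T.A →ₗ[k] ((I → ℤ) →₀ T.A)) (l : List T.A)
    (Φ Ψ : (I → ℤ) → List T.A → k) :
    IA_Th c l (fun μ => Φ μ + Ψ μ) = IA_Th c l Φ + IA_Th c l Ψ := by
  induction l generalizing Φ Ψ with
  | nil => rfl
  | cons a l ih =>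
    rw [IA_Th_cons, IA_Th_cons, IA_Th_cons, ← Finsupp.sum_add]
    refine Finsupp.sum_congr fun ν _ => ?_
    rw [← ih]
    rfl

omit [Fintype I] [DecidableEq I] in
lemma IA_Th_smul (c : T.A →ₗ[k] ((I → ℤ) →₀ T.A)) (l : List T.A) (t : k)
    (Φ : (I → ℤ) → List T.A → k) :
    IA_Th c l (fun μ => t • Φ μ) = t • IA_Th c l Φ := by
  induction l generalizing Φ with
  | nil => rfl
  | cons a l ih =>
    rw [IA_Th_cons, IA_Th_cons, Finsupp.smul_sum]
    refine Finsupp.sum_congr fun ν _ => ?_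
    rw [← ih]
    rfl

omit [Fintype I] [DecidableEq I] in
lemma IA_Th_len (c : T.A →ₗ[k] ((I → ℤ) →₀ T.A)) (l : List T.A)
    (Φ : (I → ℤ) → List T.A → k) (h : ∀ μ l', l'.length = l.length → Φ μ l' = 0) :
    IA_Th c l Φ = 0 := by
  induction l generalizing Φ with
  | nil => exact h 0 [] rfl
  | cons a l ih =>
    rw [IA_Th_cons]
    refine Finset.sum_eq_zero fun ν _ => ?_
    refine ih _ fun μ l' hl' => ?_
    exact h _ (_ :: l') (by rw [List.length_cons, List.length_cons, hl'])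

omit [Fintype I] [DecidableEq I] in
lemma IA_Th_ml (c : T.A →ₗ[k] ((I → ℤ) →₀ T.A)) (Φ : (I → ℤ) → List T.A → k)
    (h : ∀ μ, PC.IsML T (Φ μ)) : PC.IsML T (fun l => IA_Th c l Φ) := by
  have add0 : ∀ (Φ : (I → ℤ) → List T.A → k), (∀ μ, PC.IsML T (Φ μ)) → ∀ (l : List T.A) ν x y,
      IA_Th c l (fun μ => PC.tl T (Φ (ν + μ)) (x + y))
        = IA_Th c l (fun μ => PC.tl T (Φ (ν + μ)) x)
          + IA_Th c l (fun μ => PC.tl T (Φ (ν + μ)) y) := by
    intro Φ h l ν x y
    rw [← IA_Th_add]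
    congr 1
    funext μ l'
    exact (h (ν + μ)).1 [] l' x y
  have smul0 : ∀ (Φ : (I → ℤ) → List T.A → k), (∀ μ, PC.IsML T (Φ μ)) → ∀ (l : List T.A) ν
      (t : k) x, IA_Th c l (fun μ => PC.tl T (Φ (ν + μ)) (t • x))
        = t • IA_Th c l (fun μ => PC.tl T (Φ (ν + μ)) x) := by
    intro Φ h l ν t x
    rw [← IA_Th_smul]
    congr 1
    funext μ l'
    exact (h (ν + μ)).2 [] l' t x
  have zero0 : ∀ (Φ : (I → ℤ) → List T.A → k), (∀ μ, PC.IsML T (Φ μ)) → ∀ (l : List T.A) ν,
      IA_Th c l (fun μ => PC.tl T (Φ (ν + μ)) 0) = 0 := by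
    intro Φ h l ν
    have := smul0 Φ h l ν 0 0
    rwa [zero_smul, zero_smul] at this
  refine ⟨fun l₁ => ?_, fun l₁ => ?_⟩
  · induction l₁ generalizing Φ with
    | nil =>
      intro l₂ a b
      show IA_Th c ((a + b) :: l₂) Φ = IA_Th c (a :: l₂) Φ + IA_Th c (b :: l₂) Φ
      rw [IA_Th_cons, IA_Th_cons, IA_Th_cons, map_add]
      exact Finsupp.sum_add_index' (fun ν => zero0 Φ h l₂ ν) (fun ν x y => add0 Φ h l₂ ν x y)
    | cons z l₁ ih =>
      intro l₂ a b
      show IA_Th c (z :: (l₁ ++ (a + b) :: l₂)) Φ = IA_Th c (z :: (l₁ ++ a :: l₂)) Φ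
        + IA_Th c (z :: (l₁ ++ b :: l₂)) Φ
      rw [IA_Th_cons, IA_Th_cons, IA_Th_cons, ← Finsupp.sum_add]
      refine Finsupp.sum_congr fun ν _ => ?_
      exact ih _ (fun μ => IA_ml_tl (h _) _) l₂ a b
  · induction l₁ generalizing Φ with
    | nil =>
      intro l₂ t a
      show IA_Th c ((t • a) :: l₂) Φ = t • IA_Th c (a :: l₂) Φ
      rw [IA_Th_cons, IA_Th_cons, map_smul, Finsupp.sum_smul_index' (fun ν => zero0 Φ h l₂ ν),
        Finsupp.smul_sum]
      refine Finsupp.sum_congr fun ν _ => ?_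
      exact smul0 Φ h l₂ ν t _
    | cons z l₁ ih =>
      intro l₂ t a
      show IA_Th c (z :: (l₁ ++ (t • a) :: l₂)) Φ = t • IA_Th c (z :: (l₁ ++ a :: l₂)) Φ
      rw [IA_Th_cons, IA_Th_cons, Finsupp.smul_sum]
      refine Finsupp.sum_congr fun ν _ => ?_
      exact ih _ (fun μ => IA_ml_tl (h _) _) l₂ t a

lemma IA_Th_HL (c : T.A →ₗ[k] ((I → ℤ) →₀ T.A))
    (hc : ∀ ν, ∀ a ∈ wtA Q T ν, c a = Finsupp.single ν a) {μ : I → ℤ} {l : List T.A}
    (hl : IA_HL Q T μ l) (Φ : (I → ℤ) → List T.A → k) (h : ∀ μ, PC.IsML T (Φ μ)) :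
    IA_Th c l Φ = Φ μ l := by
  induction hl generalizing Φ with
  | nil => rfl
  | @cons ν μ a l ha hl ih =>
    rw [IA_Th_cons, hc ν a ha, Finsupp.sum_single_index, ih _ (fun μ => IA_ml_tl (h _) _)]
    · rfl
    · rw [ih _ (fun μ => IA_ml_tl (h _) _)]
      exact IA_ml_zero (h (ν + μ)) [] l

/-- existence of the extension -/
lemma IA_exists (hT : WtAlg Q T) (Φ : (I → ℤ) → List T.A → k) (h : ∀ μ, PC.IsML T (Φ μ)) :
    ∃ G : List T.A → k, PC.IsML T G ∧ (∀ μ l, IA_HL Q T μ l → G l = Φ μ l) ∧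
      ∀ l, (∀ μ l', l'.length = l.length → Φ μ l' = 0) → G l = 0 := by
  obtain ⟨c, -, -, hc⟩ := IA_exists_cmp hT
  exact ⟨fun l => IA_Th c l Φ, IA_Th_ml c Φ h, fun μ l hl => IA_Th_HL c hc hl Φ h,
    fun l hl => IA_Th_len c l Φ hl⟩

/-- the bar differential preserves the total weight -/
lemma IA_b_HL {μ : I → ℤ} {c : k} {F G : List T.A → k}
    (h : ∀ l, IA_HL Q T μ l → G l = c * F l) {l : List T.A} (hl : IA_HL Q T μ l) :
    PC.b T G l = c * PC.b T F l := by
  have hdd : ∀ (l : List T.A) (μ : I → ℤ) (F G : List T.A → k), IA_HL Q T μ l →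
      (∀ l, IA_HL Q T μ l → G l = c * F l) → PC.dd T l G = c * PC.dd T l F := by
    intro l
    induction l with
    | nil => intro μ F G _ _; show (0 : k) = c * 0; rw [mul_zero]
    | cons a l ih =>
      intro μ F G hl h
      obtain ⟨ν, μ', rfl, ha, hl'⟩ := hl.cons_ex
      have e1 : ∀ F : List T.A → k, PC.dd T (a :: l) F
          = - PC.act T F a l - PC.dd T l (PC.tl T F a) := fun F => rfl
      have e2 : PC.dd T l (PC.tl T G a) = c * PC.dd T l (PC.tl T F a) :=
        ih μ' _ _ hl' fun l' hl' => h _ (IA_HL.cons ha hl')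
      have e3 : PC.act T G a l = c * PC.act T F a l := by
        cases l with
        | nil =>
          have h0 := hl'.nil_eq
          subst h0
          show T.ε a • G [] = c * (T.ε a • F [])
          by_cases he : T.ε a = 0
          · rw [he, zero_smul, zero_smul, mul_zero]
          · have hν := IA_eps ha he
            subst hν
            rw [h [] (by rw [zero_add]; exact IA_HL.nil), smul_eq_mul, smul_eq_mul]
            ring
        | cons a' l'' =>
          obtain ⟨ν', μ'', rfl, ha', hl''⟩ := hl'.cons_ex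
          show G ((a * a') :: l'') = c * F ((a * a') :: l'')
          refine h _ ?_
          rw [← add_assoc]
          exact IA_HL.cons (IA_mul ha ha') hl''
      rw [e1, e1, e2, e3]
      ring
  cases l with
  | nil => show (0 : k) = c * 0; rw [mul_zero]
  | cons a l =>
    have e1 : ∀ F : List T.A → k, PC.b T F (a :: l)
        = T.ε a • F l + PC.dd T (a :: l) F := fun F => rfl
    rw [e1, e1, hdd (a :: l) μ F G hl h]
    obtain ⟨ν, μ', rfl, ha, hl'⟩ := hl.cons_ex
    by_cases he : T.ε a = 0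
    · rw [he, zero_smul, zero_smul]; ring
    · have hν := IA_eps ha he
      subst hν
      rw [h l (by rw [zero_add]; exact hl'), smul_eq_mul, smul_eq_mul]
      ring

lemma IA_map_HL {μ : I → ℤ} {l : List T.A} (hl : IA_HL Q T μ l) (i : I) {f : List T.A → k}
    (hf : PC.IsML T f) : f (l.map (T.adi i)) = (Q.χ μ i)⁻¹ * f l := by
  induction hl generalizing f with
  | nil => rw [QD.χ_zero, inv_one, one_mul]; rfl
  | @cons ν μ a l ha hl ih =>
    rw [List.map_cons, IA_adi ha]
    have h1 := hf.2 [] (l.map (T.adi i)) (Q.χ ν i)⁻¹ a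
    simp only [List.nil_append] at h1
    rw [h1]
    have h2 := ih (IA_ml_tl hf a)
    have h3 : f (a :: l.map (T.adi i)) = (Q.χ μ i)⁻¹ * f (a :: l) := h2
    rw [h3, QD.χ_add, mul_inv, smul_eq_mul, mul_assoc]

omit [Fintype I] [DecidableEq I] in
lemma IA_ml_map {f : List T.A → k} (hf : PC.IsML T f) (i : I) :
    PC.IsML T (fun l => f (l.map (T.adi i))) := by
  refine ⟨fun l₁ l₂ a b => ?_, fun l₁ l₂ t a => ?_⟩
  · simp only [List.map_append, List.map_cons, map_add, hf.1]
  · simp only [List.map_append, List.map_cons, map_smul, hf.2]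

/-- a function vanishing on nonzero weights is invariant -/
lemma IA_inv (hT : WtAlg Q T) {g : List T.A → k} (hg : PC.IsML T g)
    (h : ∀ μ l, IA_HL Q T μ l → μ ≠ 0 → g l = 0) : g ∈ PC.Coc T k := by
  refine ⟨hg, fun i l => ?_⟩
  have h1 : (fun l => g (l.map (T.adi i))) = g := by
    refine IA_ext hT (IA_ml_map hg i) hg fun μ l hl => ?_
    rw [IA_map_HL hl i hg]
    by_cases hμ : μ = 0
    · rw [hμ, QD.χ_zero, inv_one, one_mul]
    · rw [h μ l hl hμ, mul_zero]
  exact congrFun h1 l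

/-- invariant functions vanish on nonzero weights -/
lemma IA_inv_zero {g : List T.A → k} (hg : g ∈ PC.Coc T k) {μ : I → ℤ} {l : List T.A}
    (hl : IA_HL Q T μ l) (hμ : μ ≠ 0) : g l = 0 := by
  obtain ⟨i, hi⟩ : ∃ i, Q.χ μ i ≠ 1 := by
    by_contra hcon
    push Not at hcon
    exact hμ (QD.χ_inj (Q := Q) fun i => by rw [hcon i, QD.χ_zero])
  have h1 := IA_map_HL hl i hg.1
  rw [hg.2 i l] at h1
  by_contra h0
  apply hi
  have h2 : (1 - (Q.χ μ i)⁻¹) * g l = 0 := by rw [sub_mul, one_mul, ← h1, sub_self]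
  have h3 := (mul_eq_zero.1 h2).resolve_right h0
  rw [sub_eq_zero] at h3
  rw [← inv_inv (Q.χ μ i), ← h3, inv_one]

end weights

variable [Fintype I] [DecidableEq I] {Q : QD k I} {T : TAlg k I}

/-- every bar cocycle is cohomologous to an invariant one -/
theorem exists_inv_cocycle (hT : WtAlg Q T) {n : ℕ} {f : List T.A → k} (hf : PC.IsML T f)
    (hs : PC.Supp T n f) (hb : PC.b T f = 0) :
    ∃ g ∈ PC.Coc T k, PC.Supp T n g ∧ PC.b T g = 0 ∧
      ∃ w : List T.A → k, PC.IsML T w ∧ (∀ l, l.length + 1 ≠ n → w l = 0) ∧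
        f = g + PC.b T w := by
  classical
  have h0 : PC.IsML T (0 : List T.A → k) :=
    ⟨fun _ _ _ _ => by simp, fun _ _ _ _ => by simp⟩
  obtain ⟨g, hg1, hg2, hg3⟩ := IA_exists hT (fun μ => if μ = 0 then f else 0) (by
    intro μ; split_ifs; exacts [hf, h0])
  have hex : ∀ μ : I → ℤ, μ ≠ 0 → ∃ i, Q.χ μ i ≠ 1 := by
    intro μ hμ
    by_contra hcon
    push Not at hcon
    exact hμ (QD.χ_inj (Q := Q) fun i => by rw [hcon i, QD.χ_zero])
  let j : (μ : I → ℤ) → μ ≠ 0 → I := fun μ hμ => (hex μ hμ).choose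
  have hj : ∀ μ hμ, Q.χ μ (j μ hμ) ≠ 1 := fun μ hμ => (hex μ hμ).choose_spec
  let Φ : (I → ℤ) → List T.A → k := fun μ =>
    if hμ : μ ≠ 0 then ((Q.χ μ (j μ hμ))⁻¹ - 1)⁻¹ • PC.h T (j μ hμ) f else 0
  have hΦ : ∀ μ, PC.IsML T (Φ μ) := by
    intro μ
    by_cases hμ : μ ≠ 0
    · simp only [Φ, dif_pos hμ]
      have h1 := IA_ml_h (j μ hμ) hf
      refine ⟨fun l₁ l₂ a b => ?_, fun l₁ l₂ t a => ?_⟩
      · simp only [Pi.smul_apply, h1.1, smul_add]
      · simp only [Pi.smul_apply, h1.2]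
        rw [smul_comm]
    · simp only [Φ, dif_neg hμ]; exact h0
  obtain ⟨w, hw1, hw2, hw3⟩ := IA_exists hT Φ hΦ
  have hgz : ∀ μ l, IA_HL Q T μ l → μ ≠ 0 → g l = 0 := by
    intro μ l hl hμ
    rw [hg2 μ l hl, if_neg hμ]; rfl
  have hml : PC.IsML T (PC.b T w) := IA_ml_b hw1
  refine ⟨g, IA_inv hT hg1 hgz, ?_, ?_, w, hw1, ?_, ?_⟩
  · intro l hl
    refine hg3 l fun μ l' hl' => ?_
    split_ifs
    · exact hs l' (by rw [hl']; exact hl)
    · rfl
  · refine IA_ext hT (IA_ml_b hg1) h0 fun μ l hl => ?_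
    have h1 : PC.b T g l = (if μ = 0 then 1 else 0) * PC.b T f l := by
      refine IA_b_HL (fun l hl => ?_) hl
      rw [hg2 μ l hl]
      split_ifs
      · rw [one_mul]
      · rw [zero_mul]; rfl
    rw [h1, hb]
    simp
  · intro l hl
    refine hw3 l fun μ l' hl' => ?_
    by_cases hμ : μ ≠ 0
    · simp only [Φ, dif_pos hμ, Pi.smul_apply]
      have : PC.h T (j μ hμ) f l' = 0 := by
        refine IA_hh_len _ l' f fun l'' hl'' => hs l'' ?_
        rw [hl'', hl']; exact hl
      rw [this, smul_zero]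
    · simp only [Φ, dif_neg hμ]; rfl
  · refine IA_ext hT hf ?_ fun μ l hl => ?_
    · exact ⟨fun l₁ l₂ a b => by
        simp only [Pi.add_apply, hg1.1, hml.1]; ring, fun l₁ l₂ t a => by
        simp only [Pi.add_apply, hg1.2, hml.2, smul_add]⟩
    · rw [Pi.add_apply]
      by_cases hμ : μ = 0
      · have h1 : PC.b T w l = 0 * PC.b T f l := by
          refine IA_b_HL (fun l hl => ?_) hl
          rw [hw2 μ l hl, zero_mul]
          simp only [Φ, hμ, ne_eq, not_true_eq_false, dite_false]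
          rfl
        rw [h1, hg2 μ l hl, if_pos hμ]
        ring
      · have h1 : PC.b T w l = ((Q.χ μ (j μ hμ))⁻¹ - 1)⁻¹ * PC.b T (PC.h T (j μ hμ) f) l := by
          refine IA_b_HL (fun l hl => ?_) hl
          rw [hw2 μ l hl]
          simp only [Φ, dif_pos (show μ ≠ 0 from hμ), Pi.smul_apply, smul_eq_mul]
        have h2 := IA_bh (j μ hμ) f l
        rw [hb] at h2
        have h3 : PC.h T (j μ hμ) (0 : List T.A → k) l = 0 :=
          IA_hh_len _ l 0 fun _ _ => rfl
        rw [h3, add_zero, IA_map_HL hl _ hf] at h2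
        rw [h1, h2, hgz μ l hl hμ, zero_add]
        have h4 : (Q.χ μ (j μ hμ))⁻¹ - 1 ≠ 0 := by
          intro h
          apply hj μ hμ
          rw [sub_eq_zero] at h
          rw [← inv_inv (Q.χ μ (j μ hμ)), h, inv_one]
        have h5 : (Q.χ μ (j μ hμ))⁻¹ * f l - f l = ((Q.χ μ (j μ hμ))⁻¹ - 1) * f l := by ring
        rw [h5, ← mul_assoc, inv_mul_cancel₀ h4, one_mul]

/-- an invariant cochain which is a coboundary is the coboundary of an invariant cochain -/
theorem exists_inv_primitive (hT : WtAlg Q T) {g w : List T.A → k} (hg : g ∈ PC.Coc T k)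
    (hw : PC.IsML T w) (h : g = PC.b T w) : ∃ w' ∈ PC.Coc T k, g = PC.b T w' := by
  classical
  have h0 : PC.IsML T (0 : List T.A → k) :=
    ⟨fun _ _ _ _ => by simp, fun _ _ _ _ => by simp⟩
  obtain ⟨w', hw1, hw2, -⟩ := IA_exists hT (fun μ => if μ = 0 then w else 0) (by
    intro μ; split_ifs; exacts [hw, h0])
  refine ⟨w', IA_inv hT hw1 ?_, ?_⟩
  · intro μ l hl hμ
    rw [hw2 μ l hl, if_neg hμ]; rfl
  · refine IA_ext hT hg.1 (IA_ml_b hw1) fun μ l hl => ?_
    have h1 : PC.b T w' l = (if μ = 0 then 1 else 0) * PC.b T w l := by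
      refine IA_b_HL (fun l hl => ?_) hl
      rw [hw2 μ l hl]
      split_ifs
      · rw [one_mul]
      · rw [zero_mul]; rfl
    rw [h1, ← h]
    split_ifs with hμ
    · rw [one_mul]
    · rw [zero_mul]; exact IA_inv_zero hg hl hμ

end Pool.Agent.Lib.QG
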