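import Pool.Agent.Lib.MP_021f05_al.KosFinB

/-!
# MP_021f05_al (G7): the invariant bar cohomology of `U`
-/

noncomputable section

namespace Pool.Agent.Lib.QG

open MvPolynomial

namespace KF

variable {k : Type} [Field k] {I : Type}

/-- the constant coefficient -/
def cc (k : Type) [Field k] (I : Type) : MvPolynomial I k →ₐ[k] k := aeval (fun _ => (0 : k))

theorem cc_eq (p : MvPolynomial I k) : cc k I p = coeff 0 p := by
  unfold cc
  rw [aeval_zero', constantCoeff_eq]; rfl

theorem cc_hom {d : ℕ} (hd : d ≠ 0) {p : MvPolynomial I k} (hp : p.IsHomogeneous d) :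
    cc k I p = 0 := by
  rw [cc_eq]
  exact hp.coeff_eq_zero (by simpa using hd.symm)

theorem cc_gc {m : ℤ} (hm : m ≠ 0) {p : MvPolynomial I k} (hp : gc m p = p) : cc k I p = 0 := by
  by_cases h : p = 0
  · rw [h, map_zero]
  · obtain ⟨d, hd, hh⟩ := gc_hom hp h
    exact cc_hom (by omega) hh

theorem cc_resJ (p : MvPolynomial I k) : cc k _ (resJ k (∅ : Set I) p) = cc k I p := by
  have : (cc k _).comp (resJ k (∅ : Set I)) = cc k I := by
    apply MvPolynomial.algHom_ext
    intro j
    rw [AlgHom.comp_apply, resJ_X' _ (by simp)]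
    simp [cc]
  exact DFunLike.congr_fun this p

theorem C_cc (p : MvPolynomial (∅ : Set I) k) : MvPolynomial.C (cc k _ p) = p := by
  rw [cc_eq]
  exact (eq_C_of_isEmpty p).symm

theorem cc_C (a : k) : cc k I (MvPolynomial.C a) = a := by
  rw [cc_eq]; simp

/-- constants -/
def cst (k : Type) [Field k] (I : Type) : k →ₐ[k] MvPolynomial I k := Algebra.ofId k _

theorem cst_eq (a : k) : cst k I a = MvPolynomial.C a := rfl

/-- in `k[x_j : j ∈ ∅]` only degree zero occurs -/
theorem gc_empty {m : ℤ} {p : MvPolynomial (∅ : Set I) k} (hp : gc m p = p) (hm : m ≠ 0) : p = 0 := by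
  have := cc_gc hm hp
  rw [← C_cc p, this, map_zero]

theorem gc_C (a : k) : gc 0 (MvPolynomial.C a : MvPolynomial I k) = MvPolynomial.C a := by
  have := gc_self (isHomogeneous_C I a)
  simpa using this

theorem dd_local {T : TAlg k I} : ∀ (l : List T.A) (f : List T.A → k),
    (∀ l', l'.length + 1 = l.length → f l' = 0) → PC.dd T l f = 0
  | [], f, _ => rfl
  | a :: l, f, h => by
    have h1 : PC.act T f a l = 0 := by
      cases l with
      | nil => simp [PC.act, h [] rfl]
      | cons a' l => exact h _ (by simp)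
    have h2 : PC.dd T l (PC.tl T f a) = 0 :=
      dd_local l _ (fun l' hl' => h (a :: l') (by simp [hl']))
    show - PC.act T f a l - PC.dd T l (PC.tl T f a) = 0
    rw [h1, h2]; simp

/-- the value of the bar differential on a list of length `n + 1` only depends on the values on
lists of length `n` -/
theorem b_local {T : TAlg k I} (f : List T.A → k) (l : List T.A)
    (h : ∀ l', l'.length + 1 = l.length → f l' = 0) : PC.b T f l = 0 := by
  cases l with
  | nil => rfl
  | cons a l =>
    show T.ε a • f l + PC.dd T (a :: l) f = 0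
    rw [h l (by simp), dd_local (a :: l) f h]; simp

end KF

variable {k : Type} [Field k] [CharZero k] {I : Type} [Fintype I] [DecidableEq I] (Q : QD k I)

/-- the mapping cone over the full polynomial ring is acyclic -/
theorem QD.QI_univ (hP : PureH Q) {r : ℕ} {f : Fin r → MvPolynomial I k} {m : Fin r → ℕ}
    (h : IsBasic Q.toCDatum f m) (β : Fin r → (List Q.U.A → MvPolynomial I k))
    (hβ : ∀ a, β a ∈ PC.Coc Q.U (MvPolynomial I k)) (hh : ∀ a, PC.Hom Q.U (2 * m a - 1) (β a))
    (hD : ∀ a, PC.D Q.U X (β a) = f a • PC.unit Q.U (MvPolynomial I k)) :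
    PC.QI Q.U Set.univ (fun a => resJ k Set.univ (f a))
      (fun a => PC.cJ Q.U Set.univ (β a)) (fun a => 2 * m a - 1) :=
  Q.QI_univ' hP h β hβ hh hD

/-- The invariant bar cohomology of `U` has a basis of products of classes `β j` of degree
`2 m_j - 1` which anticommute. -/
theorem QD.exists_bar_basis (hP : PureH Q) {r : ℕ} {f : Fin r → MvPolynomial I k} {m : Fin r → ℕ}
    (h : IsBasic Q.toCDatum f m) :
    ∃ β : Fin r → (List Q.U.A → k),
      (∀ j, β j ∈ PC.Coc Q.U k ∧ PC.Supp Q.U (2 * m j - 1) (β j) ∧ PC.b Q.U (β j) = 0) ∧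
      (∀ i j, ∃ w ∈ PC.Coc Q.U k, PC.Supp Q.U (2 * m i + 2 * m j - 3) w ∧
        PC.cup Q.U (β i) (β j) + PC.cup Q.U (β j) (β i) = PC.b Q.U w) ∧
      (∀ (n : ℕ) (c : List Q.U.A → k), c ∈ PC.Coc Q.U k → PC.Supp Q.U n c → PC.b Q.U c = 0 →
        ∃ (t : Finset (Fin r) → k) (w : List Q.U.A → k),
          (∀ S, t S ≠ 0 → ∑ j ∈ S, (2 * m j - 1) = n) ∧ w ∈ PC.Coc Q.U k ∧
          (∀ l, l.length + 1 ≠ n → w l = 0) ∧
          c = (∑ S, t S • PC.cupS β S) + PC.b Q.U w) ∧
      (∀ (t : Finset (Fin r) → k) (w : List Q.U.A → k), w ∈ PC.Coc Q.U k →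
        (∑ S, t S • PC.cupS β S) = PC.b Q.U w → t = 0) := by
  classical
  have hfI : ∀ a, f a ∈ Q.toCDatum.invIdeal k := by
    intro a
    rw [h.invIdeal_eq]
    exact Ideal.subset_span ⟨a, rfl⟩
  choose β' hβ' hh' hD' using fun a => hP.inv (h.homog a) (hfI a)
  have hsg : ∀ j, PC.sg Q.U (β' j) = - β' j := fun j => KF.sg_odd (by omega) (hh' j)
  have hQI := PC.QI_all f β' m h.homog hβ' hh' hD' (Q.QI_univ hP h β' hβ' hh' hD')
  -- the classes over k
  set β : Fin r → (List Q.U.A → k) := fun a => PC.bc Q.U (KF.cc k I) (β' a) with hβdef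
  have hccX : (fun i => KF.cc k I (X i)) = (0 : I → k) := by
    funext i; simp [KF.cc]
  have hccD : ∀ g : List Q.U.A → MvPolynomial I k,
      PC.bc Q.U (KF.cc k I) (PC.D Q.U X g) = PC.b Q.U (PC.bc Q.U (KF.cc k I) g) := by
    intro g
    rw [PC.bc_D, hccX, PC.D_zero_ξ]
  have hmem : ∀ j, β j ∈ PC.Coc Q.U k := fun j => PC.bc_mem _ (hβ' j)
  have hm1 : ∀ j, 0 < m j := h.pos
  have hsupp : ∀ j, PC.Supp Q.U (2 * m j - 1) (β j) := by
    intro j l hl
    refine KF.cc_gc (m := (2 * m j - 1 : ℤ) - l.length) ?_ (hh' j l)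
    have := hm1 j
    omega
  have hb : ∀ j, PC.b Q.U (β j) = 0 := by
    intro j
    have h1 := hccD (β' j)
    rw [hD' j] at h1
    rw [← h1]
    funext l
    show KF.cc k I (f j * PC.unit Q.U (MvPolynomial I k) l) = 0
    rw [map_mul, KF.cc_hom (hm1 j).ne' (h.homog j), zero_mul]
  -- relation with the cochains over `k[x_j : j ∈ ∅]`
  set βK : Fin r → (List Q.U.A → MvPolynomial (∅ : Set I) k) :=
    fun a => PC.cJ Q.U ∅ (β' a) with hβK
  have hβK' : ∀ a, PC.bc Q.U (KF.cc k (∅ : Set I)) (βK a) = β a := by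
    intro a; funext l
    exact KF.cc_resJ (β' a l)
  have hβK'' : ∀ a, βK a = PC.bc Q.U (KF.cst k (∅ : Set I)) (β a) := by
    intro a
    rw [← hβK' a]
    funext l
    exact (KF.C_cc (βK a l)).symm
  have hxK : PC.xJ k (∅ : Set I) = 0 := by
    funext i
    simp [PC.xJ]
  have hfK : ∀ a, resJ k (∅ : Set I) (f a) = 0 := by
    intro a
    rw [← KF.C_cc (resJ k (∅ : Set I) (f a)), KF.cc_resJ, KF.cc_hom (hm1 a).ne' (h.homog a), map_zero]
  have hkd0 : ∀ u : Finset (Fin r) → MvPolynomial (∅ : Set I) k,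
      kd (fun a => resJ k (∅ : Set I) (f a)) u = 0 := by
    intro u
    funext S
    simp only [kd, Pi.zero_apply]
    refine Finset.sum_eq_zero fun j _ => ?_
    rw [hfK, zero_mul, mul_zero]
  have hcupK : ∀ S, PC.cupS βK S = PC.bc Q.U (KF.cst k (∅ : Set I)) (PC.cupS β S) := by
    intro S
    rw [PC.bc_cupS]
    congr 1
    funext a
    exact hβK'' a
  have hcupK' : ∀ S, PC.bc Q.U (KF.cc k (∅ : Set I)) (PC.cupS βK S) = PC.cupS β S := by
    intro S
    rw [PC.bc_cupS]
    congr 1
    funext a
    exact hβK' a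
  -- support of the products
  have hcupsupp : ∀ S, PC.Supp Q.U (∑ j ∈ S, (2 * m j - 1)) (PC.cupS β S) := by
    intro S l hl
    have h1 := PC.cupS_hom (T := Q.U) hh' S l
    have h2 : PC.cupS β S = PC.bc Q.U (KF.cc k I) (PC.cupS β' S) := (PC.bc_cupS _ _ _).symm
    rw [h2]
    refine KF.cc_gc ?_ h1
    have h3 : ((∑ j ∈ S, (2 * m j - 1) : ℕ) : ℤ) = ∑ j ∈ S, (2 * (m j : ℤ) - 1) := by
      push_cast
      refine Finset.sum_congr rfl fun j _ => ?_
      have := hm1 j
      omega
    omega
  have hcast : ∀ S : Finset (Fin r), ((∑ j ∈ S, (2 * m j - 1) : ℕ) : ℤ)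
      = ∑ j ∈ S, (2 * (m j : ℤ) - 1) := by
    intro S
    push_cast
    refine Finset.sum_congr rfl fun j _ => ?_
    have := hm1 j
    omega
  refine ⟨β, fun j => ⟨hmem j, hsupp j, hb j⟩, ?_, ?_, ?_⟩
  · -- anticommutation
    intro i j
    have hz : PC.D Q.U X (PC.cup Q.U (β' i) (β' j) + PC.cup Q.U (β' j) (β' i)) = 0 := by
      rw [PC.D_add, PC.D_cup (hβ' i) (hβ' j), PC.D_cup (hβ' j) (hβ' i), hD' i, hD' j, hsg i, hsg j]
      have hn : ∀ g : List Q.U.A → MvPolynomial I k, -g = (-1 : MvPolynomial I k) • g := by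
        intro g; rw [neg_one_smul]
      rw [hn (β' i), hn (β' j)]
      simp only [PC.cup_smul_left, PC.cup_smul_right, PC.unit_cup, PC.cup_unit]
      funext l
      simp only [Pi.add_apply, Pi.smul_apply, smul_eq_mul, Pi.zero_apply]
      ring
    have hzm : PC.cup Q.U (β' i) (β' j) + PC.cup Q.U (β' j) (β' i) ∈ PC.Coc Q.U (MvPolynomial I k) :=
      Submodule.add_mem _ (PC.cup_mem (hβ' i) (hβ' j)) (PC.cup_mem (hβ' j) (hβ' i))
    have hzh : PC.Hom Q.U (2 * ((m i + m j - 1 : ℕ) : ℤ))
        (PC.cup Q.U (β' i) (β' j) + PC.cup Q.U (β' j) (β' i)) := by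
      have e1 := (hh' i).cup (hh' j)
      have e2 := (hh' j).cup (hh' i)
      have := hm1 i; have := hm1 j
      have e3 : (2 * ((m i + m j - 1 : ℕ) : ℤ)) = 2 * (m i : ℤ) - 1 + (2 * (m j : ℤ) - 1) := by
        omega
      have e4 : (2 * ((m i + m j - 1 : ℕ) : ℤ)) = 2 * (m j : ℤ) - 1 + (2 * (m i : ℤ) - 1) := by
        omega
      refine PC.Hom.add ?_ ?_
      · rw [e3]; exact e1
      · rw [e4]; exact e2
    obtain ⟨p, g, hp, hg, hgh, he⟩ := hP.gen hzm hzh hz
    refine ⟨PC.bc Q.U (KF.cc k I) g, PC.bc_mem _ hg, ?_, ?_⟩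
    · intro l hl
      refine KF.cc_gc ?_ (hgh l)
      have := h.two_le Q.toCDatum i; have := h.two_le Q.toCDatum j
      omega
    · have h1 := congrArg (PC.bc Q.U (KF.cc k I)) he
      have h2 : ∀ (a b : List Q.U.A → MvPolynomial I k), PC.bc Q.U (KF.cc k I) (a + b)
          = PC.bc Q.U (KF.cc k I) a + PC.bc Q.U (KF.cc k I) b := by
        intro a b; funext l
        exact map_add _ _ _
      rw [h2, h2, PC.bc_cup, PC.bc_cup, hccD] at h1
      have h3 : PC.bc Q.U (KF.cc k I) (p • PC.unit Q.U (MvPolynomial I k)) = 0 := by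
        funext l
        show KF.cc k I (p * PC.unit Q.U (MvPolynomial I k) l) = 0
        have := hm1 i; have := hm1 j
        have h4 := h.two_le Q.toCDatum i
        rw [map_mul, KF.cc_hom (by omega) hp, zero_mul]
      rw [h3, zero_add] at h1
      exact h1
  · -- spanning
    intro n c hc hcs hbc
    obtain ⟨v, c', hv, hc', hch', -, he⟩ := hQI n (PC.bc Q.U (KF.cst k (∅ : Set I)) c) 0
      (PC.bc_mem _ hc)
      (by
        intro l
        show gc _ (MvPolynomial.C (c l)) = MvPolynomial.C (c l)
        by_cases hl : l.length = n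
        · rw [hl, sub_self, KF.gc_C]
        · rw [hcs l hl, map_zero, map_zero])
      (fun S => by rw [Pi.zero_apply, map_zero])
      (by
        have h1 := PC.bc_D (T := Q.U) (KF.cst k (∅ : Set I)) (ξ := (0 : I → k)) c
        have h2 : (fun i : I => KF.cst k (∅ : Set I) ((0 : I → k) i)) = 0 := by
          funext i; exact map_zero _
        rw [h2, PC.D_zero_ξ, hbc] at h1
        rw [hxK, ← h1, KF.Psi_zero]
        funext l; exact map_zero _)
      (hkd0 0)
    refine ⟨fun S => KF.cc k _ (v S), PC.bc Q.U (KF.cc k (∅ : Set I)) c', ?_, PC.bc_mem _ hc', ?_, ?_⟩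
    · intro S hS
      by_contra hne
      apply hS
      have h1 : v S = 0 := by
        refine KF.gc_empty (hv S) ?_
        rw [← hcast S]
        omega
      simp only [h1, map_zero]
    · intro l hl
      have h1 : c' l = 0 := by
        refine KF.gc_empty (hch' l) ?_
        omega
      show KF.cc k _ (c' l) = 0
      rw [h1, map_zero]
    · have h1 : c = PC.bc Q.U (KF.cc k (∅ : Set I)) (PC.bc Q.U (KF.cst k (∅ : Set I)) c) := by
        funext l; exact (KF.cc_C (c l)).symm
      have h2 : ∀ (a b : List Q.U.A → MvPolynomial (∅ : Set I) k), PC.bc Q.U (KF.cc k (∅ : Set I)) (a + b)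
          = PC.bc Q.U (KF.cc k (∅ : Set I)) a + PC.bc Q.U (KF.cc k (∅ : Set I)) b := by
        intro a b; funext l
        exact map_add _ _ _
      rw [h1, he, h2, PC.bc_Psi, PC.bc_D, hxK]
      have h3 : (fun i : I => KF.cc k (∅ : Set I) ((0 : I → MvPolynomial (∅ : Set I) k) i)) = 0 := by
        funext i; exact map_zero _
      rw [h3, PC.D_zero_ξ]
      congr 1
      unfold PC.Psi
      refine Finset.sum_congr rfl fun S _ => ?_
      congr 2
      funext a
      exact hβK' a
  · -- independence
    intro t w hw he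
    -- the empty set
    have hunit : ∀ S : Finset (Fin r), S ≠ ∅ → PC.cupS β S [] = 0 := by
      intro S hS
      refine hcupsupp S [] ?_
      obtain ⟨s, hs⟩ := Finset.nonempty_iff_ne_empty.2 hS
      have h1 := Finset.single_le_sum (f := fun j => 2 * m j - 1) (fun j _ => Nat.zero_le _) hs
      have := hm1 s
      simp only [List.length_nil]
      omega
    have ht0 : t ∅ = 0 := by
      have h1 := congrFun he []
      rw [Finset.sum_apply, Finset.sum_eq_single ∅] at h1
      · rw [KF.cupS_empty] at h1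
        simpa [PC.unit, PC.b] using h1
      · intro S _ hS
        rw [Pi.smul_apply, hunit S hS, smul_zero]
      · intro h2; exact absurd (Finset.mem_univ _) h2
    -- the other degrees
    have hdeg : ∀ (n : ℕ) (S : Finset (Fin r)), ∑ j ∈ S, (2 * m j - 1) = n + 1 → t S = 0 := by
      intro n S0 hS0
      set wn : List Q.U.A → k := fun l => if l.length = n then w l else 0 with hwn
      have hwnm : wn ∈ PC.Coc Q.U k := by
        refine ⟨⟨fun l₁ l₂ a b => ?_, fun l₁ l₂ s a => ?_⟩, fun i l => ?_⟩
        · simp only [hwn, List.length_append, List.length_cons]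
          split_ifs
          · exact hw.1.1 l₁ l₂ a b
          · simp
        · simp only [hwn, List.length_append, List.length_cons]
          split_ifs
          · exact hw.1.2 l₁ l₂ s a
          · simp
        · simp only [hwn, List.length_map]
          split_ifs
          · exact hw.2 i l
          · rfl
      have hbw : PC.b Q.U wn = ∑ S, (if ∑ j ∈ S, (2 * m j - 1) = n + 1 then t S else 0) • PC.cupS β S := by
        have hsplit : w = wn + (w - wn) := by abel
        funext l
        by_cases hl : l.length = n + 1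
        · -- (w - wn) contributes nothing
          have h1 : PC.b Q.U (w - wn) l = 0 := by
            refine KF.b_local (w - wn) l (fun l' hl' => ?_)
            have : l'.length = n := by omega
            simp [hwn, this]
          have h2 : PC.b Q.U wn l = PC.b Q.U w l := by
            have h3 := congrFun (PC.D_add (T := Q.U) (ξ := (0 : I → k)) wn (w - wn)) l
            rw [PC.D_zero_ξ, PC.D_zero_ξ, PC.D_zero_ξ, ← hsplit, Pi.add_apply, h1, add_zero] at h3
            exact h3.symm
          rw [h2, ← he, Finset.sum_apply, Finset.sum_apply]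
          refine Finset.sum_congr rfl fun S _ => ?_
          rw [Pi.smul_apply, Pi.smul_apply]
          by_cases hS : ∑ j ∈ S, (2 * m j - 1) = n + 1
          · rw [if_pos hS]
          · rw [if_neg hS, zero_smul, hcupsupp S l (by omega), smul_zero]
        · have h1 : PC.b Q.U wn l = 0 :=
            PC.b_supp (n := n) (fun l hl => by simp [hwn, hl]) l hl
          rw [h1, Finset.sum_apply]
          symm
          refine Finset.sum_eq_zero fun S _ => ?_
          rw [Pi.smul_apply]
          by_cases hS : ∑ j ∈ S, (2 * m j - 1) = n + 1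
          · rw [hcupsupp S l (by omega), smul_zero]
          · rw [if_neg hS, zero_smul]
      obtain ⟨v, c', -, -, -, hkv, -⟩ := hQI n (PC.bc Q.U (KF.cst k (∅ : Set I)) wn)
        (fun S => MvPolynomial.C (if ∑ j ∈ S, (2 * m j - 1) = n + 1 then t S else 0))
        (PC.bc_mem _ hwnm)
        (by
          intro l
          show gc _ (MvPolynomial.C (wn l)) = MvPolynomial.C (wn l)
          by_cases hl : l.length = n
          · rw [hl, sub_self, KF.gc_C]
          · have : wn l = 0 := by simp [hwn, hl]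
            rw [this, map_zero, map_zero])
        (fun S => by
          by_cases hS : ∑ j ∈ S, (2 * m j - 1) = n + 1
          · have h1 : (n : ℤ) + 1 - ∑ j ∈ S, (2 * (m j : ℤ) - 1) = 0 := by
              rw [← hcast S, hS]; push_cast; ring
            rw [h1, KF.gc_C]
          · rw [if_neg hS, map_zero, map_zero])
        (by
          have h1 := PC.bc_D (T := Q.U) (KF.cst k (∅ : Set I)) (ξ := (0 : I → k)) wn
          have h2 : (fun i : I => KF.cst k (∅ : Set I) ((0 : I → k) i)) = 0 := by
            funext i; exact map_zero _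
          rw [h2, PC.D_zero_ξ, hbw] at h1
          rw [hxK, ← h1]
          unfold PC.Psi
          funext l
          show MvPolynomial.C ((∑ S, (if ∑ j ∈ S, (2 * m j - 1) = n + 1 then t S else 0) •
            PC.cupS β S) l) = _
          rw [Finset.sum_apply, Finset.sum_apply, map_sum]
          refine Finset.sum_congr rfl fun S _ => ?_
          have h3 : PC.cupS (fun a => PC.cJ Q.U ∅ (β' a)) S l = MvPolynomial.C (PC.cupS β S l) :=
            congrFun (hcupK S) l
          rw [Pi.smul_apply, Pi.smul_apply, smul_eq_mul, smul_eq_mul, map_mul, h3])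
        (hkd0 _)
      have h1 := congrFun hkv S0
      rw [hkd0 v, Pi.zero_apply, if_pos hS0] at h1
      exact (MvPolynomial.C_eq_zero.1 h1.symm)
    funext S
    by_cases hS : S = ∅
    · rw [hS, ht0]; rfl
    · obtain ⟨s, hs⟩ := Finset.nonempty_iff_ne_empty.2 hS
      have h1 := Finset.single_le_sum (f := fun j => 2 * m j - 1) (fun j _ => Nat.zero_le _) hs
      have := hm1 s
      exact hdeg (∑ j ∈ S, (2 * m j - 1) - 1) S (by omega)

end Pool.Agent.Lib.QG
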