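import Pool.Agent.Lib.MP_021f05_al.Ind2
import Pool.Agent.Lib.MP_021f05_al.KosFin
import Pool.Agent.Lib.MP_021f05_al.InvAll
import Pool.Agent.Lib.MP_021f05_al.ExtBar
import Pool.Agent.Lib.MP_021f05_al.ExtRing
import Pool.Agent.Lib.MP_021f05_al.ExtAlg

/-!
# MP_021f05_al (K3): the Yoneda algebra of the trivial module is an exterior algebra
-/

noncomputable section

namespace Pool.Agent.Lib.QG

open MvPolynomial CategoryTheory DirectSum

section pb

variable {k : Type} [Field k] {I : Type} {T T' : TAlg k I}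

/-- pullback of cochains -/
def YFin_pb (φ : THom T' T) (f : List T.A → k) : List T'.A → k := fun l => f (l.map φ.f)

lemma YFin_pb_dd (φ : THom T' T) (l : List T'.A) (f : List T.A → k) :
    PC.dd T' l (YFin_pb φ f) = PC.dd T (l.map φ.f) f := by
  induction l generalizing f with
  | nil => rfl
  | cons a l ih =>
    have h1 : PC.act T' (YFin_pb φ f) a l = PC.act T f (φ.f a) (l.map φ.f) := by
      cases l with
      | nil => simp [PC.act, YFin_pb, φ.f_ε]
      | cons a' l => simp [PC.act, YFin_pb, map_mul]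
    have h2 : PC.tl T' (YFin_pb φ f) a = YFin_pb φ (PC.tl T f (φ.f a)) := rfl
    simp only [PC.dd, List.map_cons]
    rw [h1, h2, ih]

lemma YFin_pb_b (φ : THom T' T) (f : List T.A → k) :
    PC.b T' (YFin_pb φ f) = YFin_pb φ (PC.b T f) := by
  funext l
  cases l with
  | nil => rfl
  | cons a l =>
    have h := YFin_pb_dd φ (a :: l) f
    show T'.ε a • YFin_pb φ f l + PC.dd T' (a :: l) (YFin_pb φ f)
      = T.ε (φ.f a) • f (l.map φ.f) + PC.dd T (φ.f a :: l.map φ.f) f
    rw [h, φ.f_ε]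
    rfl

lemma YFin_pb_cup (φ : THom T' T) (f g : List T.A → k) :
    PC.cup T' (YFin_pb φ f) (YFin_pb φ g) = YFin_pb φ (PC.cup T f g) := by
  funext l
  induction l generalizing f with
  | nil => rfl
  | cons a l ih =>
    have h := ih (fun l' => f (φ.f a :: l'))
    show YFin_pb φ f [] * YFin_pb φ g (a :: l)
        + PC.cup T' (YFin_pb φ (fun l' => f (φ.f a :: l'))) (YFin_pb φ g) l
      = f [] * g (φ.f a :: l.map φ.f)
        + PC.cup T (fun l' => f (φ.f a :: l')) g (l.map φ.f)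
    rw [h]
    rfl

lemma YFin_pb_unit (φ : THom T' T) :
    YFin_pb φ (PC.unit T k) = PC.unit T' k := by
  funext l
  cases l <;> rfl

lemma YFin_pb_ml (φ : THom T' T) {f : List T.A → k} (hf : PC.IsML T f) :
    PC.IsML T' (YFin_pb φ f) := by
  refine ⟨fun l₁ l₂ a b => ?_, fun l₁ l₂ t a => ?_⟩
  · simp only [YFin_pb, List.map_append, List.map_cons, map_add]
    exact hf.1 _ _ _ _
  · simp only [YFin_pb, List.map_append, List.map_cons, map_smul]
    exact hf.2 _ _ _ _

lemma YFin_pb_supp (φ : THom T' T) {n : ℕ} {f : List T.A → k} (hf : PC.Supp T n f) :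
    PC.Supp T' n (YFin_pb φ f) := fun l hl => hf _ (by rwa [List.length_map])

lemma YFin_pb_supp' (φ : THom T' T) {n : ℕ} {f : List T.A → k}
    (hf : ∀ l, l.length + 1 ≠ n → f l = 0) :
    ∀ l, l.length + 1 ≠ n → YFin_pb φ f l = 0 := fun l hl => hf _ (by rwa [List.length_map])

lemma YFin_pb_foldr (φ : THom T' T) (L : List (List T.A → k)) :
    (L.map (YFin_pb φ)).foldr (PC.cup T') (PC.unit T' k)
      = YFin_pb φ (L.foldr (PC.cup T) (PC.unit T k)) := by
  induction L with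
  | nil => exact (YFin_pb_unit φ).symm
  | cons f L ih =>
    rw [List.map_cons, List.foldr_cons, ih, YFin_pb_cup, List.foldr_cons]

lemma YFin_pb_cupS (φ : THom T' T) {r : ℕ} (β : Fin r → (List T.A → k)) (S : Finset (Fin r)) :
    PC.cupS (fun j => YFin_pb φ (β j)) S = YFin_pb φ (PC.cupS β S) := by
  unfold PC.cupS
  rw [← YFin_pb_foldr, List.map_map]
  rfl

lemma YFin_pb_sum (φ : THom T' T) {r : ℕ} (β : Fin r → (List T.A → k))
    (t : Finset (Fin r) → k) :
    ∑ S, t S • PC.cupS (fun j => YFin_pb φ (β j)) S = YFin_pb φ (∑ S, t S • PC.cupS β S) := by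
  funext l
  simp only [YFin_pb_cupS, YFin_pb, Finset.sum_apply, Pi.smul_apply]

/-- the inverse of a bijective morphism -/
def YFin_inv (φ : THom T' T) (hφ : Function.Bijective φ.f) : THom T T' where
  f := (AlgEquiv.ofBijective φ.f hφ).symm.toAlgHom
  f_K i := by
    show (AlgEquiv.ofBijective φ.f hφ).symm (T.K i : T.A) = T'.K i
    rw [AlgEquiv.symm_apply_eq]
    exact (φ.f_K i).symm
  f_ε a := by
    show T'.ε ((AlgEquiv.ofBijective φ.f hφ).symm a) = T.ε a
    rw [← φ.f_ε]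
    congr 1
    exact (AlgEquiv.ofBijective φ.f hφ).apply_symm_apply a

lemma YFin_inv_left (φ : THom T' T) (hφ : Function.Bijective φ.f) (a : T'.A) :
    (YFin_inv φ hφ).f (φ.f a) = a := (AlgEquiv.ofBijective φ.f hφ).symm_apply_apply a

lemma YFin_inv_right (φ : THom T' T) (hφ : Function.Bijective φ.f) (a : T.A) :
    φ.f ((YFin_inv φ hφ).f a) = a := (AlgEquiv.ofBijective φ.f hφ).apply_symm_apply a

lemma YFin_pb_inv (φ : THom T' T) (hφ : Function.Bijective φ.f) (f : List T.A → k) :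
    YFin_pb (YFin_inv φ hφ) (YFin_pb φ f) = f := by
  funext l
  show f ((l.map (YFin_inv φ hφ).f).map φ.f) = f l
  rw [List.map_map]
  congr 1
  conv_rhs => rw [← List.map_id l]
  exact List.map_congr_left fun a _ => YFin_inv_right φ hφ a

lemma YFin_pb_inv' (φ : THom T' T) (hφ : Function.Bijective φ.f) (f : List T'.A → k) :
    YFin_pb φ (YFin_pb (YFin_inv φ hφ) f) = f := by
  funext l
  show f ((l.map φ.f).map (YFin_inv φ hφ).f) = f l
  rw [List.map_map]
  congr 1
  conv_rhs => rw [← List.map_id l]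
  exact List.map_congr_left fun a _ => YFin_inv_left φ hφ a

lemma YFin_pb_BZ (φ : THom T' T) {n : ℕ} {f : List T.A → k} (hf : f ∈ BZ T n) :
    YFin_pb φ f ∈ BZ T' n := by
  refine ⟨YFin_pb_ml φ hf.1, YFin_pb_supp φ hf.2.1, ?_⟩
  rw [YFin_pb_b, hf.2.2]
  rfl

end pb

section abs

lemma YFin_neg {k : Type} [Field k] {H : Type*} [AddCommMonoid H] [Module k H] {a b : H}
    (h : a + b = 0) : a = (-1 : k) • b := by
  have h1 : b + (-1 : k) • b = 0 := by
    nth_rewrite 1 [← one_smul k b]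
    rw [← add_smul, add_neg_cancel, zero_smul]
  calc a = a + (b + (-1 : k) • b) := by rw [h1, add_zero]
    _ = (-1 : k) • b := by rw [← add_assoc, h, zero_add]

lemma YFin_comm {k : Type} [Field k] {H : Type*} [Semiring H] [Algebra k H] {r : ℕ}
    (y : Fin r → H) (h : ∀ i j, y i * y j + y j * y i = 0) (a : Fin r) (l : List (Fin r)) :
    ∃ e : k, e ≠ 0 ∧ (l.map y).prod * y a = e • (y a * (l.map y).prod) := by
  induction l with
  | nil => exact ⟨1, one_ne_zero, by simp⟩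
  | cons b l ih =>
    obtain ⟨e, he, hl⟩ := ih
    refine ⟨-e, neg_ne_zero.mpr he, ?_⟩
    have hb : y b * y a = (-1 : k) • (y a * y b) := YFin_neg (h b a)
    rw [List.map_cons, List.prod_cons, mul_assoc, hl, mul_smul_comm, ← mul_assoc, hb,
      smul_mul_assoc, smul_smul, mul_assoc, mul_neg, mul_one]

lemma YFin_rev {k : Type} [Field k] {H : Type*} [Semiring H] [Algebra k H] {r : ℕ}
    (y : Fin r → H) (h : ∀ i j, y i * y j + y j * y i = 0) (l : List (Fin r)) :
    ∃ e : k, e ≠ 0 ∧ (l.reverse.map y).prod = e • (l.map y).prod := by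
  induction l with
  | nil => exact ⟨1, one_ne_zero, by simp⟩
  | cons a l ih =>
    obtain ⟨e, he, hl⟩ := ih
    obtain ⟨e', he', hl'⟩ := YFin_comm (k := k) y h a l
    refine ⟨e * e', mul_ne_zero he he', ?_⟩
    rw [List.reverse_cons, List.map_append, List.prod_append, hl, List.map_cons, List.map_nil,
      List.prod_singleton, smul_mul_assoc, hl', smul_smul, List.map_cons, List.prod_cons]

variable {k : Type} [Field k] {I : Type} {T : TAlg k I} {Y : ℕ → Type*}
  [∀ n, AddCommGroup (Y n)] [∀ n, Module k (Y n)] [DirectSum.GSemiring Y]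
  [DirectSum.GAlgebra k Y]

omit [GSemiring Y] [GAlgebra k Y] in
lemma YFin_cast (Φ : ∀ n : ℕ, BZ T n →ₗ[k] Y n) {m n : ℕ} (h : m = n) {c : List T.A → k}
    (hc : c ∈ BZ T m) (hc' : c ∈ BZ T n) :
    DirectSum.of Y m (Φ m ⟨c, hc⟩) = DirectSum.of Y n (Φ n ⟨c, hc'⟩) := by
  subst h
  rfl

lemma YFin_sort {r : ℕ} (d : Fin r → ℕ) (S : Finset (Fin r)) :
    ((S.sort (· ≤ ·)).map d).sum = ∑ j ∈ S, d j := by
  rw [← List.sum_toFinset d (Finset.sort_nodup S (· ≤ ·)), Finset.sort_toFinset]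

theorem YFin_abs [CharZero k] (Φ : ∀ n : ℕ, BZ T n →ₗ[k] Y n)
    (hsurj : ∀ n, Function.Surjective (Φ n))
    (hker : ∀ n (z : BZ T n), Φ n z = 0 ↔ ∃ w : List T.A → k, PC.IsML T w ∧
        (∀ l, l.length + 1 ≠ n → w l = 0) ∧ PC.b T w = z.1)
    (hone : DirectSum.of Y 0 (Φ 0 ⟨PC.unit T k, unit_mem_BZ T⟩) = 1)
    (hmul : ∀ (p q : ℕ) (f : BZ T p) (g : BZ T q),
        DirectSum.of Y q (Φ q g) * DirectSum.of Y p (Φ p f)
          = DirectSum.of Y (p + q) (Φ (p + q) ⟨PC.cup T f.1 g.1, cup_mem_BZ f.2 g.2⟩))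
    {r : ℕ} (d : Fin r → ℕ) (β : Fin r → (List T.A → k))
    (hβ : ∀ j, β j ∈ BZ T (d j))
    (hanti : ∀ i j, ∃ w : List T.A → k, PC.IsML T w ∧
      (∀ l, l.length + 1 ≠ d i + d j → w l = 0) ∧
      PC.cup T (β i) (β j) + PC.cup T (β j) (β i) = PC.b T w)
    (hspan : ∀ (n : ℕ) (c : List T.A → k), c ∈ BZ T n →
      ∃ (t : Finset (Fin r) → k) (w : List T.A → k),
          (∀ S, t S ≠ 0 → ∑ j ∈ S, d j = n) ∧ PC.IsML T w ∧
          (∀ l, l.length + 1 ≠ n → w l = 0) ∧
          c = (∑ S, t S • PC.cupS β S) + PC.b T w)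
    (hind : ∀ (t : Finset (Fin r) → k) (w : List T.A → k), PC.IsML T w →
        (∑ S, t S • PC.cupS β S) = PC.b T w → t = 0) :
    ∃ ψ : ExteriorAlgebra k (Fin r → k) ≃ₐ[k] (⨁ n, Y n),
      ∀ j, ψ (ExteriorAlgebra.ι k (Pi.single j 1))
        = DirectSum.of Y (d j) (Φ (d j) ⟨β j, hβ j⟩) := by
  classical
  set y : Fin r → (⨁ n, Y n) := fun j => DirectSum.of Y (d j) (Φ (d j) ⟨β j, hβ j⟩) with hy
  have hyy : ∀ i j, y i * y j + y j * y i = 0 := by
    intro i j
    have h1 : y i * y j = DirectSum.of Y (d i + d j) (Φ (d i + d j)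
        ⟨PC.cup T (β j) (β i), by
          have := cup_mem_BZ (hβ j) (hβ i)
          rwa [add_comm] at this⟩) := by
      rw [hy]
      refine (hmul (d j) (d i) ⟨β j, hβ j⟩ ⟨β i, hβ i⟩).trans ?_
      exact YFin_cast Φ (add_comm _ _) _ _
    have h2 : y j * y i = DirectSum.of Y (d i + d j) (Φ (d i + d j)
        ⟨PC.cup T (β i) (β j), cup_mem_BZ (hβ i) (hβ j)⟩) :=
      hmul (d i) (d j) ⟨β i, hβ i⟩ ⟨β j, hβ j⟩
    rw [h1, h2, ← map_add, ← map_add]
    obtain ⟨w, hw1, hw2, hw3⟩ := hanti i j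
    have h3 : Φ (d i + d j) (⟨PC.cup T (β j) (β i), by
          have := cup_mem_BZ (hβ j) (hβ i)
          rwa [add_comm] at this⟩ + ⟨PC.cup T (β i) (β j), cup_mem_BZ (hβ i) (hβ j)⟩) = 0 := by
      rw [hker]
      refine ⟨w, hw1, hw2, ?_⟩
      rw [← hw3, add_comm]
      rfl
    rw [h3, map_zero]
  have hy2 : ∀ i, y i * y i = 0 := by
    intro i
    have h := hyy i i
    rw [← two_smul k (y i * y i)] at h
    have h2 : (2 : k) ≠ 0 := two_ne_zero
    calc y i * y i = (2 : k)⁻¹ • ((2 : k) • (y i * y i)) := by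
          rw [smul_smul, inv_mul_cancel₀ h2, one_smul]
      _ = 0 := by rw [h, smul_zero]
  have hA : ∀ l : List (Fin r), ∃ h : (l.map β).foldr (PC.cup T) (PC.unit T k)
      ∈ BZ T (l.map d).sum, DirectSum.of Y (l.map d).sum (Φ (l.map d).sum ⟨_, h⟩)
        = (l.reverse.map y).prod := by
    intro l
    induction l with
    | nil => exact ⟨unit_mem_BZ T, hone⟩
    | cons a l ih =>
      obtain ⟨h, hl⟩ := ih
      refine ⟨cup_mem_BZ (hβ a) h, ?_⟩
      have e1 : ((a :: l).reverse.map y).prod = (l.reverse.map y).prod * y a := by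
        rw [List.reverse_cons, List.map_append, List.prod_append, List.map_cons,
          List.map_nil, List.prod_singleton]
      have e2 := hmul (d a) (l.map d).sum ⟨β a, hβ a⟩ ⟨_, h⟩
      rw [hl] at e2
      exact e2.symm.trans e1.symm
  have hC : ∀ S : Finset (Fin r), ∃ h : PC.cupS β S ∈ BZ T (∑ j ∈ S, d j), ∃ e : k, e ≠ 0 ∧
      DirectSum.of Y (∑ j ∈ S, d j) (Φ (∑ j ∈ S, d j) ⟨PC.cupS β S, h⟩)
        = e • ((S.sort (· ≤ ·)).map y).prod := by
    intro S
    obtain ⟨h, hl⟩ := hA (S.sort (· ≤ ·))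
    obtain ⟨e, he, hl'⟩ := YFin_rev (k := k) y hyy (S.sort (· ≤ ·))
    have h' : PC.cupS β S ∈ BZ T (∑ j ∈ S, d j) := by
      rw [← YFin_sort d S]
      exact h
    refine ⟨h', e, he, ?_⟩
    rw [← hl', ← hl]
    exact YFin_cast Φ (YFin_sort d S).symm _ _
  choose hS e he hθ using hC
  -- the cochains of degree `n`
  let zz : ∀ n : ℕ, Finset (Fin r) → BZ T n := fun n S =>
    if h : ∑ j ∈ S, d j = n then ⟨PC.cupS β S, h ▸ hS S⟩ else 0
  have hzz : ∀ n S, ((zz n S : BZ T n) : List T.A → k)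
      = if ∑ j ∈ S, d j = n then PC.cupS β S else 0 := by
    intro n S
    by_cases h : ∑ j ∈ S, d j = n
    · simp only [zz, dif_pos h, if_pos h]
    · simp only [zz, dif_neg h, if_neg h]
      rfl
  have hzz2 : ∀ n S, DirectSum.of Y n (Φ n (zz n S))
      = if ∑ j ∈ S, d j = n then e S • ((S.sort (· ≤ ·)).map y).prod else 0 := by
    intro n S
    by_cases h : ∑ j ∈ S, d j = n
    · subst h
      simp only [zz, dif_pos, if_pos]
      exact hθ S
    · simp only [zz, dif_neg h, if_neg h, map_zero]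
  have hzz3 : ∀ n S, (DirectSum.of Y (∑ j ∈ S, d j)
      (Φ (∑ j ∈ S, d j) ⟨PC.cupS β S, hS S⟩) : ⨁ n, Y n) n = Φ n (zz n S) := by
    intro n S
    by_cases h : ∑ j ∈ S, d j = n
    · subst h
      simp only [zz, dif_pos, DirectSum.of_eq_same]
    · simp only [zz, dif_neg h, map_zero]
      exact DirectSum.of_eq_of_ne _ _ _ (Ne.symm h)
  have hb : LinearIndependent k
      (fun S : Finset (Fin r) => ((S.sort (· ≤ ·)).map y).prod) := by
    rw [Fintype.linearIndependent_iff]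
    intro g hg S₀
    set n := ∑ j ∈ S₀, d j with hn
    have hP : ∀ S : Finset (Fin r), ((S.sort (· ≤ ·)).map y).prod
        = (e S)⁻¹ • DirectSum.of Y (∑ j ∈ S, d j)
          (Φ (∑ j ∈ S, d j) ⟨PC.cupS β S, hS S⟩) := by
      intro S
      rw [hθ S, smul_smul, inv_mul_cancel₀ (he S), one_smul]
    have h1 : Φ n (∑ S, (g S * (e S)⁻¹) • zz n S) = 0 := by
      rw [map_sum]
      have h2 : (DirectSum.component k ℕ Y n)
          (∑ S, g S • ((S.sort (· ≤ ·)).map y).prod) = 0 := by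
        rw [hg, map_zero]
      rw [map_sum] at h2
      rw [← h2]
      refine Finset.sum_congr rfl fun S _ => ?_
      rw [map_smul, map_smul, hP S, map_smul, smul_smul]
      congr 1
      exact (hzz3 n S).symm
    rw [hker] at h1
    obtain ⟨w, hw1, hw2, hw3⟩ := h1
    have h4 := hind (fun S => if ∑ j ∈ S, d j = n then g S * (e S)⁻¹ else 0) w hw1 (by
      rw [hw3]
      simp only [Submodule.coe_sum, Submodule.coe_smul, hzz]
      refine Finset.sum_congr rfl fun S _ => ?_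
      by_cases h : ∑ j ∈ S, d j = n
      · simp only [if_pos h]
      · simp only [if_neg h, zero_smul, smul_zero])
    have h5 := congrFun h4 S₀
    simp only [← hn, if_true, Pi.zero_apply] at h5
    exact (mul_eq_zero.mp h5).resolve_right (inv_ne_zero (he S₀))
  have hs : Submodule.span k (Set.range
      fun S : Finset (Fin r) => ((S.sort (· ≤ ·)).map y).prod) = ⊤ := by
    rw [eq_top_iff]
    rintro x -
    induction x using DirectSum.induction_on with
    | zero => exact Submodule.zero_mem _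
    | add x₁ x₂ h1 h2 => exact Submodule.add_mem _ h1 h2
    | of n a =>
      obtain ⟨c, rfl⟩ := hsurj n a
      obtain ⟨t, w, ht, hw1, hw2, hc⟩ := hspan n c.1 c.2
      have h1 : Φ n c = Φ n (∑ S, t S • zz n S) := by
        rw [← sub_eq_zero, ← map_sub, hker]
        refine ⟨w, hw1, hw2, ?_⟩
        rw [Submodule.coe_sub, hc]
        simp only [Submodule.coe_sum, Submodule.coe_smul, hzz]
        have h2 : ∑ S, t S • PC.cupS β S
            = ∑ S, t S • (if ∑ j ∈ S, d j = n then PC.cupS β S else 0) := by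
          refine Finset.sum_congr rfl fun S _ => ?_
          by_cases h : ∑ j ∈ S, d j = n
          · rw [if_pos h]
          · have : t S = 0 := by
              by_contra h0
              exact h (ht S h0)
            rw [this, zero_smul, zero_smul]
        rw [← h2, add_sub_cancel_left]
      rw [h1, map_sum, map_sum]
      refine Submodule.sum_mem _ fun S _ => ?_
      have h3 : DirectSum.of Y n (Φ n (t S • zz n S))
          = t S • DirectSum.of Y n (Φ n (zz n S)) := by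
        rw [map_smul]
        exact (DirectSum.lof k ℕ Y n).map_smul (t S) (Φ n (zz n S))
      rw [h3, hzz2]
      refine Submodule.smul_mem _ _ ?_
      split_ifs
      · exact Submodule.smul_mem _ _ (Submodule.subset_span ⟨S, rfl⟩)
      · exact Submodule.zero_mem _
  obtain ⟨ψ, hψ⟩ := exterior_equiv_of_basis y hyy hy2 hb hs
  exact ⟨ψ, hψ⟩

end abs

variable {k : Type} [Field k] [CharZero k] {I : Type} [Fintype I] [DecidableEq I] (Q : QD k I)

theorem yoneda_exterior (hP : PureH Q) (T : TAlg k I) (φ : THom T Q.U) (hφ : Function.Bijective φ.f) {r : ℕ}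
    {f : Fin r → MvPolynomial I k} {m : Fin r → ℕ} (h : IsBasic Q.toCDatum f m) :
    ∃ ψ : ExteriorAlgebra k (Fin r → k) ≃ₐ[k] (⨁ n, Stmt.Y (kk T) n),
      ∀ j, ∃ y : Stmt.Y (kk T) (2 * m j - 1),
        ψ (ExteriorAlgebra.ι k (Pi.single j 1)) = DirectSum.of (Stmt.Y (kk T)) (2 * m j - 1) y := by
  classical
  obtain ⟨Φ, hsurj, hker, hone, hmul⟩ := exists_ext_compare T
  obtain ⟨β, hβ, hanti, hspan, hind⟩ := Q.exists_bar_basis hP h
  have hwt : WtAlg Q Q.U := Q.wtAlg _ _
  set ρ : THom Q.U T := YFin_inv φ hφ with hρ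
  have hβ' : ∀ j, YFin_pb φ (β j) ∈ BZ T (2 * m j - 1) := fun j =>
    YFin_pb_BZ φ ⟨(hβ j).1.1, (hβ j).2.1, (hβ j).2.2⟩
  suffices key : ∃ ψ : ExteriorAlgebra k (Fin r → k) ≃ₐ[k] (⨁ n, Stmt.Y (kk T) n),
      ∀ j, ψ (ExteriorAlgebra.ι k (Pi.single j 1))
        = DirectSum.of (Stmt.Y (kk T)) (2 * m j - 1)
          (Φ (2 * m j - 1) ⟨YFin_pb φ (β j), hβ' j⟩) by
    obtain ⟨ψ, hψ⟩ := key
    exact ⟨ψ, fun j => ⟨_, hψ j⟩⟩
  refine YFin_abs (Y := Stmt.Y (kk T)) Φ hsurj hker ?_ ?_ (fun j => 2 * m j - 1)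
    (fun j => YFin_pb φ (β j)) hβ' ?_ ?_ ?_
  · rw [hone]
    exact Stmt.of_one' (kk T)
  · intro p q f g
    rw [Stmt.of_mul_of', ← hmul p q f g]
    have : ∀ {a b c : ℕ} (x : Stmt.Y (kk T) a) (y : Stmt.Y (kk T) b) (h : a + b = c),
        DirectSum.of (Stmt.Y (kk T)) (a + b) (Abelian.Ext.comp x y rfl)
          = DirectSum.of (Stmt.Y (kk T)) c (Abelian.Ext.comp x y h) := by
      intro a b c x y h
      subst h
      rfl
    exact this _ _ _
  · intro i j
    obtain ⟨w, hw1, hw2, hw3⟩ := hanti i j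
    refine ⟨YFin_pb φ w, YFin_pb_ml φ hw1.1, YFin_pb_supp' φ fun l hl => hw2 l ?_, ?_⟩
    · have := h.pos i
      have := h.pos j
      omega
    · rw [YFin_pb_cup, YFin_pb_cup, YFin_pb_b, ← hw3]
      rfl
  · intro n c hc
    have hc' : YFin_pb ρ c ∈ BZ Q.U n := YFin_pb_BZ ρ hc
    obtain ⟨g, hg1, hg2, hg3, w, hw1, hw2, hw3⟩ :=
      exists_inv_cocycle hwt hc'.1 hc'.2.1 hc'.2.2
    obtain ⟨t, w', ht, hw1', hw2', hg⟩ := hspan n g hg1 hg2 hg3
    refine ⟨t, YFin_pb φ (w' + w), ht, YFin_pb_ml φ ?_, YFin_pb_supp' φ ?_, ?_⟩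
    · refine ⟨fun l₁ l₂ a b => ?_, fun l₁ l₂ s a => ?_⟩
      · simp only [Pi.add_apply, hw1'.1.1, hw1.1]
        abel
      · simp only [Pi.add_apply, hw1'.1.2, hw1.2, smul_add]
    · intro l hl
      rw [Pi.add_apply, hw2' l hl, hw2 l hl, add_zero]
    · have hb : PC.b Q.U (w' + w) = PC.b Q.U w' + PC.b Q.U w := by
        have := PC.D_add (T := Q.U) (ξ := (0 : I → k)) w' w
        simpa only [PC.D_zero_ξ] using this
      rw [YFin_pb_sum, YFin_pb_b, hb]
      have h1 : YFin_pb φ (YFin_pb ρ c) = c := YFin_pb_inv' φ hφ c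
      rw [← h1, hw3, hg]
      funext l
      simp only [YFin_pb, Pi.add_apply, add_assoc]
  · intro t w hw ht
    have h1 : (∑ S, t S • PC.cupS β S) = PC.b Q.U (YFin_pb ρ w) := by
      have h2 := congrArg (YFin_pb ρ) ht
      rw [YFin_pb_sum, YFin_pb_inv, ← YFin_pb_b] at h2
      exact h2
    have hmem : (∑ S, t S • PC.cupS β S) ∈ PC.Coc Q.U k :=
      Submodule.sum_mem _ fun S _ => Submodule.smul_mem _ _ (PC.cupS_mem (fun j => (hβ j).1) S)
    obtain ⟨w', hw1, hw2⟩ := exists_inv_primitive hwt hmem (YFin_pb_ml ρ hw) h1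
    exact hind t w' hw1 hw2

end Pool.Agent.Lib.QG
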