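import Pool.Agent.Lib.MP_021f05_al.Expo
import Pool.Agent.Lib.MP_021f05_al.UIso
import Pool.Agent.Lib.MP_021f05_al.YFin
import Pool.Agent.Lib.MP_021f05_al.PureE

/-!
# MP_021f05_al: the final theorem
-/

noncomputable section

namespace Pool.Agent.Lib.QG

open MvPolynomial CategoryTheory DirectSum

variable {k : Type} [Field k] [CharZero k]

/-- the theorem for the combinatorial data -/
theorem main_datum {I : Type} [Fintype I] [DecidableEq I] (C : CDatum I) (ε : k) (h0 : ε ≠ 0)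
    (hε : ∀ n : ℕ, 0 < n → ε ^ n ≠ 1) :
    (∃ m : Fin (Fintype.card I) → ℕ, Stmt.IsExponents k C.a m) ∧
    ∀ (r : ℕ) (m : Fin r → ℕ), Stmt.IsExponents k C.a m →
      ∃ ψ : ExteriorAlgebra k (Fin r → k) ≃ₐ[k] (⨁ n, Stmt.Y (Stmt.trivMod C.a C.d ε) n),
        ∀ j, ∃ y : Stmt.Y (Stmt.trivMod C.a C.d ε) (2 * m j + 1),
          ψ (ExteriorAlgebra.ι k (Pi.single j 1))
            = DirectSum.of (Stmt.Y (Stmt.trivMod C.a C.d ε)) (2 * m j + 1) y := by
  refine ⟨exists_exponents C, fun r m hm => ?_⟩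
  let Q : QD k I := { toCDatum := C, q := ε, q_ne := h0, q_root := hε }
  obtain ⟨f, hf⟩ := isBasic_of_exponents (k := k) C hm
  obtain ⟨φ, hφ⟩ := exists_TU_iso Q
  obtain ⟨ψ, hψ⟩ := yoneda_exterior Q Q.pureH (TU Q) φ hφ hf
  refine ⟨ψ, fun j => ?_⟩
  obtain ⟨y, hy⟩ := hψ j
  exact ⟨y, hy⟩

end Pool.Agent.Lib.QG
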