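import Pool.Agent.Lib.MP_021f05_al.EDef

/-!
# MP_021f05_al: change of algebra, the trivial module, the unit class
-/

noncomputable section

namespace Pool.Agent.Lib.QG

open MvPolynomial

variable {k : Type} [Field k] {I : Type}

/-- morphisms of torus algebras -/
structure THom (T' T : TAlg k I) where
  f : T'.A →ₐ[k] T.A
  f_K : ∀ i, f (T'.K i : T'.A) = T.K i
  f_ε : ∀ a, T.ε (f a) = T'.ε a

variable {T' T : TAlg k I}

lemma THom.f_Kinv (φ : THom T' T) (i : I) :
    φ.f (((T'.K i)⁻¹ : T'.Aˣ) : T'.A) = ((T.K i)⁻¹ : T.Aˣ) := by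
  have h : φ.f (((T'.K i)⁻¹ : T'.Aˣ) : T'.A) * (T.K i : T.A) = 1 := by
    rw [← φ.f_K, ← map_mul, Units.inv_mul, map_one]
  calc φ.f (((T'.K i)⁻¹ : T'.Aˣ) : T'.A)
      = φ.f (((T'.K i)⁻¹ : T'.Aˣ) : T'.A) * ((T.K i : T.A) * ((T.K i)⁻¹ : T.Aˣ)) := by simp
    _ = ((T.K i)⁻¹ : T.Aˣ) := by rw [← mul_assoc, h, one_mul]

lemma THom.f_ad (φ : THom T' T) (i : I) (a : T'.A) : φ.f (T'.ad i a) = T.ad i (φ.f a) := by
  show φ.f ((T'.K i : T'.A) * a * ((T'.K i)⁻¹ : T'.Aˣ)) = (T.K i : T.A) * φ.f a * ((T.K i)⁻¹ : T.Aˣ)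
  rw [map_mul, map_mul, φ.f_K, φ.f_Kinv]

lemma THom.f_adi (φ : THom T' T) (i : I) (a : T'.A) : φ.f (T'.adi i a) = T.adi i (φ.f a) := by
  show φ.f (((T'.K i)⁻¹ : T'.Aˣ) * a * (T'.K i : T'.A)) = ((T.K i)⁻¹ : T.Aˣ) * φ.f a * (T.K i : T.A)
  rw [map_mul, map_mul, φ.f_K, φ.f_Kinv]

/-- composition -/
def THom.comp {T'' : TAlg k I} (φ : THom T' T) (ψ : THom T'' T') : THom T'' T where
  f := φ.f.comp ψ.f
  f_K i := by simp [ψ.f_K, φ.f_K]
  f_ε a := by simp [ψ.f_ε, φ.f_ε]

/-- restriction of modules -/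
def Mod.res (φ : THom T' T) (M : Mod T) : Mod T' :=
  letI : Module T'.A M.X := Module.compHom M.X φ.f.toRingHom
  { X := M.X
    tower := ⟨fun t a x => by
      show φ.f (t • a) • (show M.X from x) = t • φ.f a • (show M.X from x)
      rw [map_smul, smul_assoc]⟩ }

lemma Mod.res_smul (φ : THom T' T) (M : Mod T) (a : T'.A) (x : (M.res φ).X) :
    a • x = (show (M.res φ).X from (φ.f a • (show M.X from x) : M.X)) := rfl

/-- restriction of linear maps -/
def resMap (φ : THom T' T) {M N : Mod T} (f : M.X →ₗ[T.A] N.X) :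
    (M.res φ).X →ₗ[T'.A] (N.res φ).X where
  toFun := f
  map_add' := map_add f
  map_smul' a x := map_smul f (φ.f a) _

lemma resMap_apply (φ : THom T' T) {M N : Mod T} (f : M.X →ₗ[T.A] N.X) (x : M.X) :
    resMap φ f x = f x := rfl

/-- restriction of short exact sequences -/
def ModSES.res (φ : THom T' T) {M' M M'' : Mod T} (S : ModSES M' M M'') :
    ModSES (M'.res φ) (M.res φ) (M''.res φ) where
  i := resMap φ S.i
  p := resMap φ S.p
  inj := S.inj
  surj := S.surj
  exact := S.exact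
  split := by
    obtain ⟨ρ, h1, h2⟩ := S.split
    refine ⟨ρ, h1, fun j x => ?_⟩
    have e1 : ((T'.K j : T'.A) • x : (M.res φ).X) = ((T.K j : T.A) • (show M.X from x) : M.X) := by
      rw [Mod.res_smul, φ.f_K]
    have e2 : ∀ y : M'.X, ((T'.K j : T'.A) • (show (M'.res φ).X from y) : (M'.res φ).X)
        = ((T.K j : T.A) • y : M'.X) := by
      intro y; rw [Mod.res_smul, φ.f_K]
    rw [e1]
    exact (h2 j x).trans (e2 _).symm

section resE

variable (φ : THom T' T) (M : Mod T)

/-- transport of values -/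
def resV (v : M.coef.V) : (M.res φ).coef.V := mkM (M.res φ) (mev M v)

/-- restriction of cochains -/
def resF (f : List T.A → M.coef.V) : List T'.A → (M.res φ).coef.V :=
  fun l => resV φ M (f (l.map φ.f))

lemma resF_tl (f : List T.A → M.coef.V) (a : T'.A) :
    (M.res φ).coef.tl (resF φ M f) a = resF φ M (M.coef.tl f (φ.f a)) := rfl

lemma resV_r (a : T'.A) (v : M.coef.V) :
    (M.res φ).coef.r a (resV φ M v) = resV φ M (M.coef.r (φ.f a) v) := by
  refine mev_ext fun x => ?_
  rw [mev_r]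
  exact (mev_r (M := M) (φ.f a) v x).symm

lemma resF_act (f : List T.A → M.coef.V) (a : T'.A) :
    (M.res φ).coef.act (resF φ M f) a = resF φ M (M.coef.act f (φ.f a)) := by
  funext l
  cases l with
  | nil => exact resV_r φ M a (f [])
  | cons b l =>
    show resV φ M (f (List.map φ.f ((a * b) :: l))) = resV φ M (f ((φ.f a * φ.f b) :: l.map φ.f))
    rw [List.map_cons, map_mul]

lemma resF_apply (f : List T.A → M.coef.V) (l : List T'.A) :
    resF φ M f l = resV φ M (f (l.map φ.f)) := rfl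

lemma resV_add (v w : M.coef.V) : resV φ M (v + w) = resV φ M v + resV φ M w := rfl
lemma resV_sub (v w : M.coef.V) : resV φ M (v - w) = resV φ M v - resV φ M w := rfl
lemma resV_neg (v : M.coef.V) : resV φ M (-v) = - resV φ M v := rfl
lemma resV_smul (p : MvPolynomial I k) (v : M.coef.V) : resV φ M (p • v) = p • resV φ M v := rfl
lemma resV_smulk (p : k) (v : M.coef.V) : resV φ M (p • v) = p • resV φ M v := rfl

lemma resV_κ (i : I) (v : M.coef.V) :
    (M.res φ).coef.κ i (resV φ M v) = resV φ M (M.coef.κ i v) := by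
  refine mev_ext fun x => ?_
  have e : ((((T'.K i)⁻¹ : T'.Aˣ) : T'.A) • x : (M.res φ).X)
      = ((((T.K i)⁻¹ : T.Aˣ) : T.A) • (show M.X from x) : M.X) := by
    rw [Mod.res_smul, φ.f_Kinv]
  rw [mev_κ, e]
  exact (mev_κ (M := M) i v x).symm

lemma resF_dd (l : List T'.A) (f : List T.A → M.coef.V) :
    (M.res φ).coef.dd l (resF φ M f) = resV φ M (M.coef.dd (l.map φ.f) f) := by
  induction l generalizing f with
  | nil => rfl
  | cons a l ih =>
    simp only [Coef.dd, List.map_cons, resF_tl, resF_act, ih]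
    rfl

lemma map_adi (i : I) (l : List T'.A) :
    (l.map (T'.adi i)).map φ.f = (l.map φ.f).map (T.adi i) := by
  rw [List.map_map, List.map_map]
  exact List.map_congr_left fun a _ => φ.f_adi i a

lemma resF_hh (i : I) (l : List T'.A) (f : List T.A → M.coef.V) :
    (M.res φ).coef.hh i l (resF φ M f) = resV φ M (M.coef.hh i (l.map φ.f) f) := by
  induction l generalizing f with
  | nil =>
    simp only [Coef.hh, List.map_nil, resF_apply, List.map_cons, resV_κ, φ.f_K]
  | cons a l ih =>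
    have e : (((T'.K i : T'.A) :: (a :: l).map (T'.adi i)).map φ.f)
        = (T.K i : T.A) :: ((a :: l).map φ.f).map (T.adi i) := by
      rw [List.map_cons, φ.f_K, map_adi]
    simp only [Coef.hh, resF_tl, ih, resF_apply, resV_κ, e]
    rfl

lemma resF_mem {f : List T.A → M.coef.V} (hf : f ∈ M.coef.Coc) :
    resF φ M f ∈ (M.res φ).coef.Coc := by
  refine ⟨⟨fun l₁ l₂ a b => ?_, fun l₁ l₂ t a => ?_⟩, fun i => ?_⟩
  · simp only [resF_apply, List.map_append, List.map_cons, map_add, hf.1.1]; rfl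
  · simp only [resF_apply, List.map_append, List.map_cons, map_smul, hf.1.2]; rfl
  · funext l
    have := congrFun (hf.2 i) (l.map φ.f)
    simp only [Coef.c] at this
    simp only [Coef.c, resF_apply, resV_κ, map_adi]
    rw [this]

variable [Fintype I]

lemma resF_D (f : List T.A → M.coef.V) :
    (M.res φ).coef.D (resF φ M f) = resF φ M (M.coef.D f) := by
  funext l
  have hb : (M.res φ).coef.b (resF φ M f) l = resV φ M (M.coef.b f (l.map φ.f)) := by
    cases l with
    | nil => rfl
    | cons a l =>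
      simp only [Coef.b, List.map_cons]
      rw [resF_dd, ← φ.f_ε]
      rfl
  have hsum : ∀ s : Finset I, resV φ M (∑ i ∈ s, (X i : MvPolynomial I k) • M.coef.h i f (l.map φ.f))
      = ∑ i ∈ s, (X i : MvPolynomial I k) • (M.res φ).coef.h i (resF φ M f) l := by
    classical
    intro s
    induction s using Finset.induction_on with
    | empty => rfl
    | insert a s ha ih =>
      rw [Finset.sum_insert ha, Finset.sum_insert ha, resV_add, resV_smul, ih]
      congr 2
      exact (resF_hh φ M a l f).symm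
  show (M.res φ).coef.b (resF φ M f) l + ∑ i, (X i : MvPolynomial I k) • (M.res φ).coef.h i (resF φ M f) l
    = resV φ M (M.coef.b f (l.map φ.f) + ∑ i, (X i : MvPolynomial I k) • M.coef.h i f (l.map φ.f))
  rw [hb, resV_add, hsum]

/-- restriction on cocycles -/
def resZ : M.coef.Z →ₗ[MvPolynomial I k] (M.res φ).coef.Z where
  toFun z := ⟨resF φ M z.1, (M.res φ).coef.mem_Z.2 ⟨resF_mem φ M z.2.1, by
    rw [resF_D, (M.coef.mem_Z.1 z.2).2]; rfl⟩⟩
  map_add' x y := rfl
  map_smul' t x := rfl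

/-- restriction on cohomology -/
def Eres : E M →ₗ[MvPolynomial I k] E (M.res φ) :=
  Submodule.mapQ _ _ (resZ φ M) (by
    rintro z ⟨g, hg, h⟩
    refine ⟨resF φ M g, resF_mem φ M hg, ?_⟩
    rw [Coef.Dl_apply, resF_D, ← Coef.Dl_apply]
    have h' : M.coef.Dl g = z.1 := h
    rw [h']; rfl)

lemma Eres_cls (z : M.coef.Z) : Eres φ M (M.coef.cls z) = (M.res φ).coef.cls (resZ φ M z) := rfl

lemma Eres_pr (n : ℤ) (e : E M) :
    Eres φ M (M.coef.pr n e) = (M.res φ).coef.pr n (Eres φ M e) := by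
  obtain ⟨z, rfl⟩ := M.coef.cls_surj e
  rw [Coef.pr_cls, Eres_cls, Eres_cls, Coef.pr_cls]
  congr 1
  apply Subtype.ext; funext l
  show resV φ M (M.coef.π (n - (l.map φ.f).length) (z.1 (l.map φ.f)))
    = (M.res φ).coef.π (n - l.length) (resV φ M (z.1 (l.map φ.f)))
  rw [List.length_map]
  rfl

lemma Eres_map {M N : Mod T} (f : M.X →ₗ[T.A] N.X) (e : E N) :
    Eres φ M (Emap f e) = Emap (resMap φ f) (Eres φ N e) := by
  obtain ⟨z, rfl⟩ := N.coef.cls_surj e
  rfl

lemma Eres_δ [CharZero k] {M' M M'' : Mod T} (S : ModSES M' M M'') (e : E M') :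
    Eres φ M'' (Eδ S e) = Eδ (S.res φ) (Eres φ M' e) := by
  obtain ⟨z, rfl⟩ := M'.coef.cls_surj e
  symm
  have h0 := M'.coef.mem_Z.1 z.2
  set S1 := S.rep.coef (SS k I) with hS1
  refine ((S.res φ).rep.coef (SS k I)).δ_eq
    (g := resF φ M (fun l => S1.s (z.1 l))) (resF_mem φ M (S1.lift_mem h0.1)) ?_
    (w := resZ φ M'' (S1.δZ z)) ?_
  · funext l
    exact congrArg (resV φ M') (S1.ps (z.1 (l.map φ.f)))
  · have h1 : S1.j.F (S1.δZ z).1 = M.coef.D (fun l => S1.s (z.1 l)) := S1.j_δZ z
    have h2 : (M.res φ).coef.D (resF φ M (fun l => S1.s (z.1 l)))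
        = resF φ M (M.coef.D (fun l => S1.s (z.1 l))) := resF_D φ M _
    refine Eq.trans ?_ h2.symm
    rw [← h1]
    rfl

end resE

/-! ### the trivial module -/

/-- the trivial module -/
def triv (T : TAlg k I) : Mod T :=
  letI : Module T.A k := Module.compHom k T.ε.toRingHom
  { X := k
    tower := ⟨fun t a x => by
      show T.ε (t • a) * x = t * (T.ε a * x)
      rw [map_smul, smul_eq_mul, mul_assoc]⟩ }

/-- elements of the trivial module as scalars -/
def tv (x : (triv T).X) : k := x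

/-- scalars as elements of the trivial module -/
def vt (T : TAlg k I) (x : k) : (triv T).X := x

@[simp] lemma tv_vt (x : k) : tv (vt T x) = x := rfl
@[simp] lemma vt_tv (x : (triv T).X) : vt T (tv x) = x := rfl

lemma triv_smul (a : T.A) (x : (triv T).X) : a • x = vt T (T.ε a * tv x) := rfl

lemma ε_Kinv (i : I) : T.ε (((T.K i)⁻¹ : T.Aˣ) : T.A) = 1 := by
  have h := congrArg T.ε (Units.inv_mul (T.K i))
  rwa [map_mul, T.ε_K, mul_one, map_one] at h

/-- the unit cochain -/
def unitF (T : TAlg k I) : List T.A → (triv T).coef.V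
  | [] => mkM (triv T) ((Algebra.linearMap k (MvPolynomial I k) : k →ₗ[k] MvPolynomial I k))
  | _ :: _ => 0

lemma unitF_nil (x : (triv T).X) : mev (triv T) (unitF T []) x = C (tv x) := rfl

lemma unitF_mem : unitF T ∈ (triv T).coef.Coc := by
  refine ⟨⟨fun l₁ l₂ a b => ?_, fun l₁ l₂ t a => ?_⟩, fun i => ?_⟩
  · cases l₁ <;> simp [unitF]
  · cases l₁ <;> simp [unitF]
  · funext l
    cases l with
    | nil =>
      refine mev_ext fun x => ?_
      show mev (triv T) ((triv T).coef.κ i (unitF T [])) x = _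
      rw [mev_κ, triv_smul, ε_Kinv, one_mul, vt_tv]
    | cons a l => simp [Coef.c, unitF]

variable [Fintype I]

lemma unitF_D : (triv T).coef.D (unitF T) = 0 := by
  have hdd : ∀ l : List T.A, ∀ f : List T.A → (triv T).coef.V,
      (∀ l', f l' = 0) → (triv T).coef.dd l f = 0 := by
    intro l f hf
    have : f = 0 := funext hf
    rw [this]
    have := (triv T).coef.dd_smul l 0 0
    simpa using this
  have hhh : ∀ i, ∀ l : List T.A, (triv T).coef.hh i l (unitF T) = 0 := by
    intro i l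
    cases l with
    | nil => simp [Coef.hh, unitF]
    | cons a l =>
      have key : ∀ f : List T.A → (triv T).coef.V, (∀ l', f l' = 0) →
          (triv T).coef.hh i l f = 0 := by
        intro f hf
        have : f = 0 := funext hf
        rw [this]
        have := (triv T).coef.hh_smul i l 0 0
        simpa using this
      simp only [Coef.hh, unitF, map_zero, zero_sub, neg_eq_zero]
      exact key _ fun l' => rfl
  funext l
  have hb : (triv T).coef.b (unitF T) l = 0 := by
    cases l with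
    | nil => rfl
    | cons a l =>
      simp only [Coef.b, Coef.dd]
      rw [hdd l ((triv T).coef.tl (unitF T) a) (fun l' => rfl), sub_zero]
      cases l with
      | nil =>
        refine mev_ext fun x => ?_
        show mev (triv T) (T.ε a • unitF T [] + - (triv T).coef.r a (unitF T [])) x = 0
        rw [mev_add, mev_neg, mev_smulk, mev_r, unitF_nil, triv_smul, unitF_nil, tv_vt]
        rw [smul_eq_C_mul, ← C_mul, add_neg_cancel]
      | cons b l => simp [unitF, Coef.act]
  simp only [Coef.D, hb, Coef.h, hhh, smul_zero, Finset.sum_const_zero, add_zero]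
  rfl

/-- the unit class `1 ∈ E⁰(k)` -/
def one (T : TAlg k I) : E (triv T) :=
  (triv T).coef.cls ⟨unitF T, (triv T).coef.mem_Z.2 ⟨unitF_mem, unitF_D⟩⟩

end Pool.Agent.Lib.QG
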