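import Pool.Agent.Lib.MP_021f05_al.Coh

/-!
# MP_021f05_al: the cohomology modules, functoriality, the long exact sequence
-/

noncomputable section

namespace Pool.Agent.Lib.QG

open MvPolynomial

variable {k : Type} [Field k] {I : Type} [Fintype I] {T : TAlg k I}

namespace Coef

variable (V : Coef T)

/-- cocycles -/
def Z : Submodule (MvPolynomial I k) (List T.A → V.V) := V.Coc ⊓ LinearMap.ker V.Dl

/-- coboundaries -/
def B : Submodule (MvPolynomial I k) (List T.A → V.V) := V.Coc.map V.Dl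

/-- total cohomology -/
def H : Type := V.Z ⧸ (V.B.comap V.Z.subtype)

instance : AddCommGroup V.H := inferInstanceAs (AddCommGroup (V.Z ⧸ (V.B.comap V.Z.subtype)))
instance : Module (MvPolynomial I k) V.H :=
  inferInstanceAs (Module (MvPolynomial I k) (V.Z ⧸ (V.B.comap V.Z.subtype)))
instance : Module k V.H := Module.compHom V.H (algebraMap k (MvPolynomial I k))
instance : IsScalarTower k (MvPolynomial I k) V.H :=
  ⟨fun a b x => by
    show (a • b) • x = (algebraMap k (MvPolynomial I k) a) • (b • x)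
    rw [smul_smul, Algebra.smul_def]⟩

/-- the class of a cocycle -/
def cls : V.Z →ₗ[MvPolynomial I k] V.H := (V.B.comap V.Z.subtype).mkQ

lemma cls_surj (e : V.H) : ∃ z : V.Z, V.cls z = e := Submodule.mkQ_surjective _ e

lemma cls_eq_zero {z : V.Z} : V.cls z = 0 ↔ ∃ g ∈ V.Coc, V.D g = z.1 := by
  show Submodule.Quotient.mk z = 0 ↔ _
  rw [Submodule.Quotient.mk_eq_zero, Submodule.mem_comap]
  constructor
  · rintro ⟨g, hg, h⟩; exact ⟨g, hg, by rw [← Dl_apply]; exact h⟩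
  · rintro ⟨g, hg, h⟩; exact ⟨g, hg, by rw [Dl_apply]; exact h⟩

lemma mem_Z {f : List T.A → V.V} : f ∈ V.Z ↔ f ∈ V.Coc ∧ V.D f = 0 := by
  rw [← Dl_apply]; exact Iff.rfl

lemma D_sub (f g : List T.A → V.V) : V.D (f - g) = V.D f - V.D g := by
  simp only [← Dl_apply, map_sub]

lemma D_add (f g : List T.A → V.V) : V.D (f + g) = V.D f + V.D g := by
  simp only [← Dl_apply, map_add]

lemma D_smul (p : MvPolynomial I k) (f : List T.A → V.V) : V.D (p • f) = p • V.D f := by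
  simp only [← Dl_apply, map_smul]

omit [Fintype I] in
lemma Pr_mem {f : List T.A → V.V} (hf : f ∈ V.Coc) (n : ℤ) : V.Pr n f ∈ V.Coc := by
  refine ⟨⟨fun l₁ l₂ a b => ?_, fun l₁ l₂ t a => ?_⟩, fun i => ?_⟩
  · simp only [Pr, hf.1.1, map_add, List.length_append, List.length_cons]
  · simp only [Pr, hf.1.2, map_smul, List.length_append, List.length_cons]
  · funext l
    have := congrFun (hf.2 i) l
    simp only [c] at this
    simp only [c, Pr, List.length_map, ← V.π_κ, this]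

/-- the projection to degree `n` on cocycles -/
def prZ (n : ℤ) : V.Z →ₗ[k] V.Z where
  toFun z := ⟨V.Pr n z.1, V.mem_Z.2 ⟨V.Pr_mem z.2.1 n, by
    rw [Pr_D, (V.mem_Z.1 z.2).2]; funext l; simp [Pr]⟩⟩
  map_add' x y := by apply Subtype.ext; funext l; simp [Pr]
  map_smul' t x := by
    apply Subtype.ext; funext l
    simp only [Pr, RingHom.id_apply]
    exact map_smul (V.π _) t _

lemma clsk_smul (t : k) (z : V.Z) : V.cls (t • z) = t • V.cls z := by
  have h : (C t : MvPolynomial I k) • z = t • z := by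
    apply Subtype.ext; funext l; exact V.C_smul t _
  rw [← h, map_smul]; rfl

/-- the projection to degree `n` -/
def pr (n : ℤ) : V.H →ₗ[k] V.H where
  toFun := Quotient.lift (fun z => V.cls (V.prZ n z)) (by
    intro x y hxy
    have hxy' : V.cls (x - y) = 0 := by
      rw [map_sub, sub_eq_zero]
      exact (Submodule.Quotient.eq _).2 ((Submodule.quotientRel_def _).1 hxy)
    obtain ⟨g, hg, hgz⟩ := V.cls_eq_zero.1 hxy'
    show V.cls (V.prZ n x) = V.cls (V.prZ n y)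
    rw [← sub_eq_zero, ← map_sub, ← map_sub]
    refine V.cls_eq_zero.2 ⟨V.Pr (n - 1) g, V.Pr_mem hg _, ?_⟩
    rw [Pr_D, hgz, sub_add_cancel]
    rfl)
  map_add' x y := by
    obtain ⟨x, rfl⟩ := V.cls_surj x
    obtain ⟨y, rfl⟩ := V.cls_surj y
    rw [← map_add]
    show V.cls (V.prZ n (x + y)) = V.cls (V.prZ n x) + V.cls (V.prZ n y)
    rw [map_add, map_add]
  map_smul' t x := by
    obtain ⟨x, rfl⟩ := V.cls_surj x
    rw [← clsk_smul]
    show V.cls (V.prZ n (t • x)) = t • V.cls (V.prZ n x)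
    rw [map_smul, clsk_smul]

lemma pr_cls (n : ℤ) (z : V.Z) : V.pr n (V.cls z) = V.cls (V.prZ n z) := rfl

/-- `e` is homogeneous of degree `n` -/
def Deg (n : ℤ) : Submodule k V.H where
  carrier := {e | V.pr n e = e}
  add_mem' := by intro a b ha hb; show V.pr n (a + b) = a + b; rw [map_add]; exact congrArg₂ _ ha hb
  zero_mem' := map_zero _
  smul_mem' := by intro t a ha; show V.pr n (t • a) = t • a; rw [map_smul]; exact congrArg _ ha

lemma mem_Deg {n : ℤ} {e : V.H} : e ∈ V.Deg n ↔ V.pr n e = e := Iff.rfl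

lemma pr_pr (n : ℤ) (e : V.H) : V.pr n (V.pr n e) = V.pr n e := by
  obtain ⟨z, rfl⟩ := V.cls_surj e
  rw [pr_cls, pr_cls]
  congr 1
  apply Subtype.ext; funext l
  exact V.π_π _ _

lemma pr_ne {n m : ℤ} (hnm : n ≠ m) (e : V.H) : V.pr n (V.pr m e) = 0 := by
  obtain ⟨z, rfl⟩ := V.cls_surj e
  rw [pr_cls, pr_cls]
  have : V.prZ n (V.prZ m z) = 0 := by
    apply Subtype.ext; funext l
    exact V.π_ne _ _ _ (by simpa using hnm)
  rw [this, map_zero]

lemma pr_mem_Deg (n : ℤ) (e : V.H) : V.pr n e ∈ V.Deg n := V.pr_pr n e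

lemma pr_X (n : ℤ) (i : I) (e : V.H) :
    V.pr (n + 2) ((X i : MvPolynomial I k) • e) = (X i : MvPolynomial I k) • V.pr n e := by
  obtain ⟨z, rfl⟩ := V.cls_surj e
  rw [← map_smul, pr_cls, pr_cls, ← map_smul]
  congr 1
  apply Subtype.ext; funext l
  show V.π (n + 2 - l.length) ((X i : MvPolynomial I k) • z.1 l)
    = (X i : MvPolynomial I k) • V.π (n - l.length) (z.1 l)
  rw [← V.π_X]; congr 2; ring

lemma X_mem_Deg {n : ℤ} (i : I) {e : V.H} (he : e ∈ V.Deg n) :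
    (X i : MvPolynomial I k) • e ∈ V.Deg (n + 2) := by
  rw [mem_Deg, pr_X, V.mem_Deg.1 he]

end Coef

/-- morphisms of coefficient objects, of degree `e` -/
structure CoefHom (V W : Coef T) (e : ℤ) where
  f : V.V →ₗ[MvPolynomial I k] W.V
  f_r : ∀ a v, f (V.r a v) = W.r a (f v)
  f_κ : ∀ i v, f (V.κ i v) = W.κ i (f v)
  f_π : ∀ m v, f (V.π m v) = W.π (m + e) (f v)

namespace CoefHom

variable {V W : Coef T} {e : ℤ} (φ : CoefHom V W e)

/-- composition with `φ` -/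
def F (g : List T.A → V.V) : List T.A → W.V := fun l => φ.f (g l)

omit [Fintype I] in
lemma F_tl (g : List T.A → V.V) (a : T.A) : W.tl (φ.F g) a = φ.F (V.tl g a) := rfl

omit [Fintype I] in
lemma F_act (g : List T.A → V.V) (a : T.A) : W.act (φ.F g) a = φ.F (V.act g a) := by
  funext l; cases l <;> simp [Coef.act, F, φ.f_r]

omit [Fintype I] in
lemma F_dd (l : List T.A) (g : List T.A → V.V) : W.dd l (φ.F g) = φ.f (V.dd l g) := by
  induction l generalizing g with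
  | nil => simp [Coef.dd]
  | cons a l ih => simp only [Coef.dd, F_tl, ih, F_act, map_sub, map_neg]; rfl

omit [Fintype I] in
lemma F_hh (i : I) (l : List T.A) (g : List T.A → V.V) : W.hh i l (φ.F g) = φ.f (V.hh i l g) := by
  induction l generalizing g with
  | nil => simp [Coef.hh, F, φ.f_κ]
  | cons a l ih => simp only [Coef.hh, F_tl, ih, map_sub, φ.f_κ]; rfl

omit [Fintype I] in
lemma f_smulk (t : k) (v : V.V) : φ.f (t • v) = t • φ.f v := by
  rw [← Coef.C_smul, map_smul, Coef.C_smul]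

lemma F_D (g : List T.A → V.V) : W.D (φ.F g) = φ.F (V.D g) := by
  funext l
  have hb : W.b (φ.F g) l = φ.f (V.b g l) := by
    cases l with
    | nil => simp [Coef.b]
    | cons a l => simp only [Coef.b, F_dd, map_add, f_smulk]; rfl
  simp only [Coef.D, hb, F, map_add, map_sum, map_smul]
  congr 1
  refine Finset.sum_congr rfl fun i _ => ?_
  congr 1
  exact φ.F_hh i l g

omit [Fintype I] in
lemma F_mem {g : List T.A → V.V} (hg : g ∈ V.Coc) : φ.F g ∈ W.Coc := by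
  refine ⟨⟨fun l₁ l₂ a b => ?_, fun l₁ l₂ t a => ?_⟩, fun i => ?_⟩
  · simp only [F, hg.1.1, map_add]
  · simp only [F, hg.1.2, f_smulk]
  · funext l
    have := congrFun (hg.2 i) l
    simp only [Coef.c] at this
    simp only [Coef.c, F, ← φ.f_κ, this]

/-- the induced map on cocycles -/
def mapZ : V.Z →ₗ[MvPolynomial I k] W.Z where
  toFun z := ⟨φ.F z.1, W.mem_Z.2 ⟨φ.F_mem z.2.1, by
    rw [F_D, (V.mem_Z.1 z.2).2]; funext l; simp [F]⟩⟩
  map_add' x y := by apply Subtype.ext; funext l; simp [F]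
  map_smul' t x := by apply Subtype.ext; funext l; simp [F]

/-- the induced map on cohomology -/
def mapH : V.H →ₗ[MvPolynomial I k] W.H :=
  Submodule.mapQ _ _ φ.mapZ (by
    rintro z ⟨g, hg, h⟩
    refine ⟨φ.F g, φ.F_mem hg, ?_⟩
    rw [Coef.Dl_apply, F_D, ← Coef.Dl_apply]
    have h' : V.Dl g = z.1 := h
    rw [h']; rfl)

lemma mapH_cls (z : V.Z) : φ.mapH (V.cls z) = W.cls (φ.mapZ z) := rfl

lemma mapH_pr (n : ℤ) (x : V.H) : φ.mapH (V.pr n x) = W.pr (n + e) (φ.mapH x) := by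
  obtain ⟨z, rfl⟩ := V.cls_surj x
  rw [Coef.pr_cls, mapH_cls, mapH_cls, Coef.pr_cls]
  congr 1
  apply Subtype.ext; funext l
  show φ.f (V.π (n - l.length) (z.1 l)) = W.π (n + e - l.length) (φ.f (z.1 l))
  rw [φ.f_π]; congr 2; ring

end CoefHom

/-- A short exact sequence of coefficient objects, split over `k` and the torus. -/
structure CoefSES (V' V V'' : Coef T) (e' e'' : ℤ) where
  j : CoefHom V' V e'
  p : CoefHom V V'' e''
  s : V''.V →ₗ[k] V.V
  ρ : V.V →ₗ[k] V'.V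
  s_κ : ∀ i v, s (V''.κ i v) = V.κ i (s v)
  ρ_κ : ∀ i v, ρ (V.κ i v) = V'.κ i (ρ v)
  ps : ∀ v, p.f (s v) = v
  ρj : ∀ v, ρ (j.f v) = v
  pj : ∀ v, p.f (j.f v) = 0
  js : ∀ v, j.f (ρ v) + s (p.f v) = v

namespace CoefSES

variable [CharZero k] {V' V V'' : Coef T} {e' e'' : ℤ} (E : CoefSES V' V V'' e' e'')

omit [Fintype I] [CharZero k] in
lemma lift_mem {g : List T.A → V''.V} (hg : g ∈ V''.Coc) : (fun l => E.s (g l)) ∈ V.Coc := by
  refine ⟨⟨fun l₁ l₂ a b => ?_, fun l₁ l₂ t a => ?_⟩, fun i => ?_⟩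
  · simp only [hg.1.1, map_add]
  · simp only [hg.1.2, map_smul]
  · funext l
    have := congrFun (hg.2 i) l
    simp only [Coef.c] at this
    simp only [Coef.c, ← E.s_κ, this]

omit [Fintype I] [CharZero k] in
lemma ret_mem {g : List T.A → V.V} (hg : g ∈ V.Coc) : (fun l => E.ρ (g l)) ∈ V'.Coc := by
  refine ⟨⟨fun l₁ l₂ a b => ?_, fun l₁ l₂ t a => ?_⟩, fun i => ?_⟩
  · simp only [hg.1.1, map_add]
  · simp only [hg.1.2, map_smul]
  · funext l
    have := congrFun (hg.2 i) l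
    simp only [Coef.c] at this
    simp only [Coef.c, ← E.ρ_κ, this]

omit [Fintype I] [CharZero k] in
lemma j_ret {g : List T.A → V.V} (hg : E.p.F g = 0) : E.j.F (fun l => E.ρ (g l)) = g := by
  funext l
  have h1 := E.js (g l)
  have h2 : E.p.f (g l) = 0 := congrFun hg l
  rw [h2, map_zero, add_zero] at h1
  exact h1

omit [Fintype I] [CharZero k] in
lemma p_lift (g : List T.A → V''.V) : E.p.F (fun l => E.s (g l)) = g := by
  funext l; exact E.ps _

omit [Fintype I] [CharZero k] in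
lemma p_j (g : List T.A → V'.V) : E.p.F (E.j.F g) = 0 := by funext l; exact E.pj _

omit [Fintype I] [CharZero k] in
lemma j_inj {g g' : List T.A → V'.V} (h : E.j.F g = E.j.F g') : g = g' := by
  funext l
  have := congrArg E.ρ (congrFun h l)
  simpa [CoefHom.F, E.ρj] using this

variable [V.IsFlat]

/-- the connecting map on cocycles -/
def δZ (z : V''.Z) : V'.Z :=
  ⟨fun l => E.ρ (V.D (fun l => E.s (z.1 l)) l), by
    have h0 := V''.mem_Z.1 z.2
    have h1 := E.lift_mem h0.1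
    have h2 := V.D_mem h1
    refine V'.mem_Z.2 ⟨E.ret_mem h2, ?_⟩
    have h3 : E.p.F (V.D (fun l => E.s (z.1 l))) = 0 := by
      rw [← CoefHom.F_D, p_lift, h0.2]
    apply E.j_inj
    rw [← CoefHom.F_D, E.j_ret h3, V.D_D h1]
    funext l; simp [CoefHom.F]⟩

lemma j_δZ (z : V''.Z) : E.j.F (E.δZ z).1 = V.D (fun l => E.s (z.1 l)) := by
  have h0 := V''.mem_Z.1 z.2
  have h3 : E.p.F (V.D (fun l => E.s (z.1 l))) = 0 := by
    rw [← CoefHom.F_D, p_lift, h0.2]
  exact E.j_ret h3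

/-- the connecting map is determined by any lift -/
lemma cls_δZ {z : V''.Z} {g : List T.A → V.V} (hg : g ∈ V.Coc) (hp : E.p.F g = z.1)
    {w : V'.Z} (hw : E.j.F w.1 = V.D g) : V'.cls (E.δZ z) = V'.cls w := by
  rw [← sub_eq_zero, ← map_sub]
  have h0 := V''.mem_Z.1 z.2
  have h1 := E.lift_mem h0.1
  have h3 : E.p.F ((fun l => E.s (z.1 l)) - g) = 0 := by
    funext l
    show E.p.f (E.s (z.1 l) - g l) = 0
    rw [map_sub, E.ps]
    have : E.p.f (g l) = z.1 l := congrFun hp l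
    rw [this, sub_self]
  refine V'.cls_eq_zero.2 ⟨_, E.ret_mem (V.Coc.sub_mem h1 hg), ?_⟩
  apply E.j_inj
  rw [← CoefHom.F_D, E.j_ret h3, Coef.D_sub, ← hw, ← E.j_δZ]
  funext l; simp [CoefHom.F]

/-- the connecting homomorphism -/
def δ : V''.H →ₗ[MvPolynomial I k] V'.H where
  toFun := Quotient.lift (fun z => V'.cls (E.δZ z)) (by
    intro x y hxy
    have hxy' : V''.cls (x - y) = 0 := by
      rw [map_sub, sub_eq_zero]
      exact (Submodule.Quotient.eq _).2 ((Submodule.quotientRel_def _).1 hxy)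
    obtain ⟨g, hg, hgz⟩ := V''.cls_eq_zero.1 hxy'
    show V'.cls (E.δZ x) = V'.cls (E.δZ y)
    refine E.cls_δZ (g := (fun l => E.s (y.1 l)) + V.D (fun l => E.s (g l)))
      (V.Coc.add_mem (E.lift_mem (V''.mem_Z.1 y.2).1) (V.D_mem (E.lift_mem hg))) ?_ ?_
    · funext l
      show E.p.f (E.s (y.1 l) + V.D (fun l => E.s (g l)) l) = x.1 l
      rw [map_add, E.ps]
      have : E.p.F (V.D (fun l => E.s (g l))) l = (x - y).1 l := by
        rw [← CoefHom.F_D, p_lift, hgz]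
      have h2 : E.p.f (V.D (fun l => E.s (g l)) l) = (x - y).1 l := this
      rw [h2]; simp
    · rw [j_δZ, Coef.D_add, V.D_D (E.lift_mem hg), add_zero])
  map_add' x y := by
    obtain ⟨x, rfl⟩ := V''.cls_surj x
    obtain ⟨y, rfl⟩ := V''.cls_surj y
    rw [← map_add]
    show V'.cls (E.δZ (x + y)) = V'.cls (E.δZ x) + V'.cls (E.δZ y)
    rw [← map_add]
    refine E.cls_δZ (g := (fun l => E.s (x.1 l)) + (fun l => E.s (y.1 l)))
      (V.Coc.add_mem (E.lift_mem (V''.mem_Z.1 x.2).1) (E.lift_mem (V''.mem_Z.1 y.2).1)) ?_ ?_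
    · funext l; simp [CoefHom.F, E.ps]
    · rw [Coef.D_add, ← j_δZ, ← j_δZ]; funext l; simp [CoefHom.F]
  map_smul' t x := by
    obtain ⟨x, rfl⟩ := V''.cls_surj x
    rw [← map_smul]
    show V'.cls (E.δZ (t • x)) = t • V'.cls (E.δZ x)
    rw [← map_smul]
    refine E.cls_δZ (g := t • (fun l => E.s (x.1 l)))
      (V.Coc.smul_mem _ (E.lift_mem (V''.mem_Z.1 x.2).1)) ?_ ?_
    · funext l; simp [CoefHom.F, E.ps]
    · rw [Coef.D_smul, ← j_δZ]; funext l; simp [CoefHom.F]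

lemma δ_cls (z : V''.Z) : E.δ (V''.cls z) = V'.cls (E.δZ z) := rfl

lemma δ_eq {z : V''.Z} {g : List T.A → V.V} (hg : g ∈ V.Coc) (hp : E.p.F g = z.1)
    {w : V'.Z} (hw : E.j.F w.1 = V.D g) : E.δ (V''.cls z) = V'.cls w :=
  E.cls_δZ hg hp hw

/-- exactness at `H V` -/
lemma exact_mid (x : V.H) : E.p.mapH x = 0 ↔ ∃ y, E.j.mapH y = x := by
  constructor
  · intro h
    obtain ⟨z, rfl⟩ := V.cls_surj x
    rw [CoefHom.mapH_cls] at h
    obtain ⟨g, hg, hgz⟩ := V''.cls_eq_zero.1 h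
    have hz := V.mem_Z.1 z.2
    set f : List T.A → V.V := z.1 - V.D (fun l => E.s (g l)) with hf
    have hf1 : f ∈ V.Coc := V.Coc.sub_mem hz.1 (V.D_mem (E.lift_mem hg))
    have hf2 : E.p.F f = 0 := by
      funext l
      have h1 : E.p.F (V.D (fun l => E.s (g l))) l = E.p.f (z.1 l) := by
        rw [← CoefHom.F_D, p_lift, hgz]; rfl
      have h2 : E.p.f (V.D (fun l => E.s (g l)) l) = E.p.f (z.1 l) := h1
      show E.p.f (z.1 l - V.D (fun l => E.s (g l)) l) = 0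
      rw [map_sub, h2, sub_self]
    have hf3 : V.D f = 0 := by rw [hf, Coef.D_sub, hz.2, V.D_D (E.lift_mem hg), sub_self]
    refine ⟨V'.cls ⟨fun l => E.ρ (f l), V'.mem_Z.2 ⟨E.ret_mem hf1, ?_⟩⟩, ?_⟩
    · apply E.j_inj; rw [← CoefHom.F_D, E.j_ret hf2, hf3]; funext l; simp [CoefHom.F]
    · rw [CoefHom.mapH_cls, ← sub_eq_zero, ← map_sub]
      refine V.cls_eq_zero.2 ⟨- (fun l => E.s (g l)), V.Coc.neg_mem (E.lift_mem hg), ?_⟩
      have h1 : E.j.F (fun l => E.ρ (f l)) = f := E.j_ret hf2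
      have h2 : (E.j.mapZ ⟨fun l => E.ρ (f l), V'.mem_Z.2 ⟨E.ret_mem hf1, by
          apply E.j_inj; rw [← CoefHom.F_D, E.j_ret hf2, hf3]; funext l; simp [CoefHom.F]⟩⟩).1
          = f := h1
      show _ = (E.j.mapZ _).1 - z.1
      rw [h2, hf]
      have h3 : V.D (-fun l => E.s (g l)) = - V.D (fun l => E.s (g l)) := by
        simp only [← Coef.Dl_apply, map_neg]
      rw [h3]; abel
  · rintro ⟨y, rfl⟩
    obtain ⟨z, rfl⟩ := V'.cls_surj y
    rw [CoefHom.mapH_cls, CoefHom.mapH_cls]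
    have : E.p.mapZ (E.j.mapZ z) = 0 := by apply Subtype.ext; funext l; exact E.pj _
    rw [this, map_zero]

/-- exactness at `H V''` -/
lemma exact_right (x : V''.H) : E.δ x = 0 ↔ ∃ y, E.p.mapH y = x := by
  constructor
  · intro h
    obtain ⟨z, rfl⟩ := V''.cls_surj x
    rw [δ_cls] at h
    obtain ⟨g, hg, hgz⟩ := V'.cls_eq_zero.1 h
    have hz := V''.mem_Z.1 z.2
    set f : List T.A → V.V := (fun l => E.s (z.1 l)) - E.j.F g with hf
    have hf1 : f ∈ V.Coc := V.Coc.sub_mem (E.lift_mem hz.1) (E.j.F_mem hg)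
    have hf2 : V.D f = 0 := by
      rw [hf, Coef.D_sub, ← j_δZ, CoefHom.F_D, hgz, sub_self]
    refine ⟨V.cls ⟨f, V.mem_Z.2 ⟨hf1, hf2⟩⟩, ?_⟩
    rw [CoefHom.mapH_cls]
    congr 1
    apply Subtype.ext; funext l
    show E.p.f (E.s (z.1 l) - E.j.f (g l)) = z.1 l
    rw [map_sub, E.ps, E.pj, sub_zero]
  · rintro ⟨y, rfl⟩
    obtain ⟨z, rfl⟩ := V.cls_surj y
    rw [CoefHom.mapH_cls]
    have hz := V.mem_Z.1 z.2
    have := E.δ_eq (z := E.p.mapZ z) hz.1 rfl (w := 0) (by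
      rw [hz.2]; funext l; simp [CoefHom.F])
    rw [this, map_zero]

/-- exactness at `H V'` -/
lemma exact_left (x : V'.H) : E.j.mapH x = 0 ↔ ∃ y, E.δ y = x := by
  constructor
  · intro h
    obtain ⟨z, rfl⟩ := V'.cls_surj x
    rw [CoefHom.mapH_cls] at h
    obtain ⟨g, hg, hgz⟩ := V.cls_eq_zero.1 h
    refine ⟨V''.cls ⟨E.p.F g, V''.mem_Z.2 ⟨E.p.F_mem hg, ?_⟩⟩, ?_⟩
    · rw [CoefHom.F_D, hgz]; exact E.p_j _
    · exact E.δ_eq hg rfl hgz.symm
  · rintro ⟨y, rfl⟩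
    obtain ⟨z, rfl⟩ := V''.cls_surj y
    rw [δ_cls, CoefHom.mapH_cls]
    refine V.cls_eq_zero.2 ⟨_, E.lift_mem (V''.mem_Z.1 z.2).1, ?_⟩
    rw [← j_δZ]; rfl

lemma δ_pr (n : ℤ) (x : V''.H) : E.δ (V''.pr n x) = V'.pr (n + 1 - e' - e'') (E.δ x) := by
  obtain ⟨z, rfl⟩ := V''.cls_surj x
  rw [Coef.pr_cls, E.δ_cls z, Coef.pr_cls]
  have hz := V''.mem_Z.1 z.2
  refine E.δ_eq (g := V.Pr (n - e'') (fun l => E.s (z.1 l))) (V.Pr_mem (E.lift_mem hz.1) _) ?_ ?_
  · funext l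
    show E.p.f (V.π (n - e'' - l.length) (E.s (z.1 l))) = V''.π (n - l.length) (z.1 l)
    rw [E.p.f_π, E.ps]; congr 2; ring
  · rw [Coef.Pr_D, ← j_δZ]
    funext l
    show E.j.f (V'.π (n + 1 - e' - e'' - l.length) ((E.δZ z).1 l))
      = V.π (n - e'' + 1 - l.length) (E.j.f ((E.δZ z).1 l))
    rw [E.j.f_π]; congr 2; ring

end CoefSES

/-- naturality of the connecting homomorphism -/
lemma CoefSES.δ_natural [CharZero k] {V' V V'' W' W W'' : Coef T} [V.IsFlat] [W.IsFlat]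
    {e' e'' c' c'' m m' m'' : ℤ}
    (E : CoefSES V' V V'' e' e'') (F : CoefSES W' W W'' c' c'')
    (φ' : CoefHom V' W' m') (φ : CoefHom V W m) (φ'' : CoefHom V'' W'' m'')
    (h1 : ∀ v, φ.f (E.j.f v) = F.j.f (φ'.f v)) (h2 : ∀ v, φ''.f (E.p.f v) = F.p.f (φ.f v))
    (x : V''.H) : φ'.mapH (E.δ x) = F.δ (φ''.mapH x) := by
  obtain ⟨z, rfl⟩ := V''.cls_surj x
  rw [CoefSES.δ_cls, CoefHom.mapH_cls, CoefHom.mapH_cls]
  symm
  have hz := V''.mem_Z.1 z.2
  refine F.δ_eq (g := φ.F (fun l => E.s (z.1 l))) (φ.F_mem (E.lift_mem hz.1)) ?_ ?_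
  · funext l
    show F.p.f (φ.f (E.s (z.1 l))) = φ''.f (z.1 l)
    rw [← h2, E.ps]
  · rw [CoefHom.F_D, ← E.j_δZ]
    funext l
    exact (h1 _).symm

end Pool.Agent.Lib.QG
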