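import Pool.Agent.Lib.MP_021f05_al.Pre

/-!
# MP_021f05_al: the half algebras (definitions)
-/

noncomputable section

namespace Pool.Agent.Lib.QG

variable {k : Type} [Field k] {I : Type} [Fintype I] [DecidableEq I]

/-- relations of the half algebra -/
inductive HRel (Q : QD k I) (J : Set I) : FreeAlgebra k I → FreeAlgebra k I → Prop
  | X0 i (hi : i ∉ J) : HRel Q J (FreeAlgebra.ι k i) 0
  | S i j (hi : i ∈ J) (hj : j ∈ J) (hij : i ≠ j) :
      HRel Q J (serre (Q.qi i) (1 - Q.a i j).toNat (FreeAlgebra.ι k i) (FreeAlgebra.ι k j)) 0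

/-- the half algebra: generators `x_j (j ∈ J)`, quantum Serre relations -/
def HA (Q : QD k I) (J : Set I) : Type := RingQuot (HRel Q J)

instance (Q : QD k I) (J : Set I) : Ring (HA Q J) := inferInstanceAs (Ring (RingQuot (HRel Q J)))
instance (Q : QD k I) (J : Set I) : Algebra k (HA Q J) :=
  inferInstanceAs (Algebra k (RingQuot (HRel Q J)))

/-- the quotient map -/
def HA.mk (Q : QD k I) (J : Set I) : FreeAlgebra k I →ₐ[k] HA Q J := RingQuot.mkAlgHom k (HRel Q J)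

/-- the generators -/
def HA.x (Q : QD k I) (J : Set I) (i : I) : HA Q J := HA.mk Q J (FreeAlgebra.ι k i)

lemma HA.rel {Q : QD k I} {J : Set I} {x y : FreeAlgebra k I} (h : HRel Q J x y) :
    HA.mk Q J x = HA.mk Q J y := RingQuot.mkAlgHom_rel k h

lemma HA.x_zero {Q : QD k I} {J : Set I} {i : I} (hi : i ∉ J) : HA.x Q J i = 0 := by
  unfold HA.x; rw [HA.rel (HRel.X0 i hi), map_zero]

lemma HA.x_serre {Q : QD k I} {J : Set I} {i j : I} (hi : i ∈ J) (hj : j ∈ J) (hij : i ≠ j) :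
    serre (Q.qi i) (1 - Q.a i j).toNat (HA.x Q J i) (HA.x Q J j) = 0 := by
  unfold HA.x; rw [← serre_map, HA.rel (HRel.S i j hi hj hij), map_zero]

section lift
variable {Q : QD k I} {J : Set I} {B : Type} [Ring B] [Algebra k B]

/-- the universal property of the half algebra -/
def HA.lift (y : I → B) (h0 : ∀ i, i ∉ J → y i = 0)
    (hs : ∀ i j, i ∈ J → j ∈ J → i ≠ j → serre (Q.qi i) (1 - Q.a i j).toNat (y i) (y j) = 0) :
    HA Q J →ₐ[k] B :=
  RingQuot.liftAlgHom k ⟨FreeAlgebra.lift k y, by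
    intro a b h
    induction h with
    | X0 i hi => simp [h0 i hi]
    | S i j hi hj hij => rw [serre_map]; simp [hs i j hi hj hij]⟩

@[simp] lemma HA.lift_x (y : I → B) (h0 : ∀ i, i ∉ J → y i = 0)
    (hs : ∀ i j, i ∈ J → j ∈ J → i ≠ j → serre (Q.qi i) (1 - Q.a i j).toNat (y i) (y j) = 0)
    (i : I) : HA.lift y h0 hs (HA.x Q J i) = y i :=
  (RingQuot.liftAlgHom_mkAlgHom_apply _ _ _ _).trans (FreeAlgebra.lift_ι_apply _ _)

lemma HA.hom_ext {f g : HA Q J →ₐ[k] B} (h : ∀ i, f (HA.x Q J i) = g (HA.x Q J i)) : f = g := by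
  apply RingQuot.ringQuot_ext'
  apply FreeAlgebra.hom_ext
  funext i
  exact h i

lemma HA.induction {p : HA Q J → Prop} (hs : ∀ t : k, p (algebraMap k _ t))
    (hx : ∀ i, p (HA.x Q J i)) (hadd : ∀ x y, p x → p y → p (x + y))
    (hmul : ∀ x y, p x → p y → p (x * y)) (x : HA Q J) : p x := by
  obtain ⟨y, rfl⟩ := RingQuot.mkAlgHom_surjective k (HRel Q J) x
  induction y using FreeAlgebra.induction with
  | grade0 r => rw [AlgHom.commutes]; exact hs r
  | grade1 x => exact hx x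
  | mul a b ha hb => rw [map_mul]; exact hmul _ _ ha hb
  | add a b ha hb => rw [map_add]; exact hadd _ _ ha hb

end lift

variable (Q : QD k I)

/-- `x_i ↦ E_i` -/
def HA.up (Jp Jm : Set I) : HA Q Jp →ₐ[k] QA Q Jp Jm :=
  HA.lift (QA.elts Q Jp Jm).E (QA.elts Q Jp Jm).E0 (QA.elts Q Jp Jm).SE

/-- `x_i ↦ F_i` -/
def HA.um (Jp Jm : Set I) : HA Q Jm →ₐ[k] QA Q Jp Jm :=
  HA.lift (QA.elts Q Jp Jm).F (QA.elts Q Jp Jm).F0 (QA.elts Q Jp Jm).SF

@[simp] lemma HA.up_x (Jp Jm : Set I) (i : I) :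
    HA.up Q Jp Jm (HA.x Q Jp i) = (QA.elts Q Jp Jm).E i := HA.lift_x _ _ _ i
@[simp] lemma HA.um_x (Jp Jm : Set I) (i : I) :
    HA.um Q Jp Jm (HA.x Q Jm i) = (QA.elts Q Jp Jm).F i := HA.lift_x _ _ _ i

/-- the elements of `𝔸(Jp', Jm')` as elements satisfying the relations of `𝔸(Jp, Jm)`, for
`Jp ⊆ Jp'`, `Jm ⊆ Jm'` -/
def QElts.restrict {Jp Jm Jp' Jm' : Set I} (hp : Jp ⊆ Jp') (hm : Jm ⊆ Jm') :
    QElts Q Jp Jm (QA Q Jp' Jm') :=
  open Classical in
  { E := fun i => if i ∈ Jp then (QA.elts Q Jp' Jm').E i else 0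
    F := fun i => if i ∈ Jm then (QA.elts Q Jp' Jm').F i else 0
    K := (QA.elts Q Jp' Jm').K
    L := (QA.elts Q Jp' Jm').L
    KL := (QA.elts Q Jp' Jm').KL
    LK := (QA.elts Q Jp' Jm').LK
    KK := (QA.elts Q Jp' Jm').KK
    KE := fun i j => by
      by_cases h : j ∈ Jp
      · simp only [if_pos h]; exact (QA.elts Q Jp' Jm').KE i j
      · simp [if_neg h]
    KF := fun i j => by
      by_cases h : j ∈ Jm
      · simp only [if_pos h]; exact (QA.elts Q Jp' Jm').KF i j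
      · simp [if_neg h]
    EF := fun i j hi hj => by
      simp only [if_pos hi, if_pos hj]
      exact (QA.elts Q Jp' Jm').EF i j (hp hi) (hm hj)
    E0 := fun i hi => by simp [hi]
    F0 := fun i hi => by simp [hi]
    SE := fun i j hi hj hij => by
      simp only [if_pos hi, if_pos hj]
      exact (QA.elts Q Jp' Jm').SE i j (hp hi) (hp hj) hij
    SF := fun i j hi hj hij => by
      simp only [if_pos hi, if_pos hj]
      exact (QA.elts Q Jp' Jm').SF i j (hm hi) (hm hj) hij }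

/-- the map `𝔸(Jp, Jm) → 𝔸(Jp', Jm')` for `Jp ⊆ Jp'`, `Jm ⊆ Jm'` -/
def QA.incl {Jp Jm Jp' Jm' : Set I} (hp : Jp ⊆ Jp') (hm : Jm ⊆ Jm') :
    QA Q Jp Jm →ₐ[k] QA Q Jp' Jm' := (QElts.restrict Q hp hm).lift

/-- the map `HA J → HA J'` for `J ⊆ J'` -/
def HA.incl {J J' : Set I} (h : J ⊆ J') : HA Q J →ₐ[k] HA Q J' :=
  open Classical in
  HA.lift (fun i => if i ∈ J then HA.x Q J' i else 0) (fun i hi => by simp [hi])
    (fun i j hi hj hij => by
      simp only [if_pos hi, if_pos hj]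
      exact HA.x_serre (h hi) (h hj) hij)

/-- the involution `ω : 𝔸(Jp, Jm) → 𝔸(Jm, Jp)` -/
def QA.om (Jp Jm : Set I) : QA Q Jp Jm →ₐ[k] QA Q Jm Jp := (QA.elts Q Jm Jp).flip.lift

end Pool.Agent.Lib.QG
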