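import Pool.Agent.Lib.MP_021f05_al.Pre
import Pool.Agent.Lib.MP_021f05_al.QNum

/-!
# MP_021f05_al (A2): the quantum Serre elements commute with the opposite generators
-/

noncomputable section

namespace Pool.Agent.Lib.QG

variable {k : Type} [Field k] {I : Type} [Fintype I] [DecidableEq I]
variable {Q : QD k I} {Jp Jm : Set I} {B : Type} [Ring B] [Algebra k B]

lemma serreComm_pow (x K : B) (t : k) (h : K * x = t • (x * K)) (m : ℕ) :
    K * x ^ m = t ^ m • (x ^ m * K) := by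
  induction m with
  | zero => simp
  | succ m ih =>
    rw [pow_succ, ← mul_assoc, ih, smul_mul_assoc, mul_assoc, h, mul_smul_comm, smul_smul,
      ← mul_assoc, ← pow_succ]

/-- `x^m f = f x^m + c [m] x^{m-1} (p^{m-1} K - p^{1-m} L)` -/
lemma serreComm_xf (p : k) (hp : p ≠ 0) (hr : ∀ n : ℕ, 0 < n → p ^ n ≠ 1) (x f K L : B) (c : k)
    (hxf : x * f = f * x + c • (K - L)) (hKx : K * x = p ^ (2 : ℤ) • (x * K))
    (hLx : L * x = p ^ (-2 : ℤ) • (x * L)) (m : ℕ) :
    x ^ m * f = f * x ^ m + (c * qn p m) •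
      (x ^ (m - 1) * (p ^ ((m : ℤ) - 1) • K - p ^ (1 - (m : ℤ)) • L)) := by
  induction m with
  | zero => simp [qn_zero]
  | succ m ih =>
    have h1 : (c * qn p m) • (x * (x ^ (m - 1) * (p ^ ((m : ℤ) - 1) • K - p ^ (1 - (m : ℤ)) • L)))
        = (c * qn p m) • (x ^ m * (p ^ ((m : ℤ) - 1) • K - p ^ (1 - (m : ℤ)) • L)) := by
      rcases Nat.eq_zero_or_pos m with hm | hm
      · subst hm
        simp [qn_zero]
      · obtain ⟨m', rfl⟩ : ∃ m', m = m' + 1 := ⟨m - 1, by omega⟩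
        rw [Nat.add_sub_cancel, pow_succ' x m', mul_assoc]
    have hα : (p ^ (2 : ℤ)) ^ m + qn p m * p ^ ((m : ℤ) - 1) = qn p ((m : ℤ) + 1) * p ^ (m : ℤ) := by
      have h2 := qn_add p hp hr 1 (m : ℤ)
      rw [qn_one p hp hr, add_comm (1 : ℤ)] at h2
      rw [h2, ← zpow_natCast, ← zpow_mul, zpow_sub₀ hp, zpow_one, zpow_neg_one]
      have h3 : (p : k) ^ (2 * (m : ℤ)) = p ^ (m : ℤ) * p ^ (m : ℤ) := by
        rw [← zpow_add₀ hp]
        congr 1
        ring
      rw [h3]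
      ring
    have hβ : (p ^ (-2 : ℤ)) ^ m + qn p m * p ^ (1 - (m : ℤ))
        = qn p ((m : ℤ) + 1) * p ^ (-(m : ℤ)) := by
      have h2 := qn_add p hp hr (m : ℤ) 1
      rw [qn_one p hp hr] at h2
      rw [h2, ← zpow_natCast, ← zpow_mul, sub_eq_add_neg, zpow_add₀ hp, zpow_one]
      have h3 : (p : k) ^ (-2 * (m : ℤ)) = p ^ (-(m : ℤ)) * p ^ (-(m : ℤ)) := by
        rw [← zpow_add₀ hp]
        congr 1
        ring
      rw [h3]
      ring
    have hK := serreComm_pow x K _ hKx m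
    have hL := serreComm_pow x L _ hLx m
    have e1 : ((m + 1 : ℕ) : ℤ) - 1 = (m : ℤ) := by push_cast; ring
    have e2 : (1 : ℤ) - ((m + 1 : ℕ) : ℤ) = -(m : ℤ) := by push_cast; ring
    have e3 : ((m + 1 : ℕ) : ℤ) = (m : ℤ) + 1 := by push_cast; ring
    rw [e1, e2, e3, Nat.add_sub_cancel]
    have hL1 : x ^ (m + 1) * f = f * x ^ (m + 1) + c • (K * x ^ m - L * x ^ m)
        + (c * qn p m) • (x ^ m * (p ^ ((m : ℤ) - 1) • K - p ^ (1 - (m : ℤ)) • L)) := by
      rw [← h1, pow_succ', mul_assoc, ih, mul_add, ← mul_assoc, hxf, add_mul, smul_mul_assoc,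
        sub_mul, mul_smul_comm, mul_assoc f]
    rw [hL1, hK, hL]
    simp only [mul_sub, mul_smul_comm]
    linear_combination (norm := module) (c * hα) • (x ^ m * K) - (c * hβ) • (x ^ m * L)

lemma serreComm_i (p : k) (hp : p ≠ 0) (hr : ∀ n : ℕ, 0 < n → p ^ n ≠ 1) (x y f K L : B) (c : k)
    (n : ℕ)
    (hxf : x * f = f * x + c • (K - L)) (hyf : y * f = f * y)
    (hKx : K * x = p ^ (2 : ℤ) • (x * K)) (hLx : L * x = p ^ (-2 : ℤ) • (x * L))
    (hKy : K * y = p ^ (1 - (n : ℤ)) • (y * K)) (hLy : L * y = p ^ ((n : ℤ) - 1) • (y * L)) :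
    serre p n x y * f = f * serre p n x y := by
  set w : ℕ → k := fun s => (-1) ^ s * qb p n s with hw
  set T1 : ℕ → B := fun s => (w s * (c * qn p ((n : ℤ) - s))) •
    (x ^ (n - s - 1) * (p ^ ((n : ℤ) - s - 1) • K - p ^ (1 - ((n : ℤ) - s)) • L) * y * x ^ s)
    with hT1
  set T2 : ℕ → B := fun s => (w s * (c * qn p s)) •
    (x ^ (n - s) * y * (x ^ (s - 1) * (p ^ ((s : ℤ) - 1) • K - p ^ (1 - (s : ℤ)) • L))) with hT2
  have hterm : ∀ s ∈ Finset.range (n + 1), (w s • (x ^ (n - s) * y * x ^ s)) * f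
      = f * (w s • (x ^ (n - s) * y * x ^ s)) + (T1 s + T2 s) := by
    intro s hs
    have hsn : s ≤ n := by
      have := Finset.mem_range.1 hs
      omega
    have h1 := serreComm_xf p hp hr x f K L c hxf hKx hLx s
    have h2 := serreComm_xf p hp hr x f K L c hxf hKx hLx (n - s)
    rw [Nat.cast_sub hsn] at h2
    simp only [hT1, hT2]
    rw [smul_mul_assoc, mul_assoc (x ^ (n - s) * y), h1, mul_add, ← mul_assoc (x ^ (n - s) * y) f,
      mul_assoc (x ^ (n - s)) y f, hyf, ← mul_assoc (x ^ (n - s)) f y, h2]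
    simp only [add_mul, smul_mul_assoc, mul_smul_comm, smul_add, smul_smul, mul_assoc]
    abel
  have hsum : serre p n x y * f = f * serre p n x y +
      ∑ s ∈ Finset.range (n + 1), (T1 s + T2 s) := by
    unfold serre
    rw [Finset.sum_mul, Finset.mul_sum, ← Finset.sum_add_distrib]
    exact Finset.sum_congr rfl hterm
  rw [hsum]
  have hz : ∑ s ∈ Finset.range (n + 1), (T1 s + T2 s) = 0 := by
    rw [Finset.sum_add_distrib, Finset.sum_range_succ T1, Finset.sum_range_succ' T2]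
    have hT1n : T1 n = 0 := by simp [hT1, qn_zero]
    have hT20 : T2 0 = 0 := by simp [hT2, qn_zero]
    rw [hT1n, hT20, add_zero, add_zero, ← Finset.sum_add_distrib]
    refine Finset.sum_eq_zero fun s hs => ?_
    have hsn : s < n := Finset.mem_range.1 hs
    have hq := qb_mul p hp hr hsn
    simp only [hT1, hT2]
    have e1 : n - (s + 1) = n - s - 1 := by omega
    have e2 : ((s + 1 : ℕ) : ℤ) - 1 = (s : ℤ) := by push_cast; ring
    have e3 : (1 : ℤ) - ((s + 1 : ℕ) : ℤ) = -(s : ℤ) := by push_cast; ring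
    have e4 : ((s + 1 : ℕ) : ℤ) = (s : ℤ) + 1 := by push_cast; ring
    rw [e1, e2, e3, e4, Nat.add_sub_cancel]
    -- move K and L to the right
    have hKyx : K * y * x ^ s = (p ^ (1 - (n : ℤ)) * p ^ (2 * (s : ℤ))) • (y * x ^ s * K) := by
      rw [hKy, smul_mul_assoc, mul_assoc y K, serreComm_pow x K _ hKx s, mul_smul_comm, smul_smul,
        ← mul_assoc, ← zpow_natCast, ← zpow_mul]
    have hLyx : L * y * x ^ s = (p ^ ((n : ℤ) - 1) * p ^ (-2 * (s : ℤ))) • (y * x ^ s * L) := by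
      rw [hLy, smul_mul_assoc, mul_assoc y L, serreComm_pow x L _ hLx s, mul_smul_comm, smul_smul,
        ← mul_assoc, ← zpow_natCast, ← zpow_mul]
    have hM1 : x ^ (n - s - 1) * (p ^ ((n : ℤ) - s - 1) • K - p ^ (1 - ((n : ℤ) - s)) • L) * y * x ^ s
        = p ^ (s : ℤ) • (x ^ (n - s - 1) * y * x ^ s * K)
          - p ^ (-(s : ℤ)) • (x ^ (n - s - 1) * y * x ^ s * L) := by
      have h1 : x ^ (n - s - 1) * (p ^ ((n : ℤ) - s - 1) • K - p ^ (1 - ((n : ℤ) - s)) • L) * y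
          * x ^ s = x ^ (n - s - 1) * (p ^ ((n : ℤ) - s - 1) • (K * y * x ^ s)
            - p ^ (1 - ((n : ℤ) - s)) • (L * y * x ^ s)) := by
        simp only [mul_assoc, sub_mul, smul_mul_assoc]
      rw [h1, hKyx, hLyx, smul_smul, smul_smul, mul_sub, mul_smul_comm, mul_smul_comm,
        ← zpow_add₀ hp, ← zpow_add₀ hp, ← zpow_add₀ hp, ← zpow_add₀ hp]
      have e5 : (n : ℤ) - s - 1 + (1 - (n : ℤ) + 2 * (s : ℤ)) = s := by ring
      have e6 : 1 - ((n : ℤ) - s) + ((n : ℤ) - 1 + -2 * (s : ℤ)) = -s := by ring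
      rw [e5, e6]
      simp only [mul_assoc]
    have hM2 : x ^ (n - s - 1) * y * (x ^ s * (p ^ (s : ℤ) • K - p ^ (-(s : ℤ)) • L))
        = p ^ (s : ℤ) • (x ^ (n - s - 1) * y * x ^ s * K)
          - p ^ (-(s : ℤ)) • (x ^ (n - s - 1) * y * x ^ s * L) := by
      simp only [mul_assoc, mul_sub, mul_smul_comm]
    rw [hM1, hM2, ← add_smul]
    have hz : w s * (c * qn p ((n : ℤ) - s)) + w (s + 1) * (c * qn p ((s : ℤ) + 1)) = 0 := by
      simp only [hw, pow_succ]
      linear_combination (-((-1) ^ s * c)) * hq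
    rw [hz, zero_smul]
  rw [hz, add_zero]

lemma serreComm_j (p : k) (hp : p ≠ 0) (hr : ∀ n : ℕ, 0 < n → p ^ n ≠ 1) (x y f K L : B) (c : k)
    (n : ℕ) (hn : 0 < n)
    (hyf : y * f = f * y + c • (K - L)) (hxf : x * f = f * x)
    (hKx : K * x = p ^ (1 - (n : ℤ)) • (x * K)) (hLx : L * x = p ^ ((n : ℤ) - 1) • (x * L)) :
    serre p n x y * f = f * serre p n x y := by
  have hxm : ∀ m : ℕ, x ^ m * f = f * x ^ m := fun m => (Commute.pow_left hxf m : _)
  have hterm : ∀ s ∈ Finset.range (n + 1), (((-1) ^ s * qb p n s) • (x ^ (n - s) * y * x ^ s)) * f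
      = f * (((-1) ^ s * qb p n s) • (x ^ (n - s) * y * x ^ s))
        + (c * ((-1) ^ s * qb p n s * (p ^ (1 - (n : ℤ))) ^ s)) • (x ^ n * K)
        - (c * ((-1) ^ s * qb p n s * (p ^ ((n : ℤ) - 1)) ^ s)) • (x ^ n * L) := by
    intro s hs
    have hsn : s ≤ n := by
      have := Finset.mem_range.1 hs
      omega
    have h1 := serreComm_pow x K _ hKx s
    have h2 := serreComm_pow x L _ hLx s
    have h3 : x ^ (n - s) * x ^ s = x ^ n := by rw [← pow_add, Nat.sub_add_cancel hsn]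
    have h4 : x ^ (n - s) * y * x ^ s * f = f * (x ^ (n - s) * y * x ^ s)
        + c • (x ^ (n - s) * (K * x ^ s) - x ^ (n - s) * (L * x ^ s)) := by
      rw [mul_assoc (x ^ (n - s) * y), hxm s, ← mul_assoc (x ^ (n - s) * y) f,
        mul_assoc (x ^ (n - s)) y f, hyf, mul_add, ← mul_assoc (x ^ (n - s)) f y, hxm (n - s)]
      simp only [add_mul, smul_mul_assoc, mul_smul_comm, mul_assoc, mul_sub, sub_mul]
    have h5 : x ^ (n - s) * (K * x ^ s) = (p ^ (1 - (n : ℤ))) ^ s • (x ^ n * K) := by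
      rw [h1, mul_smul_comm, ← mul_assoc, h3]
    have h6 : x ^ (n - s) * (L * x ^ s) = (p ^ ((n : ℤ) - 1)) ^ s • (x ^ n * L) := by
      rw [h2, mul_smul_comm, ← mul_assoc, h3]
    rw [smul_mul_assoc, h4, h5, h6, mul_smul_comm]
    module
  unfold serre
  rw [Finset.sum_mul, Finset.mul_sum, Finset.sum_congr rfl hterm, Finset.sum_sub_distrib,
    Finset.sum_add_distrib, ← Finset.sum_smul, ← Finset.sum_smul]
  have hA : ∑ s ∈ Finset.range (n + 1), (-1) ^ s * qb p n s * (p ^ (1 - (n : ℤ))) ^ s = 0 := by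
    have h := qb_sum_eq_zero p hp hr (n := n) (n - 1) (by omega)
    have e : (n : ℤ) - 1 - 2 * ((n - 1 : ℕ) : ℤ) = 1 - (n : ℤ) := by
      rw [Nat.cast_sub hn]; push_cast; ring
    rwa [e] at h
  have hB : ∑ s ∈ Finset.range (n + 1), (-1) ^ s * qb p n s * (p ^ ((n : ℤ) - 1)) ^ s = 0 := by
    have h := qb_sum_eq_zero p hp hr (n := n) 0 hn
    have e : (n : ℤ) - 1 - 2 * ((0 : ℕ) : ℤ) = (n : ℤ) - 1 := by push_cast; ring
    rwa [e] at h
  have hA' : ∑ s ∈ Finset.range (n + 1), c * ((-1) ^ s * qb p n s * (p ^ (1 - (n : ℤ))) ^ s) = 0 := by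
    rw [← Finset.mul_sum, hA, mul_zero]
  have hB' : ∑ s ∈ Finset.range (n + 1), c * ((-1) ^ s * qb p n s * (p ^ ((n : ℤ) - 1)) ^ s) = 0 := by
    rw [← Finset.mul_sum, hB, mul_zero]
  rw [hA', hB', zero_smul, zero_smul, add_zero, sub_zero]

lemma serreComm_qi_ne (Q : QD k I) (i : I) : Q.qi i ≠ 0 := pow_ne_zero _ Q.q_ne

lemma serreComm_qi_root (Q : QD k I) (i : I) (n : ℕ) (hn : 0 < n) : Q.qi i ^ n ≠ 1 := by
  unfold QD.qi
  rw [← pow_mul]
  exact Q.q_root _ (Nat.mul_pos (Q.d_pos i) hn)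

lemma serreComm_qi_zpow (Q : QD k I) (i : I) (m : ℤ) :
    Q.qi i ^ m = Q.q ^ ((Q.d i : ℤ) * m) := by
  unfold QD.qi
  rw [← zpow_natCast, ← zpow_mul]

/-- `[serre(E_i, E_j), F_l] = 0`; only the relations of `QPre` are used. -/
theorem QPre.serreE_F (e : QPre Q Jp Jm B) {i j l : I} (hi : i ∈ Jp) (hj : j ∈ Jp) (hij : i ≠ j)
    (hl : l ∈ Jm) :
    serre (Q.qi i) (1 - Q.a i j).toNat (e.E i) (e.E j) * e.F l
      = e.F l * serre (Q.qi i) (1 - Q.a i j).toNat (e.E i) (e.E j) := by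
  have hp := serreComm_qi_ne Q i
  have hr := serreComm_qi_root Q i
  have ha := Q.nonpos i j hij
  set n : ℕ := (1 - Q.a i j).toNat with hn
  have hnz : (n : ℤ) = 1 - Q.a i j := by
    rw [hn]
    exact Int.toNat_of_nonneg (by omega)
  have hnpos : 0 < n := by omega
  have haij : Q.a i j = 1 - (n : ℤ) := by omega
  by_cases hli : l = i
  · subst hli
    have h1 := e.EF l l hi hl
    rw [if_pos rfl] at h1
    have h2 := e.EF j l hj hl
    rw [if_neg (Ne.symm hij), add_zero] at h2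
    refine serreComm_i (Q.qi l) hp hr (e.E l) (e.E j) (e.F l) (e.K l) (e.L l) _ n h1 h2 ?_ ?_ ?_ ?_
    · rw [serreComm_qi_zpow, ← Q.diag l]
      exact e.KE l l
    · rw [serreComm_qi_zpow, ← Q.diag l, mul_neg]
      exact e.LE l l
    · rw [serreComm_qi_zpow, ← haij]
      exact e.KE l j
    · have h3 : (n : ℤ) - 1 = -(Q.a l j) := by omega
      rw [serreComm_qi_zpow, h3, mul_neg]
      exact e.LE l j
  · by_cases hlj : l = j
    · subst hlj
      have h1 := e.EF l l hj hl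
      rw [if_pos rfl] at h1
      have h2 := e.EF i l hi hl
      rw [if_neg hij, add_zero] at h2
      have hs := Q.symm i l
      refine serreComm_j (Q.qi i) hp hr (e.E i) (e.E l) (e.F l) (e.K l) (e.L l) _ n hnpos h1 h2
        ?_ ?_
      · rw [serreComm_qi_zpow, ← haij, hs]
        exact e.KE l i
      · have h3 : (n : ℤ) - 1 = -(Q.a i l) := by omega
        rw [serreComm_qi_zpow, h3, mul_neg, hs]
        exact e.LE l i
    · have h1 := e.EF i l hi hl
      rw [if_neg (Ne.symm hli), add_zero] at h1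
      have h2 := e.EF j l hj hl
      rw [if_neg (Ne.symm hlj), add_zero] at h2
      have c1 : Commute (e.E i) (e.F l) := h1
      have c2 : Commute (e.E j) (e.F l) := h2
      have : Commute (serre (Q.qi i) n (e.E i) (e.E j)) (e.F l) := by
        unfold serre
        refine Commute.sum_left _ _ _ fun s _ => ?_
        refine Commute.smul_left ?_ _
        exact ((c1.pow_left _).mul_left c2).mul_left (c1.pow_left _)
      exact this

/-- `[serre(F_i, F_j), E_l] = 0` -/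
theorem QPre.serreF_E (e : QPre Q Jp Jm B) {i j l : I} (hi : i ∈ Jm) (hj : j ∈ Jm) (hij : i ≠ j)
    (hl : l ∈ Jp) :
    serre (Q.qi i) (1 - Q.a i j).toNat (e.F i) (e.F j) * e.E l
      = e.E l * serre (Q.qi i) (1 - Q.a i j).toNat (e.F i) (e.F j) :=
  e.flip.serreE_F hi hj hij hl

end Pool.Agent.Lib.QG
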