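import Pool.Agent.Lib.MP_021f05_al.Half
import Pool.Agent.Lib.MP_021f05_al.SerreComm

/-!
# MP_021f05_al (A3): the module `HA(Jm) ⊗ W` induced from a module `W` over `𝔸(Jp, ∅)`
-/

noncomputable section

namespace Pool.Agent.Lib.QG

open scoped TensorProduct

variable {k : Type} [Field k] {I : Type} [Fintype I] [DecidableEq I]

lemma halfInd_serre_smul {H : Type} [Ring H] [Algebra k H] (p : k) (n : ℕ) (s u : k) (x y : H) :
    serre p n (s • x) (u • y) = (s ^ n * u) • serre p n x y := by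
  unfold serre
  rw [Finset.smul_sum]
  refine Finset.sum_congr rfl fun m hm => ?_
  have hmn : m ≤ n := by
    have := Finset.mem_range.1 hm
    omega
  have h1 : s ^ (n - m) * s ^ m = s ^ n := by rw [← pow_add, Nat.sub_add_cancel hmn]
  rw [smul_pow, smul_pow, smul_mul_smul_comm, smul_mul_smul_comm, smul_smul, smul_smul, ← h1]
  congr 1
  ring

/-! ### skew derivations of the free algebra -/

/-- the matrices of the skew derivation -/
def halfIndM {H : Type} [Ring H] [Algebra k H] (t : I → k) (l : I) (x : I → H) (j : I) :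
    Matrix (Fin 2) (Fin 2) H :=
  !![x j, if j = l then 1 else 0; 0, t j • x j]

/-- the skew derivation of the free algebra, as a matrix representation -/
def halfIndPhi (t : I → k) (l : I) :
    FreeAlgebra k I →ₐ[k] Matrix (Fin 2) (Fin 2) (FreeAlgebra k I) :=
  FreeAlgebra.lift k (halfIndM t l (FreeAlgebra.ι k))

lemma halfInd_mul_apply {H : Type} [Ring H] (A B : Matrix (Fin 2) (Fin 2) H) (i j : Fin 2) :
    (A * B) i j = A i 0 * B 0 j + A i 1 * B 1 j := by
  rw [Matrix.mul_apply, Fin.sum_univ_two]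

lemma halfIndPhi_ι (t : I → k) (l j : I) :
    halfIndPhi t l (FreeAlgebra.ι k j) = halfIndM t l (FreeAlgebra.ι k) j := by
  unfold halfIndPhi
  exact FreeAlgebra.lift_ι_apply _ _

lemma halfIndPhi_entries (t : I → k) (l : I) (y : FreeAlgebra k I) :
    halfIndPhi t l y 0 0 = y ∧ halfIndPhi t l y 1 0 = 0 := by
  induction y using FreeAlgebra.induction with
  | grade0 r =>
    rw [AlgHom.commutes, Matrix.algebraMap_matrix_apply, Matrix.algebraMap_matrix_apply]
    simp
  | grade1 x =>
    rw [halfIndPhi_ι]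
    simp [halfIndM]
  | mul a b ha hb =>
    rw [map_mul, halfInd_mul_apply, halfInd_mul_apply, ha.1, ha.2, hb.1, hb.2]
    simp
  | add a b ha hb =>
    rw [map_add, Matrix.add_apply, Matrix.add_apply, ha.1, ha.2, hb.1, hb.2]
    simp

/-- the skew derivation of the free algebra -/
def halfIndR (t : I → k) (l : I) : FreeAlgebra k I →ₗ[k] FreeAlgebra k I where
  toFun y := halfIndPhi t l y 0 1
  map_add' a b := by rw [map_add, Matrix.add_apply]
  map_smul' c a := by rw [map_smul, Matrix.smul_apply, RingHom.id_apply]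

/-- the scaling of the free algebra -/
def halfIndSg (t : I → k) (l : I) : FreeAlgebra k I →ₗ[k] FreeAlgebra k I where
  toFun y := halfIndPhi t l y 1 1
  map_add' a b := by rw [map_add, Matrix.add_apply]
  map_smul' c a := by rw [map_smul, Matrix.smul_apply, RingHom.id_apply]

lemma halfIndR_ι_mul (t : I → k) (l j : I) (y : FreeAlgebra k I) :
    halfIndR t l (FreeAlgebra.ι k j * y)
      = FreeAlgebra.ι k j * halfIndR t l y + (if j = l then halfIndSg t l y else 0) := by
  show halfIndPhi t l (FreeAlgebra.ι k j * y) 0 1 = _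
  rw [map_mul, halfInd_mul_apply, halfIndPhi_ι]
  simp only [halfIndM, halfIndR, halfIndSg, LinearMap.coe_mk, AddHom.coe_mk]
  split_ifs <;> simp

lemma halfIndSg_ι_mul (t : I → k) (l j : I) (y : FreeAlgebra k I) :
    halfIndSg t l (FreeAlgebra.ι k j * y) = t j • (FreeAlgebra.ι k j * halfIndSg t l y) := by
  show halfIndPhi t l (FreeAlgebra.ι k j * y) 1 1 = _
  rw [map_mul, halfInd_mul_apply, halfIndPhi_ι]
  simp [halfIndM, halfIndSg]

lemma halfIndR_one (t : I → k) (l : I) : halfIndR t l 1 = 0 := by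
  show halfIndPhi t l 1 0 1 = 0
  rw [map_one]
  simp

/-- from a commutation relation in the endomorphism algebra to the vanishing of the derivation -/
lemma halfInd_of_comm (t : I → k) (l : I) (p : k) (n : ℕ) (a b : I)
    (h : serre p n (Algebra.lmul k (FreeAlgebra k I) (FreeAlgebra.ι k a))
        (Algebra.lmul k (FreeAlgebra k I) (FreeAlgebra.ι k b)) * (-(halfIndR t l))
      = (-(halfIndR t l)) * serre p n (Algebra.lmul k (FreeAlgebra k I) (FreeAlgebra.ι k a))
        (Algebra.lmul k (FreeAlgebra k I) (FreeAlgebra.ι k b))) :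
    halfIndR t l (serre p n (FreeAlgebra.ι k a) (FreeAlgebra.ι k b)) = 0 := by
  rw [← serre_map] at h
  have h1 := LinearMap.congr_fun h 1
  simp only [Module.End.mul_apply, LinearMap.neg_apply, halfIndR_one, neg_zero, map_zero,
    Algebra.coe_lmul_eq_mul, LinearMap.mul_apply', mul_one] at h1
  exact neg_eq_zero.1 h1.symm

/-- the scalars -/
def halfIndT (Q : QD k I) (ε : ℤ) (l j : I) : k := Q.q ^ (ε * ((Q.d l : ℤ) * Q.a l j))

lemma halfInd_R_serre (Q : QD k I) (ε : ℤ) (hε : ε = 1 ∨ ε = -1) (l a b : I) (hab : a ≠ b) :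
    halfIndR (halfIndT Q ε l) l
      (serre (Q.qi a) (1 - Q.a a b).toNat (FreeAlgebra.ι k a) (FreeAlgebra.ι k b)) = 0 := by
  have hp := serreComm_qi_ne Q a
  have hr := serreComm_qi_root Q a
  have ha := Q.nonpos a b hab
  set n : ℕ := (1 - Q.a a b).toNat with hn
  have hnz : (n : ℤ) = 1 - Q.a a b := by
    rw [hn]
    exact Int.toNat_of_nonneg (by omega)
  have hnpos : 0 < n := by omega
  apply halfInd_of_comm
  set X := Algebra.lmul k (FreeAlgebra k I) (FreeAlgebra.ι k a) with hX
  set Y := Algebra.lmul k (FreeAlgebra k I) (FreeAlgebra.ι k b) with hY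
  set R := halfIndR (halfIndT Q ε l) l with hR
  set S := halfIndSg (halfIndT Q ε l) l with hS
  have hXR : X * (-R) = (-R) * X + (if a = l then S else 0) := by
    refine LinearMap.ext fun z => ?_
    simp only [hX, hR, hS, Module.End.mul_apply, LinearMap.add_apply, LinearMap.neg_apply,
      Algebra.coe_lmul_eq_mul, LinearMap.mul_apply', halfIndR_ι_mul]
    split_ifs <;> simp
  have hYR : Y * (-R) = (-R) * Y + (if b = l then S else 0) := by
    refine LinearMap.ext fun z => ?_
    simp only [hY, hR, hS, Module.End.mul_apply, LinearMap.add_apply, LinearMap.neg_apply,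
      Algebra.coe_lmul_eq_mul, LinearMap.mul_apply', halfIndR_ι_mul]
    split_ifs <;> simp
  have hSX : S * X = halfIndT Q ε l a • (X * S) := by
    refine LinearMap.ext fun z => ?_
    simp only [hX, hS, Module.End.mul_apply, LinearMap.smul_apply,
      Algebra.coe_lmul_eq_mul, LinearMap.mul_apply', halfIndSg_ι_mul]
  have hSY : S * Y = halfIndT Q ε l b • (Y * S) := by
    refine LinearMap.ext fun z => ?_
    simp only [hY, hS, Module.End.mul_apply, LinearMap.smul_apply,
      Algebra.coe_lmul_eq_mul, LinearMap.mul_apply', halfIndSg_ι_mul]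
  by_cases hla : a = l
  · subst hla
    rw [if_pos rfl] at hXR
    rw [if_neg (Ne.symm hab), add_zero] at hYR
    rcases hε with rfl | rfl
    · refine serreComm_i (Q.qi a) hp hr X Y (-R) S 0 1 n ?_ hYR ?_ ?_ ?_ ?_
      · rw [hXR, sub_zero, one_smul]
      · rw [hSX, serreComm_qi_zpow, ← Q.diag a]
        unfold halfIndT
        rw [one_mul]
      · simp
      · have h3 : 1 - (n : ℤ) = Q.a a b := by omega
        rw [hSY, serreComm_qi_zpow, h3]
        unfold halfIndT
        rw [one_mul]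
      · simp
    · refine serreComm_i (Q.qi a) hp hr X Y (-R) 0 S (-1) n ?_ hYR ?_ ?_ ?_ ?_
      · rw [hXR, zero_sub, neg_smul_neg, one_smul]
      · simp
      · rw [hSX, serreComm_qi_zpow, ← Q.diag a]
        unfold halfIndT
        congr 2
        ring
      · simp
      · have h3 : (n : ℤ) - 1 = -(Q.a a b) := by omega
        rw [hSY, serreComm_qi_zpow, h3]
        unfold halfIndT
        congr 2
        ring
  · rw [if_neg hla, add_zero] at hXR
    by_cases hlb : b = l
    · subst hlb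
      rw [if_pos rfl] at hYR
      have hs := Q.symm a b
      rcases hε with rfl | rfl
      · refine serreComm_j (Q.qi a) hp hr X Y (-R) S 0 1 n hnpos ?_ hXR ?_ ?_
        · rw [hYR, sub_zero, one_smul]
        · have h3 : 1 - (n : ℤ) = Q.a a b := by omega
          rw [hSX, serreComm_qi_zpow, h3, hs]
          unfold halfIndT
          rw [one_mul]
        · simp
      · refine serreComm_j (Q.qi a) hp hr X Y (-R) 0 S (-1) n hnpos ?_ hXR ?_ ?_
        · rw [hYR, zero_sub, neg_smul_neg, one_smul]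
        · simp
        · have h3 : (n : ℤ) - 1 = -(Q.a a b) := by omega
          rw [hSX, serreComm_qi_zpow, h3, mul_neg, hs]
          unfold halfIndT
          congr 2
          ring
    · rw [if_neg hlb, add_zero] at hYR
      have c1 : Commute X (-R) := hXR
      have c2 : Commute Y (-R) := hYR
      have : Commute (serre (Q.qi a) n X Y) (-R) := by
        unfold serre
        refine Commute.sum_left _ _ _ fun s _ => ?_
        refine Commute.smul_left ?_ _
        exact ((c1.pow_left _).mul_left c2).mul_left (c1.pow_left _)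
      exact this

lemma halfInd_Sg_pow (t : I → k) (l : I) (y : FreeAlgebra k I) (a : I) (m : ℕ) :
    halfIndSg t l (FreeAlgebra.ι k a ^ m * y) = t a ^ m • (FreeAlgebra.ι k a ^ m * halfIndSg t l y) := by
  induction m with
  | zero => simp
  | succ m ih =>
    rw [pow_succ', mul_assoc, halfIndSg_ι_mul, ih, pow_succ', mul_smul_comm, smul_smul, mul_assoc]

lemma halfIndSg_serre (t : I → k) (l a b : I) (p : k) (n : ℕ) :
    halfIndSg t l (serre p n (FreeAlgebra.ι k a) (FreeAlgebra.ι k b))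
      = (t a ^ n * t b) • serre p n (FreeAlgebra.ι k a) (FreeAlgebra.ι k b) := by
  have h1 : halfIndSg t l 1 = 1 := by
    show halfIndPhi t l 1 1 1 = 1
    rw [map_one]
    simp
  unfold serre
  rw [map_sum, Finset.smul_sum]
  refine Finset.sum_congr rfl fun m hm => ?_
  have hmn : m ≤ n := by
    have := Finset.mem_range.1 hm
    omega
  have h2 : t a ^ (n - m) * t a ^ m = t a ^ n := by rw [← pow_add, Nat.sub_add_cancel hmn]
  have h3 := halfInd_Sg_pow t l 1 a m
  rw [mul_one, h1, mul_one] at h3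
  rw [map_smul, mul_assoc, halfInd_Sg_pow, halfIndSg_ι_mul, h3, mul_smul_comm, mul_smul_comm,
    mul_smul_comm, smul_smul, smul_smul, smul_smul, smul_smul, ← h2]
  congr 1
  ring

/-! ### skew derivations of the half algebra -/

section HAlev

variable (Q : QD k I) (Jm : Set I)

/-- the scaling automorphism -/
def halfIndS (ε : ℤ) (l : I) : HA Q Jm →ₐ[k] HA Q Jm :=
  HA.lift (fun j => halfIndT Q ε l j • HA.x Q Jm j)
    (fun i hi => by rw [HA.x_zero hi, smul_zero])
    (fun i j hi hj hij => by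
      rw [halfInd_serre_smul, HA.x_serre hi hj hij, smul_zero])

lemma halfIndS_x (ε : ℤ) (l j : I) :
    halfIndS Q Jm ε l (HA.x Q Jm j) = halfIndT Q ε l j • HA.x Q Jm j := HA.lift_x _ _ _ _

/-- the skew derivation as a matrix representation -/
def halfIndPsi (ε : ℤ) (hε : ε = 1 ∨ ε = -1) (l : I) :
    HA Q Jm →ₐ[k] Matrix (Fin 2) (Fin 2) (HA Q Jm) :=
  open Classical in
  HA.lift (fun j => if j ∈ Jm then halfIndM (halfIndT Q ε l) l (HA.x Q Jm) j else 0)
    (fun i hi => by rw [if_neg hi])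
    (fun a b ha hb hab => by
      rw [if_pos ha, if_pos hb]
      have hM : ∀ j, halfIndM (halfIndT Q ε l) l (HA.x Q Jm) j
          = (HA.mk Q Jm).mapMatrix (halfIndPhi (halfIndT Q ε l) l (FreeAlgebra.ι k j)) := by
        intro j
        rw [halfIndPhi_ι]
        ext i i'
        fin_cases i <;> fin_cases i'
        · simp [halfIndM, HA.x]
        · simp only [halfIndM]
          split_ifs <;> simp
        · simp [halfIndM]
        · simp [halfIndM, HA.x]
      rw [hM a, hM b, ← serre_map, ← serre_map]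
      have hs := HA.x_serre (Q := Q) ha hb hab
      unfold HA.x at hs
      rw [← serre_map] at hs
      obtain ⟨h1, h2⟩ := halfIndPhi_entries (halfIndT Q ε l) l
        (serre (Q.qi a) (1 - Q.a a b).toNat (FreeAlgebra.ι k a) (FreeAlgebra.ι k b))
      have h3 := halfInd_R_serre Q ε hε l a b hab
      have h4 := halfIndSg_serre (halfIndT Q ε l) l a b (Q.qi a) (1 - Q.a a b).toNat
      ext i i'
      fin_cases i <;> fin_cases i'
      · show HA.mk Q Jm (halfIndPhi _ _ _ 0 0) = 0
        rw [h1, hs]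
      · show HA.mk Q Jm (halfIndR _ _ _) = 0
        rw [h3, map_zero]
      · show HA.mk Q Jm (halfIndPhi _ _ _ 1 0) = 0
        rw [h2, map_zero]
      · show HA.mk Q Jm (halfIndSg _ _ _) = 0
        rw [h4, map_smul, hs, smul_zero])

lemma halfIndPsi_x (ε : ℤ) (hε : ε = 1 ∨ ε = -1) (l j : I) (hj : j ∈ Jm) :
    halfIndPsi Q Jm ε hε l (HA.x Q Jm j) = halfIndM (halfIndT Q ε l) l (HA.x Q Jm) j := by
  unfold halfIndPsi
  rw [HA.lift_x, if_pos hj]

lemma halfIndPsi_entries (ε : ℤ) (hε : ε = 1 ∨ ε = -1) (l : I) (y : HA Q Jm) :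
    halfIndPsi Q Jm ε hε l y 0 0 = y ∧ halfIndPsi Q Jm ε hε l y 1 0 = 0 ∧
      halfIndPsi Q Jm ε hε l y 1 1 = halfIndS Q Jm ε l y := by
  induction y using HA.induction with
  | hs r =>
    rw [AlgHom.commutes, AlgHom.commutes, Matrix.algebraMap_matrix_apply,
      Matrix.algebraMap_matrix_apply, Matrix.algebraMap_matrix_apply]
    simp
  | hx j =>
    by_cases hj : j ∈ Jm
    · rw [halfIndPsi_x Q Jm ε hε l j hj, halfIndS_x]
      simp [halfIndM]
    · rw [HA.x_zero hj]
      simp
  | hadd a b ha hb =>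
    rw [map_add, map_add, Matrix.add_apply, Matrix.add_apply, Matrix.add_apply, ha.1, ha.2.1,
      ha.2.2, hb.1, hb.2.1, hb.2.2]
    simp
  | hmul a b ha hb =>
    rw [map_mul, map_mul, halfInd_mul_apply, halfInd_mul_apply, halfInd_mul_apply, ha.1, ha.2.1,
      ha.2.2, hb.1, hb.2.1, hb.2.2]
    simp

/-- the skew derivation of the half algebra -/
def halfIndr (ε : ℤ) (hε : ε = 1 ∨ ε = -1) (l : I) : HA Q Jm →ₗ[k] HA Q Jm where
  toFun y := halfIndPsi Q Jm ε hε l y 0 1
  map_add' a b := by rw [map_add, Matrix.add_apply]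
  map_smul' c a := by rw [map_smul, Matrix.smul_apply, RingHom.id_apply]

lemma halfIndr_mul (ε : ℤ) (hε : ε = 1 ∨ ε = -1) (l : I) (a b : HA Q Jm) :
    halfIndr Q Jm ε hε l (a * b)
      = a * halfIndr Q Jm ε hε l b + halfIndr Q Jm ε hε l a * halfIndS Q Jm ε l b := by
  show halfIndPsi Q Jm ε hε l (a * b) 0 1 = _
  rw [map_mul, halfInd_mul_apply, (halfIndPsi_entries Q Jm ε hε l a).1,
    (halfIndPsi_entries Q Jm ε hε l b).2.2]
  rfl

lemma halfIndr_x (ε : ℤ) (hε : ε = 1 ∨ ε = -1) (l j : I) (hj : j ∈ Jm) :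
    halfIndr Q Jm ε hε l (HA.x Q Jm j) = if j = l then 1 else 0 := by
  show halfIndPsi Q Jm ε hε l (HA.x Q Jm j) 0 1 = _
  rw [halfIndPsi_x Q Jm ε hε l j hj]
  simp [halfIndM]

lemma halfIndr_one (ε : ℤ) (hε : ε = 1 ∨ ε = -1) (l : I) :
    halfIndr Q Jm ε hε l 1 = 0 := by
  show halfIndPsi Q Jm ε hε l 1 0 1 = _
  rw [map_one]
  simp

lemma halfIndr_algebraMap (ε : ℤ) (hε : ε = 1 ∨ ε = -1) (l : I) (t : k) :
    halfIndr Q Jm ε hε l (algebraMap k _ t) = 0 := by
  rw [Algebra.algebraMap_eq_smul_one, map_smul, halfIndr_one, smul_zero]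

lemma halfIndS_comm (ε ε' : ℤ) (l i : I) (y : HA Q Jm) :
    halfIndS Q Jm ε l (halfIndS Q Jm ε' i y) = halfIndS Q Jm ε' i (halfIndS Q Jm ε l y) := by
  have h : (halfIndS Q Jm ε l).comp (halfIndS Q Jm ε' i)
      = (halfIndS Q Jm ε' i).comp (halfIndS Q Jm ε l) := by
    apply HA.hom_ext
    intro j
    simp only [AlgHom.comp_apply, halfIndS_x, map_smul]
    rw [smul_comm]
  exact DFunLike.congr_fun h y

lemma halfIndS_inv (l : I) (y : HA Q Jm) :
    halfIndS Q Jm 1 l (halfIndS Q Jm (-1) l y) = y := by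
  have h : (halfIndS Q Jm 1 l).comp (halfIndS Q Jm (-1) l) = AlgHom.id k _ := by
    apply HA.hom_ext
    intro j
    simp only [AlgHom.comp_apply, halfIndS_x, map_smul, smul_smul, AlgHom.id_apply]
    unfold halfIndT
    rw [← zpow_add₀ Q.q_ne]
    simp
  exact DFunLike.congr_fun h y

lemma halfIndS_r (ε ε' : ℤ) (hε : ε = 1 ∨ ε = -1) (l i : I) (y : HA Q Jm) :
    halfIndS Q Jm ε' i (halfIndr Q Jm ε hε l y)
      = Q.q ^ (-ε' * ((Q.d i : ℤ) * Q.a i l)) • halfIndr Q Jm ε hε l (halfIndS Q Jm ε' i y) := by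
  induction y using HA.induction with
  | hs t => rw [AlgHom.commutes, halfIndr_algebraMap]; simp
  | hx j =>
    by_cases hj : j ∈ Jm
    · rw [halfIndS_x, map_smul, halfIndr_x Q Jm ε hε l j hj]
      by_cases hjl : j = l
      · subst hjl
        rw [if_pos rfl, map_one, smul_smul]
        unfold halfIndT
        rw [← zpow_add₀ Q.q_ne]
        simp
      · rw [if_neg hjl]
        simp
    · rw [HA.x_zero hj]
      simp
  | hadd a b ha hb =>
    rw [map_add, map_add, map_add, map_add, ha, hb, smul_add]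
  | hmul a b ha hb =>
    rw [halfIndr_mul, map_add, map_mul, map_mul, map_mul, halfIndr_mul, ha, hb, halfIndS_comm,
      mul_smul_comm, smul_mul_assoc, smul_add]

end HAlev

/-! ### the operators -/

section ops

variable (Q : QD k I) (Jp Jm : Set I) (W : Type) [AddCommGroup W] [Module k W]
    [Module (QA Q Jp ∅) W] [IsScalarTower k (QA Q Jp ∅) W]

/-- the action on `W` as an algebra map -/
def halfIndW : QA Q Jp ∅ →ₐ[k] Module.End k W := Algebra.lsmul k k W

lemma halfIndW_apply (a : QA Q Jp ∅) (w : W) : halfIndW Q Jp W a w = a • w := rfl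

/-- `F_j` -/
def halfIndF (j : I) : Module.End k (HA Q Jm ⊗[k] W) :=
  TensorProduct.map (LinearMap.mulLeft k (HA.x Q Jm j)) LinearMap.id

/-- `K_j` and `L_j` -/
def halfIndK (ε : ℤ) (j : I) (a : QA Q Jp ∅) : Module.End k (HA Q Jm ⊗[k] W) :=
  TensorProduct.map (halfIndS Q Jm ε j).toLinearMap (halfIndW Q Jp W a)

open Classical in
/-- `E_j` -/
def halfIndE (j : I) : Module.End k (HA Q Jm ⊗[k] W) :=
  if j ∈ Jp then
    TensorProduct.map LinearMap.id (halfIndW Q Jp W ((QA.elts Q Jp ∅).E j)) +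
      (Q.qi j - (Q.qi j)⁻¹)⁻¹ •
        (TensorProduct.map (halfIndr Q Jm (-1) (Or.inr rfl) j)
            (halfIndW Q Jp W ((QA.elts Q Jp ∅).K j)) -
          TensorProduct.map (halfIndr Q Jm 1 (Or.inl rfl) j)
            (halfIndW Q Jp W ((QA.elts Q Jp ∅).L j)))
  else 0

lemma halfIndF_tmul (j : I) (y : HA Q Jm) (w : W) :
    halfIndF Q Jm W j (y ⊗ₜ w) = (HA.x Q Jm j * y) ⊗ₜ w := by
  simp [halfIndF]

lemma halfIndK_tmul (ε : ℤ) (j : I) (a : QA Q Jp ∅) (y : HA Q Jm) (w : W) :
    halfIndK Q Jp Jm W ε j a (y ⊗ₜ w) = (halfIndS Q Jm ε j y) ⊗ₜ (a • w) := by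
  simp [halfIndK, halfIndW_apply]

lemma halfIndE_tmul (j : I) (hj : j ∈ Jp) (y : HA Q Jm) (w : W) :
    halfIndE Q Jp Jm W j (y ⊗ₜ w) = y ⊗ₜ ((QA.elts Q Jp ∅).E j • w) +
      (Q.qi j - (Q.qi j)⁻¹)⁻¹ •
        ((halfIndr Q Jm (-1) (Or.inr rfl) j y) ⊗ₜ ((QA.elts Q Jp ∅).K j • w) -
          (halfIndr Q Jm 1 (Or.inl rfl) j y) ⊗ₜ ((QA.elts Q Jp ∅).L j • w)) := by
  unfold halfIndE
  rw [if_pos hj]
  simp [halfIndW_apply]

/-- the relations without the Serre relations -/
def halfIndPre : QPre Q Jp Jm (Module.End k (HA Q Jm ⊗[k] W)) where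
  E := halfIndE Q Jp Jm W
  F := halfIndF Q Jm W
  K j := halfIndK Q Jp Jm W (-1) j ((QA.elts Q Jp ∅).K j)
  L j := halfIndK Q Jp Jm W 1 j ((QA.elts Q Jp ∅).L j)
  KL i := by
    refine TensorProduct.ext' fun y w => ?_
    rw [Module.End.mul_apply, halfIndK_tmul, halfIndK_tmul, halfIndS_comm, halfIndS_inv, smul_smul,
      (QA.elts Q Jp ∅).KL, one_smul, Module.End.one_apply]
  LK i := by
    refine TensorProduct.ext' fun y w => ?_
    rw [Module.End.mul_apply, halfIndK_tmul, halfIndK_tmul, halfIndS_inv, smul_smul,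
      (QA.elts Q Jp ∅).LK, one_smul, Module.End.one_apply]
  KK i j := by
    refine TensorProduct.ext' fun y w => ?_
    rw [Module.End.mul_apply, Module.End.mul_apply, halfIndK_tmul, halfIndK_tmul, halfIndK_tmul,
      halfIndK_tmul, halfIndS_comm, smul_smul, smul_smul, (QA.elts Q Jp ∅).KK]
  KE i j := by
    by_cases hj : j ∈ Jp
    · refine TensorProduct.ext' fun y w => ?_
      have e1 : (QA.elts Q Jp ∅).K i • (QA.elts Q Jp ∅).E j • w
          = Q.q ^ ((Q.d i : ℤ) * Q.a i j) • ((QA.elts Q Jp ∅).E j • (QA.elts Q Jp ∅).K i • w) := by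
        rw [smul_smul, (QA.elts Q Jp ∅).KE, smul_assoc, smul_smul]
      have e2 : (QA.elts Q Jp ∅).K i • (QA.elts Q Jp ∅).K j • w
          = (QA.elts Q Jp ∅).K j • (QA.elts Q Jp ∅).K i • w := by
        rw [smul_smul, (QA.elts Q Jp ∅).KK, smul_smul]
      have e3 : (QA.elts Q Jp ∅).K i • (QA.elts Q Jp ∅).L j • w
          = (QA.elts Q Jp ∅).L j • (QA.elts Q Jp ∅).K i • w := by
        have := (QA.elts Q Jp ∅).pre.L_K j i
        rw [smul_smul, smul_smul]
        exact congrArg (· • w) this.symm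
      rw [Module.End.mul_apply, LinearMap.smul_apply, Module.End.mul_apply,
        halfIndE_tmul Q Jp Jm W j hj, halfIndK_tmul, halfIndE_tmul Q Jp Jm W j hj, map_add,
        map_smul, map_sub, halfIndK_tmul, halfIndK_tmul, halfIndK_tmul, e1, e2, e3, halfIndS_r,
        halfIndS_r, TensorProduct.tmul_smul, ← TensorProduct.smul_tmul', ← TensorProduct.smul_tmul']
      have e4 : -(-1 : ℤ) * ((Q.d i : ℤ) * Q.a i j) = (Q.d i : ℤ) * Q.a i j := by ring
      rw [e4]
      module
    · unfold halfIndE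
      rw [if_neg hj]
      simp
  KF i j := by
    refine TensorProduct.ext' fun y w => ?_
    rw [Module.End.mul_apply, LinearMap.smul_apply, Module.End.mul_apply, halfIndF_tmul,
      halfIndK_tmul, halfIndK_tmul, halfIndF_tmul, map_mul, halfIndS_x, smul_mul_assoc,
      ← TensorProduct.smul_tmul']
    unfold halfIndT
    rw [neg_one_mul]
  EF i j hi hj := by
    refine TensorProduct.ext' fun y w => ?_
    rw [Module.End.mul_apply, LinearMap.add_apply, Module.End.mul_apply, halfIndF_tmul,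
      halfIndE_tmul Q Jp Jm W i hi, halfIndE_tmul Q Jp Jm W i hi, map_add, map_smul, map_sub,
      halfIndF_tmul, halfIndF_tmul, halfIndF_tmul, halfIndr_mul, halfIndr_mul,
      halfIndr_x Q Jm _ _ _ _ hj, halfIndr_x Q Jm _ _ _ _ hj]
    by_cases hij : i = j
    · subst hij
      rw [if_pos rfl, if_pos rfl, one_mul, one_mul, LinearMap.smul_apply, LinearMap.sub_apply,
        halfIndK_tmul, halfIndK_tmul, TensorProduct.add_tmul, TensorProduct.add_tmul]
      module
    · rw [if_neg hij, if_neg (Ne.symm hij), zero_mul, zero_mul, add_zero, add_zero]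
      simp

lemma halfInd_F_all (u : Module.End k (HA Q Jm ⊗[k] W))
    (hu : ∀ l ∈ Jm, u * halfIndF Q Jm W l = halfIndF Q Jm W l * u)
    (h1 : ∀ w : W, u (1 ⊗ₜ w) = 0) : u = 0 := by
  have key : ∀ a : HA Q Jm, ∀ z, u z = 0 →
      u (TensorProduct.map (LinearMap.mulLeft k a) LinearMap.id z) = 0 := by
    intro a
    induction a using HA.induction with
    | hs t =>
      intro z hz
      have : TensorProduct.map (LinearMap.mulLeft k (algebraMap k (HA Q Jm) t))
          (LinearMap.id : W →ₗ[k] W) = t • LinearMap.id := by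
        refine TensorProduct.ext' fun y w => ?_
        simp [Algebra.algebraMap_eq_smul_one, TensorProduct.smul_tmul']
      rw [this, LinearMap.smul_apply, LinearMap.id_apply, map_smul, hz, smul_zero]
    | hx l =>
      intro z hz
      by_cases hl : l ∈ Jm
      · have h2 := LinearMap.congr_fun (hu l hl) z
        rw [Module.End.mul_apply, Module.End.mul_apply, hz, map_zero] at h2
        exact h2
      · have : TensorProduct.map (LinearMap.mulLeft k (HA.x Q Jm l))
          (LinearMap.id : W →ₗ[k] W) = 0 := by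
          refine TensorProduct.ext' fun y w => ?_
          simp [HA.x_zero hl]
        rw [this, LinearMap.zero_apply, map_zero]
    | hadd a b ha hb =>
      intro z hz
      have : TensorProduct.map (LinearMap.mulLeft k (a + b)) (LinearMap.id : W →ₗ[k] W)
          = TensorProduct.map (LinearMap.mulLeft k a) LinearMap.id
            + TensorProduct.map (LinearMap.mulLeft k b) LinearMap.id := by
        refine TensorProduct.ext' fun y w => ?_
        simp [add_mul, TensorProduct.add_tmul]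
      rw [this, LinearMap.add_apply, map_add, ha z hz, hb z hz, add_zero]
    | hmul a b ha hb =>
      intro z hz
      have : TensorProduct.map (LinearMap.mulLeft k (a * b)) (LinearMap.id : W →ₗ[k] W) z
          = TensorProduct.map (LinearMap.mulLeft k a) LinearMap.id
            (TensorProduct.map (LinearMap.mulLeft k b) LinearMap.id z) := by
        rw [← LinearMap.comp_apply, ← TensorProduct.map_comp]
        simp
      rw [this]
      exact ha _ (hb z hz)
  refine TensorProduct.ext' fun y w => ?_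
  have := key y (1 ⊗ₜ w) (h1 w)
  rw [TensorProduct.map_tmul, LinearMap.mulLeft_apply, mul_one, LinearMap.id_apply] at this
  rw [this, LinearMap.zero_apply]

lemma halfIndE_one (j : I) (w : W) :
    halfIndE Q Jp Jm W j (1 ⊗ₜ w) = 1 ⊗ₜ ((QA.elts Q Jp ∅).E j • w) := by
  by_cases hj : j ∈ Jp
  · rw [halfIndE_tmul Q Jp Jm W j hj, halfIndr_one, halfIndr_one]
    simp
  · unfold halfIndE
    rw [if_neg hj, (QA.elts Q Jp ∅).E0 j hj]
    simp

lemma halfIndE_pow_one (j : I) (m : ℕ) (w : W) :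
    (halfIndE Q Jp Jm W j ^ m) (1 ⊗ₜ w) = 1 ⊗ₜ (((QA.elts Q Jp ∅).E j) ^ m • w) := by
  induction m generalizing w with
  | zero => simp
  | succ m ih =>
    rw [pow_succ, Module.End.mul_apply, halfIndE_one, ih, smul_smul, ← pow_succ]

lemma halfInd_serre_one (i j : I) (p : k) (n : ℕ) (w : W) :
    (serre p n (halfIndE Q Jp Jm W i) (halfIndE Q Jp Jm W j)) (1 ⊗ₜ w)
      = 1 ⊗ₜ (serre p n ((QA.elts Q Jp ∅).E i) ((QA.elts Q Jp ∅).E j) • w) := by
  unfold serre
  rw [LinearMap.sum_apply, Finset.sum_smul, TensorProduct.tmul_sum]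
  refine Finset.sum_congr rfl fun s _ => ?_
  rw [LinearMap.smul_apply, Module.End.mul_apply, Module.End.mul_apply, halfIndE_pow_one,
    halfIndE_one, halfIndE_pow_one, smul_smul, smul_smul, smul_assoc]
  exact (TensorProduct.tmul_smul ((-1) ^ s * qb p n s) (1 : HA Q Jm) _).symm

/-- all relations -/
def halfIndElts : QElts Q Jp Jm (Module.End k (HA Q Jm ⊗[k] W)) where
  E := halfIndE Q Jp Jm W
  F := halfIndF Q Jm W
  K j := halfIndK Q Jp Jm W (-1) j ((QA.elts Q Jp ∅).K j)
  L j := halfIndK Q Jp Jm W 1 j ((QA.elts Q Jp ∅).L j)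
  KL := (halfIndPre Q Jp Jm W).KL
  LK := (halfIndPre Q Jp Jm W).LK
  KK := (halfIndPre Q Jp Jm W).KK
  KE := (halfIndPre Q Jp Jm W).KE
  KF := (halfIndPre Q Jp Jm W).KF
  EF := (halfIndPre Q Jp Jm W).EF
  E0 i hi := by
    unfold halfIndE
    rw [if_neg hi]
  F0 i hi := by
    refine TensorProduct.ext' fun y w => ?_
    rw [halfIndF_tmul, HA.x_zero hi, zero_mul, TensorProduct.zero_tmul, LinearMap.zero_apply]
  SE i j hi hj hij := by
    refine halfInd_F_all Q Jm W _ ?_ ?_
    · intro l hl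
      exact (halfIndPre Q Jp Jm W).serreE_F hi hj hij hl
    · intro w
      rw [halfInd_serre_one, (QA.elts Q Jp ∅).SE i j hi hj hij, zero_smul, TensorProduct.tmul_zero]
  SF i j hi hj hij := by
    have hF : ∀ l, halfIndF Q Jm W l
        = ((Module.End.rTensorAlgHom k (HA Q Jm) W).comp (Algebra.lmul k (HA Q Jm)))
            (HA.x Q Jm l) := by
      intro l
      refine TensorProduct.ext' fun y w => ?_
      rw [halfIndF_tmul]
      rfl
    rw [hF i, hF j, ← serre_map, HA.x_serre hi hj hij, map_zero]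

end ops

/-- Every module `W` over `𝔸(Jp, ∅)` extends to a module structure on `HA(Jm) ⊗ W`. -/
theorem exists_ind (Q : QD k I) (Jp Jm : Set I) (W : Type) [AddCommGroup W] [Module k W]
    [Module (QA Q Jp ∅) W] [IsScalarTower k (QA Q Jp ∅) W] :
    ∃ ρ : QA Q Jp Jm →ₐ[k] Module.End k (HA Q Jm ⊗[k] W),
      (∀ j y w, ρ ((QA.elts Q Jp Jm).F j) (y ⊗ₜ w) = (HA.x Q Jm j * y) ⊗ₜ w) ∧
      (∀ j w, ρ ((QA.elts Q Jp Jm).E j) (1 ⊗ₜ w) = 1 ⊗ₜ ((QA.elts Q Jp ∅).E j • w)) ∧
      (∀ j w, ρ ((QA.elts Q Jp Jm).K j) (1 ⊗ₜ w) = 1 ⊗ₜ ((QA.elts Q Jp ∅).K j • w)) ∧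
      (∀ j w, ρ ((QA.elts Q Jp Jm).L j) (1 ⊗ₜ w) = 1 ⊗ₜ ((QA.elts Q Jp ∅).L j • w)) := by
  refine ⟨(halfIndElts Q Jp Jm W).lift, ?_, ?_, ?_, ?_⟩
  · intro j y w
    rw [QElts.lift_F]
    exact halfIndF_tmul Q Jm W j y w
  · intro j w
    rw [QElts.lift_E]
    exact halfIndE_one Q Jp Jm W j w
  · intro j w
    rw [QElts.lift_K]
    refine (halfIndK_tmul Q Jp Jm W _ j _ 1 w).trans ?_
    rw [map_one]
  · intro j w
    rw [QElts.lift_L]
    refine (halfIndK_tmul Q Jp Jm W _ j _ 1 w).trans ?_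
    rw [map_one]

end Pool.Agent.Lib.QG
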