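import Pool.Agent.Lib.MP_021f05_al.Core

/-!
# MP_021f05_al: identities of the Cartan model
-/

noncomputable section

namespace Pool.Agent.Lib.QG

open MvPolynomial

variable {k : Type} [Field k] {I : Type} {T : TAlg k I}

namespace TAlg

lemma ad_adi (i : I) (a : T.A) : T.ad i (T.adi i a) = a := by
  show (T.K i : T.A) * (((T.K i)⁻¹ : T.Aˣ) * a * (T.K i : T.A)) * ((T.K i)⁻¹ : T.Aˣ) = a
  simp [mul_assoc]

lemma adi_ad (i : I) (a : T.A) : T.adi i (T.ad i a) = a := by
  show ((T.K i)⁻¹ : T.Aˣ) * ((T.K i : T.A) * a * ((T.K i)⁻¹ : T.Aˣ)) * (T.K i : T.A) = a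
  simp [mul_assoc]

lemma adi_K (i j : I) : T.adi i (T.K j : T.A) = T.K j := by
  show ((T.K i)⁻¹ : T.Aˣ) * (T.K j : T.A) * (T.K i : T.A) = T.K j
  rw [mul_assoc, ← Units.val_mul, T.K_comm j i, Units.val_mul, ← mul_assoc, Units.inv_mul, one_mul]

lemma ad_K (i j : I) : T.ad i (T.K j : T.A) = T.K j := by
  rw [← adi_K (T := T) i j, ad_adi, adi_K]

lemma K_mul_adi (i : I) (a : T.A) : (T.K i : T.A) * T.adi i a = a * T.K i := by
  show (T.K i : T.A) * (((T.K i)⁻¹ : T.Aˣ) * a * (T.K i : T.A)) = _
  simp [← mul_assoc]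

lemma adi_comm (i j : I) (a : T.A) : T.adi i (T.adi j a) = T.adi j (T.adi i a) := by
  show ((T.K i)⁻¹ : T.Aˣ) * (((T.K j)⁻¹ : T.Aˣ) * a * (T.K j : T.A)) * (T.K i : T.A)
    = ((T.K j)⁻¹ : T.Aˣ) * (((T.K i)⁻¹ : T.Aˣ) * a * (T.K i : T.A)) * (T.K j : T.A)
  have h1 : (T.K j : T.A) * (T.K i : T.A) = T.K i * T.K j := by
    rw [← Units.val_mul, T.K_comm j i, Units.val_mul]
  have h2 : (((T.K i)⁻¹ : T.Aˣ) : T.A) * ((T.K j)⁻¹ : T.Aˣ)
      = (((T.K j)⁻¹ : T.Aˣ) : T.A) * ((T.K i)⁻¹ : T.Aˣ) := by
    rw [← Units.val_mul, ← Units.val_mul, ← mul_inv_rev, ← mul_inv_rev, T.K_comm j i]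
  simp only [mul_assoc]
  rw [h1, ← mul_assoc, ← mul_assoc, h2]
  simp only [mul_assoc]

lemma ε_adi (i : I) (a : T.A) : T.ε (T.adi i a) = T.ε a := by
  have h := congrArg T.ε (Units.inv_mul (T.K i))
  have h2 : T.adi i a = ((T.K i)⁻¹ : T.Aˣ) * a * (T.K i : T.A) := rfl
  rw [h2, map_mul, map_mul, T.ε_K, mul_one]
  rw [map_mul, T.ε_K, mul_one, map_one] at h
  rw [h, one_mul]

end TAlg

namespace Coef

open TAlg

variable (V : Coef T)

lemma tl_add (f g : List T.A → V.V) (a : T.A) : V.tl (f + g) a = V.tl f a + V.tl g a := rfl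
lemma tl_smul (p : MvPolynomial I k) (f : List T.A → V.V) (a : T.A) :
    V.tl (p • f) a = p • V.tl f a := rfl
lemma tl_neg (f : List T.A → V.V) (a : T.A) : V.tl (-f) a = - V.tl f a := rfl
lemma tl_sub (f g : List T.A → V.V) (a : T.A) : V.tl (f - g) a = V.tl f a - V.tl g a := rfl
lemma tl_apply (f : List T.A → V.V) (a : T.A) (l : List T.A) : V.tl f a l = f (a :: l) := rfl

lemma act_add (f g : List T.A → V.V) (a : T.A) : V.act (f + g) a = V.act f a + V.act g a := by
  funext l; cases l <;> simp [act]

lemma act_smul (p : MvPolynomial I k) (f : List T.A → V.V) (a : T.A) :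
    V.act (p • f) a = p • V.act f a := by
  funext l; cases l <;> simp [act]

lemma dd_add (l : List T.A) (f g : List T.A → V.V) :
    V.dd l (f + g) = V.dd l f + V.dd l g := by
  induction l generalizing f g with
  | nil => simp [dd]
  | cons a l ih =>
    simp only [dd, tl_add, ih, act_add, Pi.add_apply]
    abel

lemma dd_smul (l : List T.A) (p : MvPolynomial I k) (f : List T.A → V.V) :
    V.dd l (p • f) = p • V.dd l f := by
  induction l generalizing f with
  | nil => simp [dd]
  | cons a l ih =>
    simp only [dd, tl_smul, ih, act_smul, Pi.smul_apply, smul_sub, smul_neg]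

lemma hh_add (i : I) (l : List T.A) (f g : List T.A → V.V) :
    V.hh i l (f + g) = V.hh i l f + V.hh i l g := by
  induction l generalizing f g with
  | nil => simp [hh]
  | cons a l ih =>
    simp only [hh, tl_add, ih, Pi.add_apply, map_add]
    abel

lemma hh_smul (i : I) (l : List T.A) (p : MvPolynomial I k) (f : List T.A → V.V) :
    V.hh i l (p • f) = p • V.hh i l f := by
  induction l generalizing f with
  | nil => simp [hh]
  | cons a l ih =>
    simp only [hh, tl_smul, ih, Pi.smul_apply, map_smul, smul_sub]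

lemma dd_neg (l : List T.A) (f : List T.A → V.V) : V.dd l (-f) = - V.dd l f := by
  have := V.dd_smul l (-1) f
  simpa using this

lemma dd_sub (l : List T.A) (f g : List T.A → V.V) :
    V.dd l (f - g) = V.dd l f - V.dd l g := by
  rw [sub_eq_add_neg, dd_add, dd_neg, ← sub_eq_add_neg]

lemma hh_neg (i : I) (l : List T.A) (f : List T.A → V.V) : V.hh i l (-f) = - V.hh i l f := by
  have := V.hh_smul i l (-1) f
  simpa using this

lemma hh_sub (i : I) (l : List T.A) (f g : List T.A → V.V) :
    V.hh i l (f - g) = V.hh i l f - V.hh i l g := by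
  rw [sub_eq_add_neg, hh_add, hh_neg, ← sub_eq_add_neg]

lemma smul_smul_comm' (t : k) (p : MvPolynomial I k) (v : V.V) : t • p • v = p • t • v :=
  (smul_algebra_smul_comm t p v).symm

/-- the bar differential as a linear map -/
def bl : (List T.A → V.V) →ₗ[MvPolynomial I k] (List T.A → V.V) where
  toFun f := V.b f
  map_add' f g := by
    funext l; cases l with
    | nil => simp [b]
    | cons a l => simp only [b, Pi.add_apply, dd_add, smul_add]; abel
  map_smul' p f := by
    funext l; cases l with
    | nil => simp [b]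
    | cons a l =>
      simp only [b, Pi.smul_apply, dd_smul, smul_add, RingHom.id_apply]
      rw [smul_smul_comm']

/-- insertion as a linear map -/
def hl (i : I) : (List T.A → V.V) →ₗ[MvPolynomial I k] (List T.A → V.V) where
  toFun f := V.h i f
  map_add' f g := by funext l; simp [h, hh_add]
  map_smul' p f := by funext l; simp [h, hh_smul]

/-- the torus action as a linear map -/
def cl (i : I) : (List T.A → V.V) →ₗ[MvPolynomial I k] (List T.A → V.V) where
  toFun f := V.c i f
  map_add' f g := by funext l; simp [c]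
  map_smul' p f := by funext l; simp [c]

/-- `(u_i f)(l) = (κ_i (f l)) ◁ K_i` -/
def ul (i : I) : (List T.A → V.V) →ₗ[MvPolynomial I k] (List T.A → V.V) where
  toFun f := fun l => V.r (T.K i : T.A) (V.κ i (f l))
  map_add' f g := by funext l; simp
  map_smul' p f := by funext l; simp

lemma tl_c (i : I) (f : List T.A → V.V) (a : T.A) :
    V.tl (V.c i f) a = V.c i (V.tl f (T.adi i a)) := by
  funext l'; simp [c, tl]

lemma tl_h (i : I) (f : List T.A → V.V) (a : T.A) :
    V.tl (V.h i f) a = V.c i (V.tl (V.tl f (T.K i : T.A)) (T.adi i a)) - V.h i (V.tl f a) := by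
  funext l'; simp [h, hh, c, tl]

lemma tl_act (f : List T.A → V.V) (a a' : T.A) : V.tl (V.act f a) a' = V.tl f (a * a') := by
  funext l'; simp [act, tl]

/-- `dd` as an operator -/
def ddf (f : List T.A → V.V) : List T.A → V.V := fun l => V.dd l f

lemma tl_ddf (f : List T.A → V.V) (a : T.A) :
    V.tl (V.ddf f) a = - V.act f a - V.ddf (V.tl f a) := by
  funext l'; simp [ddf, dd, tl]

/-- `dd` commutes with the torus action -/
lemma dd_c (i : I) (l : List T.A) (f : List T.A → V.V) :
    V.dd l (V.c i f) = V.κ i (V.dd (l.map (T.adi i)) f) := by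
  induction l generalizing f with
  | nil => simp [dd]
  | cons a l ih =>
    simp only [dd, List.map_cons, map_sub, map_neg, tl_c, ih]
    congr 2
    cases l with
    | nil => simp [act, c, κ_r, ad_adi]
    | cons a' l => simp [act, c]

lemma hh_c (i j : I) (l : List T.A) (f : List T.A → V.V) :
    V.hh j l (V.c i f) = V.κ i (V.hh j (l.map (T.adi i)) f) := by
  induction l generalizing f with
  | nil => simp only [hh, c, List.map_cons, List.map_nil, adi_K]; rw [V.κ_comm]
  | cons a l ih =>
    simp only [hh, List.map_cons, map_sub, tl_c, ih]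
    congr 1
    simp only [c, List.map_cons, List.map_map, adi_K, V.κ_comm j i]
    congr 3
    rw [adi_comm]
    congr 2
    congr 1
    funext x; exact adi_comm i j x

/-- the homotopy identity, inner part -/
lemma dd_hh (i : I) (l : List T.A) (f : List T.A → V.V) :
    V.dd l (V.h i f) + V.hh i l (V.ddf f) = - V.r (T.K i : T.A) (V.κ i (f l)) := by
  induction l generalizing f with
  | nil =>
    simp only [dd, hh, zero_add, ddf, act, map_neg, sub_zero]
    rw [V.κ_r, ad_K]
  | cons a l ih =>
    have ih' := ih (V.tl f a)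
    have key : - V.act (V.h i f) a l - V.κ i (V.act f (T.K i : T.A) (T.adi i a :: l.map (T.adi i)))
        + V.κ i (V.act (V.tl f (T.K i : T.A)) (T.adi i a) (l.map (T.adi i)))
        + V.hh i l (V.act f a) = 0 := by
      cases l with
      | nil =>
        simp only [act, h, hh, List.map_nil, K_mul_adi, V.κ_r, ad_adi, tl]
        abel
      | cons a' l =>
        simp only [act, h, hh, List.map_cons, K_mul_adi, map_mul, tl_act, tl]
        abel
    have e1 : V.hh i (a :: l) (V.ddf f) =
        V.κ i (- V.act f (T.K i : T.A) (T.adi i a :: l.map (T.adi i))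
          - (- V.act (V.tl f (T.K i : T.A)) (T.adi i a) (l.map (T.adi i))
            - V.dd (l.map (T.adi i)) (V.tl (V.tl f (T.K i : T.A)) (T.adi i a))))
        - (- V.hh i l (V.act f a) - V.hh i l (V.ddf (V.tl f a))) := by
      simp only [hh, tl_ddf, hh_sub, hh_neg, List.map_cons]
      rfl
    have e2 : V.dd (a :: l) (V.h i f) = - V.act (V.h i f) a l
        - (V.κ i (V.dd (l.map (T.adi i)) (V.tl (V.tl f (T.K i : T.A)) (T.adi i a)))
          - V.dd l (V.h i (V.tl f a))) := by
      simp only [dd, tl_h, dd_sub, dd_c]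
    rw [e1, e2]
    have ih'' : - V.r (T.K i : T.A) (V.κ i (f (a :: l)))
      = V.dd l (V.h i (V.tl f a)) + V.hh i l (V.ddf (V.tl f a)) := ih'.symm
    rw [ih'', ← sub_eq_zero, ← key]
    simp only [map_sub, map_neg]
    abel

/-! ### `b² = 0` -/

lemma act_act (f : List T.A → V.V) (a a' : T.A) : V.act (V.act f a) a' = V.act f (a * a') := by
  funext l; cases l with
  | nil => simp [act, V.r_mul]
  | cons x l => simp [act, mul_assoc]

lemma act_ddf (f : List T.A → V.V) (a : T.A) (l : List T.A) :
    V.act (V.ddf f) a l = V.dd l (V.act f a) := by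
  cases l with
  | nil => simp [act, ddf, dd]
  | cons a' l =>
    have : V.act (V.ddf f) a (a' :: l) = V.dd ((a * a') :: l) f := rfl
    rw [this]
    simp only [dd, act_act, tl_act]

lemma dd_ddf (l : List T.A) (f : List T.A → V.V) : V.dd l (V.ddf f) = 0 := by
  induction l generalizing f with
  | nil => simp [dd]
  | cons a l ih =>
    simp only [dd, tl_ddf, dd_sub, dd_neg, ih, act_ddf]
    abel

/-- the first face -/
def ef (f : List T.A → V.V) : List T.A → V.V
  | [] => 0
  | a :: l => (T.ε a) • f l

lemma b_eq (f : List T.A → V.V) : V.b f = V.ef f + V.ddf f := by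
  funext l; cases l <;> simp [b, ef, ddf, dd]

lemma smul_dd (t : k) (l : List T.A) (f : List T.A → V.V) :
    V.dd l (t • f) = t • V.dd l f := by
  have := V.dd_smul l (C t) f
  have e : ∀ v : V.V, (C t : MvPolynomial I k) • v = t • v := fun v => by
    rw [← algebraMap_eq, algebraMap_smul]
  have e' : (C t : MvPolynomial I k) • f = t • f := by funext x; exact e _
  rwa [e', e] at this

lemma tl_ef (f : List T.A → V.V) (a : T.A) : V.tl (V.ef f) a = T.ε a • f := rfl

lemma b_b (f : List T.A → V.V) : V.b (V.b f) = 0 := by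
  rw [b_eq, b_eq]
  have e1 : V.ddf (V.ef f + V.ddf f) = V.ddf (V.ef f) := by
    funext l; simp only [ddf]; rw [dd_add]; erw [dd_ddf]; rw [add_zero]
  rw [e1]
  funext l
  cases l with
  | nil => simp [ef, ddf, dd]
  | cons a l =>
    have e2 : V.ddf (V.ef f) (a :: l) = - V.act (V.ef f) a l - T.ε a • V.ddf f l := by
      simp only [ddf, dd, tl_ef, smul_dd]
    have e3 : V.act (V.ef f) a l = T.ε a • V.ef f l := by
      cases l with
      | nil => simp [act, ef]
      | cons a' l => simp [act, ef, mul_smul]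
    simp only [Pi.add_apply, e2, e3, Pi.zero_apply]
    simp only [ef, Pi.add_apply, smul_add]
    abel

/-! ### anticommutation of the insertions -/

lemma h_apply (i : I) (f : List T.A → V.V) (l : List T.A) :
    V.h i f l = V.c i (V.tl f (T.K i : T.A)) l -
      (match l with
        | [] => 0
        | a :: l' => V.h i (V.tl f a) l') := by
  cases l with
  | nil => simp [h, hh, c, tl]
  | cons a l => simp [h, hh, c, tl]

lemma c_h (i j : I) (f : List T.A → V.V) : V.c i (V.h j f) = V.h j (V.c i f) := by
  funext l; simp only [h, hh_c]; rfl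

lemma h_sub (i : I) (f g : List T.A → V.V) : V.h i (f - g) = V.h i f - V.h i g := by
  funext l; exact V.hh_sub i l f g

lemma c_sub (i : I) (f g : List T.A → V.V) : V.c i (f - g) = V.c i f - V.c i g := by
  funext l; simp [c]

lemma h_h (i j : I) (f : List T.A → V.V) (l : List T.A) :
    V.h i (V.h j f) l + V.h j (V.h i f) l = 0 := by
  induction l generalizing f with
  | nil =>
    simp only [h, hh, List.map_cons, List.map_nil, adi_K, tl, map_sub]
    rw [V.κ_comm i j, V.κ_comm i j]
    abel
  | cons a l ih =>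
    have e : ∀ i j : I, V.h i (V.h j f) (a :: l) =
        V.c i (V.c j (V.tl (V.tl f (T.K j : T.A)) (T.K i : T.A))) (a :: l)
        - V.c j (V.c i (V.tl (V.tl f (T.K i : T.A)) (T.K j : T.A))) (a :: l)
        + V.h j (V.c i (V.tl (V.tl f (T.K i : T.A)) (T.adi i a))) l
        - V.h i (V.c j (V.tl (V.tl f (T.K j : T.A)) (T.adi j a))) l
        + V.h i (V.h j (V.tl f a)) l := by
      intro i j
      rw [h_apply]
      simp only [tl_h, adi_K, c_sub, h_sub, Pi.sub_apply]
      rw [V.c_h i j, V.h_apply j]
      simp only [tl_c, adi_K]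
      abel
    rw [e i j, e j i]
    have := ih (V.tl f a)
    rw [← this]
    abel

/-! ### the bar differential and the insertions -/

lemma b_h (i : I) (f : List T.A → V.V) (l : List T.A) :
    V.b (V.h i f) l + V.h i (V.b f) l = V.c i f l - V.r (T.K i : T.A) (V.κ i (f l)) := by
  have h1 : V.h i (V.b f) l = V.h i (V.ef f) l + V.hh i l (V.ddf f) := by
    rw [b_eq]; exact V.hh_add i l _ _
  have h2 : V.b (V.h i f) l = V.ef (V.h i f) l + V.dd l (V.h i f) := by
    rw [b_eq]; rfl
  have h3 : V.h i (V.ef f) l + V.ef (V.h i f) l = V.c i f l := by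
    cases l with
    | nil => simp [h, hh, ef, T.ε_K, c]
    | cons a l =>
      rw [h_apply]
      simp only [tl_ef, T.ε_K, one_smul]
      have : V.h i (T.ε a • f) l = T.ε a • V.h i f l := by
        have e : ∀ v : V.V, (C (T.ε a) : MvPolynomial I k) • v = T.ε a • v := fun v => by
          rw [← algebraMap_eq, algebraMap_smul]
        have e' : (C (T.ε a) : MvPolynomial I k) • f = T.ε a • f := by funext x; exact e _
        rw [← e', ← e]; exact V.hh_smul i l _ _
      rw [this]
      simp [ef]
  rw [h1, h2, ← h3, sub_eq_add_neg, ← V.dd_hh i l f]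
  abel

lemma c_b (i : I) (f : List T.A → V.V) : V.c i (V.b f) = V.b (V.c i f) := by
  funext l
  cases l with
  | nil => simp [c, b]
  | cons a l =>
    have e : ∀ v : V.V, ∀ t : k, V.κ i (t • v) = t • V.κ i v := fun v t => by
      have e : ∀ v : V.V, (C t : MvPolynomial I k) • v = t • v := fun v => by
        rw [← algebraMap_eq, algebraMap_smul]
      rw [← e, map_smul, e]
    simp only [b]
    rw [V.dd_c i (a :: l) f]
    simp only [c, b, List.map_cons, map_add, e, ε_adi]

end Coef

end Pool.Agent.Lib.QG
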