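import Pool.Agent.Lib.MP_021f05_al.IndDef

/-!
# MP_021f05_al (B1): induced modules, general facts
-/

noncomputable section

namespace Pool.Agent.Lib.QG

open MvPolynomial
open scoped TensorProduct

variable {k : Type} [Field k] {I : Type} {T'' T' T : TAlg k I}

/-- the action map -/
def ind1_act (Y : Mod T') : T'.A ⊗[k] Y.X →ₗ[k] Y.X :=
  TensorProduct.lift
    { toFun := fun a =>
        { toFun := fun y => a • y
          map_add' := fun x y => smul_add a x y
          map_smul' := fun t y => by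
            simp only [RingHom.id_apply]
            rw [← algebraMap_smul T'.A t y, smul_smul, ← Algebra.commutes, mul_smul,
              algebraMap_smul] }
      map_add' := fun a b => LinearMap.ext fun y => add_smul a b y
      map_smul' := fun t a => LinearMap.ext fun y => smul_assoc t a y }

lemma ind1_act_tmul (Y : Mod T') (a : T'.A) (y : Y.X) : ind1_act Y (a ⊗ₜ y) = a • y := rfl

/-- the inverse of `indN` before passing to the quotient -/
def ind1_G {φ : THom T' T} {N : Submodule k T.A} (hN : Function.Bijective (mulN φ N))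
    (Y : Mod T') : T.A ⊗[k] Y.X →ₗ[k] N ⊗[k] Y.X :=
  (ind1_act Y).lTensor N ∘ₗ (TensorProduct.assoc k N T'.A Y.X).toLinearMap ∘ₗ
    (LinearEquiv.ofBijective (mulN φ N) hN).symm.toLinearMap.rTensor Y.X

lemma ind1_G_tmul {φ : THom T' T} {N : Submodule k T.A} (hN : Function.Bijective (mulN φ N))
    (Y : Mod T') (n : N) (a : T'.A) (y : Y.X) :
    ind1_G hN Y ((n.1 * φ.f a) ⊗ₜ y) = n ⊗ₜ (a • y) := by
  have h : (LinearEquiv.ofBijective (mulN φ N) hN).symm (n.1 * φ.f a) = n ⊗ₜ a := by
    rw [LinearEquiv.symm_apply_eq]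
    rfl
  unfold ind1_G
  simp only [LinearMap.comp_apply, LinearMap.rTensor_tmul, LinearEquiv.coe_coe, h,
    TensorProduct.assoc_tmul, LinearMap.lTensor_tmul, ind1_act_tmul]

lemma ind1_G_K {φ : THom T' T} {N : Submodule k T.A} (hN : Function.Bijective (mulN φ N))
    (Y : Mod T') (z : T.A ⊗[k] Y.X) (hz : z ∈ indK φ Y) : ind1_G hN Y z = 0 := by
  have key : ∀ b : T.A, ind1_G hN Y (b • z) = 0 := by
    unfold indK at hz
    induction hz using Submodule.span_induction with
    | mem x hx =>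
      obtain ⟨a, y, rfl⟩ := hx
      intro b
      obtain ⟨t, rfl⟩ := hN.2 b
      induction t using TensorProduct.induction_on with
      | zero => rw [map_zero, zero_smul, map_zero]
      | tmul n c =>
        rw [mulN_tmul, smul_sub, TensorProduct.smul_tmul', TensorProduct.smul_tmul', smul_eq_mul,
          smul_eq_mul, mul_one, mul_assoc, ← map_mul, map_sub, ind1_G_tmul, ind1_G_tmul,
          mul_smul, sub_self]
      | add s t hs ht => rw [map_add, add_smul, map_add, hs, ht, add_zero]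
    | zero => intro b; rw [smul_zero, map_zero]
    | add x y _ _ hx hy => intro b; rw [smul_add, map_add, hx, hy, add_zero]
    | smul a x _ hx => intro b; rw [smul_smul]; exact hx _
  have := key 1
  rwa [one_smul] at this

/-- right free extensions: `N ⊗ Y → Ind Y` is bijective -/
theorem indN_bijective {φ : THom T' T} {N : Submodule k T.A}
    (hN : Function.Bijective (mulN φ N)) (Y : Mod T') : Function.Bijective (indN φ Y N) := by
  constructor
  · rw [injective_iff_map_eq_zero]
    intro t ht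
    have h1 : ∀ s : N ⊗[k] Y.X, indN φ Y N s = (indK φ Y).mkQ (N.subtype.rTensor Y.X s) := by
      intro s
      induction s using TensorProduct.induction_on with
      | zero => rw [map_zero, map_zero, map_zero]; rfl
      | tmul n y => rfl
      | add s t hs ht => rw [map_add, map_add, map_add, hs, ht]; rfl
    have h2 : ∀ s : N ⊗[k] Y.X, ind1_G hN Y (N.subtype.rTensor Y.X s) = s := by
      intro s
      induction s using TensorProduct.induction_on with
      | zero => rw [map_zero, map_zero]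
      | tmul n y =>
        have := ind1_G_tmul hN Y n 1 y
        rw [map_one, mul_one, one_smul] at this
        exact this
      | add s t hs ht => rw [map_add, map_add, hs, ht]
    have h3 : (indK φ Y).mkQ (N.subtype.rTensor Y.X t) = 0 := (h1 t).symm.trans ht
    rw [← h2 t]
    exact ind1_G_K hN Y _ ((Submodule.Quotient.mk_eq_zero _).1 h3)
  · intro x
    refine ind_induction φ Y (p := fun x => ∃ t, indN φ Y N t = x) x ⟨0, map_zero _⟩ ?_ ?_
    · intro a y
      obtain ⟨t, rfl⟩ := hN.2 a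
      induction t using TensorProduct.induction_on with
      | zero =>
        refine ⟨0, ?_⟩
        rw [map_zero, map_zero]
        unfold indT
        rw [TensorProduct.zero_tmul, map_zero]
        rfl
      | tmul n c =>
        refine ⟨n ⊗ₜ (c • y), ?_⟩
        rw [indN_tmul, mulN_tmul, indT_mul]
      | add s t hs ht =>
        obtain ⟨u, hu⟩ := hs
        obtain ⟨v, hv⟩ := ht
        refine ⟨u + v, ?_⟩
        rw [map_add, map_add, hu, hv, indT_add_left]
    · rintro x y ⟨s, rfl⟩ ⟨t, rfl⟩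
      exact ⟨s + t, map_add _ _ _⟩

/-- transitivity of right freeness -/
theorem RFree.comp {φ : THom T' T} {ψ : THom T'' T'} (hφ : RFree φ) (hψ : RFree ψ) :
    RFree (φ.comp ψ) := by
  obtain ⟨N1, h1⟩ := hφ
  obtain ⟨N2, h2⟩ := hψ
  let j : N1 ⊗[k] N2 →ₗ[k] T.A := mulN φ N1 ∘ₗ N2.subtype.lTensor N1
  have hj : Function.Injective j :=
    h1.1.comp (Module.Flat.lTensor_preserves_injective_linearMap _ N2.subtype_injective)
  let e : N1 ⊗[k] N2 ≃ₗ[k] LinearMap.range j := LinearEquiv.ofInjective j hj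
  refine ⟨LinearMap.range j, ?_⟩
  have hc : (mulN (φ.comp ψ) (LinearMap.range j)) ∘ₗ (e.toLinearMap.rTensor T''.A) =
      mulN φ N1 ∘ₗ (mulN ψ N2).lTensor N1 ∘ₗ (TensorProduct.assoc k N1 N2 T''.A).toLinearMap := by
    refine TensorProduct.ext_threefold fun n1 n2 a => ?_
    show (n1.1 * φ.f n2.1) * φ.f (ψ.f a) = n1.1 * φ.f (n2.1 * ψ.f a)
    rw [map_mul, mul_assoc]
  have hb : Function.Bijective (mulN φ N1 ∘ₗ (mulN ψ N2).lTensor N1 ∘ₗ
      (TensorProduct.assoc k N1 N2 T''.A).toLinearMap) := by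
    have h3 : Function.Bijective ((mulN ψ N2).lTensor N1) :=
      ((LinearEquiv.ofBijective (mulN ψ N2) h2).lTensor N1).bijective
    exact h1.comp (h3.comp (TensorProduct.assoc k N1 N2 T''.A).bijective)
  have hr : Function.Bijective (e.toLinearMap.rTensor T''.A) := (e.rTensor T''.A).bijective
  rw [← hc] at hb
  exact (Function.Bijective.of_comp_iff _ hr).1 hb

/-- an isomorphism of torus algebras is right free -/
theorem RFree.of_bijective {φ : THom T' T} (h : Function.Bijective φ.f) : RFree φ := by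
  refine ⟨Submodule.span k {1}, ?_⟩
  let o : (Submodule.span k {(1 : T.A)} : Submodule k T.A) := ⟨1, Submodule.mem_span_singleton_self 1⟩
  have hm : ∀ t : (Submodule.span k {(1 : T.A)} : Submodule k T.A) ⊗[k] T'.A,
      ∃ a : T'.A, t = o ⊗ₜ a := by
    intro t
    induction t using TensorProduct.induction_on with
    | zero => exact ⟨0, by rw [TensorProduct.tmul_zero]⟩
    | tmul n a =>
      obtain ⟨c, hc⟩ := Submodule.mem_span_singleton.1 n.2
      refine ⟨c • a, ?_⟩
      rw [← TensorProduct.smul_tmul]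
      congr 1
      exact Subtype.ext hc.symm
    | add s t hs ht =>
      obtain ⟨a, rfl⟩ := hs
      obtain ⟨b, rfl⟩ := ht
      exact ⟨a + b, by rw [TensorProduct.tmul_add]⟩
  constructor
  · rw [injective_iff_map_eq_zero]
    intro t ht
    obtain ⟨a, rfl⟩ := hm t
    rw [mulN_tmul] at ht
    have h1 : φ.f a = 0 := by rw [← one_mul (φ.f a)]; exact ht
    have h2 : a = 0 := h.1 (by rw [h1, map_zero])
    rw [h2, TensorProduct.tmul_zero]
  · intro x
    obtain ⟨a, rfl⟩ := h.2 x
    exact ⟨o ⊗ₜ a, by rw [mulN_tmul]; exact one_mul _⟩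

/-- transitivity of induction -/
theorem exists_indInd (φ : THom T' T) (ψ : THom T'' T') (Y : Mod T'') :
    ∃ e : ((Y.ind ψ).ind φ).X ≃ₗ[T.A] (Y.ind (φ.comp ψ)).X,
      ∀ a b y, e (indT φ (Y.ind ψ) a (indT ψ Y b y)) = indT (φ.comp ψ) Y (a * φ.f b) y := by
  let g : Y.X →ₗ[T''.A] (((Y.ind (φ.comp ψ)).res φ).res ψ).X :=
    { toFun := fun y => indT (φ.comp ψ) Y 1 y
      map_add' := fun x y => indT_add_right _ Y 1 x y
      map_smul' := fun c y => (indU (φ.comp ψ) Y).map_smul c y }
  let f : (Y.ind ψ).X →ₗ[T'.A] ((Y.ind (φ.comp ψ)).res φ).X :=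
    indLift ψ Y (M := (Y.ind (φ.comp ψ)).res φ) g
  let F : ((Y.ind ψ).ind φ).X →ₗ[T.A] (Y.ind (φ.comp ψ)).X :=
    indLift φ (Y.ind ψ) (M := Y.ind (φ.comp ψ)) f
  let h : Y.X →ₗ[T''.A] (((Y.ind ψ).ind φ).res (φ.comp ψ)).X :=
    { toFun := fun y => indT φ (Y.ind ψ) 1 (indT ψ Y 1 y)
      map_add' := fun x y => by rw [indT_add_right, indT_add_right]; rfl
      map_smul' := fun c y => by
        show indT φ (Y.ind ψ) 1 (indT ψ Y 1 (c • y)) =
          φ.f (ψ.f c) • indT φ (Y.ind ψ) 1 (indT ψ Y 1 y)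
        rw [← indT_mul, one_mul, smul_indT, mul_one,
          show indT ψ Y (ψ.f c) y = ψ.f c • indT ψ Y 1 y by rw [smul_indT, mul_one],
          ← indT_mul, one_mul] }
  let G : (Y.ind (φ.comp ψ)).X →ₗ[T.A] ((Y.ind ψ).ind φ).X :=
    indLift (φ.comp ψ) Y (M := (Y.ind ψ).ind φ) h
  have hF : ∀ a b y, F (indT φ (Y.ind ψ) a (indT ψ Y b y)) =
      indT (φ.comp ψ) Y (a * φ.f b) y := by
    intro a b y
    show a • (φ.f b • indT (φ.comp ψ) Y 1 y) = _
    rw [smul_indT, smul_indT, mul_one]
  have hG : ∀ a y, G (indT (φ.comp ψ) Y a y) = indT φ (Y.ind ψ) a (indT ψ Y 1 y) := by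
    intro a y
    show a • indT φ (Y.ind ψ) 1 (indT ψ Y 1 y) = _
    rw [smul_indT, mul_one]
  refine ⟨LinearEquiv.ofLinearMap F G ?_ ?_, hF⟩
  · refine ind_hom_ext _ _ fun y => ?_
    show F (G (indT (φ.comp ψ) Y 1 y)) = indT (φ.comp ψ) Y 1 y
    rw [hG, hF, map_one, mul_one]
  · refine ind_hom_ext _ _ fun z => ?_
    show G (F (indT φ (Y.ind ψ) 1 z)) = indT φ (Y.ind ψ) 1 z
    refine ind_induction ψ Y (p := fun z => G (F (indT φ (Y.ind ψ) 1 z)) =
      indT φ (Y.ind ψ) 1 z) z ?_ ?_ ?_
    · show G (F (indT φ (Y.ind ψ) 1 0)) = indT φ (Y.ind ψ) 1 0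
      rw [indT_zero_right, map_zero, map_zero]
    · intro b y
      show G (F (indT φ (Y.ind ψ) 1 (indT ψ Y b y))) = indT φ (Y.ind ψ) 1 (indT ψ Y b y)
      rw [hF, hG, one_mul,
        show indT ψ Y b y = b • indT ψ Y 1 y by rw [smul_indT, mul_one], ← indT_mul, one_mul]
    · intro x y hx hy
      show G (F (indT φ (Y.ind ψ) 1 (x + y))) = indT φ (Y.ind ψ) 1 (x + y)
      rw [indT_add_right, map_add, map_add, hx, hy]

/-- base change -/
theorem exists_baseChange {P A' B B' : TAlg k I} (φ : THom A' P) (β : THom B P) (c : THom B' A')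
    (d : THom B' B) (hcomm : ∀ x, φ.f (c.f x) = β.f (d.f x)) (N : Submodule k B.A)
    (h1 : Function.Bijective (mulN d N)) (hβ : Function.Injective β.f)
    (h2 : Function.Bijective (mulN φ (N.map β.f.toLinearMap))) (Y : Mod A') :
    ∃ e : ((Y.res c).ind d).X ≃ₗ[B.A] ((Y.ind φ).res β).X,
      ∀ b (y : Y.X), e (indT d (Y.res c) b y) = (indT φ Y (β.f b) y : (Y.ind φ).X) := by
  let f : (Y.res c).X →ₗ[B'.A] (((Y.ind φ).res β).res d).X :=
    { toFun := fun y => (indT φ Y 1 y : (Y.ind φ).X)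
      map_add' := fun x y => indT_add_right φ Y 1 x y
      map_smul' := fun b y => by
        have key : ∀ y : Y.X, indT φ Y 1 (c.f b • y) = β.f (d.f b) • indT φ Y 1 y := by
          intro y
          rw [← indT_mul, one_mul, hcomm, smul_indT, mul_one]
        exact key y }
  let F : ((Y.res c).ind d).X →ₗ[B.A] ((Y.ind φ).res β).X :=
    indLift d (Y.res c) (M := (Y.ind φ).res β) f
  have hF : ∀ b (y : Y.X), F (indT d (Y.res c) b y) = (indT φ Y (β.f b) y : (Y.ind φ).X) := by
    intro b y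
    show β.f b • indT φ Y 1 y = _
    rw [smul_indT, mul_one]
  let e : N ≃ₗ[k] N.map β.f.toLinearMap := N.equivMapOfInjective β.f.toLinearMap hβ
  have he : ∀ n : N, (e n : P.A) = β.f n := fun n => rfl
  have hc0 : (toK (M' := (Y.res c).ind d) (M := (Y.ind φ).res β) F ∘ₗ indN d (Y.res c) N) =
      (show N ⊗[k] (Y.res c).X →ₗ[k] ((Y.ind φ).res β).X from
        indN φ Y (N.map β.f.toLinearMap) ∘ₗ e.toLinearMap.rTensor Y.X) :=
    TensorProduct.ext' fun n y => hF n.1 y
  have hc : ∀ t : N ⊗[k] Y.X, F (indN d (Y.res c) N t) =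
      (indN φ Y (N.map β.f.toLinearMap) (e.toLinearMap.rTensor Y.X t) : (Y.ind φ).X) :=
    fun t => LinearMap.congr_fun hc0 t
  have hb : Function.Bijective F := by
    have h3 := indN_bijective h1 (Y.res c)
    have h4 := indN_bijective h2 Y
    have h5 : Function.Bijective (e.toLinearMap.rTensor Y.X) := (e.rTensor Y.X).bijective
    have h6 : Function.Bijective (fun t : N ⊗[k] Y.X => F (indN d (Y.res c) N t)) := by
      have : (fun t : N ⊗[k] Y.X => F (indN d (Y.res c) N t)) =
          (indN φ Y (N.map β.f.toLinearMap)) ∘ (e.toLinearMap.rTensor Y.X) := funext hc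
      rw [this]
      exact h4.comp h5
    exact (Function.Bijective.of_comp_iff F h3).1 h6
  exact ⟨LinearEquiv.ofBijective F hb, hF⟩

lemma ind1_map_comp (φ : THom T' T) {Y Y' Y'' : Mod T'} (f : Y.X →ₗ[T'.A] Y'.X)
    (g : Y'.X →ₗ[T'.A] Y''.X) (x : (Y.ind φ).X) :
    indMap φ g (indMap φ f x) = indMap φ (g ∘ₗ f) x := by
  refine ind_induction φ Y (p := fun x => indMap φ g (indMap φ f x) = indMap φ (g ∘ₗ f) x) x
    ?_ ?_ ?_
  · show indMap φ g (indMap φ f 0) = indMap φ (g ∘ₗ f) 0
    rw [map_zero, map_zero, map_zero]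
  · intro a y
    show indMap φ g (indMap φ f (indT φ Y a y)) = indMap φ (g ∘ₗ f) (indT φ Y a y)
    rw [indMap_T, indMap_T, indMap_T]
    rfl
  · intro x y hx hy
    show indMap φ g (indMap φ f (x + y)) = indMap φ (g ∘ₗ f) (x + y)
    rw [map_add, map_add, map_add, hx, hy]

lemma ind1_map_id (φ : THom T' T) {Y : Mod T'} (x : (Y.ind φ).X) :
    indMap φ (LinearMap.id : Y.X →ₗ[T'.A] Y.X) x = x := by
  refine ind_induction φ Y (p := fun x => indMap φ (LinearMap.id : Y.X →ₗ[T'.A] Y.X) x = x) x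
    ?_ ?_ ?_
  · exact map_zero _
  · intro a y
    exact indMap_T φ _ a y
  · intro x y hx hy
    show indMap φ (LinearMap.id : Y.X →ₗ[T'.A] Y.X) (x + y) = x + y
    rw [map_add, hx, hy]

/-- isomorphic modules induce isomorphic modules -/
theorem indMap_bijective (φ : THom T' T) {Y Y' : Mod T'} (f : Y.X →ₗ[T'.A] Y'.X)
    (hf : Function.Bijective f) : Function.Bijective (indMap φ f) := by
  let e := LinearEquiv.ofBijective f hf
  refine Function.bijective_iff_has_inverse.2 ⟨indMap φ e.symm.toLinearMap, fun x => ?_, fun x => ?_⟩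
  · rw [ind1_map_comp]
    have : e.symm.toLinearMap ∘ₗ f = LinearMap.id := LinearMap.ext fun y => e.symm_apply_apply y
    rw [this, ind1_map_id]
  · rw [ind1_map_comp]
    have : f ∘ₗ e.symm.toLinearMap = LinearMap.id := LinearMap.ext fun y => e.apply_symm_apply y
    rw [this, ind1_map_id]

theorem indMap_surjective (φ : THom T' T) {Y Y' : Mod T'} (f : Y.X →ₗ[T'.A] Y'.X)
    (hf : Function.Surjective f) : Function.Surjective (indMap φ f) := by
  intro x
  refine ind_induction φ Y' (p := fun x => ∃ z, indMap φ f z = x) x ⟨0, map_zero _⟩ ?_ ?_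
  · intro a y
    obtain ⟨z, rfl⟩ := hf y
    exact ⟨indT φ Y a z, indMap_T φ f a z⟩
  · rintro x y ⟨s, rfl⟩ ⟨t, rfl⟩
    exact ⟨s + t, map_add _ _ _⟩

lemma ind1_indN_nat (φ : THom T' T) (N : Submodule k T.A) {Y Y' : Mod T'}
    (f : Y.X →ₗ[T'.A] Y'.X) (t : N ⊗[k] Y.X) :
    indMap φ f (indN φ Y N t) = indN φ Y' N ((toK f).lTensor N t) := by
  induction t using TensorProduct.induction_on with
  | zero => rw [map_zero, map_zero, map_zero, map_zero]
  | tmul n y =>
    rw [indN_tmul, indMap_T, LinearMap.lTensor_tmul, indN_tmul]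
    rfl
  | add s t hs ht => rw [map_add, map_add, map_add, map_add, hs, ht]

variable [Fintype I] [DecidableEq I] {Q : QD k I}

theorem IsWt.res {M : Mod T} (h : IsWt Q M) (φ : THom T' T) : IsWt Q (M.res φ) := by
  have h1 : ∀ μ, wts Q (M.res φ) μ = wts Q M μ := by
    intro μ
    ext x
    have h2 : ∀ i, ((T'.K i : T'.A) • x : (M.res φ).X) =
        ((T.K i : T.A) • (show M.X from x) : M.X) := by
      intro i
      rw [Mod.res_smul, φ.f_K]
    constructor
    · intro hx i
      rw [← h2 i]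
      exact hx i
    · intro hx i
      rw [h2 i]
      exact hx i
  unfold IsWt
  have h3 : (⨆ μ, wts Q (M.res φ) μ) = ⨆ μ, wts Q M μ := iSup_congr h1
  rw [h3]
  exact h

/-- weight vectors of an induced module -/
theorem indT_wt (φ : THom T' T) {Y : Mod T'} {μ ν : I → ℤ} {a : T.A} {y : Y.X}
    (ha : a ∈ wtA Q T μ) (hy : y ∈ wts Q Y ν) : indT φ Y a y ∈ wts Q (Y.ind φ) (μ + ν) := by
  intro i
  have h1 : (T.K i : T.A) * a = (Q.χ μ i • a) * φ.f (T'.K i : T'.A) := by
    have h2 : (T.K i : T.A) * a * ((T.K i)⁻¹ : T.Aˣ) = Q.χ μ i • a := ha i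
    rw [φ.f_K, ← h2, mul_assoc, Units.inv_mul, mul_one]
  rw [smul_indT, h1, indT_mul, hy i, indT_smulk, QD.χ_add, mul_comm, mul_smul]
  congr 1

/-- induced modules of weight modules are weight modules -/
theorem IsWt.ind (φ : THom T' T) (hT : WtAlg Q T) {Y : Mod T'} (hY : IsWt Q Y) :
    IsWt Q (Y.ind φ) := by
  unfold IsWt
  rw [eq_top_iff]
  intro x _
  refine ind_induction φ Y (p := fun x => x ∈ ⨆ μ, wts Q (Y.ind φ) μ) x (Submodule.zero_mem _)
    ?_ fun x y hx hy => Submodule.add_mem _ hx hy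
  intro a y
  have ha : a ∈ ⨆ μ, wtA Q T μ := by rw [show (⨆ μ, wtA Q T μ) = ⊤ from hT]; trivial
  have hy : y ∈ ⨆ μ, wts Q Y μ := by rw [show (⨆ μ, wts Q Y μ) = ⊤ from hY]; trivial
  refine Submodule.iSup_induction (wtA Q T)
    (motive := fun a => indT φ Y a y ∈ ⨆ μ, wts Q (Y.ind φ) μ) ha ?_ ?_ ?_
  · intro μ b hb
    refine Submodule.iSup_induction (wts Q Y)
      (motive := fun y => indT φ Y b y ∈ ⨆ μ, wts Q (Y.ind φ) μ) hy ?_ ?_ ?_
    · intro ν z hz
      exact Submodule.mem_iSup_of_mem (μ + ν) (indT_wt φ hb hz)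
    · rw [indT_zero_right]
      exact Submodule.zero_mem _
    · intro u v hu hv
      rw [indT_add_right]
      exact Submodule.add_mem _ hu hv
  · have : indT φ Y 0 y = 0 := by unfold indT; rw [TensorProduct.zero_tmul, map_zero]; rfl
    rw [this]
    exact Submodule.zero_mem _
  · intro u v hu hv
    rw [indT_add_left]
    exact Submodule.add_mem _ hu hv

/-- induction along a right free extension is exact -/
theorem exists_ind_ses {φ : THom T' T} (hφ : RFree φ) (hT : WtAlg Q T) {Y' Y Y'' : Mod T'}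
    (hY : IsWt Q Y) (S : ModSES Y' Y Y'') :
    ∃ S' : ModSES (Y'.ind φ) (Y.ind φ) (Y''.ind φ), S'.i = indMap φ S.i ∧ S'.p = indMap φ S.p := by
  obtain ⟨N, hN⟩ := hφ
  have hinj : Function.Injective (indMap φ S.i) := by
    rw [injective_iff_map_eq_zero]
    intro x hx
    obtain ⟨t, rfl⟩ := (indN_bijective hN Y').2 x
    rw [ind1_indN_nat] at hx
    have h1 : (toK S.i).lTensor N t = 0 := (indN_bijective hN Y).1 (by rw [hx, map_zero])
    have h2 : Function.Injective ((toK S.i).lTensor N) :=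
      Module.Flat.lTensor_preserves_injective_linearMap _ S.inj
    have h3 : t = 0 := h2 (by rw [h1, map_zero])
    rw [h3, map_zero]
  have hex : ∀ x, indMap φ S.p x = 0 ↔ ∃ y, indMap φ S.i y = x := by
    intro x
    constructor
    · intro hx
      obtain ⟨t, rfl⟩ := (indN_bijective hN Y).2 x
      rw [ind1_indN_nat] at hx
      have h1 : (toK S.p).lTensor N t = 0 := (indN_bijective hN Y'').1 (by rw [hx, map_zero])
      have h2 : Function.Exact (toK S.i) (toK S.p) := fun y => (S.exact y)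
      have h3 : Function.Exact ((toK S.i).lTensor N) ((toK S.p).lTensor N) :=
        lTensor_exact N h2 S.surj
      obtain ⟨s, hs⟩ := (h3 t).1 h1
      exact ⟨indN φ Y' N s, by rw [ind1_indN_nat, hs]⟩
    · rintro ⟨y, rfl⟩
      rw [ind1_map_comp]
      refine ind_induction φ Y' (p := fun y => indMap φ (S.p ∘ₗ S.i) y = 0) y (map_zero _) ?_ ?_
      · intro a z
        show indMap φ (S.p ∘ₗ S.i) (indT φ Y' a z) = 0
        rw [indMap_T]
        have : (S.p ∘ₗ S.i) z = 0 := (S.exact _).2 ⟨z, rfl⟩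
        rw [this, indT_zero_right]
      · intro u v hu hv
        show indMap φ (S.p ∘ₗ S.i) (u + v) = 0
        rw [map_add, hu, hv, add_zero]
  exact ⟨mkSES (hY.ind φ hT) (indMap φ S.i) (indMap φ S.p) hinj (indMap_surjective φ S.p S.surj)
    hex, rfl, rfl⟩

end Pool.Agent.Lib.QG
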