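import Pool.Agent.Lib.MP_021f05_al.Alg

/-!
# MP_021f05_al: the relations without the Serre relations (definitions)
-/

noncomputable section

namespace Pool.Agent.Lib.QG

variable {k : Type} [Field k] {I : Type} [Fintype I] [DecidableEq I]

/-- elements which satisfy all relations except the Serre relations -/
structure QPre (Q : QD k I) (Jp Jm : Set I) (B : Type) [Ring B] [Algebra k B] where
  E : I → B
  F : I → B
  K : I → B
  L : I → B
  KL : ∀ i, K i * L i = 1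
  LK : ∀ i, L i * K i = 1
  KK : ∀ i j, K i * K j = K j * K i
  KE : ∀ i j, K i * E j = Q.q ^ ((Q.d i : ℤ) * Q.a i j) • (E j * K i)
  KF : ∀ i j, K i * F j = Q.q ^ (-((Q.d i : ℤ) * Q.a i j)) • (F j * K i)
  EF : ∀ i j, i ∈ Jp → j ∈ Jm →
    E i * F j = F j * E i + if i = j then (Q.qi i - (Q.qi i)⁻¹)⁻¹ • (K i - L i) else 0

variable {Q : QD k I} {Jp Jm : Set I} {B : Type} [Ring B] [Algebra k B]

/-- forget the Serre relations -/
def QElts.pre (e : QElts Q Jp Jm B) : QPre Q Jp Jm B where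
  E := e.E
  F := e.F
  K := e.K
  L := e.L
  KL := e.KL
  LK := e.LK
  KK := e.KK
  KE := e.KE
  KF := e.KF
  EF := e.EF

lemma QPre.LE (e : QPre Q Jp Jm B) (i j : I) :
    e.L i * e.E j = Q.q ^ (-((Q.d i : ℤ) * Q.a i j)) • (e.E j * e.L i) := by
  have h := e.KE i j
  have hq : Q.q ^ ((Q.d i : ℤ) * Q.a i j) ≠ 0 := zpow_ne_zero _ Q.q_ne
  have h2 : e.E j = Q.q ^ ((Q.d i : ℤ) * Q.a i j) • (e.L i * e.E j * e.K i) := by
    calc e.E j = e.L i * (e.K i * e.E j) := by rw [← mul_assoc, e.LK, one_mul]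
      _ = _ := by rw [h, mul_smul_comm, mul_assoc]
  have h3 : e.E j * e.L i = Q.q ^ ((Q.d i : ℤ) * Q.a i j) • (e.L i * e.E j) := by
    conv_lhs => rw [h2]
    rw [smul_mul_assoc, mul_assoc, e.KL, mul_one]
  rw [h3, smul_smul, zpow_neg, inv_mul_cancel₀ hq, one_smul]

lemma QPre.LF (e : QPre Q Jp Jm B) (i j : I) :
    e.L i * e.F j = Q.q ^ ((Q.d i : ℤ) * Q.a i j) • (e.F j * e.L i) := by
  have h := e.KF i j
  have hq : Q.q ^ ((Q.d i : ℤ) * Q.a i j) ≠ 0 := zpow_ne_zero _ Q.q_ne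
  have h2 : e.F j = Q.q ^ (-((Q.d i : ℤ) * Q.a i j)) • (e.L i * e.F j * e.K i) := by
    calc e.F j = e.L i * (e.K i * e.F j) := by rw [← mul_assoc, e.LK, one_mul]
      _ = _ := by rw [h, mul_smul_comm, mul_assoc]
  have h3 : e.F j * e.L i = Q.q ^ (-((Q.d i : ℤ) * Q.a i j)) • (e.L i * e.F j) := by
    conv_lhs => rw [h2]
    rw [smul_mul_assoc, mul_assoc, e.KL, mul_one]
  rw [h3, smul_smul, zpow_neg, mul_inv_cancel₀ hq, one_smul]

lemma QPre.L_K (e : QPre Q Jp Jm B) (i j : I) : e.L i * e.K j = e.K j * e.L i := by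
  calc e.L i * e.K j = e.L i * (e.K j * e.K i) * e.L i := by
        rw [mul_assoc (e.L i), mul_assoc (e.K j), e.KL, mul_one]
    _ = e.K j * e.L i := by rw [e.KK j i, ← mul_assoc, e.LK, one_mul]

lemma QPre.L_L (e : QPre Q Jp Jm B) (i j : I) : e.L i * e.L j = e.L j * e.L i := by
  calc e.L i * e.L j = e.L j * (e.K j * e.L i) * e.L j := by
        rw [← mul_assoc, e.LK, one_mul]
    _ = e.L j * e.L i := by rw [← e.L_K i j, mul_assoc, mul_assoc, e.KL, mul_one]

/-- the involution exchanging `E` and `F`, `K` and `K⁻¹` -/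
def QPre.flip (e : QPre Q Jp Jm B) : QPre Q Jm Jp B where
  E := e.F
  F := e.E
  K := e.L
  L := e.K
  KL := e.LK
  LK := e.KL
  KK := e.L_L
  KE := e.LF
  KF := e.LE
  EF i j hi hj := by
    have h := e.EF j i hj hi
    by_cases hij : i = j
    · subst hij
      rw [if_pos rfl] at h ⊢
      rw [h, ← sub_eq_zero]
      have : (Q.qi i - (Q.qi i)⁻¹)⁻¹ • (e.L i - e.K i)
          = - ((Q.qi i - (Q.qi i)⁻¹)⁻¹ • (e.K i - e.L i)) := by
        rw [← smul_neg, neg_sub]
      rw [this]; abel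
    · rw [if_neg (Ne.symm hij), add_zero] at h
      rw [if_neg hij, add_zero, h]

/-- the involution on elements -/
def QElts.flip (e : QElts Q Jp Jm B) : QElts Q Jm Jp B where
  E := e.F
  F := e.E
  K := e.L
  L := e.K
  KL := e.LK
  LK := e.KL
  KK := e.pre.flip.KK
  KE := e.pre.flip.KE
  KF := e.pre.flip.KF
  EF := e.pre.flip.EF
  E0 := e.F0
  F0 := e.E0
  SE := e.SF
  SF := e.SE

end Pool.Agent.Lib.QG
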