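import Pool.Agent.Lib.MP_021f05_al.Func
import Pool.Agent.Lib.MP_021f05_al.Pre
import Pool.Agent.Lib.MP_021f05_al.QNum
import Pool.Agent.Lib.MP_021f05_al.Wt

/-!
# MP_021f05_al (A8): integrable modules
-/

noncomputable section

namespace Pool.Agent.Lib.QG

variable {k : Type} [Field k] {I : Type} [Fintype I] [DecidableEq I] (Q : QD k I)

/-- the generator `E_i` -/
def QD.gE (Jp Jm : Set I) (i : I) : (Q.T Jp Jm).A := (QA.elts Q Jp Jm).E i
/-- the generator `F_i` -/
def QD.gF (Jp Jm : Set I) (i : I) : (Q.T Jp Jm).A := (QA.elts Q Jp Jm).F i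

variable {Q} {Jp Jm : Set I}

/-- integrable with respect to `i` -/
def IsInt (i : I) (M : Mod (Q.T Jp Jm)) : Prop :=
  ∀ x : M.X, ∃ n : ℕ, Q.gE Jp Jm i ^ n • x = 0 ∧ Q.gF Jp Jm i ^ n • x = 0

section absorb

variable {B : Type} [Ring B] [Algebra k B]

/-- `a` is absorbed by powers of `u`: for each `n` some `u ^ N * a` lies in `B * u ^ n` -/
def IntAbs (u a : B) : Prop := ∀ n : ℕ, ∃ N : ℕ, ∃ b : B, u ^ N * a = b * u ^ n

omit [Algebra k B] in
lemma IntAbs.mono {u a : B} {n N : ℕ} {b : B} (h : u ^ N * a = b * u ^ n) {N' : ℕ}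
    (hN : N ≤ N') : ∃ b', u ^ N' * a = b' * u ^ n := by
  refine ⟨u ^ (N' - N) * b, ?_⟩
  rw [mul_assoc, ← h, ← mul_assoc, ← pow_add, Nat.sub_add_cancel hN]

omit [Algebra k B] in
lemma IntAbs.add {u a a' : B} (h : IntAbs u a) (h' : IntAbs u a') : IntAbs u (a + a') := by
  intro n
  obtain ⟨N, b, hb⟩ := h n
  obtain ⟨N', b', hb'⟩ := h' n
  obtain ⟨c, hc⟩ := IntAbs.mono hb (le_max_left N N')
  obtain ⟨c', hc'⟩ := IntAbs.mono hb' (le_max_right N N')
  exact ⟨max N N', c + c', by rw [mul_add, hc, hc', add_mul]⟩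

omit [Algebra k B] in
lemma IntAbs.mul {u a a' : B} (h : IntAbs u a) (h' : IntAbs u a') : IntAbs u (a * a') := by
  intro n
  obtain ⟨N', b', hb'⟩ := h' n
  obtain ⟨N, b, hb⟩ := h N'
  exact ⟨N, b * b', by rw [← mul_assoc, hb, mul_assoc, hb', mul_assoc]⟩

lemma IntAbs.scal (u : B) (t : k) : IntAbs u (algebraMap k B t) :=
  fun n => ⟨n, algebraMap k B t, (Algebra.commutes t (u ^ n)).symm⟩

omit [Algebra k B] in
lemma IntAbs.zero (u : B) : IntAbs u 0 := fun n => ⟨n, 0, by rw [mul_zero, zero_mul]⟩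

omit [Algebra k B] in
lemma IntAbs.self (u : B) : IntAbs u u := fun n => ⟨n, u, (pow_succ u n).symm.trans (pow_succ' u n)⟩

/-- quasi-commuting elements -/
lemma IntAbs.comm_pow {u a : B} {c : k} (h : u * a = c • (a * u)) (n : ℕ) :
    u ^ n * a = c ^ n • (a * u ^ n) := by
  induction n with
  | zero => simp
  | succ n ih =>
    rw [pow_succ', mul_assoc, ih, mul_smul_comm, ← mul_assoc, h, smul_mul_assoc, smul_smul,
      mul_assoc, ← pow_succ]

lemma IntAbs.of_comm {u a : B} {c : k} (h : u * a = c • (a * u)) : IntAbs u a :=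
  fun n => ⟨n, c ^ n • a, by rw [IntAbs.comm_pow h, smul_mul_assoc]⟩

/-- the Serre relation implies absorption -/
lemma IntAbs.of_serre {u a : B} {p : k} (hp : p ≠ 0) (hr : ∀ n : ℕ, 0 < n → p ^ n ≠ 1) {m : ℕ}
    (h : serre p m u a = 0) : IntAbs u a := by
  have hm : u ^ m * a = - ∑ s ∈ Finset.range m, ((-1) ^ (s + 1) * qb p m (s + 1)) •
      (u ^ (m - (s + 1)) * a * u ^ (s + 1)) := by
    have h1 := h
    unfold serre at h1
    rw [Finset.sum_range_succ'] at h1
    simp only [pow_zero, one_mul, Nat.sub_zero, mul_one] at h1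
    rw [qb_zero p hp hr, one_smul] at h1
    exact eq_neg_of_add_eq_zero_right h1
  have key : ∀ n N : ℕ, m + n ≤ N + 1 → ∃ b, u ^ N * a = b * u ^ n := by
    intro n
    induction n using Nat.strong_induction_on with
    | _ n ih =>
      intro N hN
      rcases Nat.eq_zero_or_pos n with rfl | hn
      · exact ⟨u ^ N * a, by simp⟩
      have hmN : m ≤ N := by omega
      have h2 : u ^ N * a = - ∑ s ∈ Finset.range m, ((-1) ^ (s + 1) * qb p m (s + 1)) •
          (u ^ (N - (s + 1)) * a * u ^ (s + 1)) := by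
        calc u ^ N * a = u ^ (N - m) * (u ^ m * a) := by
              rw [← mul_assoc, ← pow_add, Nat.sub_add_cancel hmN]
          _ = _ := by
              rw [hm, mul_neg, Finset.mul_sum]
              congr 1
              refine Finset.sum_congr rfl fun s hs => ?_
              rw [Finset.mem_range] at hs
              rw [mul_smul_comm, ← mul_assoc, ← mul_assoc, ← pow_add]
              congr 5
              omega
      have h3 : ∀ s ∈ Finset.range m, ∃ b, u ^ (N - (s + 1)) * a * u ^ (s + 1) = b * u ^ n := by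
        intro s hs
        rw [Finset.mem_range] at hs
        by_cases hsn : s + 1 ≤ n
        · obtain ⟨b, hb⟩ := ih (n - (s + 1)) (by omega) (N - (s + 1)) (by omega)
          refine ⟨b, ?_⟩
          rw [hb, mul_assoc, ← pow_add, Nat.sub_add_cancel hsn]
        · refine ⟨u ^ (N - (s + 1)) * a * u ^ (s + 1 - n), ?_⟩
          rw [mul_assoc _ (u ^ (s + 1 - n)), ← pow_add, Nat.sub_add_cancel (by omega)]
      choose! b hb using h3
      refine ⟨- ∑ s ∈ Finset.range m, ((-1) ^ (s + 1) * qb p m (s + 1)) • b s, ?_⟩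
      rw [h2, neg_mul, Finset.sum_mul]
      congr 1
      refine Finset.sum_congr rfl fun s hs => ?_
      rw [hb s hs, smul_mul_assoc]
  exact fun n => ⟨m + n, key n (m + n) (by omega)⟩

variable (e : QElts Q Jp Jm B)

lemma QElts.int_qi_root (i : I) : ∀ n : ℕ, 0 < n → Q.qi i ^ n ≠ 1 := by
  intro n hn
  unfold QD.qi
  rw [← pow_mul]
  exact Q.q_root _ (Nat.mul_pos (Q.d_pos i) hn)

include e in
lemma QElts.int_K (i j : I) : IntAbs (e.E i) (e.K j) := by
  have h := e.KE j i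
  refine IntAbs.of_comm (c := (Q.q ^ ((Q.d j : ℤ) * Q.a j i))⁻¹) ?_
  rw [h, smul_smul, inv_mul_cancel₀ (zpow_ne_zero _ Q.q_ne), one_smul]

include e in
lemma QElts.int_L (i j : I) : IntAbs (e.E i) (e.L j) := by
  have h := e.pre.LE j i
  refine IntAbs.of_comm (c := (Q.q ^ (-((Q.d j : ℤ) * Q.a j i)))⁻¹) ?_
  have h' : e.L j * e.E i = Q.q ^ (-((Q.d j : ℤ) * Q.a j i)) • (e.E i * e.L j) := h
  rw [h', smul_smul, inv_mul_cancel₀ (zpow_ne_zero _ Q.q_ne), one_smul]

include e in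
lemma QElts.int_E {i : I} (hp : i ∈ Jp) (j : I) : IntAbs (e.E i) (e.E j) := by
  by_cases hj : j ∈ Jp
  · by_cases hij : i = j
    · subst hij
      exact IntAbs.self _
    · have hq : Q.qi i ≠ 0 := pow_ne_zero _ Q.q_ne
      exact IntAbs.of_serre hq (QElts.int_qi_root i) (e.SE i j hp hj hij)
  · rw [e.E0 j hj]
    exact IntAbs.zero _

include e in
lemma QElts.int_F {i : I} (hp : i ∈ Jp) (j : I) : IntAbs (e.E i) (e.F j) := by
  by_cases hj : j ∈ Jm
  · by_cases hij : i = j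
    · subst hij
      have h := e.EF i i hp hj
      rw [if_pos rfl] at h
      have hK := (e.int_K i i)
      -- the diagonal case
      have hKc : e.E i * e.K i = (Q.q ^ ((Q.d i : ℤ) * Q.a i i))⁻¹ • (e.K i * e.E i) := by
        rw [e.KE i i, smul_smul, inv_mul_cancel₀ (zpow_ne_zero _ Q.q_ne), one_smul]
      have hLc : e.E i * e.L i = (Q.q ^ (-((Q.d i : ℤ) * Q.a i i)))⁻¹ • (e.L i * e.E i) := by
        have h' : e.L i * e.E i = Q.q ^ (-((Q.d i : ℤ) * Q.a i i)) • (e.E i * e.L i) :=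
          e.pre.LE i i
        rw [h', smul_smul, inv_mul_cancel₀ (zpow_ne_zero _ Q.q_ne), one_smul]
      have key : ∀ n : ℕ, ∃ b, e.E i ^ (n + 1) * e.F i = b * e.E i ^ n := by
        intro n
        induction n with
        | zero => exact ⟨e.E i ^ 1 * e.F i, by simp⟩
        | succ n ih =>
          obtain ⟨b, hb⟩ := ih
          refine ⟨b + (Q.qi i - (Q.qi i)⁻¹)⁻¹ •
            ((Q.q ^ ((Q.d i : ℤ) * Q.a i i))⁻¹ ^ (n + 1) • e.K i -
              (Q.q ^ (-((Q.d i : ℤ) * Q.a i i)))⁻¹ ^ (n + 1) • e.L i), ?_⟩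
          have e1 : e.E i ^ (n + 1 + 1) * e.F i =
              e.E i ^ (n + 1) * e.F i * e.E i + (Q.qi i - (Q.qi i)⁻¹)⁻¹ •
                (e.E i ^ (n + 1) * e.K i - e.E i ^ (n + 1) * e.L i) := by
            rw [pow_succ (e.E i) (n + 1), mul_assoc, h, mul_add, mul_smul_comm, mul_sub,
              ← mul_assoc]
          rw [e1, hb, IntAbs.comm_pow hKc, IntAbs.comm_pow hLc, add_mul, smul_mul_assoc, sub_mul,
            smul_mul_assoc, smul_mul_assoc, mul_assoc, ← pow_succ]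
      exact fun n => ⟨n + 1, key n⟩
    · have h := e.EF i j hp hj
      rw [if_neg hij, add_zero] at h
      refine IntAbs.of_comm (c := (1 : k)) ?_
      rw [one_smul, h]
  · rw [e.F0 j hj]
    exact IntAbs.zero _

end absorb

/-- everything is absorbed by powers of `E_i` -/
lemma int_absE {i : I} (hp : i ∈ Jp) (a : (Q.T Jp Jm).A) : IntAbs (Q.gE Jp Jm i) a := by
  refine QA.induction (Q := Q) (Jp := Jp) (Jm := Jm)
    (p := fun a => IntAbs ((QA.elts Q Jp Jm).E i) a) ?_ ?_ ?_ ?_ ?_ ?_ ?_ a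
  · intro t; exact IntAbs.scal _ t
  · intro j; exact (QA.elts Q Jp Jm).int_E hp j
  · intro j; exact (QA.elts Q Jp Jm).int_F hp j
  · intro j; exact (QA.elts Q Jp Jm).int_K i j
  · intro j; exact (QA.elts Q Jp Jm).int_L i j
  · intro x y hx hy; exact hx.add hy
  · intro x y hx hy; exact hx.mul hy

/-- everything is absorbed by powers of `F_i` -/
lemma int_absF {i : I} (hm : i ∈ Jm) (a : (Q.T Jp Jm).A) : IntAbs (Q.gF Jp Jm i) a := by
  refine QA.induction (Q := Q) (Jp := Jp) (Jm := Jm)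
    (p := fun a => IntAbs ((QA.elts Q Jp Jm).F i) a) ?_ ?_ ?_ ?_ ?_ ?_ ?_ a
  · intro t; exact IntAbs.scal _ t
  · intro j; exact (QA.elts Q Jp Jm).flip.int_F hm j
  · intro j; exact (QA.elts Q Jp Jm).flip.int_E hm j
  · intro j; exact (QA.elts Q Jp Jm).flip.int_L i j
  · intro j; exact (QA.elts Q Jp Jm).flip.int_K i j
  · intro x y hx hy; exact hx.add hy
  · intro x y hx hy; exact hx.mul hy

lemma int_pow_mono {M : Mod (Q.T Jp Jm)} {u : (Q.T Jp Jm).A} {x : M.X} {n n' : ℕ}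
    (h : u ^ n • x = 0) (hn : n ≤ n') : u ^ n' • x = 0 := by
  rw [← Nat.sub_add_cancel hn, pow_add, mul_smul, h, smul_zero]

/-- for `i ∈ Jp ∩ Jm` the `i`-nilpotent vectors form a submodule -/
theorem exists_int_submodule {i : I} (hp : i ∈ Jp) (hm : i ∈ Jm) (M : Mod (Q.T Jp Jm)) :
    ∃ N : Submodule (Q.T Jp Jm).A M.X, ∀ x, x ∈ N ↔
      ∃ n : ℕ, Q.gE Jp Jm i ^ n • x = 0 ∧ Q.gF Jp Jm i ^ n • x = 0 := by
  refine ⟨{ carrier := {x | ∃ n : ℕ, Q.gE Jp Jm i ^ n • x = 0 ∧ Q.gF Jp Jm i ^ n • x = 0}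
            add_mem' := ?_
            zero_mem' := ⟨0, by simp, by simp⟩
            smul_mem' := ?_ }, fun x => Iff.rfl⟩
  · rintro x y ⟨n, h1, h2⟩ ⟨n', h1', h2'⟩
    refine ⟨max n n', ?_, ?_⟩
    · rw [smul_add, int_pow_mono h1 (le_max_left _ _), int_pow_mono h1' (le_max_right _ _),
        add_zero]
    · rw [smul_add, int_pow_mono h2 (le_max_left _ _), int_pow_mono h2' (le_max_right _ _),
        add_zero]
  · rintro a x ⟨n, h1, h2⟩
    obtain ⟨N, b, hb⟩ := int_absE hp a n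
    obtain ⟨N', b', hb'⟩ := int_absF hm a n
    have e1 : Q.gE Jp Jm i ^ N • a • x = 0 := by
      rw [smul_smul, hb, mul_smul, h1, smul_zero]
    have e2 : Q.gF Jp Jm i ^ N' • a • x = 0 := by
      rw [smul_smul, hb', mul_smul, h2, smul_zero]
    exact ⟨max N N', int_pow_mono e1 (le_max_left _ _), int_pow_mono e2 (le_max_right _ _)⟩

theorem IsInt.of_injective {i : I} {M M' : Mod (Q.T Jp Jm)} (h : IsInt i M)
    (f : M'.X →ₗ[(Q.T Jp Jm).A] M.X) (hf : Function.Injective f) : IsInt i M' := by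
  intro x
  obtain ⟨n, h1, h2⟩ := h (f x)
  refine ⟨n, ?_, ?_⟩
  · apply hf; rw [map_smul, h1, map_zero]
  · apply hf; rw [map_smul, h2, map_zero]

theorem IsInt.of_surjective {i : I} {M M' : Mod (Q.T Jp Jm)} (h : IsInt i M)
    (f : M.X →ₗ[(Q.T Jp Jm).A] M'.X) (hf : Function.Surjective f) : IsInt i M' := by
  intro x
  obtain ⟨y, rfl⟩ := hf x
  obtain ⟨n, h1, h2⟩ := h y
  refine ⟨n, ?_, ?_⟩
  · rw [← map_smul, h1, map_zero]
  · rw [← map_smul, h2, map_zero]

/-- a module generated by `i`-nilpotent vectors is integrable -/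
theorem IsInt.of_span {i : I} (hp : i ∈ Jp) (hm : i ∈ Jm) {M : Mod (Q.T Jp Jm)} (s : Set M.X)
    (hs : ∀ x ∈ s, ∃ n : ℕ, Q.gE Jp Jm i ^ n • x = 0 ∧ Q.gF Jp Jm i ^ n • x = 0)
    (hspan : Submodule.span (Q.T Jp Jm).A s = ⊤) : IsInt i M := by
  obtain ⟨N, hN⟩ := exists_int_submodule hp hm M
  intro x
  rw [← hN]
  have h1 : Submodule.span (Q.T Jp Jm).A s ≤ N := Submodule.span_le.2 fun y hy => (hN y).2 (hs y hy)
  rw [hspan] at h1
  exact h1 trivial

theorem triv_isInt (i : I) : IsInt i (triv (Q.T Jp Jm)) := by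
  intro x
  refine ⟨1, ?_, ?_⟩
  · rw [pow_one, triv_smul]
    have h : (Q.T Jp Jm).ε (Q.gE Jp Jm i) = 0 := (QElts.eps Q Jp Jm).lift_E i
    rw [h, zero_mul]
    rfl
  · rw [pow_one, triv_smul]
    have h : (Q.T Jp Jm).ε (Q.gF Jp Jm i) = 0 := (QElts.eps Q Jp Jm).lift_F i
    rw [h, zero_mul]
    rfl

theorem triv_isWt : IsWt Q (triv (Q.T Jp Jm)) := by
  unfold IsWt
  rw [eq_top_iff]
  intro x _
  refine Submodule.mem_iSup_of_mem 0 ?_
  intro i
  rw [QD.χ_zero, one_smul, triv_smul, (Q.T Jp Jm).ε_K, one_mul]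
  rfl

end Pool.Agent.Lib.QG
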