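import Pool.Agent.Lib.MP_021f05_al.Half
import Pool.Agent.Lib.MP_021f05_al.Int

/-!
# MP_021f05_al: induced modules (definitions and the universal property)
-/

noncomputable section

namespace Pool.Agent.Lib.QG

open MvPolynomial
open scoped TensorProduct

variable {k : Type} [Field k] {I : Type} {T'' T' T : TAlg k I}

section ind
variable (φ : THom T' T)

/-- the relations defining the induced module -/
def indK (Y : Mod T') : Submodule T.A (T.A ⊗[k] Y.X) :=
  Submodule.span T.A {z | ∃ (a : T'.A) (y : Y.X), z = φ.f a ⊗ₜ y - 1 ⊗ₜ (a • y)}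

/-- the induced module `T.A ⊗_{T'.A} Y` -/
def Mod.ind (Y : Mod T') : Mod T where
  X := (T.A ⊗[k] Y.X) ⧸ indK φ Y

/-- the class of `a ⊗ y` -/
def indT (Y : Mod T') (a : T.A) (y : Y.X) : (Y.ind φ).X := (indK φ Y).mkQ (a ⊗ₜ y)

lemma indT_add_left (Y : Mod T') (a b : T.A) (y : Y.X) :
    indT φ Y (a + b) y = indT φ Y a y + indT φ Y b y := by
  unfold indT; rw [TensorProduct.add_tmul, map_add]; rfl

lemma indT_add_right (Y : Mod T') (a : T.A) (x y : Y.X) :
    indT φ Y a (x + y) = indT φ Y a x + indT φ Y a y := by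
  unfold indT; rw [TensorProduct.tmul_add, map_add]; rfl

lemma indT_zero_right (Y : Mod T') (a : T.A) : indT φ Y a (0 : Y.X) = 0 := by
  unfold indT; rw [TensorProduct.tmul_zero, map_zero]; rfl

lemma smul_indT (Y : Mod T') (a b : T.A) (y : Y.X) :
    a • indT φ Y b y = indT φ Y (a * b) y := by
  unfold indT
  have h := (indK φ Y).mkQ.map_smul a (b ⊗ₜ[k] y)
  rw [TensorProduct.smul_tmul', smul_eq_mul] at h
  exact h.symm

lemma indT_smulk (Y : Mod T') (t : k) (a : T.A) (y : Y.X) :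
    indT φ Y a (t • y) = t • indT φ Y a y := by
  unfold indT
  rw [← TensorProduct.smul_tmul, ← TensorProduct.smul_tmul']
  have h := (toK (M' := ⟨T.A ⊗[k] Y.X⟩) (M := Y.ind φ) (indK φ Y).mkQ).map_smul t (a ⊗ₜ[k] y)
  exact h

lemma indT_mul (Y : Mod T') (a : T.A) (b : T'.A) (y : Y.X) :
    indT φ Y (a * φ.f b) y = indT φ Y a (b • y) := by
  have h : indT φ Y (φ.f b) y = indT φ Y 1 (b • y) := by
    have h0 : (indK φ Y).mkQ (φ.f b ⊗ₜ[k] y - 1 ⊗ₜ[k] (b • y)) = 0 := by
      rw [Submodule.mkQ_apply, Submodule.Quotient.mk_eq_zero]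
      exact Submodule.subset_span ⟨b, y, rfl⟩
    rw [map_sub] at h0
    exact sub_eq_zero.1 h0
  rw [← smul_indT, h, smul_indT, mul_one]

/-- the unit of the adjunction -/
def indU (Y : Mod T') : Y.X →ₗ[T'.A] ((Y.ind φ).res φ).X where
  toFun y := indT φ Y 1 y
  map_add' x y := indT_add_right φ Y 1 x y
  map_smul' a y := by
    show indT φ Y 1 (a • y) = φ.f a • indT φ Y 1 y
    rw [smul_indT, mul_one, ← indT_mul, one_mul]

lemma indU_apply (Y : Mod T') (y : Y.X) : indU φ Y y = indT φ Y 1 y := rfl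

lemma smul_indU (Y : Mod T') (a : T.A) (y : Y.X) :
    a • (show (Y.ind φ).X from indU φ Y y) = indT φ Y a y := by
  show a • indT φ Y 1 y = _
  rw [smul_indT, mul_one]

/-- every element is a sum of classes -/
lemma ind_induction (Y : Mod T') {p : (Y.ind φ).X → Prop} (x : (Y.ind φ).X)
    (h0 : p 0) (ht : ∀ a y, p (indT φ Y a y)) (ha : ∀ x y, p x → p y → p (x + y)) : p x := by
  obtain ⟨z, rfl⟩ := Submodule.mkQ_surjective _ x
  induction z using TensorProduct.induction_on with
  | zero => rw [map_zero]; exact h0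
  | tmul a y => exact ht a y
  | add x y hx hy => rw [map_add]; exact ha _ _ hx hy

/-- the universal property of the induced module -/
def indLift (Y : Mod T') {M : Mod T} (f : Y.X →ₗ[T'.A] (M.res φ).X) :
    (Y.ind φ).X →ₗ[T.A] M.X :=
  let g : Y.X →ₗ[k] M.X := toK (M' := Y) (M := M.res φ) f
  let F : T.A ⊗[k] Y.X →ₗ[T.A] M.X :=
    TensorProduct.AlgebraTensorModule.lift
      (LinearMap.toSpanSingleton T.A (Y.X →ₗ[k] M.X) g)
  (indK φ Y).liftQ F (by
    unfold indK
    rw [Submodule.span_le]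
    rintro z ⟨a, y, rfl⟩
    show F (φ.f a ⊗ₜ[k] y - 1 ⊗ₜ[k] (a • y)) = 0
    rw [map_sub]
    have h1 : F (φ.f a ⊗ₜ[k] y) = φ.f a • (show M.X from f y) := rfl
    have h2 : F (1 ⊗ₜ[k] (a • y)) = φ.f a • (show M.X from f y) := by
      show (1 : T.A) • (show M.X from f (a • y)) = _
      rw [one_smul, map_smul]
      rfl
    rw [h1, h2, sub_self])

lemma indLift_T (Y : Mod T') {M : Mod T} (f : Y.X →ₗ[T'.A] (M.res φ).X) (a : T.A) (y : Y.X) :
    indLift φ Y f (indT φ Y a y) = a • (show M.X from f y) := rfl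

lemma indLift_U (Y : Mod T') {M : Mod T} (f : Y.X →ₗ[T'.A] (M.res φ).X) (y : Y.X) :
    indLift φ Y f (show (Y.ind φ).X from indU φ Y y) = f y := by
  show (1 : T.A) • (show M.X from f y) = _
  rw [one_smul]

lemma ind_hom_ext (Y : Mod T') {M : Mod T} {f g : (Y.ind φ).X →ₗ[T.A] M.X}
    (h : ∀ y, f (indT φ Y 1 y) = g (indT φ Y 1 y)) : f = g := by
  refine LinearMap.ext fun x => ?_
  refine ind_induction φ Y (p := fun x => f x = g x) x (by rw [map_zero, map_zero])
    (fun a y => ?_) (fun x y hx hy => ?_)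
  · have e : indT φ Y a y = a • indT φ Y 1 y := by rw [smul_indT, mul_one]
    rw [e, map_smul, map_smul, h]
  · rw [map_add, map_add, hx, hy]

/-- functoriality -/
def indMap {Y Y' : Mod T'} (f : Y.X →ₗ[T'.A] Y'.X) : (Y.ind φ).X →ₗ[T.A] (Y'.ind φ).X :=
  indLift φ Y ((indU φ Y').comp f)

lemma indMap_T {Y Y' : Mod T'} (f : Y.X →ₗ[T'.A] Y'.X) (a : T.A) (y : Y.X) :
    indMap φ f (indT φ Y a y) = indT φ Y' a (f y) := by
  show a • indT φ Y' 1 (f y) = _
  rw [smul_indT, mul_one]

/-- the counit -/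
def indC (M : Mod T) : ((M.res φ).ind φ).X →ₗ[T.A] M.X :=
  indLift φ (M.res φ) (M := M) LinearMap.id

lemma indC_T (M : Mod T) (a : T.A) (x : (M.res φ).X) :
    indC φ M (indT φ (M.res φ) a x) = a • (show M.X from x) := rfl

lemma indC_surjective (M : Mod T) : Function.Surjective (indC φ M) := fun x =>
  ⟨indT φ (M.res φ) 1 (show (M.res φ).X from x), (indC_T φ M 1 x).trans (one_smul T.A x)⟩

end ind

/-! ### right free extensions -/

/-- `N ⊗ Y → Ind Y` for a subspace `N` of `T.A` -/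
def indN (φ : THom T' T) (Y : Mod T') (N : Submodule k T.A) : N ⊗[k] Y.X →ₗ[k] (Y.ind φ).X :=
  TensorProduct.lift
    { toFun := fun n =>
        { toFun := fun y => indT φ Y n.1 y
          map_add' := fun x y => indT_add_right φ Y _ x y
          map_smul' := fun t y => indT_smulk φ Y t _ y }
      map_add' := fun m n => LinearMap.ext fun y => indT_add_left φ Y _ _ y
      map_smul' := fun t n => LinearMap.ext fun y => by
        show indT φ Y (t • n.1) y = t • indT φ Y n.1 y
        rw [← indT_smulk]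
        unfold indT
        rw [TensorProduct.smul_tmul] }

lemma indN_tmul (φ : THom T' T) (Y : Mod T') (N : Submodule k T.A) (n : N) (y : Y.X) :
    indN φ Y N (n ⊗ₜ y) = indT φ Y n.1 y := rfl

/-- the multiplication `N ⊗ T'.A → T.A` -/
def mulN (φ : THom T' T) (N : Submodule k T.A) : N ⊗[k] T'.A →ₗ[k] T.A :=
  TensorProduct.lift ((LinearMap.mul k T.A).compl₁₂ N.subtype φ.f.toLinearMap)

lemma mulN_tmul (φ : THom T' T) (N : Submodule k T.A) (n : N) (a : T'.A) :
    mulN φ N (n ⊗ₜ a) = n.1 * φ.f a := rfl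

/-- `T.A` is free as a right module over `T'.A` -/
def RFree (φ : THom T' T) : Prop := ∃ N : Submodule k T.A, Function.Bijective (mulN φ N)

variable [Fintype I] [DecidableEq I] (Q : QD k I)

/-- weight spaces of the algebra for the adjoint action of the torus -/
def wtA (T : TAlg k I) (μ : I → ℤ) : Submodule k T.A where
  carrier := {a | ∀ i, T.ad i a = Q.χ μ i • a}
  add_mem' := by intro a b ha hb i; rw [map_add, smul_add, ha i, hb i]
  zero_mem' := by intro i; simp
  smul_mem' := by intro t a ha i; rw [map_smul, ha i, smul_comm]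

/-- the algebra is spanned by weight vectors -/
def WtAlg (T : TAlg k I) : Prop := ⨆ μ, wtA Q T μ = ⊤

/-! ### the inclusions between the algebras `𝔸(Jp, Jm)` -/

/-- the inclusion `𝔸(Jp, Jm) → 𝔸(Jp', Jm')` -/
def QD.inc {Jp Jm Jp' Jm' : Set I} (hp : Jp ⊆ Jp') (hm : Jm ⊆ Jm') :
    THom (Q.T Jp Jm) (Q.T Jp' Jm') where
  f := QA.incl Q hp hm
  f_K i := (QElts.restrict Q hp hm).lift_K i
  f_ε a := by
    have h : ((QElts.eps Q Jp' Jm').lift).comp (QA.incl Q hp hm) = (QElts.eps Q Jp Jm).lift := by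
      refine QA.hom_ext (fun i => ?_) (fun i => ?_) (fun i => ?_)
      · rw [AlgHom.comp_apply, QElts.lift_E]
        have e : QA.incl Q hp hm ((QA.elts Q Jp Jm).E i) = (QElts.restrict Q hp hm).E i :=
          QElts.lift_E _ i
        rw [e]
        show ((QElts.eps Q Jp' Jm').lift) (open Classical in if i ∈ Jp then (QA.elts Q Jp' Jm').E i else 0) = 0
        split_ifs
        · exact QElts.lift_E _ i
        · exact map_zero _
      · rw [AlgHom.comp_apply, QElts.lift_F]
        have e : QA.incl Q hp hm ((QA.elts Q Jp Jm).F i) = (QElts.restrict Q hp hm).F i :=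
          QElts.lift_F _ i
        rw [e]
        show ((QElts.eps Q Jp' Jm').lift) (open Classical in if i ∈ Jm then (QA.elts Q Jp' Jm').F i else 0) = 0
        split_ifs
        · exact QElts.lift_F _ i
        · exact map_zero _
      · rw [AlgHom.comp_apply, QElts.lift_K]
        have e : QA.incl Q hp hm ((QA.elts Q Jp Jm).K i) = (QElts.restrict Q hp hm).K i :=
          QElts.lift_K _ i
        rw [e]
        exact QElts.lift_K _ i
    exact AlgHom.congr_fun h a

lemma QD.inc_E {Jp Jm Jp' Jm' : Set I} (hp : Jp ⊆ Jp') (hm : Jm ⊆ Jm') {i : I} (hi : i ∈ Jp) :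
    (Q.inc hp hm).f (Q.gE Jp Jm i) = Q.gE Jp' Jm' i := by
  have e : QA.incl Q hp hm ((QA.elts Q Jp Jm).E i) = (QElts.restrict Q hp hm).E i :=
    QElts.lift_E _ i
  refine e.trans ?_
  show (open Classical in if i ∈ Jp then (QA.elts Q Jp' Jm').E i else 0) = _
  rw [if_pos hi]
  rfl

lemma QD.inc_F {Jp Jm Jp' Jm' : Set I} (hp : Jp ⊆ Jp') (hm : Jm ⊆ Jm') {i : I} (hi : i ∈ Jm) :
    (Q.inc hp hm).f (Q.gF Jp Jm i) = Q.gF Jp' Jm' i := by
  have e : QA.incl Q hp hm ((QA.elts Q Jp Jm).F i) = (QElts.restrict Q hp hm).F i :=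
    QElts.lift_F _ i
  refine e.trans ?_
  show (open Classical in if i ∈ Jm then (QA.elts Q Jp' Jm').F i else 0) = _
  rw [if_pos hi]
  rfl

end Pool.Agent.Lib.QG
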