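import Pool.Agent.Lib.MP_021f05_al.RankB
import Pool.Agent.Lib.MP_021f05_al.Shapiro

/-!
# MP_021f05_al (E3): the rank one algebra `A_i`, the resolution by induced modules
-/

noncomputable section

namespace Pool.Agent.Lib.QG

open MvPolynomial
open scoped TensorProduct

section gen

variable {k : Type} [Field k] {I : Type} [Fintype I] [DecidableEq I] {Q : QD k I}
  {i : I} {Jp Jm : Set I}

/-- induction over the elements of the algebra in terms of `gE`, `gF`, `K` -/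
lemma RankA_ind {p : (Q.T Jp Jm).A → Prop}
    (hs : ∀ t : k, p (algebraMap k _ t)) (hE : ∀ j, p (Q.gE Jp Jm j))
    (hF : ∀ j, p (Q.gF Jp Jm j)) (hK : ∀ j, p ((Q.T Jp Jm).K j : (Q.T Jp Jm).A))
    (hL : ∀ j, p (((Q.T Jp Jm).K j)⁻¹ : (Q.T Jp Jm).Aˣ)) (hadd : ∀ x y, p x → p y → p (x + y))
    (hmul : ∀ x y, p x → p y → p (x * y)) (x : (Q.T Jp Jm).A) : p x :=
  QA.induction (Q := Q) (Jp := Jp) (Jm := Jm) hs hE hF hK hL hadd hmul x

/-- linear maps commuting with the generators -/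
lemma RankA_lin {M N : Mod (Q.T Jp Jm)} (g : M.X →ₗ[k] N.X)
    (hE : ∀ j x, g (Q.gE Jp Jm j • x) = Q.gE Jp Jm j • g x)
    (hF : ∀ j x, g (Q.gF Jp Jm j • x) = Q.gF Jp Jm j • g x)
    (hK : ∀ j x, g (((Q.T Jp Jm).K j : (Q.T Jp Jm).A) • x)
      = ((Q.T Jp Jm).K j : (Q.T Jp Jm).A) • g x) :
    ∃ f : M.X →ₗ[(Q.T Jp Jm).A] N.X, ∀ x, f x = g x := by
  have key : ∀ (a : (Q.T Jp Jm).A) x, g (a • x) = a • g x := by
    intro a
    induction a using RankA_ind with
    | hs t => intro x; rw [algebraMap_smul, algebraMap_smul, map_smul]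
    | hE j => exact hE j
    | hF j => exact hF j
    | hK j => exact hK j
    | hL j =>
      intro x
      have h := hK j ((((Q.T Jp Jm).K j)⁻¹ : (Q.T Jp Jm).Aˣ) • x)
      rw [Units.smul_def, smul_smul, Units.mul_inv, one_smul] at h
      rw [h, smul_smul, Units.inv_mul, one_smul]
    | hadd a b ha hb => intro x; rw [add_smul, map_add, ha, hb, add_smul]
    | hmul a b ha hb => intro x; rw [mul_smul, ha, hb, mul_smul]
  exact ⟨{ toFun := g, map_add' := map_add g, map_smul' := key }, fun _ => rfl⟩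

/-- the inclusion `B_i → A_i` -/
abbrev RankA_c (Q : QD k I) (i : I) : THom (Q.Bi i) (Q.Ai i) :=
  Q.inc (Set.Subset.refl {i}) (Set.empty_subset {i})

/-- the powers of `F_i` form a basis: bijectivity of `⊕ Y → Ind Y` -/
lemma RankA_basis (Y : Mod (Q.Bi i)) :
    ∃ Θ : (ℕ →₀ Y.X) →ₗ[k] (Y.ind (RankA_c Q i)).X, Function.Bijective Θ ∧
      ∀ n y, Θ (Finsupp.single n y) = indT (RankA_c Q i) Y (Q.gF {i} {i} i ^ n) y := by
  classical
  have hbij := ind2_minus Q {i} {i}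
  have h1 : Function.Injective (HA.um Q {i} {i}).toLinearMap := by
    intro x y hxy
    have h2 := (tdm_bijective Q {i} {i}).1 (a₁ := x ⊗ₜ 1) (a₂ := y ⊗ₜ 1) (by
      rw [tdm_tmul, tdm_tmul]
      exact congrArg (fun z => z * _) hxy)
    have h3 := congrArg (fun z => (TensorProduct.rid k (HA Q {i}))
      ((QElts.eps Q {i} ∅).lift.toLinearMap.lTensor (HA Q {i}) z)) h2
    have h4 : ∀ z : HA Q {i}, (TensorProduct.rid k (HA Q {i}))
      ((QElts.eps Q {i} ∅).lift.toLinearMap.lTensor (HA Q {i}) (z ⊗ₜ 1)) = z := by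
      intro z
      rw [LinearMap.lTensor_tmul]
      show (TensorProduct.rid k (HA Q {i})) (z ⊗ₜ ((QElts.eps Q {i} ∅).lift 1)) = z
      rw [map_one, TensorProduct.rid_tmul, one_smul]
    rw [← h4 x, ← h4 y]
    exact h3
  obtain ⟨b, hb⟩ := HA.single_basis (Q := Q) i
  let b' : Module.Basis ℕ k (LinearMap.range (HA.um Q {i} {i}).toLinearMap) :=
    b.map (LinearEquiv.ofInjective _ h1)
  have hb' : ∀ n, (b' n : QA Q {i} {i}) = Q.gF {i} {i} i ^ n := by
    intro n
    show HA.um Q {i} {i} (b n) = _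
    rw [hb, map_pow, HA.um_x]
    rfl
  refine ⟨(indN (RankA_c Q i) Y _) ∘ₗ
    (TensorProduct.equivFinsuppOfBasisLeft b').symm.toLinearMap, ?_, ?_⟩
  · exact (indN_bijective hbij Y).comp (TensorProduct.equivFinsuppOfBasisLeft b').symm.bijective
  · intro n y
    show indN (RankA_c Q i) Y _ ((TensorProduct.equivFinsuppOfBasisLeft b').symm
      (Finsupp.single n y)) = _
    rw [TensorProduct.equivFinsuppOfBasisLeft_symm_apply]
    have e : (Finsupp.single n y).sum (fun i m => b' i ⊗ₜ[k] m) = b' n ⊗ₜ[k] y :=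
      Finsupp.sum_single_index (TensorProduct.tmul_zero _ _)
    refine (congrArg (indN (RankA_c Q i) Y (LinearMap.range (HA.um Q {i} {i}).toLinearMap))
      e).trans ?_
    exact congrArg (fun z => indT (RankA_c Q i) Y z y) (hb' n)

/-! ### the resolution -/

/-- the class of `a ⊗ x` in the module induced from the restriction of `M` -/
def RankA_t (M : Mod (Q.Ai i)) (a : (Q.Ai i).A) (x : M.X) :
    ((M.res (RankA_c Q i)).ind (RankA_c Q i)).X :=
  indT (RankA_c Q i) (M.res (RankA_c Q i)) a x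

lemma RankA_t_add (M : Mod (Q.Ai i)) (a : (Q.Ai i).A) (x y : M.X) :
    RankA_t M a (x + y) = RankA_t M a x + RankA_t M a y := indT_add_right _ _ _ _ _

lemma RankA_t_smulk (M : Mod (Q.Ai i)) (t : k) (a : (Q.Ai i).A) (x : M.X) :
    RankA_t M a (t • x) = t • RankA_t M a x := indT_smulk _ _ _ _ _

lemma RankA_t_addl (M : Mod (Q.Ai i)) (a b : (Q.Ai i).A) (x : M.X) :
    RankA_t M (a + b) x = RankA_t M a x + RankA_t M b x := indT_add_left _ _ _ _ _

lemma RankA_smul_t (M : Mod (Q.Ai i)) (a b : (Q.Ai i).A) (x : M.X) :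
    a • RankA_t M b x = RankA_t M (a * b) x := smul_indT _ _ _ _ _

lemma RankA_t_mul (M : Mod (Q.Ai i)) (a : (Q.Ai i).A) (b : (Q.Bi i).A) (x : M.X) :
    RankA_t M (a * (RankA_c Q i).f b) x = RankA_t M a ((RankA_c Q i).f b • x) :=
  indT_mul (RankA_c Q i) (M.res (RankA_c Q i)) a b x

lemma RankA_t_smull (M : Mod (Q.Ai i)) (t : k) (a : (Q.Ai i).A) (x : M.X) :
    RankA_t M (t • a) x = t • RankA_t M a x := by
  have h : RankA_t M (t • a) x = RankA_t M ((t • 1) * a) x := by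
    rw [smul_mul_assoc, one_mul]
  rw [h, ← RankA_smul_t]
  exact smul_assoc t 1 (RankA_t M a x) |>.trans (by rw [one_smul])

lemma RankA_t_K (M : Mod (Q.Ai i)) (a : (Q.Ai i).A) (j : I) (x : M.X) :
    RankA_t M (a * ((Q.Ai i).K j : (Q.Ai i).A)) x
      = RankA_t M a (((Q.Ai i).K j : (Q.Ai i).A) • x) := by
  rw [← (RankA_c Q i).f_K j, RankA_t_mul]

lemma RankA_t_E (M : Mod (Q.Ai i)) (a : (Q.Ai i).A) (x : M.X) :
    RankA_t M (a * Q.gE {i} {i} i) x = RankA_t M a (Q.gE {i} {i} i • x) := by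
  rw [← QD.inc_E Q (Set.Subset.refl {i}) (Set.empty_subset {i}) (Set.mem_singleton i),
    RankA_t_mul]

/-- the element `F ⊗ x - 1 ⊗ F x` -/
def RankA_u (M : Mod (Q.Ai i)) (x : M.X) : ((M.res (RankA_c Q i)).ind (RankA_c Q i)).X :=
  RankA_t M (Q.gF {i} {i} i) x - RankA_t M 1 (Q.gF {i} {i} i • x)

lemma RankA_u_K (M : Mod (Q.Ai i)) (x : M.X) (j : I) :
    ((Q.Ai i).K j : (Q.Ai i).A) • RankA_u M x
      = Q.χ (-(Q.al i)) j • RankA_u M (((Q.Ai i).K j : (Q.Ai i).A) • x) := by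
  have hχ : Q.χ (-(Q.al i)) j = Q.q ^ (-((Q.d j : ℤ) * Q.a j i)) := by
    unfold QD.χ
    congr 1
    have h := ct_add' (Q := Q) j (Q.al i) (-(Q.al i))
    rw [add_neg_cancel, ct_al'] at h
    have h0 : Q.ct j 0 = 0 := by unfold CDatum.ct; simp
    rw [h0] at h
    have h1 : Q.ct j (-(Q.al i)) = - Q.a j i := by omega
    rw [h1]; ring
  unfold RankA_u
  rw [smul_sub, RankA_smul_t, RankA_smul_t, mul_one, gK_gF, RankA_t_smull, RankA_t_K, ← hχ]
  have h2 : RankA_t M ((Q.Ai i).K j : (Q.Ai i).A) (Q.gF {i} {i} i • x)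
      = RankA_t M 1 (((Q.Ai i).K j : (Q.Ai i).A) • Q.gF {i} {i} i • x) := by
    rw [← RankA_t_K, one_mul]
  rw [h2, smul_smul ((Q.Ai i).K j : (Q.Ai i).A), gK_gF, ← hχ, smul_assoc_k, RankA_t_smulk,
    ← smul_sub, mul_smul]

lemma RankA_u_E (M : Mod (Q.Ai i)) (x : M.X) :
    Q.gE {i} {i} i • RankA_u M x = RankA_u M (Q.gE {i} {i} i • x) := by
  have hm : i ∈ ({i} : Set I) := Set.mem_singleton i
  have hK : ∀ y : M.X, RankA_t M ((Q.Ai i).K i : (Q.Ai i).A) y
      = RankA_t M 1 (((Q.Ai i).K i : (Q.Ai i).A) • y) := by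
    intro y; rw [← RankA_t_K, one_mul]
  have hL : ∀ y : M.X, RankA_t M (((Q.Ai i).K i)⁻¹ : (Q.Ai i).Aˣ) y
      = RankA_t M 1 ((((Q.Ai i).K i)⁻¹ : (Q.Ai i).Aˣ) • y) := by
    intro y
    rw [Units.smul_def, ← (RankA_c Q i).f_Kinv i, ← RankA_t_mul, one_mul]
  have hE : RankA_t M (Q.gE {i} {i} i) (Q.gF {i} {i} i • x)
      = RankA_t M 1 (Q.gE {i} {i} i • Q.gF {i} {i} i • x) := by
    rw [← RankA_t_E, one_mul]
  unfold RankA_u
  rw [smul_sub, RankA_smul_t, RankA_smul_t, mul_one, hE, smul_smul (Q.gE {i} {i} i),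
    gE_gF hm hm, RankA_t_addl, RankA_t_E, RankA_t_smull, add_smul, RankA_t_add,
    smul_assoc_k, RankA_t_smulk, sub_smul, mul_smul]
  have h1 : RankA_t M (((Q.Ai i).K i : (Q.Ai i).A) - (((Q.Ai i).K i)⁻¹ : (Q.Ai i).Aˣ)) x
      = RankA_t M 1 (((Q.Ai i).K i : (Q.Ai i).A) • x - ((((Q.Ai i).K i)⁻¹ : (Q.Ai i).Aˣ) :
        (Q.Ai i).A) • x) := by
    rw [sub_eq_add_neg, sub_eq_add_neg, RankA_t_addl, RankA_t_add, hK]
    congr 1
    rw [← neg_one_smul k, RankA_t_smull, ← neg_one_smul k (_ • x), RankA_t_smulk]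
    congr 1
    exact hL x
  rw [h1, add_sub_add_right_eq_sub]

/-- the map `x ↦ F ⊗ x - 1 ⊗ F x` -/
lemma RankA_exists_f (M : Mod (Q.Ai i)) :
    ∃ f : ((M.res (RankA_c Q i)).tw (-(Q.al i))).X →ₗ[(Q.Bi i).A]
      (((M.res (RankA_c Q i)).ind (RankA_c Q i)).res (RankA_c Q i)).X,
      ∀ x : M.X, f (twx (M := M.res (RankA_c Q i)) (-(Q.al i)) x) = RankA_u M x := by
  have hadd : ∀ x y : M.X, RankA_u M (x + y) = RankA_u M x + RankA_u M y := by
    intro x y
    unfold RankA_u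
    rw [smul_add, RankA_t_add, RankA_t_add]
    abel
  have hsm : ∀ (t : k) (x : M.X), RankA_u M (t • x) = t • RankA_u M x := by
    intro t x
    unfold RankA_u
    rw [smul_comm_k, RankA_t_smulk, RankA_t_smulk, smul_sub]
  let g : ((M.res (RankA_c Q i)).tw (-(Q.al i))).X →ₗ[k]
      (((M.res (RankA_c Q i)).ind (RankA_c Q i)).res (RankA_c Q i)).X :=
    { toFun := fun x => RankA_u M x
      map_add' := hadd
      map_smul' := hsm }
  have hg : ∀ x : M.X, g (twx (M := M.res (RankA_c Q i)) (-(Q.al i)) x) = RankA_u M x :=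
    fun x => rfl
  have hgE0 : ∀ x : M.X, g (Q.gE {i} ∅ i • twx (M := M.res (RankA_c Q i)) (-(Q.al i)) x)
      = Q.gE {i} ∅ i • g (twx (M := M.res (RankA_c Q i)) (-(Q.al i)) x) := by
    intro x
    rw [tw_E (M.res (RankA_c Q i)) (-(Q.al i)) i x]
    have h2 : (Q.gE {i} ∅ i • (show (M.res (RankA_c Q i)).X from x) : (M.res (RankA_c Q i)).X)
        = (Q.gE {i} {i} i • x : M.X) := by
      rw [Mod.res_smul, QD.inc_E Q _ _ (Set.mem_singleton i)]
    rw [h2, hg, hg]
    refine (RankA_u_E M x).symm.trans ?_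
    rw [← QD.inc_E Q (Set.Subset.refl {i}) (Set.empty_subset {i}) (Set.mem_singleton i)]
    rfl
  have hgE : ∀ j x, g (Q.gE {i} ∅ j • x) = Q.gE {i} ∅ j • g x := by
    intro j x
    by_cases hj : j = i
    · rw [hj]
      exact hgE0 x
    · have h0 : Q.gE {i} ∅ j = 0 := (QA.elts Q {i} ∅).E0 j hj
      rw [h0, zero_smul, zero_smul, map_zero]
  have hgF : ∀ j x, g (Q.gF {i} ∅ j • x) = Q.gF {i} ∅ j • g x := by
    intro j x
    have h0 : Q.gF {i} ∅ j = 0 := (QA.elts Q {i} ∅).F0 j (Set.notMem_empty j)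
    rw [h0, zero_smul, zero_smul, map_zero]
  have hgK : ∀ (j : I) (x : M.X), g (((Q.Bi i).K j : (Q.Bi i).A) •
        twx (M := M.res (RankA_c Q i)) (-(Q.al i)) x)
      = ((Q.Bi i).K j : (Q.Bi i).A) • g (twx (M := M.res (RankA_c Q i)) (-(Q.al i)) x) := by
    intro j x
    rw [tw_K (M.res (RankA_c Q i)) (-(Q.al i)) j x]
    have h2 : (((Q.Bi i).K j : (Q.Bi i).A) • (show (M.res (RankA_c Q i)).X from x) :
        (M.res (RankA_c Q i)).X) = (((Q.Ai i).K j : (Q.Ai i).A) • x : M.X) := by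
      rw [Mod.res_smul, (RankA_c Q i).f_K]
    rw [h2, hg]
    refine (hsm _ _).trans ((RankA_u_K M x j).symm.trans ?_)
    rw [← (RankA_c Q i).f_K j]
    rfl
  obtain ⟨f, hf⟩ := RankA_lin g hgE hgF hgK
  exact ⟨f, fun x => hf _⟩

/-- a finitely supported function with `f n = F f (n + 1)` vanishes -/
lemma RankA_fin0 {M : Mod (Q.Ai i)} (f : ℕ →₀ M.X)
    (h : ∀ n, f n = Q.gF {i} {i} i • f (n + 1)) : f = 0 := by
  have key : ∀ N, (∀ n, N ≤ n → f n = 0) → ∀ n, f n = 0 := by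
    intro N
    induction N with
    | zero => intro h0 n; exact h0 n (Nat.zero_le n)
    | succ N ih =>
      intro h0
      refine ih fun n hn => ?_
      rcases eq_or_lt_of_le hn with h1 | h1
      · rw [← h1, h N, h0 (N + 1) le_rfl, smul_zero]
      · exact h0 n h1
  obtain ⟨N, hN⟩ := f.support.exists_nat_subset_range
  refine Finsupp.ext fun n => key N (fun n hn => ?_) n
  by_contra hne
  exact absurd (Finset.mem_range.1 (hN (Finsupp.mem_support_iff.2 hne))) (not_lt.2 hn)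

/-- the resolution `0 → Ind (M⟨-α⟩) → Ind M → M → 0` -/
lemma RankA_ses {M : Mod (Q.Ai i)} (hM : IsWt Q M) :
    Nonempty (ModSES (((M.res (RankA_c Q i)).tw (-(Q.al i))).ind (RankA_c Q i))
      ((M.res (RankA_c Q i)).ind (RankA_c Q i)) M) := by
  obtain ⟨f, hf⟩ := RankA_exists_f M
  let g : (((M.res (RankA_c Q i)).tw (-(Q.al i))).ind (RankA_c Q i)).X →ₗ[(Q.Ai i).A]
      ((M.res (RankA_c Q i)).ind (RankA_c Q i)).X :=
    indLift (RankA_c Q i) ((M.res (RankA_c Q i)).tw (-(Q.al i))) f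
  have hg : ∀ (a : (Q.Ai i).A) (x : M.X),
      g (indT (RankA_c Q i) ((M.res (RankA_c Q i)).tw (-(Q.al i))) a
        (twx (M := M.res (RankA_c Q i)) (-(Q.al i)) x)) = a • RankA_u M x := by
    intro a x
    rw [← hf x]
    exact indLift_T _ _ _ _ _
  obtain ⟨Θ', hΘ', hs'⟩ : ∃ Θ' : (ℕ →₀ M.X) →ₗ[k]
      (((M.res (RankA_c Q i)).tw (-(Q.al i))).ind (RankA_c Q i)).X, Function.Bijective Θ' ∧
      ∀ n (y : M.X), Θ' (Finsupp.single n y)
        = indT (RankA_c Q i) ((M.res (RankA_c Q i)).tw (-(Q.al i))) (Q.gF {i} {i} i ^ n)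
          (twx (M := M.res (RankA_c Q i)) (-(Q.al i)) y) :=
    RankA_basis ((M.res (RankA_c Q i)).tw (-(Q.al i)))
  obtain ⟨Θ, hΘ, hs⟩ : ∃ Θ : (ℕ →₀ M.X) →ₗ[k]
      ((M.res (RankA_c Q i)).ind (RankA_c Q i)).X, Function.Bijective Θ ∧
      ∀ n (y : M.X), Θ (Finsupp.single n y) = RankA_t M (Q.gF {i} {i} i ^ n) y :=
    RankA_basis (M.res (RankA_c Q i))
  let Fk : M.X →ₗ[k] M.X :=
    { toFun := fun x => Q.gF {i} {i} i • x
      map_add' := smul_add _
      map_smul' := fun t x => smul_comm_k _ t x }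
  let D : (ℕ →₀ M.X) →ₗ[k] (ℕ →₀ M.X) :=
    Finsupp.lmapDomain M.X k Nat.succ - Finsupp.mapRange.linearMap Fk
  have hD : ∀ f : ℕ →₀ M.X, g (Θ' f) = Θ (D f) := by
    intro f
    induction f using Finsupp.induction_linear with
    | zero => rw [map_zero, map_zero, map_zero, map_zero]
    | add f1 f2 h1 h2 => rw [map_add, map_add, map_add, map_add, h1, h2]
    | single n y =>
      have h1 : D (Finsupp.single n y) = Finsupp.single (n + 1) y
          - Finsupp.single n (Q.gF {i} {i} i • y) := by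
        show Finsupp.lmapDomain M.X k Nat.succ (Finsupp.single n y)
          - Finsupp.mapRange.linearMap Fk (Finsupp.single n y) = _
        rw [Finsupp.lmapDomain_apply, Finsupp.mapDomain_single,
          Finsupp.mapRange.linearMap_apply, Finsupp.mapRange_single]
        rfl
      rw [h1, map_sub, hs, hs, hs', hg]
      unfold RankA_u
      rw [smul_sub, RankA_smul_t, RankA_smul_t, mul_one, pow_succ]
  have hinj : Function.Injective g := by
    rw [injective_iff_map_eq_zero]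
    intro x hx
    obtain ⟨f, rfl⟩ := hΘ'.2 x
    rw [hD] at hx
    have h1 : D f = 0 := hΘ.1 (by rw [hx, map_zero])
    have h2 : f = 0 := by
      refine RankA_fin0 f fun n => ?_
      have h3 := DFunLike.congr_fun h1 (n + 1)
      have h4 : D f (n + 1) = f n - Q.gF {i} {i} i • f (n + 1) := by
        show (Finsupp.mapDomain Nat.succ f) (Nat.succ n)
          - (Finsupp.mapRange.linearMap Fk f) (n + 1) = _
        rw [Finsupp.mapDomain_apply Nat.succ_injective]
        rfl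
      rw [h4] at h3
      exact sub_eq_zero.1 h3
    rw [h2, map_zero]
  let p := indC (RankA_c Q i) M
  have hp : ∀ (a : (Q.Ai i).A) (x : M.X), p (RankA_t M a x) = a • x := fun a x => indC_T _ _ _ _
  have hpg : p ∘ₗ g = 0 := by
    refine ind_hom_ext _ _ fun x => ?_
    show p (g (indT (RankA_c Q i) ((M.res (RankA_c Q i)).tw (-(Q.al i))) 1
        (twx (M := M.res (RankA_c Q i)) (-(Q.al i)) x))) = 0
    rw [hg, one_smul]
    unfold RankA_u
    rw [map_sub, hp, hp, one_smul, sub_self]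
  have hdec : ∀ z : ((M.res (RankA_c Q i)).ind (RankA_c Q i)).X,
      ∃ y, ∃ m : M.X, z = g y + RankA_t M 1 m := by
    intro z
    obtain ⟨f, rfl⟩ := hΘ.2 z
    induction f using Finsupp.induction_linear with
    | zero =>
      refine ⟨0, 0, ?_⟩
      have h0 : RankA_t M 1 0 = 0 := indT_zero_right _ _ _
      rw [map_zero, map_zero, h0, add_zero]
    | add f1 f2 h1 h2 =>
      obtain ⟨y1, m1, e1⟩ := h1
      obtain ⟨y2, m2, e2⟩ := h2
      refine ⟨y1 + y2, m1 + m2, ?_⟩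
      rw [map_add, e1, e2, map_add, RankA_t_add]
      abel
    | single n y =>
      rw [hs]
      induction n generalizing y with
      | zero => exact ⟨0, y, by rw [map_zero, zero_add, pow_zero]⟩
      | succ n ih =>
        obtain ⟨y1, m1, e1⟩ := ih (Q.gF {i} {i} i • y)
        refine ⟨y1 + indT (RankA_c Q i) ((M.res (RankA_c Q i)).tw (-(Q.al i)))
          (Q.gF {i} {i} i ^ n) (twx (M := M.res (RankA_c Q i)) (-(Q.al i)) y), m1, ?_⟩
        rw [map_add, hg]
        unfold RankA_u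
        rw [smul_sub, RankA_smul_t, RankA_smul_t, mul_one, ← pow_succ, e1]
        abel
  exact ⟨mkSES ((hM.res _).ind _ (Q.wtAlg _ _)) g p hinj (indC_surjective _ M) fun x => by
    constructor
    · intro hx
      obtain ⟨y, m, rfl⟩ := hdec x
      rw [map_add, hp, one_smul] at hx
      have h1 : p (g y) = 0 := LinearMap.congr_fun hpg y
      rw [h1, zero_add] at hx
      have h0 : RankA_t M 1 0 = 0 := indT_zero_right _ _ _
      exact ⟨y, by rw [hx, h0, add_zero]⟩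
    · rintro ⟨y, rfl⟩
      exact LinearMap.congr_fun hpg y⟩

/-- weight spaces of a restriction -/
lemma RankA_wts_res {T' T : TAlg k I} (φ : THom T' T) (M : Mod T) (ν : I → ℤ) (x : M.X) :
    (x : (M.res φ).X) ∈ wts Q (M.res φ) ν ↔ x ∈ wts Q M ν := by
  have h2 : ∀ j, ((T'.K j : T'.A) • (show (M.res φ).X from x) : (M.res φ).X) =
      ((T.K j : T.A) • x : M.X) := by
    intro j
    rw [Mod.res_smul, φ.f_K]
  constructor
  · intro hx j
    rw [← h2 j]
    exact hx j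
  · intro hx j
    rw [h2 j]
    exact hx j

lemma RankA_res_E (M : Mod (Q.Ai i)) (x : M.X) :
    (Q.gE {i} ∅ i • (show (M.res (RankA_c Q i)).X from x) : (M.res (RankA_c Q i)).X) =
      (Q.gE {i} {i} i • x : M.X) := by
  rw [Mod.res_smul, QD.inc_E Q _ _ (Set.mem_singleton i)]

/-! ### trivial modules -/

/-- the subspace is at most one-dimensional -/
def RankA_le1 {W : Type} [AddCommGroup W] [Module k W] (V : Submodule k W) : Prop :=
  ∀ x ∈ V, ∀ y ∈ V, x ≠ 0 → ∃ t : k, y = t • x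

end gen

variable {k : Type} [Field k] [CharZero k] {I : Type} [Fintype I] [DecidableEq I] {Q : QD k I}
  {i : I}

/-- Shapiro's lemma for `B_i ⊆ A_i` -/
lemma RankA_shap {Y : Mod (Q.Bi i)} (hY : IsWt Q Y) {n : ℤ} (h : EVan Y n) :
    EVan (Y.ind (RankA_c Q i)) n :=
  (EVan.shapiroQ (Set.Subset.refl {i}) (Set.empty_subset {i})
    (QD.rfree_minus (Q := Q) (Jp := {i}) (Jm := {i})) hY).2 h

theorem rankA_ge_three {M : Mod (Q.Ai i)} (hM : IsWt Q M) {n : ℤ} (hn : 3 ≤ n) : EVan M n := by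
  obtain ⟨S⟩ := RankA_ses hM
  have hb : IsWt Q (M.res (RankA_c Q i)) := hM.res (RankA_c Q i)
  have hbt : IsWt Q ((M.res (RankA_c Q i)).tw (-(Q.al i))) := hb.tw (-(Q.al i))
  have h1 := RankA_shap hbt (rankB_ge_two hbt (n := n - 1) (by omega))
  have h2 := RankA_shap hb (rankB_ge_two hb (n := n - 1 + 1) (by omega))
  have h3 := EVan.quot S h1 h2
  rwa [sub_add_cancel] at h3

end Pool.Agent.Lib.QG
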