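import Pool.Agent.Lib.MP_021f05_al.DerivQ
import Pool.Agent.Lib.MP_021f05_al.EUnion
import Pool.Agent.Lib.MP_021f05_al.RankA0

/-!
# MP_021f05_al (E3): the rank one algebra `A_i` and integrable modules
-/

noncomputable section

namespace Pool.Agent.Lib.QG

open MvPolynomial
open scoped TensorProduct

variable {k : Type} [Field k] [CharZero k] {I : Type} [Fintype I] [DecidableEq I] {Q : QD k I}
  {i : I}

/-- `E_{B_i}^1(M) = 0` for `M` integrable -/
lemma RankA_B1 {M : Mod (Q.Ai i)} (hM : IsWt Q M) (hI : IsInt i M) :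
    EVan (M.res (RankA_c Q i)) 1 := by
  have hb : IsWt Q (M.res (RankA_c Q i)) := hM.res (RankA_c Q i)
  refine rankB_one hb fun x hx hEx => ?_
  have hx' : (show M.X from x) ∈ wts Q M (-(Q.al i)) :=
    (RankA_wts_res (RankA_c Q i) M (-(Q.al i)) x).1 hx
  have hEx' : Q.gE {i} {i} i • (show M.X from x) = 0 := (RankA_res_E M x).symm.trans hEx
  refine sl2_inj (Set.mem_singleton i) (Set.mem_singleton i) hI hx' ?_ hEx'
  have h := ct_sub_al (Q := Q) (i := i) 0
  have h0 : Q.ct i 0 = 0 := by unfold CDatum.ct; simp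
  rw [zero_sub, h0] at h
  rw [h]; norm_num

lemma RankA_IndB1 {M : Mod (Q.Ai i)} (hM : IsWt Q M) (hI : IsInt i M) :
    EVan ((M.res (RankA_c Q i)).ind (RankA_c Q i)) 1 :=
  RankA_shap (hM.res (RankA_c Q i)) (RankA_B1 hM hI)

theorem rankA_one {M : Mod (Q.Ai i)} (hM : IsWt Q M) (hI : IsInt i M) : EVan M 1 := by
  obtain ⟨S⟩ := RankA_ses hM
  have hb : IsWt Q (M.res (RankA_c Q i)) := hM.res (RankA_c Q i)
  have h0 : EVan ((M.res (RankA_c Q i)).tw (-(Q.al i))) 0 := by
    refine rankB_zero_tw hb (-(Q.al i)) fun x hx => ?_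
    rw [neg_neg] at hx
    have hx' : (show M.X from x) ∈ wts Q M (Q.al i) :=
      (RankA_wts_res (RankA_c Q i) M (Q.al i) x).1 hx
    obtain ⟨y, hy, hEy⟩ := sl2_surj (Set.mem_singleton i) (Set.mem_singleton i) hI
      hx' (by rw [ct_al', Q.diag]; norm_num)
    refine ⟨y, ?_, (RankA_res_E M y).trans hEy⟩
    rw [show -(Q.al i) - -(Q.al i) = Q.al i - Q.al i by abel]
    exact (RankA_wts_res (RankA_c Q i) M (Q.al i - Q.al i) y).2 hy
  have h1 := RankA_shap (hb.tw (-(Q.al i))) h0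
  have h2 : EVan ((M.res (RankA_c Q i)).ind (RankA_c Q i)) (0 + 1) := by
    rw [zero_add]; exact RankA_IndB1 hM hI
  have h3 := EVan.quot S h1 h2
  rwa [zero_add] at h3

/-- `E²(M) = 0` if `E` is injective on the zero weight space -/
lemma RankA_two {M : Mod (Q.Ai i)} (hM : IsWt Q M)
    (h : ∀ x ∈ wts Q M 0, Q.gE {i} {i} i • x = 0 → x = 0) : EVan M 2 := by
  obtain ⟨S⟩ := RankA_ses hM
  have hb : IsWt Q (M.res (RankA_c Q i)) := hM.res (RankA_c Q i)
  have h0 : EVan ((M.res (RankA_c Q i)).tw (-(Q.al i))) 1 := by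
    refine rankB_one_tw hb (-(Q.al i)) fun x hx hEx => ?_
    rw [sub_self] at hx
    have hx' : (show M.X from x) ∈ wts Q M 0 := (RankA_wts_res (RankA_c Q i) M 0 x).1 hx
    have hEx' : Q.gE {i} {i} i • (show M.X from x) = 0 := (RankA_res_E M x).symm.trans hEx
    exact h x hx' hEx'
  have h1 := RankA_shap (hb.tw (-(Q.al i))) h0
  have h2 : EVan ((M.res (RankA_c Q i)).ind (RankA_c Q i)) (1 + 1) :=
    RankA_shap hb (rankB_ge_two hb (by norm_num))
  have h3 := EVan.quot S h1 h2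
  rwa [show (1 + 1 : ℤ) = 2 by norm_num] at h3

/-- scalars act through constants -/
lemma RankA_C_smul {T : TAlg k I} {M : Mod T} (t : k) (e : E M) :
    (C t : MvPolynomial I k) • e = t • e := by
  rw [← algebraMap_eq, algebraMap_smul]

lemma RankA_δ_smul {T : TAlg k I} {M' M M'' : Mod T} (S : ModSES M' M M'') (t : k) (e : E M') :
    Eδ S (t • e) = t • Eδ S e := by
  rw [← RankA_C_smul, map_smul, RankA_C_smul]

lemma RankA_map_smul {T : TAlg k I} {M' M : Mod T} (f : M'.X →ₗ[T.A] M.X) (t : k) (e : E M) :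
    Emap f (t • e) = t • Emap f e := by
  rw [← RankA_C_smul, map_smul, RankA_C_smul]

lemma RankA_res_smul {T' T : TAlg k I} (φ : THom T' T) (M : Mod T) (t : k) (e : E M) :
    Eres φ M (t • e) = t • Eres φ M e := by
  rw [← RankA_C_smul, map_smul, RankA_C_smul]

/-- `E⁰` of a cyclic module is at most one-dimensional -/
lemma RankA_le1_zero {T : TAlg k I} {R : Mod T} (r : R.X) (hr : ∀ x, ∃ b : T.A, x = b • r) :
    RankA_le1 (EDeg R 0) := by
  intro x hx y hy hx0
  obtain ⟨f, rfl⟩ := E0_exists R hx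
  obtain ⟨g, rfl⟩ := E0_exists R hy
  have hf : tv (f r) ≠ 0 := by
    intro h
    apply hx0
    have h0 : f = 0 := by
      refine LinearMap.ext fun z => ?_
      obtain ⟨b, rfl⟩ := hr z
      rw [map_smul, show f r = 0 from h, smul_zero, LinearMap.zero_apply]
    rw [h0, Emap_zero]
  refine ⟨tv (g r) / tv (f r), Emap_smul f g _ (fun z => ?_) _⟩
  obtain ⟨b, rfl⟩ := hr z
  rw [map_smul, map_smul, triv_smul, triv_smul]
  show T.ε b * tv (g r) = (tv (g r) / tv (f r)) * (T.ε b * tv (f r))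
  field_simp

/-- `E_{B_i}^1(Y)` is at most one-dimensional if `Y` is spanned by a vector killed by `E` -/
lemma RankA_le1_B {Y : Mod (Q.Bi i)} (hY : IsWt Q Y) (v : Y.X)
    (hv : ∀ x : Y.X, ∃ t : k, x = t • v) (hE : Q.gE {i} ∅ i • v = 0) :
    RankA_le1 (EDeg Y 1) := by
  let ι : THom Q.U0 (Q.Bi i) := Q.inc (Set.empty_subset {i}) (Set.Subset.refl ∅)
  have hι : RFree ι := QD.rfree_plus (Q := Q) (Jp := {i}) (Jm := ∅)
  have hJ : IsWt Q ((Y.res ι).ind ι) := (hY.res ι).ind ι (Q.wtAlg {i} ∅)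
  have hv1 : EVan ((Y.res ι).ind ι) 1 :=
    free_acyclic ι hι (Q.wtAlg {i} ∅) (hY.res ι) one_pos
  let w : ((Y.res ι).ind ι).X := indT ι (Y.res ι) 1 v
  have hc : ∀ a : (Q.Bi i).A, indC ι Y (a • w) = a • v := by
    intro a
    rw [map_smul, show indC ι Y w = (1 : (Q.Bi i).A) • v from indC_T ι Y 1 v, one_smul]
  have hw : ∀ x : ((Y.res ι).ind ι).X, ∃ a : (Q.Bi i).A, x = a • w := by
    intro x
    refine ind_induction ι (Y.res ι) (p := fun x => ∃ a : (Q.Bi i).A, x = a • w) x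
      ⟨0, (zero_smul _ _).symm⟩ ?_ ?_
    · intro a y
      obtain ⟨t, ht⟩ := hv y
      refine ⟨t • a, ?_⟩
      have h1 : indT ι (Y.res ι) a y = t • indT ι (Y.res ι) a v := by
        rw [← indT_smulk]
        exact congrArg _ ht
      rw [h1, smul_assoc, show a • w = indT ι (Y.res ι) (a * 1) v from smul_indT ι (Y.res ι) a 1 v,
        mul_one]
    · rintro x y ⟨a, rfl⟩ ⟨b, rfl⟩
      exact ⟨a + b, (add_smul _ _ _).symm⟩
  have hsc : ∀ (b : Q.U0.A), ∃ t : k, ι.f b • w = t • w := by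
    intro b
    obtain ⟨t, ht⟩ := hv (ι.f b • v)
    refine ⟨t, ?_⟩
    have h1 : ι.f b • w = indT ι (Y.res ι) 1 (ι.f b • v : Y.X) := by
      rw [show ι.f b • w = indT ι (Y.res ι) (ι.f b * 1) v from smul_indT ι (Y.res ι) _ 1 v,
        mul_one]
      have h2 := indT_mul ι (Y.res ι) 1 b v
      rw [one_mul] at h2
      exact h2
    rw [h1, ht]
    exact indT_smulk ι (Y.res ι) t 1 v
  have key : ∀ a : (Q.Bi i).A, ∃ (b : (Q.Bi i).A) (t : k),
      a • w = b • Q.gE {i} ∅ i • w + t • w := by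
    intro a
    induction a using RankA_ind with
    | hs t => exact ⟨0, t, by rw [zero_smul, zero_add, algebraMap_smul]⟩
    | hE j =>
      by_cases hj : j = i
      · rw [hj]
        exact ⟨1, 0, by rw [one_smul, zero_smul, add_zero]⟩
      · have h0 : Q.gE {i} ∅ j = 0 := (QA.elts Q {i} ∅).E0 j hj
        exact ⟨0, 0, by rw [h0, zero_smul, zero_smul, zero_smul, add_zero]⟩
    | hF j =>
      have h0 : Q.gF {i} ∅ j = 0 := (QA.elts Q {i} ∅).F0 j (Set.notMem_empty j)
      exact ⟨0, 0, by rw [h0, zero_smul, zero_smul, zero_smul, add_zero]⟩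
    | hK j =>
      obtain ⟨t, ht⟩ := hsc (Q.U0.K j : Q.U0.A)
      rw [ι.f_K] at ht
      exact ⟨0, t, by rw [zero_smul, zero_add]; exact ht⟩
    | hL j =>
      obtain ⟨t, ht⟩ := hsc ((Q.U0.K j)⁻¹ : Q.U0.Aˣ)
      rw [ι.f_Kinv] at ht
      exact ⟨0, t, by rw [zero_smul, zero_add]; exact ht⟩
    | hadd a b ha hb =>
      obtain ⟨b1, t1, e1⟩ := ha
      obtain ⟨b2, t2, e2⟩ := hb
      refine ⟨b1 + b2, t1 + t2, ?_⟩
      rw [add_smul, e1, e2, add_smul, add_smul]
      abel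
    | hmul a b ha hb =>
      obtain ⟨b1, t1, e1⟩ := ha
      obtain ⟨b2, t2, e2⟩ := hb
      refine ⟨a * b2 + t2 • b1, t2 * t1, ?_⟩
      rw [mul_smul, e2, smul_add, smul_comm_k, e1, add_smul, mul_smul, smul_add, smul_assoc,
        mul_smul t2 t1]
      abel
  let R : Mod (Q.Bi i) := Mod.sub _ (LinearMap.ker (indC ι Y))
  let S : ModSES R ((Y.res ι).ind ι) Y := mkSES hJ (Mod.subι _ (LinearMap.ker (indC ι Y)))
    (indC ι Y) (Submodule.injective_subtype _) (indC_surjective ι Y) (fun x =>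
      ⟨fun hx => ⟨⟨x, hx⟩, rfl⟩, fun ⟨y, hy⟩ => by rw [← hy]; exact y.2⟩)
  let r : R.X := ⟨Q.gE {i} ∅ i • w, by
    show indC ι Y (Q.gE {i} ∅ i • w) = 0
    rw [hc, hE]⟩
  have hr : ∀ x : R.X, ∃ b : (Q.Bi i).A, x = b • r := by
    rintro ⟨x, hx⟩
    obtain ⟨a, rfl⟩ := hw x
    obtain ⟨b, t, e⟩ := key a
    have h1 : t • v = 0 := by
      have h2 : indC ι Y (a • w) = 0 := hx
      rw [e, map_add, ← mul_smul, hc, mul_smul, hE, smul_zero, zero_add] at h2
      have h3 : indC ι Y (t • w) = t • v := by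
        rw [map_smulk]
        congr 1
        have h4 := hc 1
        rwa [one_smul, one_smul] at h4
      rw [h3] at h2
      exact h2
    have h2 : t • w = 0 := by
      rw [show t • w = indT ι (Y.res ι) 1 (t • v) from (indT_smulk ι (Y.res ι) t 1 v).symm, h1]
      exact indT_zero_right _ _ _
    refine ⟨b, Subtype.ext ?_⟩
    show a • w = b • Q.gE {i} ∅ i • w
    rw [e, h2, add_zero]
  have h1 := RankA_le1_zero r hr
  have h2 : ∀ y ∈ EDeg Y 1, ∃ x ∈ EDeg R 0, Eδ S x = y := by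
    intro y hy
    have h3 := hv1 _ (Emap_mem S.p hy)
    have hy' : y ∈ EDeg Y (0 + 1) := by rw [zero_add]; exact hy
    exact E_ex_quot S hy' h3
  intro x hx y hy hx0
  obtain ⟨x', hx', rfl⟩ := h2 x hx
  obtain ⟨y', hy', rfl⟩ := h2 y hy
  obtain ⟨t, rfl⟩ := h1 x' hx' y' hy' (by rintro rfl; exact hx0 (map_zero _))
  exact ⟨t, RankA_δ_smul S t x'⟩

/-- `E²(k)` is at most one-dimensional -/
lemma RankA_le1_triv : RankA_le1 (EDeg (triv (Q.Ai i)) 2) := by
  obtain ⟨S⟩ := RankA_ses (Q := Q) (i := i) (M := triv (Q.Ai i)) triv_isWt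
  have hb : IsWt Q ((triv (Q.Ai i)).res (RankA_c Q i)) :=
    IsWt.res (triv_isWt (Q := Q)) (RankA_c Q i)
  have hbt : IsWt Q (((triv (Q.Ai i)).res (RankA_c Q i)).tw (-(Q.al i))) := hb.tw (-(Q.al i))
  have h1 : RankA_le1 (EDeg (((triv (Q.Ai i)).res (RankA_c Q i)).tw (-(Q.al i))) 1) := by
    refine RankA_le1_B hbt (twx (M := (triv (Q.Ai i)).res (RankA_c Q i)) (-(Q.al i))
      (vt (Q.Ai i) 1)) ?_ ?_
    · intro x
      refine ⟨tv (T := Q.Ai i) x, ?_⟩
      show (show k from x) = (show k from x) * 1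
      rw [mul_one]
    · rw [tw_E ((triv (Q.Ai i)).res (RankA_c Q i)) (-(Q.al i)) i]
      have h2 : (Q.gE {i} ∅ i • (show ((triv (Q.Ai i)).res (RankA_c Q i)).X from vt (Q.Ai i) 1) :
          ((triv (Q.Ai i)).res (RankA_c Q i)).X) = 0 := by
        rw [RankA_res_E, triv_smul]
        have h : (Q.Ai i).ε (Q.gE {i} {i} i) = 0 := (QElts.eps Q {i} {i}).lift_E i
        rw [h, zero_mul]
        rfl
      rw [h2]
      rfl
  obtain ⟨hinj, -⟩ := shapiro (RankA_c Q i) (QD.rfree_minus (Q := Q) (Jp := {i}) (Jm := {i}))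
    (Q.wtAlg {i} {i}) (Q.wtAlg {i} ∅) (Q.inc (Set.empty_subset {i}) (Set.Subset.refl ∅))
    (QD.rfree_plus (Q := Q) (Jp := {i}) (Jm := ∅)) hbt 1
  set Y := ((triv (Q.Ai i)).res (RankA_c Q i)).tw (-(Q.al i)) with hY
  have h2 : RankA_le1 (EDeg (Y.ind (RankA_c Q i)) 1) := by
    intro x hx y hy hx0
    have hx' := Emap_mem (indU (RankA_c Q i) Y) (Eres_mem (RankA_c Q i) hx)
    have hy' := Emap_mem (indU (RankA_c Q i) Y) (Eres_mem (RankA_c Q i) hy)
    obtain ⟨t, ht⟩ := h1 _ hx' _ hy' (fun h => hx0 (hinj x hx h))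
    refine ⟨t, ?_⟩
    have h3 := hinj (y - t • x) (Submodule.sub_mem _ hy (Submodule.smul_mem _ t hx)) (by
      rw [map_sub, map_sub, ht, RankA_res_smul, RankA_map_smul, sub_self])
    exact sub_eq_zero.1 h3
  have h3 : ∀ y ∈ EDeg (triv (Q.Ai i)) 2, ∃ x ∈ EDeg (Y.ind (RankA_c Q i)) 1, Eδ S x = y := by
    intro y hy
    have hy' : y ∈ EDeg (triv (Q.Ai i)) (1 + 1) := by
      rw [show (1 + 1 : ℤ) = 2 by norm_num]; exact hy
    have h4 : EVan (((triv (Q.Ai i)).res (RankA_c Q i)).ind (RankA_c Q i)) 2 :=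
      RankA_shap hb (rankB_ge_two hb (by norm_num))
    exact E_ex_quot S hy' (h4 _ (Emap_mem S.p hy))
  intro x hx y hy hx0
  obtain ⟨x', hx', rfl⟩ := h3 x hx
  obtain ⟨y', hy', rfl⟩ := h3 y hy
  obtain ⟨t, rfl⟩ := h2 x' hx' y' hy' (by rintro rfl; exact hx0 (map_zero _))
  exact ⟨t, RankA_δ_smul S t x'⟩

lemma RankA_one_ne : (X i : MvPolynomial I k) • one (Q.Ai i) ≠ 0 := by
  have h := lin_smul_one_eq_zero_iff (Q := Q) (Jp := {i}) (Jm := {i}) (Pi.single i (1 : k))
  have h1 : lin (Pi.single i (1 : k)) = (X i : MvPolynomial I k) := by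
    unfold lin
    rw [Finset.sum_eq_single i]
    · rw [Pi.single_eq_same, map_one, one_mul]
    · intro j _ hj
      rw [Pi.single_eq_of_ne hj, map_zero, zero_mul]
    · intro hi
      exact absurd (Finset.mem_univ i) hi
  rw [h1] at h
  intro h0
  have h2 := h.1 h0 i (Set.mem_singleton i) (Set.mem_singleton i)
  rw [Pi.single_eq_same] at h2
  exact one_ne_zero h2

lemma RankA_triv_surj {e : E (triv (Q.Ai i))} (he : e ∈ EDeg (triv (Q.Ai i)) 2) :
    ∃ e' ∈ EDeg (triv (Q.Ai i)) 0, e = (X i : MvPolynomial I k) • e' := by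
  have h1 : (X i : MvPolynomial I k) • one (Q.Ai i) ∈ EDeg (triv (Q.Ai i)) 2 := by
    have := (triv (Q.Ai i)).coef.X_mem_Deg i (one_mem_Deg (T := Q.Ai i))
    rwa [zero_add] at this
  obtain ⟨t, rfl⟩ := RankA_le1_triv _ h1 _ he RankA_one_ne
  refine ⟨t • one (Q.Ai i), Submodule.smul_mem _ t one_mem_Deg, ?_⟩
  rw [← RankA_C_smul, ← RankA_C_smul, smul_smul, smul_smul, mul_comm]

lemma RankA_triv_inj {e : E (triv (Q.Ai i))} (he : e ∈ EDeg (triv (Q.Ai i)) 0)
    (h : (X i : MvPolynomial I k) • e = 0) : e = 0 := by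
  have h1 : RankA_le1 (EDeg (triv (Q.Ai i)) 0) := by
    refine RankA_le1_zero (vt (Q.Ai i) 1) fun x => ⟨algebraMap k _ (tv x), ?_⟩
    rw [algebraMap_smul]
    show (show k from x) = (show k from x) * 1
    rw [mul_one]
  obtain ⟨t, rfl⟩ := h1 _ one_mem_Deg _ he one_ne_zero'
  rw [← RankA_C_smul, smul_smul, mul_comm, mul_smul, RankA_C_smul] at h
  rcases smul_eq_zero.1 h with h2 | h2
  · rw [h2, zero_smul]
  · exact absurd h2 RankA_one_ne

/-- modules with trivial action are sums of copies of `k` -/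
lemma RankA_T_ds {T : TAlg k I} {M : Mod T} (hT : ∀ (a : T.A) (x : M.X), a • x = T.ε a • x) :
    ∃ (ι : Type) (_ : DecidableEq ι) (j : ι → ((triv T).X →ₗ[T.A] M.X)),
      Function.Bijective (DirectSum.toModule T.A ι M.X j) := by
  classical
  let b := Module.Basis.ofVectorSpace k M.X
  let j : Module.Basis.ofVectorSpaceIndex k M.X → ((triv T).X →ₗ[T.A] M.X) := fun s =>
    { toFun := fun t => tv t • b s
      map_add' := fun x y => add_smul (tv x) (tv y) (b s)
      map_smul' := fun a x => by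
        rw [triv_smul, tv_vt, RingHom.id_apply, hT, mul_smul] }
  refine ⟨_, inferInstance, j, ?_⟩
  have h1 : ∀ f : (Module.Basis.ofVectorSpaceIndex k M.X) →₀ k,
      DirectSum.toModule T.A _ M.X j (finsuppLEquivDirectSum k k _ f) = b.repr.symm f := by
    intro f
    induction f using Finsupp.induction_linear with
    | zero => rw [map_zero, map_zero]; exact map_zero _
    | add f g hf hg =>
      rw [map_add, map_add, ← hf, ← hg]
      exact map_add _ _ _
    | single s t =>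
      rw [finsuppLEquivDirectSum_single, Module.Basis.repr_symm_single]
      exact DirectSum.toModule_lof T.A (M := fun _ => (triv T).X) s (vt T t)
  have h2 : Function.Bijective ((DirectSum.toModule T.A _ M.X j) ∘
      (finsuppLEquivDirectSum k k (Module.Basis.ofVectorSpaceIndex k M.X))) := by
    have h3 : ((DirectSum.toModule T.A _ M.X j) ∘
      (finsuppLEquivDirectSum k k (Module.Basis.ofVectorSpaceIndex k M.X))) = b.repr.symm :=
      funext h1
    rw [h3]
    exact b.repr.symm.bijective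
  exact (Function.Bijective.of_comp_iff _ (LinearEquiv.bijective _)).1 h2

lemma RankA_T_inj {M : Mod (Q.Ai i)} (hT : ∀ (a : (Q.Ai i).A) (x : M.X), a • x = (Q.Ai i).ε a • x)
    {e : E M} (he : e ∈ EDeg M 0) (h : (X i : MvPolynomial I k) • e = 0) : e = 0 := by
  obtain ⟨ι, hι, j, hj⟩ := RankA_T_ds hT
  refine E_ds_inj (fun _ => triv (Q.Ai i)) M j hj e fun s => ?_
  exact RankA_triv_inj (Emap_mem (j s) he) (by rw [← map_smul, h, map_zero])

lemma RankA_T_surj {M : Mod (Q.Ai i)}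
    (hT : ∀ (a : (Q.Ai i).A) (x : M.X), a • x = (Q.Ai i).ε a • x)
    {e : E M} (he : e ∈ EDeg M 2) : ∃ e' ∈ EDeg M 0, e = (X i : MvPolynomial I k) • e' := by
  obtain ⟨ι, hι, j, hj⟩ := RankA_T_ds hT
  have h1 : ∀ s, ∃ e' ∈ EDeg (triv (Q.Ai i)) 0, Emap (j s) e = (X i : MvPolynomial I k) • e' :=
    fun s => RankA_triv_surj (Emap_mem (j s) he)
  choose e1 he1 h2 using h1
  obtain ⟨x, hx⟩ := E_ds_surj (fun _ => triv (Q.Ai i)) M j hj e1
  refine ⟨M.coef.pr 0 x, M.coef.pr_mem_Deg 0 x, ?_⟩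
  refine sub_eq_zero.1 (E_ds_inj (fun _ => triv (Q.Ai i)) M j hj _ fun s => ?_)
  rw [map_sub, h2, map_smul, Emap_pr, hx]
  have h3 : (triv (Q.Ai i)).coef.pr 0 (e1 s) = e1 s := (Coef.mem_Deg _).1 (he1 s)
  rw [h3, sub_self]

/-- the decomposition `M = M' ⊕ M''` -/
lemma RankA_decomp {M : Mod (Q.Ai i)} (hM : IsWt Q M) (hI : IsInt i M) :
    ∃ M' M'' : Submodule (Q.Ai i).A M.X, IsCompl M' M'' ∧
      (∀ x ∈ M', ∀ a : (Q.Ai i).A, a • x = (Q.Ai i).ε a • x) ∧
      M'' = Submodule.span (Q.Ai i).A {z | ∃ (a : (Q.Ai i).A) (x : M.X),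
        z = a • x - (Q.Ai i).ε a • x} ∧
      (∀ x ∈ M'', x ∈ wts Q M 0 → Q.gE {i} {i} i • x = 0 → x = 0) := by
  classical
  have hm : i ∈ ({i} : Set I) := Set.mem_singleton i
  have h0 : Q.ct i 0 = 0 := by unfold CDatum.ct; simp
  have hεE : ∀ j, (Q.Ai i).ε (Q.gE {i} {i} j) = 0 := fun j => (QElts.eps Q {i} {i}).lift_E j
  have hεF : ∀ j, (Q.Ai i).ε (Q.gF {i} {i} j) = 0 := fun j => (QElts.eps Q {i} {i}).lift_F j
  have hεK : ∀ j, (Q.Ai i).ε ((Q.Ai i).K j : (Q.Ai i).A) = 1 := fun j => (Q.Ai i).ε_K j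
  have hεL : ∀ j, (Q.Ai i).ε (((Q.Ai i).K j)⁻¹ : (Q.Ai i).Aˣ) = 1 := fun j => ε_Kinv j
  have hKinv : ∀ (ν : I → ℤ) (x : M.X), x ∈ wts Q M ν → ∀ j,
      ((((Q.Ai i).K j)⁻¹ : (Q.Ai i).Aˣ) : (Q.Ai i).A) • x = (Q.χ ν j)⁻¹ • x := by
    intro ν x hx j
    have h1 := hx j
    have h2 : ((((Q.Ai i).K j)⁻¹ : (Q.Ai i).Aˣ) : (Q.Ai i).A) • ((Q.Ai i).K j : (Q.Ai i).A) • x
        = x := by rw [smul_smul, Units.inv_mul, one_smul]
    rw [h1, smul_comm_k] at h2
    calc ((((Q.Ai i).K j)⁻¹ : (Q.Ai i).Aˣ) : (Q.Ai i).A) • x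
        = (Q.χ ν j)⁻¹ • (Q.χ ν j • ((((Q.Ai i).K j)⁻¹ : (Q.Ai i).Aˣ) : (Q.Ai i).A) • x) := by
          rw [smul_smul, inv_mul_cancel₀ (QD.χ_ne ν j), one_smul]
      _ = (Q.χ ν j)⁻¹ • x := by rw [h2]
  -- invariants
  let M' : Submodule (Q.Ai i).A M.X :=
    { carrier := {x | ∀ a : (Q.Ai i).A, a • x = (Q.Ai i).ε a • x}
      add_mem' := by
        intro x y hx hy a
        rw [smul_add, smul_add, hx a, hy a]
      zero_mem' := by intro a; rw [smul_zero, smul_zero]
      smul_mem' := by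
        intro b x hx a
        rw [hx b, smul_comm_k, hx a, smul_comm] }
  let M'' : Submodule (Q.Ai i).A M.X := Submodule.span (Q.Ai i).A
    {z | ∃ (a : (Q.Ai i).A) (x : M.X), z = a • x - (Q.Ai i).ε a • x}
  have hM'w : ∀ x ∈ M', x ∈ wts Q M 0 := by
    intro x hx j
    rw [hx, hεK, QD.χ_zero]
  -- the graded description
  let W0 : Submodule k M.X := ⨆ μ : {μ : I → ℤ // μ ≠ 0}, wts Q M μ
  let Ek : M.X →ₗ[k] M.X :=
    { toFun := fun x => Q.gE {i} {i} i • x
      map_add' := smul_add _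
      map_smul' := fun t x => smul_comm_k _ t x }
  let W : Submodule k M.X := W0 ⊔ (wts Q M (-(Q.al i))).map Ek
  have hW0 : ∀ (μ : I → ℤ) (x : M.X), μ ≠ 0 → x ∈ wts Q M μ → x ∈ W := fun μ x hμ hx =>
    Submodule.mem_sup_left (Submodule.mem_iSup_of_mem (⟨μ, hμ⟩ : {μ : I → ℤ // μ ≠ 0}) hx)
  have hWE : ∀ z ∈ wts Q M (-(Q.al i)), Q.gE {i} {i} i • z ∈ W := fun z hz =>
    Submodule.mem_sup_right ⟨z, hz, rfl⟩
  have hred : ∀ g : M.X →ₗ[k] M.X, (∀ (ν : I → ℤ) (x : M.X), x ∈ wts Q M ν → g x ∈ W) →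
      ∀ x, g x ∈ W := by
    intro g hg x
    obtain ⟨f, hf, rfl⟩ := hM.exists_sum x
    rw [Finsupp.sum, map_sum]
    exact W.sum_mem fun μ _ => hg μ _ (hf μ)
  have hWall : ∀ (a : (Q.Ai i).A) (x : M.X), a • x - (Q.Ai i).ε a • x ∈ W := by
    intro a
    induction a using RankA_ind with
    | hs t =>
      intro x
      have h1 : (Q.Ai i).ε (algebraMap k (Q.Ai i).A t) = t := (Q.Ai i).ε.commutes t
      rw [algebraMap_smul, h1, sub_self]
      exact W.zero_mem
    | hE j =>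
      intro x
      rw [hεE, zero_smul, sub_zero]
      by_cases hj : j = i
      · subst hj
        refine hred Ek (fun ν x hx => ?_) x
        by_cases hν : ν = -(Q.al j)
        · subst hν
          exact hWE x hx
        · refine hW0 (ν + Q.al j) _ (fun h => hν (eq_neg_of_add_eq_zero_left h)) (gE_wt hx j)
      · have h1 : Q.gE {i} {i} j = 0 := (QA.elts Q {i} {i}).E0 j hj
        rw [h1, zero_smul]
        exact W.zero_mem
    | hF j =>
      intro x
      rw [hεF, zero_smul, sub_zero]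
      by_cases hj : j = i
      · subst hj
        refine hred
          { toFun := fun x => Q.gF {j} {j} j • x
            map_add' := smul_add _
            map_smul' := fun t x => smul_comm_k _ t x } (fun ν x hx => ?_) x
        show Q.gF {j} {j} j • x ∈ W
        by_cases hν : ν = Q.al j
        · subst hν
          have hx' : x ∈ wts Q M (0 + Q.al j) := by rw [zero_add]; exact hx
          obtain ⟨z, hz, e⟩ := sl2_FE hm hm hI hx' h0
          rw [e]
          rw [zero_sub] at hz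
          exact hWE z hz
        · exact hW0 (ν - Q.al j) _ (fun h => hν (sub_eq_zero.1 h)) (gF_wt hx j)
      · have h1 : Q.gF {i} {i} j = 0 := (QA.elts Q {i} {i}).F0 j hj
        rw [h1, zero_smul]
        exact W.zero_mem
    | hK j =>
      intro x
      rw [hεK, one_smul]
      refine hred
        { toFun := fun x => ((Q.Ai i).K j : (Q.Ai i).A) • x - x
          map_add' := fun x y => by rw [smul_add]; abel
          map_smul' := fun t x => by rw [smul_comm_k, RingHom.id_apply, smul_sub] }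
        (fun ν x hx => ?_) x
      show ((Q.Ai i).K j : (Q.Ai i).A) • x - x ∈ W
      rw [hx j]
      by_cases hν : ν = 0
      · rw [hν, QD.χ_zero, one_smul, sub_self]
        exact W.zero_mem
      · exact W.sub_mem (W.smul_mem _ (hW0 ν x hν hx)) (hW0 ν x hν hx)
    | hL j =>
      intro x
      rw [hεL, one_smul]
      refine hred
        { toFun := fun x => ((((Q.Ai i).K j)⁻¹ : (Q.Ai i).Aˣ) : (Q.Ai i).A) • x - x
          map_add' := fun x y => by rw [smul_add]; abel
          map_smul' := fun t x => by rw [smul_comm_k, RingHom.id_apply, smul_sub] }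
        (fun ν x hx => ?_) x
      show ((((Q.Ai i).K j)⁻¹ : (Q.Ai i).Aˣ) : (Q.Ai i).A) • x - x ∈ W
      rw [hKinv ν x hx j]
      by_cases hν : ν = 0
      · rw [hν, QD.χ_zero, inv_one, one_smul, sub_self]
        exact W.zero_mem
      · exact W.sub_mem (W.smul_mem _ (hW0 ν x hν hx)) (hW0 ν x hν hx)
    | hadd a b ha hb =>
      intro x
      have h1 := W.add_mem (ha x) (hb x)
      rw [add_smul, map_add, add_smul]
      convert h1 using 1
      abel
    | hmul a b ha hb =>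
      intro x
      have h1 := W.add_mem (ha (b • x)) (W.smul_mem ((Q.Ai i).ε a) (hb x))
      rw [mul_smul, map_mul, mul_smul]
      convert h1 using 1
      rw [smul_sub]
      abel
  have hWst : ∀ (a : (Q.Ai i).A), ∀ w ∈ W, a • w ∈ W := by
    intro a w hw
    have h1 := W.add_mem (hWall a w) (W.smul_mem ((Q.Ai i).ε a) hw)
    rwa [sub_add_cancel] at h1
  have hM''W : ∀ x ∈ M'', x ∈ W := by
    intro x hx
    induction hx using Submodule.span_induction with
    | mem x h =>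
      obtain ⟨a, y, rfl⟩ := h
      exact hWall a y
    | zero => exact W.zero_mem
    | add x y _ _ hx hy => exact W.add_mem hx hy
    | smul a x _ hx => exact hWst a x hx
  have hind : Disjoint (wts Q M 0) W0 := by
    have h1 := (wts_indep (Q := Q) (M := M)) 0
    refine h1.mono_right ?_
    refine iSup_le fun μ => ?_
    exact le_iSup₂_of_le μ.1 μ.2 le_rfl
  have hkey : ∀ x ∈ M'', x ∈ wts Q M 0 → Q.gE {i} {i} i • x = 0 → x = 0 := by
    intro x hx hx0 hE
    obtain ⟨w, hw, y, hy, rfl⟩ := Submodule.mem_sup.1 (hM''W x hx)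
    obtain ⟨z, hz, rfl⟩ := hy
    have hEz : Q.gE {i} {i} i • z ∈ wts Q M 0 := by
      have h1 := gE_wt (Jp := {i}) (Jm := {i}) hz i
      rwa [neg_add_cancel] at h1
    have hw0 : w ∈ wts Q M 0 := by
      have h1 := Submodule.sub_mem _ hx0 hEz
      rwa [show w + Ek z - Q.gE {i} {i} i • z = w from add_sub_cancel_right _ _] at h1
    have hw1 : w = 0 := Submodule.disjoint_def.1 hind w hw0 hw
    subst hw1
    rw [zero_add] at hE ⊢
    have hz' : z ∈ wts Q M (0 - Q.al i) := by rw [zero_sub]; exact hz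
    have h1 := sl2_disj hm hm hI hz' h0 hE
    rw [h1, map_zero]
  refine ⟨M', M'', ?_, fun x hx => hx, rfl, hkey⟩
  constructor
  · rw [Submodule.disjoint_def]
    intro x hx hx'
    refine hkey x hx' (hM'w x hx) ?_
    rw [hx, hεE, zero_smul]
  · rw [codisjoint_iff, eq_top_iff]
    rintro x -
    obtain ⟨f, hf, rfl⟩ := hM.exists_sum x
    rw [Finsupp.sum]
    refine Submodule.sum_mem _ fun μ _ => ?_
    by_cases hμ : μ = 0
    · subst hμ
      obtain ⟨y, hy, z, hz, hEy, e⟩ := sl2_decomp hm hm hI (hf 0) h0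
      rw [e]
      refine Submodule.add_mem_sup ?_ ?_
      · have hFy := sl2_inv hm hm hI hy h0 hEy
        show ∀ a : (Q.Ai i).A, a • y = (Q.Ai i).ε a • y
        intro a
        induction a using RankA_ind with
        | hs t =>
          have h1 : (Q.Ai i).ε (algebraMap k (Q.Ai i).A t) = t := (Q.Ai i).ε.commutes t
          rw [algebraMap_smul, h1]
        | hE j =>
          rw [hεE, zero_smul]
          by_cases hj : j = i
          · rw [hj]; exact hEy
          · have h1 : Q.gE {i} {i} j = 0 := (QA.elts Q {i} {i}).E0 j hj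
            rw [h1, zero_smul]
        | hF j =>
          rw [hεF, zero_smul]
          by_cases hj : j = i
          · rw [hj]; exact hFy
          · have h1 : Q.gF {i} {i} j = 0 := (QA.elts Q {i} {i}).F0 j hj
            rw [h1, zero_smul]
        | hK j => rw [hy j, QD.χ_zero, hεK]
        | hL j => rw [hKinv 0 y hy j, QD.χ_zero, hεL, inv_one]
        | hadd a b ha hb => rw [add_smul, map_add, add_smul, ha, hb]
        | hmul a b ha hb => rw [mul_smul, hb, smul_comm_k, ha, map_mul, smul_smul, mul_comm]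
      · refine Submodule.subset_span ⟨Q.gE {i} {i} i, z, ?_⟩
        rw [hεE, zero_smul, sub_zero]
    · refine Submodule.mem_sup_right ?_
      obtain ⟨j, hj⟩ : ∃ j, Q.χ μ j ≠ Q.χ 0 j := by
        by_contra hcon
        push Not at hcon
        exact hμ (QD.χ_inj hcon)
      rw [QD.χ_zero] at hj
      have h1 : ((Q.Ai i).K j : (Q.Ai i).A) • f μ - (Q.Ai i).ε ((Q.Ai i).K j : (Q.Ai i).A) • f μ
          ∈ M'' := Submodule.subset_span ⟨_, _, rfl⟩
      rw [hεK, one_smul, hf μ j] at h1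
      have h2 : Q.χ μ j • f μ - f μ = (Q.χ μ j - 1) • f μ := by rw [sub_smul, one_smul]
      rw [h2] at h1
      have h3 := M''.smul_mem (algebraMap k (Q.Ai i).A (Q.χ μ j - 1)⁻¹) h1
      rwa [algebraMap_smul, smul_smul, inv_mul_cancel₀ (sub_ne_zero.2 hj), one_smul] at h3

/-- the two summands in cohomology -/
lemma RankA_split {M : Mod (Q.Ai i)} (hM : IsWt Q M) (hI : IsInt i M) :
    ∃ (M' : Mod (Q.Ai i)) (f : M'.X →ₗ[(Q.Ai i).A] M.X) (p : M.X →ₗ[(Q.Ai i).A] M'.X),
      (∀ (a : (Q.Ai i).A) (x : M'.X), a • x = (Q.Ai i).ε a • x) ∧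
      (∀ e ∈ EDeg M 0, e = Emap p (Emap f e)) ∧ (∀ e ∈ EDeg M 2, e = Emap p (Emap f e)) := by
  obtain ⟨M', M'', hc, hT, hsp, hE⟩ := RankA_decomp hM hI
  let p' : M.X →ₗ[(Q.Ai i).A] M' := M'.projectionOnto M'' hc
  let p'' : M.X →ₗ[(Q.Ai i).A] M'' := M''.projectionOnto M' hc.symm
  have hid : (LinearMap.id : M.X →ₗ[(Q.Ai i).A] M.X)
      = (M.subι M').comp p' + (M.subι M'').comp p'' := by
    refine LinearMap.ext fun x => ?_
    have hx : x ∈ M' ⊔ M'' := by rw [hc.sup_eq_top]; trivial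
    obtain ⟨y, hy, z, hz, rfl⟩ := Submodule.mem_sup.1 hx
    have h1 : p' y = ⟨y, hy⟩ := Submodule.projectionOnto_apply_left hc ⟨y, hy⟩
    have h2 : p' z = 0 := Submodule.projectionOnto_apply_right hc ⟨z, hz⟩
    have h3 : p'' z = ⟨z, hz⟩ := Submodule.projectionOnto_apply_left hc.symm ⟨z, hz⟩
    have h4 : p'' y = 0 := Submodule.projectionOnto_apply_right hc.symm ⟨y, hy⟩
    show y + z = ((p' (y + z) : M') : M.X) + ((p'' (y + z) : M'') : M.X)
    rw [map_add, map_add, h1, h2, h3, h4, add_zero, zero_add]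
  have hdec : ∀ e : E M, e = Emap (M' := M) (M := M.sub M') p' (Emap (M.subι M') e)
      + Emap (M' := M) (M := M.sub M'') p'' (Emap (M.subι M'') e) := by
    intro e
    rw [Emap_comp, Emap_comp, ← Emap_add, ← hid, Emap_id]
  have h0 : EVan (M.sub M'') 0 := by
    intro e he
    obtain ⟨f, rfl⟩ := E0_exists _ he
    have h1 : ∀ z ∈ M'', f (p'' z) = 0 := by
      intro z hz
      rw [hsp] at hz
      induction hz using Submodule.span_induction with
      | mem x h =>
        obtain ⟨a, y, rfl⟩ := h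
        have h3 : p'' ((Q.Ai i).ε a • y) = (Q.Ai i).ε a • p'' y :=
          map_smulk (M' := M) (M := M.sub M'') p'' _ _
        rw [map_sub, map_smul, h3]
        have h4 : f (a • p'' y) = a • f (p'' y) := map_smul f _ _
        have h5 : f ((Q.Ai i).ε a • p'' y) = (Q.Ai i).ε a • f (p'' y) := map_smulk f _ _
        refine (map_sub f _ _).trans ?_
        refine (congrArg₂ (fun u v => u - v) h4 h5).trans ?_
        rw [triv_smul]
        exact sub_self _
      | zero => rw [map_zero]; exact map_zero f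
      | add x y _ _ hx hy =>
        rw [map_add]
        refine (map_add f _ _).trans ?_
        rw [hx, hy, add_zero]
      | smul a x _ hx =>
        rw [map_smul]
        refine (map_smul f _ _).trans ?_
        rw [hx, smul_zero]
    have h6 : f = 0 := by
      refine LinearMap.ext fun z => ?_
      have h7 : p'' z.1 = z := Submodule.projectionOnto_apply_left hc.symm z
      have h8 := h1 z.1 z.2
      rw [h7] at h8
      exact h8
    rw [h6, Emap_zero]
  have h2 : EVan (M.sub M'') 2 := by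
    refine RankA_two (hM.sub M'') fun x hx hEx => ?_
    have h3 : (M.subι M'') x ∈ wts Q M 0 := wt_map_mem (M.subι M'') hx
    have h4 : Q.gE {i} {i} i • (M.subι M'') x = 0 := by
      rw [← map_smul, hEx, map_zero]
    exact Subtype.ext (hE x.1 x.2 h3 h4)
  refine ⟨M.sub M', M.subι M', p', ?_, ?_, ?_⟩
  · intro a x
    exact Subtype.ext (hT x.1 x.2 a)
  · intro e he
    have h3 := hdec e
    rw [h0 _ (Emap_mem (M.subι M'') he), map_zero, add_zero] at h3
    exact h3
  · intro e he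
    have h3 := hdec e
    rw [h2 _ (Emap_mem (M.subι M'') he), map_zero, add_zero] at h3
    exact h3

/-- `x_i : E⁰ → E²` is bijective -/
theorem rankA_X_inj {M : Mod (Q.Ai i)} (hM : IsWt Q M) (hI : IsInt i M) {e : E M}
    (he : e ∈ EDeg M 0) (h : (X i : MvPolynomial I k) • e = 0) : e = 0 := by
  obtain ⟨M', f, p, hT, h0, -⟩ := RankA_split hM hI
  rw [h0 e he, RankA_T_inj hT (Emap_mem f he) (by rw [← map_smul, h, map_zero]), map_zero]

theorem rankA_X_surj {M : Mod (Q.Ai i)} (hM : IsWt Q M) (hI : IsInt i M) {e : E M}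
    (he : e ∈ EDeg M 2) : ∃ e' ∈ EDeg M 0, e = (X i : MvPolynomial I k) • e' := by
  obtain ⟨M', f, p, hT, -, h2⟩ := RankA_split hM hI
  obtain ⟨e', he', h3⟩ := RankA_T_surj hT (Emap_mem f he)
  exact ⟨Emap p e', Emap_mem p he', by rw [h2 e he, h3, map_smul]⟩

end Pool.Agent.Lib.QG
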