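import Pool.Agent.Lib.MP_021f05_al.LHDef
import Pool.Agent.Lib.MP_021f05_al.RankA

/-!
# MP_021f05_al (E6): the decomposition `E^n = Ei n ⊕ x_i Ei (n - 2)`
-/

noncomputable section

namespace Pool.Agent.Lib.QG

open MvPolynomial

variable {k : Type} [Field k] [CharZero k] {I : Type} [Fintype I] [DecidableEq I]
  {Q : QD k I} {Jp Jm : Set I} {i : I} (hp : i ∈ Jp) (hm : i ∈ Jm)

namespace IM

/-! ### Shapiro's map -/

/-- Shapiro's map for the induced module -/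
def LHsh (Y : IM Q Jp Jm i) :
    E (Y.indM hp hm) →ₗ[MvPolynomial I k] E (Y.M.res (incA Q hp hm)) :=
  (Emap (indU (incA Q hp hm) (Y.M.res (incA Q hp hm)))).comp
    (Eres (incA Q hp hm) (Y.indM hp hm))

lemma LHsh_apply (Y : IM Q Jp Jm i) (x : E (Y.indM hp hm)) :
    LHsh hp hm Y x = Emap (indU (incA Q hp hm) (Y.M.res (incA Q hp hm)))
      (Eres (incA Q hp hm) (Y.indM hp hm) x) := rfl

lemma LH_resWt (Y : IM Q Jp Jm i) : IsWt Q (Y.M.res (incA Q hp hm)) := Y.wt.res _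

lemma LH_resInt (Y : IM Q Jp Jm i) : IsInt i (Y.M.res (incA Q hp hm)) :=
  Y.int.res (Set.mem_singleton i) (Set.mem_singleton i) (Set.singleton_subset_iff.2 hp)
    (Set.singleton_subset_iff.2 hm)

lemma LH_shapiro (Y : IM Q Jp Jm i) (n : ℤ) :
    (∀ x ∈ EDeg (Y.indM hp hm) n, LHsh hp hm Y x = 0 → x = 0) ∧
    (∀ e ∈ EDeg (Y.M.res (incA Q hp hm)) n,
      ∃ x ∈ EDeg (Y.indM hp hm) n, LHsh hp hm Y x = e) :=
  shapiro (incA Q hp hm) (QD.rfree_Ai hp hm) (Q.wtAlg Jp Jm) (Q.wtAlg {i} {i})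
    (Q.inc (Set.empty_subset _) (Set.empty_subset _)) QD.rfree_zero (LH_resWt hp hm Y) n

lemma LHsh_mem (Y : IM Q Jp Jm i) {n : ℤ} {x : E (Y.indM hp hm)}
    (hx : x ∈ EDeg (Y.indM hp hm) n) : LHsh hp hm Y x ∈ EDeg (Y.M.res (incA Q hp hm)) n :=
  Emap_mem _ (Eres_mem _ hx)

lemma LH_ind_one (Y : IM Q Jp Jm i) : EVan (Y.indM hp hm) 1 := fun x hx =>
  (LH_shapiro hp hm Y 1).1 x hx
    (rankA_one (LH_resWt hp hm Y) (LH_resInt hp hm Y) _ (LHsh_mem hp hm Y hx))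

lemma LH_ind_ge (Y : IM Q Jp Jm i) {n : ℤ} (hn : 3 ≤ n) : EVan (Y.indM hp hm) n := fun x hx =>
  (LH_shapiro hp hm Y n).1 x hx (rankA_ge_three (LH_resWt hp hm Y) hn _ (LHsh_mem hp hm Y hx))

lemma LH_ind_inj (Y : IM Q Jp Jm i) {x : E (Y.indM hp hm)} (hx : x ∈ EDeg (Y.indM hp hm) 0)
    (h : (X i : MvPolynomial I k) • x = 0) : x = 0 := by
  refine (LH_shapiro hp hm Y 0).1 x hx ?_
  refine rankA_X_inj (LH_resWt hp hm Y) (LH_resInt hp hm Y) (LHsh_mem hp hm Y hx) ?_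
  rw [← map_smul, h, map_zero]

lemma LH_ind_surj (Y : IM Q Jp Jm i) {x : E (Y.indM hp hm)} (hx : x ∈ EDeg (Y.indM hp hm) 2) :
    ∃ f ∈ EDeg (Y.indM hp hm) 0, x = (X i : MvPolynomial I k) • f := by
  obtain ⟨e, he, hxe⟩ := rankA_X_surj (LH_resWt hp hm Y) (LH_resInt hp hm Y)
    (LHsh_mem hp hm Y hx)
  obtain ⟨f, hf, rfl⟩ := (LH_shapiro hp hm Y 0).2 e he
  refine ⟨f, hf, ?_⟩
  rw [← sub_eq_zero]
  have h2 : (X i : MvPolynomial I k) • f ∈ EDeg (Y.indM hp hm) 2 := by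
    have := (Y.indM hp hm).coef.X_mem_Deg i hf
    rwa [zero_add] at this
  refine (LH_shapiro hp hm Y 2).1 _ ((EDeg _ 2).sub_mem hx h2) ?_
  rw [map_sub, map_smul, hxe, sub_self]

/-- the pull-back to the induced module is injective in degree zero -/
lemma LH_p_inj (Y : IM Q Jp Jm i) {e : E Y.M} (he : e ∈ EDeg Y.M 0)
    (h : Emap (Y.ses hp hm).p e = 0) : e = 0 := by
  have he' : e ∈ EDeg Y.M (-1 + 1) := by rwa [neg_add_cancel]
  obtain ⟨x, hx, rfl⟩ := E_ex_quot (Y.ses hp hm) he' h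
  rw [EVan_neg _ (by norm_num : (-1 : ℤ) < 0) x hx, map_zero]

include hp hm in
/-- multiplication by `x_i` is injective in degree zero -/
lemma LH_X_inj (Y : IM Q Jp Jm i) {e : E Y.M} (he : e ∈ EDeg Y.M 0)
    (h : (X i : MvPolynomial I k) • e = 0) : e = 0 := by
  refine LH_p_inj hp hm Y he (LH_ind_inj hp hm Y (Emap_mem _ he) ?_)
  rw [← map_smul, h, map_zero]

lemma LH_mem_zero {Y : IM Q Jp Jm i} {e : E Y.M} : e ∈ Ei hp hm 0 Y ↔ e ∈ EDeg Y.M 0 := Iff.rfl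

lemma LH_mem_succ {n : ℕ} {Y : IM Q Jp Jm i} {e : E Y.M} :
    e ∈ Ei hp hm (n + 1) Y ↔ ∃ e' ∈ Ei hp hm n (Y.syz hp hm), Eδ (Y.ses hp hm) e' = e := Iff.rfl

theorem Ei_le (n : ℕ) (Y : IM Q Jp Jm i) : Ei hp hm n Y ≤ EDeg Y.M n := by
  induction n generalizing Y with
  | zero => exact le_refl _
  | succ n ih =>
    intro e he
    obtain ⟨e', he', rfl⟩ := (LH_mem_succ hp hm).1 he
    have := Eδ_mem (Y.ses hp hm) (ih _ he')
    rw [Nat.cast_succ]
    exact this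

theorem Ei_one {Y : IM Q Jp Jm i} {e : E Y.M} (he : e ∈ EDeg Y.M 1) : e ∈ Ei hp hm 1 Y := by
  have h1 : Emap (Y.ses hp hm).p e = 0 := LH_ind_one hp hm Y _ (Emap_mem _ he)
  have he' : e ∈ EDeg Y.M (0 + 1) := by rwa [zero_add]
  obtain ⟨x, hx, hxe⟩ := E_ex_quot (Y.ses hp hm) he' h1
  exact (LH_mem_succ hp hm).2 ⟨x, hx, hxe⟩

theorem Ei_decomp (n : ℕ) (Y : IM Q Jp Jm i) {e : E Y.M} (he : e ∈ EDeg Y.M (n + 2)) :
    ∃ a ∈ Ei hp hm (n + 2) Y, ∃ b ∈ Ei hp hm n Y, e = a + (X i : MvPolynomial I k) • b := by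
  induction n generalizing Y with
  | zero =>
    rw [Nat.cast_zero, zero_add] at he
    obtain ⟨f, hf, hfe⟩ := LH_ind_surj hp hm Y (Emap_mem (Y.ses hp hm).p he)
    have h1 : (X i : MvPolynomial I k) • Emap (Y.ses hp hm).i f = 0 := by
      rw [← map_smul, ← hfe]
      exact Emap_i_p _ _
    have h2 : Emap (Y.ses hp hm).i f = 0 := LH_X_inj hp hm (Y.syz hp hm) (Emap_mem _ hf) h1
    obtain ⟨b, hb, rfl⟩ := E_ex_mid (Y.ses hp hm) hf h2
    have h3 : Emap (Y.ses hp hm).p (e - (X i : MvPolynomial I k) • b) = 0 := by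
      rw [map_sub, map_smul, hfe, sub_self]
    have h4 : (X i : MvPolynomial I k) • b ∈ EDeg Y.M 2 := by
      have := Y.M.coef.X_mem_Deg i hb
      rwa [zero_add] at this
    have h5 : e - (X i : MvPolynomial I k) • b ∈ EDeg Y.M (1 + 1) := by
      have := (EDeg Y.M 2).sub_mem he h4
      rwa [show (1 + 1 : ℤ) = 2 by norm_num]
    obtain ⟨g, hg, hge⟩ := E_ex_quot (Y.ses hp hm) h5 h3
    refine ⟨e - (X i : MvPolynomial I k) • b, ?_, b, hb, by rw [sub_add_cancel]⟩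
    exact (LH_mem_succ hp hm).2 ⟨g, Ei_one hp hm hg, hge⟩
  | succ n ih =>
    have h1 : Emap (Y.ses hp hm).p e = 0 := by
      refine LH_ind_ge hp hm Y ?_ _ (Emap_mem _ he)
      push_cast
      linarith [Int.natCast_nonneg n]
    have he' : e ∈ EDeg Y.M (((n : ℤ) + 2) + 1) := by
      have : ((n : ℤ) + 2) + 1 = ((n + 1 : ℕ) : ℤ) + 2 := by push_cast; ring
      rwa [this]
    obtain ⟨g, hg, rfl⟩ := E_ex_quot (Y.ses hp hm) he' h1
    obtain ⟨a, ha, b, hb, rfl⟩ := ih (Y.syz hp hm) hg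
    refine ⟨Eδ (Y.ses hp hm) a, (LH_mem_succ hp hm).2 ⟨a, ha, rfl⟩,
      Eδ (Y.ses hp hm) b, (LH_mem_succ hp hm).2 ⟨b, hb, rfl⟩, ?_⟩
    rw [map_add, map_smul]

theorem Ei_direct (n : ℕ) (Y : IM Q Jp Jm i) {a b : E Y.M} (ha : a ∈ Ei hp hm (n + 2) Y)
    (hb : b ∈ Ei hp hm n Y) (h : a + (X i : MvPolynomial I k) • b = 0) : a = 0 ∧ b = 0 := by
  induction n generalizing Y with
  | zero =>
    obtain ⟨a', ha', rfl⟩ := (LH_mem_succ hp hm).1 ha
    have h1 : (X i : MvPolynomial I k) • Emap (Y.ses hp hm).p b = 0 := by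
      have := congrArg (Emap (Y.ses hp hm).p) h
      rw [map_add, Emap_p_Eδ, zero_add, map_smul, map_zero] at this
      exact this
    have h2 : b = 0 := LH_p_inj hp hm Y hb (LH_ind_inj hp hm Y (Emap_mem _ hb) h1)
    rw [h2, smul_zero, add_zero] at h
    exact ⟨h, h2⟩
  | succ n ih =>
    obtain ⟨a', ha', rfl⟩ := (LH_mem_succ hp hm).1 ha
    obtain ⟨b', hb', rfl⟩ := (LH_mem_succ hp hm).1 hb
    rw [← map_smul, ← map_add] at h
    have ha2 : a' ∈ EDeg (Y.syz hp hm).M ((n : ℤ) + 2) := by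
      have := Ei_le hp hm _ _ ha'
      rw [show ((n + 1 + 1 : ℕ) : ℤ) = (n : ℤ) + 2 by push_cast; ring] at this
      exact this
    have hb2 : b' ∈ EDeg (Y.syz hp hm).M (n : ℤ) := Ei_le hp hm _ _ hb'
    have h1 : a' + (X i : MvPolynomial I k) • b' ∈ EDeg (Y.syz hp hm).M ((n : ℤ) + 2) :=
      Submodule.add_mem _ ha2 ((Y.syz hp hm).M.coef.X_mem_Deg i hb2)
    obtain ⟨u, hu, hue⟩ := E_ex_sub (Y.ses hp hm) h1 h
    rcases n with _ | n
    · rw [Nat.cast_zero, zero_add] at hu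
      obtain ⟨f, hf, rfl⟩ := LH_ind_surj hp hm Y hu
      rw [map_smul] at hue
      have h2 : a' + (X i : MvPolynomial I k) • (b' - Emap (Y.ses hp hm).i f) = 0 := by
        rw [smul_sub, ← add_sub_assoc, ← hue, sub_self]
      obtain ⟨h3, h4⟩ := ih (Y.syz hp hm) ha'
        ((Ei hp hm 0 (Y.syz hp hm)).sub_mem hb' (Emap_mem (Y.ses hp hm).i hf)) h2
      rw [sub_eq_zero] at h4
      rw [h3, h4, map_zero, Eδ_Emap_i]
      exact ⟨rfl, rfl⟩
    · have h2 : u = 0 := by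
        refine LH_ind_ge hp hm Y ?_ u hu
        push_cast
        linarith [Int.natCast_nonneg n]
      rw [h2, map_zero] at hue
      obtain ⟨h3, h4⟩ := ih (Y.syz hp hm) ha' hb' hue.symm
      rw [h3, h4, map_zero]
      exact ⟨rfl, rfl⟩

theorem Ei_X_inj (n : ℕ) (Y : IM Q Jp Jm i) {b : E Y.M} (hb : b ∈ Ei hp hm n Y)
    (h : (X i : MvPolynomial I k) • b = 0) : b = 0 :=
  (Ei_direct hp hm n Y (Submodule.zero_mem (Ei hp hm (n + 2) Y)) hb (by rw [zero_add, h])).2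

/-! ### functoriality -/

/-- the map of induced modules -/
def LHind {Y Z : IM Q Jp Jm i} (f : Z.M.X →ₗ[(Q.T Jp Jm).A] Y.M.X) :
    (Z.indM hp hm).X →ₗ[(Q.T Jp Jm).A] (Y.indM hp hm).X :=
  indMap (incA Q hp hm) (resMap (incA Q hp hm) f)

lemma LHind_C {Y Z : IM Q Jp Jm i} (f : Z.M.X →ₗ[(Q.T Jp Jm).A] Y.M.X)
    (x : (Z.indM hp hm).X) :
    indC (incA Q hp hm) Y.M (LHind hp hm f x) = f (indC (incA Q hp hm) Z.M x) := by
  have h : (indC (incA Q hp hm) Y.M) ∘ₗ (LHind hp hm f) = f ∘ₗ (indC (incA Q hp hm) Z.M) := by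
    refine ind_hom_ext (incA Q hp hm) _ fun y => ?_
    show indC (incA Q hp hm) Y.M (indMap (incA Q hp hm) (resMap (incA Q hp hm) f)
      (indT (incA Q hp hm) (Z.M.res (incA Q hp hm)) 1 y)) =
      f (indC (incA Q hp hm) Z.M (indT (incA Q hp hm) (Z.M.res (incA Q hp hm)) 1 y))
    rw [indMap_T, indC_T, indC_T, one_smul, one_smul]
    rfl
  exact LinearMap.congr_fun h x

/-- the map of syzygies -/
def LHsyz {Y Z : IM Q Jp Jm i} (f : Z.M.X →ₗ[(Q.T Jp Jm).A] Y.M.X) :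
    (Z.syz hp hm).M.X →ₗ[(Q.T Jp Jm).A] (Y.syz hp hm).M.X :=
  LinearMap.restrict (LHind hp hm f) (p := LinearMap.ker (indC (incA Q hp hm) Z.M))
    (q := LinearMap.ker (indC (incA Q hp hm) Y.M)) (by
      intro x hx
      rw [LinearMap.mem_ker] at hx ⊢
      exact (LHind_C hp hm f x).trans ((congrArg f hx).trans (map_zero f)))

lemma LHsyz_i {Y Z : IM Q Jp Jm i} (f : Z.M.X →ₗ[(Q.T Jp Jm).A] Y.M.X)
    (x : (Z.syz hp hm).M.X) :
    (Y.ses hp hm).i (LHsyz hp hm f x) = LHind hp hm f ((Z.ses hp hm).i x) := rfl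

lemma LH_nat {Y Z : IM Q Jp Jm i} (f : Z.M.X →ₗ[(Q.T Jp Jm).A] Y.M.X)
    (e : E (Y.syz hp hm).M) :
    Emap f (Eδ (Y.ses hp hm) e) = Eδ (Z.ses hp hm) (Emap (LHsyz hp hm f) e) :=
  Eδ_natural (Y.ses hp hm) (Z.ses hp hm) (LHsyz hp hm f) (LHind hp hm f) f
    (fun x => LHsyz_i hp hm f x) (fun x => LHind_C hp hm f x) e

/-- functoriality -/
theorem Ei_map (n : ℕ) {Y Z : IM Q Jp Jm i} (f : Z.M.X →ₗ[(Q.T Jp Jm).A] Y.M.X) {e : E Y.M}
    (he : e ∈ Ei hp hm n Y) : Emap f e ∈ Ei hp hm n Z := by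
  induction n generalizing Y Z with
  | zero => exact Emap_mem f he
  | succ n ih =>
    obtain ⟨e', he', rfl⟩ := (LH_mem_succ hp hm).1 he
    rw [LH_nat]
    exact (LH_mem_succ hp hm).2 ⟨_, ih (LHsyz hp hm f) he', rfl⟩

/-- connecting maps of sequences which split over `A_i` -/
theorem Ei_δ (n : ℕ) {Y' W Y : IM Q Jp Jm i} (S : ModSES Y'.M W.M Y.M)
    (hs : ∃ s : (Y.M.res (incA Q hp hm)).X →ₗ[(Q.Ai i).A] (W.M.res (incA Q hp hm)).X,
      ∀ y : Y.M.X, S.p (show W.M.X from s y) = y) {e : E Y'.M} (he : e ∈ Ei hp hm n Y') :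
    Eδ S e ∈ Ei hp hm (n + 1) Y := by
  obtain ⟨s, hs⟩ := hs
  set F : (Y.indM hp hm).X →ₗ[(Q.T Jp Jm).A] W.M.X :=
    indLift (incA Q hp hm) (Y.M.res (incA Q hp hm)) s with hF
  have h2 : ∀ x, S.p (F x) = indC (incA Q hp hm) Y.M x := by
    intro x
    have h : S.p ∘ₗ F = indC (incA Q hp hm) Y.M := by
      refine ind_hom_ext (incA Q hp hm) _ fun y => ?_
      show S.p (indLift (incA Q hp hm) (Y.M.res (incA Q hp hm)) s
        (indT (incA Q hp hm) (Y.M.res (incA Q hp hm)) 1 y)) = _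
      rw [indC_T, one_smul, indLift_T, one_smul]
      exact hs y
    exact LinearMap.congr_fun h x
  have hx : ∀ x : (Y.syz hp hm).M.X, ∃ y, S.i y = F ((Y.ses hp hm).i x) := by
    intro x
    rw [← S.exact, h2]
    exact x.2
  set u := LinearEquiv.ofInjective S.i S.inj with hu
  let G : (Y.syz hp hm).M.X →ₗ[(Q.T Jp Jm).A] LinearMap.range S.i :=
    LinearMap.codRestrict (LinearMap.range S.i) (F ∘ₗ (Y.ses hp hm).i) (fun x => by
      obtain ⟨y, hy⟩ := hx x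
      exact ⟨y, hy⟩)
  let f' : (Y.syz hp hm).M.X →ₗ[(Q.T Jp Jm).A] Y'.M.X := (u.symm : _ →ₗ[_] _) ∘ₗ G
  have h1 : ∀ x, S.i (f' x) = F ((Y.ses hp hm).i x) := by
    intro x
    have h3 : u (u.symm (G x)) = G x := u.apply_symm_apply _
    exact congrArg Subtype.val h3
  have h4 := Eδ_natural S (Y.ses hp hm) f' F LinearMap.id h1 (fun x => h2 x) e
  rw [Emap_id] at h4
  rw [h4]
  exact (LH_mem_succ hp hm).2 ⟨_, Ei_map hp hm n f' he, rfl⟩

lemma LHsh_p (Y : IM Q Jp Jm i) (e : E Y.M) :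
    LHsh hp hm Y (Emap (Y.ses hp hm).p e) = Eres (incA Q hp hm) Y.M e := by
  rw [LHsh_apply, Eres_map]
  have h : (resMap (incA Q hp hm) (Y.ses hp hm).p ∘ₗ
      indU (incA Q hp hm) (Y.M.res (incA Q hp hm)) :
        (Y.M.res (incA Q hp hm)).X →ₗ[(Q.Ai i).A] (Y.M.res (incA Q hp hm)).X) =
        LinearMap.id := by
    refine LinearMap.ext fun y => ?_
    show indC (incA Q hp hm) Y.M (indT (incA Q hp hm) (Y.M.res (incA Q hp hm)) 1 y) = y
    rw [indC_T, one_smul]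
  have h2 := Emap_comp (resMap (incA Q hp hm) (Y.ses hp hm).p)
    (indU (incA Q hp hm) (Y.M.res (incA Q hp hm))) (Eres (incA Q hp hm) Y.M e)
  refine h2.trans ?_
  rw [h, Emap_id]

/-- in degree two, `Ei` consists of the classes which vanish on `A_i` -/
theorem mem_Ei_two {Y : IM Q Jp Jm i} {e : E Y.M} (he : e ∈ EDeg Y.M 2) :
    e ∈ Ei hp hm 2 Y ↔ Eres (incA Q hp hm) Y.M e = 0 := by
  constructor
  · intro h
    obtain ⟨e', he', rfl⟩ := (LH_mem_succ hp hm).1 h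
    rw [← LHsh_p, Emap_p_Eδ, map_zero]
  · intro h
    rw [← LHsh_p] at h
    have h1 : Emap (Y.ses hp hm).p e = 0 := (LH_shapiro hp hm Y 2).1 _ (Emap_mem _ he) h
    have he' : e ∈ EDeg Y.M (1 + 1) := by rwa [show (1 + 1 : ℤ) = 2 by norm_num]
    obtain ⟨g, hg, hge⟩ := E_ex_quot (Y.ses hp hm) he' h1
    exact (LH_mem_succ hp hm).2 ⟨g, Ei_one hp hm hg, hge⟩

/-- polynomials whose product with the unit class lies in `Ei` preserve `Ei` -/
theorem Ei_poly {p : MvPolynomial I k} {d : ℕ} (hd : p.IsHomogeneous d)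
    (h : p • one (Q.T Jp Jm) ∈ Ei hp hm (2 * d) (trivI Q Jp Jm i)) (n : ℕ) (Y : IM Q Jp Jm i)
    {e : E Y.M} (he : e ∈ Ei hp hm n Y) : p • e ∈ Ei hp hm (n + 2 * d) Y := by
  induction n generalizing Y with
  | zero =>
    obtain ⟨f, rfl⟩ := E0_exists Y.M he
    rw [← map_smul, zero_add]
    exact Ei_map hp hm (2 * d) (Y := trivI Q Jp Jm i) (Z := Y) f h
  | succ n ih =>
    obtain ⟨e', he', rfl⟩ := (LH_mem_succ hp hm).1 he
    rw [← map_smul, Nat.add_right_comm]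
    exact (LH_mem_succ hp hm).2 ⟨_, ih _ he', rfl⟩

/-- polynomials which kill the unit class kill the cohomology of weight modules -/
lemma LH_kill {p : MvPolynomial I k} (h : p • one (Q.T Jp Jm) = 0) (n : ℕ)
    {M : Mod (Q.T Jp Jm)} (hM : IsWt Q M) {e : E M} (he : e ∈ EDeg M n) : p • e = 0 := by
  induction n generalizing M with
  | zero =>
    obtain ⟨f, rfl⟩ := E0_exists M he
    rw [← map_smul, h, map_zero]
  | succ n ih =>
    obtain ⟨M₁, hM₁, S, -⟩ := exists_syzygy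
      (Q.inc (Set.empty_subset Jp) (Set.empty_subset Jm)) QD.rfree_zero (Q.wtAlg Jp Jm) hM
    rw [Nat.cast_succ] at he
    have h1 : Emap S.p e = 0 := by
      refine (EVan.shapiroQ (Set.empty_subset Jp) (Set.empty_subset Jm) QD.rfree_zero
        (hM.res _)).2 (EVan_U0 (hM.res _) ?_) _ (Emap_mem S.p he)
      linarith [Int.natCast_nonneg n]
    obtain ⟨g, hg, rfl⟩ := E_ex_quot S he h1
    rw [← map_smul, ih hM₁ hg, map_zero]

/-- polynomials which kill the unit class kill the cohomology of integrable modules -/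
theorem poly_kill {p : MvPolynomial I k} {d : ℕ} (hd : p.IsHomogeneous d)
    (h : p • one (Q.T Jp Jm) = 0) (Y : IM Q Jp Jm i) {n : ℕ} {e : E Y.M}
    (he : e ∈ EDeg Y.M n) : p • e = 0 :=
  LH_kill h n Y.wt he

theorem lin_one_mem (c : I → k) (hc : c i = 0) :
    lin c • one (Q.T Jp Jm) ∈ Ei hp hm 2 (trivI Q Jp Jm i) := by
  have h0 : lin c • one (Q.T Jp Jm) ∈ EDeg (triv (Q.T Jp Jm)) 2 := by
    have := lin_mem_Deg c (one_mem_Deg (T := Q.T Jp Jm))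
    rwa [zero_add] at this
  refine (mem_Ei_two hp hm (Y := trivI Q Jp Jm i) h0).2 ?_
  refine (Emap_bijective _ (trivRes_bijective (incA Q hp hm))).1 ?_
  show Emap (trivRes (incA Q hp hm)) (Eres (incA Q hp hm) (triv (Q.T Jp Jm))
    (lin c • one (Q.T Jp Jm))) = _
  refine Eq.trans ?_ (map_zero _).symm
  rw [map_smul, map_smul, Eres_one, lin_smul_one_eq_zero_iff]
  intro j hj _
  rw [Set.mem_singleton_iff.1 hj]
  exact hc

end IM

end Pool.Agent.Lib.QG
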