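import Pool.Agent.Lib.MP_021f05_al.Shapiro
import Pool.Agent.Lib.MP_021f05_al.Tw
import Pool.Agent.Lib.MP_021f05_al.Roots

/-!
# MP_021f05_al (E4): vanishing over `B` for weight reasons
-/

noncomputable section

namespace Pool.Agent.Lib.QG

open MvPolynomial

variable {k : Type} [Field k] [CharZero k] {I : Type} [Fintype I] [DecidableEq I] {Q : QD k I}

/-! ### weights of modules induced from the torus part -/

omit [CharZero k] in
lemma Wvan_eq_of_indep {V ι : Type} [AddCommGroup V] [Module k V] {p q : ι → Submodule k V}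
    (hq : iSupIndep q) (hle : ∀ i, p i ≤ q i) (hp : ⨆ i, p i = ⊤) (i : ι) : q i ≤ p i := by
  intro x hx
  have h1 : x ∈ p i ⊔ ⨆ (j) (_ : j ≠ i), p j := by
    rw [← iSup_split_single p i, hp]; trivial
  obtain ⟨a, ha, b, hb, rfl⟩ := Submodule.mem_sup.1 h1
  have hb1 : b ∈ q i := by
    have h2 := (q i).sub_mem hx (hle i ha)
    rwa [add_sub_cancel_left] at h2
  have hb2 : b ∈ ⨆ (j) (_ : j ≠ i), q j := (iSup₂_mono fun j _ => hle j) hb
  have hb3 : b = 0 := by
    have h3 := (hq i).le_bot (⟨hb1, hb2⟩ : b ∈ q i ⊓ ⨆ (j) (_ : j ≠ i), q j)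
    exact (Submodule.mem_bot k).1 h3
  rw [hb3, add_zero]
  exact ha

/-- natural weights as integral weights -/
def Wvan_z (γ : I → ℕ) : I → ℤ := fun j => (γ j : ℤ)

omit [Fintype I] [DecidableEq I] in
lemma Wvan_z_add (γ γ' : I → ℕ) : Wvan_z (γ + γ') = Wvan_z γ + Wvan_z γ' := by
  funext j; simp [Wvan_z]

omit [Fintype I] in
lemma Wvan_z_single (i : I) : Wvan_z (Pi.single i 1) = (Pi.single i 1 : I → ℤ) := by
  funext j
  by_cases h : j = i
  · subst h; simp [Wvan_z]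
  · simp [Wvan_z, h]

omit [CharZero k] in
lemma Wvan_wtA_mul {T : TAlg k I} {μ ν : I → ℤ} {a b : T.A} (ha : a ∈ wtA Q T μ)
    (hb : b ∈ wtA Q T ν) : a * b ∈ wtA Q T (μ + ν) := by
  intro i
  rw [map_mul, ha i, hb i, smul_mul_smul_comm, QD.χ_add]

omit [CharZero k] in
lemma Wvan_wtA_one {T : TAlg k I} : (1 : T.A) ∈ wtA Q T 0 := by
  intro i
  rw [QD.χ_zero, one_smul, map_one]

/-- the half algebra inside `B` -/
def Wvan_up (Q : QD k I) : HA Q Set.univ →ₐ[k] Q.B.A := HA.up Q Set.univ ∅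

omit [CharZero k] in
lemma Wvan_up_word (w : List I) :
    Wvan_up Q (HA.word Q Set.univ w) ∈ wtA Q Q.B (Wvan_z (wtw w)) := by
  induction w with
  | nil =>
    have h1 : HA.word Q Set.univ [] = 1 := rfl
    have h2 : Wvan_z (wtw ([] : List I)) = 0 := by
      rw [halfGr_wtw_nil]; funext j; simp [Wvan_z]
    rw [h1, map_one, h2]
    exact Wvan_wtA_one
  | cons i w ih =>
    have h1 : HA.word Q Set.univ (i :: w) = HA.x Q Set.univ i * HA.word Q Set.univ w := by
      have h := halfGr_word_append Q Set.univ [i] w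
      rw [halfGr_word_single] at h
      exact h
    have h2 : Wvan_z (wtw (i :: w)) = Q.al i + Wvan_z (wtw w) := by
      have h := halfGr_wtw_append [i] w
      rw [halfGr_wtw_single] at h
      have h' : wtw (i :: w) = Pi.single i 1 + wtw w := h
      rw [h', Wvan_z_add, Wvan_z_single]
      rfl
    rw [h1, map_mul, h2]
    refine Wvan_wtA_mul (ind2_mem_wtA fun j => ?_) ih
    rw [ind2_χ_al]
    have h3 : Wvan_up Q (HA.x Q Set.univ i) = (QA.elts Q Set.univ ∅).E i := HA.up_x Q _ _ i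
    rw [h3]
    exact (QA.elts Q Set.univ ∅).KE j i

omit [CharZero k] in
lemma Wvan_up_mem {γ : I → ℕ} {h : HA Q Set.univ} (hh : h ∈ HA.gr Q Set.univ γ) :
    Wvan_up Q h ∈ wtA Q Q.B (Wvan_z γ) := by
  unfold HA.gr at hh
  refine Submodule.span_induction (p := fun h _ => Wvan_up Q h ∈ wtA Q Q.B (Wvan_z γ))
    ?_ ?_ ?_ ?_ hh
  · rintro _ ⟨w, rfl, rfl⟩
    exact Wvan_up_word w
  · rw [map_zero]; exact zero_mem _
  · intro x y _ _ hx hy
    rw [map_add]; exact add_mem hx hy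
  · intro t x _ hx
    rw [map_smul]; exact Submodule.smul_mem _ _ hx

/-- the inclusion of the torus part -/
abbrev Wvan_i (Q : QD k I) : THom Q.U0 Q.B :=
  Q.inc (Set.empty_subset Set.univ) (Set.empty_subset ∅)

omit [CharZero k] in
lemma Wvan_rfree : RFree (Wvan_i Q) := QD.rfree_zero

omit [CharZero k] in
lemma Wvan_wts_res (M : Mod Q.B) (μ : I → ℤ) : wts Q (M.res (Wvan_i Q)) μ = wts Q M μ := by
  ext x
  have h2 : ∀ i, ((Q.U0.K i : Q.U0.A) • x : (M.res (Wvan_i Q)).X) =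
      ((Q.B.K i : Q.B.A) • (show M.X from x) : M.X) := by
    intro i
    rw [Mod.res_smul, (Wvan_i Q).f_K]
  constructor
  · intro hx i
    rw [← h2 i]
    exact hx i
  · intro hx i
    rw [h2 i]
    exact hx i

/-- the expected weight spaces of the induced module -/
def Wvan_P (Y : Mod Q.U0) (lam : I → ℤ) : Submodule k (Y.ind (Wvan_i Q)).X :=
  Submodule.span k {z | ∃ (γ : I → ℕ) (μ : I → ℤ) (h : HA Q Set.univ) (y : Y.X),
    h ∈ HA.gr Q Set.univ γ ∧ y ∈ wts Q Y μ ∧ Wvan_z γ + μ = lam ∧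
    z = indT (Wvan_i Q) Y (Wvan_up Q h) y}

omit [CharZero k] in
lemma Wvan_P_le (Y : Mod Q.U0) (lam : I → ℤ) :
    Wvan_P Y lam ≤ wts Q (Y.ind (Wvan_i Q)) lam := by
  unfold Wvan_P
  rw [Submodule.span_le]
  rintro _ ⟨γ, μ, h, y, hh, hy, rfl, rfl⟩
  exact indT_wt (Wvan_i Q) (Wvan_up_mem hh) hy

omit [CharZero k] in
lemma Wvan_P_iSup {Y : Mod Q.U0} (hY : IsWt Q Y) : ⨆ lam, Wvan_P Y lam = ⊤ := by
  rw [eq_top_iff]
  rintro z -
  have key : ∀ (h : HA Q Set.univ) (y : Y.X),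
      indT (Wvan_i Q) Y (Wvan_up Q h) y ∈ ⨆ lam, Wvan_P Y lam := by
    intro h y
    have hh : h ∈ ⨆ γ, HA.gr Q Set.univ γ := by rw [HA.gr_iSup]; trivial
    have hy : y ∈ ⨆ μ, wts Q Y μ := by rw [show (⨆ μ, wts Q Y μ) = ⊤ from hY]; trivial
    refine Submodule.iSup_induction _ (motive := fun h : HA Q Set.univ =>
      indT (Wvan_i Q) Y (Wvan_up Q h) y ∈ ⨆ lam, Wvan_P Y lam) hh ?_ ?_ ?_
    · intro γ h hh
      refine Submodule.iSup_induction _ (motive := fun y : Y.X =>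
        indT (Wvan_i Q) Y (Wvan_up Q h) y ∈ ⨆ lam, Wvan_P Y lam) hy ?_ ?_ ?_
      · intro μ y hy
        exact Submodule.mem_iSup_of_mem (Wvan_z γ + μ)
          (Submodule.subset_span ⟨γ, μ, h, y, hh, hy, rfl, rfl⟩)
      · rw [indT_zero_right]; exact zero_mem _
      · intro y y' hy hy'
        rw [indT_add_right]; exact add_mem hy hy'
    · have h0 : indT (Wvan_i Q) Y (Wvan_up Q 0) y = 0 := by
        rw [map_zero]
        have h1 := indT_add_left (Wvan_i Q) Y 0 0 y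
        rw [add_zero] at h1
        exact left_eq_add.1 h1
      rw [h0]; exact zero_mem _
    · intro h h' hh hh'
      rw [map_add, indT_add_left]; exact add_mem hh hh'
  refine ind_induction (Wvan_i Q) Y (p := fun z => z ∈ ⨆ lam, Wvan_P Y lam) z (zero_mem _) ?_
    (fun x y hx hy => add_mem hx hy)
  intro a y
  obtain ⟨t, ht⟩ := (tdp_bijective Q Set.univ ∅).2 a
  have key2 : ∀ t : TensorProduct k (HA Q Set.univ) (QA Q ∅ ∅),
      indT (Wvan_i Q) Y (show Q.B.A from tdp Q Set.univ ∅ t) y ∈ ⨆ lam, Wvan_P Y lam := by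
    intro t
    induction t using TensorProduct.induction_on with
    | zero =>
      rw [map_zero]
      have h1 := indT_add_left (Wvan_i Q) Y 0 0 y
      rw [add_zero] at h1
      have h2 : indT (Wvan_i Q) Y 0 y = 0 := left_eq_add.1 h1
      have h3 : indT (Wvan_i Q) Y (0 : QA Q Set.univ ∅) y = 0 := h2
      rw [h3]; exact zero_mem _
    | tmul x b =>
      rw [tdp_tmul]
      have h1 := indT_mul (Wvan_i Q) Y (Wvan_up Q x) b y
      have h2 : indT (Wvan_i Q) Y (HA.up Q Set.univ ∅ x *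
          QA.incl Q (Set.empty_subset Set.univ) (le_refl ∅) b) y
          = indT (Wvan_i Q) Y (Wvan_up Q x) ((show Q.U0.A from b) • y) := h1
      rw [h2]
      exact key x ((show Q.U0.A from b) • y)
    | add x x' hx hx' =>
      have h1 := indT_add_left (Wvan_i Q) Y (show Q.B.A from tdp Q Set.univ ∅ x)
        (show Q.B.A from tdp Q Set.univ ∅ x') y
      have h2 : indT (Wvan_i Q) Y (show Q.B.A from tdp Q Set.univ ∅ (x + x')) y = _ :=
        (congrArg (fun a : Q.B.A => indT (Wvan_i Q) Y a y) (map_add (tdp Q Set.univ ∅) x x')).trans h1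
      rw [h2]
      exact add_mem hx hx'
  have h := key2 t
  rw [ht] at h
  exact h

omit [CharZero k] in
lemma Wvan_wts_le {Y : Mod Q.U0} (hY : IsWt Q Y) (lam : I → ℤ) :
    wts Q (Y.ind (Wvan_i Q)) lam ≤ Wvan_P Y lam :=
  Wvan_eq_of_indep wts_indep (Wvan_P_le Y) (Wvan_P_iSup hY) lam

omit [CharZero k] in
lemma Wvan_top {Y : Mod Q.U0} (hY : IsWt Q Y) {ν : I → ℤ} {z : (Y.ind (Wvan_i Q)).X}
    (hz : z ∈ wts Q (Y.ind (Wvan_i Q)) ν)
    (h : ∀ γ : I → ℕ, γ ≠ 0 → ∀ μ, Wvan_z γ + μ = ν → wts Q Y μ = ⊥) :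
    ∃ y : Y.X, z = indT (Wvan_i Q) Y 1 y := by
  have hz' := Wvan_wts_le hY ν hz
  unfold Wvan_P at hz'
  refine Submodule.span_induction (p := fun z _ => ∃ y : Y.X, z = indT (Wvan_i Q) Y 1 y)
    ?_ ?_ ?_ ?_ hz'
  · rintro _ ⟨γ, μ, x, y, hx, hy, hγ, rfl⟩
    by_cases h0 : γ = 0
    · subst h0
      rw [HA.gr_zero, Submodule.mem_span_singleton] at hx
      obtain ⟨t, rfl⟩ := hx
      refine ⟨algebraMap k Q.U0.A t • y, ?_⟩
      rw [← indT_mul, one_mul, map_smul, map_one, AlgHom.commutes, Algebra.smul_def, mul_one]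
    · have hy0 : y = 0 := by
        rw [h γ h0 μ hγ] at hy
        exact (Submodule.mem_bot k).1 hy
      refine ⟨0, ?_⟩
      rw [hy0, indT_zero_right, indT_zero_right]
  · exact ⟨0, (indT_zero_right _ _ _).symm⟩
  · rintro _ _ _ _ ⟨y, rfl⟩ ⟨y', rfl⟩
    exact ⟨y + y', (indT_add_right _ _ _ _ _).symm⟩
  · rintro t _ _ ⟨y, rfl⟩
    exact ⟨t • y, (indT_smulk _ _ _ _ _).symm⟩

omit [CharZero k] in
/-- the weights of the syzygy -/
lemma Wvan_wts_syz {M M₁ : Mod Q.B} (hM : IsWt Q M)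
    (S : ModSES M₁ ((M.res (Wvan_i Q)).ind (Wvan_i Q)) M) (hp : S.p = indC (Wvan_i Q) M)
    {ν : I → ℤ} (hν : wts Q M₁ ν ≠ ⊥) :
    ∃ γ : I → ℕ, γ ≠ 0 ∧ ∃ μ, Wvan_z γ + μ = ν ∧ wts Q M μ ≠ ⊥ := by
  by_contra hcon
  push Not at hcon
  apply hν
  rw [eq_bot_iff]
  intro x hx
  have h1 : S.i x ∈ wts Q ((M.res (Wvan_i Q)).ind (Wvan_i Q)) ν := wt_map_mem S.i hx
  obtain ⟨y, hy⟩ := Wvan_top (hM.res (Wvan_i Q)) h1 (fun γ h0 μ hμ => by
    rw [Wvan_wts_res]; exact hcon γ h0 μ hμ)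
  have h2 : S.p (S.i x) = 0 := (S.exact _).2 ⟨x, rfl⟩
  rw [hy, hp, indC_T, one_smul] at h2
  have h3 : y = 0 := h2
  rw [h3, indT_zero_right] at hy
  have h4 : x = 0 := S.inj (by rw [hy, map_zero])
  rw [h4]
  exact zero_mem _

omit [CharZero k] in
/-- maps to the trivial module kill the nonzero weight spaces -/
lemma Wvan_hom_triv {M : Mod Q.B} (f : M.X →ₗ[Q.B.A] (triv Q.B).X) {μ : I → ℤ} (hμ : μ ≠ 0)
    {x : M.X} (hx : x ∈ wts Q M μ) : f x = 0 := by
  obtain ⟨i, hi⟩ : ∃ i, Q.χ μ i ≠ Q.χ 0 i := by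
    by_contra hcon
    push Not at hcon
    exact hμ (QD.χ_inj hcon)
  have h1 := hx i
  have h2 : f ((Q.B.K i : Q.B.A) • x) = f (Q.χ μ i • x) := by rw [h1]
  rw [map_smul, map_smulk, triv_smul, Q.B.ε_K, one_mul, vt_tv] at h2
  have h3 : (Q.χ μ i - Q.χ 0 i) • f x = 0 := by
    rw [sub_smul, QD.χ_zero, one_smul, ← h2, sub_self]
  rcases smul_eq_zero.1 h3 with h | h
  · exact absurd (sub_eq_zero.1 h) hi
  · exact h

omit [CharZero k] in
lemma Wvan_hom_ext {M : Mod Q.B} (hM : IsWt Q M) {f g : M.X →ₗ[Q.B.A] (triv Q.B).X}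
    (h : ∀ x ∈ wts Q M 0, f x = g x) : f = g := by
  refine LinearMap.ext fun x => ?_
  obtain ⟨s, hs, rfl⟩ := hM.exists_sum x
  rw [Finsupp.sum, map_sum, map_sum]
  refine Finset.sum_congr rfl fun μ _ => ?_
  by_cases h0 : μ = 0
  · exact h _ (h0 ▸ hs μ)
  · rw [Wvan_hom_triv f h0 (hs μ), Wvan_hom_triv g h0 (hs μ)]

/-- If every weight `μ ≤ 0` of `M` has height `> -n`, then `E_B^n(M) = 0`. -/
theorem EVan_wt {M : Mod Q.B} (hM : IsWt Q M) (n : ℕ)
    (h : ∀ μ : I → ℤ, wts Q M μ ≠ ⊥ → (∀ j, μ j ≤ 0) → -(n : ℤ) < ht μ) : EVan M n := by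
  induction n generalizing M with
  | zero =>
    intro e he
    obtain ⟨f, rfl⟩ := E0_exists M he
    have h1 : f = 0 := by
      refine Wvan_hom_ext hM fun x hx => ?_
      have h2 : wts Q M 0 = ⊥ := by
        by_contra hne
        have h3 := h 0 hne (fun _ => le_refl _)
        simp [ht] at h3
      rw [h2] at hx
      rw [(Submodule.mem_bot k).1 hx, map_zero, map_zero]
    rw [h1, Emap_zero]
  | succ n ih =>
    obtain ⟨M₁, hM₁, S, hp⟩ := exists_syzygy (Wvan_i Q) Wvan_rfree (Q.wtAlg _ _) hM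
    have h1 : EVan M₁ (n : ℤ) := by
      refine ih hM₁ fun ν hν hν0 => ?_
      obtain ⟨γ, hγ, μ, hμν, hμ⟩ := Wvan_wts_syz hM S hp hν
      have h2 := h μ hμ (fun j => by
        have h3 := hν0 j
        rw [← hμν] at h3
        have h4 : Wvan_z γ j + μ j ≤ 0 := h3
        have h5 : 0 ≤ Wvan_z γ j := Int.natCast_nonneg _
        linarith)
      have h3 : ht ν = ht (Wvan_z γ) + ht μ := by
        rw [← hμν]
        unfold ht
        rw [← Finset.sum_add_distrib]
        rfl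
      have h4 : 1 ≤ ht (Wvan_z γ) := by
        obtain ⟨j, hj⟩ : ∃ j, γ j ≠ 0 := by
          by_contra hcon
          push Not at hcon
          exact hγ (funext hcon)
        have h5 : Wvan_z γ j ≤ ht (Wvan_z γ) :=
          Finset.single_le_sum (f := Wvan_z γ) (fun i _ => Int.natCast_nonneg _)
            (Finset.mem_univ j)
        have h6 : 1 ≤ Wvan_z γ j := by
          have h7 : 1 ≤ γ j := Nat.one_le_iff_ne_zero.2 hj
          show (1 : ℤ) ≤ ((γ j : ℕ) : ℤ)
          exact_mod_cast h7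
        linarith
      push_cast at h2
      linarith
    have h2 : EVan ((M.res (Wvan_i Q)).ind (Wvan_i Q)) ((n : ℤ) + 1) :=
      free_acyclic (Wvan_i Q) Wvan_rfree (Q.wtAlg _ _) (hM.res _) (by positivity)
    have h3 := EVan.quot S h1 h2
    exact_mod_cast h3

theorem EVan_km (μ : I → ℤ) (n : ℕ) (h : (∀ j, μ j ≤ 0) → -(n : ℤ) < ht μ) :
    EVan (Q.km Set.univ μ) n := by
  refine EVan_wt (km_isWt Set.univ μ) n fun ν hν => ?_
  have h1 : ν = μ := by
    by_contra hne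
    apply hν
    rw [eq_bot_iff]
    intro x hx
    obtain ⟨t, rfl⟩ := km_span Set.univ μ x
    have h2 : t • Q.kv Set.univ μ ∈ wts Q (Q.km Set.univ μ) μ :=
      Submodule.smul_mem _ _ (kv_mem Set.univ μ)
    have h3 := (wts_indep (Q := Q) (M := Q.km Set.univ μ)).pairwiseDisjoint hne
    exact h3.le_bot ⟨hx, h2⟩
  rw [h1]
  exact h

omit [CharZero k] [Fintype I] [DecidableEq I] in
lemma Wvan_indT_smul_left {T' T : TAlg k I} (φ : THom T' T) (Y : Mod T') (t : k) (a : T.A)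
    (y : Y.X) : indT φ Y (t • a) y = t • indT φ Y a y := by
  have h1 : t • a = a * φ.f (algebraMap k T'.A t) := by
    rw [AlgHom.commutes, Algebra.smul_def, Algebra.commutes]
  rw [h1, indT_mul, algebraMap_smul, indT_smulk]

omit [CharZero k] in
lemma Wvan_gr_single (i : I) {h : HA Q Set.univ}
    (hh : h ∈ HA.gr Q Set.univ (Pi.single i 1)) : ∃ t : k, h = t • HA.x Q Set.univ i := by
  unfold HA.gr at hh
  refine Submodule.span_induction (p := fun h _ => ∃ t : k, h = t • HA.x Q Set.univ i)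
    ?_ ?_ ?_ ?_ hh
  · rintro _ ⟨w, hw, rfl⟩
    cases w with
    | nil =>
      exfalso
      have h1 := congrFun hw i
      simp [wtw] at h1
    | cons j w =>
      have h1 : wtw (j :: w) = Pi.single j 1 + wtw w := by
        have h := halfGr_wtw_append [j] w
        rw [halfGr_wtw_single] at h
        exact h
      rw [h1] at hw
      have hj : j = i := by
        by_contra hne
        have h2 := congrFun hw j
        simp [hne] at h2
      subst hj
      have h3 : wtw w = 0 := by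
        have h4 : Pi.single j 1 + wtw w = Pi.single j 1 + 0 := by rw [hw, add_zero]
        exact add_left_cancel h4
      have h5 := halfGr_wtw_eq_zero h3
      subst h5
      exact ⟨1, by rw [one_smul]; exact halfGr_word_single Q Set.univ j⟩
  · exact ⟨0, by rw [zero_smul]⟩
  · rintro _ _ _ _ ⟨s, rfl⟩ ⟨t, rfl⟩
    exact ⟨s + t, by rw [add_smul]⟩
  · rintro s _ _ ⟨t, rfl⟩
    exact ⟨s * t, by rw [mul_smul]⟩

omit [CharZero k] in
lemma Wvan_km_wts {μ ν : I → ℤ} {x : (Q.km Set.univ μ).X} (hx : x ∈ wts Q (Q.km Set.univ μ) ν)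
    (hne : ν ≠ μ) : x = 0 := by
  have h2 : x ∈ wts Q (Q.km Set.univ μ) μ := by
    obtain ⟨t, rfl⟩ := km_span Set.univ μ x
    exact Submodule.smul_mem _ _ (kv_mem Set.univ μ)
  have h3 := (wts_indep (Q := Q) (M := Q.km Set.univ μ)).pairwiseDisjoint hne
  exact (Submodule.mem_bot k).1 (h3.le_bot ⟨hx, h2⟩)

/-- `E_B^1(k_{-α_i})` has dimension at most one -/
theorem E1_km_al (i : I) {e e' : E (Q.km Set.univ (-(Q.al i)))}
    (he : e ∈ EDeg (Q.km Set.univ (-(Q.al i))) 1) (he' : e' ∈ EDeg (Q.km Set.univ (-(Q.al i))) 1)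
    (h0 : e ≠ 0) : ∃ t : k, e' = t • e := by
  have hM : IsWt Q (Q.km Set.univ (-(Q.al i))) := km_isWt Set.univ _
  obtain ⟨M₁, hM₁, S, hp⟩ := exists_syzygy (Wvan_i Q) Wvan_rfree (Q.wtAlg _ _) hM
  have hI : EVan (((Q.km Set.univ (-(Q.al i))).res (Wvan_i Q)).ind (Wvan_i Q)) 1 :=
    free_acyclic (Wvan_i Q) Wvan_rfree (Q.wtAlg _ _) (hM.res _) one_pos
  have lift : ∀ e ∈ EDeg (Q.km Set.univ (-(Q.al i))) 1,
      ∃ f : M₁.X →ₗ[Q.B.A] (triv Q.B).X, Eδ S (Emap f (one Q.B)) = e := by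
    intro e he
    have h1 : Emap S.p e = 0 := hI _ (Emap_mem S.p he)
    obtain ⟨x, hx, rfl⟩ := E_ex_quot S (n := 0) (by rw [zero_add]; exact he) h1
    obtain ⟨f, rfl⟩ := E0_exists M₁ hx
    exact ⟨f, rfl⟩
  obtain ⟨f, hf⟩ := lift e he
  obtain ⟨f', hf'⟩ := lift e' he'
  -- the zero weight space of the induced module
  have hI0 : ∀ z ∈ wts Q (((Q.km Set.univ (-(Q.al i))).res (Wvan_i Q)).ind (Wvan_i Q)) 0,
      ∃ t : k, z = t • indT (Wvan_i Q) ((Q.km Set.univ (-(Q.al i))).res (Wvan_i Q))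
        (Wvan_up Q (HA.x Q Set.univ i)) (Q.kv Set.univ (-(Q.al i))) := by
    intro z hz
    have hz' := Wvan_wts_le (hM.res (Wvan_i Q)) 0 hz
    unfold Wvan_P at hz'
    refine Submodule.span_induction (p := fun z _ => ∃ t : k, z = t • indT (Wvan_i Q)
      ((Q.km Set.univ (-(Q.al i))).res (Wvan_i Q))
        (Wvan_up Q (HA.x Q Set.univ i)) (Q.kv Set.univ (-(Q.al i)))) ?_ ?_ ?_ ?_ hz'
    · rintro _ ⟨γ, μ, x, y, hx, hy, hγ, rfl⟩
      by_cases hμ : μ = -(Q.al i)
      · subst hμ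
        have h1 : γ = Pi.single i 1 := by
          have h2 : Wvan_z γ = Q.al i := by
            have h3 := congrArg (fun v => v + Q.al i) hγ
            simpa using h3
          funext j
          have h4 := congrFun h2 j
          unfold Wvan_z CDatum.al at h4
          by_cases hj : j = i
          · subst hj
            simp at h4
            simp [h4]
          · simp [hj] at h4
            simp [hj, h4]
        subst h1
        obtain ⟨t, rfl⟩ := Wvan_gr_single i hx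
        obtain ⟨s, hs⟩ := km_span (Q := Q) Set.univ (-(Q.al i))
          (show (Q.km Set.univ (-(Q.al i))).X from y)
        have hs' : y = (show ((Q.km Set.univ (-(Q.al i))).res (Wvan_i Q)).X from
          (s • Q.kv Set.univ (-(Q.al i)) : (Q.km Set.univ (-(Q.al i))).X)) := hs
        refine ⟨t * s, ?_⟩
        have h5 : indT (Wvan_i Q) ((Q.km Set.univ (-(Q.al i))).res (Wvan_i Q))
            (Wvan_up Q (HA.x Q Set.univ i)) y
            = s • indT (Wvan_i Q) ((Q.km Set.univ (-(Q.al i))).res (Wvan_i Q))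
              (Wvan_up Q (HA.x Q Set.univ i)) (Q.kv Set.univ (-(Q.al i))) := by
          rw [hs']
          exact indT_smulk (Wvan_i Q) ((Q.km Set.univ (-(Q.al i))).res (Wvan_i Q)) s
            (Wvan_up Q (HA.x Q Set.univ i)) (Q.kv Set.univ (-(Q.al i)))
        rw [map_smul, Wvan_indT_smul_left, h5, smul_smul]
      · have hy0 : y = 0 := by
          rw [Wvan_wts_res] at hy
          exact Wvan_km_wts (Q := Q) (x := (show (Q.km Set.univ (-(Q.al i))).X from y)) hy hμ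
        exact ⟨0, by rw [hy0, indT_zero_right, zero_smul]⟩
    · exact ⟨0, by rw [zero_smul]⟩
    · rintro _ _ _ _ ⟨s, hs⟩ ⟨t, ht⟩
      exact ⟨s + t, by rw [hs, ht, add_smul]⟩
    · rintro s _ _ ⟨t, ht⟩
      exact ⟨s * t, by rw [ht, mul_smul]⟩
  -- `f` does not vanish on the zero weight space
  obtain ⟨w, hw, hfw⟩ : ∃ w ∈ wts Q M₁ 0, f w ≠ 0 := by
    by_contra hcon
    push Not at hcon
    apply h0
    have h1 : f = 0 := Wvan_hom_ext hM₁ fun x hx => by rw [hcon x hx]; rfl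
    rw [← hf, h1, Emap_zero, map_zero]
  obtain ⟨s, hs⟩ := hI0 _ (wt_map_mem S.i hw)
  have hs0 : s ≠ 0 := by
    rintro rfl
    rw [zero_smul] at hs
    apply hfw
    have h1 : w = 0 := S.inj (by rw [hs, map_zero])
    rw [h1, map_zero]
  have hdim : ∀ x ∈ wts Q M₁ 0, ∃ t : k, x = t • w := by
    intro x hx
    obtain ⟨t, ht⟩ := hI0 _ (wt_map_mem S.i hx)
    refine ⟨t * s⁻¹, S.inj ?_⟩
    rw [map_smulk, hs, ht, smul_smul, mul_assoc, inv_mul_cancel₀ hs0, mul_one]
  set c : k := tv (f' w) / tv (f w) with hc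
  have hfw' : tv (f w) ≠ 0 := fun h => hfw h
  have hc1 : f' w = c • f w := by
    show tv (f' w) = c * tv (f w)
    rw [hc, div_mul_cancel₀ _ hfw']
  have hfin : ∀ x, f' x = c • f x := by
    intro x
    obtain ⟨g, hg, rfl⟩ := hM₁.exists_sum x
    rw [Finsupp.sum, map_sum, map_sum, Finset.smul_sum]
    refine Finset.sum_congr rfl fun μ _ => ?_
    by_cases hμ : μ = 0
    · subst hμ
      obtain ⟨t, ht⟩ := hdim _ (hg 0)
      rw [ht, map_smulk, map_smulk, hc1, smul_comm]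
    · rw [Wvan_hom_triv f' hμ (hg μ), Wvan_hom_triv f hμ (hg μ), smul_zero]
  refine ⟨c, ?_⟩
  rw [← hf', ← hf, Emap_smul f f' c hfin (one Q.B)]
  have h1 : ∀ (x : E M₁), c • x = (C c : MvPolynomial I k) • x := fun x => by
    rw [← algebraMap_eq, algebraMap_smul]
  have h2 : ∀ (x : E (Q.km Set.univ (-(Q.al i)))), c • x = (C c : MvPolynomial I k) • x :=
    fun x => by rw [← algebraMap_eq, algebraMap_smul]
  rw [h1, map_smul, h2]

end Pool.Agent.Lib.QG
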