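import Pool.Agent.Lib.MP_021f05_al.Verma
import Pool.Agent.Lib.MP_021f05_al.Wvan
import Pool.Agent.Lib.MP_021f05_al.LH

/-!
# MP_021f05_al (E11): the kernel of `M(0) → k` and `E²(k)` over `U`
-/

noncomputable section

namespace Pool.Agent.Lib.QG

open MvPolynomial

variable {k : Type} [Field k] {I : Type} [Fintype I] [DecidableEq I] (Q : QD k I)

omit [Fintype I] [DecidableEq I] in
theorem K0_vt_smulk {T : TAlg k I} (t s : k) : t • vt T s = vt T (t * s) := rfl

omit [Fintype I] [DecidableEq I] in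
theorem K0_smul_zero {T : TAlg k I} (a : T.A) : a • (vt T 0 : (triv T).X) = vt T 0 := by
  rw [triv_smul]
  show vt T (T.ε a * 0) = _
  rw [mul_zero]

theorem K0_um_x (l : I) : Q.um Set.univ (HA.x Q Set.univ l) = Q.gF Set.univ Set.univ l :=
  HA.um_x Q Set.univ Set.univ l

theorem QD.exists_vε (Jm : Set I) : ∃ f : (Q.V Jm 0).X →ₗ[(Q.T Set.univ Jm).A]
    (triv (Q.T Set.univ Jm)).X, f (Q.vv Jm 0) = vt (Q.T Set.univ Jm) 1 := by
  refine Q.exists_V_hom Jm (M := triv (Q.T Set.univ Jm)) (μ := 0) (v := vt (Q.T Set.univ Jm) 1)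
    ?_ ?_
  · intro i
    rw [triv_smul, Q.χ_zero, one_smul, (Q.T Set.univ Jm).ε_K, one_mul, vt_tv]
  · intro i
    have h : (Q.T Set.univ Jm).ε (Q.gE Set.univ Jm i) = 0 :=
      (QElts.eps Q Set.univ Jm).lift_E i
    rw [triv_smul, h, zero_mul]
    rfl

/-- the map `M(0) → k` -/
def QD.vε (Jm : Set I) : (Q.V Jm 0).X →ₗ[(Q.T Set.univ Jm).A]
    (triv (Q.T Set.univ Jm)).X :=
  (Q.exists_vε Jm).choose

theorem QD.vε_vv (Jm : Set I) : Q.vε Jm (Q.vv Jm 0) = vt (Q.T Set.univ Jm) 1 :=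
  (Q.exists_vε Jm).choose_spec

theorem QD.vε_surjective (Jm : Set I) : Function.Surjective (Q.vε Jm) := by
  intro x
  refine ⟨tv x • Q.vv Jm 0, ?_⟩
  rw [map_smulk, Q.vε_vv, K0_vt_smulk, mul_one, vt_tv]

/-- the kernel of `M(0) → k` -/
def QD.K0 : Mod Q.U := (Q.V Set.univ 0).sub (LinearMap.ker (Q.vε Set.univ))

/-- the inclusion of the kernel -/
def QD.K0ι : Q.K0.X →ₗ[Q.U.A] (Q.V Set.univ 0).X :=
  (Q.V Set.univ 0).subι (LinearMap.ker (Q.vε Set.univ))

theorem QD.K0_isWt : IsWt Q Q.K0 := (Q.V_isWt Set.univ 0).sub _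

/-- the sequence `0 → K → M(0) → k → 0` -/
def QD.K0ses : ModSES Q.K0 (Q.V Set.univ 0) (triv Q.U) :=
  mkSES (Q.V_isWt Set.univ 0) Q.K0ι (Q.vε Set.univ) (Submodule.injective_subtype _)
    (Q.vε_surjective Set.univ)
    (fun x => ⟨fun h => ⟨⟨x, h⟩, rfl⟩, by rintro ⟨y, rfl⟩; exact y.2⟩)

theorem QD.exists_g0 (l : I) : ∃ g : (Q.NV l).X →ₗ[Q.U.A] Q.K0.X, Function.Injective g ∧
    Q.K0ι (g (Q.vv Set.univ (Q.dot l 0))) = Q.gF Set.univ Set.univ l • Q.vv Set.univ 0 := by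
  have hwt : Q.gF Set.univ Set.univ l • Q.vv Set.univ 0
      ∈ wts Q (Q.V Set.univ 0) (Q.dot l 0) := by
    have h1 : HA.x Q Set.univ l ∈ HA.gr Q Set.univ (Pi.single l 1) := by
      have := halfGr_word_mem Q Set.univ [l]
      rwa [halfGr_wtw_single, halfGr_word_single] at this
    have h2 := Q.vact_wt Set.univ 0 h1
    have h3 : (0 - fun i => (((Pi.single l 1 : I → ℕ) i : ℕ) : ℤ) : I → ℤ) = Q.dot l 0 := by
      rw [Q.dot_zero]
      funext i
      show (0 : ℤ) - (((Pi.single l 1 : I → ℕ) i : ℕ) : ℤ) = -((Pi.single l 1 : I → ℤ) i)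
      by_cases h : i = l
      · subst h; simp
      · rw [Pi.single_eq_of_ne h, Pi.single_eq_of_ne h]; simp
    rw [h3] at h2
    have h4 : Q.vact Set.univ 0 (HA.x Q Set.univ l)
        = Q.gF Set.univ Set.univ l • Q.vv Set.univ 0 := by
      show Q.um Set.univ (HA.x Q Set.univ l) • Q.vv Set.univ 0 = _
      rw [K0_um_x]
    rwa [h4] at h2
  have hE : ∀ i, Q.gE Set.univ Set.univ i • (Q.gF Set.univ Set.univ l • Q.vv Set.univ 0) = 0 := by
    intro i
    have h := Q.V_singular Set.univ (i := l) (Set.mem_univ l) (μ := 0) (m := 0)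
      (by rw [K0_ct_zero]; rfl) i
    rwa [zero_add, pow_one] at h
  obtain ⟨f, hf⟩ := Q.exists_V_hom Set.univ hwt hE
  have hz : Q.vε Set.univ ∘ₗ f = 0 := by
    refine Q.V_hom_ext Set.univ ?_
    rw [LinearMap.comp_apply, hf, map_smul, Q.vε_vv, LinearMap.zero_apply, triv_smul]
    have h : (Q.T Set.univ Set.univ).ε (Q.gF Set.univ Set.univ l) = 0 :=
      (QElts.eps Q Set.univ Set.univ).lift_F l
    rw [h, zero_mul]
    rfl
  have hinj : Function.Injective f := by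
    refine Q.V_hom_injective Set.univ f (z := HA.x Q Set.univ l) ?_ ?_
    · rw [hf]
      show _ = Q.um Set.univ (HA.x Q Set.univ l) • Q.vv Set.univ 0
      rw [K0_um_x]
    · intro y hy
      exact HA.mul_x_injective Q Set.univ (Set.mem_univ l) hy
  let g : (Q.NV l).X →ₗ[Q.U.A] Q.K0.X :=
    LinearMap.codRestrict (LinearMap.ker (Q.vε Set.univ)) f
      (fun x => LinearMap.congr_fun hz x)
  refine ⟨g, ?_, ?_⟩
  · intro x y hxy
    apply hinj
    exact congrArg Q.K0ι hxy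
  · exact hf

/-- the map `M(-α_l) → K`, `v ↦ F_l v` -/
def QD.g0 (l : I) : (Q.NV l).X →ₗ[Q.U.A] Q.K0.X := (Q.exists_g0 l).choose

theorem QD.g0_injective (l : I) : Function.Injective (Q.g0 l) := (Q.exists_g0 l).choose_spec.1

theorem QD.g0_vv (l : I) : Q.K0ι (Q.g0 l (Q.vv Set.univ (Q.dot l 0)))
    = Q.gF Set.univ Set.univ l • Q.vv Set.univ 0 := (Q.exists_g0 l).choose_spec.2

theorem K0ι_injective : Function.Injective Q.K0ι := Submodule.injective_subtype _

theorem K0_decomp {J : Set I} (y : HA Q J) : ∃ (c : k) (z : I → HA Q J),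
    y = c • 1 + ∑ i, z i * HA.x Q J i := by
  induction y using HA.induction with
  | hs t =>
    refine ⟨t, fun _ => 0, ?_⟩
    rw [Algebra.algebraMap_eq_smul_one]
    simp
  | hx i =>
    refine ⟨0, Pi.single i 1, ?_⟩
    rw [zero_smul, zero_add, Finset.sum_eq_single i]
    · rw [Pi.single_eq_same, one_mul]
    · intro j _ hj
      rw [Pi.single_eq_of_ne hj, zero_mul]
    · intro h; exact absurd (Finset.mem_univ i) h
  | hadd x y hx hy =>
    obtain ⟨c, z, rfl⟩ := hx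
    obtain ⟨d, w, rfl⟩ := hy
    refine ⟨c + d, fun i => z i + w i, ?_⟩
    have : ∑ i, (z i + w i) * HA.x Q J i = ∑ i, z i * HA.x Q J i + ∑ i, w i * HA.x Q J i := by
      rw [← Finset.sum_add_distrib]
      exact Finset.sum_congr rfl fun i _ => add_mul _ _ _
    rw [this, add_smul]
    abel
  | hmul x y hx hy =>
    obtain ⟨c, z, hz⟩ := hx
    obtain ⟨d, w, hw⟩ := hy
    refine ⟨d * c, fun i => d • z i + x * w i, ?_⟩
    have h1 : x * y = d • x + ∑ i, x * w i * HA.x Q J i := by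
      conv_lhs => rw [hw]
      rw [mul_add, mul_smul_comm, mul_one, Finset.mul_sum]
      congr 1
      exact Finset.sum_congr rfl fun i _ => (mul_assoc _ _ _).symm
    have h2 : d • x = (d * c) • (1 : HA Q J) + ∑ i, (d • z i) * HA.x Q J i := by
      conv_lhs => rw [hz]
      rw [smul_add, smul_smul, Finset.smul_sum]
      congr 1
      exact Finset.sum_congr rfl fun i _ => (smul_mul_assoc _ _ _).symm
    rw [h1, h2, add_assoc, ← Finset.sum_add_distrib]
    congr 1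
    exact Finset.sum_congr rfl fun i _ => (add_mul _ _ _).symm

/-- the images of the `M(-α_l)` span the kernel -/
theorem QD.g0_span (x : Q.K0.X) : ∃ y : ∀ l, (Q.NV l).X, x = ∑ l, Q.g0 l (y l) := by
  obtain ⟨y, hy⟩ := (Q.vact_bijective Set.univ 0).2 (Q.K0ι x)
  obtain ⟨c, z, hz⟩ := K0_decomp Q y
  have h1 : Q.K0ι x = c • Q.vv Set.univ 0
      + ∑ i, Q.um Set.univ (z i) • Q.gF Set.univ Set.univ i • Q.vv Set.univ 0 := by
    rw [← hy, hz, map_add, map_smul, map_sum]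
    congr 1
    · congr 1
      show Q.um Set.univ 1 • Q.vv Set.univ 0 = _
      have : Q.um Set.univ 1 = 1 := map_one (HA.um Q Set.univ Set.univ)
      rw [this, one_smul]
    · refine Finset.sum_congr rfl fun i _ => ?_
      show Q.um Set.univ (z i * HA.x Q Set.univ i) • Q.vv Set.univ 0 = _
      have : Q.um Set.univ (z i * HA.x Q Set.univ i)
          = Q.um Set.univ (z i) * Q.gF Set.univ Set.univ i := by
        show HA.um Q Set.univ Set.univ _ = _
        rw [map_mul, HA.um_x]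
        rfl
      rw [this, mul_smul]
  have h2 : Q.vε Set.univ (Q.K0ι x) = 0 := x.2
  have hF : ∀ i, (Q.T Set.univ Set.univ).ε (Q.gF Set.univ Set.univ i) = 0 := fun i =>
    (QElts.eps Q Set.univ Set.univ).lift_F i
  have hc : c = 0 := by
    rw [h1, map_add, map_smulk, Q.vε_vv, map_sum] at h2
    have h3 : ∑ i, Q.vε Set.univ (Q.um Set.univ (z i) • Q.gF Set.univ Set.univ i
        • Q.vv Set.univ 0) = 0 := by
      refine Finset.sum_eq_zero fun i _ => ?_
      rw [map_smul, map_smul, Q.vε_vv, triv_smul (Q.gF Set.univ Set.univ i), hF, zero_mul]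
      exact K0_smul_zero _
    rw [h3, add_zero, K0_vt_smulk, mul_one] at h2
    exact h2
  refine ⟨fun l => Q.um Set.univ (z l) • Q.vv Set.univ (Q.dot l 0), ?_⟩
  apply K0ι_injective
  rw [h1, hc, zero_smul, zero_add, map_sum]
  refine Finset.sum_congr rfl fun l _ => ?_
  rw [map_smul, map_smul, Q.g0_vv]

theorem QD.K0_wts {μ : I → ℤ} (h : wts Q Q.K0 μ ≠ ⊥) : (∀ j, μ j ≤ 0) ∧ μ ≠ 0 := by
  obtain ⟨x, hx, hx0⟩ := (Submodule.ne_bot_iff _).1 h
  have h1 : Q.K0ι x ∈ wts Q (Q.V Set.univ 0) μ := wt_map_mem Q.K0ι hx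
  have h2 : Q.K0ι x ≠ 0 := fun h => hx0 (K0ι_injective Q (by rw [h, map_zero]))
  refine ⟨fun j => ?_, ?_⟩
  · have := Q.V_wts_le Set.univ (μ := 0) (ν := μ)
      ((Submodule.ne_bot_iff _).2 ⟨_, h1, h2⟩) j
    exact this
  · rintro rfl
    obtain ⟨t, ht⟩ := Q.V_top Set.univ h1
    have h3 : Q.vε Set.univ (Q.K0ι x) = 0 := x.2
    rw [ht, map_smulk, Q.vε_vv, K0_vt_smulk, mul_one] at h3
    have h4 : t = 0 := h3
    apply h2
    rw [ht, h4, zero_smul]

variable [CharZero k]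

theorem QD.EVan_V0 (Jm : Set I) {n : ℤ} (hn : n ≠ 0) : EVan (Q.V Jm 0) n := by
  rw [Q.EVan_V]
  rcases lt_or_gt_of_ne hn with h | h
  · exact EVan_neg _ h
  · obtain ⟨m, rfl⟩ := Int.eq_ofNat_of_zero_le h.le
    refine EVan_km 0 m fun _ => ?_
    have : ht (0 : I → ℤ) = 0 := by unfold ht; simp
    rw [this]
    omega

theorem K0_ht (l : I) : ht (Q.dot l 0) = -1 := by
  rw [Q.dot_zero]
  unfold ht
  show ∑ j, -((Pi.single l 1 : I → ℤ) j) = -1
  rw [Finset.sum_neg_distrib, Finset.sum_pi_single']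
  simp

theorem K0_triv_wt {T : TAlg k I} {μ : I → ℤ} (hμ : μ ≠ 0) {x : (triv T).X}
    (hx : x ∈ wts Q (triv T) μ) : x = 0 := by
  by_contra h
  apply hμ
  refine QD.χ_inj (Q := Q) fun i => ?_
  have h1 := hx i
  rw [triv_smul, T.ε_K, one_mul, vt_tv] at h1
  have h2 : (1 : k) * tv x = Q.χ μ i * tv x := by
    rw [one_mul]; exact h1
  have h3 : tv x ≠ 0 := h
  rw [Q.χ_zero]
  exact (mul_right_cancel₀ h3 h2).symm

theorem QD.EVan_NV (l : I) {n : ℤ} (hn : n ≠ 1) : EVan (Q.NV l) n := by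
  rcases lt_or_ge n 0 with h | h
  · exact EVan_neg _ h
  · obtain ⟨m, rfl⟩ := Int.eq_ofNat_of_zero_le h
    rcases Nat.eq_zero_or_pos m with h0 | h0
    · subst h0
      intro e he
      obtain ⟨f, rfl⟩ := E0_exists _ he
      have hne : Q.dot l 0 ≠ 0 := by
        intro h
        have := K0_ht Q l
        rw [h] at this
        unfold ht at this
        simp at this
      have hf : f = 0 := by
        refine Q.V_hom_ext Set.univ ?_
        rw [LinearMap.zero_apply]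
        exact K0_triv_wt Q hne (wt_map_mem f (Q.vv_wt Set.univ (Q.dot l 0)))
      rw [hf, Emap_zero]
    · rw [Q.EVan_V]
      refine EVan_km _ m fun _ => ?_
      rw [K0_ht]
      omega

theorem K0_E1_km {μ : I → ℤ} (l : I) (hμ : μ = -(Q.al l)) {e e' : E (Q.km Set.univ μ)}
    (he : e ∈ EDeg (Q.km Set.univ μ) 1) (he' : e' ∈ EDeg (Q.km Set.univ μ) 1)
    (h0 : e ≠ 0) : ∃ t : k, e' = t • e := by
  subst hμ
  exact E1_km_al l he he' h0

theorem QD.E1_NV (l : I) {e e' : E (Q.NV l)} (he : e ∈ EDeg (Q.NV l) 1)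
    (he' : e' ∈ EDeg (Q.NV l) 1) (h0 : e ≠ 0) : ∃ t : k, e' = t • e := by
  set φ : THom Q.B Q.U := Q.inc (Set.Subset.refl Set.univ) (Set.empty_subset Set.univ) with hφ
  set Y : Mod Q.B := Q.km Set.univ (Q.dot l 0) with hY
  have hsh := (shapiro φ (QD.rfree_minus (Q := Q) (Jp := Set.univ) (Jm := Set.univ))
    (Q.wtAlg Set.univ Set.univ) (Q.wtAlg Set.univ ∅)
    (Q.inc (Set.empty_subset Set.univ) (Set.Subset.refl ∅))
    (QD.rfree_plus (Q := Q) (Jp := Set.univ) (Jm := ∅)) (Y := Y) (km_isWt Set.univ _) 1).1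
  set Θ : E (Y.ind φ) → E Y := fun x => Emap (indU φ Y) (Eres φ (Y.ind φ) x) with hΘ
  have hmem : ∀ x ∈ EDeg (Y.ind φ) 1, Θ x ∈ EDeg Y 1 := fun x hx =>
    Emap_mem _ (Eres_mem φ hx)
  have h1 : Θ e ≠ 0 := fun h => h0 (hsh e he h)
  obtain ⟨t, ht⟩ := K0_E1_km Q l (Q.dot_zero l) (hmem e he) (hmem e' he') h1
  refine ⟨t, ?_⟩
  rw [← sub_eq_zero]
  refine hsh _ (Submodule.sub_mem _ he' (Submodule.smul_mem _ _ he)) ?_
  have hs : ∀ x : E (Y.ind φ), t • x = (C t : MvPolynomial I k) • x := fun x => by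
    rw [← MvPolynomial.algebraMap_eq, algebraMap_smul]
  have h2 : ∀ u v : E (Y.ind φ), Θ (u - t • v) = Θ u - t • Θ v := by
    intro u v
    simp only [hΘ]
    rw [map_sub, map_sub, hs, map_smul, map_smul, ← MvPolynomial.algebraMap_eq, algebraMap_smul]
  have h3 := h2 e' e
  rw [ht, sub_self] at h3
  exact h3

/-- the direct sum of the modules `M(-α_l)` -/
def K0_sum : Mod Q.U where
  X := ∀ l, (Q.NV l).X

/-- the projections -/
def K0_pr (l : I) : (K0_sum Q).X →ₗ[Q.U.A] (Q.NV l).X := LinearMap.proj l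

/-- the inclusions -/
def K0_in (l : I) : (Q.NV l).X →ₗ[Q.U.A] (K0_sum Q).X :=
  LinearMap.single Q.U.A (fun l => (Q.NV l).X) l

/-- the map to `K` -/
def K0_map : (K0_sum Q).X →ₗ[Q.U.A] Q.K0.X := ∑ l, Q.g0 l ∘ₗ K0_pr Q l

theorem K0_map_apply (y : (K0_sum Q).X) : K0_map Q y = ∑ l, Q.g0 l (y l) := by
  unfold K0_map
  rw [LinearMap.sum_apply]
  rfl

theorem K0_sum_isWt : IsWt Q (K0_sum Q) := by
  unfold IsWt
  rw [eq_top_iff]
  intro y _
  have hy : y = ∑ l, K0_in Q l (y l) := by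
    funext j
    have : (∑ l, K0_in Q l (y l)) j = ∑ l, (K0_in Q l (y l)) j := Finset.sum_apply _ _ _
    rw [this, Finset.sum_eq_single j]
    · exact (Pi.single_eq_same (M := fun l => (Q.NV l).X) j (y j)).symm
    · intro l _ hl
      exact Pi.single_eq_of_ne (M := fun l => (Q.NV l).X) hl.symm (y l)
    · intro h; exact absurd (Finset.mem_univ j) h
  rw [hy]
  refine Submodule.sum_mem _ fun l _ => ?_
  obtain ⟨f, hf, hs⟩ := (Q.V_isWt Set.univ (Q.dot l 0)).exists_sum (y l)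
  rw [hs, Finsupp.sum, map_sum]
  refine Submodule.sum_mem _ fun μ _ => ?_
  exact Submodule.mem_iSup_of_mem μ (wt_map_mem (K0_in Q l) (hf μ))

theorem K0_E_sum {e : E (K0_sum Q)} (h : ∀ l, Emap (K0_in Q l) e = 0) : e = 0 := by
  have hid : (LinearMap.id : (K0_sum Q).X →ₗ[Q.U.A] (K0_sum Q).X)
      = ∑ l, K0_in Q l ∘ₗ K0_pr Q l := by
    refine LinearMap.ext fun y => ?_
    rw [LinearMap.sum_apply]
    funext j
    have : (∑ l, (K0_in Q l ∘ₗ K0_pr Q l) y) j = ∑ l, (K0_in Q l (y l)) j :=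
      Finset.sum_apply _ _ _
    rw [this, Finset.sum_eq_single j]
    · exact (Pi.single_eq_same (M := fun l => (Q.NV l).X) j (y j)).symm
    · intro l _ hl
      exact Pi.single_eq_of_ne (M := fun l => (Q.NV l).X) hl.symm (y l)
    · intro h; exact absurd (Finset.mem_univ j) h
  have hsum : ∀ s : Finset I, Emap (∑ l ∈ s, K0_in Q l ∘ₗ K0_pr Q l) e = 0 := by
    intro s
    induction s using Finset.induction_on with
    | empty => rw [Finset.sum_empty, Emap_zero]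
    | insert a s ha ih =>
      rw [Finset.sum_insert ha, Emap_add, ih, add_zero, ← Emap_comp, h, map_zero]
  rw [← Emap_id e, hid]
  exact hsum _

theorem QD.E1_K0_inj {e : E Q.K0} (he : e ∈ EDeg Q.K0 1) (h : ∀ l, Emap (Q.g0 l) e = 0) :
    e = 0 := by
  have hsurj : Function.Surjective (K0_map Q) := fun x => by
    obtain ⟨y, hy⟩ := Q.g0_span x
    exact ⟨y, (K0_map_apply Q y).trans hy.symm⟩
  set Z : Mod Q.U := (K0_sum Q).sub (LinearMap.ker (K0_map Q)) with hZ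
  set ζ : Z.X →ₗ[Q.U.A] (K0_sum Q).X := (K0_sum Q).subι (LinearMap.ker (K0_map Q)) with hζ
  let S : ModSES Z (K0_sum Q) Q.K0 :=
    mkSES (K0_sum_isWt Q) ζ (K0_map Q) (Submodule.injective_subtype _) hsurj
      (fun x => ⟨fun h => ⟨⟨x, h⟩, rfl⟩, by rintro ⟨y, rfl⟩; exact y.2⟩)
  have h1 : Emap (K0_map Q) e = 0 := by
    refine K0_E_sum Q fun l => ?_
    rw [Emap_comp]
    have : K0_map Q ∘ₗ K0_in Q l = Q.g0 l := by
      refine LinearMap.ext fun x => ?_
      rw [LinearMap.comp_apply, K0_map_apply, Finset.sum_eq_single l]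
      · exact congrArg (Q.g0 l) (Pi.single_eq_same (M := fun l => (Q.NV l).X) l x)
      · intro j _ hj
        have : K0_in Q l x j = 0 := Pi.single_eq_of_ne (M := fun l => (Q.NV l).X) hj x
        rw [this, map_zero]
      · intro h; exact absurd (Finset.mem_univ l) h
    rw [this, h l]
  have hE0 : EVan Z 0 := by
    intro z hz
    obtain ⟨f, rfl⟩ := E0_exists _ hz
    have hf : f = 0 := by
      refine LinearMap.ext fun x => ?_
      obtain ⟨g, hg, hs⟩ := ((K0_sum_isWt Q).sub (LinearMap.ker (K0_map Q))).exists_sum x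
      rw [LinearMap.zero_apply, hs, Finsupp.sum, map_sum]
      refine Finset.sum_eq_zero fun μ _ => ?_
      by_cases hμ : μ = 0
      · have hzero : g μ = 0 := by
          have h2 : ζ (g μ) ∈ wts Q (K0_sum Q) μ := wt_map_mem ζ (hg μ)
          have h3 : ζ (g μ) = 0 := by
            funext l
            have h4 : K0_pr Q l (ζ (g μ)) ∈ wts Q (Q.NV l) μ := wt_map_mem (K0_pr Q l) h2
            by_contra h5
            have h6 := Q.V_wts_le Set.univ (μ := Q.dot l 0) (ν := μ)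
              ((Submodule.ne_bot_iff _).2 ⟨_, h4, h5⟩) l
            rw [hμ, Q.dot_zero] at h6
            have h7 : (-(Q.al l)) l = (-1 : ℤ) := by
              show -((Pi.single l 1 : I → ℤ) l) = -1
              rw [Pi.single_eq_same]
            rw [h7] at h6
            have : (0 : I → ℤ) l = 0 := rfl
            rw [this] at h6
            omega
          exact Subtype.ext h3
        rw [hzero, map_zero]
      · exact K0_triv_wt Q hμ (wt_map_mem f (hg μ))
    rw [hf, Emap_zero]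
  obtain ⟨x, hx, hxe⟩ := E_ex_quot S (n := 0) (e := e) (by rw [zero_add]; exact he) h1
  rw [← hxe, hE0 x hx, map_zero]

theorem QD.Eδ_K0_inj {n : ℤ} (hn : n ≠ 0) {e : E Q.K0} (he : e ∈ EDeg Q.K0 n)
    (h : Eδ Q.K0ses e = 0) : e = 0 := by
  obtain ⟨x, hx, hxe⟩ := E_ex_sub Q.K0ses he h
  rw [← hxe, Q.EVan_V0 Set.univ hn x hx, map_zero]

theorem K0_lin_single (l : I) : lin (Pi.single l 1 : I → k) = (X l : MvPolynomial I k) := by
  unfold lin
  rw [Finset.sum_eq_single l]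
  · rw [Pi.single_eq_same, C_1, one_mul]
  · intro j _ hj
    rw [Pi.single_eq_of_ne hj, C_0, zero_mul]
  · intro h; exact absurd (Finset.mem_univ l) h

/-- the `l`-integrable quotient as an integrable module -/
def K0_VLI (l : I) : IM Q Set.univ Set.univ l where
  M := Q.VL Set.univ l 0
  wt := Q.VL_isWt Set.univ l 0
  int := Q.VL_isInt Set.univ (Set.mem_univ l) (by rw [K0_ct_zero])

/-- `x_c · 1` vanishes on the `l`-integrable quotient of `M(0)` if `c_l = 0` -/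
theorem QD.lin_one_VL (l : I) (c : I → k) (hc : c l = 0)
    (f : (Q.VL Set.univ l 0).X →ₗ[Q.U.A] (triv Q.U).X) : Emap f (lin c • one Q.U) = 0 := by
  have h1 : lin c • one Q.U ∈ IM.Ei (Set.mem_univ l) (Set.mem_univ l) 2
      (trivI Q Set.univ Set.univ l) := IM.lin_one_mem _ _ c hc
  have h2 : Emap f (lin c • one Q.U) ∈ IM.Ei (Set.mem_univ l) (Set.mem_univ l) 2
      (K0_VLI Q l) :=
    IM.Ei_map (Set.mem_univ l) (Set.mem_univ l) 2 (Y := trivI Q Set.univ Set.univ l)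
      (Z := K0_VLI Q l) f h1
  refine IM.Ei_X_inj (Set.mem_univ l) (Set.mem_univ l) 2 (K0_VLI Q l) h2 ?_
  have h3 : Emap f (lin c • one Q.U) ∈ EDeg (Q.VL Set.univ l 0) 2 :=
    IM.Ei_le (Set.mem_univ l) (Set.mem_univ l) 2 (K0_VLI Q l) h2
  obtain ⟨S, -, -⟩ := Q.exists_VL_ses Set.univ (Set.mem_univ l) (μ := 0) (by rw [K0_ct_zero])
  obtain ⟨x, hx, hxe⟩ := E_ex_quot S (n := 1) h3
    (Q.EVan_V0 Set.univ (by norm_num) _ (Emap_mem _ h3))
  show (X l : MvPolynomial I k) • Emap f (lin c • one Q.U) = 0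
  rw [← hxe, ← map_smul, ← K0_lin_single, Q.lin_kill_V Set.univ _ hx, map_zero]

theorem K0_exists_y (l : I) : ∃ y : E Q.K0, y ∈ EDeg Q.K0 1 ∧
    Eδ Q.K0ses y = (X l : MvPolynomial I k) • one Q.U := by
  have h1 : (X l : MvPolynomial I k) • one Q.U ∈ EDeg (triv Q.U) 2 := by
    have := lin_mem_Deg (M := triv Q.U) (Pi.single l 1 : I → k) (one_mem_Deg (T := Q.U))
    rw [zero_add] at this
    have h2 := K0_lin_single (k := k) l
    unfold lin at h2
    rwa [h2] at this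
  obtain ⟨x, hx, hxe⟩ := E_ex_quot Q.K0ses (n := 1) h1
    (Q.EVan_V0 Set.univ (by norm_num) _ (Emap_mem _ h1))
  exact ⟨x, hx, hxe⟩

theorem K0_y_ne {l l' : I} (hll : l ≠ l') {y : E Q.K0} (hy : y ∈ EDeg Q.K0 1)
    (hδ : Eδ Q.K0ses y = (X l : MvPolynomial I k) • one Q.U) : Emap (Q.g0 l') y = 0 := by
  obtain ⟨S, hSi, hSp⟩ := Q.exists_VL_ses Set.univ (Set.mem_univ l') (μ := 0)
    (by rw [K0_ct_zero])
  have hker : Q.VN Set.univ l' 0 ≤ LinearMap.ker (Q.vε Set.univ) := by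
    unfold QD.VN
    rw [Submodule.span_le]
    rintro _ rfl
    show Q.vε Set.univ _ = 0
    rw [K0_ct_zero, Int.toNat_zero, zero_add, pow_one, map_smul, Q.vε_vv, triv_smul]
    have h : (Q.T Set.univ Set.univ).ε (Q.gF Set.univ Set.univ l') = 0 :=
      (QElts.eps Q Set.univ Set.univ).lift_F l'
    rw [h, zero_mul]
    rfl
  let f'' : (Q.VL Set.univ l' 0).X →ₗ[Q.U.A] (triv Q.U).X :=
    (Q.VN Set.univ l' 0).liftQ (Q.vε Set.univ) hker
  have hK : Q.K0ι ∘ₗ Q.g0 l' = S.i := by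
    refine Q.V_hom_ext Set.univ ?_
    rw [LinearMap.comp_apply, Q.g0_vv, hSi, K0_ct_zero, Int.toNat_zero, zero_add, pow_one]
  have hnat := Eδ_natural Q.K0ses S (Q.g0 l') LinearMap.id f''
    (fun x => LinearMap.congr_fun hK x) (fun x => by rw [hSp]; rfl) y
  have h1 : Emap f'' (Eδ Q.K0ses y) = 0 := by
    rw [hδ, ← K0_lin_single]
    refine Q.lin_one_VL l' _ ?_ f''
    rw [Pi.single_eq_of_ne hll.symm]
  rw [h1] at hnat
  obtain ⟨x, hx, hxe⟩ := E_ex_sub S (Emap_mem (Q.g0 l') hy) hnat.symm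
  rw [← hxe, Q.EVan_V0 Set.univ (by norm_num) x hx, map_zero]

theorem QD.exists_y0 : ∃ y : I → E Q.K0, (∀ l, y l ∈ EDeg Q.K0 1) ∧
    (∀ l, Eδ Q.K0ses (y l) = (X l : MvPolynomial I k) • one Q.U) ∧
    (∀ l l', l ≠ l' → Emap (Q.g0 l') (y l) = 0) ∧ (∀ l, Emap (Q.g0 l) (y l) ≠ 0) := by
  choose y hy1 hy2 using K0_exists_y Q
  refine ⟨y, hy1, hy2, fun l l' h => K0_y_ne Q h (hy1 l) (hy2 l), ?_⟩
  intro l h
  have h0 : y l = 0 := by
    refine Q.E1_K0_inj (hy1 l) fun l' => ?_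
    by_cases hl : l = l'
    · subst hl; exact h
    · exact K0_y_ne Q hl (hy1 l) (hy2 l)
  have h1 := hy2 l
  rw [h0, map_zero, ← K0_lin_single] at h1
  have h2 := (lin_smul_one_eq_zero_iff (Q := Q) (Jp := Set.univ) (Jm := Set.univ)
    (Pi.single l 1 : I → k)).1 h1.symm l (Set.mem_univ l) (Set.mem_univ l)
  rw [Pi.single_eq_same] at h2
  exact one_ne_zero h2

/-- `E²(k)` is spanned by the `x_c · 1` -/
theorem QD.E2_triv {r : E (triv Q.U)} (hr : r ∈ EDeg (triv Q.U) 2) :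
    ∃ c : I → k, r = lin c • one Q.U := by
  obtain ⟨e, he, her⟩ := E_ex_quot Q.K0ses (n := 1) hr
    (Q.EVan_V0 Set.univ (by norm_num) _ (Emap_mem _ hr))
  obtain ⟨y, hy1, hy2, hy3, hy4⟩ := Q.exists_y0
  have ht : ∀ l, ∃ t : k, Emap (Q.g0 l) e = t • Emap (Q.g0 l) (y l) := fun l =>
    Q.E1_NV l (Emap_mem _ (hy1 l)) (Emap_mem _ he) (hy4 l)
  choose t ht using ht
  have hs : ∀ (M : Mod Q.U) (t : k) (x : E M), t • x = (C t : MvPolynomial I k) • x :=
    fun M t x => by rw [← MvPolynomial.algebraMap_eq, algebraMap_smul]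
  have h0 : e - ∑ l, t l • y l = 0 := by
    refine Q.E1_K0_inj (Submodule.sub_mem _ he
      (Submodule.sum_mem _ fun l _ => Submodule.smul_mem _ _ (hy1 l))) fun l => ?_
    rw [map_sub, map_sum, Finset.sum_eq_single l]
    · rw [hs Q.K0, map_smul, ← hs, ht l, sub_self]
    · intro j _ hj
      rw [hs Q.K0, map_smul, hy3 j l hj, smul_zero]
    · intro h; exact absurd (Finset.mem_univ l) h
  refine ⟨t, ?_⟩
  rw [← her, sub_eq_zero.1 h0, map_sum]
  unfold lin
  rw [Finset.sum_smul]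
  refine Finset.sum_congr rfl fun l _ => ?_
  rw [hs Q.K0, map_smul, hy2, smul_smul]

end Pool.Agent.Lib.QG
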