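import Pool.Agent.Lib.MP_021f05_al.K0
import Pool.Agent.Lib.MP_021f05_al.DefY

/-!
# MP_021f05_al (E14): the module `(M(-α_i) ⊕ M(-α_j)) / U(A v_i - F_i^{m+1} v_j)`
-/

noncomputable section

namespace Pool.Agent.Lib.QG

open MvPolynomial

variable {k : Type} [Field k]

/-! ### products -/

section prod

variable {I : Type} {T : TAlg k I}

/-- the product of two modules -/
def KhatProd (M N : Mod T) : Mod T where
  X := M.X × N.X

/-- the first inclusion -/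
def KhatInl (M N : Mod T) : M.X →ₗ[T.A] (KhatProd M N).X := LinearMap.inl T.A M.X N.X

/-- the second inclusion -/
def KhatInr (M N : Mod T) : N.X →ₗ[T.A] (KhatProd M N).X := LinearMap.inr T.A M.X N.X

/-- the first projection -/
def KhatFst (M N : Mod T) : (KhatProd M N).X →ₗ[T.A] M.X := LinearMap.fst T.A M.X N.X

/-- the second projection -/
def KhatSnd (M N : Mod T) : (KhatProd M N).X →ₗ[T.A] N.X := LinearMap.snd T.A M.X N.X

lemma khat_inl_fst (M N : Mod T) (x : M.X) : KhatFst M N (KhatInl M N x) = x := rfl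
lemma khat_inl_snd (M N : Mod T) (x : M.X) : KhatSnd M N (KhatInl M N x) = 0 := rfl
lemma khat_inr_fst (M N : Mod T) (x : N.X) : KhatFst M N (KhatInr M N x) = 0 := rfl
lemma khat_inr_snd (M N : Mod T) (x : N.X) : KhatSnd M N (KhatInr M N x) = x := rfl

lemma khat_ext {M N : Mod T} {x y : (KhatProd M N).X} (h1 : KhatFst M N x = KhatFst M N y)
    (h2 : KhatSnd M N x = KhatSnd M N y) : x = y := Prod.ext h1 h2

lemma khat_add (M N : Mod T) (x : (KhatProd M N).X) :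
    x = KhatInl M N (KhatFst M N x) + KhatInr M N (KhatSnd M N x) := by
  apply khat_ext
  · rw [map_add, khat_inl_fst, khat_inr_fst, add_zero]
  · rw [map_add, khat_inl_snd, khat_inr_snd, zero_add]

end prod

variable {I : Type} [Fintype I] [DecidableEq I] (Q : QD k I)

lemma khat_prod_isWt {Q : QD k I} {T : TAlg k I} {M N : Mod T} (hM : IsWt Q M) (hN : IsWt Q N) :
    IsWt Q (KhatProd M N) := by
  unfold IsWt
  rw [eq_top_iff]
  intro x _
  rw [khat_add M N x]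
  refine Submodule.add_mem _ ?_ ?_
  · obtain ⟨g, hg, hx⟩ := hM.exists_sum (KhatFst M N x)
    rw [hx, Finsupp.sum, map_sum]
    exact Submodule.sum_mem _ fun μ _ => Submodule.mem_iSup_of_mem μ (wt_map_mem _ (hg μ))
  · obtain ⟨g, hg, hx⟩ := hN.exists_sum (KhatSnd M N x)
    rw [hx, Finsupp.sum, map_sum]
    exact Submodule.sum_mem _ fun μ _ => Submodule.mem_iSup_of_mem μ (wt_map_mem _ (hg μ))

lemma khat_um_pow (Jm : Set I) (i : I) (n : ℕ) :
    Q.um Jm (HA.x Q Jm i ^ n) = Q.gF Set.univ Jm i ^ n := by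
  show HA.um Q Set.univ Jm (HA.x Q Jm i ^ n) = _
  rw [map_pow, HA.um_x]
  rfl

lemma khat_um_mul (Jm : Set I) (x y : HA Q Jm) :
    Q.um Jm (x * y) = Q.um Jm x * Q.um Jm y := map_mul (HA.um Q Set.univ Jm) x y

lemma khat_vact_mul (Jm : Set I) (μ : I → ℤ) (x y : HA Q Jm) :
    Q.vact Jm μ (x * y) = Q.um Jm x • Q.vact Jm μ y := by
  show Q.um Jm (x * y) • Q.vv Jm μ = Q.um Jm x • Q.um Jm y • Q.vv Jm μ
  rw [khat_um_mul, mul_smul]

lemma khat_vact_one (Jm : Set I) (μ : I → ℤ) : Q.vact Jm μ 1 = Q.vv Jm μ := by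
  show Q.um Jm 1 • Q.vv Jm μ = _
  have : Q.um Jm 1 = 1 := map_one (HA.um Q Set.univ Jm)
  rw [this, one_smul]

lemma khat_vact_pow (Jm : Set I) (μ : I → ℤ) (i : I) (n : ℕ) :
    Q.vact Jm μ (HA.x Q Jm i ^ n) = Q.gF Set.univ Jm i ^ n • Q.vv Jm μ := by
  rw [← khat_um_pow]
  rfl

lemma khat_mul_pow {i : I} {n : ℕ} {y : HA Q Set.univ}
    (h : y * HA.x Q Set.univ i ^ n = 0) : y = 0 := by
  induction n generalizing y with
  | zero => simpa using h
  | succ n ih =>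
    rw [pow_succ, ← mul_assoc] at h
    exact ih (HA.mul_x_injective Q Set.univ (Set.mem_univ i) h)

lemma khat_gF_pow_wt {T : Mod Q.U} {μ : I → ℤ} {x : T.X} (hx : x ∈ wts Q T μ) (i : I) (n : ℕ) :
    Q.gF Set.univ Set.univ i ^ n • x ∈ wts Q T (μ - (n : ℤ) • Q.al i) := by
  induction n with
  | zero => simpa using hx
  | succ n ih =>
    have h := gF_wt ih i
    rw [smul_smul, ← pow_succ'] at h
    have h2 : μ - (n : ℤ) • Q.al i - Q.al i = μ - ((n + 1 : ℕ) : ℤ) • Q.al i := by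
      push_cast
      rw [add_smul, one_smul, sub_sub]
    rwa [h2] at h

/-- the singular vector -/
def khatW (i j : I) : (KhatProd (Q.NV i) (Q.NV j)).X :=
  KhatInl _ _ (Q.vact Set.univ (Q.dot i 0) (Q.serA i j)) -
    KhatInr _ _ (Q.gF Set.univ Set.univ i ^ ((-(Q.a i j)).toNat + 1) • Q.vv Set.univ (Q.dot j 0))

/-- its weight -/
def khatNu (i j : I) : I → ℤ := Q.dot j 0 - (((-(Q.a i j)).toNat + 1 : ℕ) : ℤ) • Q.al i

lemma khatW_fst (i j : I) : KhatFst _ _ (khatW Q i j) =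
    Q.vact Set.univ (Q.dot i 0) (Q.serA i j) := by
  rw [khatW, map_sub, khat_inl_fst, khat_inr_fst, sub_zero]

lemma khatW_snd (i j : I) : KhatSnd _ _ (khatW Q i j) =
    -(Q.gF Set.univ Set.univ i ^ ((-(Q.a i j)).toNat + 1) • Q.vv Set.univ (Q.dot j 0)) := by
  rw [khatW, map_sub, khat_inl_snd, khat_inr_snd, zero_sub]

lemma khatW_wt (i j : I) : khatW Q i j ∈ wts Q (KhatProd (Q.NV i) (Q.NV j)) (khatNu Q i j) := by
  refine Submodule.sub_mem _ ?_ ?_
  · have h1 := Q.vact_wt Set.univ (Q.dot i 0) (Q.serA_wt i j)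
    have h2 : (Q.dot i 0 - fun l => ((((-(Q.a i j)).toNat • Pi.single i 1 + Pi.single j 1 :
        I → ℕ) l : ℕ) : ℤ)) = khatNu Q i j := by
      rw [khatNu, Q.dot_zero, Q.dot_zero]
      funext l
      simp only [CDatum.al, Pi.sub_apply, Pi.neg_apply, Pi.add_apply, Pi.smul_apply, smul_eq_mul,
        Pi.single_apply]
      split_ifs <;> push_cast <;> ring
    rw [h2] at h1
    exact wt_map_mem _ h1
  · exact wt_map_mem _ (khat_gF_pow_wt Q (Q.vv_wt Set.univ (Q.dot j 0)) i _)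

lemma khat_ct (i j : I) : Q.ct i (Q.dot j 0) = -(Q.a i j) := by
  rw [Q.dot_zero]
  simp [CDatum.ct, CDatum.al, Pi.single_apply]

lemma khat_ct_nat (i j : I) (hij : i ≠ j) :
    Q.ct i (Q.dot j 0) = (((-(Q.a i j)).toNat : ℕ) : ℤ) := by
  rw [khat_ct, Int.toNat_of_nonneg]
  have := Q.nonpos i j hij
  omega

lemma khatW_E (i j : I) (hij : i ≠ j) (l : I) :
    Q.gE Set.univ Set.univ l • khatW Q i j = 0 := by
  apply khat_ext
  · rw [map_smul, khatW_fst, Q.serA_singular i j hij l, map_zero]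
  · rw [map_smul, khatW_snd, smul_neg,
      Q.V_singular Set.univ (Set.mem_univ i) (khat_ct_nat Q i j hij) l, neg_zero, map_zero]

/-- the map from a Verma module -/
lemma khat_exists_f (i j : I) (hij : i ≠ j) :
    ∃ f : (Q.V Set.univ (khatNu Q i j)).X →ₗ[Q.U.A] (KhatProd (Q.NV i) (Q.NV j)).X,
      f (Q.vv Set.univ (khatNu Q i j)) = khatW Q i j :=
  Q.exists_V_hom Set.univ (khatW_wt Q i j) (khatW_E Q i j hij)

lemma khat_f_vact {i j : I}
    {f : (Q.V Set.univ (khatNu Q i j)).X →ₗ[Q.U.A] (KhatProd (Q.NV i) (Q.NV j)).X}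
    (hf : f (Q.vv Set.univ (khatNu Q i j)) = khatW Q i j) (y : HA Q Set.univ) :
    KhatFst _ _ (f (Q.vact Set.univ _ y)) = Q.vact Set.univ (Q.dot i 0) (y * Q.serA i j) ∧
    KhatSnd _ _ (f (Q.vact Set.univ _ y)) = -(Q.vact Set.univ (Q.dot j 0)
      (y * HA.x Q Set.univ i ^ ((-(Q.a i j)).toNat + 1))) := by
  have h1 : f (Q.vact Set.univ (khatNu Q i j) y) = Q.um Set.univ y • khatW Q i j := by
    have h0 : Q.vact Set.univ (khatNu Q i j) y =
      Q.um Set.univ y • Q.vv Set.univ (khatNu Q i j) := rfl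
    rw [h0, map_smul, hf]
  constructor
  · rw [h1, map_smul, khatW_fst, khat_vact_mul]
  · rw [h1, map_smul, khatW_snd, khat_vact_mul, khat_vact_pow, smul_neg]

/-- elements of the image with vanishing components -/
lemma khat_f_zero {i j : I} (hij : i ≠ j)
    {f : (Q.V Set.univ (khatNu Q i j)).X →ₗ[Q.U.A] (KhatProd (Q.NV i) (Q.NV j)).X}
    (hf : f (Q.vv Set.univ (khatNu Q i j)) = khatW Q i j) {z : (Q.V Set.univ (khatNu Q i j)).X}
    (h : KhatFst _ _ (f z) = 0 ∨ KhatSnd _ _ (f z) = 0) : z = 0 := by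
  obtain ⟨y, rfl⟩ := (Q.vact_bijective Set.univ (khatNu Q i j)).2 z
  obtain ⟨h1, h2⟩ := khat_f_vact Q hf y
  have hy : y = 0 := by
    rcases h with h | h
    · rw [h1] at h
      have h3 : y * Q.serA i j = 0 := (Q.vact_bijective Set.univ (Q.dot i 0)).1 (by
        rw [h, map_zero])
      exact Q.mul_serA_injective i j hij h3
    · rw [h2, neg_eq_zero] at h
      have h3 : y * HA.x Q Set.univ i ^ ((-(Q.a i j)).toNat + 1) = 0 :=
        (Q.vact_bijective Set.univ (Q.dot j 0)).1 (by rw [h, map_zero])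
      exact khat_mul_pow Q h3
  rw [hy, map_zero]

/-- degree zero cohomology of a Verma module with nonzero highest weight -/
lemma khat_EVan_zero {μ : I → ℤ} (hμ : μ ≠ 0) : EVan (Q.V Set.univ μ) 0 := by
  intro e he
  obtain ⟨g, rfl⟩ := E0_exists _ he
  obtain ⟨l, hl⟩ : ∃ l, Q.χ μ l ≠ 1 := by
    by_contra hcon
    push Not at hcon
    refine hμ (QD.χ_inj (Q := Q) fun l => ?_)
    rw [hcon l, QD.χ_zero]
  have h1 : g (Q.vv Set.univ μ) = 0 := by
    have h2 := congrArg g (Q.vv_wt Set.univ μ l)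
    rw [map_smul, map_smulk, triv_smul, Q.U.ε_K, one_mul, vt_tv] at h2
    have h3 : (Q.χ μ l - 1) • g (Q.vv Set.univ μ) = 0 := by
      rw [sub_smul, one_smul, ← h2, sub_self]
    exact (smul_eq_zero.1 h3).resolve_left (sub_ne_zero.2 hl)
  have h2 : g = 0 := by
    apply Q.V_hom_ext Set.univ
    rw [h1]
    rfl
  rw [h2, Emap_zero]

lemma khatNu_ne (i j : I) : khatNu Q i j ≠ 0 := by
  intro h
  have h1 := congrFun h j
  rw [khatNu, Q.dot_zero] at h1
  simp only [CDatum.al, Pi.sub_apply, Pi.neg_apply, Pi.smul_apply, smul_eq_mul,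
    Pi.single_apply, Pi.zero_apply] at h1
  split_ifs at h1 <;> push_cast at h1 <;> omega

lemma khat_g0_vact (l : I) (y : HA Q Set.univ) :
    Q.K0ι (Q.g0 l (Q.vact Set.univ (Q.dot l 0) y)) = Q.vact Set.univ 0 (y * HA.x Q Set.univ l) := by
  have h1 : Q.vact Set.univ (Q.dot l 0) y = Q.um Set.univ y • Q.vv Set.univ (Q.dot l 0) := rfl
  have h2 := khat_vact_pow Q Set.univ 0 l 1
  rw [pow_one, pow_one] at h2
  rw [h1, map_smul, map_smul, Q.g0_vv, khat_vact_mul, h2]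

omit [Fintype I] [DecidableEq I] in
lemma khat_lift {T : TAlg k I} {P N : Mod T} (R : Submodule T.A P.X) (g : P.X →ₗ[T.A] N.X)
    (h : ∀ x ∈ R, g x = 0) :
    ∃ g' : (P.quot R).X →ₗ[T.A] N.X, ∀ x, g' (P.quotπ R x) = g x :=
  ⟨R.liftQ g (fun x hx => h x hx), fun x => R.liftQ_apply g x⟩

variable [CharZero k]

theorem QD.exists_Khat (i j : I) (hij : i ≠ j) :
    ∃ (Kh : Mod Q.U) (κ : Kh.X →ₗ[Q.U.A] Q.K0.X)
      (S1 : ModSES (Q.NV i) Kh (Q.VL Set.univ i (Q.dot j 0)))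
      (S2 : ModSES (Q.NV j) Kh (Q.Ymod i j)), IsWt Q Kh ∧
      (∀ x, κ (S1.i x) = Q.g0 i x) ∧ (∀ x, κ (S2.i x) = Q.g0 j x) ∧
      (∀ e ∈ EDeg Kh 1, Emap S1.i e = 0 → Emap S2.i e = 0 → e = 0) := by
  obtain ⟨f, hf⟩ := khat_exists_f Q i j hij
  have hPwt : IsWt Q (KhatProd (Q.NV i) (Q.NV j)) :=
    khat_prod_isWt (Q.V_isWt Set.univ _) (Q.V_isWt Set.univ _)
  obtain ⟨R, hR⟩ : ∃ R : Submodule Q.U.A (KhatProd (Q.NV i) (Q.NV j)).X,
    R = LinearMap.range f := ⟨_, rfl⟩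
  have hRf : ∀ x, x ∈ R ↔ ∃ z, f z = x := fun x => by rw [hR]; rfl
  have huw : ∀ u : Q.U.A, u • khatW Q i j ∈ R := fun u =>
    R.smul_mem u ((hRf _).2 ⟨_, hf⟩)
  have hKh : IsWt Q ((KhatProd (Q.NV i) (Q.NV j)).quot R) := hPwt.quot R
  obtain ⟨π, hπdef⟩ : ∃ π : (KhatProd (Q.NV i) (Q.NV j)).X →ₗ[Q.U.A]
    ((KhatProd (Q.NV i) (Q.NV j)).quot R).X, π = (KhatProd (Q.NV i) (Q.NV j)).quotπ R := ⟨_, rfl⟩
  have hπ : ∀ x, π x = 0 ↔ x ∈ R := fun x => by
    rw [hπdef]; exact Submodule.Quotient.mk_eq_zero R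
  have hπs : Function.Surjective π := by rw [hπdef]; exact Submodule.mkQ_surjective R
  -- the map to the kernel
  obtain ⟨κ, hκ⟩ : ∃ κ : ((KhatProd (Q.NV i) (Q.NV j)).quot R).X →ₗ[Q.U.A] Q.K0.X,
      ∀ x, κ (π x) = Q.g0 i (KhatFst _ _ x) + Q.g0 j (KhatSnd _ _ x) := by
    rw [hπdef]
    refine khat_lift R ((Q.g0 i) ∘ₗ KhatFst _ _ + (Q.g0 j) ∘ₗ KhatSnd _ _) ?_
    intro x hx
    obtain ⟨z, rfl⟩ := (hRf x).1 hx
    obtain ⟨y, rfl⟩ := (Q.vact_bijective Set.univ (khatNu Q i j)).2 z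
    obtain ⟨h1, h2⟩ := khat_f_vact Q hf y
    have hinj : Function.Injective Q.K0ι := Submodule.injective_subtype _
    apply hinj
    show Q.K0ι (Q.g0 i (KhatFst _ _ (f _)) + Q.g0 j (KhatSnd _ _ (f _))) = Q.K0ι 0
    rw [h1, h2, map_add, map_neg, map_neg, khat_g0_vact, khat_g0_vact, mul_assoc, mul_assoc,
      Q.serA_mul i j hij, add_neg_cancel, map_zero]
  -- the projections
  obtain ⟨p1, hp1⟩ : ∃ p1 : ((KhatProd (Q.NV i) (Q.NV j)).quot R).X →ₗ[Q.U.A]
      (Q.VL Set.univ i (Q.dot j 0)).X, ∀ x, p1 (π x) =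
        (Q.V Set.univ (Q.dot j 0)).quotπ (Q.VN Set.univ i (Q.dot j 0)) (KhatSnd _ _ x) := by
    rw [hπdef]
    refine khat_lift R (((Q.V Set.univ (Q.dot j 0)).quotπ (Q.VN Set.univ i (Q.dot j 0))) ∘ₗ
      KhatSnd _ _) ?_
    intro x hx
    obtain ⟨z, rfl⟩ := (hRf x).1 hx
    obtain ⟨y, rfl⟩ := (Q.vact_bijective Set.univ (khatNu Q i j)).2 z
    obtain ⟨h1, h2⟩ := khat_f_vact Q hf y
    show (Q.V Set.univ (Q.dot j 0)).quotπ (Q.VN Set.univ i (Q.dot j 0)) (KhatSnd _ _ (f _)) = 0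
    rw [h2, khat_vact_mul]
    refine (Submodule.Quotient.mk_eq_zero _).2 (Submodule.neg_mem _ (Submodule.smul_mem _ _ ?_))
    refine Submodule.subset_span ?_
    rw [Set.mem_singleton_iff, khat_ct, khat_vact_pow]
  obtain ⟨p2, hp2⟩ : ∃ p2 : ((KhatProd (Q.NV i) (Q.NV j)).quot R).X →ₗ[Q.U.A]
      (Q.Ymod i j).X, ∀ x, p2 (π x) = (Q.NV i).quotπ (Q.YN i j) (KhatFst _ _ x) := by
    rw [hπdef]
    refine khat_lift R (((Q.NV i).quotπ (Q.YN i j)) ∘ₗ KhatFst _ _) ?_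
    intro x hx
    obtain ⟨z, rfl⟩ := (hRf x).1 hx
    obtain ⟨y, rfl⟩ := (Q.vact_bijective Set.univ (khatNu Q i j)).2 z
    obtain ⟨h1, h2⟩ := khat_f_vact Q hf y
    show (Q.NV i).quotπ (Q.YN i j) (KhatFst _ _ (f _)) = 0
    rw [h1, khat_vact_mul]
    exact (Submodule.Quotient.mk_eq_zero _).2 (Submodule.smul_mem _ _
      (Submodule.subset_span rfl))
  have hp1s : Function.Surjective p1 := by
    intro y
    obtain ⟨y', rfl⟩ := Submodule.mkQ_surjective _ y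
    exact ⟨π (KhatInr _ _ y'), by rw [hp1]; rfl⟩
  have hp2s : Function.Surjective p2 := by
    intro y
    obtain ⟨y', rfl⟩ := Submodule.mkQ_surjective _ y
    exact ⟨π (KhatInl _ _ y'), by rw [hp2]; rfl⟩
  have hi1 : Function.Injective (π ∘ₗ KhatInl (Q.NV i) (Q.NV j)) := by
    rw [injective_iff_map_eq_zero]
    intro x hx
    obtain ⟨z, hz⟩ := (hRf _).1 ((hπ _).1 hx)
    have h1 := khat_f_zero Q hij hf (z := z) (Or.inr (by rw [hz]; rfl))
    rw [h1, map_zero] at hz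
    have h2 := congrArg (KhatFst (Q.NV i) (Q.NV j)) hz
    rw [map_zero, khat_inl_fst] at h2
    exact h2.symm
  have hi2 : Function.Injective (π ∘ₗ KhatInr (Q.NV i) (Q.NV j)) := by
    rw [injective_iff_map_eq_zero]
    intro x hx
    obtain ⟨z, hz⟩ := (hRf _).1 ((hπ _).1 hx)
    have h1 := khat_f_zero Q hij hf (z := z) (Or.inl (by rw [hz]; rfl))
    rw [h1, map_zero] at hz
    have h2 := congrArg (KhatSnd (Q.NV i) (Q.NV j)) hz
    rw [map_zero, khat_inr_snd] at h2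
    exact h2.symm
  have hπeq : ∀ x y, x - y ∈ R → π x = π y := fun x y h => by
    rw [← sub_eq_zero, ← map_sub]
    exact (hπ _).2 h
  have hex1 : ∀ x, p1 x = 0 ↔ ∃ y, (π ∘ₗ KhatInl (Q.NV i) (Q.NV j)) y = x := by
    intro x
    constructor
    · intro h
      obtain ⟨p, rfl⟩ := hπs x
      rw [hp1] at h
      have h2 : KhatSnd _ _ p ∈ Q.VN Set.univ i (Q.dot j 0) := (Submodule.Quotient.mk_eq_zero _).1 h
      obtain ⟨u, hu⟩ := Submodule.mem_span_singleton.1 h2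
      rw [khat_ct] at hu
      refine ⟨KhatFst _ _ p + u • Q.vact Set.univ (Q.dot i 0) (Q.serA i j), ?_⟩
      refine hπeq _ _ ?_
      have h3 : KhatInl _ _ (KhatFst _ _ p + u • Q.vact Set.univ (Q.dot i 0) (Q.serA i j)) - p =
          u • khatW Q i j := by
        apply khat_ext
        · rw [map_sub, khat_inl_fst, map_smul, khatW_fst, add_sub_cancel_left]
        · rw [map_sub, khat_inl_snd, map_smul, khatW_snd, zero_sub, smul_neg, hu]
      rw [h3]
      exact huw u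
    · rintro ⟨y, rfl⟩
      exact (hp1 (KhatInl (Q.NV i) (Q.NV j) y)).trans (map_zero _)
  have hex2 : ∀ x, p2 x = 0 ↔ ∃ y, (π ∘ₗ KhatInr (Q.NV i) (Q.NV j)) y = x := by
    intro x
    constructor
    · intro h
      obtain ⟨p, rfl⟩ := hπs x
      rw [hp2] at h
      have h2 : KhatFst _ _ p ∈ Q.YN i j := (Submodule.Quotient.mk_eq_zero _).1 h
      obtain ⟨u, hu⟩ := Submodule.mem_span_singleton.1 h2
      refine ⟨KhatSnd _ _ p + u • (Q.gF Set.univ Set.univ i ^ ((-(Q.a i j)).toNat + 1) •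
        Q.vv Set.univ (Q.dot j 0)), ?_⟩
      refine hπeq _ _ ?_
      have h3 : KhatInr _ _ (KhatSnd _ _ p + u • (Q.gF Set.univ Set.univ i ^
          ((-(Q.a i j)).toNat + 1) • Q.vv Set.univ (Q.dot j 0))) - p =
          (-u) • khatW Q i j := by
        apply khat_ext
        · rw [map_sub, khat_inr_fst, map_smul, khatW_fst, zero_sub, neg_smul, hu]
        · rw [map_sub, khat_inr_snd, map_smul, khatW_snd, smul_neg, neg_smul, neg_neg,
            add_sub_cancel_left]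
      rw [h3]
      exact huw (-u)
    · rintro ⟨y, rfl⟩
      exact (hp2 (KhatInr (Q.NV i) (Q.NV j) y)).trans (map_zero _)
  refine ⟨(KhatProd (Q.NV i) (Q.NV j)).quot R, κ,
    mkSES hKh (π ∘ₗ KhatInl _ _) p1 hi1 hp1s hex1,
    mkSES hKh (π ∘ₗ KhatInr _ _) p2 hi2 hp2s hex2, hKh, ?_, ?_, ?_⟩
  · intro x
    show κ (π (KhatInl _ _ x)) = _
    rw [hκ, khat_inl_fst, khat_inl_snd, map_zero, add_zero]
  · intro x
    show κ (π (KhatInr _ _ x)) = _
    rw [hκ, khat_inr_fst, khat_inr_snd, map_zero, zero_add]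
  · intro e he h1 h2
    replace h1 : Emap (π ∘ₗ KhatInl (Q.NV i) (Q.NV j)) e = 0 := h1
    replace h2 : Emap (π ∘ₗ KhatInr (Q.NV i) (Q.NV j)) e = 0 := h2
    rw [← Emap_comp] at h1 h2
    let Sp : ModSES (Q.NV i) (KhatProd (Q.NV i) (Q.NV j)) (Q.NV j) :=
      mkSES hPwt (KhatInl _ _) (KhatSnd _ _)
        (fun x y h => congrArg (KhatFst (Q.NV i) (Q.NV j)) h)
        (fun y => ⟨KhatInr _ _ y, rfl⟩)
        (fun x => ⟨fun h => ⟨KhatFst _ _ x, by
          conv_rhs => rw [khat_add (Q.NV i) (Q.NV j) x, h, map_zero, add_zero]⟩, by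
          rintro ⟨y, rfl⟩; rfl⟩)
    obtain ⟨x, hx⟩ := (E_exact_mid Sp (Emap π e)).1 h1
    have hx' : Emap (KhatSnd (Q.NV i) (Q.NV j)) x = Emap π e := hx
    rw [← hx', Emap_comp] at h2
    have hid : (KhatSnd (Q.NV i) (Q.NV j)) ∘ₗ (KhatInr (Q.NV i) (Q.NV j)) = LinearMap.id := rfl
    rw [hid, Emap_id] at h2
    rw [h2, map_zero] at hx'
    have hfinj : Function.Injective f := by
      rw [injective_iff_map_eq_zero]
      intro z hz
      exact khat_f_zero Q hij hf (z := z) (Or.inl (by rw [hz, map_zero]))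
    let S : ModSES (Q.V Set.univ (khatNu Q i j)) (KhatProd (Q.NV i) (Q.NV j))
      ((KhatProd (Q.NV i) (Q.NV j)).quot R) := mkSES hPwt f π hfinj hπs
        (fun x => (hπ x).trans (hRf x))
    obtain ⟨w, hw⟩ := (E_exact_quot S e).1 hx'.symm
    have h3 := Eδ_pr S 0 w
    have h4 : (Q.V Set.univ (khatNu Q i j)).coef.pr 0 w = 0 :=
      khat_EVan_zero Q (khatNu_ne Q i j) _ (Coef.pr_mem_Deg _ 0 w)
    rw [h4, map_zero, hw] at h3
    rw [Coef.mem_Deg] at he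
    rw [← he]
    exact h3.symm

end Pool.Agent.Lib.QG
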