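import Pool.Agent.Lib.MP_021f05_al.K0

/-!
# MP_021f05_al (E13): the `i`-integrable kernel `K^i = ker(M(0)/M(-α_i) → k)`
-/

noncomputable section

namespace Pool.Agent.Lib.QG

open MvPolynomial

variable {k : Type} [Field k] [CharZero k] {I : Type} [Fintype I] [DecidableEq I] (Q : QD k I)

/-- the data of `K^i` -/
structure KiD (i : I) where
  K : IM Q Set.univ Set.univ i
  S : ModSES K.M (Q.VL Set.univ i 0) (triv Q.U)
  p : Q.K0.X →ₗ[Q.U.A] K.M.X
  p_surj : Function.Surjective p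
  p_ker : ∀ x, p x = 0 ↔ ∃ y, Q.g0 i y = x
  S_i : ∀ x, S.i (p x) = (Q.V Set.univ 0).quotπ (Q.VN Set.univ i 0) (Q.K0ι x)
  S_p : ∀ x, S.p ((Q.V Set.univ 0).quotπ (Q.VN Set.univ i 0) x) = Q.vε Set.univ x

omit [CharZero k] in
private theorem Ki_ct (i : I) : Q.ct i 0 = 0 := by simp [CDatum.ct]

omit [CharZero k] in
private theorem Ki_le (i : I) : Q.VN Set.univ i 0 ≤ LinearMap.ker (Q.vε Set.univ) := by
  unfold QD.VN
  rw [Submodule.span_le]
  intro x hx
  rw [Set.mem_singleton_iff] at hx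
  subst hx
  show Q.vε Set.univ (Q.gF Set.univ Set.univ i ^ ((Q.ct i 0).toNat + 1) • Q.vv Set.univ 0) = 0
  rw [map_smul, Q.vε_vv, Ki_ct, triv_smul]
  have h : (Q.T Set.univ Set.univ).ε (Q.gF Set.univ Set.univ i) = 0 :=
    (QElts.eps Q Set.univ Set.univ).lift_F i
  rw [map_pow, h, Int.toNat_zero, zero_add, pow_one, zero_mul]
  rfl

/-- the map `L → k` -/
private def Ki_vb (i : I) : (Q.VL Set.univ i 0).X →ₗ[Q.U.A] (triv Q.U).X :=
  (Q.VN Set.univ i 0).liftQ (Q.vε Set.univ) (Ki_le Q i)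

omit [CharZero k] in
private theorem Ki_vb_π (i : I) (x : (Q.V Set.univ 0).X) :
    Ki_vb Q i ((Q.V Set.univ 0).quotπ (Q.VN Set.univ i 0) x) = Q.vε Set.univ x := rfl

omit [CharZero k] in
private theorem Ki_vb_surj (i : I) : Function.Surjective (Ki_vb Q i) := by
  intro y
  obtain ⟨x, hx⟩ := Q.vε_surjective Set.univ y
  exact ⟨(Q.V Set.univ 0).quotπ (Q.VN Set.univ i 0) x, hx⟩

/-- the module `K^i` -/
private def Ki_K (i : I) : Mod Q.U := (Q.VL Set.univ i 0).sub (LinearMap.ker (Ki_vb Q i))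

/-- the map `K → K^i` -/
private def Ki_p (i : I) : Q.K0.X →ₗ[Q.U.A] (Ki_K Q i).X :=
  LinearMap.codRestrict (LinearMap.ker (Ki_vb Q i))
    (((Q.V Set.univ 0).quotπ (Q.VN Set.univ i 0)).comp Q.K0ι) (fun x => x.2)

omit [CharZero k] in
private theorem Ki_K0ι_g0 (i : I) (S' : ModSES (Q.V Set.univ (Q.dot i 0)) (Q.V Set.univ 0)
    (Q.VL Set.univ i 0)) (h : S'.i (Q.vv Set.univ (Q.dot i 0))
        = Q.gF Set.univ Set.univ i ^ ((Q.ct i 0).toNat + 1) • Q.vv Set.univ 0)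
    (y : (Q.NV i).X) : Q.K0ι (Q.g0 i y) = S'.i y := by
  have h1 : Q.K0ι.comp (Q.g0 i) = S'.i := by
    refine Q.V_hom_ext Set.univ ?_
    rw [LinearMap.comp_apply, Q.g0_vv, h, Ki_ct, Int.toNat_zero, zero_add, pow_one]
  exact LinearMap.congr_fun h1 y

theorem QD.exists_KiD (i : I) : Nonempty (KiD Q i) := by
  obtain ⟨S', hS'i, hS'p⟩ := Q.exists_VL_ses Set.univ (i := i) (Set.mem_univ i) (μ := 0)
    (le_of_eq (Ki_ct Q i).symm)
  have hwt : IsWt Q (Q.VL Set.univ i 0) := Q.VL_isWt Set.univ i 0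
  have hint : IsInt i (Q.VL Set.univ i 0) :=
    Q.VL_isInt Set.univ (Set.mem_univ i) (le_of_eq (Ki_ct Q i).symm)
  refine ⟨{ K := ⟨Ki_K Q i, hwt.sub _, hint.of_injective
              ((Q.VL Set.univ i 0).subι (LinearMap.ker (Ki_vb Q i)))
              (Submodule.injective_subtype _)⟩
            S := mkSES hwt ((Q.VL Set.univ i 0).subι (LinearMap.ker (Ki_vb Q i))) (Ki_vb Q i)
              (Submodule.injective_subtype _) (Ki_vb_surj Q i)
              (fun x => ⟨fun h => ⟨⟨x, h⟩, rfl⟩, by rintro ⟨y, rfl⟩; exact y.2⟩)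
            p := Ki_p Q i
            p_surj := ?_
            p_ker := ?_
            S_i := fun x => rfl
            S_p := fun x => rfl }⟩
  · rintro ⟨y, hy⟩
    obtain ⟨x, rfl⟩ := Submodule.mkQ_surjective _ y
    exact ⟨⟨x, hy⟩, rfl⟩
  · intro x
    have h1 : Ki_p Q i x = 0 ↔ S'.p (Q.K0ι x) = 0 := by
      rw [hS'p]
      constructor
      · intro h
        exact congrArg Subtype.val h
      · intro h
        exact Subtype.ext h
    show Ki_p Q i x = 0 ↔ _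
    rw [h1, S'.exact]
    constructor
    · rintro ⟨y, hy⟩
      refine ⟨y, ?_⟩
      have hinj : Function.Injective Q.K0ι := Submodule.injective_subtype _
      apply hinj
      rw [Ki_K0ι_g0 Q i S' hS'i, hy]
    · rintro ⟨y, rfl⟩
      exact ⟨y, (Ki_K0ι_g0 Q i S' hS'i y).symm⟩

variable {Q} {i : I} (D : KiD Q i)

theorem KiD.δ_p {e : E D.K.M} : Eδ Q.K0ses (Emap D.p e) = Eδ D.S e := by
  have h := Eδ_natural D.S Q.K0ses D.p ((Q.V Set.univ 0).quotπ (Q.VN Set.univ i 0))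
    LinearMap.id (fun x => D.S_i x) (fun x => D.S_p x) e
  rw [← h, Emap_id]

/-- the pullback along `K → K^i` is bijective in degree three -/
theorem KiD.p_inj {n : ℤ} (hn : n = 1 ∨ n = 3) {e : E D.K.M} (he : e ∈ EDeg D.K.M n)
    (h : Emap D.p e = 0) : e = 0 := by
  let S : ModSES (Q.NV i) Q.K0 D.K.M := mkSES Q.K0_isWt (Q.g0 i) D.p (Q.g0_injective i)
    D.p_surj D.p_ker
  have he' : e ∈ EDeg D.K.M ((n - 1) + 1) := by rwa [sub_add_cancel]
  obtain ⟨x, hx, rfl⟩ := E_ex_quot S he' h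
  have h0 : x = 0 := Q.EVan_NV i (n := n - 1) (by omega) x hx
  rw [h0, map_zero]

omit D in
private theorem Ki_van_X {μ : I → ℤ} (hμ : 0 ≤ Q.ct i μ) {n : ℤ}
    (h : EVan (Q.V Set.univ μ) (n + 1)) {e : E (Q.VL Set.univ i μ)}
    (he : e ∈ EDeg (Q.VL Set.univ i μ) (n + 1)) : (X i : MvPolynomial I k) • e = 0 := by
  obtain ⟨S', hS'i, hS'p⟩ := Q.exists_VL_ses Set.univ (i := i) (Set.mem_univ i) hμ
  have h1 : Emap S'.p e = 0 := h _ (Emap_mem S'.p he)
  obtain ⟨x, hx, rfl⟩ := E_ex_quot S' he h1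
  have h2 := Q.lin_kill_V Set.univ (Pi.single i (1 : k)) hx
  have h3 : lin (Pi.single i (1 : k)) = (X i : MvPolynomial I k) := by
    unfold lin
    rw [Finset.sum_eq_single i]
    · rw [Pi.single_eq_same, C_1, one_mul]
    · intro j _ hj
      rw [Pi.single_eq_of_ne hj, C_0, zero_mul]
    · intro h'
      exact absurd (Finset.mem_univ i) h'
  rw [h3] at h2
  rw [← map_smul, h2, map_zero]

/-- the `i`-integrable module `L` -/
private def Ki_L (Q : QD k I) (i : I) : IM Q Set.univ Set.univ i where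
  M := Q.VL Set.univ i 0
  wt := Q.VL_isWt Set.univ i 0
  int := Q.VL_isInt Set.univ (Set.mem_univ i) (le_of_eq (Ki_ct Q i).symm)

theorem KiD.lift_two {r : E (triv Q.U)}
    (hr : r ∈ IM.Ei (Set.mem_univ i) (Set.mem_univ i) 2 (trivI Q Set.univ Set.univ i)) :
    ∃ w ∈ EDeg D.K.M 1, Eδ D.S w = r := by
  have h1 : Emap D.S.p r ∈ IM.Ei (Set.mem_univ i) (Set.mem_univ i) 2 (Ki_L Q i) :=
    IM.Ei_map (Set.mem_univ i) (Set.mem_univ i) 2 (Y := trivI Q Set.univ Set.univ i)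
      (Z := Ki_L Q i) D.S.p hr
  have h2 : Emap D.S.p r ∈ EDeg (Q.VL Set.univ i 0) (1 + 1) :=
    IM.Ei_le (Set.mem_univ i) (Set.mem_univ i) 2 (Ki_L Q i) h1
  have h3 := Ki_van_X (Q := Q) (i := i) (μ := 0) (le_of_eq (Ki_ct Q i).symm) (n := 1)
    (Q.EVan_V0 Set.univ (by norm_num)) h2
  have h4 : Emap D.S.p r = 0 :=
    IM.Ei_X_inj (Set.mem_univ i) (Set.mem_univ i) 2 (Ki_L Q i) h1 h3
  have h5 : r ∈ EDeg (triv Q.U) (1 + 1) :=
    IM.Ei_le (Set.mem_univ i) (Set.mem_univ i) 2 (trivI Q Set.univ Set.univ i) hr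
  exact E_ex_quot D.S h5 h4

omit [CharZero k] in
/-- `A_i` acts trivially on the image of the generator in `L` -/
private theorem Ki_triv (a : (Q.Ai i).A) :
    (incA Q (Set.mem_univ i) (Set.mem_univ i)).f a
        • ((Q.V Set.univ 0).quotπ (Q.VN Set.univ i 0) (Q.vv Set.univ 0))
      = (Q.Ai i).ε a • ((Q.V Set.univ 0).quotπ (Q.VN Set.univ i 0) (Q.vv Set.univ 0)) := by
  set w := (Q.V Set.univ 0).quotπ (Q.VN Set.univ i 0) (Q.vv Set.univ 0) with hw
  have hKw : ∀ j, ((Q.U.K j : Q.U.A)) • w = w := by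
    intro j
    rw [hw, ← map_smul, Q.vv_wt Set.univ 0 j, QD.χ_zero, one_smul]
  have hEw : Q.gE Set.univ Set.univ i • w = 0 := by
    rw [hw, ← map_smul, Q.vv_E, map_zero]
  have hFw : Q.gF Set.univ Set.univ i • w = 0 := by
    rw [hw, ← map_smul]
    have h1 : Q.gF Set.univ Set.univ i • Q.vv Set.univ 0 ∈ Q.VN Set.univ i 0 := by
      refine Submodule.subset_span ?_
      rw [Set.mem_singleton_iff, Ki_ct, Int.toNat_zero, zero_add, pow_one]
    exact (Submodule.Quotient.mk_eq_zero _).2 h1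
  refine QA.induction (Q := Q) (Jp := {i}) (Jm := {i})
    (p := fun a => (incA Q (Set.mem_univ i) (Set.mem_univ i)).f a • w
      = (Q.Ai i).ε a • w) ?_ ?_ ?_ ?_ ?_ ?_ ?_ a
  · intro t
    have h1 : (incA Q (Set.mem_univ i) (Set.mem_univ i)).f
        (algebraMap k (Q.Ai i).A t) = algebraMap k Q.U.A t := AlgHom.commutes _ t
    have h2 : (Q.Ai i).ε (algebraMap k (Q.Ai i).A t) = t := AlgHom.commutes _ t
    refine Eq.trans (congrArg (· • w) h1) ?_
    refine Eq.trans ?_ (congrArg (· • w) h2).symm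
    exact algebraMap_smul _ t w
  · intro j
    have h2 : (Q.Ai i).ε ((QA.elts Q {i} {i}).E j) = 0 := (QElts.eps Q {i} {i}).lift_E j
    refine Eq.trans ?_ (congrArg (· • w) h2).symm
    rw [zero_smul]
    by_cases hj : j = i
    · subst hj
      refine Eq.trans (congrArg (· • w) (Q.inc_E _ _ (Set.mem_singleton j))) ?_
      exact hEw
    · have h3 : (QA.elts Q {i} {i}).E j = 0 := (QA.elts Q {i} {i}).E0 j hj
      rw [h3]
      refine Eq.trans (congrArg (· • w) (map_zero _)) ?_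
      rw [zero_smul]
  · intro j
    have h2 : (Q.Ai i).ε ((QA.elts Q {i} {i}).F j) = 0 := (QElts.eps Q {i} {i}).lift_F j
    refine Eq.trans ?_ (congrArg (· • w) h2).symm
    rw [zero_smul]
    by_cases hj : j = i
    · subst hj
      refine Eq.trans (congrArg (· • w) (Q.inc_F _ _ (Set.mem_singleton j))) ?_
      exact hFw
    · have h3 : (QA.elts Q {i} {i}).F j = 0 := (QA.elts Q {i} {i}).F0 j hj
      rw [h3]
      refine Eq.trans (congrArg (· • w) (map_zero _)) ?_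
      rw [zero_smul]
  · intro j
    have h2 : (Q.Ai i).ε ((QA.elts Q {i} {i}).K j) = 1 := (QElts.eps Q {i} {i}).lift_K j
    refine Eq.trans ?_ (congrArg (· • w) h2).symm
    rw [one_smul]
    refine Eq.trans (congrArg (· • w)
      ((incA Q (Set.mem_univ i) (Set.mem_univ i)).f_K j)) ?_
    exact hKw j
  · intro j
    have h2 : (Q.Ai i).ε ((QA.elts Q {i} {i}).L j) = 1 := (QElts.eps Q {i} {i}).lift_L j
    refine Eq.trans ?_ (congrArg (· • w) h2).symm
    rw [one_smul]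
    refine Eq.trans (congrArg (· • w)
      ((incA Q (Set.mem_univ i) (Set.mem_univ i)).f_Kinv j)) ?_
    have h3 := hKw j
    have h4 : (((Q.U.K j)⁻¹ : Q.U.Aˣ) : Q.U.A) • ((Q.U.K j : Q.U.A)) • w = w := by
      rw [smul_smul, Units.inv_mul, one_smul]
    rwa [h3] at h4
  · intro x y hx hy
    have h1 : (incA Q (Set.mem_univ i) (Set.mem_univ i)).f (x + y)
        = (incA Q (Set.mem_univ i) (Set.mem_univ i)).f x
          + (incA Q (Set.mem_univ i) (Set.mem_univ i)).f y := map_add _ _ _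
    have h2 : (Q.Ai i).ε (x + y) = (Q.Ai i).ε x + (Q.Ai i).ε y := map_add _ _ _
    refine Eq.trans (congrArg (· • w) h1) ?_
    refine Eq.trans ?_ (congrArg (· • w) h2).symm
    rw [add_smul, add_smul]
    exact congrArg₂ (· + ·) hx hy
  · intro x y hx hy
    have h1 : (incA Q (Set.mem_univ i) (Set.mem_univ i)).f (x * y)
        = (incA Q (Set.mem_univ i) (Set.mem_univ i)).f x
          * (incA Q (Set.mem_univ i) (Set.mem_univ i)).f y := map_mul _ _ _
    have h2 : (Q.Ai i).ε (x * y) = (Q.Ai i).ε x * (Q.Ai i).ε y := map_mul _ _ _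
    refine Eq.trans (congrArg (· • w) h1) ?_
    refine Eq.trans ?_ (congrArg (· • w) h2).symm
    rw [mul_smul]
    refine Eq.trans (congrArg ((incA Q (Set.mem_univ i) (Set.mem_univ i)).f x • ·) hy) ?_
    show (incA Q (Set.mem_univ i) (Set.mem_univ i)).f x • ((Q.Ai i).ε y • w) = _
    rw [smul_comm_k]
    refine Eq.trans (congrArg ((Q.Ai i).ε y • ·) hx) ?_
    show (Q.Ai i).ε y • ((Q.Ai i).ε x • w) = _
    rw [smul_smul, mul_comm]

theorem KiD.exists_sec : ∃ s : ((triv Q.U).res (incA Q (Set.mem_univ i) (Set.mem_univ i))).X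
      →ₗ[(Q.Ai i).A] ((Q.VL Set.univ i 0).res (incA Q (Set.mem_univ i) (Set.mem_univ i))).X,
      ∀ y : (triv Q.U).X, D.S.p (show (Q.VL Set.univ i 0).X from s y) = y := by
  set w := (Q.V Set.univ 0).quotπ (Q.VN Set.univ i 0) (Q.vv Set.univ 0) with hw
  refine ⟨{ toFun := fun y => (tv (show (triv Q.U).X from y)) • w
            map_add' := fun x y => add_smul (tv (show (triv Q.U).X from x))
              (tv (show (triv Q.U).X from y)) w
            map_smul' := fun a y => ?_ }, fun y => ?_⟩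
  · have h1 := Ki_triv (Q := Q) (i := i) a
    rw [← hw] at h1
    have h2 : (incA Q (Set.mem_univ i) (Set.mem_univ i)).f a
        • ((tv (show (triv Q.U).X from y)) • w)
        = (tv (show (triv Q.U).X from y)) • ((Q.Ai i).ε a • w) := by
      rw [smul_comm_k, h1]
    refine Eq.trans ?_ h2.symm
    rw [smul_smul, mul_comm]
    have h3 : Q.U.ε ((incA Q (Set.mem_univ i) (Set.mem_univ i)).f a) = (Q.Ai i).ε a :=
      (incA Q (Set.mem_univ i) (Set.mem_univ i)).f_ε a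
    rw [← h3]
    rfl
  · have h1 : D.S.p (tv y • (show (Q.VL Set.univ i 0).X from w)) = tv y • D.S.p w :=
      map_smulk D.S.p (tv y) (show (Q.VL Set.univ i 0).X from w)
    have h2 : D.S.p w = vt Q.U 1 := (D.S_p _).trans (Q.vε_vv Set.univ)
    refine h1.trans ?_
    rw [h2]
    show vt Q.U (tv y * 1) = y
    rw [mul_one]
    rfl

theorem KiD.lift_four {r : E (triv Q.U)}
    (hr : r ∈ IM.Ei (Set.mem_univ i) (Set.mem_univ i) 4 (trivI Q Set.univ Set.univ i)) :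
    ∃ w ∈ IM.Ei (Set.mem_univ i) (Set.mem_univ i) 3 D.K, Eδ D.S w = r := by
  have h5 : r ∈ EDeg (triv Q.U) (3 + 1) :=
    IM.Ei_le (Set.mem_univ i) (Set.mem_univ i) 4 (trivI Q Set.univ Set.univ i) hr
  have hL : EVan (Q.VL Set.univ i 0) (3 + 1) := by
    obtain ⟨S', hS'i, hS'p⟩ := Q.exists_VL_ses Set.univ (i := i) (Set.mem_univ i) (μ := 0)
      (le_of_eq (Ki_ct Q i).symm)
    exact EVan.quot S' (Q.EVan_NV i (by norm_num)) (Q.EVan_V0 Set.univ (by norm_num))
  obtain ⟨w, hw, rfl⟩ := E_ex_quot D.S h5 (hL _ (Emap_mem D.S.p h5))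
  obtain ⟨a, ha, b, hb, rfl⟩ := IM.Ei_decomp (Set.mem_univ i) (Set.mem_univ i) 1 D.K
    (e := w) (by exact_mod_cast hw)
  refine ⟨a, ha, ?_⟩
  have ha' : Eδ D.S a ∈ IM.Ei (Set.mem_univ i) (Set.mem_univ i) 4
      (trivI Q Set.univ Set.univ i) :=
    IM.Ei_δ (Set.mem_univ i) (Set.mem_univ i) 3 (Y' := D.K) (W := Ki_L Q i)
      (Y := trivI Q Set.univ Set.univ i) D.S D.exists_sec ha
  have hb' : Eδ D.S b ∈ IM.Ei (Set.mem_univ i) (Set.mem_univ i) 2
      (trivI Q Set.univ Set.univ i) :=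
    IM.Ei_δ (Set.mem_univ i) (Set.mem_univ i) 1 (Y' := D.K) (W := Ki_L Q i)
      (Y := trivI Q Set.univ Set.univ i) D.S D.exists_sec hb
  have h6 : (Eδ D.S a - Eδ D.S (a + (X i : MvPolynomial I k) • b))
      + (X i : MvPolynomial I k) • Eδ D.S b = 0 := by
    rw [map_add, map_smul]
    abel
  have h7 := (IM.Ei_direct (Set.mem_univ i) (Set.mem_univ i) 2
    (trivI Q Set.univ Set.univ i) (Submodule.sub_mem _ ha' hr) hb' h6).1
  exact sub_eq_zero.1 h7

/-- `Ei 3` of the `i`-integrable quotient of a Verma module `M(μ)` with `E²(M(μ)) = 0 = E³(M(μ))` -/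
theorem Ei_three_VL {μ : I → ℤ} (hμ : 0 ≤ Q.ct i μ) (h2 : EVan (Q.V Set.univ μ) 2)
    (h3 : EVan (Q.V Set.univ μ) 3) (Y : IM Q Set.univ Set.univ i)
    (hY : Y.M = Q.VL Set.univ i μ) {e : E Y.M}
    (he : e ∈ IM.Ei (Set.mem_univ i) (Set.mem_univ i) 3 Y) : e = 0 := by
  obtain ⟨M, wt, int⟩ := Y
  change M = _ at hY
  subst hY
  have h4 : e ∈ EDeg (Q.VL Set.univ i μ) (2 + 1) :=
    IM.Ei_le (Set.mem_univ i) (Set.mem_univ i) 3 ⟨Q.VL Set.univ i μ, wt, int⟩ he
  have h5 := Ki_van_X (Q := Q) (i := i) hμ (n := 2) (by exact_mod_cast h3) h4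
  exact IM.Ei_X_inj (Set.mem_univ i) (Set.mem_univ i) 3 ⟨Q.VL Set.univ i μ, wt, int⟩ he h5

end Pool.Agent.Lib.QG
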