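import Mathlib

/-!
# MP_021f05_al (G4): exactness of the Koszul complex of a weakly regular sequence
-/

noncomputable section

namespace Pool.Agent.Lib.QG

variable {R : Type} [CommRing R] {n : ℕ}

/-- the Koszul differential on functions on subsets of `Fin n` -/
def kd (f : Fin n → R) (u : Finset (Fin n) → R) : Finset (Fin n) → R :=
  fun S => ∑ j ∈ Sᶜ, (-1) ^ (S.filter (· < j)).card * (f j * u (insert j S))

lemma Kosz_apply (f : Fin n → R) (u : Finset (Fin n) → R) (S : Finset (Fin n)) :
    kd f u S = ∑ j : Fin n, if j ∈ S then 0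
      else (-1) ^ (S.filter (· < j)).card * (f j * u (insert j S)) := by
  unfold kd
  have h : Sᶜ = Finset.univ.filter fun j => j ∉ S := by
    ext j; simp
  rw [h, Finset.sum_filter]
  refine Finset.sum_congr rfl fun j _ => ?_
  by_cases hj : j ∈ S <;> simp [hj]

lemma Kosz_add (f : Fin n → R) (u v : Finset (Fin n) → R) : kd f (u + v) = kd f u + kd f v := by
  funext S
  simp only [kd, Pi.add_apply, mul_add, Finset.sum_add_distrib]

lemma Kosz_sub (f : Fin n → R) (u v : Finset (Fin n) → R) : kd f (u - v) = kd f u - kd f v := by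
  funext S
  simp only [kd, Pi.sub_apply, mul_sub, Finset.sum_sub_distrib]

lemma Kosz_zero (f : Fin n → R) : kd f 0 = 0 := by
  funext S
  simp [kd]

lemma Kosz_sign (S : Finset (Fin n)) {j l : Fin n} (hj : j ∉ S) (hl : l ∉ S) (h : j ≠ l) :
    (-1 : R) ^ (S.filter (· < j)).card * (-1) ^ ((insert j S).filter (· < l)).card
      + (-1 : R) ^ (S.filter (· < l)).card * (-1) ^ ((insert l S).filter (· < j)).card = 0 := by
  rcases lt_or_gt_of_ne h with hlt | hlt
  · have h1 : ((insert j S).filter (· < l)).card = (S.filter (· < l)).card + 1 := by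
      rw [Finset.filter_insert, if_pos hlt, Finset.card_insert_of_notMem]
      simp [hj]
    have h2 : ((insert l S).filter (· < j)).card = (S.filter (· < j)).card := by
      rw [Finset.filter_insert, if_neg (not_lt.2 hlt.le)]
    rw [h1, h2]
    ring
  · have h1 : ((insert j S).filter (· < l)).card = (S.filter (· < l)).card := by
      rw [Finset.filter_insert, if_neg (not_lt.2 hlt.le)]
    have h2 : ((insert l S).filter (· < j)).card = (S.filter (· < j)).card + 1 := by
      rw [Finset.filter_insert, if_pos hlt, Finset.card_insert_of_notMem]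
      simp [hl]
    rw [h1, h2]
    ring

theorem kd_kd (f : Fin n → R) (u : Finset (Fin n) → R) : kd f (kd f u) = 0 := by
  funext S
  rw [Kosz_apply, Pi.zero_apply]
  have h1 : ∀ j : Fin n, (if j ∈ S then 0
      else (-1) ^ (S.filter (· < j)).card * (f j * kd f u (insert j S)))
      = ∑ l : Fin n, if j ∈ S ∨ l ∈ insert j S then 0
        else ((-1 : R) ^ (S.filter (· < j)).card * (-1) ^ ((insert j S).filter (· < l)).card)
          * (f j * f l * u (insert l (insert j S))) := by
    intro j
    by_cases hj : j ∈ S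
    · simp [hj]
    · rw [if_neg hj, Kosz_apply, Finset.mul_sum, Finset.mul_sum]
      refine Finset.sum_congr rfl fun l _ => ?_
      by_cases hl : l ∈ insert j S
      · rw [if_pos hl, if_pos (Or.inr hl), mul_zero, mul_zero]
      · rw [if_neg hl, if_neg (not_or.2 ⟨hj, hl⟩)]
        ring
  rw [Finset.sum_congr rfl fun j _ => h1 j, ← Finset.sum_product']
  refine Finset.sum_involution (fun p _ => (p.2, p.1)) ?_ ?_ ?_ ?_
  · rintro ⟨j, l⟩ -
    dsimp only
    by_cases hj : j ∈ S
    · have : j ∈ insert l S := Finset.mem_insert_of_mem hj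
      rw [if_pos (Or.inl hj), if_pos (Or.inr this), add_zero]
    · by_cases hl : l ∈ S
      · have : l ∈ insert j S := Finset.mem_insert_of_mem hl
        rw [if_pos (Or.inl hl), if_pos (Or.inr this), add_zero]
      · by_cases hjl : j = l
        · subst hjl
          rw [if_pos (Or.inr (Finset.mem_insert_self j S)), add_zero]
        · have e1 : ¬ (j ∈ S ∨ l ∈ insert j S) := by
            simp [hj, hl, Ne.symm hjl]
          have e2 : ¬ (l ∈ S ∨ j ∈ insert l S) := by
            simp [hj, hl, hjl]
          rw [if_neg e1, if_neg e2, Finset.insert_comm j l S, mul_comm (f l) (f j), ← add_mul,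
            Kosz_sign S hj hl hjl, zero_mul]
  · rintro ⟨j, l⟩ - h hcon
    apply h
    have : l = j := congrArg Prod.fst hcon
    subst this
    dsimp only
    rw [if_pos (Or.inr (Finset.mem_insert_self l S))]
  · intro p _
    exact Finset.mem_univ _
  · rintro ⟨j, l⟩ -
    rfl

/-! ### splitting off the last index -/

/-- subsets of `Fin (n + 1)` from subsets of `Fin n` -/
def kzc (S : Finset (Fin n)) : Finset (Fin (n + 1)) := S.map Fin.castSuccEmb

/-- the trace on `Fin n` of a subset of `Fin (n + 1)` -/
def kzT (S : Finset (Fin (n + 1))) : Finset (Fin n) :=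
  Finset.univ.filter fun j => Fin.castSucc j ∈ S

lemma kz_mem_c {S : Finset (Fin n)} {j : Fin n} : Fin.castSucc j ∈ kzc S ↔ j ∈ S := by
  unfold kzc
  exact Finset.mem_map' Fin.castSuccEmb

lemma kz_last (S : Finset (Fin n)) : Fin.last n ∉ kzc S := by
  unfold kzc
  rw [Finset.mem_map]
  rintro ⟨j, -, hj⟩
  exact (Fin.castSucc_lt_last j).ne hj

lemma kzT_c (S : Finset (Fin n)) : kzT (kzc S) = S := by
  ext j
  simp [kzT, kz_mem_c]

lemma kzT_ins (S : Finset (Fin n)) : kzT (insert (Fin.last n) (kzc S)) = S := by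
  ext j
  simp [kzT, kz_mem_c]

lemma kz_cases (S : Finset (Fin (n + 1))) :
    S = kzc (kzT S) ∨ S = insert (Fin.last n) (kzc (kzT S)) := by
  by_cases h : Fin.last n ∈ S
  · right
    ext j
    refine Fin.lastCases ?_ (fun j => ?_) j
    · simp [h]
    · simp [kz_mem_c, kzT, (Fin.castSucc_lt_last j).ne]
  · left
    ext j
    refine Fin.lastCases ?_ (fun j => ?_) j
    · simp [h, kz_last]
    · simp [kz_mem_c, kzT]

lemma kz_ext {u v : Finset (Fin (n + 1)) → R} (h0 : ∀ S, u (kzc S) = v (kzc S))
    (h1 : ∀ S, u (insert (Fin.last n) (kzc S)) = v (insert (Fin.last n) (kzc S))) : u = v := by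
  funext S
  rcases kz_cases S with h | h
  · rw [h]; exact h0 _
  · rw [h]; exact h1 _

/-- the function with given parts -/
def kzmk (a b : Finset (Fin n) → R) : Finset (Fin (n + 1)) → R :=
  fun S => if Fin.last n ∈ S then b (kzT S) else a (kzT S)

lemma kzmk_c (a b : Finset (Fin n) → R) (S : Finset (Fin n)) : kzmk a b (kzc S) = a S := by
  unfold kzmk
  rw [if_neg (kz_last S), kzT_c]

lemma kzmk_ins (a b : Finset (Fin n) → R) (S : Finset (Fin n)) :
    kzmk a b (insert (Fin.last n) (kzc S)) = b S := by
  unfold kzmk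
  rw [if_pos (Finset.mem_insert_self _ _), kzT_ins]

lemma kz_insert (S : Finset (Fin n)) (j : Fin n) :
    insert (Fin.castSucc j) (kzc S) = kzc (insert j S) := by
  unfold kzc
  rw [Finset.map_insert]
  rfl

lemma kz_card (S : Finset (Fin n)) (j : Fin n) :
    ((kzc S).filter (· < Fin.castSucc j)).card = (S.filter (· < j)).card := by
  unfold kzc
  rw [Finset.filter_map, Finset.card_map]
  congr 1

lemma kz_card_last (S : Finset (Fin n)) :
    ((kzc S).filter (· < Fin.last n)).card = S.card := by
  unfold kzc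
  rw [Finset.filter_map, Finset.card_map]
  congr 1
  rw [Finset.filter_eq_self]
  intro j _
  exact Fin.castSucc_lt_last j

lemma kz_card_ins (S : Finset (Fin n)) (j : Fin n) :
    ((insert (Fin.last n) (kzc S)).filter (· < Fin.castSucc j)).card
      = (S.filter (· < j)).card := by
  rw [Finset.filter_insert, if_neg (not_lt.2 (Fin.castSucc_lt_last j).le), kz_card]

lemma Kosz_c (f : Fin (n + 1) → R) (u : Finset (Fin (n + 1)) → R) (S : Finset (Fin n)) :
    kd f u (kzc S) = kd (fun i => f (Fin.castSucc i)) (fun S => u (kzc S)) S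
      + (-1) ^ S.card * (f (Fin.last n) * u (insert (Fin.last n) (kzc S))) := by
  rw [Kosz_apply, Kosz_apply, Fin.sum_univ_castSucc, if_neg (kz_last S), kz_card_last]
  congr 1
  refine Finset.sum_congr rfl fun j _ => ?_
  by_cases hj : j ∈ S
  · rw [if_pos hj, if_pos (kz_mem_c.2 hj)]
  · rw [if_neg hj, if_neg (fun h => hj (kz_mem_c.1 h)), kz_card, kz_insert]

lemma Kosz_ins (f : Fin (n + 1) → R) (u : Finset (Fin (n + 1)) → R) (S : Finset (Fin n)) :
    kd f u (insert (Fin.last n) (kzc S)) = kd (fun i => f (Fin.castSucc i))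
      (fun S => u (insert (Fin.last n) (kzc S))) S := by
  rw [Kosz_apply, Kosz_apply, Fin.sum_univ_castSucc, if_pos (Finset.mem_insert_self _ _), add_zero]
  refine Finset.sum_congr rfl fun j _ => ?_
  have hne : Fin.castSucc j ≠ Fin.last n := (Fin.castSucc_lt_last j).ne
  by_cases hj : j ∈ S
  · rw [if_pos hj, if_pos (Finset.mem_insert_of_mem (kz_mem_c.2 hj))]
  · rw [if_neg hj, if_neg, kz_card_ins, Finset.insert_comm, kz_insert]
    rw [Finset.mem_insert, not_or]
    exact ⟨hne, fun h => hj (kz_mem_c.1 h)⟩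

/-- the function supported on the empty set -/
def kzδ (p : R) : Finset (Fin n) → R := fun S => if S = ∅ then p else 0

lemma kz_single (f g : Fin n → R) :
    kd f (fun S => ∑ j : Fin n, if S = {j} then g j else 0) = kzδ (∑ j, f j * g j) := by
  funext S
  rw [Kosz_apply]
  unfold kzδ
  by_cases hS : S = ∅
  · subst hS
    rw [if_pos rfl]
    refine Finset.sum_congr rfl fun j _ => ?_
    rw [if_neg (Finset.notMem_empty j), Finset.sum_eq_single j]
    · simp
    · intro l _ hl
      rw [if_neg]
      intro h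
      rw [Finset.insert_empty] at h
      exact hl (Finset.singleton_injective h).symm
    · intro h
      exact absurd (Finset.mem_univ j) h
  · rw [if_neg hS]
    refine Finset.sum_eq_zero fun j _ => ?_
    by_cases hj : j ∈ S
    · rw [if_pos hj]
    · rw [if_neg hj, Finset.sum_eq_zero, mul_zero, mul_zero]
      intro l _
      rw [if_neg]
      intro h
      apply hS
      have h1 : (insert j S).card = 1 := by rw [h, Finset.card_singleton]
      rw [Finset.card_insert_of_notMem hj] at h1
      exact Finset.card_eq_zero.1 (by omega)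

lemma Kosz_empty (f : Fin n → R) (u : Finset (Fin n) → R) :
    kd f u ∅ = ∑ j, f j * u {j} := by
  rw [Kosz_apply]
  refine Finset.sum_congr rfl fun j _ => ?_
  rw [if_neg (Finset.notMem_empty j), Finset.filter_empty, Finset.card_empty, pow_zero, one_mul,
    Finset.insert_empty]

lemma kz_mem_ofList (f : Fin n → R) (p : R) :
    p ∈ Ideal.ofList (List.ofFn f) ↔ ∃ g : Fin n → R, p = ∑ j, f j * g j := by
  have h : Ideal.ofList (List.ofFn f) = Ideal.span (Set.range f) := by
    unfold Ideal.ofList
    congr 1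
    ext r
    simp [List.mem_ofFn]
  rw [h]
  constructor
  · intro hp
    obtain ⟨g, hg⟩ := (Ideal.mem_span_range_iff_exists_fun).1 hp
    refine ⟨g, ?_⟩
    rw [← hg]
    exact Finset.sum_congr rfl fun j _ => mul_comm _ _
  · rintro ⟨g, rfl⟩
    refine Ideal.sum_mem _ fun j _ => ?_
    exact Ideal.mul_mem_right _ _ (Ideal.subset_span ⟨j, rfl⟩)

lemma kz_regular (f : Fin (n + 1) → R)
    (h : RingTheory.Sequence.IsWeaklyRegular R (List.ofFn f)) :
    RingTheory.Sequence.IsWeaklyRegular R (List.ofFn fun i => f (Fin.castSucc i)) ∧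
      ∀ p : R, f (Fin.last n) * p ∈ Ideal.ofList (List.ofFn fun i => f (Fin.castSucc i)) →
        p ∈ Ideal.ofList (List.ofFn fun i => f (Fin.castSucc i)) := by
  rw [List.ofFn_succ', List.concat_eq_append,
    RingTheory.Sequence.isWeaklyRegular_append_iff] at h
  refine ⟨h.1, fun p hp => ?_⟩
  have h2 := (RingTheory.Sequence.isWeaklyRegular_singleton_iff _ _).1 h.2
  set J := Ideal.ofList (List.ofFn fun i => f (Fin.castSucc i)) with hJ
  have hJ' : (J • ⊤ : Submodule R R) = J := by
    rw [smul_eq_mul, Ideal.mul_top]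
  have h3 : f (Fin.last n) • (Submodule.Quotient.mk p : R ⧸ (J • ⊤ : Submodule R R)) =
      f (Fin.last n) • (Submodule.Quotient.mk 0 : R ⧸ (J • ⊤ : Submodule R R)) := by
    rw [← Submodule.Quotient.mk_smul, ← Submodule.Quotient.mk_smul, smul_zero,
      Submodule.Quotient.eq, sub_zero, hJ']
    exact hp
  have h4 := h2 h3
  rw [Submodule.Quotient.eq, sub_zero, hJ'] at h4
  exact h4

/-- the Koszul complex of a weakly regular sequence is exact in positive degrees -/
theorem kosz_exact (f : Fin n → R)
    (h : RingTheory.Sequence.IsWeaklyRegular R (List.ofFn f)) (u : Finset (Fin n) → R)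
    (hu : kd f u = 0) :
    ∃ (v : Finset (Fin n) → R) (p : R), u = kd f v + fun S => if S = ∅ then p else 0 := by
  induction n with
  | zero =>
    refine ⟨0, u ∅, ?_⟩
    rw [Kosz_zero, zero_add]
    funext S
    have hS : S = ∅ := Finset.eq_empty_of_isEmpty S
    rw [hS, if_pos rfl]
  | succ n ih =>
    obtain ⟨h1, h2⟩ := kz_regular f h
    set f' : Fin n → R := fun i => f (Fin.castSucc i) with hf'
    have hu1 : kd f' (fun S => u (insert (Fin.last n) (kzc S))) = 0 := by
      funext S
      rw [← Kosz_ins, hu]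
      rfl
    obtain ⟨v1, p, hv1⟩ := ih f' h1 _ hu1
    have hp : p ∈ Ideal.ofList (List.ofFn f') := by
      apply h2
      have e1 := congrFun hu (kzc ∅)
      rw [Kosz_c, Finset.card_empty, pow_zero, one_mul, Pi.zero_apply] at e1
      have e2 : u (insert (Fin.last n) (kzc ∅)) = kd f' v1 ∅ + p := by
        have := congrFun hv1 ∅
        rw [Pi.add_apply, if_pos rfl] at this
        exact this
      rw [e2, mul_add, ← add_assoc] at e1
      rw [eq_neg_of_add_eq_zero_right e1]
      refine neg_mem (add_mem ?_ (Ideal.mul_mem_left _ _ ?_))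
      · rw [Kosz_empty]
        exact (kz_mem_ofList f' _).2 ⟨_, rfl⟩
      · rw [Kosz_empty]
        exact (kz_mem_ofList f' _).2 ⟨_, rfl⟩
    obtain ⟨g, hg⟩ := (kz_mem_ofList f' p).1 hp
    set w : Finset (Fin n) → R := fun S => ∑ j : Fin n, if S = {j} then g j else 0 with hw
    have hw1 : kd f' w = kzδ p := by rw [hw, kz_single, hg]
    have hv2 : (fun S => u (insert (Fin.last n) (kzc S))) = kd f' (v1 + w) := by
      rw [Kosz_add, hw1, hv1]
      rfl
    set V : Finset (Fin (n + 1)) → R := kzmk 0 (v1 + w) with hV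
    have hV1 : ∀ S, V (insert (Fin.last n) (kzc S)) = (v1 + w) S := fun S => kzmk_ins _ _ S
    have hu2 : ∀ S, (u - kd f V) (insert (Fin.last n) (kzc S)) = 0 := by
      intro S
      rw [Pi.sub_apply, Kosz_ins, congrFun hv2 S]
      have : (fun S => V (insert (Fin.last n) (kzc S))) = v1 + w := funext hV1
      rw [this, sub_self]
    have hu3 : kd f (u - kd f V) = 0 := by rw [Kosz_sub, hu, kd_kd, sub_self]
    have hu4 : kd f' (fun S => (u - kd f V) (kzc S)) = 0 := by
      funext S
      have e1 := congrFun hu3 (kzc S)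
      rw [Kosz_c, hu2, mul_zero, mul_zero, add_zero] at e1
      exact e1
    obtain ⟨v0, q, hv0⟩ := ih f' h1 _ hu4
    refine ⟨V + kzmk v0 0, q, ?_⟩
    have e2 : u - kd f V = kd f (kzmk v0 0) + fun S => if S = ∅ then q else 0 := by
      refine kz_ext (fun S => ?_) (fun S => ?_)
      · have e3 := congrFun hv0 S
        rw [e3, Pi.add_apply, Pi.add_apply, Kosz_c, kzmk_ins, Pi.zero_apply, mul_zero, mul_zero,
          add_zero]
        have e4 : (fun S => kzmk v0 0 (kzc S)) = v0 := funext fun S => kzmk_c v0 0 S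
        rw [e4]
        congr 1
        have e5 : kzc S = ∅ ↔ S = ∅ := by
          unfold kzc
          exact Finset.map_eq_empty
        by_cases hS : S = ∅
        · rw [if_pos hS, if_pos (e5.2 hS)]
        · rw [if_neg hS, if_neg (fun h => hS (e5.1 h))]
      · rw [hu2, Pi.add_apply, Kosz_ins, if_neg (Finset.insert_ne_empty _ _), add_zero]
        have e4 : (fun S => kzmk v0 0 (insert (Fin.last n) (kzc S))) = 0 :=
          funext fun S => kzmk_ins v0 0 S
        rw [e4, Kosz_zero]
        rfl
    rw [Kosz_add, add_assoc, ← e2]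
    abel

end Pool.Agent.Lib.QG
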