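import Pool.Agent.Lib.MP_021f05_al.PureD
import Pool.Agent.Lib.MP_021f05_al.Kosz

/-!
# MP_021f05_al (G5): the map from the Koszul complex to the cochains
-/

noncomputable section

namespace Pool.Agent.Lib.QG

open MvPolynomial

namespace PC

variable {k : Type} [Field k] {I : Type} {T : TAlg k I} {R : Type} [CommRing R] [Algebra k R]
  {r : ℕ}

/-- the ordered product of the cochains `β j`, `j ∈ S` -/
def cupS (β : Fin r → (List T.A → R)) (S : Finset (Fin r)) : List T.A → R :=
  ((S.sort (· ≤ ·)).map β).foldr (cup T) (unit T R)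

/-- the map from the Koszul complex -/
def Psi (β : Fin r → (List T.A → R)) (u : Finset (Fin r) → R) : List T.A → R :=
  ∑ S, u S • cupS β S

omit [Algebra k R] in
lemma kos_cup_nil (f g : List T.A → R) : cup T f g [] = f [] * g [] := rfl

omit [Algebra k R] in
lemma kos_cup_cons (f g : List T.A → R) (a : T.A) (l : List T.A) :
    cup T f g (a :: l) = f [] * g (a :: l) + cup T (fun l' => f (a :: l')) g l := rfl

omit [Algebra k R] in
lemma kos_cup_add (f f' g : List T.A → R) (l : List T.A) :
    cup T (fun l => f l + f' l) g l = cup T f g l + cup T f' g l := by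
  induction l generalizing f f' with
  | nil => simp only [kos_cup_nil]; ring
  | cons a l ih =>
    simp only [kos_cup_cons]
    rw [ih (fun l' => f (a :: l')) (fun l' => f' (a :: l'))]
    ring

lemma kos_cup_smul (t : k) (f g : List T.A → R) (l : List T.A) :
    cup T (fun l => t • f l) g l = t • cup T f g l := by
  induction l generalizing f with
  | nil => simp only [kos_cup_nil, smul_mul_assoc]
  | cons a l ih =>
    simp only [kos_cup_cons]
    rw [ih (fun l' => f (a :: l')), smul_add, smul_mul_assoc]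

lemma kos_tl_ml {f : List T.A → R} (hf : IsML T f) (c : T.A) : IsML T (fun l => f (c :: l)) :=
  ⟨fun l₁ l₂ a b => hf.1 (c :: l₁) l₂ a b, fun l₁ l₂ t a => hf.2 (c :: l₁) l₂ t a⟩

lemma kos_cup_ml {f g : List T.A → R} (hf : IsML T f) (hg : IsML T g) : IsML T (cup T f g) := by
  constructor
  · intro l₁ l₂ a b
    induction l₁ generalizing f with
    | nil =>
      simp only [List.nil_append, kos_cup_cons]
      have h1 : (fun l' => f ((a + b) :: l')) = fun l' => f (a :: l') + f (b :: l') := by
        funext l'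
        exact hf.1 [] l' a b
      have h2 : g ((a + b) :: l₂) = g (a :: l₂) + g (b :: l₂) := hg.1 [] l₂ a b
      rw [h1, h2, kos_cup_add]
      ring
    | cons c l₁ ih =>
      simp only [List.cons_append, kos_cup_cons]
      have h2 : g (c :: (l₁ ++ (a + b) :: l₂)) = g (c :: (l₁ ++ a :: l₂)) + g (c :: (l₁ ++ b :: l₂)) :=
        hg.1 (c :: l₁) l₂ a b
      rw [ih (kos_tl_ml hf c), h2]
      ring
  · intro l₁ l₂ t a
    induction l₁ generalizing f with
    | nil =>
      simp only [List.nil_append, kos_cup_cons]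
      have h1 : (fun l' => f ((t • a) :: l')) = fun l' => t • f (a :: l') := by
        funext l'
        exact hf.2 [] l' t a
      have h2 : g ((t • a) :: l₂) = t • g (a :: l₂) := hg.2 [] l₂ t a
      rw [h1, h2, kos_cup_smul, smul_add, mul_smul_comm]
    | cons c l₁ ih =>
      simp only [List.cons_append, kos_cup_cons]
      have h2 : g (c :: (l₁ ++ (t • a) :: l₂)) = t • g (c :: (l₁ ++ a :: l₂)) :=
        hg.2 (c :: l₁) l₂ t a
      rw [ih (kos_tl_ml hf c), h2, smul_add, mul_smul_comm]

omit [Algebra k R] in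
lemma kos_cup_inv (i : I) {f f' g : List T.A → R} (hf : ∀ l, f' (l.map (T.adi i)) = f l)
    (hg : ∀ l, g (l.map (T.adi i)) = g l) (l : List T.A) :
    cup T f' g (l.map (T.adi i)) = cup T f g l := by
  induction l generalizing f f' with
  | nil =>
    rw [List.map_nil, kos_cup_nil, kos_cup_nil]
    have := hf []
    rw [List.map_nil] at this
    rw [this]
  | cons a l ih =>
    have h0 := hf []
    rw [List.map_nil] at h0
    have h1 := hg (a :: l)
    rw [List.map_cons] at h1
    rw [List.map_cons, kos_cup_cons, kos_cup_cons, h0, h1]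
    rw [ih (f := fun l' => f (a :: l')) (f' := fun l' => f' (T.adi i a :: l'))
      (fun l' => hf (a :: l'))]

lemma kos_cup_mem {f g : List T.A → R} (hf : f ∈ Coc T R) (hg : g ∈ Coc T R) :
    cup T f g ∈ Coc T R :=
  ⟨kos_cup_ml hf.1 hg.1, fun i l => kos_cup_inv i (hf.2 i) (hg.2 i) l⟩

lemma kos_unit_mem : unit T R ∈ Coc T R := by
  refine ⟨⟨fun l₁ l₂ a b => ?_, fun l₁ l₂ t a => ?_⟩, fun i l => ?_⟩
  · cases l₁ <;> simp [unit]
  · cases l₁ <;> simp [unit]
  · cases l <;> simp [unit]

theorem cupS_mem {β : Fin r → (List T.A → R)} (h : ∀ j, β j ∈ Coc T R) (S : Finset (Fin r)) :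
    cupS β S ∈ Coc T R := by
  unfold cupS
  generalize S.sort (· ≤ ·) = L
  induction L with
  | nil => exact kos_unit_mem
  | cons a L ih => exact kos_cup_mem (h a) ih

lemma kos_gc_mul {σ : Type} {m n : ℤ} {p q : MvPolynomial σ k} (hp : gc m p = p)
    (hq : gc n q = q) : gc (m + n) (p * q) = p * q := by
  rcases gc_cases m with ⟨d, rfl⟩ | hm
  · rcases gc_cases n with ⟨e, rfl⟩ | hn
    · rw [gc_even] at hp hq
      have h1 : p.IsHomogeneous d := hp ▸ homogeneousComponent_isHomogeneous d p
      have h2 : q.IsHomogeneous e := hq ▸ homogeneousComponent_isHomogeneous e q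
      have h3 : (2 * (d : ℤ) + 2 * (e : ℤ)) = 2 * ((d + e : ℕ) : ℤ) := by push_cast; ring
      rw [h3, gc_even, homogeneousComponent_of_mem (h1.mul h2), if_pos rfl]
    · rw [gc_of_not hn] at hq
      rw [← hq, mul_zero, map_zero]
  · rw [gc_of_not hm] at hp
    rw [← hp, zero_mul, map_zero]

lemma kos_cup_hom {σ : Type} {m n : ℤ} {f g : List T.A → MvPolynomial σ k} (hf : Hom T m f)
    (hg : Hom T n g) : Hom T (m + n) (cup T f g) := by
  intro l
  induction l generalizing f m with
  | nil =>
    have h1 := hf []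
    have h2 := hg []
    simp only [List.length_nil, Nat.cast_zero, sub_zero] at h1 h2 ⊢
    exact kos_gc_mul h1 h2
  | cons a l ih =>
    rw [kos_cup_cons, map_add]
    congr 1
    · have h1 := hf []
      have h2 := hg (a :: l)
      simp only [List.length_nil, Nat.cast_zero, sub_zero] at h1
      have h3 := kos_gc_mul h1 h2
      rwa [← add_sub_assoc] at h3
    · have h1 : Hom T (m - 1) (fun l' => f (a :: l')) := by
        intro l'
        have h2 := hf (a :: l')
        rw [List.length_cons] at h2
        have h3 : m - ((l'.length + 1 : ℕ) : ℤ) = m - 1 - (l'.length : ℤ) := by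
          push_cast; ring
        rwa [h3] at h2
      have h2 := ih h1
      have h3 : m - 1 + n - (l.length : ℤ) = m + n - ((a :: l).length : ℤ) := by
        rw [List.length_cons]; push_cast; ring
      rwa [h3] at h2

lemma kos_unit_hom {σ : Type} : Hom T 0 (unit T (MvPolynomial σ k)) := by
  intro l
  cases l with
  | nil =>
    show gc (0 - (([] : List T.A).length : ℤ)) (1 : MvPolynomial σ k) = 1
    rw [List.length_nil]
    have h3 : (0 : ℤ) - ((0 : ℕ) : ℤ) = 2 * ((0 : ℕ) : ℤ) := by simp
    rw [h3, gc_even, homogeneousComponent_of_mem (isHomogeneous_one σ k), if_pos rfl]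
  | cons a l =>
    show gc _ (0 : MvPolynomial σ k) = 0
    rw [map_zero]

theorem cupS_hom {σ : Type} {β : Fin r → (List T.A → MvPolynomial σ k)} {e : Fin r → ℤ}
    (h : ∀ j, Hom T (e j) (β j)) (S : Finset (Fin r)) : Hom T (∑ j ∈ S, e j) (cupS β S) := by
  have h1 : ∑ j ∈ S, e j = ((S.sort (· ≤ ·)).map e).sum := by
    rw [Finset.sum_eq_multiset_sum]
    rw [← Finset.sort_eq S (· ≤ ·), Multiset.map_coe, Multiset.sum_coe]
  rw [h1]
  unfold cupS
  generalize S.sort (· ≤ ·) = L
  induction L with
  | nil => exact kos_unit_hom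
  | cons a L ih =>
    rw [List.map_cons, List.map_cons, List.sum_cons, List.foldr_cons]
    exact kos_cup_hom (h a) ih

lemma kos_bc_cup {R' : Type} [CommRing R'] [Algebra k R'] (φ : R →ₐ[k] R')
    (f g : List T.A → R) : bc T φ (cup T f g) = cup T (bc T φ f) (bc T φ g) := by
  funext l
  induction l generalizing f with
  | nil => exact map_mul φ _ _
  | cons a l ih =>
    show φ (cup T f g (a :: l)) = _
    rw [kos_cup_cons, kos_cup_cons, map_add, map_mul]
    congr 1
    exact ih (fun l' => f (a :: l'))

lemma kos_bc_unit {R' : Type} [CommRing R'] [Algebra k R'] (φ : R →ₐ[k] R') :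
    bc T φ (unit T R) = unit T R' := by
  funext l
  cases l with
  | nil => exact map_one φ
  | cons a l => exact map_zero φ

theorem bc_cupS {R' : Type} [CommRing R'] [Algebra k R'] (φ : R →ₐ[k] R')
    (β : Fin r → (List T.A → R)) (S : Finset (Fin r)) :
    bc T φ (cupS β S) = cupS (fun j => bc T φ (β j)) S := by
  unfold cupS
  generalize S.sort (· ≤ ·) = L
  induction L with
  | nil => exact kos_bc_unit φ
  | cons a L ih =>
    rw [List.map_cons, List.map_cons, List.foldr_cons, List.foldr_cons, kos_bc_cup, ih]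

theorem bc_Psi {R' : Type} [CommRing R'] [Algebra k R'] (φ : R →ₐ[k] R')
    (β : Fin r → (List T.A → R)) (u : Finset (Fin r) → R) :
    bc T φ (Psi β u) = Psi (fun j => bc T φ (β j)) (fun S => φ (u S)) := by
  funext l
  show φ (Psi β u l) = _
  unfold Psi
  rw [Finset.sum_apply, Finset.sum_apply, map_sum]
  refine Finset.sum_congr rfl fun S _ => ?_
  rw [Pi.smul_apply, Pi.smul_apply, smul_eq_mul, smul_eq_mul, map_mul, ← bc_cupS]
  rfl

omit [Algebra k R] in
lemma kos_cupS_insert (β : Fin r → (List T.A → R)) {a : Fin r} {S : Finset (Fin r)}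
    (h : ∀ x ∈ S, a < x) : cupS β (insert a S) = cup T (β a) (cupS β S) := by
  unfold cupS
  rw [Finset.sort_insert (· ≤ ·) (fun b hb => (h b hb).le) (fun ha => lt_irrefl a (h a ha)),
    List.map_cons, List.foldr_cons]

variable [Fintype I]

lemma kos_cup_zero_right (f : List T.A → R) : cup T f 0 = 0 := by
  have := cup_smul_right (T := T) (0 : R) f 0
  rwa [smul_zero, zero_smul] at this

lemma kos_cup_sum_right {ι : Type} (s : Finset ι) (f : List T.A → R) (g : ι → List T.A → R) :
    cup T f (∑ i ∈ s, g i) = ∑ i ∈ s, cup T f (g i) := by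
  classical
  induction s using Finset.induction_on with
  | empty => rw [Finset.sum_empty, Finset.sum_empty, kos_cup_zero_right]
  | insert a s ha ih => rw [Finset.sum_insert ha, Finset.sum_insert ha, cup_add_right, ih]

lemma kos_D_sum {ξ : I → R} {ι : Type} (s : Finset ι) (g : ι → List T.A → R) :
    D T ξ (∑ i ∈ s, g i) = ∑ i ∈ s, D T ξ (g i) := by
  classical
  induction s using Finset.induction_on with
  | empty =>
    rw [Finset.sum_empty, Finset.sum_empty]
    have := D_smul (T := T) (ξ := ξ) (0 : R) 0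
    rwa [smul_zero, zero_smul] at this
  | insert a s ha ih => rw [Finset.sum_insert ha, Finset.sum_insert ha, D_add, ih]

theorem D_cupS {ξ : I → R} {β : Fin r → (List T.A → R)} (h : ∀ j, β j ∈ Coc T R)
    (f : Fin r → R) (hβ : ∀ j, D T ξ (β j) = f j • unit T R) (hs : ∀ j, sg T (β j) = - β j)
    (S : Finset (Fin r)) :
    D T ξ (cupS β S) = ∑ j ∈ S, ((-1) ^ (S.filter (· < j)).card * f j) • cupS β (S.erase j) := by
  induction S using Finset.induction_on_min with
  | empty =>
    have h0 : cupS β ∅ = unit T R := by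
      unfold cupS
      rw [Finset.sort_empty, List.map_nil, List.foldr_nil]
    rw [Finset.sum_empty, h0, D_unit]
  | insert a S ha ih =>
    have haS : a ∉ S := fun h' => lt_irrefl a (ha a h')
    rw [kos_cupS_insert β ha, D_cup (h a) (cupS_mem h S), hβ, hs, cup_smul_left, unit_cup, ih,
      kos_cup_sum_right, Finset.sum_insert haS, Finset.erase_insert haS]
    congr 1
    · have h1 : (insert a S).filter (· < a) = ∅ := by
        rw [Finset.filter_eq_empty_iff]
        intro x hx
        rcases Finset.mem_insert.1 hx with rfl | hx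
        · exact lt_irrefl _
        · exact not_lt.2 (ha x hx).le
      rw [h1, Finset.card_empty, pow_zero, one_mul]
    · refine Finset.sum_congr rfl fun j hj => ?_
      have haj : a < j := ha j hj
      have h1 : (insert a S).filter (· < j) = insert a (S.filter (· < j)) := by
        rw [Finset.filter_insert, if_pos haj]
      have h2 : a ∉ S.filter (· < j) := fun h' => haS (Finset.mem_filter.1 h').1
      have h3 : (insert a S).erase j = insert a (S.erase j) := by
        rw [Finset.erase_insert_of_ne haj.ne]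
      rw [h1, Finset.card_insert_of_notMem h2, h3,
        kos_cupS_insert β (fun x hx => ha x (Finset.mem_of_mem_erase hx)), cup_smul_right]
      have h4 : (- β a : List T.A → R) = (-1 : R) • β a := by rw [neg_smul, one_smul]
      rw [h4, cup_smul_left, smul_smul]
      congr 1
      ring

/-- `Ψ` is a map of complexes -/
theorem D_Psi {ξ : I → R} {β : Fin r → (List T.A → R)} (h : ∀ j, β j ∈ Coc T R)
    (f : Fin r → R) (hβ : ∀ j, D T ξ (β j) = f j • unit T R) (hs : ∀ j, sg T (β j) = - β j)
    (u : Finset (Fin r) → R) : D T ξ (Psi β u) = Psi β (kd f u) := by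
  unfold Psi
  rw [kos_D_sum]
  have h1 : ∀ S : Finset (Fin r), D T ξ (u S • cupS β S)
      = ∑ j ∈ S, (u S * ((-1) ^ (S.filter (· < j)).card * f j)) • cupS β (S.erase j) := by
    intro S
    rw [D_smul, D_cupS h f hβ hs, Finset.smul_sum]
    exact Finset.sum_congr rfl fun j _ => smul_smul _ _ _
  have h2 : ∀ S : Finset (Fin r), kd f u S • cupS β S
      = ∑ j ∈ Sᶜ, ((-1) ^ (S.filter (· < j)).card * (f j * u (insert j S))) • cupS β S := by
    intro S
    unfold kd
    rw [Finset.sum_smul]
  rw [Finset.sum_congr rfl fun S _ => h1 S, Finset.sum_congr rfl fun S _ => h2 S]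
  rw [Finset.sum_sigma', Finset.sum_sigma']
  refine Finset.sum_bij' (fun p _ => ⟨p.1.erase p.2, p.2⟩) (fun p _ => ⟨insert p.2 p.1, p.2⟩)
    ?_ ?_ ?_ ?_ ?_
  · rintro ⟨S, j⟩ hp
    simp only [Finset.mem_sigma, Finset.mem_univ, true_and] at hp ⊢
    rw [Finset.mem_compl]
    exact Finset.notMem_erase j S
  · rintro ⟨S, j⟩ hp
    simp only [Finset.mem_sigma, Finset.mem_univ, true_and] at hp ⊢
    exact Finset.mem_insert_self j S
  · rintro ⟨S, j⟩ hp
    simp only [Finset.mem_sigma, Finset.mem_univ, true_and] at hp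
    simp only [Finset.insert_erase hp]
  · rintro ⟨S, j⟩ hp
    simp only [Finset.mem_sigma, Finset.mem_univ, true_and, Finset.mem_compl] at hp
    simp only [Finset.erase_insert hp]
  · rintro ⟨S, j⟩ hp
    simp only [Finset.mem_sigma, Finset.mem_univ, true_and] at hp
    dsimp only
    have h3 : (S.erase j).filter (· < j) = S.filter (· < j) := by
      ext x
      simp only [Finset.mem_filter, Finset.mem_erase]
      constructor
      · rintro ⟨⟨_, hx⟩, hlt⟩
        exact ⟨hx, hlt⟩
      · rintro ⟨hx, hlt⟩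
        exact ⟨⟨hlt.ne, hx⟩, hlt⟩
    rw [h3, Finset.insert_erase hp]
    congr 1
    ring

/-- acyclicity of the mapping cone of `Ψ`, for the polynomial ring in the variables `J` -/
def QI (T : TAlg k I) (J : Set I) (f : Fin r → MvPolynomial J k)
    (β : Fin r → (List T.A → MvPolynomial J k)) (e : Fin r → ℤ) : Prop :=
  ∀ (n : ℤ) (c : List T.A → MvPolynomial J k) (u : Finset (Fin r) → MvPolynomial J k),
    c ∈ Coc T (MvPolynomial J k) → Hom T n c → (∀ S, gc (n + 1 - ∑ j ∈ S, e j) (u S) = u S) →
    D T (xJ k J) c = Psi β u → kd f u = 0 →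
    ∃ (v : Finset (Fin r) → MvPolynomial J k) (c' : List T.A → MvPolynomial J k),
      (∀ S, gc (n - ∑ j ∈ S, e j) (v S) = v S) ∧ c' ∈ Coc T (MvPolynomial J k) ∧
      Hom T (n - 1) c' ∧ kd f v = u ∧ c = Psi β v + D T (xJ k J) c'

end PC

end Pool.Agent.Lib.QG
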