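import Pool.Agent.Lib.MP_021f05_al.Ident
import Pool.Agent.Lib.MP_021f05_al.PureDef

/-!
# MP_021f05_al (G2): the differential graded algebra of cochains
-/

noncomputable section

namespace Pool.Agent.Lib.QG

open MvPolynomial

namespace PC

variable {k : Type} [Field k] {I : Type} [Fintype I] {T : TAlg k I} {R : Type} [CommRing R]
  [Algebra k R] {ξ : I → R}


/-! ### elementary identities -/

section ident

open TAlg

omit [Fintype I]

/-- the torus action on cochains -/
def pd_c (T : TAlg k I) (i : I) (f : List T.A → R) : List T.A → R := fun l => f (l.map (T.adi i))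

/-- `dd` as an operator -/
def pd_ddf (T : TAlg k I) (f : List T.A → R) : List T.A → R := fun l => dd T l f

/-- the first face -/
def pd_ef (T : TAlg k I) (f : List T.A → R) : List T.A → R
  | [] => 0
  | a :: l => T.ε a • f l

lemma pd_tl_add (f g : List T.A → R) (a : T.A) : tl T (f + g) a = tl T f a + tl T g a := rfl
lemma pd_tl_smul (p : R) (f : List T.A → R) (a : T.A) : tl T (p • f) a = p • tl T f a := rfl
lemma pd_tl_neg (f : List T.A → R) (a : T.A) : tl T (-f) a = - tl T f a := rfl
lemma pd_tl_sub (f g : List T.A → R) (a : T.A) : tl T (f - g) a = tl T f a - tl T g a := rfl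

lemma pd_act_add (f g : List T.A → R) (a : T.A) : act T (f + g) a = act T f a + act T g a := by
  funext l; cases l <;> simp [act]

lemma pd_act_smul (p : R) (f : List T.A → R) (a : T.A) : act T (p • f) a = p • act T f a := by
  funext l; cases l <;> simp [act]

lemma pd_dd_add (l : List T.A) (f g : List T.A → R) :
    dd T l (f + g) = dd T l f + dd T l g := by
  induction l generalizing f g with
  | nil => simp [dd]
  | cons a l ih =>
    simp only [dd, pd_tl_add, ih, pd_act_add, Pi.add_apply]
    abel

lemma pd_dd_smul (l : List T.A) (p : R) (f : List T.A → R) :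
    dd T l (p • f) = p • dd T l f := by
  induction l generalizing f with
  | nil => simp [dd]
  | cons a l ih =>
    simp only [dd, pd_tl_smul, ih, pd_act_smul, Pi.smul_apply, smul_sub, smul_neg]

lemma pd_hh_add (i : I) (l : List T.A) (f g : List T.A → R) :
    hh T i l (f + g) = hh T i l f + hh T i l g := by
  induction l generalizing f g with
  | nil => simp [hh]
  | cons a l ih =>
    simp only [hh, pd_tl_add, ih, Pi.add_apply]
    abel

lemma pd_hh_smul (i : I) (l : List T.A) (p : R) (f : List T.A → R) :
    hh T i l (p • f) = p • hh T i l f := by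
  induction l generalizing f with
  | nil => simp [hh]
  | cons a l ih =>
    simp only [hh, pd_tl_smul, ih, Pi.smul_apply, smul_sub]

lemma pd_dd_neg (l : List T.A) (f : List T.A → R) : dd T l (-f) = - dd T l f := by
  have := pd_dd_smul l (-1) f
  simpa using this

lemma pd_dd_sub (l : List T.A) (f g : List T.A → R) :
    dd T l (f - g) = dd T l f - dd T l g := by
  rw [sub_eq_add_neg, pd_dd_add, pd_dd_neg, ← sub_eq_add_neg]

lemma pd_hh_neg (i : I) (l : List T.A) (f : List T.A → R) : hh T i l (-f) = - hh T i l f := by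
  have := pd_hh_smul i l (-1) f
  simpa using this

lemma pd_hh_sub (i : I) (l : List T.A) (f g : List T.A → R) :
    hh T i l (f - g) = hh T i l f - hh T i l g := by
  rw [sub_eq_add_neg, pd_hh_add, pd_hh_neg, ← sub_eq_add_neg]

lemma pd_smulk (t : k) (f : List T.A → R) : t • f = (algebraMap k R t) • f :=
  (algebraMap_smul R t f).symm

lemma pd_smul_dd (t : k) (l : List T.A) (f : List T.A → R) :
    dd T l (t • f) = t • dd T l f := by
  rw [pd_smulk, pd_dd_smul, algebraMap_smul]

lemma pd_hh_smulk (i : I) (t : k) (l : List T.A) (f : List T.A → R) :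
    hh T i l (t • f) = t • hh T i l f := by
  rw [pd_smulk, pd_hh_smul, algebraMap_smul]

lemma pd_tl_c (i : I) (f : List T.A → R) (a : T.A) :
    tl T (pd_c T i f) a = pd_c T i (tl T f (T.adi i a)) := by
  funext l'; simp [pd_c, tl]

lemma pd_tl_h (i : I) (f : List T.A → R) (a : T.A) :
    tl T (h T i f) a = pd_c T i (tl T (tl T f (T.K i : T.A)) (T.adi i a)) - h T i (tl T f a) := by
  funext l'; simp [h, hh, pd_c, tl]

lemma pd_tl_act (f : List T.A → R) (a a' : T.A) : tl T (act T f a) a' = tl T f (a * a') := by
  funext l'; simp [act, tl]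

lemma pd_tl_ddf (f : List T.A → R) (a : T.A) :
    tl T (pd_ddf T f) a = - act T f a - pd_ddf T (tl T f a) := by
  funext l'; simp [pd_ddf, dd, tl]

lemma pd_dd_c (i : I) (l : List T.A) (f : List T.A → R) :
    dd T l (pd_c T i f) = dd T (l.map (T.adi i)) f := by
  induction l generalizing f with
  | nil => simp [dd]
  | cons a l ih =>
    simp only [dd, List.map_cons, pd_tl_c, ih]
    congr 2
    cases l with
    | nil => simp [act, pd_c, ε_adi]
    | cons a' l => simp [act, pd_c]

lemma pd_hh_c (i j : I) (l : List T.A) (f : List T.A → R) :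
    hh T j l (pd_c T i f) = hh T j (l.map (T.adi i)) f := by
  induction l generalizing f with
  | nil => simp only [hh, pd_c, List.map_cons, List.map_nil, adi_K]
  | cons a l ih =>
    simp only [hh, List.map_cons, pd_tl_c, ih]
    congr 1
    simp only [pd_c, List.map_cons, List.map_map, adi_K]
    congr 2
    rw [adi_comm]
    congr 2
    funext x
    exact adi_comm i j x

lemma pd_dd_hh (i : I) (l : List T.A) (f : List T.A → R) :
    dd T l (h T i f) + hh T i l (pd_ddf T f) = - f l := by
  induction l generalizing f with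
  | nil =>
    simp only [dd, hh, zero_add, pd_ddf, act, sub_zero]
    rw [T.ε_K, one_smul]
  | cons a l ih =>
    have ih' := ih (tl T f a)
    have key : - act T (h T i f) a l - (act T f (T.K i : T.A) (T.adi i a :: l.map (T.adi i)))
        + (act T (tl T f (T.K i : T.A)) (T.adi i a) (l.map (T.adi i)))
        + hh T i l (act T f a) = 0 := by
      cases l with
      | nil =>
        simp only [act, h, hh, List.map_nil, K_mul_adi, tl, ε_adi]
        abel
      | cons a' l =>
        simp only [act, h, hh, List.map_cons, K_mul_adi, map_mul, pd_tl_act, tl]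
        abel
    have e1 : hh T i (a :: l) (pd_ddf T f) =
        (- act T f (T.K i : T.A) (T.adi i a :: l.map (T.adi i))
          - (- act T (tl T f (T.K i : T.A)) (T.adi i a) (l.map (T.adi i))
            - dd T (l.map (T.adi i)) (tl T (tl T f (T.K i : T.A)) (T.adi i a))))
        - (- hh T i l (act T f a) - hh T i l (pd_ddf T (tl T f a))) := by
      simp only [hh, pd_tl_ddf, pd_hh_sub, pd_hh_neg, List.map_cons]
      rfl
    have e2 : dd T (a :: l) (h T i f) = - act T (h T i f) a l
        - ((dd T (l.map (T.adi i)) (tl T (tl T f (T.K i : T.A)) (T.adi i a)))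
          - dd T l (h T i (tl T f a))) := by
      simp only [dd, pd_tl_h, pd_dd_sub, pd_dd_c]
    rw [e1, e2]
    have ih'' : - (f (a :: l))
      = dd T l (h T i (tl T f a)) + hh T i l (pd_ddf T (tl T f a)) := ih'.symm
    rw [ih'', ← sub_eq_zero, ← key]
    abel

lemma pd_act_act (f : List T.A → R) (a a' : T.A) : act T (act T f a) a' = act T f (a * a') := by
  funext l; cases l with
  | nil =>
    show T.ε a' • T.ε a • f [] = T.ε (a * a') • f []
    rw [map_mul, mul_comm, mul_smul]
  | cons x l => simp [act, mul_assoc]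

lemma pd_act_ddf (f : List T.A → R) (a : T.A) (l : List T.A) :
    act T (pd_ddf T f) a l = dd T l (act T f a) := by
  cases l with
  | nil => simp [act, pd_ddf, dd]
  | cons a' l =>
    have : act T (pd_ddf T f) a (a' :: l) = dd T ((a * a') :: l) f := rfl
    rw [this]
    simp only [dd, pd_act_act, pd_tl_act]

lemma pd_dd_ddf (l : List T.A) (f : List T.A → R) : dd T l (pd_ddf T f) = 0 := by
  induction l generalizing f with
  | nil => simp [dd]
  | cons a l ih =>
    simp only [dd, pd_tl_ddf, pd_dd_sub, pd_dd_neg, ih, pd_act_ddf]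
    abel

lemma pd_b_eq (f : List T.A → R) : b T f = pd_ef T f + pd_ddf T f := by
  funext l; cases l <;> simp [b, pd_ef, pd_ddf, dd]

lemma pd_tl_ef (f : List T.A → R) (a : T.A) : tl T (pd_ef T f) a = T.ε a • f := rfl

lemma pd_b_b (f : List T.A → R) : b T (b T f) = 0 := by
  rw [pd_b_eq, pd_b_eq]
  have e1 : pd_ddf T (pd_ef T f + pd_ddf T f) = pd_ddf T (pd_ef T f) := by
    funext l
    show dd T l (pd_ef T f + pd_ddf T f) = dd T l (pd_ef T f)
    rw [pd_dd_add, pd_dd_ddf, add_zero]
  rw [e1]
  funext l
  cases l with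
  | nil => simp [pd_ef, pd_ddf, dd]
  | cons a l =>
    have e2 : pd_ddf T (pd_ef T f) (a :: l) = - act T (pd_ef T f) a l - T.ε a • pd_ddf T f l := by
      simp only [pd_ddf, dd, pd_tl_ef, pd_smul_dd]
    have e3 : act T (pd_ef T f) a l = T.ε a • pd_ef T f l := by
      cases l with
      | nil => simp [act, pd_ef]
      | cons a' l => simp [act, pd_ef, mul_smul]
    simp only [Pi.add_apply, e2, e3, Pi.zero_apply]
    simp only [pd_ef, Pi.add_apply, smul_add]
    abel

lemma pd_h_apply (i : I) (f : List T.A → R) (l : List T.A) :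
    h T i f l = pd_c T i (tl T f (T.K i : T.A)) l -
      (match l with
        | [] => 0
        | a :: l' => h T i (tl T f a) l') := by
  cases l with
  | nil => simp [h, hh, pd_c, tl]
  | cons a l => simp [h, hh, pd_c, tl]

lemma pd_c_h (i j : I) (f : List T.A → R) : pd_c T i (h T j f) = h T j (pd_c T i f) := by
  funext l
  show hh T j (l.map (T.adi i)) f = hh T j l (pd_c T i f)
  rw [pd_hh_c]

lemma pd_h_add (i : I) (f g : List T.A → R) : h T i (f + g) = h T i f + h T i g := by
  funext l; exact pd_hh_add i l f g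

lemma pd_h_smul (i : I) (p : R) (f : List T.A → R) : h T i (p • f) = p • h T i f := by
  funext l; exact pd_hh_smul i l p f

lemma pd_h_sub (i : I) (f g : List T.A → R) : h T i (f - g) = h T i f - h T i g := by
  funext l; exact pd_hh_sub i l f g

lemma pd_c_sub (i : I) (f g : List T.A → R) : pd_c T i (f - g) = pd_c T i f - pd_c T i g := rfl

lemma pd_h_e (i j : I) (f : List T.A → R) (a : T.A) (l : List T.A) :
    h T i (h T j f) (a :: l) =
      pd_c T i (pd_c T j (tl T (tl T f (T.K j : T.A)) (T.K i : T.A))) (a :: l)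
      - pd_c T j (pd_c T i (tl T (tl T f (T.K i : T.A)) (T.K j : T.A))) (a :: l)
      + h T j (pd_c T i (tl T (tl T f (T.K i : T.A)) (T.adi i a))) l
      - h T i (pd_c T j (tl T (tl T f (T.K j : T.A)) (T.adi j a))) l
      + h T i (h T j (tl T f a)) l := by
  rw [pd_h_apply]
  simp only [pd_tl_h, adi_K, pd_c_sub, pd_h_sub, Pi.sub_apply]
  rw [pd_c_h i j, pd_h_apply j]
  simp only [pd_tl_c, adi_K]
  abel

lemma pd_h_h (i j : I) (f : List T.A → R) (l : List T.A) :
    h T i (h T j f) l + h T j (h T i f) l = 0 := by
  induction l generalizing f with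
  | nil =>
    simp only [h, hh, List.map_cons, List.map_nil, adi_K, tl]
    abel
  | cons a l ih =>
    rw [pd_h_e i j, pd_h_e j i]
    have := ih (tl T f a)
    rw [← this]
    abel

lemma pd_h_h_self (i : I) (f : List T.A → R) (l : List T.A) : h T i (h T i f) l = 0 := by
  induction l generalizing f with
  | nil =>
    simp only [h, hh, List.map_cons, List.map_nil, adi_K, tl]
    abel
  | cons a l ih =>
    rw [pd_h_e i i, ih]
    abel

lemma pd_b_h (i : I) (f : List T.A → R) (l : List T.A) :
    b T (h T i f) l + h T i (b T f) l = pd_c T i f l - f l := by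
  have h1 : h T i (b T f) l = h T i (pd_ef T f) l + hh T i l (pd_ddf T f) := by
    rw [pd_b_eq]; exact pd_hh_add i l _ _
  have h2 : b T (h T i f) l = pd_ef T (h T i f) l + dd T l (h T i f) := by
    rw [pd_b_eq]; rfl
  have h3 : h T i (pd_ef T f) l + pd_ef T (h T i f) l = pd_c T i f l := by
    cases l with
    | nil => simp [h, hh, pd_ef, T.ε_K, pd_c]
    | cons a l =>
      rw [pd_h_apply]
      simp only [pd_tl_ef, T.ε_K, one_smul]
      have : h T i (T.ε a • f) l = T.ε a • h T i f l := pd_hh_smulk i _ l f
      rw [this]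
      simp [pd_ef]
  rw [h1, h2, ← h3, sub_eq_add_neg, ← pd_dd_hh i l f]
  abel

lemma pd_c_b (i : I) (f : List T.A → R) : pd_c T i (b T f) = b T (pd_c T i f) := by
  funext l
  cases l with
  | nil => simp [pd_c, b]
  | cons a l =>
    simp only [b]
    rw [pd_dd_c i (a :: l) f]
    simp only [pd_c, b, List.map_cons, ε_adi]

lemma pd_b_add (f g : List T.A → R) : b T (f + g) = b T f + b T g := by
  funext l; cases l with
  | nil => simp [b]
  | cons a l => simp only [b, Pi.add_apply, pd_dd_add, smul_add]; abel

lemma pd_b_smul (p : R) (f : List T.A → R) : b T (p • f) = p • b T f := by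
  funext l; cases l with
  | nil => simp [b]
  | cons a l =>
    simp only [b, Pi.smul_apply, pd_dd_smul, smul_add]
    rw [smul_comm]

lemma pd_isInv {f : List T.A → R} (hf : IsInv T f) (i : I) : pd_c T i f = f :=
  funext fun l => hf i l

/-! ### multilinearity -/

lemma pd_isML_tl {f : List T.A → R} (hf : IsML T f) (a : T.A) : IsML T (tl T f a) :=
  ⟨fun l₁ l₂ x y => hf.1 (a :: l₁) l₂ x y, fun l₁ l₂ t x => hf.2 (a :: l₁) l₂ t x⟩

lemma pd_isML_act {f : List T.A → R} (hf : IsML T f) (a : T.A) : IsML T (act T f a) := by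
  refine ⟨fun l₁ l₂ x y => ?_, fun l₁ l₂ t x => ?_⟩
  · cases l₁ with
    | nil => simpa [act, mul_add] using hf.1 [] l₂ (a * x) (a * y)
    | cons z l₁ => simpa [act] using hf.1 (a * z :: l₁) l₂ x y
  · cases l₁ with
    | nil => simpa [act] using hf.2 [] l₂ t (a * x)
    | cons z l₁ => simpa [act] using hf.2 (a * z :: l₁) l₂ t x

lemma pd_tl_add' {f : List T.A → R} (hf : IsML T f) (a b : T.A) :
    tl T f (a + b) = tl T f a + tl T f b := by
  funext l; exact hf.1 [] l a b

lemma pd_tl_smul' {f : List T.A → R} (hf : IsML T f) (t : k) (a : T.A) :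
    tl T f (t • a) = t • tl T f a := by
  funext l; exact hf.2 [] l t a

lemma pd_act_add' {f : List T.A → R} (hf : IsML T f) (a b : T.A) :
    act T f (a + b) = act T f a + act T f b := by
  funext l
  cases l with
  | nil => simp [act, add_smul]
  | cons x l => simpa [act, add_mul] using hf.1 [] l (a * x) (b * x)

lemma pd_act_smul' {f : List T.A → R} (hf : IsML T f) (t : k) (a : T.A) :
    act T f (t • a) = t • act T f a := by
  funext l
  cases l with
  | nil => simp [act, mul_smul]
  | cons x l => simpa [act] using hf.2 [] l t (a * x)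

lemma pd_isML_ddf {f : List T.A → R} (hf : IsML T f) : IsML T (pd_ddf T f) := by
  refine ⟨fun l₁ => ?_, fun l₁ => ?_⟩
  · induction l₁ generalizing f with
    | nil =>
      intro l₂ a b
      simp only [List.nil_append, pd_ddf, dd, pd_tl_add' hf, pd_act_add' hf, pd_dd_add,
        Pi.add_apply]
      abel
    | cons c l₁ ih =>
      intro l₂ a b
      have h1 := (pd_isML_act hf c).1 l₁ l₂ a b
      have h2 := ih (pd_isML_tl hf c) l₂ a b
      simp only [pd_ddf] at h2
      simp only [List.cons_append, pd_ddf, dd, h1, h2]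
      abel
  · induction l₁ generalizing f with
    | nil =>
      intro l₂ t a
      simp only [List.nil_append, pd_ddf, dd, pd_tl_smul' hf, pd_act_smul' hf, pd_smul_dd,
        Pi.smul_apply, smul_sub, smul_neg]
    | cons c l₁ ih =>
      intro l₂ t a
      have h1 := (pd_isML_act hf c).2 l₁ l₂ t a
      have h2 := ih (pd_isML_tl hf c) l₂ t a
      simp only [pd_ddf] at h2
      simp only [List.cons_append, pd_ddf, dd, h1, h2, smul_sub, smul_neg]

lemma pd_isML_ef {f : List T.A → R} (hf : IsML T f) : IsML T (pd_ef T f) := by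
  refine ⟨fun l₁ => ?_, fun l₁ => ?_⟩
  · cases l₁ with
    | nil => intro l₂ a b; simp [pd_ef, add_smul]
    | cons c l₁ => intro l₂ a b; simp [pd_ef, hf.1, smul_add]
  · cases l₁ with
    | nil => intro l₂ t a; simp [pd_ef, mul_smul]
    | cons c l₁ =>
      intro l₂ t a
      simp only [List.cons_append, pd_ef, hf.2]
      rw [smul_comm]

lemma pd_isML_add {f g : List T.A → R} (hf : IsML T f) (hg : IsML T g) : IsML T (f + g) :=
  ⟨fun l₁ l₂ a b => by simp only [Pi.add_apply, hf.1, hg.1]; abel,
    fun l₁ l₂ t a => by simp only [Pi.add_apply, hf.2, hg.2, smul_add]⟩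

lemma pd_isML_smul (p : R) {f : List T.A → R} (hf : IsML T f) : IsML T (p • f) :=
  ⟨fun l₁ l₂ a b => by simp only [Pi.smul_apply, hf.1, smul_add],
    fun l₁ l₂ t a => by simp only [Pi.smul_apply, hf.2]; rw [smul_comm]⟩

lemma pd_isML_zero : IsML T (0 : List T.A → R) := ⟨fun _ _ _ _ => by simp, fun _ _ _ _ => by simp⟩

lemma pd_isML_b {f : List T.A → R} (hf : IsML T f) : IsML T (b T f) := by
  rw [pd_b_eq]; exact pd_isML_add (pd_isML_ef hf) (pd_isML_ddf hf)

lemma pd_isML_c (i : I) {f : List T.A → R} (hf : IsML T f) : IsML T (pd_c T i f) :=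
  ⟨fun l₁ l₂ a b => by simp [pd_c, hf.1], fun l₁ l₂ t a => by simp [pd_c, hf.2]⟩

lemma pd_isML_h (i : I) {f : List T.A → R} (hf : IsML T f) : IsML T (h T i f) := by
  have key : ∀ {f : List T.A → R}, IsML T f → ∀ l₁ : List T.A, ∀ l₂ : List T.A,
      (∀ a b, hh T i (l₁ ++ (a + b) :: l₂) f = hh T i (l₁ ++ a :: l₂) f
        + hh T i (l₁ ++ b :: l₂) f) ∧
      (∀ (t : k) a, hh T i (l₁ ++ (t • a) :: l₂) f = t • hh T i (l₁ ++ a :: l₂) f) := by
    intro f hf l₁
    induction l₁ generalizing f with
    | nil =>
      intro l₂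
      have h1 := pd_isML_c i (pd_isML_tl hf (T.K i : T.A))
      refine ⟨fun a b => ?_, fun t a => ?_⟩
      · have := h1.1 [] l₂ a b
        simp only [pd_c, tl, List.nil_append] at this
        simp only [List.nil_append, hh, pd_tl_add' hf, pd_hh_add, this]
        abel
      · have := h1.2 [] l₂ t a
        simp only [pd_c, tl, List.nil_append] at this
        simp only [List.nil_append, hh, pd_tl_smul' hf, pd_hh_smulk, this, smul_sub]
    | cons x l₁ ih =>
      intro l₂
      have h1 := pd_isML_c i (pd_isML_tl hf (T.K i : T.A))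
      obtain ⟨ih1, ih2⟩ := ih (pd_isML_tl hf x) l₂
      refine ⟨fun a b => ?_, fun t a => ?_⟩
      · have := h1.1 (x :: l₁) l₂ a b
        simp only [pd_c, tl, List.cons_append] at this
        simp only [List.cons_append, hh, ih1, this]
        abel
      · have := h1.2 (x :: l₁) l₂ t a
        simp only [pd_c, tl, List.cons_append] at this
        simp only [List.cons_append, hh, ih2, this, smul_sub]
  exact ⟨fun l₁ l₂ a b => (key hf l₁ l₂).1 a b, fun l₁ l₂ t a => (key hf l₁ l₂).2 t a⟩

end ident

lemma pd_D_eq (f : List T.A → R) : D T ξ f = b T f + ∑ i, ξ i • h T i f := by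
  funext l
  simp [D]

lemma pd_isML_D {f : List T.A → R} (hf : IsML T f) : IsML T (D T ξ f) := by
  rw [pd_D_eq]
  refine pd_isML_add (pd_isML_b hf) ?_
  have : ∀ s : Finset I, IsML T (∑ i ∈ s, ξ i • h T i f) := by
    classical
    intro s
    induction s using Finset.induction_on with
    | empty => simpa using pd_isML_zero
    | insert a s ha ih =>
      rw [Finset.sum_insert ha]
      exact pd_isML_add (pd_isML_smul _ (pd_isML_h _ hf)) ih
  exact this _

lemma pd_c_D (j : I) (f : List T.A → R) : pd_c T j (D T ξ f) = D T ξ (pd_c T j f) := by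
  funext l
  have h1 : pd_c T j (D T ξ f) l = pd_c T j (b T f) l + ∑ i, ξ i * pd_c T j (h T i f) l := rfl
  rw [h1, pd_c_b]
  simp only [D, pd_c_h]

lemma pd_h_sum (i : I) {ι : Type} (s : Finset ι) (F : ι → List T.A → R) :
    h T i (∑ j ∈ s, F j) = ∑ j ∈ s, h T i (F j) := by
  classical
  induction s using Finset.induction_on with
  | empty =>
    rw [Finset.sum_empty, Finset.sum_empty]
    have := pd_h_smul i (0 : R) (0 : List T.A → R)
    simpa using this
  | insert a s ha ih => rw [Finset.sum_insert ha, Finset.sum_insert ha, pd_h_add, ih]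

lemma pd_b_sum {ι : Type} (s : Finset ι) (F : ι → List T.A → R) :
    b T (∑ j ∈ s, F j) = ∑ j ∈ s, b T (F j) := by
  classical
  induction s using Finset.induction_on with
  | empty =>
    rw [Finset.sum_empty, Finset.sum_empty]
    have := pd_b_smul (0 : R) (0 : List T.A → R)
    simpa using this
  | insert a s ha ih => rw [Finset.sum_insert ha, Finset.sum_insert ha, pd_b_add, ih]

/-- an alternating double sum vanishes -/
lemma pd_alt {M : Type} [AddCommGroup M] (F : I → I → M) (h1 : ∀ i, F i i = 0)
    (h2 : ∀ i j, F i j + F j i = 0) : ∑ i, ∑ j, F i j = 0 := by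
  classical
  rw [← Finset.sum_product']
  refine Finset.sum_involution (fun p _ => p.swap) ?_ ?_ ?_ ?_
  · rintro ⟨i, j⟩ _
    exact h2 i j
  · rintro ⟨i, j⟩ _ hne heq
    rw [Prod.swap_prod_mk, Prod.mk.injEq] at heq
    obtain ⟨rfl, -⟩ := heq
    exact hne (h1 _)
  · rintro ⟨i, j⟩ _
    exact Finset.mem_product.2 ⟨Finset.mem_univ _, Finset.mem_univ _⟩
  · rintro ⟨i, j⟩ _
    rfl

theorem D_add (f g : List T.A → R) : D T ξ (f + g) = D T ξ f + D T ξ g := by
  rw [pd_D_eq, pd_D_eq, pd_D_eq, pd_b_add]
  simp only [pd_h_add, smul_add, Finset.sum_add_distrib]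
  abel

theorem D_smul (p : R) (f : List T.A → R) : D T ξ (p • f) = p • D T ξ f := by
  rw [pd_D_eq, pd_D_eq, pd_b_smul, smul_add, Finset.smul_sum]
  congr 1
  refine Finset.sum_congr rfl fun i _ => ?_
  rw [pd_h_smul, smul_comm]

theorem D_mem {f : List T.A → R} (hf : f ∈ Coc T R) : D T ξ f ∈ Coc T R :=
  ⟨pd_isML_D hf.1, fun i l => by
    have h1 := congrFun (pd_c_D (ξ := ξ) i f) l
    rw [pd_isInv hf.2 i] at h1
    exact h1⟩

theorem D_D {f : List T.A → R} (hf : f ∈ Coc T R) : D T ξ (D T ξ f) = 0 := by
  have e1 : b T (D T ξ f) = ∑ i, ξ i • b T (h T i f) := by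
    rw [pd_D_eq, pd_b_add, pd_b_b, zero_add, pd_b_sum]
    exact Finset.sum_congr rfl fun i _ => pd_b_smul _ _
  have e2 : ∀ i, h T i (D T ξ f) = h T i (b T f) + ∑ j, ξ j • h T i (h T j f) := by
    intro i
    rw [pd_D_eq, pd_h_add, pd_h_sum]
    congr 1
    exact Finset.sum_congr rfl fun j _ => pd_h_smul _ _ _
  rw [pd_D_eq (D T ξ f), e1]
  simp only [e2, smul_add, Finset.smul_sum]
  rw [Finset.sum_add_distrib, ← add_assoc, ← Finset.sum_add_distrib]
  have e3 : ∑ i, (ξ i • b T (h T i f) + ξ i • h T i (b T f)) = 0 := by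
    refine Finset.sum_eq_zero fun i _ => ?_
    rw [← smul_add]
    have h1 : b T (h T i f) + h T i (b T f) = 0 := by
      funext l
      have h2 := pd_b_h i f l
      rw [pd_isInv hf.2 i, sub_self] at h2
      exact h2
    rw [h1, smul_zero]
  rw [e3, zero_add]
  refine pd_alt (fun i j => ξ i • ξ j • h T i (h T j f)) (fun i => ?_) (fun i j => ?_)
  · have h1 : h T i (h T i f) = 0 := funext fun l => pd_h_h_self i f l
    rw [h1, smul_zero, smul_zero]
  · have h1 : h T i (h T j f) + h T j (h T i f) = 0 := funext fun l => pd_h_h i j f l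
    rw [smul_comm (ξ j) (ξ i), ← smul_add, ← smul_add, h1, smul_zero, smul_zero]

lemma pd_cup_zero (g : List T.A → R) : cup T (0 : List T.A → R) g = 0 := by
  funext l
  induction l with
  | nil => simp [cup]
  | cons a l ih =>
    have h0 : (fun l' => (0 : List T.A → R) (a :: l')) = 0 := rfl
    show (0 : List T.A → R) [] * g (a :: l) + cup T (fun l' => (0 : List T.A → R) (a :: l')) g l = 0
    rw [h0, ih]
    simp

theorem cup_apply_append (f g : List T.A → R) {p : ℕ} (hf : Supp T p f) (l₁ l₂ : List T.A)
    (h : l₁.length = p) : cup T f g (l₁ ++ l₂) = f l₁ * g l₂ := by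
  induction l₁ generalizing f p with
  | nil =>
    rw [List.nil_append]
    rw [List.length_nil] at h
    subst h
    cases l₂ with
    | nil => rfl
    | cons a l =>
      have h0 : (fun l' => f (a :: l')) = (0 : List T.A → R) := by
        funext l'
        exact hf _ (by simp)
      show f [] * g (a :: l) + cup T (fun l' => f (a :: l')) g l = f [] * g (a :: l)
      rw [h0, pd_cup_zero, Pi.zero_apply, add_zero]
  | cons a l₁ ih =>
    rw [List.length_cons] at h
    subst h
    have h0 : f [] = 0 := hf [] (by simp)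
    show f [] * g (a :: (l₁ ++ l₂)) + cup T (fun l' => f (a :: l')) g (l₁ ++ l₂) = _
    rw [h0, zero_mul, zero_add]
    refine ih (p := l₁.length) (f := fun l' => f (a :: l')) ?_ rfl
    intro l' hl'
    exact hf _ (by rw [List.length_cons]; omega)

theorem cup_add_left (f f' g : List T.A → R) : cup T (f + f') g = cup T f g + cup T f' g := by
  funext l
  induction l generalizing f f' with
  | nil => simp only [cup, Pi.add_apply, add_mul]
  | cons a l ih =>
    have h1 := ih (fun l' => f (a :: l')) (fun l' => f' (a :: l'))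
    have h2 : (fun l' => (f + f') (a :: l')) =
      (fun l' => f (a :: l')) + (fun l' => f' (a :: l')) := rfl
    simp only [cup, Pi.add_apply] at h1 ⊢
    have h3 : cup T (fun l' => f (a :: l') + f' (a :: l')) g l =
      cup T (fun l' => f (a :: l')) g l + cup T (fun l' => f' (a :: l')) g l := h1
    rw [h3]
    ring

theorem cup_add_right (f g g' : List T.A → R) : cup T f (g + g') = cup T f g + cup T f g' := by
  funext l
  induction l generalizing f with
  | nil => simp only [cup, Pi.add_apply, mul_add]
  | cons a l ih =>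
    have h1 := ih (fun l' => f (a :: l'))
    simp only [cup, Pi.add_apply] at h1 ⊢
    rw [h1]
    ring

theorem cup_smul_left (p : R) (f g : List T.A → R) : cup T (p • f) g = p • cup T f g := by
  funext l
  induction l generalizing f with
  | nil => simp only [cup, Pi.smul_apply, smul_eq_mul, mul_assoc]
  | cons a l ih =>
    have h1 := ih (fun l' => f (a :: l'))
    have h3 : cup T (fun l' => (p • f) (a :: l')) g l = p • cup T (fun l' => f (a :: l')) g l := h1
    simp only [cup, Pi.smul_apply, smul_eq_mul] at h3 ⊢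
    rw [h3]
    ring

theorem cup_smul_right (p : R) (f g : List T.A → R) : cup T f (p • g) = p • cup T f g := by
  funext l
  induction l generalizing f with
  | nil => simp only [cup, Pi.smul_apply, smul_eq_mul]; ring
  | cons a l ih =>
    have h1 := ih (fun l' => f (a :: l'))
    simp only [cup, Pi.smul_apply, smul_eq_mul] at h1 ⊢
    rw [h1]
    ring

lemma pd_tl_cup (f g : List T.A → R) (a : T.A) :
    tl T (cup T f g) a = f [] • tl T g a + cup T (tl T f a) g := rfl

lemma pd_cup_nil (f g : List T.A → R) : cup T f g [] = f [] * g [] := rfl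

lemma pd_cup_cons (f g : List T.A → R) (a : T.A) (l : List T.A) :
    cup T f g (a :: l) = f [] * g (a :: l) + cup T (tl T f a) g l := rfl

theorem cup_assoc (f g h : List T.A → R) : cup T (cup T f g) h = cup T f (cup T g h) := by
  funext l
  induction l generalizing f with
  | nil => simp only [cup, mul_assoc]
  | cons a l ih =>
    rw [pd_cup_cons, pd_tl_cup, cup_add_left, cup_smul_left, Pi.add_apply, Pi.smul_apply,
      ih (tl T f a), pd_cup_cons, pd_cup_cons, pd_cup_nil, smul_eq_mul]
    ring

theorem unit_cup (f : List T.A → R) : cup T (unit T R) f = f := by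
  funext l
  cases l with
  | nil => simp [cup, unit]
  | cons a l =>
    rw [pd_cup_cons]
    have h0 : tl T (unit T R) a = (0 : List T.A → R) := rfl
    rw [h0, pd_cup_zero]
    simp [unit]

theorem cup_unit (f : List T.A → R) : cup T f (unit T R) = f := by
  funext l
  induction l generalizing f with
  | nil => simp [cup, unit]
  | cons a l ih =>
    rw [pd_cup_cons, ih (tl T f a)]
    simp [unit, tl]

theorem unit_mem : unit T R ∈ Coc T R := by
  refine ⟨⟨fun l₁ l₂ a b => ?_, fun l₁ l₂ t a => ?_⟩, fun i l => ?_⟩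
  · cases l₁ <;> simp [unit]
  · cases l₁ <;> simp [unit]
  · cases l <;> simp [unit]

theorem D_unit : D T ξ (unit T R) = 0 := by
  have h0 : ∀ a, tl T (unit T R) a = (0 : List T.A → R) := fun a => rfl
  have h1 : ∀ l, dd T l (0 : List T.A → R) = 0 := fun l => by
    have := pd_dd_smul l (0 : R) (0 : List T.A → R)
    simpa using this
  have h2 : ∀ i l, hh T i l (0 : List T.A → R) = 0 := fun i l => by
    have := pd_hh_smul i l (0 : R) (0 : List T.A → R)
    simpa using this
  have h3 : ∀ i, h T i (unit T R) = 0 := by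
    intro i
    funext l
    cases l with
    | nil => rfl
    | cons a l =>
      show hh T i (a :: l) (unit T R) = 0
      simp only [hh, h0, h2]
      simp [unit]
  have h4 : b T (unit T R) = 0 := by
    funext l
    cases l with
    | nil => rfl
    | cons a l =>
      show T.ε a • unit T R l + (- act T (unit T R) a l - dd T l (tl T (unit T R) a)) = 0
      rw [h0, h1]
      cases l with
      | nil => simp [unit, act]
      | cons a' l => simp [unit, act]
  rw [pd_D_eq, h4]
  simp [h3]

theorem cup_ml {f g : List T.A → R} (hf : IsML T f) (hg : IsML T g) : IsML T (cup T f g) := by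
  refine ⟨fun l₁ => ?_, fun l₁ => ?_⟩
  · induction l₁ generalizing f with
    | nil =>
      intro l₂ a b
      rw [List.nil_append, List.nil_append, List.nil_append, pd_cup_cons, pd_cup_cons, pd_cup_cons,
        pd_tl_add' hf, cup_add_left, Pi.add_apply]
      have h1 := hg.1 [] l₂ a b
      rw [List.nil_append, List.nil_append, List.nil_append] at h1
      rw [h1]
      ring
    | cons c l₁ ih =>
      intro l₂ a b
      rw [List.cons_append, List.cons_append, List.cons_append, pd_cup_cons, pd_cup_cons,
        pd_cup_cons, ih (pd_isML_tl hf c) l₂ a b]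
      have h1 := hg.1 (c :: l₁) l₂ a b
      rw [List.cons_append, List.cons_append, List.cons_append] at h1
      rw [h1]
      ring
  · induction l₁ generalizing f with
    | nil =>
      intro l₂ t a
      rw [List.nil_append, List.nil_append, pd_cup_cons, pd_cup_cons, pd_tl_smul' hf, pd_smulk,
        cup_smul_left, Pi.smul_apply, algebraMap_smul]
      have h1 := hg.2 [] l₂ t a
      rw [List.nil_append, List.nil_append] at h1
      rw [h1, smul_add, mul_smul_comm]
    | cons c l₁ ih =>
      intro l₂ t a
      rw [List.cons_append, List.cons_append, pd_cup_cons, pd_cup_cons,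
        ih (pd_isML_tl hf c) l₂ t a]
      have h1 := hg.2 (c :: l₁) l₂ t a
      rw [List.cons_append, List.cons_append] at h1
      rw [h1, smul_add, mul_smul_comm]

lemma pd_c_cup (i : I) (f g : List T.A → R) (l : List T.A) :
    cup T f g (l.map (T.adi i)) = cup T (pd_c T i f) (pd_c T i g) l := by
  induction l generalizing f with
  | nil => rfl
  | cons a l ih =>
    rw [List.map_cons, pd_cup_cons, pd_cup_cons, ih, pd_tl_c]
    rfl

theorem cup_mem {f g : List T.A → R} (hf : f ∈ Coc T R) (hg : g ∈ Coc T R) :
    cup T f g ∈ Coc T R :=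
  ⟨cup_ml hf.1 hg.1, fun i l => by
    rw [pd_c_cup, pd_isInv hf.2, pd_isInv hg.2]⟩

lemma pd_act_cup (f g : List T.A → R) (a : T.A) (l : List T.A) :
    act T (cup T f g) a l =
      cup T (act T f a) g l - (T.ε a • f []) * g l + f [] * act T g a l := by
  cases l with
  | nil =>
    show T.ε a • (f [] * g []) = (T.ε a • f []) * g [] - (T.ε a • f []) * g [] +
      f [] * (T.ε a • g [])
    rw [sub_self, zero_add, mul_smul_comm]
  | cons a' l =>
    show cup T f g ((a * a') :: l) = cup T (act T f a) g (a' :: l) - (T.ε a • f []) * g (a' :: l) +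
      f [] * g ((a * a') :: l)
    rw [pd_cup_cons, pd_cup_cons, pd_tl_act]
    show f [] * g ((a * a') :: l) + cup T (tl T f (a * a')) g l =
      (T.ε a • f []) * g (a' :: l) + cup T (tl T f (a * a')) g l - (T.ε a • f []) * g (a' :: l) +
        f [] * g ((a * a') :: l)
    ring

lemma pd_tl_sg (f : List T.A → R) (a : T.A) : tl T (sg T f) a = - sg T (tl T f a) := by
  funext l
  show (-1) ^ (a :: l).length * f (a :: l) = - ((-1) ^ l.length * f (a :: l))
  rw [List.length_cons, pow_succ]
  ring

lemma pd_cup_neg_left (f g : List T.A → R) : cup T (-f) g = - cup T f g := by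
  have := cup_smul_left (-1 : R) f g
  simpa using this

lemma pd_cup_sub_left (f f' g : List T.A → R) : cup T (f - f') g = cup T f g - cup T f' g := by
  rw [sub_eq_add_neg, cup_add_left, pd_cup_neg_left, ← sub_eq_add_neg]

lemma pd_dd_cup (f g : List T.A → R) (l : List T.A) :
    dd T l (cup T f g) = cup T (pd_ddf T f) g l + cup T (sg T f) (b T g) l := by
  induction l generalizing f with
  | nil => simp [dd, cup, pd_ddf, b]
  | cons a l ih =>
    have h1 : dd T (a :: l) (cup T f g) =
      - act T (cup T f g) a l - dd T l (tl T (cup T f g) a) := rfl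
    rw [h1, pd_tl_cup, pd_dd_add, pd_dd_smul, ih (tl T f a), pd_act_cup, pd_cup_cons, pd_cup_cons,
      pd_tl_ddf, pd_tl_sg, pd_cup_sub_left, pd_cup_neg_left, pd_cup_neg_left]
    have h2 : pd_ddf T f [] = 0 := rfl
    have h3 : sg T f [] = f [] := by simp [sg]
    have h4 : b T g (a :: l) = T.ε a • g l + (- act T g a l - dd T l (tl T g a)) := rfl
    rw [h2, h3, h4]
    simp only [Pi.sub_apply, Pi.neg_apply, smul_eq_mul, smul_mul_assoc, mul_add, mul_sub,
      mul_smul_comm]
    ring

/-- the Leibniz rule for the bar differential -/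
theorem b_cup (f g : List T.A → R) :
    b T (cup T f g) = cup T (b T f) g + cup T (sg T f) (b T g) := by
  have h1 : pd_ef T (cup T f g) = cup T (pd_ef T f) g := by
    funext l
    cases l with
    | nil => simp [pd_ef, cup]
    | cons a l =>
      rw [pd_cup_cons, pd_tl_ef, pd_smulk, cup_smul_left, Pi.smul_apply, algebraMap_smul]
      show T.ε a • cup T f g l = 0 * g (a :: l) + _
      rw [zero_mul, zero_add]
  funext l
  rw [pd_b_eq (cup T f g), pd_b_eq f, cup_add_left, h1]
  show cup T (pd_ef T f) g l + dd T l (cup T f g) = _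
  rw [pd_dd_cup]
  simp only [Pi.add_apply]
  ring

lemma pd_hh_cup (i : I) (f : List T.A → R) {g : List T.A → R} (hg : IsInv T g) (l : List T.A) :
    hh T i l (cup T f g) = cup T (h T i f) g l + cup T (sg T f) (h T i g) l := by
  induction l generalizing f with
  | nil =>
    show cup T f g [(T.K i : T.A)] = f [(T.K i : T.A)] * g [] + sg T f [] * g [(T.K i : T.A)]
    have h3 : sg T f [] = f [] := by simp [sg]
    rw [pd_cup_cons, pd_cup_nil, h3]
    show f [] * g [(T.K i : T.A)] + f [(T.K i : T.A)] * g [] = _
    ring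
  | cons a l ih =>
    have h1 : hh T i (a :: l) (cup T f g) =
      cup T f g ((T.K i : T.A) :: (a :: l).map (T.adi i)) - hh T i l (tl T (cup T f g) a) := rfl
    have h3 : sg T f [] = f [] := by simp [sg]
    have h4 : h T i g (a :: l) = g ((T.K i : T.A) :: (a :: l).map (T.adi i)) -
      hh T i l (tl T g a) := rfl
    have h5 : h T i f [] = f [(T.K i : T.A)] := rfl
    have h6 : cup T (tl T f (T.K i : T.A)) g ((a :: l).map (T.adi i)) =
        f [(T.K i : T.A)] * g (a :: l) +
          cup T (pd_c T i (tl T (tl T f (T.K i : T.A)) (T.adi i a))) g l := by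
      have h7 : g (T.adi i a :: l.map (T.adi i)) = g (a :: l) := hg i (a :: l)
      rw [List.map_cons, pd_cup_cons, h7, pd_c_cup, pd_isInv hg]
      rfl
    rw [h1, pd_cup_cons, h6, pd_tl_cup, pd_hh_add, pd_hh_smul, ih (tl T f a), pd_cup_cons,
      pd_cup_cons, pd_tl_h, pd_tl_sg, pd_cup_sub_left, pd_cup_neg_left, h3, h4, h5]
    simp only [Pi.sub_apply, Pi.neg_apply, smul_eq_mul]
    ring

lemma pd_cup_sum_left {ι : Type} (s : Finset ι) (F : ι → List T.A → R) (g : List T.A → R) :
    cup T (∑ j ∈ s, F j) g = ∑ j ∈ s, cup T (F j) g := by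
  classical
  induction s using Finset.induction_on with
  | empty => rw [Finset.sum_empty, Finset.sum_empty, pd_cup_zero]
  | insert a s ha ih => rw [Finset.sum_insert ha, Finset.sum_insert ha, cup_add_left, ih]

lemma pd_cup_sum_right {ι : Type} (s : Finset ι) (F : ι → List T.A → R) (g : List T.A → R) :
    cup T g (∑ j ∈ s, F j) = ∑ j ∈ s, cup T g (F j) := by
  classical
  induction s using Finset.induction_on with
  | empty =>
    rw [Finset.sum_empty, Finset.sum_empty]
    have := cup_smul_right (0 : R) g (0 : List T.A → R)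
    simpa using this
  | insert a s ha ih => rw [Finset.sum_insert ha, Finset.sum_insert ha, cup_add_right, ih]

/-- the Leibniz rule -/
theorem D_cup {f g : List T.A → R} (hf : f ∈ Coc T R) (hg : g ∈ Coc T R) :
    D T ξ (cup T f g) = cup T (D T ξ f) g + cup T (sg T f) (D T ξ g) := by
  have h1 : ∀ i, h T i (cup T f g) = cup T (h T i f) g + cup T (sg T f) (h T i g) :=
    fun i => funext fun l => pd_hh_cup i f hg.2 l
  rw [pd_D_eq, pd_D_eq, pd_D_eq, b_cup, cup_add_left, cup_add_right, pd_cup_sum_left,
    pd_cup_sum_right]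
  simp only [h1, cup_smul_left, cup_smul_right, smul_add, Finset.sum_add_distrib]
  abel

theorem b_ml {f : List T.A → R} (hf : IsML T f) : IsML T (b T f) := pd_isML_b hf

theorem b_b {f : List T.A → R} (hf : IsML T f) : b T (b T f) = 0 := pd_b_b f

theorem b_supp {f : List T.A → R} {n : ℕ} (hf : Supp T n f) : Supp T (n + 1) (b T f) := by
  have h0 : ∀ l, dd T l (0 : List T.A → R) = 0 := fun l => by
    have := pd_dd_smul l (0 : R) (0 : List T.A → R)
    simpa using this
  have h1 : ∀ (l : List T.A) (n : ℕ) (f : List T.A → R), Supp T n f → l.length ≠ n + 1 →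
      dd T l f = 0 := by
    intro l
    induction l with
    | nil => intro n f _ _; rfl
    | cons a l ih =>
      intro n f hf hl
      rw [List.length_cons] at hl
      have hl' : l.length ≠ n := fun h => hl (by rw [h])
      have e1 : act T f a l = 0 := by
        cases l with
        | nil =>
          show T.ε a • f [] = 0
          rw [hf [] hl', smul_zero]
        | cons a' l =>
          exact hf _ (by simpa using hl')
      have e2 : dd T l (tl T f a) = 0 := by
        cases n with
        | zero =>
          have h3 : tl T f a = 0 := by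
            funext l'
            exact hf _ (by simp)
          rw [h3, h0]
        | succ n =>
          refine ih n (tl T f a) (fun l' hl'' => hf _ ?_) hl'
          rw [List.length_cons]
          omega
      show - act T f a l - dd T l (tl T f a) = 0
      rw [e1, e2]
      simp
  intro l hl
  cases l with
  | nil => rfl
  | cons a l =>
    show T.ε a • f l + dd T (a :: l) f = 0
    rw [h1 (a :: l) n f hf hl, hf l (by rw [List.length_cons] at hl; omega), smul_zero, add_zero]

theorem cup_supp {f g : List T.A → R} {m n : ℕ} (hf : Supp T m f) (hg : Supp T n g) :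
    Supp T (m + n) (cup T f g) := by
  intro l
  induction l generalizing f m with
  | nil =>
    intro hl
    rw [pd_cup_nil]
    rw [List.length_nil] at hl
    rcases Nat.eq_zero_or_pos m with hm | hm
    · have hn : n ≠ 0 := by omega
      rw [hg [] (by rw [List.length_nil]; exact hn.symm), mul_zero]
    · rw [hf [] (by rw [List.length_nil]; omega), zero_mul]
  | cons a l ih =>
    intro hl
    rw [List.length_cons] at hl
    rw [pd_cup_cons]
    cases m with
    | zero =>
      have h3 : tl T f a = 0 := by
        funext l'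
        exact hf _ (by simp)
      rw [h3, pd_cup_zero, hg (a :: l) (by rw [List.length_cons]; omega), mul_zero, Pi.zero_apply,
        add_zero]
    | succ m =>
      have h4 : f [] = 0 := hf [] (by simp)
      rw [h4, zero_mul, zero_add]
      refine ih (f := tl T f a) (m := m) (fun l' hl' => hf _ ?_) (by omega)
      rw [List.length_cons]
      omega

theorem D_zero_ξ (f : List T.A → R) : D T (0 : I → R) f = b T f := by
  funext l
  simp [D]

section bc

variable {R' : Type} [CommRing R'] [Algebra k R'] (φ : R →ₐ[k] R')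

theorem bc_mem {f : List T.A → R} (hf : f ∈ Coc T R) : bc T φ f ∈ Coc T R' := by
  refine ⟨⟨fun l₁ l₂ a b => ?_, fun l₁ l₂ t a => ?_⟩, fun i l => ?_⟩
  · show φ (f _) = φ (f _) + φ (f _)
    rw [hf.1.1, map_add]
  · show φ (f _) = t • φ (f _)
    rw [hf.1.2, map_smul]
  · show φ (f _) = φ (f _)
    rw [hf.2]

lemma pd_bc_dd (f : List T.A → R) (l : List T.A) : φ (dd T l f) = dd T l (bc T φ f) := by
  induction l generalizing f with
  | nil => exact map_zero φ
  | cons a l ih =>
    have h1 : act T (bc T φ f) a l = φ (act T f a l) := by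
      cases l with
      | nil => exact (map_smul φ _ _).symm
      | cons a' l => rfl
    show φ (- act T f a l - dd T l (tl T f a)) = - act T (bc T φ f) a l - dd T l (tl T (bc T φ f) a)
    rw [map_sub, map_neg, ih, h1]
    rfl

lemma pd_bc_hh (i : I) (f : List T.A → R) (l : List T.A) :
    φ (hh T i l f) = hh T i l (bc T φ f) := by
  induction l generalizing f with
  | nil => rfl
  | cons a l ih =>
    show φ (f ((T.K i : T.A) :: (a :: l).map (T.adi i)) - hh T i l (tl T f a)) = _
    rw [map_sub, ih]
    rfl

theorem bc_D (f : List T.A → R) : bc T φ (D T ξ f) = D T (fun i => φ (ξ i)) (bc T φ f) := by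
  funext l
  show φ (b T f l + ∑ i, ξ i * h T i f l) = b T (bc T φ f) l + ∑ i, φ (ξ i) * h T i (bc T φ f) l
  rw [map_add, map_sum]
  congr 1
  · cases l with
    | nil => exact map_zero φ
    | cons a l =>
      show φ (T.ε a • f l + dd T (a :: l) f) = T.ε a • φ (f l) + dd T (a :: l) (bc T φ f)
      rw [map_add, map_smul, pd_bc_dd]
  · refine Finset.sum_congr rfl fun i _ => ?_
    rw [map_mul]
    congr 1
    exact pd_bc_hh φ i f l

theorem bc_cup (f g : List T.A → R) : bc T φ (cup T f g) = cup T (bc T φ f) (bc T φ g) := by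
  funext l
  induction l generalizing f with
  | nil => exact map_mul φ _ _
  | cons a l ih =>
    have h1 := ih (tl T f a)
    show φ (f [] * g (a :: l) + cup T (tl T f a) g l) = _
    rw [map_add, map_mul, pd_cup_cons]
    congr 1

theorem bc_unit : bc T φ (unit T R) = unit T R' := by
  funext l
  cases l with
  | nil => exact map_one φ
  | cons a l => exact map_zero φ

end bc

section graded

variable {σ : Type}

lemma pd_hc_mul {d : ℕ} {p : MvPolynomial σ k} (hp : p.IsHomogeneous d) (N : ℕ)
    (x : MvPolynomial σ k) : homogeneousComponent N (p * x) =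
      if d ≤ N then p * homogeneousComponent (N - d) x else 0 := by
  have h1 : ∀ e, homogeneousComponent N (p * homogeneousComponent e x) =
      if d + e = N then p * homogeneousComponent e x else 0 := by
    intro e
    have h2 : (p * homogeneousComponent e x).IsHomogeneous (d + e) :=
      hp.mul (homogeneousComponent_isHomogeneous e x)
    have h3 := homogeneousComponent_of_mem (n := d + e) (m := N) (p := p * homogeneousComponent e x)
      ((mem_homogeneousSubmodule _ _).2 h2)
    rw [h3]
    by_cases h : N = d + e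
    · rw [if_pos h, if_pos h.symm]
    · rw [if_neg h, if_neg (Ne.symm h)]
  have h4 : p * x = ∑ e ∈ Finset.range (x.totalDegree + 1 + N), p * homogeneousComponent e x := by
    have h5 : x = ∑ e ∈ Finset.range (x.totalDegree + 1 + N), homogeneousComponent e x := by
      rw [Finset.sum_range_add]
      nth_rewrite 1 [← sum_homogeneousComponent x]
      rw [left_eq_add]
      refine Finset.sum_eq_zero fun e _ => ?_
      exact homogeneousComponent_eq_zero _ _ (by omega)
    nth_rewrite 1 [h5]
    rw [Finset.mul_sum]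
  rw [h4, map_sum]
  simp only [h1]
  by_cases hd : d ≤ N
  · rw [if_pos hd]
    rw [Finset.sum_eq_single (N - d)]
    · rw [if_pos (by omega)]
    · intro e _ he
      rw [if_neg (by omega)]
    · intro h
      exact absurd (Finset.mem_range.2 (by omega)) h
  · rw [if_neg hd]
    refine Finset.sum_eq_zero fun e _ => ?_
    rw [if_neg (by omega)]

lemma pd_gc_mul {d : ℕ} {p : MvPolynomial σ k} (hp : p.IsHomogeneous d) (m : ℤ)
    (x : MvPolynomial σ k) : gc (m + 2 * d) (p * x) = p * gc m x := by
  rcases gc_cases m with ⟨e, rfl⟩ | hm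
  · have h1 : (2 * (e : ℤ) + 2 * (d : ℤ)) = 2 * ((e + d : ℕ) : ℤ) := by push_cast; ring
    have h2 : e + d - d = e := by omega
    rw [h1, gc_even, gc_even, pd_hc_mul hp, if_pos (by omega), h2]
  · rw [gc_of_not hm, mul_zero]
    rcases gc_cases (m + 2 * (d : ℤ)) with ⟨N, hN⟩ | hN
    · rw [hN, gc_even, pd_hc_mul hp, if_neg]
      intro hd
      apply hm
      omega
    · exact gc_of_not hN _

lemma pd_gc_mul_self {m n : ℤ} {x y : MvPolynomial σ k} (hx : gc m x = x) (hy : gc n y = y) :
    gc (m + n) (x * y) = x * y := by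
  rcases gc_cases m with ⟨d, rfl⟩ | hm
  · have h1 : x.IsHomogeneous d := by
      rw [gc_even] at hx
      rw [← hx]
      exact homogeneousComponent_isHomogeneous d x
    rw [add_comm, pd_gc_mul h1, hy]
  · rw [gc_of_not hm] at hx
    rw [← hx, zero_mul, map_zero]

theorem Hom.add {n : ℤ} {f g : List T.A → MvPolynomial σ k} (hf : Hom T n f) (hg : Hom T n g) :
    Hom T n (f + g) := by
  intro l
  rw [Pi.add_apply, map_add, hf l, hg l]

theorem Hom.smul {n : ℤ} {f : List T.A → MvPolynomial σ k} (hf : Hom T n f) {d : ℕ}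
    {p : MvPolynomial σ k} (hp : p.IsHomogeneous d) : Hom T (n + 2 * d) (p • f) := by
  intro l
  rw [Pi.smul_apply, smul_eq_mul]
  have h1 : n + 2 * (d : ℤ) - (l.length : ℤ) = n - l.length + 2 * d := by ring
  rw [h1, pd_gc_mul hp, hf l]

/-- homogeneous components -/
def pd_pr (T : TAlg k I) (n : ℤ) (f : List T.A → MvPolynomial σ k) : List T.A → MvPolynomial σ k :=
  fun l => gc (n - l.length) (f l)

lemma pd_pr_tl (n : ℤ) (f : List T.A → MvPolynomial σ k) (a : T.A) :
    tl T (pd_pr T n f) a = pd_pr T (n - 1) (tl T f a) := by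
  funext l
  simp only [tl, pd_pr, List.length_cons]
  push_cast
  rw [sub_sub, add_comm 1]

lemma pd_pr_act (n : ℤ) (f : List T.A → MvPolynomial σ k) (a : T.A) :
    act T (pd_pr T n f) a = pd_pr T n (act T f a) := by
  funext l
  cases l with
  | nil => simp [act, pd_pr]
  | cons x l => simp [act, pd_pr]

lemma pd_pr_dd (n : ℤ) (l : List T.A) (f : List T.A → MvPolynomial σ k) :
    dd T l (pd_pr T n f) = gc (n + 1 - l.length) (dd T l f) := by
  induction l generalizing n f with
  | nil => simp [dd]
  | cons a l ih =>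
    simp only [dd, pd_pr_tl, ih, pd_pr_act, map_sub, map_neg, List.length_cons]
    simp only [pd_pr]
    push_cast
    congr 3
    · ring_nf
    · ring_nf

lemma pd_pr_b (n : ℤ) (f : List T.A → MvPolynomial σ k) :
    b T (pd_pr T n f) = pd_pr T (n + 1) (b T f) := by
  funext l
  cases l with
  | nil => simp [b, pd_pr]
  | cons a l =>
    simp only [b, pd_pr_dd, pd_pr, map_add, map_smul, List.length_cons]
    push_cast
    congr 4
    ring

lemma pd_pr_h (n : ℤ) (i : I) (l : List T.A) (f : List T.A → MvPolynomial σ k) :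
    hh T i l (pd_pr T n f) = gc (n - 1 - l.length) (hh T i l f) := by
  induction l generalizing n f with
  | nil => simp [hh, pd_pr]
  | cons a l ih =>
    have e1 : n - ((((T.K i : T.A) :: (a :: l).map (T.adi i)).length : ℕ) : ℤ)
        = n - 1 - ((a :: l).length : ℤ) := by
      simp only [List.length_cons, List.length_map]; push_cast; ring
    have e2 : n - 1 - 1 - (l.length : ℤ) = n - 1 - ((a :: l).length : ℤ) := by
      simp only [List.length_cons]; push_cast; ring
    simp only [hh, pd_pr_tl, ih, map_sub]
    rw [e2]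
    simp only [pd_pr]
    rw [e1]

lemma pd_pr_D (n : ℤ) (f : List T.A → MvPolynomial σ k) {ξ : I → MvPolynomial σ k}
    (hξ : ∀ i, (ξ i).IsHomogeneous 1) :
    pd_pr T (n + 1) (PC.D T ξ f) = PC.D T ξ (pd_pr T n f) := by
  funext l
  have h1 := congrFun (pd_pr_b n f) l
  show gc (n + 1 - l.length) (b T f l + ∑ i, ξ i * h T i f l) =
    b T (pd_pr T n f) l + ∑ i, ξ i * h T i (pd_pr T n f) l
  rw [h1, map_add, map_sum]
  congr 1
  refine Finset.sum_congr rfl fun i _ => ?_
  have h2 : h T i (pd_pr T n f) l = gc (n - 1 - l.length) (h T i f l) := pd_pr_h n i l f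
  have h3 := pd_gc_mul (hξ i) (n - 1 - l.length) (h T i f l)
  have h4 : n - 1 - (l.length : ℤ) + 2 * ((1 : ℕ) : ℤ) = n + 1 - l.length := by push_cast; ring
  rw [h4] at h3
  rw [h2, h3]

theorem Hom.D {n : ℤ} {f : List T.A → MvPolynomial σ k} (hf : Hom T n f)
    {ξ : I → MvPolynomial σ k} (hξ : ∀ i, (ξ i).IsHomogeneous 1) : Hom T (n + 1) (PC.D T ξ f) := by
  have h1 : pd_pr T n f = f := funext hf
  have h2 := pd_pr_D n f hξ
  rw [h1] at h2
  exact fun l => congrFun h2 l

theorem Hom.cup {m n : ℤ} {f g : List T.A → MvPolynomial σ k} (hf : Hom T m f)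
    (hg : Hom T n g) : Hom T (m + n) (PC.cup T f g) := by
  intro l
  induction l generalizing f m with
  | nil =>
    have h1 := hf []
    have h2 := hg []
    rw [List.length_nil, Nat.cast_zero, sub_zero] at h1 h2 ⊢
    exact pd_gc_mul_self h1 h2
  | cons a l ih =>
    have h0 : Hom T (m - 1) (tl T f a) := by
      intro l'
      have h1 := hf (a :: l')
      rw [List.length_cons] at h1
      push_cast at h1
      have h2 : m - 1 - (l'.length : ℤ) = m - ((l'.length : ℤ) + 1) := by ring
      rw [h2]
      exact h1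
    have h1 := ih h0
    have h2 := hf []
    rw [List.length_nil, Nat.cast_zero, sub_zero] at h2
    have h3 := pd_gc_mul_self h2 (hg (a :: l))
    have h4 : m + n - ((a :: l).length : ℤ) = m + (n - ((a :: l).length : ℤ)) := by ring
    have h5 : m + (n - ((a :: l).length : ℤ)) = m - 1 + n - (l.length : ℤ) := by
      rw [List.length_cons]
      push_cast
      ring
    rw [pd_cup_cons, map_add, h4, h3, h5, h1]

theorem Hom.unit : Hom T 0 (PC.unit T (MvPolynomial σ k)) := by
  intro l
  cases l with
  | nil =>
    show gc (0 - ((0 : ℕ) : ℤ)) (1 : MvPolynomial σ k) = 1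
    have h1 : (0 - ((0 : ℕ) : ℤ)) = 2 * ((0 : ℕ) : ℤ) := by norm_num
    rw [h1, gc_even]
    have h2 := homogeneousComponent_of_mem (n := 0) (m := 0) (p := (1 : MvPolynomial σ k))
      ((mem_homogeneousSubmodule _ _).2 (isHomogeneous_one σ k))
    rw [h2, if_pos rfl]
  | cons a l => exact map_zero _

/-- homogeneous components of cochains -/
def pr (n : ℤ) (f : List T.A → MvPolynomial σ k) : List T.A → MvPolynomial σ k :=
  fun l => gc (n - l.length) (f l)

theorem pr_hom (n : ℤ) (f : List T.A → MvPolynomial σ k) : Hom T n (pr n f) := by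
  intro l
  show gc (n - l.length) (gc (n - l.length) (f l)) = gc (n - l.length) (f l)
  rw [gc_gc, if_pos rfl]

theorem pr_mem (n : ℤ) {f : List T.A → MvPolynomial σ k} (hf : f ∈ Coc T (MvPolynomial σ k)) :
    pr n f ∈ Coc T (MvPolynomial σ k) := by
  refine ⟨⟨fun l₁ l₂ a b => ?_, fun l₁ l₂ t a => ?_⟩, fun i l => ?_⟩
  · have h1 : ∀ c : T.A, (l₁ ++ c :: l₂).length = l₁.length + (l₂.length + 1) := by
      intro c
      rw [List.length_append, List.length_cons]
    show gc (n - ((l₁ ++ (a + b) :: l₂).length : ℤ)) (f _) =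
      gc (n - ((l₁ ++ a :: l₂).length : ℤ)) (f _) + gc (n - ((l₁ ++ b :: l₂).length : ℤ)) (f _)
    rw [h1, h1, h1, hf.1.1, map_add]
  · have h1 : ∀ c : T.A, (l₁ ++ c :: l₂).length = l₁.length + (l₂.length + 1) := by
      intro c
      rw [List.length_append, List.length_cons]
    show gc (n - ((l₁ ++ (t • a) :: l₂).length : ℤ)) (f _) =
      t • gc (n - ((l₁ ++ a :: l₂).length : ℤ)) (f _)
    rw [h1, h1, hf.1.2, map_smul]
  · show gc (n - ((l.map (T.adi i)).length : ℤ)) (f _) = gc (n - (l.length : ℤ)) (f _)
    rw [List.length_map, hf.2]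

theorem pr_D (n : ℤ) (f : List T.A → MvPolynomial σ k) {ξ : I → MvPolynomial σ k}
    (hξ : ∀ i, (ξ i).IsHomogeneous 1) : pr (n + 1) (PC.D T ξ f) = PC.D T ξ (pr n f) :=
  pd_pr_D n f hξ

/-- the sign on homogeneous cochains depends on the degree only -/
theorem Hom.sg {n : ℤ} {f : List T.A → MvPolynomial σ k} (hf : Hom T n f) :
    PC.sg T f = (if n % 2 = 0 then (1 : MvPolynomial σ k) else -1) • f := by
  funext l
  show (-1) ^ l.length * f l = (if n % 2 = 0 then (1 : MvPolynomial σ k) else -1) * f l
  by_cases h0 : (n - (l.length : ℤ)) % 2 = 0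
  · congr 1
    rcases Nat.even_or_odd l.length with he | ho
    · rw [he.neg_one_pow, if_pos]
      obtain ⟨r, hr⟩ := he
      omega
    · rw [ho.neg_one_pow, if_neg]
      obtain ⟨r, hr⟩ := ho
      omega
  · have h1 := hf l
    rw [gc_of_not (fun h => h0 h.2)] at h1
    rw [← h1, mul_zero, mul_zero]

end graded

end PC

end Pool.Agent.Lib.QG
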