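import Pool.Agent.Lib.MP_021f05_al.ChevReg
import Pool.Agent.Lib.MP_021f05_al.KosDef
import Pool.Agent.Lib.MP_021f05_al.PureH
import Pool.Agent.Lib.MP_021f05_al.PureD

/-!
# MP_021f05_al (G7, part A): the mapping cone over the full polynomial ring
-/

noncomputable section

namespace Pool.Agent.Lib.QG

open MvPolynomial

namespace KF

variable {k : Type} [Field k]

theorem gc_mul_hom {σ : Type} (m : ℤ) {d : ℕ} {f : MvPolynomial σ k} (hf : f.IsHomogeneous d)
    (p : MvPolynomial σ k) : gc (m + 2 * d) (f * p) = f * gc m p := by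
  rcases gc_cases m with ⟨a, rfl⟩ | hm
  · rw [gc_even]
    have : (2 * a + 2 * d : ℤ) = 2 * ((a + d : ℕ) : ℤ) := by push_cast; ring
    rw [this, gc_even, mul_comm f p, mul_comm f, ChevThm.hc_mul (a + d) hf p, if_pos (by omega)]
    simp
  · rw [gc_of_not hm, mul_zero]
    by_cases h : 0 ≤ m + 2 * d ∧ (m + 2 * d) % 2 = 0
    · obtain ⟨a, ha⟩ : ∃ a : ℕ, m + 2 * d = 2 * a := ⟨((m + 2 * d) / 2).toNat, by omega⟩
      rw [ha, gc_even, mul_comm f p, ChevThm.hc_mul a hf p, if_neg (by omega)]
    · rw [gc_of_not h]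

theorem gc_hom {σ : Type} {m : ℤ} {p : MvPolynomial σ k} (h : gc m p = p) (hp : p ≠ 0) :
    ∃ d : ℕ, m = 2 * d ∧ p.IsHomogeneous d := by
  rcases gc_cases m with ⟨a, rfl⟩ | hm
  · refine ⟨a, rfl, ?_⟩
    rw [gc_even] at h
    rw [← h]
    exact homogeneousComponent_isHomogeneous a p
  · rw [gc_of_not hm] at h
    exact absurd h.symm hp

theorem gc_self {σ : Type} {d : ℕ} {p : MvPolynomial σ k} (h : p.IsHomogeneous d) :
    gc (2 * d : ℤ) p = p := by
  rw [gc_even, homogeneousComponent_eq_self h]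

theorem gc_idem {σ : Type} (m : ℤ) (p : MvPolynomial σ k) : gc m (gc m p) = gc m p := by
  rw [gc_gc, if_pos rfl]

section kd

variable {R : Type} [CommRing R] {r : ℕ}

theorem kd_add (f : Fin r → R) (u v : Finset (Fin r) → R) : kd f (u + v) = kd f u + kd f v := by
  funext S
  simp only [kd, Pi.add_apply, mul_add, Finset.sum_add_distrib]

/-- the Koszul differential of a function supported on the empty set vanishes -/
theorem kd_delta (f : Fin r → R) (p : R) : kd f (fun S => if S = ∅ then p else 0) = 0 := by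
  funext S
  simp only [kd, Pi.zero_apply]
  refine Finset.sum_eq_zero fun j _ => ?_
  rw [if_neg (Finset.insert_ne_empty _ _), mul_zero, mul_zero]

/-- function supported on singletons -/
def sng (g : Fin r → R) (S : Finset (Fin r)) : R := ∑ j, if S = {j} then g j else 0

theorem kd_sng (f g : Fin r → R) :
    kd f (sng g) = fun S => if S = ∅ then ∑ j, f j * g j else 0 := by
  classical
  funext S
  by_cases hS : S = ∅
  · subst hS
    simp only [kd, if_true, Finset.compl_empty, Finset.filter_empty, Finset.card_empty, pow_zero,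
      one_mul]
    refine Finset.sum_congr rfl fun j _ => ?_
    congr 1
    unfold sng
    rw [Finset.sum_eq_single j]
    · simp
    · intro b _ hb
      rw [if_neg]
      intro h
      have : j ∈ ({b} : Finset (Fin r)) := by rw [← h]; simp
      exact hb (Finset.mem_singleton.1 this).symm
    · intro h; exact absurd (Finset.mem_univ j) h
  · rw [if_neg hS]
    simp only [kd]
    refine Finset.sum_eq_zero fun j hj => ?_
    have : sng g (insert j S) = 0 := by
      unfold sng
      refine Finset.sum_eq_zero fun i _ => ?_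
      rw [if_neg]
      intro h
      obtain ⟨s, hs⟩ := Finset.nonempty_iff_ne_empty.2 hS
      have h1 : s ∈ ({i} : Finset (Fin r)) := by rw [← h]; exact Finset.mem_insert_of_mem hs
      have h2 : j ∈ ({i} : Finset (Fin r)) := by rw [← h]; exact Finset.mem_insert_self _ _
      rw [Finset.mem_singleton] at h1 h2
      exact (Finset.mem_compl.1 hj) (by rw [h2, ← h1]; exact hs)
    rw [this, mul_zero, mul_zero]

end kd

section psi

variable {I : Type} {T : TAlg k I} {R : Type} [CommRing R] [Algebra k R] {r : ℕ}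

theorem Psi_add (β : Fin r → (List T.A → R)) (u v : Finset (Fin r) → R) :
    PC.Psi β (u + v) = PC.Psi β u + PC.Psi β v := by
  unfold PC.Psi
  rw [← Finset.sum_add_distrib]
  refine Finset.sum_congr rfl fun S _ => ?_
  rw [Pi.add_apply, add_smul]

theorem cupS_empty (β : Fin r → (List T.A → R)) : PC.cupS β ∅ = PC.unit T R := by
  unfold PC.cupS
  simp

theorem Psi_delta (β : Fin r → (List T.A → R)) (p : R) :
    PC.Psi β (fun S => if S = ∅ then p else 0) = p • PC.unit T R := by
  classical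
  unfold PC.Psi
  rw [Finset.sum_eq_single ∅]
  · simp [cupS_empty]
  · intro S _ hS; simp [hS]
  · intro h; exact absurd (Finset.mem_univ _) h

theorem Psi_zero (β : Fin r → (List T.A → R)) : PC.Psi β 0 = 0 := by
  unfold PC.Psi
  exact Finset.sum_eq_zero fun S _ => by rw [Pi.zero_apply, zero_smul]

end psi

section S

variable {I : Type} [Fintype I] {T : TAlg k I} {σ : Type} {r : ℕ}

theorem hom_smul' {n m : ℤ} {f : List T.A → MvPolynomial σ k} (hf : PC.Hom T n f)
    {p : MvPolynomial σ k} (hp : gc m p = p) : PC.Hom T (n + m) (p • f) := by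
  by_cases h : p = 0
  · subst h
    intro l
    rw [zero_smul, Pi.zero_apply, map_zero]
  · obtain ⟨d, hd, hh⟩ := gc_hom hp h
    rw [hd]
    exact hf.smul hh

theorem hom_zero (n : ℤ) : PC.Hom T n (0 : List T.A → MvPolynomial σ k) := fun l => by
  rw [Pi.zero_apply, map_zero]

theorem hom_sum {n : ℤ} {ι : Type} (s : Finset ι) (f : ι → List T.A → MvPolynomial σ k)
    (h : ∀ i ∈ s, PC.Hom T n (f i)) : PC.Hom T n (∑ i ∈ s, f i) := by
  classical
  induction s using Finset.induction_on with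
  | empty => rw [Finset.sum_empty]; exact hom_zero n
  | insert a s ha ih =>
    rw [Finset.sum_insert ha]
    exact (h a (Finset.mem_insert_self _ _)).add
      (ih fun i hi => h i (Finset.mem_insert_of_mem hi))

theorem Psi_hom {β : Fin r → (List T.A → MvPolynomial σ k)} {e : Fin r → ℤ}
    (h : ∀ j, PC.Hom T (e j) (β j)) (n : ℤ) (v : Finset (Fin r) → MvPolynomial σ k)
    (hv : ∀ S, gc (n - ∑ j ∈ S, e j) (v S) = v S) : PC.Hom T n (PC.Psi β v) := by
  unfold PC.Psi
  refine hom_sum _ _ fun S _ => ?_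
  have := hom_smul' (PC.cupS_hom h S) (hv S)
  rwa [add_sub_cancel] at this

theorem Psi_mem {β : Fin r → (List T.A → MvPolynomial σ k)}
    (h : ∀ j, β j ∈ PC.Coc T (MvPolynomial σ k)) (v : Finset (Fin r) → MvPolynomial σ k) :
    PC.Psi β v ∈ PC.Coc T (MvPolynomial σ k) :=
  Submodule.sum_mem _ fun S _ => Submodule.smul_mem _ _ (PC.cupS_mem h S)

theorem D_sub {ξ : I → MvPolynomial σ k} (f g : List T.A → MvPolynomial σ k) :
    PC.D T ξ (f - g) = PC.D T ξ f - PC.D T ξ g := by
  have h1 : f - g = f + (-1 : MvPolynomial σ k) • g := by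
    rw [neg_one_smul]; abel
  rw [h1, PC.D_add, PC.D_smul, neg_one_smul]; abel

theorem D_zero' {ξ : I → MvPolynomial σ k} :
    PC.D T ξ (0 : List T.A → MvPolynomial σ k) = 0 := by
  have := D_sub (ξ := ξ) (0 : List T.A → MvPolynomial σ k) 0
  rwa [sub_self, sub_self] at this

theorem hom_sub {n : ℤ} {f g : List T.A → MvPolynomial σ k} (hf : PC.Hom T n f)
    (hg : PC.Hom T n g) : PC.Hom T n (f - g) := fun l => by
  rw [Pi.sub_apply, map_sub, hf l, hg l]

theorem hom_neg_zero {n : ℤ} (hn : n < 0) {f : List T.A → MvPolynomial σ k}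
    (hf : PC.Hom T n f) : f = 0 := by
  funext l
  rw [← hf l, gc_of_not (by omega)]; rfl

theorem sg_odd {n : ℤ} (hn : n % 2 = 1) {f : List T.A → MvPolynomial σ k}
    (hf : PC.Hom T n f) : PC.sg T f = - f := by
  rw [hf.sg, if_neg (by omega), neg_one_smul]

end S

/-- acyclicity of the cone over the polynomial ring `S` itself -/
theorem cone_S {k : Type} [Field k] [CharZero k] {I : Type} [Fintype I] [DecidableEq I]
    (Q : QD k I) (hP : PureH Q) {r : ℕ} {f : Fin r → MvPolynomial I k} {m : Fin r → ℕ}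
    (h : IsBasic Q.toCDatum f m) (β : Fin r → (List Q.U.A → MvPolynomial I k))
    (hβ : ∀ a, β a ∈ PC.Coc Q.U (MvPolynomial I k)) (hh : ∀ a, PC.Hom Q.U (2 * m a - 1) (β a))
    (hD : ∀ a, PC.D Q.U X (β a) = f a • PC.unit Q.U (MvPolynomial I k))
    (n : ℤ) (c : List Q.U.A → MvPolynomial I k) (u : Finset (Fin r) → MvPolynomial I k)
    (hc : c ∈ PC.Coc Q.U (MvPolynomial I k)) (hcn : PC.Hom Q.U n c)
    (hu : ∀ S, gc (n + 1 - ∑ j ∈ S, (2 * (m j : ℤ) - 1)) (u S) = u S)
    (hDc : PC.D Q.U X c = PC.Psi β u) (hku : kd f u = 0) :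
    ∃ (v : Finset (Fin r) → MvPolynomial I k) (c' : List Q.U.A → MvPolynomial I k),
      (∀ S, gc (n - ∑ j ∈ S, (2 * (m j : ℤ) - 1)) (v S) = v S) ∧
      c' ∈ PC.Coc Q.U (MvPolynomial I k) ∧
      PC.Hom Q.U (n - 1) c' ∧ kd f v = u ∧ c = PC.Psi β v + PC.D Q.U X c' := by
  classical
  have hsg : ∀ j, PC.sg Q.U (β j) = - β j := fun j => sg_odd (by omega) (hh j)
  have hDPsi : ∀ w : Finset (Fin r) → MvPolynomial I k,
      PC.D Q.U X (PC.Psi β w) = PC.Psi β (kd f w) := fun w => PC.D_Psi hβ f hD hsg w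
  obtain ⟨v0, p, hvp⟩ := kosz_exact f h.regular' u hku
  -- homogeneous components
  set v1 : Finset (Fin r) → MvPolynomial I k :=
    fun S => gc (n - ∑ j ∈ S, (2 * (m j : ℤ) - 1)) (v0 S) with hv1
  set p1 : MvPolynomial I k := gc (n + 1) p with hp1
  have hkv : ∀ (w : Finset (Fin r) → MvPolynomial I k) (S : Finset (Fin r)),
      gc (n + 1 - ∑ j ∈ S, (2 * (m j : ℤ) - 1)) (kd f w S)
        = kd f (fun S => gc (n - ∑ j ∈ S, (2 * (m j : ℤ) - 1)) (w S)) S := by
    intro w S
    simp only [kd, map_sum]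
    refine Finset.sum_congr rfl fun j hj => ?_
    have hj' : j ∉ S := Finset.mem_compl.1 hj
    have e1 : gc (n + 1 - ∑ j ∈ S, (2 * (m j : ℤ) - 1)) (f j * w (insert j S))
        = f j * gc (n - ∑ j ∈ insert j S, (2 * (m j : ℤ) - 1)) (w (insert j S)) := by
      rw [← gc_mul_hom _ (h.homog j)]
      congr 1
      rw [Finset.sum_insert hj']; ring
    rw [← e1]
    rcases neg_one_pow_eq_or (MvPolynomial I k) (S.filter (· < j)).card with h1 | h1 <;> rw [h1]
    · rw [one_mul, one_mul]
    · rw [neg_one_mul, neg_one_mul, map_neg]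
  have hu1 : u = kd f v1 + fun S => if S = ∅ then p1 else 0 := by
    funext S
    rw [← hu S, hvp, Pi.add_apply, map_add, hkv v0 S, Pi.add_apply]
    congr 1
    by_cases hS : S = ∅
    · subst hS; simp [hp1]
    · simp [hS]
  have hDp : PC.D Q.U X (c - PC.Psi β v1) = p1 • PC.unit Q.U (MvPolynomial I k) := by
    rw [D_sub, hDc, hDPsi, hu1, Psi_add, Psi_delta]; abel
  have hmem : c - PC.Psi β v1 ∈ PC.Coc Q.U (MvPolynomial I k) :=
    Submodule.sub_mem _ hc (Psi_mem hβ v1)
  have hpI := hP.ker hmem hDp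
  rw [h.invIdeal_eq] at hpI
  obtain ⟨g, hg⟩ := Ideal.mem_span_range_iff_exists_fun.1 hpI
  set g1 : Fin r → MvPolynomial I k := fun j => gc (n + 1 - 2 * m j) (g j) with hg1
  have hp2 : p1 = ∑ j, f j * g1 j := by
    have e0 : gc (n + 1) p1 = p1 := gc_idem _ _
    rw [← e0, ← hg, map_sum]
    refine Finset.sum_congr rfl fun j _ => ?_
    rw [hg1]
    rw [← gc_mul_hom _ (h.homog j)]
    rw [mul_comm (g j)]
    congr 1; ring
  set v2 : Finset (Fin r) → MvPolynomial I k := v1 + sng g1 with hv2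
  have hkv2 : kd f v2 = u := by
    rw [hv2, kd_add, kd_sng, ← hp2, ← hu1]
  have hgv2 : ∀ S, gc (n - ∑ j ∈ S, (2 * (m j : ℤ) - 1)) (v2 S) = v2 S := by
    intro S
    rw [hv2, Pi.add_apply, map_add]
    congr 1
    · exact gc_idem _ _
    · unfold sng
      rw [map_sum]
      refine Finset.sum_congr rfl fun j _ => ?_
      split_ifs with hS
      · subst hS
        rw [Finset.sum_singleton, hg1]
        have : n - (2 * (m j : ℤ) - 1) = n + 1 - 2 * m j := by ring
        rw [this]
        exact gc_idem _ _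
      · exact map_zero _
  have hmem2 : c - PC.Psi β v2 ∈ PC.Coc Q.U (MvPolynomial I k) :=
    Submodule.sub_mem _ hc (Psi_mem hβ v2)
  have hD2 : PC.D Q.U X (c - PC.Psi β v2) = 0 := by
    rw [D_sub, hDc, hDPsi, hkv2, sub_self]
  have hhom2 : PC.Hom Q.U n (c - PC.Psi β v2) := hom_sub hcn (Psi_hom hh n v2 hgv2)
  rcases lt_or_ge n 0 with hn | hn
  · have h0 := hom_neg_zero hn hhom2
    refine ⟨v2, 0, hgv2, Submodule.zero_mem _, hom_zero _, hkv2, ?_⟩
    rw [D_zero', add_zero]
    exact sub_eq_zero.1 h0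
  · rcases Int.emod_two_eq_zero_or_one n with hpar | hpar
    · obtain ⟨d, rfl⟩ : ∃ d : ℕ, n = 2 * d := ⟨(n / 2).toNat, by omega⟩
      obtain ⟨p', c', hp', hc', hch, he⟩ := hP.gen hmem2 hhom2 hD2
      refine ⟨v2 + fun S => if S = ∅ then p' else 0, c', ?_, hc', hch, ?_, ?_⟩
      · intro S
        rw [Pi.add_apply, map_add, hgv2 S]
        congr 1
        by_cases hS : S = ∅
        · subst hS
          simp only [if_true, Finset.sum_empty, sub_zero]
          exact gc_self hp'
        · simp [hS]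
      · rw [kd_add, kd_delta, add_zero, hkv2]
      · rw [Psi_add, Psi_delta]
        have : c = (c - PC.Psi β v2) + PC.Psi β v2 := by abel
        rw [this, he]; abel
    · obtain ⟨c', hc', hch, he⟩ := hP.odd hpar hmem2 hhom2 hD2
      refine ⟨v2, c', hgv2, hc', hch, hkv2, ?_⟩
      have : c = (c - PC.Psi β v2) + PC.Psi β v2 := by abel
      rw [this, he]; abel

end KF

end Pool.Agent.Lib.QG
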