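import Pool.Agent.Lib.MP_021f05_al.KosDef

/-!
# MP_021f05_al (G6): removing one polynomial variable
-/

noncomputable section

namespace Pool.Agent.Lib.QG

open MvPolynomial

namespace PC

section gcl

variable {k : Type} [Field k] {σ τ : Type}

lemma ks_hc_mul (d : ℕ) {f : MvPolynomial σ k} {m : ℕ} (hf : f.IsHomogeneous m)
    (c : MvPolynomial σ k) :
    homogeneousComponent d (f * c) = if m ≤ d then f * homogeneousComponent (d - m) c else 0 := by
  refine MvPolynomial.induction_on' c ?_ ?_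
  · intro u a
    have h1 : (monomial u a : MvPolynomial σ k) ∈ homogeneousSubmodule σ k u.degree :=
      isHomogeneous_monomial a rfl
    have h2 : (f * monomial u a : MvPolynomial σ k) ∈ homogeneousSubmodule σ k (m + u.degree) :=
      IsHomogeneous.mul hf h1
    rw [homogeneousComponent_of_mem h1, homogeneousComponent_of_mem h2]
    split_ifs with h3 h4 h5 h6 h7 <;> first | rfl | (exfalso; omega) | rw [mul_zero]
  · intro p q hp hq
    rw [mul_add, map_add, hp, hq, map_add]
    split_ifs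
    · rw [mul_add]
    · rw [add_zero]

/-- multiplication by a homogeneous polynomial shifts the components -/
lemma ks_gc_mul {d : ℕ} {p : MvPolynomial σ k} (hp : p.IsHomogeneous d) (m : ℤ)
    (q : MvPolynomial σ k) : gc (m + 2 * d) (p * q) = p * gc m q := by
  rcases gc_cases (m + 2 * d) with ⟨e, he⟩ | h
  · rw [he, gc_even, ks_hc_mul e hp]
    split_ifs with h1
    · have : m = 2 * ((e - d : ℕ) : ℤ) := by push_cast [h1]; linarith
      rw [this, gc_even]
    · rw [gc_of_not, mul_zero]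
      intro h2
      have h3 := h2.1
      omega
  · rw [gc_of_not h, gc_of_not, mul_zero]
    omega

lemma ks_hc_alg (φ : MvPolynomial σ k →ₐ[k] MvPolynomial τ k)
    (hφ : ∀ i, (φ (X i)).IsHomogeneous 1) (n : ℕ) (p : MvPolynomial σ k) :
    homogeneousComponent n (φ p) = φ (homogeneousComponent n p) := by
  refine MvPolynomial.induction_on' p ?_ ?_
  · intro u a
    have h1 : (monomial u a : MvPolynomial σ k) ∈ homogeneousSubmodule σ k u.degree :=
      isHomogeneous_monomial a rfl
    have h2 : φ (monomial u a : MvPolynomial σ k) ∈ homogeneousSubmodule τ k u.degree := by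
      have h3 : φ = aeval (fun i => φ (X i)) := MvPolynomial.aeval_unique φ
      rw [h3]
      have h4 := IsHomogeneous.aeval (show (monomial u a : MvPolynomial σ k).IsHomogeneous u.degree
        from h1) (fun i => φ (X i)) hφ
      rw [one_mul] at h4
      exact h4
    rw [homogeneousComponent_of_mem h1, homogeneousComponent_of_mem h2]
    split_ifs
    · rfl
    · rw [map_zero]
  · intro p q hp hq
    rw [map_add, map_add, hp, hq, map_add, map_add]

lemma ks_gc_alg (φ : MvPolynomial σ k →ₐ[k] MvPolynomial τ k)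
    (hφ : ∀ i, (φ (X i)).IsHomogeneous 1) (m : ℤ) (p : MvPolynomial σ k) :
    gc m (φ p) = φ (gc m p) := by
  rcases gc_cases m with ⟨e, rfl⟩ | h
  · rw [gc_even, gc_even, ks_hc_alg φ hφ]
  · rw [gc_of_not h, gc_of_not h, map_zero]

/-- elements with only one graded component are homogeneous -/
lemma ks_gc_fix {m : ℤ} {p : MvPolynomial σ k} (h : gc m p = p) :
    p = 0 ∨ ∃ d : ℕ, m = 2 * d ∧ p.IsHomogeneous d := by
  rcases gc_cases m with ⟨e, rfl⟩ | h1
  · right
    refine ⟨e, rfl, ?_⟩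
    rw [gc_even] at h
    rw [← h]
    exact homogeneousComponent_isHomogeneous e p
  · left
    rw [← h, gc_of_not h1]

lemma ks_gc_homog {d : ℕ} {p : MvPolynomial σ k} (h : p.IsHomogeneous d) :
    gc (2 * d : ℤ) p = p := by
  rw [gc_even]
  exact homogeneousComponent_eq_self h

variable {I : Type} {T : TAlg k I}

lemma ks_hom_bc (φ : MvPolynomial σ k →ₐ[k] MvPolynomial τ k)
    (hφ : ∀ i, (φ (X i)).IsHomogeneous 1) {n : ℤ} {f : List T.A → MvPolynomial σ k}
    (hf : Hom T n f) : Hom T n (bc T φ f) := by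
  intro l
  show gc (n - l.length) (φ (f l)) = φ (f l)
  rw [ks_gc_alg φ hφ, hf l]

lemma ks_hom_X {n : ℤ} {f : List T.A → MvPolynomial σ k} (hf : Hom T n f) (i : σ) :
    Hom T (n + 2) ((X i : MvPolynomial σ k) • f) := by
  intro l
  show gc (n + 2 - l.length) (X i * f l) = X i * f l
  have : n + 2 - l.length = n - l.length + 2 := by ring
  rw [this, gc_X_mul, hf l]

lemma ks_hom_neg {n : ℤ} {f : List T.A → MvPolynomial σ k} (hf : Hom T n f) : Hom T n (-f) := by
  intro l
  show gc (n - l.length) (-f l) = -f l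
  rw [map_neg, hf l]

/-- cancelling a variable -/
lemma ks_mem_of_X {i : σ} {f : List T.A → MvPolynomial σ k}
    (h : (X i : MvPolynomial σ k) • f ∈ Coc T (MvPolynomial σ k)) :
    f ∈ Coc T (MvPolynomial σ k) := by
  obtain ⟨⟨h1, h2⟩, h3⟩ := h
  refine ⟨⟨fun l₁ l₂ a b => ?_, fun l₁ l₂ t a => ?_⟩, fun i' l => ?_⟩
  · have := h1 l₁ l₂ a b
    simp only [Pi.smul_apply, smul_eq_mul, ← mul_add] at this
    exact mul_left_cancel₀ (X_ne_zero i) this
  · have := h2 l₁ l₂ t a
    simp only [Pi.smul_apply, smul_eq_mul, ← mul_smul_comm] at this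
    exact mul_left_cancel₀ (X_ne_zero i) this
  · have := h3 i' l
    simp only [Pi.smul_apply, smul_eq_mul] at this
    exact mul_left_cancel₀ (X_ne_zero i) this

lemma ks_hom_of_X {i : σ} {n : ℤ} {f : List T.A → MvPolynomial σ k}
    (h : Hom T (n + 2) ((X i : MvPolynomial σ k) • f)) : Hom T n f := by
  intro l
  have h1 := h l
  have : n + 2 - l.length = n - l.length + 2 := by ring
  simp only [Pi.smul_apply, smul_eq_mul] at h1
  rw [this, gc_X_mul] at h1
  exact mul_left_cancel₀ (X_ne_zero i) h1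

end gcl

section red

variable (k : Type) [Field k] {I : Type} (J : Set I) (j : I)

/-- setting `x_j = 0` -/
def ks_rpi : MvPolynomial (insert j J : Set I) k →ₐ[k] MvPolynomial J k :=
  open Classical in
  aeval fun i => if h : i.1 ∈ J then X ⟨i.1, h⟩ else 0

/-- the inclusion of the polynomial ring in fewer variables -/
def ks_rin : MvPolynomial J k →ₐ[k] MvPolynomial (insert j J : Set I) k :=
  rename fun i => ⟨i.1, Set.mem_insert_of_mem j i.2⟩

/-- the extra variable -/
abbrev ks_rx : MvPolynomial (insert j J : Set I) k := X ⟨j, Set.mem_insert j J⟩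

variable {k J j}

lemma ks_rpi_X_mem {i : (insert j J : Set I)} (h : i.1 ∈ J) :
    ks_rpi k J j (X i) = X ⟨i.1, h⟩ := by
  simp [ks_rpi, h]

lemma ks_rpi_X_not {i : (insert j J : Set I)} (h : i.1 ∉ J) :
    ks_rpi k J j (X i) = 0 := by
  simp [ks_rpi, h]

lemma ks_rpi_rin (p : MvPolynomial J k) : ks_rpi k J j (ks_rin k J j p) = p := by
  have : (ks_rpi k J j).comp (ks_rin k J j) = AlgHom.id k _ := by
    apply MvPolynomial.algHom_ext
    intro i
    simp [ks_rpi, ks_rin]
  exact DFunLike.congr_fun this p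

lemma ks_rpi_resJ (p : MvPolynomial I k) :
    ks_rpi k J j (resJ k (insert j J) p) = resJ k J p := by
  have : (ks_rpi k J j).comp (resJ k (insert j J)) = resJ k J := by
    apply MvPolynomial.algHom_ext
    intro i
    by_cases h : i ∈ J
    · have h' : i ∈ insert j J := Set.mem_insert_of_mem j h
      simp [ks_rpi, resJ, h]
    · by_cases h' : i ∈ insert j J
      · have h2 : i = j := by
          rcases h' with h' | h'
          · exact h'
          · exact absurd h' h
        subst h2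
        simp [ks_rpi, resJ, h]
      · simp [ks_rpi, resJ, h, h']
  exact DFunLike.congr_fun this p

lemma ks_rpi_xJ (i : I) : ks_rpi k J j (xJ k (insert j J) i) = xJ k J i := by
  unfold xJ
  by_cases h : i ∈ J
  · have h' : i ∈ insert j J := Set.mem_insert_of_mem j h
    rw [dif_pos h, dif_pos h', ks_rpi_X_mem (i := ⟨i, h'⟩) h]
  · rw [dif_neg h]
    by_cases h' : i ∈ insert j J
    · rw [dif_pos h', ks_rpi_X_not (i := ⟨i, h'⟩) h]
    · rw [dif_neg h', map_zero]

lemma ks_rpi_homog (i : (insert j J : Set I)) : (ks_rpi k J j (X i)).IsHomogeneous 1 := by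
  by_cases h : i.1 ∈ J
  · rw [ks_rpi_X_mem h]; exact isHomogeneous_X k _
  · rw [ks_rpi_X_not h]; exact isHomogeneous_zero _ _ _

lemma ks_rin_homog (i : J) : (ks_rin k J j (X i)).IsHomogeneous 1 := by
  simp only [ks_rin, rename_X]
  exact isHomogeneous_X k _

lemma ks_resJ_homog (J : Set I) (i : I) : (resJ k J (X i)).IsHomogeneous 1 := by
  by_cases h : i ∈ J
  · simp only [resJ, aeval_X, dif_pos h]; exact isHomogeneous_X k _
  · simp only [resJ, aeval_X, dif_neg h]; exact isHomogeneous_zero _ _ _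

/-- the kernel of `x_j ↦ 0` is generated by `x_j` -/
lemma ks_exists_div (p : MvPolynomial (insert j J : Set I) k) :
    ∃ q, p = ks_rx k J j * q + ks_rin k J j (ks_rpi k J j p) := by
  induction p using MvPolynomial.induction_on with
  | C a =>
    refine ⟨0, ?_⟩
    rw [mul_zero, zero_add]
    have h1 : ks_rpi k J j (C a) = C a := (ks_rpi k J j).commutes a
    have h2 : ks_rin k J j (C a) = C a := (ks_rin k J j).commutes a
    rw [h1, h2]
  | add p q hp hq =>
    obtain ⟨a, ha⟩ := hp
    obtain ⟨b, hb⟩ := hq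
    refine ⟨a + b, ?_⟩
    rw [map_add, map_add, mul_add]
    nth_rewrite 1 [ha]
    nth_rewrite 1 [hb]
    ring
  | mul_X p i hp =>
    obtain ⟨a, ha⟩ := hp
    by_cases h : i.1 ∈ J
    · refine ⟨a * X i, ?_⟩
      rw [map_mul, map_mul, ks_rpi_X_mem h]
      have : ks_rin k J j (X ⟨i.1, h⟩) = X i := by simp [ks_rin]
      rw [this]
      nth_rewrite 1 [ha]
      ring
    · have hij : i = ⟨j, Set.mem_insert j J⟩ := by
        have h2 : i.1 = j := by
          rcases i.2 with h' | h'
          · exact h'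
          · exact absurd h' h
        exact Subtype.ext h2
      refine ⟨p, ?_⟩
      rw [map_mul, ks_rpi_X_not h, mul_zero, map_zero, add_zero, hij]
      ring

lemma ks_exists_div' {p : MvPolynomial (insert j J : Set I) k} (h : ks_rpi k J j p = 0) :
    ∃ q, p = ks_rx k J j * q := by
  obtain ⟨q, hq⟩ := ks_exists_div p
  refine ⟨q, ?_⟩
  rw [h, map_zero, add_zero] at hq
  exact hq

end red

variable {k : Type} [Field k] {I : Type} {T : TAlg k I} {r : ℕ}

lemma ks_xJ_homog (J : Set I) (i : I) : (xJ k J i).IsHomogeneous 1 := by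
  unfold xJ
  split_ifs with h
  · exact isHomogeneous_X k _
  · exact isHomogeneous_zero _ _ _

lemma ks_resJ_X (J : Set I) (i : I) : resJ k J (X i) = xJ k J i := by
  unfold xJ
  by_cases h : i ∈ J
  · simp [resJ, h]
  · simp [resJ, h]

/-! ### the Koszul differential -/

section kd

variable {R : Type} [CommRing R]

lemma ks_kd_add (f : Fin r → R) (u v : Finset (Fin r) → R) : kd f (u + v) = kd f u + kd f v := by
  funext S
  simp only [kd, Pi.add_apply, mul_add, Finset.sum_add_distrib]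

lemma ks_kd_smul (f : Fin r → R) (x : R) (u : Finset (Fin r) → R) : kd f (x • u) = x • kd f u := by
  funext S
  simp only [kd, Pi.smul_apply, smul_eq_mul, Finset.mul_sum]
  refine Finset.sum_congr rfl fun j _ => ?_
  ring

lemma ks_kd_sub (f : Fin r → R) (u v : Finset (Fin r) → R) : kd f (u - v) = kd f u - kd f v := by
  funext S
  simp only [kd, Pi.sub_apply, mul_sub, Finset.sum_sub_distrib]

lemma ks_kd_map {R' : Type} [CommRing R'] (φ : R →+* R') (f : Fin r → R) (u : Finset (Fin r) → R)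
    (S : Finset (Fin r)) : kd (fun j => φ (f j)) (fun S => φ (u S)) S = φ (kd f u S) := by
  simp only [kd, map_sum, map_mul, map_pow, map_neg, map_one]

lemma ks_Psi_add [Algebra k R] (β : Fin r → (List T.A → R)) (u v : Finset (Fin r) → R) :
    Psi β (u + v) = Psi β u + Psi β v := by
  simp only [Psi, Pi.add_apply, add_smul, Finset.sum_add_distrib]

lemma ks_Psi_sub [Algebra k R] (β : Fin r → (List T.A → R)) (u v : Finset (Fin r) → R) :
    Psi β (u - v) = Psi β u - Psi β v := by
  simp only [Psi, Pi.sub_apply, sub_smul, Finset.sum_sub_distrib]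

lemma ks_Psi_smul [Algebra k R] (β : Fin r → (List T.A → R)) (x : R) (u : Finset (Fin r) → R) :
    Psi β (x • u) = x • Psi β u := by
  simp only [Psi, Pi.smul_apply, smul_eq_mul, mul_smul, Finset.smul_sum]

end kd

variable [Fintype I] [DecidableEq I]

/-- the map `S → k[x_j : j ∈ J]` applied to cochains -/
def cJ (T : TAlg k I) (J : Set I) (g : List T.A → MvPolynomial I k) :
    List T.A → MvPolynomial J k := bc T (resJ k J) g

lemma ks_D_cJ (J : Set I) (g : List T.A → MvPolynomial I k) :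
    cJ T J (D T X g) = D T (xJ k J) (cJ T J g) := by
  unfold cJ
  rw [bc_D]
  congr 1
  funext i
  exact ks_resJ_X J i

section fam

variable {J : Set I} {f : Fin r → MvPolynomial I k}
  {β : Fin r → (List T.A → MvPolynomial I k)} {m : Fin r → ℕ}

lemma ks_cJ_mem (hβ : ∀ a, β a ∈ Coc T (MvPolynomial I k)) (a : Fin r) :
    cJ T J (β a) ∈ Coc T (MvPolynomial J k) := bc_mem _ (hβ a)

lemma ks_cJ_D (hD : ∀ a, D T X (β a) = f a • unit T (MvPolynomial I k)) (a : Fin r) :
    D T (xJ k J) (cJ T J (β a)) = resJ k J (f a) • unit T (MvPolynomial J k) := by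
  rw [← ks_D_cJ, hD a]
  funext l
  show resJ k J (f a * unit T (MvPolynomial I k) l) = resJ k J (f a) * unit T _ l
  rw [map_mul]
  congr 1
  exact congrFun (bc_unit (T := T) (resJ k J)) l

lemma ks_cJ_sg (hh : ∀ a, Hom T (2 * m a - 1) (β a)) (a : Fin r) :
    sg T (cJ T J (β a)) = - cJ T J (β a) := by
  have h1 : Hom T (2 * m a - 1) (cJ T J (β a)) := ks_hom_bc _ (ks_resJ_homog J) (hh a)
  rw [h1.sg, if_neg (by omega), neg_one_smul]

lemma ks_cJ_hom (hh : ∀ a, Hom T (2 * m a - 1) (β a)) (a : Fin r) :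
    Hom T (2 * m a - 1) (cJ T J (β a)) := ks_hom_bc _ (ks_resJ_homog J) (hh a)

end fam

lemma ks_D_sub {R : Type} [CommRing R] [Algebra k R] {ξ : I → R} (f g : List T.A → R) :
    D T ξ (f - g) = D T ξ f - D T ξ g := by
  have h := D_add (T := T) (ξ := ξ) (f - g) g
  rw [sub_add_cancel] at h
  rw [h, add_sub_cancel_right]

lemma ks_D_neg {R : Type} [CommRing R] [Algebra k R] {ξ : I → R} (f : List T.A → R) :
    D T ξ (-f) = - D T ξ f := by
  have h := D_smul (T := T) (ξ := ξ) (-1) f
  rwa [neg_one_smul, neg_one_smul] at h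

/-- homogeneity of the values of the Koszul differential -/
lemma ks_kd_gc {σ : Type} {f : Fin r → MvPolynomial σ k} {m : Fin r → ℕ}
    (hf : ∀ a, (f a).IsHomogeneous (m a)) (n : ℤ) (u : Finset (Fin r) → MvPolynomial σ k)
    (S : Finset (Fin r)) :
    gc (n + 1 - ∑ j ∈ S, (2 * (m j : ℤ) - 1)) (kd f u S) =
      kd f (fun S => gc (n - ∑ j ∈ S, (2 * (m j : ℤ) - 1)) (u S)) S := by
  simp only [kd, map_sum]
  refine Finset.sum_congr rfl fun j hj => ?_
  have hj' : j ∉ S := Finset.mem_compl.1 hj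
  have h1 : ∀ p : MvPolynomial σ k, ∀ a : ℤ, ∀ s : ℕ, gc a ((-1) ^ s * p) = (-1) ^ s * gc a p := by
    intro p a s
    rcases neg_one_pow_eq_or (MvPolynomial σ k) s with h | h <;> rw [h] <;> simp
  rw [h1]
  congr 1
  rw [Finset.sum_insert hj']
  have h2 : n + 1 - ∑ j ∈ S, (2 * (m j : ℤ) - 1)
      = n - ((2 * (m j : ℤ) - 1) + ∑ j ∈ S, (2 * (m j : ℤ) - 1)) + 2 * (m j : ℕ) := by
    ring
  rw [h2, ks_gc_mul (hf j)]

lemma ks_hom_sub {σ : Type} {n : ℤ} {f g : List T.A → MvPolynomial σ k} (hf : Hom T n f)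
    (hg : Hom T n g) : Hom T n (f - g) := by
  rw [sub_eq_add_neg]
  exact hf.add (ks_hom_neg hg)

/-- homogeneity of `Ψ` -/
lemma ks_Psi_hom {σ : Type} {β : Fin r → (List T.A → MvPolynomial σ k)} {e : Fin r → ℤ}
    (hβ : ∀ j, Hom T (e j) (β j)) {n : ℤ} {v : Finset (Fin r) → MvPolynomial σ k}
    (hv : ∀ S, gc (n - ∑ j ∈ S, e j) (v S) = v S) : Hom T n (Psi β v) := by
  intro l
  simp only [Psi, Finset.sum_apply, map_sum]
  refine Finset.sum_congr rfl fun S _ => ?_
  rcases ks_gc_fix (hv S) with h0 | ⟨d, hd, hhd⟩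
  · rw [h0, zero_smul]
    simp
  · have h1 := (cupS_hom hβ S).smul hhd
    have h2 : ∑ j ∈ S, e j + 2 * d = n := by
      rw [← hd]; ring
    rw [h2] at h1
    exact h1 l

theorem QI_step (J : Set I) (j : I) (hj : j ∉ J) (f : Fin r → MvPolynomial I k)
    (β : Fin r → (List T.A → MvPolynomial I k)) (m : Fin r → ℕ)
    (hf : ∀ a, (f a).IsHomogeneous (m a)) (hβ : ∀ a, β a ∈ Coc T (MvPolynomial I k))
    (hh : ∀ a, Hom T (2 * m a - 1) (β a))
    (hD : ∀ a, D T X (β a) = f a • unit T (MvPolynomial I k))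
    (h : QI T (insert j J) (fun a => resJ k (insert j J) (f a))
      (fun a => cJ T (insert j J) (β a)) (fun a => 2 * m a - 1)) :
    QI T J (fun a => resJ k J (f a)) (fun a => cJ T J (β a)) (fun a => 2 * m a - 1) := by
  intro n c u hc hcn hu hcu hku
  -- notation
  have hxi : (fun i => ks_rpi k J j (xJ k (insert j J) i)) = xJ k J := funext fun i => ks_rpi_xJ i
  have hDpi : ∀ g : List T.A → MvPolynomial (insert j J : Set I) k,
      bc T (ks_rpi k J j) (D T (xJ k (insert j J)) g) = D T (xJ k J) (bc T (ks_rpi k J j) g) := by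
    intro g
    rw [bc_D, hxi]
  have hbcβ : (fun a => bc T (ks_rpi k J j) (cJ T (insert j J) (β a))) = fun a => cJ T J (β a) := by
    funext a l
    exact ks_rpi_resJ _
  have hfpi : (fun a => ks_rpi k J j (resJ k (insert j J) (f a))) = fun a => resJ k J (f a) := by
    funext a
    exact ks_rpi_resJ _
  have hf' : ∀ a, (resJ k (insert j J) (f a)).IsHomogeneous (m a) := by
    intro a
    have h1 : resJ k (insert j J) = aeval (fun i => resJ k (insert j J) (X i)) :=
      MvPolynomial.aeval_unique _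
    have h2 := IsHomogeneous.aeval (hf a) (fun i => resJ k (insert j J) (X i))
      (ks_resJ_homog (insert j J))
    rw [← h1, one_mul] at h2
    exact h2
  have hDPsi := D_Psi (T := T) (ξ := xJ k (insert j J)) (β := fun a => cJ T (insert j J) (β a))
    (fun a => ks_cJ_mem hβ a) (fun a => resJ k (insert j J) (f a)) (fun a => ks_cJ_D hD a)
    (fun a => ks_cJ_sg hh a)
  -- lifts
  obtain ⟨c₁, hc₁⟩ : ∃ c₁, c₁ = bc T (ks_rin k J j) c := ⟨_, rfl⟩
  obtain ⟨u₁, hu₁⟩ : ∃ u₁ : Finset (Fin r) → MvPolynomial (insert j J : Set I) k,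
    u₁ = fun S => ks_rin k J j (u S) := ⟨_, rfl⟩
  have hc₁m : c₁ ∈ Coc T (MvPolynomial (insert j J : Set I) k) := by
    rw [hc₁]; exact bc_mem _ hc
  have hc₁h : Hom T n c₁ := by
    rw [hc₁]; exact ks_hom_bc _ ks_rin_homog hcn
  have hu₁h : ∀ S, gc (n + 1 - ∑ a ∈ S, (2 * (m a : ℤ) - 1)) (u₁ S) = u₁ S := by
    intro S
    rw [hu₁]
    show gc _ (ks_rin k J j (u S)) = ks_rin k J j (u S)
    rw [ks_gc_alg _ ks_rin_homog, hu S]
  have hpc₁ : bc T (ks_rpi k J j) c₁ = c := by
    funext l
    rw [hc₁]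
    exact ks_rpi_rin _
  have hpu₁ : (fun S => ks_rpi k J j (u₁ S)) = u := by
    funext S
    rw [hu₁]
    exact ks_rpi_rin _
  -- the defect w1
  have hw1 : ∀ l, ∃ q, D T (xJ k (insert j J)) c₁ l
      - Psi (fun a => cJ T (insert j J) (β a)) u₁ l = ks_rx k J j * q := by
    intro l
    apply ks_exists_div'
    rw [map_sub]
    have e1 : ks_rpi k J j (D T (xJ k (insert j J)) c₁ l) = D T (xJ k J) c l := by
      have := congrFun (hDpi c₁) l
      rw [hpc₁] at this
      exact this
    have e2 : ks_rpi k J j (Psi (fun a => cJ T (insert j J) (β a)) u₁ l)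
        = Psi (fun a => cJ T J (β a)) u l := by
      have := congrFun (bc_Psi (ks_rpi k J j) (fun a => cJ T (insert j J) (β a)) u₁) l
      rw [hbcβ, hpu₁] at this
      exact this
    rw [e1, e2, hcu, sub_self]
  choose w1 hw1 using hw1
  have hw1' : D T (xJ k (insert j J)) c₁ - Psi (fun a => cJ T (insert j J) (β a)) u₁
      = ks_rx k J j • w1 := funext hw1
  have hΨmem : ∀ v : Finset (Fin r) → MvPolynomial (insert j J : Set I) k,
      Psi (fun a => cJ T (insert j J) (β a)) v ∈ Coc T (MvPolynomial (insert j J : Set I) k) := by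
    intro v
    unfold Psi
    exact Submodule.sum_mem _ fun S _ => Submodule.smul_mem _ _ (cupS_mem (fun a => ks_cJ_mem hβ a) S)
  have hΨhom : ∀ (n : ℤ) (v : Finset (Fin r) → MvPolynomial (insert j J : Set I) k),
      (∀ S, gc (n - ∑ a ∈ S, (2 * (m a : ℤ) - 1)) (v S) = v S) →
      Hom T n (Psi (fun a => cJ T (insert j J) (β a)) v) := by
    intro n v hv
    exact ks_Psi_hom (fun a => ks_cJ_hom hh a) hv
  have hw1m : w1 ∈ Coc T (MvPolynomial (insert j J : Set I) k) := by
    apply ks_mem_of_X (i := ⟨j, Set.mem_insert j J⟩)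
    rw [← hw1']
    exact Submodule.sub_mem _ (D_mem hc₁m) (hΨmem u₁)
  have hw1h : Hom T (n - 1) w1 := by
    apply ks_hom_of_X (i := ⟨j, Set.mem_insert j J⟩)
    rw [← hw1']
    have e : n - 1 + 2 = n + 1 := by ring
    rw [e]
    exact ks_hom_sub (hc₁h.D (ks_xJ_homog _)) (hΨhom (n + 1) u₁ hu₁h)
  -- the defect w2
  have hw2 : ∀ S, ∃ q, kd (fun a => resJ k (insert j J) (f a)) u₁ S = ks_rx k J j * q := by
    intro S
    apply ks_exists_div'
    have e1 := ks_kd_map (ks_rpi k J j).toRingHom (fun a => resJ k (insert j J) (f a)) u₁ S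
    have e2 : ks_rpi k J j (kd (fun a => resJ k (insert j J) (f a)) u₁ S)
        = kd (fun a => ks_rpi k J j (resJ k (insert j J) (f a))) (fun S => ks_rpi k J j (u₁ S)) S :=
      e1.symm
    rw [e2, hfpi, hpu₁, hku]
    rfl
  choose w2 hw2 using hw2
  have hw2' : kd (fun a => resJ k (insert j J) (f a)) u₁ = ks_rx k J j • w2 := funext hw2
  have hw2h : ∀ S, gc (n - 1 + 1 - ∑ a ∈ S, (2 * (m a : ℤ) - 1)) (w2 S) = w2 S := by
    intro S
    apply mul_left_cancel₀ (X_ne_zero (R := k) (⟨j, Set.mem_insert j J⟩ : (insert j J : Set I)))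
    have e := ks_kd_gc hf' (n + 1) u₁ S
    have e3 : (fun S => gc (n + 1 - ∑ a ∈ S, (2 * (m a : ℤ) - 1)) (u₁ S)) = u₁ := funext hu₁h
    rw [e3, hw2] at e
    have e4 : n + 1 + 1 - ∑ a ∈ S, (2 * (m a : ℤ) - 1)
        = (n - 1 + 1 - ∑ a ∈ S, (2 * (m a : ℤ) - 1)) + 2 := by ring
    rw [e4, gc_X_mul] at e
    exact e
  have hcancelF : ∀ g g' : List T.A → MvPolynomial (insert j J : Set I) k,
      ks_rx k J j • g = ks_rx k J j • g' → g = g' := by
    intro g g' hg
    funext l
    exact mul_left_cancel₀ (X_ne_zero (R := k) (⟨j, Set.mem_insert j J⟩ : (insert j J : Set I)))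
      (congrFun hg l)
  have hcancelS : ∀ g g' : Finset (Fin r) → MvPolynomial (insert j J : Set I) k,
      ks_rx k J j • g = ks_rx k J j • g' → g = g' := by
    intro g g' hg
    funext l
    exact mul_left_cancel₀ (X_ne_zero (R := k) (⟨j, Set.mem_insert j J⟩ : (insert j J : Set I)))
      (congrFun hg l)
  have hD1 : D T (xJ k (insert j J)) (-w1) = Psi (fun a => cJ T (insert j J) (β a)) w2 := by
    apply hcancelF
    rw [← ks_Psi_smul, ← hw2', ← hDPsi u₁, ← D_smul, smul_neg, ← hw1', ks_D_neg, ks_D_sub, D_D hc₁m]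
    simp
  have hk2 : kd (fun a => resJ k (insert j J) (f a)) w2 = 0 := by
    apply hcancelS
    rw [← ks_kd_smul, ← hw2', kd_kd, smul_zero]
  obtain ⟨v, c', hv, hc'm, hc'h, hkv, hv'⟩ := h (n - 1) (-w1) w2 (Submodule.neg_mem _ hw1m)
    (ks_hom_neg hw1h) hw2h hD1 hk2
  have hkd2 : kd (fun a => resJ k (insert j J) (f a)) (u₁ - ks_rx k J j • v) = 0 := by
    rw [ks_kd_sub, ks_kd_smul, hkv, hw2', sub_self]
  have hD2 : D T (xJ k (insert j J)) (c₁ + ks_rx k J j • c')
      = Psi (fun a => cJ T (insert j J) (β a)) (u₁ - ks_rx k J j • v) := by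
    have e1 : D T (xJ k (insert j J)) c₁
        = ks_rx k J j • w1 + Psi (fun a => cJ T (insert j J) (β a)) u₁ := by
      rw [← hw1', sub_add_cancel]
    have e2 : D T (xJ k (insert j J)) c'
        = - w1 - Psi (fun a => cJ T (insert j J) (β a)) v := by
      rw [hv', add_sub_cancel_left]
    rw [D_add, D_smul, e1, e2, ks_Psi_sub, ks_Psi_smul, smul_sub, smul_neg]
    abel
  have hm2 : c₁ + ks_rx k J j • c' ∈ Coc T (MvPolynomial (insert j J : Set I) k) :=
    Submodule.add_mem _ hc₁m (Submodule.smul_mem _ _ hc'm)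
  have hh2 : Hom T n (c₁ + ks_rx k J j • c') := by
    refine hc₁h.add ?_
    have e := ks_hom_X hc'h ⟨j, Set.mem_insert j J⟩
    have e1 : n - 1 - 1 + 2 = n := by ring
    rw [e1] at e
    exact e
  have hg2 : ∀ S, gc (n + 1 - ∑ a ∈ S, (2 * (m a : ℤ) - 1)) ((u₁ - ks_rx k J j • v) S)
      = (u₁ - ks_rx k J j • v) S := by
    intro S
    show gc _ (u₁ S - ks_rx k J j * v S) = u₁ S - ks_rx k J j * v S
    rw [map_sub, hu₁h S]
    congr 1
    have e1 : n + 1 - ∑ a ∈ S, (2 * (m a : ℤ) - 1)
        = (n - 1 - ∑ a ∈ S, (2 * (m a : ℤ) - 1)) + 2 := by ring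
    rw [e1, gc_X_mul, hv S]
  obtain ⟨v', c'', hv'', hc''m, hc''h, hkv', hfin⟩ := h n (c₁ + ks_rx k J j • c')
    (u₁ - ks_rx k J j • v) hm2 hh2 hg2 hD2 hkd2
  have hpx : ks_rpi k J j (ks_rx k J j) = 0 := ks_rpi_X_not hj
  refine ⟨fun S => ks_rpi k J j (v' S), bc T (ks_rpi k J j) c'', ?_, bc_mem _ hc''m,
    ks_hom_bc _ ks_rpi_homog hc''h, ?_, ?_⟩
  · intro S
    show gc _ (ks_rpi k J j (v' S)) = ks_rpi k J j (v' S)
    rw [ks_gc_alg _ ks_rpi_homog, hv'' S]
  · funext S
    have e1 := ks_kd_map (ks_rpi k J j).toRingHom (fun a => resJ k (insert j J) (f a)) v' S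
    have e2 : ks_rpi k J j (kd (fun a => resJ k (insert j J) (f a)) v' S)
        = kd (fun a => ks_rpi k J j (resJ k (insert j J) (f a))) (fun S => ks_rpi k J j (v' S)) S :=
      e1.symm
    rw [hfpi, hkv'] at e2
    rw [← e2]
    show ks_rpi k J j (u₁ S - ks_rx k J j * v S) = u S
    rw [map_sub, map_mul, hpx, zero_mul, sub_zero]
    exact congrFun hpu₁ S
  · have e1 : bc T (ks_rpi k J j) (c₁ + ks_rx k J j • c') = c := by
      funext l
      show ks_rpi k J j (c₁ l + ks_rx k J j * c' l) = c l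
      rw [map_add, map_mul, hpx, zero_mul, add_zero]
      exact congrFun hpc₁ l
    rw [← e1, hfin, ← hDpi, ← hbcβ, ← bc_Psi]
    funext l
    exact map_add _ _ _

theorem QI_all (f : Fin r → MvPolynomial I k)
    (β : Fin r → (List T.A → MvPolynomial I k)) (m : Fin r → ℕ)
    (hf : ∀ a, (f a).IsHomogeneous (m a)) (hβ : ∀ a, β a ∈ Coc T (MvPolynomial I k))
    (hh : ∀ a, Hom T (2 * m a - 1) (β a))
    (hD : ∀ a, D T X (β a) = f a • unit T (MvPolynomial I k))
    (h : QI T Set.univ (fun a => resJ k Set.univ (f a))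
      (fun a => cJ T Set.univ (β a)) (fun a => 2 * m a - 1)) :
    QI T ∅ (fun a => resJ k ∅ (f a)) (fun a => cJ T ∅ (β a)) (fun a => 2 * m a - 1) := by
  have key : ∀ F : Finset I, QI T ((F : Set I)ᶜ) (fun a => resJ k ((F : Set I)ᶜ) (f a))
      (fun a => cJ T ((F : Set I)ᶜ) (β a)) (fun a => 2 * m a - 1) := by
    intro F
    induction F using Finset.induction_on with
    | empty =>
      have e : ((∅ : Finset I) : Set I)ᶜ = Set.univ := by simp
      rw [e]
      exact h
    | insert a F ha ih =>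
      apply QI_step _ a (by simp) f β m hf hβ hh hD
      have e : insert a (((insert a F : Finset I) : Set I)ᶜ) = (F : Set I)ᶜ := by
        ext x
        simp only [Finset.coe_insert, Set.mem_insert_iff, Set.mem_compl_iff, Finset.mem_coe,
          not_or]
        constructor
        · rintro (h1 | h1)
          · rw [h1]; exact ha
          · exact h1.2
        · intro h1
          by_cases h2 : x = a
          · exact Or.inl h2
          · exact Or.inr ⟨h2, h1⟩
      rw [e]
      exact ih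
  have h1 := key Finset.univ
  have e : ((Finset.univ : Finset I) : Set I)ᶜ = ∅ := by simp
  rw [e] at h1
  exact h1

end PC

end Pool.Agent.Lib.QG
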