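import Pool.Agent.Lib.MP_021f05_al.KosFinA
import Pool.Agent.Lib.MP_021f05_al.KosStep

/-!
# MP_021f05_al (G7, part B): change of the variable set
-/

noncomputable section

namespace Pool.Agent.Lib.QG

open MvPolynomial

namespace KF

variable {k : Type} [Field k] {I : Type}

/-- the inclusion `k[x_j : j ∈ J] → S` -/
def inJ (k : Type) [Field k] {I : Type} (J : Set I) : MvPolynomial J k →ₐ[k] MvPolynomial I k :=
  rename Subtype.val

theorem resJ_X (J : Set I) {i : I} (h : i ∈ J) : resJ k J (X i) = X ⟨i, h⟩ := by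
  simp [resJ, h]

theorem resJ_X' (J : Set I) {i : I} (h : i ∉ J) : resJ k J (X i) = 0 := by
  simp [resJ, h]

theorem resJ_inJ (J : Set I) (p : MvPolynomial J k) : resJ k J (inJ k J p) = p := by
  have : (resJ k J).comp (inJ k J) = AlgHom.id k _ := by
    apply MvPolynomial.algHom_ext
    intro j
    simp only [AlgHom.comp_apply, inJ, rename_X, AlgHom.id_apply]
    exact resJ_X J j.2
  exact DFunLike.congr_fun this p

theorem inJ_resJ_univ (p : MvPolynomial I k) : inJ k Set.univ (resJ k Set.univ p) = p := by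
  have : (inJ k (Set.univ : Set I)).comp (resJ k Set.univ) = AlgHom.id k _ := by
    apply MvPolynomial.algHom_ext
    intro j
    simp only [AlgHom.comp_apply, AlgHom.id_apply]
    rw [resJ_X _ (Set.mem_univ j)]
    simp [inJ]
  exact DFunLike.congr_fun this p

theorem gc_inJ (J : Set I) (m : ℤ) (p : MvPolynomial J k) : gc m (inJ k J p) = inJ k J (gc m p) := by
  rcases gc_cases m with ⟨d, rfl⟩ | hm
  · rw [gc_even, gc_even]
    have h2 : ∀ (q : MvPolynomial J k) (e : ℕ), q.IsHomogeneous e →
        homogeneousComponent d (inJ k J q) = inJ k J (homogeneousComponent d q) := by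
      intro q e hq
      have hq' : (inJ k J q).IsHomogeneous e := hq.rename_isHomogeneous
      rw [homogeneousComponent_of_mem hq, homogeneousComponent_of_mem hq']
      split_ifs
      · rfl
      · rw [map_zero]
    conv_lhs => rw [← sum_homogeneousComponent p]
    conv_rhs => rw [← sum_homogeneousComponent p]
    rw [map_sum, map_sum, map_sum, map_sum]
    refine Finset.sum_congr rfl fun e _ => ?_
    exact h2 _ e (homogeneousComponent_isHomogeneous e p)
  · rw [gc_of_not hm, gc_of_not hm, map_zero]

theorem gc_resJ (J : Set I) (m : ℤ) (p : MvPolynomial I k) : gc m (resJ k J p) = resJ k J (gc m p) := by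
  have key : ∀ (q : MvPolynomial I k) (e : ℕ), q.IsHomogeneous e → (resJ k J q).IsHomogeneous e := by
    intro q e hq
    have hX : ∀ i, (resJ k J (X i : MvPolynomial I k)).IsHomogeneous 1 := by
      intro i
      by_cases h : i ∈ J
      · rw [resJ_X J h]; exact isHomogeneous_X _ _
      · rw [resJ_X' J h]; exact isHomogeneous_zero _ _ _
    have h1 : resJ k J q = aeval (fun i => resJ k J (X i)) q :=
      DFunLike.congr_fun (aeval_unique (resJ k J)) q
    rw [h1]
    have := hq.aeval (fun i => resJ k J (X i : MvPolynomial I k)) (n := 1) hX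
    rwa [one_mul] at this
  rcases gc_cases m with ⟨d, rfl⟩ | hm
  · rw [gc_even, gc_even]
    have h2 : ∀ (q : MvPolynomial I k) (e : ℕ), q.IsHomogeneous e →
        homogeneousComponent d (resJ k J q) = resJ k J (homogeneousComponent d q) := by
      intro q e hq
      rw [homogeneousComponent_of_mem hq, homogeneousComponent_of_mem (key q e hq)]
      split_ifs
      · rfl
      · rw [map_zero]
    conv_lhs => rw [← sum_homogeneousComponent p]
    conv_rhs => rw [← sum_homogeneousComponent p]
    rw [map_sum, map_sum, map_sum, map_sum]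
    refine Finset.sum_congr rfl fun e _ => ?_
    exact h2 _ e (homogeneousComponent_isHomogeneous e p)
  · rw [gc_of_not hm, gc_of_not hm, map_zero]

theorem bc_bc {T : TAlg k I} {R R' R'' : Type} [CommRing R] [Algebra k R] [CommRing R']
    [Algebra k R'] [CommRing R''] [Algebra k R''] (φ : R →ₐ[k] R') (ψ : R' →ₐ[k] R'')
    (f : List T.A → R) : PC.bc T ψ (PC.bc T φ f) = PC.bc T (ψ.comp φ) f := rfl

theorem kd_map {R R' : Type} [CommRing R] [CommRing R'] {r : ℕ} (φ : R →+* R') (f : Fin r → R)
    (u : Finset (Fin r) → R) (S : Finset (Fin r)) :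
    φ (kd f u S) = kd (fun a => φ (f a)) (fun S => φ (u S)) S := by
  simp only [kd, map_sum, map_mul, map_pow, map_neg, map_one]

end KF

variable {k : Type} [Field k] [CharZero k] {I : Type} [Fintype I] [DecidableEq I] (Q : QD k I)

/-- the mapping cone over the full polynomial ring is acyclic -/
theorem QD.QI_univ' (hP : PureH Q) {r : ℕ} {f : Fin r → MvPolynomial I k} {m : Fin r → ℕ}
    (h : IsBasic Q.toCDatum f m) (β : Fin r → (List Q.U.A → MvPolynomial I k))
    (hβ : ∀ a, β a ∈ PC.Coc Q.U (MvPolynomial I k)) (hh : ∀ a, PC.Hom Q.U (2 * m a - 1) (β a))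
    (hD : ∀ a, PC.D Q.U X (β a) = f a • PC.unit Q.U (MvPolynomial I k)) :
    PC.QI Q.U Set.univ (fun a => resJ k Set.univ (f a))
      (fun a => PC.cJ Q.U Set.univ (β a)) (fun a => 2 * m a - 1) := by
  intro n c u hc hcn hu hDc hku
  have hbβ : ∀ a, PC.bc Q.U (KF.inJ k (Set.univ : Set I)) (PC.cJ Q.U Set.univ (β a)) = β a := by
    intro a
    funext l
    exact KF.inJ_resJ_univ (β a l)
  have hX : (fun i => KF.inJ k (Set.univ : Set I) (PC.xJ k Set.univ i)) = X := by
    funext i
    simp [PC.xJ, KF.inJ]
  obtain ⟨v, c', hv, hc', hcn', hkv, he⟩ := KF.cone_S Q hP h β hβ hh hD n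
    (PC.bc Q.U (KF.inJ k Set.univ) c) (fun S => KF.inJ k Set.univ (u S))
    (PC.bc_mem _ hc) (fun l => by
      show gc _ (KF.inJ k Set.univ (c l)) = KF.inJ k Set.univ (c l)
      rw [KF.gc_inJ, hcn l])
    (fun S => by rw [KF.gc_inJ, hu S])
    (by
      have h1 := PC.bc_D (T := Q.U) (KF.inJ k (Set.univ : Set I)) (ξ := PC.xJ k Set.univ) c
      rw [hX] at h1
      rw [← h1, hDc, PC.bc_Psi]
      congr 1
      funext a
      exact hbβ a)
    (by
      funext S
      have h1 := KF.kd_map (KF.inJ k (Set.univ : Set I)).toRingHom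
        (fun a => resJ k Set.univ (f a)) u S
      have h2 : kd (fun a => resJ k Set.univ (f a)) u S = 0 := by rw [hku]; rfl
      rw [h2, map_zero] at h1
      have h3 : (fun a => (KF.inJ k (Set.univ : Set I)).toRingHom (resJ k Set.univ (f a))) = f := by
        funext a; exact KF.inJ_resJ_univ (f a)
      rw [h3] at h1
      exact h1.symm)
  refine ⟨fun S => resJ k Set.univ (v S), PC.bc Q.U (resJ k Set.univ) c', fun S => ?_,
    PC.bc_mem _ hc', fun l => ?_, ?_, ?_⟩
  · rw [KF.gc_resJ, hv S]
  · show gc _ (resJ k Set.univ (c' l)) = resJ k Set.univ (c' l)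
    rw [KF.gc_resJ, hcn' l]
  · funext S
    have h1 := KF.kd_map (resJ k (Set.univ : Set I)).toRingHom f v S
    have h2 : kd f v S = KF.inJ k Set.univ (u S) := by rw [hkv]
    rw [h2] at h1
    have h3 : (resJ k (Set.univ : Set I)).toRingHom (KF.inJ k Set.univ (u S)) = u S :=
      KF.resJ_inJ Set.univ (u S)
    rw [h3] at h1
    exact h1.symm
  · have h1 : c = PC.bc Q.U (resJ k Set.univ) (PC.bc Q.U (KF.inJ k Set.univ) c) := by
      funext l; exact (KF.resJ_inJ Set.univ (c l)).symm
    rw [h1, he]
    have h2 : ∀ (a b : List Q.U.A → MvPolynomial I k), PC.bc Q.U (resJ k Set.univ) (a + b)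
        = PC.bc Q.U (resJ k Set.univ) a + PC.bc Q.U (resJ k Set.univ) b := by
      intro a b; funext l
      exact map_add _ _ _
    rw [h2, PC.bc_Psi, PC.bc_D]
    congr 1
    · congr 1
      funext i
      simp [PC.xJ, resJ]

end Pool.Agent.Lib.QG
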