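import Pool.Agent.Lib.MP_021f05_al.Ki
import Pool.Agent.Lib.MP_021f05_al.Khat
import Pool.Agent.Lib.MP_021f05_al.Chev

/-!
# MP_021f05_al (E15): the square of `x_i` on the unit class
-/

noncomputable section

namespace Pool.Agent.Lib.QG

open MvPolynomial

variable {k : Type} [Field k] [CharZero k] {I : Type} [Fintype I] [DecidableEq I] (Q : QD k I)

omit [CharZero k] [Fintype I] [DecidableEq I] in
private theorem L2_desc {T : TAlg k I} {M' M M'' N : Mod T} (S : ModSES M' M M'')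
    (f : M.X →ₗ[T.A] N.X) (h : ∀ x, f (S.i x) = 0) :
    ∃ g : M''.X →ₗ[T.A] N.X, ∀ x, g (S.p x) = f x := by
  have hle : LinearMap.ker S.p ≤ LinearMap.ker f := by
    intro x hx
    obtain ⟨y, rfl⟩ := (S.exact x).1 hx
    exact h y
  refine ⟨((LinearMap.ker S.p).liftQ f hle) ∘ₗ
    ((S.p.quotKerEquivOfSurjective S.surj).symm : M''.X →ₗ[T.A] _), fun x => ?_⟩
  have h1 : (S.p.quotKerEquivOfSurjective S.surj).symm (S.p x)
      = (LinearMap.ker S.p).mkQ x := by
    rw [LinearEquiv.symm_apply_eq]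
    rfl
  show ((LinearMap.ker S.p).liftQ f hle)
    ((S.p.quotKerEquivOfSurjective S.surj).symm (S.p x)) = f x
  rw [h1]
  exact Submodule.liftQ_apply _ _ _

omit [CharZero k] [DecidableEq I] in
private theorem L2_lin_smul {M : Type} [AddCommGroup M] [Module k M] [Module (MvPolynomial I k) M]
    [IsScalarTower k (MvPolynomial I k) M] (c : I → k) (e : M) :
    lin c • e = ∑ l, c l • ((X l : MvPolynomial I k) • e) := by
  unfold lin
  rw [Finset.sum_smul]
  refine Finset.sum_congr rfl fun l _ => ?_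
  rw [mul_smul, ← algebraMap_eq, algebraMap_smul]

omit [CharZero k] [Fintype I] [DecidableEq I] in
private theorem L2_X_comm {M : Type} [AddCommGroup M] [Module k M] [Module (MvPolynomial I k) M]
    [IsScalarTower k (MvPolynomial I k) M] (t : k) (i : I) (e : M) :
    (X i : MvPolynomial I k) • (t • e) = t • ((X i : MvPolynomial I k) • e) := by
  rw [← algebraMap_smul (MvPolynomial I k) t e, smul_smul, mul_comm, mul_smul, algebraMap_smul]

omit [CharZero k] [Fintype I] [DecidableEq I] in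
private theorem L2_gen {M : Type} [AddCommGroup M] [Module k M] [Module (MvPolynomial I k) M]
    [IsScalarTower k (MvPolynomial I k) M] (t : k) (i j : I) (a b : M)
    (h : ((X i : MvPolynomial I k) + t • X j) • a = 0)
    (h' : (X j : MvPolynomial I k) • a = (X i : MvPolynomial I k) • b) :
    (X i : MvPolynomial I k) • a = (-t) • ((X i : MvPolynomial I k) • b) := by
  rw [add_smul, smul_assoc, h'] at h
  rw [neg_smul]
  exact eq_neg_of_add_eq_zero_left h

omit [CharZero k] [Fintype I] [DecidableEq I] in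
private theorem L2_gen2 {M : Type} [AddCommGroup M] [Module k M] (s t : k) (a b : M)
    (h : a = s • b) (h' : a = (-t) • b) (hb : b ≠ 0) : s = -t := by
  have h1 : (s + t) • b = 0 := by
    rw [add_smul, ← h, h', neg_smul, neg_add_cancel]
  rcases smul_eq_zero.1 h1 with h2 | h2
  · exact eq_neg_of_add_eq_zero_left h2
  · exact absurd h2 hb

omit [CharZero k] [Fintype I] [DecidableEq I] in
private theorem L2_gen3 {M : Type} [AddCommGroup M] [Module (MvPolynomial I k) M]
    (p q : MvPolynomial I k) (u e : M) (h : p • p • u = e + p • q • u) :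
    (p * (p - q)) • u = e := by
  rw [mul_smul, sub_smul, smul_sub, h]
  abel

/-- restriction of `x_c · 1` to `A_i` -/
private theorem L2_ci (i : I) (c : I → k)
    (h : lin c • one Q.U ∈ IM.Ei (Set.mem_univ i) (Set.mem_univ i) 2
      (trivI Q Set.univ Set.univ i)) : c i = 0 := by
  have h1 : lin c • one Q.U ∈ EDeg (triv Q.U) 2 :=
    IM.Ei_le (Set.mem_univ i) (Set.mem_univ i) 2 (trivI Q Set.univ Set.univ i) h
  have h2 : Eres (incA Q (Set.mem_univ i) (Set.mem_univ i)) (triv Q.U) (lin c • one Q.U) = 0 :=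
    (IM.mem_Ei_two (Set.mem_univ i) (Set.mem_univ i)
      (Y := trivI Q Set.univ Set.univ i) h1).1 h
  have h3 : lin c • one (Q.Ai i) = 0 := by
    rw [← Eres_one (incA Q (Set.mem_univ i) (Set.mem_univ i)), ← map_smul, ← map_smul, h2,
      map_zero]
  exact (lin_smul_one_eq_zero_iff c).1 h3 i (Set.mem_singleton i) (Set.mem_singleton i)

/-- the comparison on `K̂` -/
private theorem L2_cj (i j : I) (hij : i ≠ j) (c : I → k) (hci : c i = 0) (D : KiD Q i)
    (y : I → E Q.K0) (hy1 : ∀ l, y l ∈ EDeg Q.K0 1)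
    (hy2 : ∀ l, Eδ Q.K0ses (y l) = (X l : MvPolynomial I k) • one Q.U)
    (hy3 : ∀ l l', l ≠ l' → Emap (Q.g0 l') (y l) = 0) (hy4 : ∀ l, Emap (Q.g0 l) (y l) ≠ 0)
    {w₁ w₃ : E D.K.M} (hw₃ : w₃ ∈ IM.Ei (Set.mem_univ i) (Set.mem_univ i) 3 D.K)
    (hp1 : Emap D.p w₁ = ∑ l, c l • y l)
    (hp3 : (X i : MvPolynomial I k) • y i = Emap D.p w₃ + (X i : MvPolynomial I k) • Emap D.p w₁) :
    c j = - (Q.a i j : k) := by
  obtain ⟨Kh, κ, S1, S2, -, hκ1, hκ2, hinj⟩ := Q.exists_Khat i j hij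
  have hS1 : ∀ e : E Q.K0, Emap S1.i (Emap κ e) = Emap (Q.g0 i) e := by
    intro e
    rw [Emap_comp]
    congr 1
    congr 1
    exact LinearMap.ext hκ1
  have hS2 : ∀ e : E Q.K0, Emap S2.i (Emap κ e) = Emap (Q.g0 j) e := by
    intro e
    rw [Emap_comp]
    congr 1
    congr 1
    exact LinearMap.ext hκ2
  -- `ŷ_l = 0` for the other `l`
  have hother : ∀ l, l ≠ i → l ≠ j → Emap κ (y l) = 0 := by
    intro l hli hlj
    refine hinj _ (Emap_mem κ (hy1 l)) ?_ ?_
    · rw [hS1, hy3 l i hli]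
    · rw [hS2, hy3 l j hlj]
  -- the class `w₃` dies on `K̂`
  have hker : ∀ x, (D.p.comp κ) (S1.i x) = 0 := by
    intro x
    rw [LinearMap.comp_apply, hκ1]
    exact (D.p_ker _).2 ⟨x, rfl⟩
  obtain ⟨g, hg⟩ := L2_desc S1 (D.p.comp κ) hker
  have hct : 0 ≤ Q.ct i (Q.dot j 0) := by
    rw [Q.dot_zero]
    have h1 : Q.ct i (-(Q.al j)) = - Q.a i j := by
      have h2 := ct_sub' (Q := Q) i 0 (Q.al j)
      rw [zero_sub] at h2
      rw [h2, ct_al']
      simp [CDatum.ct]
    rw [h1]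
    have := Q.nonpos i j hij
    omega
  have hwt : IsWt Q (Q.VL Set.univ i (Q.dot j 0)) := Q.VL_isWt Set.univ i _
  have hint : IsInt i (Q.VL Set.univ i (Q.dot j 0)) := Q.VL_isInt Set.univ (Set.mem_univ i) hct
  have hw3' : Emap g w₃ = 0 := by
    refine Ei_three_VL hct (Q.EVan_NV j (by norm_num)) (Q.EVan_NV j (by norm_num))
      ⟨Q.VL Set.univ i (Q.dot j 0), hwt, hint⟩ rfl ?_
    exact IM.Ei_map (Set.mem_univ i) (Set.mem_univ i) 3 (Y := D.K)
      (Z := ⟨Q.VL Set.univ i (Q.dot j 0), hwt, hint⟩) g hw₃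
  have hw3 : Emap κ (Emap D.p w₃) = 0 := by
    have h1 : D.p ∘ₗ κ = g ∘ₗ S1.p := LinearMap.ext fun x => (hg x).symm
    rw [Emap_comp, h1, ← Emap_comp, hw3', map_zero]
  -- first expression
  have hsum : ∑ l, c l • Emap κ (y l) = c j • Emap κ (y j) := by
    refine Finset.sum_eq_single j (fun l _ hlj => ?_) (fun h => absurd (Finset.mem_univ j) h)
    by_cases hli : l = i
    · rw [hli, hci, zero_smul]
    · rw [hother l hli hlj, smul_zero]
  have hk : ∀ (t : k) (e : E Q.K0), Emap κ (t • e) = t • Emap κ e := by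
    intro t e
    rw [← algebraMap_smul (MvPolynomial I k) t e, map_smul, algebraMap_smul]
  have hA : (X i : MvPolynomial I k) • Emap κ (y i)
      = c j • ((X i : MvPolynomial I k) • Emap κ (y j)) := by
    rw [← map_smul, hp3, map_add, hw3, zero_add, map_smul, hp1, map_sum]
    simp only [hk]
    rw [hsum, L2_X_comm]
  -- second expression
  have hxx : (X j : MvPolynomial I k) • y i = (X i : MvPolynomial I k) • y j := by
    have h1 : (X j : MvPolynomial I k) • y i - (X i : MvPolynomial I k) • y j = 0 := by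
      refine Q.Eδ_K0_inj (n := 1 + 2) (by norm_num) ?_ ?_
      · exact Submodule.sub_mem _ (Q.K0.coef.X_mem_Deg j (hy1 i)) (Q.K0.coef.X_mem_Deg i (hy1 j))
      · rw [map_sub, map_smul, map_smul, hy2, hy2, smul_smul, smul_smul, mul_comm, sub_self]
    exact sub_eq_zero.1 h1
  have hB : (X i : MvPolynomial I k) • Emap κ (y i)
      = (-(Q.a i j : k)) • ((X i : MvPolynomial I k) • Emap κ (y j)) := by
    have h0 : Emap S2.i (Emap κ (y i)) = 0 := by rw [hS2, hy3 i j hij]
    obtain ⟨η, hη, hη'⟩ := E_ex_mid S2 (Emap_mem κ (hy1 i)) h0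
    have h1 := Q.lin_kill_Y i j hij η
    have h2 : lin (Pi.single i (1 : k) + (Q.a i j : k) • Pi.single j (1 : k))
        = (X i : MvPolynomial I k) + (Q.a i j : k) • X j := by
      unfold lin
      have h3 : ∀ l, (C ((Pi.single i (1 : k) + (Q.a i j : k) • Pi.single j (1 : k) : I → k) l)
          * X l : MvPolynomial I k) = (if l = i then X l else 0)
            + (if l = j then (Q.a i j : k) • X l else 0) := by
        intro l
        rw [Pi.add_apply, Pi.smul_apply, C_add, add_mul]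
        congr 1
        · by_cases h : l = i
          · rw [if_pos h, h, Pi.single_eq_same, C_1, one_mul]
          · rw [if_neg h, Pi.single_eq_of_ne h, C_0, zero_mul]
        · by_cases h : l = j
          · rw [if_pos h, h, Pi.single_eq_same, smul_eq_mul, mul_one, smul_eq_C_mul]
          · rw [if_neg h, Pi.single_eq_of_ne h, smul_zero, C_0, zero_mul]
      rw [Finset.sum_congr rfl (fun l _ => h3 l), Finset.sum_add_distrib,
        Finset.sum_ite_eq' Finset.univ i, Finset.sum_ite_eq' Finset.univ j]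
      simp
    rw [h2] at h1
    have h4 : ((X i : MvPolynomial I k) + (Q.a i j : k) • X j) • Emap κ (y i) = 0 := by
      rw [← hη', ← map_smul, h1, map_zero]
    have h5 : (X j : MvPolynomial I k) • Emap κ (y i)
        = (X i : MvPolynomial I k) • Emap κ (y j) := by
      rw [← map_smul, hxx, map_smul]
    exact L2_gen (Q.a i j : k) i j _ _ h4 h5
  -- nonvanishing
  have hne : (X i : MvPolynomial I k) • Emap κ (y j) ≠ 0 := by
    intro hcon
    have h0 : Emap S1.i (Emap κ (y j)) = 0 := by rw [hS1, hy3 j i hij.symm]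
    obtain ⟨z, hz, hz'⟩ := E_ex_mid S1 (Emap_mem κ (hy1 j)) h0
    have h1 : (X i : MvPolynomial I k) • z ∈ EDeg (Q.VL Set.univ i (Q.dot j 0)) (1 + 2) :=
      Coef.X_mem_Deg _ i hz
    have e12 : (1 : ℤ) + 2 = 2 + 1 := by norm_num
    rw [e12] at h1
    have h2 : Emap S1.p ((X i : MvPolynomial I k) • z) = 0 := by
      rw [map_smul, hz', hcon]
    obtain ⟨x, hx, hx'⟩ := E_ex_quot S1 h1 h2
    have h3 : x = 0 := Q.EVan_NV i (n := 2) (by norm_num) x hx
    rw [h3, map_zero] at hx'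
    have h4 : z ∈ IM.Ei (Set.mem_univ i) (Set.mem_univ i) 1
        ⟨Q.VL Set.univ i (Q.dot j 0), hwt, hint⟩ :=
      IM.Ei_one (Set.mem_univ i) (Set.mem_univ i)
        (Y := ⟨Q.VL Set.univ i (Q.dot j 0), hwt, hint⟩) hz
    have h5 : z = 0 := IM.Ei_X_inj (Set.mem_univ i) (Set.mem_univ i) 1
      ⟨Q.VL Set.univ i (Q.dot j 0), hwt, hint⟩ h4 hx'.symm
    rw [h5, map_zero] at hz'
    refine hy4 j ?_
    rw [← hS2, ← hz', map_zero]
  exact L2_gen2 (c j) (Q.a i j : k) _ _ hA hB hne

theorem QD.L2 (i : I) :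
    ((X i : MvPolynomial I k) * (Q.toCDatum.th k i - X i)) • one Q.U
      ∈ IM.Ei (Set.mem_univ i) (Set.mem_univ i) 4 (trivI Q Set.univ Set.univ i) := by
  obtain ⟨D⟩ := Q.exists_KiD i
  obtain ⟨y, hy1, hy2, hy3, hy4⟩ := Q.exists_y0
  have h0 : (X i : MvPolynomial I k) • ((X i : MvPolynomial I k) • one Q.U)
      ∈ EDeg (triv Q.U) ((2 : ℕ) + 2) := by
    have h1 := Coef.X_mem_Deg _ i (Coef.X_mem_Deg _ i (one_mem_Deg (T := Q.U)))
    rw [zero_add] at h1
    exact h1
  obtain ⟨e₄, he₄, e₂, he₂, hdec⟩ := IM.Ei_decomp (Set.mem_univ i) (Set.mem_univ i) 2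
    (trivI Q Set.univ Set.univ i) h0
  obtain ⟨c, rfl⟩ := Q.E2_triv (IM.Ei_le (Set.mem_univ i) (Set.mem_univ i) 2
    (trivI Q Set.univ Set.univ i) he₂)
  have hci : c i = 0 := L2_ci Q i c he₂
  obtain ⟨w₁, hw₁, hδ1⟩ := D.lift_two he₂
  obtain ⟨w₃, hw₃, hδ3⟩ := D.lift_four he₄
  have hw3 : w₃ ∈ EDeg D.K.M 3 := IM.Ei_le (Set.mem_univ i) (Set.mem_univ i) 3 D.K hw₃
  have hk : ∀ (t : k) (e : E Q.K0), Eδ Q.K0ses (t • e) = t • Eδ Q.K0ses e := by
    intro t e
    rw [← algebraMap_smul (MvPolynomial I k) t e, map_smul, algebraMap_smul]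
  have hp1 : Emap D.p w₁ = ∑ l, c l • y l := by
    have h1 : Emap D.p w₁ - ∑ l, c l • y l = 0 := by
      refine Q.Eδ_K0_inj (n := 1) (by norm_num) ?_ ?_
      · exact Submodule.sub_mem _ (Emap_mem D.p hw₁)
          (Submodule.sum_mem _ fun l _ => Submodule.smul_mem _ _ (hy1 l))
      · rw [map_sub, D.δ_p, hδ1, map_sum]
        simp only [hk, hy2]
        rw [← L2_lin_smul, sub_self]
    exact sub_eq_zero.1 h1
  have hp3 : (X i : MvPolynomial I k) • y i
      = Emap D.p w₃ + (X i : MvPolynomial I k) • Emap D.p w₁ := by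
    have h1 : (X i : MvPolynomial I k) • y i
        - (Emap D.p w₃ + (X i : MvPolynomial I k) • Emap D.p w₁) = 0 := by
      refine Q.Eδ_K0_inj (n := 1 + 2) (by norm_num) ?_ ?_
      · refine Submodule.sub_mem _ (Coef.X_mem_Deg _ i (hy1 i)) (Submodule.add_mem _ ?_ ?_)
        · exact Emap_mem D.p hw3
        · exact Coef.X_mem_Deg _ i (Emap_mem D.p hw₁)
      · rw [map_sub, map_add, map_smul, map_smul, hy2, D.δ_p, D.δ_p, hδ1, hδ3]
        exact sub_eq_zero.2 hdec
    exact sub_eq_zero.1 h1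
  have hc : ∀ j, i ≠ j → c j = - (Q.a i j : k) := fun j hij =>
    L2_cj Q i j hij c hci D y hy1 hy2 hy3 hy4 hw₃ hp1 hp3
  have hth : Q.toCDatum.th k i - X i = X i - lin c := by
    unfold CDatum.th lin
    have h1 : ∀ l, ((Q.a i l : k) • X l : MvPolynomial I k)
        = (if l = i then (2 : MvPolynomial I k) * X l else 0) - C (c l) * X l := by
      intro l
      by_cases h : l = i
      · rw [if_pos h, h, hci, C_0, zero_mul, sub_zero, Q.diag, smul_eq_C_mul]
        have h2 : (C ((2 : ℤ) : k) : MvPolynomial I k) = 2 := by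
          rw [Int.cast_ofNat]
          exact map_ofNat C 2
        rw [h2]
      · rw [if_neg h, hc l (fun h' => h h'.symm), C_neg, neg_mul, sub_neg_eq_add, zero_add,
          smul_eq_C_mul]
    rw [Finset.sum_congr rfl (fun l _ => h1 l), Finset.sum_sub_distrib,
      Finset.sum_ite_eq' Finset.univ i]
    simp only [Finset.mem_univ, if_true]
    ring
  rw [hth]
  have h5 : ((X i : MvPolynomial I k) * (X i - lin c)) • one Q.U = e₄ :=
    L2_gen3 (M := E (triv Q.U)) (X i) (lin c) (one Q.U) e₄ hdec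
  have h6 : ∀ t : E (triv Q.U), t = e₄ →
      t ∈ IM.Ei (Set.mem_univ i) (Set.mem_univ i) 4 (trivI Q Set.univ Set.univ i) := by
    intro t ht
    subst ht
    exact he₄
  exact h6 _ h5

end Pool.Agent.Lib.QG
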