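import Pool.Agent.Lib.MP_021f05_al.Ind2

/-!
# MP_021f05_al: the filtration `Ei` (definitions)
-/

noncomputable section

namespace Pool.Agent.Lib.QG

open MvPolynomial

variable {k : Type} [Field k] {I : Type} [Fintype I] [DecidableEq I]

/-- integrable weight modules -/
structure IM (Q : QD k I) (Jp Jm : Set I) (i : I) where
  M : Mod (Q.T Jp Jm)
  wt : IsWt Q M
  int : IsInt i M

variable {Q : QD k I} {Jp Jm : Set I} {i : I} (hp : i ∈ Jp) (hm : i ∈ Jm)

/-- the inclusion of `A_i` -/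
abbrev incA (Q : QD k I) {Jp Jm : Set I} {i : I} (hp : i ∈ Jp) (hm : i ∈ Jm) :
    THom (Q.Ai i) (Q.T Jp Jm) :=
  Q.inc (Set.singleton_subset_iff.2 hp) (Set.singleton_subset_iff.2 hm)

namespace IM

/-- the module induced from `A_i` -/
def indM (Y : IM Q Jp Jm i) : Mod (Q.T Jp Jm) := (Y.M.res (incA Q hp hm)).ind (incA Q hp hm)

theorem indM_isWt (Y : IM Q Jp Jm i) : IsWt Q (Y.indM hp hm) :=
  (Y.wt.res (incA Q hp hm)).ind (incA Q hp hm) (Q.wtAlg Jp Jm)

theorem indM_isInt (Y : IM Q Jp Jm i) : IsInt i (Y.indM hp hm) :=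
  (Y.int.res (Set.mem_singleton i) (Set.mem_singleton i) (Set.singleton_subset_iff.2 hp)
    (Set.singleton_subset_iff.2 hm)).ind (Set.mem_singleton i) (Set.mem_singleton i)
    (Set.singleton_subset_iff.2 hp) (Set.singleton_subset_iff.2 hm)

/-- the induced module as an integrable module -/
def indI (Y : IM Q Jp Jm i) : IM Q Jp Jm i where
  M := Y.indM hp hm
  wt := Y.indM_isWt hp hm
  int := Y.indM_isInt hp hm

/-- the kernel of the counit -/
def syz (Y : IM Q Jp Jm i) : IM Q Jp Jm i where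
  M := (Y.indM hp hm).sub (LinearMap.ker (indC (incA Q hp hm) Y.M))
  wt := (Y.indM_isWt hp hm).sub _
  int := (Y.indM_isInt hp hm).of_injective
    ((Y.indM hp hm).subι (LinearMap.ker (indC (incA Q hp hm) Y.M)))
    (Submodule.injective_subtype _)

/-- the standard sequence -/
def ses (Y : IM Q Jp Jm i) : ModSES (Y.syz hp hm).M (Y.indM hp hm) Y.M :=
  mkSES (Y.indM_isWt hp hm) ((Y.indM hp hm).subι (LinearMap.ker (indC (incA Q hp hm) Y.M)))
    (indC (incA Q hp hm) Y.M) (Submodule.injective_subtype _) (indC_surjective _ _)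
    (fun x => ⟨fun h => ⟨⟨x, h⟩, rfl⟩, by rintro ⟨y, rfl⟩; exact y.2⟩)

variable [CharZero k]

/-- the part `Ei n Y` of `E^n(Y)` obtained from `E^0` by connecting maps of sequences which are
split over `A_i` -/
def Ei : ℕ → (Y : IM Q Jp Jm i) → Submodule k (E Y.M)
  | 0, Y => EDeg Y.M 0
  | n + 1, Y => (Ei n (Y.syz hp hm)).map ((Eδ (Y.ses hp hm)).restrictScalars k)

end IM

/-- the trivial module as an integrable module -/
def trivI (Q : QD k I) (Jp Jm : Set I) (i : I) : IM Q Jp Jm i where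
  M := triv (Q.T Jp Jm)
  wt := triv_isWt
  int := triv_isInt i

end Pool.Agent.Lib.QG
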