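import Pool.Agent.Lib.MP_021f05_al.RankB
import Pool.Agent.Lib.MP_021f05_al.Shapiro

/-!
# MP_021f05_al (E5): vanishing for twists with `⟨μ, α_i^∨⟩ = -1`
-/

noncomputable section

namespace Pool.Agent.Lib.QG

open MvPolynomial

variable {k : Type} [Field k] [CharZero k] {I : Type} [Fintype I] [DecidableEq I] {Q : QD k I}

omit [CharZero k] in
/-- weight spaces of a restriction -/
lemma R1_wts_res {T' T : TAlg k I} (φ : THom T' T) (M : Mod T) (ν : I → ℤ) (x : M.X) :
    (x : (M.res φ).X) ∈ wts Q (M.res φ) ν ↔ x ∈ wts Q M ν := by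
  have h2 : ∀ j, ((T'.K j : T'.A) • (show (M.res φ).X from x) : (M.res φ).X) =
      ((T.K j : T.A) • x : M.X) := by
    intro j
    rw [Mod.res_smul, φ.f_K]
  constructor
  · intro hx j
    rw [← h2 j]
    exact hx j
  · intro hx j
    rw [h2 j]
    exact hx j

/-- the vanishing over `B_i` -/
lemma R1_Bi {i : I} {M : Mod (Q.Ai i)} (hM : IsWt Q M) (hI : IsInt i M) {μ : I → ℤ}
    (hμ : Q.ct i μ = -1) (n : ℤ) :
    EVan ((M.res (Q.inc (Set.Subset.refl {i}) (Set.empty_subset {i}))).tw μ) n := by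
  have hZ : IsWt Q (M.res (Q.inc (Set.Subset.refl {i}) (Set.empty_subset {i}))) := hM.res _
  have hE : ∀ y : M.X, (Q.gE {i} ∅ i •
      (show (M.res (Q.inc (Set.Subset.refl {i}) (Set.empty_subset {i}))).X from y) :
      (M.res (Q.inc (Set.Subset.refl {i}) (Set.empty_subset {i}))).X) =
      (Q.gE {i} {i} i • y : M.X) := by
    intro y
    rw [Mod.res_smul, QD.inc_E Q _ _ (Set.mem_singleton i)]
  have hc0 : Q.ct i (-μ) = 1 := by
    have h := ct_add' (Q := Q) i μ (-μ)
    rw [add_neg_cancel] at h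
    have h0 : Q.ct i 0 = 0 := by unfold CDatum.ct; simp
    rw [h0, hμ] at h
    omega
  rcases lt_or_ge n 0 with h | h
  · exact EVan_neg _ h
  rcases eq_or_lt_of_le h with h0 | h0
  · subst h0
    refine rankB_zero_tw hZ μ fun x hx => ?_
    obtain ⟨y, hy, hEy⟩ := sl2_surj (Set.mem_singleton i) (Set.mem_singleton i) hI
      ((R1_wts_res _ M _ x).1 hx) (by rw [hc0]; norm_num)
    refine ⟨y, ?_, (hE y).trans hEy⟩
    rw [show -(Q.al i) - μ = -μ - Q.al i by abel]
    exact (R1_wts_res _ M _ y).2 hy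
  rcases eq_or_lt_of_le (show (1 : ℤ) ≤ n by omega) with h1 | h1
  · subst h1
    refine rankB_one_tw hZ μ fun x hx hEx => ?_
    refine sl2_inj (Set.mem_singleton i) (Set.mem_singleton i) hI
      ((R1_wts_res _ M _ x).1 hx) ?_ ((hE x).symm.trans hEx)
    rw [show -(Q.al i) - μ = -μ - Q.al i by abel, ct_sub_al, hc0]
    norm_num
  · exact rankB_ge_two (hZ.tw μ) (by omega)

theorem EVan_R1 {i : I} {Y : Mod (Q.P i)} (hY : IsWt Q Y) (hI : IsInt i Y) {μ : I → ℤ}
    (hμ : Q.ct i μ = -1) (n : ℤ) :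
    EVan ((Y.res (Q.inc (Set.Subset.refl Set.univ) (Set.empty_subset {i}))).tw μ) n := by
  have hi : i ∈ (Set.univ : Set I) := Set.mem_univ i
  -- the middle term
  have hmid : ∀ Y : Mod (Q.P i), IsWt Q Y → IsInt i Y → ∀ n : ℤ,
      EVan (((((Y.res (Q.inc (Set.singleton_subset_iff.2 hi) (Set.Subset.refl {i}))).ind
        (Q.inc (Set.singleton_subset_iff.2 hi) (Set.Subset.refl {i}))).res
        (Q.inc (Set.Subset.refl Set.univ) (Set.empty_subset {i})))).tw μ) n := by
    intro Y hY hI n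
    have hM : IsWt Q (Y.res (Q.inc (Set.singleton_subset_iff.2 hi) (Set.Subset.refl {i}))) :=
      hY.res _
    have hMI : IsInt i (Y.res (Q.inc (Set.singleton_subset_iff.2 hi) (Set.Subset.refl {i}))) :=
      IsInt.res (Set.mem_singleton i) (Set.mem_singleton i) _ _ hI
    obtain ⟨e1, -⟩ := QD.exists_bc_i hi
      (Y.res (Q.inc (Set.singleton_subset_iff.2 hi) (Set.Subset.refl {i})))
    obtain ⟨e2, -⟩ := exists_tw_ind (Q := Q) (Set.singleton_subset_iff.2 hi)
      ((Y.res (Q.inc (Set.singleton_subset_iff.2 hi) (Set.Subset.refl {i}))).res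
        (Q.inc (Set.Subset.refl {i}) (Set.empty_subset {i}))) μ
    have h1 := R1_Bi hM hMI hμ n
    have h2 := (EVan.shapiroQ (Set.singleton_subset_iff.2 hi) (Set.Subset.refl ∅)
      (QD.rfree_p (Jm := ∅) hi) ((hM.res _).tw μ)).2 h1
    have h3 := (EVan.of_iso _ e2.symm.bijective).2 h2
    refine (EVan.of_iso (twMap μ (e1.symm : _ →ₗ[(Q.T Set.univ ∅).A] _)) ?_).2 h3
    exact e1.symm.bijective
  have key : ∀ m : ℕ, ∀ n : ℤ, n < m → ∀ Y : Mod (Q.P i), IsWt Q Y → IsInt i Y →
      EVan ((Y.res (Q.inc (Set.Subset.refl Set.univ) (Set.empty_subset {i}))).tw μ) n := by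
    intro m
    induction m with
    | zero => intro n hn Y _ _; exact EVan_neg _ (by exact_mod_cast hn)
    | succ m ih =>
      intro n hn Y hY hI
      have hM : IsWt Q (Y.res (Q.inc (Set.singleton_subset_iff.2 hi) (Set.Subset.refl {i}))) :=
        hY.res _
      have hMI : IsInt i (Y.res (Q.inc (Set.singleton_subset_iff.2 hi) (Set.Subset.refl {i}))) :=
        IsInt.res (Set.mem_singleton i) (Set.mem_singleton i) _ _ hI
      have hJ : IsWt Q ((Y.res (Q.inc (Set.singleton_subset_iff.2 hi) (Set.Subset.refl {i}))).ind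
        (Q.inc (Set.singleton_subset_iff.2 hi) (Set.Subset.refl {i}))) :=
        hM.ind _ (Q.wtAlg _ _)
      have hJI : IsInt i ((Y.res (Q.inc (Set.singleton_subset_iff.2 hi) (Set.Subset.refl {i}))).ind
        (Q.inc (Set.singleton_subset_iff.2 hi) (Set.Subset.refl {i}))) :=
        IsInt.ind (Set.mem_singleton i) (Set.mem_singleton i) _ _ hMI
      let c := indC (Q.inc (Set.singleton_subset_iff.2 hi) (Set.Subset.refl {i})) Y
      let Y1 := Mod.sub _ (LinearMap.ker c)
      let S : ModSES Y1 _ Y := mkSES hJ (Mod.subι _ (LinearMap.ker c)) c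
        (Submodule.injective_subtype _) (indC_surjective _ Y) (fun x =>
          ⟨fun hx => ⟨⟨x, hx⟩, rfl⟩, fun ⟨y, hy⟩ => by rw [← hy]; exact y.2⟩)
      obtain ⟨S', -, -⟩ := exists_tw_ses
        (S.res (Q.inc (Set.Subset.refl Set.univ) (Set.empty_subset {i}))) μ
      have h1 := ih (n - 1) (by push_cast at hn; omega) Y1 (hJ.sub _)
        (hJI.of_injective _ (Submodule.injective_subtype _))
      have h2 := hmid Y hY hI (n - 1 + 1)
      have h3 := EVan.quot S' h1 h2
      rwa [sub_add_cancel] at h3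
  exact key (n.toNat + 1) n (by push_cast; omega) Y hY hI

theorem EVan_km_R1 {i : I} {μ : I → ℤ} (hμ : Q.ct i μ = -1) (n : ℤ) :
    EVan (Q.km Set.univ μ) n := by
  have h := EVan_R1 (Y := triv (Q.P i)) triv_isWt (triv_isInt i) hμ n
  refine (EVan.of_iso (twMap μ (trivRes (Q.inc (Set.Subset.refl Set.univ)
    (Set.empty_subset {i})))) ?_).2 h
  exact trivRes_bijective (Q.inc (Set.Subset.refl Set.univ) (Set.empty_subset {i}))

end Pool.Agent.Lib.QG
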