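import Pool.Agent.Lib.MP_021f05_al.LH
import Pool.Agent.Lib.MP_021f05_al.Verma
import Pool.Agent.Lib.MP_021f05_al.Wvan

/-!
# MP_021f05_al (E7): passing from `k_μ` to `k_{s_i · μ}`
-/

noncomputable section

namespace Pool.Agent.Lib.QG

open MvPolynomial

variable {k : Type} [Field k] [CharZero k] {I : Type} [Fintype I] [DecidableEq I] {Q : QD k I}

omit [CharZero k] in
theorem R2_lin_single (i : I) : (lin (Pi.single i (1 : k)) : MvPolynomial I k) = X i := by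
  unfold lin
  rw [Finset.sum_eq_single i]
  · rw [Pi.single_eq_same, C_1, one_mul]
  · intro j _ hj
    rw [Pi.single_eq_of_ne hj, C_0, zero_mul]
  · intro h
    exact absurd (Finset.mem_univ i) h

omit [CharZero k] in
theorem R2_ct_zero (i : I) : Q.ct i 0 = 0 := by
  simp [CDatum.ct]

omit [CharZero k] in
theorem R2_VL_act (i : I) (a : (Q.P i).A) :
    a • (Q.V {i} 0).quotπ (Q.VN {i} i 0) (Q.vv {i} 0)
      = ((Q.P i).ε a) • (Q.V {i} 0).quotπ (Q.VN {i} i 0) (Q.vv {i} 0) := by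
  set v := (Q.V {i} 0).quotπ (Q.VN {i} i 0) (Q.vv {i} 0) with hv
  have hK : ∀ j, ((Q.P i).K j : (Q.P i).A) • v = v := by
    intro j
    have h1 := Q.vv_wt {i} 0 j
    rw [QD.χ_zero, one_smul] at h1
    rw [hv, ← map_smul, h1]
  refine QA.induction (Q := Q) (Jp := Set.univ) (Jm := {i})
    (p := fun a => (show (Q.P i).A from a) • v = ((Q.P i).ε a) • v) ?_ ?_ ?_ ?_ ?_ ?_ ?_ a
  · intro t
    have h1 : (Q.P i).ε (algebraMap k (Q.P i).A t) = t := AlgHom.commutes _ t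
    exact (algebraMap_smul (Q.P i).A t v).trans (congrArg (· • v) h1.symm)
  · intro j
    have h1 : (Q.P i).ε (Q.gE Set.univ {i} j) = 0 := (QElts.eps Q Set.univ {i}).lift_E j
    show Q.gE Set.univ {i} j • v = ((Q.P i).ε (Q.gE Set.univ {i} j)) • v
    rw [h1, zero_smul, hv, ← map_smul, Q.vv_E, map_zero]
  · intro j
    have h1 : (Q.P i).ε (Q.gF Set.univ {i} j) = 0 := (QElts.eps Q Set.univ {i}).lift_F j
    show Q.gF Set.univ {i} j • v = ((Q.P i).ε (Q.gF Set.univ {i} j)) • v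
    rw [h1, zero_smul]
    by_cases hj : j = i
    · subst hj
      rw [hv, ← map_smul]
      refine (Submodule.Quotient.mk_eq_zero _).2 ?_
      unfold QD.VN
      rw [R2_ct_zero]
      refine Submodule.subset_span ?_
      show _ = _
      simp
    · have h2 : Q.gF Set.univ {i} j = 0 := (QA.elts Q Set.univ {i}).F0 j (by simpa using hj)
      rw [h2, zero_smul]
  · intro j
    have h1 : (Q.P i).ε ((Q.P i).K j : (Q.P i).A) = 1 := (Q.P i).ε_K j
    show ((Q.P i).K j : (Q.P i).A) • v = ((Q.P i).ε ((Q.P i).K j : (Q.P i).A)) • v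
    rw [h1, one_smul, hK]
  · intro j
    have h1 : (Q.P i).ε ((((Q.P i).K j)⁻¹ : (Q.P i).Aˣ) : (Q.P i).A) = 1 := ε_Kinv j
    show ((((Q.P i).K j)⁻¹ : (Q.P i).Aˣ) : (Q.P i).A) • v
      = ((Q.P i).ε ((((Q.P i).K j)⁻¹ : (Q.P i).Aˣ) : (Q.P i).A)) • v
    rw [h1, one_smul]
    conv_lhs => rw [← hK j]
    rw [smul_smul, Units.inv_mul, one_smul]
  · intro x y hx hy
    have h1 : (Q.P i).ε (x + y) = (Q.P i).ε x + (Q.P i).ε y := map_add _ _ _
    show ((show (Q.P i).A from x) + (show (Q.P i).A from y)) • v = ((Q.P i).ε (x + y)) • v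
    rw [h1, add_smul, add_smul]
    exact congrArg₂ (· + ·) hx hy
  · intro x y hx hy
    have h1 : (Q.P i).ε (x * y) = (Q.P i).ε x * (Q.P i).ε y := map_mul _ _ _
    show ((show (Q.P i).A from x) * (show (Q.P i).A from y)) • v = ((Q.P i).ε (x * y)) • v
    rw [h1, mul_smul, mul_comm, mul_smul]
    rw [show (show (Q.P i).A from y) • v = ((Q.P i).ε y) • v from hy]
    rw [← algebraMap_smul (Q.P i).A ((Q.P i).ε y) v, smul_smul, ← Algebra.commutes, mul_smul,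
      algebraMap_smul]
    rw [show (show (Q.P i).A from x) • v = ((Q.P i).ε x) • v from hx]

omit [CharZero k] in
theorem R2_VL_triv (i : I) : ∃ f : (Q.VL {i} i 0).X →ₗ[(Q.P i).A] (triv (Q.P i)).X,
    Function.Bijective f := by
  have hw : vt (Q.P i) 1 ∈ wts Q (triv (Q.P i)) 0 := by
    intro j
    rw [QD.χ_zero, one_smul, triv_smul, (Q.P i).ε_K, one_mul, vt_tv]
  have hε : ∀ j, Q.gE Set.univ {i} j • vt (Q.P i) 1 = 0 := by
    intro j
    have h1 : (Q.P i).ε (Q.gE Set.univ {i} j) = 0 := (QElts.eps Q Set.univ {i}).lift_E j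
    rw [triv_smul, h1, zero_mul]
    rfl
  obtain ⟨f0, hf0⟩ := Q.exists_V_hom {i} hw hε
  have hker : Q.VN {i} i 0 ≤ LinearMap.ker f0 := by
    unfold QD.VN
    rw [Submodule.span_le]
    rintro x hx
    rw [Set.mem_singleton_iff] at hx
    subst hx
    show f0 _ = 0
    have h1 : (Q.P i).ε (Q.gF Set.univ {i} i) = 0 := (QElts.eps Q Set.univ {i}).lift_F i
    rw [map_smul, hf0, R2_ct_zero, triv_smul, map_pow, h1]
    simp
    rfl
  let f : (Q.VL {i} i 0).X →ₗ[(Q.P i).A] (triv (Q.P i)).X := (Q.VN {i} i 0).liftQ f0 hker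
  have hf : ∀ y, f ((Q.V {i} 0).quotπ (Q.VN {i} i 0) y) = f0 y := fun y =>
    Submodule.liftQ_apply _ _ _
  refine ⟨f, ?_, ?_⟩
  · rw [injective_iff_map_eq_zero]
    intro x hx
    obtain ⟨y, rfl⟩ := (Q.VN {i} i 0).mkQ_surjective x
    have hy : y ∈ Submodule.span (Q.P i).A {Q.vv {i} 0} := by
      rw [Q.vv_span]; trivial
    obtain ⟨a, rfl⟩ := Submodule.mem_span_singleton.1 hy
    have h1 : f0 (a • Q.vv {i} 0) = 0 := (hf _).symm.trans hx
    rw [map_smul, hf0, triv_smul] at h1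
    have h2 : (Q.P i).ε a = 0 := by
      have h3 : (Q.P i).ε a * tv (vt (Q.P i) 1) = 0 := h1
      rwa [tv_vt, mul_one] at h3
    have h4 := R2_VL_act (Q := Q) i a
    rw [h2, zero_smul] at h4
    exact (map_smul ((Q.V {i} 0).quotπ (Q.VN {i} i 0)) a (Q.vv {i} 0)).trans h4
  · intro x
    refine ⟨(Q.V {i} 0).quotπ (Q.VN {i} i 0) (tv x • Q.vv {i} 0), ?_⟩
    rw [hf, map_smulk, hf0]
    show tv x * 1 = tv x
    rw [mul_one]

theorem EVan_P_triv (i : I) {n : ℤ} (hn : 3 ≤ n) : EVan (triv (Q.P i)) n := by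
  obtain ⟨f, hf⟩ := R2_VL_triv (Q := Q) i
  rw [← EVan.of_iso f hf]
  obtain ⟨S, -, -⟩ := Q.exists_VL_ses {i} (Set.mem_singleton i) (μ := 0) (R2_ct_zero (Q := Q) i).ge
  obtain ⟨m, rfl⟩ : ∃ m : ℕ, n = (m : ℤ) + 3 := ⟨(n - 3).toNat, by omega⟩
  have e1 : ((m : ℤ) + 3) = ((m + 2 : ℕ) : ℤ) + 1 := by push_cast; ring
  rw [e1]
  refine EVan.quot S ?_ ?_
  · rw [Q.EVan_V]
    refine EVan_km _ _ fun _ => ?_
    rw [CDatum.ht_dot, R2_ct_zero]
    have : ht (0 : I → ℤ) = 0 := by simp [ht]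
    rw [this]
    push_cast
    omega
  · rw [Q.EVan_V]
    have e2 : ((m + 2 : ℕ) : ℤ) + 1 = ((m + 3 : ℕ) : ℤ) := by push_cast; ring
    rw [e2]
    refine EVan_km _ _ fun _ => ?_
    have : ht (0 : I → ℤ) = 0 := by simp [ht]
    rw [this]
    push_cast
    omega

theorem EVan_km_dot {i : I} {μ : I → ℤ} (hμ : 0 ≤ Q.ct i μ) {n : ℤ} (hn : 0 ≤ n)
    (h1 : EVan (Q.km Set.univ μ) n) (h2 : EVan (Q.km Set.univ μ) (n + 1)) :
    EVan (Q.km Set.univ (Q.dot i μ)) (n + 1) := by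
  obtain ⟨N, rfl⟩ := Int.eq_ofNat_of_zero_le hn
  rw [← Q.EVan_V {i}] at h1 h2 ⊢
  have hi : i ∈ ({i} : Set I) := Set.mem_singleton i
  obtain ⟨S, -, -⟩ := Q.exists_VL_ses {i} hi hμ
  let Y : IM Q Set.univ {i} i := ⟨Q.VL {i} i μ, Q.VL_isWt {i} i μ, Q.VL_isInt {i} hi hμ⟩
  have hXk : ∀ (ν : I → ℤ) (m : ℤ) (e : E (Q.V {i} ν)), e ∈ EDeg (Q.V {i} ν) m →
      (X i : MvPolynomial I k) • e = 0 := by
    intro ν m e he
    rw [← R2_lin_single (k := k) i]
    exact Q.lin_kill_V {i} _ he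
  intro e he
  have hδ : Eδ S e ∈ EDeg Y.M ((N : ℤ) + 2) := by
    have := Eδ_mem S he
    rwa [show (N : ℤ) + 1 + 1 = (N : ℤ) + 2 by ring] at this
  obtain ⟨a, ha, b, hb, hab⟩ := IM.Ei_decomp (Set.mem_univ i) hi N Y hδ
  have hXδ : (X i : MvPolynomial I k) • Eδ S e = 0 := by
    rw [← map_smul, hXk _ _ e he, map_zero]
  have hone : ((X i : MvPolynomial I k) ^ 2) • one (Q.T Set.univ {i}) = 0 := by
    have h3 := homog_mem_Deg (M := triv (Q.T Set.univ {i})) (isHomogeneous_X_pow (R := k) i 2)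
      (one_mem_Deg (T := Q.T Set.univ {i}))
    exact EVan_P_triv i (by norm_num) _ h3
  have hkill : ((X i : MvPolynomial I k) ^ 2) • b = 0 := by
    have hbd := IM.Ei_le (Set.mem_univ i) hi N Y hb
    have hX2 : ((X i : MvPolynomial I k) ^ 2).IsHomogeneous 2 := isHomogeneous_X_pow i 2
    first
      | exact IM.poly_kill hX2 hone Y hbd
      | exact IM.poly_kill (Set.mem_univ i) hi hX2 hone Y hbd
  have hXa : (X i : MvPolynomial I k) • a = 0 := by
    rw [hab, smul_add, smul_smul, ← pow_two, hkill, add_zero] at hXδ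
    exact hXδ
  have ha0 : a = 0 := IM.Ei_X_inj (Set.mem_univ i) hi (N + 2) Y ha hXa
  rw [ha0, zero_add] at hab
  have hbN : b ∈ EDeg Y.M (((N : ℤ) - 1) + 1) := by
    rw [sub_add_cancel]
    exact IM.Ei_le (Set.mem_univ i) hi N Y hb
  have hb0 : Emap S.p b = 0 := by
    refine h1 _ ?_
    have := Emap_mem S.p hbN
    rwa [sub_add_cancel] at this
  obtain ⟨g, hg, rfl⟩ := E_ex_quot S hbN hb0
  have hδ0 : Eδ S e = 0 := by
    rw [hab, ← map_smul, hXk _ _ g hg, map_zero]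
  obtain ⟨w, hw, rfl⟩ := E_ex_sub S he hδ0
  rw [h2 w hw, map_zero]

end Pool.Agent.Lib.QG
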