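import Pool.Agent.Lib.MP_021f05_al.Int

/-!
# MP_021f05_al (A9): rank one representation theory
-/

noncomputable section

namespace Pool.Agent.Lib.QG

variable {k : Type} [Field k] {I : Type} [Fintype I] [DecidableEq I] {Q : QD k I}
  {Jp Jm : Set I} {i : I} {M : Mod (Q.T Jp Jm)}

/-! ### auxiliary facts -/

lemma ct_add' (j : I) (μ ν : I → ℤ) : Q.ct j (μ + ν) = Q.ct j μ + Q.ct j ν := by
  simp only [CDatum.ct, Pi.add_apply, mul_add, Finset.sum_add_distrib]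

lemma ct_sub' (j : I) (μ ν : I → ℤ) : Q.ct j (μ - ν) = Q.ct j μ - Q.ct j ν := by
  simp only [CDatum.ct, Pi.sub_apply, mul_sub, Finset.sum_sub_distrib]

lemma ct_al' (j l : I) : Q.ct j (Q.al l) = Q.a j l := by
  simp [CDatum.ct, CDatum.al, Pi.single_apply]

lemma ct_add_al (μ : I → ℤ) : Q.ct i (μ + Q.al i) = Q.ct i μ + 2 := by
  rw [ct_add', ct_al', Q.diag]

lemma ct_sub_al (μ : I → ℤ) : Q.ct i (μ - Q.al i) = Q.ct i μ - 2 := by
  rw [ct_sub', ct_al', Q.diag]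

lemma gK_gE (j l : I) : ((Q.T Jp Jm).K j : (Q.T Jp Jm).A) * Q.gE Jp Jm l
    = Q.q ^ ((Q.d j : ℤ) * Q.a j l) • (Q.gE Jp Jm l * ((Q.T Jp Jm).K j : (Q.T Jp Jm).A)) :=
  (QA.elts Q Jp Jm).KE j l

lemma gK_gF (j l : I) : ((Q.T Jp Jm).K j : (Q.T Jp Jm).A) * Q.gF Jp Jm l
    = Q.q ^ (-((Q.d j : ℤ) * Q.a j l)) • (Q.gF Jp Jm l * ((Q.T Jp Jm).K j : (Q.T Jp Jm).A)) :=
  (QA.elts Q Jp Jm).KF j l

lemma gE_gF (hp : i ∈ Jp) (hm : i ∈ Jm) : Q.gE Jp Jm i * Q.gF Jp Jm i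
    = Q.gF Jp Jm i * Q.gE Jp Jm i + (Q.qi i - (Q.qi i)⁻¹)⁻¹ •
      (((Q.T Jp Jm).K i : (Q.T Jp Jm).A) - (((Q.T Jp Jm).K i)⁻¹ : (Q.T Jp Jm).Aˣ)) := by
  have h := (QA.elts Q Jp Jm).EF i i hp hm
  rw [if_pos rfl] at h
  exact h

lemma smul_comm_k (a : (Q.T Jp Jm).A) (t : k) (x : M.X) : a • t • x = t • a • x := by
  rw [← algebraMap_smul (Q.T Jp Jm).A t x, smul_smul, ← Algebra.commutes, mul_smul,
    algebraMap_smul]

lemma smul_assoc_k (a : (Q.T Jp Jm).A) (t : k) (x : M.X) : (t • a) • x = t • a • x :=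
  smul_assoc t a x

/-- `E_i` raises weights -/
theorem gE_wt {μ : I → ℤ} {x : M.X} (hx : x ∈ wts Q M μ) (j : I) :
    Q.gE Jp Jm j • x ∈ wts Q M (μ + Q.al j) := by
  intro l
  rw [smul_smul, gK_gE, smul_assoc_k, mul_smul, hx l, smul_comm_k, smul_smul]
  congr 1
  unfold QD.χ
  rw [← zpow_add₀ Q.q_ne, ct_add', ct_al']
  congr 1
  ring

/-- `F_i` lowers weights -/
theorem gF_wt {μ : I → ℤ} {x : M.X} (hx : x ∈ wts Q M μ) (j : I) :
    Q.gF Jp Jm j • x ∈ wts Q M (μ - Q.al j) := by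
  intro l
  rw [smul_smul, gK_gF, smul_assoc_k, mul_smul, hx l, smul_comm_k, smul_smul]
  congr 1
  unfold QD.χ
  rw [← zpow_add₀ Q.q_ne, ct_sub', ct_al']
  congr 1
  ring

lemma gE_pow_wt {μ : I → ℤ} {x : M.X} (hx : x ∈ wts Q M μ) (n : ℕ) :
    ∃ ν : I → ℤ, Q.ct i ν = Q.ct i μ + 2 * n ∧ Q.gE Jp Jm i ^ n • x ∈ wts Q M ν := by
  induction n with
  | zero => exact ⟨μ, by simp, by simpa using hx⟩
  | succ n ih =>
    obtain ⟨ν, h1, h2⟩ := ih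
    refine ⟨ν + Q.al i, ?_, ?_⟩
    · rw [ct_add_al, h1]; push_cast; ring
    · rw [pow_succ', mul_smul]; exact gE_wt h2 i

lemma gF_pow_wt {μ : I → ℤ} {x : M.X} (hx : x ∈ wts Q M μ) (n : ℕ) :
    ∃ ν : I → ℤ, Q.ct i ν = Q.ct i μ - 2 * n ∧ Q.gF Jp Jm i ^ n • x ∈ wts Q M ν := by
  induction n with
  | zero => exact ⟨μ, by simp, by simpa using hx⟩
  | succ n ih =>
    obtain ⟨ν, h1, h2⟩ := ih
    refine ⟨ν - Q.al i, ?_, ?_⟩
    · rw [ct_sub_al, h1]; push_cast; ring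
    · rw [pow_succ', mul_smul]; exact gF_wt h2 i

lemma qi_ne (i : I) : Q.qi i ≠ 0 := pow_ne_zero _ Q.q_ne

lemma qi_root (i : I) (n : ℕ) (hn : 0 < n) : Q.qi i ^ n ≠ 1 := by
  unfold QD.qi
  rw [← pow_mul]
  exact Q.q_root _ (Nat.mul_pos (Q.d_pos i) hn)

lemma qnum_ne {n : ℤ} (hn : n ≠ 0) : qn (Q.qi i) n ≠ 0 :=
  qn_ne_zero (Q.qi i) (qi_ne i) (qi_root i) hn

lemma qnum_rec (n : ℕ) (c : ℤ) :
    qn (Q.qi i) (n + 1) * qn (Q.qi i) (c - n) + qn (Q.qi i) (c - 2 * (n + 1))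
      = qn (Q.qi i) ((n + 1 : ℕ) + 1) * qn (Q.qi i) (c - (n + 1 : ℕ)) := by
  have hs := sub_inv_ne (Q.qi i) (qi_ne i) (qi_root i)
  have hp := qi_ne (Q := Q) i
  set p := Q.qi i with hpdef
  unfold qn
  have e : ∀ a b : ℤ, p ^ (a + b) = p ^ a * p ^ b := fun a b => zpow_add₀ hp a b
  have hneg : ∀ a : ℤ, p ^ (-a) = (p ^ a)⁻¹ := fun a => zpow_neg p a
  have e1 : (p ^ ((n : ℤ) + 1)) = p ^ (n : ℤ) * p := by rw [e, zpow_one]
  have e2 : (p ^ (c - (n : ℤ))) = p ^ c * (p ^ (n : ℤ))⁻¹ := by rw [sub_eq_add_neg, e, hneg]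
  have e3 : (p ^ (c - 2 * ((n : ℤ) + 1))) =
      p ^ c * ((p ^ (n : ℤ))⁻¹ * (p ^ (n : ℤ))⁻¹ * (p⁻¹ * p⁻¹)) := by
    rw [show c - 2 * ((n : ℤ) + 1) = c + (-(n : ℤ) + -(n : ℤ) + (-1 + -1)) by ring, e, e, e, e,
      hneg, hneg, zpow_one]
  have e4 : (p ^ (((n + 1 : ℕ) : ℤ) + 1)) = p ^ (n : ℤ) * p * p := by
    rw [show (((n + 1 : ℕ) : ℤ) + 1) = (n : ℤ) + 1 + 1 by push_cast; ring, e, e, zpow_one]
  have e5 : (p ^ (c - ((n + 1 : ℕ) : ℤ))) = p ^ c * (p ^ (n : ℤ))⁻¹ * p⁻¹ := by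
    rw [show c - ((n + 1 : ℕ) : ℤ) = c + -(n : ℤ) + -1 by push_cast; ring, e, e, hneg, hneg,
      zpow_one]
  rw [hneg, hneg, hneg, hneg, hneg, e1, e2, e3, e4, e5]
  have hn0 : p ^ (n : ℤ) ≠ 0 := zpow_ne_zero _ hp
  have hc0 : p ^ c ≠ 0 := zpow_ne_zero _ hp
  generalize p ^ (n : ℤ) = u at *
  generalize p ^ c = v at *
  have h2 : p * p - 1 ≠ 0 := by
    intro h
    apply hs
    field_simp
    linear_combination h
  field_simp
  ring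

section rel
variable (hp : i ∈ Jp) (hm : i ∈ Jm)
include hp hm

lemma E_F_one {μ : I → ℤ} {x : M.X} (hx : x ∈ wts Q M μ) :
    Q.gE Jp Jm i • Q.gF Jp Jm i • x
      = Q.gF Jp Jm i • Q.gE Jp Jm i • x + qn (Q.qi i) (Q.ct i μ) • x := by
  have hK := hx i
  have hχ : Q.χ μ i = Q.qi i ^ (Q.ct i μ) := by
    unfold QD.χ QD.qi
    rw [zpow_mul, zpow_natCast]
  have hL : (((Q.T Jp Jm).K i)⁻¹ : (Q.T Jp Jm).Aˣ) • x = (Q.χ μ i)⁻¹ • x := by
    have h1 : (((Q.T Jp Jm).K i)⁻¹ : (Q.T Jp Jm).Aˣ) • ((Q.T Jp Jm).K i • x) = x :=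
      inv_smul_smul _ _
    have h2 : ((Q.T Jp Jm).K i) • x = Q.χ μ i • x := hK
    have hne : Q.χ μ i ≠ 0 := QD.χ_ne μ i
    rw [h2] at h1
    have h3 : ((((Q.T Jp Jm).K i)⁻¹ : (Q.T Jp Jm).Aˣ) : (Q.T Jp Jm).A) • Q.χ μ i • x = x := h1
    rw [smul_comm_k] at h3
    have h4 : ((((Q.T Jp Jm).K i)⁻¹ : (Q.T Jp Jm).Aˣ) : (Q.T Jp Jm).A) • x
        = (Q.χ μ i)⁻¹ • x := by
      conv_rhs => rw [← h3]
      rw [smul_smul, inv_mul_cancel₀ hne, one_smul]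
    exact h4
  have hL' : ((((Q.T Jp Jm).K i)⁻¹ : (Q.T Jp Jm).Aˣ) : (Q.T Jp Jm).A) • x
      = (Q.χ μ i)⁻¹ • x := hL
  have hfin : (Q.qi i - (Q.qi i)⁻¹)⁻¹ • (Q.χ μ i - (Q.χ μ i)⁻¹) • x
      = qn (Q.qi i) (Q.ct i μ) • x := by
    rw [smul_smul]
    congr 1
    unfold qn
    rw [hχ, zpow_neg, div_eq_mul_inv, mul_comm]
  rw [smul_smul, gE_gF hp hm, add_smul, mul_smul, smul_assoc_k, sub_smul, hK, hL', ← sub_smul,
    hfin]

/-- `E F^{n+1} = F^{n+1} E + [n+1] F^n [⟨μ⟩ - n]` on weight vectors -/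
theorem E_F_pow {μ : I → ℤ} {x : M.X} (hx : x ∈ wts Q M μ) (n : ℕ) :
    Q.gE Jp Jm i • Q.gF Jp Jm i ^ (n + 1) • x
      = Q.gF Jp Jm i ^ (n + 1) • Q.gE Jp Jm i • x
        + (qn (Q.qi i) (n + 1) * qn (Q.qi i) (Q.ct i μ - n)) • Q.gF Jp Jm i ^ n • x := by
  induction n with
  | zero =>
    have h1 : qn (Q.qi i) (1 : ℤ) = 1 := qn_one (Q.qi i) (qi_ne i) (qi_root i)
    simp only [zero_add, pow_one, pow_zero, one_smul, Nat.cast_zero, sub_zero, h1, one_mul]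
    exact E_F_one hp hm hx
  | succ n ih =>
    obtain ⟨ν, h1, h2⟩ := gF_pow_wt (i := i) hx (n + 1)
    rw [pow_succ' _ (n + 1), mul_smul, E_F_one hp hm h2, ih, smul_add, smul_comm_k, h1,
      smul_smul (Q.gF Jp Jm i) (Q.gF Jp Jm i ^ n), ← pow_succ', ← mul_smul (Q.gF Jp Jm i),
      ← pow_succ' _ (n + 1), add_assoc, ← add_smul]
    congr 2
    have := qnum_rec (Q := Q) (i := i) n (Q.ct i μ)
    push_cast at this ⊢
    exact this

/-- `F E^{n+1} = E^{n+1} F - [n+1] E^n [⟨μ⟩ + n]` on weight vectors -/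
theorem F_E_pow {μ : I → ℤ} {x : M.X} (hx : x ∈ wts Q M μ) (n : ℕ) :
    Q.gF Jp Jm i • Q.gE Jp Jm i ^ (n + 1) • x
      = Q.gE Jp Jm i ^ (n + 1) • Q.gF Jp Jm i • x
        - (qn (Q.qi i) (n + 1) * qn (Q.qi i) (Q.ct i μ + n)) • Q.gE Jp Jm i ^ n • x := by
  induction n with
  | zero =>
    have h1 : qn (Q.qi i) (1 : ℤ) = 1 := qn_one (Q.qi i) (qi_ne i) (qi_root i)
    simp only [zero_add, pow_one, pow_zero, one_smul, Nat.cast_zero, add_zero, h1, one_mul]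
    rw [E_F_one hp hm hx, add_sub_cancel_right]
  | succ n ih =>
    obtain ⟨ν, h1, h2⟩ := gE_pow_wt (i := i) hx (n + 1)
    have h3 : Q.gF Jp Jm i • Q.gE Jp Jm i • Q.gE Jp Jm i ^ (n + 1) • x
        = Q.gE Jp Jm i • Q.gF Jp Jm i • Q.gE Jp Jm i ^ (n + 1) • x
          - qn (Q.qi i) (Q.ct i ν) • Q.gE Jp Jm i ^ (n + 1) • x := by
      rw [E_F_one hp hm h2, add_sub_cancel_right]
    rw [pow_succ' _ (n + 1), mul_smul, h3, ih, smul_sub, smul_comm_k, h1,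
      smul_smul (Q.gE Jp Jm i) (Q.gE Jp Jm i ^ n), ← pow_succ', ← mul_smul (Q.gE Jp Jm i),
      ← pow_succ' _ (n + 1), sub_sub, ← add_smul]
    congr 2
    have h4 := qnum_rec (Q := Q) (i := i) n (-(Q.ct i μ))
    have e1 : qn (Q.qi i) (-(Q.ct i μ) - n) = - qn (Q.qi i) (Q.ct i μ + n) := by
      rw [← qn_neg]; congr 1; ring
    have e2 : qn (Q.qi i) (-(Q.ct i μ) - 2 * (n + 1)) = - qn (Q.qi i) (Q.ct i μ + 2 * (n + 1)) := by
      rw [← qn_neg]; congr 1; ring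
    have e3 : qn (Q.qi i) (-(Q.ct i μ) - (n + 1 : ℕ))
        = - qn (Q.qi i) (Q.ct i μ + (n + 1 : ℕ)) := by
      rw [← qn_neg]; congr 1; ring
    rw [e1, e2, e3] at h4
    push_cast at h4 ⊢
    linear_combination -h4

end rel

variable (hp : i ∈ Jp) (hm : i ∈ Jm)
include hp hm

variable (hM : IsInt i M)
include hM

omit hp hm in
/-- descent: if `E F^{n+1} x` is a nonzero multiple of `F^n x` for all `n` then `x = 0` -/
lemma sl2_descent {x : M.X} (c : ℕ → k) (hc : ∀ n, c n ≠ 0)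
    (h : ∀ n, Q.gE Jp Jm i • Q.gF Jp Jm i ^ (n + 1) • x = c n • Q.gF Jp Jm i ^ n • x) :
    x = 0 := by
  obtain ⟨N, -, hN⟩ := hM x
  have key : ∀ m : ℕ, Q.gF Jp Jm i ^ m • x = 0 → x = 0 := by
    intro m
    induction m with
    | zero => intro h0; simpa using h0
    | succ m ih =>
      intro h0
      apply ih
      have h1 := h m
      rw [h0, smul_zero] at h1
      exact (smul_eq_zero.1 h1.symm).resolve_left (hc m)
  exact key N hN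

/-- `E_i` is injective on negative weights -/
theorem sl2_inj {μ : I → ℤ} {x : M.X} (hx : x ∈ wts Q M μ) (hμ : Q.ct i μ < 0)
    (h : Q.gE Jp Jm i • x = 0) : x = 0 := by
  refine sl2_descent hM
    (fun n => qn (Q.qi i) (n + 1) * qn (Q.qi i) (Q.ct i μ - n)) (fun n => ?_) (fun n => ?_)
  · exact mul_ne_zero (qnum_ne (by omega)) (qnum_ne (by omega))
  · rw [E_F_pow hp hm hx n, h, smul_zero, zero_add]

/-- `E_i` is surjective onto positive weights -/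
theorem sl2_surj {μ : I → ℤ} {x : M.X} (hx : x ∈ wts Q M μ) (hμ : 0 < Q.ct i μ) :
    ∃ y ∈ wts Q M (μ - Q.al i), Q.gE Jp Jm i • y = x := by
  have key : ∀ m : ℕ, ∀ x ∈ wts Q M μ, Q.gE Jp Jm i ^ m • x = 0 →
      ∃ y ∈ wts Q M (μ - Q.al i), Q.gE Jp Jm i • y = x := by
    intro m
    induction m with
    | zero =>
      intro x _ h0
      refine ⟨0, Submodule.zero_mem _, ?_⟩
      rw [smul_zero]
      simpa using h0.symm
    | succ m ih =>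
      intro x hx h0
      set c : k := qn (Q.qi i) (m + 1) * qn (Q.qi i) (Q.ct i μ + m) with hc
      have hc0 : c ≠ 0 := mul_ne_zero (qnum_ne (by omega)) (qnum_ne (by omega))
      have h1 := F_E_pow hp hm hx m
      rw [h0, smul_zero] at h1
      have hFx := gF_wt (Jp := Jp) (Jm := Jm) hx i
      have hEFx := gE_wt (Jp := Jp) (Jm := Jm) hFx i
      rw [sub_add_cancel] at hEFx
      obtain ⟨y, hy, hEy⟩ := ih (x - c⁻¹ • Q.gE Jp Jm i • Q.gF Jp Jm i • x)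
        (Submodule.sub_mem _ hx (Submodule.smul_mem _ _ hEFx)) (by
          rw [smul_sub, smul_comm_k, smul_smul (Q.gE Jp Jm i ^ m), ← pow_succ,
            sub_eq_zero.1 h1.symm, smul_smul, inv_mul_cancel₀ hc0, one_smul, sub_self])
      refine ⟨y + c⁻¹ • Q.gF Jp Jm i • x, Submodule.add_mem _ hy (Submodule.smul_mem _ _ hFx), ?_⟩
      rw [smul_add, hEy, smul_comm_k, sub_add_cancel]
  obtain ⟨m, hm1, -⟩ := hM x
  exact key m x hx hm1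

/-- weight zero: `X_0 = ker E + E X_{-2}` -/
theorem sl2_decomp {μ : I → ℤ} {x : M.X} (hx : x ∈ wts Q M μ) (hμ : Q.ct i μ = 0) :
    ∃ y ∈ wts Q M μ, ∃ z ∈ wts Q M (μ - Q.al i), Q.gE Jp Jm i • y = 0 ∧
      x = y + Q.gE Jp Jm i • z := by
  have key : ∀ m : ℕ, ∀ x ∈ wts Q M μ, Q.gE Jp Jm i ^ m • x = 0 →
      ∃ y ∈ wts Q M μ, ∃ z ∈ wts Q M (μ - Q.al i), Q.gE Jp Jm i • y = 0 ∧
      x = y + Q.gE Jp Jm i • z := by
    intro m
    induction m with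
    | zero =>
      intro x _ h0
      have hx0 : x = 0 := by simpa using h0
      refine ⟨0, Submodule.zero_mem _, 0, Submodule.zero_mem _, smul_zero _, ?_⟩
      rw [hx0, smul_zero, add_zero]
    | succ m ih =>
      intro x hx h0
      by_cases hm0 : m = 0
      · subst hm0
        rw [zero_add, pow_one] at h0
        exact ⟨x, hx, 0, Submodule.zero_mem _, h0, by rw [smul_zero, add_zero]⟩
      set c : k := qn (Q.qi i) (m + 1) * qn (Q.qi i) (Q.ct i μ + m) with hc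
      have hc0 : c ≠ 0 := mul_ne_zero (qnum_ne (by omega)) (qnum_ne (by omega))
      have h1 := F_E_pow hp hm hx m
      rw [h0, smul_zero] at h1
      have hFx := gF_wt (Jp := Jp) (Jm := Jm) hx i
      have hEFx := gE_wt (Jp := Jp) (Jm := Jm) hFx i
      rw [sub_add_cancel] at hEFx
      obtain ⟨y, hy, z, hz, hEy, hyz⟩ := ih (x - c⁻¹ • Q.gE Jp Jm i • Q.gF Jp Jm i • x)
        (Submodule.sub_mem _ hx (Submodule.smul_mem _ _ hEFx)) (by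
          rw [smul_sub, smul_comm_k, smul_smul (Q.gE Jp Jm i ^ m), ← pow_succ,
            sub_eq_zero.1 h1.symm, smul_smul, inv_mul_cancel₀ hc0, one_smul, sub_self])
      refine ⟨y, hy, z + c⁻¹ • Q.gF Jp Jm i • x,
        Submodule.add_mem _ hz (Submodule.smul_mem _ _ hFx), hEy, ?_⟩
      rw [smul_add, smul_comm_k, ← add_assoc, ← hyz, sub_add_cancel]
  obtain ⟨m, hm1, -⟩ := hM x
  exact key m x hx hm1

/-- weight zero: `E y = 0` implies `F y = 0` -/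
theorem sl2_inv {μ : I → ℤ} {y : M.X} (hy : y ∈ wts Q M μ) (hμ : Q.ct i μ = 0)
    (h : Q.gE Jp Jm i • y = 0) : Q.gF Jp Jm i • y = 0 := by
  refine sl2_inj hp hm hM (gF_wt hy i) (by rw [ct_sub_al, hμ]; norm_num) ?_
  rw [E_F_one hp hm hy, h, smul_zero, hμ, qn_zero, zero_smul, add_zero]

/-- weight zero: `ker E ∩ E X_{-2} = 0` -/
theorem sl2_disj {μ : I → ℤ} {z : M.X} (hz : z ∈ wts Q M (μ - Q.al i)) (hμ : Q.ct i μ = 0)
    (h : Q.gE Jp Jm i • Q.gE Jp Jm i • z = 0) : z = 0 := by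
  have hEz := gE_wt (Jp := Jp) (Jm := Jm) hz i
  rw [sub_add_cancel] at hEz
  have hF := sl2_inv hp hm hM hEz hμ h
  have hct : Q.ct i (μ - Q.al i) = -2 := by rw [ct_sub_al, hμ]; norm_num
  refine sl2_descent hM
    (fun n => qn (Q.qi i) (n + 1) * qn (Q.qi i) (Q.ct i (μ - Q.al i) - n)) (fun n => ?_)
    (fun n => ?_)
  · exact mul_ne_zero (qnum_ne (by omega)) (qnum_ne (by omega))
  · rw [E_F_pow hp hm hz n, pow_succ, mul_smul, hF, smul_zero, zero_add]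

/-- weight zero: `F X_2 ⊆ E X_{-2}` -/
theorem sl2_FE {μ : I → ℤ} {y : M.X} (hy : y ∈ wts Q M (μ + Q.al i)) (hμ : Q.ct i μ = 0) :
    ∃ z ∈ wts Q M (μ - Q.al i), Q.gF Jp Jm i • y = Q.gE Jp Jm i • z := by
  obtain ⟨y', hy', rfl⟩ := sl2_surj hp hm hM hy (by rw [ct_add_al, hμ]; norm_num)
  rw [add_sub_cancel_right] at hy'
  refine ⟨Q.gF Jp Jm i • y', gF_wt hy' i, ?_⟩
  rw [E_F_one hp hm hy', hμ, qn_zero, zero_smul, add_zero]

end Pool.Agent.Lib.QG
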