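import Pool.Agent.Lib.MP_021f05_al.E0
import Pool.Agent.Lib.MP_021f05_al.FreeAc
import Pool.Agent.Lib.MP_021f05_al.Ind2
import Pool.Agent.Lib.MP_021f05_al.Sl2
import Pool.Agent.Lib.MP_021f05_al.Tw

/-!
# MP_021f05_al (E2): the rank one Borel algebra `B_i`
-/

noncomputable section

namespace Pool.Agent.Lib.QG

open MvPolynomial
open scoped TensorProduct

section RankBAux

variable {k : Type} [Field k] {I : Type} [Fintype I] [DecidableEq I] {Q : QD k I}
  {i : I}

/-! ### linear maps over the torus part -/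

theorem rankB_ind {Jp Jm : Set I} {p : (Q.T Jp Jm).A → Prop}
    (hs : ∀ t : k, p (algebraMap k _ t)) (hE : ∀ j, p (Q.gE Jp Jm j))
    (hF : ∀ j, p (Q.gF Jp Jm j)) (hK : ∀ j, p ((Q.T Jp Jm).K j : (Q.T Jp Jm).A))
    (hL : ∀ j, p (((Q.T Jp Jm).K j)⁻¹ : (Q.T Jp Jm).Aˣ)) (hadd : ∀ x y, p x → p y → p (x + y))
    (hmul : ∀ x y, p x → p y → p (x * y)) (x : (Q.T Jp Jm).A) : p x :=
  QA.induction (Q := Q) (Jp := Jp) (Jm := Jm) hs hE hF hK hL hadd hmul x

theorem rankB_gE_zero {Jp Jm : Set I} {j : I} (hj : j ∉ Jp) : Q.gE Jp Jm j = 0 :=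
  (QA.elts Q Jp Jm).E0 j hj

theorem rankB_gF_zero {Jp Jm : Set I} {j : I} (hj : j ∉ Jm) : Q.gF Jp Jm j = 0 :=
  (QA.elts Q Jp Jm).F0 j hj

omit [Fintype I] [DecidableEq I] in
lemma rankB_act_k {T : TAlg k I} (M : Mod T) (t : k) (x : M.X) :
    (algebraMap k T.A t) • x = t • x := algebraMap_smul T.A t x

/-- a linear map which commutes with the torus is linear over the torus part -/
def rankB_hom {X Y : Mod Q.U0} (f : X.X →ₗ[k] Y.X)
    (h : ∀ j x, f ((Q.U0.K j : Q.U0.A) • x) = (Q.U0.K j : Q.U0.A) • f x) :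
    X.X →ₗ[Q.U0.A] Y.X where
  toFun := f
  map_add' := map_add f
  map_smul' a := by
    induction a using rankB_ind with
    | hs t =>
      intro x
      exact ((congrArg f (rankB_act_k X t x)).trans (map_smul f t x)).trans
        (rankB_act_k Y t (f x)).symm
    | hE j =>
      intro x
      rw [rankB_gE_zero (Set.notMem_empty j), zero_smul, map_zero, RingHom.id_apply, zero_smul]
    | hF j =>
      intro x
      rw [rankB_gF_zero (Set.notMem_empty j), zero_smul, map_zero, RingHom.id_apply, zero_smul]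
    | hK j => exact h j
    | hL j =>
      intro x
      have h1 : f ((((Q.U0.K j)⁻¹ : Q.U0.Aˣ) : Q.U0.A) • x) =
          (((Q.U0.K j)⁻¹ : Q.U0.Aˣ) : Q.U0.A) • ((Q.U0.K j : Q.U0.A) •
            f ((((Q.U0.K j)⁻¹ : Q.U0.Aˣ) : Q.U0.A) • x)) := by
        rw [smul_smul, Units.inv_mul, one_smul]
      rw [h1, ← h, smul_smul, Units.mul_inv, one_smul, RingHom.id_apply]
    | hadd a b ha hb =>
      intro x
      rw [add_smul, map_add, ha, hb, RingHom.id_apply, RingHom.id_apply, RingHom.id_apply,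
        add_smul]
    | hmul a b ha hb =>
      intro x
      rw [mul_smul, ha, hb, RingHom.id_apply, RingHom.id_apply, RingHom.id_apply, mul_smul]

lemma rankB_hom_apply {X Y : Mod Q.U0} (f : X.X →ₗ[k] Y.X)
    (h : ∀ j x, f ((Q.U0.K j : Q.U0.A) • x) = (Q.U0.K j : Q.U0.A) • f x) (x : X.X) :
    rankB_hom f h x = f x := rfl

/-! ### modules induced from the torus part -/

variable (Q i) in
/-- the inclusion of the torus part -/
abbrev rankB_φ : THom Q.U0 (Q.Bi i) := Q.inc (Set.empty_subset {i}) (Set.Subset.refl ∅)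

variable (Q i) in
/-- the generator -/
abbrev rankB_e : (Q.Bi i).A := Q.gE {i} ∅ i

/-- coordinates on an induced module -/
def rankB_Ψ (Y : Mod Q.U0) : (ℕ →₀ Y.X) →ₗ[k] (Y.ind (rankB_φ Q i)).X :=
  Finsupp.lsum k fun n =>
    { toFun := fun y => indT (rankB_φ Q i) Y (rankB_e Q i ^ n) y
      map_add' := fun x y => indT_add_right (rankB_φ Q i) Y _ x y
      map_smul' := fun t y => indT_smulk (rankB_φ Q i) Y t _ y }

lemma rankB_Ψ_single (Y : Mod Q.U0) (n : ℕ) (y : Y.X) :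
    rankB_Ψ (i := i) Y (Finsupp.single n y) = indT (rankB_φ Q i) Y (rankB_e Q i ^ n) y := by
  unfold rankB_Ψ
  rw [Finsupp.lsum_single]
  rfl

theorem rankB_up_injective : Function.Injective (HA.up Q {i} ∅) := by
  rw [injective_iff_map_eq_zero]
  intro h hh
  have h1 : tdp Q {i} ∅ (h ⊗ₜ 1) = 0 := by rw [tdp_tmul, hh, zero_mul]
  have h2 : h ⊗ₜ[k] (1 : QA Q ∅ ∅) = 0 := (tdp_bijective Q {i} ∅).1 (h1.trans (map_zero _).symm)
  have h3 := congrArg (TensorProduct.rid k (HA Q {i}))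
    (congrArg (TensorProduct.map LinearMap.id ((QElts.eps Q ∅ ∅).lift).toLinearMap) h2)
  rw [TensorProduct.map_tmul, map_zero, map_zero, TensorProduct.rid_tmul,
    AlgHom.toLinearMap_apply, map_one, one_smul, LinearMap.id_apply] at h3
  exact h3

theorem rankB_Ψ_bijective (Y : Mod Q.U0) : Function.Bijective (rankB_Ψ (i := i) Y) := by
  classical
  obtain ⟨b, hb⟩ := HA.single_basis Q i
  let g : HA Q {i} →ₗ[k] (Q.Bi i).A := (HA.up Q {i} ∅).toLinearMap
  have hg : Function.Injective g := rankB_up_injective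
  have hbij := ind2_bij_range (rankB_φ Q i) g (tdp Q {i} ∅) (tdp_tmul Q {i} ∅)
    (tdp_bijective Q {i} ∅)
  have hind := indN_bijective hbij Y
  let e1 : (ℕ →₀ Y.X) ≃ₗ[k] (ℕ →₀ k) ⊗[k] Y.X := (TensorProduct.finsuppScalarLeft k Y.X ℕ).symm
  let e2 : (ℕ →₀ k) ⊗[k] Y.X ≃ₗ[k] (LinearMap.range g) ⊗[k] Y.X :=
    TensorProduct.congr (b.repr.symm.trans (LinearEquiv.ofInjective g hg)) (LinearEquiv.refl k Y.X)
  have h1 : ∀ f, rankB_Ψ (i := i) Y f = indN (rankB_φ Q i) Y (LinearMap.range g) (e2 (e1 f)) := by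
    intro f
    induction f using Finsupp.induction_linear with
    | zero => rw [map_zero, map_zero, map_zero, map_zero]
    | add f f' hf hf' => rw [map_add, map_add, map_add, map_add, hf, hf']
    | single n y =>
      rw [rankB_Ψ_single]
      have h2 : e1 (Finsupp.single n y) = (Finsupp.single n (1 : k)) ⊗ₜ y :=
        TensorProduct.finsuppScalarLeft_symm_apply_single n y
      rw [h2]
      have h3 : e2 ((Finsupp.single n (1 : k)) ⊗ₜ y) =
          (LinearEquiv.ofInjective g hg (b.repr.symm (Finsupp.single n 1))) ⊗ₜ y :=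
        TensorProduct.congr_tmul _ _ _ _
      rw [h3, indN_tmul, b.repr_symm_single_one, hb n]
      have h4 : ((LinearEquiv.ofInjective g hg (HA.x Q {i} i ^ n) : LinearMap.range g) :
          (Q.Bi i).A) = rankB_e Q i ^ n := by
        have h5 : ((LinearEquiv.ofInjective g hg (HA.x Q {i} i ^ n) : LinearMap.range g) :
          (Q.Bi i).A) = HA.up Q {i} ∅ (HA.x Q {i} i ^ n) := rfl
        rw [h5, map_pow, HA.up_x]
        rfl
      rw [h4]
  have h6 : (rankB_Ψ (i := i) Y : (ℕ →₀ Y.X) → _) =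
      (indN (rankB_φ Q i) Y (LinearMap.range g)) ∘ (e2 ∘ e1) := funext h1
  rw [h6]
  exact hind.comp (e2.bijective.comp e1.bijective)

/-! ### the resolution -/

omit [Fintype I] [DecidableEq I] in
lemma rankB_indT_smul {T' T : TAlg k I} (φ : THom T' T) (Y : Mod T') (t : k) (a : T.A) (y : Y.X) :
    indT φ Y (t • a) y = t • indT φ Y a y := by
  rw [← indT_smulk]
  unfold indT
  rw [TensorProduct.smul_tmul]

/-- restriction to the torus part -/
abbrev rankB_Y (M : Mod (Q.Bi i)) : Mod Q.U0 := M.res (rankB_φ Q i)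

/-- shifted restriction to the torus part -/
abbrev rankB_Z (M : Mod (Q.Bi i)) : Mod Q.U0 := (rankB_Y M).tw (Q.al i)

/-- elements of `M` in the restriction -/
def rankB_y (M : Mod (Q.Bi i)) (x : M.X) : (rankB_Y M).X := x

/-- elements of `M` in the shifted restriction -/
def rankB_z (M : Mod (Q.Bi i)) (x : M.X) : (rankB_Z M).X := twx (Q.al i) (rankB_y M x)

lemma rankB_Ky (M : Mod (Q.Bi i)) (j : I) (x : M.X) :
    (Q.U0.K j : Q.U0.A) • rankB_y M x = rankB_y M (((Q.Bi i).K j : (Q.Bi i).A) • x) := by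
  refine (Mod.res_smul (rankB_φ Q i) M _ _).trans ?_
  rw [(rankB_φ Q i).f_K]
  rfl

lemma rankB_Kz (M : Mod (Q.Bi i)) (j : I) (x : M.X) :
    (Q.U0.K j : Q.U0.A) • rankB_z M x =
      rankB_z M (Q.χ (Q.al i) j • (((Q.Bi i).K j : (Q.Bi i).A) • x)) := by
  refine (tw_K (rankB_Y M) (Q.al i) j (rankB_y M x)).trans ?_
  rw [rankB_Ky]
  rfl

/-- the map `x ↦ E ⊗ x - 1 ⊗ E x` -/
def rankB_f0 (M : Mod (Q.Bi i)) :
    (rankB_Z M).X →ₗ[k] (((rankB_Y M).ind (rankB_φ Q i)).res (rankB_φ Q i)).X where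
  toFun x := indT (rankB_φ Q i) (rankB_Y M) (rankB_e Q i) (rankB_y M (show M.X from x)) -
    indT (rankB_φ Q i) (rankB_Y M) 1 (rankB_y M (rankB_e Q i • (show M.X from x)))
  map_add' x y := by
    have h1 : rankB_y M (show M.X from (x + y)) =
      rankB_y M (show M.X from x) + rankB_y M (show M.X from y) := rfl
    have h2 : rankB_y M (rankB_e Q i • (show M.X from (x + y))) =
      rankB_y M (rankB_e Q i • (show M.X from x)) + rankB_y M (rankB_e Q i • (show M.X from y)) :=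
      smul_add (rankB_e Q i) (show M.X from x) (show M.X from y)
    rw [h1, h2, indT_add_right, indT_add_right]
    exact add_sub_add_comm _ _ _ _
  map_smul' t x := by
    have h1 : rankB_y M (show M.X from (t • x)) = t • rankB_y M (show M.X from x) := rfl
    have h2 : rankB_y M (rankB_e Q i • (show M.X from (t • x))) =
      t • rankB_y M (rankB_e Q i • (show M.X from x)) :=
      smul_comm_k (M := M) (rankB_e Q i) t (show M.X from x)
    rw [h1, h2, indT_smulk, indT_smulk]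
    exact (smul_sub t _ _).symm

lemma rankB_f0_apply (M : Mod (Q.Bi i)) (x : M.X) : rankB_f0 M (rankB_z M x) =
    (indT (rankB_φ Q i) (rankB_Y M) (rankB_e Q i) (rankB_y M x) -
      indT (rankB_φ Q i) (rankB_Y M) 1 (rankB_y M (rankB_e Q i • x)) :
        ((rankB_Y M).ind (rankB_φ Q i)).X) := rfl

lemma rankB_f0_K (M : Mod (Q.Bi i)) (j : I) (x : M.X) :
    rankB_f0 M ((Q.U0.K j : Q.U0.A) • rankB_z M x) =
      (Q.U0.K j : Q.U0.A) • rankB_f0 M (rankB_z M x) := by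
  have hc : ((Q.Bi i).K j : (Q.Bi i).A) * rankB_e Q i =
      Q.χ (Q.al i) j • (rankB_e Q i * ((Q.Bi i).K j : (Q.Bi i).A)) := by
    rw [ind2_χ_al]
    exact gK_gE j i
  have hK : (rankB_φ Q i).f (Q.U0.K j : Q.U0.A) = ((Q.Bi i).K j : (Q.Bi i).A) :=
    (rankB_φ Q i).f_K j
  have h1 : ((Q.Bi i).K j : (Q.Bi i).A) •
      indT (rankB_φ Q i) (rankB_Y M) (rankB_e Q i) (rankB_y M x) =
      Q.χ (Q.al i) j • indT (rankB_φ Q i) (rankB_Y M) (rankB_e Q i)
        (rankB_y M (((Q.Bi i).K j : (Q.Bi i).A) • x)) := by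
    rw [smul_indT, hc, rankB_indT_smul, ← hK, indT_mul, rankB_Ky, hK]
  have h2 : ((Q.Bi i).K j : (Q.Bi i).A) •
      indT (rankB_φ Q i) (rankB_Y M) 1 (rankB_y M (rankB_e Q i • x)) =
      indT (rankB_φ Q i) (rankB_Y M) 1
        (rankB_y M (rankB_e Q i • (Q.χ (Q.al i) j • (((Q.Bi i).K j : (Q.Bi i).A) • x)))) := by
    rw [smul_indT, mul_one, ← one_mul ((Q.Bi i).K j : (Q.Bi i).A), ← hK, indT_mul, rankB_Ky]
    congr 2
    rw [smul_smul, hc, smul_assoc_k, smul_comm_k, smul_smul, hK, one_mul]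
  have h3 : rankB_y M (Q.χ (Q.al i) j • (((Q.Bi i).K j : (Q.Bi i).A) • x)) =
    Q.χ (Q.al i) j • rankB_y M (((Q.Bi i).K j : (Q.Bi i).A) • x) := rfl
  have key : (indT (rankB_φ Q i) (rankB_Y M) (rankB_e Q i)
        (rankB_y M (Q.χ (Q.al i) j • (((Q.Bi i).K j : (Q.Bi i).A) • x))) -
      indT (rankB_φ Q i) (rankB_Y M) 1
        (rankB_y M (rankB_e Q i • (Q.χ (Q.al i) j • (((Q.Bi i).K j : (Q.Bi i).A) • x)))) :
        ((rankB_Y M).ind (rankB_φ Q i)).X) = ((Q.Bi i).K j : (Q.Bi i).A) •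
      (indT (rankB_φ Q i) (rankB_Y M) (rankB_e Q i) (rankB_y M x) -
      indT (rankB_φ Q i) (rankB_Y M) 1 (rankB_y M (rankB_e Q i • x))) := by
    rw [smul_sub, h1, h2, h3, indT_smulk]
  rw [rankB_Kz]
  refine Eq.trans key ?_
  refine Eq.trans ?_ (Mod.res_smul (rankB_φ Q i) ((rankB_Y M).ind (rankB_φ Q i)) _ _).symm
  rw [hK]
  rfl

/-- the map as a map of modules over the torus part -/
def rankB_f (M : Mod (Q.Bi i)) :
    (rankB_Z M).X →ₗ[Q.U0.A] (((rankB_Y M).ind (rankB_φ Q i)).res (rankB_φ Q i)).X :=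
  rankB_hom (rankB_f0 M) (fun j x => rankB_f0_K M j x)

/-- the first map of the resolution -/
def rankB_i (M : Mod (Q.Bi i)) : ((rankB_Z M).ind (rankB_φ Q i)).X →ₗ[(Q.Bi i).A]
    ((rankB_Y M).ind (rankB_φ Q i)).X :=
  indLift (rankB_φ Q i) (rankB_Z M) (rankB_f M)

lemma rankB_i_T (M : Mod (Q.Bi i)) (a : (Q.Bi i).A) (x : M.X) :
    rankB_i M (indT (rankB_φ Q i) (rankB_Z M) a (rankB_z M x)) =
      indT (rankB_φ Q i) (rankB_Y M) (a * rankB_e Q i) (rankB_y M x) -
        indT (rankB_φ Q i) (rankB_Y M) a (rankB_y M (rankB_e Q i • x)) := by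
  have h1 : rankB_i M (indT (rankB_φ Q i) (rankB_Z M) a (rankB_z M x)) =
      a • (indT (rankB_φ Q i) (rankB_Y M) (rankB_e Q i) (rankB_y M x) -
        indT (rankB_φ Q i) (rankB_Y M) 1 (rankB_y M (rankB_e Q i • x))) :=
    indLift_T (rankB_φ Q i) (rankB_Z M) (rankB_f M) a (rankB_z M x)
  rw [h1, smul_sub, smul_indT, smul_indT, mul_one]

lemma rankB_p_i (M : Mod (Q.Bi i)) (z : ((rankB_Z M).ind (rankB_φ Q i)).X) :
    indC (rankB_φ Q i) M (rankB_i M z) = 0 := by
  refine ind_induction (rankB_φ Q i) (rankB_Z M) (p := fun z => indC (rankB_φ Q i) M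
    (rankB_i M z) = 0) z (by rw [map_zero, map_zero]) (fun a x => ?_) (fun x y hx hy => ?_)
  · have h1 := rankB_i_T M a (show M.X from x)
    have h2 : indT (rankB_φ Q i) (rankB_Z M) a x =
      indT (rankB_φ Q i) (rankB_Z M) a (rankB_z M (show M.X from x)) := rfl
    rw [h2, h1, map_sub, sub_eq_zero]
    refine (indC_T (rankB_φ Q i) M (a * rankB_e Q i) _).trans ?_
    refine Eq.trans ?_ (indC_T (rankB_φ Q i) M a _).symm
    exact mul_smul a (rankB_e Q i) (show M.X from x)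
  · rw [map_add, map_add, hx, hy, add_zero]

lemma rankB_mem (M : Mod (Q.Bi i)) (a : (Q.Bi i).A) : ∀ x : M.X,
    indT (rankB_φ Q i) (rankB_Y M) a (rankB_y M x) -
      indT (rankB_φ Q i) (rankB_Y M) 1 (rankB_y M (a • x)) ∈ LinearMap.range (rankB_i M) := by
  induction a using rankB_ind with
  | hs t =>
    intro x
    have h1 : rankB_y M ((algebraMap k (Q.Bi i).A t) • x) = t • rankB_y M x :=
      rankB_act_k M t x
    rw [h1, indT_smulk, Algebra.algebraMap_eq_smul_one, rankB_indT_smul, sub_self]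
    exact Submodule.zero_mem _
  | hE j =>
    intro x
    by_cases hj : j = i
    · subst hj
      refine ⟨indT (rankB_φ Q j) (rankB_Z M) 1 (rankB_z M x), ?_⟩
      rw [rankB_i_T, one_mul]
    · rw [rankB_gE_zero (by simpa using hj), zero_smul]
      have h1 : indT (rankB_φ Q i) (rankB_Y M) 0 (rankB_y M x) = 0 := by
        have h2 := indT_add_left (rankB_φ Q i) (rankB_Y M) 0 0 (rankB_y M x)
        rw [add_zero] at h2
        exact left_eq_add.1 h2
      have h3 : rankB_y M 0 = 0 := rfl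
      rw [h1, h3, indT_zero_right, sub_zero]
      exact Submodule.zero_mem _
  | hF j =>
    intro x
    rw [rankB_gF_zero (Set.notMem_empty j), zero_smul]
    have h1 : indT (rankB_φ Q i) (rankB_Y M) 0 (rankB_y M x) = 0 := by
      have h2 := indT_add_left (rankB_φ Q i) (rankB_Y M) 0 0 (rankB_y M x)
      rw [add_zero] at h2
      exact left_eq_add.1 h2
    have h3 : rankB_y M 0 = 0 := rfl
    rw [h1, h3, indT_zero_right, sub_zero]
    exact Submodule.zero_mem _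
  | hK j =>
    intro x
    have hK : (rankB_φ Q i).f (Q.U0.K j : Q.U0.A) = ((Q.Bi i).K j : (Q.Bi i).A) :=
      (rankB_φ Q i).f_K j
    have h1 : indT (rankB_φ Q i) (rankB_Y M) ((Q.Bi i).K j : (Q.Bi i).A) (rankB_y M x) =
        indT (rankB_φ Q i) (rankB_Y M) 1 (rankB_y M (((Q.Bi i).K j : (Q.Bi i).A) • x)) := by
      rw [← rankB_Ky, ← indT_mul, hK, one_mul]
    rw [h1, sub_self]
    exact Submodule.zero_mem _
  | hL j =>
    intro x
    have hK : (rankB_φ Q i).f (((Q.U0.K j)⁻¹ : Q.U0.Aˣ) : Q.U0.A) =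
        (((Q.Bi i).K j)⁻¹ : (Q.Bi i).Aˣ) := (rankB_φ Q i).f_Kinv j
    have h0 : (((Q.U0.K j)⁻¹ : Q.U0.Aˣ) : Q.U0.A) • rankB_y M x =
        rankB_y M ((((Q.Bi i).K j)⁻¹ : (Q.Bi i).Aˣ) • x) := by
      refine (Mod.res_smul (rankB_φ Q i) M _ _).trans ?_
      rw [hK]
      rfl
    have h1 : indT (rankB_φ Q i) (rankB_Y M) (((Q.Bi i).K j)⁻¹ : (Q.Bi i).Aˣ) (rankB_y M x) =
        indT (rankB_φ Q i) (rankB_Y M) 1
          (rankB_y M ((((Q.Bi i).K j)⁻¹ : (Q.Bi i).Aˣ) • x)) := by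
      rw [← h0, ← indT_mul, hK, one_mul]
    have h2 : (((((Q.Bi i).K j)⁻¹ : (Q.Bi i).Aˣ) : (Q.Bi i).A) • x) =
      (((Q.Bi i).K j)⁻¹ : (Q.Bi i).Aˣ) • x := rfl
    rw [h2, h1, sub_self]
    exact Submodule.zero_mem _
  | hadd a b ha hb =>
    intro x
    have h1 : rankB_y M ((a + b) • x) = rankB_y M (a • x) + rankB_y M (b • x) :=
      add_smul a b x
    rw [h1, indT_add_left, indT_add_right, add_sub_add_comm]
    exact Submodule.add_mem _ (ha x) (hb x)
  | hmul a b ha hb =>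
    intro x
    have h1 := Submodule.smul_mem _ a (hb x)
    have h2 := Submodule.add_mem _ h1 (ha (b • x))
    rw [smul_sub, smul_indT, smul_indT, mul_one, sub_add_sub_cancel, smul_smul] at h2
    exact h2

lemma rankB_mem' (M : Mod (Q.Bi i)) (z : ((rankB_Y M).ind (rankB_φ Q i)).X) :
    z - indT (rankB_φ Q i) (rankB_Y M) 1 (rankB_y M (indC (rankB_φ Q i) M z)) ∈
      LinearMap.range (rankB_i M) := by
  refine ind_induction (rankB_φ Q i) (rankB_Y M) (p := fun z => z -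
    indT (rankB_φ Q i) (rankB_Y M) 1 (rankB_y M (indC (rankB_φ Q i) M z)) ∈
      LinearMap.range (rankB_i M)) z ?_ (fun a x => ?_) (fun x y hx hy => ?_)
  · rw [map_zero]
    have h3 : rankB_y M 0 = 0 := rfl
    rw [h3, indT_zero_right, sub_zero]
    exact Submodule.zero_mem _
  · exact rankB_mem M a (show M.X from x)
  · have h1 : rankB_y M (indC (rankB_φ Q i) M (x + y)) =
      rankB_y M (indC (rankB_φ Q i) M x) + rankB_y M (indC (rankB_φ Q i) M y) :=
      map_add (indC (rankB_φ Q i) M) x y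
    rw [h1, indT_add_right, add_sub_add_comm]
    exact Submodule.add_mem _ hx hy

lemma rankB_exact (M : Mod (Q.Bi i)) (z : ((rankB_Y M).ind (rankB_φ Q i)).X) :
    indC (rankB_φ Q i) M z = 0 ↔ ∃ y, rankB_i M y = z := by
  constructor
  · intro h
    have h1 := rankB_mem' M z
    rw [h] at h1
    have h3 : rankB_y M 0 = 0 := rfl
    rw [h3, indT_zero_right, sub_zero] at h1
    exact h1
  · rintro ⟨y, rfl⟩
    exact rankB_p_i M y

/-- forgetting the shift -/
def rankB_α (M : Mod (Q.Bi i)) : (rankB_Z M).X →ₗ[k] (rankB_Y M).X where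
  toFun x := rankB_y M (show M.X from x)
  map_add' _ _ := rfl
  map_smul' _ _ := rfl

/-- the action of the generator -/
def rankB_β (M : Mod (Q.Bi i)) : (rankB_Z M).X →ₗ[k] (rankB_Y M).X where
  toFun x := rankB_y M (rankB_e Q i • (show M.X from x))
  map_add' x y := smul_add (rankB_e Q i) (show M.X from x) (show M.X from y)
  map_smul' t x := smul_comm_k (M := M) (rankB_e Q i) t (show M.X from x)

/-- the first map of the resolution in coordinates -/
def rankB_G (M : Mod (Q.Bi i)) : (ℕ →₀ (rankB_Z M).X) →ₗ[k] (ℕ →₀ (rankB_Y M).X) :=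
  (Finsupp.lmapDomain (rankB_Y M).X k (fun n : ℕ => n + 1)) ∘ₗ
    (Finsupp.mapRange.linearMap (rankB_α M)) - Finsupp.mapRange.linearMap (rankB_β M)

lemma rankB_G_succ (M : Mod (Q.Bi i)) (F : ℕ →₀ (rankB_Z M).X) (n : ℕ) :
    rankB_G M F (n + 1) = rankB_α M (F n) - rankB_β M (F (n + 1)) := by
  unfold rankB_G
  rw [LinearMap.sub_apply, Finsupp.sub_apply, LinearMap.comp_apply, Finsupp.lmapDomain_apply]
  have h1 := Finsupp.mapDomain_apply (f := fun n : ℕ => n + 1) (fun a b h => by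
    simpa using h) (Finsupp.mapRange.linearMap (rankB_α M) F) n
  rw [h1, Finsupp.mapRange.linearMap_apply, Finsupp.mapRange.linearMap_apply,
    Finsupp.mapRange_apply, Finsupp.mapRange_apply]

lemma rankB_G_injective (M : Mod (Q.Bi i)) (F : ℕ →₀ (rankB_Z M).X) (h : rankB_G M F = 0) :
    F = 0 := by
  by_contra hF
  have hne : F.support.Nonempty := Finsupp.support_nonempty_iff.2 hF
  obtain ⟨n, hn, hmax⟩ := F.support.exists_max_image id hne
  have h1 : F (n + 1) = 0 := by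
    by_contra h2
    have h3 := hmax (n + 1) (Finsupp.mem_support_iff.2 h2)
    simp at h3
  have h2 := rankB_G_succ M F n
  rw [h, h1, map_zero, sub_zero] at h2
  have h3 : rankB_α M (F n) = 0 := h2.symm
  exact (Finsupp.mem_support_iff.1 hn) h3

lemma rankB_i_Ψ (M : Mod (Q.Bi i)) (F : ℕ →₀ (rankB_Z M).X) :
    rankB_i M (rankB_Ψ (i := i) (rankB_Z M) F) = rankB_Ψ (i := i) (rankB_Y M) (rankB_G M F) := by
  induction F using Finsupp.induction_linear with
  | zero => rw [map_zero, map_zero, map_zero, map_zero]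
  | add f g hf hg => rw [map_add, map_add, map_add, map_add, hf, hg]
  | single n z =>
    have h1 : rankB_G M (Finsupp.single n z) =
        Finsupp.single (n + 1) (rankB_α M z) - Finsupp.single n (rankB_β M z) := by
      unfold rankB_G
      rw [LinearMap.sub_apply, LinearMap.comp_apply, Finsupp.lmapDomain_apply,
        Finsupp.mapRange.linearMap_apply, Finsupp.mapRange.linearMap_apply,
        Finsupp.mapRange_single, Finsupp.mapRange_single, Finsupp.mapDomain_single]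
    rw [h1, map_sub, rankB_Ψ_single, rankB_Ψ_single, rankB_Ψ_single, pow_succ]
    exact rankB_i_T M (rankB_e Q i ^ n) (show M.X from z)

lemma rankB_i_injective (M : Mod (Q.Bi i)) : Function.Injective (rankB_i M) := by
  rw [injective_iff_map_eq_zero]
  intro z hz
  obtain ⟨F, rfl⟩ := (rankB_Ψ_bijective (i := i) (rankB_Z M)).2 z
  rw [rankB_i_Ψ] at hz
  have h1 : rankB_G M F = 0 :=
    (rankB_Ψ_bijective (i := i) (rankB_Y M)).1 (hz.trans (map_zero _).symm)
  rw [rankB_G_injective M F h1, map_zero]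

lemma rankB_Y_isWt {M : Mod (Q.Bi i)} (hM : IsWt Q M) : IsWt Q (rankB_Y M) := hM.res _

lemma rankB_Z_isWt {M : Mod (Q.Bi i)} (hM : IsWt Q M) : IsWt Q (rankB_Z M) :=
  (rankB_Y_isWt hM).tw _

/-- the resolution -/
def rankB_S {M : Mod (Q.Bi i)} (hM : IsWt Q M) :
    ModSES ((rankB_Z M).ind (rankB_φ Q i)) ((rankB_Y M).ind (rankB_φ Q i)) M :=
  mkSES ((rankB_Y_isWt hM).ind _ (QD.wtAlg Q {i} ∅)) (rankB_i M) (indC (rankB_φ Q i) M)
    (rankB_i_injective M) (indC_surjective _ M) (rankB_exact M)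

variable [CharZero k]

lemma rankB_acyclic {Z : Mod Q.U0} (hZ : IsWt Q Z) {n : ℤ} (hn : 0 < n) :
    EVan (Z.ind (rankB_φ Q i)) n :=
  free_acyclic (rankB_φ Q i) QD.rfree_plus (QD.wtAlg Q {i} ∅) hZ hn

/-! ### degree zero and one -/

omit [CharZero k] in
lemma rankB_wt_zero {T : TAlg k I} {M : Mod T} {μ ν : I → ℤ} (hne : μ ≠ ν) {v : M.X}
    (h1 : v ∈ wts Q M μ) (h2 : v ∈ wts Q M ν) : v = 0 := by
  obtain ⟨j, hj⟩ : ∃ j, Q.χ μ j ≠ Q.χ ν j := by
    by_contra hcon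
    push Not at hcon
    exact hne (QD.χ_inj hcon)
  have h3 : (Q.χ μ j - Q.χ ν j) • v = 0 := by
    rw [sub_smul, ← h1 j, ← h2 j, sub_self]
  exact (smul_eq_zero.1 h3).resolve_left (sub_ne_zero.2 hj)

omit [CharZero k] in
lemma rankB_ext {T : TAlg k I} {M : Mod T} (hM : IsWt Q M) {W : Type} [AddCommGroup W] [Module k W]
    {f g : M.X →ₗ[k] W} (h : ∀ μ, ∀ x ∈ wts Q M μ, f x = g x) : f = g := by
  refine LinearMap.ext fun x => ?_
  obtain ⟨F, hF, rfl⟩ := hM.exists_sum x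
  rw [Finsupp.sum, map_sum, map_sum]
  exact Finset.sum_congr rfl fun μ _ => h μ _ (hF μ)

omit [CharZero k] in
lemma rankB_ε (j : I) : (Q.Bi i).ε (Q.gE {i} ∅ j) = 0 := QElts.lift_E _ j

omit [CharZero k] in
lemma rankB_εK (j : I) : (Q.Bi i).ε ((Q.Bi i).K j : (Q.Bi i).A) = 1 := (Q.Bi i).ε_K j

/-- the action of `E_i` as a linear map -/
def rankB_E (M : Mod (Q.Bi i)) : M.X →ₗ[k] M.X where
  toFun x := rankB_e Q i • x
  map_add' x y := smul_add (rankB_e Q i) x y
  map_smul' t x := smul_comm_k (M := M) (rankB_e Q i) t x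

omit [CharZero k] in
/-- extension of functionals -/
lemma rankB_extend {M : Mod (Q.Bi i)} (hM : IsWt Q M)
    (h : ∀ x ∈ wts Q M (-(Q.al i)), Q.gE {i} ∅ i • x = 0 → x = 0) (g : M.X →ₗ[k] k)
    (hg : ∀ j x, g (Q.χ (Q.al i) j • (((Q.Bi i).K j : (Q.Bi i).A) • x)) = g x) :
    ∃ g' : M.X →ₗ[k] k, (∀ j x, g' (((Q.Bi i).K j : (Q.Bi i).A) • x) = g' x) ∧
      ∀ x, g' (rankB_e Q i • x) = - g x := by
  let E1 : wts Q M (-(Q.al i)) →ₗ[k] M.X := rankB_E M ∘ₗ (wts Q M (-(Q.al i))).subtype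
  have hinj : Function.Injective E1 := by
    rw [injective_iff_map_eq_zero]
    intro x hx
    exact Subtype.ext (h x x.2 hx)
  have hN0 : ∀ x ∈ LinearMap.range E1, x ∈ wts Q M 0 := by
    rintro _ ⟨x, rfl⟩
    have h1 := gE_wt (M := M) x.2 i
    rw [neg_add_cancel] at h1
    exact h1
  have hN : ∀ j, ∀ x ∈ LinearMap.range E1, ((Q.Bi i).K j : (Q.Bi i).A) • x ∈
      LinearMap.range E1 := by
    intro j x hx
    have h1 := hN0 x hx j
    rw [QD.χ_zero, one_smul] at h1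
    rw [h1]
    exact hx
  obtain ⟨ρ, hρ1, hρ2, hρ3⟩ := hM.exists_retraction (LinearMap.range E1) hN
  let eqv := LinearEquiv.ofInjective E1 hinj
  let s : M.X →ₗ[k] M.X := (wts Q M (-(Q.al i))).subtype ∘ₗ eqv.symm.toLinearMap ∘ₗ
    ρ.codRestrict (LinearMap.range E1) hρ1
  have hs : ∀ x, s x = (eqv.symm ⟨ρ x, hρ1 x⟩ : wts Q M (-(Q.al i))) := fun x => rfl
  have hs0 : ∀ x y, ρ x = ρ y → s x = s y := by
    intro x y hxy
    rw [hs, hs]
    congr 2
    exact Subtype.ext hxy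
  have hg0 : ∀ μ, μ ≠ -(Q.al i) → ∀ x ∈ wts Q M μ, g x = 0 := by
    intro μ hμ x hx
    obtain ⟨j, hj⟩ : ∃ j, Q.χ (Q.al i + μ) j ≠ Q.χ 0 j := by
      by_contra hcon
      push Not at hcon
      exact hμ (eq_neg_of_add_eq_zero_right (QD.χ_inj hcon))
    have h1 := hg j x
    rw [hx j, smul_smul, ← QD.χ_add, map_smul] at h1
    rw [QD.χ_zero] at hj
    have h2 : (Q.χ (Q.al i + μ) j - 1) • g x = 0 := by rw [sub_smul, one_smul, h1, sub_self]
    exact (smul_eq_zero.1 h2).resolve_left (sub_ne_zero.2 hj)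
  refine ⟨-(g ∘ₗ s), ?_, ?_⟩
  · intro j x
    have h1 : ρ (((Q.Bi i).K j : (Q.Bi i).A) • x) = ρ x := by
      rw [hρ3]
      have h2 := hN0 _ (hρ1 x) j
      rwa [QD.χ_zero, one_smul] at h2
    show -(g (s (((Q.Bi i).K j : (Q.Bi i).A) • x))) = -(g (s x))
    rw [hs0 _ _ h1]
  · have key : (-(g ∘ₗ s)) ∘ₗ rankB_E M = -g := by
      refine rankB_ext hM fun μ x hx => ?_
      rw [LinearMap.comp_apply, LinearMap.neg_apply, LinearMap.neg_apply, LinearMap.comp_apply,
        neg_inj]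
      by_cases hμ : μ = -(Q.al i)
      · subst hμ
        have h1 : rankB_E M x = E1 ⟨x, hx⟩ := rfl
        have h2 : ρ (rankB_E M x) = E1 ⟨x, hx⟩ := by
          rw [h1]
          exact hρ2 _ ⟨_, rfl⟩
        have h3 : s (rankB_E M x) = x := by
          rw [hs]
          have h4 : (⟨ρ (rankB_E M x), hρ1 _⟩ : LinearMap.range E1) = eqv ⟨x, hx⟩ :=
            Subtype.ext h2
          rw [h4, LinearEquiv.symm_apply_apply]
        rw [h3]
      · rw [hg0 μ hμ x hx]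
        have h1 : rankB_E M x ∈ wts Q M (μ + Q.al i) := gE_wt (M := M) hx i
        have h2 : ρ (rankB_E M x) ∈ wts Q M (μ + Q.al i) := by
          intro j
          rw [← hρ3, h1 j, map_smul]
        have h3 : μ + Q.al i ≠ 0 := fun h0 => hμ (eq_neg_of_add_eq_zero_left h0)
        have h4 : ρ (rankB_E M x) = ρ 0 := by
          rw [map_zero]
          exact rankB_wt_zero h3 h2 (hN0 _ (hρ1 _))
        rw [hs0 _ _ h4, map_zero, map_zero]
    intro x
    exact LinearMap.congr_fun key x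

omit [CharZero k] in
lemma rankB_factor {M : Mod (Q.Bi i)} (hM : IsWt Q M)
    (h : ∀ x ∈ wts Q M (-(Q.al i)), Q.gE {i} ∅ i • x = 0 → x = 0)
    (f : ((rankB_Z M).ind (rankB_φ Q i)).X →ₗ[(Q.Bi i).A] (triv (Q.Bi i)).X) :
    ∃ f' : ((rankB_Y M).ind (rankB_φ Q i)).X →ₗ[(Q.Bi i).A] (triv (Q.Bi i)).X,
      f' ∘ₗ rankB_i M = f := by
  let g : M.X →ₗ[k] k :=
    { toFun := fun x => tv (f (indT (rankB_φ Q i) (rankB_Z M) 1 (rankB_z M x)))
      map_add' := fun x y => by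
        have h1 : rankB_z M (x + y) = rankB_z M x + rankB_z M y := rfl
        rw [h1, indT_add_right, map_add]
        rfl
      map_smul' := fun t x => by
        have h1 : rankB_z M (t • x) = t • rankB_z M x := rfl
        rw [h1, indT_smulk, map_smulk]
        rfl }
  have hgK : ∀ j x, g (Q.χ (Q.al i) j • (((Q.Bi i).K j : (Q.Bi i).A) • x)) = g x := by
    intro j x
    have hK : (rankB_φ Q i).f (Q.U0.K j : Q.U0.A) = ((Q.Bi i).K j : (Q.Bi i).A) :=
      (rankB_φ Q i).f_K j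
    have h1 : indT (rankB_φ Q i) (rankB_Z M) 1
        (rankB_z M (Q.χ (Q.al i) j • (((Q.Bi i).K j : (Q.Bi i).A) • x))) =
        ((Q.Bi i).K j : (Q.Bi i).A) • indT (rankB_φ Q i) (rankB_Z M) 1 (rankB_z M x) := by
      rw [← rankB_Kz, ← indT_mul, one_mul, smul_indT, mul_one, hK]
    show tv (f (indT (rankB_φ Q i) (rankB_Z M) 1
        (rankB_z M (Q.χ (Q.al i) j • (((Q.Bi i).K j : (Q.Bi i).A) • x))))) =
      tv (f (indT (rankB_φ Q i) (rankB_Z M) 1 (rankB_z M x)))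
    rw [h1, map_smul, triv_smul, tv_vt, rankB_εK, one_mul]
  obtain ⟨g', hg'1, hg'2⟩ := rankB_extend hM h g hgK
  let g0 : (rankB_Y M).X →ₗ[k] ((triv (Q.Bi i)).res (rankB_φ Q i)).X :=
    { toFun := fun x => vt (Q.Bi i) (g' (show M.X from x))
      map_add' := fun x y => map_add g' (show M.X from x) (show M.X from y)
      map_smul' := fun t x => map_smul g' t (show M.X from x) }
  have hg0 : ∀ j (x : (rankB_Y M).X), g0 ((Q.U0.K j : Q.U0.A) • x) =
      (Q.U0.K j : Q.U0.A) • g0 x := by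
    intro j x
    have hK : (rankB_φ Q i).f (Q.U0.K j : Q.U0.A) = ((Q.Bi i).K j : (Q.Bi i).A) :=
      (rankB_φ Q i).f_K j
    have h1 : (Q.U0.K j : Q.U0.A) • x =
        rankB_y M (((Q.Bi i).K j : (Q.Bi i).A) • (show M.X from x)) :=
      rankB_Ky M j (show M.X from x)
    rw [h1]
    have h2 : (Q.U0.K j : Q.U0.A) • g0 x = (show ((triv (Q.Bi i)).res (rankB_φ Q i)).X from
        (((rankB_φ Q i).f (Q.U0.K j : Q.U0.A)) •
          (vt (Q.Bi i) (g' (show M.X from x))) : (triv (Q.Bi i)).X)) :=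
      Mod.res_smul (rankB_φ Q i) (triv (Q.Bi i)) _ _
    rw [h2, hK, triv_smul, rankB_εK, one_mul, tv_vt]
    show vt (Q.Bi i) (g' (((Q.Bi i).K j : (Q.Bi i).A) • (show M.X from x))) = _
    rw [hg'1]
  let g1 : (rankB_Y M).X →ₗ[Q.U0.A] ((triv (Q.Bi i)).res (rankB_φ Q i)).X := rankB_hom g0 hg0
  refine ⟨indLift (rankB_φ Q i) (rankB_Y M) g1, ?_⟩
  refine ind_hom_ext (rankB_φ Q i) (rankB_Z M) fun y => ?_
  have h3 : ∀ a (x : M.X), indLift (rankB_φ Q i) (rankB_Y M) g1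
      (indT (rankB_φ Q i) (rankB_Y M) a (rankB_y M x)) =
      vt (Q.Bi i) ((Q.Bi i).ε a * g' x) := by
    intro a x
    exact indLift_T (rankB_φ Q i) (rankB_Y M) g1 a (rankB_y M x)
  have h4 : rankB_i M (indT (rankB_φ Q i) (rankB_Z M) 1 y) =
      indT (rankB_φ Q i) (rankB_Y M) (1 * rankB_e Q i) (rankB_y M (show M.X from y)) -
        indT (rankB_φ Q i) (rankB_Y M) 1 (rankB_y M (rankB_e Q i • (show M.X from y))) :=
    rankB_i_T M 1 (show M.X from y)
  rw [LinearMap.comp_apply, h4, map_sub, h3, h3, one_mul, rankB_ε, zero_mul, map_one, one_mul,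
    hg'2]
  show (0 : k) - - (g (show M.X from y)) = f (indT (rankB_φ Q i) (rankB_Z M) 1 y)
  rw [zero_sub, neg_neg]
  rfl

end RankBAux

/-! ### the main statements -/

variable {k : Type} [Field k] [CharZero k] {I : Type} [Fintype I] [DecidableEq I] {Q : QD k I}
  {i : I}

theorem rankB_ge_two {M : Mod (Q.Bi i)} (hM : IsWt Q M) {n : ℤ} (hn : 2 ≤ n) : EVan M n := by
  have h1 := EVan.quot (rankB_S hM) (n := n - 1) (rankB_acyclic (rankB_Z_isWt hM) (by omega))
    (rankB_acyclic (rankB_Y_isWt hM) (by omega))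
  rwa [sub_add_cancel] at h1

theorem rankB_one {M : Mod (Q.Bi i)} (hM : IsWt Q M)
    (h : ∀ x ∈ wts Q M (-(Q.al i)), Q.gE {i} ∅ i • x = 0 → x = 0) : EVan M 1 := by
  intro e he
  have h1 : Emap (rankB_S hM).p e = 0 :=
    rankB_acyclic (rankB_Y_isWt hM) one_pos _ (Emap_mem _ he)
  obtain ⟨x, hx, rfl⟩ := E_ex_quot (rankB_S hM) (n := 0) (by simpa using he) h1
  obtain ⟨f, rfl⟩ := E0_exists _ hx
  obtain ⟨f', hf'⟩ := rankB_factor hM h f
  have h2 : Emap f (one (Q.Bi i)) = Emap (rankB_S hM).i (Emap f' (one (Q.Bi i))) := by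
    rw [Emap_comp, ← hf']
    rfl
  rw [h2]
  exact Eδ_Emap_i _ _

theorem rankB_zero {M : Mod (Q.Bi i)} (hM : IsWt Q M)
    (h : ∀ x ∈ wts Q M 0, ∃ y ∈ wts Q M (-(Q.al i)), Q.gE {i} ∅ i • y = x) : EVan M 0 := by
  intro e he
  obtain ⟨f, rfl⟩ := E0_exists _ he
  have h0 : toK f = (0 : M.X →ₗ[k] (triv (Q.Bi i)).X) := by
    refine rankB_ext hM fun μ x hx => ?_
    rw [toK_apply, LinearMap.zero_apply]
    by_cases hμ : μ = 0
    · subst hμ
      obtain ⟨y, _, rfl⟩ := h x hx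
      rw [map_smul, triv_smul, rankB_ε, zero_mul]
      rfl
    · have h1 : f x ∈ wts Q (triv (Q.Bi i)) μ := wt_map_mem f hx
      have h2 : f x ∈ wts Q (triv (Q.Bi i)) 0 := by
        intro j
        rw [triv_smul, rankB_εK, one_mul, QD.χ_zero, one_smul]
        rfl
      exact rankB_wt_zero hμ h1 h2
  have h3 : f = 0 := LinearMap.ext fun x => LinearMap.congr_fun h0 x
  rw [h3, Emap_zero]

theorem rankB_one_tw {M : Mod (Q.Bi i)} (hM : IsWt Q M) (μ : I → ℤ)
    (h : ∀ x ∈ wts Q M (-(Q.al i) - μ), Q.gE {i} ∅ i • x = 0 → x = 0) : EVan (M.tw μ) 1 := by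
  refine rankB_one (hM.tw μ) fun x hx hx0 => ?_
  obtain ⟨y, rfl⟩ := (twx_bijective (M := M) μ).2 x
  have h1 : μ + (-(Q.al i) - μ) = -(Q.al i) := by abel
  rw [← h1, twx_mem_wts] at hx
  rw [tw_E] at hx0
  have h2 := h y hx ((twx_bijective (M := M) μ).1 (hx0.trans rfl))
  rw [h2]
  rfl

theorem rankB_zero_tw {M : Mod (Q.Bi i)} (hM : IsWt Q M) (μ : I → ℤ)
    (h : ∀ x ∈ wts Q M (-μ), ∃ y ∈ wts Q M (-(Q.al i) - μ), Q.gE {i} ∅ i • y = x) :
    EVan (M.tw μ) 0 := by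
  refine rankB_zero (hM.tw μ) fun x hx => ?_
  obtain ⟨y, rfl⟩ := (twx_bijective (M := M) μ).2 x
  have h1 : μ + (-μ) = 0 := by abel
  rw [← h1, twx_mem_wts] at hx
  obtain ⟨z, hz, rfl⟩ := h y hx
  refine ⟨twx μ z, ?_, tw_E M μ i z⟩
  have h2 : μ + (-(Q.al i) - μ) = -(Q.al i) := by abel
  rw [← h2, twx_mem_wts]
  exact hz

end Pool.Agent.Lib.QG
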