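import Pool.Agent.Lib.MP_021f05_al.Alg

/-!
# MP_021f05_al (K5): the combinatorial datum of a root system with a base
-/

noncomputable section

namespace Pool.Agent.Lib.QG

universe u v w

open Finset in
/-- comparison of two symmetrizers of a matrix: positivity of one symmetrized form implies
positivity of the other -/
theorem k5_pos {J : Type} [Fintype J] (a : J → J → ℤ) (d d0 : J → ℤ)
    (hd : ∀ i, 0 < d i) (hd0 : ∀ i, 0 < d0 i)
    (hs : ∀ i j, d i * a i j = d j * a j i) (hs0 : ∀ i j, d0 i * a i j = d0 j * a j i)
    (hpos : ∀ μ : J → ℤ, μ ≠ 0 → 0 < ∑ i, ∑ j, μ i * (d0 i * a i j) * μ j)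
    (μ : J → ℤ) (hμ : μ ≠ 0) : 0 < ∑ i, ∑ j, μ i * (d i * a i j) * μ j := by
  classical
  let c : J → ℚ := fun i => (d i : ℚ) / d0 i
  have hc : ∀ i, 0 < c i := fun i => div_pos (by exact_mod_cast hd i) (by exact_mod_cast hd0 i)
  have hcd : ∀ i, c i * d0 i = d i := fun i => by
    have : (d0 i : ℚ) ≠ 0 := by have := hd0 i; exact_mod_cast this.ne'
    simp only [c]
    field_simp
  have hca : ∀ i j, a i j ≠ 0 → c i = c j := by
    intro i j hij
    have h0i : (d0 i : ℚ) ≠ 0 := by have := hd0 i; exact_mod_cast this.ne'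
    have h0j : (d0 j : ℚ) ≠ 0 := by have := hd0 j; exact_mod_cast this.ne'
    have haq : (a i j : ℚ) ≠ 0 := by exact_mod_cast hij
    have h1 : (d i : ℚ) * a i j = d j * a j i := by exact_mod_cast hs i j
    have h2 : (d0 i : ℚ) * a i j = d0 j * a j i := by exact_mod_cast hs0 i j
    have haj : (a j i : ℚ) ≠ 0 := by
      intro h
      rw [h, mul_zero] at h2
      exact (mul_ne_zero h0i haq) h2
    simp only [c]
    rw [div_eq_div_iff h0i h0j]
    apply mul_right_cancel₀ haq
    apply mul_right_cancel₀ haj
    calc (d i : ℚ) * d0 j * a i j * a j i = (d i * a i j) * (d0 j * a j i) := by ring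
      _ = (d j * a j i) * (d0 i * a i j) := by rw [h1, ← h2]
      _ = d j * d0 i * a i j * a j i := by ring
  let part : ℚ → J → ℤ := fun x i => if c i = x then μ i else 0
  have key : ((∑ i, ∑ j, μ i * (d i * a i j) * μ j : ℤ) : ℚ) =
      ∑ x ∈ univ.image c, x * ((∑ i, ∑ j, part x i * (d0 i * a i j) * part x j : ℤ) : ℚ) := by
    push_cast
    simp_rw [Finset.mul_sum]
    symm
    rw [Finset.sum_comm]
    refine Finset.sum_congr rfl fun i _ => ?_
    rw [Finset.sum_comm]
    refine Finset.sum_congr rfl fun j _ => ?_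
    rw [Finset.sum_eq_single (c i)]
    · simp only [part, if_true]
      by_cases haij : a i j = 0
      · simp [haij]
      · rw [if_pos (hca i j haij).symm, ← hcd i]
        push_cast
        ring
    · intro x _ hx
      simp only [part]
      rw [if_neg (Ne.symm hx)]
      simp
    · intro h
      exact absurd (Finset.mem_image_of_mem c (Finset.mem_univ i)) h
  have hq : (0 : ℚ) < ((∑ i, ∑ j, μ i * (d i * a i j) * μ j : ℤ) : ℚ) := by
    rw [key]
    obtain ⟨i0, hi0⟩ := Function.ne_iff.1 hμ
    apply Finset.sum_pos'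
    · intro x hx
      obtain ⟨i, _, rfl⟩ := Finset.mem_image.1 hx
      apply mul_nonneg (hc i).le
      by_cases hp : part (c i) = 0
      · rw [hp]; simp
      · exact_mod_cast (hpos _ hp).le
    · refine ⟨c i0, Finset.mem_image_of_mem c (Finset.mem_univ i0), ?_⟩
      apply mul_pos (hc i0)
      have hp : part (c i0) ≠ 0 := by
        intro h
        have := congrFun h i0
        simp only [part, if_true, Pi.zero_apply] at this
        exact hi0 this
      exact_mod_cast hpos _ hp
  exact_mod_cast hq

section

set_option linter.unusedSectionVars false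

variable {ι : Type} [Finite ι] {R : Type u} [Field R] [CharZero R]
    {M : Type v} {N : Type w} [AddCommGroup M] [Module R M] [AddCommGroup N] [Module R N]
    {P : RootPairing ι R M N}

/-- integral combinations of the simple roots -/
def k5L (b : P.Base) (β : b.support → ℤ) : M := ∑ j, β j • P.root j

theorem k5L_inj (b : P.Base) {β γ : b.support → ℤ} (h : k5L b β = k5L b γ) : β = γ := by
  have hli : LinearIndependent ℤ (fun j : b.support => P.root j) :=
    b.linearIndepOn_root.restrict_scalars' ℤ
  have h1 := Fintype.linearIndependent_iff.1 hli (β - γ) (by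
    simp only [Pi.sub_apply, sub_smul, Finset.sum_sub_distrib]
    unfold k5L at h
    rw [h, sub_self])
  ext j
  have := h1 j
  simp only [Pi.sub_apply] at this
  omega

theorem k5L_simple (b : P.Base) [DecidableEq b.support] (i : b.support) :
    k5L b (Pi.single i 1) = P.root i := by
  unfold k5L
  rw [Finset.sum_eq_single i]
  · simp
  · intro j _ hj
    simp [Pi.single_eq_of_ne hj]
  · simp

theorem k5L_neg (b : P.Base) (β : b.support → ℤ) : k5L b (-β) = - k5L b β := by
  simp [k5L]

theorem k5L_sub (b : P.Base) (β γ : b.support → ℤ) : k5L b (β - γ) = k5L b β - k5L b γ := by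
  simp [k5L, sub_smul]

theorem k5L_smul (b : P.Base) (m : ℤ) (β : b.support → ℤ) : k5L b (m • β) = m • k5L b β := by
  simp [k5L, Finset.smul_sum, mul_smul]

theorem k5L_ext (b : P.Base) [DecidableEq ι] (β : b.support → ℤ) :
    ∑ j ∈ b.support, (if h : j ∈ b.support then β ⟨j, h⟩ else 0) • P.root j = k5L b β := by
  unfold k5L
  rw [← Finset.sum_coe_sort b.support]
  refine Finset.sum_congr rfl fun j _ => ?_
  simp

/-- a root is a nonnegative or a nonpositive combination -/
theorem k5_sign (b : P.Base) (β : b.support → ℤ) (h : k5L b β ∈ Set.range P.root) :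
    (∀ j, 0 ≤ β j) ∨ (∀ j, β j ≤ 0) := by
  classical
  have := b.pos_or_neg_of_sum_smul_root_mem (fun j => if h : j ∈ b.support then β ⟨j, h⟩ else 0)
    (by rw [k5L_ext]; exact h) (by
      intro j hj
      simp only [Function.mem_support, ne_eq, dite_eq_right_iff, not_forall] at hj
      exact hj.1)
  rcases this with h1 | h1
  · left
    intro j
    have := h1.le j
    simpa using this
  · right
    intro j
    have := h1.le j
    simpa using this

theorem k5_root_ne (b : P.Base) {β : b.support → ℤ} (h : k5L b β ∈ Set.range P.root) : β ≠ 0 := by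
  rintro rfl
  obtain ⟨k, hk⟩ := h
  exact P.ne_zero k (by rw [hk]; simp [k5L])

/-- two proportional roots with nonnegative coordinates agree -/
theorem k5_prim [P.IsReduced] (b : P.Base) {β γ : b.support → ℤ}
    (hβ : k5L b β ∈ Set.range P.root) (hγ : k5L b γ ∈ Set.range P.root)
    (hβ0 : ∀ j, 0 ≤ β j) (hγ0 : ∀ j, 0 ≤ γ j) {m n : ℤ} (hm : m ≠ 0) (h : m • β = n • γ) :
    β = γ := by
  obtain ⟨k, hk⟩ := id hβ
  obtain ⟨l, hl⟩ := id hγ
  have h1 : m • P.root k = n • P.root l := by
    rw [hk, hl, ← k5L_smul, ← k5L_smul, h]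
  have hnl : ¬ LinearIndependent R ![P.root k, P.root l] := by
    intro hli
    rw [LinearIndependent.pair_iff] at hli
    have := hli (m : R) (-(n : R)) (by
      rw [neg_smul, Int.cast_smul_eq_zsmul, Int.cast_smul_eq_zsmul, h1, add_neg_cancel])
    exact hm (by exact_mod_cast this.1)
  rcases RootPairing.IsReduced.eq_or_eq_neg k l hnl with h2 | h2
  · rw [hk, hl] at h2
    exact k5L_inj b h2
  · exfalso
    rw [hk, hl, ← k5L_neg] at h2
    have h3 := k5L_inj b h2
    apply k5_root_ne b hβ
    ext j
    have h4 := congrFun h3 j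
    have h5 := hβ0 j
    have h6 := hγ0 j
    simp only [Pi.neg_apply, Pi.zero_apply] at h4 ⊢
    omega

end

theorem exists_CDatum {ι : Type} [Finite ι] [DecidableEq ι] {R : Type u} [Field R] [CharZero R]
    {M : Type v} {N : Type w} [AddCommGroup M] [Module R M] [AddCommGroup N] [Module R N]
    (P : RootPairing ι R M N) [P.IsRootSystem] [P.IsCrystallographic] [P.IsReduced]
    (b : P.Base) (d : b.support → ℕ) (hd : ∀ i, 0 < d i)
    (hs : ∀ i j, (d i : ℤ) * b.cartanMatrix j i = d j * b.cartanMatrix i j) :
    ∃ C : CDatum b.support, C.a = (fun i j => b.cartanMatrix j i) ∧ C.d = d := by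
  have hfin : {β : b.support → ℤ | (∀ j, 0 ≤ β j) ∧ k5L b β ∈ Set.range P.root}.Finite := by
    have h1 : (k5L b ⁻¹' Set.range P.root).Finite :=
      Set.Finite.preimage (fun _ _ _ _ h => k5L_inj b h) (Set.finite_range _)
    exact h1.subset fun β hβ => hβ.2
  have hmem : ∀ β, β ∈ hfin.toFinset ↔ (∀ j, 0 ≤ β j) ∧ k5L b β ∈ Set.range P.root := by
    intro β
    rw [Set.Finite.mem_toFinset]
    rfl
  refine ⟨{ a := fun i j => b.cartanMatrix j i
            d := d
            d_pos := hd
            diag := fun i => b.cartanMatrix_apply_same i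
            nonpos := fun i j hij => b.cartanMatrix_le_zero_of_ne j i hij.symm
            ge := ?_
            symm := hs
            pos := ?_
            Φ := hfin.toFinset
            Φ_ne := fun β hβ => k5_root_ne b ((hmem β).1 hβ).2
            Φ_nonneg := fun β hβ => ((hmem β).1 hβ).1
            Φ_simple := ?_
            Φ_refl := ?_
            Φ_prim := ?_ }, rfl, rfl⟩
  · intro i j
    by_cases hij : i = j
    · subst hij
      rw [b.cartanMatrix_apply_same]
      norm_num
    · have := b.cartanMatrix_mem_of_ne (Ne.symm hij)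
      simp only [Set.mem_insert_iff, Set.mem_singleton_iff] at this
      omega
  · obtain ⟨d0, hd0, hP⟩ := b.exists_cartanMatrix_mul_diagaonal_posDef
    refine k5_pos (fun i j => b.cartanMatrix j i) (fun i => d i) d0
      (fun i => by exact_mod_cast hd i) hd0 hs ?_ ?_
    · intro i j
      have h1 := hP.isHermitian
      have h2 := congrFun (congrFun h1 i) j
      simp only [Matrix.conjTranspose_apply, Matrix.mul_diagonal, star_trivial] at h2
      linarith
    · intro μ hμ
      have h1 := hP.dotProduct_mulVec_pos hμ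
      simp only [star_trivial, dotProduct, Matrix.mulVec, Matrix.mul_diagonal] at h1
      rw [Finset.sum_comm]
      refine h1.trans_eq ?_
      refine Finset.sum_congr rfl fun i _ => ?_
      rw [Finset.mul_sum]
      refine Finset.sum_congr rfl fun j _ => ?_
      ring
  · intro i
    rw [hmem]
    refine ⟨fun j => ?_, ?_⟩
    · by_cases hj : j = i
      · subst hj; simp
      · simp [Pi.single_eq_of_ne hj]
    · rw [k5L_simple]; exact ⟨i, rfl⟩
  · intro i β hβ hne
    rw [hmem] at hβ ⊢
    obtain ⟨h1, k, hk⟩ := hβ
    have hr : k5L b (β - (∑ j, b.cartanMatrix j i * β j) • (Pi.single i 1 : b.support → ℤ)) ∈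
        Set.range P.root := by
      rw [k5L_sub, k5L_smul, k5L_simple]
      refine ⟨P.reflectionPerm i k, ?_⟩
      rw [P.root_reflectionPerm, RootPairing.reflection_apply, hk]
      congr 1
      rw [← Int.cast_smul_eq_zsmul R]
      congr 1
      unfold k5L
      rw [map_sum]
      push_cast
      refine Finset.sum_congr rfl fun j _ => ?_
      rw [map_zsmul, RootPairing.root_coroot'_eq_pairing, zsmul_eq_mul, mul_comm]
      congr 1
      exact (b.algebraMap_cartanMatrixIn_apply ℤ j i).symm
    refine ⟨?_, hr⟩
    rcases k5_sign b _ hr with h2 | h2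
    · exact h2
    · exfalso
      apply hne
      -- `β` is a multiple of the simple root
      have h3 : ∀ j, j ≠ i → β j = 0 := by
        intro j hj
        have h4 := h2 j
        have h5 := h1 j
        simp only [Pi.sub_apply, Pi.smul_apply, Pi.single_eq_of_ne hj, smul_zero, sub_zero] at h4
        omega
      refine k5_prim b ⟨k, hk⟩ (by rw [k5L_simple]; exact ⟨i, rfl⟩) h1 ?_ (m := 1) (n := β i)
        one_ne_zero ?_
      · intro j
        by_cases hj : j = i
        · subst hj; simp
        · simp [Pi.single_eq_of_ne hj]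
      · ext j
        by_cases hj : j = i
        · subst hj; simp
        · simp [Pi.single_eq_of_ne hj, h3 j hj]
  · intro β hβ γ hγ m n hm h
    rw [hmem] at hβ hγ
    exact k5_prim b hβ.2 hγ.2 hβ.1 hγ.1 hm h

end Pool.Agent.Lib.QG
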