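import Mathlib

/-!
# MP_021f05_al: the quantized enveloping algebra, its trivial module, the Yoneda algebra, exponents
(definitions of the final statement)
-/

noncomputable section

namespace Pool.Agent.Lib.QG.Stmt

open CategoryTheory DirectSum

/-! ### the Yoneda algebra of an object of a linear abelian category -/

section yoneda

universe w v u

variable (k : Type) [Field k] {C : Type u} [Category.{v} C] [Abelian C] [Linear k C]
  [HasExt.{w} C]

/-- the graded pieces `Ext^n(X, X)` -/
abbrev Y (X : C) (n : ℕ) : Type w := Abelian.Ext X X n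

/-- the Yoneda product -/
instance (X : C) : GradedMonoid.GMul (Y X) where
  mul a b := Abelian.Ext.comp a b rfl

/-- the unit -/
instance (X : C) : GradedMonoid.GOne (Y X) where
  one := Abelian.Ext.mk₀ (𝟙 X)

end yoneda

/-! ### the algebra `U_ε` -/

/-- generators `E_i, F_i, K_i, L_i = K_i⁻¹` -/
inductive Gens (I : Type) : Type
  | E (i : I) : Gens I
  | F (i : I) : Gens I
  | K (i : I) : Gens I
  | L (i : I) : Gens I

section alg

variable {k : Type} [Field k] {I : Type}

/-- `[n]_p = (p^n - p^{-n})/(p - p^{-1})` -/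
def gnum (p : k) (n : ℤ) : k := (p ^ n - p ^ (-n)) / (p - p⁻¹)

/-- `[n]_p! = [1]_p [2]_p ⋯ [n]_p` -/
def gfac (p : k) (n : ℕ) : k := ∏ s ∈ Finset.range n, gnum p (s + 1)

/-- the Gaussian binomial `[n]_p! / ([s]_p! [n-s]_p!)` -/
def gbin (p : k) (n s : ℕ) : k := gfac p n / (gfac p s * gfac p (n - s))

/-- `∑_{s=0}^{n} (-1)^s [n, s]_p x^{n-s} y x^s` -/
def gserre {A : Type} [Ring A] [Algebra k A] (p : k) (n : ℕ) (x y : A) : A :=
  ∑ s ∈ Finset.range (n + 1), ((-1) ^ s * gbin p n s) • (x ^ (n - s) * y * x ^ s)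

open FreeAlgebra in
/-- the defining relations of `U_ε`, for the Cartan matrix `a` and the symmetrizing numbers `d` -/
inductive URel (a : I → I → ℤ) (d : I → ℕ) (ε : k) :
    FreeAlgebra k (Gens I) → FreeAlgebra k (Gens I) → Prop
  | KL i : URel a d ε (ι k (.K i) * ι k (.L i)) 1
  | LK i : URel a d ε (ι k (.L i) * ι k (.K i)) 1
  | KK i j : URel a d ε (ι k (.K i) * ι k (.K j)) (ι k (.K j) * ι k (.K i))
  | KE i j : URel a d ε (ι k (.K i) * ι k (.E j) * ι k (.L i))
      (ε ^ ((d i : ℤ) * a i j) • ι k (.E j))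
  | KF i j : URel a d ε (ι k (.K i) * ι k (.F j) * ι k (.L i))
      (ε ^ (-((d i : ℤ) * a i j)) • ι k (.F j))
  | EF i : URel a d ε (ι k (.E i) * ι k (.F i) - ι k (.F i) * ι k (.E i))
      ((ε ^ d i - (ε ^ d i)⁻¹)⁻¹ • (ι k (.K i) - ι k (.L i)))
  | EFn i j (hij : i ≠ j) : URel a d ε (ι k (.E i) * ι k (.F j) - ι k (.F j) * ι k (.E i)) 0
  | SE i j (hij : i ≠ j) :
      URel a d ε (gserre (ε ^ d i) (1 - a i j).toNat (ι k (.E i)) (ι k (.E j))) 0
  | SF i j (hij : i ≠ j) :
      URel a d ε (gserre (ε ^ d i) (1 - a i j).toNat (ι k (.F i)) (ι k (.F j))) 0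

/-- the algebra `U_ε` -/
abbrev Ue (a : I → I → ℤ) (d : I → ℕ) (ε : k) : Type := RingQuot (URel a d ε)

/-- the counit on the free algebra: `E_i, F_i ↦ 0`, `K_i, L_i ↦ 1` -/
def counitF (k : Type) [Field k] (I : Type) : FreeAlgebra k (Gens I) →ₐ[k] k :=
  FreeAlgebra.lift k fun g => match g with
    | .E _ => 0
    | .F _ => 0
    | .K _ => 1
    | .L _ => 1

theorem counitF_rel (a : I → I → ℤ) (d : I → ℕ) (ε : k) ⦃x y : FreeAlgebra k (Gens I)⦄
    (h : URel a d ε x y) : counitF k I x = counitF k I y := by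
  have hs : ∀ (p : k) (n : ℕ) (x y : FreeAlgebra k (Gens I)), counitF k I y = 0 →
      counitF k I (gserre p n x y) = 0 := by
    intro p n x y hy
    unfold gserre
    rw [map_sum]
    refine Finset.sum_eq_zero fun s _ => ?_
    rw [map_smul, map_mul, map_mul, hy, mul_zero, zero_mul, smul_zero]
  cases h with
  | SE i j hij => rw [hs _ _ _ _ (by simp [counitF]), map_zero]
  | SF i j hij => rw [hs _ _ _ _ (by simp [counitF]), map_zero]
  | _ => simp [counitF]

/-- the counit of `U_ε` -/
def counit (a : I → I → ℤ) (d : I → ℕ) (ε : k) : Ue a d ε →ₐ[k] k :=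
  RingQuot.liftAlgHom k ⟨counitF k I, counitF_rel a d ε⟩

/-- the trivial module `k` of `U_ε`, in which `u` acts as multiplication by its counit -/
def trivMod (a : I → I → ℤ) (d : I → ℕ) (ε : k) : ModuleCat.{0} (Ue a d ε) :=
  letI : Module (Ue a d ε) k := Module.compHom k (counit a d ε).toRingHom
  ModuleCat.of (Ue a d ε) k

end alg

/-! ### exponents -/

section expo

open MvPolynomial

variable (k : Type) [Field k] {I : Type}

/-- the simple reflection `s_i` acting on the polynomial ring in the simple roots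
`α_j = X j`: `α_j ↦ α_j - a_{ij} α_i` -/
def simpleRefl (a : I → I → ℤ) (i : I) : MvPolynomial I k →ₐ[k] MvPolynomial I k :=
  aeval fun j => X j - (a i j : MvPolynomial I k) * X i

/-- `m 0, …, m (r-1)` are the exponents of the Weyl group with Cartan matrix `a`: the ring of
invariants is a polynomial ring on algebraically independent homogeneous invariants of degrees
`m j + 1`. -/
def IsExponents (a : I → I → ℤ) {r : ℕ} (m : Fin r → ℕ) : Prop :=
  ∃ f : Fin r → MvPolynomial I k, (∀ j, (f j).IsHomogeneous (m j + 1)) ∧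
    (∀ j i, simpleRefl k a i (f j) = f j) ∧ AlgebraicIndependent k f ∧
    ∀ p : MvPolynomial I k, (∀ i, simpleRefl k a i p = p) → p ∈ Algebra.adjoin k (Set.range f)

end expo

end Pool.Agent.Lib.QG.Stmt
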