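import Pool.Agent.Lib.MP_021f05_al.R1
import Pool.Agent.Lib.MP_021f05_al.R2

/-!
# MP_021f05_al (E8): vanishing above the number of positive roots, over `B` and `B⁻`
-/

noncomputable section

namespace Pool.Agent.Lib.QG

open MvPolynomial

variable {k : Type} [Field k] [CharZero k] {I : Type} [Fintype I] [DecidableEq I] {Q : QD k I}

theorem EVan_km_nu (μ : I → ℤ) {n : ℤ} (hn : (Q.nu μ : ℤ) < n) : EVan (Q.km Set.univ μ) n := by
  have key : ∀ (m : ℕ) (μ : I → ℤ) (n : ℤ), -ht μ < m → (Q.nu μ : ℤ) < n →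
      EVan (Q.km Set.univ μ) n := by
    intro m
    induction m with
    | zero =>
      intro μ n hm hn
      have hn0 : 0 ≤ n := le_of_lt (lt_of_le_of_lt (Int.natCast_nonneg _) hn)
      obtain ⟨N, rfl⟩ := Int.eq_ofNat_of_zero_le hn0
      refine EVan_km μ N fun h => ?_
      push_cast at hm
      linarith
    | succ m ih =>
      intro μ n hm hn
      have hn0 : 0 ≤ n := le_of_lt (lt_of_le_of_lt (Int.natCast_nonneg _) hn)
      by_cases hneg : ∀ j, μ j ≤ 0
      · by_cases h0 : μ = 0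
        · subst h0
          obtain ⟨N, rfl⟩ := Int.eq_ofNat_of_zero_le hn0
          refine EVan_km 0 N fun _ => ?_
          rw [CDatum.nu_zero] at hn
          simp only [ht, Pi.zero_apply, Finset.sum_const_zero]
          linarith
        · obtain ⟨i, hi⟩ := Q.toCDatum.exists_neg hneg h0
          by_cases h1 : Q.ct i μ = -1
          · exact EVan_km_R1 h1 n
          · have h2 : 0 ≤ Q.ct i (Q.dot i μ) := by
              rw [CDatum.ct_dot]
              have h3 : Q.ct i μ < 0 := hi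
              omega
            have h3 : Q.nu μ = Q.nu (Q.dot i μ) + 1 := by
              have h4 := Q.toCDatum.nu_dot i (Q.dot i μ) h2
              rwa [CDatum.dot_dot] at h4
            have h5 : ht (Q.dot i μ) = ht μ - (Q.ct i μ + 1) := Q.toCDatum.ht_dot i μ
            have h6 : -ht (Q.dot i μ) < (m : ℤ) := by
              rw [h5]
              push_cast at hm
              have h3 : Q.ct i μ < 0 := hi
              omega
            have h7 : (Q.nu (Q.dot i μ) : ℤ) < n - 1 := by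
              rw [h3] at hn
              push_cast at hn
              linarith
            have h8 := EVan_km_dot (Q := Q) (i := i) (μ := Q.dot i μ) h2 (n := n - 1)
              (le_of_lt (lt_of_le_of_lt (Int.natCast_nonneg _) h7))
              (ih _ _ h6 h7) (ih _ _ h6 (by linarith))
            rwa [CDatum.dot_dot, sub_add_cancel] at h8
      · obtain ⟨N, rfl⟩ := Int.eq_ofNat_of_zero_le hn0
        exact EVan_km μ N fun h => absurd h hneg
  exact key ((-ht μ).toNat + 1) μ n (by push_cast; have := Int.self_le_toNat (-ht μ); linarith) hn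

/-! ### weight modules killed by the `E_i` -/

omit [CharZero k] in
/-- a basis of weight vectors -/
lemma V1_basis {T : TAlg k I} {N : Mod T} (hN : IsWt Q N) :
    ∃ (ι : Type) (b : Module.Basis ι k N.X) (w : ι → I → ℤ), ∀ s, b s ∈ wts Q N (w s) := by
  classical
  have hint : DirectSum.IsInternal (wts Q N) :=
    DirectSum.isInternal_submodule_of_iSupIndep_of_iSup_eq_top wts_indep hN
  let b : ∀ μ, Module.Basis (Module.Basis.ofVectorSpaceIndex k (wts Q N μ)) k (wts Q N μ) :=
    fun μ => Module.Basis.ofVectorSpace k (wts Q N μ)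
  exact ⟨_, hint.collectedBasis b, fun s => s.1, fun s => hint.collectedBasis_mem b s⟩

omit [CharZero k] [Fintype I] [DecidableEq I] in
lemma V1_bij {T : TAlg k I} {N : Mod T} {ι : Type} [DecidableEq ι] (b : Module.Basis ι k N.X)
    (L : ι → Mod T) (v : ∀ s, (L s).X) (c : ∀ s, (L s).X → k) (hc : ∀ s x, x = c s x • v s)
    (j : ∀ s, (L s).X →ₗ[T.A] N.X) (hj : ∀ s, j s (v s) = b s) :
    Function.Bijective (DirectSum.toModule T.A ι N.X j) := by
  classical
  have hj2 : ∀ s (x : (L s).X), j s x = c s x • b s := by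
    intro s x
    conv_lhs => rw [hc s x]
    rw [map_smulk, hj]
  constructor
  · rw [injective_iff_map_eq_zero]
    intro x hx
    have h1 : DirectSum.toModule T.A ι N.X j x = ∑ s ∈ x.support, c s (x s) • b s := by
      conv_lhs => rw [← DirectSum.sum_support_of x]
      rw [map_sum]
      refine Finset.sum_congr rfl fun s _ => ?_
      have h4 : DirectSum.of (fun s => (L s).X) s (x s)
          = DirectSum.lof T.A ι (fun s => (L s).X) s (x s) := rfl
      rw [h4, DirectSum.toModule_lof, hj2]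
    rw [h1] at hx
    have h3 := (linearIndependent_iff'.1 b.linearIndependent) x.support (fun s => c s (x s)) hx
    refine DFinsupp.ext fun s => ?_
    by_cases hs : s ∈ x.support
    · rw [hc s (x s), h3 s hs, zero_smul]; rfl
    · rw [DFinsupp.notMem_support_iff.1 hs]; rfl
  · intro y
    refine ⟨∑ s ∈ (b.repr y).support, DirectSum.lof T.A ι (fun s => (L s).X) s
      ((b.repr y s) • v s), ?_⟩
    rw [map_sum]
    conv_rhs => rw [← b.linearCombination_repr y, Finsupp.linearCombination_apply, Finsupp.sum]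
    refine Finset.sum_congr rfl fun s _ => ?_
    rw [DirectSum.toModule_lof, map_smulk, hj]

/-- a weight module over `B` killed by all `E_i` is a direct sum of the `k_μ` -/
lemma V1_triv {N : Mod Q.B} (hN : IsWt Q N) (hE : ∀ i (x : N.X), Q.gE Set.univ ∅ i • x = 0)
    {n : ℤ} (h : ∀ μ, EVan (Q.km Set.univ μ) n) : EVan N n := by
  classical
  obtain ⟨ι, b, w, hw⟩ := V1_basis hN
  choose j hj using fun s => exists_km_hom (hw s) (fun i _ => hE i (b s))
  choose c hc using fun s => km_span (Q := Q) Set.univ (w s)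
  exact EVan.ds (fun s => Q.km Set.univ (w s)) N j
    (V1_bij b (fun s => Q.km Set.univ (w s)) (fun s => Q.kv Set.univ (w s)) c hc j hj)
    (fun s => h (w s))

/-! ### the height filtration -/

omit [CharZero k] in
lemma V1_al_ht (i : I) : ht (Q.al i) = 1 := by
  simp [ht, CDatum.al]

omit [CharZero k] in
/-- the raising operators on weight spaces -/
lemma V1_E_wts {M : Mod Q.B} {μ : I → ℤ} {x : M.X} (hx : x ∈ wts Q M μ) (i : I) :
    Q.gE Set.univ ∅ i • x ∈ wts Q M (Q.al i + μ) := by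
  intro j
  have h1 : (Q.B.K j : Q.B.A) * Q.gE Set.univ ∅ i
      = Q.q ^ ((Q.d j : ℤ) * Q.a j i) • (Q.gE Set.univ ∅ i * (Q.B.K j : Q.B.A)) :=
    (QA.elts Q Set.univ ∅).KE j i
  rw [smul_smul, h1, smul_assoc, mul_smul, hx j, QD.χ_add, ind2_χ_al, mul_smul]
  congr 1
  rw [← algebraMap_smul Q.B.A (Q.χ μ j) x, smul_smul, ← Algebra.commutes, mul_smul,
    algebraMap_smul]

/-- the subspace spanned by the weight vectors of height `> t` -/
def V1_W (M : Mod Q.B) (t : ℤ) : Submodule k M.X := ⨆ μ, ⨆ (_ : t < ht μ), wts Q M μ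

omit [CharZero k] in
lemma V1_W_mem {M : Mod Q.B} {t : ℤ} {μ : I → ℤ} (hμ : t < ht μ) {x : M.X}
    (hx : x ∈ wts Q M μ) : x ∈ V1_W M t :=
  Submodule.mem_iSup_of_mem μ (Submodule.mem_iSup_of_mem hμ hx)

omit [CharZero k] in
lemma V1_W_ind {M : Mod Q.B} {t : ℤ} {p : M.X → Prop} (h0 : p 0)
    (hadd : ∀ x y, p x → p y → p (x + y))
    (hw : ∀ μ, t < ht μ → ∀ x ∈ wts Q M μ, p x) {x : M.X} (hx : x ∈ V1_W M t) : p x := by
  refine Submodule.iSup_induction (fun μ => ⨆ (_ : t < ht μ), wts Q M μ) (motive := p) hx ?_ h0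
    (fun x y hx hy => hadd x y hx hy)
  intro μ x hx
  by_cases hμ : t < ht μ
  · rw [iSup_pos hμ] at hx
    exact hw μ hμ x hx
  · rw [iSup_neg hμ] at hx
    rw [(Submodule.mem_bot k).1 hx]
    exact h0

omit [CharZero k] in
lemma V1_W_mono {M : Mod Q.B} {s t : ℤ} (h : s ≤ t) : V1_W M t ≤ V1_W M s := by
  intro x hx
  exact V1_W_ind (p := fun x => x ∈ V1_W M s) (zero_mem _) (fun x y hx hy => add_mem hx hy)
    (fun μ hμ x hx => V1_W_mem (lt_of_le_of_lt h hμ) hx) hx

omit [CharZero k] in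
lemma V1_W_E {M : Mod Q.B} {t : ℤ} {x : M.X} (hx : x ∈ V1_W M t) (i : I) :
    Q.gE Set.univ ∅ i • x ∈ V1_W M (t + 1) := by
  refine V1_W_ind (p := fun x => Q.gE Set.univ ∅ i • x ∈ V1_W M (t + 1)) ?_ ?_ ?_ hx
  · rw [smul_zero]; exact zero_mem _
  · intro x y hx hy
    rw [smul_add]; exact add_mem hx hy
  · intro μ hμ x hx
    refine V1_W_mem ?_ (V1_E_wts hx i)
    have h1 : ht (Q.al i + μ) = 1 + ht μ := by
      have h2 := V1_al_ht (Q := Q) i
      unfold ht at h2 ⊢
      rw [← h2, ← Finset.sum_add_distrib]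
      rfl
    rw [h1]
    linarith

omit [CharZero k] in
lemma V1_W_smul {M : Mod Q.B} (t : ℤ) (a : Q.B.A) :
    ∀ x ∈ V1_W M t, a • x ∈ V1_W M t := by
  refine QA.induction (p := fun a : QA Q Set.univ ∅ => ∀ x ∈ V1_W M t,
    (show Q.B.A from a) • x ∈ V1_W M t) ?_ ?_ ?_ ?_ ?_ ?_ ?_ a
  · intro s x hx
    have h1 : (show Q.B.A from algebraMap k (QA Q Set.univ ∅) s) • x = s • x :=
      algebraMap_smul Q.B.A s x
    rw [h1]
    exact Submodule.smul_mem _ _ hx
  · intro i x hx
    exact V1_W_mono (by linarith) (V1_W_E hx i)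
  · intro i x hx
    have h1 : (show Q.B.A from (QA.elts Q Set.univ ∅).F i) = 0 :=
      (QA.elts Q Set.univ ∅).F0 i (Set.notMem_empty i)
    rw [h1, zero_smul]
    exact zero_mem _
  · intro i x hx
    refine V1_W_ind (p := fun x => (Q.B.K i : Q.B.A) • x ∈ V1_W M t) ?_ ?_ ?_ hx
    · rw [smul_zero]; exact zero_mem _
    · intro x y hx hy
      rw [smul_add]; exact add_mem hx hy
    · intro μ hμ x hx
      rw [hx i]
      exact Submodule.smul_mem _ _ (V1_W_mem hμ hx)
  · intro i x hx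
    refine V1_W_ind (p := fun x => (((Q.B.K i)⁻¹ : Q.B.Aˣ) : Q.B.A) • x ∈ V1_W M t) ?_ ?_ ?_ hx
    · rw [smul_zero]; exact zero_mem _
    · intro x y hx hy
      rw [smul_add]; exact add_mem hx hy
    · intro μ hμ x hx
      have h1 : (((Q.B.K i)⁻¹ : Q.B.Aˣ) : Q.B.A) • x = (Q.χ μ i)⁻¹ • x := by
        have h2 : x = (Q.χ μ i)⁻¹ • ((Q.B.K i : Q.B.A) • x) := by
          rw [hx i, smul_smul, inv_mul_cancel₀ (QD.χ_ne μ i), one_smul]
        conv_lhs => rw [h2]
        rw [← algebraMap_smul Q.B.A ((Q.χ μ i)⁻¹) ((Q.B.K i : Q.B.A) • x), smul_smul, smul_smul,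
          ← Algebra.commutes, mul_assoc, Units.inv_mul, mul_one, algebraMap_smul]
      rw [h1]
      exact Submodule.smul_mem _ _ (V1_W_mem hμ hx)
  · intro a b ha hb x hx
    have h1 : (show Q.B.A from a + b) • x
        = (show Q.B.A from a) • x + (show Q.B.A from b) • x :=
      add_smul (show Q.B.A from a) (show Q.B.A from b) x
    rw [h1]
    exact add_mem (ha x hx) (hb x hx)
  · intro a b ha hb x hx
    have h1 : (show Q.B.A from a * b) • x
        = (show Q.B.A from a) • (show Q.B.A from b) • x :=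
      mul_smul (show Q.B.A from a) (show Q.B.A from b) x
    rw [h1]
    exact ha _ (hb x hx)

/-- the height filtration -/
def V1_F (M : Mod Q.B) (t : ℤ) : Submodule Q.B.A M.X where
  carrier := V1_W M t
  add_mem' := fun hx hy => add_mem hx hy
  zero_mem' := zero_mem _
  smul_mem' := fun a x hx => V1_W_smul t a x hx

omit [CharZero k] in
lemma V1_F_mem {M : Mod Q.B} {t : ℤ} {x : M.X} : x ∈ V1_F M t ↔ x ∈ V1_W M t := Iff.rfl

/-- weight modules over `B` with weights bounded above -/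
theorem EVan_B {M : Mod Q.B} (hM : IsWt Q M) (c : ℤ)
    (hc : ∀ μ, wts Q M μ ≠ ⊥ → ht μ ≤ c) {n : ℤ} (hn : (Q.Φ.card : ℤ) < n) : EVan M n := by
  have hkm : ∀ μ, EVan (Q.km Set.univ μ) n := fun μ =>
    EVan_km_nu μ (lt_of_le_of_lt (by exact_mod_cast Q.toCDatum.nu_le μ) hn)
  let F : ℕ → Submodule Q.B.A M.X := fun d => V1_F M (c - d)
  let R : ∀ d, Submodule Q.B.A (M.sub (F (d + 1))).X := fun d => (F d).comap (F (d + 1)).subtype
  refine EVan.union hM F ?_ ?_ ?_ (fun d => (M.sub (F (d + 1))).quot (R d))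
    (fun d => (M.sub (F (d + 1))).quotπ (R d)) (fun d => (R d).mkQ_surjective) ?_ ?_
  · intro d d' h x hx
    refine V1_W_mono ?_ hx
    have : (d : ℤ) ≤ d' := by exact_mod_cast h
    linarith
  · rw [eq_bot_iff]
    intro x hx
    have hx' : x ∈ V1_W M (c - (0 : ℕ)) := hx
    have hx0 : x = 0 := by
      refine V1_W_ind (p := fun x : M.X => x = 0) rfl
        (fun x y hx hy => by rw [hx, hy, add_zero]) ?_ hx'
      intro μ hμ x hx
      by_contra hne
      have h1 := hc μ (fun h => by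
        rw [h] at hx
        exact hne ((Submodule.mem_bot k).1 hx))
      push_cast at hμ
      linarith
    exact hx0
  · intro x
    obtain ⟨f, hf, rfl⟩ := hM.exists_sum x
    refine ⟨(c + 1 + ∑ μ ∈ f.support, |ht μ|).toNat, ?_⟩
    refine Submodule.sum_mem _ fun μ hμ => V1_W_mem ?_ (hf μ)
    have h1 : |ht μ| ≤ ∑ μ ∈ f.support, |ht μ| :=
      Finset.single_le_sum (f := fun μ => |ht μ|) (fun _ _ => abs_nonneg _) hμ
    have h2 := Int.self_le_toNat (c + 1 + ∑ μ ∈ f.support, |ht μ|)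
    have h3 := neg_abs_le (ht μ)
    linarith
  · intro d x
    have h1 : (M.sub (F (d + 1))).quotπ (R d) x = 0 ↔ x ∈ R d :=
      Submodule.Quotient.mk_eq_zero (R d)
    rw [h1]
    rfl
  · intro d
    refine V1_triv ((hM.sub _).quot _) ?_ hkm
    intro i z
    obtain ⟨x, rfl⟩ := (R d).mkQ_surjective z
    have h1 : Q.gE Set.univ ∅ i • (R d).mkQ x = (R d).mkQ (Q.gE Set.univ ∅ i • x) :=
      ((R d).mkQ.map_smul _ _).symm
    refine h1.trans ?_
    refine (Submodule.Quotient.mk_eq_zero (R d)).2 ?_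
    have h2 : Q.gE Set.univ ∅ i • (x.1 : M.X) ∈ V1_W M (c - ((d + 1 : ℕ) : ℤ) + 1) :=
      V1_W_E x.2 i
    have h3 : c - ((d + 1 : ℕ) : ℤ) + 1 = c - d := by push_cast; ring
    rw [h3] at h2
    exact h2

omit [CharZero k] in
lemma V1_wts_res {T' T : TAlg k I} (φ : THom T' T) (M : Mod T) (μ : I → ℤ) :
    wts Q (M.res φ) μ = wts Q M μ := by
  ext x
  have h2 : ∀ i, ((T'.K i : T'.A) • x : (M.res φ).X) =
      ((T.K i : T.A) • (show M.X from x) : M.X) := by
    intro i
    rw [Mod.res_smul, φ.f_K]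
  constructor
  · intro hx i
    rw [← h2 i]
    exact hx i
  · intro hx i
    rw [h2 i]
    exact hx i

omit [CharZero k] in
lemma V1_isWt_res {T' T : TAlg k I} (φ : THom T' T) (M : Mod T) (h : IsWt Q (M.res φ)) :
    IsWt Q M := by
  unfold IsWt
  have h3 : (⨆ μ, wts Q (M.res φ) μ) = ⨆ μ, wts Q M μ := iSup_congr (V1_wts_res φ M)
  rw [← h3]
  exact h

/-- weight modules over `B⁻` with weights bounded below -/
theorem EVan_Bm {M : Mod Q.Bm} (hM : IsWt Q M) (c : ℤ)
    (hc : ∀ μ, wts Q M μ ≠ ⊥ → c ≤ ht μ) {n : ℤ} (hn : (Q.Φ.card : ℤ) < n) : EVan M n := by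
  obtain ⟨φ, hφ, -, -⟩ := exists_bar Q ∅ Set.univ
  obtain ⟨M', e, -⟩ := exists_res_iso φ hφ M
  have hbij : Function.Bijective (e : (M'.res φ).X →ₗ[Q.Bm.A] M.X) := e.bijective
  rw [← EVan.of_iso (e : (M'.res φ).X →ₗ[Q.Bm.A] M.X) hbij, EVan.res_iso φ hφ M']
  have h1 : IsWt Q (M'.res φ) := hM.of_injective (e : (M'.res φ).X →ₗ[Q.Bm.A] M.X) hbij.1
  have h2 : IsWt Q.bar M' := (isWt_bar M').2 (V1_isWt_res φ M' h1)
  refine EVan_B (Q := Q.bar) h2 (-c) ?_ hn
  intro μ hμ
  rw [wts_bar, ← V1_wts_res φ] at hμ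
  have h3 : wts Q M (-μ) ≠ ⊥ := by
    intro h4
    apply hμ
    rw [eq_bot_iff]
    intro x hx
    have h5 : e x ∈ wts Q M (-μ) := wt_map_mem (e : (M'.res φ).X →ₗ[Q.Bm.A] M.X) hx
    rw [h4] at h5
    have h6 : e x = 0 := (Submodule.mem_bot k).1 h5
    have h7 : x = 0 := by
      apply hbij.1
      show e x = e 0
      rw [h6, map_zero]
    rw [h7]
    exact zero_mem _
  have h4 := hc _ h3
  have h5 : ht (-μ) = -ht μ := by
    unfold ht
    rw [← Finset.sum_neg_distrib]
    rfl
  rw [h5] at h4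
  linarith

end Pool.Agent.Lib.QG
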